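import Mathlib
import Pool.Agent.Lib.MP_ae5b4e_an_NC.Fra

/-!
# MP_ae5b4e_an, project LOC: a frame in which the curve is near the background curve

`P` and `P0` are curves with Wronskian one whose third order equations have close coefficients:
after a linear map of determinant one `P` is near `P0` (with two derivatives).
-/

noncomputable section

namespace Pool.Agent.MP_ae5b4e_an_LOC

open Real Set Filter Topology MeasureTheory intervalIntegral
open scoped ContDiff Matrix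
open Pool.Agent.MP_ae5b4e_an_hopf
open Pool.Agent.MP_ae5b4e_an_NC

/-- three vectors of determinant one can be mapped to three vectors of determinant one -/
lemma exists_mat' {a b c a' b' c' : Fin 3 → ℝ} (h : det3 a b c = 1) (h' : det3 a' b' c' = 1) :
    ∃ M : Matrix (Fin 3) (Fin 3) ℝ, M.det = 1 ∧ M *ᵥ a = a' ∧ M *ᵥ b = b' ∧ M *ᵥ c = c' := by
  obtain ⟨M, hM, h1, h2, h3⟩ := exists_mat h
  obtain ⟨N, hN, k1, k2, k3⟩ := exists_mat h'
  have hNu : IsUnit N.det := by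
    rw [hN]
    exact isUnit_one
  have hinv : ∀ v, N⁻¹ *ᵥ (N *ᵥ v) = v := fun v => by
    rw [Matrix.mulVec_mulVec, Matrix.nonsing_inv_mul _ hNu, Matrix.one_mulVec]
  refine ⟨N⁻¹ * M, ?_, ?_, ?_, ?_⟩
  · rw [Matrix.det_mul, Matrix.det_nonsing_inv, hN, hM]
    simp
  · rw [← Matrix.mulVec_mulVec, h1, ← k1, hinv]
  · rw [← Matrix.mulVec_mulVec, h2, ← k2, hinv]
  · rw [← Matrix.mulVec_mulVec, h3, ← k3, hinv]

/-- Gronwall for the third order equation -/
lemma gron {P0 : ℝ → Fin 3 → ℝ} {r0 m0 : ℝ → ℝ} (h : Curve 1 P0)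
    (hode : ∀ x, deriv (deriv (deriv P0)) x = -(r0 x) • deriv P0 x - m0 x • P0 x)
    {K B : ℝ} (hK : 0 ≤ K) (hr0 : ∀ x, |r0 x| ≤ K) (hm0 : ∀ x, |m0 x| ≤ K)
    (hB : ∀ x, ‖P0 x‖ ≤ B) (hB1 : ∀ x, ‖deriv P0 x‖ ≤ B) {ε : ℝ} (hε : ε ≤ 1)
    {P : ℝ → Fin 3 → ℝ} {r m : ℝ → ℝ} (k : Curve 1 P)
    (kode : ∀ x, deriv (deriv (deriv P)) x = -(r x) • deriv P x - m x • P x)
    (hr : ∀ x, |r x - r0 x| ≤ ε) (hm : ∀ x, |m x - m0 x| ≤ ε) (h0 : P 0 = P0 0)
    (h1 : deriv P 0 = deriv P0 0) (h2 : deriv (deriv P) 0 = deriv (deriv P0) 0) (x : ℝ) :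
    ‖P x - P0 x‖ ≤ 2 * B * Real.exp (2 * K + 3) * ε ∧
      ‖deriv P x - deriv P0 x‖ ≤ 2 * B * Real.exp (2 * K + 3) * ε ∧
      ‖deriv (deriv P) x - deriv (deriv P0) x‖ ≤ 2 * B * Real.exp (2 * K + 3) * ε := by
  have hε0 : 0 ≤ ε := (abs_nonneg _).trans (hm 0)
  have hB0 : 0 ≤ B := (norm_nonneg _).trans (hB 0)
  -- reduction to `[0, 1)`
  wlog hx : x ∈ Ico (0:ℝ) 1 generalizing x
  · have hper : Function.Periodic (fun x => (P x - P0 x, deriv P x - deriv P0 x,
        deriv (deriv P) x - deriv (deriv P0) x)) 1 := by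
      intro x
      simp only [k.per, k.per1, k.per2, h.per, h.per1, h.per2]
    obtain ⟨y, hy, hy'⟩ := hper.exists_mem_Ico₀ one_pos x
    have k := this y hy
    have e1 : P x - P0 x = P y - P0 y := congrArg Prod.fst hy'
    have e2 : deriv P x - deriv P0 x = deriv P y - deriv P0 y :=
      congrArg Prod.fst (congrArg Prod.snd hy')
    have e3 : deriv (deriv P) x - deriv (deriv P0) x = deriv (deriv P) y - deriv (deriv P0) y :=
      congrArg Prod.snd (congrArg Prod.snd hy')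
    rw [e1, e2, e3]
    exact k
  set f : ℝ → (Fin 3 → ℝ) × (Fin 3 → ℝ) × (Fin 3 → ℝ) := fun t =>
    (P t - P0 t, deriv P t - deriv P0 t, deriv (deriv P) t - deriv (deriv P0) t) with hf
  set f' : ℝ → (Fin 3 → ℝ) × (Fin 3 → ℝ) × (Fin 3 → ℝ) := fun t =>
    (deriv P t - deriv P0 t, deriv (deriv P) t - deriv (deriv P0) t,
      deriv (deriv (deriv P)) t - deriv (deriv (deriv P0)) t) with hf'
  have hd : ∀ t, HasDerivAt f (f' t) t := fun t =>
    ((k.hd0 t).sub (h.hd0 t)).prodMk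
      (((k.hd1 t).sub (h.hd1 t)).prodMk ((k.hd2 t).sub (h.hd2 t)))
  have hbound : ∀ t, ‖f' t‖ ≤ (2 * K + 3) * ‖f t‖ + 2 * B * ε := by
    intro t
    have n1 : ‖P t - P0 t‖ ≤ ‖f t‖ := norm_fst_le (f t)
    have n2 : ‖deriv P t - deriv P0 t‖ ≤ ‖f t‖ :=
      (norm_fst_le (f t).2).trans (norm_snd_le (f t))
    have n3 : ‖deriv (deriv P) t - deriv (deriv P0) t‖ ≤ ‖f t‖ :=
      (norm_snd_le (f t).2).trans (norm_snd_le (f t))
    have hf0 : 0 ≤ ‖f t‖ := norm_nonneg _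
    have hBε : 0 ≤ 2 * B * ε := by positivity
    have hone : ‖f t‖ ≤ (2 * K + 3) * ‖f t‖ := by nlinarith
    rw [norm_prod_le_iff, norm_prod_le_iff]
    refine ⟨n2.trans (by linarith), n3.trans (by linarith), ?_⟩
    show ‖deriv (deriv (deriv P)) t - deriv (deriv (deriv P0)) t‖ ≤ _
    have e1 : deriv (deriv (deriv P)) t - deriv (deriv (deriv P0)) t =
        -(r t) • (deriv P t - deriv P0 t) - m t • (P t - P0 t) -
        (r t - r0 t) • deriv P0 t - (m t - m0 t) • P0 t := by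
      rw [kode t, hode t]
      module
    rw [e1]
    have r1 : |r t| ≤ K + 1 := by
      have := abs_le.1 ((hr t).trans hε)
      have := abs_le.1 (hr0 t)
      rw [abs_le]
      constructor <;> linarith
    have m1 : |m t| ≤ K + 1 := by
      have := abs_le.1 ((hm t).trans hε)
      have := abs_le.1 (hm0 t)
      rw [abs_le]
      constructor <;> linarith
    have k1 : ‖-(r t) • (deriv P t - deriv P0 t)‖ ≤ (K + 1) * ‖f t‖ := by
      rw [norm_smul, norm_neg, Real.norm_eq_abs]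
      exact mul_le_mul r1 n2 (norm_nonneg _) (by positivity)
    have k2 : ‖m t • (P t - P0 t)‖ ≤ (K + 1) * ‖f t‖ := by
      rw [norm_smul, Real.norm_eq_abs]
      exact mul_le_mul m1 n1 (norm_nonneg _) (by positivity)
    have k3 : ‖(r t - r0 t) • deriv P0 t‖ ≤ ε * B := by
      rw [norm_smul, Real.norm_eq_abs]
      exact mul_le_mul (hr t) (hB1 t) (norm_nonneg _) hε0
    have k4 : ‖(m t - m0 t) • P0 t‖ ≤ ε * B := by
      rw [norm_smul, Real.norm_eq_abs]
      exact mul_le_mul (hm t) (hB t) (norm_nonneg _) hε0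
    refine (norm_sub_le _ _).trans ?_
    refine (add_le_add (norm_sub_le _ _) le_rfl).trans ?_
    refine (add_le_add (add_le_add (norm_sub_le _ _) le_rfl) le_rfl).trans ?_
    nlinarith
  have hf0 : f 0 = 0 := by
    simp only [hf, h0, h1, h2, sub_self]
    rfl
  have hG := norm_le_gronwallBound_of_norm_deriv_right_le (f := f) (f' := f') (δ := 0)
    (K := 2 * K + 3) (ε := 2 * B * ε) (a := 0) (b := 1)
    (fun t _ => (hd t).continuousAt.continuousWithinAt)
    (fun t _ => (hd t).hasDerivWithinAt) (by rw [hf0, norm_zero]) (fun t _ => hbound t) x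
    ⟨hx.1, hx.2.le⟩
  have hK3 : (2 * K + 3) ≠ 0 := by positivity
  rw [gronwallBound_of_K_ne_0 hK3] at hG
  simp only at hG
  have hexp : Real.exp ((2 * K + 3) * (x - 0)) ≤ Real.exp (2 * K + 3) := by
    refine Real.exp_le_exp.2 ?_
    nlinarith [hx.2, hx.1]
  have hfin : ‖f x‖ ≤ 2 * B * Real.exp (2 * K + 3) * ε := by
    refine hG.trans ?_
    rw [zero_mul, zero_add]
    have h4 : 2 * B * ε / (2 * K + 3) ≤ 2 * B * ε := by
      refine div_le_self (by positivity) (by linarith)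
    have h5 : Real.exp ((2 * K + 3) * (x - 0)) - 1 ≤ Real.exp (2 * K + 3) := by linarith
    have h6 : 0 ≤ Real.exp ((2 * K + 3) * (x - 0)) - 1 := by
      have : 0 ≤ (2 * K + 3) * (x - 0) := by
        have := hx.1
        have : 0 ≤ x - 0 := by linarith
        positivity
      linarith [Real.one_le_exp this]
    calc 2 * B * ε / (2 * K + 3) * (Real.exp ((2 * K + 3) * (x - 0)) - 1)
        ≤ 2 * B * ε * Real.exp (2 * K + 3) := mul_le_mul h4 h5 h6 (by positivity)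
      _ = 2 * B * Real.exp (2 * K + 3) * ε := by ring
  exact ⟨(norm_fst_le (f x)).trans hfin,
    ((norm_fst_le (f x).2).trans (norm_snd_le (f x))).trans hfin,
    ((norm_snd_le (f x).2).trans (norm_snd_le (f x))).trans hfin⟩

/-- THE FRAME: after a linear map of determinant one the curve is near the background curve. -/
theorem fra_bg {P0 : ℝ → Fin 3 → ℝ} {r0 m0 : ℝ → ℝ} (h : Curve 1 P0) (hW : ∀ x, Wr P0 x = 1)
    (hode : ∀ x, deriv (deriv (deriv P0)) x = -(r0 x) • deriv P0 x - m0 x • P0 x)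
    {K : ℝ} (hr0 : ∀ x, |r0 x| ≤ K) (hm0 : ∀ x, |m0 x| ≤ K) :
    ∃ C > 0, ∀ ε : ℝ, ε ≤ 1 → ∀ (P : ℝ → Fin 3 → ℝ) (r m : ℝ → ℝ), Curve 1 P →
      (∀ x, Wr P x = 1) →
      (∀ x, deriv (deriv (deriv P)) x = -(r x) • deriv P x - m x • P x) →
      (∀ x, |r x - r0 x| ≤ ε) → (∀ x, |m x - m0 x| ≤ ε) →
      ∃ M : Matrix (Fin 3) (Fin 3) ℝ, M.det = 1 ∧ Curve 1 (fun x => M *ᵥ P x) ∧
        M *ᵥ P 0 = P0 0 ∧ M *ᵥ deriv P 0 = deriv P0 0 ∧
        M *ᵥ deriv (deriv P) 0 = deriv (deriv P0) 0 ∧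
        ∀ x, ‖M *ᵥ P x - P0 x‖ ≤ C * ε ∧ ‖M *ᵥ deriv P x - deriv P0 x‖ ≤ C * ε ∧
          ‖M *ᵥ deriv (deriv P) x - deriv (deriv P0) x‖ ≤ C * ε := by
  have hK : 0 ≤ K := (abs_nonneg _).trans (hr0 0)
  -- bounds of the background curve
  have hbd : ∀ g : ℝ → Fin 3 → ℝ, Continuous g → Function.Periodic g 1 → ∃ B, ∀ x, ‖g x‖ ≤ B := by
    intro g hg hp
    obtain ⟨B, hB⟩ := (isCompact_Icc (a := (0:ℝ)) (b := 1)).exists_bound_of_continuousOn
      hg.continuousOn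
    refine ⟨B, fun x => ?_⟩
    obtain ⟨y, hy, hy'⟩ := hp.exists_mem_Ico₀ one_pos x
    rw [hy']
    exact hB y (Ico_subset_Icc_self hy)
  obtain ⟨B0, hB0⟩ := hbd P0 h.smooth.continuous h.per
  obtain ⟨B1, hB1⟩ := hbd (deriv P0) (continuous_iff_continuousAt.2 fun x =>
    (h.hd1 x).continuousAt) h.per1
  set B := max B0 B1 with hBdef
  have hBp : 0 ≤ B := (norm_nonneg _).trans ((hB0 0).trans (le_max_left _ _))
  refine ⟨2 * B * Real.exp (2 * K + 3) + 1, by positivity, ?_⟩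
  intro ε hε P r m k kW kode hr hm
  have hε0 : 0 ≤ ε := (abs_nonneg _).trans (hm 0)
  obtain ⟨M, hM, a0, a1, a2⟩ := exists_mat' (kW 0) (hW 0)
  have b0 := curve_mv M k hM
  have d1 := deriv_mv M k
  have d2 := deriv2_mv M k
  have d3 := deriv3_mv M k
  refine ⟨M, hM, b0, a0, a1, a2, fun x => ?_⟩
  have g := gron (ε := ε) h hode hK hr0 hm0 (fun x => (hB0 x).trans (le_max_left _ _))
    (fun x => (hB1 x).trans (le_max_right _ _)) hε b0 (r := r) (m := m) (fun x => by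
      rw [d3, d1]
      simp only
      rw [kode x, Matrix.mulVec_sub, Matrix.mulVec_smul, Matrix.mulVec_smul]) hr hm a0
    (by rw [d1]; exact a1) (by rw [d2]; exact a2) x
  rw [d2, d1] at g
  have hle : 2 * B * Real.exp (2 * K + 3) * ε ≤ (2 * B * Real.exp (2 * K + 3) + 1) * ε := by
    nlinarith
  exact ⟨g.1.trans hle, g.2.1.trans hle, g.2.2.trans hle⟩

end Pool.Agent.MP_ae5b4e_an_LOC
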