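import Mathlib
import Pool.Agent.Lib.MP_ae5b4e_an_NC.AnaF
import Pool.Agent.Lib.MP_ae5b4e_an_LOC.FraG
import Pool.Agent.Lib.MP_ae5b4e_an_RIG.CCor
import Pool.Agent.Lib.MP_ae5b4e_an_RIG.GGeo
import Pool.Agent.Lib.MP_ae5b4e_an_RIG.GMod

/-!
# MP_ae5b4e_an, project LOC (A5): closeness to the background in an analytic norm

`rm_decay_bg`: uniform exponential decay of the coefficients of `r`, `m` for the solutions with given
bounds; `ana_bg`: in a suitable frame the curve is `C √ε`-close to the background curve in an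
analytic norm (the general background version of `NC/Ana.lean`).
-/

noncomputable section

namespace Pool.Agent.MP_ae5b4e_an_LOC

open Real Set Filter Topology MeasureTheory intervalIntegral Matrix
open scoped ContDiff
open Pool.Agent.MP_ae5b4e_an_hopf
open Pool.Agent.MP_ae5b4e_an_RG
open Pool.Agent.MP_ae5b4e_an_RIG
open Pool.Agent.MP_ae5b4e_an_NC

/-- the decay of the coefficients of `r` and `m`, uniformly for given bounds -/
theorem rm_decay_bg (K δ : ℝ) (hK : 0 ≤ K) (hδ : 0 < δ) : ∃ ρ A : ℝ, 0 < ρ ∧ 1 ≤ A ∧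
    ∀ (P : ℝ → Fin 3 → ℝ) (U : ℝ → ℝ → ℝ) (r m : ℝ → ℝ), LSys 1 P U (fun _ => 0) →
      (∀ x, Wr P x = 1) → ContDiff ℝ ∞ r → ContDiff ℝ ∞ m → Function.Periodic r 1 →
      Function.Periodic m 1 →
      (∀ x, deriv (deriv (deriv P)) x = -(r x) • deriv P x - m x • P x) → Bnd K r m →
      (∃ c ∈ Ioo (0:ℝ) 1, ∀ t, t + δ ≤ nxt P 1 U c t) →
      (∫ x in (0:ℝ)..1, m x = 0) ∧
      (∀ N : ℕ, Dec ρ N A (prm m) ∧ Dec ρ N A (fun x => r x - prm m x)) ∧
      ∀ (N : ℕ) (k : ℤ), ‖rc r k‖ ≤ 7 * A / V ρ N 2 k ∧ ‖rc m k‖ ≤ 7 * A / V ρ N 2 k := by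
  obtain ⟨Cs, q0, hCs, H⟩ := geo_unif K δ hK hδ
  obtain ⟨ρ, A, hρ, hA, HA⟩ := core_unif (2 * K) Cs q0 (by positivity) hCs
  refine ⟨ρ, A, hρ, hA, ?_⟩
  intro P U r m h hW sr sm pr pm hode hB hst
  obtain ⟨h0, hL⟩ := H P U r m h hW sr sm pr pm hode hB hst
  have hd := dec sr sm pr pm h0 hB
  have hdec := HA _ _ hd.1 hd.2 (hL _ _ (hasDerivAt_prm sm) (fun _ => rfl))
  refine ⟨h0, hdec, ?_⟩
  intro N k
  obtain ⟨k1, k2⟩ := hdec N
  have e1 := Dec.rc_le hρ.le k1 k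
  have e2 := Dec.rc_le hρ.le k2 k
  have hV2 := V_pos ρ N 2 k
  have hV3 := V_pos ρ N 3 k
  have hk := abs_nonneg (k:ℝ)
  have e3 : (1 + |(k:ℝ)|) * ‖rc (prm m) k‖ ≤ A / V ρ N 2 k := by
    rw [le_div_iff₀ hV2]
    rw [V_succ, le_div_iff₀ (by positivity)] at e1
    linarith
  have e4 : (1 + |(k:ℝ)|) * ‖rc (fun x => r x - prm m x) k‖ ≤ A / V ρ N 2 k := by
    rw [le_div_iff₀ hV2]
    rw [V_succ, le_div_iff₀ (by positivity)] at e2
    linarith
  have n1 := norm_nonneg (rc (prm m) k)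
  have n2 := norm_nonneg (rc (fun x => r x - prm m x) k)
  have hAV : 0 ≤ A / V ρ N 2 k := by positivity
  constructor
  · have e5 := rc_sub_prm sr sm k
    have e6 : rc r k = rc (fun x => r x - prm m x) k + rc (prm m) k := by
      rw [e5]
      ring
    rw [e6]
    refine (norm_add_le _ _).trans ?_
    have e7 : 7 * A / V ρ N 2 k = 7 * (A / V ρ N 2 k) := by ring
    rw [e7]
    nlinarith
  · rw [rc_eq_prm sm pm h0 k, norm_mul]
    have e5 : ‖(2 * π * Complex.I * (k : ℂ) : ℂ)‖ = 2 * π * |(k:ℝ)| := by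
      rw [norm_mul, norm_mul, norm_mul, Complex.norm_I, Complex.norm_intCast, Complex.norm_real,
        Real.norm_of_nonneg Real.pi_pos.le]
      simp
    rw [e5]
    have hp := Real.pi_lt_d2
    have hp0 := Real.pi_pos
    have e6 : |(k:ℝ)| * ‖rc (prm m) k‖ ≤ A / V ρ N 2 k := by nlinarith
    calc 2 * π * |(k:ℝ)| * ‖rc (prm m) k‖ = 2 * π * (|(k:ℝ)| * ‖rc (prm m) k‖) := by ring
      _ ≤ 7 * (A / V ρ N 2 k) := mul_le_mul (by linarith) e6 (by positivity) (by norm_num)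
      _ = 7 * A / V ρ N 2 k := by ring

private lemma WR_of_rc {ρ B : ℝ} {b : ℕ} {f : ℝ → ℝ} (hf : ContDiff ℝ ∞ f)
    (pf : Function.Periodic f 1)
    (h : ∀ k, ‖rc f k‖ ≤ B / ((1 + |(k:ℝ)|) ^ b * Real.exp (ρ * |(k:ℝ)|))) : WR ρ b B f := by
  obtain ⟨A0, hA0, hdec⟩ := dec_of_contDiff hf pf
  exact ⟨rc f, h, fun x => Dec.hasSum_rc (le_refl 0) hdec x⟩


/-- the interpolation between the smallness and the decay -/
private lemma interp {ρ : ℝ} (hρ : 0 < ρ) : ∃ C : ℝ, 0 < C ∧ ∀ (a ε B n : ℝ), 0 ≤ a → 0 ≤ ε →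
    0 ≤ B → 0 ≤ n → a ≤ B * ε → a ≤ B * Real.exp (-(ρ * n)) →
    a ≤ C * B * √ε / ((1 + n) ^ 3 * Real.exp (ρ / 4 * n)) := by
  set c : ℝ := max 1 (12 / ρ) with hc
  have hc1 : 1 ≤ c := le_max_left _ _
  have hc0 : 0 < c := by linarith
  refine ⟨c ^ 3, by positivity, ?_⟩
  intro a ε B n ha hε hB hn h1 h2
  -- `a ≤ B √ε exp (-ρ n / 2)`
  have h3 : a ≤ B * (√ε * Real.exp (-(ρ / 2 * n))) := by
    have e1 : Real.exp (-(ρ * n)) = Real.exp (-(ρ / 2 * n)) ^ 2 := by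
      rw [← Real.exp_nat_mul]
      congr 1
      push_cast
      ring
    have e2 : a ^ 2 ≤ (B * (√ε * Real.exp (-(ρ / 2 * n)))) ^ 2 := by
      have e3 : (B * (√ε * Real.exp (-(ρ / 2 * n)))) ^ 2 =
          (B * ε) * (B * Real.exp (-(ρ * n))) := by
        rw [e1, mul_pow, mul_pow, Real.sq_sqrt hε]
        ring
      rw [e3, sq]
      exact mul_le_mul h1 h2 ha (by positivity)
    exact le_of_sq_le_sq e2 (by positivity)
  have h4 : (1 + n) ^ 3 ≤ c ^ 3 * Real.exp (ρ / 4 * n) := by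
    have h5 : 1 + n ≤ c * Real.exp (ρ / 12 * n) := by
      have h6 := Real.add_one_le_exp (ρ / 12 * n)
      have h7 : 12 / ρ ≤ c := le_max_right _ _
      have h8 : n ≤ c * (ρ / 12 * n) := by
        have h9 : 12 / ρ * (ρ / 12 * n) = n := by field_simp
        calc n = 12 / ρ * (ρ / 12 * n) := h9.symm
          _ ≤ c * (ρ / 12 * n) := mul_le_mul_of_nonneg_right h7 (by positivity)
      calc 1 + n ≤ c * 1 + c * (ρ / 12 * n) := by linarith
        _ = c * (ρ / 12 * n + 1) := by ring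
        _ ≤ c * Real.exp (ρ / 12 * n) := mul_le_mul_of_nonneg_left h6 hc0.le
    have h6 : Real.exp (ρ / 4 * n) = Real.exp (ρ / 12 * n) ^ 3 := by
      rw [← Real.exp_nat_mul]
      congr 1
      push_cast
      ring
    rw [h6, ← mul_pow]
    exact pow_le_pow_left₀ (by positivity) h5 3
  rw [le_div_iff₀ (by positivity)]
  have h5 : Real.exp (-(ρ / 2 * n)) * Real.exp (ρ / 4 * n) * Real.exp (ρ / 4 * n) = 1 := by
    rw [← Real.exp_add, ← Real.exp_add, ← Real.exp_zero]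
    congr 1
    ring
  calc a * ((1 + n) ^ 3 * Real.exp (ρ / 4 * n)) ≤
      (B * (√ε * Real.exp (-(ρ / 2 * n)))) *
        ((c ^ 3 * Real.exp (ρ / 4 * n)) * Real.exp (ρ / 4 * n)) := by gcongr
    _ = c ^ 3 * B * √ε *
        (Real.exp (-(ρ / 2 * n)) * Real.exp (ρ / 4 * n) * Real.exp (ρ / 4 * n)) := by ring
    _ = c ^ 3 * B * √ε := by rw [h5, mul_one]


private lemma of_all_N {ρ a B : ℝ} {k : ℤ} (h : ∀ N : ℕ, a ≤ B / V ρ N 3 k) (hρ : 0 ≤ ρ)
    (hB : 0 ≤ B) : a ≤ B * Real.exp (-(ρ * |(k:ℝ)|)) := by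
  obtain ⟨N, hN⟩ := exists_nat_ge |(k:ℝ)|
  refine (h N).trans ?_
  unfold V w
  rw [min_eq_left hN, Real.exp_neg, div_eq_mul_inv]
  refine mul_le_mul_of_nonneg_left ?_ hB
  refine inv_anti₀ (Real.exp_pos _) ?_
  have h1 : (1:ℝ) ≤ (1 + |(k:ℝ)|) ^ 3 := one_le_pow₀ (by linarith [abs_nonneg (k:ℝ)])
  exact le_mul_of_one_le_left (Real.exp_pos _).le h1


private lemma rc_sub' {f g : ℝ → ℝ} (hf : Continuous f) (hg : Continuous g) (k : ℤ) :
    rc (fun x => f x - g x) k = rc f k - rc g k := by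
  have c1 : Continuous fun x : ℝ => ((f x : ℝ) : ℂ) * e (-k) x :=
    (Complex.continuous_ofReal.comp hf).mul (continuous_e (-k))
  have c2 : Continuous fun x : ℝ => ((g x : ℝ) : ℂ) * e (-k) x :=
    (Complex.continuous_ofReal.comp hg).mul (continuous_e (-k))
  unfold rc fc
  rw [← intervalIntegral.integral_sub (c1.intervalIntegrable _ _) (c2.intervalIntegrable _ _)]
  refine intervalIntegral.integral_congr fun x _ => ?_
  push_cast
  ring


private lemma hdP {P : ℝ → Fin 3 → ℝ} (h : ContDiff ℝ ∞ P) (x : ℝ) (i : Fin 3) :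
    HasDerivAt (fun x => P x i) (deriv P x i) x :=
  hasDerivAt_pi.1 ((h.differentiable (by norm_num) x).hasDerivAt) i

private lemma deriv_comp3 {P : ℝ → Fin 3 → ℝ} (h : ContDiff ℝ ∞ P) (i : Fin 3) :
    deriv (fun x => P x i) = fun x => deriv P x i :=
  funext fun x => (hdP h x i).deriv

private lemma contDiff_deriv3 {P : ℝ → Fin 3 → ℝ} (h : ContDiff ℝ ∞ P) :
    ContDiff ℝ ∞ (deriv P) := (contDiff_infty_iff_deriv.1 h).2


private lemma ode_comp3 {P : ℝ → Fin 3 → ℝ} {r m : ℝ → ℝ} (h : ContDiff ℝ ∞ P)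
    (hode : ∀ x, deriv (deriv (deriv P)) x = -(r x) • deriv P x - m x • P x) (i : Fin 3) (x : ℝ) :
    deriv (deriv (deriv (fun x => P x i))) x =
      -(r x) * deriv (fun x => P x i) x - m x * P x i := by
  rw [deriv_comp3 h, deriv_comp3 (contDiff_deriv3 h),
    deriv_comp3 (contDiff_deriv3 (contDiff_deriv3 h))]
  simp only [hode x, Pi.sub_apply, Pi.smul_apply, smul_eq_mul]


/-- a bound for the background curve -/
private lemma bd_curve {P0 : ℝ → Fin 3 → ℝ} (h : Curve 1 P0) :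
    ∃ B : ℝ, 0 ≤ B ∧ ∀ x, ‖P0 x‖ ≤ B := by
  obtain ⟨B, hB⟩ := (isCompact_Icc (a := (0:ℝ)) (b := 1)).exists_bound_of_continuousOn
    h.smooth.continuous.continuousOn
  refine ⟨max B 0, le_max_right _ _, fun x => ?_⟩
  have hp : Function.Periodic P0 1 := h.per
  obtain ⟨y, hy, hy'⟩ := hp.exists_mem_Ico₀ one_pos x
  rw [hy']
  exact (hB y (Ico_subset_Icc_self hy)).trans (le_max_left _ _)

private lemma per_deriv {f : ℝ → ℝ} (p : Function.Periodic f 1) :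
    Function.Periodic (deriv f) 1 := by
  intro x
  have e1 : (fun y => f (y + 1)) = f := funext p
  have e2 := deriv_comp_add_const f 1 x
  rw [e1] at e2
  exact e2.symm

/-- the curve is close to the background in an analytic norm -/
theorem ana_bg {P0 : ℝ → Fin 3 → ℝ} {r0 m0 : ℝ → ℝ} (h : Curve 1 P0) (hW : ∀ x, Wr P0 x = 1)
    (hode : ∀ x, deriv (deriv (deriv P0)) x = -(r0 x) • deriv P0 x - m0 x • P0 x)
    (sr0 : ContDiff ℝ ∞ r0) (sm0 : ContDiff ℝ ∞ m0) (pr0 : Function.Periodic r0 1)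
    (pm0 : Function.Periodic m0 1) {K : ℝ} (hr0 : ∀ x, |r0 x| ≤ K) (hm0 : ∀ x, |m0 x| ≤ K)
    {ρ A : ℝ} (hρ : 0 < ρ) (hA : 0 ≤ A) (dr0 : ∀ (N : ℕ) (k : ℤ), ‖rc r0 k‖ ≤ A / V ρ N 2 k)
    (dm0 : ∀ (N : ℕ) (k : ℤ), ‖rc m0 k‖ ≤ A / V ρ N 2 k) :
    ∃ C > 0, ∀ ε : ℝ, ε ≤ 1 → ∀ (P : ℝ → Fin 3 → ℝ) (r m : ℝ → ℝ), Curve 1 P →
      (∀ x, Wr P x = 1) →
      (∀ x, deriv (deriv (deriv P)) x = -(r x) • deriv P x - m x • P x) →
      ContDiff ℝ ∞ r → ContDiff ℝ ∞ m → Function.Periodic r 1 → Function.Periodic m 1 →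
      (∀ x, |r x - r0 x| ≤ ε) → (∀ x, |m x - m0 x| ≤ ε) →
      (∀ (N : ℕ) (k : ℤ), ‖rc r k‖ ≤ A / V ρ N 2 k) →
      (∀ (N : ℕ) (k : ℤ), ‖rc m k‖ ≤ A / V ρ N 2 k) →
      ∃ M : Matrix (Fin 3) (Fin 3) ℝ, M.det = 1 ∧ Curve 1 (fun x => M *ᵥ P x) ∧
        (∀ x, ‖M *ᵥ P x - P0 x‖ ≤ C * ε ∧ ‖M *ᵥ deriv P x - deriv P0 x‖ ≤ C * ε ∧
          ‖M *ᵥ deriv (deriv P) x - deriv (deriv P0) x‖ ≤ C * ε) ∧
        ∀ i, WR (ρ / 4) 2 (C * √ε) (fun x => (M *ᵥ P x) i - P0 x i) ∧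
          WR (ρ / 4) 2 (C * √ε) (fun x => (M *ᵥ deriv P x) i - deriv P0 x i) := by
  obtain ⟨E, hE0, HE⟩ := fra_bg h hW hode hr0 hm0
  obtain ⟨C1, hC1, H1⟩ := ode_decay hρ.le hA
  obtain ⟨C2, hC2, H2⟩ := interp hρ
  obtain ⟨b, hb0, hb⟩ := bd_curve h
  set B : ℝ := C1 * (E + b) + C1 * b + E with hBdef
  have hB0 : 0 < B := by positivity
  refine ⟨7 * (C2 * B) + E, by positivity, ?_⟩
  intro ε hε1 P r m hP hPW hPode sr sm pr pm hr hm dr dm
  have hε0 : 0 ≤ ε := (abs_nonneg _).trans (hr 0)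
  obtain ⟨M, hM, hC, -, -, -, hnear⟩ := HE ε hε1 P r m hP hPW hPode hr hm
  refine ⟨M, hM, hC, fun x => ?_, fun i => ?_⟩
  · obtain ⟨k1, k2, k3⟩ := hnear x
    have : E * ε ≤ (7 * (C2 * B) + E) * ε := by
      refine mul_le_mul_of_nonneg_right ?_ hε0
      have : 0 ≤ 7 * (C2 * B) := by positivity
      linarith
    exact ⟨k1.trans this, k2.trans this, k3.trans this⟩
  set R : ℝ → Fin 3 → ℝ := fun x => M *ᵥ P x with hR
  have hRs : ContDiff ℝ ∞ R := hC.smooth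
  have dR1 : deriv R = fun x => M *ᵥ deriv P x := deriv_mv M hP
  have hRode : ∀ x, deriv (deriv (deriv R)) x = -(r x) • deriv R x - m x • R x := by
    intro x
    have d3 := deriv3_mv M hP
    rw [hR, d3, deriv_mv M hP]
    simp only
    rw [hPode x, Matrix.mulVec_sub, Matrix.mulVec_smul, Matrix.mulVec_smul]
  have hcomp : ∀ (v : Fin 3 → ℝ), |v i| ≤ ‖v‖ := fun v => norm_le_pi_norm v i
  have hD0 : ∀ x, |R x i - P0 x i| ≤ E * ε := fun x =>
    (hcomp (R x - P0 x)).trans (hnear x).1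
  have hf : ContDiff ℝ ∞ (fun x => R x i) := (contDiff_pi.1 hRs) i
  have hg : ContDiff ℝ ∞ (fun x => P0 x i) := (contDiff_pi.1 h.smooth) i
  have pf : Function.Periodic (fun x => R x i) 1 := fun x => by
    show R (x + 1) i = R x i
    rw [hC.per]
  have pg : Function.Periodic (fun x => P0 x i) 1 := fun x => by
    show P0 (x + 1) i = P0 x i
    rw [h.per]
  have hP1 : ∀ x, |R x i| ≤ E + b := by
    intro x
    have k1 := abs_le.1 (hD0 x)
    have k2 := abs_le.1 ((hcomp (P0 x)).trans (hb x))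
    have k3 : E * ε ≤ E := by nlinarith
    rw [abs_le]
    constructor <;> linarith [k1.1, k1.2, k2.1, k2.2]
  have d1 : ∀ k, ‖rc (fun x => R x i) k‖ ≤ C1 * (E + b) * Real.exp (-(ρ * |(k:ℝ)|)) := by
    intro k
    refine of_all_N (fun N => ?_) hρ.le (by positivity)
    exact H1 N r m _ sr sm hf pr pm pf (dr N) (dm N) (ode_comp3 hRs hRode i) _ hP1 k
  have d2 : ∀ k, ‖rc (fun x => P0 x i) k‖ ≤ C1 * b * Real.exp (-(ρ * |(k:ℝ)|)) := by
    intro k
    refine of_all_N (fun N => ?_) hρ.le (by positivity)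
    exact H1 N r0 m0 _ sr0 sm0 hg pr0 pm0 pg (dr0 N) (dm0 N) (ode_comp3 h.smooth hode i) _
      (fun x => (hcomp (P0 x)).trans (hb x)) k
  have hk : ∀ k : ℤ, ‖rc (fun x => R x i - P0 x i) k‖ ≤
      C2 * B * √ε / ((1 + |(k:ℝ)|) ^ 3 * Real.exp (ρ / 4 * |(k:ℝ)|)) := by
    intro k
    refine H2 _ ε B _ (norm_nonneg _) hε0 hB0.le (abs_nonneg _) ?_ ?_
    · refine (rc_norm_le hD0 k).trans (mul_le_mul_of_nonneg_right ?_ hε0)
      rw [hBdef]
      have : 0 ≤ C1 * (E + b) + C1 * b := by positivity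
      linarith
    · rw [rc_sub' hf.continuous hg.continuous]
      refine (norm_sub_le _ _).trans ((add_le_add (d1 k) (d2 k)).trans ?_)
      have hx := Real.exp_pos (-(ρ * |(k:ℝ)|))
      rw [← add_mul]
      refine mul_le_mul_of_nonneg_right ?_ hx.le
      rw [hBdef]
      linarith
  have hsub : ContDiff ℝ ∞ (fun x => R x i - P0 x i) := hf.sub hg
  have psub : Function.Periodic (fun x => R x i - P0 x i) 1 := fun x => by
    show R (x + 1) i - P0 (x + 1) i = R x i - P0 x i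
    rw [hC.per, h.per]
  have hsE : 0 ≤ C2 * B * √ε := by positivity
  have hderiv : deriv (fun x => R x i - P0 x i) = fun x => deriv R x i - deriv P0 x i := by
    funext x
    exact ((hdP hRs x i).sub (hdP h.smooth x i)).deriv
  have hdR : (fun x => (M *ᵥ deriv P x) i - deriv P0 x i) =
      fun x => deriv R x i - deriv P0 x i := by
    rw [dR1]
  have hfin : 7 * (C2 * B) * √ε ≤ (7 * (C2 * B) + E) * √ε :=
    mul_le_mul_of_nonneg_right (by linarith) (Real.sqrt_nonneg _)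
  constructor
  · refine WR_of_rc hsub psub fun k => (hk k).trans ?_
    have hn := abs_nonneg (k:ℝ)
    have hx := Real.exp_pos (ρ / 4 * |(k:ℝ)|)
    rw [div_le_div_iff₀ (by positivity) (by positivity)]
    have e1 : (1 + |(k:ℝ)|) ^ 2 ≤ (1 + |(k:ℝ)|) ^ 3 := pow_le_pow_right₀ (by linarith) (by norm_num)
    calc C2 * B * √ε * ((1 + |(k:ℝ)|) ^ 2 * Real.exp (ρ / 4 * |(k:ℝ)|)) ≤
        C2 * B * √ε * ((1 + |(k:ℝ)|) ^ 3 * Real.exp (ρ / 4 * |(k:ℝ)|)) := by gcongr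
      _ ≤ (7 * (C2 * B) + E) * √ε * ((1 + |(k:ℝ)|) ^ 3 * Real.exp (ρ / 4 * |(k:ℝ)|)) := by
        refine mul_le_mul_of_nonneg_right (le_trans ?_ hfin) (by positivity)
        linarith
  · rw [hdR]
    have hs1 : ContDiff ℝ ∞ (fun x => deriv R x i - deriv P0 x i) := by
      rw [← hderiv]
      exact (contDiff_infty_iff_deriv.1 hsub).2
    have ps1 : Function.Periodic (fun x => deriv R x i - deriv P0 x i) 1 := by
      rw [← hderiv]
      exact per_deriv psub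
    refine WR_of_rc hs1 ps1 fun k => ?_
    rw [← hderiv, rc_deriv hsub psub k, norm_mul]
    have e5 : ‖(2 * π * Complex.I * (k : ℂ) : ℂ)‖ = 2 * π * |(k:ℝ)| := by
      rw [norm_mul, norm_mul, norm_mul, Complex.norm_I, Complex.norm_intCast, Complex.norm_real,
        Real.norm_of_nonneg Real.pi_pos.le]
      simp
    rw [e5]
    have hn := abs_nonneg (k:ℝ)
    have hx := Real.exp_pos (ρ / 4 * |(k:ℝ)|)
    have k1 := hk k
    rw [le_div_iff₀ (by positivity)] at k1 ⊢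
    have hp := Real.pi_lt_d2
    have hp0 := Real.pi_pos
    have k2 : 0 ≤ ‖rc (fun x => R x i - P0 x i) k‖ := norm_nonneg _
    refine le_trans ?_ hfin
    calc 2 * π * |(k:ℝ)| * ‖rc (fun x => R x i - P0 x i) k‖ *
          ((1 + |(k:ℝ)|) ^ 2 * Real.exp (ρ / 4 * |(k:ℝ)|)) ≤
        7 * (1 + |(k:ℝ)|) * ‖rc (fun x => R x i - P0 x i) k‖ *
          ((1 + |(k:ℝ)|) ^ 2 * Real.exp (ρ / 4 * |(k:ℝ)|)) := by
          refine mul_le_mul_of_nonneg_right (mul_le_mul_of_nonneg_right ?_ k2) (by positivity)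
          nlinarith
      _ = 7 * (‖rc (fun x => R x i - P0 x i) k‖ *
          ((1 + |(k:ℝ)|) ^ 3 * Real.exp (ρ / 4 * |(k:ℝ)|))) := by ring
      _ ≤ 7 * (C2 * B * √ε) := by linarith
      _ = 7 * (C2 * B) * √ε := by ring

end Pool.Agent.MP_ae5b4e_an_LOC
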