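import Mathlib
import Pool.Agent.Lib.MP_ae5b4e_an_RG.AnD

/-!
# MP_ae5b4e_an, project NE: compactness of periodic analytic functions

A sequence of smooth functions of period one whose Fourier coefficients are at most
`B exp (- ρ |n|)` has a subsequence which converges uniformly with all derivatives.
-/

noncomputable section

namespace Pool.Agent.MP_ae5b4e_an_LOC

open Real Set Filter Topology MeasureTheory intervalIntegral
open scoped ContDiff
open Pool.Agent.MP_ae5b4e_an_RG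

namespace NeCp

lemma norm_e' (k : ℤ) (x : ℝ) : ‖e k x‖ = 1 := by
  unfold e
  rw [show (2 * π * Complex.I * (k : ℂ) * (x:ℂ)) = ((2 * π * k * x : ℝ) : ℂ) * Complex.I by
    push_cast; ring]
  exact Complex.norm_exp_ofReal_mul_I _

lemma summable_w {c : ℝ} (hc : 0 < c) (B : ℝ) :
    Summable fun k : ℤ => B * Real.exp (-(c * |(k:ℝ)|)) := by
  have h1 : Summable fun n : ℕ => Real.exp (n * (-c)) :=
    Real.summable_exp_nat_mul_iff.2 (by linarith)
  refine Summable.mul_left _ (Summable.of_nat_of_neg ?_ ?_)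
  · refine h1.congr fun n => ?_
    congr 1
    rw [Int.cast_natCast, abs_of_nonneg (Nat.cast_nonneg n)]
    ring
  · refine h1.congr fun n => ?_
    congr 1
    rw [Int.cast_neg, Int.cast_natCast, abs_neg, abs_of_nonneg (Nat.cast_nonneg n)]
    ring

lemma hasSum_smooth {f : ℝ → ℝ} (hf : ContDiff ℝ ∞ f) (pf : Function.Periodic f 1) (x : ℝ) :
    HasSum (fun k => rc f k * e k x) ((f x : ℝ) : ℂ) := by
  obtain ⟨A0, -, hD⟩ := dec_of_contDiff hf pf
  exact hD.hasSum_rc (le_refl 0) x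

lemma per_deriv' {f : ℝ → ℝ} (p : Function.Periodic f 1) : Function.Periodic (deriv f) 1 := by
  intro x
  have e1 : (fun y => f (y + 1)) = f := funext p
  have e2 := deriv_comp_add_const f 1 x
  rw [e1] at e2
  exact e2.symm

/-- decay of the coefficients of the derivative -/
lemma decay_deriv {ρ B : ℝ} (hρ : 0 < ρ) (hB : 0 ≤ B) {f : ℝ → ℝ} (hf : ContDiff ℝ ∞ f)
    (pf : Function.Periodic f 1) (h : ∀ n, ‖rc f n‖ ≤ B * Real.exp (-(ρ * |(n:ℝ)|))) (n : ℤ) :
    ‖rc (deriv f) n‖ ≤ (4 * π * B / ρ) * Real.exp (-(ρ / 2 * |(n:ℝ)|)) := by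
  rw [rc_deriv hf pf, norm_mul]
  have e2 : ‖(2 * π * Complex.I * (n : ℂ) : ℂ)‖ = 2 * π * |(n:ℝ)| := by
    rw [norm_mul, norm_mul, norm_mul, Complex.norm_I, Complex.norm_intCast, Complex.norm_real,
      Real.norm_of_nonneg Real.pi_pos.le]
    simp
  rw [e2]
  have h1 : ρ / 2 * |(n:ℝ)| ≤ Real.exp (ρ / 2 * |(n:ℝ)|) := by
    have := Real.add_one_le_exp (ρ / 2 * |(n:ℝ)|)
    linarith
  have h2 : Real.exp (-(ρ * |(n:ℝ)|)) =
      Real.exp (-(ρ / 2 * |(n:ℝ)|)) * Real.exp (-(ρ / 2 * |(n:ℝ)|)) := by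
    rw [← Real.exp_add]
    congr 1
    ring
  have h3 : ρ / 2 * |(n:ℝ)| * Real.exp (-(ρ / 2 * |(n:ℝ)|)) ≤ 1 := by
    rw [Real.exp_neg, ← div_eq_mul_inv, div_le_one (Real.exp_pos _)]
    exact h1
  have hπ := Real.pi_pos
  have h4 : 0 ≤ 4 * π * B / ρ := by positivity
  have e1 : 2 * π * |(n:ℝ)| * (B * Real.exp (-(ρ * |(n:ℝ)|))) =
      (4 * π * B / ρ) * Real.exp (-(ρ / 2 * |(n:ℝ)|)) *
        (ρ / 2 * |(n:ℝ)| * Real.exp (-(ρ / 2 * |(n:ℝ)|))) := by
    rw [h2]
    field_simp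
    ring
  have h5 : 0 ≤ (4 * π * B / ρ) * Real.exp (-(ρ / 2 * |(n:ℝ)|)) :=
    mul_nonneg h4 (Real.exp_pos _).le
  calc 2 * π * |(n:ℝ)| * ‖rc f n‖ ≤ 2 * π * |(n:ℝ)| * (B * Real.exp (-(ρ * |(n:ℝ)|))) :=
        mul_le_mul_of_nonneg_left (h n) (by positivity)
    _ = _ := e1
    _ ≤ (4 * π * B / ρ) * Real.exp (-(ρ / 2 * |(n:ℝ)|)) * 1 := mul_le_mul_of_nonneg_left h3 h5
    _ = _ := mul_one _

/-- convergence of the coefficients gives uniform convergence -/
lemma unif_of_coef {ρ B : ℝ} (hρ : 0 < ρ) {h : ℕ → ℝ → ℝ} (sh : ∀ k, ContDiff ℝ ∞ (h k))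
    (ph : ∀ k, Function.Periodic (h k) 1)
    (hd : ∀ k n, ‖rc (h k) n‖ ≤ B * Real.exp (-(ρ * |(n:ℝ)|))) {b : ℤ → ℂ}
    (hb : ∀ n, Tendsto (fun k => rc (h k) n) atTop (𝓝 (b n))) :
    TendstoUniformly h (fun x => (∑' n, b n * e n x).re) atTop := by
  have hb' : ∀ n, ‖b n‖ ≤ B * Real.exp (-(ρ * |(n:ℝ)|)) := fun n =>
    le_of_tendsto (hb n).norm (Eventually.of_forall fun k => hd k n)
  have hsw := summable_w hρ B
  have hsb : ∀ x, Summable fun n => b n * e n x := fun x => by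
    refine Summable.of_norm_bounded hsw fun n => ?_
    rw [norm_mul, norm_e', mul_one]
    exact hb' n
  -- the sums of the differences
  have hS : Tendsto (fun k => ∑' n, ‖rc (h k) n - b n‖) atTop (𝓝 0) := by
    have h1 : Tendsto (fun k => ∑' n, ‖rc (h k) n - b n‖) atTop (𝓝 (∑' _ : ℤ, (0:ℝ))) := by
      refine tendsto_tsum_of_dominated_convergence (bound := fun n : ℤ =>
        (2 * B) * Real.exp (-(ρ * |(n:ℝ)|))) (summable_w hρ (2 * B)) (fun n => ?_)
        (Eventually.of_forall fun k n => ?_)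
      · have h2 := ((hb n).sub_const (b n)).norm
        rwa [sub_self, norm_zero] at h2
      · rw [norm_norm]
        refine (norm_sub_le _ _).trans ?_
        have h3 := hd k n
        have h4 := hb' n
        linarith
    rwa [tsum_zero] at h1
  rw [Metric.tendstoUniformly_iff]
  intro ε hε
  filter_upwards [(tendsto_order.1 hS).2 ε hε] with k hk x
  have hsd : Summable fun n => ‖rc (h k) n - b n‖ := by
    refine Summable.of_nonneg_of_le (fun _ => norm_nonneg _) (fun n => ?_) (summable_w hρ (2 * B))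
    refine (norm_sub_le _ _).trans ?_
    have h3 := hd k n
    have h4 := hb' n
    linarith
  have e1 : ((h k x : ℝ) : ℂ) - ∑' n, b n * e n x = ∑' n, (rc (h k) n - b n) * e n x := by
    rw [← (hasSum_smooth (sh k) (ph k) x).tsum_eq,
      ← (hasSum_smooth (sh k) (ph k) x).summable.tsum_sub (hsb x)]
    refine tsum_congr fun n => ?_
    ring
  have e2 : (∑' n, b n * e n x).re - h k x = -(((h k x : ℝ) : ℂ) - ∑' n, b n * e n x).re := by
    rw [Complex.sub_re, Complex.ofReal_re]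
    ring
  rw [Real.dist_eq, e2, abs_neg, e1]
  refine (Complex.abs_re_le_norm _).trans_lt (lt_of_le_of_lt ?_ hk)
  have hsn : Summable fun n => ‖(rc (h k) n - b n) * e n x‖ := by
    refine hsd.congr fun n => ?_
    rw [norm_mul, norm_e', mul_one]
  refine (norm_tsum_le_tsum_norm hsn).trans (le_of_eq (tsum_congr fun n => ?_))
  rw [norm_mul, norm_e', mul_one]

/-- all derivatives of a sequence with convergent coefficients converge -/
lemma smooth_limit {ρ B : ℝ} (hρ : 0 < ρ) (hB : 0 ≤ B) {h : ℕ → ℝ → ℝ}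
    (sh : ∀ k, ContDiff ℝ ∞ (h k)) (ph : ∀ k, Function.Periodic (h k) 1)
    (hd : ∀ k n, ‖rc (h k) n‖ ≤ B * Real.exp (-(ρ * |(n:ℝ)|))) {b : ℤ → ℂ}
    (hb : ∀ n, Tendsto (fun k => rc (h k) n) atTop (𝓝 (b n))) :
    ∃ g : ℝ → ℝ, ContDiff ℝ ∞ g ∧ Function.Periodic g 1 ∧
      (∀ n, ‖rc g n‖ ≤ B * Real.exp (-(ρ * |(n:ℝ)|))) ∧
      ∀ j : ℕ, TendstoUniformly (fun k => deriv^[j] (h k)) (deriv^[j] g) atTop := by
  -- the sequences of derivatives
  have key : ∀ j : ℕ, ∃ (ρj Bj : ℝ) (bj : ℤ → ℂ), 0 < ρj ∧ 0 ≤ Bj ∧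
      (∀ k, ContDiff ℝ ∞ (deriv^[j] (h k))) ∧ (∀ k, Function.Periodic (deriv^[j] (h k)) 1) ∧
      (∀ k n, ‖rc (deriv^[j] (h k)) n‖ ≤ Bj * Real.exp (-(ρj * |(n:ℝ)|))) ∧
      ∀ n, Tendsto (fun k => rc (deriv^[j] (h k)) n) atTop (𝓝 (bj n)) := by
    intro j
    induction j with
    | zero => exact ⟨ρ, B, b, hρ, hB, sh, ph, hd, hb⟩
    | succ j ih =>
      obtain ⟨ρj, Bj, bj, h1, h2, h3, h4, h5, h6⟩ := ih
      have e1 : ∀ k, deriv^[j + 1] (h k) = deriv (deriv^[j] (h k)) := fun k =>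
        Function.iterate_succ_apply' deriv j (h k)
      refine ⟨ρj / 2, 4 * π * Bj / ρj, fun n => 2 * (π:ℂ) * Complex.I * (n:ℂ) * bj n, by positivity,
        by positivity, fun k => ?_, fun k => ?_, fun k n => ?_, fun n => ?_⟩
      · rw [e1]
        exact (contDiff_infty_iff_deriv.1 (h3 k)).2
      · rw [e1]
        exact per_deriv' (h4 k)
      · rw [e1]
        exact decay_deriv h1 h2 (h3 k) (h4 k) (h5 k) n
      · have h7 := (h6 n).const_mul (2 * (π:ℂ) * Complex.I * (n:ℂ))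
        refine h7.congr fun k => ?_
        rw [e1, rc_deriv (h3 k) (h4 k)]
  choose ρj Bj bj hρj hBj sj pj dj cj using key
  set H : ℕ → ℝ → ℝ := fun j x => (∑' n, bj j n * e n x).re with hH
  have hU : ∀ j, TendstoUniformly (fun k => deriv^[j] (h k)) (H j) atTop := fun j =>
    unif_of_coef (hρj j) (sj j) (pj j) (dj j) (cj j)
  have hHc : ∀ j, Continuous (H j) := fun j =>
    (hU j).continuous (Eventually.of_forall fun k => (sj j k).continuous).frequently
  have hHd : ∀ j x, HasDerivAt (H j) (H (j + 1) x) x := by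
    intro j x
    refine hasDerivAt_of_tendstoUniformly (l := atTop) (f := fun k => deriv^[j] (h k))
      (f' := fun k => deriv^[j + 1] (h k)) (hU (j + 1)) (Eventually.of_forall fun k y => ?_)
      (fun y => (hU j).tendsto_at y) x
    rw [Function.iterate_succ_apply']
    exact ((contDiff_infty_iff_deriv.1 (sj j k)).1 y).hasDerivAt
  have hHd' : ∀ j, deriv (H j) = H (j + 1) := fun j => funext fun x => (hHd j x).deriv
  have hHn : ∀ (n : ℕ) (j : ℕ), ContDiff ℝ n (H j) := by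
    intro n
    induction n with
    | zero =>
      intro j
      rw [Nat.cast_zero, contDiff_zero]
      exact hHc j
    | succ n ih =>
      intro j
      push_cast
      rw [contDiff_succ_iff_deriv]
      refine ⟨fun x => (hHd j x).differentiableAt, fun h => absurd h (by simp), ?_⟩
      rw [hHd']
      exact ih (j + 1)
  have hit : ∀ j, deriv^[j] (H 0) = H j := by
    intro j
    induction j with
    | zero => rfl
    | succ j ih => rw [Function.iterate_succ_apply', ih, hHd']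
  refine ⟨H 0, contDiff_infty.2 fun n => hHn n 0, fun x => ?_, fun n => ?_, fun j => ?_⟩
  · have h1 := (hU 0).tendsto_at x
    have h2 := (hU 0).tendsto_at (x + 1)
    refine tendsto_nhds_unique h2 (h1.congr fun k => ?_)
    exact (pj 0 k x).symm
  · -- the coefficients of the limit
    have h1 : Tendsto (fun k => rc (h k) n) atTop (𝓝 (rc (H 0) n)) := by
      unfold rc fc
      have hc : ∀ k, Continuous fun x : ℝ => ((h k x : ℝ) : ℂ) * e (-n) x := fun k =>
        (Complex.continuous_ofReal.comp (sh k).continuous).mul (continuous_e (-n))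
      have hcH : Continuous fun x : ℝ => ((H 0 x : ℝ) : ℂ) * e (-n) x :=
        (Complex.continuous_ofReal.comp (hHc 0)).mul (continuous_e (-n))
      rw [Metric.tendsto_atTop]
      intro ε hε
      have h2 := (Metric.tendstoUniformly_iff.1 (hU 0)) (ε / 2) (by positivity)
      obtain ⟨N, hN⟩ := eventually_atTop.1 h2
      refine ⟨N, fun k hk => ?_⟩
      rw [dist_eq_norm, ← intervalIntegral.integral_sub ((hc k).intervalIntegrable _ _)
        (hcH.intervalIntegrable _ _)]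
      refine (intervalIntegral.norm_integral_le_of_norm_le_const (C := ε / 2) ?_).trans_lt ?_
      · intro x _
        rw [← sub_mul, norm_mul, norm_e', mul_one, ← Complex.ofReal_sub, Complex.norm_real,
          Real.norm_eq_abs, abs_sub_comm]
        exact (hN k hk x).le
      · simp
        linarith
    have h2 := tendsto_nhds_unique h1 (hb n)
    exact le_of_tendsto h1.norm (Eventually.of_forall fun k => hd k n)
  · rw [hit]
    exact hU j

/-- COMPACTNESS: a common subsequence for countably many sequences -/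
theorem compact_family {ι : Type} [Countable ι] {ρ B : ℝ} (hρ : 0 < ρ) (hB : 0 ≤ B)
    {f : ι → ℕ → ℝ → ℝ} (sf : ∀ i k, ContDiff ℝ ∞ (f i k))
    (pf : ∀ i k, Function.Periodic (f i k) 1)
    (hd : ∀ i k n, ‖rc (f i k) n‖ ≤ B * Real.exp (-(ρ * |(n:ℝ)|))) :
    ∃ φ : ℕ → ℕ, StrictMono φ ∧ ∃ g : ι → ℝ → ℝ, ∀ i, ContDiff ℝ ∞ (g i) ∧
      Function.Periodic (g i) 1 ∧ (∀ n, ‖rc (g i) n‖ ≤ B * Real.exp (-(ρ * |(n:ℝ)|))) ∧
      ∀ j : ℕ, TendstoUniformly (fun k => deriv^[j] (f i (φ k))) (deriv^[j] (g i)) atTop := by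
  set S : Set (ι × ℤ → ℂ) := Set.pi univ fun p =>
    Metric.closedBall (0:ℂ) (B * Real.exp (-(ρ * |(p.2:ℝ)|))) with hS
  have hSc : IsCompact S := isCompact_univ_pi fun p => isCompact_closedBall _ _
  obtain ⟨a, ha, φ, hφ, hlim⟩ := hSc.tendsto_subseq (x := fun k (p : ι × ℤ) => rc (f p.1 k) p.2)
    (fun k p _ => by
      rw [mem_closedBall_zero_iff]
      exact hd p.1 k p.2)
  rw [tendsto_pi_nhds] at hlim
  have key : ∀ i, ∃ g : ℝ → ℝ, ContDiff ℝ ∞ g ∧ Function.Periodic g 1 ∧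
      (∀ n, ‖rc g n‖ ≤ B * Real.exp (-(ρ * |(n:ℝ)|))) ∧
      ∀ j : ℕ, TendstoUniformly (fun k => deriv^[j] (f i (φ k))) (deriv^[j] g) atTop := fun i =>
    smooth_limit hρ hB (fun k => sf i (φ k)) (fun k => pf i (φ k)) (fun k n => hd i (φ k) n)
      (b := fun n => a (i, n)) fun n => hlim (i, n)
  choose g hg using key
  exact ⟨φ, hφ, g, hg⟩

end NeCp

end Pool.Agent.MP_ae5b4e_an_LOC
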