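import Mathlib
import Pool.Agent.Lib.MP_ae5b4e_an_NC.Tel
import Pool.Agent.Lib.MP_ae5b4e_an_NC.Geo
import Pool.Agent.Lib.MP_ae5b4e_an_NC.Sid
import Pool.Agent.Lib.MP_ae5b4e_an_NC.GPer
import Pool.Agent.Lib.MP_ae5b4e_an_RG.Desc
import Pool.Agent.Lib.MP_ae5b4e_an_RIG.GMod
import Pool.Agent.Lib.MP_ae5b4e_an_RIG.CCor

/-!
# MP_ae5b4e_an, project LOC: uniform bounds for the leaves with small rotation numbers

The structure `NSK K δ` collects the normalized solutions with bounded coefficients and a leaf of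
step at least `δ`; `exists_bigK` is `exists_big` of NC for them (with the same proof).
-/

noncomputable section

namespace Pool.Agent.MP_ae5b4e_an_LOC

open Real Set Filter Topology MeasureTheory intervalIntegral
open scoped ContDiff
open Pool.Agent.MP_ae5b4e_an_hopf
open Pool.Agent.MP_ae5b4e_an_RG
open Pool.Agent.MP_ae5b4e_an_RIG (prm hasDerivAt_prm Bnd core_unif)
open Pool.Agent.MP_ae5b4e_an_NC hiding exists_pleaf

/-- a normalized solution with coefficients bounded by `K` and a leaf with step at least `δ` -/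
structure NSK (K δ : ℝ) (P : ℝ → Fin 3 → ℝ) (U : ℝ → ℝ → ℝ) (r m : ℝ → ℝ) : Prop where
  sys : LSys 1 P U (fun _ => 0)
  wr : ∀ x, Wr P x = 1
  sr : ContDiff ℝ ∞ r
  sm : ContDiff ℝ ∞ m
  pr : Function.Periodic r 1
  pm : Function.Periodic m 1
  ode : ∀ x, deriv (deriv (deriv P)) x = -(r x) • deriv P x - m x • P x
  bnd : Bnd K r m
  step : ∃ c ∈ Ioo (0:ℝ) 1, ∀ t, t + δ ≤ nxt P 1 U c t

variable {K δ : ℝ} {P : ℝ → Fin 3 → ℝ} {U : ℝ → ℝ → ℝ} {r m : ℝ → ℝ}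

/-- existence of the curves of periodic points -/
theorem NSK.pleaf (h : NSK K δ P U r m) {p q : ℕ} (hp : 1 ≤ p) (hq : 1 ≤ q)
    (hpq : (p:ℝ) < q * δ) : ∃ L, PLeaf 1 (nxt P 1 U) p q L := by
  obtain ⟨c, hc, hs⟩ := h.step
  refine Pool.Agent.MP_ae5b4e_an_NC.exists_pleaf h.sys.tmap hc hs hp hq ?_
  rw [mul_one]
  exact hpq

private lemma dec_weaken {ρ ρ' : ℝ} {N : ℕ} {A : ℝ} {R : ℝ → ℝ} (hA : 0 ≤ A) (hρ : ρ' ≤ ρ)
    (h : Dec ρ N A R) : Dec ρ' N A R := by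
  obtain ⟨a, h1, h2⟩ := h
  refine ⟨a, fun k => (h1 k).trans ?_, h2⟩
  apply div_le_div_of_nonneg_left hA (V_pos ρ' N 3 k)
  unfold V w
  apply mul_le_mul_of_nonneg_left _ (by positivity)
  apply Real.exp_le_exp.2
  exact mul_le_mul_of_nonneg_right hρ (le_min (abs_nonneg _) (Nat.cast_nonneg N))

/-- uniform analyticity of the coefficients -/
theorem exists_decK (K δ : ℝ) (hK : 0 ≤ K) (hδ : 0 < δ) : ∃ ρ A : ℝ, 0 < ρ ∧ 1 ≤ A ∧
    ∀ (P : ℝ → Fin 3 → ℝ) (U : ℝ → ℝ → ℝ) (r m : ℝ → ℝ), NSK K δ P U r m →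
      (∫ x in (0:ℝ)..1, m x = 0) ∧
      ∀ N : ℕ, Dec ρ N A (prm m) ∧ Dec ρ N A (fun x => r x - prm m x) := by
  obtain ⟨Cs, q0, hCs, HG⟩ := geo_leaf K δ hK hδ
  obtain ⟨q2, hq2⟩ := exists_nat_gt (2 / δ)
  obtain ⟨ρc, A, hρc, hA, HC⟩ := core_unif (2 * K) Cs (max q0 (q2 + 1)) (by positivity) hCs
  refine ⟨ρc, A, hρc, hA, fun P U r m hNS => ?_⟩
  obtain ⟨c₀, hc₀, hs⟩ := hNS.step
  have hB := hNS.bnd
  obtain ⟨i0, HL⟩ := HG P U r m hNS.sys hNS.wr hNS.sr hNS.sm hNS.pr hNS.pm hNS.ode hB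
    ⟨c₀, hc₀, hs⟩
  have hR1 := fun x => hasDerivAt_prm (m := m) hNS.sm x
  have HL' := HL (prm m) (fun x => r x - prm m x) hR1 (fun _ => rfl)
  obtain ⟨d1, d2⟩ := Pool.Agent.MP_ae5b4e_an_RIG.dec hNS.sr hNS.sm hNS.pr hNS.pm i0 hB
  refine ⟨i0, HC (prm m) (fun x => r x - prm m x) d1 d2 (fun p q hpq hq => ?_)⟩
  have hp1 : 1 ≤ p := by rcases hpq.1 with h | h <;> omega
  have hp2 : p ≤ 2 := by rcases hpq.1 with h | h <;> omega
  have hqq : q2 + 1 ≤ q := (le_max_right _ _).trans hq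
  have hqR : (q2:ℝ) + 1 ≤ q := by exact_mod_cast hqq
  obtain ⟨L, hL⟩ := hNS.pleaf (p := p) (q := q) hp1 (by omega) (by
    rw [div_lt_iff₀ hδ] at hq2
    have : (p:ℝ) ≤ 2 := by exact_mod_cast hp2
    nlinarith)
  exact ⟨_, HL' p q hpq ((le_max_left _ _).trans hq) L hL⟩

/-- uniform constants for the leaves with small rotation numbers -/
theorem exists_bigK (K δ : ℝ) (hK : 0 ≤ K) (hδ : 0 < δ) : ∃ ρc : ℝ, 0 < ρc ∧
    ∀ ρ : ℝ, 0 ≤ ρ → ρ ≤ ρc → ∃ (A1 : ℝ) (q0 : ℕ), 0 < A1 ∧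
    ∀ (P : ℝ → Fin 3 → ℝ) (U : ℝ → ℝ → ℝ) (r m : ℝ → ℝ), NSK K δ P U r m →
      ∀ (p q : ℕ) (L : ℝ → ℝ), PQ p q → q0 ≤ q → PLeaf 1 (nxt P 1 U) p q L →
        Big ρ A1 p q L (tauL P L ((p:ℝ) / q)) := by
  obtain ⟨Cs, q0, hCs, HG⟩ := geo_leaf K δ hK hδ
  obtain ⟨ρc, A, hρc, hA, HC⟩ := exists_decK K δ hK hδ
  refine ⟨ρc, hρc, fun ρ hρ0 hρ => ?_⟩
  have hA0 : 0 < A := by linarith
  obtain ⟨A1, ω2, hA1, hω2, HD⟩ := descent A Cs hA hCs
  obtain ⟨C, ω1, hC, hω1, HS⟩ := sid A A1 hA0 hA1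
  obtain ⟨q1, hq1⟩ := exists_nat_gt (2 / min ω1 ω2)
  refine ⟨max A1 C, max (max q0 5) (q1 + 1), lt_max_of_lt_left hA1, ?_⟩
  intro P U r m hNS p q L hpq hq hL
  obtain ⟨c₀, hc₀, hs⟩ := hNS.step
  have hB := hNS.bnd
  obtain ⟨i0, HL⟩ := HG P U r m hNS.sys hNS.wr hNS.sr hNS.sm hNS.pr hNS.pm hNS.ode hB
    ⟨c₀, hc₀, hs⟩
  have hR1 := fun x => hasDerivAt_prm (m := m) hNS.sm x
  have HL' := HL (prm m) (fun x => r x - prm m x) hR1 (fun _ => rfl)
  have HC' := (HC P U r m hNS).2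
  have hq0 : q0 ≤ q := (le_max_left _ _).trans ((le_max_left _ _).trans hq)
  have hq5 : 5 ≤ q := (le_max_right _ _).trans ((le_max_left _ _).trans hq)
  have hqq : q1 + 1 ≤ q := (le_max_right _ _).trans hq
  have hleaf := HL' p q hpq hq0 L hL
  have hqR : (0:ℝ) < q := by
    have : 0 < q := by omega
    exact_mod_cast this
  have hp1 : 1 ≤ p := by rcases hpq.1 with h | h <;> omega
  have hp2 : p ≤ 2 := by rcases hpq.1 with h | h <;> omega
  have hpR : (0:ℝ) < p := by exact_mod_cast hp1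
  have hω : 0 < (p:ℝ) / q := by positivity
  have hmin : 0 < min ω1 ω2 := lt_min hω1 hω2
  have hωs : (p:ℝ) / q ≤ min ω1 ω2 := by
    rw [div_lt_iff₀ hmin] at hq1
    have h2 : (p:ℝ) ≤ 2 := by exact_mod_cast hp2
    have h3 : (q1:ℝ) + 1 ≤ q := by exact_mod_cast hqq
    rw [div_le_iff₀ hqR]
    nlinarith
  intro N
  have e1 := dec_weaken hA0.le hρ (HC' N).1
  have e2 := dec_weaken hA0.le hρ (HC' N).2
  obtain ⟨η, h1, h2, h3, h4, h5⟩ := HD ρ N p q (prm m) (fun x => r x - prm m x)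
    (fun x => L x - x) hρ0 hpq (hωs.trans (min_le_right _ _)) e1 e2 hleaf
  refine ⟨η, h1, h2, h3, ?_, ?_⟩
  · exact h4.mono (mul_le_mul_of_nonneg_right (le_max_left _ _) (by positivity))
  -- the tau-values
  set om : ℝ := (p:ℝ) / q with homd
  have hΔ : ∀ x, L x < L (x + om) := fun x => hL.mono (by linarith)
  have hrel : ∀ x, Rel (prm m) (fun x => r x - prm m x) (x + om + (L (x + om) - (x + om)))
      (-(om + (L (x + om) - (x + om)) - (L x - x)))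
      (-(L (x + om) - L x) * L1 P (L x) (L (x + om)) - 2) := by
    intro x
    have g := (leaf_law hNS.sys hL x).2.1
    have g0 := hΔ x
    have k := rel_L1 hNS.sys.curve hNS.wr hNS.sr.continuous hNS.sm.continuous hNS.ode hR1
      (R2 := fun x => r x - prm m x) (fun _ => rfl) (a := L (x + om)) (d := -(L (x + om) - L x))
      (by linarith [hΔ x] : -(L (x + om) - L x) < (0:ℝ)).ne
      (by
        rw [abs_neg, abs_of_pos (by linarith [hΔ x])]
        linarith)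
    have e3 : L (x + om) + -(L (x + om) - L x) = L x := by ring
    have e4 : x + om + (L (x + om) - (x + om)) = L (x + om) := by ring
    have e5 : -(om + (L (x + om) - (x + om)) - (L x - x)) = -(L (x + om) - L x) := by ring
    rw [e3] at k
    rw [e4, e5]
    exact k
  obtain ⟨k1, k2⟩ := HS ρ N p q η (prm m) (fun x => r x - prm m x) (fun x => L x - x)
    (fun x => -(L (x + om) - L x) * L1 P (L x) (L (x + om)) - 2) hρ0 hpq
    (hωs.trans (min_le_left _ _)) h1 h3 e1 e2 (hL.cont.sub continuous_id) h4 h5 hrel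
  have key : ∀ x, (1 + (L (x + om) - (x + om) - (L x - x)) / om) /
      (1 + (-(L (x + om) - L x) * L1 P (L x) (L (x + om)) - 2) / 2) - 1 =
        tauL P L om x / (π * om) - 1 := by
    intro x
    have a1 := k1 x
    have a2 := hΔ x
    have a3 : 1 + (-(L (x + om) - L x) * L1 P (L x) (L (x + om)) - 2) / 2 =
        -(L (x + om) - L x) * L1 P (L x) (L (x + om)) / 2 := by ring
    have a4 : L1 P (L x) (L (x + om)) ≠ 0 := by
      intro h0
      rw [h0] at a1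
      norm_num at a1
    have a5 : L (x + om) - L x ≠ 0 := by linarith
    have a6 : 1 + (L (x + om) - (x + om) - (L x - x)) / om = (L (x + om) - L x) / om := by
      field_simp
      ring
    rw [a3, a6]
    unfold tauL
    have hπ := Real.pi_pos.ne'
    have hom' := hω.ne'
    field_simp
  have k3 : (fun x => (((1 + (L (x + om) - (x + om) - (L x - x)) / om) /
      (1 + (-(L (x + om) - L x) * L1 P (L x) (L (x + om)) - 2) / 2) - 1 : ℝ) : ℂ)) =
        fun x => ((tauL P L om x / (π * om) - 1 : ℝ) : ℂ) := by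
    funext x
    rw [key x]
  rw [k3] at k2
  exact k2.mono (mul_le_mul_of_nonneg_right (le_max_right _ _) (by positivity))

end Pool.Agent.MP_ae5b4e_an_LOC
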