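import Mathlib
import Pool.Agent.Lib.MP_ae5b4e_an_NC.Top
import Pool.Agent.Lib.MP_ae5b4e_an_LOC.Big
import Pool.Agent.Lib.MP_ae5b4e_an_NC.Fra

/-!
# MP_ae5b4e_an, project LOC: from a solution of the problem to the normalized structure
-/

noncomputable section

namespace Pool.Agent.MP_ae5b4e_an_LOC

open Real Set Filter Topology MeasureTheory intervalIntegral
open scoped ContDiff
open Pool.Agent.MP_ae5b4e_an_hopf
open Pool.Agent.MP_ae5b4e_an_RG
open Pool.Agent.MP_ae5b4e_an_RIG

/-- A solution with bounds for the coefficients and for the reach. -/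
theorem nsk_of_sol {γ : ConvexCurve} {U : ℝ → ℝ → ℝ} {κ σ lam r m : ℝ → ℝ} {K δ : ℝ}
    (h : Sol γ U κ) (hN : Normal γ κ σ lam r m) (hB : Bnd K r m) (hR : Reach γ U σ δ) :
    NSK K δ (lift γ σ lam) (rU κ σ U) r m where
  sys := hN.lsys h
  wr := hN.wr
  sr := hN.smooth_r
  sm := hN.smooth_m
  pr := hN.per_r
  pm := hN.per_m
  ode := hN.ode
  bnd := hB
  step := hN.step h hR

open Matrix in
/-- unimodular changes of the frame -/
theorem NSK.mv {K δ : ℝ} {P : ℝ → Fin 3 → ℝ} {U : ℝ → ℝ → ℝ} {r m : ℝ → ℝ} (h : NSK K δ P U r m)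
    {M : Matrix (Fin 3) (Fin 3) ℝ} (hM : M.det = 1) : NSK K δ (fun x => M *ᵥ P x) U r m where
  sys := Pool.Agent.MP_ae5b4e_an_NC.LSys.mv M hM h.sys
  wr x := by
    rw [Pool.Agent.MP_ae5b4e_an_NC.Wr_mv M h.sys.curve hM]
    exact h.wr x
  sr := h.sr
  sm := h.sm
  pr := h.pr
  pm := h.pm
  ode x := by
    rw [Pool.Agent.MP_ae5b4e_an_NC.deriv3_mv M h.sys.curve, Pool.Agent.MP_ae5b4e_an_NC.deriv_mv M h.sys.curve]
    simp only
    rw [h.ode x, Matrix.mulVec_sub, Matrix.mulVec_smul, Matrix.mulVec_smul]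
  bnd := h.bnd
  step := by
    obtain ⟨c, hc, hs⟩ := h.step
    refine ⟨c, hc, fun t => ?_⟩
    have e1 : nxt (fun x => M *ᵥ P x) 1 U c t = nxt P 1 U c t :=
      Pool.Agent.MP_ae5b4e_an_NC.nx_mv M h.sys.curve hM t (U c t)
    rw [e1]
    exact hs t

/-- translations of the parameter -/
theorem Bnd.shift {K : ℝ} {r m : ℝ → ℝ} (h : Bnd K r m) (c : ℝ) :
    Bnd K (fun x => r (x + c)) (fun x => m (x + c)) := by
  have d : ∀ f : ℝ → ℝ, deriv (fun x => f (x + c)) = fun x => deriv f (x + c) := fun f => by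
    funext x
    exact deriv_comp_add_const f c x
  exact ⟨fun x => h.r0 _, fun x => by rw [d]; exact h.r1 _, fun x => by rw [d, d]; exact h.r2 _,
    fun x => by rw [d, d, d]; exact h.r3 _, fun x => h.m0 _, fun x => by rw [d]; exact h.m1 _,
    fun x => by rw [d, d]; exact h.m2 _⟩

section shift

variable {P : ℝ → Fin 3 → ℝ} (s : ℝ)

private lemma dsh (P : ℝ → Fin 3 → ℝ) :
    deriv (fun x => P (x + s)) = fun x => deriv P (x + s) := by
  funext x
  exact deriv_comp_add_const P s x

private lemma dd_sh (x y : ℝ) : dd (fun x => P (x + s)) x y = dd P (x + s) (y + s) := by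
  unfold dd
  rw [dsh]

private lemma L1_sh (x y : ℝ) : L1 (fun x => P (x + s)) x y = L1 P (x + s) (y + s) := by
  unfold L1 ddx dd
  rw [dsh]

private lemma Wr_sh (x : ℝ) : Wr (fun x => P (x + s)) x = Wr P (x + s) := by
  unfold Wr
  rw [dsh, dsh]

private lemma curve_sh (h : Curve 1 P) : Curve 1 (fun x => P (x + s)) where
  T_pos := one_pos
  smooth := h.smooth.comp (contDiff_id.add contDiff_const)
  per t := by
    show P (t + 1 + s) = P (t + s)
    rw [show t + 1 + s = t + s + 1 by ring, h.per]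
  pos t t' h1 h2 := by
    rw [dd_sh]
    exact h.pos _ _ (by linarith) (by linarith)
  Wr_pos t := by
    rw [Wr_sh]
    exact h.Wr_pos _

private lemma nx_sh (h : Curve 1 P) (t u : ℝ) :
    nx (fun x => P (x + s)) 1 t u = nx P 1 (t + s) u - s := by
  obtain ⟨a1, a2, a3⟩ := h.nx_spec (t + s) u
  refine (curve_sh s h).nx_unique (by linarith) (by linarith) ?_
  rw [L1_sh, show nx P 1 (t + s) u - s + s = nx P 1 (t + s) u by ring, a3]

/-- translations of the parameter -/
theorem NSK.shift {K δ : ℝ} {U : ℝ → ℝ → ℝ} {r m : ℝ → ℝ} (h : NSK K δ P U r m) :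
    NSK K δ (fun x => P (x + s)) (fun c x => U c (x + s)) (fun x => r (x + s))
      (fun x => m (x + s)) where
  sys :=
    { curve := curve_sh s h.sys.curve
      cont := by
        have h1 : ContinuousOn (fun z : ℝ × ℝ => (z.1, z.2 + s)) (Ioo 0 1 ×ˢ univ) :=
          (continuous_fst.prodMk (continuous_snd.add continuous_const)).continuousOn
        exact h.sys.cont.comp h1 fun z hz => ⟨hz.1, mem_univ _⟩
      per := fun c hc t => by
        show U c (t + 1 + s) = U c (t + s)
        rw [show t + 1 + s = t + s + 1 by ring, h.sys.per c hc]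
      anti := fun t => h.sys.anti (t + s)
      lim0 := fun t => h.sys.lim0 (t + s)
      smooth_κ := contDiff_const
      feq := fun c hc t t' h1 h2 h3 => by
        rw [L1_sh] at h3 ⊢
        exact h.sys.feq c hc (t + s) (t' + s) (by linarith) (by linarith) h3 }
  wr x := by
    rw [Wr_sh]
    exact h.wr _
  sr := h.sr.comp (contDiff_id.add contDiff_const)
  sm := h.sm.comp (contDiff_id.add contDiff_const)
  pr x := by
    show r (x + 1 + s) = r (x + s)
    rw [show x + 1 + s = x + s + 1 by ring, h.pr]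
  pm x := by
    show m (x + 1 + s) = m (x + s)
    rw [show x + 1 + s = x + s + 1 by ring, h.pm]
  ode x := by
    rw [dsh, dsh, dsh]
    exact h.ode (x + s)
  bnd := Bnd.shift h.bnd s
  step := by
    obtain ⟨c, hc, hs⟩ := h.step
    refine ⟨c, hc, fun t => ?_⟩
    have e1 : nxt (fun x => P (x + s)) 1 (fun c x => U c (x + s)) c t =
        nxt P 1 U c (t + s) - s := nx_sh s h.sys.curve t (U c (t + s))
    rw [e1]
    linarith [hs (t + s)]

end shift

end Pool.Agent.MP_ae5b4e_an_LOC
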