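import Mathlib
import Pool.Agent.Lib.MP_ae5b4e_an_LOC.NeCp
import Pool.Agent.Lib.MP_ae5b4e_an_LOC.TopL
import Pool.Agent.Lib.MP_ae5b4e_an_LOC.AnaB

/-!
# MP_ae5b4e_an, project NE: limits of normalized solutions

`ne_limit`: a sequence of normalized solutions (`NSK K δ`) with the standard frame at `0` has a
subsequence which converges (the curve and both coefficients, uniformly with all derivatives) to an
analytic curve with analytic coefficients; the determinants of three consecutive points of the limit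
are nonnegative.
-/

noncomputable section

namespace Pool.Agent.MP_ae5b4e_an_LOC

open Real Set Filter Topology MeasureTheory intervalIntegral Matrix
open scoped ContDiff
open Pool.Agent.MP_ae5b4e_an_hopf
open Pool.Agent.MP_ae5b4e_an_RG
open Pool.Agent.MP_ae5b4e_an_RIG
open Pool.Agent.MP_ae5b4e_an_NC

namespace NeA

/-- three consecutive points of a closed convex curve are positively oriented -/
lemma det3_pos {Γ : ℝ → Fin 3 → ℝ} {T : ℝ} (h : Curve T Γ) {a b c : ℝ} (hab : a < b)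
    (hbc : b < c) (hca : c < a + T) : 0 < det3 (Γ a) (Γ b) (Γ c) := by
  set w := deriv (deriv Γ) a with hw
  have hW : 0 < det3 (Γ a) (deriv Γ a) w := h.Wr_pos a
  set β : ℝ → ℝ := fun s => det3 (Γ a) (Γ s) w with hβ
  set g : ℝ → ℝ := fun s => det3 (Γ a) (deriv Γ a) (Γ s) with hg
  have hgp : ∀ s ∈ Ioo a (a + T), 0 < g s := fun s hs => by
    have h1 := h.dd_pos_left hs.1 hs.2
    have h2 : g s = dd Γ s a := by
      simp only [hg]
      unfold dd det3
      ring
    rw [h2]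
    exact h1
  have dβ : ∀ s, HasDerivAt β (det3 (Γ a) (deriv Γ s) w) s := fun s => by
    refine (hasDerivAt_det3 (hasDerivAt_const s (Γ a)) (h.hd0 s)
      (hasDerivAt_const s w)).congr_deriv ?_
    unfold det3
    simp
  have dg : ∀ s, HasDerivAt g (det3 (Γ a) (deriv Γ a) (deriv Γ s)) s := fun s => by
    refine (hasDerivAt_det3 (hasDerivAt_const s (Γ a)) (hasDerivAt_const s (deriv Γ a))
      (h.hd0 s)).congr_deriv ?_
    unfold det3
    simp
  have hq : ∀ s ∈ Ioo a (a + T), HasDerivAt (fun s => β s / g s)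
      (-(det3 (Γ a) (deriv Γ a) w * dd Γ a s) / g s ^ 2) s := fun s hs => by
    refine ((dβ s).div (dg s) (hgp s hs).ne').congr_deriv ?_
    congr 1
    simp only [hβ, hg]
    unfold dd det3
    ring
  have hanti : StrictAntiOn (fun s => β s / g s) (Ioo a (a + T)) := by
    refine strictAntiOn_of_deriv_neg (convex_Ioo _ _)
      (fun s hs => (hq s hs).continuousAt.continuousWithinAt) fun s hs => ?_
    rw [interior_Ioo] at hs
    rw [(hq s hs).deriv]
    have h1 := h.dd_pos_right hs.1 hs.2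
    have h2 := hgp s hs
    have h3 : 0 < det3 (Γ a) (deriv Γ a) w * dd Γ a s / g s ^ 2 := by positivity
    rw [neg_div]
    linarith
  have hb : b ∈ Ioo a (a + T) := ⟨hab, by linarith⟩
  have hc : c ∈ Ioo a (a + T) := ⟨by linarith, hca⟩
  have h1 := hanti hb hc hbc
  have h2 := hgp b hb
  have h3 := hgp c hc
  simp only at h1
  rw [div_lt_div_iff₀ h3 h2] at h1
  have h4 : det3 (Γ a) (deriv Γ a) w * det3 (Γ a) (Γ b) (Γ c) = β b * g c - β c * g b := by
    simp only [hβ, hg]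
    unfold det3
    ring
  have h5 : 0 < det3 (Γ a) (deriv Γ a) w * det3 (Γ a) (Γ b) (Γ c) := by
    rw [h4]
    linarith
  exact pos_of_mul_pos_right h5 hW.le

/-- bound for the curve with given frame at `0` -/
lemma curve_bd {P : ℝ → Fin 3 → ℝ} {r m : ℝ → ℝ} (h : Curve 1 P)
    (hode : ∀ x, deriv (deriv (deriv P)) x = -(r x) • deriv P x - m x • P x) {K B : ℝ}
    (hK : 0 ≤ K) (hr : ∀ x, |r x| ≤ K) (hm : ∀ x, |m x| ≤ K) (h0 : ‖P 0‖ ≤ B)
    (h1 : ‖deriv P 0‖ ≤ B) (h2 : ‖deriv (deriv P) 0‖ ≤ B) (x : ℝ) :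
    ‖P x‖ ≤ B * Real.exp (2 * K + 1) := by
  have hB : 0 ≤ B := (norm_nonneg _).trans h0
  wlog hx : x ∈ Ico (0:ℝ) 1 generalizing x
  · have hper : Function.Periodic P 1 := h.per
    obtain ⟨y, hy, hy'⟩ := hper.exists_mem_Ico₀ one_pos x
    rw [hy']
    exact this y hy
  set f : ℝ → (Fin 3 → ℝ) × (Fin 3 → ℝ) × (Fin 3 → ℝ) := fun t =>
    (P t, deriv P t, deriv (deriv P) t) with hf
  set f' : ℝ → (Fin 3 → ℝ) × (Fin 3 → ℝ) × (Fin 3 → ℝ) := fun t =>
    (deriv P t, deriv (deriv P) t, deriv (deriv (deriv P)) t) with hf'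
  have hd : ∀ t, HasDerivAt f (f' t) t := fun t =>
    (h.hd0 t).prodMk ((h.hd1 t).prodMk (h.hd2 t))
  have hbound : ∀ t, ‖f' t‖ ≤ (2 * K + 1) * ‖f t‖ + 0 := by
    intro t
    rw [add_zero]
    have n1 : ‖P t‖ ≤ ‖f t‖ := norm_fst_le (f t)
    have n2 : ‖deriv P t‖ ≤ ‖f t‖ := (norm_fst_le (f t).2).trans (norm_snd_le (f t))
    have n3 : ‖deriv (deriv P) t‖ ≤ ‖f t‖ := (norm_snd_le (f t).2).trans (norm_snd_le (f t))
    have hf0 : 0 ≤ ‖f t‖ := norm_nonneg _
    have hone : ‖f t‖ ≤ (2 * K + 1) * ‖f t‖ := by nlinarith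
    rw [norm_prod_le_iff, norm_prod_le_iff]
    refine ⟨n2.trans hone, n3.trans hone, ?_⟩
    show ‖deriv (deriv (deriv P)) t‖ ≤ _
    rw [hode t]
    have k1 : ‖-(r t) • deriv P t‖ ≤ K * ‖f t‖ := by
      rw [norm_smul, norm_neg, Real.norm_eq_abs]
      exact mul_le_mul (hr t) n2 (norm_nonneg _) hK
    have k2 : ‖m t • P t‖ ≤ K * ‖f t‖ := by
      rw [norm_smul, Real.norm_eq_abs]
      exact mul_le_mul (hm t) n1 (norm_nonneg _) hK
    refine (norm_sub_le _ _).trans ?_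
    nlinarith
  have hf0 : ‖f 0‖ ≤ B := by
    rw [norm_prod_le_iff, norm_prod_le_iff]
    exact ⟨h0, h1, h2⟩
  have hG := norm_le_gronwallBound_of_norm_deriv_right_le (f := f) (f' := f') (δ := B)
    (K := 2 * K + 1) (ε := 0) (a := 0) (b := 1)
    (fun t _ => (hd t).continuousAt.continuousWithinAt)
    (fun t _ => (hd t).hasDerivWithinAt) hf0 (fun t _ => hbound t) x ⟨hx.1, hx.2.le⟩
  rw [gronwallBound_ε0] at hG
  have hexp : Real.exp ((2 * K + 1) * (x - 0)) ≤ Real.exp (2 * K + 1) := by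
    refine Real.exp_le_exp.2 ?_
    nlinarith [hx.2, hx.1]
  exact (norm_fst_le (f x)).trans (hG.trans (mul_le_mul_of_nonneg_left hexp hB))

lemma exp_of_all_N {ρ a B : ℝ} {j : ℕ} {k : ℤ} (h : ∀ N : ℕ, a ≤ B / V ρ N j k) (hB : 0 ≤ B) :
    a ≤ B * Real.exp (-(ρ * |(k:ℝ)|)) := by
  obtain ⟨N, hN⟩ := exists_nat_ge |(k:ℝ)|
  refine (h N).trans ?_
  unfold V w
  rw [min_eq_left hN, Real.exp_neg, div_eq_mul_inv]
  refine mul_le_mul_of_nonneg_left ?_ hB
  refine inv_anti₀ (Real.exp_pos _) ?_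
  have h1 : (1:ℝ) ≤ (1 + |(k:ℝ)|) ^ j := one_le_pow₀ (by linarith [abs_nonneg (k:ℝ)])
  exact le_mul_of_one_le_left (Real.exp_pos _).le h1

/-- the components of the curve satisfy the scalar equation -/
lemma ode_comp {P : ℝ → Fin 3 → ℝ} {r m : ℝ → ℝ} (h : ContDiff ℝ ∞ P)
    (hode : ∀ x, deriv (deriv (deriv P)) x = -(r x) • deriv P x - m x • P x) (i : Fin 3) (x : ℝ) :
    deriv (deriv (deriv (fun x => P x i))) x =
      -(r x) * deriv (fun x => P x i) x - m x * P x i := by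
  have hd : ∀ {P : ℝ → Fin 3 → ℝ}, ContDiff ℝ ∞ P →
      deriv (fun x => P x i) = fun x => deriv P x i := fun h => funext fun x =>
    (hasDerivAt_pi.1 ((h.differentiable (by norm_num) x).hasDerivAt) i).deriv
  have h1 : ContDiff ℝ ∞ (deriv P) := (contDiff_infty_iff_deriv.1 h).2
  have h2 : ContDiff ℝ ∞ (deriv (deriv P)) := (contDiff_infty_iff_deriv.1 h1).2
  rw [hd h, hd h1, hd h2]
  simp only [hode x, Pi.sub_apply, Pi.smul_apply, smul_eq_mul]

end NeA

/-- a unimodular change of the frame makes the frame at `0` standard -/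
theorem NSK.frame {K δ : ℝ} {P : ℝ → Fin 3 → ℝ} {U : ℝ → ℝ → ℝ} {r m : ℝ → ℝ}
    (h : NSK K δ P U r m) : ∃ M : Matrix (Fin 3) (Fin 3) ℝ, M.det = 1 ∧
      NSK K δ (fun x => M *ᵥ P x) U r m ∧ M *ᵥ P 0 = ![1, 0, 0] ∧
      deriv (fun x => M *ᵥ P x) 0 = ![0, 1, 0] ∧
      deriv (deriv (fun x => M *ᵥ P x)) 0 = ![0, 0, 1] := by
  have h1 : det3 ![1, 0, 0] ![0, 1, 0] ![0, 0, 1] = 1 := by
    unfold det3
    simp
  obtain ⟨M, hM, k0, k1, k2⟩ := exists_mat' (h.wr 0) h1
  refine ⟨M, hM, h.mv hM, k0, ?_, ?_⟩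
  · rw [deriv_mv M h.sys.curve]
    exact k1
  · rw [deriv2_mv M h.sys.curve]
    exact k2

/-- the properties of the limits of normalized solutions -/
structure NLim (P : ℝ → Fin 3 → ℝ) (r m : ℝ → ℝ) : Prop where
  sP : ContDiff ℝ ∞ P
  sr : ContDiff ℝ ∞ r
  sm : ContDiff ℝ ∞ m
  aP : AnalyticOnNhd ℝ P univ
  ar : AnalyticOnNhd ℝ r univ
  am : AnalyticOnNhd ℝ m univ
  pP : ∀ x, P (x + 1) = P x
  pr : Function.Periodic r 1
  pm : Function.Periodic m 1
  ode : ∀ x, deriv (deriv (deriv P)) x = -(r x) • deriv P x - m x • P x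
  wr : ∀ x, Wr P x = 1
  det : ∀ a b c, a < b → b < c → c < a + 1 → 0 ≤ det3 (P a) (P b) (P c)
  f0 : P 0 = ![1, 0, 0]
  f1 : deriv P 0 = ![0, 1, 0]
  f2 : deriv (deriv P) 0 = ![0, 0, 1]

/-- THE LIMIT: a sequence of normalized solutions with the standard frame at `0` has a convergent
subsequence -/
theorem ne_limit {K δ : ℝ} (hK : 0 ≤ K) (hδ : 0 < δ) {P : ℕ → ℝ → Fin 3 → ℝ}
    {U : ℕ → ℝ → ℝ → ℝ} {r m : ℕ → ℝ → ℝ} (h : ∀ k, NSK K δ (P k) (U k) (r k) (m k))
    (f0 : ∀ k, P k 0 = ![1, 0, 0]) (f1 : ∀ k, deriv (P k) 0 = ![0, 1, 0])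
    (f2 : ∀ k, deriv (deriv (P k)) 0 = ![0, 0, 1]) :
    ∃ φ : ℕ → ℕ, StrictMono φ ∧ ∃ (P0 : ℝ → Fin 3 → ℝ) (r0 m0 : ℝ → ℝ), NLim P0 r0 m0 ∧
      (∀ j : ℕ, TendstoUniformly (fun k => deriv^[j] (r (φ k))) (deriv^[j] r0) atTop) ∧
      (∀ j : ℕ, TendstoUniformly (fun k => deriv^[j] (m (φ k))) (deriv^[j] m0) atTop) ∧
      ∀ (i : Fin 3) (j : ℕ), TendstoUniformly (fun k => deriv^[j] (fun x => P (φ k) x i))
        (deriv^[j] (fun x => P0 x i)) atTop := by
  obtain ⟨ρ, A, hρ, hA, HD⟩ := rm_decay_bg K δ hK hδ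
  have hA0 : 0 ≤ 7 * A := by linarith
  obtain ⟨C1, hC1, H1⟩ := ode_decay hρ.le hA0
  set E : ℝ := 1 * Real.exp (2 * K + 1) with hE
  have hE0 : 0 ≤ E := by positivity
  have hdec := fun k => (HD (P k) (U k) (r k) (m k) (h k).sys (h k).wr (h k).sr (h k).sm (h k).pr
    (h k).pm (h k).ode (h k).bnd (h k).step).2.2
  have hPb : ∀ k x, ‖P k x‖ ≤ E := fun k x => by
    have hn : ∀ v : Fin 3 → ℝ, (∀ i, |v i| ≤ 1) → ‖v‖ ≤ 1 := fun v hv =>
      (pi_norm_le_iff_of_nonneg zero_le_one).2 fun i => hv i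
    refine NeA.curve_bd (h k).sys.curve (h k).ode hK (h k).bnd.r0 (h k).bnd.m0 (hn _ ?_) (hn _ ?_)
      (hn _ ?_) x
    · rw [f0]
      intro i
      fin_cases i <;> simp
    · rw [f1]
      intro i
      fin_cases i <;> simp
    · rw [f2]
      intro i
      fin_cases i <;> simp
  have sPi : ∀ k i, ContDiff ℝ ∞ (fun x => P k x i) := fun k i =>
    (contDiff_pi.1 (h k).sys.curve.smooth) i
  have pPi : ∀ k i, Function.Periodic (fun x => P k x i) 1 := fun k i x => by
    show P k (x + 1) i = P k x i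
    rw [(h k).sys.curve.per]
  -- the family
  set B : ℝ := max (7 * A) (C1 * E) with hB
  have hB0 : 0 ≤ B := hA0.trans (le_max_left _ _)
  set F : Fin 5 → ℕ → ℝ → ℝ := fun i k =>
    ![r k, m k, fun x => P k x 0, fun x => P k x 1, fun x => P k x 2] i with hF
  have sF : ∀ i k, ContDiff ℝ ∞ (F i k) := by
    intro i k
    fin_cases i
    · exact (h k).sr
    · exact (h k).sm
    · exact sPi k 0
    · exact sPi k 1
    · exact sPi k 2
  have pF : ∀ i k, Function.Periodic (F i k) 1 := by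
    intro i k
    fin_cases i
    · exact (h k).pr
    · exact (h k).pm
    · exact pPi k 0
    · exact pPi k 1
    · exact pPi k 2
  have dr : ∀ k n, ‖rc (r k) n‖ ≤ B * Real.exp (-(ρ * |(n:ℝ)|)) := fun k n =>
    (NeA.exp_of_all_N (fun N => (hdec k N n).1) hA0).trans
      (mul_le_mul_of_nonneg_right (le_max_left _ _) (Real.exp_pos _).le)
  have dm : ∀ k n, ‖rc (m k) n‖ ≤ B * Real.exp (-(ρ * |(n:ℝ)|)) := fun k n =>
    (NeA.exp_of_all_N (fun N => (hdec k N n).2) hA0).trans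
      (mul_le_mul_of_nonneg_right (le_max_left _ _) (Real.exp_pos _).le)
  have dP : ∀ k i n, ‖rc (fun x => P k x i) n‖ ≤ B * Real.exp (-(ρ * |(n:ℝ)|)) := fun k i n =>
    (NeA.exp_of_all_N (fun N => H1 N (r k) (m k) _ (h k).sr (h k).sm (sPi k i) (h k).pr (h k).pm
      (pPi k i) (fun n => (hdec k N n).1) (fun n => (hdec k N n).2)
      (NeA.ode_comp (h k).sys.curve.smooth (h k).ode i) E
      (fun x => (norm_le_pi_norm (P k x) i).trans (hPb k x)) n) (by positivity)).trans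
      (mul_le_mul_of_nonneg_right (le_max_right _ _) (Real.exp_pos _).le)
  have dF : ∀ i k n, ‖rc (F i k) n‖ ≤ B * Real.exp (-(ρ * |(n:ℝ)|)) := by
    intro i k n
    fin_cases i
    · exact dr k n
    · exact dm k n
    · exact dP k 0 n
    · exact dP k 1 n
    · exact dP k 2 n
  obtain ⟨φ, hφ, g, hg⟩ := NeCp.compact_family hρ hB0 sF pF dF
  set P0 : ℝ → Fin 3 → ℝ := fun x => ![g 2 x, g 3 x, g 4 x] with hP0
  have hPi : ∀ i : Fin 3, ∃ l : Fin 5, (fun x => P0 x i) = g l ∧ ∀ k,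
      (fun x => P k x i) = F l k := by
    intro i
    fin_cases i
    · exact ⟨2, rfl, fun k => rfl⟩
    · exact ⟨3, rfl, fun k => rfl⟩
    · exact ⟨4, rfl, fun k => rfl⟩
  have gan : ∀ i, AnalyticOnNhd ℝ (g i) univ := fun i =>
    analytic_of_decay (hg i).1 (hg i).2.1 hρ (hg i).2.2.1
  have uP : ∀ (i : Fin 3) (j : ℕ), TendstoUniformly (fun k => deriv^[j] (fun x => P (φ k) x i))
      (deriv^[j] (fun x => P0 x i)) atTop := by
    intro i j
    obtain ⟨l, hl, hl'⟩ := hPi i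
    rw [hl]
    simp only [hl']
    exact (hg l).2.2.2 j
  have ur : ∀ j : ℕ, TendstoUniformly (fun k => deriv^[j] (r (φ k))) (deriv^[j] (g 0)) atTop :=
    (hg 0).2.2.2
  have um : ∀ j : ℕ, TendstoUniformly (fun k => deriv^[j] (m (φ k))) (deriv^[j] (g 1)) atTop :=
    (hg 1).2.2.2
  have sP0 : ContDiff ℝ ∞ P0 := by
    rw [contDiff_pi]
    intro i
    obtain ⟨l, hl, -⟩ := hPi i
    rw [hl]
    exact (hg l).1
  -- pointwise limits
  have hit : ∀ {Q : ℝ → Fin 3 → ℝ}, ContDiff ℝ ∞ Q → ∀ i,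
      deriv (fun x => Q x i) = fun x => deriv Q x i := fun h i => funext fun x =>
    (hasDerivAt_pi.1 ((h.differentiable (by norm_num) x).hasDerivAt) i).deriv
  have sP1 : ContDiff ℝ ∞ (deriv P0) := (contDiff_infty_iff_deriv.1 sP0).2
  have sP2 : ContDiff ℝ ∞ (deriv (deriv P0)) := (contDiff_infty_iff_deriv.1 sP1).2
  have t0 : ∀ x, Tendsto (fun k => P (φ k) x) atTop (𝓝 (P0 x)) := fun x => by
    rw [tendsto_pi_nhds]
    exact fun i => (uP i 0).tendsto_at x
  have t1 : ∀ x, Tendsto (fun k => deriv (P (φ k)) x) atTop (𝓝 (deriv P0 x)) := fun x => by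
    rw [tendsto_pi_nhds]
    intro i
    have h1 : Tendsto (fun k => deriv (fun x => P (φ k) x i) x) atTop
        (𝓝 (deriv (fun x => P0 x i) x)) := (uP i 1).tendsto_at x
    rw [hit sP0] at h1
    refine h1.congr fun k => ?_
    rw [hit (h (φ k)).sys.curve.smooth]
  have t2 : ∀ x, Tendsto (fun k => deriv (deriv (P (φ k))) x) atTop (𝓝 (deriv (deriv P0) x)) :=
      fun x => by
    rw [tendsto_pi_nhds]
    intro i
    have h1 : Tendsto (fun k => deriv (deriv (fun x => P (φ k) x i)) x) atTop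
        (𝓝 (deriv (deriv (fun x => P0 x i)) x)) := (uP i 2).tendsto_at x
    rw [hit sP0, hit sP1] at h1
    refine h1.congr fun k => ?_
    rw [hit (h (φ k)).sys.curve.smooth, hit (h (φ k)).sys.curve.smooth1]
  have t3 : ∀ x, Tendsto (fun k => deriv (deriv (deriv (P (φ k)))) x) atTop
      (𝓝 (deriv (deriv (deriv P0)) x)) := fun x => by
    rw [tendsto_pi_nhds]
    intro i
    have h1 : Tendsto (fun k => deriv (deriv (deriv (fun x => P (φ k) x i))) x) atTop
        (𝓝 (deriv (deriv (deriv (fun x => P0 x i))) x)) := (uP i 3).tendsto_at x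
    rw [hit sP0, hit sP1, hit sP2] at h1
    refine h1.congr fun k => ?_
    rw [hit (h (φ k)).sys.curve.smooth, hit (h (φ k)).sys.curve.smooth1,
      hit (h (φ k)).sys.curve.smooth2]
  have tdet : ∀ {f1 f2 f3 : ℕ → Fin 3 → ℝ} {a b c : Fin 3 → ℝ}, Tendsto f1 atTop (𝓝 a) →
      Tendsto f2 atTop (𝓝 b) → Tendsto f3 atTop (𝓝 c) →
      Tendsto (fun k => det3 (f1 k) (f2 k) (f3 k)) atTop (𝓝 (det3 a b c)) := by
    intro f1 f2 f3 a b c h1 h2 h3
    rw [tendsto_pi_nhds] at h1 h2 h3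
    unfold det3
    exact (((h1 0).mul (((h2 1).mul (h3 2)).sub ((h2 2).mul (h3 1)))).sub
      ((h1 1).mul (((h2 0).mul (h3 2)).sub ((h2 2).mul (h3 0))))).add
      ((h1 2).mul (((h2 0).mul (h3 1)).sub ((h2 1).mul (h3 0))))
  refine ⟨φ, hφ, P0, g 0, g 1, ?_, ur, um, uP⟩
  refine
    { sP := sP0
      sr := (hg 0).1
      sm := (hg 1).1
      aP := ?_
      ar := gan 0
      am := gan 1
      pP := fun x => ?_
      pr := (hg 0).2.1
      pm := (hg 1).2.1
      ode := fun x => ?_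
      wr := fun x => ?_
      det := fun a b c hab hbc hca => ?_
      f0 := ?_
      f1 := ?_
      f2 := ?_ }
  · intro x _
    rw [analyticAt_pi_iff]
    intro i
    obtain ⟨l, hl, -⟩ := hPi i
    rw [hl]
    exact gan l x (mem_univ x)
  · funext i
    obtain ⟨l, hl, -⟩ := hPi i
    have h1 : P0 (x + 1) i = g l (x + 1) := congrFun hl (x + 1)
    have h2 : P0 x i = g l x := congrFun hl x
    rw [h1, h2]
    exact (hg l).2.1 x
  · have h1 := t3 x
    have h2 := (((ur 0).tendsto_at x).neg.smul (t1 x)).sub (((um 0).tendsto_at x).smul (t0 x))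
    refine tendsto_nhds_unique h1 (h2.congr fun k => ?_)
    exact ((h (φ k)).ode x).symm
  · have h1 := tdet (t0 x) (t1 x) (t2 x)
    refine tendsto_nhds_unique h1 (tendsto_const_nhds.congr fun k => ?_)
    exact ((h (φ k)).wr x).symm
  · refine ge_of_tendsto (tdet (t0 a) (t0 b) (t0 c)) (Eventually.of_forall fun k => ?_)
    exact (NeA.det3_pos (h (φ k)).sys.curve hab hbc hca).le
  · refine tendsto_nhds_unique (t0 0) (tendsto_const_nhds.congr fun k => (f0 _).symm)
  · refine tendsto_nhds_unique (t1 0) (tendsto_const_nhds.congr fun k => (f1 _).symm)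
  · refine tendsto_nhds_unique (t2 0) (tendsto_const_nhds.congr fun k => (f2 _).symm)

/-- If all the derivatives of `m - r' / 2` at `0` tend to zero along the sequence then the limit
satisfies `m = r' / 2`. -/
theorem theta_zero {P : ℝ → Fin 3 → ℝ} {r m : ℝ → ℝ} (h : NLim P r m) {rk mk : ℕ → ℝ → ℝ}
    (sr : ∀ k, ContDiff ℝ ∞ (rk k)) (sm : ∀ k, ContDiff ℝ ∞ (mk k))
    (ur : ∀ j : ℕ, TendstoUniformly (fun k => deriv^[j] (rk k)) (deriv^[j] r) atTop)
    (um : ∀ j : ℕ, TendstoUniformly (fun k => deriv^[j] (mk k)) (deriv^[j] m) atTop)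
    (hz : ∀ j : ℕ, Tendsto (fun k => deriv^[j] (fun x => mk k x - deriv (rk k) x / 2) 0) atTop
      (𝓝 0)) (x : ℝ) : m x = deriv r x / 2 := by
  -- the derivatives of the difference
  have key : ∀ (r m : ℝ → ℝ), ContDiff ℝ ∞ r → ContDiff ℝ ∞ m → ∀ (j : ℕ) (x : ℝ),
      deriv^[j] (fun x => m x - deriv r x / 2) x = deriv^[j] m x - deriv^[j + 1] r x / 2 := by
    intro r m hr hm j
    have hs : ∀ (f : ℝ → ℝ), ContDiff ℝ ∞ f → ∀ j : ℕ, ContDiff ℝ ∞ (deriv^[j] f) := by
      intro f hf j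
      induction j with
      | zero => exact hf
      | succ j ih =>
        rw [Function.iterate_succ_apply']
        exact (contDiff_infty_iff_deriv.1 ih).2
    induction j with
    | zero =>
      intro x
      rfl
    | succ j ih =>
      intro x
      have h1 : deriv^[j] (fun x => m x - deriv r x / 2) =
          fun x => deriv^[j] m x - deriv^[j + 1] r x / 2 := funext ih
      rw [Function.iterate_succ_apply', h1, Function.iterate_succ_apply' deriv j m,
        Function.iterate_succ_apply' deriv (j + 1) r]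
      exact ((((contDiff_infty_iff_deriv.1 (hs m hm j)).1 x).hasDerivAt).sub
        ((((contDiff_infty_iff_deriv.1 (hs r hr (j + 1))).1 x).hasDerivAt).div_const 2)).deriv
  have hz0 : ∀ j : ℕ, deriv^[j] (fun x => m x - deriv r x / 2) 0 = 0 := by
    intro j
    rw [key r m h.sr h.sm]
    have h1 := ((um j).tendsto_at 0).sub (((ur (j + 1)).tendsto_at 0).div_const 2)
    refine tendsto_nhds_unique h1 ((hz j).congr fun k => ?_)
    rw [key _ _ (sr k) (sm k)]
  have han : AnalyticOnNhd ℝ (fun x => m x - deriv r x / 2) univ := by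
    have h1 := h.am.sub (h.ar.deriv.mul (analyticOnNhd_const (v := (1/2 : ℝ))))
    refine h1.congr isOpen_univ fun x _ => ?_
    show m x - deriv r x * (1 / 2) = m x - deriv r x / 2
    ring
  have h2 : (fun x => m x - deriv r x / 2) =ᶠ[𝓝 0] 0 := by
    have h3 : HasFPowerSeriesAt (fun x => m x - deriv r x / 2)
        (FormalMultilinearSeries.ofScalars ℝ fun n =>
          iteratedDeriv n (fun x => m x - deriv r x / 2) 0 / (n.factorial : ℝ)) 0 :=
      (han 0 (mem_univ _)).hasFPowerSeriesAt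
    have h4 : (fun n : ℕ => iteratedDeriv n (fun x => m x - deriv r x / 2) 0 /
        (n.factorial : ℝ)) = 0 := by
      funext n
      rw [iteratedDeriv_eq_iterate, hz0 n, zero_div]
      rfl
    rw [h4, FormalMultilinearSeries.ofScalars_series_eq_zero_of_scalar_zero] at h3
    exact h3.eventually_eq_zero
  have h4 := han.eqOn_zero_of_preconnected_of_eventuallyEq_zero isPreconnected_univ (mem_univ 0) h2
  have h5 := h4 (mem_univ x)
  simp only [Pi.zero_apply] at h5
  linarith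

end Pool.Agent.MP_ae5b4e_an_LOC
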