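import Mathlib
import Pool.Agent.Lib.MP_ae5b4e_an_LOC.NeA

/-!
# MP_ae5b4e_an, project NE / AT: the limits of normalized solutions are closed convex curves
-/

noncomputable section

namespace Pool.Agent.MP_ae5b4e_an_LOC

open Real Set Filter Topology
open scoped ContDiff
open Pool.Agent.MP_ae5b4e_an_hopf

namespace NeA3

variable {Q : ℝ → Fin 3 → ℝ} {s m : ℝ → ℝ}

lemma hd0 (h : NLim Q s m) (x : ℝ) : HasDerivAt Q (deriv Q x) x :=
  ((contDiff_infty_iff_deriv.1 h.sP).1 x).hasDerivAt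

lemma sQ1 (h : NLim Q s m) : ContDiff ℝ ∞ (deriv Q) := (contDiff_infty_iff_deriv.1 h.sP).2

lemma sQ2 (h : NLim Q s m) : ContDiff ℝ ∞ (deriv (deriv Q)) :=
  (contDiff_infty_iff_deriv.1 (sQ1 h)).2

lemma hd1 (h : NLim Q s m) (x : ℝ) : HasDerivAt (deriv Q) (deriv (deriv Q) x) x :=
  ((contDiff_infty_iff_deriv.1 (sQ1 h)).1 x).hasDerivAt

/-- linear in the last vector -/
lemma hdl {f : ℝ → Fin 3 → ℝ} {f' : Fin 3 → ℝ} {x : ℝ} (hf : HasDerivAt f f' x) (a b : Fin 3 → ℝ) :
    HasDerivAt (fun x => det3 a b (f x)) (det3 a b f') x := by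
  refine (hasDerivAt_det3 (hasDerivAt_const x a) (hasDerivAt_const x b) hf).congr_deriv ?_
  unfold det3
  simp

lemma dd_nonneg (h : NLim Q s m) {x y : ℝ} (hxy : x < y) (hyx : y < x + 1) : 0 ≤ dd Q x y := by
  have h1 := hdl (hd0 h y) (Q x) (Q y)
  rw [hasDerivAt_iff_tendsto_slope] at h1
  have h2 := h1.mono_left (nhdsWithin_mono y (fun z (hz : z ∈ Ioi y) => (ne_of_gt hz : z ≠ y)))
  refine ge_of_tendsto h2 ?_
  filter_upwards [Ioo_mem_nhdsGT hyx] with c hc
  rw [slope_def_field, det3_self_right, sub_zero]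
  exact div_nonneg (h.det x y c hxy hc.1 hc.2) (by linarith [hc.1])

lemma zero_deriv {f : ℝ → ℝ} {f' a b x : ℝ} (h : ∀ x ∈ Ioo a b, f x = 0) (hx : x ∈ Ioo a b)
    (hf : HasDerivAt f f' x) : f' = 0 := by
  have h1 : f =ᶠ[𝓝 x] fun _ => 0 := by
    filter_upwards [Ioo_mem_nhds hx.1 hx.2] with z hz
    exact h z hz
  exact (hf.congr_of_eventuallyEq h1.symm).unique (hasDerivAt_const x 0)

end NeA3

open NeA3 in
/-- The limits of normalized solutions are closed convex curves. -/
theorem limit_curve {Q : ℝ → Fin 3 → ℝ} {s m : ℝ → ℝ} (h : NLim Q s m) : Curve 1 Q := by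
  refine ⟨one_pos, h.sP, h.pP, fun x y hxy hyx => ?_, fun x => by rw [h.wr]; exact one_pos⟩
  refine lt_of_le_of_ne (dd_nonneg h hxy hyx) fun h0 => ?_
  have hW : det3 (Q y) (deriv Q y) (deriv (deriv Q) y) = 1 := h.wr y
  -- the points are proportional
  have h1 : det3 (Q x) (Q y) (deriv (deriv Q) y) = 0 := by
    have hd : HasDerivAt (fun y => dd Q x y) (det3 (Q x) (Q y) (deriv (deriv Q) y)) y := by
      refine (hasDerivAt_det3 (hasDerivAt_const y (Q x)) (hd0 h y) (hd1 h y)).congr_deriv ?_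
      unfold det3
      simp
      ring
    have hmin : IsLocalMin (fun y => dd Q x y) y := by
      filter_upwards [Ioo_mem_nhds hxy hyx] with z hz
      rw [← h0]
      exact dd_nonneg h hz.1 hz.2
    exact hmin.hasDerivAt_eq_zero hd
  set α : ℝ := det3 (Q x) (deriv Q y) (deriv (deriv Q) y) with hα
  have h2 : Q x = α • Q y := by
    have e0 : det3 (Q x) (Q y) (deriv Q y) = 0 := h0.symm
    funext i
    have key : Q x i * det3 (Q y) (deriv Q y) (deriv (deriv Q) y) =
        det3 (Q x) (deriv Q y) (deriv (deriv Q) y) * Q y i -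
        det3 (Q x) (Q y) (deriv (deriv Q) y) * deriv Q y i +
        det3 (Q x) (Q y) (deriv Q y) * deriv (deriv Q) y i := by
      fin_cases i <;> simp only [Fin.zero_eta, Fin.mk_one, Fin.reduceFinMk] <;> unfold det3 <;> ring
    rw [hW, h1, e0, mul_one, zero_mul, zero_mul, sub_zero, add_zero] at key
    rw [key]
    rfl
  have hα0 : α ≠ 0 := by
    intro h3
    have h4 : Q x = 0 := by rw [h2, h3, zero_smul]
    have h5 := h.wr x
    unfold Wr at h5
    rw [h4] at h5
    unfold det3 at h5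
    simp at h5
  -- the third determinant vanishes
  have h3 : ∀ c ∈ Ioo y (x + 1), det3 (Q y) (deriv Q y) (Q c) = 0 := by
    intro c hc
    have hd : HasDerivAt (fun b => α * det3 (Q y) (Q b) (Q c))
        (α * det3 (Q y) (deriv Q y) (Q c)) y := by
      refine ((hasDerivAt_det3 (hasDerivAt_const y (Q y)) (hd0 h y)
        (hasDerivAt_const y (Q c))).congr_deriv ?_).const_mul α
      unfold det3
      simp
    have hmin : IsLocalMin (fun b => α * det3 (Q y) (Q b) (Q c)) y := by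
      filter_upwards [Ioo_mem_nhds hxy hc.1] with b hb
      rw [det3_self_left, mul_zero]
      have e1 : α * det3 (Q y) (Q b) (Q c) = det3 (Q x) (Q b) (Q c) := by
        rw [h2]
        unfold det3
        simp only [Pi.smul_apply, smul_eq_mul]
        ring
      rw [e1]
      exact h.det x b c hb.1 hb.2 hc.2
    have e2 := hmin.hasDerivAt_eq_zero hd
    exact (mul_eq_zero.1 e2).resolve_left hα0
  have h4 : ∀ c ∈ Ioo y (x + 1), det3 (Q y) (deriv Q y) (deriv Q c) = 0 := fun c hc =>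
    zero_deriv h3 hc (hdl (hd0 h c) _ _)
  have h5 : ∀ c ∈ Ioo y (x + 1), det3 (Q y) (deriv Q y) (deriv (deriv Q) c) = 0 := fun c hc =>
    zero_deriv h4 hc (hdl (hd1 h c) _ _)
  have h6 : Continuous fun c => det3 (Q y) (deriv Q y) (deriv (deriv Q) c) :=
    (contDiff_det3 (n := 0) contDiff_const contDiff_const ((sQ2 h).of_le (by simp))).continuous
  have h7 : Tendsto (fun c => det3 (Q y) (deriv Q y) (deriv (deriv Q) c)) (𝓝[>] y)
      (𝓝 (det3 (Q y) (deriv Q y) (deriv (deriv Q) y))) :=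
    (h6.tendsto y).mono_left nhdsWithin_le_nhds
  have h8 : Tendsto (fun c => det3 (Q y) (deriv Q y) (deriv (deriv Q) c)) (𝓝[>] y) (𝓝 0) := by
    refine tendsto_const_nhds.congr' ?_
    filter_upwards [Ioo_mem_nhdsGT hyx] with c hc
    exact (h5 c hc).symm
  have h9 := tendsto_nhds_unique h7 h8
  rw [hW] at h9
  exact one_ne_zero h9

end Pool.Agent.MP_ae5b4e_an_LOC
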