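import Mathlib
import Pool.Agent.Lib.MP_ae5b4e_an_RIG.GDef
import Pool.Agent.Lib.MP_ae5b4e_an_MET.LeafEnd

/-!
# MP_ae5b4e_an, project LOC: the forms of a pencil along the normalized curve
-/

noncomputable section

namespace Pool.Agent.MP_ae5b4e_an_LOC

open Real Set Filter Topology
open scoped ContDiff
open Pool.Agent.MP_ae5b4e_an_hopf
open Pool.Agent.MP_ae5b4e_an_RG
open Pool.Agent.MP_ae5b4e_an_RIG
open Pool.Agent.MP_ae5b4e_an_MET (conic mem_conic coef coef_apply QH)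

lemma polar_coef (Q : QuadraticForm ℝ (Fin 3 → ℝ)) (v w : Fin 3 → ℝ) :
    QuadraticMap.polar Q v w = 2 * coef Q 0 * (v 0 * w 0) + coef Q 1 * (v 0 * w 1 + v 1 * w 0) +
      2 * coef Q 2 * (v 1 * w 1) + coef Q 3 * (v 0 * w 2 + v 2 * w 0) +
      coef Q 4 * (v 1 * w 2 + v 2 * w 1) + 2 * coef Q 5 * (v 2 * w 2) := by
  unfold QuadraticMap.polar
  rw [coef_apply Q (v + w), coef_apply Q v, coef_apply Q w]
  simp only [QH, Pi.add_apply]
  ring

/-- the derivative of the values of a quadratic form along a curve -/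
lemma quad_hd (Q : QuadraticForm ℝ (Fin 3 → ℝ)) {f : ℝ → Fin 3 → ℝ} {f' : Fin 3 → ℝ} {x : ℝ}
    (hf : HasDerivAt f f' x) :
    HasDerivAt (fun x => Q (f x)) (QuadraticMap.polar Q (f x) f') x := by
  have h := hasDerivAt_pi.1 hf
  have h0 := h 0
  have h1 := h 1
  have h2 := h 2
  have e : (fun x => Q (f x)) = fun x => coef Q 0 * (f x 0 * f x 0) + coef Q 1 * (f x 0 * f x 1) +
      coef Q 2 * (f x 1 * f x 1) + coef Q 3 * (f x 0 * f x 2) + coef Q 4 * (f x 1 * f x 2) +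
      coef Q 5 * (f x 2 * f x 2) := by
    funext x
    rw [coef_apply Q]
    simp only [QH]
    ring
  rw [e, polar_coef]
  refine ((((((h0.mul h0).const_mul (coef Q 0)).add ((h0.mul h1).const_mul (coef Q 1))).add
    ((h1.mul h1).const_mul (coef Q 2))).add ((h0.mul h2).const_mul (coef Q 3))).add
    ((h1.mul h2).const_mul (coef Q 4))).add ((h2.mul h2).const_mul (coef Q 5)) |>.congr_deriv ?_
  ring

/-- the derivative of the values of the polar form along two curves -/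
lemma polar_hd (Q : QuadraticForm ℝ (Fin 3 → ℝ)) {f g : ℝ → Fin 3 → ℝ} {f' g' : Fin 3 → ℝ} {x : ℝ}
    (hf : HasDerivAt f f' x) (hg : HasDerivAt g g' x) :
    HasDerivAt (fun x => QuadraticMap.polar Q (f x) (g x))
      (QuadraticMap.polar Q f' (g x) + QuadraticMap.polar Q (f x) g') x := by
  have h := hasDerivAt_pi.1 hf
  have k := hasDerivAt_pi.1 hg
  have h0 := h 0
  have h1 := h 1
  have h2 := h 2
  have k0 := k 0
  have k1 := k 1
  have k2 := k 2
  have e : (fun x => QuadraticMap.polar Q (f x) (g x)) = fun x =>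
      2 * coef Q 0 * (f x 0 * g x 0) + coef Q 1 * (f x 0 * g x 1 + f x 1 * g x 0) +
      2 * coef Q 2 * (f x 1 * g x 1) + coef Q 3 * (f x 0 * g x 2 + f x 2 * g x 0) +
      coef Q 4 * (f x 1 * g x 2 + f x 2 * g x 1) + 2 * coef Q 5 * (f x 2 * g x 2) := by
    funext x
    rw [polar_coef]
  rw [e, polar_coef, polar_coef]
  refine ((((((h0.mul k0).const_mul (2 * coef Q 0)).add
    (((h0.mul k1).add (h1.mul k0)).const_mul (coef Q 1))).add
    ((h1.mul k1).const_mul (2 * coef Q 2))).add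
    (((h0.mul k2).add (h2.mul k0)).const_mul (coef Q 3))).add
    (((h1.mul k2).add (h2.mul k1)).const_mul (coef Q 4))).add
    ((h2.mul k2).const_mul (2 * coef Q 5)) |>.congr_deriv ?_
  ring

/-- the value of a form at a point of the tangent line -/
lemma form_hvec (γ : ConvexCurve) (Q : QuadraticForm ℝ (Fin 3 → ℝ)) (t u : ℝ) :
    Q (γ.hvec t u) = u ^ 2 * Q (γ.Γ t) + u * QuadraticMap.polar Q (γ.Γ t) (deriv γ.Γ t) +
      Q (deriv γ.Γ t) := by
  rw [γ.hvec_eq, polar_coef, coef_apply Q (u • γ.Γ t + deriv γ.Γ t), coef_apply Q (γ.Γ t),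
    coef_apply Q (deriv γ.Γ t)]
  simp only [QH, Pi.add_apply, Pi.smul_apply, smul_eq_mul]
  ring

lemma hd_Γ (γ : ConvexCurve) (t : ℝ) : HasDerivAt γ.Γ (deriv γ.Γ t) t :=
  ((contDiff_infty_iff_deriv.1 γ.smooth_Γ).1 t).hasDerivAt

/-- The involutions of a pencil solution. -/
lemma kappa_of_pencil {γ : ConvexCurve} {U : ℝ → ℝ → ℝ} {κ : ℝ → ℝ} (h : Sol γ U κ)
    {Q E : QuadraticForm ℝ (Fin 3 → ℝ)} (htr : γ.trace = conic E) (hQ : ∀ t, 0 < Q (γ.Γ t))
    (hl : ∀ c ∈ Ioo (0:ℝ) 1, ∃ ρ : ℝ, γ.leaf U c = conic (Q - ρ • E)) :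
    (∀ t, E (γ.Γ t) = 0) ∧ ∀ t, QuadraticMap.polar Q (γ.Γ t) (deriv γ.Γ t) =
      -(κ t) * Q (γ.Γ t) := by
  have hE : ∀ t, E (γ.Γ t) = 0 := fun t => by
    have h1 : Projectivization.mk ℝ ![γ.x t, γ.y t, 1] (γ.avec_ne t) ∈ conic E := by
      rw [← htr]
      exact ⟨t, rfl⟩
    exact (mem_conic E (γ.avec_ne t)).1 h1
  have hE' : ∀ t, QuadraticMap.polar E (γ.Γ t) (deriv γ.Γ t) = 0 := fun t => by
    have h1 := quad_hd E (hd_Γ γ t)
    rw [show (fun t => E (γ.Γ t)) = fun _ => 0 from funext hE] at h1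
    exact h1.unique (hasDerivAt_const t 0)
  refine ⟨hE, fun t => ?_⟩
  set b := QuadraticMap.polar Q (γ.Γ t) (deriv γ.Γ t) with hb
  have hq := hQ t
  -- a leaf close to the curve
  obtain ⟨c, hc, hu⟩ : ∃ c ∈ Ioo (0:ℝ) 1, -b / (2 * Q (γ.Γ t)) < U c t := by
    have h1 := (h.lim t).eventually_gt_atTop (-b / (2 * Q (γ.Γ t)))
    have h2 : Ioo (0:ℝ) 1 ∈ 𝓝[>] (0:ℝ) := Ioo_mem_nhdsGT one_pos
    obtain ⟨c, h3, h4⟩ := (h1.and h2).exists
    exact ⟨c, h4, h3⟩
  obtain ⟨ρ, hρ⟩ := hl c hc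
  set u := U c t with hu'
  set v := -b / Q (γ.Γ t) - u with hv
  have key : ∀ w, (Q - ρ • E) (γ.hvec t w) = w ^ 2 * Q (γ.Γ t) + w * b +
      (Q (deriv γ.Γ t) - ρ * E (deriv γ.Γ t)) := by
    intro w
    have e1 : (Q - ρ • E) (γ.hvec t w) = Q (γ.hvec t w) - ρ * E (γ.hvec t w) := by
      simp [sub_apply, smul_apply]
    rw [e1, form_hvec, form_hvec, hE t, hE' t]
    ring
  have hm : ∀ w, γ.pt t w ∈ γ.leaf U c ↔ (Q - ρ • E) (γ.hvec t w) = 0 := by
    intro w
    rw [hρ]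
    exact mem_conic _ (γ.hvec_ne t w)
  have m1 : γ.pt t u ∈ γ.leaf U c := ⟨t, rfl⟩
  have m1' := (hm u).1 m1
  rw [key u] at m1'
  have m2 : γ.pt t v ∈ γ.leaf U c := by
    rw [hm v, key v, hv, ← m1']
    field_simp
    ring
  have hne : u ≠ v := by
    intro he
    rw [hv] at he
    have h5 : 2 * u = -b / Q (γ.Γ t) := by linarith
    have h6 : -b / (2 * Q (γ.Γ t)) = u := by
      rw [show -b / (2 * Q (γ.Γ t)) = (-b / Q (γ.Γ t)) / 2 by field_simp, ← h5]
      ring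
    rw [h6] at hu
    exact lt_irrefl _ hu
  have h7 := h.proj c hc t u v hne m1 m2
  rw [hv] at h7
  have h8 : -b / Q (γ.Γ t) = κ t := by linarith
  rw [← h8]
  field_simp

/-- The forms of a pencil solution along the normalized curve. -/
theorem pencil_const {γ : ConvexCurve} {U : ℝ → ℝ → ℝ} {κ σ lam r m' : ℝ → ℝ} (h : Sol γ U κ)
    (hN : Normal γ κ σ lam r m') {Q E : QuadraticForm ℝ (Fin 3 → ℝ)} (htr : γ.trace = conic E)
    (hQ : ∀ t, 0 < Q (γ.Γ t))
    (hl : ∀ c ∈ Ioo (0:ℝ) 1, ∃ ρ : ℝ, γ.leaf U c = conic (Q - ρ • E)) :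
    ∃ q e : ℝ, 0 < q ∧ (∀ x, Q (lift γ σ lam x) = q) ∧ (∀ x, E (lift γ σ lam x) = 0) ∧
      (∀ x, E (deriv (lift γ σ lam) x) = e) := by
  obtain ⟨hE, hk⟩ := kappa_of_pencil h htr hQ hl
  set P := lift γ σ lam with hP
  have hEP : ∀ x, E (P x) = 0 := fun x => by
    show E (lam x • γ.Γ (σ x)) = 0
    rw [QuadraticMap.map_smul, hE, smul_zero]
  -- the derivatives of the lift
  have hsP : ContDiff ℝ ∞ P := hN.smooth_lam.smul (γ.smooth_Γ.comp hN.smooth_σ)
  have hs1 := contDiff_infty_iff_deriv.1 hsP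
  have hs2 := contDiff_infty_iff_deriv.1 hs1.2
  have hs3 := contDiff_infty_iff_deriv.1 hs2.2
  have d1 : ∀ x, HasDerivAt P (deriv P x) x := fun x => (hs1.1 x).hasDerivAt
  have d2 : ∀ x, HasDerivAt (deriv P) (deriv (deriv P) x) x := fun x => (hs2.1 x).hasDerivAt
  have d3 : ∀ x, HasDerivAt (deriv (deriv P)) (deriv (deriv (deriv P)) x) x :=
    fun x => (hs3.1 x).hasDerivAt
  have dσ : ∀ x, HasDerivAt σ (deriv σ x) x := fun x =>
    ((contDiff_infty_iff_deriv.1 hN.smooth_σ).1 x).hasDerivAt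
  have dl : ∀ x, HasDerivAt lam (deriv lam x) x := fun x =>
    ((contDiff_infty_iff_deriv.1 hN.smooth_lam).1 x).hasDerivAt
  -- the form `Q` is constant
  have dQ : ∀ x, HasDerivAt (fun x => Q (P x)) 0 x := by
    intro x
    have e1 : (fun x => Q (P x)) = fun x => (lam x) ^ 2 * Q (γ.Γ (σ x)) := by
      funext x
      show Q (lam x • γ.Γ (σ x)) = _
      rw [QuadraticMap.map_smul, smul_eq_mul]
      ring
    rw [e1]
    have h1 := (quad_hd Q (hd_Γ γ (σ x))).comp x (dσ x)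
    have h2 := ((dl x).pow 2).mul h1
    refine h2.congr_deriv ?_
    rw [hk (σ x), hN.eq_lam x]
    simp only [Function.comp, Pi.pow_apply]
    ring
  have cQ : ∀ x, Q (P x) = Q (P 0) := fun x =>
    is_const_of_deriv_eq_zero (fun y => (dQ y).differentiableAt) (fun y => (dQ y).deriv) x 0
  -- the form `E`
  have p1 : ∀ x, QuadraticMap.polar E (P x) (deriv P x) = 0 := fun x => by
    have h1 := quad_hd E (d1 x)
    rw [show (fun x => E (P x)) = fun _ => 0 from funext hEP] at h1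
    exact h1.unique (hasDerivAt_const x 0)
  have p2 : ∀ x, QuadraticMap.polar E (deriv P x) (deriv P x) +
      QuadraticMap.polar E (P x) (deriv (deriv P) x) = 0 := fun x => by
    have h1 := polar_hd E (d1 x) (d2 x)
    rw [show (fun x => QuadraticMap.polar E (P x) (deriv P x)) = fun _ => 0 from funext p1] at h1
    exact h1.unique (hasDerivAt_const x 0)
  have p3 : ∀ x, QuadraticMap.polar E (deriv (deriv P) x) (deriv P x) +
      QuadraticMap.polar E (deriv P x) (deriv (deriv P) x) +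
      (QuadraticMap.polar E (deriv P x) (deriv (deriv P) x) +
      QuadraticMap.polar E (P x) (deriv (deriv (deriv P)) x)) = 0 := fun x => by
    have h1 := (polar_hd E (d2 x) (d2 x)).add (polar_hd E (d1 x) (d3 x))
    have h2 : (fun x => QuadraticMap.polar E (deriv P x) (deriv P x)) +
        (fun x => QuadraticMap.polar E (P x) (deriv (deriv P) x)) = fun _ => 0 := by
      funext x
      exact p2 x
    rw [h2] at h1
    exact h1.unique (hasDerivAt_const x 0)
  have p4 : ∀ x, QuadraticMap.polar E (deriv P x) (deriv (deriv P) x) = 0 := by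
    intro x
    have h1 := p3 x
    have h2 : QuadraticMap.polar E (P x) (deriv (deriv (deriv P)) x) = 0 := by
      rw [hN.ode x, show -(r x) • deriv (lift γ σ lam) x - m' x • lift γ σ lam x =
        (-(r x)) • deriv P x + (-(m' x)) • P x by rw [← hP]; simp [sub_eq_add_neg],
        QuadraticMap.polar_add_right, QuadraticMap.polar_smul_right,
        QuadraticMap.polar_smul_right, p1 x, QuadraticMap.polar_self, hEP x]
      simp
    rw [QuadraticMap.polar_comm E (deriv (deriv P) x) (deriv P x), h2] at h1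
    linarith
  have dE : ∀ x, HasDerivAt (fun x => E (deriv P x)) 0 x := fun x =>
    (quad_hd E (d2 x)).congr_deriv (p4 x)
  have cE : ∀ x, E (deriv P x) = E (deriv P 0) := fun x =>
    is_const_of_deriv_eq_zero (fun y => (dE y).differentiableAt) (fun y => (dE y).deriv) x 0
  refine ⟨Q (P 0), E (deriv P 0), ?_, cQ, hEP, cE⟩
  show 0 < Q (lam 0 • γ.Γ (σ 0))
  rw [QuadraticMap.map_smul, smul_eq_mul]
  exact mul_pos (mul_pos (hN.pos_lam 0) (hN.pos_lam 0)) (hQ _)

end Pool.Agent.MP_ae5b4e_an_LOC
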