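import Pool.Agent.Lib.MP_ae5b4e_an_LOC.BCJ

/-!
# LOC: a periodic solution of the Jacobi system is the Jacobi curve
-/

set_option autoImplicit false

noncomputable section

namespace Pool.Agent.MP_ae5b4e_an_LOC

open Set Filter Topology

theorem jac_id {X Y Z : ℝ → ℝ} {m a : ℝ} (h0 : 0 ≤ m) (h1 : m < 1) (ha : 0 < a)
    (hX : ∀ x, HasDerivAt X (a * (Y x * Z x)) x) (hY : ∀ x, HasDerivAt Y (-(a * (X x * Z x))) x)
    (hZ : ∀ x, HasDerivAt Z (-(a * m * (X x * Y x))) x) (e1 : ∀ x, X x ^ 2 + Y x ^ 2 = 1)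
    (e2 : ∀ x, Z x ^ 2 + m * X x ^ 2 = 1) (hp : ∀ x, 0 < Z x)
    (hper : ∀ x, X (x + 1) = X x ∧ Y (x + 1) = Y x)
    (hinj : ∀ x y, x < y → y < x + 1 → ¬ (X x = X y ∧ Y x = Y y)) :
    ∃ c : ℝ, ∀ x, ![X x, Y x, Z x] = PJ m (4 * KK m * (x + c)) := by
  have hK := KK_pos h0 h1
  obtain ⟨θ, -, hs, hc⟩ := exists_angle (e1 0)
  set u0 := ath m θ with hu0
  have s0 : sn m u0 = X 0 := by
    unfold sn
    rw [hu0, am_ath h0 h1, hs]
  have c0 : cn m u0 = Y 0 := by
    unfold cn
    rw [hu0, am_ath h0 h1, hc]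
  have d0 : dn m u0 = Z 0 := by
    have k1 := dn_sq h0 h1 u0
    have k2 := e2 0
    rw [s0] at k1
    have k3 := dn_pos h0 h1 u0
    have k4 := hp 0
    nlinarith
  -- the rescaled curves
  have key : (fun t => ((X (t / a), Y (t / a), Z (t / a)) : ℝ × ℝ × ℝ)) =
      fun t => (sn m (t + u0), cn m (t + u0), dn m (t + u0)) := by
    have hdiv : ∀ t : ℝ, HasDerivAt (fun t : ℝ => t / a) (1 / a) t := fun t => by
      simpa using (hasDerivAt_id t).div_const a
    refine jac_unique (m := m) ?_ ?_ ?_ ?_ ?_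
    · intro t
      have k1 := (hX (t / a)).comp t (hdiv t)
      have k2 := (hY (t / a)).comp t (hdiv t)
      have k3 := (hZ (t / a)).comp t (hdiv t)
      refine (k1.prodMk (k2.prodMk k3)).congr_deriv ?_
      simp only [jvf, Prod.mk.injEq]
      refine ⟨?_, ?_, ?_⟩ <;> field_simp
    · intro t
      have hs := HasDerivAt.comp_add_const t u0 (sn_hasDerivAt h0 h1 (t + u0))
      have hc := HasDerivAt.comp_add_const t u0 (cn_hasDerivAt h0 h1 (t + u0))
      have hd := HasDerivAt.comp_add_const t u0 (dn_hasDerivAt h0 h1 (t + u0))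
      exact hs.prodMk (hc.prodMk hd)
    · intro t
      have k1 := e1 (t / a)
      have k2 := e2 (t / a)
      have k3 : 0 ≤ m * X (t / a) ^ 2 := mul_nonneg h0 (sq_nonneg _)
      have b1 : |X (t / a)| ≤ 1 := abs_le_one_iff_mul_self_le_one.2 (by
        nlinarith [sq_nonneg (Y (t / a))])
      have b2 : |Y (t / a)| ≤ 1 := abs_le_one_iff_mul_self_le_one.2 (by
        nlinarith [sq_nonneg (X (t / a))])
      have b3 : |Z (t / a)| ≤ 1 := abs_le_one_iff_mul_self_le_one.2 (by nlinarith)
      rw [Prod.norm_def, Prod.norm_def]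
      simp only [Real.norm_eq_abs]
      exact max_le (by linarith) (max_le (by linarith) (by linarith))
    · intro t
      have b1 := sn_abs_le m (t + u0)
      have b2 := cn_abs_le m (t + u0)
      have b3 : |dn m (t + u0)| ≤ 1 := by
        rw [abs_of_pos (dn_pos h0 h1 _)]
        exact dn_le h0 _
      rw [Prod.norm_def, Prod.norm_def]
      simp only [Real.norm_eq_abs]
      exact max_le (by linarith) (max_le (by linarith) (by linarith))
    · simp only [zero_div, zero_add, s0, c0, d0]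
  have kx : ∀ x, X x = sn m (a * x + u0) ∧ Y x = cn m (a * x + u0) ∧ Z x = dn m (a * x + u0) := by
    intro x
    have k := congrFun key (a * x)
    simp only [Prod.mk.injEq] at k
    have e : a * x / a = x := by field_simp
    rwa [e] at k
  -- the period
  obtain ⟨n, hn, han⟩ : ∃ n : ℤ, 0 < n ∧ a = n * (4 * KK m) := by
    have p1 := (hper 0).1
    have p2 := (hper 0).2
    rw [(kx _).1, (kx 0).1] at p1
    rw [(kx _).2.1, (kx 0).2.1] at p2
    rw [show a * (0 + 1) + u0 = u0 + a by ring, show a * 0 + u0 = u0 by ring] at p1 p2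
    unfold sn at p1
    unfold cn at p2
    have hcos : Real.cos (am m (u0 + a) - am m u0) = 1 := by
      rw [Real.cos_sub, p1, p2]
      have := Real.sin_sq_add_cos_sq (am m u0)
      nlinarith
    obtain ⟨n, hn⟩ := (Real.cos_eq_one_iff _).1 hcos
    have hlt := am_strictMono h0 h1 (show u0 < u0 + a by linarith)
    have hpi := Real.pi_pos
    have hn0 : 0 < n := by
      have : (0:ℝ) < n := by
        by_contra hcon
        push Not at hcon
        have := mul_nonpos_of_nonpos_of_nonneg hcon (show 0 ≤ 2 * Real.pi by linarith)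
        linarith
      exact_mod_cast this
    refine ⟨n, hn0, ?_⟩
    have k := am_int h0 h1 u0 (2 * n)
    have k2 : am m (u0 + a) = am m (u0 + ((2 * n : ℤ) : ℝ) * (2 * KK m)) := by
      rw [k]
      push_cast
      linarith
    have k3 := (am_strictMono h0 h1).injective k2
    push_cast at k3
    linarith
  have hn1 : n = 1 := by
    by_contra hne
    have hn2 : 2 ≤ n := by omega
    have hnr : (2:ℝ) ≤ n := by exact_mod_cast hn2
    have hinv : (0:ℝ) < 1 / n := by positivity
    have hlt : (1:ℝ) / n < 0 + 1 := by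
      rw [zero_add, div_lt_one (by linarith)]
      linarith
    refine hinj 0 (1 / n) hinv hlt ⟨?_, ?_⟩
    · rw [(kx 0).1, (kx (1 / n)).1, han]
      rw [show (n:ℝ) * (4 * KK m) * 0 + u0 = u0 by ring,
        show (n:ℝ) * (4 * KK m) * (1 / n) + u0 = u0 + 4 * KK m by field_simp; ring]
      unfold sn
      rw [am_add4 h0 h1, Real.sin_add_two_pi]
    · rw [(kx 0).2.1, (kx (1 / n)).2.1, han]
      rw [show (n:ℝ) * (4 * KK m) * 0 + u0 = u0 by ring,
        show (n:ℝ) * (4 * KK m) * (1 / n) + u0 = u0 + 4 * KK m by field_simp; ring]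
      unfold cn
      rw [am_add4 h0 h1, Real.cos_add_two_pi]
  rw [hn1, Int.cast_one, one_mul] at han
  refine ⟨u0 / (4 * KK m), fun x => ?_⟩
  have e : 4 * KK m * (x + u0 / (4 * KK m)) = a * x + u0 := by
    rw [han]
    field_simp
  rw [e, (kx x).1, (kx x).2.1, (kx x).2.2]
  rfl

end Pool.Agent.MP_ae5b4e_an_LOC
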