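import Mathlib

/-!
# LOC: the normal form of a real pencil of nested conics

`E` is a quadratic form of signature `(2, 1)` (its conic is an ellipse in a suitable chart), `Q` is
positive on the cone `E = 0`.  Then there are coordinates with `E = X² + Y² - Z²` and
`Q = A X² + B Y² + c E`, `A ≥ B > 0`.
-/

set_option autoImplicit false

namespace Pool.Agent.MP_ae5b4e_an_LOC

open Set

noncomputable section

private theorem NF_cont (Q : QuadraticForm ℝ (Fin 3 → ℝ)) : Continuous fun v => Q v := by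
  have h : (fun v => Q v) = fun v => (QuadraticMap.associated (R := ℝ) Q) v v := by
    funext v
    exact (QuadraticMap.associated_eq_self_apply ℝ Q v).symm
  rw [h]
  obtain ⟨L, hL⟩ : ∃ L, L = QuadraticMap.associated (R := ℝ) Q := ⟨_, rfl⟩
  rw [← hL]
  have h2 : (fun v => L v v) = fun v => ∑ i, v i * L (Pi.single i 1) v := by
    funext v
    have h4 : v = ∑ i, v i • (Pi.single i (1 : ℝ) : Fin 3 → ℝ) := by
      funext j
      simp [Finset.sum_apply, Pi.single_apply]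
    calc L v v = L (∑ i, v i • (Pi.single i (1 : ℝ) : Fin 3 → ℝ)) v := by rw [← h4]
      _ = ∑ i, v i * L (Pi.single i 1) v := by
        rw [map_sum, LinearMap.sum_apply]
        refine Finset.sum_congr rfl fun i _ => ?_
        rw [map_smul, LinearMap.smul_apply, smul_eq_mul]
  rw [h2]
  refine continuous_finsetSum _ fun i _ => (continuous_apply i).mul ?_
  exact LinearMap.continuous_of_finiteDimensional _

private theorem NF_add (Q : QuadraticForm ℝ (Fin 3 → ℝ)) (u w : Fin 3 → ℝ) (s : ℝ) :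
    Q (u + s • w) = Q u + s * QuadraticMap.polar Q u w + s ^ 2 * Q w := by
  have h := QuadraticMap.map_add Q u (s • w)
  rw [h, QuadraticMap.polar_smul_right, QuadraticMap.map_smul, smul_eq_mul, smul_eq_mul]
  ring

private theorem NF_two (E Q : QuadraticForm ℝ (Fin 3 → ℝ))
    (hQ : ∀ v, v ≠ 0 → E v = 0 → 0 < Q v) {u w : Fin 3 → ℝ} (hu : 0 < E u) (hw : E w < 0) :
    0 < -E w * Q u + E u * Q w := by
  obtain ⟨a, ha⟩ : ∃ a, a = E u := ⟨_, rfl⟩
  obtain ⟨b, hb⟩ : ∃ b, b = -E w := ⟨_, rfl⟩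
  obtain ⟨β, hβ⟩ : ∃ β, β = QuadraticMap.polar E u w := ⟨_, rfl⟩
  have ha0 : 0 < a := ha ▸ hu
  have hb0 : 0 < b := by rw [hb]; linarith
  obtain ⟨R, hR⟩ : ∃ R, R = Real.sqrt (β ^ 2 + 4 * a * b) := ⟨_, rfl⟩
  have hR2 : R ^ 2 = β ^ 2 + 4 * a * b := by
    rw [hR]
    exact Real.sq_sqrt (by positivity)
  have hR0 : 0 < R := by
    rw [hR]
    exact Real.sqrt_pos.2 (by positivity)
  have key : ∀ s : ℝ, a + s * β - s ^ 2 * b = 0 →
      0 < Q u + s * QuadraticMap.polar Q u w + s ^ 2 * Q w := by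
    intro s hs
    rw [← NF_add]
    refine hQ _ ?_ ?_
    · intro h0
      have h1 : u = -(s • w) := eq_neg_of_add_eq_zero_left h0
      have h2 : E u = s ^ 2 * E w := by
        rw [h1, QuadraticMap.map_neg, QuadraticMap.map_smul, smul_eq_mul]
        ring
      have h3 : s ^ 2 * E w ≤ 0 := mul_nonpos_of_nonneg_of_nonpos (sq_nonneg s) hw.le
      linarith
    · rw [NF_add, ← ha, ← hβ]
      have : E w = -b := by rw [hb]; ring
      rw [this]
      linarith
  have h1 := key ((β + R) / (2 * b)) (by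
    field_simp
    nlinarith)
  have h2 := key ((β - R) / (2 * b)) (by
    field_simp
    nlinarith)
  obtain ⟨pp, hpp⟩ : ∃ pp, pp = QuadraticMap.polar Q u w := ⟨_, rfl⟩
  rw [← hpp] at h1 h2
  rw [← ha, ← hb]
  have hβR1 : 0 < R - β := by
    have : β < R := lt_of_pow_lt_pow_left₀ 2 hR0.le (by rw [hR2]; nlinarith [mul_pos ha0 hb0])
    linarith
  have hβR2 : 0 < R + β := by
    have : -β < R := lt_of_pow_lt_pow_left₀ 2 hR0.le (by rw [hR2]; nlinarith [mul_pos ha0 hb0])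
    linarith
  have h3 : 0 < (R - β) * (Q u + (β + R) / (2 * b) * pp + ((β + R) / (2 * b)) ^ 2 * Q w) :=
    mul_pos hβR1 h1
  have h4 : 0 < (R + β) * (Q u + (β - R) / (2 * b) * pp + ((β - R) / (2 * b)) ^ 2 * Q w) :=
    mul_pos hβR2 h2
  have h5 : (R - β) * (Q u + (β + R) / (2 * b) * pp + ((β + R) / (2 * b)) ^ 2 * Q w) +
      (R + β) * (Q u + (β - R) / (2 * b) * pp + ((β - R) / (2 * b)) ^ 2 * Q w) =
      2 * R / b * (b * Q u + a * Q w) := by
    have e : (R - β) * ((β + R) / (2 * b)) ^ 2 + (R + β) * ((β - R) / (2 * b)) ^ 2 =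
        2 * R / b * a := by
      have e1 : (R - β) * ((β + R) / (2 * b)) ^ 2 + (R + β) * ((β - R) / (2 * b)) ^ 2 =
          (R ^ 2 - β ^ 2) * (2 * R) / (4 * b ^ 2) := by
        field_simp
        ring
      rw [e1, hR2]
      field_simp
      ring
    have e2 : (R - β) * ((β + R) / (2 * b) * pp) + (R + β) * ((β - R) / (2 * b) * pp) = 0 := by
      field_simp
      ring
    calc (R - β) * (Q u + (β + R) / (2 * b) * pp + ((β + R) / (2 * b)) ^ 2 * Q w) +
        (R + β) * (Q u + (β - R) / (2 * b) * pp + ((β - R) / (2 * b)) ^ 2 * Q w)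
        = 2 * R * Q u + ((R - β) * ((β + R) / (2 * b) * pp) +
          (R + β) * ((β - R) / (2 * b) * pp)) +
          ((R - β) * ((β + R) / (2 * b)) ^ 2 + (R + β) * ((β - R) / (2 * b)) ^ 2) * Q w := by ring
      _ = 2 * R * Q u + 0 + (2 * R / b * a) * Q w := by rw [e, e2]
      _ = 2 * R / b * (b * Q u + a * Q w) := by
        field_simp
        ring
  have h6 : 0 < 2 * R / b * (b * Q u + a * Q w) := by
    rw [← h5]
    exact add_pos h3 h4
  exact (mul_pos_iff_of_pos_left (by positivity)).1 h6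

/-- Finsler's lemma, semidefinite version. -/
private theorem NF_fin0 (E Q : QuadraticForm ℝ (Fin 3 → ℝ))
    (hE1 : ∃ u, 0 < E u) (hE2 : ∃ w, E w < 0)
    (hQ : ∀ v, v ≠ 0 → E v = 0 → 0 < Q v) : ∃ t : ℝ, ∀ v, 0 ≤ Q v + t * E v := by
  obtain ⟨u₀, hu₀⟩ := hE1
  obtain ⟨w₀, hw₀⟩ := hE2
  have hle : ∀ u w, 0 < E u → E w < 0 → -Q u / E u ≤ Q w / (-E w) := by
    intro u w hu hw
    have h := NF_two E Q hQ hu hw
    rw [div_le_div_iff₀ hu (by linarith)]
    nlinarith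
  obtain ⟨t, ht1, ht2⟩ : ∃ t : ℝ, (∀ u, 0 < E u → -Q u / E u ≤ t) ∧
      ∀ w, E w < 0 → t ≤ Q w / (-E w) := by
    refine ⟨sSup {x | ∃ u, 0 < E u ∧ x = -Q u / E u}, ?_, ?_⟩
    · intro u hu
      refine le_csSup ⟨Q w₀ / (-E w₀), ?_⟩ ⟨u, hu, rfl⟩
      rintro x ⟨u', hu', rfl⟩
      exact hle u' w₀ hu' hw₀
    · intro w hw
      refine csSup_le ⟨_, u₀, hu₀, rfl⟩ ?_
      rintro x ⟨u', hu', rfl⟩
      exact hle u' w hu' hw
  refine ⟨t, fun v => ?_⟩
  rcases lt_trichotomy (E v) 0 with h | h | h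
  · have h1 := ht2 v h
    rw [le_div_iff₀ (by linarith)] at h1
    linarith
  · rcases eq_or_ne v 0 with rfl | hv
    · rw [QuadraticMap.map_zero, QuadraticMap.map_zero]
      simp
    · have := hQ v hv h
      rw [h]
      linarith
  · have h1 := ht1 v h
    rw [div_le_iff₀ h] at h1
    linarith

/-- The sum of squares. -/
private def NF_N : QuadraticForm ℝ (Fin 3 → ℝ) := QuadraticMap.weightedSumSquares ℝ (1 : Fin 3 → ℝ)

private theorem NF_N_apply (v : Fin 3 → ℝ) : NF_N v = v 0 ^ 2 + v 1 ^ 2 + v 2 ^ 2 := by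
  unfold NF_N
  rw [QuadraticMap.weightedSumSquares_apply]
  simp [Fin.sum_univ_three]
  ring

private theorem NF_N_pos {v : Fin 3 → ℝ} (hv : v ≠ 0) : 0 < NF_N v := by
  rw [NF_N_apply]
  by_contra h
  push Not at h
  apply hv
  funext i
  have h0 := sq_nonneg (v 0)
  have h1 := sq_nonneg (v 1)
  have h2 := sq_nonneg (v 2)
  have e0 : v 0 = 0 := pow_eq_zero_iff (n := 2) (by norm_num) |>.1 (by linarith)
  have e1 : v 1 = 0 := pow_eq_zero_iff (n := 2) (by norm_num) |>.1 (by linarith)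
  have e2 : v 2 = 0 := pow_eq_zero_iff (n := 2) (by norm_num) |>.1 (by linarith)
  fin_cases i
  · exact e0
  · exact e1
  · exact e2

/-- Finsler's lemma. -/
private theorem NF_fin (E Q : QuadraticForm ℝ (Fin 3 → ℝ))
    (hE1 : ∃ u, 0 < E u) (hE2 : ∃ w, E w < 0)
    (hQ : ∀ v, v ≠ 0 → E v = 0 → 0 < Q v) : ∃ t : ℝ, ∀ v, v ≠ 0 → 0 < Q v + t * E v := by
  obtain ⟨ε, hε, hεQ⟩ : ∃ ε : ℝ, 0 < ε ∧ ∀ v, v ≠ 0 → E v = 0 → ε * NF_N v < Q v := by
    have hK : IsCompact {v : Fin 3 → ℝ | NF_N v = 1 ∧ E v = 0} := by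
      refine Metric.isCompact_of_isClosed_isBounded ?_ ?_
      · exact (isClosed_eq (NF_cont _) continuous_const).inter
          (isClosed_eq (NF_cont _) continuous_const)
      · refine (Metric.isBounded_closedBall (x := (0 : Fin 3 → ℝ)) (r := 1)).subset ?_
        rintro v ⟨hv, -⟩
        rw [mem_closedBall_zero_iff, pi_norm_le_iff_of_nonneg zero_le_one]
        intro i
        rw [NF_N_apply] at hv
        rw [Real.norm_eq_abs, ← sq_le_one_iff_abs_le_one]
        have h0 := sq_nonneg (v 0)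
        have h1 := sq_nonneg (v 1)
        have h2 := sq_nonneg (v 2)
        fin_cases i
        · show v 0 ^ 2 ≤ 1
          linarith
        · show v 1 ^ 2 ≤ 1
          linarith
        · show v 2 ^ 2 ≤ 1
          linarith
    rcases Set.eq_empty_or_nonempty {v : Fin 3 → ℝ | NF_N v = 1 ∧ E v = 0} with hem | hne
    · refine ⟨1, one_pos, fun v hv hEv => ?_⟩
      exfalso
      have hN := NF_N_pos hv
      have : (Real.sqrt (NF_N v))⁻¹ • v ∈ {v : Fin 3 → ℝ | NF_N v = 1 ∧ E v = 0} := by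
        refine ⟨?_, ?_⟩
        · rw [QuadraticMap.map_smul, smul_eq_mul, ← mul_inv, Real.mul_self_sqrt hN.le,
            inv_mul_cancel₀ hN.ne']
        · rw [QuadraticMap.map_smul, hEv, smul_zero]
      rw [hem] at this
      exact this
    · obtain ⟨v₀, hv₀, hmin⟩ := hK.exists_isMinOn hne (NF_cont Q).continuousOn
      have hv₀0 : v₀ ≠ 0 := by
        rintro rfl
        have := hv₀.1
        rw [QuadraticMap.map_zero] at this
        exact zero_ne_one this
      have hpos := hQ v₀ hv₀0 hv₀.2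
      refine ⟨Q v₀ / 2, by linarith, fun v hv hEv => ?_⟩
      have hN := NF_N_pos hv
      have hmem : (Real.sqrt (NF_N v))⁻¹ • v ∈ {v : Fin 3 → ℝ | NF_N v = 1 ∧ E v = 0} := by
        refine ⟨?_, ?_⟩
        · rw [QuadraticMap.map_smul, smul_eq_mul, ← mul_inv, Real.mul_self_sqrt hN.le,
            inv_mul_cancel₀ hN.ne']
        · rw [QuadraticMap.map_smul, hEv, smul_zero]
      have h1 : Q v₀ ≤ Q ((Real.sqrt (NF_N v))⁻¹ • v) := hmin hmem
      rw [QuadraticMap.map_smul, smul_eq_mul, ← mul_inv, Real.mul_self_sqrt hN.le,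
        inv_mul_eq_div, le_div_iff₀ hN] at h1
      have h2 : 0 < Q v₀ * NF_N v := mul_pos hpos hN
      linarith
  obtain ⟨t, ht⟩ := NF_fin0 E (Q - ε • NF_N) hE1 hE2 (by
    intro v hv hEv
    have := hεQ v hv hEv
    rw [sub_apply, smul_apply, smul_eq_mul]
    linarith)
  refine ⟨t, fun v hv => ?_⟩
  have h1 := ht v
  rw [sub_apply, smul_apply, smul_eq_mul] at h1
  have h2 : 0 < ε * NF_N v := mul_pos hε (NF_N_pos hv)
  linarith

/-- A positive definite form is a sum of squares. -/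
private theorem NF_sq (F : QuadraticForm ℝ (Fin 3 → ℝ)) (hF : ∀ v, v ≠ 0 → 0 < F v) :
    ∃ g : (Fin 3 → ℝ) ≃ₗ[ℝ] (Fin 3 → ℝ), ∀ v, F (g v) = ∑ k, v k ^ 2 := by
  have hnd : (QuadraticMap.associated (R := ℝ) F).SeparatingLeft := by
    intro v hv
    by_contra h
    have h1 := hF v h
    rw [← QuadraticMap.associated_eq_self_apply ℝ F v, hv v] at h1
    exact lt_irrefl _ h1
  have h := QuadraticForm.equivalent_one_neg_one_weighted_sum_squared F hnd
  rw [Module.finrank_fin_fun] at h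
  obtain ⟨w, hw, ⟨e⟩⟩ := h
  have hw1 : ∀ i, w i = 1 := by
    intro i
    rcases hw i with h | h
    · exfalso
      have h1 : F (e.symm (Pi.single i 1)) = -1 := by
        rw [e.symm.map_app, QuadraticMap.weightedSumSquares_apply]
        simp [Pi.single_apply, h]
      have h2 : e.symm (Pi.single i 1) ≠ 0 := by
        intro h0
        rw [h0, QuadraticMap.map_zero] at h1
        norm_num at h1
      have h3 := hF _ h2
      rw [h1] at h3
      norm_num at h3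
    · exact h
  refine ⟨e.symm.toLinearEquiv, fun v => ?_⟩
  have h1 : F (e.symm.toLinearEquiv v) = QuadraticMap.weightedSumSquares ℝ w v := e.symm.map_app v
  rw [h1, QuadraticMap.weightedSumSquares_apply]
  refine Finset.sum_congr rfl fun k _ => ?_
  rw [hw1 k, smul_eq_mul]
  ring

private theorem NF_mat (E : QuadraticForm ℝ (Fin 3 → ℝ)) (v : Fin 3 → ℝ) :
    E v = v ⬝ᵥ (E.toMatrix').mulVec v := by
  rw [← Matrix.toLinearMap₂'_apply', QuadraticForm.toMatrix',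
    Matrix.toLinearMap₂'_toMatrix', QuadraticMap.associated_eq_self_apply]

/-- Simultaneous diagonalisation. -/
private theorem NF_diag (E F : QuadraticForm ℝ (Fin 3 → ℝ)) (hF : ∀ v, v ≠ 0 → 0 < F v) :
    ∃ (g : (Fin 3 → ℝ) ≃ₗ[ℝ] (Fin 3 → ℝ)) (l : Fin 3 → ℝ),
      (∀ v, F (g v) = ∑ k, v k ^ 2) ∧ ∀ v, E (g v) = ∑ k, l k * v k ^ 2 := by
  obtain ⟨g₁, hg₁⟩ := NF_sq F hF
  obtain ⟨E₁, hE₁⟩ : ∃ E₁ : QuadraticForm ℝ (Fin 3 → ℝ), ∀ v, E₁ v = E (g₁ v) :=
    ⟨E.comp (g₁ : (Fin 3 → ℝ) →ₗ[ℝ] (Fin 3 → ℝ)), fun v => rfl⟩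
  have hM : (E₁.toMatrix').IsHermitian := by
    have h := E₁.isSymm_toMatrix'
    unfold Matrix.IsHermitian
    rw [Matrix.conjTranspose_eq_transpose_of_trivial]
    exact h
  obtain ⟨U, hU⟩ : ∃ U : Matrix (Fin 3) (Fin 3) ℝ, U = hM.eigenvectorUnitary := ⟨_, rfl⟩
  have hU1 : U.transpose * U = 1 := by
    rw [hU, ← Matrix.conjTranspose_eq_transpose_of_trivial, ← Matrix.star_eq_conjTranspose]
    exact Unitary.coe_star_mul_self _
  have hU2 : U * U.transpose = 1 := by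
    rw [hU, ← Matrix.conjTranspose_eq_transpose_of_trivial, ← Matrix.star_eq_conjTranspose]
    exact Unitary.coe_mul_star_self _
  have hD : U.transpose * E₁.toMatrix' * U = Matrix.diagonal hM.eigenvalues := by
    have h := hM.conjStarAlgAut_star_eigenvectorUnitary
    rw [Unitary.conjStarAlgAut_star_apply] at h
    rw [hU, ← Matrix.conjTranspose_eq_transpose_of_trivial, ← Matrix.star_eq_conjTranspose]
    exact h
  let g₂ : (Fin 3 → ℝ) ≃ₗ[ℝ] (Fin 3 → ℝ) := LinearEquiv.ofLinearMap (Matrix.toLin' U)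
    (Matrix.toLin' U.transpose) (by rw [← Matrix.toLin'_mul, hU2, Matrix.toLin'_one])
    (by rw [← Matrix.toLin'_mul, hU1, Matrix.toLin'_one])
  have hg₂ : ∀ v, g₂ v = U.mulVec v := fun v => rfl
  refine ⟨g₂.trans g₁, hM.eigenvalues, fun v => ?_, fun v => ?_⟩
  · rw [LinearEquiv.trans_apply, hg₁, hg₂]
    have h1 : ∀ x : Fin 3 → ℝ, ∑ k, x k ^ 2 = x ⬝ᵥ x := by
      intro x
      rw [dotProduct]
      exact Finset.sum_congr rfl fun k _ => by ring
    rw [h1, h1, Matrix.dotProduct_mulVec, ← Matrix.mulVec_transpose, Matrix.mulVec_mulVec, hU1,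
      Matrix.one_mulVec]
  · rw [LinearEquiv.trans_apply, ← hE₁, hg₂, NF_mat, Matrix.mulVec_mulVec,
      Matrix.dotProduct_mulVec, ← Matrix.mulVec_transpose, Matrix.transpose_mul]
    have h2 : (U.transpose * (E₁.toMatrix').transpose).mulVec (U.mulVec v) =
        (Matrix.diagonal hM.eigenvalues).mulVec v := by
      rw [Matrix.mulVec_mulVec, E₁.isSymm_toMatrix'.eq, hD]
    rw [h2, dotProduct]
    refine Finset.sum_congr rfl fun k _ => ?_
    rw [Matrix.mulVec_diagonal]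
    ring

private theorem NF_pair {l : Fin 3 → ℝ} {E : QuadraticForm ℝ (Fin 3 → ℝ)}
    {g g₀ : (Fin 3 → ℝ) ≃ₗ[ℝ] (Fin 3 → ℝ)}
    (hE : ∀ v, E (g₀ v) = v 0 ^ 2 + v 1 ^ 2 - v 2 ^ 2)
    (hg : ∀ v, E (g v) = ∑ k, l k * v k ^ 2) {i j : Fin 3} (hij : i ≠ j) :
    0 < l i ∨ 0 < l j := by
  by_contra hcon
  push Not at hcon
  obtain ⟨x, hx⟩ : ∃ x, x = (g₀.symm (g (Pi.single i 1))) 2 := ⟨_, rfl⟩
  obtain ⟨y, hy⟩ : ∃ y, y = (g₀.symm (g (Pi.single j 1))) 2 := ⟨_, rfl⟩
  obtain ⟨a, b, hab, h0⟩ : ∃ a b : ℝ, a * x + b * y = 0 ∧ ¬(a = 0 ∧ b = 0) := by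
    by_cases hx0 : x = 0
    · exact ⟨1, 0, by rw [hx0]; ring, by simp⟩
    · exact ⟨y, -x, by ring, fun h => hx0 (by linarith [h.2])⟩
  obtain ⟨u, hu⟩ : ∃ u : Fin 3 → ℝ, u = a • Pi.single i (1 : ℝ) + b • Pi.single j (1 : ℝ) :=
    ⟨_, rfl⟩
  have hui : u i = a := by
    rw [hu]
    simp [hij]
  have huj : u j = b := by
    rw [hu]
    simp [hij.symm]
  have hu0 : u ≠ 0 := by
    intro h
    apply h0
    rw [h] at hui huj
    exact ⟨hui.symm, huj.symm⟩
  have hEu : E (g u) ≤ 0 := by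
    rw [hg]
    refine Finset.sum_nonpos fun k _ => ?_
    by_cases hki : k = i
    · rw [hki]
      exact mul_nonpos_of_nonpos_of_nonneg hcon.1 (sq_nonneg _)
    · by_cases hkj : k = j
      · rw [hkj]
        exact mul_nonpos_of_nonpos_of_nonneg hcon.2 (sq_nonneg _)
      · have : u k = 0 := by
          rw [hu]
          simp [hki, hkj]
        rw [this]
        simp
  obtain ⟨w, hw⟩ : ∃ w, w = g₀.symm (g u) := ⟨_, rfl⟩
  have hw2 : w 2 = 0 := by
    rw [hw, hu, map_add, map_smul, map_smul, map_add, map_smul, map_smul, Pi.add_apply,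
      Pi.smul_apply, Pi.smul_apply, ← hx, ← hy, smul_eq_mul, smul_eq_mul]
    exact hab
  have hw0 : w ≠ 0 := by
    intro h
    rw [hw] at h
    exact hu0 ((LinearEquiv.map_eq_zero_iff g).1 ((LinearEquiv.map_eq_zero_iff g₀.symm).1 h))
  have hgw : g u = g₀ w := by rw [hw, LinearEquiv.apply_symm_apply]
  rw [hgw, hE, hw2] at hEu
  apply hw0
  have h1 := sq_nonneg (w 0)
  have h2 := sq_nonneg (w 1)
  have e0 : w 0 = 0 := pow_eq_zero_iff (n := 2) (by norm_num) |>.1 (by linarith)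
  have e1 : w 1 = 0 := pow_eq_zero_iff (n := 2) (by norm_num) |>.1 (by linarith)
  funext k
  fin_cases k
  · exact e0
  · exact e1
  · exact hw2

/-- The signs of the eigenvalues. -/
private theorem NF_sign {l : Fin 3 → ℝ} {E : QuadraticForm ℝ (Fin 3 → ℝ)}
    {g g₀ : (Fin 3 → ℝ) ≃ₗ[ℝ] (Fin 3 → ℝ)}
    (hE : ∀ v, E (g₀ v) = v 0 ^ 2 + v 1 ^ 2 - v 2 ^ 2)
    (hg : ∀ v, E (g v) = ∑ k, l k * v k ^ 2) :
    ∃ σ : Equiv.Perm (Fin 3), 0 < l (σ 0) ∧ l (σ 0) ≤ l (σ 1) ∧ l (σ 2) < 0 := by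
  obtain ⟨k, hk⟩ : ∃ k, l k < 0 := by
    by_contra hcon
    push Not at hcon
    have h1 := hg (g.symm (g₀ (Pi.single 2 1)))
    rw [LinearEquiv.apply_symm_apply, hE] at h1
    have h2 : 0 ≤ ∑ k, l k * (g.symm (g₀ (Pi.single 2 1))) k ^ 2 :=
      Finset.sum_nonneg fun k _ => mul_nonneg (hcon k) (sq_nonneg _)
    rw [← h1] at h2
    simp at h2
    norm_num at h2
  have hp : ∀ j, j ≠ k → 0 < l j := by
    intro j hj
    rcases NF_pair hE hg hj with h | h
    · exact h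
    · linarith
  obtain ⟨σ, hσ⟩ : ∃ σ : Equiv.Perm (Fin 3), σ 2 = k := ⟨Equiv.swap 2 k, Equiv.swap_apply_left 2 k⟩
  have h0 : σ 0 ≠ k := by
    rw [← hσ]
    exact fun h => by simpa using σ.injective h
  have h1 : σ 1 ≠ k := by
    rw [← hσ]
    exact fun h => by simpa using σ.injective h
  rcases le_total (l (σ 0)) (l (σ 1)) with h | h
  · exact ⟨σ, hp _ h0, h, by rw [hσ]; exact hk⟩
  · refine ⟨(Equiv.swap 0 1).trans σ, ?_, ?_, ?_⟩
    · rw [Equiv.trans_apply, Equiv.swap_apply_left]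
      exact hp _ h1
    · rw [Equiv.trans_apply, Equiv.swap_apply_left, Equiv.trans_apply, Equiv.swap_apply_right]
      exact h
    · rw [Equiv.trans_apply, Equiv.swap_apply_of_ne_of_ne (by decide) (by decide), hσ]
      exact hk

/-- **The normal form of a real pencil of nested conics.** -/
theorem pencil_normal (E Q : QuadraticForm ℝ (Fin 3 → ℝ))
    (hE : ∃ g₀ : (Fin 3 → ℝ) ≃ₗ[ℝ] (Fin 3 → ℝ), ∀ v, E (g₀ v) = v 0 ^ 2 + v 1 ^ 2 - v 2 ^ 2)
    (hQ : ∀ v, v ≠ 0 → E v = 0 → 0 < Q v) :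
    ∃ (g : (Fin 3 → ℝ) ≃ₗ[ℝ] (Fin 3 → ℝ)) (A B c : ℝ), 0 < B ∧ B ≤ A ∧
      ∀ v, E (g v) = v 0 ^ 2 + v 1 ^ 2 - v 2 ^ 2 ∧
        Q (g v) = A * v 0 ^ 2 + B * v 1 ^ 2 + c * (v 0 ^ 2 + v 1 ^ 2 - v 2 ^ 2) := by
  obtain ⟨g₀, hg₀⟩ := hE
  obtain ⟨t, ht⟩ := NF_fin E Q ⟨g₀ (Pi.single 0 1), by rw [hg₀]; simp⟩
    ⟨g₀ (Pi.single 2 1), by rw [hg₀]; simp⟩ hQ
  obtain ⟨g, l, hF, hl⟩ := NF_diag E (Q + t • E) (by
    intro v hv
    rw [add_apply, smul_apply, smul_eq_mul]
    exact ht v hv)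
  obtain ⟨σ, h0, h01, h2⟩ := NF_sign hg₀ hl
  have h1 : 0 < l (σ 1) := h0.trans_le h01
  obtain ⟨s, hs, hs2⟩ : ∃ s : Fin 3 → ℝ, (∀ i, s i ≠ 0) ∧
      ∀ i, s i ^ 2 = 1 / |l (σ i)| := by
    have hne : ∀ i, l (σ i) ≠ 0 := by
      intro i
      fin_cases i
      · exact h0.ne'
      · exact h1.ne'
      · exact h2.ne
    refine ⟨fun i => 1 / Real.sqrt |l (σ i)|, fun i => ?_, fun i => ?_⟩
    · have : 0 < Real.sqrt |l (σ i)| := Real.sqrt_pos.2 (abs_pos.2 (hne i))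
      positivity
    · simp only [div_pow, one_pow]
      rw [Real.sq_sqrt (abs_nonneg _)]
  let G : (Fin 3 → ℝ) ≃ₗ[ℝ] (Fin 3 → ℝ) :=
    { toFun := fun v k => s (σ.symm k) * v (σ.symm k)
      map_add' := fun u v => by
        funext k
        simp only [Pi.add_apply]
        ring
      map_smul' := fun r v => by
        funext k
        simp only [Pi.smul_apply, smul_eq_mul, RingHom.id_apply]
        ring
      invFun := fun v i => (s i)⁻¹ * v (σ i)
      left_inv := fun v => by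
        funext i
        simp only [Equiv.symm_apply_apply]
        rw [← mul_assoc, inv_mul_cancel₀ (hs i), one_mul]
      right_inv := fun v => by
        funext k
        simp only [Equiv.apply_symm_apply]
        rw [← mul_assoc, mul_inv_cancel₀ (hs _), one_mul] }
  have hG : ∀ v k, G v k = s (σ.symm k) * v (σ.symm k) := fun v k => rfl
  have hsum : ∀ f : Fin 3 → ℝ, ∑ k, f (σ.symm k) = ∑ i, f i := fun f => Equiv.sum_comp σ.symm f
  have hEG : ∀ v, E (g (G v)) = v 0 ^ 2 + v 1 ^ 2 - v 2 ^ 2 := by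
    intro v
    rw [hl]
    have e1 : ∀ k, l k * G v k ^ 2 =
        (fun i => l (σ i) * (1 / |l (σ i)|) * v i ^ 2) (σ.symm k) := by
      intro k
      rw [hG, mul_pow, hs2]
      simp only [Equiv.apply_symm_apply]
      ring
    rw [Finset.sum_congr rfl fun k _ => e1 k,
      hsum (fun i => l (σ i) * (1 / |l (σ i)|) * v i ^ 2), Fin.sum_univ_three, abs_of_pos h0,
      abs_of_pos h1, abs_of_neg h2]
    have e2 : l (σ 0) * (1 / l (σ 0)) = 1 := by field_simp
    have e3 : l (σ 1) * (1 / l (σ 1)) = 1 := by field_simp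
    have e4 : l (σ 2) * (1 / -l (σ 2)) = -1 := by
      have := h2.ne
      rw [mul_one_div, div_neg, div_self this]
    rw [e2, e3, e4]
    ring
  have hFG : ∀ v, Q (g (G v)) + t * E (g (G v)) =
      v 0 ^ 2 / l (σ 0) + v 1 ^ 2 / l (σ 1) + v 2 ^ 2 / (-l (σ 2)) := by
    intro v
    have e0 := hF (G v)
    rw [add_apply, smul_apply, smul_eq_mul] at e0
    rw [e0]
    have e1 : ∀ k, G v k ^ 2 = (fun i => (1 / |l (σ i)|) * v i ^ 2) (σ.symm k) := by
      intro k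
      rw [hG, mul_pow, hs2]
    rw [Finset.sum_congr rfl fun k _ => e1 k, hsum (fun i => (1 / |l (σ i)|) * v i ^ 2),
      Fin.sum_univ_three, abs_of_pos h0, abs_of_pos h1, abs_of_neg h2]
    ring
  have hp2 : 0 < 1 / (-l (σ 2)) := by
    have : 0 < -l (σ 2) := by linarith
    positivity
  refine ⟨G.trans g, 1 / l (σ 0) + 1 / (-l (σ 2)), 1 / l (σ 1) + 1 / (-l (σ 2)),
    -(1 / (-l (σ 2)) + t), ?_, ?_, fun v => ⟨?_, ?_⟩⟩
  · have : 0 < 1 / l (σ 1) := by positivity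
    linarith
  · have := one_div_le_one_div_of_le h0 h01
    linarith
  · rw [LinearEquiv.trans_apply]
    exact hEG v
  · rw [LinearEquiv.trans_apply]
    have e1 := hFG v
    rw [hEG v] at e1
    have e2 : Q (g (G v)) = v 0 ^ 2 / l (σ 0) + v 1 ^ 2 / l (σ 1) + v 2 ^ 2 / (-l (σ 2)) -
        t * (v 0 ^ 2 + v 1 ^ 2 - v 2 ^ 2) := by linarith
    rw [e2]
    ring

end

end Pool.Agent.MP_ae5b4e_an_LOC
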