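import Mathlib

/-!
Real Jacobi functions sn, cn, dn of modulus m (the parameter k^2), as functions of the inverse of
the elliptic integral of the first kind.
-/

namespace Pool.Agent.MP_ae5b4e_an_LOC

open MeasureTheory Set Filter Topology

noncomputable section

/-- the radicand 1 - m sin^2 t -/
def rad (m t : ℝ) : ℝ := 1 - m * Real.sin t ^ 2

/-- elliptic integral of the first kind -/
def ath (m θ : ℝ) : ℝ := ∫ t in (0:ℝ)..θ, (Real.sqrt (rad m t))⁻¹

/-- the amplitude -/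
def am (m : ℝ) : ℝ → ℝ := Function.invFun (ath m)

def sn (m u : ℝ) : ℝ := Real.sin (am m u)
def cn (m u : ℝ) : ℝ := Real.cos (am m u)
def dn (m u : ℝ) : ℝ := Real.sqrt (rad m (am m u))

/-- the quarter period -/
def KK (m : ℝ) : ℝ := ath m (Real.pi / 2)

variable {m : ℝ}

lemma rad_pos (h0 : 0 ≤ m) (h1 : m < 1) (t : ℝ) : 0 < rad m t := by
  unfold rad
  nlinarith [Real.sin_sq_le_one t, sq_nonneg (Real.sin t)]

lemma rad_le (h0 : 0 ≤ m) (t : ℝ) : rad m t ≤ 1 := by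
  unfold rad
  nlinarith [Real.sin_sq_le_one t, sq_nonneg (Real.sin t)]

lemma rad_cont : Continuous (rad m) := by unfold rad; fun_prop

lemma integrand_cont (h0 : 0 ≤ m) (h1 : m < 1) : Continuous fun t => (Real.sqrt (rad m t))⁻¹ := by
  refine Continuous.inv₀ (Real.continuous_sqrt.comp rad_cont) fun t => ?_
  exact (Real.sqrt_pos.2 (rad_pos h0 h1 t)).ne'

lemma ath_hasDerivAt (h0 : 0 ≤ m) (h1 : m < 1) (θ : ℝ) :
    HasDerivAt (ath m) (Real.sqrt (rad m θ))⁻¹ θ :=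
  intervalIntegral.integral_hasDerivAt_right ((integrand_cont h0 h1).intervalIntegrable _ _)
    ((integrand_cont h0 h1).stronglyMeasurableAtFilter _ _) (integrand_cont h0 h1).continuousAt

lemma ath_zero : ath m 0 = 0 := by simp [ath]

lemma ath_strictMono (h0 : 0 ≤ m) (h1 : m < 1) : StrictMono (ath m) := by
  refine strictMono_of_deriv_pos fun θ => ?_
  rw [(ath_hasDerivAt h0 h1 θ).deriv]
  exact inv_pos.2 (Real.sqrt_pos.2 (rad_pos h0 h1 θ))

lemma ath_cont (h0 : 0 ≤ m) (h1 : m < 1) : Continuous (ath m) :=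
  continuous_iff_continuousAt.2 fun θ => (ath_hasDerivAt h0 h1 θ).continuousAt

lemma one_le_integrand (h0 : 0 ≤ m) (h1 : m < 1) (t : ℝ) : 1 ≤ (Real.sqrt (rad m t))⁻¹ := by
  rw [one_le_inv₀ (Real.sqrt_pos.2 (rad_pos h0 h1 t))]
  exact Real.sqrt_le_one.2 (rad_le h0 t)

lemma ath_sub_mono (h0 : 0 ≤ m) (h1 : m < 1) : Monotone fun θ => ath m θ - θ := by
  refine monotone_of_deriv_nonneg (fun θ => ((ath_hasDerivAt h0 h1 θ).sub (hasDerivAt_id θ)).differentiableAt)
    fun θ => ?_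
  have h := ((ath_hasDerivAt h0 h1 θ).sub (hasDerivAt_id θ)).deriv
  have h2 : deriv (fun θ => ath m θ - θ) θ = (Real.sqrt (rad m θ))⁻¹ - 1 := h
  rw [h2]
  linarith [one_le_integrand h0 h1 θ]

lemma ath_surj (h0 : 0 ≤ m) (h1 : m < 1) : Function.Surjective (ath m) := by
  refine (ath_cont h0 h1).surjective ?_ ?_
  · refine tendsto_atTop_mono' atTop ?_ tendsto_id
    filter_upwards [eventually_ge_atTop 0] with θ hθ
    have := ath_sub_mono h0 h1 hθ
    simp only [ath_zero, sub_zero, id] at this ⊢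
    linarith
  · refine tendsto_atBot_mono' atBot ?_ tendsto_id
    filter_upwards [eventually_le_atBot 0] with θ hθ
    have := ath_sub_mono h0 h1 hθ
    simp only [ath_zero, sub_zero, id] at this ⊢
    linarith

lemma ath_am (h0 : 0 ≤ m) (h1 : m < 1) (u : ℝ) : ath m (am m u) = u :=
  Function.rightInverse_invFun (ath_surj h0 h1) u

lemma am_ath (h0 : 0 ≤ m) (h1 : m < 1) (θ : ℝ) : am m (ath m θ) = θ :=
  Function.leftInverse_invFun (ath_strictMono h0 h1).injective θ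

lemma am_eq_iff (h0 : 0 ≤ m) (h1 : m < 1) {u θ : ℝ} : am m u = θ ↔ u = ath m θ := by
  constructor
  · rintro rfl; rw [ath_am h0 h1]
  · rintro rfl; rw [am_ath h0 h1]

lemma am_strictMono (h0 : 0 ≤ m) (h1 : m < 1) : StrictMono (am m) := by
  intro a b hab
  by_contra h
  push Not at h
  have := (ath_strictMono h0 h1).monotone h
  rw [ath_am h0 h1, ath_am h0 h1] at this
  linarith

lemma am_cont (h0 : 0 ≤ m) (h1 : m < 1) : Continuous (am m) :=
  (am_strictMono h0 h1).monotone.continuous_of_surjective fun θ => ⟨ath m θ, am_ath h0 h1 θ⟩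

lemma am_hasDerivAt (h0 : 0 ≤ m) (h1 : m < 1) (u : ℝ) : HasDerivAt (am m) (dn m u) u := by
  have h := HasDerivAt.of_local_left_inverse (g := am m) (a := u) (am_cont h0 h1).continuousAt
    (ath_hasDerivAt h0 h1 (am m u)) (inv_ne_zero (Real.sqrt_pos.2 (rad_pos h0 h1 _)).ne')
    (Eventually.of_forall fun y => ath_am h0 h1 y)
  rwa [inv_inv] at h

lemma dn_pos (h0 : 0 ≤ m) (h1 : m < 1) (u : ℝ) : 0 < dn m u := Real.sqrt_pos.2 (rad_pos h0 h1 _)

lemma sn_sq_add (m u : ℝ) : sn m u ^ 2 + cn m u ^ 2 = 1 := Real.sin_sq_add_cos_sq _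

lemma dn_sq (h0 : 0 ≤ m) (h1 : m < 1) (u : ℝ) : dn m u ^ 2 + m * sn m u ^ 2 = 1 := by
  unfold dn sn
  rw [Real.sq_sqrt (rad_pos h0 h1 _).le, rad]
  ring

lemma sn_hasDerivAt (h0 : 0 ≤ m) (h1 : m < 1) (u : ℝ) :
    HasDerivAt (sn m) (cn m u * dn m u) u := (am_hasDerivAt h0 h1 u).sin

lemma cn_hasDerivAt (h0 : 0 ≤ m) (h1 : m < 1) (u : ℝ) :
    HasDerivAt (cn m) (-(sn m u * dn m u)) u := by
  have := (am_hasDerivAt h0 h1 u).cos
  rw [neg_mul] at this
  exact this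

lemma dn_hasDerivAt (h0 : 0 ≤ m) (h1 : m < 1) (u : ℝ) :
    HasDerivAt (dn m) (-(m * sn m u * cn m u)) u := by
  have h : HasDerivAt (fun u => 1 - m * sn m u ^ 2) (-(m * (2 * sn m u * (cn m u * dn m u)))) u := by
    have := (((sn_hasDerivAt h0 h1 u).pow 2).const_mul m).const_sub 1
    refine this.congr_deriv ?_
    simp only [Nat.cast_ofNat, Nat.add_one_sub_one, pow_one]
  have h2 : 1 - m * sn m u ^ 2 ≠ 0 := (rad_pos h0 h1 (am m u)).ne'
  have h3 := h.sqrt h2
  refine h3.congr_deriv ?_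
  have h4 : Real.sqrt (1 - m * sn m u ^ 2) = dn m u := rfl
  rw [h4]
  have := (dn_pos h0 h1 u).ne'
  field_simp

/-! ### symmetries -/

lemma ath_neg (h0 : 0 ≤ m) (h1 : m < 1) (θ : ℝ) : ath m (-θ) = -ath m θ := by
  have hd : ∀ θ, HasDerivAt (fun θ => ath m (-θ) + ath m θ) 0 θ := by
    intro θ
    have h := (ath_hasDerivAt h0 h1 (-θ)).scomp θ (hasDerivAt_neg θ)
    refine (h.add (ath_hasDerivAt h0 h1 θ)).congr_deriv ?_
    simp [rad]
  have := is_const_of_deriv_eq_zero (fun θ => (hd θ).differentiableAt) (fun θ => (hd θ).deriv) θ 0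
  simp only [neg_zero, ath_zero, add_zero] at this
  linarith

lemma ath_pi_sub (h0 : 0 ≤ m) (h1 : m < 1) (θ : ℝ) :
    ath m (Real.pi - θ) = 2 * KK m - ath m θ := by
  have hd : ∀ θ, HasDerivAt (fun θ => ath m (Real.pi - θ) + ath m θ) 0 θ := by
    intro θ
    have h := (ath_hasDerivAt h0 h1 (Real.pi - θ)).scomp θ ((hasDerivAt_id θ).const_sub Real.pi)
    refine (h.add (ath_hasDerivAt h0 h1 θ)).congr_deriv ?_
    simp [rad, Real.sin_pi_sub]
  have := is_const_of_deriv_eq_zero (fun θ => (hd θ).differentiableAt) (fun θ => (hd θ).deriv) θ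
    (Real.pi / 2)
  have h2 : Real.pi - Real.pi / 2 = Real.pi / 2 := by ring
  simp only [h2] at this
  unfold KK
  linarith

lemma ath_add_pi (h0 : 0 ≤ m) (h1 : m < 1) (θ : ℝ) :
    ath m (θ + Real.pi) = ath m θ + 2 * KK m := by
  have h := ath_pi_sub h0 h1 (-θ)
  rw [ath_neg h0 h1] at h
  rw [show θ + Real.pi = Real.pi - -θ by ring, h]
  ring

lemma KK_pos (h0 : 0 ≤ m) (h1 : m < 1) : 0 < KK m := by
  have := ath_strictMono h0 h1 (show (0:ℝ) < Real.pi / 2 by positivity)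
  rwa [ath_zero] at this

lemma am_zero (h0 : 0 ≤ m) (h1 : m < 1) : am m 0 = 0 := by
  rw [am_eq_iff h0 h1, ath_zero]

lemma am_KK (h0 : 0 ≤ m) (h1 : m < 1) : am m (KK m) = Real.pi / 2 := am_ath h0 h1 _

lemma am_neg (h0 : 0 ≤ m) (h1 : m < 1) (u : ℝ) : am m (-u) = -am m u := by
  rw [am_eq_iff h0 h1, ath_neg h0 h1, ath_am h0 h1]

lemma am_add (h0 : 0 ≤ m) (h1 : m < 1) (u : ℝ) : am m (u + 2 * KK m) = am m u + Real.pi := by
  rw [am_eq_iff h0 h1, ath_add_pi h0 h1, ath_am h0 h1]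

lemma sn_zero (h0 : 0 ≤ m) (h1 : m < 1) : sn m 0 = 0 := by simp [sn, am_zero h0 h1]
lemma cn_zero (h0 : 0 ≤ m) (h1 : m < 1) : cn m 0 = 1 := by simp [cn, am_zero h0 h1]
lemma dn_zero (h0 : 0 ≤ m) (h1 : m < 1) : dn m 0 = 1 := by simp [dn, rad, am_zero h0 h1]
lemma sn_KK (h0 : 0 ≤ m) (h1 : m < 1) : sn m (KK m) = 1 := by simp [sn, am_KK h0 h1]
lemma cn_KK (h0 : 0 ≤ m) (h1 : m < 1) : cn m (KK m) = 0 := by simp [cn, am_KK h0 h1]
lemma dn_KK (h0 : 0 ≤ m) (h1 : m < 1) : dn m (KK m) = Real.sqrt (1 - m) := by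
  simp [dn, rad, am_KK h0 h1]

lemma sn_neg (h0 : 0 ≤ m) (h1 : m < 1) (u : ℝ) : sn m (-u) = -sn m u := by
  simp [sn, am_neg h0 h1]
lemma cn_neg (h0 : 0 ≤ m) (h1 : m < 1) (u : ℝ) : cn m (-u) = cn m u := by
  simp [cn, am_neg h0 h1]
lemma dn_neg (h0 : 0 ≤ m) (h1 : m < 1) (u : ℝ) : dn m (-u) = dn m u := by
  simp [dn, rad, am_neg h0 h1]

lemma sn_add (h0 : 0 ≤ m) (h1 : m < 1) (u : ℝ) : sn m (u + 2 * KK m) = -sn m u := by
  simp [sn, am_add h0 h1, Real.sin_add_pi]
lemma cn_add (h0 : 0 ≤ m) (h1 : m < 1) (u : ℝ) : cn m (u + 2 * KK m) = -cn m u := by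
  simp [cn, am_add h0 h1, Real.cos_add_pi]
lemma dn_add (h0 : 0 ≤ m) (h1 : m < 1) (u : ℝ) : dn m (u + 2 * KK m) = dn m u := by
  simp [dn, rad, am_add h0 h1, Real.sin_add_pi]

lemma sn_abs_le (m u : ℝ) : |sn m u| ≤ 1 := Real.abs_sin_le_one _
lemma cn_abs_le (m u : ℝ) : |cn m u| ≤ 1 := Real.abs_cos_le_one _
lemma dn_le (h0 : 0 ≤ m) (u : ℝ) : dn m u ≤ 1 :=
  Real.sqrt_le_one.2 (rad_le h0 _)

lemma am_int (h0 : 0 ≤ m) (h1 : m < 1) (u : ℝ) (n : ℤ) :
    am m (u + n * (2 * KK m)) = am m u + n * Real.pi := by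
  have h : ∀ u, am m (u + 2 * KK m) - (am m u + Real.pi) = 0 := fun u => by
    rw [am_add h0 h1]; ring
  induction n using Int.induction_on with
  | zero => simp
  | succ n ih =>
      have := am_add h0 h1 (u + (n:ℤ) * (2 * KK m))
      rw [ih] at this
      push_cast at this ⊢
      rw [show u + ((n:ℝ) + 1) * (2 * KK m) = u + n * (2 * KK m) + 2 * KK m by ring, this]
      ring
  | pred n ih =>
      have := am_add h0 h1 (u + (-(n:ℤ) - 1 : ℤ) * (2 * KK m))
      push_cast at this ih ⊢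
      rw [show u + (-(n:ℝ) - 1) * (2 * KK m) + 2 * KK m = u + -n * (2 * KK m) by ring, ih] at this
      linarith

/-- zeros of sn -/
lemma sn_eq_zero_iff (h0 : 0 ≤ m) (h1 : m < 1) (u : ℝ) :
    sn m u = 0 ↔ ∃ n : ℤ, u = n * (2 * KK m) := by
  rw [sn, Real.sin_eq_zero_iff]
  constructor
  · rintro ⟨n, hn⟩
    refine ⟨n, ?_⟩
    have := am_int h0 h1 0 n
    rw [am_zero h0 h1, zero_add, zero_add, hn] at this
    exact ((am_strictMono h0 h1).injective this).symm
  · rintro ⟨n, rfl⟩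
    refine ⟨n, ?_⟩
    have := am_int h0 h1 0 n
    rw [am_zero h0 h1, zero_add, zero_add] at this
    exact this.symm

/-- zeros of cn -/
lemma cn_eq_zero_iff (h0 : 0 ≤ m) (h1 : m < 1) (u : ℝ) :
    cn m u = 0 ↔ ∃ n : ℤ, u = KK m + n * (2 * KK m) := by
  rw [cn, Real.cos_eq_zero_iff]
  constructor
  · rintro ⟨n, hn⟩
    refine ⟨n, ?_⟩
    have := am_int h0 h1 (KK m) n
    rw [am_KK h0 h1] at this
    refine (am_strictMono h0 h1).injective ?_
    rw [this, hn]
    ring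
  · rintro ⟨n, rfl⟩
    refine ⟨n, ?_⟩
    rw [am_int h0 h1, am_KK h0 h1]
    ring

/-! ### the shift by the quarter period -/

/-- the vector field of the Jacobi system -/
def jvf (m : ℝ) (p : ℝ × ℝ × ℝ) : ℝ × ℝ × ℝ :=
  (p.2.1 * p.2.2, -(p.1 * p.2.2), -(m * p.1 * p.2.1))

lemma jvf_lip (m : ℝ) : ∃ L, LipschitzOnWith L (jvf m) (Metric.closedBall 0 2) := by
  have hc : ContDiff ℝ 1 (jvf m) := by unfold jvf; fun_prop
  exact (hc.locallyLipschitz).locallyLipschitzOn.exists_lipschitzOnWith_of_compact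
    (isCompact_closedBall _ _)

/-- uniqueness for the Jacobi system (bounded solutions) -/
lemma jac_unique {f g : ℝ → ℝ × ℝ × ℝ} (hf : ∀ t, HasDerivAt f (jvf m (f t)) t)
    (hg : ∀ t, HasDerivAt g (jvf m (g t)) t) (hfb : ∀ t, ‖f t‖ ≤ 2) (hgb : ∀ t, ‖g t‖ ≤ 2)
    (h0 : f 0 = g 0) : f = g := by
  obtain ⟨L, hL⟩ := jvf_lip m
  refine ODE_solution_unique_univ (v := fun _ => jvf m) (s := fun _ => Metric.closedBall 0 2)
    (K := L) (t₀ := 0) (fun _ => hL) (fun t => ⟨hf t, ?_⟩) (fun t => ⟨hg t, ?_⟩) h0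
  · simpa using hfb t
  · simpa using hgb t

lemma dn_sq' (h0 : 0 ≤ m) (h1 : m < 1) (u : ℝ) : dn m u ^ 2 = (1 - m) + m * cn m u ^ 2 := by
  linear_combination dn_sq h0 h1 u - m * sn_sq_add m u

/-- the shift by the quarter period -/
lemma jac_shift (h0 : 0 ≤ m) (h1 : m < 1) (u : ℝ) :
    sn m (u + KK m) = cn m u / dn m u ∧
    cn m (u + KK m) = -(Real.sqrt (1 - m) * sn m u / dn m u) ∧
    dn m (u + KK m) = Real.sqrt (1 - m) / dn m u := by
  set k := Real.sqrt (1 - m) with hk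
  have hk2 : k ^ 2 = 1 - m := Real.sq_sqrt (by linarith)
  have hk0 : 0 ≤ k := Real.sqrt_nonneg _
  have key : (fun u => ((sn m (u + KK m), cn m (u + KK m), dn m (u + KK m)) : ℝ × ℝ × ℝ)) =
      fun u => (cn m u / dn m u, -(k * sn m u / dn m u), k / dn m u) := by
    refine jac_unique (m := m) ?_ ?_ ?_ ?_ ?_
    · intro t
      have hs := HasDerivAt.comp_add_const t (KK m) (sn_hasDerivAt h0 h1 (t + KK m))
      have hc := HasDerivAt.comp_add_const t (KK m) (cn_hasDerivAt h0 h1 (t + KK m))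
      have hd := HasDerivAt.comp_add_const t (KK m) (dn_hasDerivAt h0 h1 (t + KK m))
      exact hs.prodMk (hc.prodMk hd)
    · intro t
      have hd0 := (dn_pos h0 h1 t).ne'
      have e1 := dn_sq h0 h1 t
      have e2 := dn_sq' h0 h1 t
      have e3 := sn_sq_add m t
      have hs := (cn_hasDerivAt h0 h1 t).div (dn_hasDerivAt h0 h1 t) hd0
      have hc := (((sn_hasDerivAt h0 h1 t).const_mul k).div (dn_hasDerivAt h0 h1 t) hd0).neg
      have hd := ((hasDerivAt_const t k).div (dn_hasDerivAt h0 h1 t) hd0)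
      refine (hs.prodMk (hc.prodMk hd)).congr_deriv ?_
      simp only [jvf, Prod.mk.injEq]
      refine ⟨?_, ?_, ?_⟩
      · rw [div_eq_iff (by positivity)]
        field_simp
        linear_combination (-sn m t) * e2 + sn m t * hk2
      · field_simp
        linear_combination (-(cn m t * k)) * e1
      · field_simp
        ring
    · intro t
      have a1 := sn_abs_le m (t + KK m)
      have a2 := cn_abs_le m (t + KK m)
      have a3 := dn_le h0 (t + KK m)
      have a4 := dn_pos h0 h1 (t + KK m)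
      simp only [Prod.norm_def, Real.norm_eq_abs, sup_le_iff]
      refine ⟨by linarith, by linarith, ?_⟩
      rw [abs_of_pos a4]; linarith
    · intro t
      have hd0 := (dn_pos h0 h1 t)
      have e1 := dn_sq h0 h1 t
      have e2 := dn_sq' h0 h1 t
      have e3 := sn_sq_add m t
      have b1 : |cn m t / dn m t| ≤ 1 := by
        rw [abs_div, abs_of_pos hd0, div_le_one hd0]
        refine abs_le_of_sq_le_sq ?_ hd0.le
        nlinarith [sq_nonneg (sn m t)]
      have b2 : |-(k * sn m t / dn m t)| ≤ 1 := by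
        rw [abs_neg, abs_div, abs_of_pos hd0, div_le_one hd0]
        refine abs_le_of_sq_le_sq ?_ hd0.le
        rw [mul_pow, hk2]
        nlinarith [sq_nonneg (cn m t)]
      have b3 : |k / dn m t| ≤ 1 := by
        rw [abs_div, abs_of_pos hd0, div_le_one hd0]
        refine abs_le_of_sq_le_sq ?_ hd0.le
        rw [hk2]
        nlinarith [sq_nonneg (cn m t)]
      simp only [Prod.norm_def, Real.norm_eq_abs, sup_le_iff]
      exact ⟨by linarith, by linarith, by linarith⟩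
    · simp [sn_KK h0 h1, cn_KK h0 h1, dn_KK h0 h1, sn_zero h0 h1, cn_zero h0 h1, dn_zero h0 h1, hk]
  have := congrFun key u
  simp only [Prod.mk.injEq] at this
  exact this

end

end Pool.Agent.MP_ae5b4e_an_LOC
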