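import Mathlib
import Pool.Agent.Lib.MP_ae5b4e_an_hopf.Plane
import Pool.Agent.Lib.MP_ae5b4e_an_LOC.JacR

/-!
# LOC: the conic of a real pencil in Jacobi coordinates

`PJ m u = (sn u, cn u, dn u)`; `HJ m x y` is minus the determinant of `P x, P y, P' y`; the function
`L1 ^ 2 + dn ^ 2` of two points (the pencil member through the intersection of the two tangent
lines) is symmetric.
-/

set_option autoImplicit false

namespace Pool.Agent.MP_ae5b4e_an_LOC

open Set Filter Topology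
open scoped ContDiff Matrix
open Pool.Agent.MP_ae5b4e_an_hopf (det3 dd ddx Wr L1 Curve hasDerivAt_det3)

noncomputable section

/-- the conic -/
def PJ (m u : ℝ) : Fin 3 → ℝ := ![sn m u, cn m u, dn m u]

/-- its derivative -/
def PJ1 (m u : ℝ) : Fin 3 → ℝ := ![cn m u * dn m u, -(sn m u * dn m u), -(m * sn m u * cn m u)]

/-- its second derivative -/
def PJ2 (m u : ℝ) : Fin 3 → ℝ :=
  ![-(sn m u * dn m u ^ 2) - m * sn m u * cn m u ^ 2,
    -(cn m u * dn m u ^ 2) + m * sn m u ^ 2 * cn m u,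
    -(m * dn m u * (cn m u ^ 2 - sn m u ^ 2))]

/-- minus the determinant of `P x, P y, P' y` -/
def HJ (m x y : ℝ) : ℝ := dn m x * dn m y - cn m x * cn m y - (1 - m) * sn m x * sn m y

/-- the derivative of `HJ` in the first variable -/
def HJx (m x y : ℝ) : ℝ :=
  -(m * sn m x * cn m x * dn m y) + sn m x * dn m x * cn m y - (1 - m) * cn m x * dn m x * sn m y

variable {m : ℝ}

lemma PJ_hasDerivAt (h0 : 0 ≤ m) (h1 : m < 1) (u : ℝ) : HasDerivAt (PJ m) (PJ1 m u) u := by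
  rw [hasDerivAt_pi]
  intro i
  fin_cases i
  · exact sn_hasDerivAt h0 h1 u
  · exact cn_hasDerivAt h0 h1 u
  · exact dn_hasDerivAt h0 h1 u

lemma PJ1_hasDerivAt (h0 : 0 ≤ m) (h1 : m < 1) (u : ℝ) : HasDerivAt (PJ1 m) (PJ2 m u) u := by
  have hs := sn_hasDerivAt h0 h1 u
  have hc := cn_hasDerivAt h0 h1 u
  have hd := dn_hasDerivAt h0 h1 u
  rw [hasDerivAt_pi]
  intro i
  fin_cases i
  · refine (hc.mul hd).congr_deriv ?_
    show -(sn m u * dn m u) * dn m u + cn m u * -(m * sn m u * cn m u) = PJ2 m u 0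
    simp only [PJ2, Matrix.cons_val_zero]
    ring
  · refine (hs.mul hd).neg.congr_deriv ?_
    show -(cn m u * dn m u * dn m u + sn m u * -(m * sn m u * cn m u)) = PJ2 m u 1
    simp only [PJ2, Matrix.cons_val_one, Matrix.cons_val_zero]
    ring
  · refine ((hs.const_mul m).mul hc).neg.congr_deriv ?_
    show -(m * (cn m u * dn m u) * cn m u + m * sn m u * -(sn m u * dn m u)) = PJ2 m u 2
    simp only [PJ2, Matrix.cons_val]
    ring

lemma jac_smooth (h0 : 0 ≤ m) (h1 : m < 1) :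
    ContDiff ℝ ∞ (sn m) ∧ ContDiff ℝ ∞ (cn m) ∧ ContDiff ℝ ∞ (dn m) := by
  have key : ∀ n : ℕ, ContDiff ℝ n (sn m) ∧ ContDiff ℝ n (cn m) ∧ ContDiff ℝ n (dn m) := by
    intro n
    induction n with
    | zero =>
      simp only [Nat.cast_zero, contDiff_zero]
      exact ⟨continuous_iff_continuousAt.2 fun u => (sn_hasDerivAt h0 h1 u).continuousAt,
        continuous_iff_continuousAt.2 fun u => (cn_hasDerivAt h0 h1 u).continuousAt,
        continuous_iff_continuousAt.2 fun u => (dn_hasDerivAt h0 h1 u).continuousAt⟩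
    | succ n ih =>
      obtain ⟨hs, hc, hd⟩ := ih
      have es : deriv (sn m) = fun u => cn m u * dn m u :=
        funext fun u => (sn_hasDerivAt h0 h1 u).deriv
      have ec : deriv (cn m) = fun u => -(sn m u * dn m u) :=
        funext fun u => (cn_hasDerivAt h0 h1 u).deriv
      have ed : deriv (dn m) = fun u => -(m * sn m u * cn m u) :=
        funext fun u => (dn_hasDerivAt h0 h1 u).deriv
      push_cast
      refine ⟨?_, ?_, ?_⟩
      · rw [contDiff_succ_iff_deriv, es]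
        exact ⟨fun u => (sn_hasDerivAt h0 h1 u).differentiableAt,
          fun h => absurd h (by simp), hc.mul hd⟩
      · rw [contDiff_succ_iff_deriv, ec]
        exact ⟨fun u => (cn_hasDerivAt h0 h1 u).differentiableAt,
          fun h => absurd h (by simp), (hs.mul hd).neg⟩
      · rw [contDiff_succ_iff_deriv, ed]
        exact ⟨fun u => (dn_hasDerivAt h0 h1 u).differentiableAt,
          fun h => absurd h (by simp), ((contDiff_const.mul hs).mul hc).neg⟩
  simp only [contDiff_infty]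
  exact ⟨fun n => (key n).1, fun n => (key n).2.1, fun n => (key n).2.2⟩

lemma PJ_smooth (h0 : 0 ≤ m) (h1 : m < 1) : ContDiff ℝ ∞ (PJ m) := by
  obtain ⟨hs, hc, hd⟩ := jac_smooth h0 h1
  rw [contDiff_pi]
  intro i
  fin_cases i
  · exact hs
  · exact hc
  · exact hd

lemma PJ_add (h0 : 0 ≤ m) (h1 : m < 1) (u : ℝ) : PJ m (u + 4 * KK m) = PJ m u := by
  have e : u + 4 * KK m = u + 2 * KK m + 2 * KK m := by ring
  unfold PJ
  rw [e, sn_add h0 h1, sn_add h0 h1, cn_add h0 h1, cn_add h0 h1, dn_add h0 h1, dn_add h0 h1,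
    neg_neg, neg_neg]

lemma det3_PJ (h0 : 0 ≤ m) (h1 : m < 1) (a : Fin 3 → ℝ) (y : ℝ) :
    det3 a (PJ m y) (PJ1 m y) =
      -(dn m y * a 2 - cn m y * a 1 - (1 - m) * sn m y * a 0) := by
  have e1 := sn_sq_add m y
  have e2 := dn_sq h0 h1 y
  simp only [det3, PJ, PJ1, Matrix.cons_val_zero, Matrix.cons_val_one, Matrix.cons_val]
  linear_combination (a 0 * sn m y * (-m) - a 2 * dn m y) * e1 +
    (a 0 * sn m y + a 1 * cn m y) * e2

lemma det3_PJ0 (h0 : 0 ≤ m) (h1 : m < 1) (x y : ℝ) :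
    det3 (PJ m x) (PJ m y) (PJ1 m y) = -HJ m x y := by
  rw [det3_PJ h0 h1]
  simp only [PJ, HJ, Matrix.cons_val_zero, Matrix.cons_val_one, Matrix.cons_val]
  ring

lemma det3_PJ1 (h0 : 0 ≤ m) (h1 : m < 1) (x y : ℝ) :
    det3 (PJ1 m x) (PJ m y) (PJ1 m y) = -HJx m x y := by
  rw [det3_PJ h0 h1]
  simp only [PJ1, HJx, Matrix.cons_val_zero, Matrix.cons_val_one, Matrix.cons_val]
  ring

lemma Wr_PJ (h0 : 0 ≤ m) (h1 : m < 1) (y : ℝ) :
    det3 (PJ m y) (PJ1 m y) (PJ2 m y) = -(1 - m) := by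
  have e1 := sn_sq_add m y
  have e2 := dn_sq h0 h1 y
  rw [Pool.Agent.MP_ae5b4e_an_hopf.det3_cycle, Pool.Agent.MP_ae5b4e_an_hopf.det3_cycle,
    det3_PJ h0 h1]
  simp only [PJ2, Matrix.cons_val_zero, Matrix.cons_val_one, Matrix.cons_val]
  linear_combination ((m - 1) * dn m y ^ 2 + sn m y ^ 2 * m ^ 2) * e1 +
    (m - 1 - sn m y ^ 2 * m) * e2

lemma HJ_symm (m x y : ℝ) : HJ m x y = HJ m y x := by unfold HJ; ring

/-- the member of the pencil through the intersection of two tangent lines -/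
lemma HJ_key (h0 : 0 ≤ m) (h1 : m < 1) (x y : ℝ) :
    HJx m x y ^ 2 + dn m x ^ 2 * HJ m x y ^ 2 = HJx m y x ^ 2 + dn m y ^ 2 * HJ m y x ^ 2 := by
  have r1 := sn_sq_add m x
  have r2 := dn_sq h0 h1 x
  have r3 := sn_sq_add m y
  have r4 := dn_sq h0 h1 y
  unfold HJ HJx
  generalize sn m x = s at *
  generalize cn m x = c at *
  generalize dn m x = d at *
  generalize sn m y = S at *
  generalize cn m y = C at *
  generalize dn m y = D at *
  linear_combination (-C^2*D^2 - S^2*D^2 + d^2*C^2 + d^2*S^2 + (-2)*d^2*S^2*m + d^2*S^2*m^2 +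
    (2)*s*d*S*D*m + (-2)*s*d*S*D*m^2 + s^2*D^2*m^2) * r1 + ((1) - D^4 + C^2 + S^2 + (-3)*S^2*m +
    S^2*m^2 - S^2*C^2*m^2 + d^2*D^2 + (-2)*c*d*C*D + (-2)*s*d*S*D + (2)*s*d*S*D*m - s^2*m +
    s^2*S^2*m^2) * r2 + ((1) - D^2 - S^2*m^2 + (-2)*s*d*S*D*m + (2)*s*d*S*D*m^2 - s^2*m +
    (2)*s^2*D^2*m - s^2*D^2*m^2 + s^2*S^2*m^3) * r3 + ((-2) - D^2 + S^2*m + d^2 + (2)*c*d*C*D +
    (2)*s*d*S*D + (-2)*s*d*S*D*m + (3)*s^2*m + s^2*D^2*m - s^2*S^2*m^2 - s^2*d^2*m - s^4*m^2) *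
    r4

lemma am_add4 (h0 : 0 ≤ m) (h1 : m < 1) (u : ℝ) : am m (u + 4 * KK m) = am m u + 2 * Real.pi := by
  have e : u + 4 * KK m = u + 2 * KK m + 2 * KK m := by ring
  rw [e, am_add h0 h1, am_add h0 h1]
  ring

/-- positivity off the diagonal -/
lemma HJ_pos (h0 : 0 ≤ m) (h1 : m < 1) {x y : ℝ} (hxy : x < y) (hy : y < x + 4 * KK m) :
    0 < HJ m x y := by
  have r1 := sn_sq_add m x
  have r2 := dn_sq h0 h1 x
  have r3 := sn_sq_add m y
  have r4 := dn_sq h0 h1 y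
  have hd := dn_pos h0 h1 x
  have hD := dn_pos h0 h1 y
  by_contra hcon
  push Not at hcon
  unfold HJ at hcon
  have hm : 0 < 1 - m := by linarith
  have hle : dn m x * dn m y ≤ cn m x * cn m y + (1 - m) * sn m x * sn m y := by linarith
  have hsq : (dn m x * dn m y) ^ 2 ≤ (cn m x * cn m y + (1 - m) * sn m x * sn m y) ^ 2 :=
    pow_le_pow_left₀ (by positivity) hle 2
  have hid : (dn m x * dn m y) ^ 2 - (cn m x * cn m y + (1 - m) * sn m x * sn m y) ^ 2 =
      (1 - m) * (cn m x * sn m y - sn m x * cn m y) ^ 2 := by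
    have e1 : dn m x ^ 2 = cn m x ^ 2 + (1 - m) * sn m x ^ 2 := by linear_combination r2 - r1
    have e2 : dn m y ^ 2 = cn m y ^ 2 + (1 - m) * sn m y ^ 2 := by linear_combination r4 - r3
    rw [mul_pow, e1, e2]
    ring
  have hz : (cn m x * sn m y - sn m x * cn m y) ^ 2 ≤ 0 := by
    by_contra h
    push Not at h
    have := mul_pos hm h
    linarith
  have hz' : cn m x * sn m y - sn m x * cn m y = 0 :=
    pow_eq_zero_iff (n := 2) (by norm_num) |>.1 (le_antisymm hz (sq_nonneg _))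
  have hsin : Real.sin (am m y - am m x) = 0 := by
    rw [Real.sin_sub]
    unfold cn sn at hz'
    linarith
  have ha := am_strictMono h0 h1 hxy
  have hb := am_strictMono h0 h1 hy
  rw [am_add4 h0 h1] at hb
  obtain ⟨n, hn⟩ := Real.sin_eq_zero_iff.1 hsin
  have hpi := Real.pi_pos
  have hn1 : 0 < n := by
    have : (0 : ℝ) < n := by
      by_contra h
      push Not at h
      have := mul_nonpos_of_nonpos_of_nonneg h hpi.le
      linarith
    exact_mod_cast this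
  have hn2 : n < 2 := by
    have : (n : ℝ) < 2 := by
      by_contra h
      push Not at h
      have := mul_le_mul_of_nonneg_right h hpi.le
      linarith
    exact_mod_cast this
  have hn3 : n = 1 := by omega
  rw [hn3, Int.cast_one, one_mul] at hn
  have hy' : am m y = am m x + Real.pi := by linarith
  have e3 : sn m y = -sn m x := by unfold sn; rw [hy', Real.sin_add_pi]
  have e4 : cn m y = -cn m x := by unfold cn; rw [hy', Real.cos_add_pi]
  rw [e3, e4] at hle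
  have := mul_pos hd hD
  nlinarith [sq_nonneg (cn m x), sq_nonneg (sn m x)]

/-! ### linear images with period one -/

/-- the conic with period one, in any coordinates -/
def PM (m : ℝ) (M : Matrix (Fin 3) (Fin 3) ℝ) (x : ℝ) : Fin 3 → ℝ := M *ᵥ PJ m (4 * KK m * x)

private lemma PM_det3 (M : Matrix (Fin 3) (Fin 3) ℝ) (a b c : Fin 3 → ℝ) :
    det3 (M *ᵥ a) (M *ᵥ b) (M *ᵥ c) = M.det * det3 a b c := by
  simp only [det3, Matrix.mulVec, dotProduct, Fin.sum_univ_three, Matrix.det_fin_three]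
  ring

private lemma PM_comp (M : Matrix (Fin 3) (Fin 3) ℝ) {Q : ℝ → Fin 3 → ℝ} {Q' : Fin 3 → ℝ}
    {σ x : ℝ} (h : HasDerivAt Q Q' (σ * x)) :
    HasDerivAt (fun x => M *ᵥ Q (σ * x)) (M *ᵥ (σ • Q')) x := by
  have h1 : HasDerivAt (fun x : ℝ => σ * x) σ x := by
    simpa using (hasDerivAt_id x).const_mul σ
  exact (M.mulVecLin.toContinuousLinearMap).hasFDerivAt.comp_hasDerivAt x (h.scomp x h1)

variable (M : Matrix (Fin 3) (Fin 3) ℝ)

lemma PM_hasDerivAt (h0 : 0 ≤ m) (h1 : m < 1) (x : ℝ) :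
    HasDerivAt (PM m M) (M *ᵥ ((4 * KK m) • PJ1 m (4 * KK m * x))) x :=
  PM_comp M (PJ_hasDerivAt h0 h1 _)

lemma deriv_PM (h0 : 0 ≤ m) (h1 : m < 1) :
    deriv (PM m M) = fun x => M *ᵥ ((4 * KK m) • PJ1 m (4 * KK m * x)) :=
  funext fun x => (PM_hasDerivAt M h0 h1 x).deriv

lemma deriv2_PM (h0 : 0 ≤ m) (h1 : m < 1) : deriv (deriv (PM m M)) =
    fun x => M *ᵥ ((4 * KK m) • (4 * KK m) • PJ2 m (4 * KK m * x)) := by
  rw [deriv_PM M h0 h1]
  refine funext fun x => HasDerivAt.deriv ?_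
  have h := PM_comp M (((PJ1_hasDerivAt h0 h1 (4 * KK m * x)).const_smul (4 * KK m)))
  rw [smul_comm] at h
  exact h

lemma dd_PM (h0 : 0 ≤ m) (h1 : m < 1) (x y : ℝ) :
    dd (PM m M) x y = -M.det * (4 * KK m) * HJ m (4 * KK m * x) (4 * KK m * y) := by
  unfold dd
  rw [deriv_PM M h0 h1]
  simp only [PM, PM_det3]
  have e : ∀ a b c : Fin 3 → ℝ, det3 a b ((4 * KK m) • c) = (4 * KK m) * det3 a b c := by
    intro a b c
    simp only [det3, Pi.smul_apply, smul_eq_mul]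
    ring
  rw [e, det3_PJ0 h0 h1]
  ring

lemma ddx_PM (h0 : 0 ≤ m) (h1 : m < 1) (x y : ℝ) :
    ddx (PM m M) x y = -M.det * (4 * KK m) ^ 2 * HJx m (4 * KK m * x) (4 * KK m * y) := by
  unfold ddx
  rw [deriv_PM M h0 h1]
  simp only [PM, PM_det3]
  have e : ∀ a b c : Fin 3 → ℝ, det3 ((4 * KK m) • a) b ((4 * KK m) • c) =
      (4 * KK m) ^ 2 * det3 a b c := by
    intro a b c
    simp only [det3, Pi.smul_apply, smul_eq_mul]
    ring
  rw [e, det3_PJ1 h0 h1]
  ring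

lemma Wr_PM (h0 : 0 ≤ m) (h1 : m < 1) (y : ℝ) :
    Wr (PM m M) y = -M.det * ((1 - m) * (4 * KK m) ^ 3) := by
  unfold Wr
  rw [deriv2_PM M h0 h1, deriv_PM M h0 h1]
  simp only [PM, PM_det3]
  have e : ∀ a b c : Fin 3 → ℝ, det3 a ((4 * KK m) • b) ((4 * KK m) • (4 * KK m) • c) =
      (4 * KK m) ^ 3 * det3 a b c := by
    intro a b c
    simp only [det3, Pi.smul_apply, smul_eq_mul]
    ring
  rw [e, Wr_PJ h0 h1]
  ring

lemma L1_PM (h0 : 0 ≤ m) (h1 : m < 1) (hM : M.det < 0) (x y : ℝ) :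
    L1 (PM m M) x y = 4 * KK m * HJx m (4 * KK m * x) (4 * KK m * y) /
      HJ m (4 * KK m * x) (4 * KK m * y) := by
  unfold L1
  rw [dd_PM M h0 h1, ddx_PM M h0 h1]
  have h2 := KK_pos h0 h1
  have h3 : -M.det * (4 * KK m) ≠ 0 := by
    have : 0 < -M.det * (4 * KK m) := mul_pos (by linarith) (by linarith)
    exact this.ne'
  have e : -M.det * (4 * KK m) ^ 2 * HJx m (4 * KK m * x) (4 * KK m * y) =
      (-M.det * (4 * KK m)) * (4 * KK m * HJx m (4 * KK m * x) (4 * KK m * y)) := by ring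
  rw [e, mul_div_mul_left _ _ h3]

theorem curve_PM (h0 : 0 ≤ m) (h1 : m < 1) (hM : M.det < 0) : Curve 1 (PM m M) where
  T_pos := one_pos
  smooth := by
    have h2 : ContDiff ℝ ∞ (fun x => PJ m (4 * KK m * x)) :=
      (PJ_smooth h0 h1).comp (contDiff_const.mul contDiff_id)
    exact (M.mulVecLin.toContinuousLinearMap).contDiff.comp h2
  per := fun t => by
    unfold PM
    rw [mul_add, mul_one, PJ_add h0 h1]
  pos := fun t s hts hst => by
    have h2 := KK_pos h0 h1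
    rw [dd_PM M h0 h1]
    refine mul_pos (mul_pos (by linarith) (by linarith)) (HJ_pos h0 h1 ?_ ?_)
    · exact mul_lt_mul_of_pos_left hts (by linarith)
    · have := mul_lt_mul_of_pos_left hst (show (0:ℝ) < 4 * KK m by linarith)
      linarith
  Wr_pos := fun t => by
    have h2 := KK_pos h0 h1
    rw [Wr_PM M h0 h1]
    exact mul_pos (by linarith) (mul_pos (by linarith) (by positivity))

/-- the pencil: the member through the intersection of two tangent lines -/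
theorem L1_key (h0 : 0 ≤ m) (h1 : m < 1) (hM : M.det < 0) {x y : ℝ} (hxy : x ≠ y)
    (hd : |x - y| < 1) : L1 (PM m M) x y ^ 2 + (4 * KK m) ^ 2 * dn m (4 * KK m * x) ^ 2 =
      L1 (PM m M) y x ^ 2 + (4 * KK m) ^ 2 * dn m (4 * KK m * y) ^ 2 := by
  have h2 := KK_pos h0 h1
  have hH : HJ m (4 * KK m * x) (4 * KK m * y) ≠ 0 := by
    have h3 := (curve_PM M h0 h1 hM).dd_pos hxy hd
    rw [dd_PM M h0 h1] at h3
    intro h
    rw [h, mul_zero] at h3
    exact lt_irrefl _ h3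
  rw [L1_PM M h0 h1 hM, L1_PM M h0 h1 hM, HJ_symm m (4 * KK m * y)]
  have key := HJ_key h0 h1 (4 * KK m * x) (4 * KK m * y)
  rw [HJ_symm m (4 * KK m * y)] at key
  have e : ∀ a b c H : ℝ, H ≠ 0 → (a * b / H) ^ 2 + a ^ 2 * c ^ 2 =
      a ^ 2 * (b ^ 2 + c ^ 2 * H ^ 2) / H ^ 2 := by
    intro a b c H hH
    field_simp
  rw [e _ _ _ _ hH, e _ _ _ _ hH, key]

end

end Pool.Agent.MP_ae5b4e_an_LOC
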