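import Mathlib
import Pool.Agent.Lib.MP_ae5b4e_an_LOC.NormF
import Pool.Agent.Lib.MP_ae5b4e_an_LOC.Pon1
import Pool.Agent.Lib.MP_ae5b4e_an_MET.LeafEnd

/-!
# LOC: identification of a pencil solution with the Jacobi curve, linear algebra
-/

set_option autoImplicit false

noncomputable section

namespace Pool.Agent.MP_ae5b4e_an_LOC

open Set Filter Topology
open scoped ContDiff Matrix
open Pool.Agent.MP_ae5b4e_an_hopf (det3)
open Pool.Agent.MP_ae5b4e_an_MET (coef coef_apply QH)

/-- the polar form in coordinates -/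
theorem bgid_polar (Q : QuadraticForm ℝ (Fin 3 → ℝ)) (u v : Fin 3 → ℝ) :
    QuadraticMap.polar Q u v = 2 * (coef Q 0 * (u 0 * v 0)) + coef Q 1 * (u 0 * v 1 + u 1 * v 0) +
      2 * (coef Q 2 * (u 1 * v 1)) + coef Q 3 * (u 0 * v 2 + u 2 * v 0) +
      coef Q 4 * (u 1 * v 2 + u 2 * v 1) + 2 * (coef Q 5 * (u 2 * v 2)) := by
  rw [QuadraticMap.polar, coef_apply Q (u + v), coef_apply Q u, coef_apply Q v]
  simp only [QH, Pi.add_apply]
  ring

theorem bgid_hd (Q : QuadraticForm ℝ (Fin 3 → ℝ)) {V : ℝ → Fin 3 → ℝ} {V' : Fin 3 → ℝ} {x : ℝ}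
    (h : HasDerivAt V V' x) : HasDerivAt (fun x => Q (V x)) (QuadraticMap.polar Q (V x) V') x := by
  have h0 := hasDerivAt_pi.1 h 0
  have h1 := hasDerivAt_pi.1 h 1
  have h2 := hasDerivAt_pi.1 h 2
  have e : (fun x => Q (V x)) = fun x => QH (coef Q) (V x 0) (V x 1) (V x 2) :=
    funext fun x => coef_apply Q (V x)
  rw [e, bgid_polar]
  simp only [QH]
  have k := ((((((h0.pow 2).const_mul (coef Q 0)).add ((h0.mul h1).const_mul (coef Q 1))).add
    ((h1.pow 2).const_mul (coef Q 2))).add ((h0.mul h2).const_mul (coef Q 3))).add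
    ((h1.mul h2).const_mul (coef Q 4))).add ((h2.pow 2).const_mul (coef Q 5))
  refine k.congr_deriv ?_
  push_cast
  ring

theorem bgid_hd2 (Q : QuadraticForm ℝ (Fin 3 → ℝ)) {V W : ℝ → Fin 3 → ℝ} {V' W' : Fin 3 → ℝ}
    {x : ℝ} (h : HasDerivAt V V' x) (hW : HasDerivAt W W' x) :
    HasDerivAt (fun x => QuadraticMap.polar Q (V x) (W x))
      (QuadraticMap.polar Q V' (W x) + QuadraticMap.polar Q (V x) W') x := by
  have h0 := hasDerivAt_pi.1 h 0
  have h1 := hasDerivAt_pi.1 h 1
  have h2 := hasDerivAt_pi.1 h 2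
  have g0 := hasDerivAt_pi.1 hW 0
  have g1 := hasDerivAt_pi.1 hW 1
  have g2 := hasDerivAt_pi.1 hW 2
  simp only [bgid_polar]
  have k := (((((((h0.mul g0).const_mul (coef Q 0)).const_mul 2).add
    (((h0.mul g1).add (h1.mul g0)).const_mul (coef Q 1))).add
    (((h1.mul g1).const_mul (coef Q 2)).const_mul 2)).add
    (((h0.mul g2).add (h2.mul g0)).const_mul (coef Q 3))).add
    (((h1.mul g2).add (h2.mul g1)).const_mul (coef Q 4))).add
    (((h2.mul g2).const_mul (coef Q 5)).const_mul 2)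
  refine k.congr_deriv ?_
  ring

theorem bgid_self (Q : QuadraticForm ℝ (Fin 3 → ℝ)) (u : Fin 3 → ℝ) :
    QuadraticMap.polar Q u u = 2 * Q u := by
  rw [QuadraticMap.polar_self, nsmul_eq_mul]
  norm_num

/-- a conic in the frame `P, P', P''` -/
theorem bgid_form {E : QuadraticForm ℝ (Fin 3 → ℝ)} {a b c : Fin 3 → ℝ} (hdet : det3 a b c = 1)
    (haa : E a = 0) (hab : QuadraticMap.polar E a b = 0) (hac : QuadraticMap.polar E a c = -2)
    (hbb : E b = 1) (hbc : QuadraticMap.polar E b c = 0) :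
    ∃ g₀ : (Fin 3 → ℝ) ≃ₗ[ℝ] (Fin 3 → ℝ), ∀ v, E (g₀ v) = v 0 ^ 2 + v 1 ^ 2 - v 2 ^ 2 := by
  obtain ⟨k, hk, hk0⟩ : ∃ k : ℝ, k ^ 2 = 1 / 2 ∧ k ≠ 0 := by
    refine ⟨Real.sqrt (1 / 2), Real.sq_sqrt (by norm_num), ?_⟩
    exact (Real.sqrt_pos.2 (by norm_num)).ne'
  obtain ⟨f, hf⟩ : ∃ f, f = E c := ⟨_, rfl⟩
  let L : (Fin 3 → ℝ) →ₗ[ℝ] (Fin 3 → ℝ) :=
    { toFun := fun v => (k * (v 1 + v 2) + f / 2 * (k * (v 2 - v 1))) • a + v 0 • b +
        (k * (v 2 - v 1)) • c
      map_add' := fun u v => by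
        funext i
        simp only [Pi.add_apply, Pi.smul_apply, smul_eq_mul]
        ring
      map_smul' := fun r v => by
        funext i
        simp only [Pi.add_apply, Pi.smul_apply, smul_eq_mul, RingHom.id_apply]
        ring }
  have hL : ∀ v, L v = (k * (v 1 + v 2) + f / 2 * (k * (v 2 - v 1))) • a + v 0 • b +
      (k * (v 2 - v 1)) • c := fun v => rfl
  have hinj : Function.Injective L := by
    rw [← LinearMap.ker_eq_bot, LinearMap.ker_eq_bot']
    intro v hv
    rw [hL] at hv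
    have q0 := congrFun hv 0
    have q1 := congrFun hv 1
    have q2 := congrFun hv 2
    simp only [Pi.add_apply, Pi.smul_apply, smul_eq_mul, Pi.zero_apply] at q0 q1 q2
    set p := k * (v 1 + v 2) + f / 2 * (k * (v 2 - v 1)) with hp
    set s := k * (v 2 - v 1) with hs
    unfold det3 at hdet
    have e0 : p = 0 := by
      linear_combination (-p) * hdet + (b 1 * c 2 - b 2 * c 1) * q0 +
        (b 2 * c 0 - b 0 * c 2) * q1 + (b 0 * c 1 - b 1 * c 0) * q2
    have e1 : v 0 = 0 := by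
      linear_combination (-(v 0)) * hdet + (c 1 * a 2 - c 2 * a 1) * q0 +
        (c 2 * a 0 - c 0 * a 2) * q1 + (c 0 * a 1 - c 1 * a 0) * q2
    have e2 : s = 0 := by
      linear_combination (-s) * hdet + (a 1 * b 2 - a 2 * b 1) * q0 +
        (a 2 * b 0 - a 0 * b 2) * q1 + (a 0 * b 1 - a 1 * b 0) * q2
    have e3 : v 2 - v 1 = 0 := by
      rcases mul_eq_zero.1 (hs ▸ e2) with h | h
      · exact absurd h hk0
      · exact h
    have e4 : v 1 + v 2 = 0 := by
      have : k * (v 1 + v 2) = 0 := by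
        have e5 : p = k * (v 1 + v 2) + f / 2 * s := hp
        rw [e0, e2] at e5
        linarith
      rcases mul_eq_zero.1 this with h | h
      · exact absurd h hk0
      · exact h
    funext i
    fin_cases i
    · exact e1
    · show v 1 = 0
      linarith
    · show v 2 = 0
      linarith
  refine ⟨LinearEquiv.ofInjectiveEndo L hinj, fun v => ?_⟩
  have key : ∀ x y z : ℝ, E (x • a + y • b + z • c) =
      x ^ 2 * E a + y ^ 2 * E b + z ^ 2 * E c + x * y * QuadraticMap.polar E a b +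
        x * z * QuadraticMap.polar E a c + y * z * QuadraticMap.polar E b c := by
    intro x y z
    rw [bgid_polar, bgid_polar, bgid_polar, coef_apply E (x • a + y • b + z • c),
      coef_apply E a, coef_apply E b, coef_apply E c]
    simp only [QH, Pi.add_apply, Pi.smul_apply, smul_eq_mul]
    ring
  show E (L v) = _
  rw [hL, key, haa, hab, hac, hbb, hbc, ← hf]
  linear_combination (2 * (v 1 ^ 2 - v 2 ^ 2)) * hk

/-- the Jacobi system from the three quadratic relations -/
theorem bgid_ode {w0 w1 w2 v0 v1 v2 : ℝ → ℝ} {A B q : ℝ} (hB : 0 < B) (hBA : B ≤ A) (hq : 0 < q)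
    (d0 : ∀ x, HasDerivAt w0 (v0 x) x) (d1 : ∀ x, HasDerivAt w1 (v1 x) x)
    (d2 : ∀ x, HasDerivAt w2 (v2 x) x) (c0 : Continuous v0) (c1 : Continuous v1)
    (e1 : ∀ x, w0 x ^ 2 + w1 x ^ 2 = w2 x ^ 2) (e2 : ∀ x, A * w0 x ^ 2 + B * w1 x ^ 2 = q)
    (e3 : ∀ x, v0 x ^ 2 + v1 x ^ 2 - v2 x ^ 2 = 1) :
    ∃ s t : ℝ, s ^ 2 = 1 ∧ t ^ 2 = 1 ∧ (∀ x, 0 < t * (√(B / q) * w2 x)) ∧
      (∀ x, HasDerivAt (fun x => s * (√(A / q) * w0 x))
        (√(A / q) * ((√(B / q) * w1 x) * (t * (√(B / q) * w2 x)))) x) ∧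
      (∀ x, HasDerivAt (fun x => √(B / q) * w1 x)
        (-(√(A / q) * ((s * (√(A / q) * w0 x)) * (t * (√(B / q) * w2 x))))) x) ∧
      (∀ x, HasDerivAt (fun x => t * (√(B / q) * w2 x))
        (-(√(A / q) * (1 - B / A) * ((s * (√(A / q) * w0 x)) * (√(B / q) * w1 x)))) x) := by
  have hA : 0 < A := hB.trans_le hBA
  obtain ⟨al, hal⟩ : ∃ al, al = √(A / q) := ⟨_, rfl⟩
  obtain ⟨be, hbe⟩ : ∃ be, be = √(B / q) := ⟨_, rfl⟩
  have hal0 : 0 < al := hal ▸ Real.sqrt_pos.2 (by positivity)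
  have hbe0 : 0 < be := hbe ▸ Real.sqrt_pos.2 (by positivity)
  have hal2 : al ^ 2 = A / q := hal ▸ Real.sq_sqrt (by positivity)
  have hbe2 : be ^ 2 = B / q := hbe ▸ Real.sq_sqrt (by positivity)
  rw [← hal, ← hbe]
  obtain ⟨m1, hm1⟩ : ∃ m1, m1 = B / A := ⟨_, rfl⟩
  have hm1p : 0 < m1 := hm1 ▸ by positivity
  have hm1b : be ^ 2 = m1 * al ^ 2 := by
    rw [hal2, hbe2, hm1]
    field_simp
  rw [← hm1]
  -- the algebraic relations
  have r1 : ∀ x, (al * w0 x) ^ 2 + (be * w1 x) ^ 2 = 1 := by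
    intro x
    have h := e2 x
    rw [mul_pow, mul_pow, hal2, hbe2]
    field_simp
    linarith
  have r2 : ∀ x, (be * w2 x) ^ 2 = m1 * (al * w0 x) ^ 2 + (be * w1 x) ^ 2 := by
    intro x
    rw [mul_pow, ← e1 x, mul_pow, mul_pow, hm1b]
    ring
  have r2p : ∀ x, 0 < (be * w2 x) ^ 2 := by
    intro x
    rw [r2]
    have h := r1 x
    by_cases h0 : (al * w0 x) ^ 2 = 0
    · rw [h0] at h ⊢
      linarith
    · have h3 : 0 < (al * w0 x) ^ 2 := lt_of_le_of_ne (sq_nonneg _) (Ne.symm h0)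
      have := mul_pos hm1p h3
      nlinarith [sq_nonneg (be * w1 x)]
  have cw0 : Continuous w0 := continuous_iff_continuousAt.2 fun x => (d0 x).continuousAt
  have cw1 : Continuous w1 := continuous_iff_continuousAt.2 fun x => (d1 x).continuousAt
  have cw2 : Continuous w2 := continuous_iff_continuousAt.2 fun x => (d2 x).continuousAt
  -- the sign of the third coordinate
  obtain ⟨t, ht, htp⟩ : ∃ t : ℝ, t ^ 2 = 1 ∧ ∀ x, 0 < t * (be * w2 x) := by
    have hc : ContinuousOn (fun x => be * w2 x) univ := (continuous_const.mul cw2).continuousOn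
    have hc' : ContinuousOn (fun x => |be * w2 x|) univ :=
      (continuous_const.mul cw2).abs.continuousOn
    have hne : ∀ x, be * w2 x ≠ 0 := fun x h => by
      have := r2p x
      rw [h] at this
      norm_num at this
    rcases isPreconnected_univ.eq_or_eq_neg_of_sq_eq hc hc'
      (fun x _ => by simp only [Pi.pow_apply, sq_abs]) (fun {x} _ => abs_ne_zero.2 (hne x))
      with h | h
    · refine ⟨1, by norm_num, fun x => ?_⟩
      have := h (mem_univ x)
      simp only at this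
      rw [one_mul, this]
      exact abs_pos.2 (hne x)
    · refine ⟨-1, by norm_num, fun x => ?_⟩
      have := h (mem_univ x)
      simp only [Pi.neg_apply] at this
      have h2 := abs_pos.2 (hne x)
      linarith
  -- derivatives of the relations
  have f1 : ∀ x, al ^ 2 * (w0 x * v0 x) + be ^ 2 * (w1 x * v1 x) = 0 := by
    intro x
    have h := ((((d0 x).const_mul al).pow 2).add (((d1 x).const_mul be).pow 2))
    have h2 : (fun x => al * w0 x) ^ 2 + (fun x => be * w1 x) ^ 2 = fun _ => (1:ℝ) :=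
      funext fun x => r1 x
    have h3 := h.unique (by
      rw [h2]
      exact hasDerivAt_const x 1)
    push_cast at h3
    linear_combination (1 / 2) * h3
  have f2 : ∀ x, w0 x * v0 x + w1 x * v1 x = w2 x * v2 x := by
    intro x
    have h := (((d0 x).pow 2).add ((d1 x).pow 2)).sub ((d2 x).pow 2)
    have h2 : w0 ^ 2 + w1 ^ 2 - w2 ^ 2 = fun _ => (0:ℝ) := funext fun x => by
      simp only [Pi.add_apply, Pi.sub_apply, Pi.pow_apply]
      linarith [e1 x]
    have h3 := h.unique (by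
      rw [h2]
      exact hasDerivAt_const x 0)
    push_cast at h3
    linear_combination (1 / 2) * h3
  -- the angular velocity
  obtain ⟨om, hom⟩ : ∃ om : ℝ → ℝ, ∀ x, om x = al * be * (v0 x * w1 x - w0 x * v1 x) :=
    ⟨_, fun _ => rfl⟩
  have g0 : ∀ x, al * v0 x = om x * (be * w1 x) := by
    intro x
    rw [hom]
    linear_combination (-(al * v0 x)) * r1 x + (al * w0 x) * f1 x
  have g1 : ∀ x, be * v1 x = -(om x * (al * w0 x)) := by
    intro x
    rw [hom]
    linear_combination (-(be * v1 x)) * r1 x + (be * w1 x) * f1 x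
  have g2 : ∀ x, (be * w2 x) * (be * v2 x) = -((1 - m1) * om x * (al * w0 x) * (be * w1 x)) := by
    intro x
    have h1 : (be * w2 x) * (be * v2 x) = be ^ 2 * (w0 x * v0 x + w1 x * v1 x) := by
      rw [f2]
      ring
    rw [h1]
    have h2 : be ^ 2 * (w0 x * v0 x + w1 x * v1 x) = -((1 - m1) * (al * w0 x) * (al * v0 x)) := by
      linear_combination f1 x + (w0 x * v0 x) * hm1b
    rw [h2, g0]
    ring
  have hsq : ∀ x, om x ^ 2 = (al * (be * w2 x)) ^ 2 := by
    intro x
    have k1 : (be * w2 x) ^ 2 * be ^ 2 = m1 * (om x) ^ 2 := by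
      have h0 := g0 x
      have h1 := g1 x
      have h2 := g2 x
      have h3 := r2 x
      have h4 := r1 x
      have h5 : be ^ 2 * (v0 x ^ 2 + v1 x ^ 2 - v2 x ^ 2) = be ^ 2 := by rw [e3]; ring
      have h6 : be ^ 2 * v0 x ^ 2 = m1 * (om x * (be * w1 x)) ^ 2 := by
        rw [← h0]
        linear_combination (v0 x ^ 2) * hm1b
      have h7 : be ^ 2 * v1 x ^ 2 = (om x * (al * w0 x)) ^ 2 := by
        have : be ^ 2 * v1 x ^ 2 = (be * v1 x) ^ 2 := by ring
        rw [this, h1]
        ring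
      have h8 : (be * w2 x) ^ 2 * (be * v2 x) ^ 2 =
          ((1 - m1) * om x * (al * w0 x) * (be * w1 x)) ^ 2 := by
        have : (be * w2 x) ^ 2 * (be * v2 x) ^ 2 = ((be * w2 x) * (be * v2 x)) ^ 2 := by ring
        rw [this, h2]
        ring
      have h9 : (be * w2 x) ^ 2 * be ^ 2 = (be * w2 x) ^ 2 * (m1 * (om x * (be * w1 x)) ^ 2 +
          (om x * (al * w0 x)) ^ 2) - ((1 - m1) * om x * (al * w0 x) * (be * w1 x)) ^ 2 := by
        linear_combination (-((be * w2 x) ^ 2)) * h5 + ((be * w2 x) ^ 2) * h6 +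
          ((be * w2 x) ^ 2) * h7 - h8
      rw [h9, h3]
      generalize al * w0 x = X at *
      generalize be * w1 x = Y at *
      linear_combination (m1 * om x ^ 2 * (X ^ 2 + Y ^ 2 + 1)) * h4
    rw [hm1b] at k1
    have k2 : m1 * (om x ^ 2 - (al * (be * w2 x)) ^ 2) = 0 := by linear_combination -k1
    rcases mul_eq_zero.1 k2 with h | h
    · exact absurd h hm1p.ne'
    · linarith
  have hne : ∀ x, al * (be * w2 x) ≠ 0 := fun x h => by
    have h1 := htp x
    have h2 : be * w2 x = 0 := by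
      rcases mul_eq_zero.1 h with h | h
      · exact absurd h hal0.ne'
      · exact h
    rw [h2] at h1
    simp at h1
  have com : Continuous om := by
    rw [show om = fun x => al * be * (v0 x * w1 x - w0 x * v1 x) from funext hom]
    fun_prop
  obtain ⟨z, hz, hz'⟩ : ∃ z : ℝ, z ^ 2 = 1 ∧ ∀ x, om x = z * (al * (be * w2 x)) := by
    have hc' : ContinuousOn (fun x => al * (be * w2 x)) univ := by fun_prop
    rcases isPreconnected_univ.eq_or_eq_neg_of_sq_eq com.continuousOn hc'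
      (fun x _ => by simp only [Pi.pow_apply, hsq]) (fun {x} _ => hne x) with h | h
    · refine ⟨1, by norm_num, fun x => ?_⟩
      have := h (mem_univ x)
      simp only at this
      rw [this, one_mul]
    · refine ⟨-1, by norm_num, fun x => ?_⟩
      have := h (mem_univ x)
      simp only [Pi.neg_apply] at this
      rw [this]
      ring
  have hw2 : ∀ x, be * w2 x ≠ 0 := fun x h => hne x (by rw [h, mul_zero])
  refine ⟨z * t, t, by rw [mul_pow, hz, ht, one_mul], ht, htp, fun x => ?_, fun x => ?_,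
    fun x => ?_⟩
  · refine (((d0 x).const_mul al).const_mul (z * t)).congr_deriv ?_
    rw [g0, hz']
    linear_combination (t * al * (be * w2 x) * (be * w1 x)) * hz
  · refine ((d1 x).const_mul be).congr_deriv ?_
    rw [g1, hz']
    linear_combination (z * (al * (be * w2 x)) * (al * w0 x)) * ht
  · refine (((d2 x).const_mul be).const_mul t).congr_deriv ?_
    have h2 := g2 x
    rw [hz'] at h2
    have h3 : (be * w2 x) * (be * v2 x + (1 - m1) * z * al * (al * w0 x) * (be * w1 x)) = 0 := by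
      linear_combination h2
    rcases mul_eq_zero.1 h3 with h | h
    · exact absurd h (hw2 x)
    · linear_combination t * h

end Pool.Agent.MP_ae5b4e_an_LOC
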