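import Pool.Agent.Lib.MP_ae5b4e_an_LOC.LT0

/-!
# LOC, linear theory: the kernel elements (POR_LOC_MASTER, LT-16)

`R j` = four real quadratic forms along the conic, `(A j, C j)` = the first order solutions given by
the four quartic forms `X ^ 2 * R j`; `C j = - 1/2 * (X ^ 2 * R j)(P)`.
-/

set_option autoImplicit false

namespace Pool.Agent.MP_ae5b4e_an_LOC

open Set Metric Complex ComplexConjugate Filter Topology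

/-- the kernel of the linear theory, with its leading coefficients at the two base points -/
structure KerD (B : Bg) where
  A : Fin 4 → ℂ → ℂ
  C : Fin 4 → ℂ → ℂ
  R : Fin 4 → ℂ → ℂ
  solA : ∀ j, Sol B B.h ![A j, C j, 0]
  solR0 : ∀ j, Sol B B.h ![R j, 0, 0]
  solR1 : ∀ j, Sol B B.h ![0, R j, 0]
  LA : Fin 4 → Fin 2 → ℂ
  LC : Fin 4 → Fin 2 → ℂ
  LR : Fin 4 → Fin 2 → ℂ
  limA : ∀ j (n : Fin 2), Tendsto (fun τ : ℝ => (τ : ℂ) ^ 6 * A j (B.b ((n : ℕ) : ℤ) - I * τ))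
    (𝓝[>] 0) (𝓝 (LA j n))
  limC : ∀ j (n : Fin 2), Tendsto (fun τ : ℝ => (τ : ℂ) ^ 4 * C j (B.b ((n : ℕ) : ℤ) - I * τ))
    (𝓝[>] 0) (𝓝 (LC j n))
  limR : ∀ j (n : Fin 2), Tendsto (fun τ : ℝ => (τ : ℂ) ^ 2 * R j (B.b ((n : ℕ) : ℤ) - I * τ))
    (𝓝[>] 0) (𝓝 (LR j n))
  spanA : ∀ z : Fin 2 → ℂ, ∃ a : Fin 4 → ℝ, ∀ n, ∑ j, (a j : ℂ) * LA j n = z n
  spanR : ∀ z : Fin 2 → ℂ, ∃ a : Fin 4 → ℝ, ∀ n, ∑ j, (a j : ℂ) * LR j n = z n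
  injC : ∀ c : Fin 4 → ℝ, (∀ n, ∑ j, (c j : ℂ) * LC j n = 0) → c = 0

end Pool.Agent.MP_ae5b4e_an_LOC
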