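import Mathlib
import Pool.Agent.Lib.MP_ae5b4e_an_LOC.KerD
import Pool.Agent.Lib.MP_ae5b4e_an_RG.Defs

/-!
# LOC: the real background of a pencil, as used by the nonlinear half

Normal form: `V = (X, Y, Z)`, `Q = X ^ 2 + Y ^ 2 = 1`, `E = m1 X ^ 2 + Y ^ 2 - Z ^ 2 = 0`,
`T = V' / (2 π)`, `E (T) = e`, `Q (T) = la`.  The four quartic forms are `X ^ 2 * R j`,
`R = X ^ 2, X Y, X Z, Y Z`.
-/

set_option autoImplicit false

noncomputable section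

namespace Pool.Agent.MP_ae5b4e_an_LOC

open Set Complex ComplexConjugate Filter Topology

section alg

variable {K : Type*} [CommRing K]

def i1 : Fin 4 → Fin 3 := ![0, 0, 0, 1]

def i2 : Fin 4 → Fin 3 := ![0, 1, 2, 2]

/-- the coefficients of `R j` on `v + s t` -/
def cR (j : Fin 4) (v t : Fin 3 → K) : Fin 3 → K :=
  ![v (i1 j) * v (i2 j), v (i1 j) * t (i2 j) + t (i1 j) * v (i2 j), t (i1 j) * t (i2 j)]

/-- the coefficients of `X ^ 2` on `v + s t` -/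
def cU (v t : Fin 3 → K) : Fin 3 → K := ![v 0 * v 0, v 0 * t 0 + t 0 * v 0, t 0 * t 0]

/-- the coefficients of the quartic form `X ^ 2 * R j` on `v + s t` -/
def cH (j : Fin 4) (v t : Fin 3 → K) : Fin 5 → K :=
  ![cU v t 0 * cR j v t 0, cU v t 0 * cR j v t 1 + cU v t 1 * cR j v t 0,
    cU v t 0 * cR j v t 2 + cU v t 1 * cR j v t 1 + cU v t 2 * cR j v t 0,
    cU v t 1 * cR j v t 2 + cU v t 2 * cR j v t 1, cU v t 2 * cR j v t 2]

/-- the form `Q` -/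
def fQ (v : Fin 3 → K) : K := v 0 * v 0 + v 1 * v 1

/-- the form `E` -/
def fE (m1 : K) (v : Fin 3 → K) : K := m1 * (v 0 * v 0) + v 1 * v 1 - v 2 * v 2

/-- the values of the forms -/
def fR (j : Fin 4) (v : Fin 3 → K) : K := v (i1 j) * v (i2 j)

def fH (j : Fin 4) (v : Fin 3 → K) : K := v 0 * v 0 * fR j v

lemma fR_line (j : Fin 4) (v t : Fin 3 → K) (s : K) :
    fR j (fun i => v i + s * t i) = cR j v t 0 + cR j v t 1 * s + cR j v t 2 * s ^ 2 := by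
  simp only [fR, cR, Matrix.cons_val_zero, Matrix.cons_val_one, Matrix.cons_val]
  ring

lemma fH_line (j : Fin 4) (v t : Fin 3 → K) (s : K) :
    fH j (fun i => v i + s * t i) = cH j v t 0 + cH j v t 1 * s + cH j v t 2 * s ^ 2 +
      cH j v t 3 * s ^ 3 + cH j v t 4 * s ^ 4 := by
  simp only [fH, fR_line, cH, cU, Matrix.cons_val_zero, Matrix.cons_val_one, Matrix.cons_val]
  ring

end alg

/-- The real background.  `V` is the complexified curve, `F om` the step of the leaf with rotation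
number `om`, `tau om y` the (scaled) length of the tangent at `y` up to the leaf. -/
structure RB (B : Bg) (D : KerD B) where
  m1 : ℝ
  e : ℝ
  V : Fin 3 → ℂ → ℂ
  F : ℝ → ℝ → ℝ
  tau : ℝ → ℝ → ℝ
  cc : ℝ → ℝ
  e_pos : 0 < e
  anV : ∀ i, AnalyticOnNhd ℂ (V i) (Sp B.h)
  perV : ∀ i, ∀ x ∈ Sp B.h, V i (x + 1) = V i x
  reV : ∀ i, ∀ x ∈ Sp B.h, V i (conj x) = conj (V i x)
  Q1 : ∀ x ∈ Sp B.h, fQ (fun i => V i x) = 1
  E0 : ∀ x ∈ Sp B.h, fE (m1 : ℂ) (fun i => V i x) = 0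
  kerC : ∀ j, ∀ x ∈ Sp B.h, D.C j x = -(1 / 2) * fH j (fun i => V i x)
  kerA : ∀ j, ∀ x ∈ Sp B.h, HasDerivAt (D.A j)
    (-(4 * Real.pi ^ 3) * (cH j (fun i => V i x) (fun i => deriv (V i) x / (2 * Real.pi)) 3 -
      fQ (fun i => deriv (V i) x / (2 * Real.pi)) *
        cH j (fun i => V i x) (fun i => deriv (V i) x / (2 * Real.pi)) 1)) x
  kerR : ∀ j, ∀ x ∈ Sp B.h, D.R j x = fR j (fun i => V i x)
  F_ph : ∀ om : ℝ, 0 < om → om < B.r → ∀ x : ℝ, B.ph om (F om x) = B.ph om x + om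
  tau_ph : ∀ om : ℝ, 0 < om → om < B.r → ∀ x : ℝ, deriv (B.ph om) x = cc om * tau om x
  cc_ne : ∀ om : ℝ, 0 < om → om < B.r → cc om ≠ 0
  tau_sq : ∀ om : ℝ, 0 < om → om < B.r → ∀ x : ℝ, (tau om x : ℂ) ^ 2 *
    (B.Lam om / om ^ 2 / (4 * Real.pi ^ 2) - fQ (fun i => deriv (V i) x / (2 * Real.pi))) = 1
  law : ∀ p q : ℕ, 1 ≤ p → 1 ≤ q → (p : ℝ) < B.r * q → ∀ Ψ : (Fin 3 → ℝ) → ℝ,
    (∀ (v : Fin 3 → ℝ) (c : ℝ), c ≠ 0 → Ψ (fun i => c * v i) = Ψ v) → ∀ t : ℝ,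
      ∑ j ∈ Finset.range q,
        (Ψ (fun i => (V i ((F ((p:ℝ) / q))^[j] t : ℝ)).re + tau ((p:ℝ) / q) ((F ((p:ℝ) / q))^[j] t) *
            (deriv (V i) ((F ((p:ℝ) / q))^[j] t : ℝ) / (2 * Real.pi)).re) -
          Ψ (fun i => (V i ((F ((p:ℝ) / q))^[j] t : ℝ)).re - tau ((p:ℝ) / q)
            ((F ((p:ℝ) / q))^[j] t) *
            (deriv (V i) ((F ((p:ℝ) / q))^[j] t : ℝ) / (2 * Real.pi)).re)) = 0

namespace RB

variable {B : Bg} {D : KerD B} (R : RB B D)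

/-- the real curve -/
def P (x : ℝ) (i : Fin 3) : ℝ := (R.V i x).re

/-- its derivative, scaled -/
def P1 (x : ℝ) (i : Fin 3) : ℝ := (deriv (R.V i) x / (2 * Real.pi)).re

/-- `la = Q (T)` -/
def la (x : ℝ) : ℝ := fQ (R.P1 x)

/-- the coefficients of the quartic form `∑ c_j X ^ 2 R_j` -/
def g (c : Fin 4 → ℝ) (k : Fin 5) (x : ℝ) : ℝ := ∑ j, c j * cH j (R.P x) (R.P1 x) k

/-- the quadratic source -/
def S (c : Fin 4 → ℝ) (x : ℝ) : ℝ :=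
  (R.g c 3 x - R.la x * R.g c 1 x) * (R.g c 4 x - R.la x * R.g c 2 x + R.la x ^ 2 * R.g c 0 x) /
    (2 * R.e)

/-- the kernel elements of the forms `X ^ 2 R_j`, `Q R_j`, `E R_j` -/
def kH (j : Fin 4) (x : ℝ) : ℝ × ℝ :=
  (cH j (R.P x) (R.P1 x) 1, cH j (R.P x) (R.P1 x) 3 - 2 * R.la x * cH j (R.P x) (R.P1 x) 1)

def kQ (j : Fin 4) (x : ℝ) : ℝ × ℝ :=
  (cR j (R.P x) (R.P1 x) 1, -(R.la x * cR j (R.P x) (R.P1 x) 1))

def kE (j : Fin 4) (x : ℝ) : ℝ × ℝ := (0, R.e * cR j (R.P x) (R.P1 x) 1)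

end RB

end Pool.Agent.MP_ae5b4e_an_LOC
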