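import Pool.Agent.Lib.MP_ae5b4e_an_LOC.RealJ
import Pool.Agent.Lib.MP_ae5b4e_an_LOC.RB

/-!
# LOC: the real background of a pencil

The step, the tangent length and the law of the polygons, in the form of the structure `RB`.
-/

set_option autoImplicit false

noncomputable section

namespace Pool.Agent.MP_ae5b4e_an_LOC

open Complex Set Filter Topology

variable {m : ℝ}

/-- the complexified conic -/
def VJ (m : ℝ) : Fin 3 → ℂ → ℂ := ![XJ m, YJ m, ZJ m]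

/-- the scaled length of the tangent -/
def tauJ (m om x : ℝ) : ℝ := 2 * Real.pi / VV m (epsW m om) x

/-- the normalising factor -/
def ccJ (m om : ℝ) : ℝ := sg m / (√(epsW m om) * (2 * Real.pi) * PhR m (epsW m om) 1)

lemma VJ_real (h0 : 0 < m) (h1 : m < 1) (i : Fin 3) (y : ℝ) :
    VJ m i (y : ℂ) = ((PJ m (4 * KK m * y) i : ℝ) : ℂ) := by
  have e : (sg m : ℂ) * (y : ℂ) = ((4 * KK m * y : ℝ) : ℂ) := by
    unfold sg
    push_cast
    rfl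
  fin_cases i
  · show Sn m ((sg m : ℂ) * y) = _
    rw [e, Sn_ofReal h0 h1]
    rfl
  · show Cn m ((sg m : ℂ) * y) = _
    rw [e, Cn_ofReal h0 h1]
    rfl
  · show Dn m ((sg m : ℂ) * y) = _
    rw [e, Dn_ofReal h0 h1]
    rfl

lemma VJ_re (h0 : 0 < m) (h1 : m < 1) (i : Fin 3) (y : ℝ) :
    (VJ m i (y : ℂ)).re = PJ m (4 * KK m * y) i := by
  rw [VJ_real h0 h1, ofReal_re]

lemma VJ_hasDerivAt (h0 : 0 < m) (h1 : m < 1) (i : Fin 3) (y : ℝ) :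
    HasDerivAt (VJ m i) ((4 * KK m * PJ1 m (4 * KK m * y) i : ℝ) : ℂ) (y : ℂ) := by
  have hy : |((y : ℝ) : ℂ).im| < hJ m := by
    rw [ofReal_im, abs_zero]
    exact hJ_pos h0 h1
  have eX := VJ_real h0 h1 0 y
  have eY := VJ_real h0 h1 1 y
  have eZ := VJ_real h0 h1 2 y
  have eX : XJ m (y : ℂ) = ((sn m (4 * KK m * y) : ℝ) : ℂ) := eX
  have eY : YJ m (y : ℂ) = ((cn m (4 * KK m * y) : ℝ) : ℂ) := eY
  have eZ : ZJ m (y : ℂ) = ((dn m (4 * KK m * y) : ℝ) : ℂ) := eZ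
  fin_cases i
  · refine (XJ_der h0 h1 hy).congr_deriv ?_
    rw [eY, eZ]
    show _ = ((4 * KK m * (cn m (4 * KK m * y) * dn m (4 * KK m * y)) : ℝ) : ℂ)
    unfold sg
    push_cast
    rfl
  · refine (YJ_der h0 h1 hy).congr_deriv ?_
    rw [eX, eZ]
    show _ = ((4 * KK m * -(sn m (4 * KK m * y) * dn m (4 * KK m * y)) : ℝ) : ℂ)
    unfold sg
    push_cast
    ring
  · refine (ZJ_der h0 h1 hy).congr_deriv ?_
    rw [eX, eY]
    show _ = ((4 * KK m * -(m * sn m (4 * KK m * y) * cn m (4 * KK m * y)) : ℝ) : ℂ)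
    unfold sg
    push_cast
    ring

lemma VJ_deriv (h0 : 0 < m) (h1 : m < 1) (i : Fin 3) (y : ℝ) :
    deriv (VJ m i) (y : ℂ) = ((4 * KK m * PJ1 m (4 * KK m * y) i : ℝ) : ℂ) :=
  (VJ_hasDerivAt h0 h1 i y).deriv

lemma VJ_deriv_re (h0 : 0 < m) (h1 : m < 1) (i : Fin 3) (y : ℝ) :
    (deriv (VJ m i) (y : ℂ) / (2 * Real.pi)).re =
      4 * KK m * PJ1 m (4 * KK m * y) i / (2 * Real.pi) := by
  have e : (2 * (Real.pi : ℂ)) = ((2 * Real.pi : ℝ) : ℂ) := by push_cast; rfl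
  rw [VJ_deriv h0 h1, e, ← ofReal_div, ofReal_re]

lemma PJ1_add (h0 : 0 ≤ m) (h1 : m < 1) (u : ℝ) : PJ1 m (u + 4 * KK m) = PJ1 m u := by
  have e : u + 4 * KK m = u + 2 * KK m + 2 * KK m := by ring
  unfold PJ1
  rw [e, sn_add h0 h1, sn_add h0 h1, cn_add h0 h1, cn_add h0 h1, dn_add h0 h1, dn_add h0 h1,
    neg_neg, neg_neg]

/-- the points of the leaf, from the left -/
def ptL (m ε x : ℝ) : Fin 3 → ℝ :=
  VV m ε x • PJ m (4 * KK m * x) - (4 * KK m) • PJ1 m (4 * KK m * x)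

/-- the points of the leaf, from the right -/
def ptR (m ε x : ℝ) : Fin 3 → ℝ :=
  VV m ε x • PJ m (4 * KK m * x) + (4 * KK m) • PJ1 m (4 * KK m * x)

lemma ptL_add_one (h0 : 0 ≤ m) (h1 : m < 1) (ε x : ℝ) : ptL m ε (x + 1) = ptL m ε x := by
  unfold ptL
  have e : 4 * KK m * (x + 1) = 4 * KK m * x + 4 * KK m := by ring
  rw [VV_per h0 h1, e, PJ_add h0 h1, PJ1_add h0 h1]

lemma ptL_add_nat (h0 : 0 ≤ m) (h1 : m < 1) (ε x : ℝ) (n : ℕ) :
    ptL m ε (x + n) = ptL m ε x := by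
  induction n with
  | zero => simp
  | succ n ih =>
    push_cast
    rw [← add_assoc, ptL_add_one h0 h1, ih]

/-- the law of the polygons, real form -/
theorem poly_law (h0 : 0 ≤ m) (h1 : m < 1) {ε : ℝ} (hε : ε ∈ Ioo (0:ℝ) 1) {p q : ℕ}
    (hq : 0 < q) (hw : wE m ε = (p : ℝ) / q) (Φ : (Fin 3 → ℝ) → ℝ) (t : ℝ) :
    ∑ j ∈ Finset.range q, (Φ (ptR m ε ((GG m ε)^[j] t)) - Φ (ptL m ε ((GG m ε)^[j] t))) = 0 := by
  have hstep : ∀ x, ptR m ε x = ptL m ε (GG m ε x) := fun x => GG_point h0 h1 hε x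
  have hend : (GG m ε)^[q] t = t + p := by
    have hε' : ε ∈ Ico (0:ℝ) 1 := ⟨hε.1.le, hε.2⟩
    refine (PhR_strictMono h0 h1 hε').injective ?_
    rw [PhR_iter h0 h1 hε, PhR_nat h0 h1 hε', hw]
    have : (q : ℝ) ≠ 0 := by positivity
    field_simp
  have e : ∀ j, Φ (ptR m ε ((GG m ε)^[j] t)) = Φ (ptL m ε ((GG m ε)^[j + 1] t)) := fun j => by
    rw [hstep, Function.iterate_succ_apply']
  simp_rw [e]
  rw [Finset.sum_range_sub (fun j => Φ (ptL m ε ((GG m ε)^[j] t))), hend, ptL_add_nat h0 h1]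
  simp

namespace RealJ

variable {B : Bg} (R : RealJ m B)
include R

theorem F_ph (om : ℝ) (ho : 0 < om) (hr : om < B.r) (x : ℝ) :
    B.ph om (GW m om x) = B.ph om x + om := by
  have hε := R.eps_mem om ho hr
  have hε' : epsW m om ∈ Ico (0:ℝ) 1 := ⟨hε.1.le, hε.2⟩
  have h3 := (PhR_one_pos R.m_pos.le R.m_lt hε').ne'
  rw [R.ph_eq om ho hr, R.ph_eq om ho hr, ← ofReal_add]
  congr 1
  unfold GW
  rw [PhR_GG R.m_pos.le R.m_lt hε]
  have hw := R.wE_eps om ho hr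
  unfold wE at hw
  rw [add_div, hw]

theorem cc_ne (om : ℝ) (ho : 0 < om) (hr : om < B.r) : ccJ m om ≠ 0 := by
  have hε := R.eps_mem om ho hr
  have h3 := PhR_one_pos R.m_pos.le R.m_lt (⟨hε.1.le, hε.2⟩ : epsW m om ∈ Ico (0:ℝ) 1)
  have h4 := sg_pos R.m_pos R.m_lt
  have h5 := Real.sqrt_pos.2 hε.1
  have := Real.pi_pos
  unfold ccJ
  positivity

theorem tau_ph (om : ℝ) (ho : 0 < om) (hr : om < B.r) (x : ℝ) :
    deriv (B.ph om) x = ccJ m om * tauJ m om x := by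
  have hε := R.eps_mem om ho hr
  have hε' : epsW m om ∈ Ico (0:ℝ) 1 := ⟨hε.1.le, hε.2⟩
  have h3 := (PhR_one_pos R.m_pos.le R.m_lt hε').ne'
  have h4 := (KK_pos R.m_pos.le R.m_lt).ne'
  have h5 := (Real.sqrt_pos.2 hε.1).ne'
  have h6 := (RR_pos R.m_pos.le R.m_lt hε' x).ne'
  have h7 := Real.pi_ne_zero
  rw [(R.ph_der om ho hr x).deriv, ← ofReal_mul]
  congr 1
  unfold ccJ tauJ sg
  rw [VV_eq R.m_pos.le R.m_lt hε]
  field_simp

theorem tau_sq (om : ℝ) (ho : 0 < om) (hr : om < B.r) (x : ℝ) : (tauJ m om x : ℂ) ^ 2 *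
    (B.Lam om / om ^ 2 / (4 * Real.pi ^ 2) -
      fQ (fun i => deriv (VJ m i) x / (2 * Real.pi))) = 1 := by
  have hε := R.eps_mem om ho hr
  have h1 := VV_sq R.m_pos.le R.m_lt hε x
  have h2 := VV_pos R.m_pos.le R.m_lt hε x
  have hp := Real.pi_ne_zero
  have e1 := sn_sq_add m (4 * KK m * x)
  have hd : ∀ i, deriv (VJ m i) (x : ℂ) / (2 * (Real.pi : ℂ)) =
      ((4 * KK m * PJ1 m (4 * KK m * x) i / (2 * Real.pi) : ℝ) : ℂ) := fun i => by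
    rw [VJ_deriv R.m_pos R.m_lt]
    push_cast
    rfl
  simp_rw [hd]
  rw [R.Lam_eq om ho hr]
  have e2 : ((sg m ^ 2 / epsW m om : ℝ) : ℂ) / (4 * (Real.pi : ℂ) ^ 2) -
      fQ (fun i => ((4 * KK m * PJ1 m (4 * KK m * x) i / (2 * Real.pi) : ℝ) : ℂ)) =
      ((sg m ^ 2 / epsW m om / (4 * Real.pi ^ 2) -
      fQ (fun i => 4 * KK m * PJ1 m (4 * KK m * x) i / (2 * Real.pi)) : ℝ) : ℂ) := by
    unfold fQ
    push_cast
    rfl
  rw [e2, ← ofReal_pow, ← ofReal_mul, ← ofReal_one]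
  congr 1
  have e3 : fQ (fun i => 4 * KK m * PJ1 m (4 * KK m * x) i / (2 * Real.pi)) =
      (4 * KK m) ^ 2 * dn m (4 * KK m * x) ^ 2 / (4 * Real.pi ^ 2) := by
    simp only [fQ, PJ1, Matrix.cons_val_zero, Matrix.cons_val_one]
    field_simp
    linear_combination (4 * KK m ^ 2 * dn m (4 * KK m * x) ^ 2) * e1
  have e4 : sg m ^ 2 / epsW m om / (4 * Real.pi ^ 2) -
      (4 * KK m) ^ 2 * dn m (4 * KK m * x) ^ 2 / (4 * Real.pi ^ 2) =
      VV m (epsW m om) x ^ 2 / (4 * Real.pi ^ 2) := by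
    rw [h1]
    unfold sg
    ring
  rw [e3, e4]
  unfold tauJ
  have := h2.ne'
  field_simp
  norm_num

theorem law (p q : ℕ) (hp : 1 ≤ p) (hq : 1 ≤ q) (hpq : (p : ℝ) < B.r * q)
    (Φ : (Fin 3 → ℝ) → ℝ)
    (hΦ : ∀ (v : Fin 3 → ℝ) (c : ℝ), c ≠ 0 → Φ (fun i => c * v i) = Φ v) (t : ℝ) :
      ∑ j ∈ Finset.range q,
        (Φ (fun i => (VJ m i ((GW m ((p:ℝ) / q))^[j] t : ℝ)).re + tauJ m ((p:ℝ) / q)
            ((GW m ((p:ℝ) / q))^[j] t) *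
            (deriv (VJ m i) ((GW m ((p:ℝ) / q))^[j] t : ℝ) / (2 * Real.pi)).re) -
          Φ (fun i => (VJ m i ((GW m ((p:ℝ) / q))^[j] t : ℝ)).re - tauJ m ((p:ℝ) / q)
            ((GW m ((p:ℝ) / q))^[j] t) *
            (deriv (VJ m i) ((GW m ((p:ℝ) / q))^[j] t : ℝ) / (2 * Real.pi)).re)) = 0 := by
  have hq' : (0:ℝ) < q := by exact_mod_cast hq
  have hp' : (0:ℝ) < p := by exact_mod_cast hp
  have ho : 0 < (p:ℝ) / q := div_pos hp' hq'
  have hr : (p:ℝ) / q < B.r := by rwa [div_lt_iff₀ hq']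
  have hε := R.eps_mem _ ho hr
  have hw := R.wE_eps _ ho hr
  rw [← poly_law R.m_pos.le R.m_lt hε hq hw Φ t]
  refine Finset.sum_congr rfl fun j _ => ?_
  show _ = Φ (ptR m (epsW m ((p:ℝ) / q)) ((GW m ((p:ℝ) / q))^[j] t)) -
    Φ (ptL m (epsW m ((p:ℝ) / q)) ((GW m ((p:ℝ) / q))^[j] t))
  set y := (GW m ((p:ℝ) / q))^[j] t with hy
  have hv := (VV_pos R.m_pos.le R.m_lt hε y).ne'
  have hpi := Real.pi_ne_zero
  congr 1
  · rw [← hΦ _ _ hv]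
    congr 1
    funext i
    rw [VJ_re R.m_pos R.m_lt, VJ_deriv_re R.m_pos R.m_lt]
    show _ = VV m (epsW m ((p:ℝ) / q)) y * PJ m (4 * KK m * y) i +
      4 * KK m * PJ1 m (4 * KK m * y) i
    unfold tauJ
    field_simp
  · rw [← hΦ _ _ hv]
    congr 1
    funext i
    rw [VJ_re R.m_pos R.m_lt, VJ_deriv_re R.m_pos R.m_lt]
    show _ = VV m (epsW m ((p:ℝ) / q)) y * PJ m (4 * KK m * y) i -
      4 * KK m * PJ1 m (4 * KK m * y) i
    unfold tauJ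
    field_simp

end RealJ

end Pool.Agent.MP_ae5b4e_an_LOC
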