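import Pool.Agent.Lib.MP_ae5b4e_an_LOC.Frm0
import Pool.Agent.Lib.MP_ae5b4e_an_LOC.RealK

/-!
# LOC: the real conic of the modulus `m` as a background curve
-/

set_option autoImplicit false

noncomputable section

namespace Pool.Agent.MP_ae5b4e_an_LOC

open Set Filter Topology

variable {m : ℝ}

/-- a point of the unit circle -/
lemma exists_angle {X Y : ℝ} (h : X ^ 2 + Y ^ 2 = 1) :
    ∃ θ ∈ Icc (0:ℝ) (2 * Real.pi), Real.sin θ = X ∧ Real.cos θ = Y := by
  set z : ℂ := ⟨Y, X⟩ with hz
  have hn : ‖z‖ = 1 := by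
    have h2 : ‖z‖ ^ 2 = 1 := by
      rw [Complex.sq_norm, Complex.normSq_apply]
      show Y * Y + X * X = 1
      linarith
    nlinarith [norm_nonneg z]
  have hz0 : z ≠ 0 := by
    intro h0
    rw [h0, norm_zero] at hn
    exact zero_ne_one hn
  have hs : Real.sin z.arg = X := by
    rw [Complex.sin_arg, hn, div_one]
  have hc : Real.cos z.arg = Y := by
    rw [Complex.cos_arg hz0, hn, div_one]
  have hpi := Real.pi_pos
  rcases le_or_gt 0 z.arg with h0 | h0
  · exact ⟨z.arg, ⟨h0, by linarith [Complex.arg_le_pi z]⟩, hs, hc⟩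
  · refine ⟨z.arg + 2 * Real.pi, ⟨by linarith [Complex.neg_pi_lt_arg z], by linarith⟩, ?_, ?_⟩
    · rw [Real.sin_add_two_pi, hs]
    · rw [Real.cos_add_two_pi, hc]

lemma ath_two_pi (h0 : 0 ≤ m) (h1 : m < 1) : ath m (2 * Real.pi) = 4 * KK m := by
  have e := am_add4 h0 h1 0
  rw [zero_add, am_zero h0 h1, zero_add] at e
  rw [← e, ath_am h0 h1]

/-- the scaled derivative of the real conic -/
def WJ (m x : ℝ) : Fin 3 → ℝ :=
  fun i => 4 * KK m * PJ1 m (4 * KK m * x) i / (2 * Real.pi)

theorem bcJ (h0 : 0 < m) (h1 : m < 1) :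
    BC (1 - m) ((4 * KK m) ^ 2 * (1 - m) / (4 * Real.pi ^ 2)) (2 * Real.pi)
      (fun x => PJ m (4 * KK m * x)) (WJ m) where
  m0 := by linarith
  m1 := by linarith
  e0 := by
    have := KK_pos h0.le h1
    have := Real.pi_pos
    have : 0 < 1 - m := by linarith
    positivity
  k0 := by
    have := Real.pi_pos
    positivity
  cV := (PJ_smooth h0.le h1).continuous.comp (by fun_prop)
  cW := by
    have h2 : Continuous (PJ1 m) := continuous_iff_continuousAt.2 fun u =>
      (PJ1_hasDerivAt h0.le h1 u).continuousAt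
    refine continuous_pi fun i => ?_
    have h3 : Continuous (fun x : ℝ => PJ1 m (4 * KK m * x) i) :=
      (continuous_apply i).comp (h2.comp (by fun_prop))
    unfold WJ
    fun_prop
  der x := by
    have hl : HasDerivAt (fun x : ℝ => 4 * KK m * x) (4 * KK m) x := by
      simpa using (hasDerivAt_id x).const_mul (4 * KK m)
    refine ((PJ_hasDerivAt h0.le h1 (4 * KK m * x)).scomp x hl).congr_deriv ?_
    funext i
    have := Real.pi_ne_zero
    simp only [Pi.smul_apply, smul_eq_mul, WJ]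
    field_simp
  E0 x := by
    have r1 := sn_sq_add m (4 * KK m * x)
    have r2 := dn_sq h0.le h1 (4 * KK m * x)
    simp only [Ef, PJ, Matrix.cons_val_zero, Matrix.cons_val_one, Matrix.cons_val]
    linear_combination r1 - r2
  E2 x := by
    have r1 := sn_sq_add m (4 * KK m * x)
    have r2 := dn_sq h0.le h1 (4 * KK m * x)
    have hp := Real.pi_ne_zero
    simp only [Ef, WJ, PJ1, Matrix.cons_val_zero, Matrix.cons_val_one, Matrix.cons_val]
    have key : (1 - m) * (cn m (4 * KK m * x) * dn m (4 * KK m * x)) ^ 2 +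
        (sn m (4 * KK m * x) * dn m (4 * KK m * x)) ^ 2 -
        (m * sn m (4 * KK m * x) * cn m (4 * KK m * x)) ^ 2 = 1 - m := by
      have e2 : dn m (4 * KK m * x) ^ 2 = 1 - m * sn m (4 * KK m * x) ^ 2 := by linarith
      have e1 : cn m (4 * KK m * x) ^ 2 = 1 - sn m (4 * KK m * x) ^ 2 := by linarith
      rw [mul_pow, mul_pow, mul_pow, mul_pow, e2, e1]
      ring
    rw [div_pow, div_pow, div_pow]
    have e : ∀ a b c K p : ℝ, p ≠ 0 → (1 - m) * ((K * a) ^ 2 / p ^ 2) + (K * -b) ^ 2 / p ^ 2 -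
        (K * -c) ^ 2 / p ^ 2 = K ^ 2 * ((1 - m) * a ^ 2 + b ^ 2 - c ^ 2) / p ^ 2 := by
      intro a b c K p hp
      field_simp
    rw [e _ _ _ _ _ (by positivity), key]
    ring
  Q0 x := by
    have r1 := sn_sq_add m (4 * KK m * x)
    simpa only [Qf, PJ, Matrix.cons_val_zero, Matrix.cons_val_one] using r1
  pos x := dn_pos h0.le h1 _
  surj X Y h := by
    obtain ⟨θ, hθ, hs, hc⟩ := exists_angle h
    have hK := KK_pos h0.le h1
    have e : 4 * KK m * (ath m θ / (4 * KK m)) = ath m θ := by field_simp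
    refine ⟨ath m θ / (4 * KK m), ⟨?_, ?_⟩, ?_, ?_⟩
    · refine div_nonneg ?_ (by linarith)
      rw [← ath_zero (m := m)]
      exact (ath_strictMono h0.le h1).monotone hθ.1
    · rw [div_le_one (by linarith), ← ath_two_pi h0.le h1]
      exact (ath_strictMono h0.le h1).monotone hθ.2
    · show sn m (4 * KK m * (ath m θ / (4 * KK m))) = X
      rw [e]
      unfold sn
      rw [am_ath h0.le h1, hs]
    · show cn m (4 * KK m * (ath m θ / (4 * KK m))) = Y
      rw [e]
      unfold cn
      rw [am_ath h0.le h1, hc]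

/-- the same in the form used with the real background -/
theorem bcV (h0 : 0 < m) (h1 : m < 1) :
    BC (1 - m) ((4 * KK m) ^ 2 * (1 - m) / (4 * Real.pi ^ 2)) (2 * Real.pi)
      (fun x i => (VJ m i (x : ℂ)).re)
      (fun x i => (deriv (VJ m i) (x : ℂ) / (2 * Real.pi)).re) := by
  have h2 := bcJ h0 h1
  have e1 : (fun (x : ℝ) (i : Fin 3) => (VJ m i (x : ℂ)).re) = fun x => PJ m (4 * KK m * x) := by
    funext x i
    exact VJ_re h0 h1 i x
  have e2 : (fun (x : ℝ) (i : Fin 3) => (deriv (VJ m i) (x : ℂ) / (2 * Real.pi)).re) = WJ m := by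
    funext x i
    exact VJ_deriv_re h0 h1 i x
  rw [e1, e2]
  exact h2

end Pool.Agent.MP_ae5b4e_an_LOC
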