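import Pool.Agent.Lib.MP_ae5b4e_an_LOC.PJ
import Pool.Agent.Lib.MP_ae5b4e_an_LOC.KerD

/-!
The kernel elements: analyticity, periodicity, reality, limits at the base points, spans.
-/

set_option autoImplicit false

namespace Pool.Agent.MP_ae5b4e_an_LOC

open Complex Set Filter Topology ComplexConjugate

noncomputable section

variable {m : ℝ}

/-- derivative of R_j(P) -/
def NR (m : ℝ) (x : ℂ) : Fin 4 → ℂ :=
  let X := XJ m x; let Y := YJ m x; let Z := ZJ m x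
  let X' := (sg m : ℂ) * (Y * Z); let Y' := -((sg m : ℂ) * (X * Z))
  let Z' := -((sg m : ℂ) * m * (X * Y))
  ![2 * X * X', X' * Y + X * Y', X' * Z + X * Z', Y' * Z + Y * Z']

section

variable (h0 : 0 < m) (h1 : m < 1)

include h0 h1

theorem KR_der {x : ℂ} (hx : |x.im| < hJ m) (j : Fin 4) : HasDerivAt (KR m j) (NR m x j) x := by
  have hX := XJ_der h0 h1 hx
  have hY := YJ_der h0 h1 hx
  have hZ := ZJ_der h0 h1 hx
  fin_cases j
  · refine (hX.pow 2).congr_deriv ?_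
    simp only [NR, Fin.zero_eta, Matrix.cons_val_zero]
    push_cast; ring
  · refine (hX.mul hY).congr_deriv ?_
    simp only [NR, Fin.mk_one, Matrix.cons_val_one, Matrix.cons_val_zero]
  · refine (hX.mul hZ).congr_deriv ?_
    have e3 : ∀ a b c d : ℂ, (![a, b, c, d] : Fin 4 → ℂ) ⟨2, by decide⟩ = c := fun _ _ _ _ => rfl
    simp only [NR, e3]
  · refine (hY.mul hZ).congr_deriv ?_
    have e3 : ∀ a b c d : ℂ, (![a, b, c, d] : Fin 4 → ℂ) ⟨3, by decide⟩ = d := fun _ _ _ _ => rfl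
    simp only [NR, e3]

theorem KC_der {x : ℂ} (hx : |x.im| < hJ m) (j : Fin 4) :
    HasDerivAt (KC m j) (-(N1 m x j) / 2) x := by
  have hX := XJ_der h0 h1 hx
  have h := (((hX.pow 2).mul (KR_der h0 h1 hx j)).const_mul (-(1 / 2 : ℂ)))
  refine h.congr_deriv ?_
  simp only [Pi.pow_apply]
  fin_cases j
  · simp only [NR, KR, N1, Fin.zero_eta, Matrix.cons_val_zero]
    push_cast; ring
  · simp only [NR, KR, N1, Fin.mk_one, Matrix.cons_val_one, Matrix.cons_val_zero]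
    push_cast; ring
  · have e3 : ∀ a b c d : ℂ, (![a, b, c, d] : Fin 4 → ℂ) ⟨2, by decide⟩ = c := fun _ _ _ _ => rfl
    have e4 : ∀ a b c d : ℂ → ℂ, (![a, b, c, d] : Fin 4 → ℂ → ℂ) ⟨2, by decide⟩ = c :=
      fun _ _ _ _ => rfl
    simp only [NR, KR, N1, e3, e4]
    push_cast; ring
  · have e3 : ∀ a b c d : ℂ, (![a, b, c, d] : Fin 4 → ℂ) ⟨3, by decide⟩ = d := fun _ _ _ _ => rfl
    have e4 : ∀ a b c d : ℂ → ℂ, (![a, b, c, d] : Fin 4 → ℂ → ℂ) ⟨3, by decide⟩ = d :=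
      fun _ _ _ _ => rfl
    simp only [NR, KR, N1, e3, e4]
    push_cast; ring

theorem KR_an (j : Fin 4) : AnalyticOnNhd ℂ (KR m j) (Sp (hJ m)) :=
  DifferentiableOn.analyticOnNhd (fun x hx => (KR_der h0 h1 hx j).differentiableAt.differentiableWithinAt)
    (isOpen_Sp _)
theorem KC_an (j : Fin 4) : AnalyticOnNhd ℂ (KC m j) (Sp (hJ m)) :=
  DifferentiableOn.analyticOnNhd (fun x hx => (KC_der h0 h1 hx j).differentiableAt.differentiableWithinAt)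
    (isOpen_Sp _)
theorem KA_an (j : Fin 4) : AnalyticOnNhd ℂ (KA m j) (Sp (hJ m)) :=
  DifferentiableOn.analyticOnNhd (fun x hx => (KA_der h0 h1 hx j).differentiableAt.differentiableWithinAt)
    (isOpen_Sp _)

/-! ### periodicity -/

lemma sg_half (x : ℂ) : (sg m : ℂ) * (x + 1 / 2) = sg m * x + (2 * KK m : ℝ) := by
  simp only [sg]; push_cast; ring

lemma XJ_half (x : ℂ) : XJ m (x + 1 / 2) = -XJ m x := by
  unfold XJ; rw [sg_half h0 h1, Sn_add h0 h1]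
lemma YJ_half (x : ℂ) : YJ m (x + 1 / 2) = -YJ m x := by
  unfold YJ; rw [sg_half h0 h1, Cn_add h0 h1]
lemma ZJ_half (x : ℂ) : ZJ m (x + 1 / 2) = ZJ m x := by
  unfold ZJ; rw [sg_half h0 h1, Dn_add h0 h1]

lemma XJ_per (x : ℂ) : XJ m (x + 1) = XJ m x := by
  rw [show x + 1 = (x + 1 / 2) + 1 / 2 by ring, XJ_half h0 h1, XJ_half h0 h1, neg_neg]
lemma YJ_per (x : ℂ) : YJ m (x + 1) = YJ m x := by
  rw [show x + 1 = (x + 1 / 2) + 1 / 2 by ring, YJ_half h0 h1, YJ_half h0 h1, neg_neg]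
lemma ZJ_per (x : ℂ) : ZJ m (x + 1) = ZJ m x := by
  rw [show x + 1 = (x + 1 / 2) + 1 / 2 by ring, ZJ_half h0 h1, ZJ_half h0 h1]

lemma sg_conj (x : ℂ) : (sg m : ℂ) * conj x = conj ((sg m : ℂ) * x) := by
  rw [map_mul, conj_ofReal]

lemma XJ_conj (x : ℂ) : XJ m (conj x) = conj (XJ m x) := by
  unfold XJ; rw [sg_conj h0 h1, Sn_conj h0 h1]
lemma YJ_conj (x : ℂ) : YJ m (conj x) = conj (YJ m x) := by
  unfold YJ; rw [sg_conj h0 h1, Cn_conj h0 h1]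
lemma ZJ_conj (x : ℂ) : ZJ m (conj x) = conj (ZJ m x) := by
  unfold ZJ; rw [sg_conj h0 h1, Dn_conj h0 h1]

lemma KR_per (j : Fin 4) (x : ℂ) : KR m j (x + 1) = KR m j x := by
  fin_cases j <;> simp [KR, XJ_per h0 h1, YJ_per h0 h1, ZJ_per h0 h1]
lemma KC_per (j : Fin 4) (x : ℂ) : KC m j (x + 1) = KC m j x := by
  simp [KC, XJ_per h0 h1, KR_per h0 h1]
lemma KA_per (j : Fin 4) (x : ℂ) : KA m j (x + 1) = KA m j x := by
  fin_cases j <;> simp [KA, XJ_per h0 h1, YJ_per h0 h1, ZJ_per h0 h1]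
lemma KR_conj (j : Fin 4) (x : ℂ) : KR m j (conj x) = conj (KR m j x) := by
  fin_cases j <;> simp [KR, XJ_conj h0 h1, YJ_conj h0 h1, ZJ_conj h0 h1]
lemma KC_conj (j : Fin 4) (x : ℂ) : KC m j (conj x) = conj (KC m j x) := by
  simp [KC, XJ_conj h0 h1, KR_conj h0 h1, map_ofNat]
lemma KA_conj (j : Fin 4) (x : ℂ) : KA m j (conj x) = conj (KA m j x) := by
  fin_cases j <;> simp [KA, XJ_conj h0 h1, YJ_conj h0 h1, ZJ_conj h0 h1, map_ofNat]

/-! ### limits at the base points -/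

/-- the scaled base point vectors -/
def vb (m : ℝ) (n : Fin 2) : ℂ := if n = 0 then 1 else -1

lemma Sn_lim : Tendsto (fun τ : ℝ => Sn m (-(I * (sg m * τ))) / τ) (𝓝[>] 0)
    (𝓝 (-(I * sg m))) := by
  have hz : JD m (-(I * ((sg m : ℂ) * ((0:ℝ):ℂ)))) ≠ 0 := by
    simpa using JD_zero_ne h0 h1
  have hl : HasDerivAt (fun τ : ℝ => -(I * ((sg m : ℂ) * τ))) (-(I * sg m)) (0:ℝ) := by
    have := (((hasDerivAt_id (0:ℝ)).ofReal_comp.const_mul (sg m : ℂ)).const_mul I).neg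
    exact this.congr_deriv (by simp)
  have h := (Sn_hasDerivAt h0 h1 hz).comp (0:ℝ) hl
  have e : Cn m (-(I * ((sg m : ℂ) * ((0:ℝ):ℂ)))) * Dn m (-(I * ((sg m : ℂ) * ((0:ℝ):ℂ)))) = 1 := by
    simp [Cn_zero h0 h1, Dn_zero h0 h1]
  rw [e, one_mul, hasDerivAt_iff_tendsto_slope] at h
  have h2 := h.mono_left (nhdsWithin_mono (0:ℝ) (s := Ioi 0) (fun y hy => ne_of_gt hy))
  refine h2.congr' ?_
  filter_upwards [self_mem_nhdsWithin] with τ hτ
  have hτ' : (0:ℝ) < τ := hτ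
  simp only [slope, vsub_eq_sub, sub_zero, Function.comp_apply, ofReal_zero, mul_zero, neg_zero,
    Sn_zero h0 h1]
  rw [Complex.real_smul]
  push_cast
  rw [div_eq_inv_mul]

lemma arg_lim : Tendsto (fun τ : ℝ => -(I * ((sg m : ℂ) * τ))) (𝓝[>] 0) (𝓝 0) := by
  have : Continuous fun τ : ℝ => -(I * ((sg m : ℂ) * τ)) := by fun_prop
  have h := this.tendsto 0
  simp only [ofReal_zero, mul_zero, neg_zero] at h
  exact h.mono_left nhdsWithin_le_nhds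

lemma Cn_lim : Tendsto (fun τ : ℝ => Cn m (-(I * (sg m * τ)))) (𝓝[>] 0) (𝓝 1) := by
  have h := (Cn_an h0 h1 (JD_zero_ne h0 h1)).continuousAt.tendsto.comp (arg_lim h0 h1)
  rwa [Cn_zero h0 h1] at h

lemma Dn_lim : Tendsto (fun τ : ℝ => Dn m (-(I * (sg m * τ)))) (𝓝[>] 0) (𝓝 1) := by
  have h := (Dn_an h0 h1 (JD_zero_ne h0 h1)).continuousAt.tendsto.comp (arg_lim h0 h1)
  rwa [Dn_zero h0 h1] at h

/-- for small tau the shifted formulas apply -/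
lemma shift_ok {τ : ℝ} (hτ : 0 < τ) (hτ' : τ < hJ m) :
    JD m (-(I * (sg m * τ))) ≠ 0 ∧ JD m (-(I * (sg m * τ)) + KP m * I) ≠ 0 := by
  have hs := sg_pos h0 h1
  have hK := KP_pos h0 h1
  have hlt : sg m * τ < KP m := by
    rw [← sg_hJ h0 h1]; exact mul_lt_mul_of_pos_left hτ' hs
  have hpos : 0 < sg m * τ := by positivity
  constructor
  · apply JD_ne_zero_of_im h0 h1
    simp only [neg_im, mul_im, I_re, ofReal_re, ofReal_im, mul_zero, zero_mul, add_zero, I_im,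
      mul_re, sub_zero, one_mul, zero_add, abs_neg]
    rw [abs_of_pos hpos]; exact hlt
  · apply JD_ne_zero_of_im h0 h1
    simp only [add_im, neg_im, mul_im, I_re, ofReal_re, ofReal_im, mul_zero, zero_mul, add_zero, I_im,
      mul_re, sub_zero, one_mul, zero_add, mul_one]
    rw [abs_lt]
    constructor <;> linarith

lemma sg_b (n : Fin 2) (τ : ℝ) : (sg m : ℂ) * ((((n : ℕ) : ℤ) : ℂ) / 2 + I * hJ m - I * τ) =
    (-(I * (sg m * τ)) + KP m * I) + ((n : ℕ) : ℂ) * (2 * KK m : ℝ) := by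
  have h : (sg m : ℂ) * hJ m = KP m := by exact_mod_cast sg_hJ h0 h1
  have h2 : (sg m : ℂ) = 4 * KK m := by simp [sg]
  have h3 : (sg m : ℂ) * (((n : ℕ) : ℂ) / 2) = ((n : ℕ) : ℂ) * (2 * KK m) := by
    rw [h2]; ring
  push_cast
  linear_combination I * h + h3

lemma X_b (n : Fin 2) (τ : ℝ) : XJ m ((((n : ℕ) : ℤ) : ℂ) / 2 + I * hJ m - I * τ) =
    vb m n * Sn m (-(I * (sg m * τ)) + KP m * I) := by
  unfold XJ
  rw [sg_b h0 h1]
  fin_cases n
  · simp [vb]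
  · simp only [vb]
    have := Sn_add h0 h1 (-(I * (sg m * τ)) + KP m * I)
    simpa using this
lemma Y_b (n : Fin 2) (τ : ℝ) : YJ m ((((n : ℕ) : ℤ) : ℂ) / 2 + I * hJ m - I * τ) =
    vb m n * Cn m (-(I * (sg m * τ)) + KP m * I) := by
  unfold YJ
  rw [sg_b h0 h1]
  fin_cases n
  · simp [vb]
  · simp only [vb]
    have := Cn_add h0 h1 (-(I * (sg m * τ)) + KP m * I)
    simpa using this
lemma Z_b (n : Fin 2) (τ : ℝ) : ZJ m ((((n : ℕ) : ℤ) : ℂ) / 2 + I * hJ m - I * τ) =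
    Dn m (-(I * (sg m * τ)) + KP m * I) := by
  unfold ZJ
  rw [sg_b h0 h1]
  fin_cases n
  · simp
  · have := Dn_add h0 h1 (-(I * (sg m * τ)) + KP m * I)
    simpa using this

lemma small_mem : ∀ᶠ τ : ℝ in 𝓝[>] 0, 0 < τ ∧ τ < hJ m := by
  filter_upwards [Ioo_mem_nhdsGT (hJ_pos h0 h1)] with τ hτ using hτ

lemma Sn_lim' : Tendsto (fun τ : ℝ => (τ : ℂ) / Sn m (-(I * (sg m * τ)))) (𝓝[>] 0)
    (𝓝 (I / sg m)) := by
  have hs : (sg m : ℂ) ≠ 0 := by exact_mod_cast (sg_pos h0 h1).ne'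
  have h := (Sn_lim h0 h1).inv₀ (neg_ne_zero.2 (mul_ne_zero I_ne_zero hs))
  have e : (-(I * (sg m : ℂ)))⁻¹ = I / sg m := by
    rw [eq_div_iff hs, inv_mul_eq_div, div_eq_iff (neg_ne_zero.2 (mul_ne_zero I_ne_zero hs))]
    linear_combination (sg m : ℂ) * I_mul_I
  rw [e] at h
  refine h.congr fun τ => ?_
  rw [inv_div]

lemma X_lim (n : Fin 2) : Tendsto (fun τ : ℝ => (τ : ℂ) *
    XJ m ((((n : ℕ) : ℤ) : ℂ) / 2 + I * hJ m - I * τ)) (𝓝[>] 0)
    (𝓝 (vb m n * (I / (Real.sqrt m * sg m)))) := by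
  have hq := sqrt_ne h0 h1
  have hs : (sg m : ℂ) ≠ 0 := by exact_mod_cast (sg_pos h0 h1).ne'
  have h := ((Sn_lim' h0 h1).const_mul (vb m n / (Real.sqrt m : ℂ)))
  have e : vb m n / (Real.sqrt m : ℂ) * (I / sg m) = vb m n * (I / (Real.sqrt m * sg m)) := by
    field_simp
  rw [e] at h
  refine h.congr' ?_
  filter_upwards [small_mem h0 h1] with τ hτ
  obtain ⟨a, b⟩ := shift_ok h0 h1 hτ.1 hτ.2
  rw [X_b h0 h1, Sn_shift h0 h1 a b]
  have := Sn_ne_zero_of h0 h1 a b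
  field_simp

lemma Y_lim (n : Fin 2) : Tendsto (fun τ : ℝ => (τ : ℂ) *
    YJ m ((((n : ℕ) : ℤ) : ℂ) / 2 + I * hJ m - I * τ)) (𝓝[>] 0)
    (𝓝 (vb m n * (1 / (Real.sqrt m * sg m)))) := by
  have hq := sqrt_ne h0 h1
  have hs : (sg m : ℂ) ≠ 0 := by exact_mod_cast (sg_pos h0 h1).ne'
  have h := (((Sn_lim' h0 h1).mul (Dn_lim h0 h1)).const_mul (-I * vb m n / (Real.sqrt m : ℂ)))
  have e : -I * vb m n / (Real.sqrt m : ℂ) * (I / sg m * 1) =
      vb m n * (1 / (Real.sqrt m * sg m)) := by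
    field_simp
    linear_combination (-vb m n) * I_sq
  rw [e] at h
  refine h.congr' ?_
  filter_upwards [small_mem h0 h1] with τ hτ
  obtain ⟨a, b⟩ := shift_ok h0 h1 hτ.1 hτ.2
  rw [Y_b h0 h1, Cn_shift h0 h1 a b]
  have := Sn_ne_zero_of h0 h1 a b
  field_simp

lemma Z_lim (n : Fin 2) : Tendsto (fun τ : ℝ => (τ : ℂ) *
    ZJ m ((((n : ℕ) : ℤ) : ℂ) / 2 + I * hJ m - I * τ)) (𝓝[>] 0)
    (𝓝 (1 / sg m)) := by
  have hs : (sg m : ℂ) ≠ 0 := by exact_mod_cast (sg_pos h0 h1).ne'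
  have h := (((Sn_lim' h0 h1).mul (Cn_lim h0 h1)).const_mul (-I))
  have e : -I * (I / sg m * 1) = 1 / (sg m : ℂ) := by
    field_simp
    linear_combination (-1) * I_sq
  rw [e] at h
  refine h.congr' ?_
  filter_upwards [small_mem h0 h1] with τ hτ
  obtain ⟨a, b⟩ := shift_ok h0 h1 hτ.1 hτ.2
  rw [Z_b h0 h1, Dn_shift h0 h1 a b]
  have := Sn_ne_zero_of h0 h1 a b
  field_simp

/-- the leading coefficients of R_j -/
def LRJ (m : ℝ) (j : Fin 4) (n : Fin 2) : ℂ :=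
  (![-1 / (m * sg m ^ 2), I / (m * sg m ^ 2), vb m n * (I / (Real.sqrt m * sg m ^ 2)),
    vb m n * (1 / (Real.sqrt m * sg m ^ 2))] : Fin 4 → ℂ) j
def LAJ (m : ℝ) (j : Fin 4) (n : Fin 2) : ℂ := -(2 / (3 * m * sg m ^ 2)) * LRJ m j n
def LCJ (m : ℝ) (j : Fin 4) (n : Fin 2) : ℂ := (1 / (2 * m * sg m ^ 2)) * LRJ m j n

omit h0 h1 in
lemma vb_sq (m : ℝ) (n : Fin 2) : vb m n ^ 2 = 1 := by
  unfold vb; split <;> norm_num

lemma KR_lim (j : Fin 4) (n : Fin 2) : Tendsto (fun τ : ℝ => (τ : ℂ) ^ 2 *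
    KR m j ((((n : ℕ) : ℤ) : ℂ) / 2 + I * hJ m - I * τ)) (𝓝[>] 0) (𝓝 (LRJ m j n)) := by
  have hX := X_lim h0 h1 n
  have hY := Y_lim h0 h1 n
  have hZ := Z_lim h0 h1 n
  have hq := sqrt_ne h0 h1
  have hs : (sg m : ℂ) ≠ 0 := by exact_mod_cast (sg_pos h0 h1).ne'
  have hm : (m : ℂ) ≠ 0 := by exact_mod_cast h0.ne'
  have hq2 : ((Real.sqrt m : ℝ) : ℂ) ^ 2 = m := by exact_mod_cast Real.sq_sqrt h0.le
  have hv := vb_sq m n
  fin_cases j
  · have h := hX.mul hX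
    have e : vb m n * (I / (Real.sqrt m * sg m)) * (vb m n * (I / (Real.sqrt m * sg m))) =
        LRJ m 0 n := by
      simp only [LRJ, Matrix.cons_val_zero]
      rw [← hq2]
      field_simp
      linear_combination I ^ 2 * hv + I_sq
    rw [e] at h
    refine h.congr fun τ => ?_
    simp only [KR, Fin.zero_eta, Matrix.cons_val_zero]; ring
  · have h := hX.mul hY
    have e : vb m n * (I / (Real.sqrt m * sg m)) * (vb m n * (1 / (Real.sqrt m * sg m))) =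
        LRJ m 1 n := by
      simp only [LRJ, Matrix.cons_val_one, Matrix.cons_val_zero]
      rw [← hq2]
      field_simp
      linear_combination hv
    rw [e] at h
    refine h.congr fun τ => ?_
    simp only [KR, Fin.mk_one, Matrix.cons_val_one, Matrix.cons_val_zero]; ring
  · have h := hX.mul hZ
    have e3 : ∀ a b c d : ℂ, (![a, b, c, d] : Fin 4 → ℂ) ⟨2, by decide⟩ = c := fun _ _ _ _ => rfl
    have e4 : ∀ a b c d : ℂ → ℂ, (![a, b, c, d] : Fin 4 → ℂ → ℂ) ⟨2, by decide⟩ = c :=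
      fun _ _ _ _ => rfl
    have e : vb m n * (I / (Real.sqrt m * sg m)) * (1 / sg m) = LRJ m ⟨2, by decide⟩ n := by
      simp only [LRJ, e3]
      field_simp
    rw [e] at h
    refine h.congr fun τ => ?_
    simp only [KR, e4]; ring
  · have h := hY.mul hZ
    have e3 : ∀ a b c d : ℂ, (![a, b, c, d] : Fin 4 → ℂ) ⟨3, by decide⟩ = d := fun _ _ _ _ => rfl
    have e4 : ∀ a b c d : ℂ → ℂ, (![a, b, c, d] : Fin 4 → ℂ → ℂ) ⟨3, by decide⟩ = d :=
      fun _ _ _ _ => rfl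
    have e : vb m n * (1 / (Real.sqrt m * sg m)) * (1 / sg m) = LRJ m ⟨3, by decide⟩ n := by
      simp only [LRJ, e3]
      field_simp
    rw [e] at h
    refine h.congr fun τ => ?_
    simp only [KR, e4]; ring

lemma KC_lim (j : Fin 4) (n : Fin 2) : Tendsto (fun τ : ℝ => (τ : ℂ) ^ 4 *
    KC m j ((((n : ℕ) : ℤ) : ℂ) / 2 + I * hJ m - I * τ)) (𝓝[>] 0) (𝓝 (LCJ m j n)) := by
  have hX := X_lim h0 h1 n
  have hR := KR_lim h0 h1 j n
  have hq := sqrt_ne h0 h1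
  have hs : (sg m : ℂ) ≠ 0 := by exact_mod_cast (sg_pos h0 h1).ne'
  have hm : (m : ℂ) ≠ 0 := by exact_mod_cast h0.ne'
  have hq2 : ((Real.sqrt m : ℝ) : ℂ) ^ 2 = m := by exact_mod_cast Real.sq_sqrt h0.le
  have hv := vb_sq m n
  have h := ((hX.mul hX).mul hR).const_mul (-(1 / 2 : ℂ))
  have e : -(1 / 2 : ℂ) * (vb m n * (I / (Real.sqrt m * sg m)) *
      (vb m n * (I / (Real.sqrt m * sg m))) * LRJ m j n) = LCJ m j n := by
    unfold LCJ
    rw [← hq2]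
    field_simp
    linear_combination (-(LRJ m j n)) * (I ^ 2 * hv + I_sq)
  rw [e] at h
  refine h.congr fun τ => ?_
  simp only [KC]; ring

lemma tau_lim : Tendsto (fun τ : ℝ => (τ : ℂ)) (𝓝[>] 0) (𝓝 0) := by
  have : Continuous fun τ : ℝ => (τ : ℂ) := by fun_prop
  have h := this.tendsto 0
  simp only [ofReal_zero] at h
  exact h.mono_left nhdsWithin_le_nhds

lemma KA_lim (j : Fin 4) (n : Fin 2) : Tendsto (fun τ : ℝ => (τ : ℂ) ^ 6 *
    KA m j ((((n : ℕ) : ℤ) : ℂ) / 2 + I * hJ m - I * τ)) (𝓝[>] 0) (𝓝 (LAJ m j n)) := by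
  have hX := X_lim h0 h1 n
  have hY := Y_lim h0 h1 n
  have hZ := Z_lim h0 h1 n
  have ht := tau_lim h0 h1
  have hq := sqrt_ne h0 h1
  have hs : (sg m : ℂ) ≠ 0 := by exact_mod_cast (sg_pos h0 h1).ne'
  have hm : (m : ℂ) ≠ 0 := by exact_mod_cast h0.ne'
  have hq2 : ((Real.sqrt m : ℝ) : ℂ) ^ 2 = m := by exact_mod_cast Real.sq_sqrt h0.le
  have hv := vb_sq m n
  have hI : I ^ 2 = -1 := I_sq
  fin_cases j
  · have h := ((((hZ.pow 6).const_mul (2 / (3 * (m:ℂ) ^ 2))).sub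
      (((ht.pow 2).mul (hZ.pow 4)).const_mul ((2 / (m:ℂ) - 1) / (2 * m)))).const_mul
        ((sg m : ℂ) ^ 2))
    have e : (sg m : ℂ) ^ 2 * (2 / (3 * (m:ℂ) ^ 2) * (1 / (sg m : ℂ)) ^ 6 -
        (2 / (m:ℂ) - 1) / (2 * m) * (0 ^ 2 * (1 / (sg m : ℂ)) ^ 4)) = LAJ m 0 n := by
      simp only [LAJ, LRJ, Matrix.cons_val_zero]
      field_simp
      ring
    rw [e] at h
    refine h.congr fun τ => ?_
    simp only [KA, Fin.zero_eta, Matrix.cons_val_zero]; ring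
  · have h := (((hX.mul hY).mul ((((hZ.pow 4).const_mul (-(2 / (3 * (m:ℂ))))).add
      (((ht.pow 2).mul (hZ.pow 2)).const_mul ((2 - (m:ℂ)) / (6 * m)))).add
        ((ht.pow 4).mul_const ((1 - (m:ℂ)) / (3 * m))))).const_mul ((sg m : ℂ) ^ 2))
    have e : (sg m : ℂ) ^ 2 * (vb m n * (I / (Real.sqrt m * sg m)) *
        (vb m n * (1 / (Real.sqrt m * sg m))) * (-(2 / (3 * (m:ℂ))) * (1 / (sg m : ℂ)) ^ 4 +
        (2 - (m:ℂ)) / (6 * m) * (0 ^ 2 * (1 / (sg m : ℂ)) ^ 2) + 0 ^ 4 * ((1 - (m:ℂ)) / (3 * m)))) =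
        LAJ m 1 n := by
      simp only [LAJ, LRJ, Matrix.cons_val_one, Matrix.cons_val_zero]
      rw [← hq2]
      generalize ((Real.sqrt m : ℝ) : ℂ) = q at *
      generalize vb m n = v at *
      field_simp
      grind
    rw [e] at h
    refine h.congr fun τ => ?_
    simp only [KA, Fin.mk_one, Matrix.cons_val_one, Matrix.cons_val_zero]; ring
  · have h := (((hX.mul hZ).mul ((((hX.pow 4).const_mul (-(2 / 3 * (m:ℂ)))).add
      (((ht.pow 2).mul (hX.pow 2)).const_mul ((4 + 3 * (m:ℂ)) / 6))).sub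
        ((ht.pow 4).mul_const (1 / 2 : ℂ)))).const_mul ((sg m : ℂ) ^ 2))
    have e3 : ∀ a b c d : ℂ, (![a, b, c, d] : Fin 4 → ℂ) ⟨2, by decide⟩ = c := fun _ _ _ _ => rfl
    have e4 : ∀ a b c d : ℂ → ℂ, (![a, b, c, d] : Fin 4 → ℂ → ℂ) ⟨2, by decide⟩ = c :=
      fun _ _ _ _ => rfl
    have e : (sg m : ℂ) ^ 2 * (vb m n * (I / (Real.sqrt m * sg m)) * (1 / sg m) *
        (-(2 / 3 * (m:ℂ)) * (vb m n * (I / (Real.sqrt m * sg m))) ^ 4 +
        (4 + 3 * (m:ℂ)) / 6 * (0 ^ 2 * (vb m n * (I / (Real.sqrt m * sg m))) ^ 2) -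
        0 ^ 4 * (1 / 2 : ℂ))) = LAJ m ⟨2, by decide⟩ n := by
      simp only [LAJ, LRJ, e3]
      rw [← hq2]
      generalize ((Real.sqrt m : ℝ) : ℂ) = q at *
      generalize vb m n = v at *
      field_simp
      grind
    rw [e] at h
    refine h.congr fun τ => ?_
    simp only [KA, e4]; ring
  · have h := (((hY.mul hZ).mul ((((hY.pow 4).const_mul (-(2 / 3 * (m:ℂ)))).sub
      (((ht.pow 2).mul (hY.pow 2)).const_mul ((4 * (1 - (m:ℂ)) - 3 * m) / 6))).add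
        ((ht.pow 4).mul_const ((1 - (m:ℂ)) / 2)))).const_mul ((sg m : ℂ) ^ 2))
    have e3 : ∀ a b c d : ℂ, (![a, b, c, d] : Fin 4 → ℂ) ⟨3, by decide⟩ = d := fun _ _ _ _ => rfl
    have e4 : ∀ a b c d : ℂ → ℂ, (![a, b, c, d] : Fin 4 → ℂ → ℂ) ⟨3, by decide⟩ = d :=
      fun _ _ _ _ => rfl
    have e : (sg m : ℂ) ^ 2 * (vb m n * (1 / (Real.sqrt m * sg m)) * (1 / sg m) *
        (-(2 / 3 * (m:ℂ)) * (vb m n * (1 / (Real.sqrt m * sg m))) ^ 4 -
        (4 * (1 - (m:ℂ)) - 3 * m) / 6 * (0 ^ 2 * (vb m n * (1 / (Real.sqrt m * sg m))) ^ 2) +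
        0 ^ 4 * ((1 - (m:ℂ)) / 2))) = LAJ m ⟨3, by decide⟩ n := by
      simp only [LAJ, LRJ, e3]
      rw [← hq2]
      generalize ((Real.sqrt m : ℝ) : ℂ) = q at *
      generalize vb m n = v at *
      field_simp
      grind
    rw [e] at h
    refine h.congr fun τ => ?_
    simp only [KA, e4]; ring

/-! ### spans -/

lemma span_R (z : Fin 2 → ℂ) : ∃ a : Fin 4 → ℝ, ∀ n, ∑ j, (a j : ℂ) * LRJ m j n = z n := by
  have hq := sqrt_ne h0 h1
  have hs : (sg m : ℂ) ≠ 0 := by exact_mod_cast (sg_pos h0 h1).ne'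
  have hm : (m : ℂ) ≠ 0 := by exact_mod_cast h0.ne'
  -- real and imaginary parts of the half sum and the half difference
  set p : ℂ := (m * sg m ^ 2) * ((z 0 + z 1) / 2) with hp
  set r : ℂ := (Real.sqrt m * sg m ^ 2) * ((z 0 - z 1) / 2) with hr
  refine ⟨![-p.re, p.im, r.im, r.re], fun n => ?_⟩
  have e2 : ∀ a b c d : ℂ, (![a, b, c, d] : Fin 4 → ℂ) 2 = c := fun _ _ _ _ => rfl
  have e3 : ∀ a b c d : ℂ, (![a, b, c, d] : Fin 4 → ℂ) 3 = d := fun _ _ _ _ => rfl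
  have f2 : ∀ a b c d : ℝ, (![a, b, c, d] : Fin 4 → ℝ) 2 = c := fun _ _ _ _ => rfl
  have f3 : ∀ a b c d : ℝ, (![a, b, c, d] : Fin 4 → ℝ) 3 = d := fun _ _ _ _ => rfl
  have hpz : p / (m * sg m ^ 2) = (z 0 + z 1) / 2 := by rw [hp]; field_simp
  have hrz : r / (Real.sqrt m * sg m ^ 2) = (z 0 - z 1) / 2 := by rw [hr]; field_simp
  have hsum : ∑ j, (((![-p.re, p.im, r.im, r.re] : Fin 4 → ℝ) j : ℝ) : ℂ) * LRJ m j n =
      (p.re + p.im * I) / (m * sg m ^ 2) +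
        vb m n * ((r.re + r.im * I) / (Real.sqrt m * sg m ^ 2)) := by
    simp only [Fin.sum_univ_four, LRJ, Matrix.cons_val_zero, Matrix.cons_val_one, e2, e3, f2, f3]
    push_cast
    field_simp
    ring
  rw [hsum, re_add_im, re_add_im, hpz, hrz]
  fin_cases n
  · simp only [vb]; simp; ring
  · simp only [vb]; simp; ring

lemma inj_R (c : Fin 4 → ℝ) (h : ∀ n, ∑ j, (c j : ℂ) * LRJ m j n = 0) : c = 0 := by
  have hq := sqrt_ne h0 h1
  have hs : (sg m : ℂ) ≠ 0 := by exact_mod_cast (sg_pos h0 h1).ne'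
  have hm : (m : ℂ) ≠ 0 := by exact_mod_cast h0.ne'
  have e2 : ∀ a b c d : ℂ, (![a, b, c, d] : Fin 4 → ℂ) 2 = c := fun _ _ _ _ => rfl
  have e3 : ∀ a b c d : ℂ, (![a, b, c, d] : Fin 4 → ℂ) 3 = d := fun _ _ _ _ => rfl
  have hsum : ∀ n, ∑ j, (c j : ℂ) * LRJ m j n =
      (-(c 0 : ℂ) + c 1 * I) / (m * sg m ^ 2) +
        vb m n * ((c 3 + c 2 * I) / (Real.sqrt m * sg m ^ 2)) := by
    intro n
    simp only [Fin.sum_univ_four, LRJ, Matrix.cons_val_zero, Matrix.cons_val_one, e2, e3]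
    field_simp
    ring
  have k0 := h 0
  have k1 := h 1
  rw [hsum] at k0 k1
  simp only [vb, if_true, one_mul] at k0
  simp only [vb, one_ne_zero, if_false] at k1
  have a1 : (-(c 0 : ℂ) + c 1 * I) / (m * sg m ^ 2) = 0 := by linear_combination (k0 + k1) / 2
  have a2 : ((c 3 : ℂ) + c 2 * I) / (Real.sqrt m * sg m ^ 2) = 0 := by
    linear_combination (k0 - k1) / 2
  have b1 : (-(c 0 : ℂ) + c 1 * I) = 0 := by
    rcases div_eq_zero_iff.1 a1 with h | h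
    · exact h
    · exact absurd h (mul_ne_zero hm (pow_ne_zero 2 hs))
  have b2 : ((c 3 : ℂ) + c 2 * I) = 0 := by
    rcases div_eq_zero_iff.1 a2 with h | h
    · exact h
    · exact absurd h (mul_ne_zero hq (pow_ne_zero 2 hs))
  have r1 := congrArg Complex.re b1
  have i1 := congrArg Complex.im b1
  have r2 := congrArg Complex.re b2
  have i2 := congrArg Complex.im b2
  simp at r1 i1 r2 i2
  funext j
  fin_cases j
  · simpa using r1
  · simpa using i1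
  · simpa using i2
  · simpa using r2

lemma span_A (z : Fin 2 → ℂ) : ∃ a : Fin 4 → ℝ, ∀ n, ∑ j, (a j : ℂ) * LAJ m j n = z n := by
  have hs : (sg m : ℂ) ≠ 0 := by exact_mod_cast (sg_pos h0 h1).ne'
  have hm : (m : ℂ) ≠ 0 := by exact_mod_cast h0.ne'
  have hc : (-(2 / (3 * (m:ℂ) * sg m ^ 2))) ≠ 0 := by
    refine neg_ne_zero.2 (div_ne_zero two_ne_zero ?_)
    exact mul_ne_zero (mul_ne_zero (by norm_num) hm) (pow_ne_zero 2 hs)
  obtain ⟨a, ha⟩ := span_R h0 h1 (fun n => z n / (-(2 / (3 * (m:ℂ) * sg m ^ 2))))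
  refine ⟨a, fun n => ?_⟩
  have h := ha n
  rw [eq_div_iff hc, Finset.sum_mul] at h
  rw [← h]
  refine Finset.sum_congr rfl fun j _ => ?_
  simp only [LAJ]; ring

lemma inj_C (c : Fin 4 → ℝ) (h : ∀ n, ∑ j, (c j : ℂ) * LCJ m j n = 0) : c = 0 := by
  have hs : (sg m : ℂ) ≠ 0 := by exact_mod_cast (sg_pos h0 h1).ne'
  have hm : (m : ℂ) ≠ 0 := by exact_mod_cast h0.ne'
  have hc : (1 / (2 * (m:ℂ) * sg m ^ 2)) ≠ 0 := by
    refine div_ne_zero one_ne_zero ?_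
    exact mul_ne_zero (mul_ne_zero (by norm_num) hm) (pow_ne_zero 2 hs)
  refine inj_R h0 h1 c fun n => ?_
  have h2 : ∑ j, (c j : ℂ) * LCJ m j n = (1 / (2 * (m:ℂ) * sg m ^ 2)) *
      ∑ j, (c j : ℂ) * LRJ m j n := by
    rw [Finset.mul_sum]
    refine Finset.sum_congr rfl fun j _ => ?_
    simp only [LCJ]; ring
  have h3 := h n
  rw [h2] at h3
  exact (mul_eq_zero.1 h3).resolve_left hc

end

end

end Pool.Agent.MP_ae5b4e_an_LOC
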