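import Mathlib

/-!
Background block of LOC: definitions.  `GD` is the function g = dn^2(4K x) with its two lines of
double poles n/2 +- ih, `cE` and `phE` are the normalising constant and the time map with
parameter eps, `LD` is the local block at a base point.
-/

set_option autoImplicit false

namespace Pool.Agent.MP_ae5b4e_an_LOC

open Set Metric Complex ComplexConjugate

noncomputable section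

/-- a half-periodic meromorphic function with double poles at `n/2 ± ih` -/
structure GD where
  g : ℂ → ℂ
  h : ℝ
  C : ℝ
  h_pos : 0 < h
  one_le_C : 1 ≤ C
  g_an : ∀ x : ℂ, |x.im| < 2 * h → (∀ n : ℤ, x ≠ n / 2 + I * h ∧ x ≠ n / 2 - I * h) →
    AnalyticAt ℂ g x
  g_half : ∀ x, g (x + 1 / 2) = g x
  g_neg : ∀ x, g (-x) = g x
  g_conj : ∀ x, g (conj x) = conj (g x)
  g_bd : ∀ (x : ℂ) (d : ℝ), |x.im| < 2 * h → 0 < d →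
    (∀ n : ℤ, d ≤ ‖x - (n / 2 + I * h)‖ ∧ d ≤ ‖x - (n / 2 - I * h)‖) → ‖g x‖ ≤ C / d ^ 2
  g_real : ∀ x : ℝ, (g x).im = 0 ∧ 0 ≤ (g x).re ∧ (g x).re ≤ 1

/-- `(1 - w)^(-1/2)`, principal branch -/
def rt (w : ℂ) : ℂ := (1 - w) ^ (-(1 / 2) : ℂ)

/-- the normalising constant -/
def cE (G : GD) (ε : ℂ) : ℂ := ∫ t in (0 : ℝ)..1, rt (ε * G.g t)

/-- the time map: horizontal segment, then vertical segment -/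
def phE (G : GD) (ε x : ℂ) : ℂ :=
  (cE G ε)⁻¹ * ((∫ t in (0 : ℝ)..x.re, rt (ε * G.g t)) +
    I * ∫ y in (0 : ℝ)..x.im, rt (ε * G.g (x.re + I * y)))

/-- what the file Tim proves about the time map (parameter eta, eps = eta^2) -/
structure TD (G : GD) where
  r0 : ℝ
  K0 : ℝ
  r0_pos : 0 < r0
  one_le_K0 : 1 ≤ K0
  /-- so that the strip is not empty -/
  K0_r0 : K0 * r0 ≤ G.h
  c_an : ∀ ε : ℂ, ‖ε‖ < r0 ^ 2 → AnalyticAt ℂ (cE G) ε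
  c_zero : cE G 0 = 1
  c_conj : ∀ ε : ℂ, ‖ε‖ < r0 ^ 2 → cE G (conj ε) = conj (cE G ε)
  c_close : ∀ ε : ℂ, ‖ε‖ < r0 ^ 2 → ‖cE G ε - 1‖ ≤ K0 * ‖ε‖ ∧ 1 / 2 ≤ ‖cE G ε‖
  ph_an : ∀ η x : ℂ, ‖η‖ < r0 → |x.im| < G.h - K0 * ‖η‖ →
    AnalyticAt ℂ (fun p : ℂ × ℂ => phE G (p.1 ^ 2) p.2) (η, x)
  ph_deriv : ∀ η x : ℂ, ‖η‖ < r0 → |x.im| < G.h - K0 * ‖η‖ →
    HasDerivAt (phE G (η ^ 2)) (rt (η ^ 2 * G.g x) / cE G (η ^ 2)) x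
  ph_half : ∀ η x : ℂ, ‖η‖ < r0 → |x.im| < G.h - K0 * ‖η‖ →
    phE G (η ^ 2) (x + 1 / 2) = phE G (η ^ 2) x + 1 / 2
  ph_conj : ∀ η x : ℂ, ‖η‖ < r0 → |x.im| < G.h - K0 * ‖η‖ →
    phE G (conj (η ^ 2)) (conj x) = conj (phE G (η ^ 2) x)
  ph_zero : ∀ x : ℂ, |x.im| < G.h → phE G 0 x = x
  ph_close : ∀ η x : ℂ, ‖η‖ < r0 → |x.im| < G.h - K0 * ‖η‖ → ‖phE G (η ^ 2) x - x‖ ≤ K0 * ‖η‖
  ph_der : ∀ η x : ℂ, ‖η‖ < r0 → |x.im| < G.h - K0 * ‖η‖ →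
    ‖rt (η ^ 2 * G.g x) / cE G (η ^ 2) - 1‖ ≤ 1 / 2
  /-- `|eps g| <= 1/2` on the domain: all branches are principal -/
  small : ∀ η x : ℂ, ‖η‖ < r0 → |x.im| < G.h - K0 * ‖η‖ → ‖η ^ 2 * G.g x‖ ≤ 1 / 2
  near : ∀ (x0 : ℂ) (d : ℝ), 0 ≤ x0.im → x0.im ≤ G.h → 0 < d → d ≤ G.h → d ≤ 1 / 8 →
    (∀ n : ℤ, d ≤ ‖x0 - (n / 2 + I * G.h)‖) →
    ∃ psi : ℂ → ℂ → ℂ,
      AnalyticOnNhd ℂ (fun p : ℂ × ℂ => psi p.1 p.2) (ball 0 (d / K0) ×ˢ ball x0 (d / 2)) ∧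
      (∀ η ∈ ball (0 : ℂ) (d / K0), ∀ x ∈ ball x0 (d / 2), ‖psi η x - x‖ ≤ K0 * ‖η‖ ^ 2 / d) ∧
      (∀ η ∈ ball (0 : ℂ) (d / K0), ∀ x ∈ ball x0 (d / 2), |x.im| < G.h - K0 * ‖η‖ →
        psi η x = phE G (η ^ 2) x)

/-- the square root in the local equation, principal branch -/
def sq2 (m1 : ℝ) (ε w : ℂ) : ℂ :=
  ((1 - ε + w ^ 2) * (1 - m1 * ε + m1 * w ^ 2)) ^ ((1 / 2) : ℂ)

/-- the local block at a base point: `J om` = time as a function of `s`, `s om` its inverse,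
`eta om ^ 2 = eps` -/
structure LD (σ m1 : ℝ) (c : ℂ → ℂ) where
  r : ℝ
  rho : ℝ
  K : ℝ
  r_pos : 0 < r
  rho_pos : 0 < rho
  one_le_K : 1 ≤ K
  r_le : r ≤ rho
  eta : ℂ → ℂ
  s : ℂ → ℂ → ℂ
  J : ℂ → ℂ → ℂ
  eta_an : AnalyticOnNhd ℂ eta (ball 0 r)
  eta_odd : ∀ om ∈ ball (0 : ℂ) r, eta (-om) = -eta om
  eta_conj : ∀ om ∈ ball (0 : ℂ) r, eta (conj om) = conj (eta om)
  eta_close : ∀ om ∈ ball (0 : ℂ) r, ‖eta om - σ / 2 * om‖ ≤ σ / 8 * ‖om‖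
  eta_half : ∀ om ∈ ball (0 : ℂ) r, s om (om / 2) = eta om
  s_an : AnalyticOnNhd ℂ (fun p : ℂ × ℂ => s p.1 p.2) (ball 0 r ×ˢ ball 0 rho)
  s_odd : ∀ om ∈ ball (0 : ℂ) r, ∀ z ∈ ball (0 : ℂ) rho, s om (-z) = -s om z
  s_even : ∀ om ∈ ball (0 : ℂ) r, ∀ z ∈ ball (0 : ℂ) rho, s (-om) z = s om z
  s_conj : ∀ om ∈ ball (0 : ℂ) r, ∀ z ∈ ball (0 : ℂ) rho, s (conj om) (conj z) = conj (s om z)
  s_inj : ∀ om ∈ ball (0 : ℂ) r, InjOn (s om) (ball 0 rho)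
  s_close : ∀ om ∈ ball (0 : ℂ) r, ∀ z ∈ ball (0 : ℂ) rho,
    ‖s om z - σ * z‖ ≤ K * ‖z‖ * (‖om‖ + ‖z‖) ^ 2
  /-- radius for `J` -/
  rho1 : ℝ
  rho1_pos : 0 < rho1
  J_an : AnalyticOnNhd ℂ (fun p : ℂ × ℂ => J p.1 p.2) (ball 0 r ×ˢ ball 0 rho1)
  J_zero : ∀ om ∈ ball (0 : ℂ) r, J om 0 = 0
  J_odd : ∀ om ∈ ball (0 : ℂ) r, ∀ w ∈ ball (0 : ℂ) rho1, J om (-w) = -J om w
  J_even : ∀ om ∈ ball (0 : ℂ) r, ∀ w ∈ ball (0 : ℂ) rho1, J (-om) w = J om w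
  J_conj : ∀ om ∈ ball (0 : ℂ) r, ∀ w ∈ ball (0 : ℂ) rho1, J (conj om) (conj w) = conj (J om w)
  J_deriv : ∀ om ∈ ball (0 : ℂ) r, ∀ w ∈ ball (0 : ℂ) rho1,
    HasDerivAt (J om) (1 / (σ * c (eta om ^ 2) * sq2 m1 (eta om ^ 2) w)) w
  J_mem : ∀ om ∈ ball (0 : ℂ) r, ∀ w ∈ ball (0 : ℂ) rho1, J om w ∈ ball (0 : ℂ) rho
  s_J : ∀ om ∈ ball (0 : ℂ) r, ∀ w ∈ ball (0 : ℂ) rho1, s om (J om w) = w

end

end Pool.Agent.MP_ae5b4e_an_LOC
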