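import Pool.Agent.Lib.MP_ae5b4e_an_LOC.JacP
import Pool.Agent.Lib.MP_ae5b4e_an_LOC.GD

/-!
The Jacobi instance of `GD`: g x = dn^2 (4 K x), double poles at n/2 +- i h, h = K'/(4K).
-/

set_option autoImplicit false

namespace Pool.Agent.MP_ae5b4e_an_LOC

open Complex Set Filter Topology ComplexConjugate

noncomputable section

variable {m : ℝ}

/-! ### lower bounds for sn and cn -/

lemma dn_lower (h0 : 0 ≤ m) (u : ℝ) : Real.sqrt (1 - m) ≤ dn m u := by
  refine Real.sqrt_le_sqrt ?_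
  unfold rad
  nlinarith [Real.sin_sq_le_one (am m u)]

lemma am_sub_mono (h0 : 0 ≤ m) (h1 : m < 1) : Monotone fun u => am m u - Real.sqrt (1 - m) * u := by
  have hd : ∀ u, HasDerivAt (fun u => am m u - Real.sqrt (1 - m) * u) (dn m u - Real.sqrt (1 - m)) u := by
    intro u
    have h2 : HasDerivAt (fun u => am m u - Real.sqrt (1 - m) * u)
      (dn m u - Real.sqrt (1 - m) * 1) u :=
      (am_hasDerivAt h0 h1 u).sub ((hasDerivAt_id u).const_mul (Real.sqrt (1 - m)))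
    simpa using h2
  refine monotone_of_deriv_nonneg (fun u => (hd u).differentiableAt) fun u => ?_
  rw [(hd u).deriv]
  linarith [dn_lower h0 u]

lemma am_le_half (h0 : 0 ≤ m) (h1 : m < 1) {u : ℝ} (hu : u ≤ KK m) : am m u ≤ Real.pi / 2 := by
  rw [← am_KK h0 h1]
  exact (am_strictMono h0 h1).monotone hu

lemma am_nonneg (h0 : 0 ≤ m) (h1 : m < 1) {u : ℝ} (hu : 0 ≤ u) : 0 ≤ am m u := by
  rw [← am_zero h0 h1]
  exact (am_strictMono h0 h1).monotone hu

lemma sn_lower0 (h0 : 0 ≤ m) (h1 : m < 1) {u : ℝ} (hu : 0 ≤ u) (hu' : u ≤ KK m) :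
    2 / Real.pi * Real.sqrt (1 - m) * u ≤ sn m u := by
  have a := Real.mul_le_sin (am_nonneg h0 h1 hu) (am_le_half h0 h1 hu')
  have b := am_sub_mono h0 h1 hu
  simp only [am_zero h0 h1, mul_zero, sub_zero] at b
  have c : 0 < 2 / Real.pi := by positivity
  calc 2 / Real.pi * Real.sqrt (1 - m) * u = 2 / Real.pi * (Real.sqrt (1 - m) * u) := by ring
    _ ≤ 2 / Real.pi * am m u := by gcongr; linarith
    _ ≤ _ := a

lemma cn_lower0 (h0 : 0 ≤ m) (h1 : m < 1) {u : ℝ} (hu : 0 ≤ u) (hu' : u ≤ KK m) :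
    2 / Real.pi * Real.sqrt (1 - m) * (KK m - u) ≤ cn m u := by
  have a := Real.mul_le_sin (x := Real.pi / 2 - am m u) (by linarith [am_le_half h0 h1 hu'])
    (by linarith [am_nonneg h0 h1 hu])
  rw [Real.sin_pi_div_two_sub] at a
  have b := am_sub_mono h0 h1 hu'
  simp only [am_KK h0 h1] at b
  have c : 0 < 2 / Real.pi := by positivity
  calc 2 / Real.pi * Real.sqrt (1 - m) * (KK m - u)
      = 2 / Real.pi * (Real.sqrt (1 - m) * KK m - Real.sqrt (1 - m) * u) := by ring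
    _ ≤ 2 / Real.pi * (Real.pi / 2 - am m u) := mul_le_mul_of_nonneg_left (by linarith) c.le
    _ ≤ _ := a

lemma sn_abs_shift (h0 : 0 ≤ m) (h1 : m < 1) (u : ℝ) (n : ℤ) :
    |sn m (u + n * (2 * KK m))| = |sn m u| := by
  simp only [sn]
  rw [am_int h0 h1, Real.sin_add_int_mul_pi, abs_mul, abs_zpow, abs_neg, abs_one, one_zpow, one_mul]

lemma sn_lower (h0 : 0 ≤ m) (h1 : m < 1) (u : ℝ) (n : ℤ) (hn : |u - n * (2 * KK m)| ≤ KK m) :
    2 / Real.pi * Real.sqrt (1 - m) * |u - n * (2 * KK m)| ≤ |sn m u| := by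
  have h := sn_abs_shift h0 h1 (u - n * (2 * KK m)) n
  rw [sub_add_cancel] at h
  rw [h]
  set w := u - n * (2 * KK m)
  rcases le_total 0 w with hw | hw
  · rw [abs_of_nonneg hw] at hn ⊢
    exact (sn_lower0 h0 h1 hw hn).trans (le_abs_self _)
  · rw [abs_of_nonpos hw] at hn ⊢
    have := sn_lower0 h0 h1 (u := -w) (by linarith) hn
    rw [sn_neg h0 h1] at this
    exact this.trans (neg_le_abs _)

lemma cn_lower (h0 : 0 ≤ m) (h1 : m < 1) (u : ℝ) (hu : |u| ≤ 2 * KK m) :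
    2 / Real.pi * Real.sqrt (1 - m) * |(|u| - KK m)| ≤ |cn m u| := by
  have e : cn m u = cn m |u| := by
    rcases abs_choice u with h | h
    · rw [h]
    · rw [h, cn_neg h0 h1]
  rw [e]
  set w := |u|
  have hw : 0 ≤ w := abs_nonneg u
  rcases le_total w (KK m) with h | h
  · rw [abs_of_nonpos (by linarith : w - KK m ≤ 0)]
    have := cn_lower0 h0 h1 hw h
    rw [neg_sub]
    exact this.trans (le_abs_self _)
  · rw [abs_of_nonneg (by linarith : 0 ≤ w - KK m)]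
    have h3 := cn_add h0 h1 (-w)
    rw [cn_neg h0 h1] at h3
    have h4 := cn_lower0 h0 h1 (u := -w + 2 * KK m) (by linarith) (by linarith)
    rw [h3] at h4
    have h5 : KK m - (-w + 2 * KK m) = w - KK m := by ring
    rw [h5] at h4
    exact h4.trans (neg_le_abs _)

section alg2

variable {M s c d s1 c1 d1 : ℝ} (e1 : s ^ 2 + c ^ 2 = 1) (e2 : d ^ 2 + M * s ^ 2 = 1)
  (e3 : s1 ^ 2 + c1 ^ 2 = 1) (e4 : d1 ^ 2 + (1 - M) * s1 ^ 2 = 1)

include e1 e2 e3 e4

lemma alg_nd : (d * (c1 * d1)) ^ 2 + (M * (s * c) * s1) ^ 2 =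
    (d1 ^ 2 - M * s ^ 2) * (c1 ^ 2 + M * s ^ 2 * s1 ^ 2) := by
  grind

end alg2

section

variable (h0 : 0 < m) (h1 : m < 1)

/-- real form of the denominator -/
def JDr (m : ℝ) (z : ℂ) : ℝ := cn (1 - m) z.im ^ 2 + m * sn m z.re ^ 2 * sn (1 - m) z.im ^ 2

include h0 h1

lemma Dn_normSq (z : ℂ) (hz : JD m z ≠ 0) :
    ‖Dn m z‖ ^ 2 = (dn (1 - m) z.im ^ 2 - m * sn m z.re ^ 2) / JDr m z := by
  have hJ : JD m z = (JDr m z : ℂ) := JD_real z
  have hJ0 : JDr m z ≠ 0 := by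
    intro h; rw [hJ, h] at hz; simp at hz
  have hre : (ND m z).re = dn m z.re * (cn (1 - m) z.im * dn (1 - m) z.im) := by simp [ND]
  have him : (ND m z).im = -(m * (sn m z.re * cn m z.re) * sn (1 - m) z.im) := by simp [ND]
  have hn : ‖ND m z‖ ^ 2 = (dn m z.re * (cn (1 - m) z.im * dn (1 - m) z.im)) ^ 2 +
      (m * (sn m z.re * cn m z.re) * sn (1 - m) z.im) ^ 2 := by
    rw [Complex.sq_norm, Complex.normSq_apply, hre, him]; ring
  have ha := alg_nd (sn_sq_add m z.re) (dn_sq h0.le h1 z.re) (sn_sq_add (1 - m) z.im)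
    (dn_sq (m := 1 - m) (by linarith) (by linarith) z.im)
  rw [Dn, norm_div, div_pow, hn, ha, hJ, norm_real, Real.norm_eq_abs, sq_abs]
  change _ * JDr m z / _ = _
  field_simp

lemma JDr_lower (z : ℂ) (n : ℤ) (hn : |z.re - n * (2 * KK m)| ≤ KK m) (hz : |z.im| ≤ 2 * KP m) :
    2 / Real.pi ^ 2 * (m * (1 - m)) * ((z.re - n * (2 * KK m)) ^ 2 + (|z.im| - KP m) ^ 2) ≤
      JDr m z := by
  have a1 := sn_lower h0.le h1 z.re n hn
  have a2 := cn_lower (m := 1 - m) (by linarith) (by linarith) z.im hz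
  rw [show (1:ℝ) - (1 - m) = m by ring] at a2
  have b1 : (2 / Real.pi * Real.sqrt (1 - m) * |z.re - n * (2 * KK m)|) ^ 2 ≤ sn m z.re ^ 2 := by
    rw [← sq_abs (sn m z.re)]
    exact pow_le_pow_left₀ (by positivity) a1 2
  have b2 : (2 / Real.pi * Real.sqrt m * |(|z.im| - KK (1 - m))|) ^ 2 ≤ cn (1 - m) z.im ^ 2 := by
    rw [← sq_abs (cn (1 - m) z.im)]
    exact pow_le_pow_left₀ (by positivity) a2 2
  rw [mul_pow, mul_pow, sq_abs, Real.sq_sqrt (by linarith)] at b1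
  rw [mul_pow, mul_pow, sq_abs, Real.sq_sqrt (by linarith)] at b2
  have c1 : m * sn m z.re ^ 2 ≤ JDr m z := by
    have e := sn_sq_add (1 - m) z.im
    have f : m * sn m z.re ^ 2 ≤ 1 := by
      have := dn_sq h0.le h1 z.re
      nlinarith [sq_nonneg (dn m z.re)]
    unfold JDr
    nlinarith [sq_nonneg (cn (1 - m) z.im), sq_nonneg (sn (1 - m) z.im)]
  have c2 : cn (1 - m) z.im ^ 2 ≤ JDr m z := by
    unfold JDr
    have : 0 ≤ m * sn m z.re ^ 2 * sn (1 - m) z.im ^ 2 := by positivity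
    linarith
  have hp : 0 < (2 / Real.pi) ^ 2 := by positivity
  have e1 : (2 / Real.pi) ^ 2 * (m * (1 - m)) * (z.re - n * (2 * KK m)) ^ 2 ≤ JDr m z := by
    calc _ = m * ((2 / Real.pi) ^ 2 * (1 - m) * (z.re - n * (2 * KK m)) ^ 2) := by ring
      _ ≤ m * sn m z.re ^ 2 := by gcongr
      _ ≤ _ := c1
  have e2 : (2 / Real.pi) ^ 2 * (m * (1 - m)) * (|z.im| - KP m) ^ 2 ≤ JDr m z := by
    calc _ = (1 - m) * ((2 / Real.pi) ^ 2 * m * (|z.im| - KP m) ^ 2) := by ring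
      _ ≤ (1 - m) * cn (1 - m) z.im ^ 2 := mul_le_mul_of_nonneg_left b2 (by linarith)
      _ ≤ cn (1 - m) z.im ^ 2 := by nlinarith [sq_nonneg (cn (1 - m) z.im)]
      _ ≤ _ := c2
  have e3 : 2 / Real.pi ^ 2 = (2 / Real.pi) ^ 2 / 2 := by ring
  rw [e3]
  nlinarith

lemma JD_open : IsOpen {z : ℂ | JD m z ≠ 0} := by
  have : Continuous (JD m) := by
    have c1 : Continuous (sn m) := continuous_iff_continuousAt.2 fun u =>
      (sn_hasDerivAt h0.le h1 u).continuousAt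
    have c2 : Continuous (sn (1 - m)) := continuous_iff_continuousAt.2 fun u =>
      (sn_hasDerivAt (by linarith) (by linarith) u).continuousAt
    have c3 : Continuous (cn (1 - m)) := continuous_iff_continuousAt.2 fun u =>
      (cn_hasDerivAt (by linarith) (by linarith) u).continuousAt
    unfold JD
    fun_prop
  exact isOpen_ne.preimage this

lemma Sn_an {z : ℂ} (hz : JD m z ≠ 0) : AnalyticAt ℂ (Sn m) z := by
  have : DifferentiableOn ℂ (Sn m) {z : ℂ | JD m z ≠ 0} := fun w hw =>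
    (Sn_hasDerivAt h0 h1 hw).differentiableAt.differentiableWithinAt
  exact this.analyticAt ((JD_open h0 h1).mem_nhds hz)

lemma Cn_an {z : ℂ} (hz : JD m z ≠ 0) : AnalyticAt ℂ (Cn m) z := by
  have : DifferentiableOn ℂ (Cn m) {z : ℂ | JD m z ≠ 0} := fun w hw =>
    (Cn_hasDerivAt h0 h1 hw).differentiableAt.differentiableWithinAt
  exact this.analyticAt ((JD_open h0 h1).mem_nhds hz)

lemma Dn_an {z : ℂ} (hz : JD m z ≠ 0) : AnalyticAt ℂ (Dn m) z := by
  have : DifferentiableOn ℂ (Dn m) {z : ℂ | JD m z ≠ 0} := fun w hw =>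
    (Dn_hasDerivAt h0 h1 hw).differentiableAt.differentiableWithinAt
  exact this.analyticAt ((JD_open h0 h1).mem_nhds hz)

end

/-! ### the instance -/

/-- 4K -/
def sg (m : ℝ) : ℝ := 4 * KK m
/-- K'/(4K) -/
def hJ (m : ℝ) : ℝ := KP m / (4 * KK m)
/-- dn^2 (4K x) -/
def gJ (m : ℝ) (x : ℂ) : ℂ := Dn m (sg m * x) ^ 2

section

variable (h0 : 0 < m) (h1 : m < 1)

include h0 h1

lemma sg_pos : 0 < sg m := mul_pos (by norm_num) (KK_pos h0.le h1)
lemma hJ_pos : 0 < hJ m := div_pos (KP_pos h0 h1) (sg_pos h0 h1)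
lemma sg_hJ : sg m * hJ m = KP m := by
  have := (KK_pos h0.le h1).ne'
  unfold hJ sg
  field_simp

lemma JD_sg_ne {x : ℂ} (hx : |x.im| < 3 * hJ m)
    (hn : ∀ n : ℤ, x ≠ n / 2 + I * hJ m ∧ x ≠ n / 2 - I * hJ m) : JD m (sg m * x) ≠ 0 := by
  intro h
  obtain ⟨k, l, e⟩ := (JD_eq_zero_iff' h0 h1 _).1 h
  have hs := sg_pos h0 h1
  have hs' : (sg m : ℂ) ≠ 0 := by exact_mod_cast hs.ne'
  have hK := KP_pos h0 h1
  have eim := congrArg Complex.im e
  simp only [mul_im, ofReal_re, ofReal_im, zero_mul, add_zero, add_im, I_im, mul_one,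
    I_re, mul_zero, zero_add] at eim
  have h3 : |sg m * x.im| < 3 * KP m := by
    rw [abs_mul, abs_of_pos hs, ← sg_hJ h0 h1]
    nlinarith
  rw [eim, show KP m + l * (2 * KP m) = (2 * (l:ℝ) + 1) * KP m by ring, abs_mul, abs_of_pos hK] at h3
  have h4 : |2 * (l:ℝ) + 1| < 3 := by
    by_contra h'
    push Not at h'
    nlinarith
  have h5 : |2 * l + 1| < 3 := by exact_mod_cast h4
  rw [abs_lt] at h5
  have h6 : l = 0 ∨ l = -1 := by omega
  have hsg : (sg m : ℂ) = 4 * (KK m : ℂ) := by simp [sg]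
  have hsh : (sg m : ℂ) * (hJ m : ℂ) = KP m := by exact_mod_cast sg_hJ h0 h1
  rcases h6 with rfl | rfl
  · apply (hn k).1
    apply mul_left_cancel₀ hs'
    rw [e]
    push_cast
    linear_combination (-(k:ℂ) / 2) * hsg - I * hsh
  · apply (hn k).2
    apply mul_left_cancel₀ hs'
    rw [e]
    push_cast
    linear_combination (-(k:ℂ) / 2) * hsg + I * hsh

lemma gJ_an {x : ℂ} (hx : |x.im| < 3 * hJ m)
    (hn : ∀ n : ℤ, x ≠ n / 2 + I * hJ m ∧ x ≠ n / 2 - I * hJ m) : AnalyticAt ℂ (gJ m) x := by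
  have h := Dn_an h0 h1 (JD_sg_ne h0 h1 hx hn)
  have h2 : AnalyticAt ℂ (fun x : ℂ => Dn m (sg m * x)) x := by
    have h3 : AnalyticAt ℂ (fun x : ℂ => (sg m : ℂ) * x) x := by fun_prop
    exact h.comp h3
  exact h2.pow 2

lemma gJ_half (x : ℂ) : gJ m (x + 1 / 2) = gJ m x := by
  unfold gJ
  have : (sg m : ℂ) * (x + 1 / 2) = sg m * x + (2 * KK m : ℝ) := by
    simp only [sg]; push_cast; ring
  rw [this, Dn_add h0 h1]

lemma gJ_neg (x : ℂ) : gJ m (-x) = gJ m x := by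
  unfold gJ
  rw [mul_neg, Dn_neg h0 h1]

lemma gJ_conj (x : ℂ) : gJ m (conj x) = conj (gJ m x) := by
  unfold gJ
  rw [map_pow, ← Dn_conj h0 h1, map_mul, conj_ofReal]

lemma gJ_real (x : ℝ) : gJ m x = ((dn m (sg m * x) ^ 2 : ℝ) : ℂ) := by
  unfold gJ
  rw [← ofReal_mul, Dn_ofReal h0 h1]
  push_cast; rfl

/-- the constant of the bound -/
def CJ (m : ℝ) : ℝ := max 1 (Real.pi ^ 2 / (2 * (m * (1 - m)) * sg m ^ 2))

lemma dist_lem (x : ℂ) (d : ℝ) (hd : 0 < d) (n : ℤ)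
    (hn : d ≤ ‖x - (n / 2 + I * hJ m)‖ ∧ d ≤ ‖x - (n / 2 - I * hJ m)‖) :
    sg m ^ 2 * d ^ 2 ≤ (((sg m : ℂ) * x).re - n * (2 * KK m)) ^ 2 +
      (|((sg m : ℂ) * x).im| - KP m) ^ 2 := by
  have hs := sg_pos h0 h1
  have zre : ((sg m : ℂ) * x).re = sg m * x.re := by simp
  have zim : ((sg m : ℂ) * x).im = sg m * x.im := by simp
  have e4 : (n:ℝ) * (2 * KK m) = sg m * (n / 2) := by unfold sg; ring
  have e1 : ((n : ℂ) / 2).re = n / 2 := by simp
  have e2 : ((n : ℂ) / 2).im = 0 := by simp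
  rw [zre, zim, e4, ← sg_hJ h0 h1]
  rcases le_total 0 x.im with hi | hi
  · have h4 : d ^ 2 ≤ ‖x - (n / 2 + I * hJ m)‖ ^ 2 := pow_le_pow_left₀ hd.le hn.1 2
    have h5 : ‖x - (n / 2 + I * hJ m)‖ ^ 2 = (x.re - n / 2) ^ 2 + (x.im - hJ m) ^ 2 := by
      rw [Complex.sq_norm, Complex.normSq_apply]
      simp only [sub_re, add_re, mul_re, I_re, zero_mul, ofReal_im, mul_zero, sub_zero,
        sub_im, add_im, mul_im, I_im, one_mul, ofReal_re, zero_add, e1, e2]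
      ring
    rw [h5] at h4
    rw [abs_of_nonneg (mul_nonneg hs.le hi)]
    have e5 := mul_le_mul_of_nonneg_left h4 (sq_nonneg (sg m))
    linarith
  · have h4 : d ^ 2 ≤ ‖x - (n / 2 - I * hJ m)‖ ^ 2 := pow_le_pow_left₀ hd.le hn.2 2
    have h5 : ‖x - (n / 2 - I * hJ m)‖ ^ 2 = (x.re - n / 2) ^ 2 + (x.im + hJ m) ^ 2 := by
      rw [Complex.sq_norm, Complex.normSq_apply]
      simp only [sub_re, mul_re, I_re, zero_mul, ofReal_im, mul_zero, sub_zero,
        sub_im, mul_im, I_im, one_mul, ofReal_re, zero_add, e1, e2]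
      ring
    rw [h5] at h4
    rw [abs_of_nonpos (mul_nonpos_of_nonneg_of_nonpos hs.le hi)]
    have e5 := mul_le_mul_of_nonneg_left h4 (sq_nonneg (sg m))
    linarith

lemma gJ_bd (x : ℂ) (d : ℝ) (hx : |x.im| < 2 * hJ m) (hd : 0 < d)
    (hn : ∀ n : ℤ, d ≤ ‖x - (n / 2 + I * hJ m)‖ ∧ d ≤ ‖x - (n / 2 - I * hJ m)‖) :
    ‖gJ m x‖ ≤ CJ m / d ^ 2 := by
  have hs := sg_pos h0 h1
  have hK := KP_pos h0 h1
  have hKK := KK_pos h0.le h1
  have hne : JD m (sg m * x) ≠ 0 := by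
    refine JD_sg_ne h0 h1 (by linarith [hJ_pos h0 h1]) fun n => ⟨?_, ?_⟩
    · rintro h
      have := (hn n).1
      rw [← h] at this
      simp at this; linarith
    · rintro h
      have := (hn n).2
      rw [← h] at this
      simp at this; linarith
  have hN := Dn_normSq h0 h1 _ hne
  have hJJ : JD m (sg m * x) = (JDr m (sg m * x) : ℂ) := JD_real _
  set z : ℂ := sg m * x with hz
  have zre : z.re = sg m * x.re := by simp [hz]
  have zim : z.im = sg m * x.im := by simp [hz]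
  -- nearest integer
  set n : ℤ := round (z.re / (2 * KK m)) with hnd
  have hn1 : |z.re - n * (2 * KK m)| ≤ KK m := by
    have := abs_sub_round (z.re / (2 * KK m))
    rw [← hnd] at this
    have e : z.re - n * (2 * KK m) = (z.re / (2 * KK m) - n) * (2 * KK m) := by field_simp
    rw [e, abs_mul, abs_of_pos (by positivity : 0 < 2 * KK m)]
    nlinarith
  have hz2 : |z.im| ≤ 2 * KP m := by
    rw [zim, abs_mul, abs_of_pos hs, ← sg_hJ h0 h1]
    nlinarith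
  have hlow := JDr_lower h0 h1 z n hn1 hz2
  have hdist := dist_lem h0 h1 x d hd n (hn n)
  rw [← hz] at hdist
  have hm : 0 < m * (1 - m) := mul_pos h0 (by linarith)
  have hc : 0 < 2 / Real.pi ^ 2 * (m * (1 - m)) := by positivity
  have hlow2 : 2 / Real.pi ^ 2 * (m * (1 - m)) * (sg m ^ 2 * d ^ 2) ≤ JDr m z :=
    (mul_le_mul_of_nonneg_left hdist hc.le).trans hlow
  have hJpos : 0 < JDr m z := lt_of_lt_of_le (by positivity) hlow2
  have hg : ‖gJ m x‖ ≤ 1 / JDr m z := by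
    have : ‖gJ m x‖ = ‖Dn m z‖ ^ 2 := by unfold gJ; rw [norm_pow]
    rw [this, hN]
    gcongr
    have b1 := dn_sq (m := 1 - m) (by linarith) (by linarith) z.im
    have b2 : 0 ≤ (1 - m) * sn (1 - m) z.im ^ 2 := mul_nonneg (by linarith) (sq_nonneg _)
    have b3 : 0 ≤ m * sn m z.re ^ 2 := mul_nonneg h0.le (sq_nonneg _)
    linarith
  refine hg.trans ?_
  have h5 : 1 / JDr m z ≤ 1 / (2 / Real.pi ^ 2 * (m * (1 - m)) * (sg m ^ 2 * d ^ 2)) :=
    one_div_le_one_div_of_le (by positivity) hlow2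
  refine h5.trans ?_
  have h6 : 1 / (2 / Real.pi ^ 2 * (m * (1 - m)) * (sg m ^ 2 * d ^ 2)) =
      (Real.pi ^ 2 / (2 * (m * (1 - m)) * sg m ^ 2)) / d ^ 2 := by
    field_simp
  rw [h6]
  gcongr
  exact le_max_right _ _

end

/-- the Jacobi instance -/
def GDJ (m : ℝ) (h0 : 0 < m) (h1 : m < 1) : GD where
  g := gJ m
  h := hJ m
  C := CJ m
  h_pos := hJ_pos h0 h1
  one_le_C := le_max_left _ _
  g_an x hx hn := gJ_an h0 h1 (by linarith [hJ_pos h0 h1]) hn
  g_half := gJ_half h0 h1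
  g_neg := gJ_neg h0 h1
  g_conj := gJ_conj h0 h1
  g_bd := gJ_bd h0 h1
  g_real x := by
    rw [gJ_real h0 h1]
    refine ⟨ofReal_im _, ?_, ?_⟩
    · rw [ofReal_re]; positivity
    · rw [ofReal_re]
      have a := dn_pos h0.le h1 (sg m * x)
      have b := dn_le h0.le (sg m * x)
      nlinarith

end

end Pool.Agent.MP_ae5b4e_an_LOC
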