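import Mathlib
import Pool.Agent.Lib.MP_ae5b4e_an_hopf.Plane

/-!
# MP_ae5b4e_an, project LOC: `L1` depends continuously on the coefficients (any background)
-/

noncomputable section

namespace Pool.Agent.MP_ae5b4e_an_LOC

open Real Set Filter Topology
open scoped ContDiff
open Pool.Agent.MP_ae5b4e_an_hopf

/-- bound of the solution `k''' + R0 k' + M0 k = 0`, `k 0 = k' 0 = 0`, `k'' 0 = 1` -/
lemma ode_bound {k0 k1 k2 R0 M0 : ℝ → ℝ} {K : ℝ} (hK : 0 ≤ K)
    (h0 : ∀ s, HasDerivAt k0 (k1 s) s) (h1 : ∀ s, HasDerivAt k1 (k2 s) s)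
    (h2 : ∀ s, HasDerivAt k2 (-(R0 s) * k1 s - M0 s * k0 s) s)
    (hR : ∀ s, |R0 s| ≤ K) (hM : ∀ s, |M0 s| ≤ K)
    (z0 : k0 0 = 0) (z1 : k1 0 = 0) (z2 : k2 0 = 1) {x : ℝ} (hx : x ∈ Icc (0:ℝ) 1) :
    |k0 x| ≤ Real.exp (2 * K + 1) ∧ |k1 x| ≤ Real.exp (2 * K + 1) ∧
      |k2 x| ≤ Real.exp (2 * K + 1) := by
  set f : ℝ → ℝ × ℝ × ℝ := fun t => (k0 t, k1 t, k2 t) with hf
  have hd : ∀ t, HasDerivAt f (k1 t, k2 t, -(R0 t) * k1 t - M0 t * k0 t) t := fun t =>
    (h0 t).prodMk ((h1 t).prodMk (h2 t))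
  have hb : ∀ t, ‖((k1 t, k2 t, -(R0 t) * k1 t - M0 t * k0 t) : ℝ × ℝ × ℝ)‖ ≤
      (2 * K + 1) * ‖f t‖ + 0 := by
    intro t
    have n1 : |k0 t| ≤ ‖f t‖ := norm_fst_le (f t)
    have n2 : |k1 t| ≤ ‖f t‖ := (norm_fst_le (f t).2).trans (norm_snd_le (f t))
    have n3 : |k2 t| ≤ ‖f t‖ := (norm_snd_le (f t).2).trans (norm_snd_le (f t))
    have hn : 0 ≤ ‖f t‖ := norm_nonneg _
    have hKn : 0 ≤ K * ‖f t‖ := mul_nonneg hK hn
    rw [norm_prod_le_iff, norm_prod_le_iff]
    refine ⟨n2.trans (by linarith), n3.trans (by linarith), ?_⟩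
    show |-(R0 t) * k1 t - M0 t * k0 t| ≤ _
    refine (abs_sub _ _).trans ?_
    rw [abs_mul, abs_mul, abs_neg]
    have e1 : |R0 t| * |k1 t| ≤ K * ‖f t‖ := mul_le_mul (hR t) n2 (abs_nonneg _) hK
    have e2 : |M0 t| * |k0 t| ≤ K * ‖f t‖ := mul_le_mul (hM t) n1 (abs_nonneg _) hK
    linarith
  have hG := norm_le_gronwallBound_of_norm_deriv_right_le (f := f)
    (f' := fun t => (k1 t, k2 t, -(R0 t) * k1 t - M0 t * k0 t)) (δ := 1) (K := 2 * K + 1)
    (ε := 0) (a := 0) (b := 1) (fun t _ => (hd t).continuousAt.continuousWithinAt)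
    (fun t _ => (hd t).hasDerivWithinAt) (by
      show ‖((k0 0, k1 0, k2 0) : ℝ × ℝ × ℝ)‖ ≤ 1
      rw [z0, z1, z2, norm_prod_le_iff, norm_prod_le_iff]
      simp) (fun t _ => hb t) x hx
  rw [gronwallBound_ε0, one_mul, sub_zero] at hG
  have hfin : ‖f x‖ ≤ Real.exp (2 * K + 1) := by
    refine hG.trans (Real.exp_le_exp.2 ?_)
    have : 0 ≤ 2 * K + 1 := by linarith
    nlinarith [hx.2]
  exact ⟨(norm_fst_le (f x)).trans hfin,
    ((norm_fst_le (f x).2).trans (norm_snd_le (f x))).trans hfin,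
    ((norm_snd_le (f x).2).trans (norm_snd_le (f x))).trans hfin⟩

/-- the constant -/
def CL (K c : ℝ) : ℝ :=
  4 * Real.exp (4 * K + 4) / c + 4 * Real.exp (6 * K + 5) / c ^ 2

/-- difference of the solutions -/
lemma ode_diff {g0 g1 g2 R M k0 k1 k2 R0 M0 : ℝ → ℝ} {ε K : ℝ} (hK : 0 ≤ K) (hε1 : ε ≤ 1)
    (h0 : ∀ s, HasDerivAt g0 (g1 s) s) (h1 : ∀ s, HasDerivAt g1 (g2 s) s)
    (h2 : ∀ s, HasDerivAt g2 (-(R s) * g1 s - M s * g0 s) s)
    (l0 : ∀ s, HasDerivAt k0 (k1 s) s) (l1 : ∀ s, HasDerivAt k1 (k2 s) s)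
    (l2 : ∀ s, HasDerivAt k2 (-(R0 s) * k1 s - M0 s * k0 s) s)
    (hR0 : ∀ s, |R0 s| ≤ K) (hM0 : ∀ s, |M0 s| ≤ K)
    (hR : ∀ s, |R s - R0 s| ≤ ε) (hM : ∀ s, |M s - M0 s| ≤ ε)
    (z0 : g0 0 = 0) (z1 : g1 0 = 0) (z2 : g2 0 = 1)
    (y0 : k0 0 = 0) (y1 : k1 0 = 0) (y2 : k2 0 = 1) {x : ℝ} (hx : x ∈ Icc (0:ℝ) 1) :
    |g2 x - k2 x| ≤ 2 * Real.exp (4 * K + 4) * ε * x ∧
    |g1 x - k1 x| ≤ 2 * Real.exp (4 * K + 4) * ε * (x ^ 2 / 2) ∧
    |g0 x - k0 x| ≤ 2 * Real.exp (4 * K + 4) * ε * (x ^ 3 / 6) := by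
  have hε0 : 0 ≤ ε := (abs_nonneg _).trans (hM 0)
  set B : ℝ := Real.exp (2 * K + 1) with hB
  have hB0 : 0 < B := Real.exp_pos _
  set C1 : ℝ := 2 * Real.exp (4 * K + 4) with hC1
  have hC10 : 0 < C1 := by positivity
  set f : ℝ → ℝ × ℝ × ℝ := fun t => (g0 t - k0 t, g1 t - k1 t, g2 t - k2 t) with hf
  set f' : ℝ → ℝ × ℝ × ℝ := fun t => (g1 t - k1 t, g2 t - k2 t,
    (-(R t) * g1 t - M t * g0 t) - (-(R0 t) * k1 t - M0 t * k0 t)) with hf'
  have hd : ∀ t, HasDerivAt f (f' t) t := fun t =>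
    ((h0 t).sub (l0 t)).prodMk (((h1 t).sub (l1 t)).prodMk ((h2 t).sub (l2 t)))
  have hb : ∀ t ∈ Icc (0:ℝ) 1, ‖f' t‖ ≤ (2 * K + 3) * ‖f t‖ + 2 * B * ε := by
    intro t ht
    obtain ⟨b0, b1, -⟩ := ode_bound hK l0 l1 l2 hR0 hM0 y0 y1 y2 ht
    have n1 : |g0 t - k0 t| ≤ ‖f t‖ := norm_fst_le (f t)
    have n2 : |g1 t - k1 t| ≤ ‖f t‖ := (norm_fst_le (f t).2).trans (norm_snd_le (f t))
    have n3 : |g2 t - k2 t| ≤ ‖f t‖ := (norm_snd_le (f t).2).trans (norm_snd_le (f t))
    have hn : 0 ≤ ‖f t‖ := norm_nonneg _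
    have hKn : 0 ≤ K * ‖f t‖ := mul_nonneg hK hn
    have hBε : 0 ≤ B * ε := by positivity
    rw [norm_prod_le_iff, norm_prod_le_iff]
    refine ⟨n2.trans (by linarith), n3.trans (by linarith), ?_⟩
    show |(-(R t) * g1 t - M t * g0 t) - (-(R0 t) * k1 t - M0 t * k0 t)| ≤ _
    have e0 : (-(R t) * g1 t - M t * g0 t) - (-(R0 t) * k1 t - M0 t * k0 t) =
        -(R t) * (g1 t - k1 t) - M t * (g0 t - k0 t) - (R t - R0 t) * k1 t -
          (M t - M0 t) * k0 t := by ring
    rw [e0]
    have hRt : |R t| ≤ K + 1 := by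
      have a1 := abs_le.1 (hR t)
      have a2 := abs_le.1 (hR0 t)
      rw [abs_le]
      constructor <;> linarith
    have hMt : |M t| ≤ K + 1 := by
      have a1 := abs_le.1 (hM t)
      have a2 := abs_le.1 (hM0 t)
      rw [abs_le]
      constructor <;> linarith
    have e1 : |-(R t) * (g1 t - k1 t)| ≤ (K + 1) * ‖f t‖ := by
      rw [abs_mul, abs_neg]
      exact mul_le_mul hRt n2 (abs_nonneg _) (by linarith)
    have e2 : |M t * (g0 t - k0 t)| ≤ (K + 1) * ‖f t‖ := by
      rw [abs_mul]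
      exact mul_le_mul hMt n1 (abs_nonneg _) (by linarith)
    have e3 : |(R t - R0 t) * k1 t| ≤ ε * B := by
      rw [abs_mul]
      exact mul_le_mul (hR t) b1 (abs_nonneg _) hε0
    have e4 : |(M t - M0 t) * k0 t| ≤ ε * B := by
      rw [abs_mul]
      exact mul_le_mul (hM t) b0 (abs_nonneg _) hε0
    refine (abs_sub _ _).trans ?_
    refine (add_le_add (abs_sub _ _) le_rfl).trans ?_
    refine (add_le_add (add_le_add (abs_sub _ _) le_rfl) le_rfl).trans ?_
    linarith
  have hG : ∀ t ∈ Icc (0:ℝ) 1, |g2 t - k2 t| ≤ C1 * ε * t := by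
    intro t ht
    have hG := norm_le_gronwallBound_of_norm_deriv_right_le (f := f) (f' := f') (δ := 0)
      (K := 2 * K + 3) (ε := 2 * B * ε) (a := 0) (b := 1)
      (fun t _ => (hd t).continuousAt.continuousWithinAt)
      (fun t _ => (hd t).hasDerivWithinAt) (by
        show ‖((g0 0 - k0 0, g1 0 - k1 0, g2 0 - k2 0) : ℝ × ℝ × ℝ)‖ ≤ 0
        rw [z0, z1, z2, y0, y1, y2, sub_self, sub_self, norm_prod_le_iff, norm_prod_le_iff]
        simp) (fun t ht => hb t ⟨ht.1, ht.2.le⟩) t ht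
    rw [gronwallBound_of_K_ne_0 (by positivity)] at hG
    simp only [zero_mul, zero_add, sub_zero] at hG
    have n3 : |g2 t - k2 t| ≤ ‖f t‖ := (norm_snd_le (f t).2).trans (norm_snd_le (f t))
    refine n3.trans (hG.trans ?_)
    -- `e ^ u - 1 ≤ u e ^ u`
    have hu : Real.exp ((2 * K + 3) * t) - 1 ≤
        ((2 * K + 3) * t) * Real.exp ((2 * K + 3) * t) := by
      have h3 := Real.add_one_le_exp (-((2 * K + 3) * t))
      have h4 := mul_le_mul_of_nonneg_right h3 (Real.exp_pos ((2 * K + 3) * t)).le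
      rw [← Real.exp_add, neg_add_cancel, Real.exp_zero] at h4
      linarith
    have h5 : 2 * B * ε / (2 * K + 3) * (Real.exp ((2 * K + 3) * t) - 1) ≤
        2 * B * ε / (2 * K + 3) * (((2 * K + 3) * t) * Real.exp ((2 * K + 3) * t)) :=
      mul_le_mul_of_nonneg_left hu (by positivity)
    refine h5.trans ?_
    have h6 : 2 * B * ε / (2 * K + 3) * (((2 * K + 3) * t) * Real.exp ((2 * K + 3) * t)) =
        2 * (B * Real.exp ((2 * K + 3) * t)) * ε * t := by
      field_simp
    rw [h6]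
    have h7 : B * Real.exp ((2 * K + 3) * t) ≤ Real.exp (4 * K + 4) := by
      rw [hB, ← Real.exp_add]
      refine Real.exp_le_exp.2 ?_
      nlinarith [ht.2]
    have h8 : 0 ≤ ε * t := mul_nonneg hε0 ht.1
    rw [hC1]
    nlinarith
  have hG1 : ∀ t ∈ Icc (0:ℝ) 1, |g1 t - k1 t| ≤ C1 * ε * (t ^ 2 / 2) := by
    intro t ht
    have := image_norm_le_of_norm_deriv_right_le_deriv_boundary (f := fun t => g1 t - k1 t)
      (f' := fun t => g2 t - k2 t) (a := 0) (b := 1)
      (fun t _ => ((h1 t).sub (l1 t)).continuousAt.continuousWithinAt)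
      (fun t _ => ((h1 t).sub (l1 t)).hasDerivWithinAt)
      (B := fun t => C1 * ε * (t ^ 2 / 2)) (B' := fun t => C1 * ε * t) (by simp [z1, y1])
      (fun t => by
        refine (((hasDerivAt_pow 2 t).div_const 2).const_mul (C1 * ε)).congr_deriv ?_
        push_cast
        ring)
      (fun t ht => hG t ⟨ht.1, ht.2.le⟩) (x := t) ht
    exact this
  have hG0 : ∀ t ∈ Icc (0:ℝ) 1, |g0 t - k0 t| ≤ C1 * ε * (t ^ 3 / 6) := by
    intro t ht
    have := image_norm_le_of_norm_deriv_right_le_deriv_boundary (f := fun t => g0 t - k0 t)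
      (f' := fun t => g1 t - k1 t) (a := 0) (b := 1)
      (fun t _ => ((h0 t).sub (l0 t)).continuousAt.continuousWithinAt)
      (fun t _ => ((h0 t).sub (l0 t)).hasDerivWithinAt)
      (B := fun t => C1 * ε * (t ^ 3 / 6)) (B' := fun t => C1 * ε * (t ^ 2 / 2))
      (by simp [z0, y0])
      (fun t => by
        refine (((hasDerivAt_pow 3 t).div_const 6).const_mul (C1 * ε)).congr_deriv ?_
        push_cast
        ring)
      (fun t ht => hG1 t ⟨ht.1, ht.2.le⟩) (x := t) ht
    exact this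
  exact ⟨hG x hx, hG1 x hx, hG0 x hx⟩

/-- the quotient -/
lemma quot_diff {g0 g1 g2 R M k0 k1 k2 R0 M0 : ℝ → ℝ} {ε K c : ℝ} (hK : 0 ≤ K) (hε1 : ε ≤ 1)
    (hc : 0 < c) (hεc : Real.exp (4 * K + 4) * ε ≤ c)
    (h0 : ∀ s, HasDerivAt g0 (g1 s) s) (h1 : ∀ s, HasDerivAt g1 (g2 s) s)
    (h2 : ∀ s, HasDerivAt g2 (-(R s) * g1 s - M s * g0 s) s)
    (l0 : ∀ s, HasDerivAt k0 (k1 s) s) (l1 : ∀ s, HasDerivAt k1 (k2 s) s)
    (l2 : ∀ s, HasDerivAt k2 (-(R0 s) * k1 s - M0 s * k0 s) s)
    (hR0 : ∀ s, |R0 s| ≤ K) (hM0 : ∀ s, |M0 s| ≤ K)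
    (hR : ∀ s, |R s - R0 s| ≤ ε) (hM : ∀ s, |M s - M0 s| ≤ ε)
    (z0 : g0 0 = 0) (z1 : g1 0 = 0) (z2 : g2 0 = 1)
    (y0 : k0 0 = 0) (y1 : k1 0 = 0) (y2 : k2 0 = 1) {x : ℝ} (hx0 : 0 < x) (hx1 : x ≤ 1 / 2)
    (hlow : c * x ^ 2 ≤ k0 x) :
    |g1 x / g0 x - k1 x / k0 x| ≤ CL K c * ε := by
  have hε0 : 0 ≤ ε := (abs_nonneg _).trans (hM 0)
  have hx : x ∈ Icc (0:ℝ) 1 := ⟨hx0.le, by linarith⟩
  obtain ⟨-, e1, e0⟩ := ode_diff hK hε1 h0 h1 h2 l0 l1 l2 hR0 hM0 hR hM z0 z1 z2 y0 y1 y2 hx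
  set C1 : ℝ := Real.exp (4 * K + 4) with hC1
  have hC10 : 0 < C1 := Real.exp_pos _
  set B : ℝ := Real.exp (2 * K + 1) with hB
  have hB0 : 0 < B := Real.exp_pos _
  -- `|k1 x| ≤ B x`
  have hk1 : |k1 x| ≤ B * x := by
    have := image_norm_le_of_norm_deriv_right_le_deriv_boundary (f := k1)
      (f' := k2) (a := 0) (b := 1)
      (fun t _ => (l1 t).continuousAt.continuousWithinAt)
      (fun t _ => (l1 t).hasDerivWithinAt)
      (B := fun t => B * t) (B' := fun _ => B) (by simp [y1])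
      (fun t => by simpa using (hasDerivAt_id t).const_mul B)
      (fun t ht => (ode_bound hK l0 l1 l2 hR0 hM0 y0 y1 y2 ⟨ht.1, ht.2.le⟩).2.2) (x := x) hx
    exact this
  have hx2 : 0 < x ^ 2 := by positivity
  have hk0 : 0 < k0 x := lt_of_lt_of_le (by positivity) hlow
  have hg0low : c / 2 * x ^ 2 ≤ g0 x := by
    have a1 := (abs_le.1 e0).1
    have a2 : 2 * C1 * ε * (x ^ 3 / 6) ≤ c / 2 * x ^ 2 := by
      have b1 : x ^ 3 ≤ 1 / 2 * x ^ 2 := by
        have : x ^ 3 = x * x ^ 2 := by ring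
        rw [this]
        exact mul_le_mul_of_nonneg_right hx1 hx2.le
      have b2 : 2 * C1 * ε * (x ^ 3 / 6) ≤ 2 * C1 * ε * ((1 / 2 * x ^ 2) / 6) := by
        refine mul_le_mul_of_nonneg_left ?_ (by positivity)
        linarith
      have b3 : C1 * ε * x ^ 2 ≤ c * x ^ 2 := mul_le_mul_of_nonneg_right hεc hx2.le
      have b4 : 0 ≤ c * x ^ 2 := by positivity
      linarith
    linarith
  have hg0 : 0 < g0 x := lt_of_lt_of_le (by positivity) hg0low
  have hid : g1 x / g0 x - k1 x / k0 x = (g1 x - k1 x) / g0 x -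
      (k1 x / k0 x) * ((g0 x - k0 x) / g0 x) := by
    field_simp
    ring
  rw [hid]
  have t1 : |(g1 x - k1 x) / g0 x| ≤ 2 * C1 / c * ε := by
    rw [abs_div, abs_of_pos hg0, div_le_iff₀ hg0]
    have b1 : 2 * C1 / c * ε * (c / 2 * x ^ 2) ≤ 2 * C1 / c * ε * g0 x :=
      mul_le_mul_of_nonneg_left hg0low (by positivity)
    have b2 : 2 * C1 / c * ε * (c / 2 * x ^ 2) = 2 * C1 * ε * (x ^ 2 / 2) := by
      field_simp
    linarith
  have t2 : |k1 x / k0 x| ≤ B / (c * x) := by
    rw [abs_div, abs_of_pos hk0, div_le_div_iff₀ hk0 (by positivity)]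
    have b1 : |k1 x| * (c * x) ≤ B * x * (c * x) :=
      mul_le_mul_of_nonneg_right hk1 (by positivity)
    have b2 : B * (c * x ^ 2) ≤ B * k0 x := mul_le_mul_of_nonneg_left hlow hB0.le
    nlinarith
  have t3 : |(g0 x - k0 x) / g0 x| ≤ C1 * ε * x / c := by
    rw [abs_div, abs_of_pos hg0, div_le_iff₀ hg0]
    have b1 : C1 * ε * x / c * (c / 2 * x ^ 2) ≤ C1 * ε * x / c * g0 x :=
      mul_le_mul_of_nonneg_left hg0low (by positivity)
    have b2 : C1 * ε * x / c * (c / 2 * x ^ 2) = C1 * ε * x ^ 3 / 2 := by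
      field_simp
    have b3 : 2 * C1 * ε * (x ^ 3 / 6) ≤ C1 * ε * x ^ 3 / 2 := by
      have : 0 ≤ C1 * ε * x ^ 3 := by positivity
      linarith
    linarith
  have t4 : |(k1 x / k0 x) * ((g0 x - k0 x) / g0 x)| ≤ B * C1 / c ^ 2 * ε := by
    rw [abs_mul]
    refine (mul_le_mul t2 t3 (abs_nonneg _) (by positivity)).trans (le_of_eq ?_)
    field_simp
  have hBC : B * C1 = Real.exp (6 * K + 5) := by
    rw [hB, hC1, ← Real.exp_add]
    congr 1
    ring
  refine (abs_sub _ _).trans ?_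
  unfold CL
  rw [← hC1, ← hBC]
  have p1 : 0 ≤ C1 / c * ε := by positivity
  have p2 : 0 ≤ B * C1 / c ^ 2 * ε := by positivity
  have e5 : (4 * C1 / c + 4 * (B * C1) / c ^ 2) * ε = 4 * (C1 / c * ε) +
      4 * (B * C1 / c ^ 2 * ε) := by ring
  have e6 : 2 * C1 / c * ε = 2 * (C1 / c * ε) := by ring
  rw [e5]
  rw [e6] at t1
  linarith

section curve

variable {P0 : ℝ → Fin 3 → ℝ} {r0 m0 : ℝ → ℝ}

lemma dd_diag (P : ℝ → Fin 3 → ℝ) (y : ℝ) : dd P y y = 0 := det3_self_left _ _
lemma ddx_diag (P : ℝ → Fin 3 → ℝ) (y : ℝ) : ddx P y y = 0 := det3_self_outer _ _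
lemma ddxx_diag (P : ℝ → Fin 3 → ℝ) (y : ℝ) : ddxx P y y = Wr P y := det3_cycle _ _ _

lemma hasDerivAt_ddxx {P : ℝ → Fin 3 → ℝ} {r m : ℝ → ℝ} (h : Curve 1 P)
    (hode : ∀ x, deriv (deriv (deriv P)) x = -(r x) • deriv P x - m x • P x) (x y : ℝ) :
    HasDerivAt (fun x => ddxx P x y) (-(r x) * ddx P x y - m x * dd P x y) x := by
  refine (hasDerivAt_det3 (h.hd2 x) (hasDerivAt_const x (P y))
    (hasDerivAt_const x (deriv P y))).congr_deriv ?_
  rw [hode x]
  unfold ddx dd det3
  simp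
  ring

/-- quadratic lower bound of `dd` at the diagonal -/
lemma dd_low (h : Curve 1 P0) (hW : ∀ x, Wr P0 x = 1) :
    ∃ c > 0, ∀ x y, |x - y| ≤ 1 / 2 → c * (x - y) ^ 2 ≤ dd P0 x y := by
  -- near the diagonal
  have hcxx : Continuous (fun p : ℝ × ℝ => ddxx P0 p.1 p.2) := h.contDiff_ddxx.continuous
  have hcd : Continuous (fun p : ℝ × ℝ => dd P0 p.1 p.2) := h.contDiff_dd.continuous
  have hK : IsCompact (Icc (0:ℝ) 1 ×ˢ Icc (-1:ℝ) 1) := isCompact_Icc.prod isCompact_Icc
  have hu := hK.uniformContinuousOn_of_continuous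
    (f := fun p : ℝ × ℝ => ddxx P0 (p.1 + p.2) p.1)
    (hcxx.comp (f := fun p : ℝ × ℝ => (p.1 + p.2, p.1)) (by fun_prop)).continuousOn
  rw [Metric.uniformContinuousOn_iff] at hu
  obtain ⟨δ, hδ, hδu⟩ := hu (1 / 2) (by norm_num)
  set s1 : ℝ := min (δ / 2) (1 / 2) with hs1
  have hs10 : 0 < s1 := by positivity
  have hs1δ : s1 < δ := lt_of_le_of_lt (min_le_left _ _) (by linarith)
  have hs1h : s1 ≤ 1 / 2 := min_le_right _ _
  have hnear : ∀ y ∈ Icc (0:ℝ) 1, ∀ s, |s| ≤ s1 → 1 / 2 ≤ ddxx P0 (y + s) y := by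
    intro y hy s hs
    have hs' := abs_le.1 hs
    have h1 := hδu (y, s) ⟨hy, ⟨by linarith, by linarith⟩⟩ (y, 0)
      ⟨hy, ⟨by norm_num, by norm_num⟩⟩ (by
        rw [Prod.dist_eq]
        simp only [dist_self, Real.dist_eq, sub_zero]
        exact max_lt hδ (lt_of_le_of_lt hs hs1δ))
    simp only [add_zero] at h1
    rw [Real.dist_eq, ddxx_diag, hW] at h1
    have := (abs_lt.1 h1).1
    linarith
  -- far from the diagonal
  have hK2 : IsCompact (Icc (0:ℝ) 1 ×ˢ (Icc s1 (1 / 2) ∪ Icc (-(1 / 2)) (-s1))) :=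
    isCompact_Icc.prod (isCompact_Icc.union isCompact_Icc)
  have hne : (Icc (0:ℝ) 1 ×ˢ (Icc s1 (1 / 2) ∪ Icc (-(1 / 2)) (-s1))).Nonempty :=
    ⟨(0, 1 / 2), ⟨⟨le_rfl, zero_le_one⟩, Or.inl ⟨hs1h, le_rfl⟩⟩⟩
  obtain ⟨p0, hp0, hmin⟩ := hK2.exists_isMinOn hne
    (f := fun p : ℝ × ℝ => dd P0 (p.1 + p.2) p.1)
    (hcd.comp (f := fun p : ℝ × ℝ => (p.1 + p.2, p.1)) (by fun_prop)).continuousOn
  set c1 : ℝ := dd P0 (p0.1 + p0.2) p0.1 with hc1
  have hc10 : 0 < c1 := by
    refine h.dd_pos ?_ ?_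
    · intro he
      have : p0.2 = 0 := by linarith
      rcases hp0.2 with h2 | h2 <;> rw [this] at h2 <;> linarith [h2.1, h2.2]
    · rw [add_sub_cancel_left, abs_lt]
      rcases hp0.2 with h2 | h2 <;> constructor <;> linarith [h2.1, h2.2]
  refine ⟨min (1 / 4) c1, by positivity, ?_⟩
  -- reduction to `y ∈ [0, 1)`
  have key : ∀ y ∈ Icc (0:ℝ) 1, ∀ s, |s| ≤ 1 / 2 → min (1 / 4) c1 * s ^ 2 ≤ dd P0 (y + s) y := by
    intro y hy s hs
    rcases le_or_gt |s| s1 with h1 | h1
    · have hle : 1 / 4 * s ^ 2 ≤ dd P0 (y + s) y := by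
        -- Taylor
        rcases le_total 0 s with hs0 | hs0
        · have hd : ∀ t, HasDerivAt (fun t => ddx P0 (y + t) y) (ddxx P0 (y + t) y) t := fun t => by
            exact ((h.hasDerivAt_ddx_left (y + t) y).comp t
              ((hasDerivAt_id t).const_add y)).congr_deriv (by ring)
          have hd0 : ∀ t, HasDerivAt (fun t => dd P0 (y + t) y) (ddx P0 (y + t) y) t := fun t => by
            exact ((h.hasDerivAt_dd_left (y + t) y).comp t
              ((hasDerivAt_id t).const_add y)).congr_deriv (by ring)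
          have hx1 : ∀ t ∈ Icc 0 s, 1 / 2 * t ≤ ddx P0 (y + t) y := by
            intro t ht
            have hmono : MonotoneOn (fun t => ddx P0 (y + t) y - 1 / 2 * t) (Icc 0 s) := by
              refine monotoneOn_of_deriv_nonneg (convex_Icc _ _) ?_ ?_ ?_
              · exact fun t _ => ((hd t).sub
                  ((hasDerivAt_id t).const_mul (1 / 2))).continuousAt.continuousWithinAt
              · exact fun t _ => ((hd t).sub
                  ((hasDerivAt_id t).const_mul (1 / 2))).differentiableAt.differentiableWithinAt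
              · intro t ht
                rw [interior_Icc] at ht
                have e1 := ((hd t).sub ((hasDerivAt_id t).const_mul (1 / 2))).deriv
                simp only [id_eq, mul_one] at e1
                have e2 : deriv (fun t => ddx P0 (y + t) y - 1 / 2 * t) t =
                    ddxx P0 (y + t) y - 1 / 2 := e1
                rw [e2]
                have := hnear y hy t (by
                  rw [abs_of_pos ht.1]
                  rw [abs_of_nonneg hs0] at h1
                  linarith [ht.2])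
                linarith
            have e3 := hmono ⟨le_rfl, hs0⟩ ht ht.1
            simp only [add_zero, mul_zero, sub_zero, ddx_diag] at e3
            linarith
          have hmono : MonotoneOn (fun t => dd P0 (y + t) y - 1 / 4 * t ^ 2) (Icc 0 s) := by
            have hdd : ∀ t, HasDerivAt (fun t => dd P0 (y + t) y - 1 / 4 * t ^ 2)
                (ddx P0 (y + t) y - 1 / 2 * t) t := fun t => by
              refine ((hd0 t).sub ((hasDerivAt_pow 2 t).const_mul (1 / 4))).congr_deriv ?_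
              push_cast
              ring
            refine monotoneOn_of_deriv_nonneg (convex_Icc _ _) ?_ ?_ ?_
            · exact fun t _ => (hdd t).continuousAt.continuousWithinAt
            · exact fun t _ => (hdd t).differentiableAt.differentiableWithinAt
            · intro t ht
              rw [interior_Icc] at ht
              rw [(hdd t).deriv]
              have := hx1 t ⟨ht.1.le, ht.2.le⟩
              linarith
          have e3 := hmono ⟨le_rfl, hs0⟩ ⟨hs0, le_rfl⟩ hs0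
          simp only [add_zero, dd_diag] at e3
          norm_num at e3
          linarith
        · have hd : ∀ t, HasDerivAt (fun t => ddx P0 (y - t) y) (-ddxx P0 (y - t) y) t := fun t => by
            exact ((h.hasDerivAt_ddx_left (y - t) y).comp t
              ((hasDerivAt_id t).const_sub y)).congr_deriv (by ring)
          have hd0 : ∀ t, HasDerivAt (fun t => dd P0 (y - t) y) (-ddx P0 (y - t) y) t := fun t => by
            exact ((h.hasDerivAt_dd_left (y - t) y).comp t
              ((hasDerivAt_id t).const_sub y)).congr_deriv (by ring)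
          have hs0' : 0 ≤ -s := by linarith
          have hx1 : ∀ t ∈ Icc 0 (-s), 1 / 2 * t ≤ -ddx P0 (y - t) y := by
            intro t ht
            have hdd : ∀ t, HasDerivAt (fun t => -ddx P0 (y - t) y - 1 / 2 * t)
                (ddxx P0 (y - t) y - 1 / 2) t := fun t => by
              refine ((hd t).neg.sub ((hasDerivAt_id t).const_mul (1 / 2))).congr_deriv ?_
              ring
            have hmono : MonotoneOn (fun t => -ddx P0 (y - t) y - 1 / 2 * t) (Icc 0 (-s)) := by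
              refine monotoneOn_of_deriv_nonneg (convex_Icc _ _) ?_ ?_ ?_
              · exact fun t _ => (hdd t).continuousAt.continuousWithinAt
              · exact fun t _ => (hdd t).differentiableAt.differentiableWithinAt
              · intro t ht
                rw [interior_Icc] at ht
                rw [(hdd t).deriv]
                have := hnear y hy (-t) (by
                  rw [abs_neg, abs_of_pos ht.1]
                  rw [abs_of_nonpos hs0] at h1
                  linarith [ht.2])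
                rw [← sub_eq_add_neg] at this
                linarith
            have e3 := hmono ⟨le_rfl, hs0'⟩ ht ht.1
            simp only [sub_zero, mul_zero, ddx_diag, neg_zero] at e3
            linarith
          have hmono : MonotoneOn (fun t => dd P0 (y - t) y - 1 / 4 * t ^ 2) (Icc 0 (-s)) := by
            have hdd : ∀ t, HasDerivAt (fun t => dd P0 (y - t) y - 1 / 4 * t ^ 2)
                (-ddx P0 (y - t) y - 1 / 2 * t) t := fun t => by
              refine ((hd0 t).sub ((hasDerivAt_pow 2 t).const_mul (1 / 4))).congr_deriv ?_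
              push_cast
              ring
            refine monotoneOn_of_deriv_nonneg (convex_Icc _ _) ?_ ?_ ?_
            · exact fun t _ => (hdd t).continuousAt.continuousWithinAt
            · exact fun t _ => (hdd t).differentiableAt.differentiableWithinAt
            · intro t ht
              rw [interior_Icc] at ht
              rw [(hdd t).deriv]
              have := hx1 t ⟨ht.1.le, ht.2.le⟩
              linarith
          have e3 := hmono ⟨le_rfl, hs0'⟩ ⟨hs0', le_rfl⟩ hs0'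
          simp only [sub_zero, dd_diag, sub_neg_eq_add] at e3
          norm_num at e3
          linarith
      refine le_trans ?_ hle
      exact mul_le_mul_of_nonneg_right (min_le_left _ _) (sq_nonneg _)
    · have hmem : (y, s) ∈ Icc (0:ℝ) 1 ×ˢ (Icc s1 (1 / 2) ∪ Icc (-(1 / 2)) (-s1)) := by
        refine ⟨hy, ?_⟩
        have hs' := abs_le.1 hs
        rcases lt_abs.1 h1 with h2 | h2
        · exact Or.inl ⟨h2.le, hs'.2⟩
        · exact Or.inr ⟨hs'.1, by linarith⟩
      have h2 : c1 ≤ dd P0 (y + s) y := hmin hmem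
      have h3 : s ^ 2 ≤ 1 := by
        have hs' := abs_le.1 hs
        nlinarith
      have h4 : min (1 / 4) c1 * s ^ 2 ≤ c1 * 1 :=
        mul_le_mul (min_le_right _ _) h3 (sq_nonneg _) hc10.le
      linarith
  intro x y hxy
  obtain ⟨n, hn⟩ : ∃ n : ℤ, y - n ∈ Ico (0:ℝ) 1 := ⟨⌊y⌋, by
    rw [← Int.fract]
    exact ⟨Int.fract_nonneg y, Int.fract_lt_one y⟩⟩
  have hper : Function.Periodic (fun t => dd P0 (t + (x - y)) t) 1 := fun t => by
    simp only
    rw [show t + 1 + (x - y) = t + (x - y) + 1 by ring, h.dd_per_left, h.dd_per_right]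
  have h5 := hper.sub_int_mul_eq (x := y) n
  rw [mul_one] at h5
  have h6 := key (y - n) ⟨hn.1, hn.2.le⟩ (x - y) hxy
  rw [h5, add_sub_cancel] at h6
  exact h6

/-- `L1` depends continuously on the coefficients. -/
theorem L1_close (h : Curve 1 P0) (hW : ∀ x, Wr P0 x = 1)
    (hode : ∀ x, deriv (deriv (deriv P0)) x = -(r0 x) • deriv P0 x - m0 x • P0 x)
    {K : ℝ} (hr0 : ∀ x, |r0 x| ≤ K) (hm0 : ∀ x, |m0 x| ≤ K) :
    ∃ C > 0, ∃ ε0 > 0, ∀ ε : ℝ, ε ≤ ε0 → ∀ (P : ℝ → Fin 3 → ℝ) (r m : ℝ → ℝ), Curve 1 P →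
      (∀ x, Wr P x = 1) →
      (∀ x, deriv (deriv (deriv P)) x = -(r x) • deriv P x - m x • P x) →
      (∀ x, |r x - r0 x| ≤ ε) → (∀ x, |m x - m0 x| ≤ ε) →
      ∀ x y, x ≠ y → |x - y| < 1 → |L1 P x y - L1 P0 x y| ≤ C * ε := by
  obtain ⟨c, hc, hlow⟩ := dd_low h hW
  have hK : 0 ≤ K := (abs_nonneg _).trans (hr0 0)
  have hCL : 0 < CL K c := by
    unfold CL
    positivity
  refine ⟨CL K c, hCL, min 1 (c / Real.exp (4 * K + 4)), by positivity, ?_⟩
  intro ε hε P r m hP hWP hoP hr hm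
  have hε1 : ε ≤ 1 := hε.trans (min_le_left _ _)
  have hεc : Real.exp (4 * K + 4) * ε ≤ c := by
    have := hε.trans (min_le_right _ _)
    rw [le_div_iff₀ (Real.exp_pos _)] at this
    linarith
  have half : ∀ x y, x ≠ y → |x - y| ≤ 1 / 2 → |L1 P x y - L1 P0 x y| ≤ CL K c * ε := by
    intro x y hxy hxy1
    rcases lt_or_gt_of_ne hxy with hlt | hlt
    · have hs : 0 < y - x := by linarith
      have hs1 : y - x ≤ 1 / 2 := by
        rw [abs_sub_comm, abs_of_pos hs] at hxy1
        exact hxy1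
      have hin : ∀ s : ℝ, HasDerivAt (fun s : ℝ => y - s) (-1) s := fun s => by
        simpa using (hasDerivAt_id s).const_sub y
      have hlow' := hlow x y hxy1
      have k := quot_diff (g0 := fun s => dd P (y - s) y) (g1 := fun s => -ddx P (y - s) y)
        (g2 := fun s => ddxx P (y - s) y) (R := fun s => r (y - s)) (M := fun s => -m (y - s))
        (k0 := fun s => dd P0 (y - s) y) (k1 := fun s => -ddx P0 (y - s) y)
        (k2 := fun s => ddxx P0 (y - s) y) (R0 := fun s => r0 (y - s))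
        (M0 := fun s => -m0 (y - s)) (ε := ε) (K := K) (c := c) hK hε1 hc hεc
        (fun s => by
          refine ((hP.hasDerivAt_dd_left (y - s) y).comp s (hin s)).congr_deriv ?_
          ring)
        (fun s => by
          refine (((hP.hasDerivAt_ddx_left (y - s) y).comp s (hin s)).neg).congr_deriv ?_
          ring)
        (fun s => by
          refine ((hasDerivAt_ddxx hP hoP (y - s) y).comp s (hin s)).congr_deriv ?_
          ring)
        (fun s => by
          refine ((h.hasDerivAt_dd_left (y - s) y).comp s (hin s)).congr_deriv ?_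
          ring)
        (fun s => by
          refine (((h.hasDerivAt_ddx_left (y - s) y).comp s (hin s)).neg).congr_deriv ?_
          ring)
        (fun s => by
          refine ((hasDerivAt_ddxx h hode (y - s) y).comp s (hin s)).congr_deriv ?_
          ring)
        (fun s => hr0 _) (fun s => by rw [abs_neg]; exact hm0 _)
        (fun s => hr _) (fun s => by
          rw [show -m (y - s) - -m0 (y - s) = -(m (y - s) - m0 (y - s)) by ring, abs_neg]
          exact hm _)
        (by simp [dd_diag]) (by simp [ddx_diag]) (by simp [ddxx_diag, hWP])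
        (by simp [dd_diag]) (by simp [ddx_diag]) (by simp [ddxx_diag, hW]) hs hs1 (by
          simp only [sub_sub_cancel]
          rw [show (y - x) ^ 2 = (x - y) ^ 2 by ring]
          exact hlow')
      simp only [sub_sub_cancel] at k
      rw [← abs_neg]
      refine le_trans (le_of_eq ?_) k
      congr 1
      unfold L1
      ring
    · have hs : 0 < x - y := by linarith
      have hs1 : x - y ≤ 1 / 2 := by
        rw [abs_of_pos hs] at hxy1
        exact hxy1
      have hin : ∀ s : ℝ, HasDerivAt (fun s : ℝ => y + s) 1 s := fun s => by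
        simpa using (hasDerivAt_id s).const_add y
      have hlow' := hlow x y hxy1
      have k := quot_diff (g0 := fun s => dd P (y + s) y) (g1 := fun s => ddx P (y + s) y)
        (g2 := fun s => ddxx P (y + s) y) (R := fun s => r (y + s)) (M := fun s => m (y + s))
        (k0 := fun s => dd P0 (y + s) y) (k1 := fun s => ddx P0 (y + s) y)
        (k2 := fun s => ddxx P0 (y + s) y) (R0 := fun s => r0 (y + s))
        (M0 := fun s => m0 (y + s)) (ε := ε) (K := K) (c := c) hK hε1 hc hεc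
        (fun s => by
          refine ((hP.hasDerivAt_dd_left (y + s) y).comp s (hin s)).congr_deriv ?_
          ring)
        (fun s => by
          refine ((hP.hasDerivAt_ddx_left (y + s) y).comp s (hin s)).congr_deriv ?_
          ring)
        (fun s => by
          refine ((hasDerivAt_ddxx hP hoP (y + s) y).comp s (hin s)).congr_deriv ?_
          ring)
        (fun s => by
          refine ((h.hasDerivAt_dd_left (y + s) y).comp s (hin s)).congr_deriv ?_
          ring)
        (fun s => by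
          refine ((h.hasDerivAt_ddx_left (y + s) y).comp s (hin s)).congr_deriv ?_
          ring)
        (fun s => by
          refine ((hasDerivAt_ddxx h hode (y + s) y).comp s (hin s)).congr_deriv ?_
          ring)
        (fun s => hr0 _) (fun s => hm0 _) (fun s => hr _) (fun s => hm _)
        (by simp [dd_diag]) (by simp [ddx_diag]) (by simp [ddxx_diag, hWP])
        (by simp [dd_diag]) (by simp [ddx_diag]) (by simp [ddxx_diag, hW]) hs hs1 (by
          simp only [add_sub_cancel]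
          exact hlow')
      simp only [add_sub_cancel] at k
      exact k
  intro x y hxy hxy1
  rcases le_or_gt |x - y| (1 / 2) with h1 | h1
  · exact half x y hxy h1
  · rw [abs_lt] at hxy1
    rcases lt_or_gt_of_ne hxy with hlt | hlt
    · have h2 : 1 / 2 < y - x := by
        rw [abs_sub_comm, abs_of_pos (by linarith)] at h1
        exact h1
      have k := half x (y - 1) (by intro he; linarith [hxy1.1])
        (by rw [abs_le]; constructor <;> linarith [hxy1.1])
      have e1 : ∀ {Q : ℝ → Fin 3 → ℝ}, Curve 1 Q → L1 Q x (y - 1) = L1 Q x y := fun hQ => by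
        have := hQ.L1_per_right x (y - 1)
        rw [sub_add_cancel] at this
        exact this.symm
      rwa [e1 hP, e1 h] at k
    · have h2 : 1 / 2 < x - y := by
        rw [abs_of_pos (by linarith)] at h1
        exact h1
      have k := half x (y + 1) (by intro he; linarith [hxy1.2])
        (by rw [abs_le]; constructor <;> linarith [hxy1.2])
      rwa [hP.L1_per_right, h.L1_per_right] at k

end curve

end Pool.Agent.MP_ae5b4e_an_LOC
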