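import Mathlib
import Pool.Agent.Lib.MP_ae5b4e_an_RG.LSys
import Pool.Agent.Lib.MP_ae5b4e_an_LOC.L1g

/-!
# MP_ae5b4e_an, project LOC: the leaves of a solution near an integrable background

`IB P0 w0 F`: the conic `P0` with its pencil; `F w t` is the second tangency point of the leaf with
the rotation number `w`.  If `L1 P` is near `L1 P0` then every curve `L` of `p / q`-periodic points
of a solution with the curve `P` satisfies `L (x + j p / q) ≈ (F (p / q))^[j] (L x)`.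
-/

noncomputable section

namespace Pool.Agent.MP_ae5b4e_an_LOC

open Real Set Filter Topology
open scoped ContDiff
open Pool.Agent.MP_ae5b4e_an_hopf Pool.Agent.MP_ae5b4e_an_RG

/-- an integrable background -/
structure IB (P0 : ℝ → Fin 3 → ℝ) (w0 : ℝ) (F : ℝ → ℝ → ℝ) : Prop where
  curve : Curve 1 P0
  cont : ContinuousOn (fun z : ℝ × ℝ => F z.1 z.2) (Ioo 0 w0 ×ˢ univ)
  gt : ∀ w ∈ Ioo 0 w0, ∀ t, t < F w t
  lt : ∀ w ∈ Ioo 0 w0, ∀ t, F w t < t + 1
  per : ∀ w ∈ Ioo 0 w0, ∀ t, F w (t + 1) = F w t + 1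
  mono_w : ∀ t, StrictMonoOn (fun w => F w t) (Ioo 0 w0)
  mono_t : ∀ w ∈ Ioo 0 w0, StrictMono (F w)
  law : ∀ w ∈ Ioo 0 w0, ∀ t, L1 P0 (F w t) (F w (F w t)) + L1 P0 (F w t) t = 0
  rot : ∀ p q : ℕ, 0 < q → (p:ℝ) / q ∈ Ioo 0 w0 → ∀ t, (F ((p:ℝ) / q))^[q] t = t + p

variable {P0 : ℝ → Fin 3 → ℝ} {w0 : ℝ} {F : ℝ → ℝ → ℝ}

namespace IB

variable (B : IB P0 w0 F)
include B

lemma contF {w : ℝ} (hw : w ∈ Ioo 0 w0) : Continuous (F w) :=
  B.cont.comp_continuous (continuous_const.prodMk continuous_id) fun _ => ⟨hw, trivial⟩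

lemma contW (t : ℝ) : ContinuousOn (fun w => F w t) (Ioo 0 w0) :=
  B.cont.comp (continuousOn_id.prodMk continuousOn_const) fun _ hw => ⟨hw, trivial⟩

/-- the value of `L1` on the leaf -/
lemma contG : ContinuousOn (fun z : ℝ × ℝ => L1 P0 z.2 (F z.1 z.2)) (Ioo 0 w0 ×ˢ univ) := by
  intro z hz
  have h1 : ContinuousWithinAt (fun z : ℝ × ℝ => (z.2, F z.1 z.2)) (Ioo 0 w0 ×ˢ univ) z :=
    continuous_snd.continuousWithinAt.prodMk (B.cont z hz)
  have h2 : ContinuousAt (fun p : ℝ × ℝ => L1 P0 p.1 p.2) (z.2, F z.1 z.2) :=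
    (B.curve.contDiffAt_L1 (p := (z.2, F z.1 z.2))
      (B.curve.dd_pos_right (B.gt _ hz.1 _) (B.lt _ hz.1 _)).ne').continuousAt
  exact h2.comp_continuousWithinAt (f := fun z : ℝ × ℝ => (z.2, F z.1 z.2)) h1

lemma G_per {w : ℝ} (hw : w ∈ Ioo 0 w0) (t : ℝ) :
    L1 P0 (t + 1) (F w (t + 1)) = L1 P0 t (F w t) := by
  rw [B.per w hw, B.curve.L1_per_left, B.curve.L1_per_right]

lemma G_mono {a b : ℝ} (ha : a ∈ Ioo 0 w0) (hb : b ∈ Ioo 0 w0) (hab : a < b) (t : ℝ) :
    L1 P0 t (F a t) < L1 P0 t (F b t) :=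
  B.curve.strictMono_L1 t ⟨B.gt a ha t, B.lt a ha t⟩ ⟨B.gt b hb t, B.lt b hb t⟩
    (B.mono_w t ha hb hab)

/-- the gap between two leaves -/
lemma gap {a b : ℝ} (ha : a ∈ Ioo 0 w0) (hb : b ∈ Ioo 0 w0) (hab : a < b) :
    ∃ g > 0, ∀ t, L1 P0 t (F a t) + g ≤ L1 P0 t (F b t) := by
  have hc : Continuous (fun t => L1 P0 t (F b t) - L1 P0 t (F a t)) := by
    have h1 : ∀ w ∈ Ioo 0 w0, Continuous (fun t => L1 P0 t (F w t)) := fun w hw =>
      B.contG.comp_continuous (f := fun t : ℝ => (w, t)) (by fun_prop) fun _ => ⟨hw, trivial⟩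
    exact (h1 b hb).sub (h1 a ha)
  obtain ⟨t0, -, ht0⟩ := (isCompact_Icc (a := (0:ℝ)) (b := 1)).exists_isMinOn
    (nonempty_Icc.2 zero_le_one) hc.continuousOn
  refine ⟨L1 P0 t0 (F b t0) - L1 P0 t0 (F a t0), sub_pos.2 (B.G_mono ha hb hab t0), fun t => ?_⟩
  have hp : Function.Periodic (fun t => L1 P0 t (F b t) - L1 P0 t (F a t)) 1 := fun t => by
    simp only [B.G_per ha, B.G_per hb]
  obtain ⟨s, hs, hs'⟩ := hp.exists_mem_Ico₀ one_pos t
  have h2 := ht0 (show s ∈ Icc (0:ℝ) 1 from ⟨hs.1, hs.2.le⟩)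
  have h3 : L1 P0 t0 (F b t0) - L1 P0 t0 (F a t0) ≤ L1 P0 s (F b s) - L1 P0 s (F a s) := h2
  linarith

/-- uniform continuity in the rotation number -/
lemma near_w {w : ℝ} (hw : w ∈ Ioo 0 w0) {η : ℝ} (hη : 0 < η) :
    ∃ δ > 0, ∀ a ∈ Ioo 0 w0, |a - w| ≤ δ → ∀ t, |F a t - F w t| ≤ η := by
  obtain ⟨d, hd, hd1, hd2⟩ : ∃ d > 0, 0 < w - d ∧ w + d < w0 :=
    ⟨min (w / 2) ((w0 - w) / 2), lt_min (by linarith [hw.1]) (by linarith [hw.2]), by
      have := min_le_left (w / 2) ((w0 - w) / 2)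
      linarith [hw.1], by
      have := min_le_right (w / 2) ((w0 - w) / 2)
      linarith [hw.2]⟩
  have hK : IsCompact (Icc (w - d) (w + d) ×ˢ Icc (0:ℝ) 1) := isCompact_Icc.prod isCompact_Icc
  have hsub : Icc (w - d) (w + d) ×ˢ Icc (0:ℝ) 1 ⊆ Ioo 0 w0 ×ˢ univ := fun z hz =>
    ⟨⟨hd1.trans_le hz.1.1, hz.1.2.trans_lt hd2⟩, trivial⟩
  have hu := hK.uniformContinuousOn_of_continuous (B.cont.mono hsub)
  rw [Metric.uniformContinuousOn_iff] at hu
  obtain ⟨δ, hδ, hδu⟩ := hu η hη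
  refine ⟨min (δ / 2) d, by positivity, fun a ha haw t => ?_⟩
  have haw' := abs_le.1 (haw.trans (min_le_right _ _))
  have hp : Function.Periodic (fun t => F a t - F w t) 1 := fun t => by
    simp only [B.per a ha, B.per w hw]
    ring
  obtain ⟨s, hs, hs'⟩ := hp.exists_mem_Ico₀ one_pos t
  rw [hs']
  have h1 := hδu (a, s) ⟨⟨by linarith, by linarith⟩, ⟨hs.1, hs.2.le⟩⟩ (w, s)
    ⟨⟨by linarith, by linarith⟩, ⟨hs.1, hs.2.le⟩⟩ (by
      rw [Prod.dist_eq]
      simp only [dist_self, Real.dist_eq]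
      refine max_lt (lt_of_le_of_lt (haw.trans (min_le_left _ _)) (by linarith)) hδ)
  rw [Real.dist_eq] at h1
  exact h1.le

lemma surj {w : ℝ} (hw : w ∈ Ioo 0 w0) (s : ℝ) : ∃ t, F w t = s := by
  have h1 := B.lt w hw (s - 1)
  have h2 := B.gt w hw s
  have h3 := intermediate_value_Icc (show s - 1 ≤ s by linarith) (B.contF hw).continuousOn
  obtain ⟨t, -, ht⟩ := h3 (show s ∈ Icc _ _ from ⟨by linarith, h2.le⟩)
  exact ⟨t, ht⟩

/-- monotonicity of `L1` on the left -/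
lemma L1_left {X a b : ℝ} (ha : X - 1 < a) (hab : a ≤ b) (hb : b < X) :
    L1 P0 X a ≤ L1 P0 X b := by
  have h1 := (B.curve.strictMono_L1 X).monotoneOn (show a + 1 ∈ Ioo X (X + 1) from
    ⟨by linarith, by linarith⟩) (show b + 1 ∈ Ioo X (X + 1) from ⟨by linarith, by linarith⟩)
    (by linarith : a + 1 ≤ b + 1)
  simp only [B.curve.L1_per_right] at h1
  exact h1

lemma mono_of_L1 {X a b : ℝ} (ha : a ∈ Ioo X (X + 1)) (hb : b ∈ Ioo X (X + 1))
    (h : L1 P0 X a ≤ L1 P0 X b) : a ≤ b := by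
  by_contra hcon
  rw [not_le] at hcon
  have := B.curve.strictMono_L1 X hb ha hcon
  exact absurd this (not_lt.2 h)

lemma iter_mono {w : ℝ} (hw : w ∈ Ioo 0 w0) (j : ℕ) : StrictMono ((F w)^[j]) :=
  (B.mono_t w hw).iterate j

lemma iter_per {w : ℝ} (hw : w ∈ Ioo 0 w0) (j : ℕ) (t : ℝ) :
    (F w)^[j] (t + 1) = (F w)^[j] t + 1 := by
  induction j with
  | zero => simp
  | succ j ih =>
    rw [Function.iterate_succ_apply', Function.iterate_succ_apply', ih, B.per w hw]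

lemma iter_lt {a b : ℝ} (ha : a ∈ Ioo 0 w0) (hb : b ∈ Ioo 0 w0) (hab : a < b) {q : ℕ}
    (hq : 0 < q) (t : ℝ) : (F a)^[q] t < (F b)^[q] t := by
  obtain ⟨n, rfl⟩ : ∃ n, q = n + 1 := ⟨q - 1, by omega⟩
  have hle : ∀ j : ℕ, (F a)^[j] t ≤ (F b)^[j] t := by
    intro j
    induction j with
    | zero => simp
    | succ j ih =>
      rw [Function.iterate_succ_apply', Function.iterate_succ_apply']
      exact (B.mono_w _ ha hb hab).le.trans ((B.mono_t b hb).monotone ih)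
  rw [Function.iterate_succ_apply', Function.iterate_succ_apply']
  exact (B.mono_w _ ha hb hab).trans_le ((B.mono_t b hb).monotone (hle n))

end IB

/-- the orbit of a point along a curve of periodic points, as used below -/
structure Orb1 (P : ℝ → Fin 3 → ℝ) (q p : ℕ) (X : ℕ → ℝ) : Prop where
  lt : ∀ j, X j < X (j + 1)
  lt1 : ∀ j, X (j + 1) < X j + 1
  law : ∀ j, L1 P (X (j + 1)) (X (j + 2)) + L1 P (X (j + 1)) (X j) = 0
  per : ∀ j, X (j + q) = X j + p

variable {P : ℝ → Fin 3 → ℝ} {U : ℝ → ℝ → ℝ} {p q : ℕ}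

lemma orb1_of_pleaf (h : LSys 1 P U (fun _ => 0)) (hq : 0 < q) {L : ℝ → ℝ}
    (hL : PLeaf 1 (nxt P 1 U) p q L) (x : ℝ) :
    Orb1 P q p (fun j => L (x + j * ((p:ℝ) / q))) := by
  have hq0 : (0:ℝ) < q := by exact_mod_cast hq
  have e1 : ∀ j : ℕ, x + ((j + 1 : ℕ) : ℝ) * ((p:ℝ) / q) = x + j * ((p:ℝ) / q) + (p:ℝ) / q :=
    fun j => by
      push_cast
      ring
  have key : ∀ y, L y < L (y + (p:ℝ) / q) ∧ L (y + (p:ℝ) / q) < L y + 1 ∧
      L1 P (L y) (L (y + (p:ℝ) / q)) + L1 P (L y) (L (y - (p:ℝ) / q)) = 0 := by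
    intro y
    obtain ⟨c, hc, f1, f2⟩ := hL.com y
    rw [mul_one] at f1 f2
    have k1 := h.law hc (L (y - (p:ℝ) / q))
    rw [f1, f2] at k1
    obtain ⟨a1, a2, -⟩ := h.nxt_spec c (L y)
    rw [f2] at a1 a2
    exact ⟨a1, a2, by linarith⟩
  refine ⟨fun j => ?_, fun j => ?_, fun j => ?_, fun j => ?_⟩
  · simp only [e1]
    exact (key _).1
  · simp only [e1]
    exact (key _).2.1
  · have e2 : x + ((j + 2 : ℕ) : ℝ) * ((p:ℝ) / q) =
        x + j * ((p:ℝ) / q) + (p:ℝ) / q + (p:ℝ) / q := by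
      push_cast
      ring
    simp only [e1, e2]
    have := (key (x + j * ((p:ℝ) / q) + (p:ℝ) / q)).2.2
    rw [add_sub_cancel_right] at this
    exact this
  · have e3 : x + ((j + q : ℕ) : ℝ) * ((p:ℝ) / q) = x + j * ((p:ℝ) / q) + p := by
      push_cast
      field_simp
      ring
    simp only [e3]
    have hn : ∀ (n : ℕ) y, L (y + n) = L y + n := by
      intro n y
      induction n with
      | zero => simp
      | succ n ih =>
        have e4 : y + ((n + 1 : ℕ) : ℝ) = (y + n) + 1 := by push_cast; ring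
        rw [e4, hL.per, ih]
        push_cast
        ring
    exact hn p _

/-- Upper bound. -/
lemma step_upper (B : IB P0 w0 F) (hq : 0 < q) (hw : (p:ℝ) / q ∈ Ioo 0 w0) {w1 : ℝ}
    (hw1 : w1 ∈ Ioo 0 w0) (hlt : (p:ℝ) / q < w1) : ∃ ε > 0, ∀ (P : ℝ → Fin 3 → ℝ) (X : ℕ → ℝ),
      (∀ x y, x ≠ y → |x - y| < 1 → |L1 P x y - L1 P0 x y| ≤ ε) → Orb1 P q p X →
      ∀ i, X (i + 1) ≤ F w1 (X i) := by
  set w : ℝ := (p:ℝ) / q with hwd
  set a : ℕ → ℝ := fun j => w1 - j * ((w1 - w) / (q + 1)) with ha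
  have hd : 0 < (w1 - w) / (q + 1) := div_pos (by linarith) (by positivity)
  have ha0 : a 0 = w1 := by simp [ha]
  have haq : ∀ j ≤ q, w < a j ∧ a j ≤ w1 := by
    intro j hj
    have hj' : (j:ℝ) ≤ q := by exact_mod_cast hj
    simp only [ha]
    constructor
    · have h1 : (j:ℝ) * ((w1 - w) / (q + 1)) ≤ q * ((w1 - w) / (q + 1)) :=
        mul_le_mul_of_nonneg_right hj' hd.le
      have h2 : (q:ℝ) * ((w1 - w) / (q + 1)) < (q + 1) * ((w1 - w) / (q + 1)) :=
        mul_lt_mul_of_pos_right (by linarith) hd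
      have h3 : ((q:ℝ) + 1) * ((w1 - w) / (q + 1)) = w1 - w := by
        field_simp
      linarith
    · have : 0 ≤ (j:ℝ) * ((w1 - w) / (q + 1)) := by positivity
      linarith
  have ham : ∀ j ≤ q, a j ∈ Ioo 0 w0 := fun j hj =>
    ⟨hw.1.trans (haq j hj).1, (haq j hj).2.trans_lt hw1.2⟩
  have hsucc : ∀ j, a (j + 1) < a j := fun j => by
    simp only [ha]
    push_cast
    linarith
  -- the gaps
  have hg : ∀ j : ℕ, ∃ g > 0, j < q → ∀ t, L1 P0 t (F (a (j + 1)) t) + g ≤ L1 P0 t (F (a j) t) := by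
    intro j
    by_cases hj : j < q
    · obtain ⟨g, h1, h2⟩ := B.gap (ham (j + 1) hj) (ham j hj.le) (hsucc j)
      exact ⟨g, h1, fun _ => h2⟩
    · exact ⟨1, one_pos, fun h => absurd h hj⟩
  choose g hg0 hg1 using hg
  have hne : (Finset.range q).Nonempty := ⟨0, Finset.mem_range.2 hq⟩
  set g0 : ℝ := (Finset.range q).inf' hne g with hg0d
  have hg00 : 0 < g0 := by
    rw [hg0d, Finset.lt_inf'_iff]
    exact fun j _ => hg0 j
  refine ⟨g0 / 2, by positivity, ?_⟩
  intro P X hclose hX i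
  by_contra hcon
  rw [not_le] at hcon
  have hind : ∀ j ≤ q, F (a j) (X (i + j)) ≤ X (i + j + 1) := by
    intro j
    induction j with
    | zero =>
      intro _
      rw [ha0]
      exact hcon.le
    | succ j ih =>
      intro hj
      have hj' : j < q := hj
      have ih' := ih hj'.le
      have hwj := ham j hj'.le
      set Y : ℝ := X (i + j + 1) with hY
      obtain ⟨Z, hZ⟩ := B.surj hwj Y
      have hZ1 : X (i + j) ≤ Z := by
        rw [← hZ] at ih'
        exact (B.mono_t _ hwj).le_iff_le.1 ih'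
      have hZ2 : Z < Y := by
        have := B.gt _ hwj Z
        rwa [hZ] at this
      have h1 : X (i + j) < Y := hX.lt (i + j)
      have h2 : Y < X (i + j) + 1 := hX.lt1 (i + j)
      have h3 : Y < X (i + j + 2) := hX.lt (i + j + 1)
      have h4 : X (i + j + 2) < Y + 1 := hX.lt1 (i + j + 1)
      have hl := hX.law (i + j)
      have c1 := abs_le.1 (hclose Y (X (i + j + 2)) h3.ne (by rw [abs_lt]; constructor <;> linarith))
      have c2 := abs_le.1 (hclose Y (X (i + j)) h1.ne' (by rw [abs_lt]; constructor <;> linarith))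
      have hlaw := B.law _ hwj Z
      rw [hZ] at hlaw
      have hleft := B.L1_left (X := Y) (a := X (i + j)) (b := Z) (by linarith) hZ1 hZ2
      have hgap := hg1 j hj' Y
      have hgm : g0 ≤ g j := Finset.inf'_le _ (Finset.mem_range.2 hj')
      have e1 : X (i + (j + 1) + 1) = X (i + j + 2) := rfl
      have e2 : X (i + (j + 1)) = Y := rfl
      rw [e1, e2]
      refine B.mono_of_L1 ⟨B.gt _ (ham (j + 1) hj) Y, B.lt _ (ham (j + 1) hj) Y⟩ ⟨h3, h4⟩ ?_
      linarith [c1.1, c2.1, c1.2, c2.2, hl]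
  have hqm := ham q le_rfl
  have hiter : ∀ j ≤ q, (F (a q))^[j] (X i) ≤ X (i + j) := by
    intro j
    induction j with
    | zero => intro _; simp
    | succ j ih =>
      intro hj
      rw [Function.iterate_succ_apply']
      have h1 := ih (by omega)
      have h2 := hind j (by omega)
      have haj : a q ≤ a j := by
        have hj' : (j:ℝ) ≤ q := by exact_mod_cast (by omega : j ≤ q)
        simp only [ha]
        have := mul_le_mul_of_nonneg_right hj' hd.le
        linarith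
      have h3 : F (a q) (X (i + j)) ≤ F (a j) (X (i + j)) :=
        (B.mono_w _).monotoneOn hqm (ham j (by omega)) haj
      exact ((B.mono_t _ hqm).monotone h1).trans (h3.trans h2)
  have h5 := hiter q le_rfl
  have h6 := B.iter_lt hw hqm (haq q le_rfl).1 hq (X i)
  have h7 := B.rot p q hq hw (X i)
  rw [hX.per] at h5
  rw [h7] at h6
  linarith

/-- Lower bound. -/
lemma step_lower (B : IB P0 w0 F) (hq : 0 < q) (hw : (p:ℝ) / q ∈ Ioo 0 w0) {w1 : ℝ}
    (hw1 : w1 ∈ Ioo 0 w0) (hlt : w1 < (p:ℝ) / q) : ∃ ε > 0, ∀ (P : ℝ → Fin 3 → ℝ) (X : ℕ → ℝ),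
      (∀ x y, x ≠ y → |x - y| < 1 → |L1 P x y - L1 P0 x y| ≤ ε) → Orb1 P q p X →
      ∀ i, F w1 (X i) ≤ X (i + 1) := by
  set w : ℝ := (p:ℝ) / q with hwd
  set a : ℕ → ℝ := fun j => w1 + j * ((w - w1) / (q + 1)) with ha
  have hd : 0 < (w - w1) / (q + 1) := div_pos (by linarith) (by positivity)
  have ha0 : a 0 = w1 := by simp [ha]
  have haq : ∀ j ≤ q, a j < w ∧ w1 ≤ a j := by
    intro j hj
    have hj' : (j:ℝ) ≤ q := by exact_mod_cast hj
    simp only [ha]
    constructor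
    · have h1 : (j:ℝ) * ((w - w1) / (q + 1)) ≤ q * ((w - w1) / (q + 1)) :=
        mul_le_mul_of_nonneg_right hj' hd.le
      have h2 : (q:ℝ) * ((w - w1) / (q + 1)) < (q + 1) * ((w - w1) / (q + 1)) :=
        mul_lt_mul_of_pos_right (by linarith) hd
      have h3 : ((q:ℝ) + 1) * ((w - w1) / (q + 1)) = w - w1 := by
        field_simp
      linarith
    · have : 0 ≤ (j:ℝ) * ((w - w1) / (q + 1)) := by positivity
      linarith
  have ham : ∀ j ≤ q, a j ∈ Ioo 0 w0 := fun j hj =>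
    ⟨hw1.1.trans_le (haq j hj).2, (haq j hj).1.trans hw.2⟩
  have hsucc : ∀ j, a j < a (j + 1) := fun j => by
    simp only [ha]
    push_cast
    linarith
  have hg : ∀ j : ℕ, ∃ g > 0, j < q → ∀ t, L1 P0 t (F (a j) t) + g ≤ L1 P0 t (F (a (j + 1)) t) := by
    intro j
    by_cases hj : j < q
    · obtain ⟨g, h1, h2⟩ := B.gap (ham j hj.le) (ham (j + 1) hj) (hsucc j)
      exact ⟨g, h1, fun _ => h2⟩
    · exact ⟨1, one_pos, fun h => absurd h hj⟩
  choose g hg0 hg1 using hg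
  have hne : (Finset.range q).Nonempty := ⟨0, Finset.mem_range.2 hq⟩
  set g0 : ℝ := (Finset.range q).inf' hne g with hg0d
  have hg00 : 0 < g0 := by
    rw [hg0d, Finset.lt_inf'_iff]
    exact fun j _ => hg0 j
  refine ⟨g0 / 2, by positivity, ?_⟩
  intro P X hclose hX i
  by_contra hcon
  rw [not_le] at hcon
  have hind : ∀ j ≤ q, X (i + j + 1) ≤ F (a j) (X (i + j)) := by
    intro j
    induction j with
    | zero =>
      intro _
      rw [ha0]
      exact hcon.le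
    | succ j ih =>
      intro hj
      have hj' : j < q := hj
      have ih' := ih hj'.le
      have hwj := ham j hj'.le
      set Y : ℝ := X (i + j + 1) with hY
      obtain ⟨Z, hZ⟩ := B.surj hwj Y
      have hZ1 : Z ≤ X (i + j) := by
        rw [← hZ] at ih'
        exact (B.mono_t _ hwj).le_iff_le.1 ih'
      have hZ2 : Y < Z + 1 := by
        have := B.lt _ hwj Z
        rwa [hZ] at this
      have h1 : X (i + j) < Y := hX.lt (i + j)
      have h2 : Y < X (i + j) + 1 := hX.lt1 (i + j)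
      have h3 : Y < X (i + j + 2) := hX.lt (i + j + 1)
      have h4 : X (i + j + 2) < Y + 1 := hX.lt1 (i + j + 1)
      have hl := hX.law (i + j)
      have c1 := abs_le.1 (hclose Y (X (i + j + 2)) h3.ne (by rw [abs_lt]; constructor <;> linarith))
      have c2 := abs_le.1 (hclose Y (X (i + j)) h1.ne' (by rw [abs_lt]; constructor <;> linarith))
      have hlaw := B.law _ hwj Z
      rw [hZ] at hlaw
      have hleft := B.L1_left (X := Y) (a := Z) (b := X (i + j)) (by linarith) hZ1 h1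
      have hgap := hg1 j hj' Y
      have hgm : g0 ≤ g j := Finset.inf'_le _ (Finset.mem_range.2 hj')
      have e1 : X (i + (j + 1) + 1) = X (i + j + 2) := rfl
      have e2 : X (i + (j + 1)) = Y := rfl
      rw [e1, e2]
      refine B.mono_of_L1 ⟨h3, h4⟩ ⟨B.gt _ (ham (j + 1) hj) Y, B.lt _ (ham (j + 1) hj) Y⟩ ?_
      linarith [c1.1, c2.1, c1.2, c2.2, hl]
  have hqm := ham q le_rfl
  have hiter : ∀ j ≤ q, X (i + j) ≤ (F (a q))^[j] (X i) := by
    intro j
    induction j with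
    | zero => intro _; simp
    | succ j ih =>
      intro hj
      rw [Function.iterate_succ_apply']
      have h1 := ih (by omega)
      have h2 := hind j (by omega)
      have haj : a j ≤ a q := by
        have hj' : (j:ℝ) ≤ q := by exact_mod_cast (by omega : j ≤ q)
        simp only [ha]
        have := mul_le_mul_of_nonneg_right hj' hd.le
        linarith
      have h3 : F (a j) (X (i + j)) ≤ F (a q) (X (i + j)) :=
        (B.mono_w _).monotoneOn (ham j (by omega)) hqm haj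
      exact h2.trans (h3.trans ((B.mono_t _ hqm).monotone h1))
  have h5 := hiter q le_rfl
  have h6 := B.iter_lt hqm hw (haq q le_rfl).1 hq (X i)
  have h7 := B.rot p q hq hw (X i)
  rw [hX.per] at h5
  rw [h7] at h6
  linarith

/-- One step: `L (x + p / q)` is near `F (p / q) (L x)`. -/
theorem step_close (B : IB P0 w0 F) (hq : 0 < q) (hw : (p:ℝ) / q ∈ Ioo 0 w0) {η : ℝ}
    (hη : 0 < η) : ∃ ε > 0, ∀ (P : ℝ → Fin 3 → ℝ) (X : ℕ → ℝ),
      (∀ x y, x ≠ y → |x - y| < 1 → |L1 P x y - L1 P0 x y| ≤ ε) → Orb1 P q p X →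
      ∀ i, |X (i + 1) - F ((p:ℝ) / q) (X i)| ≤ η := by
  obtain ⟨δ, hδ, hδw⟩ := B.near_w hw hη
  set w : ℝ := (p:ℝ) / q with hwd
  obtain ⟨a, ha, haw, had⟩ : ∃ a ∈ Ioo 0 w0, w < a ∧ |a - w| ≤ δ := by
    refine ⟨w + min δ ((w0 - w) / 2), ⟨?_, ?_⟩, ?_, ?_⟩
    · have : 0 < min δ ((w0 - w) / 2) := lt_min hδ (by linarith [hw.2])
      linarith [hw.1]
    · have := min_le_right δ ((w0 - w) / 2)
      linarith [hw.2]
    · have : 0 < min δ ((w0 - w) / 2) := lt_min hδ (by linarith [hw.2])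
      linarith
    · rw [add_sub_cancel_left, abs_of_pos (lt_min hδ (by linarith [hw.2]))]
      exact min_le_left _ _
  obtain ⟨b, hb, hbw, hbd⟩ : ∃ b ∈ Ioo 0 w0, b < w ∧ |b - w| ≤ δ := by
    refine ⟨w - min δ (w / 2), ⟨?_, ?_⟩, ?_, ?_⟩
    · have := min_le_right δ (w / 2)
      linarith [hw.1]
    · have : 0 < min δ (w / 2) := lt_min hδ (by linarith [hw.1])
      linarith [hw.2]
    · have : 0 < min δ (w / 2) := lt_min hδ (by linarith [hw.1])
      linarith
    · rw [sub_sub_cancel_left, abs_neg, abs_of_pos (lt_min hδ (by linarith [hw.1]))]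
      exact min_le_left _ _
  obtain ⟨ε1, hε1, H1⟩ := step_upper B hq hw ha haw
  obtain ⟨ε2, hε2, H2⟩ := step_lower B hq hw hb hbw
  refine ⟨min ε1 ε2, lt_min hε1 hε2, fun P X hc hX i => ?_⟩
  have k1 := H1 P X (fun x y h1 h2 => (hc x y h1 h2).trans (min_le_left _ _)) hX i
  have k2 := H2 P X (fun x y h1 h2 => (hc x y h1 h2).trans (min_le_right _ _)) hX i
  have k3 := abs_le.1 (hδw a ha had (X i))
  have k4 := abs_le.1 (hδw b hb hbd (X i))
  rw [abs_le]
  constructor <;> linarith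

/-- uniform continuity of the map of a leaf -/
lemma IB.unif (B : IB P0 w0 F) {w : ℝ} (hw : w ∈ Ioo 0 w0) {η : ℝ} (hη : 0 < η) :
    ∃ δ > 0, ∀ s t, |s - t| ≤ δ → |F w s - F w t| ≤ η := by
  have hu := (isCompact_Icc (a := (-1:ℝ)) (b := 2)).uniformContinuousOn_of_continuous
    (B.contF hw).continuousOn
  rw [Metric.uniformContinuousOn_iff] at hu
  obtain ⟨δ, hδ, hδu⟩ := hu η hη
  refine ⟨min (δ / 2) 1, by positivity, fun s t hst => ?_⟩
  have h1 := abs_le.1 (hst.trans (min_le_right _ _))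
  have h2 := hst.trans (min_le_left _ _)
  have hp : Function.Periodic (fun x => F w (x + (s - t)) - F w x) 1 := fun x => by
    simp only
    rw [show x + 1 + (s - t) = x + (s - t) + 1 by ring, B.per w hw, B.per w hw]
    ring
  obtain ⟨x, hx, hx'⟩ := hp.exists_mem_Ico₀ one_pos t
  simp only [add_sub_cancel] at hx'
  rw [hx']
  have h3 := hδu (x + (s - t)) ⟨by linarith [hx.1], by linarith [hx.2]⟩ x
    ⟨by linarith [hx.1], by linarith [hx.2]⟩ (by
      rw [Real.dist_eq, add_sub_cancel_left]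
      linarith)
  rw [Real.dist_eq] at h3
  exact h3.le

/-- THE LEAVES: along every curve of `p / q`-periodic points the orbits are near the orbits of the
background. -/
theorem orbit_close (B : IB P0 w0 F) (hq : 0 < q) (hw : (p:ℝ) / q ∈ Ioo 0 w0) (n : ℕ) {η : ℝ}
    (hη : 0 < η) : ∃ ε > 0, ∀ (P : ℝ → Fin 3 → ℝ) (X : ℕ → ℝ),
      (∀ x y, x ≠ y → |x - y| < 1 → |L1 P x y - L1 P0 x y| ≤ ε) → Orb1 P q p X →
      ∀ i, ∀ j ≤ n, |X (i + j) - (F ((p:ℝ) / q))^[j] (X i)| ≤ η := by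
  induction n generalizing η with
  | zero =>
    refine ⟨1, one_pos, fun P X _ _ i j hj => ?_⟩
    obtain rfl : j = 0 := by omega
    simp [hη.le]
  | succ n ih =>
    obtain ⟨δ, hδ, hδu⟩ := B.unif hw (η := η / 2) (by positivity)
    obtain ⟨ε1, hε1, H1⟩ := ih (η := min δ η) (lt_min hδ hη)
    obtain ⟨ε2, hε2, H2⟩ := step_close B hq hw (η := η / 2) (by positivity)
    refine ⟨min ε1 ε2, lt_min hε1 hε2, fun P X hc hX i j hj => ?_⟩
    have k1 := H1 P X (fun x y h1 h2 => (hc x y h1 h2).trans (min_le_left _ _)) hX i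
    have k2 := H2 P X (fun x y h1 h2 => (hc x y h1 h2).trans (min_le_right _ _)) hX
    rcases Nat.lt_or_ge j (n + 1) with h1 | h1
    · exact (k1 j (by omega)).trans (min_le_right _ _)
    · obtain rfl : j = n + 1 := by omega
      rw [Function.iterate_succ_apply']
      have k3 := hδu _ _ ((k1 n le_rfl).trans (min_le_left _ _))
      have k4 := k2 (i + n)
      have e1 : X (i + (n + 1)) - F ((p:ℝ) / q) ((F ((p:ℝ) / q))^[n] (X i)) =
          (X (i + n + 1) - F ((p:ℝ) / q) (X (i + n))) +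
          (F ((p:ℝ) / q) (X (i + n)) - F ((p:ℝ) / q) ((F ((p:ℝ) / q))^[n] (X i))) := by
        rw [show i + (n + 1) = i + n + 1 from rfl]
        ring
      rw [e1]
      refine (abs_add_le _ _).trans ?_
      linarith

/-- the value of `L1` on the leaf is near its value for the background -/
theorem L1_leaf_close (B : IB P0 w0 F) (hq : 0 < q) (hw : (p:ℝ) / q ∈ Ioo 0 w0) {η : ℝ}
    (hη : 0 < η) : ∃ ε > 0, ∀ (P : ℝ → Fin 3 → ℝ) (X : ℕ → ℝ),
      (∀ x y, x ≠ y → |x - y| < 1 → |L1 P x y - L1 P0 x y| ≤ ε) → Orb1 P q p X →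
      ∀ i, |L1 P (X i) (X (i + 1)) - L1 P0 (X i) (F ((p:ℝ) / q) (X i))| ≤ η := by
  set w : ℝ := (p:ℝ) / q with hwd
  -- uniform continuity of `L1 P0` near the graph of `F w`
  obtain ⟨d, hd, hd1⟩ : ∃ d > 0, ∀ t, t + d ≤ F w t ∧ F w t + d ≤ t + 1 := by
    obtain ⟨t1, -, h1⟩ := (isCompact_Icc (a := (0:ℝ)) (b := 1)).exists_isMinOn
      (nonempty_Icc.2 zero_le_one) ((B.contF hw).sub continuous_id).continuousOn
    obtain ⟨t2, -, h2⟩ := (isCompact_Icc (a := (0:ℝ)) (b := 1)).exists_isMaxOn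
      (nonempty_Icc.2 zero_le_one) ((B.contF hw).sub continuous_id).continuousOn
    have hp : Function.Periodic (fun t => F w t - t) 1 := fun t => by
      simp only [B.per w hw]
      ring
    refine ⟨min (F w t1 - t1) (t2 + 1 - F w t2), lt_min (sub_pos.2 (B.gt w hw t1))
      (by linarith [B.lt w hw t2]), fun t => ?_⟩
    obtain ⟨s, hs, hs'⟩ := hp.exists_mem_Ico₀ one_pos t
    have k1 : F w t1 - t1 ≤ F w s - s := h1 (show s ∈ Icc (0:ℝ) 1 from ⟨hs.1, hs.2.le⟩)
    have k2 : F w s - s ≤ F w t2 - t2 := h2 (show s ∈ Icc (0:ℝ) 1 from ⟨hs.1, hs.2.le⟩)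
    have k3 := min_le_left (F w t1 - t1) (t2 + 1 - F w t2)
    have k4 := min_le_right (F w t1 - t1) (t2 + 1 - F w t2)
    constructor <;> linarith
  have hK : IsCompact (Icc (0:ℝ) 1 ×ˢ Icc (d / 2) (1 - d / 2)) := isCompact_Icc.prod isCompact_Icc
  have hc : ContinuousOn (fun z : ℝ × ℝ => L1 P0 z.1 (z.1 + z.2))
      (Icc (0:ℝ) 1 ×ˢ Icc (d / 2) (1 - d / 2)) := by
    intro z hz
    have h2 : ContinuousAt (fun p : ℝ × ℝ => L1 P0 p.1 p.2) (z.1, z.1 + z.2) :=
      (B.curve.contDiffAt_L1 (p := (z.1, z.1 + z.2))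
        (B.curve.dd_pos_right (by simp only; linarith [hz.2.1])
          (by simp only; linarith [hz.2.2])).ne').continuousAt
    have h3 : ContinuousAt (fun z : ℝ × ℝ => (z.1, z.1 + z.2)) z := by fun_prop
    exact (ContinuousAt.comp (f := fun z : ℝ × ℝ => (z.1, z.1 + z.2)) h2 h3).continuousWithinAt
  have hu := hK.uniformContinuousOn_of_continuous hc
  rw [Metric.uniformContinuousOn_iff] at hu
  obtain ⟨δ, hδ, hδu⟩ := hu (η / 2) (by positivity)
  obtain ⟨ε1, hε1, H1⟩ := step_close B hq hw (η := min (δ / 2) (d / 2)) (by positivity)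
  refine ⟨min ε1 (η / 2), by positivity, fun P X hcl hX i => ?_⟩
  have k1 := H1 P X (fun x y h1 h2 => (hcl x y h1 h2).trans (min_le_left _ _)) hX i
  have a1 := hX.lt i
  have a2 := hX.lt1 i
  have k2 := (hcl (X i) (X (i + 1)) a1.ne (by rw [abs_lt]; constructor <;> linarith)).trans
    (min_le_right _ _)
  -- reduce to `[0, 1)`
  have hp : ∀ t y, L1 P0 (t + 1) (t + 1 + y) = L1 P0 t (t + y) := fun t y => by
    rw [show t + 1 + y = t + y + 1 by ring, B.curve.L1_per_left, B.curve.L1_per_right]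
  have hd' := hd1 (X i)
  have k3 := abs_le.1 (k1.trans (min_le_right _ _))
  have k4 : |L1 P0 (X i) (X i + (X (i + 1) - X i)) - L1 P0 (X i) (X i + (F w (X i) - X i))| ≤
      η / 2 := by
    set y1 : ℝ := X (i + 1) - X i with hy1
    set y2 : ℝ := F w (X i) - X i with hy2
    have hper : Function.Periodic (fun t => L1 P0 t (t + y1) - L1 P0 t (t + y2)) 1 := fun t => by
      simp only [hp]
    obtain ⟨s, hs, hs'⟩ := hper.exists_mem_Ico₀ one_pos (X i)
    rw [hs']
    have k5 := hδu (s, y1) ⟨⟨hs.1, hs.2.le⟩, ⟨by linarith, by linarith⟩⟩ (s, y2)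
      ⟨⟨hs.1, hs.2.le⟩, ⟨by linarith, by linarith⟩⟩ (by
        rw [Prod.dist_eq]
        simp only [dist_self, Real.dist_eq]
        refine max_lt hδ ?_
        have e1 : y1 - y2 = X (i + 1) - F w (X i) := by
          rw [hy1, hy2]
          ring
        rw [e1]
        exact lt_of_le_of_lt (k1.trans (min_le_left _ _)) (by linarith))
    rw [Real.dist_eq] at k5
    exact k5.le
  rw [add_sub_cancel, add_sub_cancel] at k4
  have e2 : L1 P (X i) (X (i + 1)) - L1 P0 (X i) (F w (X i)) =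
      (L1 P (X i) (X (i + 1)) - L1 P0 (X i) (X (i + 1))) +
      (L1 P0 (X i) (X (i + 1)) - L1 P0 (X i) (F w (X i))) := by ring
  rw [e2]
  refine (abs_add_le _ _).trans ?_
  linarith

end Pool.Agent.MP_ae5b4e_an_LOC
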