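import Mathlib
import Pool.Agent.Lib.MP_ae5b4e_an_LOC.Pon1
import Pool.Agent.Lib.MP_ae5b4e_an_hopf.Tangent

/-!
# LOC: the real Poncelet map of a pencil

`GG m ε` is the map from one tangency point of the conic `PJ m (4 K x)` to the other one, for the
points of the member `ε` of the pencil; `Ph m ε` is the invariant time.
-/

set_option autoImplicit false

namespace Pool.Agent.MP_ae5b4e_an_LOC

open Set Filter Topology
open scoped ContDiff Matrix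
open Pool.Agent.MP_ae5b4e_an_hopf (det3 dd ddx Wr L1 Curve nx)

noncomputable section

variable {m : ℝ}

/-- the reference conic -/
def P0J (m : ℝ) : ℝ → Fin 3 → ℝ := PM m (-1)

lemma det_neg_one3 : (-1 : Matrix (Fin 3) (Fin 3) ℝ).det < 0 := by
  rw [Matrix.det_neg]
  norm_num

lemma curve_P0J (h0 : 0 ≤ m) (h1 : m < 1) : Curve 1 (P0J m) := curve_PM _ h0 h1 det_neg_one3

lemma L1_P0J (h0 : 0 ≤ m) (h1 : m < 1) {M : Matrix (Fin 3) (Fin 3) ℝ} (hM : M.det < 0) (x y : ℝ) :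
    L1 (PM m M) x y = L1 (P0J m) x y := by
  rw [P0J, L1_PM M h0 h1 hM, L1_PM _ h0 h1 det_neg_one3]

/-- the speed -/
def VV (m ε x : ℝ) : ℝ := 4 * KK m * √(1 / ε - dn m (4 * KK m * x) ^ 2)

lemma VV_arg (h0 : 0 ≤ m) (h1 : m < 1) {ε : ℝ} (hε : ε ∈ Ioo (0:ℝ) 1) (x : ℝ) :
    0 < 1 / ε - dn m (4 * KK m * x) ^ 2 := by
  have a := dn_pos h0 h1 (4 * KK m * x)
  have b := dn_le h0 (4 * KK m * x)
  have c : 1 < 1 / ε := by
    rw [lt_div_iff₀ hε.1, one_mul]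
    exact hε.2
  nlinarith

lemma VV_pos (h0 : 0 ≤ m) (h1 : m < 1) {ε : ℝ} (hε : ε ∈ Ioo (0:ℝ) 1) (x : ℝ) : 0 < VV m ε x := by
  have := KK_pos h0 h1
  exact mul_pos (by linarith) (Real.sqrt_pos.2 (VV_arg h0 h1 hε x))

lemma VV_sq (h0 : 0 ≤ m) (h1 : m < 1) {ε : ℝ} (hε : ε ∈ Ioo (0:ℝ) 1) (x : ℝ) :
    VV m ε x ^ 2 = (4 * KK m) ^ 2 * (1 / ε - dn m (4 * KK m * x) ^ 2) := by
  unfold VV
  rw [mul_pow, Real.sq_sqrt (VV_arg h0 h1 hε x).le]

lemma VV_half (h0 : 0 ≤ m) (h1 : m < 1) (ε x : ℝ) : VV m ε (x + 1 / 2) = VV m ε x := by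
  unfold VV
  rw [show 4 * KK m * (x + 1 / 2) = 4 * KK m * x + 2 * KK m by ring, dn_add h0 h1]

lemma VV_per (h0 : 0 ≤ m) (h1 : m < 1) (ε x : ℝ) : VV m ε (x + 1) = VV m ε x := by
  rw [show x + 1 = x + 1 / 2 + 1 / 2 by ring, VV_half h0 h1, VV_half h0 h1]

lemma VV_neg (h0 : 0 ≤ m) (h1 : m < 1) (ε x : ℝ) : VV m ε (-x) = VV m ε x := by
  unfold VV
  rw [mul_neg, dn_neg h0 h1]

lemma VV_strictAnti (h0 : 0 ≤ m) (h1 : m < 1) {a b : ℝ} (ha : a ∈ Ioo (0:ℝ) 1)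
    (hb : b ∈ Ioo (0:ℝ) 1) (hab : a < b) (x : ℝ) : VV m b x < VV m a x := by
  have := KK_pos h0 h1
  refine mul_lt_mul_of_pos_left (Real.sqrt_lt_sqrt (VV_arg h0 h1 hb x).le ?_) (by linarith)
  have := one_div_lt_one_div_of_lt ha.1 hab
  linarith

lemma VV_smooth (h0 : 0 ≤ m) (h1 : m < 1) {p : ℝ × ℝ} (hp : p.1 ∈ Ioo (0:ℝ) 1) :
    ContDiffAt ℝ ∞ (fun p : ℝ × ℝ => VV m p.1 p.2) p := by
  have hd := (jac_smooth h0 h1).2.2
  have e1 : ContDiffAt ℝ ∞ (fun p : ℝ × ℝ => 1 / p.1) p :=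
    contDiffAt_const.div contDiffAt_fst hp.1.ne'
  have e2 : ContDiffAt ℝ ∞ (fun p : ℝ × ℝ => dn m (4 * KK m * p.2) ^ 2) p :=
    ((hd.comp (contDiff_const.mul contDiff_snd)).pow 2).contDiffAt
  exact contDiffAt_const.mul ((e1.sub e2).sqrt (VV_arg h0 h1 hp p.2).ne')

lemma VV_cont (h0 : 0 ≤ m) (h1 : m < 1) (ε : ℝ) : Continuous (VV m ε) := by
  have hd := (jac_smooth h0 h1).2.2.continuous
  unfold VV
  fun_prop

/-- the second tangency point -/
def GG (m ε t : ℝ) : ℝ := nx (P0J m) 1 t (VV m ε t)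

lemma GG_spec (h0 : 0 ≤ m) (h1 : m < 1) (ε t : ℝ) :
    t < GG m ε t ∧ GG m ε t < t + 1 ∧ L1 (P0J m) t (GG m ε t) = -VV m ε t :=
  (curve_P0J h0 h1).nx_spec t (VV m ε t)

lemma GG_unique (h0 : 0 ≤ m) (h1 : m < 1) {ε t s : ℝ} (a : t < s) (b : s < t + 1)
    (c : L1 (P0J m) t s = -VV m ε t) : GG m ε t = s :=
  (curve_P0J h0 h1).nx_unique a b c

lemma GG_per (h0 : 0 ≤ m) (h1 : m < 1) (ε t : ℝ) : GG m ε (t + 1) = GG m ε t + 1 := by
  unfold GG
  rw [VV_per h0 h1, (curve_P0J h0 h1).nx_per]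

lemma GG_mono (h0 : 0 ≤ m) (h1 : m < 1) (t : ℝ) : StrictMonoOn (fun ε => GG m ε t) (Ioo 0 1) :=
  fun _ ha _ hb hab =>
    (curve_P0J h0 h1).nx_strictAnti t (VV_strictAnti h0 h1 ha hb hab t)

lemma GG_smooth (h0 : 0 ≤ m) (h1 : m < 1) {p : ℝ × ℝ} (hp : p.1 ∈ Ioo (0:ℝ) 1) :
    ContDiffAt ℝ ∞ (fun p : ℝ × ℝ => GG m p.1 p.2) p :=
  (curve_P0J h0 h1).contDiff_nx.contDiffAt.comp p (contDiffAt_snd.prodMk (VV_smooth h0 h1 hp))

lemma GG_cont (h0 : 0 ≤ m) (h1 : m < 1) {ε : ℝ} (hε : ε ∈ Ioo (0:ℝ) 1) : Continuous (GG m ε) := by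
  rw [continuous_iff_continuousAt]
  intro t
  exact (GG_smooth h0 h1 (p := (ε, t)) hε).continuousAt.comp
    (f := fun t : ℝ => (ε, t)) (by fun_prop)

lemma GG_diff (h0 : 0 ≤ m) (h1 : m < 1) {ε : ℝ} (hε : ε ∈ Ioo (0:ℝ) 1) (t : ℝ) :
    DifferentiableAt ℝ (GG m ε) t := by
  have e1 : DifferentiableAt ℝ (fun t : ℝ => (ε, t)) t := by fun_prop
  exact ((GG_smooth h0 h1 (p := (ε, t)) hε).differentiableAt (by simp)).comp t e1

/-! ### the symmetric position -/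

lemma L1_sym (h0 : 0 ≤ m) (h1 : m < 1) {a : ℝ} (ha : a ∈ Ioo (0:ℝ) (1 / 2)) :
    L1 (P0J m) (-a) a = -(4 * KK m * (cn m (4 * KK m * a) * dn m (4 * KK m * a) /
      sn m (4 * KK m * a))) ∧
    L1 (P0J m) a (-a) = 4 * KK m * (cn m (4 * KK m * a) * dn m (4 * KK m * a) /
      sn m (4 * KK m * a)) := by
  have hK := KK_pos h0 h1
  have hs : sn m (4 * KK m * a) ≠ 0 := by
    intro h
    have hp := HJ_pos h0 h1 (x := 4 * KK m * -a) (y := 4 * KK m * a)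
      (mul_lt_mul_of_pos_left (by linarith [ha.1]) (by linarith))
      (by nlinarith [ha.2])
    unfold HJ at hp
    rw [mul_neg, sn_neg h0 h1, cn_neg h0 h1, dn_neg h0 h1, h] at hp
    have e1 := sn_sq_add m (4 * KK m * a)
    have e2 := dn_sq h0 h1 (4 * KK m * a)
    rw [h] at e1 e2
    nlinarith
  have hm : (1 - m) ≠ 0 := by linarith
  have e1 := sn_sq_add m (4 * KK m * a)
  have e2 := dn_sq h0 h1 (4 * KK m * a)
  have H : ∀ s c d : ℝ, s ^ 2 + c ^ 2 = 1 → d ^ 2 + m * s ^ 2 = 1 →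
      d * d - c * c + (1 - m) * s * s = 2 * (1 - m) * s ^ 2 := by
    intro s c d e1 e2
    linear_combination e2 - e1
  have H' := H _ _ _ e1 e2
  unfold P0J
  rw [L1_PM _ h0 h1 det_neg_one3, L1_PM _ h0 h1 det_neg_one3]
  unfold HJ HJx
  rw [mul_neg, sn_neg h0 h1, cn_neg h0 h1, dn_neg h0 h1]
  generalize sn m (4 * KK m * a) = s at *
  generalize cn m (4 * KK m * a) = c at *
  generalize dn m (4 * KK m * a) = d at *
  have f1 : d * d - c * c - (1 - m) * -s * s = 2 * (1 - m) * s ^ 2 := by linarith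
  have f2 : d * d - c * c - (1 - m) * s * -s = 2 * (1 - m) * s ^ 2 := by linarith
  rw [f1, f2]
  constructor
  · field_simp
    ring
  · field_simp
    ring

/-- the symmetric position -/
theorem exists_sym (h0 : 0 ≤ m) (h1 : m < 1) {ε : ℝ} (hε : ε ∈ Ioo (0:ℝ) 1) :
    ∃ a ∈ Ioo (0:ℝ) (1 / 4), GG m ε (-a) = a ∧ L1 (P0J m) a (-a) = VV m ε a ∧
      sn m (4 * KK m * a) ^ 2 = ε * dn m (4 * KK m * a) ^ 2 := by
  have hK := KK_pos h0 h1
  have hc : ContinuousOn (fun a => GG m ε (-a) - a) (Icc 0 (1 / 2)) :=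
    (((GG_cont h0 h1 hε).comp continuous_neg).sub continuous_id).continuousOn
  have h3 := intermediate_value_Icc' (show (0:ℝ) ≤ 1 / 2 by norm_num) hc
  have h4 := GG_spec h0 h1 ε (-(1 / 2))
  have h5 := GG_spec h0 h1 ε 0
  obtain ⟨a, ha, ha'⟩ := h3 (show (0:ℝ) ∈ Icc _ _ from ⟨by linarith [h4.2.1], by
    simp only [neg_zero]
    linarith [h5.1]⟩)
  have ha' : GG m ε (-a) - a = 0 := ha'
  have hG : GG m ε (-a) = a := by linarith
  have ha0 : 0 < a := by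
    rcases lt_or_eq_of_le ha.1 with h | h
    · exact h
    · rw [← h, neg_zero] at hG
      linarith [h5.1]
  have ha1 : a < 1 / 2 := by
    rcases lt_or_eq_of_le ha.2 with h | h
    · exact h
    · rw [h] at hG
      linarith [h4.2.1]
  obtain ⟨s1, s2⟩ := L1_sym h0 h1 ⟨ha0, ha1⟩
  have s3 := (GG_spec h0 h1 ε (-a)).2.2
  rw [hG, s1, VV_neg h0 h1, neg_inj] at s3
  have hV := VV_pos h0 h1 hε a
  have hsa : 0 < sn m (4 * KK m * a) := by
    have e1 : 0 < am m (4 * KK m * a) := by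
      rw [← am_zero h0 h1]
      exact am_strictMono h0 h1 (by positivity)
    have e2 : am m (4 * KK m * a) < Real.pi := by
      have : am m (2 * KK m) = Real.pi := by
        have := am_add h0 h1 0
        rwa [zero_add, am_zero h0 h1, zero_add] at this
      rw [← this]
      exact am_strictMono h0 h1 (by nlinarith)
    exact Real.sin_pos_of_pos_of_lt_pi e1 e2
  have hd := dn_pos h0 h1 (4 * KK m * a)
  have hca : 0 < cn m (4 * KK m * a) := by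
    have e : 0 < 4 * KK m * (cn m (4 * KK m * a) * dn m (4 * KK m * a) /
      sn m (4 * KK m * a)) := by rw [s3]; exact hV
    have e2 : 0 < cn m (4 * KK m * a) * dn m (4 * KK m * a) / sn m (4 * KK m * a) :=
      pos_of_mul_pos_right e (by linarith)
    have e3 : 0 < cn m (4 * KK m * a) * dn m (4 * KK m * a) := by
      by_contra hcon
      push Not at hcon
      exact absurd e2 (not_lt.2 (div_nonpos_of_nonpos_of_nonneg hcon hsa.le))
    exact pos_of_mul_pos_left e3 hd.le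
  have ha2 : a < 1 / 4 := by
    by_contra hcon
    push Not at hcon
    have e1 : Real.pi / 2 ≤ am m (4 * KK m * a) := by
      rw [← am_KK h0 h1]
      exact (am_strictMono h0 h1).monotone (by nlinarith)
    have e2 : am m (4 * KK m * a) < Real.pi := by
      have : am m (2 * KK m) = Real.pi := by
        have := am_add h0 h1 0
        rwa [zero_add, am_zero h0 h1, zero_add] at this
      rw [← this]
      exact am_strictMono h0 h1 (by nlinarith)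
    have e3 : cn m (4 * KK m * a) ≤ 0 :=
      Real.cos_nonpos_of_pi_div_two_le_of_le e1 (by linarith [Real.pi_pos])
    linarith
  refine ⟨a, ⟨ha0, ha2⟩, hG, by rw [s2, s3], ?_⟩
  have e4 := VV_sq h0 h1 hε a
  rw [← s3] at e4
  have e1 := sn_sq_add m (4 * KK m * a)
  have hε0 := hε.1.ne'
  have hK4 : (4 * KK m) ^ 2 ≠ 0 := by positivity
  rw [mul_pow, mul_right_inj' hK4] at e4
  have hs0 := hsa.ne'
  field_simp at e4
  linear_combination (-1) * e4 + ε * dn m (4 * KK m * a) ^ 2 * e1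

/-- the other tangent line -/
theorem GG_back (h0 : 0 ≤ m) (h1 : m < 1) {ε : ℝ} (hε : ε ∈ Ioo (0:ℝ) 1) (t : ℝ) :
    L1 (P0J m) (GG m ε t) t = VV m ε (GG m ε t) := by
  obtain ⟨a, ha, hG, hL, -⟩ := exists_sym h0 h1 hε
  have hC := curve_P0J h0 h1
  have hV := VV_cont h0 h1 ε
  have hGc := GG_cont h0 h1 hε
  have hf : Continuous (fun t => L1 (P0J m) (GG m ε t) t) := by
    rw [continuous_iff_continuousAt]
    intro t
    obtain ⟨b1, b2, -⟩ := GG_spec h0 h1 ε t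
    have h2 : ContinuousAt (fun p : ℝ × ℝ => L1 (P0J m) p.1 p.2) (GG m ε t, t) :=
      (hC.contDiffAt_L1 (p := (GG m ε t, t)) (hC.dd_pos_left b1 b2).ne').continuousAt
    exact h2.comp (f := fun t : ℝ => (GG m ε t, t)) (hGc.prodMk continuous_id).continuousAt
  have hsq : EqOn ((fun t => L1 (P0J m) (GG m ε t) t) ^ 2) ((fun t => VV m ε (GG m ε t)) ^ 2)
      univ := by
    intro t _
    obtain ⟨b1, b2, b3⟩ := GG_spec h0 h1 ε t
    have k := L1_key (-1) h0 h1 det_neg_one3 (x := GG m ε t) (y := t) b1.ne'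
      (by rw [abs_lt]; constructor <;> linarith)
    show L1 (P0J m) (GG m ε t) t ^ 2 = VV m ε (GG m ε t) ^ 2
    rw [VV_sq h0 h1 hε]
    have k2 := VV_sq h0 h1 hε t
    change L1 (P0J m) (GG m ε t) t ^ 2 + _ = L1 (P0J m) t (GG m ε t) ^ 2 + _ at k
    rw [b3] at k
    linear_combination k + k2
  have := isPreconnected_univ.eq_of_sq_eq (y := -a) hf.continuousOn
    (hV.comp hGc).continuousOn hsq (fun {x} _ => (VV_pos h0 h1 hε _).ne') (mem_univ _) (by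
      show L1 (P0J m) (GG m ε (-a)) (-a) = VV m ε (GG m ε (-a))
      rw [hG, hL])
  exact this (mem_univ t)

/-- the law of the leaves -/
theorem GG_law (h0 : 0 ≤ m) (h1 : m < 1) {ε : ℝ} (hε : ε ∈ Ioo (0:ℝ) 1) (t : ℝ) :
    L1 (P0J m) (GG m ε t) (GG m ε (GG m ε t)) + L1 (P0J m) (GG m ε t) t = 0 := by
  rw [(GG_spec h0 h1 ε (GG m ε t)).2.2, GG_back h0 h1 hε]
  ring

/-- symmetry of the kernel -/
lemma KK_symm (h0 : 0 ≤ m) (h1 : m < 1) (x y : ℝ) :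
    Pool.Agent.MP_ae5b4e_an_hopf.KK (P0J m) x y = Pool.Agent.MP_ae5b4e_an_hopf.KK (P0J m) y x := by
  unfold Pool.Agent.MP_ae5b4e_an_hopf.KK P0J
  rw [dd_PM _ h0 h1, dd_PM _ h0 h1, Wr_PM _ h0 h1, Wr_PM _ h0 h1, HJ_symm]

/-- the derivative -/
theorem GG_hasDerivAt (h0 : 0 ≤ m) (h1 : m < 1) {ε : ℝ} (hε : ε ∈ Ioo (0:ℝ) 1) (t : ℝ) :
    HasDerivAt (GG m ε) (VV m ε (GG m ε t) / VV m ε t) t := by
  have hC := curve_P0J h0 h1
  obtain ⟨b1, b2, b3⟩ := GG_spec h0 h1 ε t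
  have hG := (GG_diff h0 h1 hε t).hasDerivAt
  have hn := (hC.dd_pos_right b1 b2).ne'
  have hn' := (hC.dd_pos_left b1 b2).ne'
  -- the function of two variables
  set S : ℝ × ℝ → ℝ := fun p => L1 (P0J m) p.1 p.2 ^ 2 +
    (4 * KK m) ^ 2 * dn m (4 * KK m * p.1) ^ 2 with hS
  have hd := (jac_smooth h0 h1).2.2
  have hSd : DifferentiableAt ℝ S (t, GG m ε t) := by
    have e1 : ContDiffAt ℝ ∞ S (t, GG m ε t) :=
      ((hC.contDiffAt_L1 (p := (t, GG m ε t)) hn).pow 2).add (contDiffAt_const.mul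
        ((hd.comp (contDiff_const.mul contDiff_fst)).pow 2).contDiffAt)
    exact e1.differentiableAt (by simp)
  have hF := hSd.hasFDerivAt
  set Lf := fderiv ℝ S (t, GG m ε t) with hLf
  -- the two derivatives
  have hy : Lf (0, 1) = 2 * L1 (P0J m) t (GG m ε t) *
      Pool.Agent.MP_ae5b4e_an_hopf.KK (P0J m) t (GG m ε t) := by
    have k1 := hF.comp_hasDerivAt (GG m ε t)
      ((hasDerivAt_const (GG m ε t) t).prodMk (hasDerivAt_id (GG m ε t)))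
    have k2 : HasDerivAt (fun y => L1 (P0J m) t y ^ 2 + (4 * KK m) ^ 2 *
        dn m (4 * KK m * t) ^ 2) (2 * L1 (P0J m) t (GG m ε t) *
      Pool.Agent.MP_ae5b4e_an_hopf.KK (P0J m) t (GG m ε t)) (GG m ε t) := by
      have k3 := ((hC.hasDerivAt_L1_right (x := t) (y := GG m ε t) hn).pow 2).add_const
        ((4 * KK m) ^ 2 * dn m (4 * KK m * t) ^ 2)
      simpa using k3
    exact k1.unique k2
  have hx : Lf (1, 0) = 2 * L1 (P0J m) (GG m ε t) t *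
      Pool.Agent.MP_ae5b4e_an_hopf.KK (P0J m) (GG m ε t) t := by
    have k1 := hF.comp_hasDerivAt t
      ((hasDerivAt_id t).prodMk (hasDerivAt_const t (GG m ε t)))
    have k3 := ((hC.hasDerivAt_L1_right (x := GG m ε t) (y := t) hn').pow 2).add_const
        ((4 * KK m) ^ 2 * dn m (4 * KK m * GG m ε t) ^ 2)
    have k4 : HasDerivAt (fun x => L1 (P0J m) (GG m ε t) x ^ 2 +
        (4 * KK m) ^ 2 * dn m (4 * KK m * GG m ε t) ^ 2) (2 * L1 (P0J m) (GG m ε t) t *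
      Pool.Agent.MP_ae5b4e_an_hopf.KK (P0J m) (GG m ε t) t) t := by
      simpa using k3
    have k5 : (fun x => S (x, GG m ε t)) =ᶠ[𝓝 t] (fun x => L1 (P0J m) (GG m ε t) x ^ 2 +
        (4 * KK m) ^ 2 * dn m (4 * KK m * GG m ε t) ^ 2) := by
      filter_upwards [isOpen_Ioo.mem_nhds (show t ∈ Ioo (GG m ε t - 1) (GG m ε t) from
        ⟨by linarith, b1⟩)] with x hx
      exact L1_key (-1) h0 h1 det_neg_one3 (x := x) (y := GG m ε t) hx.2.ne
        (by rw [abs_lt]; constructor <;> linarith [hx.1, hx.2])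
    exact k1.unique (k4.congr_of_eventuallyEq k5)
  -- S is constant on the graph
  have hconst : (fun t => S (t, GG m ε t)) = fun _ => (4 * KK m) ^ 2 * (1 / ε) := by
    funext t
    show L1 (P0J m) t (GG m ε t) ^ 2 + (4 * KK m) ^ 2 * dn m (4 * KK m * t) ^ 2 = _
    rw [(GG_spec h0 h1 ε t).2.2]
    linear_combination VV_sq h0 h1 hε t
  have k1 := hF.comp_hasDerivAt t ((hasDerivAt_id t).prodMk hG)
  have k2 : HasDerivAt (fun t => S (t, GG m ε t)) 0 t := by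
    rw [hconst]
    exact hasDerivAt_const t _
  have k3 := k1.unique k2
  have k4 : Lf (1, deriv (GG m ε) t) = Lf (1, 0) + deriv (GG m ε) t * Lf (0, 1) := by
    have : ((1:ℝ), deriv (GG m ε) t) = (1, 0) + deriv (GG m ε) t • ((0:ℝ), (1:ℝ)) := by
      simp
    rw [this, map_add, map_smul, smul_eq_mul]
  rw [k4, hx, hy, b3, GG_back h0 h1 hε, KK_symm h0 h1 (GG m ε t) t] at k3
  have hK := hC.KK_pos_right b1 b2
  have hV := VV_pos h0 h1 hε t
  have k5 : deriv (GG m ε) t = VV m ε (GG m ε t) / VV m ε t := by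
    rw [eq_div_iff hV.ne']
    have k6 : Pool.Agent.MP_ae5b4e_an_hopf.KK (P0J m) t (GG m ε t) *
        (deriv (GG m ε) t * VV m ε t - VV m ε (GG m ε t)) = 0 := by
      linear_combination (-1 / 2) * k3
    have k7 := (mul_eq_zero.1 k6).resolve_left hK.ne'
    linarith
  rwa [k5] at hG

/-! ### the invariant time -/

/-- the density of the invariant time -/
def RR (m ε x : ℝ) : ℝ := (√(1 - ε * dn m (4 * KK m * x) ^ 2))⁻¹

/-- the invariant time -/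
def PhR (m ε x : ℝ) : ℝ := ∫ t in (0:ℝ)..x, RR m ε t

lemma RR_arg (h0 : 0 ≤ m) (h1 : m < 1) {ε : ℝ} (hε : ε ∈ Ico (0:ℝ) 1) (x : ℝ) :
    0 < 1 - ε * dn m (4 * KK m * x) ^ 2 := by
  have a := dn_pos h0 h1 (4 * KK m * x)
  have b := dn_le h0 (4 * KK m * x)
  have c : dn m (4 * KK m * x) ^ 2 ≤ 1 := by nlinarith
  have := mul_le_mul_of_nonneg_left c hε.1
  linarith [hε.2]

lemma RR_pos (h0 : 0 ≤ m) (h1 : m < 1) {ε : ℝ} (hε : ε ∈ Ico (0:ℝ) 1) (x : ℝ) :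
    0 < RR m ε x := inv_pos.2 (Real.sqrt_pos.2 (RR_arg h0 h1 hε x))

lemma VV_eq (h0 : 0 ≤ m) (h1 : m < 1) {ε : ℝ} (hε : ε ∈ Ioo (0:ℝ) 1) (x : ℝ) :
    VV m ε x = 4 * KK m / √ε / RR m ε x := by
  have h2 := RR_arg h0 h1 ⟨hε.1.le, hε.2⟩ x
  have e : 1 / ε - dn m (4 * KK m * x) ^ 2 = (1 - ε * dn m (4 * KK m * x) ^ 2) / ε := by
    have := hε.1.ne'
    field_simp
  unfold VV RR
  rw [e, Real.sqrt_div h2.le]
  field_simp

lemma RR_cont2 (h0 : 0 ≤ m) (h1 : m < 1) :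
    Continuous (fun p : Ico (0:ℝ) 1 × ℝ => RR m p.1 p.2) := by
  have hd := (jac_smooth h0 h1).2.2.continuous
  unfold RR
  refine Continuous.inv₀ (by fun_prop) fun p => ?_
  exact (Real.sqrt_pos.2 (RR_arg h0 h1 p.1.2 p.2)).ne'

lemma RR_cont (h0 : 0 ≤ m) (h1 : m < 1) {ε : ℝ} (hε : ε ∈ Ico (0:ℝ) 1) : Continuous (RR m ε) :=
  (RR_cont2 h0 h1).comp (g := fun p : Ico (0:ℝ) 1 × ℝ => RR m p.1 p.2)
    (f := fun x : ℝ => ((⟨ε, hε⟩ : Ico (0:ℝ) 1), x)) (by fun_prop)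

lemma RR_half (h0 : 0 ≤ m) (h1 : m < 1) (ε x : ℝ) : RR m ε (x + 1 / 2) = RR m ε x := by
  unfold RR
  rw [show 4 * KK m * (x + 1 / 2) = 4 * KK m * x + 2 * KK m by ring, dn_add h0 h1]

lemma RR_neg (h0 : 0 ≤ m) (h1 : m < 1) (ε x : ℝ) : RR m ε (-x) = RR m ε x := by
  unfold RR
  rw [mul_neg, dn_neg h0 h1]

lemma PhR_hasDerivAt (h0 : 0 ≤ m) (h1 : m < 1) {ε : ℝ} (hε : ε ∈ Ico (0:ℝ) 1) (x : ℝ) :
    HasDerivAt (PhR m ε) (RR m ε x) x :=
  intervalIntegral.integral_hasDerivAt_right ((RR_cont h0 h1 hε).intervalIntegrable _ _)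
    ((RR_cont h0 h1 hε).stronglyMeasurableAtFilter _ _) (RR_cont h0 h1 hε).continuousAt

lemma PhR_strictMono (h0 : 0 ≤ m) (h1 : m < 1) {ε : ℝ} (hε : ε ∈ Ico (0:ℝ) 1) :
    StrictMono (PhR m ε) :=
  strictMono_of_deriv_pos fun x => by
    rw [(PhR_hasDerivAt h0 h1 hε x).deriv]
    exact RR_pos h0 h1 hε x

lemma PhR_cont (h0 : 0 ≤ m) (h1 : m < 1) {ε : ℝ} (hε : ε ∈ Ico (0:ℝ) 1) :
    Continuous (PhR m ε) :=
  continuous_iff_continuousAt.2 fun x => (PhR_hasDerivAt h0 h1 hε x).continuousAt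

lemma PhR_cont2 (h0 : 0 ≤ m) (h1 : m < 1) :
    Continuous (fun p : Ico (0:ℝ) 1 × ℝ => PhR m p.1 p.2) := by
  have h2 : Continuous (Function.uncurry fun (p : Ico (0:ℝ) 1 × ℝ) (t : ℝ) => RR m p.1 t) :=
    (RR_cont2 h0 h1).comp (g := fun p : Ico (0:ℝ) 1 × ℝ => RR m p.1 p.2)
      (f := fun q : (Ico (0:ℝ) 1 × ℝ) × ℝ => (q.1.1, q.2)) (by fun_prop)
  exact intervalIntegral.continuous_parametric_intervalIntegral_of_continuous h2 continuous_snd

lemma PhR_zero (ε : ℝ) : PhR m ε 0 = 0 := by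
  unfold PhR
  exact intervalIntegral.integral_same

lemma PhR_half (h0 : 0 ≤ m) (h1 : m < 1) {ε : ℝ} (hε : ε ∈ Ico (0:ℝ) 1) (x : ℝ) :
    PhR m ε (x + 1 / 2) = PhR m ε x + PhR m ε (1 / 2) := by
  have hi : ∀ a b : ℝ, IntervalIntegrable (RR m ε) MeasureTheory.volume a b := fun a b =>
    (RR_cont h0 h1 hε).intervalIntegrable a b
  have e1 : PhR m ε (x + 1 / 2) = PhR m ε (1 / 2) + ∫ t in (1 / 2 : ℝ)..(x + 1 / 2), RR m ε t :=
    (intervalIntegral.integral_add_adjacent_intervals (hi _ _) (hi _ _)).symm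
  have e2 : (∫ t in (1 / 2 : ℝ)..(x + 1 / 2), RR m ε t) = PhR m ε x := by
    have := intervalIntegral.integral_comp_add_right (a := 0) (b := x) (RR m ε) (1 / 2)
    rw [zero_add] at this
    rw [← this]
    unfold PhR
    simp_rw [RR_half h0 h1]
  rw [e1, e2, add_comm]

lemma PhR_one (h0 : 0 ≤ m) (h1 : m < 1) {ε : ℝ} (hε : ε ∈ Ico (0:ℝ) 1) :
    PhR m ε 1 = 2 * PhR m ε (1 / 2) := by
  have := PhR_half h0 h1 hε (1 / 2)
  norm_num at this
  rw [this]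
  ring

lemma PhR_add_one (h0 : 0 ≤ m) (h1 : m < 1) {ε : ℝ} (hε : ε ∈ Ico (0:ℝ) 1) (x : ℝ) :
    PhR m ε (x + 1) = PhR m ε x + PhR m ε 1 := by
  rw [show x + 1 = x + 1 / 2 + 1 / 2 by ring, PhR_half h0 h1 hε, PhR_half h0 h1 hε,
    PhR_one h0 h1 hε]
  ring

lemma PhR_neg (h0 : 0 ≤ m) (h1 : m < 1) (ε x : ℝ) : PhR m ε (-x) = -PhR m ε x := by
  have := intervalIntegral.integral_comp_neg (a := 0) (b := x) (RR m ε)
  rw [neg_zero] at this
  unfold PhR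
  rw [intervalIntegral.integral_symm, ← this]
  simp_rw [RR_neg h0 h1]

lemma PhR_quarter (h0 : 0 ≤ m) (h1 : m < 1) {ε : ℝ} (hε : ε ∈ Ico (0:ℝ) 1) :
    PhR m ε 1 = 4 * PhR m ε (1 / 4) := by
  have e := PhR_half h0 h1 hε (-(1 / 4))
  rw [PhR_neg h0 h1] at e
  norm_num at e
  rw [PhR_one h0 h1 hε]
  linarith

lemma PhR_one_pos (h0 : 0 ≤ m) (h1 : m < 1) {ε : ℝ} (hε : ε ∈ Ico (0:ℝ) 1) : 0 < PhR m ε 1 := by
  have := PhR_strictMono h0 h1 hε one_pos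
  rwa [PhR_zero] at this

lemma PhR_nat (h0 : 0 ≤ m) (h1 : m < 1) {ε : ℝ} (hε : ε ∈ Ico (0:ℝ) 1) (x : ℝ) (n : ℕ) :
    PhR m ε (x + n) = PhR m ε x + n * PhR m ε 1 := by
  induction n with
  | zero => simp
  | succ n ih =>
    push_cast
    rw [← add_assoc, PhR_add_one h0 h1 hε, ih]
    ring

/-- the point of the symmetric position -/
def aE (m ε : ℝ) : ℝ := ath m (Real.arcsin √(ε / (1 + m * ε))) / (4 * KK m)

lemma aE_arg (h0 : 0 ≤ m) {ε : ℝ} (hε : ε ∈ Ioo (0:ℝ) 1) :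
    0 < √(ε / (1 + m * ε)) ∧ √(ε / (1 + m * ε)) < 1 := by
  have h2 : 0 < 1 + m * ε := by
    have := mul_nonneg h0 hε.1.le
    linarith
  constructor
  · exact Real.sqrt_pos.2 (div_pos hε.1 h2)
  · rw [Real.sqrt_lt' one_pos, one_pow, div_lt_one h2]
    have := mul_nonneg h0 hε.1.le
    linarith [hε.2]

lemma aE_spec (h0 : 0 ≤ m) (h1 : m < 1) {ε : ℝ} (hε : ε ∈ Ioo (0:ℝ) 1) :
    aE m ε ∈ Ioo (0:ℝ) (1 / 4) ∧
      sn m (4 * KK m * aE m ε) ^ 2 = ε * dn m (4 * KK m * aE m ε) ^ 2 := by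
  obtain ⟨r0, r1⟩ := aE_arg h0 hε
  have hK := KK_pos h0 h1
  have e : 4 * KK m * aE m ε = ath m (Real.arcsin √(ε / (1 + m * ε))) := by
    unfold aE
    field_simp
  have h2 : 0 < 1 + m * ε := by
    have := mul_nonneg h0 hε.1.le
    linarith
  refine ⟨⟨?_, ?_⟩, ?_⟩
  · refine div_pos ?_ (by linarith)
    rw [← ath_zero (m := m)]
    exact ath_strictMono h0 h1 (Real.arcsin_pos.2 r0)
  · unfold aE
    rw [div_lt_iff₀ (by linarith)]
    have : ath m (Real.arcsin √(ε / (1 + m * ε))) < KK m :=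
      ath_strictMono h0 h1 (Real.arcsin_lt_pi_div_two.2 r1)
    linarith
  · have e1 : sn m (4 * KK m * aE m ε) ^ 2 = ε / (1 + m * ε) := by
      unfold sn
      rw [e, am_ath h0 h1, Real.sin_arcsin (by linarith) r1.le, Real.sq_sqrt (div_pos hε.1 h2).le]
    have e2 := dn_sq h0 h1 (4 * KK m * aE m ε)
    rw [e1] at e2
    rw [e1]
    have e3 : dn m (4 * KK m * aE m ε) ^ 2 = 1 - m * (ε / (1 + m * ε)) := by linarith
    rw [e3]
    have e4 : ε / (1 + m * ε) * (1 + m * ε) = ε := div_mul_cancel₀ _ h2.ne'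
    linear_combination e4

lemma aE_unique (h0 : 0 ≤ m) (h1 : m < 1) {ε a : ℝ} (hε : ε ∈ Ioo (0:ℝ) 1)
    (ha : a ∈ Ioo (0:ℝ) (1 / 4))
    (h : sn m (4 * KK m * a) ^ 2 = ε * dn m (4 * KK m * a) ^ 2) : a = aE m ε := by
  have hK := KK_pos h0 h1
  have h2 : 0 < 1 + m * ε := by
    have := mul_nonneg h0 hε.1.le
    linarith
  have e1 : 0 < am m (4 * KK m * a) := by
    rw [← am_zero h0 h1]
    exact am_strictMono h0 h1 (mul_pos (by linarith) ha.1)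
  have e2 : am m (4 * KK m * a) < Real.pi / 2 := by
    rw [← am_KK h0 h1]
    exact am_strictMono h0 h1 (by nlinarith [ha.2])
  have e3 : 0 < sn m (4 * KK m * a) :=
    Real.sin_pos_of_pos_of_lt_pi e1 (by linarith [Real.pi_pos])
  have e4 : sn m (4 * KK m * a) = √(ε / (1 + m * ε)) := by
    rw [eq_comm, Real.sqrt_eq_iff_mul_self_eq (div_pos hε.1 h2).le e3.le]
    have e5 := dn_sq h0 h1 (4 * KK m * a)
    rw [div_eq_iff h2.ne']
    linear_combination (-1) * h - ε * e5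
  have e5 : am m (4 * KK m * a) = Real.arcsin √(ε / (1 + m * ε)) := by
    rw [← e4]
    unfold sn
    rw [Real.arcsin_sin (by linarith) e2.le]
  unfold aE
  rw [← e5, ath_am h0 h1]
  field_simp

/-- the map in the invariant time -/
theorem PhR_GG (h0 : 0 ≤ m) (h1 : m < 1) {ε : ℝ} (hε : ε ∈ Ioo (0:ℝ) 1) (t : ℝ) :
    PhR m ε (GG m ε t) = PhR m ε t + 2 * PhR m ε (aE m ε) := by
  have hε' : ε ∈ Ico (0:ℝ) 1 := ⟨hε.1.le, hε.2⟩
  obtain ⟨a, ha, hG, -, hs⟩ := exists_sym h0 h1 hε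
  rw [← aE_unique h0 h1 hε ha hs]
  have hd : ∀ t, HasDerivAt (fun t => PhR m ε (GG m ε t) - PhR m ε t) 0 t := by
    intro t
    have k1 := ((PhR_hasDerivAt h0 h1 hε' (GG m ε t)).comp t (GG_hasDerivAt h0 h1 hε t)).sub
      (PhR_hasDerivAt h0 h1 hε' t)
    refine k1.congr_deriv ?_
    rw [VV_eq h0 h1 hε, VV_eq h0 h1 hε]
    have r1 := (RR_pos h0 h1 hε' t).ne'
    have r2 := (RR_pos h0 h1 hε' (GG m ε t)).ne'
    have r3 := (KK_pos h0 h1).ne'
    have r4 := (Real.sqrt_pos.2 hε.1).ne'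
    field_simp
    ring
  have hc := is_const_of_deriv_eq_zero (fun t => (hd t).differentiableAt) (fun t => (hd t).deriv)
    t (-a)
  simp only [hG, PhR_neg h0 h1] at hc
  linarith

/-! ### the point on both tangent lines -/

lemma two_lines {a b p q : Fin 3 → ℝ} {u v : ℝ} (hD : det3 a p q ≠ 0)
    (hs : det3 p a b = det3 a p q) (h1 : u * det3 a p q + det3 b p q = 0)
    (h2 : det3 q a b = v * det3 a p q) : u • a + b = v • p - q := by
  funext i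
  have k : det3 a p q * (u * a i + b i) - (det3 q a b * p i - det3 p a b * q i) =
      (u * det3 a p q + det3 b p q) * a i := by
    fin_cases i <;> simp only [det3, Fin.zero_eta, Fin.mk_one, Fin.reduceFinMk] <;> ring
  rw [h1, hs, h2, zero_mul] at k
  show u * a i + b i = v * p i - q i
  refine mul_left_cancel₀ hD ?_
  linear_combination k

/-- the tangent lines at `x` and at `GG x` -/
theorem GG_point (h0 : 0 ≤ m) (h1 : m < 1) {ε : ℝ} (hε : ε ∈ Ioo (0:ℝ) 1) (x : ℝ) :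
    VV m ε x • PJ m (4 * KK m * x) + (4 * KK m) • PJ1 m (4 * KK m * x) =
      VV m ε (GG m ε x) • PJ m (4 * KK m * GG m ε x) -
        (4 * KK m) • PJ1 m (4 * KK m * GG m ε x) := by
  obtain ⟨b1, b2, b3⟩ := GG_spec h0 h1 ε x
  have b4 := GG_back h0 h1 hε x
  have hK := KK_pos h0 h1
  set y := GG m ε x with hy
  have hH : HJ m (4 * KK m * x) (4 * KK m * y) ≠ 0 :=
    (HJ_pos h0 h1 (mul_lt_mul_of_pos_left b1 (by linarith)) (by nlinarith)).ne'
  rw [P0J, L1_PM _ h0 h1 det_neg_one3, div_eq_iff hH] at b3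
  rw [P0J, L1_PM _ h0 h1 det_neg_one3, HJ_symm, div_eq_iff hH] at b4
  have e : ∀ a b c : Fin 3 → ℝ, det3 a b ((4 * KK m) • c) = (4 * KK m) * det3 a b c := by
    intro a b c
    simp only [det3, Pi.smul_apply, smul_eq_mul]
    ring
  have e' : ∀ a b c : Fin 3 → ℝ, det3 ((4 * KK m) • a) b ((4 * KK m) • c) =
      (4 * KK m) ^ 2 * det3 a b c := by
    intro a b c
    simp only [det3, Pi.smul_apply, smul_eq_mul]
    ring
  have hK4 : (4 * KK m) ≠ 0 := by linarith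
  refine two_lines ?_ ?_ ?_ ?_
  · rw [e, det3_PJ0 h0 h1]
    exact mul_ne_zero hK4 (neg_ne_zero.2 hH)
  · rw [e, e, det3_PJ0 h0 h1, det3_PJ0 h0 h1, HJ_symm]
  · rw [e, e', det3_PJ0 h0 h1, det3_PJ1 h0 h1]
    linear_combination (-(4 * KK m)) * b3
  · rw [e', e, det3_PJ0 h0 h1, det3_PJ1 h0 h1]
    linear_combination (-(4 * KK m)) * b4

/-- the same in the invariant time -/
theorem PON (h0 : 0 ≤ m) (h1 : m < 1) {ε x y : ℝ} (hε : ε ∈ Ioo (0:ℝ) 1)
    (h : PhR m ε y = PhR m ε x + 2 * PhR m ε (aE m ε)) :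
    VV m ε x • PJ m (4 * KK m * x) + (4 * KK m) • PJ1 m (4 * KK m * x) =
      VV m ε y • PJ m (4 * KK m * y) - (4 * KK m) • PJ1 m (4 * KK m * y) := by
  have e : y = GG m ε x := by
    rw [← PhR_GG h0 h1 hε] at h
    exact (PhR_strictMono h0 h1 ⟨hε.1.le, hε.2⟩).injective h
  rw [e]
  exact GG_point h0 h1 hε x

end

end Pool.Agent.MP_ae5b4e_an_LOC
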