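import Mathlib
import Pool.Agent.Lib.MP_ae5b4e_an_LOC.Pon2
import Pool.Agent.Lib.MP_ae5b4e_an_LOC.LCL
import Pool.Agent.Lib.MP_ae5b4e_an_LOC.GDJ

/-!
# LOC: the real Poncelet maps of a pencil as an integrable background

`wE m ε` is the rotation number of `GG m ε`, `epsW m` its inverse; `IB_PM` is the integrable
background.
-/

set_option autoImplicit false

namespace Pool.Agent.MP_ae5b4e_an_LOC

open Set Filter Topology
open scoped ContDiff Matrix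
open Pool.Agent.MP_ae5b4e_an_hopf (det3 dd ddx Wr L1 Curve nx)

noncomputable section

variable {m : ℝ}

/-- the rotation number -/
def wE (m ε : ℝ) : ℝ := 2 * PhR m ε (aE m ε) / PhR m ε 1

lemma wE_pos (h0 : 0 ≤ m) (h1 : m < 1) {ε : ℝ} (hε : ε ∈ Ioo (0:ℝ) 1) : 0 < wE m ε := by
  have hε' : ε ∈ Ico (0:ℝ) 1 := ⟨hε.1.le, hε.2⟩
  have h2 := PhR_strictMono h0 h1 hε' (aE_spec h0 h1 hε).1.1
  rw [PhR_zero] at h2
  exact div_pos (by linarith) (PhR_one_pos h0 h1 hε')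

lemma wE_lt (h0 : 0 ≤ m) (h1 : m < 1) {ε : ℝ} (hε : ε ∈ Ioo (0:ℝ) 1) : wE m ε < 1 / 2 := by
  have hε' : ε ∈ Ico (0:ℝ) 1 := ⟨hε.1.le, hε.2⟩
  have h2 := PhR_strictMono h0 h1 hε' (aE_spec h0 h1 hε).1.2
  have h3 := PhR_one_pos h0 h1 hε'
  unfold wE
  rw [div_lt_iff₀ h3, PhR_quarter h0 h1 hε']
  linarith

lemma aE_zero : aE m 0 = 0 := by
  unfold aE
  rw [zero_div, Real.sqrt_zero, Real.arcsin_zero, ath_zero, zero_div]

lemma wE_zero : wE m 0 = 0 := by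
  unfold wE
  rw [aE_zero, PhR_zero, mul_zero, zero_div]

lemma aE_cont (h0 : 0 ≤ m) (h1 : m < 1) : Continuous (fun ε : Ico (0:ℝ) 1 => aE m ε) := by
  have h2 : Continuous (fun ε : Ico (0:ℝ) 1 => √((ε:ℝ) / (1 + m * ε))) := by
    refine Real.continuous_sqrt.comp (Continuous.div (by fun_prop) (by fun_prop) fun ε => ?_)
    have := mul_nonneg h0 ε.2.1
    linarith
  exact ((ath_cont h0 h1).comp (Real.continuous_arcsin.comp h2)).div_const _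

lemma wE_contOn (h0 : 0 ≤ m) (h1 : m < 1) : ContinuousOn (wE m) (Ico 0 1) := by
  rw [continuousOn_iff_continuous_domRestrict]
  have h2 : Continuous (fun ε : Ico (0:ℝ) 1 => PhR m ε (aE m ε)) :=
    (PhR_cont2 h0 h1).comp (g := fun p : Ico (0:ℝ) 1 × ℝ => PhR m p.1 p.2)
      (f := fun ε : Ico (0:ℝ) 1 => (ε, aE m ε)) (continuous_id.prodMk (aE_cont h0 h1))
  have h3 : Continuous (fun ε : Ico (0:ℝ) 1 => PhR m ε 1) :=
    (PhR_cont2 h0 h1).comp (g := fun p : Ico (0:ℝ) 1 × ℝ => PhR m p.1 p.2)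
      (f := fun ε : Ico (0:ℝ) 1 => (ε, (1:ℝ))) (by fun_prop)
  exact (continuous_const.mul h2).div h3 fun ε => (PhR_one_pos h0 h1 ε.2).ne'

/-- the invariant time of an orbit -/
lemma PhR_iter (h0 : 0 ≤ m) (h1 : m < 1) {ε : ℝ} (hε : ε ∈ Ioo (0:ℝ) 1) (n : ℕ) (t : ℝ) :
    PhR m ε ((GG m ε)^[n] t) = PhR m ε t + n * (wE m ε * PhR m ε 1) := by
  have h3 := (PhR_one_pos h0 h1 (⟨hε.1.le, hε.2⟩ : ε ∈ Ico (0:ℝ) 1)).ne'
  have e : wE m ε * PhR m ε 1 = 2 * PhR m ε (aE m ε) := by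
    unfold wE
    field_simp
  rw [e]
  induction n with
  | zero => simp
  | succ n ih =>
    rw [Function.iterate_succ_apply', PhR_GG h0 h1 hε, ih]
    push_cast
    ring

/-- the rotation number is strictly increasing -/
theorem wE_strictMono (h0 : 0 ≤ m) (h1 : m < 1) : StrictMonoOn (wE m) (Ioo 0 1) := by
  intro a ha b hb hab
  have ha' : a ∈ Ico (0:ℝ) 1 := ⟨ha.1.le, ha.2⟩
  have hb' : b ∈ Ico (0:ℝ) 1 := ⟨hb.1.le, hb.2⟩
  have hca := PhR_one_pos h0 h1 ha'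
  have hcb := PhR_one_pos h0 h1 hb'
  have ma := PhR_strictMono h0 h1 ha'
  have mb := PhR_strictMono h0 h1 hb'
  -- the gap
  obtain ⟨δ, hδ, hgap⟩ : ∃ δ > 0, ∀ t, PhR m a (GG m a t) + δ ≤ PhR m a (GG m b t) := by
    have hc : Continuous (fun t => PhR m a (GG m b t) - PhR m a (GG m a t)) :=
      ((PhR_cont h0 h1 ha').comp (GG_cont h0 h1 hb)).sub
        ((PhR_cont h0 h1 ha').comp (GG_cont h0 h1 ha))
    obtain ⟨t0, -, ht0⟩ := (isCompact_Icc (a := (0:ℝ)) (b := 1)).exists_isMinOn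
      (nonempty_Icc.2 zero_le_one) hc.continuousOn
    refine ⟨PhR m a (GG m b t0) - PhR m a (GG m a t0),
      sub_pos.2 (ma (GG_mono h0 h1 t0 ha hb hab)), fun t => ?_⟩
    have hp : Function.Periodic (fun t => PhR m a (GG m b t) - PhR m a (GG m a t)) 1 := fun t => by
      simp only [GG_per h0 h1, PhR_add_one h0 h1 ha']
      ring
    obtain ⟨s, hs, hs'⟩ := hp.exists_mem_Ico₀ one_pos t
    have h3 : PhR m a (GG m b t0) - PhR m a (GG m a t0) ≤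
      PhR m a (GG m b s) - PhR m a (GG m a s) := ht0 (show s ∈ Icc (0:ℝ) 1 from ⟨hs.1, hs.2.le⟩)
    linarith
  -- iterates
  have hit : ∀ n : ℕ, n * (wE m a * PhR m a 1 + δ) ≤ PhR m a ((GG m b)^[n] 0) := by
    intro n
    induction n with
    | zero => simp [PhR_zero]
    | succ n ih =>
      rw [Function.iterate_succ_apply']
      have k1 := hgap ((GG m b)^[n] 0)
      have k2 := PhR_iter h0 h1 ha 1 ((GG m b)^[n] 0)
      simp only [Function.iterate_one, Nat.cast_one, one_mul] at k2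
      push_cast
      linarith
  have hnn : ∀ n : ℕ, 0 ≤ (GG m b)^[n] 0 := by
    intro n
    induction n with
    | zero => simp
    | succ n ih =>
      rw [Function.iterate_succ_apply']
      exact ih.trans (GG_spec h0 h1 b _).1.le
  have hbd : ∀ n : ℕ, n * (wE m a + δ / PhR m a 1 - wE m b) ≤ 1 := by
    intro n
    set x := (GG m b)^[n] 0 with hx
    have k1 := hit n
    have k2 := PhR_iter h0 h1 hb n 0
    rw [PhR_zero, zero_add, ← hx] at k2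
    rw [← hx] at k1
    have k3 : x ≤ (⌊x⌋₊ : ℝ) + 1 := (Nat.lt_floor_add_one x).le
    have k4 : (⌊x⌋₊ : ℝ) ≤ x := Nat.floor_le (hnn n)
    have k5 : PhR m a x ≤ ((⌊x⌋₊ : ℝ) + 1) * PhR m a 1 := by
      have := ma.monotone k3
      rw [PhR_add_one h0 h1 ha'] at this
      have e := PhR_nat h0 h1 ha' 0 ⌊x⌋₊
      rw [zero_add, PhR_zero, zero_add] at e
      rw [e] at this
      linarith
    have k6 : (⌊x⌋₊ : ℝ) * PhR m b 1 ≤ PhR m b x := by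
      have := mb.monotone k4
      have e := PhR_nat h0 h1 hb' 0 ⌊x⌋₊
      rw [zero_add, PhR_zero, zero_add] at e
      rwa [e] at this
    rw [k2, ← mul_assoc] at k6
    have k7 : (⌊x⌋₊ : ℝ) ≤ n * wE m b := le_of_mul_le_mul_right k6 hcb
    have k8 : n * (wE m a + δ / PhR m a 1) * PhR m a 1 ≤ ((⌊x⌋₊ : ℝ) + 1) * PhR m a 1 := by
      have e : n * (wE m a + δ / PhR m a 1) * PhR m a 1 = n * (wE m a * PhR m a 1 + δ) := by
        field_simp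
      rw [e]
      exact k1.trans k5
    have k9 := le_of_mul_le_mul_right k8 hca
    linarith
  have hd : 0 < δ / PhR m a 1 := div_pos hδ hca
  by_contra hcon
  push Not at hcon
  have hpos : 0 < wE m a + δ / PhR m a 1 - wE m b := by linarith
  obtain ⟨n, hn⟩ := exists_nat_gt (1 / (wE m a + δ / PhR m a 1 - wE m b))
  rw [div_lt_iff₀ hpos] at hn
  linarith [hbd n]

/-! ### the inverse function -/

/-- the parameter of the pencil as a function of the rotation number -/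
def epsW (m w : ℝ) : ℝ := Function.invFunOn (wE m) (Ioo 0 1) w

lemma epsW_wE (h0 : 0 ≤ m) (h1 : m < 1) {ε : ℝ} (hε : ε ∈ Ioo (0:ℝ) 1) : epsW m (wE m ε) = ε :=
  (wE_strictMono h0 h1).injOn (Function.invFunOn_mem ⟨ε, hε, rfl⟩) hε
    (Function.invFunOn_eq ⟨ε, hε, rfl⟩)

lemma exists_eps (h0 : 0 ≤ m) (h1 : m < 1) {ε0 : ℝ} (hε : ε0 ∈ Ioo (0:ℝ) 1) {w : ℝ}
    (hw : w ∈ Ioo 0 (wE m ε0)) : ∃ ε ∈ Ioo (0:ℝ) ε0, wE m ε = w := by
  have hc : ContinuousOn (wE m) (Icc 0 ε0) := (wE_contOn h0 h1).mono fun x hx =>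
    ⟨hx.1, hx.2.trans_lt hε.2⟩
  have h3 := intermediate_value_Ioo hε.1.le hc
  rw [wE_zero] at h3
  exact h3 hw

lemma epsW_spec (h0 : 0 ≤ m) (h1 : m < 1) {ε0 : ℝ} (hε : ε0 ∈ Ioo (0:ℝ) 1) {w : ℝ}
    (hw : w ∈ Ioo 0 (wE m ε0)) : epsW m w ∈ Ioo (0:ℝ) ε0 ∧ wE m (epsW m w) = w := by
  obtain ⟨ε, h2, h3⟩ := exists_eps h0 h1 hε hw
  have h4 : ε ∈ Ioo (0:ℝ) 1 := ⟨h2.1, h2.2.trans hε.2⟩
  have h5 := epsW_wE h0 h1 h4
  rw [h3] at h5
  rw [h5]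
  exact ⟨h2, h3⟩

lemma epsW_mem (h0 : 0 ≤ m) (h1 : m < 1) {ε0 : ℝ} (hε : ε0 ∈ Ioo (0:ℝ) 1) {w : ℝ}
    (hw : w ∈ Ioo 0 (wE m ε0)) : epsW m w ∈ Ioo (0:ℝ) 1 :=
  ⟨(epsW_spec h0 h1 hε hw).1.1, (epsW_spec h0 h1 hε hw).1.2.trans hε.2⟩

lemma epsW_strictMono (h0 : 0 ≤ m) (h1 : m < 1) {ε0 : ℝ} (hε : ε0 ∈ Ioo (0:ℝ) 1) :
    StrictMonoOn (epsW m) (Ioo 0 (wE m ε0)) := by
  intro a ha b hb hab
  obtain ⟨a1, a2⟩ := epsW_spec h0 h1 hε ha
  obtain ⟨b1, b2⟩ := epsW_spec h0 h1 hε hb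
  refine ((wE_strictMono h0 h1).lt_iff_lt (epsW_mem h0 h1 hε ha) (epsW_mem h0 h1 hε hb)).1 ?_
  rw [a2, b2]
  exact hab

lemma epsW_cont (h0 : 0 ≤ m) (h1 : m < 1) {ε0 : ℝ} (hε : ε0 ∈ Ioo (0:ℝ) 1) {w : ℝ}
    (hw : w ∈ Ioo 0 (wE m ε0)) : ContinuousAt (epsW m) w := by
  refine (epsW_strictMono h0 h1 hε).continuousAt_of_image_mem_nhds (isOpen_Ioo.mem_nhds hw) ?_
  refine mem_of_superset (isOpen_Ioo.mem_nhds (epsW_spec h0 h1 hε hw).1) fun ε h2 => ?_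
  have h4 : ε ∈ Ioo (0:ℝ) 1 := ⟨h2.1, h2.2.trans hε.2⟩
  exact ⟨wE m ε, ⟨wE_pos h0 h1 h4, wE_strictMono h0 h1 h4 hε h2.2⟩, epsW_wE h0 h1 h4⟩

/-- the map with a given rotation number -/
def GW (m w t : ℝ) : ℝ := GG m (epsW m w) t

lemma GG_strictMono (h0 : 0 ≤ m) (h1 : m < 1) {ε : ℝ} (hε : ε ∈ Ioo (0:ℝ) 1) :
    StrictMono (GG m ε) := by
  intro s t hst
  have h2 := PhR_strictMono h0 h1 (⟨hε.1.le, hε.2⟩ : ε ∈ Ico (0:ℝ) 1)
  refine h2.lt_iff_lt.1 ?_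
  rw [PhR_GG h0 h1 hε, PhR_GG h0 h1 hε]
  have := h2 hst
  linarith

/-- the integrable background of a pencil -/
theorem IB_PM (h0 : 0 ≤ m) (h1 : m < 1) {M : Matrix (Fin 3) (Fin 3) ℝ} (hM : M.det < 0)
    {ε0 : ℝ} (hε : ε0 ∈ Ioo (0:ℝ) 1) : IB (PM m M) (wE m ε0) (GW m) where
  curve := curve_PM M h0 h1 hM
  cont := by
    rintro ⟨w, t⟩ ⟨hw, -⟩
    have hw : w ∈ Ioo 0 (wE m ε0) := hw
    have h2 : ContinuousAt (fun z : ℝ × ℝ => (epsW m z.1, z.2)) (w, t) :=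
      ((epsW_cont h0 h1 hε hw).comp (f := Prod.fst) (x := (w, t))
        continuous_fst.continuousAt).prodMk continuous_snd.continuousAt
    exact ((GG_smooth h0 h1 (p := (epsW m w, t)) (epsW_mem h0 h1 hε hw)).continuousAt.comp
      (f := fun z : ℝ × ℝ => (epsW m z.1, z.2)) h2).continuousWithinAt
  gt w _ t := (GG_spec h0 h1 _ t).1
  lt w _ t := (GG_spec h0 h1 _ t).2.1
  per w _ t := GG_per h0 h1 _ t
  mono_w t a ha b hb hab := GG_mono h0 h1 t (epsW_mem h0 h1 hε ha) (epsW_mem h0 h1 hε hb)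
    (epsW_strictMono h0 h1 hε ha hb hab)
  mono_t w hw := GG_strictMono h0 h1 (epsW_mem h0 h1 hε hw)
  law w hw t := by
    rw [L1_P0J h0 h1 hM, L1_P0J h0 h1 hM]
    exact GG_law h0 h1 (epsW_mem h0 h1 hε hw) t
  rot p q hq hw t := by
    have h2 := epsW_mem h0 h1 hε hw
    have h2' : epsW m ((p:ℝ) / q) ∈ Ico (0:ℝ) 1 := ⟨h2.1.le, h2.2⟩
    refine (PhR_strictMono h0 h1 h2').injective ?_
    have hq' : (q:ℝ) ≠ 0 := by positivity
    have h3 := PhR_iter h0 h1 h2 q t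
    rw [(epsW_spec h0 h1 hε hw).2] at h3
    show PhR m _ ((GG m (epsW m ((p:ℝ) / q)))^[q] t) = _
    rw [h3, PhR_nat h0 h1 h2']
    field_simp

/-! ### the elliptic integral -/

/-- the integrand of the local block, real form -/
def gE (m ε t : ℝ) : ℝ := (√((1 - ε + t ^ 2) * (1 - (1 - m) * ε + (1 - m) * t ^ 2)))⁻¹

lemma gE_arg (h0 : 0 ≤ m) (h1 : m < 1) {ε : ℝ} (hε : ε ∈ Ico (0:ℝ) 1) (t : ℝ) :
    0 < 1 - ε + t ^ 2 ∧ 0 < 1 - (1 - m) * ε ∧ 0 < 1 - (1 - m) * ε + (1 - m) * t ^ 2 := by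
  have e1 := mul_nonneg h0 hε.1
  have e2 := mul_nonneg (by linarith : 0 ≤ 1 - m) (sq_nonneg t)
  have e3 := sq_nonneg t
  refine ⟨by linarith [hε.2], by linarith [hε.2], by linarith [hε.2]⟩

lemma gE_cont (h0 : 0 ≤ m) (h1 : m < 1) {ε : ℝ} (hε : ε ∈ Ico (0:ℝ) 1) : Continuous (gE m ε) := by
  unfold gE
  refine Continuous.inv₀ (by fun_prop) fun t => ?_
  obtain ⟨a, -, b⟩ := gE_arg h0 h1 hε t
  exact (Real.sqrt_pos.2 (mul_pos a b)).ne'

lemma cn_pos_of_abs (h0 : 0 ≤ m) (h1 : m < 1) {x : ℝ} (hx : |x| < 1 / 4) :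
    0 < cn m (4 * KK m * x) := by
  have hK := KK_pos h0 h1
  rw [abs_lt] at hx
  have e1 := am_strictMono h0 h1 (show 4 * KK m * x < KK m by nlinarith)
  have e2 := am_strictMono h0 h1 (show -KK m < 4 * KK m * x by nlinarith)
  rw [am_neg h0 h1, am_KK h0 h1] at e2
  rw [am_KK h0 h1] at e1
  exact Real.cos_pos_of_mem_Ioo ⟨e2, e1⟩

/-- the substitution -/
def TE (m ε x : ℝ) : ℝ :=
  √(1 - (1 - m) * ε) * (sn m (4 * KK m * x) / cn m (4 * KK m * x))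

lemma TE_hasDerivAt (h0 : 0 ≤ m) (h1 : m < 1) (ε : ℝ) {x : ℝ} (hx : |x| < 1 / 4) :
    HasDerivAt (TE m ε) (√(1 - (1 - m) * ε) * (4 * KK m * dn m (4 * KK m * x) /
      cn m (4 * KK m * x) ^ 2)) x := by
  have hc := (cn_pos_of_abs h0 h1 hx).ne'
  have hl : HasDerivAt (fun x : ℝ => 4 * KK m * x) (4 * KK m) x := by
    simpa using (hasDerivAt_id x).const_mul (4 * KK m)
  have k := (((sn_hasDerivAt h0 h1 (4 * KK m * x)).comp x hl).div
    ((cn_hasDerivAt h0 h1 (4 * KK m * x)).comp x hl) hc).const_mul √(1 - (1 - m) * ε)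
  refine k.congr_deriv ?_
  congr 2
  have e1 := sn_sq_add m (4 * KK m * x)
  simp only [Function.comp]
  linear_combination (4 * KK m * dn m (4 * KK m * x)) * e1

lemma gE_TE (h0 : 0 ≤ m) (h1 : m < 1) {ε : ℝ} (hε : ε ∈ Ico (0:ℝ) 1) {x : ℝ}
    (hx : |x| < 1 / 4) : gE m ε (TE m ε x) * (√(1 - (1 - m) * ε) *
      (4 * KK m * dn m (4 * KK m * x) / cn m (4 * KK m * x) ^ 2)) = 4 * KK m * RR m ε x := by
  have hc := cn_pos_of_abs h0 h1 hx
  have hR := RR_arg h0 h1 hε x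
  have hm := (gE_arg h0 h1 hε 0).2.1
  have hd := dn_pos h0 h1 (4 * KK m * x)
  have e1 := sn_sq_add m (4 * KK m * x)
  have e2 := dn_sq h0 h1 (4 * KK m * x)
  have f1 : 1 - ε + TE m ε x ^ 2 =
      (1 - ε * dn m (4 * KK m * x) ^ 2) / cn m (4 * KK m * x) ^ 2 := by
    unfold TE
    rw [mul_pow, Real.sq_sqrt hm.le, eq_div_iff (pow_pos hc 2).ne']
    field_simp
    linear_combination e1 - ε * (e1 - e2)
  have f2 : 1 - (1 - m) * ε + (1 - m) * TE m ε x ^ 2 =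
      (1 - (1 - m) * ε) * dn m (4 * KK m * x) ^ 2 / cn m (4 * KK m * x) ^ 2 := by
    unfold TE
    rw [mul_pow, Real.sq_sqrt hm.le, eq_div_iff (pow_pos hc 2).ne']
    field_simp
    linear_combination e1 - e2
  have f3 : (1 - ε + TE m ε x ^ 2) * (1 - (1 - m) * ε + (1 - m) * TE m ε x ^ 2) =
      (√(1 - ε * dn m (4 * KK m * x) ^ 2) * (√(1 - (1 - m) * ε) * dn m (4 * KK m * x)) /
        cn m (4 * KK m * x) ^ 2) ^ 2 := by
    rw [f1, f2, div_pow, mul_pow, mul_pow, Real.sq_sqrt hR.le, Real.sq_sqrt hm.le]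
    field_simp
  have hs1 := Real.sqrt_pos.2 hR
  have hs2 := Real.sqrt_pos.2 hm
  unfold gE RR
  rw [f3, Real.sqrt_sq (by positivity)]
  clear f1 f2 f3
  generalize √(1 - (1 - m) * ε) = r at *
  generalize √(1 - ε * dn m (4 * KK m * x) ^ 2) = q at *
  field_simp

/-- the elliptic integral of the invariant time -/
theorem PhR_sub (h0 : 0 ≤ m) (h1 : m < 1) {ε : ℝ} (hε : ε ∈ Ico (0:ℝ) 1) {x : ℝ}
    (hx : |x| < 1 / 4) : 4 * KK m * PhR m ε x = ∫ t in (0:ℝ)..TE m ε x, gE m ε t := by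
  have hin : ∀ y ∈ uIcc 0 x, |y| < 1 / 4 := fun y hy => by
    have := abs_sub_left_of_mem_uIcc hy
    rw [sub_zero, sub_zero] at this
    exact this.trans_lt hx
  have hT0 : TE m ε 0 = 0 := by
    unfold TE
    rw [mul_zero, sn_zero h0 h1, zero_div, mul_zero]
  have hcont : ContinuousOn (fun x => √(1 - (1 - m) * ε) *
      (4 * KK m * dn m (4 * KK m * x) / cn m (4 * KK m * x) ^ 2)) (uIcc 0 x) := by
    obtain ⟨-, c2, c3⟩ := jac_smooth h0 h1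
    have c2 := c2.continuous
    have c3 := c3.continuous
    refine continuousOn_const.mul (ContinuousOn.div (by fun_prop) (by fun_prop) fun y hy => ?_)
    exact pow_ne_zero 2 (cn_pos_of_abs h0 h1 (hin y hy)).ne'
  have k := intervalIntegral.integral_comp_mul_deriv
    (fun y hy => TE_hasDerivAt h0 h1 ε (hin y hy)) hcont (gE_cont h0 h1 hε)
  rw [hT0] at k
  rw [← k]
  unfold PhR
  rw [← intervalIntegral.integral_const_mul]
  exact intervalIntegral.integral_congr fun y hy => (gE_TE h0 h1 hε (hin y hy)).symm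

lemma TE_aE (h0 : 0 ≤ m) (h1 : m < 1) {ε : ℝ} (hε : ε ∈ Ioo (0:ℝ) 1) :
    TE m ε (aE m ε) = √ε := by
  obtain ⟨ha, hs⟩ := aE_spec h0 h1 hε
  have hε' : ε ∈ Ico (0:ℝ) 1 := ⟨hε.1.le, hε.2⟩
  have hx : |aE m ε| < 1 / 4 := by rw [abs_of_pos ha.1]; exact ha.2
  have hc := cn_pos_of_abs h0 h1 hx
  have hm := (gE_arg h0 h1 hε' 0).2.1
  have hK := KK_pos h0 h1
  have hsn : 0 ≤ sn m (4 * KK m * aE m ε) := by
    refine le_trans ?_ (sn_lower0 h0 h1 (u := 4 * KK m * aE m ε)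
      (mul_nonneg (by linarith) ha.1.le) (by nlinarith [ha.2]))
    exact mul_nonneg (by positivity) (mul_nonneg (by linarith) ha.1.le)
  have e1 := sn_sq_add m (4 * KK m * aE m ε)
  have e2 := dn_sq h0 h1 (4 * KK m * aE m ε)
  rw [eq_comm, Real.sqrt_eq_iff_mul_self_eq hε.1.le (by unfold TE; positivity)]
  have e3 : TE m ε (aE m ε) * TE m ε (aE m ε) = (1 - (1 - m) * ε) *
      sn m (4 * KK m * aE m ε) ^ 2 / cn m (4 * KK m * aE m ε) ^ 2 := by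
    unfold TE
    have := Real.sq_sqrt hm.le
    field_simp
    linear_combination sn m (4 * KK m * aE m ε) ^ 2 * this
  rw [e3, eq_div_iff (pow_pos hc 2).ne']
  linear_combination (-1) * hs + ε * (e1 - e2)

/-- the rotation number as an elliptic integral -/
theorem wE_eq (h0 : 0 ≤ m) (h1 : m < 1) {ε : ℝ} (hε : ε ∈ Ioo (0:ℝ) 1) :
    wE m ε = 2 / (4 * KK m * PhR m ε 1) * ∫ t in (0:ℝ)..√ε, gE m ε t := by
  obtain ⟨ha, hs⟩ := aE_spec h0 h1 hε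
  have hε' : ε ∈ Ico (0:ℝ) 1 := ⟨hε.1.le, hε.2⟩
  have hx : |aE m ε| < 1 / 4 := by rw [abs_of_pos ha.1]; exact ha.2
  have k := PhR_sub h0 h1 hε' hx
  rw [TE_aE h0 h1 hε] at k
  rw [← k]
  have := (KK_pos h0 h1).ne'
  have := (PhR_one_pos h0 h1 hε').ne'
  unfold wE
  field_simp

/-! ### the complex normalisation of `GD` -/

lemma rt_real {y : ℝ} (hy : 0 < 1 - y) : rt (y : ℂ) = (((√(1 - y))⁻¹ : ℝ) : ℂ) := by
  unfold rt
  have e : (1 - (y:ℂ)) = ((1 - y : ℝ) : ℂ) := by push_cast; rfl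
  have e2 : (-(1 / 2) : ℂ) = ((-(1 / 2) : ℝ) : ℂ) := by push_cast; rfl
  rw [e, e2, ← Complex.ofReal_cpow hy.le, Real.rpow_neg hy.le, Real.sqrt_eq_rpow]

lemma rt_RR (h0 : 0 < m) (h1 : m < 1) {ε : ℝ} (hε : ε ∈ Ico (0:ℝ) 1) (t : ℝ) :
    rt ((ε:ℂ) * (GDJ m h0 h1).g (t:ℂ)) = ((RR m ε t : ℝ) : ℂ) := by
  show rt ((ε:ℂ) * gJ m (t:ℂ)) = _
  rw [gJ_real h0 h1, ← Complex.ofReal_mul]
  exact rt_real (RR_arg h0.le h1 hε t)

theorem cE_real (h0 : 0 < m) (h1 : m < 1) {ε : ℝ} (hε : ε ∈ Ico (0:ℝ) 1) :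
    cE (GDJ m h0 h1) (ε:ℂ) = ((PhR m ε 1 : ℝ) : ℂ) := by
  unfold cE PhR
  rw [← intervalIntegral.integral_ofReal]
  exact intervalIntegral.integral_congr fun t _ => rt_RR h0 h1 hε t

theorem phE_real (h0 : 0 < m) (h1 : m < 1) {ε : ℝ} (hε : ε ∈ Ico (0:ℝ) 1) (x : ℝ) :
    phE (GDJ m h0 h1) (ε:ℂ) (x:ℂ) = ((PhR m ε x / PhR m ε 1 : ℝ) : ℂ) := by
  unfold phE
  rw [cE_real h0 h1 hε, Complex.ofReal_re, Complex.ofReal_im, intervalIntegral.integral_same,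
    mul_zero, add_zero]
  have e : (∫ t in (0:ℝ)..x, rt ((ε:ℂ) * (GDJ m h0 h1).g (t:ℂ))) = ((PhR m ε x : ℝ) : ℂ) := by
    unfold PhR
    rw [← intervalIntegral.integral_ofReal]
    exact intervalIntegral.integral_congr fun t _ => rt_RR h0 h1 hε t
  rw [e]
  push_cast
  rw [div_eq_inv_mul]

end

end Pool.Agent.MP_ae5b4e_an_LOC
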