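import Mathlib

/-!
# LOC: analyticity of a parametrised inverse

If `f om z` is analytic in both variables, `T om w` solves `f om (T om w) = w`, the solution is
unique and the derivative does not vanish there, then `T` is analytic.
-/

set_option autoImplicit false

namespace Pool.Agent.MP_ae5b4e_an_LOC

open Set Metric Filter Topology

/-- analyticity of a parametrised inverse -/
theorem inv_analytic {f T : ℂ → ℂ → ℂ} {U V : Set (ℂ × ℂ)} (hU : IsOpen U) (hV : IsOpen V)
    (hf : AnalyticOnNhd ℂ (fun p : ℂ × ℂ => f p.1 p.2) U)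
    (hT : ∀ p ∈ V, (p.1, T p.1 p.2) ∈ U ∧ f p.1 (T p.1 p.2) = p.2 ∧
      deriv (f p.1) (T p.1 p.2) ≠ 0)
    (huniq : ∀ p ∈ V, ∀ z, (p.1, z) ∈ U → f p.1 z = p.2 → z = T p.1 p.2) :
    AnalyticOnNhd ℂ (fun p : ℂ × ℂ => T p.1 p.2) V := by
  rintro ⟨om0, w0⟩ hp0
  obtain ⟨hU0, hw0, hd0⟩ := hT _ hp0
  simp only at hU0 hw0 hd0
  set z0 := T om0 w0 with hz0
  have han : AnalyticAt ℂ (fun p : ℂ × ℂ => f p.1 p.2) (om0, z0) := hf _ hU0
  -- the map `Phi`
  set Phi : ℂ × ℂ → ℂ × ℂ := fun p => (p.1, f p.1 p.2) with hPhi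
  have hPan : AnalyticAt ℂ Phi (om0, z0) := AnalyticAt.prod analyticAt_fst han
  set L : ℂ × ℂ →L[ℂ] ℂ := fderiv ℂ (fun p : ℂ × ℂ => f p.1 p.2) (om0, z0) with hL
  have hLd : HasFDerivAt (fun p : ℂ × ℂ => f p.1 p.2) L (om0, z0) :=
    han.differentiableAt.hasFDerivAt
  have hL2 : L (0, 1) = deriv (f om0) z0 := by
    have h1 : HasDerivAt (fun z : ℂ => ((om0, z) : ℂ × ℂ)) ((0, 1) : ℂ × ℂ) z0 := by
      exact (hasDerivAt_const z0 om0).prodMk (hasDerivAt_id z0)
    have h2 : HasDerivAt (fun z : ℂ => f om0 z) (L (0, 1)) z0 := by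
      have := HasFDerivAt.comp_hasDerivAt (x := z0) (f := fun z : ℂ => ((om0, z) : ℂ × ℂ))
        (l := fun p : ℂ × ℂ => f p.1 p.2) (l' := L) (f' := (0, 1)) hLd h1
      exact this
    exact h2.deriv.symm
  have hLab : ∀ a b : ℂ, L (a, b) = L (a, 0) + b * L (0, 1) := by
    intro a b
    have : ((a, b) : ℂ × ℂ) = (a, 0) + b • ((0, 1) : ℂ × ℂ) := by
      simp
    rw [this, map_add, map_smul, smul_eq_mul]
  set D := deriv (f om0) z0 with hD
  -- the derivative of `Phi` as an equivalence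
  let Le : (ℂ × ℂ) ≃L[ℂ] (ℂ × ℂ) :=
    ContinuousLinearEquiv.equivOfInverse
      ((ContinuousLinearMap.fst ℂ ℂ ℂ).prod L)
      ((ContinuousLinearMap.fst ℂ ℂ ℂ).prod
        (D⁻¹ • (ContinuousLinearMap.snd ℂ ℂ ℂ -
          L.comp ((ContinuousLinearMap.fst ℂ ℂ ℂ).prod (0 : ℂ × ℂ →L[ℂ] ℂ)))))
      (by
        rintro ⟨a, b⟩
        ext
        · simp
        · simp only [ContinuousLinearMap.prod_apply, ContinuousLinearMap.coe_fst',
            smul_apply, sub_apply,
            ContinuousLinearMap.coe_snd', ContinuousLinearMap.comp_apply,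
            zero_apply, smul_eq_mul]
          rw [hLab a b, hL2]
          field_simp
          ring)
      (by
        rintro ⟨a, b⟩
        ext
        · simp
        · simp only [ContinuousLinearMap.prod_apply, ContinuousLinearMap.coe_fst',
            smul_apply, sub_apply,
            ContinuousLinearMap.coe_snd', ContinuousLinearMap.comp_apply,
            zero_apply, smul_eq_mul]
          rw [hLab a _, hL2]
          field_simp
          ring)
  have hLe : (Le : (ℂ × ℂ) →L[ℂ] (ℂ × ℂ)) = (ContinuousLinearMap.fst ℂ ℂ ℂ).prod L := by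
    ext <;> rfl
  have hPd : HasFDerivAt Phi (Le : (ℂ × ℂ) →L[ℂ] (ℂ × ℂ)) (om0, z0) := by
    rw [hLe]
    exact hasFDerivAt_fst.prodMk hLd
  have hcd : ContDiffAt ℂ ⊤ Phi (om0, z0) := hPan.contDiffAt
  have htop : (⊤ : WithTop ℕ∞) ≠ 0 := by simp
  have hinv := hcd.to_localInverse hPd htop
  set Psi := hcd.localInverse hPd htop with hPsi
  have hP0 : Phi (om0, z0) = (om0, w0) := by simp [hPhi, hw0]
  rw [hP0] at hinv
  have hPsi0 : Psi (om0, w0) = (om0, z0) := by
    have := hcd.localInverse_apply_image hPd htop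
    rw [hP0] at this
    exact this
  have hPsian : AnalyticAt ℂ Psi (om0, w0) := by
    exact hinv.analyticAt
  have hright : ∀ᶠ p in 𝓝 ((om0, w0) : ℂ × ℂ), Phi (Psi p) = p := by
    have := (hcd.hasStrictFDerivAt' hPd htop).eventually_right_inverse
    rw [hP0] at this
    exact this
  have hmemU : ∀ᶠ p in 𝓝 ((om0, w0) : ℂ × ℂ), Psi p ∈ U := by
    apply hPsian.continuousAt.eventually_mem
    rw [hPsi0]
    exact hU.mem_nhds hU0
  have hmemV : ∀ᶠ p in 𝓝 ((om0, w0) : ℂ × ℂ), p ∈ V := hV.mem_nhds hp0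
  have heq : (fun p : ℂ × ℂ => (Psi p).2) =ᶠ[𝓝 ((om0, w0) : ℂ × ℂ)]
      (fun p : ℂ × ℂ => T p.1 p.2) := by
    filter_upwards [hright, hmemU, hmemV] with p h1 h2 h3
    have e1 : (Phi (Psi p)).1 = p.1 := by rw [h1]
    have e2 : (Phi (Psi p)).2 = p.2 := by rw [h1]
    simp only [hPhi] at e1 e2
    apply huniq p h3
    · rw [← e1]
      exact h2
    · rw [← e1]
      exact e2
  exact (analyticAt_snd.comp hPsian).congr heq

end Pool.Agent.MP_ae5b4e_an_LOC
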