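import Pool.Agent.Lib.MP_ae5b4e_an_LOC.Bg
import Pool.Agent.Lib.MP_ae5b4e_an_LOC.InvG

/-!
# LOC, LT-1 [INV]: the inverse of the time map
-/

set_option autoImplicit false

namespace Pool.Agent.MP_ae5b4e_an_LOC

open Set Metric Complex ComplexConjugate Filter Topology

/-- `X om` is the inverse of the time map `ph om` -/
structure XInv (B : Bg) (X : ℂ → ℂ → ℂ) : Prop where
  an : ∀ om phi : ℂ, ‖om‖ < B.r → |phi.im| < B.h - 3 * B.K * ‖om‖ →
    AnalyticAt ℂ (fun p : ℂ × ℂ => X p.1 p.2) (om, phi)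
  close : ∀ om phi : ℂ, ‖om‖ < B.r → |phi.im| < B.h - 3 * B.K * ‖om‖ →
    ‖X om phi - phi‖ ≤ B.K * ‖om‖
  ph_X : ∀ om phi : ℂ, ‖om‖ < B.r → |phi.im| < B.h - 3 * B.K * ‖om‖ → B.ph om (X om phi) = phi
  half : ∀ om phi : ℂ, ‖om‖ < B.r → |phi.im| < B.h - 3 * B.K * ‖om‖ →
    X om (phi + 1 / 2) = X om phi + 1 / 2
  one : ∀ om phi : ℂ, ‖om‖ < B.r → |phi.im| < B.h - 3 * B.K * ‖om‖ → X om (phi + 1) = X om phi + 1
  even : ∀ om phi : ℂ, ‖om‖ < B.r → |phi.im| < B.h - 3 * B.K * ‖om‖ → X (-om) phi = X om phi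
  X_conj : ∀ om phi : ℂ, ‖om‖ < B.r → |phi.im| < B.h - 3 * B.K * ‖om‖ →
    X (conj om) (conj phi) = conj (X om phi)
  zero : ∀ phi : ℂ, |phi.im| < B.h → X 0 phi = phi
  X_ph : ∀ om x : ℂ, ‖om‖ < B.r → |x.im| < B.h - 4 * B.K * ‖om‖ → X om (B.ph om x) = x

private theorem Inv_im (x y : ℂ) {e : ℝ} (h : ‖x - y‖ ≤ e) : |x.im| ≤ |y.im| + e := by
  have h1 : |(x - y).im| ≤ ‖x - y‖ := Complex.abs_im_le_norm _
  rw [Complex.sub_im] at h1
  have h2 := abs_sub_abs_le_abs_sub x.im y.im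
  linarith

private theorem Inv_convex (t : ℝ) : Convex ℝ {x : ℂ | |x.im| < t} := by
  have h : {x : ℂ | |x.im| < t} = {x : ℂ | -t < x.im} ∩ {x : ℂ | x.im < t} := by
    ext x
    simp [abs_lt]
  rw [h]
  exact (convex_halfSpace_im_gt (-t)).inter (convex_halfSpace_im_lt t)

private theorem Inv_open (t : ℝ) : IsOpen {x : ℂ | |x.im| < t} :=
  isOpen_lt (continuous_abs.comp Complex.continuous_im) continuous_const

namespace Bg

variable (B : Bg)

theorem ph_one (om x : ℂ) (hom : ‖om‖ < B.r) (hx : |x.im| < B.h - B.K * ‖om‖) :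
    B.ph om (x + 1) = B.ph om x + 1 := by
  have h1 := B.ph_half om x hom hx
  have h2 := B.ph_half om (x + 1 / 2) hom (by simpa using hx)
  have h3 : x + 1 / 2 + 1 / 2 = x + 1 := by ring
  rw [h3, h1] at h2
  rw [h2]
  ring

theorem ph_diffAt (om x : ℂ) (hom : ‖om‖ < B.r) (hx : |x.im| < B.h - B.K * ‖om‖) :
    DifferentiableAt ℂ (B.ph om) x := by
  have h1 := (B.ph_an om x hom hx).differentiableAt
  have h2 : DifferentiableAt ℂ (fun z : ℂ => ((om, z) : ℂ × ℂ)) x := by fun_prop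
  exact DifferentiableAt.comp x (g := fun p : ℂ × ℂ => B.ph p.1 p.2) h1 h2

theorem deriv_ph_ne (om x : ℂ) (hom : ‖om‖ < B.r) (hx : |x.im| < B.h - B.K * ‖om‖) :
    deriv (B.ph om) x ≠ 0 := by
  intro h
  have h1 := B.ph_der om x hom hx
  rw [h, zero_sub, norm_neg, norm_one] at h1
  norm_num at h1

/-- the displacement `ph om x - x` is `1/2`-Lipschitz -/
theorem ph_lip {om x y : ℂ} (hom : ‖om‖ < B.r) (hx : |x.im| < B.h - B.K * ‖om‖)
    (hy : |y.im| < B.h - B.K * ‖om‖) :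
    ‖(B.ph om y - y) - (B.ph om x - x)‖ ≤ 1 / 2 * ‖y - x‖ := by
  refine Convex.norm_image_sub_le_of_norm_deriv_le (f := fun z => B.ph om z - z)
    (s := {z : ℂ | |z.im| < B.h - B.K * ‖om‖}) ?_ ?_ (Inv_convex _) hx hy
  · intro z hz
    exact (B.ph_diffAt om z hom hz).sub differentiableAt_id
  · intro z hz
    have h1 : HasDerivAt (fun z => B.ph om z - z) (deriv (B.ph om) z - 1) z :=
      (B.ph_diffAt om z hom hz).hasDerivAt.sub (hasDerivAt_id z)
    rw [h1.deriv]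
    exact B.ph_der om z hom hz

theorem ph_inj {om : ℂ} (hom : ‖om‖ < B.r) :
    InjOn (B.ph om) {x : ℂ | |x.im| < B.h - B.K * ‖om‖} := by
  intro x hx y hy hxy
  have h1 := B.ph_lip hom hx hy
  rw [hxy] at h1
  have h2 : (B.ph om y - y) - (B.ph om y - x) = -(y - x) := by ring
  rw [h2, norm_neg] at h1
  have h3 : ‖y - x‖ ≤ 0 := by
    have := norm_nonneg (y - x)
    linarith
  exact (sub_eq_zero.1 (norm_le_zero_iff.1 h3)).symm

private theorem Inv_fix {T : ℂ → ℂ} {a : ℂ} {e : ℝ}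
    (hT : MapsTo T (closedBall a e) (closedBall a e))
    (hL : ∀ x ∈ closedBall a e, ∀ y ∈ closedBall a e, ‖T y - T x‖ ≤ 1 / 2 * ‖y - x‖)
    (he : 0 ≤ e) : ∃ x ∈ closedBall a e, T x = x := by
  have hc : ContractingWith (1 / 2) (hT.restrict T (closedBall a e) (closedBall a e)) := by
    refine ⟨by norm_num, LipschitzWith.of_dist_le_mul fun x y => ?_⟩
    rw [Subtype.dist_eq, Subtype.dist_eq, dist_eq_norm, dist_eq_norm]
    have h1 := hL y.1 y.2 x.1 x.2
    have h2 : ((1 / 2 : NNReal) : ℝ) = 1 / 2 := by norm_num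
    rw [h2]
    exact h1
  obtain ⟨x, hx, hfx, _⟩ := ContractingWith.exists_fixedPoint' isClosed_closedBall.isComplete hT
    hc (mem_closedBall_self he) (edist_ne_top _ _)
  exact ⟨x, hx, hfx⟩

private theorem Inv_ex {om phi : ℂ} (hom : ‖om‖ < B.r) (hphi : |phi.im| < B.h - 3 * B.K * ‖om‖) :
    ∃ x : ℂ, ‖x - phi‖ ≤ B.K * ‖om‖ ∧ B.ph om x = phi := by
  have hK : 0 ≤ B.K * ‖om‖ := mul_nonneg (zero_le_one.trans B.one_le_K) (norm_nonneg _)
  have hin : ∀ x ∈ closedBall phi (B.K * ‖om‖), |x.im| < B.h - B.K * ‖om‖ := by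
    intro x hx
    rw [mem_closedBall, dist_eq_norm] at hx
    have := Inv_im x phi hx
    linarith
  obtain ⟨x, hx, hfx⟩ := Inv_fix (T := fun x => phi - (B.ph om x - x)) (a := phi)
    (e := B.K * ‖om‖) (fun x hx => by
      rw [mem_closedBall, dist_eq_norm]
      have h1 : phi - (B.ph om x - x) - phi = -(B.ph om x - x) := by ring
      rw [h1, norm_neg]
      exact B.ph_close om x hom (hin x hx)) (fun x hx y hy => by
      have h1 : phi - (B.ph om y - y) - (phi - (B.ph om x - x)) =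
          -((B.ph om y - y) - (B.ph om x - x)) := by ring
      rw [h1, norm_neg]
      exact B.ph_lip hom (hin x hx) (hin y hy)) hK
  refine ⟨x, by rwa [mem_closedBall, dist_eq_norm] at hx, ?_⟩
  have h1 : phi - (B.ph om x - x) = x := hfx
  linear_combination -h1

end Bg

/-- the inverse of the time map -/
theorem exists_XInv (B : Bg) : ∃ X : ℂ → ℂ → ℂ, XInv B X := by
  classical
  have hex : ∀ om phi : ℂ, ∃ x : ℂ, ‖om‖ < B.r → |phi.im| < B.h - 3 * B.K * ‖om‖ →
      ‖x - phi‖ ≤ B.K * ‖om‖ ∧ B.ph om x = phi := by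
    intro om phi
    by_cases h : ‖om‖ < B.r ∧ |phi.im| < B.h - 3 * B.K * ‖om‖
    · obtain ⟨x, hx⟩ := B.Inv_ex h.1 h.2
      exact ⟨x, fun _ _ => hx⟩
    · exact ⟨0, fun h1 h2 => absurd ⟨h1, h2⟩ h⟩
  choose X hX using hex
  have hK0 : ∀ om : ℂ, 0 ≤ B.K * ‖om‖ := fun om =>
    mul_nonneg (zero_le_one.trans B.one_le_K) (norm_nonneg _)
  have him : ∀ om phi : ℂ, ‖om‖ < B.r → |phi.im| < B.h - 3 * B.K * ‖om‖ →
      |(X om phi).im| < B.h - 2 * (B.K * ‖om‖) := by
    intro om phi h1 h2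
    have h3 := Inv_im _ _ (hX om phi h1 h2).1
    linarith
  have him' : ∀ om phi : ℂ, ‖om‖ < B.r → |phi.im| < B.h - 3 * B.K * ‖om‖ →
      |(X om phi).im| < B.h - B.K * ‖om‖ := by
    intro om phi h1 h2
    have h3 := him om phi h1 h2
    have h4 := hK0 om
    linarith
  have huniq : ∀ om phi x : ℂ, ‖om‖ < B.r → |phi.im| < B.h - 3 * B.K * ‖om‖ →
      |x.im| < B.h - B.K * ‖om‖ → B.ph om x = phi → X om phi = x := by
    intro om phi x h1 h2 h3 h4
    refine B.ph_inj h1 (him' om phi h1 h2) h3 ?_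
    rw [(hX om phi h1 h2).2, h4]
  refine ⟨X, ?_, fun om phi h1 h2 => (hX om phi h1 h2).1, fun om phi h1 h2 => (hX om phi h1 h2).2,
    ?_, ?_, ?_, ?_, ?_, ?_⟩
  · -- analyticity
    let U : Set (ℂ × ℂ) := {p | ‖p.1‖ < B.r} ∩ {p | |p.2.im| < B.h - B.K * ‖p.1‖}
    let V : Set (ℂ × ℂ) := {p | ‖p.1‖ < B.r} ∩ {p | |p.2.im| < B.h - 3 * B.K * ‖p.1‖}
    have hU : IsOpen U := by
      refine IsOpen.inter (isOpen_lt continuous_fst.norm continuous_const) (isOpen_lt ?_ ?_)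
      · exact continuous_abs.comp (Complex.continuous_im.comp continuous_snd)
      · exact continuous_const.sub (continuous_const.mul continuous_fst.norm)
    have hV : IsOpen V := by
      refine IsOpen.inter (isOpen_lt continuous_fst.norm continuous_const) (isOpen_lt ?_ ?_)
      · exact continuous_abs.comp (Complex.continuous_im.comp continuous_snd)
      · exact continuous_const.sub (continuous_const.mul continuous_fst.norm)
    have h1 := inv_analytic (f := B.ph) (T := X) hU hV (fun p hp => B.ph_an p.1 p.2 hp.1 hp.2)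
      (fun p hp => ⟨⟨hp.1, him' p.1 p.2 hp.1 hp.2⟩, (hX p.1 p.2 hp.1 hp.2).2,
        B.deriv_ph_ne _ _ hp.1 (him' p.1 p.2 hp.1 hp.2)⟩)
      (fun p hp z hz hfz => (huniq p.1 p.2 z hp.1 hp.2 hz.2 hfz).symm)
    intro om phi h2 h3
    exact h1 (om, phi) ⟨h2, h3⟩
  · intro om phi h1 h2
    refine huniq om (phi + 1 / 2) (X om phi + 1 / 2) h1 (by simpa using h2) ?_ ?_
    · simpa using him' om phi h1 h2
    · rw [B.ph_half om _ h1 (him' om phi h1 h2), (hX om phi h1 h2).2]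
  · intro om phi h1 h2
    refine huniq om (phi + 1) (X om phi + 1) h1 (by simpa using h2) ?_ ?_
    · simpa using him' om phi h1 h2
    · rw [B.ph_one om _ h1 (him' om phi h1 h2), (hX om phi h1 h2).2]
  · intro om phi h1 h2
    refine huniq (-om) phi (X om phi) (by simpa using h1) (by simpa using h2) ?_ ?_
    · simpa using him' om phi h1 h2
    · rw [B.ph_even om _ h1 (him' om phi h1 h2), (hX om phi h1 h2).2]
  · intro om phi h1 h2
    refine huniq (conj om) (conj phi) (conj (X om phi)) (by simpa using h1) (by simpa using h2)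
      ?_ ?_
    · simpa using him' om phi h1 h2
    · rw [B.ph_conj om _ h1 (him' om phi h1 h2), (hX om phi h1 h2).2]
  · intro phi h1
    refine huniq 0 phi phi (by simpa using B.r_pos) (by simpa using h1) (by simpa using h1) ?_
    exact B.ph_zero phi h1
  · intro om x h1 h2
    have h3 := hK0 om
    have h4 : |x.im| < B.h - B.K * ‖om‖ := by linarith
    refine huniq om (B.ph om x) x h1 ?_ h4 rfl
    have h5 := Inv_im _ _ (B.ph_close om x h1 h4)
    linarith

end Pool.Agent.MP_ae5b4e_an_LOC
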