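import Pool.Agent.Lib.MP_ae5b4e_an_LOC.LT0
import Pool.Agent.Lib.MP_ae5b4e_an_LOC.Inv
import Pool.Agent.Lib.MP_ae5b4e_an_WB.ParamInt

/-!
# LOC, LT-2: the Fourier coefficients `cm`

Contour shift, analyticity and evenness in `om`, exponential bound.
-/

set_option autoImplicit false

namespace Pool.Agent.MP_ae5b4e_an_LOC

open Set Metric Complex ComplexConjugate Filter Topology MeasureTheory intervalIntegral

/-! ### general lemmas -/

/-- shift of the contour for a periodic function on a horizontal strip -/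
theorem perInt_shift {a b : ℝ} {g : ℂ → ℂ}
    (hg : DifferentiableOn ℂ g {x : ℂ | a < x.im ∧ x.im < b})
    (hp : ∀ x : ℂ, a < x.im → x.im < b → g (x + 1) = g x) {y1 y2 : ℝ}
    (h1 : a < y1) (h1' : y1 < b) (h2 : a < y2) (h2' : y2 < b) :
    ∫ u in (0:ℝ)..1, g (u + y1 * I) = ∫ u in (0:ℝ)..1, g (u + y2 * I) := by
  have hsub : (uIcc (((y1 : ℝ) : ℂ) * I).re (1 + ((y2 : ℝ) : ℂ) * I).re ×ℂ
      uIcc (((y1 : ℝ) : ℂ) * I).im (1 + ((y2 : ℝ) : ℂ) * I).im) ⊆
      {x : ℂ | a < x.im ∧ x.im < b} := by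
    intro x hx
    rw [Complex.mem_reProdIm] at hx
    have hx2 := hx.2
    have e1 : (((y1 : ℝ) : ℂ) * I).im = y1 := by simp
    have e2 : (1 + ((y2 : ℝ) : ℂ) * I).im = y2 := by simp
    rw [e1, e2, mem_uIcc] at hx2
    rcases hx2 with h | h
    · exact ⟨by linarith [h.1], by linarith [h.2]⟩
    · exact ⟨by linarith [h.1], by linarith [h.2]⟩
  have key := Complex.integral_boundary_rect_eq_zero_of_differentiableOn g ((y1 : ℝ) * I)
    (1 + (y2 : ℝ) * I) (hg.mono hsub)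
  simp only [mul_im, ofReal_re, I_im, mul_one, ofReal_im, I_re, mul_zero, add_zero, add_im,
      one_im, zero_add, mul_re, sub_self, add_re, one_re, ofReal_one, ofReal_zero] at key
  have hper : ∫ y in y1..y2, g (1 + y * I) = ∫ y in y1..y2, g (y * I) := by
    refine intervalIntegral.integral_congr fun y hy => ?_
    rw [mem_uIcc] at hy
    have hy' : a < y ∧ y < b := by
      rcases hy with h | h
      · exact ⟨by linarith [h.1], by linarith [h.2]⟩
      · exact ⟨by linarith [h.1], by linarith [h.2]⟩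
    have := hp (y * I) (by simpa using hy'.1) (by simpa using hy'.2)
    rw [add_comm] at this
    exact this
  rw [hper] at key
  have : (∫ u in (0:ℝ)..1, g (u + y1 * I)) - ∫ u in (0:ℝ)..1, g (u + y2 * I) = 0 := by
    linear_combination key
  exact sub_eq_zero.1 this

/-- the derivative in the second variable is analytic in both variables -/
theorem analyticAt_deriv_snd {f : ℂ → ℂ → ℂ} {om x : ℂ}
    (h : AnalyticAt ℂ (fun p : ℂ × ℂ => f p.1 p.2) (om, x)) :
    AnalyticAt ℂ (fun p : ℂ × ℂ => deriv (f p.1) p.2) (om, x) := by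
  have h1 : AnalyticAt ℂ (fun p : ℂ × ℂ => fderiv ℂ (fun p : ℂ × ℂ => f p.1 p.2) p (0, 1))
      (om, x) := by
    have h2 := h.fderiv
    exact ((ContinuousLinearMap.apply ℂ ℂ ((0, 1) : ℂ × ℂ)).analyticAt _).comp h2
  refine h1.congr ?_
  filter_upwards [h.eventually_analyticAt] with p hp
  have h3 : HasFDerivAt (fun p : ℂ × ℂ => f p.1 p.2)
      (fderiv ℂ (fun p : ℂ × ℂ => f p.1 p.2) p) p := hp.differentiableAt.hasFDerivAt
  have h4 : HasDerivAt (fun z : ℂ => ((p.1, z) : ℂ × ℂ)) ((0, 1) : ℂ × ℂ) p.2 :=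
    (hasDerivAt_const p.2 p.1).prodMk (hasDerivAt_id p.2)
  have h5 : HasDerivAt (fun z : ℂ => f p.1 z)
      (fderiv ℂ (fun p : ℂ × ℂ => f p.1 p.2) p (0, 1)) p.2 :=
    HasFDerivAt.comp_hasDerivAt (x := p.2) (f := fun z : ℂ => ((p.1, z) : ℂ × ℂ))
      (l := fun p : ℂ × ℂ => f p.1 p.2) (f' := (0, 1)) h3 h4
  exact h5.deriv.symm

namespace Bg

variable (B : Bg)

/-! ### the background functions -/

theorem K_pos1 : 0 < B.K := lt_of_lt_of_le one_pos B.one_le_K

theorem K_mul_lt {om : ℂ} (h : ‖om‖ < B.r) : B.K * ‖om‖ < B.h / 4 := by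
  have h1 := mul_lt_mul_of_pos_left h B.K_pos1
  have h2 := B.K_r_le
  have h3 := B.rho_le_h
  linarith

theorem dom_real {om : ℂ} (h : ‖om‖ < B.r) (u : ℝ) : |(u : ℂ).im| < B.h - B.K * ‖om‖ := by
  rw [ofReal_im, abs_zero]
  have := B.K_mul_lt h
  have := B.h_pos
  linarith

/-- the domain of `ph` is open -/
theorem isOpen_dom (t : ℝ) : IsOpen {p : ℂ × ℂ | ‖p.1‖ < B.r ∧ |p.2.im| < t ∧
    |p.2.im| < B.h - B.K * ‖p.1‖} := by
  have h1 : Continuous (fun p : ℂ × ℂ => ‖p.1‖) := continuous_norm.comp continuous_fst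
  have h2 : Continuous (fun p : ℂ × ℂ => |p.2.im|) :=
    continuous_abs.comp (Complex.continuous_im.comp continuous_snd)
  have h3 : Continuous (fun p : ℂ × ℂ => B.h - B.K * ‖p.1‖) :=
    continuous_const.sub (continuous_const.mul h1)
  exact (isOpen_lt h1 continuous_const).inter
    ((isOpen_lt h2 continuous_const).inter (isOpen_lt h2 h3))

theorem isOpen_dom1 (om : ℂ) : IsOpen {x : ℂ | |x.im| < B.h - B.K * ‖om‖} :=
  isOpen_lt (continuous_abs.comp Complex.continuous_im) continuous_const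

theorem ph_an1 {om x : ℂ} (h1 : ‖om‖ < B.r) (h2 : |x.im| < B.h - B.K * ‖om‖) :
    AnalyticAt ℂ (B.ph om) x := by
  have h3 := B.ph_an om x h1 h2
  exact AnalyticAt.comp (g := fun p : ℂ × ℂ => B.ph p.1 p.2) (f := fun x : ℂ => (om, x)) h3
    (by fun_prop)

theorem ph_der_one {om x : ℂ} (h1 : ‖om‖ < B.r) (h2 : |x.im| < B.h - B.K * ‖om‖) :
    deriv (B.ph om) (x + 1) = deriv (B.ph om) x := by
  have e1 : (fun x => B.ph om (x + 1)) =ᶠ[𝓝 x] fun x => B.ph om x + 1 := by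
    filter_upwards [(B.isOpen_dom1 om).mem_nhds h2] with y hy
    exact B.ph_one om y h1 hy
  have e2 := e1.deriv_eq
  rw [deriv_comp_add_const, deriv_add_const] at e2
  exact e2

theorem ph_der_even {om x : ℂ} (h1 : ‖om‖ < B.r) (h2 : |x.im| < B.h - B.K * ‖om‖) :
    deriv (B.ph (-om)) x = deriv (B.ph om) x := by
  have e1 : B.ph (-om) =ᶠ[𝓝 x] B.ph om := by
    filter_upwards [(B.isOpen_dom1 om).mem_nhds h2] with y hy
    exact B.ph_even om y h1 hy
  exact e1.deriv_eq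

theorem ph_der_le {om x : ℂ} (h1 : ‖om‖ < B.r) (h2 : |x.im| < B.h - B.K * ‖om‖) :
    ‖deriv (B.ph om) x‖ ≤ 3 / 2 := by
  have h3 := B.ph_der om x h1 h2
  have h4 : deriv (B.ph om) x = (deriv (B.ph om) x - 1) + 1 := by ring
  rw [h4]
  refine (norm_add_le _ _).trans ?_
  rw [norm_one]
  linarith

/-- the integrand of `cm` -/
noncomputable def Ig (f : Fin 3 → ℂ → ℂ) (m : ℤ) (om x : ℂ) : ℂ :=
  B.F f om x * exp (-(2 * Real.pi * I * m * B.ph om x)) * deriv (B.ph om) x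

theorem cm_eq (f : Fin 3 → ℂ → ℂ) (m : ℤ) (om : ℂ) :
    B.cm f m om = ∫ x in (0:ℝ)..1, B.Ig f m om x := rfl

theorem F_even (f : Fin 3 → ℂ → ℂ) {om : ℂ} (h1 : ‖om‖ < B.r) (x : ℂ) :
    B.F f (-om) x = B.F f om x := by
  unfold Bg.F
  rw [B.Lam_even om (by simpa using h1)]
  ring

variable {B} {t : ℝ} {f : Fin 3 → ℂ → ℂ}

theorem F_an (S : Sol B t f) {om x : ℂ} (h1 : ‖om‖ < B.r) (h2 : |x.im| < t) :
    AnalyticAt ℂ (fun p : ℂ × ℂ => B.F f p.1 p.2) (om, x) := by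
  have hL : AnalyticAt ℂ (fun p : ℂ × ℂ => B.Lam p.1) (om, x) :=
    AnalyticAt.comp (g := B.Lam) (f := fun p : ℂ × ℂ => p.1) (B.Lam_an om (by simpa using h1))
      analyticAt_fst
  have ho : AnalyticAt ℂ (fun p : ℂ × ℂ => p.1) (om, x) := analyticAt_fst
  have hf : ∀ i, AnalyticAt ℂ (fun p : ℂ × ℂ => f i p.2) (om, x) := fun i =>
    AnalyticAt.comp (g := f i) (f := fun p : ℂ × ℂ => p.2) (S.an i x h2) analyticAt_snd
  unfold Bg.F
  exact (((ho.pow 4).mul (hf 0)).add (((ho.pow 2).mul hL).mul (hf 1))).add ((hL.pow 2).mul (hf 2))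

theorem F_per (S : Sol B t f) {x : ℂ} (h2 : |x.im| < t) (om : ℂ) :
    B.F f om (x + 1) = B.F f om x := by
  unfold Bg.F
  rw [S.per 0 x h2, S.per 1 x h2, S.per 2 x h2]

theorem Ig_an (S : Sol B t f) (m : ℤ) {om x : ℂ} (h1 : ‖om‖ < B.r) (h2 : |x.im| < t)
    (h3 : |x.im| < B.h - B.K * ‖om‖) :
    AnalyticAt ℂ (fun p : ℂ × ℂ => B.Ig f m p.1 p.2) (om, x) := by
  have hp := B.ph_an om x h1 h3
  unfold Bg.Ig
  refine ((F_an S h1 h2).mul ?_).mul (analyticAt_deriv_snd hp)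
  exact ((analyticAt_const.mul hp).neg).cexp

theorem Ig_an1 (S : Sol B t f) (m : ℤ) {om x : ℂ} (h1 : ‖om‖ < B.r) (h2 : |x.im| < t)
    (h3 : |x.im| < B.h - B.K * ‖om‖) : AnalyticAt ℂ (B.Ig f m om) x := by
  have h4 := Ig_an S m h1 h2 h3
  exact AnalyticAt.comp (g := fun p : ℂ × ℂ => B.Ig f m p.1 p.2) (f := fun x : ℂ => (om, x)) h4
    (by fun_prop)

theorem exp_per (m : ℤ) (z : ℂ) :
    exp (-(2 * Real.pi * I * m * (z + 1))) = exp (-(2 * Real.pi * I * m * z)) := by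
  have h1 : -(2 * Real.pi * I * m * (z + 1)) =
      -(2 * Real.pi * I * m * z) + ((-m : ℤ) : ℂ) * (2 * Real.pi * I) := by
    push_cast
    ring
  rw [h1, Complex.exp_add, Complex.exp_int_mul_two_pi_mul_I, mul_one]

theorem Ig_per (S : Sol B t f) (m : ℤ) {om x : ℂ} (h1 : ‖om‖ < B.r) (h2 : |x.im| < t)
    (h3 : |x.im| < B.h - B.K * ‖om‖) : B.Ig f m om (x + 1) = B.Ig f m om x := by
  unfold Bg.Ig
  rw [F_per S h2, B.ph_one om x h1 h3, B.ph_der_one h1 h3, exp_per]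

/-- LT-2 (a): the contour shift -/
theorem cm_shift (ht : 0 < t) (S : Sol B t f) (m : ℤ) {om : ℂ} (h1 : ‖om‖ < B.r) {y : ℝ}
    (hy : |y| < t) (hy' : |y| < B.h - B.K * ‖om‖) :
    B.cm f m om = ∫ u in (0:ℝ)..1, B.Ig f m om (u + y * I) := by
  have h4 := B.K_mul_lt h1
  have h5 := B.h_pos
  set w : ℝ := min t (B.h - B.K * ‖om‖) with hw
  have hw0 : 0 < w := lt_min ht (by linarith)
  have hyw : |y| < w := lt_min hy hy'
  have hmem : ∀ x : ℂ, -w < x.im → x.im < w → |x.im| < t ∧ |x.im| < B.h - B.K * ‖om‖ := by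
    intro x ha hb
    have : |x.im| < w := abs_lt.2 ⟨ha, hb⟩
    exact ⟨lt_of_lt_of_le this (min_le_left _ _), lt_of_lt_of_le this (min_le_right _ _)⟩
  have key := perInt_shift (a := -w) (b := w) (g := B.Ig f m om) (y1 := 0) (y2 := y) ?_ ?_
    (by linarith) hw0 (abs_lt.1 hyw).1 (abs_lt.1 hyw).2
  · rw [cm_eq, ← key]
    refine intervalIntegral.integral_congr fun u _ => ?_
    simp
  · intro x hx
    obtain ⟨ha, hb⟩ := hmem x hx.1 hx.2
    exact (Ig_an1 S m h1 ha hb).differentiableAt.differentiableWithinAt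
  · intro x hx1 hx2
    obtain ⟨ha, hb⟩ := hmem x hx1 hx2
    exact Ig_per S m h1 ha hb

/-- LT-2 (b): `cm` is analytic -/
theorem cm_diff (ht : 0 < t) (S : Sol B t f) (m : ℤ) :
    DifferentiableOn ℂ (B.cm f m) (ball 0 B.r) := by
  have hre : ∀ u : ℝ, |(u : ℂ).im| < t := by
    intro u
    rw [ofReal_im, abs_zero]
    exact ht
  have h := Pool.Agent.MP_ae5b4e_an_WB.differentiableOn_paramInt (U := ball (0:ℂ) B.r)
    isOpen_ball (a := 0) (b := 1) zero_le_one (f := fun om u => B.Ig f m om u) ?_ ?_ ?_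
  · exact h
  · intro u _ om hom
    have hom' : ‖om‖ < B.r := by simpa using hom
    have h4 := Ig_an S m hom' (hre u) (B.dom_real hom' u)
    have h5 : AnalyticAt ℂ (fun om : ℂ => B.Ig f m om u) om :=
      AnalyticAt.comp (g := fun p : ℂ × ℂ => B.Ig f m p.1 p.2) (f := fun om : ℂ => (om, (u:ℂ))) h4
        (by fun_prop)
    exact h5.differentiableAt.differentiableWithinAt
  · intro om hom u _
    have hom' : ‖om‖ < B.r := by simpa using hom
    have h4 := (Ig_an1 S m hom' (hre u) (B.dom_real hom' u)).continuousAt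
    exact (ContinuousAt.comp (f := fun u : ℝ => (u : ℂ)) (g := B.Ig f m om) h4
      Complex.continuous_ofReal.continuousAt).continuousWithinAt
  · intro om0 hom0
    obtain ⟨e, he, heU⟩ := nhds_basis_closedBall.mem_iff.1 (isOpen_ball.mem_nhds hom0)
    have hK : IsCompact (closedBall om0 e ×ˢ Icc (0:ℝ) 1) :=
      (isCompact_closedBall _ _).prod isCompact_Icc
    have hc : ContinuousOn (fun q : ℂ × ℝ => B.Ig f m q.1 q.2) (closedBall om0 e ×ˢ Icc (0:ℝ) 1) := by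
      rintro ⟨om, u⟩ ⟨h1, -⟩
      have hom' : ‖om‖ < B.r := by simpa using heU h1
      have h4 : ContinuousAt (fun p : ℂ × ℂ => B.Ig f m p.1 p.2) (om, (u : ℂ)) :=
        (Ig_an S m hom' (hre u) (B.dom_real hom' u)).continuousAt
      have h5 : ContinuousAt (fun q : ℂ × ℝ => ((q.1, (q.2 : ℂ)) : ℂ × ℂ)) (om, u) :=
        (continuous_fst.prodMk (Complex.continuous_ofReal.comp continuous_snd)).continuousAt
      exact (ContinuousAt.comp (x := (om, u)) (g := fun p : ℂ × ℂ => B.Ig f m p.1 p.2)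
        (f := fun q : ℂ × ℝ => ((q.1, (q.2 : ℂ)) : ℂ × ℂ)) h4 h5).continuousWithinAt
    obtain ⟨C, hC⟩ := hK.exists_bound_of_continuousOn hc
    refine ⟨C, ?_⟩
    filter_upwards [closedBall_mem_nhds om0 he] with om hom u hu
    exact hC (om, u) ⟨hom, Ioo_subset_Icc_self hu⟩

/-- LT-2 (b): `cm` is even -/
theorem cm_even (m : ℤ) {om : ℂ} (h1 : ‖om‖ < B.r) :
    B.cm f m (-om) = B.cm f m om := by
  rw [cm_eq, cm_eq]
  refine intervalIntegral.integral_congr fun u _ => ?_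
  have h3 := B.dom_real h1 u
  simp only [Bg.Ig]
  rw [B.F_even f h1, B.ph_even om u h1 h3, B.ph_der_even h1 h3]

/-- bound for `F` on a smaller strip -/
theorem F_bound (S : Sol B t f) {h1 : ℝ} (h1t : h1 < t) :
    ∃ C : ℝ, 0 < C ∧ ∀ om x : ℂ, ‖om‖ ≤ B.r / 2 → |x.im| ≤ h1 → ‖B.F f om x‖ ≤ C := by
  have hr := B.r_pos
  have hK : IsCompact (closedBall (0:ℂ) (B.r / 2) ×ˢ (Icc (0:ℝ) 1 ×ℂ Icc (-h1) h1)) :=
    (isCompact_closedBall _ _).prod (isCompact_Icc.reProdIm isCompact_Icc)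
  have hc : ContinuousOn (fun p : ℂ × ℂ => B.F f p.1 p.2)
      (closedBall (0:ℂ) (B.r / 2) ×ˢ (Icc (0:ℝ) 1 ×ℂ Icc (-h1) h1)) := by
    rintro ⟨om, x⟩ ⟨ha, hb⟩
    rw [Complex.mem_reProdIm] at hb
    have hom : ‖om‖ < B.r := by
      have : ‖om‖ ≤ B.r / 2 := by simpa using ha
      linarith
    have hx : |x.im| < t := lt_of_le_of_lt (abs_le.2 ⟨hb.2.1, hb.2.2⟩) h1t
    exact (F_an S hom hx).continuousAt.continuousWithinAt
  obtain ⟨C, hC⟩ := hK.exists_bound_of_continuousOn hc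
  refine ⟨max C 1, lt_max_of_lt_right one_pos, fun om x hom hx => ?_⟩
  -- reduction to the period
  have hper : ∀ n : ℤ, B.F f om (x + n) = B.F f om x := by
    intro n
    have hx' : ∀ y : ℂ, y.im = x.im → |y.im| < t := fun y hy => by
      rw [hy]
      exact lt_of_le_of_lt hx h1t
    induction n using Int.induction_on with
    | zero => simp
    | succ n ih =>
      have := F_per S (hx' (x + (n:ℤ)) (by simp)) om
      rw [← ih, ← this]
      push_cast
      ring_nf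
    | pred n ih =>
      have := F_per S (hx' (x + ((-(n:ℤ) - 1 : ℤ) : ℂ)) (by simp)) om
      rw [← ih, ← this]
      push_cast
      ring_nf
  have h5 := hC (om, x + ((-⌊x.re⌋ : ℤ) : ℂ)) ⟨by simpa using hom, by
    rw [Complex.mem_reProdIm]
    refine ⟨?_, ?_⟩
    · simp only [Int.cast_neg, add_re, neg_re, intCast_re]
      exact ⟨by linarith [Int.floor_le x.re], by linarith [Int.lt_floor_add_one x.re]⟩
    · simp only [Int.cast_neg, add_im, neg_im, intCast_im, neg_zero, add_zero]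
      exact abs_le.1 hx⟩
  simp only [hper] at h5
  exact h5.trans (le_max_left _ _)

/-- the modulus of the exponential -/
theorem norm_exp_ph (m : ℤ) (z : ℂ) :
    ‖exp (-(2 * Real.pi * I * m * z))‖ = Real.exp (2 * Real.pi * m * z.im) := by
  rw [Complex.norm_exp]
  congr 1
  have h1 : -(2 * Real.pi * I * m * z) = ((-(2 * Real.pi * m) : ℝ) : ℂ) * (I * z) := by
    push_cast
    ring
  rw [h1, Complex.re_ofReal_mul]
  simp

/-- LT-2 (c): the exponential bound -/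
theorem cm_bound (ht : 0 < t) (hth : t ≤ B.h) (S : Sol B t f) {h1 : ℝ} (h1t : h1 < t) :
    ∃ C : ℝ, 0 < C ∧ ∀ (m : ℤ) (om : ℂ), ‖om‖ ≤ B.r / 2 →
      ‖B.cm f m om‖ ≤ C * Real.exp (-(2 * Real.pi * |(m:ℝ)| * (h1 - 2 * B.K * ‖om‖))) := by
  have hr := B.r_pos
  have hK := B.K_pos1
  set h2 : ℝ := max h1 0 with hh2
  have h2t : h2 < t := max_lt h1t ht
  obtain ⟨C, hC0, hC⟩ := F_bound S h2t
  refine ⟨C * (3 / 2), by positivity, fun m om hom => ?_⟩
  have hom' : ‖om‖ < B.r := by linarith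
  set y0 : ℝ := max (h1 - B.K * ‖om‖) 0 with hy0
  have hy00 : 0 ≤ y0 := le_max_right _ _
  have hy01 : h1 - B.K * ‖om‖ ≤ y0 := le_max_left _ _
  have hKom : 0 ≤ B.K * ‖om‖ := by positivity
  have hy0h2 : y0 ≤ h2 := max_le (by linarith [le_max_left h1 0]) (le_max_right _ _)
  have hy0h : y0 < B.h - B.K * ‖om‖ := by
    refine max_lt (by linarith) ?_
    have := B.K_mul_lt hom'
    have := B.h_pos
    linarith
  -- the shift
  obtain ⟨y, hyabs, hym⟩ : ∃ y : ℝ, |y| = y0 ∧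
      ∀ v : ℝ, |v - y| ≤ B.K * ‖om‖ → m * v ≤ -(|(m:ℝ)| * (h1 - 2 * B.K * ‖om‖)) := by
    rcases le_total 0 (m:ℝ) with hm | hm
    · refine ⟨-y0, by rw [abs_neg, abs_of_nonneg hy00], fun v hv => ?_⟩
      have h3 := (abs_le.1 hv).2
      rw [abs_of_nonneg hm]
      nlinarith
    · refine ⟨y0, abs_of_nonneg hy00, fun v hv => ?_⟩
      have h3 := (abs_le.1 hv).1
      rw [abs_of_nonpos hm]
      nlinarith
  rw [cm_shift ht S m hom' (y := y) (by rw [hyabs]; linarith) (by rw [hyabs]; linarith)]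
  have key : ∀ u ∈ Set.uIoc (0:ℝ) 1, ‖B.Ig f m om (u + y * I)‖ ≤
      C * (3 / 2) * Real.exp (-(2 * Real.pi * |(m:ℝ)| * (h1 - 2 * B.K * ‖om‖))) := by
    intro u _
    have him : ((u:ℂ) + y * I).im = y := by simp
    have hd1 : |((u:ℂ) + y * I).im| < B.h - B.K * ‖om‖ := by rw [him, hyabs]; exact hy0h
    have hd2 : |((u:ℂ) + y * I).im| ≤ h2 := by rw [him, hyabs]; exact hy0h2
    have hF := hC om (u + y * I) hom hd2
    have hD := B.ph_der_le hom' hd1
    have hcl := B.ph_close om (u + y * I) hom' hd1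
    have him2 : |(B.ph om (u + y * I)).im - y| ≤ B.K * ‖om‖ := by
      refine le_trans ?_ hcl
      have := Complex.abs_im_le_norm (B.ph om (u + y * I) - (u + y * I))
      rw [sub_im, him] at this
      exact this
    have hE : ‖exp (-(2 * Real.pi * I * m * B.ph om (u + y * I)))‖ ≤
        Real.exp (-(2 * Real.pi * |(m:ℝ)| * (h1 - 2 * B.K * ‖om‖))) := by
      rw [norm_exp_ph, Real.exp_le_exp]
      have h6 := hym _ him2
      have h7 : (0:ℝ) ≤ 2 * Real.pi := by positivity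
      nlinarith [mul_le_mul_of_nonneg_left h6 h7]
    unfold Bg.Ig
    rw [norm_mul, norm_mul]
    have hE0 := Real.exp_pos (-(2 * Real.pi * |(m:ℝ)| * (h1 - 2 * B.K * ‖om‖)))
    calc ‖B.F f om (u + y * I)‖ * ‖exp (-(2 * Real.pi * I * m * B.ph om (u + y * I)))‖ *
          ‖deriv (B.ph om) (u + y * I)‖
        ≤ C * Real.exp (-(2 * Real.pi * |(m:ℝ)| * (h1 - 2 * B.K * ‖om‖))) * (3 / 2) := by
          gcongr
      _ = _ := by ring
  have h8 := intervalIntegral.norm_integral_le_of_norm_le_const key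
  simpa using h8

end Bg

end Pool.Agent.MP_ae5b4e_an_LOC
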