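import Mathlib
import Pool.Agent.Lib.MP_ae5b4e_an_LOC.Cm1
import Pool.Agent.Lib.MP_ae5b4e_an_NC.Def
import Pool.Agent.Lib.MP_ae5b4e_an_RG.DecS

/-!
# MP_ae5b4e_an, project LOC: Fourier coefficients of functions which are analytic on a strip
-/

set_option autoImplicit false

noncomputable section

namespace Pool.Agent.MP_ae5b4e_an_LOC

open Set Complex Filter Topology MeasureTheory intervalIntegral
open scoped ContDiff
open Pool.Agent.MP_ae5b4e_an_RG Pool.Agent.MP_ae5b4e_an_NC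

/-- exponential decay of the Fourier coefficients -/
theorem strip_decay {F : ℂ → ℂ} {h t : ℝ} (ht : 0 ≤ t) (hth : t < h)
    (hF : AnalyticOnNhd ℂ F (Sp h)) (hp : ∀ x ∈ Sp h, F (x + 1) = F x) :
    ∃ C, 0 ≤ C ∧ ∀ k : ℤ, ‖fc (fun x : ℝ => F x) k‖ ≤ C * Real.exp (-(2 * Real.pi * t * |(k:ℝ)|)) := by
  -- a bound on the closed strip
  have hcomp : IsCompact ((fun z : ℝ × ℝ => ((z.1 : ℂ) + z.2 * I)) '' (Icc (0:ℝ) 1 ×ˢ Icc (-t) t)) :=
    (isCompact_Icc.prod isCompact_Icc).image (by fun_prop)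
  obtain ⟨C, hC⟩ := hcomp.exists_bound_of_continuousOn (f := F) (hF.continuousOn.mono (by
    rintro _ ⟨z, hz, rfl⟩
    rw [mem_Sp]
    have : ((z.1 : ℂ) + z.2 * I).im = z.2 := by simp
    rw [this]
    exact (abs_le.2 ⟨hz.2.1, hz.2.2⟩).trans_lt hth))
  have hC0 : 0 ≤ C := (norm_nonneg _).trans (hC _ ⟨(0, 0), ⟨⟨le_rfl, zero_le_one⟩,
    ⟨by simpa using ht, ht⟩⟩, rfl⟩)
  refine ⟨C, hC0, fun k => ?_⟩
  -- the height of the contour
  obtain ⟨y, hy, hyk⟩ : ∃ y : ℝ, |y| ≤ t ∧ (k:ℝ) * y = -(t * |(k:ℝ)|) := by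
    rcases le_total 0 (k:ℝ) with hk | hk
    · refine ⟨-t, by rw [abs_neg, abs_of_nonneg ht], ?_⟩
      rw [abs_of_nonneg hk]
      ring
    · refine ⟨t, by rw [abs_of_nonneg ht], ?_⟩
      rw [abs_of_nonpos hk]
      ring
  set g : ℂ → ℂ := fun z => F z * Complex.exp (2 * Real.pi * I * ((-k : ℤ) : ℂ) * z) with hg
  have hgd : DifferentiableOn ℂ g {x : ℂ | -h < x.im ∧ x.im < h} := by
    have h1 : DifferentiableOn ℂ F {x : ℂ | -h < x.im ∧ x.im < h} :=
      hF.differentiableOn.mono fun x hx => by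
        rw [mem_Sp, abs_lt]
        exact hx
    exact h1.mul (by fun_prop)
  have hgp : ∀ x : ℂ, -h < x.im → x.im < h → g (x + 1) = g x := by
    intro x h1 h2
    have h3 := hp x (by rw [mem_Sp, abs_lt]; exact ⟨h1, h2⟩)
    simp only [hg, h3]
    congr 1
    rw [show 2 * (Real.pi : ℂ) * I * ((-k : ℤ) : ℂ) * (x + 1) =
      2 * Real.pi * I * ((-k : ℤ) : ℂ) * x + ((-k : ℤ) : ℂ) * (2 * Real.pi * I) by ring,
      Complex.exp_add, Complex.exp_int_mul_two_pi_mul_I, mul_one]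
  have hh : 0 < h := lt_of_le_of_lt ht hth
  have hy' := abs_le.1 hy
  have hs := perInt_shift hgd hgp (y1 := 0) (y2 := y) (by linarith) hh (by linarith) (by linarith)
  have e1 : fc (fun x : ℝ => F x) k = ∫ u in (0:ℝ)..1, g (u + (0:ℝ) * I) := by
    unfold fc
    refine intervalIntegral.integral_congr fun x _ => ?_
    simp only [hg, e, ofReal_zero, zero_mul, add_zero]
  rw [e1, hs]
  have h1 := intervalIntegral.norm_integral_le_of_norm_le_const (a := 0) (b := 1)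
    (C := C * Real.exp (-(2 * Real.pi * t * |(k:ℝ)|))) (f := fun u : ℝ => g (u + y * I))
    fun u hu => by
      rw [uIoc_of_le zero_le_one] at hu
      simp only [hg, norm_mul]
      refine mul_le_mul (hC _ ⟨(u, y), ⟨⟨hu.1.le, hu.2⟩, ⟨hy'.1, hy'.2⟩⟩, rfl⟩) ?_
        (norm_nonneg _) hC0
      rw [Complex.norm_exp]
      refine Real.exp_le_exp.2 (le_of_eq ?_)
      have : (2 * (Real.pi : ℂ) * I * ((-k : ℤ) : ℂ) * ((u : ℂ) + (y : ℂ) * I)).re =
          2 * Real.pi * ((k:ℝ) * y) := by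
        push_cast
        simp
        ring
      rw [this, hyk]
      ring
  rw [sub_zero, abs_one, mul_one] at h1
  exact h1

/-- polynomials are absorbed by exponentials -/
lemma poly_exp (b : ℕ) {c : ℝ} (hc : 0 < c) :
    ∃ D, 0 < D ∧ ∀ n : ℝ, 0 ≤ n → (1 + n) ^ b ≤ D * Real.exp (c * n) := by
  rcases Nat.eq_zero_or_pos b with hb | hb
  · refine ⟨1, one_pos, fun n hn => ?_⟩
    rw [hb, pow_zero, one_mul]
    exact Real.one_le_exp (by positivity)
  have hb0 : (0:ℝ) < b := by exact_mod_cast hb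
  refine ⟨(max 1 (b / c)) ^ b, by positivity, fun n hn => ?_⟩
  have h1 : 1 + n ≤ max 1 (b / c) * Real.exp (c / b * n) := by
    have h2 := Real.add_one_le_exp (c / b * n)
    have h3 : n = b / c * (c / b * n) := by field_simp
    have h4 : 0 ≤ c / b * n := by positivity
    calc 1 + n = 1 + b / c * (c / b * n) := by rw [← h3]
      _ ≤ max 1 (b / c) * 1 + max 1 (b / c) * (c / b * n) := by
          refine add_le_add (by rw [mul_one]; exact le_max_left _ _)
            (mul_le_mul_of_nonneg_right (le_max_right _ _) h4)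
      _ = max 1 (b / c) * (c / b * n + 1) := by ring
      _ ≤ max 1 (b / c) * Real.exp (c / b * n) :=
          mul_le_mul_of_nonneg_left h2 (by positivity)
  have h5 : Real.exp (c * n) = Real.exp (c / b * n) ^ b := by
    rw [← Real.exp_nat_mul]
    congr 1
    field_simp
  rw [h5, ← mul_pow]
  exact pow_le_pow_left₀ (by linarith) h1 b

/-- a real function which extends to a strip -/
theorem strip_smooth {f : ℝ → ℝ} {F : ℂ → ℂ} {h : ℝ} (hh : 0 < h) (hF : AnalyticOnNhd ℂ F (Sp h))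
    (hf : ∀ x : ℝ, F x = f x) : ContDiff ℝ ∞ f := by
  rw [contDiff_iff_contDiffAt]
  intro x
  have h1 : AnalyticAt ℂ F (x : ℂ) := hF x (by rw [mem_Sp]; simpa using hh)
  have h2 : ContDiffAt ℝ ∞ F (x : ℂ) := (h1.contDiffAt (n := ∞)).restrict_scalars ℝ
  have h3 : ContDiffAt ℝ ∞ (fun x : ℝ => F (x : ℂ)) x :=
    h2.comp x Complex.ofRealCLM.contDiff.contDiffAt
  have h4 : ContDiffAt ℝ ∞ (fun x : ℝ => (F (x : ℂ)).re) x :=
    Complex.reCLM.contDiff.contDiffAt.comp x h3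
  refine h4.congr_of_eventuallyEq (Eventually.of_forall fun y => ?_)
  simp only [hf, ofReal_re]

/-- the weighted bounds of a function which is analytic on a strip -/
theorem wr_of_strip {f : ℝ → ℝ} {F : ℂ → ℂ} {h ρ : ℝ} (b : ℕ) (hρ : 0 ≤ ρ)
    (hρh : ρ < 2 * Real.pi * h) (hF : AnalyticOnNhd ℂ F (Sp h))
    (hp : ∀ x ∈ Sp h, F (x + 1) = F x) (hf : ∀ x : ℝ, F x = f x) :
    ∃ L, 0 ≤ L ∧ WR ρ b L f ∧
      ∀ k : ℤ, ‖rc f k‖ ≤ L / ((1 + |(k:ℝ)|) ^ b * Real.exp (ρ * |(k:ℝ)|)) := by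
  have hπ := Real.pi_pos
  have hh : 0 < h := by
    by_contra hcon
    push Not at hcon
    nlinarith
  set t : ℝ := (ρ / (2 * Real.pi) + h) / 2 with ht
  have h1 : ρ / (2 * Real.pi) < h := by
    rw [div_lt_iff₀ (by positivity)]
    linarith
  have h1' : 0 ≤ ρ / (2 * Real.pi) := by positivity
  have ht0 : 0 ≤ t := by rw [ht]; linarith
  have hth : t < h := by rw [ht]; linarith
  have htρ : ρ < 2 * Real.pi * t := by
    have : ρ / (2 * Real.pi) < t := by rw [ht]; linarith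
    rw [div_lt_iff₀ (by positivity)] at this
    linarith
  obtain ⟨C, hC, hdec⟩ := strip_decay ht0 hth hF hp
  obtain ⟨D, hD, hpoly⟩ := poly_exp b (c := 2 * Real.pi * t - ρ) (by linarith)
  have hrc : ∀ k : ℤ, ‖rc f k‖ ≤ C * D / ((1 + |(k:ℝ)|) ^ b * Real.exp (ρ * |(k:ℝ)|)) := by
    intro k
    have e1 : rc f k = fc (fun x : ℝ => F x) k := by
      unfold rc
      simp only [hf]
    rw [e1, le_div_iff₀ (by positivity)]
    have h2 := hpoly |(k:ℝ)| (abs_nonneg _)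
    calc ‖fc (fun x : ℝ => F x) k‖ * ((1 + |(k:ℝ)|) ^ b * Real.exp (ρ * |(k:ℝ)|))
        ≤ (C * Real.exp (-(2 * Real.pi * t * |(k:ℝ)|))) *
          ((D * Real.exp ((2 * Real.pi * t - ρ) * |(k:ℝ)|)) * Real.exp (ρ * |(k:ℝ)|)) := by
          have := hdec k
          gcongr
      _ = C * D * (Real.exp (-(2 * Real.pi * t * |(k:ℝ)|)) *
          Real.exp ((2 * Real.pi * t - ρ) * |(k:ℝ)|) * Real.exp (ρ * |(k:ℝ)|)) := by ring
      _ = C * D := by
          rw [← Real.exp_add, ← Real.exp_add]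
          rw [show -(2 * Real.pi * t * |(k:ℝ)|) + (2 * Real.pi * t - ρ) * |(k:ℝ)| +
            ρ * |(k:ℝ)| = 0 by ring, Real.exp_zero, mul_one]
  have hper : Function.Periodic f 1 := by
    intro x
    have h2 := hp x (by rw [mem_Sp]; simpa using hh)
    have h3 : F ((x + 1 : ℝ) : ℂ) = F x := by
      push_cast
      exact h2
    rw [hf, hf] at h3
    exact_mod_cast h3
  obtain ⟨A0, hA0, hdec'⟩ := dec_of_contDiff
    (strip_smooth hh hF hf) hper
  exact ⟨C * D, by positivity, ⟨rc f, hrc, fun x => Dec.hasSum_rc (le_refl 0) hdec' x⟩, hrc⟩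

end Pool.Agent.MP_ae5b4e_an_LOC
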