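import Mathlib
import Pool.Agent.Lib.MP_ae5b4e_an_NC.Tel
import Pool.Agent.Lib.MP_ae5b4e_an_NC.Fra
import Pool.Agent.Lib.MP_ae5b4e_an_LOC.LCL
import Pool.Agent.Lib.MP_ae5b4e_an_LOC.L1g

/-!
# MP_ae5b4e_an, project LOC: the polygons of a solution near the background

`leaf_pts`: through every point `t` there is a polygon of rotation number `p / q` of the solution;
its tangency points and tau-values are near those of the background.  `polyLaw`: the sums over the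
polygon vanish for all functions of degree zero.
-/

noncomputable section

namespace Pool.Agent.MP_ae5b4e_an_LOC

open Real Set Filter Topology MeasureTheory intervalIntegral
open scoped ContDiff Matrix
open Pool.Agent.MP_ae5b4e_an_hopf
open Pool.Agent.MP_ae5b4e_an_RG
open Pool.Agent.MP_ae5b4e_an_NC (tauL vertex leaf_per_nat periodic_tauL)

variable {P0 : ℝ → Fin 3 → ℝ} {w0 : ℝ} {F : ℝ → ℝ → ℝ}

/-- the tau-value of the background -/
def tau0 (P0 : ℝ → Fin 3 → ℝ) (G : ℝ → ℝ) (y : ℝ) : ℝ := -(2 * π) / L1 P0 y (G y)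

/-- the law of a polygon with the tangency points `X j` and the tau-values `T j` -/
def PolyLaw (q : ℕ) (P : ℝ → Fin 3 → ℝ) (X T : ℕ → ℝ) : Prop :=
  ∀ Ψ : (Fin 3 → ℝ) → ℝ, (∀ (v : Fin 3 → ℝ) (c : ℝ), c ≠ 0 → Ψ (fun i => c * v i) = Ψ v) →
    ∑ j ∈ Finset.range q,
      (Ψ (fun i => P (X j) i + T j * (deriv P (X j) i / (2 * π))) -
        Ψ (fun i => P (X j) i - T j * (deriv P (X j) i / (2 * π)))) = 0

/-- the law of a leaf -/
theorem polyLaw {P : ℝ → Fin 3 → ℝ} {U : ℝ → ℝ → ℝ} {p q : ℕ} {L : ℝ → ℝ}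
    (h : LSys 1 P U (fun _ => 0)) (hpq : q ≠ 2 * p) (hq : 0 < q)
    (hL : PLeaf 1 (nxt P 1 U) p q L) (x : ℝ) :
    PolyLaw q P (fun j => L (x + j * ((p:ℝ) / q)))
      (fun j => tauL P L ((p:ℝ) / q) (x + j * ((p:ℝ) / q))) := by
  intro Ψ hΨ
  have hπ : (2 * π) ≠ 0 := by positivity
  obtain ⟨Fn, hF⟩ : ∃ Fn : ℝ → ℝ, Fn = fun x => Ψ (fun i => P (L x) i -
      tauL P L ((p:ℝ) / q) x * (deriv P (L x) i / (2 * π))) := ⟨_, rfl⟩
  have key : ∀ x, Ψ (fun i => P (L x) i + tauL P L ((p:ℝ) / q) x *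
      (deriv P (L x) i / (2 * π))) = Fn (x + (p:ℝ) / q) := by
    intro x
    obtain ⟨c, hc, hv⟩ := vertex h hpq hq hL x
    rw [hF]
    refine Eq.trans ?_ (hΨ _ _ hc)
    congr 1
    funext i
    have h1 := hv i
    have e1 : ∀ a b t : ℝ, a + t * (b / (2 * π)) = (2 * π * a + t * b) / (2 * π) := by
      intro a b t
      field_simp
    have e2 : ∀ a b t : ℝ, c * (a - t * (b / (2 * π))) = (c * (2 * π * a - t * b)) / (2 * π) := by
      intro a b t
      field_simp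
    rw [e1, e2, h1]
  have hsum : ∀ j : ℕ, Ψ (fun i => P (L (x + j * ((p:ℝ) / q))) i +
        tauL P L ((p:ℝ) / q) (x + j * ((p:ℝ) / q)) *
          (deriv P (L (x + j * ((p:ℝ) / q))) i / (2 * π))) -
      Ψ (fun i => P (L (x + j * ((p:ℝ) / q))) i -
        tauL P L ((p:ℝ) / q) (x + j * ((p:ℝ) / q)) *
          (deriv P (L (x + j * ((p:ℝ) / q))) i / (2 * π))) =
      Fn (x + ((j + 1 : ℕ) : ℝ) * ((p:ℝ) / q)) - Fn (x + (j : ℝ) * ((p:ℝ) / q)) := by
    intro j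
    rw [show x + ((j + 1 : ℕ) : ℝ) * ((p:ℝ) / q) = (x + j * ((p:ℝ) / q)) + (p:ℝ) / q by
      push_cast; ring, ← key, hF]
  rw [Finset.sum_congr rfl fun j _ => hsum j]
  rw [Finset.sum_range_sub (fun j : ℕ => Fn (x + (j : ℝ) * ((p:ℝ) / q)))]
  have hq0 : (0:ℝ) < q := by exact_mod_cast hq
  have h1 : x + (q:ℝ) * ((p:ℝ) / q) = x + p := by
    field_simp
  rw [h1]
  have h2 : Fn (x + p) = Fn x := by
    rw [hF]
    have h3 : L (x + p) = L x + p := leaf_per_nat hL p x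
    have h4 : tauL P L ((p:ℝ) / q) (x + p) = tauL P L ((p:ℝ) / q) x := by
      have h5 := (periodic_tauL h hL ((p:ℝ) / q)).nat_mul p x
      rwa [mul_one] at h5
    have h6 : P (L x + p) = P (L x) := by
      have h5 := Function.Periodic.nat_mul h.curve.per p (L x)
      rwa [mul_one] at h5
    have h7 : deriv P (L x + p) = deriv P (L x) := by
      have h5 := Function.Periodic.nat_mul h.curve.per1 p (L x)
      rwa [mul_one] at h5
    simp only [h3, h4, h6, h7]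
  rw [h2]
  simp

/-- change of the frame and of the scale -/
theorem PolyLaw.mv {q : ℕ} {P : ℝ → Fin 3 → ℝ} {X T : ℕ → ℝ} (h : PolyLaw q P X T)
    (M : Matrix (Fin 3) (Fin 3) ℝ) : ∀ Ψ : (Fin 3 → ℝ) → ℝ,
    (∀ (v : Fin 3 → ℝ) (c : ℝ), c ≠ 0 → Ψ (fun i => c * v i) = Ψ v) →
    ∑ j ∈ Finset.range q,
      (Ψ (fun i => (M *ᵥ P (X j)) i + T j * ((M *ᵥ deriv P (X j)) i / (2 * π))) -
        Ψ (fun i => (M *ᵥ P (X j)) i - T j * ((M *ᵥ deriv P (X j)) i / (2 * π)))) = 0 := by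
  intro Ψ hΨ
  have h1 := h (fun v => Ψ (M *ᵥ v)) (by
    intro v c hc
    rw [← hΨ (M *ᵥ v) c hc]
    congr 1
    have : (fun i => c * v i) = c • v := by
      funext i
      simp
    rw [this, Matrix.mulVec_smul]
    funext i
    simp)
  rw [← h1]
  refine Finset.sum_congr rfl fun j _ => ?_
  congr 1
  · congr 1
    have : (fun i => P (X j) i + T j * (deriv P (X j) i / (2 * π))) =
        P (X j) + (T j / (2 * π)) • deriv P (X j) := by
      funext i
      simp only [Pi.add_apply, Pi.smul_apply, smul_eq_mul]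
      ring
    rw [this, Matrix.mulVec_add, Matrix.mulVec_smul]
    funext i
    simp only [Pi.add_apply, Pi.smul_apply, smul_eq_mul]
    ring
  · congr 1
    have : (fun i => P (X j) i - T j * (deriv P (X j) i / (2 * π))) =
        P (X j) - (T j / (2 * π)) • deriv P (X j) := by
      funext i
      simp only [Pi.sub_apply, Pi.smul_apply, smul_eq_mul]
      ring
    rw [this, Matrix.mulVec_sub, Matrix.mulVec_smul]
    funext i
    simp only [Pi.sub_apply, Pi.smul_apply, smul_eq_mul]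
    ring

/-- the function `y ↦ L1 P0 y (F w y)` is uniformly continuous -/
lemma IB.unifG (B : IB P0 w0 F) {w : ℝ} (hw : w ∈ Ioo 0 w0) {η : ℝ} (hη : 0 < η) :
    ∃ δ > 0, ∀ s t, |s - t| ≤ δ → |L1 P0 s (F w s) - L1 P0 t (F w t)| ≤ η := by
  set G : ℝ → ℝ := fun y => L1 P0 y (F w y) with hG
  have hc : Continuous G := by
    have h1 : Continuous fun y : ℝ => ((w, y) : ℝ × ℝ) := by fun_prop
    exact B.contG.comp_continuous h1 fun y => ⟨hw, trivial⟩
  have hper : ∀ y, G (y + 1) = G y := fun y => B.G_per hw y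
  have hu : UniformContinuousOn G (Icc (-1) 2) :=
    isCompact_Icc.uniformContinuousOn_of_continuous hc.continuousOn
  rw [Metric.uniformContinuousOn_iff] at hu
  obtain ⟨δ, hδ, h⟩ := hu η hη
  refine ⟨min (δ / 2) 1, by positivity, fun s t hst => ?_⟩
  have h1 : |s - t| ≤ 1 := hst.trans (min_le_right _ _)
  have h2 : |s - t| < δ := by
    have := hst.trans (min_le_left _ _)
    linarith
  have hperi : Function.Periodic G 1 := hper
  have e1 : G (s - ⌊s⌋) = G s := by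
    have := hperi.sub_int_mul_eq (x := s) ⌊s⌋
    rwa [mul_one] at this
  have e2 : G (t - ⌊s⌋) = G t := by
    have := hperi.sub_int_mul_eq (x := t) ⌊s⌋
    rwa [mul_one] at this
  have f1 : 0 ≤ s - ⌊s⌋ := by linarith [Int.floor_le s]
  have f2 : s - ⌊s⌋ < 1 := by linarith [Int.lt_floor_add_one s]
  have h1' := abs_le.1 h1
  have h3 := h (s - ⌊s⌋) ⟨by linarith, by linarith⟩ (t - ⌊s⌋) ⟨by linarith, by linarith⟩ (by
    rw [Real.dist_eq]
    have : s - ⌊s⌋ - (t - ⌊s⌋) = s - t := by ring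
    rwa [this])
  rw [e1, e2, Real.dist_eq] at h3
  exact h3.le

/-- Closeness of the tau-values. -/
lemma tau_near {a b c η : ℝ} (_hη : 0 < η) (hc : 0 < c) (ha : a ≤ -c)
    (hab : |b - a| ≤ min (c / 2) (η * c ^ 2 / 16)) :
    |-(2 * π) / b - -(2 * π) / a| ≤ η := by
  have h1 := hab.trans (min_le_left _ _)
  have h2 := hab.trans (min_le_right _ _)
  have h3 := (abs_le.1 h1).2
  have hb : b ≤ -(c / 2) := by linarith
  have ha0 : a < 0 := by linarith
  have hb0 : b < 0 := by linarith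
  have hπ4 := Real.pi_le_four
  have hπ := Real.pi_pos
  have ha' := ha0.ne
  have hb' := hb0.ne
  have e1 : -(2 * π) / b - -(2 * π) / a = 2 * π * (b - a) / (a * b) := by
    field_simp
    ring
  have hab0 : c ^ 2 / 2 ≤ a * b := by nlinarith
  rw [e1, abs_div, abs_mul, abs_of_pos (by positivity : 0 < 2 * π),
    abs_of_pos (by nlinarith : 0 < a * b), div_le_iff₀ (by nlinarith)]
  have h4 : 2 * π * |b - a| ≤ 8 * (η * c ^ 2 / 16) :=
    mul_le_mul (by linarith) h2 (abs_nonneg _) (by norm_num)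
  nlinarith

/-- THE POLYGONS near the background. -/
theorem leaf_pts {r0 m0 : ℝ → ℝ} (B : IB P0 w0 F) (hW : ∀ x, Wr P0 x = 1)
    (hode : ∀ x, deriv (deriv (deriv P0)) x = -(r0 x) • deriv P0 x - m0 x • P0 x)
    {K : ℝ} (hr0 : ∀ x, |r0 x| ≤ K) (hm0 : ∀ x, |m0 x| ≤ K) {p q : ℕ} (hq : 0 < q)
    (hw : (p:ℝ) / q ∈ Ioo 0 w0) (hneg : ∀ y, L1 P0 y (F ((p:ℝ) / q) y) < 0) {η : ℝ} (hη : 0 < η) :
    ∃ ε > 0, ∀ (P : ℝ → Fin 3 → ℝ) (U : ℝ → ℝ → ℝ) (r m : ℝ → ℝ), LSys 1 P U (fun _ => 0) →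
      (∀ x, Wr P x = 1) →
      (∀ x, deriv (deriv (deriv P)) x = -(r x) • deriv P x - m x • P x) →
      (∀ x, |r x - r0 x| ≤ ε) → (∀ x, |m x - m0 x| ≤ ε) → ∀ L : ℝ → ℝ,
      PLeaf 1 (nxt P 1 U) p q L → ∀ t, ∃ x, L x = t ∧
        (∀ j < q, |L (x + j * ((p:ℝ) / q)) - (F ((p:ℝ) / q))^[j] t| ≤ η) ∧
        (∀ j < q, |tauL P L ((p:ℝ) / q) (x + j * ((p:ℝ) / q)) -
          tau0 P0 (F ((p:ℝ) / q)) ((F ((p:ℝ) / q))^[j] t)| ≤ η) := by
  obtain ⟨C, hC, ε1, hε1, H1⟩ := L1_close B.curve hW hode hr0 hm0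
  -- a lower bound for `-L1`
  obtain ⟨c, hc, hcl⟩ : ∃ c > 0, ∀ y, L1 P0 y (F ((p:ℝ) / q) y) ≤ -c := by
    have hcont : Continuous fun y => L1 P0 y (F ((p:ℝ) / q) y) := by
      have h1 : Continuous fun y : ℝ => (((p:ℝ) / q, y) : ℝ × ℝ) := by fun_prop
      exact B.contG.comp_continuous h1 fun y => ⟨hw, trivial⟩
    obtain ⟨y0, -, hy0⟩ := isCompact_Icc.exists_isMaxOn (s := Icc (0:ℝ) 1)
      (nonempty_Icc.2 zero_le_one) hcont.continuousOn
    refine ⟨-(L1 P0 y0 (F ((p:ℝ) / q) y0)), by linarith [hneg y0], fun y => ?_⟩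
    have hper : Function.Periodic (fun y => L1 P0 y (F ((p:ℝ) / q) y)) 1 :=
      fun y => B.G_per hw y
    obtain ⟨z, hz, hz'⟩ := hper.exists_mem_Ico₀ one_pos y
    have hz'' : L1 P0 y (F ((p:ℝ) / q) y) = L1 P0 z (F ((p:ℝ) / q) z) := hz'
    rw [hz'', neg_neg]
    exact hy0 (Ico_subset_Icc_self hz)
  set η1 : ℝ := min (c / 2) (η * c ^ 2 / 16) with hη1
  have hη1p : 0 < η1 := lt_min (by positivity) (by positivity)
  obtain ⟨δ, hδ, hunif⟩ := B.unifG hw (η := η1 / 2) (by positivity)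
  obtain ⟨ε2, hε2, H2⟩ := orbit_close B hq hw q (η := min η δ) (lt_min hη hδ)
  obtain ⟨ε3, hε3, H3⟩ := L1_leaf_close B hq hw (η := η1 / 2) (by positivity)
  refine ⟨min ε1 (min (ε2 / C) (ε3 / C)), by positivity, ?_⟩
  intro P U r m hS hWP hodeP hr hm L hL t
  set ε := min ε1 (min (ε2 / C) (ε3 / C)) with hε
  have hcl1 := H1 ε (min_le_left _ _) P r m hS.curve hWP hodeP hr hm
  have hCε2 : C * ε ≤ ε2 := by
    have : ε ≤ ε2 / C := (min_le_right _ _).trans (min_le_left _ _)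
    rw [le_div_iff₀ hC] at this
    linarith
  have hCε3 : C * ε ≤ ε3 := by
    have : ε ≤ ε3 / C := (min_le_right _ _).trans (min_le_right _ _)
    rw [le_div_iff₀ hC] at this
    linarith
  -- the starting point
  obtain ⟨x, hx⟩ : ∃ x, L x = t := by
    have hcont := hL.cont
    have hn : ∀ (n : ℕ) y, L (y + n) = L y + n := fun n y => leaf_per_nat hL n y
    obtain ⟨n, hn1⟩ := exists_nat_gt (|t - L 0|)
    have h1 : L 0 + n = L (0 + n) := (hn n 0).symm
    have h2 : L (0 - n) + n = L 0 := by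
      have := hn n (0 - n)
      rw [sub_add_cancel] at this
      exact this.symm
    have h3 := abs_lt.1 hn1
    have h4 : t ∈ Icc (L (0 - n)) (L (0 + n)) := ⟨by linarith, by linarith⟩
    have h5 := intermediate_value_Icc (a := (0:ℝ) - n) (b := 0 + n)
      (by linarith [Nat.cast_nonneg (α := ℝ) n]) hcont.continuousOn
    obtain ⟨x, -, hx⟩ := h5 h4
    exact ⟨x, hx⟩
  have hO := orb1_of_pleaf hS hq hL x
  set X : ℕ → ℝ := fun j => L (x + j * ((p:ℝ) / q)) with hX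
  have hX0 : X 0 = t := by
    simp only [hX, Nat.cast_zero, zero_mul, add_zero, hx]
  have hnear : ∀ j ≤ q, |X j - (F ((p:ℝ) / q))^[j] t| ≤ min η δ := by
    intro j hj
    have := H2 P X (fun a b hab hab1 => (hcl1 a b hab hab1).trans hCε2) hO 0 j hj
    rwa [zero_add, hX0] at this
  refine ⟨x, hx, fun j hj => (hnear j hj.le).trans (min_le_left _ _), fun j hj => ?_⟩
  -- tau
  have g1 := H3 P X (fun a b hab hab1 => (hcl1 a b hab hab1).trans hCε3) hO j
  have g2 := hunif (X j) ((F ((p:ℝ) / q))^[j] t) ((hnear j hj.le).trans (min_le_right _ _))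
  have e1 : X (j + 1) = L (x + j * ((p:ℝ) / q) + (p:ℝ) / q) := by
    simp only [hX]
    congr 1
    push_cast
    ring
  have g3 : |L1 P (X j) (X (j + 1)) - L1 P0 ((F ((p:ℝ) / q))^[j] t)
      (F ((p:ℝ) / q) ((F ((p:ℝ) / q))^[j] t))| ≤ η1 := by
    have e2 : L1 P (X j) (X (j + 1)) - L1 P0 ((F ((p:ℝ) / q))^[j] t)
      (F ((p:ℝ) / q) ((F ((p:ℝ) / q))^[j] t)) =
        (L1 P (X j) (X (j + 1)) - L1 P0 (X j) (F ((p:ℝ) / q) (X j))) +
        (L1 P0 (X j) (F ((p:ℝ) / q) (X j)) - L1 P0 ((F ((p:ℝ) / q))^[j] t)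
          (F ((p:ℝ) / q) ((F ((p:ℝ) / q))^[j] t))) := by ring
    rw [e2]
    refine (abs_add_le _ _).trans ?_
    linarith
  have g4 := tau_near hη hc (hcl ((F ((p:ℝ) / q))^[j] t)) g3
  unfold tau0
  show |tauL P L ((p:ℝ) / q) (x + j * ((p:ℝ) / q)) - _| ≤ η
  have e3 : tauL P L ((p:ℝ) / q) (x + j * ((p:ℝ) / q)) = -(2 * π) / L1 P (X j) (X (j + 1)) := by
    unfold tauL
    rw [e1]
  rw [e3]
  exact g4

/-- the tau-values do not depend on the frame -/
theorem tauL_mv {P : ℝ → Fin 3 → ℝ} (M : Matrix (Fin 3) (Fin 3) ℝ) (h : Curve 1 P)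
    (hM : M.det = 1) (L : ℝ → ℝ) (om x : ℝ) :
    tauL (fun x => M *ᵥ P x) L om x = tauL P L om x := by
  unfold tauL
  rw [Pool.Agent.MP_ae5b4e_an_NC.L1_mv M h hM]

end Pool.Agent.MP_ae5b4e_an_LOC
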