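import Mathlib
import Pool.Agent.Lib.MP_ae5b4e_an_LOC.Pon3
import Pool.Agent.Lib.MP_ae5b4e_an_LOC.RealK
import Pool.Agent.Lib.MP_ae5b4e_an_LOC.StripW
import Pool.Agent.Lib.MP_ae5b4e_an_LOC.KerL
import Pool.Agent.Lib.MP_ae5b4e_an_LOC.BCJ
import Pool.Agent.Lib.MP_ae5b4e_an_LOC.Wrp
import Pool.Agent.Lib.MP_ae5b4e_an_RIG.GDef

/-!
# MP_ae5b4e_an, project LOC: the normalized background curve

`P0N m x = - s (sn, cn, dn)(4 K x)` with Wronskian one; its third order equation has the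
coefficients `r0J = σ² (1 + m - 3 m sn²)`, `m0J = - 3 σ³ m sn cn dn`, `σ = 4 K`.
-/

set_option autoImplicit false

noncomputable section

namespace Pool.Agent.MP_ae5b4e_an_LOC

open Set Filter Topology
open scoped ContDiff Matrix
open Pool.Agent.MP_ae5b4e_an_hopf (det3 dd ddx Wr L1 Curve)
open Pool.Agent.MP_ae5b4e_an_RG Pool.Agent.MP_ae5b4e_an_NC
open Pool.Agent.MP_ae5b4e_an_RIG (Bnd)

variable {m : ℝ}

/-- the coefficients of the third order equation -/
def r0J (m x : ℝ) : ℝ := (4 * KK m) ^ 2 * (1 + m - 3 * m * sn m (4 * KK m * x) ^ 2)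

def m0J (m x : ℝ) : ℝ :=
  -(3 * (4 * KK m) ^ 3 * m * (sn m (4 * KK m * x) * cn m (4 * KK m * x) * dn m (4 * KK m * x)))

/-- the third derivative -/
lemma PJ2_hasDerivAt (h0 : 0 ≤ m) (h1 : m < 1) (u : ℝ) : HasDerivAt (PJ2 m)
    (-(1 + m - 3 * m * sn m u ^ 2) • PJ1 m u +
      (3 * m * (sn m u * cn m u * dn m u)) • PJ m u) u := by
  have hs := sn_hasDerivAt h0 h1 u
  have hc := cn_hasDerivAt h0 h1 u
  have hd := dn_hasDerivAt h0 h1 u
  have e1 := sn_sq_add m u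
  have e2 := dn_sq h0 h1 u
  rw [hasDerivAt_pi]
  intro i
  fin_cases i
  · refine (((hs.mul (hd.pow 2)).neg).sub ((hs.const_mul m).mul (hc.pow 2))).congr_deriv ?_
    simp only [PJ, PJ1, Pi.add_apply, Pi.smul_apply, smul_eq_mul, Pi.pow_apply,
      Fin.zero_eta, Matrix.cons_val_zero]
    generalize sn m u = s at *
    generalize cn m u = c at *
    generalize dn m u = d at *
    push_cast
    linear_combination (-(m * c * d)) * e1 + (-(c * d)) * e2
  · refine (((hc.mul (hd.pow 2)).neg).add (((hs.pow 2).const_mul m).mul hc)).congr_deriv ?_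
    simp only [PJ, PJ1, Pi.add_apply, Pi.smul_apply, smul_eq_mul, Pi.pow_apply,
      Fin.mk_one, Matrix.cons_val_one, Matrix.cons_val_zero]
    generalize sn m u = s at *
    generalize cn m u = c at *
    generalize dn m u = d at *
    push_cast
    linear_combination (m * s * d) * e1 + (s * d) * e2
  · refine ((((hd.const_mul m).mul ((hc.pow 2).sub (hs.pow 2))).neg)).congr_deriv ?_
    simp only [PJ, PJ1, Pi.add_apply, Pi.smul_apply, smul_eq_mul, Pi.pow_apply,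
      Pi.sub_apply, Fin.reduceFinMk, Matrix.cons_val]
    generalize sn m u = s at *
    generalize cn m u = c at *
    generalize dn m u = d at *
    push_cast
    linear_combination (m ^ 2 * s * c) * e1 + (m * s * c) * e2

/-- the third order equation -/
lemma ode_PM (h0 : 0 ≤ m) (h1 : m < 1) (M : Matrix (Fin 3) (Fin 3) ℝ) (x : ℝ) :
    deriv (deriv (deriv (PM m M))) x =
      -(r0J m x) • deriv (PM m M) x - m0J m x • PM m M x := by
  rw [deriv2_PM M h0 h1, deriv_PM M h0 h1]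
  have h2 : HasDerivAt (fun x : ℝ => 4 * KK m * x) (4 * KK m) x := by
    simpa using (hasDerivAt_id x).const_mul (4 * KK m)
  have h3 := (PJ2_hasDerivAt h0 h1 (4 * KK m * x)).scomp x h2
  have h4 := (M.mulVecLin.toContinuousLinearMap).hasFDerivAt.comp_hasDerivAt x
    ((h3.const_smul (4 * KK m)).const_smul (4 * KK m))
  refine h4.deriv.trans ?_
  show M *ᵥ _ = _
  simp only [PM, r0J, m0J]
  rw [← Matrix.mulVec_smul, ← Matrix.mulVec_smul, ← Matrix.mulVec_sub]
  congr 1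
  module

/-! ## the coefficients -/

lemma smooth_r0J (h0 : 0 ≤ m) (h1 : m < 1) : ContDiff ℝ ∞ (r0J m) := by
  obtain ⟨hs, -, -⟩ := jac_smooth h0 h1
  have h2 : ContDiff ℝ ∞ fun x => sn m (4 * KK m * x) :=
    hs.comp (contDiff_const.mul contDiff_id)
  unfold r0J
  fun_prop

lemma smooth_m0J (h0 : 0 ≤ m) (h1 : m < 1) : ContDiff ℝ ∞ (m0J m) := by
  obtain ⟨hs, hc, hd⟩ := jac_smooth h0 h1
  have h2 : ContDiff ℝ ∞ fun x => sn m (4 * KK m * x) :=
    hs.comp (contDiff_const.mul contDiff_id)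
  have h3 : ContDiff ℝ ∞ fun x => cn m (4 * KK m * x) :=
    hc.comp (contDiff_const.mul contDiff_id)
  have h4 : ContDiff ℝ ∞ fun x => dn m (4 * KK m * x) :=
    hd.comp (contDiff_const.mul contDiff_id)
  unfold m0J
  fun_prop

lemma per_J (h0 : 0 ≤ m) (h1 : m < 1) (x : ℝ) : PJ m (4 * KK m * (x + 1)) = PJ m (4 * KK m * x) := by
  rw [mul_add, mul_one, PJ_add h0 h1]

lemma per_r0J (h0 : 0 ≤ m) (h1 : m < 1) : Function.Periodic (r0J m) 1 := by
  intro x
  have h2 : sn m (4 * KK m * (x + 1)) = sn m (4 * KK m * x) := congrFun (per_J h0 h1 x) 0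
  unfold r0J
  rw [h2]

lemma per_m0J (h0 : 0 ≤ m) (h1 : m < 1) : Function.Periodic (m0J m) 1 := by
  intro x
  have h2 : sn m (4 * KK m * (x + 1)) = sn m (4 * KK m * x) := congrFun (per_J h0 h1 x) 0
  have h3 : cn m (4 * KK m * (x + 1)) = cn m (4 * KK m * x) := congrFun (per_J h0 h1 x) 1
  have h4 : dn m (4 * KK m * (x + 1)) = dn m (4 * KK m * x) := congrFun (per_J h0 h1 x) 2
  unfold m0J
  rw [h2, h3, h4]

/-- `m0J = r0J' / 2` -/
lemma r0J_hasDerivAt (h0 : 0 ≤ m) (h1 : m < 1) (x : ℝ) : HasDerivAt (r0J m) (2 * m0J m x) x := by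
  have h2 : HasDerivAt (fun x : ℝ => 4 * KK m * x) (4 * KK m) x := by
    simpa using (hasDerivAt_id x).const_mul (4 * KK m)
  have h3 : HasDerivAt (fun x => sn m (4 * KK m * x))
      (cn m (4 * KK m * x) * dn m (4 * KK m * x) * (4 * KK m)) x :=
    (sn_hasDerivAt h0 h1 (4 * KK m * x)).comp x h2
  refine ((((h3.pow 2).const_mul (3 * m)).const_sub (1 + m)).const_mul
    ((4 * KK m) ^ 2)).congr_deriv ?_
  simp only [m0J]
  push_cast
  ring

/-- bounds of smooth periodic functions -/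
lemma bd_per {f : ℝ → ℝ} (hf : Continuous f) (hp : Function.Periodic f 1) :
    ∃ B, ∀ x, |f x| ≤ B := by
  obtain ⟨B, hB⟩ := (isCompact_Icc (a := (0:ℝ)) (b := 1)).exists_bound_of_continuousOn
    hf.continuousOn
  refine ⟨B, fun x => ?_⟩
  obtain ⟨y, hy, hy'⟩ := hp.exists_mem_Ico₀ one_pos x
  rw [hy']
  exact hB y (Ico_subset_Icc_self hy)

lemma per_der {f : ℝ → ℝ} (p : Function.Periodic f 1) : Function.Periodic (deriv f) 1 := by
  intro x
  have e1 : (fun y => f (y + 1)) = f := funext p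
  have e2 := deriv_comp_add_const f 1 x
  rw [e1] at e2
  exact e2.symm

lemma smooth_der {f : ℝ → ℝ} (h : ContDiff ℝ ∞ f) : ContDiff ℝ ∞ (deriv f) :=
  (contDiff_infty_iff_deriv.1 h).2

theorem bnd_J (h0 : 0 ≤ m) (h1 : m < 1) : ∃ K, 0 ≤ K ∧ Bnd K (r0J m) (m0J m) := by
  have r0 := smooth_r0J h0 h1
  have r1 := smooth_der r0
  have r2 := smooth_der r1
  have r3 := smooth_der r2
  have m0 := smooth_m0J h0 h1
  have m1 := smooth_der m0
  have m2 := smooth_der m1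
  have p0 := per_r0J h0 h1
  have q0 := per_m0J h0 h1
  obtain ⟨a0, ha0⟩ := bd_per r0.continuous p0
  obtain ⟨a1, ha1⟩ := bd_per r1.continuous (per_der p0)
  obtain ⟨a2, ha2⟩ := bd_per r2.continuous (per_der (per_der p0))
  obtain ⟨a3, ha3⟩ := bd_per r3.continuous (per_der (per_der (per_der p0)))
  obtain ⟨b0, hb0⟩ := bd_per m0.continuous q0
  obtain ⟨b1, hb1⟩ := bd_per m1.continuous (per_der q0)
  obtain ⟨b2, hb2⟩ := bd_per m2.continuous (per_der (per_der q0))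
  have n1 := (abs_nonneg _).trans (ha0 0)
  have n2 := (abs_nonneg _).trans (ha1 0)
  have n3 := (abs_nonneg _).trans (ha2 0)
  have n4 := (abs_nonneg _).trans (ha3 0)
  have n5 := (abs_nonneg _).trans (hb0 0)
  have n6 := (abs_nonneg _).trans (hb1 0)
  have n7 := (abs_nonneg _).trans (hb2 0)
  exact ⟨a0 + a1 + a2 + a3 + b0 + b1 + b2, by linarith,
    ⟨fun x => (ha0 x).trans (by linarith), fun x => (ha1 x).trans (by linarith),
      fun x => (ha2 x).trans (by linarith), fun x => (ha3 x).trans (by linarith),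
      fun x => (hb0 x).trans (by linarith), fun x => (hb1 x).trans (by linarith),
      fun x => (hb2 x).trans (by linarith)⟩⟩

/-! ## analyticity on the strip -/

lemma anX (h0 : 0 < m) (h1 : m < 1) : AnalyticOnNhd ℂ (XJ m) (Sp (hJ m)) :=
  DifferentiableOn.analyticOnNhd (fun _ hx => (XJ_der h0 h1 hx).differentiableAt.differentiableWithinAt)
    (isOpen_Sp _)

lemma anY (h0 : 0 < m) (h1 : m < 1) : AnalyticOnNhd ℂ (YJ m) (Sp (hJ m)) :=
  DifferentiableOn.analyticOnNhd (fun _ hx => (YJ_der h0 h1 hx).differentiableAt.differentiableWithinAt)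
    (isOpen_Sp _)

lemma anZ (h0 : 0 < m) (h1 : m < 1) : AnalyticOnNhd ℂ (ZJ m) (Sp (hJ m)) :=
  DifferentiableOn.analyticOnNhd (fun _ hx => (ZJ_der h0 h1 hx).differentiableAt.differentiableWithinAt)
    (isOpen_Sp _)

lemma J_real (h0 : 0 < m) (h1 : m < 1) (x : ℝ) : XJ m (x : ℂ) = ((sn m (4 * KK m * x) : ℝ) : ℂ) ∧
    YJ m (x : ℂ) = ((cn m (4 * KK m * x) : ℝ) : ℂ) ∧
    ZJ m (x : ℂ) = ((dn m (4 * KK m * x) : ℝ) : ℂ) :=
  ⟨VJ_real h0 h1 0 x, VJ_real h0 h1 1 x, VJ_real h0 h1 2 x⟩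

/-- the exponential decay of the coefficients of `r0`, `m0` -/
theorem dec_J (h0 : 0 < m) (h1 : m < 1) {ρ : ℝ} (hρ : 0 ≤ ρ) (hρh : ρ < 2 * Real.pi * hJ m) :
    ∃ A, 0 ≤ A ∧ ∀ (N : ℕ) (k : ℤ), ‖rc (r0J m) k‖ ≤ A / V ρ N 2 k ∧
      ‖rc (m0J m) k‖ ≤ A / V ρ N 2 k := by
  have aX := anX h0 h1
  have aY := anY h0 h1
  have aZ := anZ h0 h1
  obtain ⟨L1, hL1, -, k1⟩ := wr_of_strip (f := r0J m)
    (F := fun z => ((4 * KK m : ℝ) : ℂ) ^ 2 * (1 + (m:ℂ) - 3 * (m:ℂ) * XJ m z ^ 2)) 2 hρ hρh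
    (fun z hz => by
      have := aX z hz
      have := aY z hz
      have := aZ z hz
      fun_prop) (fun x _ => by simp only [XJ_per h0 h1]) (fun x => by
      rw [(J_real h0 h1 x).1, r0J]
      push_cast
      ring)
  obtain ⟨L2, hL2, -, k2⟩ := wr_of_strip (f := m0J m)
    (F := fun z => -(3 * ((4 * KK m : ℝ) : ℂ) ^ 3 * (m:ℂ) * (XJ m z * YJ m z * ZJ m z))) 2 hρ hρh
    (fun z hz => by
      have := aX z hz
      have := aY z hz
      have := aZ z hz
      fun_prop) (fun x _ => by simp only [XJ_per h0 h1, YJ_per h0 h1, ZJ_per h0 h1]) (fun x => by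
      rw [(J_real h0 h1 x).1, (J_real h0 h1 x).2.1, (J_real h0 h1 x).2.2, m0J]
      push_cast
      ring)
  refine ⟨L1 + L2, by linarith, fun N k => ?_⟩
  have hV : V ρ N 2 k ≤ (1 + |(k:ℝ)|) ^ 2 * Real.exp (ρ * |(k:ℝ)|) := by
    unfold V Pool.Agent.MP_ae5b4e_an_RG.w
    refine mul_le_mul_of_nonneg_left ?_ (by positivity)
    exact Real.exp_le_exp.2 (mul_le_mul_of_nonneg_left (min_le_left _ _) hρ)
  have hV0 : 0 < V ρ N 2 k := V_pos ρ N 2 k
  have key : ∀ L, 0 ≤ L → L ≤ L1 + L2 →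
      L / ((1 + |(k:ℝ)|) ^ 2 * Real.exp (ρ * |(k:ℝ)|)) ≤ (L1 + L2) / V ρ N 2 k := by
    intro L hL hL'
    exact div_le_div₀ (by linarith) hL' hV0 hV
  exact ⟨(k1 k).trans (key L1 hL1 (by linarith)), (k2 k).trans (key L2 hL2 (by linarith))⟩

/-- the components of the curve and of its derivative -/
theorem wr_J (h0 : 0 < m) (h1 : m < 1) {ρ : ℝ} (hρ : 0 ≤ ρ) (hρh : ρ < 2 * Real.pi * hJ m) :
    ∃ L, 0 ≤ L ∧ ∀ i : Fin 3, WR ρ 2 L (fun x => PJ m (4 * KK m * x) i) ∧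
      WR ρ 2 L (fun x => WJ m x i) := by
  have aX := anX h0 h1
  have aY := anY h0 h1
  have aZ := anZ h0 h1
  have hmono : ∀ {L L' : ℝ} {f : ℝ → ℝ}, L ≤ L' → WR ρ 2 L f → WR ρ 2 L' f := by
    rintro L L' f hLL ⟨a, ha, hs⟩
    refine ⟨a, fun k => (ha k).trans ?_, hs⟩
    exact div_le_div_of_nonneg_right hLL (by positivity)
  have key : ∀ i : Fin 3, ∃ L, 0 ≤ L ∧ WR ρ 2 L (fun x => PJ m (4 * KK m * x) i) ∧
      WR ρ 2 L (fun x => WJ m x i) := by
    intro i
    have e1 : ∃ L, 0 ≤ L ∧ WR ρ 2 L (fun x => PJ m (4 * KK m * x) i) := by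
      fin_cases i
      · obtain ⟨L, hL, k, -⟩ := wr_of_strip (f := fun x => PJ m (4 * KK m * x) 0) (F := XJ m) 2 hρ
          hρh aX (fun x _ => XJ_per h0 h1 x) (fun x => (J_real h0 h1 x).1)
        exact ⟨L, hL, k⟩
      · obtain ⟨L, hL, k, -⟩ := wr_of_strip (f := fun x => PJ m (4 * KK m * x) 1) (F := YJ m) 2 hρ
          hρh aY (fun x _ => YJ_per h0 h1 x) (fun x => (J_real h0 h1 x).2.1)
        exact ⟨L, hL, k⟩
      · obtain ⟨L, hL, k, -⟩ := wr_of_strip (f := fun x => PJ m (4 * KK m * x) 2) (F := ZJ m) 2 hρ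
          hρh aZ (fun x _ => ZJ_per h0 h1 x) (fun x => (J_real h0 h1 x).2.2)
        exact ⟨L, hL, k⟩
    have e2 : ∃ L, 0 ≤ L ∧ WR ρ 2 L (fun x => WJ m x i) := by
      have hπ : (Real.pi : ℂ) ≠ 0 := by exact_mod_cast Real.pi_pos.ne'
      fin_cases i
      · obtain ⟨L, hL, k, -⟩ := wr_of_strip (f := fun x => WJ m x 0)
          (F := fun z => ((4 * KK m / (2 * Real.pi) : ℝ) : ℂ) * (YJ m z * ZJ m z)) 2 hρ hρh
          (fun z hz => by
      have := aX z hz
      have := aY z hz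
      have := aZ z hz
      fun_prop) (fun x _ => by simp only [YJ_per h0 h1, ZJ_per h0 h1]) (fun x => by
            rw [(J_real h0 h1 x).2.1, (J_real h0 h1 x).2.2]
            simp only [WJ, PJ1, Matrix.cons_val_zero]
            push_cast
            ring)
        exact ⟨L, hL, k⟩
      · obtain ⟨L, hL, k, -⟩ := wr_of_strip (f := fun x => WJ m x 1)
          (F := fun z => -(((4 * KK m / (2 * Real.pi) : ℝ) : ℂ) * (XJ m z * ZJ m z))) 2 hρ hρh
          (fun z hz => by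
      have := aX z hz
      have := aY z hz
      have := aZ z hz
      fun_prop) (fun x _ => by simp only [XJ_per h0 h1, ZJ_per h0 h1]) (fun x => by
            rw [(J_real h0 h1 x).1, (J_real h0 h1 x).2.2]
            simp only [WJ, PJ1, Matrix.cons_val_one, Matrix.cons_val_zero]
            push_cast
            ring)
        exact ⟨L, hL, k⟩
      · obtain ⟨L, hL, k, -⟩ := wr_of_strip (f := fun x => WJ m x 2)
          (F := fun z => -(((4 * KK m / (2 * Real.pi) : ℝ) : ℂ) * (m:ℂ) * (XJ m z * YJ m z))) 2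
          hρ hρh (fun z hz => by
      have := aX z hz
      have := aY z hz
      have := aZ z hz
      fun_prop) (fun x _ => by simp only [XJ_per h0 h1, YJ_per h0 h1])
          (fun x => by
            rw [(J_real h0 h1 x).1, (J_real h0 h1 x).2.1]
            simp only [WJ, PJ1, Matrix.cons_val]
            push_cast
            ring)
        exact ⟨L, hL, k⟩
    obtain ⟨L1, hL1, k1⟩ := e1
    obtain ⟨L2, hL2, k2⟩ := e2
    exact ⟨L1 + L2, by linarith, hmono (by linarith) k1, hmono (by linarith) k2⟩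
  choose L hL k1 k2 using key
  have hs : ∀ i, L i ≤ ∑ j, L j := fun i =>
    Finset.single_le_sum (f := L) (fun j _ => hL j) (Finset.mem_univ i)
  exact ⟨∑ j, L j, Finset.sum_nonneg fun j _ => hL j, fun i =>
    ⟨hmono (hs i) (k1 i), hmono (hs i) (k2 i)⟩⟩

/-! ## the normalization -/

/-- the scale -/
theorem exists_sJ (h0 : 0 ≤ m) (h1 : m < 1) :
    ∃ s : ℝ, 0 < s ∧ s ^ 3 * ((1 - m) * (4 * KK m) ^ 3) = 1 := by
  have hK := KK_pos h0 h1
  have hc : 0 < (1 - m) * (4 * KK m) ^ 3 := mul_pos (by linarith) (by positivity)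
  refine ⟨(((1 - m) * (4 * KK m) ^ 3)⁻¹) ^ (((3:ℕ):ℝ)⁻¹), by positivity, ?_⟩
  rw [Real.rpow_inv_natCast_pow (by positivity) (by norm_num), inv_mul_cancel₀ hc.ne']

/-- the normalized background curve: everything about its equation -/
theorem exists_M (h0 : 0 ≤ m) (h1 : m < 1) : ∃ (s : ℝ) (M : Matrix (Fin 3) (Fin 3) ℝ), 0 < s ∧
    M = (-s) • 1 ∧ M.det < 0 ∧ (∀ x, Wr (PM m M) x = 1) ∧
    (∀ x, PM m M x = (-s) • PJ m (4 * KK m * x)) ∧
    ∀ x, deriv (PM m M) x = (-s * (2 * Real.pi)) • WJ m x := by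
  obtain ⟨s, hs, hs3⟩ := exists_sJ h0 h1
  have hdet : (((-s) • (1 : Matrix (Fin 3) (Fin 3) ℝ))).det = -(s ^ 3) := by
    rw [Matrix.det_smul, Matrix.det_one]
    simp
    ring
  have hPM : ∀ v : Fin 3 → ℝ, ((-s) • (1 : Matrix (Fin 3) (Fin 3) ℝ)) *ᵥ v = (-s) • v := by
    intro v
    rw [Matrix.smul_mulVec, Matrix.one_mulVec]
  refine ⟨s, (-s) • 1, hs, rfl, ?_, fun x => ?_, fun x => hPM _, fun x => ?_⟩
  · rw [hdet]
    have : 0 < s ^ 3 := by positivity
    linarith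
  · rw [Wr_PM _ h0 h1, hdet]
    linarith
  · rw [deriv_PM _ h0 h1]
    simp only [hPM]
    funext i
    simp only [Pi.smul_apply, smul_eq_mul, WJ]
    have := Real.pi_pos.ne'
    field_simp

end Pool.Agent.MP_ae5b4e_an_LOC
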