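import Mathlib
import Pool.Agent.Lib.MP_ae5b4e_an_LOC.BgId

/-!
# LOC: a pencil solution with constant normal coefficient consists of concentric circles
-/

set_option autoImplicit false

noncomputable section

namespace Pool.Agent.MP_ae5b4e_an_LOC

open Set Filter Topology
open scoped ContDiff Matrix
open Pool.Agent.MP_ae5b4e_an_hopf (det3 dd Wr Curve ConvexCurve circ)
open Pool.Agent.MP_ae5b4e_an_MET (conic mem_conic coef coef_apply QH)
open Pool.Agent.MP_ae5b4e_an_RIG
open Pool.Agent.MP_ae5b4e_an_RG (Pencil LSys)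

/-- a quadratic form that is constant on the unit circle -/
theorem quad_circle {F : QuadraticForm ℝ (Fin 3 → ℝ)} {q : ℝ}
    (hF : ∀ θ : ℝ, F ![Real.sin θ, Real.cos θ, 1] = q) :
    ∃ k, ∀ v, F v = q * v 2 ^ 2 + k * (v 0 ^ 2 + v 1 ^ 2 - v 2 ^ 2) := by
  have key : ∀ θ : ℝ, QH (coef F) (Real.sin θ) (Real.cos θ) 1 = q := fun θ => by
    rw [← hF θ, coef_apply]
    rfl
  simp only [QH] at key
  have h0 := key 0
  have h1 := key Real.pi
  have h2 := key (Real.pi / 2)
  have h3 := key (-(Real.pi / 2))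
  have h4 := key (Real.pi / 4)
  simp only [Real.sin_zero, Real.cos_zero, Real.sin_pi, Real.cos_pi, Real.sin_pi_div_two,
    Real.cos_pi_div_two, Real.sin_neg, Real.cos_neg] at h0 h1 h2 h3
  have h5 : Real.sin (Real.pi / 4) = Real.cos (Real.pi / 4) := by
    rw [Real.sin_pi_div_four, Real.cos_pi_div_four]
  have h6 : Real.cos (Real.pi / 4) ^ 2 = 1 / 2 := by
    rw [Real.cos_pi_div_four, div_pow, Real.sq_sqrt (by norm_num)]
    norm_num
  rw [h5] at h4
  generalize Real.cos (Real.pi / 4) = k at *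
  have a4 : coef F 4 = 0 := by linarith
  have a3 : coef F 3 = 0 := by linarith
  have a5 : coef F 5 = q - coef F 2 := by linarith
  have a0 : coef F 0 = coef F 2 := by linarith
  have a1 : coef F 1 = 0 := by
    rw [a4, a3, a5, a0] at h4
    linear_combination 2 * h4 - (2 * coef F 1 + 4 * coef F 2) * h6
  refine ⟨coef F 2, fun v => ?_⟩
  rw [coef_apply]
  simp only [QH, a0, a1, a3, a4, a5]
  ring

/-- **The circular case**: concentric circles in a suitable projective frame. -/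
theorem circ_of_const {γ : ConvexCurve} {U : ℝ → ℝ → ℝ} {κ σ lam r m' : ℝ → ℝ}
    (h : Pool.Agent.MP_ae5b4e_an_RIG.Sol γ U κ) (hN : Normal γ κ σ lam r m') (hP : Pencil γ U)
    (hr : ∀ x, r x = r 0) : ∃ g : (Fin 3 → ℝ) ≃ₗ[ℝ] (Fin 3 → ℝ), γ.trace = circ g 1 ∧
      ∀ c ∈ Ioo (0:ℝ) 1, ∃ R : ℝ, 0 < R ∧ γ.leaf U c = circ g R := by
  obtain ⟨m, h0, h1, M, c, hM, h2, h3, h4⟩ := exists_bgid h hN hP
  have hm : m = 0 := by
    by_contra hne
    have := exists_bgid_zero h hN hP hr
    have hK := KK_pos h0 h1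
    have hc : ∀ x, r0J m x = r0J m 0 := fun x => by
      have e1 := h3 (x - c)
      have e2 := h3 (0 - c)
      rw [sub_add_cancel] at e1 e2
      rw [← e1, ← e2, hr, hr (0 - c)]
    have e3 := hc (1 / 4)
    have e4 : 4 * KK m * (1 / 4) = KK m := by ring
    simp only [r0J, e4, mul_zero, sn_KK h0 h1, sn_zero h0 h1] at e3
    have e5 : (4 * KK m) ^ 2 * (3 * m) = 0 := by linear_combination -e3
    rcases mul_eq_zero.1 e5 with h | h
    · have : 0 < (4 * KK m) ^ 2 := by positivity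
      exact this.ne' h
    · exact hne (by linarith)
  subst hm
  have hK := KK_pos h0 h1
  obtain ⟨Q, E, hnd, htr, hQ, hl⟩ := hP
  obtain ⟨q, e, hq, hPQ, hPE, -⟩ :=
    pencil_const h hN htr hQ fun c hc => (hl c hc).imp fun ρ h => h.2
  have hath : ∀ θ, ath 0 θ = θ := fun θ => by
    unfold ath
    simp [rad]
  have ham : ∀ u, am 0 u = u := fun u => by
    conv_lhs => rw [← hath u]
    exact am_ath h0 h1 u
  have hPJ : ∀ u, PJ 0 u = ![Real.sin u, Real.cos u, 1] := fun u => by
    unfold PJ sn cn dn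
    rw [ham]
    simp [rad]
  have hcurve : ∀ θ : ℝ, lift γ σ lam (θ / (4 * KK 0) - c) =
      M *ᵥ ![Real.sin θ, Real.cos θ, 1] := by
    intro θ
    rw [h2, sub_add_cancel]
    unfold PM
    rw [show 4 * KK 0 * (θ / (4 * KK 0)) = θ by field_simp, hPJ]
  have hdet : IsUnit M.det := hM.ne.isUnit
  obtain ⟨k1, hk1⟩ := quad_circle (F := E.comp M.toLin') (q := 0) fun θ => by
    rw [QuadraticMap.comp_apply, Matrix.toLin'_apply, ← hcurve, hPE]
  obtain ⟨k2, hk2⟩ := quad_circle (F := Q.comp M.toLin') (q := q) fun θ => by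
    rw [QuadraticMap.comp_apply, Matrix.toLin'_apply, ← hcurve, hPQ]
  simp only [QuadraticMap.comp_apply, Matrix.toLin'_apply] at hk1 hk2
  -- the frame
  let g : (Fin 3 → ℝ) ≃ₗ[ℝ] (Fin 3 → ℝ) := LinearEquiv.ofLinearMap (Matrix.toLin' M⁻¹)
    (Matrix.toLin' M) (by rw [← Matrix.toLin'_mul, Matrix.nonsing_inv_mul _ hdet,
      Matrix.toLin'_one]) (by rw [← Matrix.toLin'_mul, Matrix.mul_nonsing_inv _ hdet,
      Matrix.toLin'_one])
  have hg : ∀ v, M *ᵥ (g v) = v := fun v => by
    show M *ᵥ (M⁻¹ *ᵥ v) = v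
    rw [Matrix.mulVec_mulVec, Matrix.mul_nonsing_inv _ hdet, Matrix.one_mulVec]
  have hE : ∀ v, E v = k1 * (g v 0 ^ 2 + g v 1 ^ 2 - g v 2 ^ 2) := fun v => by
    have := hk1 (g v)
    rw [hg] at this
    linarith
  have hQ' : ∀ v, Q v = q * g v 2 ^ 2 + k2 * (g v 0 ^ 2 + g v 1 ^ 2 - g v 2 ^ 2) := fun v => by
    have := hk2 (g v)
    rwa [hg] at this
  have hne : ∀ F : QuadraticForm ℝ (Fin 3 → ℝ), F.Nondegenerate → ∀ u : Fin 3 → ℝ, u ≠ 0 →
      ∃ v, QuadraticMap.polar F u v ≠ 0 := by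
    intro F hF u hu
    have : Invertible (2:ℝ) := invertibleOfNonzero two_ne_zero
    by_contra hcon
    push Not at hcon
    exact hu ((QuadraticMap.nondegenerate_polar_iff.2 hF).1 u fun v => by
      rw [QuadraticMap.polarBilin_apply_apply]
      exact hcon v)
  have hk1' : k1 ≠ 0 := by
    intro hk
    obtain ⟨v, hv⟩ := hne E hnd (γ.Γ 0) (by
      intro h5
      have := congrFun h5 2
      simp [ConvexCurve.Γ] at this)
    apply hv
    simp only [QuadraticMap.polar, hE, hk]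
    ring
  refine ⟨g, ?_, fun c' hc' => ?_⟩
  · rw [htr]
    ext p
    show E p.rep = 0 ↔ g p.rep 0 ^ 2 + g p.rep 1 ^ 2 = 1 ^ 2 * g p.rep 2 ^ 2
    rw [hE, mul_eq_zero]
    constructor
    · rintro (h5 | h5)
      · exact absurd h5 hk1'
      · linarith
    · intro h5
      exact Or.inr (by linarith)
  · obtain ⟨ρ, hρ, hleaf⟩ := hl c' hc'
    obtain ⟨s, hs⟩ : ∃ s, s = k2 - ρ * k1 := ⟨_, rfl⟩
    have hF : ∀ v, (Q - ρ • E) v = s * (g v 0 ^ 2 + g v 1 ^ 2) - (s - q) * g v 2 ^ 2 := by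
      intro v
      rw [sub_apply, smul_apply, smul_eq_mul, hQ', hE, hs]
      ring
    have hs0 : s ≠ 0 := by
      intro h5
      obtain ⟨v, hv⟩ := hne _ hρ (g.symm ![1, 0, 0]) (by
        intro h6
        have h7 := (LinearEquiv.map_eq_zero_iff g.symm).1 h6
        have := congrFun h7 0
        simp at this)
      apply hv
      simp only [QuadraticMap.polar, hF, map_add, LinearEquiv.apply_symm_apply, h5,
        Pi.add_apply, Matrix.cons_val]
      ring
    have hsq : s - q ≠ 0 := by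
      intro h5
      obtain ⟨v, hv⟩ := hne _ hρ (g.symm ![0, 0, 1]) (by
        intro h6
        have h7 := (LinearEquiv.map_eq_zero_iff g.symm).1 h6
        have := congrFun h7 2
        simp at this)
      apply hv
      simp only [QuadraticMap.polar, hF, map_add, LinearEquiv.apply_symm_apply, h5,
        Pi.add_apply, Matrix.cons_val]
      ring
    have hpos : 0 < (s - q) / s := by
      have h5 : γ.pt 0 (U c' 0) ∈ conic (Q - ρ • E) := by
        rw [← hleaf]
        exact ⟨0, rfl⟩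
      have h6 := (mem_conic _ (γ.hvec_ne 0 (U c' 0))).1 h5
      rw [hF] at h6
      obtain ⟨w, hw⟩ : ∃ w, w = g (γ.hvec 0 (U c' 0)) := ⟨_, rfl⟩
      have hw0 : w ≠ 0 := fun h7 => γ.hvec_ne 0 (U c' 0) ((LinearEquiv.map_eq_zero_iff g).1
        (hw ▸ h7))
      rw [← hw] at h6
      have h7 : w 0 ^ 2 + w 1 ^ 2 = (s - q) / s * w 2 ^ 2 := by
        field_simp
        linarith
      by_contra hcon
      push Not at hcon
      have h8 : (s - q) / s * w 2 ^ 2 ≤ 0 := mul_nonpos_of_nonpos_of_nonneg hcon (sq_nonneg _)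
      have b0 : w 0 = 0 := pow_eq_zero_iff (n := 2) (by norm_num) |>.1
        (by nlinarith [sq_nonneg (w 0), sq_nonneg (w 1)])
      have b1 : w 1 = 0 := pow_eq_zero_iff (n := 2) (by norm_num) |>.1
        (by nlinarith [sq_nonneg (w 0), sq_nonneg (w 1)])
      rw [b0, b1] at h7
      have h9 : (s - q) / s * w 2 ^ 2 = 0 := by linarith
      have b2 : w 2 = 0 := by
        rcases mul_eq_zero.1 h9 with h | h
        · exact absurd h (div_ne_zero hsq hs0)
        · exact pow_eq_zero_iff (n := 2) (by norm_num) |>.1 h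
      apply hw0
      funext i
      fin_cases i
      · exact b0
      · exact b1
      · exact b2
    refine ⟨Real.sqrt ((s - q) / s), Real.sqrt_pos.2 hpos, ?_⟩
    rw [hleaf]
    ext p
    show (Q - ρ • E) p.rep = 0 ↔ g p.rep 0 ^ 2 + g p.rep 1 ^ 2 =
      Real.sqrt ((s - q) / s) ^ 2 * g p.rep 2 ^ 2
    rw [hF, Real.sq_sqrt hpos.le]
    constructor
    · intro h5
      field_simp
      linarith
    · intro h5
      rw [h5]
      field_simp
      ring

end Pool.Agent.MP_ae5b4e_an_LOC
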