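import Pool.Agent.Lib.MP_ae5b4e_an_LOC.SOLV
import Pool.Agent.Lib.MP_ae5b4e_an_LL.Strip

/-!
# LOC, LT-20 [PARTS]: integration by parts; primitives on the strip
-/

set_option autoImplicit false

namespace Pool.Agent.MP_ae5b4e_an_LOC

open Set Metric Complex ComplexConjugate Filter Topology
open Pool.Agent.MP_ae5b4e_an_NBT (St)
open Pool.Agent.Lib.MP_ae5b4e_an_LL (exists_prim_strip)

theorem ofReal_mem_Sp {t : ℝ} (ht : 0 < t) (x : ℝ) : (x : ℂ) ∈ Sp t := by
  rw [mem_Sp, ofReal_im, abs_zero]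
  exact ht

/-- periodic primitives of periodic functions with mean zero on a strip -/
theorem exists_prim {t : ℝ} (ht : 0 < t) {g : ℂ → ℂ} (hg : AnalyticOnNhd ℂ g (Sp t))
    (hp : ∀ x ∈ Sp t, g (x + 1) = g x) (hc : ∀ x ∈ Sp t, g (conj x) = conj (g x))
    (h0 : ∫ x in (0:ℝ)..1, g x = 0) :
    ∃ f : ℂ → ℂ, AnalyticOnNhd ℂ f (Sp t) ∧ (∀ x ∈ Sp t, HasDerivAt f (g x) x) ∧
      (∀ x ∈ Sp t, f (x + 1) = f x) ∧ ∀ x ∈ Sp t, f (conj x) = conj (f x) := by
  have hSt : Sp t = St (-t) t := by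
    ext x
    simp [Sp, St, abs_lt]
  have h0m : (0:ℂ) ∈ Sp t := by simpa using ofReal_mem_Sp ht 0
  obtain ⟨f, hf0, hf⟩ := exists_prim_strip (c := 0) (by rw [← hSt]; exact h0m)
    (by rw [← hSt]; exact hg.differentiableOn) 0
  rw [← hSt] at hf
  have hfd : DifferentiableOn ℂ f (Sp t) := fun x hx => (hf x hx).differentiableAt.differentiableWithinAt
  have hconst : ∀ F : ℂ → ℂ, (∀ x ∈ Sp t, HasDerivAt F 0 x) → F 0 = 0 → ∀ x ∈ Sp t, F x = 0 := by
    intro F hF hF0 x hx
    rw [← hF0]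
    exact (isOpen_Sp t).is_const_of_deriv_eq_zero (isPreconnected_Sp' t)
      (fun y hy => (hF y hy).differentiableAt.differentiableWithinAt)
      (fun y hy => (hF y hy).deriv) hx h0m
  refine ⟨f, hfd.analyticOnNhd (isOpen_Sp t), hf, fun x hx => ?_, fun x hx => ?_⟩
  · have h1 := hconst (fun y => f (y + 1) - f y - f 1) (fun y hy => ?_) ?_ x hx
    · have h2 : f 1 = 0 := by
        have h3 : ∫ x in (0:ℝ)..1, g x = f ((1:ℝ) : ℂ) - f ((0:ℝ) : ℂ) := by
          refine intervalIntegral.integral_eq_sub_of_hasDerivAt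
            (f := fun x : ℝ => f (x : ℂ)) (fun x _ => ?_) ?_
          · exact (hf x (ofReal_mem_Sp ht x)).comp_ofReal
          · apply Continuous.intervalIntegrable
            rw [continuous_iff_continuousAt]
            exact fun x => (hg x (ofReal_mem_Sp ht x)).continuousAt.comp_of_eq
              continuous_ofReal.continuousAt rfl
        rw [h0] at h3
        push_cast at h3
        rw [hf0, sub_zero] at h3
        exact h3.symm
      rw [h2, sub_zero, sub_eq_zero] at h1
      exact h1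
    · have hy' : y + 1 ∈ Sp t := by rw [mem_Sp] at hy ⊢; simpa using hy
      have h2 : HasDerivAt (fun y => f (y + 1)) (g (y + 1)) y := (hf _ hy').comp_add_const y 1
      rw [hp y hy] at h2
      simpa using (h2.sub (hf y hy)).sub_const (f 1)
    · simp [hf0]
  · have h1 := hconst (fun y => (conj ∘ f ∘ conj) y - f y) (fun y hy => ?_) ?_ (conj x) ?_
    · simp only [Function.comp_apply, Complex.conj_conj, sub_eq_zero] at h1
      exact h1.symm
    · have hy' : conj y ∈ Sp t := by rw [mem_Sp] at hy ⊢; simpa using hy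
      have h2 := (hf _ hy').conj_conj
      rw [Complex.conj_conj, hc y hy, Complex.conj_conj] at h2
      have h3 := h2.sub (hf y hy)
      rw [sub_self] at h3
      exact h3
    · simp [hf0]
    · rw [mem_Sp] at hx ⊢; simpa using hx
where
  isPreconnected_Sp' (t : ℝ) : IsPreconnected (Sp t) := (convex_Sp t).isPreconnected

/-- integration by parts: the law for the derivative is the law (V) -/
theorem Bg.cm_parts (B : Bg) {t : ℝ} (ht : 0 < t) {f f' : Fin 3 → ℂ → ℂ}
    (hf : ∀ i, AnalyticOnNhd ℂ (f i) (Sp t)) (hf' : ∀ i, ∀ x ∈ Sp t, HasDerivAt (f i) (f' i x) x)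
    (hp : ∀ i, ∀ x ∈ Sp t, f i (x + 1) = f i x) (m : ℤ) {om : ℂ} (hom : ‖om‖ < B.r) :
    ∫ x in (0:ℝ)..1, B.F f' om x * exp (-(2 * Real.pi * I * m * B.ph om x)) =
      2 * Real.pi * I * m * B.cm f m om := by
  have hs := B.strip_pos hom
  have hmem : ∀ x : ℝ, |((x : ℂ)).im| < B.h - B.K * ‖om‖ := fun x => by
    rw [ofReal_im, abs_zero]; exact hs
  have hFd : ∀ x : ℂ, x ∈ Sp t → HasDerivAt (B.F f om) (B.F f' om x) x := by
    intro x hx
    exact (((hf' 0 x hx).const_mul _).add ((hf' 1 x hx).const_mul _)).add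
      ((hf' 2 x hx).const_mul _)
  have hEd : ∀ x : ℝ, HasDerivAt (fun x : ℂ => exp (-(2 * Real.pi * I * m * B.ph om x)))
      (exp (-(2 * Real.pi * I * m * B.ph om x)) * (-(2 * Real.pi * I * m * deriv (B.ph om) x)))
      (x : ℂ) := fun x =>
    (((B.deriv_an om x hom (hmem x)).differentiableAt.hasDerivAt.const_mul _).neg).cexp
  have hD : ∀ x : ℝ, HasDerivAt (fun x : ℝ => B.F f om x *
      exp (-(2 * Real.pi * I * m * B.ph om x)))
      (B.F f' om x * exp (-(2 * Real.pi * I * m * B.ph om x)) + B.F f om x *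
        (exp (-(2 * Real.pi * I * m * B.ph om x)) * (-(2 * Real.pi * I * m * deriv (B.ph om) x)))) x :=
    fun x => ((hFd x (ofReal_mem_Sp ht x)).mul (hEd x)).comp_ofReal
  have hderiv : ∀ i, ∀ x ∈ Sp t, f' i x = deriv (f i) x := fun i x hx => (hf' i x hx).deriv.symm
  have hcont : ∀ g : ℂ → ℂ, AnalyticOnNhd ℂ g (Sp t) → Continuous fun x : ℝ => g x := by
    intro g hg
    rw [continuous_iff_continuousAt]
    exact fun x => (hg x (ofReal_mem_Sp ht x)).continuousAt.comp_of_eq
      continuous_ofReal.continuousAt rfl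
  have hcf' : ∀ i, Continuous fun x : ℝ => f' i x := fun i =>
    (hcont _ (hf i).deriv).congr fun x => (hderiv i x (ofReal_mem_Sp ht x)).symm
  have hcE : Continuous fun x : ℝ => exp (-(2 * Real.pi * I * m * B.ph om x)) := by
    rw [continuous_iff_continuousAt]
    exact fun x => (hEd x).continuousAt.comp_of_eq continuous_ofReal.continuousAt rfl
  have hcF' : Continuous fun x : ℝ => B.F f' om x * exp (-(2 * Real.pi * I * m * B.ph om x)) := by
    unfold Bg.F
    exact (((continuous_const.mul (hcf' 0)).add (continuous_const.mul (hcf' 1))).add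
      (continuous_const.mul (hcf' 2))).mul hcE
  have hcm := B.cm_cont ht hf m hom
  have hcm2 : Continuous fun x : ℝ => B.F f om x *
      (exp (-(2 * Real.pi * I * m * B.ph om x)) * (-(2 * Real.pi * I * m * deriv (B.ph om) x))) := by
    have : (fun x : ℝ => B.F f om x * (exp (-(2 * Real.pi * I * m * B.ph om x)) *
        (-(2 * Real.pi * I * m * deriv (B.ph om) x)))) = fun x : ℝ => -(2 * Real.pi * I * m) *
        (B.F f om x * exp (-(2 * Real.pi * I * m * B.ph om x)) * deriv (B.ph om) x) := by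
      funext x
      ring
    rw [this]
    exact continuous_const.mul hcm
  have h1 := intervalIntegral.integral_eq_sub_of_hasDerivAt (a := 0) (b := 1) (fun x _ => hD x)
    ((hcF'.add hcm2).intervalIntegrable _ _)
  rw [intervalIntegral.integral_add (hcF'.intervalIntegrable _ _)
    (hcm2.intervalIntegrable _ _)] at h1
  have h2 : B.F f om ((1:ℝ) : ℂ) * exp (-(2 * Real.pi * I * m * B.ph om ((1:ℝ) : ℂ))) -
      B.F f om ((0:ℝ) : ℂ) * exp (-(2 * Real.pi * I * m * B.ph om ((0:ℝ) : ℂ))) = 0 := by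
    have h3 : B.ph om ((1:ℝ) : ℂ) = B.ph om ((0:ℝ) : ℂ) + 1 := by
      have := B.ph_one om ((0:ℝ) : ℂ) hom (hmem 0)
      rw [← this]
      congr 1
      push_cast
      ring
    have h4 : ∀ i, f i ((1:ℝ) : ℂ) = f i ((0:ℝ) : ℂ) := fun i => by
      rw [← hp i ((0:ℝ) : ℂ) (ofReal_mem_Sp ht 0)]
      congr 1
      push_cast
      ring
    have h5 : exp (-(2 * Real.pi * I * m * (B.ph om ((0:ℝ) : ℂ) + 1))) =
        exp (-(2 * Real.pi * I * m * B.ph om ((0:ℝ) : ℂ))) := by
      rw [show -(2 * Real.pi * I * m * (B.ph om ((0:ℝ) : ℂ) + 1)) =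
        -(2 * Real.pi * I * m * B.ph om ((0:ℝ) : ℂ)) + ((-m : ℤ) : ℂ) * (2 * Real.pi * I) by
          push_cast; ring, exp_add, exp_int_mul_two_pi_mul_I, mul_one]
    rw [h3, h5]
    simp only [Bg.F, h4]
    ring
  rw [h2] at h1
  rw [eq_neg_of_add_eq_zero_left h1, ← intervalIntegral.integral_neg, Bg.cm,
    ← intervalIntegral.integral_const_mul]
  apply intervalIntegral.integral_congr
  intro x _
  ring

end Pool.Agent.MP_ae5b4e_an_LOC
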