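import Pool.Agent.Lib.MP_ae5b4e_an_LOC.RPon
import Pool.Agent.Lib.MP_ae5b4e_an_LOC.PARTS

/-!
The kernel elements satisfy the laws; the instance of `KerD`.
-/

set_option autoImplicit false

namespace Pool.Agent.MP_ae5b4e_an_LOC

open Complex Set Filter Topology ComplexConjugate

noncomputable section

variable {m : ℝ}

/-- the degree 0 functions of the quadratic forms -/
def Psi2 (j : Fin 4) (w : Fin 3 → ℝ) : ℝ :=
  (![w 0 * w 0, w 0 * w 1, w 0 * w 2, w 1 * w 2] : Fin 4 → ℝ) j / (w 0 ^ 2 + w 1 ^ 2)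
/-- the degree 0 functions of the quartic forms -/
def Psi4 (j : Fin 4) (w : Fin 3 → ℝ) : ℝ :=
  w 0 ^ 2 * (![w 0 * w 0, w 0 * w 1, w 0 * w 2, w 1 * w 2] : Fin 4 → ℝ) j / (w 0 ^ 2 + w 1 ^ 2) ^ 2

lemma Psi2_hom (j : Fin 4) (w : Fin 3 → ℝ) (k : ℝ) (hk : k ≠ 0) :
    Psi2 j (fun i => k * w i) = Psi2 j w := by
  have h : ∀ a b : ℝ, (k * a) * (k * b) / ((k * w 0) ^ 2 + (k * w 1) ^ 2) =
      a * b / (w 0 ^ 2 + w 1 ^ 2) := by
    intro a b
    rw [show (k * a) * (k * b) = k ^ 2 * (a * b) by ring,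
      show (k * w 0) ^ 2 + (k * w 1) ^ 2 = k ^ 2 * (w 0 ^ 2 + w 1 ^ 2) by ring,
      mul_div_mul_left _ _ (pow_ne_zero 2 hk)]
  fin_cases j <;> exact h _ _

lemma Psi4_eq (j : Fin 4) (w : Fin 3 → ℝ) :
    Psi4 j w = (w 0 ^ 2 / (w 0 ^ 2 + w 1 ^ 2)) * Psi2 j w := by
  unfold Psi4 Psi2
  rw [div_mul_div_comm, ← sq (w 0 ^ 2 + w 1 ^ 2)]

lemma Psi4_hom (j : Fin 4) (w : Fin 3 → ℝ) (k : ℝ) (hk : k ≠ 0) :
    Psi4 j (fun i => k * w i) = Psi4 j w := by
  rw [Psi4_eq, Psi4_eq, Psi2_hom j w k hk]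
  congr 1
  rw [show (k * w 0) ^ 2 + (k * w 1) ^ 2 = k ^ 2 * (w 0 ^ 2 + w 1 ^ 2) by ring, mul_pow,
      mul_div_mul_left _ _ (pow_ne_zero 2 hk)]

section

variable (h0 : 0 < m) (h1 : m < 1)

include h0 h1

/-- general principle: a Sol from a telescoping identity -/
theorem sol_of_law {B : Bg} (R : RPon m B) (f : Fin 3 → ℂ → ℂ)
    (an : ∀ i, AnalyticOnNhd ℂ (f i) (Sp B.h)) (per : ∀ i, ∀ x ∈ Sp B.h, f i (x + 1) = f i x)
    (real : ∀ i, ∀ x ∈ Sp B.h, f i (conj x) = conj (f i x))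
    (hlaw : ∀ om : ℝ, 0 < om → om < B.r → ∃ Ψ : (Fin 3 → ℝ) → ℝ,
      (∀ (w : Fin 3 → ℝ) (k : ℝ), k ≠ 0 → Ψ (fun i => k * w i) = Ψ w) ∧ ∀ x : ℝ,
        (R.v om x : ℂ) * B.F (fun i => deriv (f i)) om x =
          ((Ψ (Vp m (R.v om x) x) - Ψ (Vm m (R.v om x) x) : ℝ) : ℂ)) : Sol B B.h f := by
  have hh := B.h_pos
  have hreal : ∀ x : ℝ, (x : ℂ) ∈ Sp B.h := fun x => ofReal_mem_Sp hh x
  refine ⟨an, per, real, fun n p hn hp hpn => ?_⟩
  -- parameters
  set q : ℕ := n.natAbs with hq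
  have hq1 : 1 ≤ q := Int.natAbs_pos.2 hn
  have hqR : (0:ℝ) < q := by exact_mod_cast hq1
  have hpR : (0:ℝ) < p := by exact_mod_cast hp
  have habs : ((|n| : ℤ) : ℂ) = (q : ℂ) := by
    rw [Int.abs_eq_natAbs, ← hq]; simp
  have habsR : |(n : ℝ)| = (q : ℝ) := by
    rw [← Int.cast_abs, Int.abs_eq_natAbs, ← hq]; simp
  rw [habs]
  rw [habsR] at hpn
  set om : ℝ := (p:ℝ) / q with hom
  have hcast : (p : ℂ) / q = (om : ℂ) := by rw [hom]; push_cast; ring
  have hom0 : 0 < om := div_pos hpR hqR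
  have homr : om < B.r := by rw [hom, div_lt_iff₀ hqR]; exact hpn
  have hnorm : ‖(om : ℂ)‖ < B.r := by rw [norm_real, Real.norm_eq_abs, abs_of_pos hom0]; exact homr
  obtain ⟨Ψ, hΨ, hid⟩ := hlaw om hom0 homr
  have hder : ∀ i, ∀ x ∈ Sp B.h, HasDerivAt (f i) (deriv (f i) x) x := fun i x hx =>
    (an i x hx).differentiableAt.hasDerivAt
  have hparts := B.cm_parts hh an hder per n hnorm
  -- the orbit sums
  have hcont : ∀ i, Continuous fun x : ℝ => deriv (f i) (x : ℂ) := by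
    intro i
    rw [continuous_iff_continuousAt]
    intro x
    exact ContinuousAt.comp (f := fun y : ℝ => (y : ℂ)) ((an i).deriv x (hreal x)).continuousAt
      continuous_ofReal.continuousAt
  have hperd : ∀ i, ∀ x : ℝ, deriv (f i) ((x + 1 : ℝ) : ℂ) = deriv (f i) x := by
    intro i x
    have h3 : ∀ᶠ y in 𝓝 (x : ℂ), f i (y + 1) = f i y := by
      filter_upwards [(isOpen_Sp B.h).mem_nhds (hreal x)] with y hy using per i y hy
    have h4 : deriv (fun y => f i (y + 1)) (x : ℂ) = deriv (f i) x :=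
      Filter.EventuallyEq.deriv_eq h3
    rw [deriv_comp_add_const] at h4
    push_cast
    exact h4
  have horb := B.orb (v := R.v om) (F := R.F om) (g := fun x : ℝ => B.F (fun i => deriv (f i)) om x)
    (p := p) (q := q) (cc := R.cc om) (by omega) homr
    (fun y => by rw [hcast]; exact R.F_ph om hom0 homr y)
    (fun y => by rw [hcast]; exact R.v_ph om hom0 homr y) (R.cc_ne om hom0 homr)
    (by
      unfold Bg.F
      exact ((continuous_const.mul (hcont 0)).add (continuous_const.mul (hcont 1))).add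
        (continuous_const.mul (hcont 2)))
    (fun x => by
      unfold Bg.F
      simp only [hperd])
    (fun t => by
      have h5 := R.law h0 h1 hp hq1 hpn Ψ hΨ t
      rw [← hom] at h5
      have h6 := congrArg (fun z : ℝ => (z : ℂ)) h5
      simp only [ofReal_sum, ofReal_zero] at h6
      rw [← h6]
      exact Finset.sum_congr rfl fun j _ => hid _)
    (m := n) (Int.natAbs_dvd.2 dvd_rfl)
  rw [hcast] at horb ⊢
  rw [hparts] at horb
  have hne : 2 * (Real.pi : ℂ) * I * n ≠ 0 := by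
    refine mul_ne_zero (mul_ne_zero (mul_ne_zero two_ne_zero ?_) I_ne_zero) ?_
    · exact_mod_cast Real.pi_ne_zero
    · exact_mod_cast hn
  exact (mul_eq_zero.1 horb).resolve_left hne

/-- the quadratic form Q on the two vectors -/
lemma Q_Vp {v L : ℝ} (hv : 0 < v) (x : ℝ)
    (hL : v ^ 2 + sg m ^ 2 * dn m (sg m * x) ^ 2 = L) :
    (Vp m v x 0) ^ 2 + (Vp m v x 1) ^ 2 = L / v ^ 2 ∧
    (Vm m v x 0) ^ 2 + (Vm m v x 1) ^ 2 = L / v ^ 2 := by
  have e1 := sn_sq_add m (sg m * x)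
  simp only [Vp, Vm, Pr, Pr1, Matrix.cons_val_zero, Matrix.cons_val_one]
  rw [← hL]
  generalize sn m (sg m * x) = s at *
  generalize cn m (sg m * x) = c at *
  generalize dn m (sg m * x) = d at *
  generalize sg m = σ at *
  have hv' := hv.ne'
  constructor
  · field_simp
    linear_combination (v ^ 2 + σ ^ 2 * d ^ 2) * e1
  · field_simp
    linear_combination (v ^ 2 + σ ^ 2 * d ^ 2) * e1

/-- real forms of the derivative coefficients -/
def nr (m x : ℝ) : Fin 4 → ℝ :=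
  ![2 * Pr m x 0 * Pr1 m x 0, Pr1 m x 0 * Pr m x 1 + Pr m x 0 * Pr1 m x 1,
    Pr1 m x 0 * Pr m x 2 + Pr m x 0 * Pr1 m x 2, Pr1 m x 1 * Pr m x 2 + Pr m x 1 * Pr1 m x 2]

def n1r (m x : ℝ) : Fin 4 → ℝ :=
  ![4 * Pr m x 0 ^ 3 * Pr1 m x 0, 3 * Pr m x 0 ^ 2 * Pr1 m x 0 * Pr m x 1 + Pr m x 0 ^ 3 * Pr1 m x 1,
    3 * Pr m x 0 ^ 2 * Pr1 m x 0 * Pr m x 2 + Pr m x 0 ^ 3 * Pr1 m x 2,
    2 * Pr m x 0 * Pr1 m x 0 * Pr m x 1 * Pr m x 2 + Pr m x 0 ^ 2 * Pr1 m x 1 * Pr m x 2 +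
      Pr m x 0 ^ 2 * Pr m x 1 * Pr1 m x 2]

def n3r (m x : ℝ) : Fin 4 → ℝ :=
  ![4 * Pr m x 0 * Pr1 m x 0 ^ 3, Pr1 m x 0 ^ 3 * Pr m x 1 + 3 * Pr m x 0 * Pr1 m x 0 ^ 2 * Pr1 m x 1,
    Pr1 m x 0 ^ 3 * Pr m x 2 + 3 * Pr m x 0 * Pr1 m x 0 ^ 2 * Pr1 m x 2,
    Pr1 m x 0 ^ 2 * (Pr1 m x 1 * Pr m x 2 + Pr m x 1 * Pr1 m x 2) +
      2 * Pr m x 0 * Pr1 m x 0 * Pr1 m x 1 * Pr1 m x 2]

lemma NR_real (x : ℝ) (j : Fin 4) : NR m x j = (nr m x j : ℂ) := by
  fin_cases j <;> simp [NR, nr, Pr, Pr1, XJ_real h0 h1, YJ_real h0 h1, ZJ_real h0 h1]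

lemma N1_real (x : ℝ) (j : Fin 4) : N1 m x j = (n1r m x j : ℂ) := by
  fin_cases j <;> simp [N1, n1r, Pr, Pr1, XJ_real h0 h1, YJ_real h0 h1, ZJ_real h0 h1]

lemma N3_real (x : ℝ) (j : Fin 4) : N3 m x j = (n3r m x j : ℂ) := by
  fin_cases j <;> simp [N3, n3r, Pr, Pr1, XJ_real h0 h1, YJ_real h0 h1, ZJ_real h0 h1]

lemma L_pos {v L : ℝ} (hv : 0 < v) (x : ℝ) (hL : v ^ 2 + sg m ^ 2 * dn m (sg m * x) ^ 2 = L) :
    0 < L := by
  rw [← hL]; positivity

/-- the telescoping identity of the quadratic forms -/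
lemma tele2 {v L : ℝ} (hv : 0 < v) (x : ℝ) (hL : v ^ 2 + sg m ^ 2 * dn m (sg m * x) ^ 2 = L)
    (j : Fin 4) : v * nr m x j = L / 2 * (Psi2 j (Vp m v x) - Psi2 j (Vm m v x)) := by
  obtain ⟨q1, q2⟩ := Q_Vp h0 h1 hv x hL
  have hLp := L_pos h0 h1 hv x hL
  have hv' := hv.ne'
  have hL' := hLp.ne'
  unfold Psi2
  rw [q1, q2]
  clear q1 q2 hL
  fin_cases j <;>
    simp only [Fin.zero_eta, Fin.mk_one, Fin.reduceFinMk, Matrix.cons_val_zero,
      Matrix.cons_val_one, Matrix.cons_val, nr, Vp, Vm] <;>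
    field_simp <;> ring

/-- the telescoping identity of the quartic forms -/
lemma tele4 {v L : ℝ} (hv : 0 < v) (x : ℝ) (hL : v ^ 2 + sg m ^ 2 * dn m (sg m * x) ^ 2 = L)
    (j : Fin 4) : v * (n3r m x j + v ^ 2 * n1r m x j) =
      L ^ 2 / 2 * (Psi4 j (Vp m v x) - Psi4 j (Vm m v x)) := by
  obtain ⟨q1, q2⟩ := Q_Vp h0 h1 hv x hL
  have hLp := L_pos h0 h1 hv x hL
  have hv' := hv.ne'
  have hL' := hLp.ne'
  unfold Psi4
  rw [q1, q2]
  clear q1 q2 hL
  fin_cases j <;>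
    simp only [Fin.zero_eta, Fin.mk_one, Fin.reduceFinMk, Matrix.cons_val_zero,
      Matrix.cons_val_one, Matrix.cons_val, n1r, n3r, Vp, Vm] <;>
    field_simp <;> ring

theorem solR0_J {B : Bg} (R : RPon m B) (j : Fin 4) : Sol B B.h ![KR m j, 0, 0] := by
  have hS : Sp B.h = Sp (hJ m) := by rw [R.h_eq]
  refine sol_of_law h0 h1 R _ ?_ ?_ ?_ ?_
  · intro i
    rw [hS]
    fin_cases i
    · exact KR_an h0 h1 j
    · exact analyticOnNhd_const
    · exact analyticOnNhd_const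
  · intro i x hx
    fin_cases i
    · exact KR_per h0 h1 j x
    · rfl
    · rfl
  · intro i x hx
    fin_cases i
    · exact KR_conj h0 h1 j x
    · simp
    · simp
  · intro om hom hom'
    refine ⟨fun w => om ^ 4 * (R.L om / 2) * Psi2 j w, fun w k hk => by
      simp only [Psi2_hom j w k hk], fun x => ?_⟩
    have hx : |((x : ℝ) : ℂ).im| < hJ m := by simpa using hJ_pos h0 h1
    have hv := R.v_pos om hom hom' x
    have t := tele2 h0 h1 hv x (R.v_sq om hom hom' x) j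
    have d0 : deriv ((![KR m j, 0, 0] : Fin 3 → ℂ → ℂ) 0) x = (nr m x j : ℂ) := by
      have := (KR_der h0 h1 hx j).deriv
      rw [NR_real h0 h1] at this
      exact this
    have d1 : deriv ((![KR m j, 0, 0] : Fin 3 → ℂ → ℂ) 1) x = 0 := by
      change deriv (0 : ℂ → ℂ) x = 0
      simp
    have d2 : deriv ((![KR m j, 0, 0] : Fin 3 → ℂ → ℂ) 2) x = 0 := by
      change deriv (0 : ℂ → ℂ) x = 0
      simp
    unfold Bg.F
    simp only [d0, d1, d2, mul_zero, add_zero]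
    rw [← mul_sub, mul_assoc, mul_sub, ← mul_sub, ← t]
    push_cast; ring

theorem solR1_J {B : Bg} (R : RPon m B) (j : Fin 4) : Sol B B.h ![0, KR m j, 0] := by
  have hS : Sp B.h = Sp (hJ m) := by rw [R.h_eq]
  refine sol_of_law h0 h1 R _ ?_ ?_ ?_ ?_
  · intro i
    rw [hS]
    fin_cases i
    · exact analyticOnNhd_const
    · exact KR_an h0 h1 j
    · exact analyticOnNhd_const
  · intro i x hx
    fin_cases i
    · rfl
    · exact KR_per h0 h1 j x
    · rfl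
  · intro i x hx
    fin_cases i
    · simp
    · exact KR_conj h0 h1 j x
    · simp
  · intro om hom hom'
    refine ⟨fun w => om ^ 4 * R.L om * (R.L om / 2) * Psi2 j w, fun w k hk => by
      simp only [Psi2_hom j w k hk], fun x => ?_⟩
    have hx : |((x : ℝ) : ℂ).im| < hJ m := by simpa using hJ_pos h0 h1
    have hv := R.v_pos om hom hom' x
    have t := tele2 h0 h1 hv x (R.v_sq om hom hom' x) j
    have d1 : deriv ((![0, KR m j, 0] : Fin 3 → ℂ → ℂ) 1) x = (nr m x j : ℂ) := by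
      have := (KR_der h0 h1 hx j).deriv
      rw [NR_real h0 h1] at this
      exact this
    have d0 : deriv ((![0, KR m j, 0] : Fin 3 → ℂ → ℂ) 0) x = 0 := by
      change deriv (0 : ℂ → ℂ) x = 0
      simp
    have d2 : deriv ((![0, KR m j, 0] : Fin 3 → ℂ → ℂ) 2) x = 0 := by
      change deriv (0 : ℂ → ℂ) x = 0
      simp
    unfold Bg.F
    simp only [d0, d1, d2, mul_zero, add_zero, zero_add]
    rw [← mul_sub, mul_assoc (om ^ 4 * R.L om), ← t, R.Lam_eq om hom hom']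
    push_cast; ring

theorem solA_J {B : Bg} (R : RPon m B) (j : Fin 4) : Sol B B.h ![KA m j, KC m j, 0] := by
  have hS : Sp B.h = Sp (hJ m) := by rw [R.h_eq]
  refine sol_of_law h0 h1 R _ ?_ ?_ ?_ ?_
  · intro i
    rw [hS]
    fin_cases i
    · exact KA_an h0 h1 j
    · exact KC_an h0 h1 j
    · exact analyticOnNhd_const
  · intro i x hx
    fin_cases i
    · exact KA_per h0 h1 j x
    · exact KC_per h0 h1 j x
    · rfl
  · intro i x hx
    fin_cases i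
    · exact KA_conj h0 h1 j x
    · exact KC_conj h0 h1 j x
    · simp
  · intro om hom hom'
    refine ⟨fun w => -(om ^ 4 / 2) * (R.L om ^ 2 / 2) * Psi4 j w, fun w k hk => by
      simp only [Psi4_hom j w k hk], fun x => ?_⟩
    have hx : |((x : ℝ) : ℂ).im| < hJ m := by simpa using hJ_pos h0 h1
    have hv := R.v_pos om hom hom' x
    have hL := R.v_sq om hom hom' x
    have t := tele4 h0 h1 hv x hL j
    have d0 : deriv ((![KA m j, KC m j, 0] : Fin 3 → ℂ → ℂ) 0) x =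
        (((sg m) ^ 2 * dn m (sg m * x) ^ 2 * n1r m x j - n3r m x j) / 2 : ℝ) := by
      have := (KA_der h0 h1 hx j).deriv
      rw [N1_real h0 h1, N3_real h0 h1, ZJ_real h0 h1] at this
      push_cast
      exact this
    have d1 : deriv ((![KA m j, KC m j, 0] : Fin 3 → ℂ → ℂ) 1) x = (-(n1r m x j) / 2 : ℝ) := by
      have := (KC_der h0 h1 hx j).deriv
      rw [N1_real h0 h1] at this
      push_cast
      exact this
    have d2 : deriv ((![KA m j, KC m j, 0] : Fin 3 → ℂ → ℂ) 2) x = 0 := by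
      change deriv (0 : ℂ → ℂ) x = 0
      simp
    unfold Bg.F
    simp only [d0, d1, d2, mul_zero, add_zero]
    rw [← mul_sub, mul_assoc (-(om ^ 4 / 2)), ← t, R.Lam_eq om hom hom']
    have hL' : (R.L om : ℂ) = (R.v om x : ℂ) ^ 2 + (sg m : ℂ) ^ 2 * (dn m (sg m * x) : ℂ) ^ 2 := by
      rw [← hL]; push_cast; ring
    push_cast
    rw [hL']
    ring

/-- the instance of the kernel data -/
def kerJ {B : Bg} (R : RPon m B) : KerD B where
  A := KA m
  C := KC m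
  R := KR m
  solA := solA_J h0 h1 R
  solR0 := solR0_J h0 h1 R
  solR1 := solR1_J h0 h1 R
  LA := LAJ m
  LC := LCJ m
  LR := LRJ m
  limA j n := by
    have := KA_lim h0 h1 j n
    simpa only [Bg.b, R.h_eq] using this
  limC j n := by
    have := KC_lim h0 h1 j n
    simpa only [Bg.b, R.h_eq] using this
  limR j n := by
    have := KR_lim h0 h1 j n
    simpa only [Bg.b, R.h_eq] using this
  spanA := span_A h0 h1
  spanR := span_R h0 h1
  injC := inj_C h0 h1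

end

end

end Pool.Agent.MP_ae5b4e_an_LOC
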