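import Pool.Agent.Lib.MP_ae5b4e_an_LOC.RealJ
import Pool.Agent.Lib.MP_ae5b4e_an_LOC.KerJ

/-!
The real Poncelet relation of the Jacobi background.
-/

set_option autoImplicit false

noncomputable section

namespace Pool.Agent.MP_ae5b4e_an_LOC

open Complex Set Filter Topology Metric ComplexConjugate

variable {m : ℝ}

/-- the structure `RPon` from `RealJ` -/
def rponJ {B : Bg} (R : RealJ m B) : RPon m B where
  h_eq := R.h_eq
  F := GW m
  v := fun om => VV m (epsW m om)
  cc := fun om => 4 * KK m / √(epsW m om) / PhR m (epsW m om) 1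
  L := fun om => sg m ^ 2 / epsW m om
  v_pos := fun om h h' x => VV_pos R.m_pos.le R.m_lt (R.eps_mem om h h') x
  v_per := fun om _ _ x => VV_per R.m_pos.le R.m_lt _ x
  F_ph := fun om h h' x => by
    have hε := R.eps_mem om h h'
    have hw := R.wE_eps om h h'
    rw [R.ph_eq om h h', R.ph_eq om h h', ← ofReal_add]
    congr 1
    have h1 : GW m om x = GG m (epsW m om) x := rfl
    rw [h1, PhR_GG R.m_pos.le R.m_lt hε, add_div]
    congr 1
  v_ph := fun om h h' x => by
    have hε := R.eps_mem om h h'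
    rw [(R.ph_der om h h' x).deriv, ofReal_re, VV_eq R.m_pos.le R.m_lt hε]
    have h1 := (RR_pos R.m_pos.le R.m_lt ⟨hε.1.le, hε.2⟩ x).ne'
    field_simp
  cc_ne := fun om h h' => by
    have hε := R.eps_mem om h h'
    have h1 := KK_pos R.m_pos.le R.m_lt
    have h2 := Real.sqrt_pos.2 hε.1
    have h3 : 0 < PhR m (epsW m om) 1 := by
      have := PhR_strictMono R.m_pos.le R.m_lt ⟨hε.1.le, hε.2⟩ (show (0:ℝ) < 1 by norm_num)
      rwa [PhR_zero] at this
    positivity
  v_sq := fun om h h' x => by
    have hε := R.eps_mem om h h'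
    rw [VV_sq R.m_pos.le R.m_lt hε]
    unfold sg
    ring
  Lam_eq := fun om h h' => by
    have h1 := R.Lam_eq om h h'
    have hne : (om : ℂ) ^ 2 ≠ 0 := pow_ne_zero 2 (by exact_mod_cast h.ne')
    rw [div_eq_iff hne] at h1
    rw [h1]
    push_cast
    ring
  par := fun om h h' x => by
    have hε := R.eps_mem om h h'
    have h1 : GW m om x = GG m (epsW m om) x := rfl
    have hp := PON R.m_pos.le R.m_lt hε (PhR_GG R.m_pos.le R.m_lt hε x)
    have v1 := VV_pos R.m_pos.le R.m_lt hε x
    have v2 := VV_pos R.m_pos.le R.m_lt hε (GG m (epsW m om) x)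
    refine ⟨VV m (epsW m om) (GG m (epsW m om) x) / VV m (epsW m om) x, (div_pos v2 v1).ne', ?_⟩
    funext i
    have hi := congrFun hp i
    rw [h1]
    have e1 : ∀ y, PJ m (4 * KK m * y) = Pr m y := fun y => rfl
    have e2 : ∀ y i, Pr1 m y i = sg m * PJ1 m (sg m * y) i := by
      intro y i
      fin_cases i
      · rfl
      · simp [Pr1, PJ1]
      · simp [Pr1, PJ1]; ring
    simp only [Pi.add_apply, Pi.sub_apply, Pi.smul_apply, smul_eq_mul, e1] at hi
    simp only [Vp, Vm, e2]
    have e3 : (4 * KK m) = sg m := rfl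
    rw [e3] at hi
    field_simp
    linear_combination hi

/-- the background with its kernel data -/
def kerR {B : Bg} (R : RealJ m B) : KerD B := kerJ R.m_pos R.m_lt (rponJ R)

end Pool.Agent.MP_ae5b4e_an_LOC
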