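import Pool.Agent.Lib.MP_ae5b4e_an_LOC.RealK
import Pool.Agent.Lib.MP_ae5b4e_an_LOC.RPonJ

/-!
# LOC: the real background `RB` of the Jacobi instance
-/

set_option autoImplicit false

noncomputable section

namespace Pool.Agent.MP_ae5b4e_an_LOC

open Complex Set Filter Topology Metric ComplexConjugate

variable {m : ℝ}

section

variable (h0 : 0 < m) (h1 : m < 1)

include h0 h1

lemma VJ_an (i : Fin 3) : AnalyticOnNhd ℂ (VJ m i) (Sp (hJ m)) := by
  have h : ∀ i, DifferentiableOn ℂ (VJ m i) (Sp (hJ m)) := by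
    intro i
    fin_cases i
    · exact fun x hx => (XJ_der h0 h1 hx).differentiableAt.differentiableWithinAt
    · exact fun x hx => (YJ_der h0 h1 hx).differentiableAt.differentiableWithinAt
    · exact fun x hx => (ZJ_der h0 h1 hx).differentiableAt.differentiableWithinAt
  exact (h i).analyticOnNhd (isOpen_Sp _)

lemma VJ_per (i : Fin 3) (x : ℂ) : VJ m i (x + 1) = VJ m i x := by
  fin_cases i
  · exact XJ_per h0 h1 x
  · exact YJ_per h0 h1 x
  · exact ZJ_per h0 h1 x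

lemma VJ_conj (i : Fin 3) (x : ℂ) : VJ m i (conj x) = conj (VJ m i x) := by
  fin_cases i
  · exact XJ_conj h0 h1 x
  · exact YJ_conj h0 h1 x
  · exact ZJ_conj h0 h1 x

lemma VJ_d {x : ℂ} (hx : |x.im| < hJ m) : (fun i => deriv (VJ m i) x / (2 * Real.pi)) =
    ![(sg m : ℂ) * (YJ m x * ZJ m x) / (2 * Real.pi),
      -((sg m : ℂ) * (XJ m x * ZJ m x)) / (2 * Real.pi),
      -((sg m : ℂ) * m * (XJ m x * YJ m x)) / (2 * Real.pi)] := by
  funext i
  fin_cases i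
  · exact congrArg (· / (2 * (Real.pi : ℂ))) (XJ_der h0 h1 hx).deriv
  · exact congrArg (· / (2 * (Real.pi : ℂ))) (YJ_der h0 h1 hx).deriv
  · exact congrArg (· / (2 * (Real.pi : ℂ))) (ZJ_der h0 h1 hx).deriv

lemma kerA_J {x : ℂ} (hx : |x.im| < hJ m) (j : Fin 4) : HasDerivAt (KA m j)
    (-(4 * Real.pi ^ 3) * (cH j (fun i => VJ m i x) (fun i => deriv (VJ m i) x / (2 * Real.pi)) 3 -
      fQ (fun i => deriv (VJ m i) x / (2 * Real.pi)) *
        cH j (fun i => VJ m i x) (fun i => deriv (VJ m i) x / (2 * Real.pi)) 1)) x := by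
  refine (KA_der h0 h1 hx j).congr_deriv ?_
  have e1 := XY_rel h0 h1 hx
  have hπ : (Real.pi : ℂ) ≠ 0 := by exact_mod_cast Real.pi_ne_zero
  have hV : (fun i => VJ m i x) = ![XJ m x, YJ m x, ZJ m x] := by
    funext i
    fin_cases i <;> rfl
  rw [VJ_d h0 h1 hx, hV]
  obtain ⟨X, hX⟩ : ∃ X : ℂ, X = XJ m x := ⟨_, rfl⟩
  obtain ⟨Y, hY⟩ : ∃ X : ℂ, X = YJ m x := ⟨_, rfl⟩
  obtain ⟨Z, hZ⟩ : ∃ X : ℂ, X = ZJ m x := ⟨_, rfl⟩
  rw [← hX, ← hY] at e1
  rw [← hX, ← hY, ← hZ]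
  have hs : ∃ s : ℂ, s = sg m := ⟨_, rfl⟩
  obtain ⟨s, hs⟩ := hs
  have hp : ∃ p : ℂ, p = Real.pi := ⟨_, rfl⟩
  obtain ⟨p, hp⟩ := hp
  rw [← hp] at hπ
  rw [← hs, ← hp]
  fin_cases j
  · simp only [cH, cU, cR, fQ, i1, i2, Fin.zero_eta, Matrix.cons_val_zero,
      Matrix.cons_val_one, Matrix.cons_val]
    simp only [N1, N3, Matrix.cons_val_zero, ← hX, ← hY, ← hZ, ← hs]
    field_simp
    linear_combination (-4 * s ^ 3 * Z ^ 3 * X ^ 3 * Y) * e1
  · simp only [cH, cU, cR, fQ, i1, i2, Fin.mk_one, Matrix.cons_val_zero,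
      Matrix.cons_val_one, Matrix.cons_val]
    simp only [N1, N3, Matrix.cons_val_one, Matrix.cons_val_zero, ← hX, ← hY, ← hZ, ← hs]
    field_simp
    linear_combination (-4 * s ^ 3 * Z ^ 3 * (3 * X ^ 2 * Y ^ 2 - X ^ 4)) * e1
  · simp only [cH, cU, cR, fQ, i1, i2, Fin.reduceFinMk, Matrix.cons_val_zero,
      Matrix.cons_val_one, Matrix.cons_val]
    simp only [N1, N3, Matrix.cons_val, ← hX, ← hY, ← hZ, ← hs]
    field_simp
    linear_combination (-4 * s ^ 3 * Z ^ 2 * X ^ 2 * Y * (3 * Z ^ 2 - m * X ^ 2)) * e1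
  · simp only [cH, cU, cR, fQ, i1, i2, Fin.reduceFinMk, Matrix.cons_val_zero,
      Matrix.cons_val_one, Matrix.cons_val]
    simp only [N1, N3, Matrix.cons_val, ← hX, ← hY, ← hZ, ← hs]
    field_simp
    linear_combination (-4 * s ^ 3 * Z ^ 2 * X *
      (2 * Y ^ 2 * Z ^ 2 - X ^ 2 * Z ^ 2 - m * X ^ 2 * Y ^ 2)) * e1

end

/-- the real background of the Jacobi instance -/
def rbJ {B : Bg} (R : RealJ m B) : RB B (kerR R) where
  m1 := 1 - m
  e := (4 * KK m) ^ 2 * (1 - m) / (4 * Real.pi ^ 2)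
  V := VJ m
  F := GW m
  tau := tauJ m
  cc := ccJ m
  e_pos := by
    have h2 := KK_pos R.m_pos.le R.m_lt
    have h3 : 0 < 1 - m := by linarith [R.m_lt]
    have := Real.pi_pos
    positivity
  anV i := by
    rw [R.h_eq]
    exact VJ_an R.m_pos R.m_lt i
  perV i x _ := VJ_per R.m_pos R.m_lt i x
  reV i x _ := VJ_conj R.m_pos R.m_lt i x
  Q1 x hx := by
    rw [R.h_eq] at hx
    have h2 := XY_rel R.m_pos R.m_lt hx
    show XJ m x * XJ m x + YJ m x * YJ m x = 1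
    rw [← h2]
    ring
  E0 x hx := by
    rw [R.h_eq] at hx
    have h2 := XY_rel R.m_pos R.m_lt hx
    have h3 := XZ_rel R.m_pos R.m_lt hx
    show ((1 - m : ℝ) : ℂ) * (XJ m x * XJ m x) + YJ m x * YJ m x - ZJ m x * ZJ m x = 0
    push_cast
    linear_combination h2 - h3
  kerC j x _ := by
    show -(1 / 2) * (XJ m x ^ 2 * KR m j x) = -(1 / 2) * (XJ m x * XJ m x * fR j (fun i => VJ m i x))
    have h2 : KR m j x = fR j (fun i => VJ m i x) := by
      fin_cases j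
      · show XJ m x ^ 2 = XJ m x * XJ m x
        ring
      · rfl
      · rfl
      · rfl
    rw [h2]
    ring
  kerA j x hx := by
    rw [R.h_eq] at hx
    exact kerA_J R.m_pos R.m_lt hx j
  kerR j x _ := by
    show KR m j x = fR j (fun i => VJ m i x)
    fin_cases j
    · show XJ m x ^ 2 = XJ m x * XJ m x
      ring
    · rfl
    · rfl
    · rfl
  F_ph := R.F_ph
  tau_ph := R.tau_ph
  cc_ne := R.cc_ne
  tau_sq := R.tau_sq
  law := R.law

/-- the real background exists -/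
theorem exists_rbJ (m : ℝ) (h0 : 0 < m) (h1 : m < 1) :
    ∃ (B : Bg) (_ : RealJ m B) (D : KerD B) (R : RB B D), B.h = hJ m ∧ R.m1 = 1 - m ∧
      R.e = (4 * KK m) ^ 2 * (1 - m) / (4 * Real.pi ^ 2) ∧ R.V = VJ m ∧ R.F = GW m ∧
      R.tau = tauJ m ∧ R.cc = ccJ m := by
  obtain ⟨B, hB⟩ := exists_BgJ h0 h1
  exact ⟨B, hB, kerR hB, rbJ hB, hB.h_eq, rfl, rfl, rfl, rfl, rfl, rfl⟩

end Pool.Agent.MP_ae5b4e_an_LOC
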