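import Pool.Agent.Lib.MP_ae5b4e_an_LOC.RealK
import Pool.Agent.Lib.MP_ae5b4e_an_LOC.Wrp

/-!
# LOC: the integrable background over the whole range of rotation numbers of `Bg`
-/

set_option autoImplicit false

noncomputable section

namespace Pool.Agent.MP_ae5b4e_an_LOC

open Set Filter Topology
open Pool.Agent.MP_ae5b4e_an_hopf (L1)

variable {m : ℝ} {B : Bg}

namespace RealJ

lemma exists_eps0 (R : RealJ m B) {w : ℝ} (hw : w ∈ Ioo 0 B.r) :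
    ∃ ε0 ∈ Ioo (0:ℝ) 1, w ∈ Ioo 0 (wE m ε0) := by
  have h1 : 0 < (w + B.r) / 2 := by linarith [hw.1, hw.2]
  have h2 : (w + B.r) / 2 < B.r := by linarith [hw.2]
  refine ⟨_, R.eps_mem _ h1 h2, ?_⟩
  rw [R.wE_eps _ h1 h2]
  exact ⟨hw.1, by linarith [hw.2]⟩

/-- the integrable background -/
theorem ib (R : RealJ m B) {M : Matrix (Fin 3) (Fin 3) ℝ} (hM : M.det < 0) :
    IB (PM m M) B.r (GW m) where
  curve := curve_PM M R.m_pos.le R.m_lt hM
  cont := by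
    rintro z ⟨hw, -⟩
    obtain ⟨ε0, hε, h2⟩ := R.exists_eps0 hw
    have k := (IB_PM R.m_pos.le R.m_lt hM hε).cont
    exact (k.continuousAt ((isOpen_Ioo.prod isOpen_univ).mem_nhds
      ⟨h2, trivial⟩)).continuousWithinAt
  gt w hw t := by
    obtain ⟨ε0, hε, h2⟩ := R.exists_eps0 hw
    exact (IB_PM R.m_pos.le R.m_lt hM hε).gt w h2 t
  lt w hw t := by
    obtain ⟨ε0, hε, h2⟩ := R.exists_eps0 hw
    exact (IB_PM R.m_pos.le R.m_lt hM hε).lt w h2 t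
  per w hw t := by
    obtain ⟨ε0, hε, h2⟩ := R.exists_eps0 hw
    exact (IB_PM R.m_pos.le R.m_lt hM hε).per w h2 t
  mono_w t a ha b hb hab := by
    obtain ⟨ε0, hε, h2⟩ := R.exists_eps0 hb
    exact (IB_PM R.m_pos.le R.m_lt hM hε).mono_w t ⟨ha.1, hab.trans h2.2⟩ h2 hab
  mono_t w hw := by
    obtain ⟨ε0, hε, h2⟩ := R.exists_eps0 hw
    exact (IB_PM R.m_pos.le R.m_lt hM hε).mono_t w h2
  law w hw t := by
    obtain ⟨ε0, hε, h2⟩ := R.exists_eps0 hw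
    exact (IB_PM R.m_pos.le R.m_lt hM hε).law w h2 t
  rot p q hq hw t := by
    obtain ⟨ε0, hε, h2⟩ := R.exists_eps0 hw
    exact (IB_PM R.m_pos.le R.m_lt hM hε).rot p q hq h2 t

/-- the value of `L1` on the leaf -/
theorem L1_GW (R : RealJ m B) {M : Matrix (Fin 3) (Fin 3) ℝ} (hM : M.det < 0) (om y : ℝ) :
    L1 (PM m M) y (GW m om y) = -VV m (epsW m om) y := by
  rw [L1_P0J R.m_pos.le R.m_lt hM]
  exact (GG_spec R.m_pos.le R.m_lt _ y).2.2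

theorem neg (R : RealJ m B) {M : Matrix (Fin 3) (Fin 3) ℝ} (hM : M.det < 0) :
    ∀ om ∈ Ioo 0 B.r, ∀ y, L1 (PM m M) y (GW m om y) < 0 := by
  intro om hom y
  rw [R.L1_GW hM]
  exact neg_neg_of_pos (VV_pos R.m_pos.le R.m_lt (R.eps_mem om hom.1 hom.2) y)

theorem tau (R : RealJ m B) {M : Matrix (Fin 3) (Fin 3) ℝ} (hM : M.det < 0) :
    ∀ om ∈ Ioo 0 B.r, ∀ y, tauJ m om y = tau0 (PM m M) (GW m om) y := by
  intro om _ y
  unfold tau0 tauJ
  rw [R.L1_GW hM, neg_div_neg_eq]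

end RealJ

end Pool.Agent.MP_ae5b4e_an_LOC
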