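import Mathlib

/-!
# MP_ae5b4e_an, project LOC: forms, frame, kernel elements

Normal form of the pencil: `E = m X ^ 2 + Y ^ 2 - Z ^ 2`, `Q = X ^ 2 + Y ^ 2`, `m ≠ 1`.  The twelve
parameters are the coefficients `c`, `a`, `b` of the quartic form `X ^ 2 R_c + Q R_a + E R_b`,
`R_c = c_0 X ^ 2 + c_1 X Y + c_2 X Z + c_3 Y Z`; `xi` is the infinitesimal frame which produces
`Q R_a + E R_b` modulo the forms of the pencil.
-/

noncomputable section

namespace Pool.Agent.MP_ae5b4e_an_LOC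

open Set Filter Topology MeasureTheory intervalIntegral

/-- vectors of `ℝ³` -/
abbrev V3 := Fin 3 → ℝ

/-- parameters -/
abbrev P12 := Fin 12 → ℝ

/-- the form of the curve -/
def Ef (m : ℝ) (V : V3) : ℝ := m * V 0 ^ 2 + V 1 ^ 2 - V 2 ^ 2

/-- twice the polarization of `Ef`: the coefficient of `s` in `Ef (V + s W)` -/
def Eb (m : ℝ) (V W : V3) : ℝ := 2 * (m * (V 0 * W 0) + V 1 * W 1 - V 2 * W 2)

/-- the second form of the pencil -/
def Qf (V : V3) : ℝ := V 0 ^ 2 + V 1 ^ 2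

def Qb (V W : V3) : ℝ := 2 * (V 0 * W 0 + V 1 * W 1)

/-- four quadratic forms -/
def Rf (c : Fin 4 → ℝ) (V : V3) : ℝ :=
  c 0 * V 0 ^ 2 + c 1 * (V 0 * V 1) + c 2 * (V 0 * V 2) + c 3 * (V 1 * V 2)

def Rb (c : Fin 4 → ℝ) (V W : V3) : ℝ :=
  2 * (c 0 * (V 0 * W 0)) + c 1 * (V 0 * W 1 + V 1 * W 0) + c 2 * (V 0 * W 2 + V 2 * W 0) +
    c 3 * (V 1 * W 2 + V 2 * W 1)

/-- the quartic form -/
def Gf (c : Fin 4 → ℝ) (V : V3) : ℝ := V 0 ^ 2 * Rf c V

/-- the coefficients of `Gf c (V + s W)` -/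
def G0 (c : Fin 4 → ℝ) (V _W : V3) : ℝ := V 0 ^ 2 * Rf c V

def G1 (c : Fin 4 → ℝ) (V W : V3) : ℝ := V 0 ^ 2 * Rb c V W + 2 * (V 0 * W 0) * Rf c V

def G2 (c : Fin 4 → ℝ) (V W : V3) : ℝ :=
  V 0 ^ 2 * Rf c W + 2 * (V 0 * W 0) * Rb c V W + W 0 ^ 2 * Rf c V

def G3 (c : Fin 4 → ℝ) (V W : V3) : ℝ := 2 * (V 0 * W 0) * Rf c W + W 0 ^ 2 * Rb c V W

def G4 (c : Fin 4 → ℝ) (_V W : V3) : ℝ := W 0 ^ 2 * Rf c W

lemma Ef_line (m s : ℝ) (V W : V3) :
    Ef m (V + s • W) = Ef m V + Eb m V W * s + Ef m W * s ^ 2 := by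
  simp only [Ef, Eb, Pi.add_apply, Pi.smul_apply, smul_eq_mul]; ring

lemma Qf_line (s : ℝ) (V W : V3) : Qf (V + s • W) = Qf V + Qb V W * s + Qf W * s ^ 2 := by
  simp only [Qf, Qb, Pi.add_apply, Pi.smul_apply, smul_eq_mul]; ring

lemma Rf_line (c : Fin 4 → ℝ) (s : ℝ) (V W : V3) :
    Rf c (V + s • W) = Rf c V + Rb c V W * s + Rf c W * s ^ 2 := by
  simp only [Rf, Rb, Pi.add_apply, Pi.smul_apply, smul_eq_mul]; ring

lemma Gf_line (c : Fin 4 → ℝ) (s : ℝ) (V W : V3) :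
    Gf c (V + s • W) =
      G0 c V W + G1 c V W * s + G2 c V W * s ^ 2 + G3 c V W * s ^ 3 + G4 c V W * s ^ 4 := by
  simp only [Gf, G0, G1, G2, G3, G4, Rf, Rb, Pi.add_apply, Pi.smul_apply, smul_eq_mul]; ring

/-- the three groups of parameters -/
def pc (p : P12) : Fin 4 → ℝ := ![p 0, p 1, p 2, p 3]

def pa (p : P12) : Fin 4 → ℝ := ![p 4, p 5, p 6, p 7]

def pb (p : P12) : Fin 4 → ℝ := ![p 8, p 9, p 10, p 11]

/-- the infinitesimal frame -/
def xi00 (m : ℝ) (p : P12) : ℝ := (p 4 + p 8 * (2 - m)) / (6 * (m - 1))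

def xi01 (m : ℝ) (p : P12) : ℝ := (p 5 + p 9) / (2 * (m - 1))

def xi (m : ℝ) (p : P12) : Matrix (Fin 3) (Fin 3) ℝ :=
  !![xi00 m p, xi01 m p, -(p 10) / 2;
    -(p 9) / 2 - xi01 m p, xi00 m p + p 8 / 2, -(p 11) / 2;
    m * (-(p 10) / 2) - p 6 / 2, -(p 11) / 2 - p 7 / 2, -2 * xi00 m p - p 8 / 2]

/-- the action of the frame `1 + xi` -/
def act (m : ℝ) (p : P12) (V : V3) : V3 := V + (xi m p).mulVec V

lemma act_apply0 (m : ℝ) (p : P12) (V : V3) : act m p V 0 =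
    V 0 + (xi00 m p * V 0 + xi01 m p * V 1 + -(p 10) / 2 * V 2) := by
  simp [act, xi, dotProduct, Fin.sum_univ_three]

lemma act_apply1 (m : ℝ) (p : P12) (V : V3) : act m p V 1 =
    V 1 + ((-(p 9) / 2 - xi01 m p) * V 0 + (xi00 m p + p 8 / 2) * V 1 + -(p 11) / 2 * V 2) := by
  simp [act, xi, dotProduct, Fin.sum_univ_three]

lemma act_apply2 (m : ℝ) (p : P12) (V : V3) : act m p V 2 =
    V 2 + ((m * (-(p 10) / 2) - p 6 / 2) * V 0 + (-(p 11) / 2 - p 7 / 2) * V 1 +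
      (-2 * xi00 m p - p 8 / 2) * V 2) := by
  simp [act, xi, dotProduct, Fin.sum_univ_three]

/-- the first order change of `Ef` -/
lemma Eb_xi {m : ℝ} (hm : m ≠ 1) (p : P12) (V : V3) : Eb m V ((xi m p).mulVec V) =
    Rf (pa p) V + (2 * (xi00 m p + p 8 / 2) - 2 * (-2 * xi00 m p - p 8 / 2)) * Qf V +
      2 * (-2 * xi00 m p - p 8 / 2) * Ef m V := by
  have h1 : m - 1 ≠ 0 := sub_ne_zero.2 hm
  simp only [Eb, Ef, Qf, Rf, pa, xi, Matrix.mulVec, dotProduct, Fin.sum_univ_three, xi00, xi01]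
  simp
  field_simp
  ring

/-- the first order change of `Qf` -/
lemma Qb_xi {m : ℝ} (hm : m ≠ 1) (p : P12) (V : V3) : Qb V ((xi m p).mulVec V) =
    -(Rf (pb p) V) + 2 * (xi00 m p + p 8 / 2) * Qf V := by
  have h1 : m - 1 ≠ 0 := sub_ne_zero.2 hm
  simp only [Qb, Qf, Rf, pb, xi, Matrix.mulVec, dotProduct, Fin.sum_univ_three, xi00, xi01]
  simp
  field_simp
  ring

/-- the kernel element of the quartic form `X ^ 2 R_c + Q R_a + E R_b` -/
def f1 (p : P12) (V W : V3) : ℝ := G1 (pc p) V W + Rb (pa p) V W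

def f3 (m : ℝ) (p : P12) (V W : V3) : ℝ :=
  G3 (pc p) V W + Qf W * Rb (pa p) V W + Ef m W * Rb (pb p) V W

/-- `f1`, `f3` are coefficients of the quartic form on the tangent line -/
lemma f_line {m : ℝ} (p : P12) (s : ℝ) {V W : V3} (hE0 : Ef m V = 0) (hE1 : Eb m V W = 0)
    (hQ0 : Qf V = 1) (hQ1 : Qb V W = 0) :
    Gf (pc p) (V + s • W) + Qf (V + s • W) * Rf (pa p) (V + s • W) +
      Ef m (V + s • W) * Rf (pb p) (V + s • W) =
    (G0 (pc p) V W + Rf (pa p) V) + f1 p V W * s +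
      (G2 (pc p) V W + Rf (pa p) W + Qf W * Rf (pa p) V + Ef m W * Rf (pb p) V) * s ^ 2 +
      f3 m p V W * s ^ 3 +
      (G4 (pc p) V W + Qf W * Rf (pa p) W + Ef m W * Rf (pb p) W) * s ^ 4 := by
  rw [Gf_line, Qf_line, Rf_line, Ef_line, Rf_line, hE0, hE1, hQ0, hQ1]
  simp only [f1, f3]
  ring

lemma const_of {k : ℝ} {g g' : ℝ → ℝ} (hg : ∀ x, HasDerivAt g (k * g' x) x)
    (hz : ∀ x ∈ Icc (0:ℝ) 1, g' x = 0) : ∀ x ∈ Icc (0:ℝ) 1, g x = g 0 := by
  refine constant_of_has_deriv_right_zero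
    (fun x _ => (hg x).continuousAt.continuousWithinAt) fun x hx => ?_
  have h1 := hg x
  rw [hz x (Ico_subset_Icc_self hx), mul_zero] at h1
  exact h1.hasDerivWithinAt

/-- The background curve `V` (in the normal form) and its scaled derivative `W`. -/
structure BC (m e k : ℝ) (V W : ℝ → V3) : Prop where
  m0 : 0 < m
  m1 : m < 1
  e0 : e ≠ 0
  k0 : k ≠ 0
  cV : Continuous V
  cW : Continuous W
  der : ∀ x, HasDerivAt V (k • W x) x
  E0 : ∀ x, Ef m (V x) = 0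
  E2 : ∀ x, Ef m (W x) = e
  Q0 : ∀ x, Qf (V x) = 1
  pos : ∀ x, 0 < V x 2
  surj : ∀ X Y : ℝ, X ^ 2 + Y ^ 2 = 1 → ∃ x ∈ Icc (0:ℝ) 1, V x 0 = X ∧ V x 1 = Y

namespace BC

variable {m e k : ℝ} {V W : ℝ → V3} (h : BC m e k V W)
include h

lemma hd (x : ℝ) (i : Fin 3) : HasDerivAt (fun x => V x i) (k * W x i) x :=
  (hasDerivAt_pi.1 (h.der x) i)

lemma dE (x : ℝ) : HasDerivAt (fun x => Ef m (V x)) (k * Eb m (V x) (W x)) x := by
  refine (((((h.hd x 0).pow 2).const_mul m).add ((h.hd x 1).pow 2)).sub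
    ((h.hd x 2).pow 2)).congr_deriv ?_
  simp only [Eb]
  ring

lemma dQ (x : ℝ) : HasDerivAt (fun x => Qf (V x)) (k * Qb (V x) (W x)) x := by
  refine (((h.hd x 0).pow 2).add ((h.hd x 1).pow 2)).congr_deriv ?_
  simp only [Qb]
  ring

lemma E1 (x : ℝ) : Eb m (V x) (W x) = 0 := by
  have h1 := h.dE x
  have h2 : (fun x => Ef m (V x)) = fun _ => 0 := funext h.E0
  rw [h2] at h1
  have h3 := (hasDerivAt_const x (0:ℝ)).unique h1
  exact (mul_eq_zero.1 h3.symm).resolve_left h.k0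

lemma Q1 (x : ℝ) : Qb (V x) (W x) = 0 := by
  have h1 := h.dQ x
  have h2 : (fun x => Qf (V x)) = fun _ => 1 := funext h.Q0
  rw [h2] at h1
  have h3 := (hasDerivAt_const x (1:ℝ)).unique h1
  exact (mul_eq_zero.1 h3.symm).resolve_left h.k0

lemma dR (c : Fin 4 → ℝ) (x : ℝ) :
    HasDerivAt (fun x => Rf c (V x)) (k * Rb c (V x) (W x)) x := by
  refine ((((((h.hd x 0).pow 2).const_mul (c 0)).add
    (((h.hd x 0).mul (h.hd x 1)).const_mul (c 1))).add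
    (((h.hd x 0).mul (h.hd x 2)).const_mul (c 2))).add
    (((h.hd x 1).mul (h.hd x 2)).const_mul (c 3))).congr_deriv ?_
  simp only [Rb]
  ring

lemma dG (c : Fin 4 → ℝ) (x : ℝ) :
    HasDerivAt (fun x => Gf c (V x)) (k * G1 c (V x) (W x)) x := by
  refine (((h.hd x 0).pow 2).mul (h.dR c x)).congr_deriv ?_
  simp only [G1, Rf, Pi.pow_apply]
  ring

/-- a point of the curve -/
lemma pt (c : Fin 4 → ℝ) (a : Fin 4 → ℝ) {h0 : ℝ}
    (hc : ∀ x ∈ Icc (0:ℝ) 1, Gf c (V x) + Rf a (V x) = h0) {X Y Z : ℝ} (hXY : X ^ 2 + Y ^ 2 = 1)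
    (hZ : 0 ≤ Z) (hZ2 : Z ^ 2 = m * X ^ 2 + Y ^ 2) :
    X ^ 2 * (c 0 * X ^ 2 + c 1 * (X * Y) + c 2 * (X * Z) + c 3 * (Y * Z)) +
      (a 0 * X ^ 2 + a 1 * (X * Y) + a 2 * (X * Z) + a 3 * (Y * Z)) = h0 := by
  obtain ⟨x, hx, h1, h2⟩ := h.surj X Y hXY
  have h3 := h.E0 x
  have h4 := h.pos x
  have h5 : V x 2 = Z := by
    unfold Ef at h3
    rw [h1, h2] at h3
    have : V x 2 ^ 2 = Z ^ 2 := by rw [hZ2]; linarith
    rcases sq_eq_sq_iff_eq_or_eq_neg.1 this with h6 | h6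
    · exact h6
    · exfalso
      linarith
  have h6 := hc x hx
  simp only [Gf, Rf, h1, h2, h5] at h6
  exact h6

/-- forms which are constant on the curve vanish -/
lemma const_zero (c a : Fin 4 → ℝ) {h0 : ℝ}
    (hc : ∀ x ∈ Icc (0:ℝ) 1, Gf c (V x) + Rf a (V x) = h0) : c = 0 ∧ a = 0 := by
  have hm := h.m0
  have p1 := h.pt c a hc (X := 0) (Y := 1) (Z := 1) (by norm_num) (by norm_num) (by norm_num)
  have p2 := h.pt c a hc (X := 0) (Y := -1) (Z := 1) (by norm_num) (by norm_num) (by norm_num)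
  have hz1 : (√m) ^ 2 = m * 1 ^ 2 + 0 ^ 2 := by rw [Real.sq_sqrt hm.le]; ring
  have p3 := h.pt c a hc (X := 1) (Y := 0) (Z := √m) (by norm_num) (by positivity) hz1
  have p4 := h.pt c a hc (X := -1) (Y := 0) (Z := √m) (by norm_num) (by positivity)
    (by rw [hz1]; ring)
  set z := √(m * (3 / 5) ^ 2 + (4 / 5) ^ 2) with hz
  have hz2 : z ^ 2 = m * (3 / 5) ^ 2 + (4 / 5) ^ 2 := Real.sq_sqrt (by positivity)
  have hz0 : 0 < z := Real.sqrt_pos.2 (by positivity)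
  have p5 := h.pt c a hc (X := 3 / 5) (Y := 4 / 5) (Z := z) (by norm_num) hz0.le hz2
  have p6 := h.pt c a hc (X := -(3 / 5)) (Y := 4 / 5) (Z := z) (by norm_num) hz0.le
    (by rw [hz2]; ring)
  have p7 := h.pt c a hc (X := 3 / 5) (Y := -(4 / 5)) (Z := z) (by norm_num) hz0.le
    (by rw [hz2]; ring)
  have p8 := h.pt c a hc (X := -(3 / 5)) (Y := -(4 / 5)) (Z := z) (by norm_num) hz0.le
    (by rw [hz2]; ring)
  set w := √(m * (4 / 5) ^ 2 + (3 / 5) ^ 2) with hw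
  have hw2 : w ^ 2 = m * (4 / 5) ^ 2 + (3 / 5) ^ 2 := Real.sq_sqrt (by positivity)
  have hw0 : 0 < w := Real.sqrt_pos.2 (by positivity)
  have p9 := h.pt c a hc (X := 4 / 5) (Y := 3 / 5) (Z := w) (by norm_num) hw0.le hw2
  have hs0 : 0 < √m := Real.sqrt_pos.2 hm
  have hh : h0 = 0 := by linarith
  subst hh
  have ha3 : a 3 = 0 := by linarith
  have e1 : c 0 + a 0 = 0 := by linarith
  have e2 : c 2 + a 2 = 0 := by
    have : (c 2 + a 2) * √m = 0 := by linarith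
    exact (mul_eq_zero.1 this).resolve_right hs0.ne'
  have e3 : 9 / 25 * c 0 + a 0 = 0 := by linarith
  have e4 : 9 / 25 * c 1 + a 1 = 0 := by linarith
  have e5 : 9 / 25 * c 2 + a 2 = 0 := by
    have : (9 / 25 * c 2 + a 2) * z = 0 := by linarith
    exact (mul_eq_zero.1 this).resolve_right hz0.ne'
  have e6 : 9 / 25 * c 3 + a 3 = 0 := by
    have : (9 / 25 * c 3 + a 3) * z = 0 := by linarith
    exact (mul_eq_zero.1 this).resolve_right hz0.ne'
  have c0 : c 0 = 0 := by linarith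
  have a0 : a 0 = 0 := by linarith
  have c2 : c 2 = 0 := by linarith
  have a2 : a 2 = 0 := by linarith
  have c3 : c 3 = 0 := by linarith
  rw [c0, a0, c2, a2, c3, ha3] at p9
  have c1 : c 1 = 0 := by linarith
  have a1 : a 1 = 0 := by linarith
  constructor
  · funext i
    fin_cases i
    · exact c0
    · exact c1
    · exact c2
    · exact c3
  · funext i
    fin_cases i
    · exact a0
    · exact a1
    · exact a2
    · exact ha3

/-- The twelve kernel elements are linearly independent. -/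
theorem inj (p : P12) (h1 : ∀ x ∈ Icc (0:ℝ) 1, f1 p (V x) (W x) = 0)
    (h3 : ∀ x ∈ Icc (0:ℝ) 1, f3 m p (V x) (W x) - 2 * Qf (W x) * f1 p (V x) (W x) = 0) :
    p = 0 := by
  have k1 := const_of (k := k) (g := fun x => Gf (pc p) (V x) + Rf (pa p) (V x))
    (g' := fun x => f1 p (V x) (W x)) (fun x => by
      refine ((h.dG (pc p) x).add (h.dR (pa p) x)).congr_deriv ?_
      simp only [f1]
      ring) h1
  obtain ⟨c0, a0⟩ := h.const_zero _ _ k1
  have k2 : ∀ x ∈ Icc (0:ℝ) 1, Rb (pb p) (V x) (W x) = 0 := by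
    intro x hx
    have h4 := h3 x hx
    rw [h1 x hx] at h4
    unfold f3 at h4
    rw [c0, a0, h.E2 x] at h4
    have h5 : e * Rb (pb p) (V x) (W x) = 0 := by
      simp only [G3, Rf, Rb, Pi.zero_apply] at h4
      simp only [Rb]
      linarith
    exact (mul_eq_zero.1 h5).resolve_left h.e0
  have k3 := const_of (k := k) (fun x => h.dR (pb p) x) k2
  obtain ⟨-, b0⟩ := h.const_zero 0 (pb p) (h0 := Rf (pb p) (V 0)) (fun x hx => by
    rw [k3 x hx]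
    simp [Gf, Rf])
  funext i
  have c' := congrFun c0
  have a' := congrFun a0
  have b' := congrFun b0
  fin_cases i
  · exact c' 0
  · exact c' 1
  · exact c' 2
  · exact c' 3
  · exact a' 0
  · exact a' 1
  · exact a' 2
  · exact a' 3
  · exact b' 0
  · exact b' 1
  · exact b' 2
  · exact b' 3

end BC

end Pool.Agent.MP_ae5b4e_an_LOC
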