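import Mathlib
import Pool.Agent.Lib.MP_ae5b4e_an_NC.Mnb

/-!
# MP_ae5b4e_an, project LOC: the numbers of a jet and the exact identity

`Q1 (P + τ P') = a0 + a1 τ + a2 τ²`, `Q2 (P + τ P') = al0 + al1 τ + al2 τ²`,
`G (P + τ P') = G0 + G1 τ + .. + G4 τ⁴`, `Psi = Q1 / Q2 + G / Q2²`.
With `T = P' - ka P`, `Q2 (P, T) = 0`: `b1, b2`, `g0 .. g4` are the coefficients of `Q1`, `G` on
`P + s T`, and `la = Q2 (T) / Q2 (P)`.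
-/

noncomputable section

namespace Pool.Agent.MP_ae5b4e_an_LOC

open Real Set Filter Topology
open Pool.Agent.MP_ae5b4e_an_NC

/-- the coefficients of the forms on the tangent line -/
@[ext] structure Nm where
  a0 : ℝ
  a1 : ℝ
  a2 : ℝ
  al0 : ℝ
  al1 : ℝ
  al2 : ℝ
  G0 : ℝ
  G1 : ℝ
  G2 : ℝ
  G3 : ℝ
  G4 : ℝ

namespace Nm

variable (N : Nm)

def ka : ℝ := N.al1 / (2 * N.al0)

def la : ℝ := N.al2 / N.al0 - N.ka ^ 2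

def b1 : ℝ := N.a1 - 2 * (N.ka * N.a0)

def b2 : ℝ := N.a2 - N.ka * N.a1 + N.ka ^ 2 * N.a0

def g0 : ℝ := N.G0

def g1 : ℝ := N.G1 - 4 * (N.ka * N.G0)

def g2 : ℝ := N.G2 - 3 * (N.ka * N.G1) + 6 * (N.ka ^ 2 * N.G0)

def g3 : ℝ := N.G3 - 2 * (N.ka * N.G2) + 3 * (N.ka ^ 2 * N.G1) - 4 * (N.ka ^ 3 * N.G0)

def g4 : ℝ := N.G4 - N.ka * N.G3 + N.ka ^ 2 * N.G2 - N.ka ^ 3 * N.G1 + N.ka ^ 4 * N.G0

/-- the two defects and the other coefficients of `Psi` on the tangent line -/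
def e0 : ℝ := N.b1 / N.al0 + N.g1 / N.al0 ^ 2

def psi2 : ℝ := (N.b2 - N.la * N.a0) / N.al0 + (N.g2 - 2 * (N.la * N.g0)) / N.al0 ^ 2

def G3t : ℝ := (N.g3 - N.la * N.g1) / N.al0 ^ 2

def G4t : ℝ := (N.g4 - N.la * N.g2 + N.la ^ 2 * N.g0) / N.al0 ^ 2

def e1 : ℝ := N.G3t - N.la * N.e0 - 2 * (N.ka * N.psi2) + N.ka ^ 2 * N.e0

/-- the two source functions -/
def y1 : ℝ := N.ka ^ 3 * N.psi2

def y2 : ℝ := N.ka * N.G4t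

/-- the value of `Psi` at `P + τ P'` -/
def val (τ : ℝ) : ℝ := (N.a0 + N.a1 * τ + N.a2 * τ ^ 2) / (N.al0 + N.al1 * τ + N.al2 * τ ^ 2) +
  (N.G0 + N.G1 * τ + N.G2 * τ ^ 2 + N.G3 * τ ^ 3 + N.G4 * τ ^ 4) /
    (N.al0 + N.al1 * τ + N.al2 * τ ^ 2) ^ 2

/-- (K) -/
theorem ka_psi2 : 2 * (N.ka * N.psi2) = N.G3t - N.e1 + (N.ka ^ 2 - N.la) * N.e0 := by
  unfold e1
  ring

theorem al_line (h : N.al0 ≠ 0) (τ : ℝ) : N.al0 + N.al1 * τ + N.al2 * τ ^ 2 =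
    N.al0 * ((1 + N.ka * τ) ^ 2 + N.la * τ ^ 2) := by
  unfold la ka
  field_simp
  ring

theorem D_mul (τ : ℝ) : ((1 + N.ka * τ) ^ 2 + N.la * τ ^ 2) *
    ((1 + N.ka * (-τ)) ^ 2 + N.la * (-τ) ^ 2) = aDD N.ka N.la (τ ^ 2) := by
  unfold aDD
  ring

private theorem val_eq (h : N.al0 ≠ 0) {τ : ℝ} (hD : (1 + N.ka * τ) ^ 2 + N.la * τ ^ 2 ≠ 0) :
    N.val τ * ((1 + N.ka * τ) ^ 2 + N.la * τ ^ 2) ^ 2 =
      ((N.a0 / N.al0) * (1 + N.ka * τ) ^ 2 + (N.e0 - N.g1 / N.al0 ^ 2) * (τ * (1 + N.ka * τ)) +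
        (N.psi2 + N.la * (N.a0 / N.al0) -
          (N.g2 / N.al0 ^ 2 - 2 * (N.la * (N.g0 / N.al0 ^ 2)))) * τ ^ 2) *
          ((1 + N.ka * τ) ^ 2 + N.la * τ ^ 2) +
      ((N.g0 / N.al0 ^ 2) * (1 + N.ka * τ) ^ 4 + (N.g1 / N.al0 ^ 2) * (τ * (1 + N.ka * τ) ^ 3) +
        (N.g2 / N.al0 ^ 2) * (τ ^ 2 * (1 + N.ka * τ) ^ 2) +
        (N.G3t + N.la * (N.g1 / N.al0 ^ 2)) * (τ ^ 3 * (1 + N.ka * τ)) +
        (N.G4t + N.la * (N.g2 / N.al0 ^ 2) - N.la ^ 2 * (N.g0 / N.al0 ^ 2)) * τ ^ 4) := by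
  have h1 := N.al_line h τ
  obtain ⟨D, hDe⟩ : ∃ D, D = (1 + N.ka * τ) ^ 2 + N.la * τ ^ 2 := ⟨_, rfl⟩
  rw [← hDe] at hD h1 ⊢
  have e1 : N.e0 - N.g1 / N.al0 ^ 2 = N.b1 / N.al0 := by
    unfold e0
    ring
  have e2 : N.psi2 + N.la * (N.a0 / N.al0) -
      (N.g2 / N.al0 ^ 2 - 2 * (N.la * (N.g0 / N.al0 ^ 2))) = N.b2 / N.al0 := by
    unfold psi2
    ring
  have e3 : N.G3t + N.la * (N.g1 / N.al0 ^ 2) = N.g3 / N.al0 ^ 2 := by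
    unfold G3t
    ring
  have e4 : N.G4t + N.la * (N.g2 / N.al0 ^ 2) - N.la ^ 2 * (N.g0 / N.al0 ^ 2) =
      N.g4 / N.al0 ^ 2 := by
    unfold G4t
    ring
  rw [e1, e2, e3, e4]
  have f1 : N.a0 + N.a1 * τ + N.a2 * τ ^ 2 = N.a0 * (1 + N.ka * τ) ^ 2 +
      N.b1 * (τ * (1 + N.ka * τ)) + N.b2 * τ ^ 2 := by
    unfold b1 b2
    ring
  have f2 : N.G0 + N.G1 * τ + N.G2 * τ ^ 2 + N.G3 * τ ^ 3 + N.G4 * τ ^ 4 =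
      N.g0 * (1 + N.ka * τ) ^ 4 + N.g1 * (τ * (1 + N.ka * τ) ^ 3) +
        N.g2 * (τ ^ 2 * (1 + N.ka * τ) ^ 2) + N.g3 * (τ ^ 3 * (1 + N.ka * τ)) +
        N.g4 * τ ^ 4 := by
    unfold g0 g1 g2 g3 g4
    ring
  unfold val
  rw [h1, f1, f2]
  field_simp

/-- the exact identity -/
theorem od_eq (h : N.al0 ≠ 0) {τ : ℝ} (hD : aDD N.ka N.la (τ ^ 2) ≠ 0) :
    N.val τ - N.val (-τ) =
      2 * τ * PhiA N.ka N.la N.e0 N.e1 N.y1 N.y2 (τ ^ 2) := by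
  have h0 := N.D_mul τ
  have h1 : (1 + N.ka * τ) ^ 2 + N.la * τ ^ 2 ≠ 0 := fun h => hD (by rw [← h0, h, zero_mul])
  have h2 : (1 + N.ka * (-τ)) ^ 2 + N.la * (-τ) ^ 2 ≠ 0 := fun h =>
    hD (by rw [← h0, h, mul_zero])
  have v1 := N.val_eq h h1
  have v2 := N.val_eq h h2
  have hG3 : N.G3t = N.e1 + N.la * N.e0 + 2 * (N.ka * N.psi2) - N.ka ^ 2 * N.e0 := by
    unfold e1
    ring
  unfold PhiA an0 an1
  rw [← h0]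
  rw [← mul_div_assoc, eq_div_iff (pow_ne_zero 2 (mul_ne_zero h1 h2))]
  unfold y1 y2
  rw [hG3] at v1 v2
  generalize N.val τ = V1 at *
  generalize N.val (-τ) = V2 at *
  generalize N.a0 / N.al0 = A at *
  generalize N.g0 / N.al0 ^ 2 = B0 at *
  generalize N.g1 / N.al0 ^ 2 = B1 at *
  generalize N.g2 / N.al0 ^ 2 = B2 at *
  generalize N.ka = k at *
  generalize N.la = l at *
  linear_combination ((1 + k * (-τ)) ^ 2 + l * (-τ) ^ 2) ^ 2 * v1 -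
    ((1 + k * τ) ^ 2 + l * τ ^ 2) ^ 2 * v2

end Nm

end Pool.Agent.MP_ae5b4e_an_LOC
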