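import Mathlib
import Pool.Agent.Lib.MP_ae5b4e_an_NC.WOc
import Pool.Agent.Lib.MP_ae5b4e_an_LOC.Nm

/-!
# MP_ae5b4e_an, project LOC: weighted bounds of the jet numbers near a pencil
-/

noncomputable section

namespace Pool.Agent.MP_ae5b4e_an_LOC

open Real Set Filter Topology
open Pool.Agent.MP_ae5b4e_an_RG Pool.Agent.MP_ae5b4e_an_NC

/-- reference values: the pencil -/
structure Ref where
  /-- `Q1 (P')` -/
  e : ℝ
  /-- `Q2 (P')` -/
  la : ℝ → ℝ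

/-- a family of curves near a pencil: bounds of the coefficients of the forms on `P + τ P'` -/
structure Nf {ι : Type*} (ρ : ℝ) (R : Ref) (ε c : ι → ℝ) (N : ι → ℝ → Nm)
    (h0 h1 h2 h3 h4 : ι → ℝ → ℝ) : Prop where
  rho : 0 ≤ ρ
  e : R.e ≠ 0
  nn : ∀ i, 0 ≤ c i
  cε : ∀ i, c i ≤ ε i
  le : ∀ i, ε i ≤ 1
  la0 : WOR ρ (fun _ : ι => (1:ℝ)) (fun _ => R.la)
  a0 : WOR ρ ε (fun i x => (N i x).a0)
  a1 : WOR ρ ε (fun i x => (N i x).a1)
  a2 : WOR ρ ε (fun i x => (N i x).a2 - R.e)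
  al0 : WOR ρ ε (fun i x => (N i x).al0 - 1)
  al1 : WOR ρ ε (fun i x => (N i x).al1)
  al2 : WOR ρ ε (fun i x => (N i x).al2 - R.la x)
  G0 : WOR ρ (fun i => ε i * c i) (fun i x => (N i x).G0 - h0 i x)
  G1 : WOR ρ (fun i => ε i * c i) (fun i x => (N i x).G1 - h1 i x)
  G2 : WOR ρ (fun i => ε i * c i) (fun i x => (N i x).G2 - h2 i x)
  G3 : WOR ρ (fun i => ε i * c i) (fun i x => (N i x).G3 - h3 i x)
  G4 : WOR ρ (fun i => ε i * c i) (fun i x => (N i x).G4 - h4 i x)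
  k0 : WOR ρ c h0
  k1 : WOR ρ c h1
  k2 : WOR ρ c h2
  k3 : WOR ρ c h3
  k4 : WOR ρ c h4
  al_ne : ∀ i x, (N i x).al0 ≠ 0
  inv : WOR ρ ε (fun i x => ((N i x).al0)⁻¹ - 1)

namespace Nf

variable {ι : Type*} {ρ : ℝ} {R : Ref} {ε c : ι → ℝ} {N : ι → ℝ → Nm}
  {h0 h1 h2 h3 h4 : ι → ℝ → ℝ} {u v : ι → ℝ → ℝ}

theorem nnε (H : Nf ρ R ε c N h0 h1 h2 h3 h4) (i : ι) : 0 ≤ ε i := (H.nn i).trans (H.cε i)

theorem to1 (H : Nf ρ R ε c N h0 h1 h2 h3 h4) (h : WOR ρ ε u) :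
    WOR ρ (fun _ => (1:ℝ)) u := h.le1 H.le

theorem toε (H : Nf ρ R ε c N h0 h1 h2 h3 h4) (h : WOR ρ c u) : WOR ρ ε u := h.le1 H.cε

theorem c1 (H : Nf ρ R ε c N h0 h1 h2 h3 h4) (h : WOR ρ c u) : WOR ρ (fun _ => (1:ℝ)) u :=
  H.to1 (H.toε h)

theorem εc (H : Nf ρ R ε c N h0 h1 h2 h3 h4) (h : WOR ρ (fun i => ε i * c i) u) :
    WOR ρ c u := h.le1 fun i => by nlinarith [H.le i, H.nn i]

theorem cst (H : Nf ρ R ε c N h0 h1 h2 h3 h4) (a : ℝ) :
    WOR ρ (fun _ : ι => (1:ℝ)) (fun _ _ => a) := by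
  have := H.nn
  exact ((WOR.one ρ).cmul a).congr fun i x => by ring

/-- product of a function of size `ε` and one of size `c` -/
theorem mc (H : Nf ρ R ε c N h0 h1 h2 h3 h4) (h : WOR ρ ε u) (h' : WOR ρ c v) :
    WOR ρ (fun i => ε i * c i) (fun i x => u i x * v i x) := h.mul H.rho h'

theorem invb (H : Nf ρ R ε c N h0 h1 h2 h3 h4) :
    WOR ρ (fun _ => (1:ℝ)) (fun i x => ((N i x).al0)⁻¹) :=
  ((H.to1 H.inv).add (WOR.one ρ)).congr fun i x => by ring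

theorem inv2 (H : Nf ρ R ε c N h0 h1 h2 h3 h4) :
    WOR ρ ε (fun i x => ((N i x).al0)⁻¹ * ((N i x).al0)⁻¹ - 1) :=
  ((H.inv.mulr H.rho H.invb).add H.inv).congr fun i x => by ring

theorem inv2b (H : Nf ρ R ε c N h0 h1 h2 h3 h4) :
    WOR ρ (fun _ => (1:ℝ)) (fun i x => ((N i x).al0)⁻¹ * ((N i x).al0)⁻¹) :=
  ((H.to1 H.inv2).add (WOR.one ρ)).congr fun i x => by ring

theorem ka (H : Nf ρ R ε c N h0 h1 h2 h3 h4) : WOR ρ ε (fun i x => (N i x).ka) := by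
  refine ((H.al1.mulr H.rho H.invb).cmul (1 / 2)).congr fun i x => ?_
  unfold Nm.ka
  have := H.al_ne i x
  field_simp

theorem kab (H : Nf ρ R ε c N h0 h1 h2 h3 h4) :
    WOR ρ (fun _ => (1:ℝ)) (fun i x => (N i x).ka) := H.to1 H.ka

theorem la (H : Nf ρ R ε c N h0 h1 h2 h3 h4) : WOR ρ ε (fun i x => (N i x).la - R.la x) := by
  have h1 := H.al2.mulr H.rho H.invb
  have h2 := H.la0.mull H.rho H.inv
  have h3 := H.ka.mulr H.rho H.kab
  refine ((h1.add h2).sub h3).congr fun i x => ?_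
  unfold Nm.la
  have := H.al_ne i x
  field_simp
  ring

theorem lab (H : Nf ρ R ε c N h0 h1 h2 h3 h4) :
    WOR ρ (fun _ => (1:ℝ)) (fun i x => (N i x).la) :=
  ((H.to1 H.la).add H.la0).congr fun i x => by ring

theorem b1 (H : Nf ρ R ε c N h0 h1 h2 h3 h4) : WOR ρ ε (fun i x => (N i x).b1) :=
  H.a1.sub ((H.kab.mull H.rho H.a0).cmul 2)

theorem b2 (H : Nf ρ R ε c N h0 h1 h2 h3 h4) : WOR ρ ε (fun i x => (N i x).b2 - R.e) := by
  have h1 := H.kab.mull H.rho H.a1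
  have h2 := (H.kab.mulr H.rho H.kab).mull H.rho H.a0
  refine ((H.a2.sub h1).add h2).congr fun i x => ?_
  unfold Nm.b2
  ring

theorem G0b (H : Nf ρ R ε c N h0 h1 h2 h3 h4) : WOR ρ c (fun i x => (N i x).G0) :=
  ((H.εc H.G0).add H.k0).congr fun i x => by ring

theorem G1b (H : Nf ρ R ε c N h0 h1 h2 h3 h4) : WOR ρ c (fun i x => (N i x).G1) :=
  ((H.εc H.G1).add H.k1).congr fun i x => by ring

theorem G2b (H : Nf ρ R ε c N h0 h1 h2 h3 h4) : WOR ρ c (fun i x => (N i x).G2) :=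
  ((H.εc H.G2).add H.k2).congr fun i x => by ring

theorem G3b (H : Nf ρ R ε c N h0 h1 h2 h3 h4) : WOR ρ c (fun i x => (N i x).G3) :=
  ((H.εc H.G3).add H.k3).congr fun i x => by ring

theorem G4b (H : Nf ρ R ε c N h0 h1 h2 h3 h4) : WOR ρ c (fun i x => (N i x).G4) :=
  ((H.εc H.G4).add H.k4).congr fun i x => by ring

theorem g0 (H : Nf ρ R ε c N h0 h1 h2 h3 h4) :
    WOR ρ (fun i => ε i * c i) (fun i x => (N i x).g0 - h0 i x) := H.G0

theorem g1 (H : Nf ρ R ε c N h0 h1 h2 h3 h4) :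
    WOR ρ (fun i => ε i * c i) (fun i x => (N i x).g1 - h1 i x) := by
  refine (H.G1.sub ((H.mc H.ka H.G0b).cmul 4)).congr fun i x => ?_
  unfold Nm.g1
  ring

theorem g2 (H : Nf ρ R ε c N h0 h1 h2 h3 h4) :
    WOR ρ (fun i => ε i * c i) (fun i x => (N i x).g2 - h2 i x) := by
  refine ((H.G2.sub ((H.mc H.ka H.G1b).cmul 3)).add
    ((H.mc H.ka (H.kab.mull H.rho H.G0b)).cmul 6)).congr fun i x => ?_
  unfold Nm.g2
  ring

theorem g3 (H : Nf ρ R ε c N h0 h1 h2 h3 h4) :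
    WOR ρ (fun i => ε i * c i) (fun i x => (N i x).g3 - h3 i x) := by
  refine (((H.G3.sub ((H.mc H.ka H.G2b).cmul 2)).add
    ((H.mc H.ka (H.kab.mull H.rho H.G1b)).cmul 3)).sub
    ((H.mc H.ka (H.kab.mull H.rho (H.kab.mull H.rho H.G0b))).cmul 4)).congr fun i x => ?_
  unfold Nm.g3
  ring

theorem g4 (H : Nf ρ R ε c N h0 h1 h2 h3 h4) :
    WOR ρ (fun i => ε i * c i) (fun i x => (N i x).g4 - h4 i x) := by
  refine ((((H.G4.sub (H.mc H.ka H.G3b)).add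
    (H.mc H.ka (H.kab.mull H.rho H.G2b))).sub
    (H.mc H.ka (H.kab.mull H.rho (H.kab.mull H.rho H.G1b)))).add
    (H.mc H.ka (H.kab.mull H.rho (H.kab.mull H.rho (H.kab.mull H.rho H.G0b))))).congr
    fun i x => ?_
  unfold Nm.g4
  ring

theorem g0b (H : Nf ρ R ε c N h0 h1 h2 h3 h4) : WOR ρ c (fun i x => (N i x).g0) :=
  ((H.εc H.g0).add H.k0).congr fun i x => by ring

theorem g1b (H : Nf ρ R ε c N h0 h1 h2 h3 h4) : WOR ρ c (fun i x => (N i x).g1) :=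
  ((H.εc H.g1).add H.k1).congr fun i x => by ring

theorem g2b (H : Nf ρ R ε c N h0 h1 h2 h3 h4) : WOR ρ c (fun i x => (N i x).g2) :=
  ((H.εc H.g2).add H.k2).congr fun i x => by ring

theorem g3b (H : Nf ρ R ε c N h0 h1 h2 h3 h4) : WOR ρ c (fun i x => (N i x).g3) :=
  ((H.εc H.g3).add H.k3).congr fun i x => by ring

theorem g4b (H : Nf ρ R ε c N h0 h1 h2 h3 h4) : WOR ρ c (fun i x => (N i x).g4) :=
  ((H.εc H.g4).add H.k4).congr fun i x => by ring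

theorem e0 (H : Nf ρ R ε c N h0 h1 h2 h3 h4) : WOR ρ ε (fun i x => (N i x).e0) := by
  refine ((H.b1.mulr H.rho H.invb).add ((H.toε H.g1b).mulr H.rho H.inv2b)).congr fun i x => ?_
  unfold Nm.e0
  have := H.al_ne i x
  field_simp

theorem psi2 (H : Nf ρ R ε c N h0 h1 h2 h3 h4) :
    WOR ρ ε (fun i x => (N i x).psi2 - R.e) := by
  have k1 := H.b2.mulr H.rho H.invb
  have k2 := H.inv.cmul R.e
  have k3 := (H.lab.mull H.rho H.a0).mulr H.rho H.invb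
  have k4 := (H.toε H.g2b).mulr H.rho H.inv2b
  have k5 := ((H.lab.mull H.rho (H.toε H.g0b)).mulr H.rho H.inv2b).cmul 2
  refine ((((k1.add k2).sub k3).add k4).sub k5).congr fun i x => ?_
  unfold Nm.psi2
  have := H.al_ne i x
  field_simp
  ring

theorem psi2b (H : Nf ρ R ε c N h0 h1 h2 h3 h4) :
    WOR ρ (fun _ => (1:ℝ)) (fun i x => (N i x).psi2) :=
  ((H.to1 H.psi2).add (H.cst R.e)).congr fun i x => by ring

/-- the reference value of `G3` -/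
theorem G3t (H : Nf ρ R ε c N h0 h1 h2 h3 h4) :
    WOR ρ (fun i => ε i * c i) (fun i x => (N i x).G3t - (h3 i x - R.la x * h1 i x)) := by
  have k1 := H.g3.mulr H.rho H.inv2b
  have k2 := H.mc H.inv2 H.k3
  have k3 := (H.mc H.la H.g1b).mulr H.rho H.inv2b
  have k4 := (H.la0.mull H.rho H.g1).mulr H.rho H.inv2b
  have k5 := H.mc H.inv2 (H.la0.mull H.rho H.k1)
  refine ((((k1.add k2).sub k3).sub k4).sub k5).congr fun i x => ?_
  unfold Nm.G3t
  have := H.al_ne i x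
  field_simp
  ring

theorem G4t (H : Nf ρ R ε c N h0 h1 h2 h3 h4) :
    WOR ρ (fun i => ε i * c i)
      (fun i x => (N i x).G4t - (h4 i x - R.la x * h2 i x + R.la x ^ 2 * h0 i x)) := by
  have k1 := H.g4.mulr H.rho H.inv2b
  have k2 := H.mc H.inv2 H.k4
  have k3 := (H.mc H.la H.g2b).mulr H.rho H.inv2b
  have k4 := (H.la0.mull H.rho H.g2).mulr H.rho H.inv2b
  have k5 := H.mc H.inv2 (H.la0.mull H.rho H.k2)
  have k6 := (H.mc H.la (H.lab.mull H.rho H.g0b)).mulr H.rho H.inv2b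
  have k7 := (H.mc H.la (H.la0.mull H.rho H.g0b)).mulr H.rho H.inv2b
  have k8 := (H.la0.mull H.rho (H.la0.mull H.rho H.g0)).mulr H.rho H.inv2b
  have k9 := H.mc H.inv2 (H.la0.mull H.rho (H.la0.mull H.rho H.k0))
  refine ((((((((k1.add k2).sub k3).sub k4).sub k5).add k6).add k7).add k8).add k9).congr
    fun i x => ?_
  unfold Nm.G4t
  have := H.al_ne i x
  field_simp
  ring

theorem r3 (H : Nf ρ R ε c N h0 h1 h2 h3 h4) :
    WOR ρ c (fun i x => h3 i x - R.la x * h1 i x) :=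
  H.k3.sub (H.la0.mull H.rho H.k1)

theorem r4 (H : Nf ρ R ε c N h0 h1 h2 h3 h4) :
    WOR ρ c (fun i x => h4 i x - R.la x * h2 i x + R.la x ^ 2 * h0 i x) := by
  refine ((H.k4.sub (H.la0.mull H.rho H.k2)).add
    (H.la0.mull H.rho (H.la0.mull H.rho H.k0))).congr fun i x => by ring

theorem G3tb (H : Nf ρ R ε c N h0 h1 h2 h3 h4) : WOR ρ c (fun i x => (N i x).G3t) :=
  ((H.εc H.G3t).add H.r3).congr fun i x => by ring

theorem G4tb (H : Nf ρ R ε c N h0 h1 h2 h3 h4) : WOR ρ c (fun i x => (N i x).G4t) :=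
  ((H.εc H.G4t).add H.r4).congr fun i x => by ring

theorem e1 (H : Nf ρ R ε c N h0 h1 h2 h3 h4) : WOR ρ ε (fun i x => (N i x).e1) := by
  have k1 := H.lab.mull H.rho H.e0
  have k2 := (H.ka.mulr H.rho H.psi2b).cmul 2
  have k3 := (H.kab.mulr H.rho H.kab).mull H.rho H.e0
  refine ((((H.toε H.G3tb).sub k1).sub k2).add k3).congr fun i x => ?_
  unfold Nm.e1
  ring

/-- (K) -/
theorem ka_of (H : Nf ρ R ε c N h0 h1 h2 h3 h4) {s : ι → ℝ}
    (hs : ∀ i, c i ≤ s i)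
    (hinv : WOR ρ (fun _ => (1:ℝ)) (fun i x => ((N i x).psi2)⁻¹))
    (hp : ∀ i x, (N i x).psi2 ≠ 0)
    (e0s : WOR ρ s (fun i x => (N i x).e0)) (e1s : WOR ρ s (fun i x => (N i x).e1)) :
    WOR ρ s (fun i x => (N i x).ka) := by
  have k2 := ((H.kab.mulr H.rho H.kab).sub H.lab).mull H.rho e0s
  refine (((((H.G3tb.le1 hs).sub e1s).add k2).mulr H.rho hinv).cmul (1 / 2)).congr
    fun i x => ?_
  have := hp i x
  unfold Nm.e1
  field_simp
  ring

/-- (K), second form -/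
theorem ka_ref (H : Nf ρ R ε c N h0 h1 h2 h3 h4) {X : ι → ℝ} (hX : ∀ i, 0 ≤ X i)
    (hinv : WOR ρ ε (fun i x => ((N i x).psi2)⁻¹ - (R.e)⁻¹))
    (hp : ∀ i x, (N i x).psi2 ≠ 0)
    (e0s : WOR ρ X (fun i x => (N i x).e0)) (e1s : WOR ρ X (fun i x => (N i x).e1)) :
    WOR ρ (fun i => ε i * c i + X i)
      (fun i x => (N i x).ka - (h3 i x - R.la x * h1 i x) / (2 * R.e)) := by
  have hec : ∀ i, 0 ≤ ε i * c i := fun i => mul_nonneg (H.nnε i) (H.nn i)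
  have hb : WOR ρ (fun _ => (1:ℝ)) (fun i x => ((N i x).psi2)⁻¹) :=
    ((H.to1 hinv).add (H.cst (R.e)⁻¹)).congr fun i x => by ring
  have k1 := (H.mc hinv H.G3tb).le1 (t := fun i => ε i * c i + X i)
    fun i => by linarith [hX i]
  have k2 := (H.G3t.cmul (R.e)⁻¹).le1 (t := fun i => ε i * c i + X i)
    fun i => by linarith [hX i]
  have k3 := ((((H.kab.mulr H.rho H.kab).sub H.lab).mull H.rho e0s).sub e1s)
  have k4 := (k3.mulr H.rho hb).le1 (t := fun i => ε i * c i + X i)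
    fun i => by linarith [hec i]
  refine (((k1.add k2).add k4).cmul (1 / 2)).congr fun i x => ?_
  have hpx := hp i x
  have h3' : (N i x).ka = (1 / 2) * (((N i x).G3t + (((N i x).ka * (N i x).ka - (N i x).la) *
      (N i x).e0 - (N i x).e1)) * ((N i x).psi2)⁻¹) := by
    have h4 : (N i x).G3t + (((N i x).ka * (N i x).ka - (N i x).la) *
      (N i x).e0 - (N i x).e1) = 2 * ((N i x).ka * (N i x).psi2) := by
      unfold Nm.e1
      ring
    rw [h4]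
    field_simp
  linear_combination h3'

/-- the source `y1` -/
theorem y1 (H : Nf ρ R ε c N h0 h1 h2 h3 h4) {s : ι → ℝ} (hk : WOR ρ s (fun i x => (N i x).ka)) :
    WOR ρ (fun i => s i * s i * s i) (fun i x => (N i x).y1) :=
  (((hk.mul H.rho hk).mul H.rho hk).mulr H.rho H.psi2b).congr fun i x => by
    unfold Nm.y1
    ring

/-- the source `y2` -/
theorem y2 (H : Nf ρ R ε c N h0 h1 h2 h3 h4) {s : ι → ℝ} (hk : WOR ρ s (fun i x => (N i x).ka)) :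
    WOR ρ (fun i => s i * c i) (fun i x => (N i x).y2) :=
  hk.mul H.rho H.G4tb

/-- the limit of `y2` -/
theorem y2_ref (H : Nf ρ R ε c N h0 h1 h2 h3 h4) {X : ι → ℝ} (hX : ∀ i, 0 ≤ X i)
    (hk : WOR ρ (fun i => ε i * c i + X i)
      (fun i x => (N i x).ka - (h3 i x - R.la x * h1 i x) / (2 * R.e))) :
    WOR ρ (fun i => ε i * (c i * c i) + X i * c i)
      (fun i x => (N i x).y2 - (h3 i x - R.la x * h1 i x) *
        (h4 i x - R.la x * h2 i x + R.la x ^ 2 * h0 i x) / (2 * R.e)) := by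
  have k1 := (hk.mul H.rho H.G4tb).le1 (t := fun i => ε i * (c i * c i) + X i * c i)
    fun i => by
      apply le_of_eq
      ring
  have k2 := ((H.r3.cmul (1 / (2 * R.e))).mul H.rho H.G4t).le1
    (t := fun i => ε i * (c i * c i) + X i * c i) fun i => by
      have := mul_nonneg (hX i) (H.nn i)
      nlinarith
  refine (k1.add k2).congr fun i x => ?_
  unfold Nm.y2
  have := H.e
  field_simp
  ring

end Nf

end Pool.Agent.MP_ae5b4e_an_LOC
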