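import Mathlib
import Pool.Agent.Lib.MP_ae5b4e_an_LOC.NmB

/-!
# MP_ae5b4e_an, project LOC: weighted bounds of the jet numbers of one curve near a pencil
-/

noncomputable section

namespace Pool.Agent.MP_ae5b4e_an_LOC

open Real Set Filter Topology
open Pool.Agent.MP_ae5b4e_an_RG Pool.Agent.MP_ae5b4e_an_NC

/-- the reference values of the coefficients of the quartic form -/
@[ext] structure Hf where
  h0 : ℝ → ℝ
  h1 : ℝ → ℝ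
  h2 : ℝ → ℝ
  h3 : ℝ → ℝ
  h4 : ℝ → ℝ

/-- the reference values of `G3`, `G4` -/
def Hf.r3 (H : Hf) (la : ℝ → ℝ) (x : ℝ) : ℝ := H.h3 x - la x * H.h1 x

def Hf.r4 (H : Hf) (la : ℝ → ℝ) (x : ℝ) : ℝ := H.h4 x - la x * H.h2 x + la x ^ 2 * H.h0 x

/-- the hypotheses: the coefficients of the forms on `P + τ P'` are close to those of the pencil -/
structure NmH (ρ B : ℝ) (R : Ref) (ε c : ℝ) (N : ℝ → Nm) (H : Hf) : Prop where
  nn : 0 ≤ c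
  cε : c ≤ ε
  a0 : WR ρ 2 (B * ε) (fun x => (N x).a0)
  a1 : WR ρ 2 (B * ε) (fun x => (N x).a1)
  a2 : WR ρ 2 (B * ε) (fun x => (N x).a2 - R.e)
  al0 : WR ρ 2 (B * ε) (fun x => (N x).al0 - 1)
  al1 : WR ρ 2 (B * ε) (fun x => (N x).al1)
  al2 : WR ρ 2 (B * ε) (fun x => (N x).al2 - R.la x)
  G0 : WR ρ 2 (B * (ε * c)) (fun x => (N x).G0 - H.h0 x)
  G1 : WR ρ 2 (B * (ε * c)) (fun x => (N x).G1 - H.h1 x)
  G2 : WR ρ 2 (B * (ε * c)) (fun x => (N x).G2 - H.h2 x)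
  G3 : WR ρ 2 (B * (ε * c)) (fun x => (N x).G3 - H.h3 x)
  G4 : WR ρ 2 (B * (ε * c)) (fun x => (N x).G4 - H.h4 x)
  k0 : WR ρ 2 (B * c) H.h0
  k1 : WR ρ 2 (B * c) H.h1
  k2 : WR ρ 2 (B * c) H.h2
  k3 : WR ρ 2 (B * c) H.h3
  k4 : WR ρ 2 (B * c) H.h4

/-- the conclusions -/
structure NmO (ρ C : ℝ) (R : Ref) (ε c : ℝ) (N : ℝ → Nm) (H : Hf) : Prop where
  al_ne : ∀ x, (N x).al0 ≠ 0
  psi_ne : ∀ x, (N x).psi2 ≠ 0
  inv : WR ρ 2 (C * ε) (fun x => ((N x).al0)⁻¹ - 1)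
  ka : WR ρ 2 (C * ε) (fun x => (N x).ka)
  la : WR ρ 2 (C * ε) (fun x => (N x).la - R.la x)
  psi2 : WR ρ 2 (C * ε) (fun x => (N x).psi2 - R.e)
  psii : WR ρ 2 (C * ε) (fun x => ((N x).psi2)⁻¹ - (R.e)⁻¹)
  e0 : WR ρ 2 (C * ε) (fun x => (N x).e0)
  e1 : WR ρ 2 (C * ε) (fun x => (N x).e1)
  g1 : WR ρ 2 (C * (ε * c)) (fun x => (N x).g1 - H.h1 x)
  G3t : WR ρ 2 (C * (ε * c)) (fun x => (N x).G3t - H.r3 R.la x)
  G4t : WR ρ 2 (C * (ε * c)) (fun x => (N x).G4t - H.r4 R.la x)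
  G3b : WR ρ 2 (C * c) (fun x => (N x).G3t)
  G4b : WR ρ 2 (C * c) (fun x => (N x).G4t)

/-- the conclusions which use the bound of the defects -/
structure NmX (ρ C : ℝ) (R : Ref) (ε c X : ℝ) (N : ℝ → Nm) (H : Hf) : Prop where
  ka : WR ρ 2 (C * (c + X)) (fun x => (N x).ka)
  kar : WR ρ 2 (C * (ε * c + X)) (fun x => (N x).ka - H.r3 R.la x / (2 * R.e))
  y1 : WR ρ 2 (C * (c + X) ^ 3) (fun x => (N x).y1)
  y2 : WR ρ 2 (C * ((c + X) * c)) (fun x => (N x).y2)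
  y2r : WR ρ 2 (C * (ε * c ^ 2 + X * c))
    (fun x => (N x).y2 - H.r3 R.la x * H.r4 R.la x / (2 * R.e))

/-- the universal family -/
def UN (ρ B : ℝ) (R : Ref) (ε1 : ℝ) : Type :=
  {p : ℝ × ℝ × (ℝ → Nm) × Hf // NmH ρ B R p.1 p.2.1 p.2.2.1 p.2.2.2 ∧ p.1 ≤ ε1}

/-- the family without the inverse -/
private theorem fam_of {ι : Type} {ρ B : ℝ} (hρ : 0 ≤ ρ) (hB : 0 ≤ B) {R : Ref} (he : R.e ≠ 0)
    {L : ℝ} (hL : 0 ≤ L) (hla : WR ρ 2 L R.la) {ε c : ι → ℝ} {N : ι → ℝ → Nm} {H : ι → Hf}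
    (h : ∀ i, NmH ρ B R (ε i) (c i) (N i) (H i)) (h1 : ∀ i, ε i ≤ 1)
    (hne : ∀ i x, (N i x).al0 ≠ 0) (hinv : WOR ρ ε (fun i x => ((N i x).al0)⁻¹ - 1)) :
    Nf ρ R ε c N (fun i => (H i).h0) (fun i => (H i).h1) (fun i => (H i).h2)
      (fun i => (H i).h3) (fun i => (H i).h4) where
  rho := hρ
  e := he
  nn := fun i => (h i).nn
  cε := fun i => (h i).cε
  le := h1
  la0 := ⟨L, hL, fun i => hla.mono (by linarith)⟩
  a0 := ⟨B, hB, fun i => (h i).a0⟩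
  a1 := ⟨B, hB, fun i => (h i).a1⟩
  a2 := ⟨B, hB, fun i => (h i).a2⟩
  al0 := ⟨B, hB, fun i => (h i).al0⟩
  al1 := ⟨B, hB, fun i => (h i).al1⟩
  al2 := ⟨B, hB, fun i => (h i).al2⟩
  G0 := ⟨B, hB, fun i => (h i).G0⟩
  G1 := ⟨B, hB, fun i => (h i).G1⟩
  G2 := ⟨B, hB, fun i => (h i).G2⟩
  G3 := ⟨B, hB, fun i => (h i).G3⟩
  G4 := ⟨B, hB, fun i => (h i).G4⟩
  k0 := ⟨B, hB, fun i => (h i).k0⟩
  k1 := ⟨B, hB, fun i => (h i).k1⟩
  k2 := ⟨B, hB, fun i => (h i).k2⟩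
  k3 := ⟨B, hB, fun i => (h i).k3⟩
  k4 := ⟨B, hB, fun i => (h i).k4⟩
  al_ne := hne
  inv := hinv

private theorem inv_of {ι : Type} {ρ B : ℝ} (hρ : 0 ≤ ρ) (hB : 0 ≤ B) {R : Ref}
    {ε c : ι → ℝ} {N : ι → ℝ → Nm} {H : ι → Hf}
    (h : ∀ i, NmH ρ B R (ε i) (c i) (N i) (H i)) (h1 : ∀ i, ε i ≤ 1 / (24 * (B + 1))) :
    (∀ i x, (N i x).al0 ≠ 0) ∧ WOR ρ ε (fun i x => ((N i x).al0)⁻¹ - 1) := by
  have h2 : ∀ i, 24 * (B * ε i) ≤ 1 := by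
    intro i
    have h3 := h1 i
    rw [le_div_iff₀ (by positivity)] at h3
    have h4 : 0 ≤ ε i := (h i).nn.trans (h i).cε
    nlinarith
  refine ⟨fun i x => ?_, ?_⟩
  · have h3 := (h i).al0.inv_ne hρ (h2 i) x
    intro h0
    apply h3
    rw [h0]
    ring
  · refine (WOR.inv hρ hB (fun i => (h i).al0) h2).congr fun i x => ?_
    congr 2
    ring

private theorem psi_inv {ρ e C ε : ℝ} (hρ : 0 ≤ ρ) (he : e ≠ 0) {u : ℝ → ℝ}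
    (h : WR ρ 2 (C * ε) (fun x => u x - e)) (h2 : 24 * (|e⁻¹| * (C * ε)) ≤ 1) :
    (∀ x, u x ≠ 0) ∧ WR ρ 2 (2 * (|e⁻¹| * |e⁻¹|) * C * ε) (fun x => (u x)⁻¹ - e⁻¹) := by
  have h3 : WR ρ 2 (|e⁻¹| * (C * ε)) (fun x => e⁻¹ * (u x - e)) := h.const_mul e⁻¹
  have h4 : ∀ x, 1 + e⁻¹ * (u x - e) = e⁻¹ * u x := fun x => by
    field_simp
    ring
  have h5 : ∀ x, u x ≠ 0 := fun x h0 => by
    have := h3.inv_ne hρ h2 x
    rw [h4, h0, mul_zero] at this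
    exact this rfl
  refine ⟨h5, ?_⟩
  have h6 := (h3.inv hρ h2).const_mul e⁻¹
  refine (h6.mono (le_of_eq (by ring))).congr fun x => ?_
  rw [h4]
  have := h5 x
  field_simp

theorem exists_nm {ρ B : ℝ} (hρ : 0 ≤ ρ) (hB : 0 ≤ B) {R : Ref} (he : R.e ≠ 0) {L : ℝ}
    (hla : WR ρ 2 L R.la) : ∃ C > 0, ∃ ε0 > 0, ε0 ≤ 1 ∧ ∀ (ε c : ℝ) (N : ℝ → Nm) (H : Hf),
      ε ≤ ε0 → NmH ρ B R ε c N H → NmO ρ C R ε c N H ∧
        ∀ X, WR ρ 4 X (fun x => (N x).e0) → WR ρ 2 X (fun x => (N x).e1) →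
          NmX ρ C R ε c X N H := by
  have hL : 0 ≤ L := hla.nonneg
  set ε1 : ℝ := min 1 (1 / (24 * (B + 1))) with hε1
  have e1p : 0 < ε1 := by positivity
  -- first family
  obtain ⟨n1, i1⟩ := inv_of (ι := UN ρ B R ε1) hρ hB (fun i => i.2.1)
    (fun i => i.2.2.trans (min_le_right _ _))
  have F := fam_of (ι := UN ρ B R ε1) hρ hB he hL hla (fun i => i.2.1)
    (fun i => i.2.2.trans (min_le_left _ _)) n1 i1
  obtain ⟨Cp, kp, ap⟩ := F.psi2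
  set ε2 : ℝ := min ε1 (1 / (24 * (|(R.e)⁻¹| * Cp + 1))) with hε2
  have e2p : 0 < ε2 := by positivity
  -- the inverse of `psi2`
  have hps : ∀ i : UN ρ B R ε2, (∀ x, (i.1.2.2.1 x).psi2 ≠ 0) ∧
      WR ρ 2 (2 * (|(R.e)⁻¹| * |(R.e)⁻¹|) * Cp * i.1.1)
        (fun x => ((i.1.2.2.1 x).psi2)⁻¹ - (R.e)⁻¹) := by
    intro i
    refine psi_inv hρ he (ap ⟨i.1, i.2.1, i.2.2.trans (min_le_left _ _)⟩) ?_
    have h3 : i.1.1 ≤ 1 / (24 * (|(R.e)⁻¹| * Cp + 1)) := i.2.2.trans (min_le_right _ _)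
    rw [le_div_iff₀ (by positivity)] at h3
    have h4 : 0 ≤ i.1.1 := i.2.1.nn.trans i.2.1.cε
    change 24 * (|(R.e)⁻¹| * (Cp * i.1.1)) ≤ 1
    nlinarith
  obtain ⟨n2, i2⟩ := inv_of (ι := UN ρ B R ε2) hρ hB (fun i => i.2.1)
    (fun i => i.2.2.trans ((min_le_left _ _).trans (min_le_right _ _)))
  have G := fam_of (ι := UN ρ B R ε2) hρ hB he hL hla (fun i => i.2.1)
    (fun i => i.2.2.trans ((min_le_left _ _).trans (min_le_left _ _))) n2 i2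
  -- the family with defects
  set UX : Type := {p : UN ρ B R ε2 × ℝ // WR ρ 4 p.2 (fun x => (p.1.1.2.2.1 x).e0) ∧
    WR ρ 2 p.2 (fun x => (p.1.1.2.2.1 x).e1)} with hUX
  have hX0 : ∀ i : UX, 0 ≤ i.1.2 := fun i => i.2.2.nonneg
  obtain ⟨n3, i3⟩ := inv_of (ι := UX) hρ hB (fun i => i.1.1.2.1)
    (fun i => i.1.1.2.2.trans ((min_le_left _ _).trans (min_le_right _ _)))
  have K := fam_of (ι := UX) hρ hB he hL hla (fun i => i.1.1.2.1)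
    (fun i => i.1.1.2.2.trans ((min_le_left _ _).trans (min_le_left _ _))) n3 i3
  have hpi : WOR ρ (fun i : UX => i.1.1.1.1)
      (fun i x => ((i.1.1.1.2.2.1 x).psi2)⁻¹ - (R.e)⁻¹) :=
    ⟨2 * (|(R.e)⁻¹| * |(R.e)⁻¹|) * Cp, by positivity, fun i => (hps i.1.1).2⟩
  have hp1 : WOR ρ (fun _ : UX => (1:ℝ)) (fun i x => ((i.1.1.1.2.2.1 x).psi2)⁻¹) :=
    ((K.to1 hpi).add (K.cst (R.e)⁻¹)).congr fun i x => by ring
  have e0X : WOR ρ (fun i : UX => i.1.2) (fun i x => (i.1.1.1.2.2.1 x).e0) :=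
    ⟨1, zero_le_one, fun i => (i.2.1.b_mono (by norm_num)).mono (by linarith)⟩
  have e1X : WOR ρ (fun i : UX => i.1.2) (fun i x => (i.1.1.1.2.2.1 x).e1) :=
    ⟨1, zero_le_one, fun i => i.2.2.mono (by linarith)⟩
  have kk := K.ka_of (s := fun i => i.1.1.1.2.1 + i.1.2) (fun i => by linarith [hX0 i]) hp1
    (fun i => (hps i.1.1).1) (e0X.le1 fun i => by linarith [K.nn i])
    (e1X.le1 fun i => by linarith [K.nn i])
  have kr := K.ka_ref hX0 hpi (fun i => (hps i.1.1).1) e0X e1X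
  obtain ⟨Y1, l1, c1⟩ := K.y1 kk
  obtain ⟨Y2, l2, c2⟩ := K.y2 kk
  obtain ⟨Y3, l3, c3⟩ := K.y2_ref hX0 kr
  obtain ⟨Y4, l4, c4⟩ := kk
  obtain ⟨Y5, l5, c5⟩ := kr
  obtain ⟨C1, k1, a1⟩ := G.inv
  obtain ⟨C2, k2, a2⟩ := G.ka
  obtain ⟨C3, k3, a3⟩ := G.la
  obtain ⟨C4, k4, a4⟩ := G.psi2
  obtain ⟨C5, k5, a5⟩ := G.e0
  obtain ⟨C6, k6, a6⟩ := G.e1
  obtain ⟨C7, k7, a7⟩ := G.g1
  obtain ⟨C8, k8, a8⟩ := G.G3t
  obtain ⟨C9, k9, a9⟩ := G.G4t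
  obtain ⟨D1, m1, b1⟩ := G.G3tb
  obtain ⟨D2, m2, b2⟩ := G.G4tb
  have kP : 0 ≤ 2 * (|(R.e)⁻¹| * |(R.e)⁻¹|) * Cp := by positivity
  refine ⟨Y1 + Y2 + Y3 + Y4 + Y5 + C1 + C2 + C3 + C4 + C5 + C6 + C7 + C8 + C9 + D1 + D2 +
    2 * (|(R.e)⁻¹| * |(R.e)⁻¹|) * Cp + 1, by positivity, ε2, e2p,
    (min_le_left _ _).trans (min_le_left _ _), ?_⟩
  intro ε c N H hε hN
  set i : UN ρ B R ε2 := ⟨(ε, c, N, H), hN, hε⟩ with hi
  have hε0 : 0 ≤ ε := hN.nn.trans hN.cε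
  have hc := hN.nn
  have hec : 0 ≤ ε * c := mul_nonneg hε0 hc
  refine ⟨⟨n2 i, (hps i).1, ?_, ?_, ?_, ?_, ?_, ?_, ?_, ?_, ?_, ?_, ?_, ?_⟩, ?_⟩
  · exact (a1 i).mono (mul_le_mul_of_nonneg_right (by linarith) hε0)
  · exact (a2 i).mono (mul_le_mul_of_nonneg_right (by linarith) hε0)
  · exact (a3 i).mono (mul_le_mul_of_nonneg_right (by linarith) hε0)
  · exact (a4 i).mono (mul_le_mul_of_nonneg_right (by linarith) hε0)
  · exact (hps i).2.mono (mul_le_mul_of_nonneg_right (by linarith) hε0)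
  · exact (a5 i).mono (mul_le_mul_of_nonneg_right (by linarith) hε0)
  · exact (a6 i).mono (mul_le_mul_of_nonneg_right (by linarith) hε0)
  · exact (a7 i).mono (mul_le_mul_of_nonneg_right (by linarith) hec)
  · exact (a8 i).mono (mul_le_mul_of_nonneg_right (by linarith) hec)
  · exact (a9 i).mono (mul_le_mul_of_nonneg_right (by linarith) hec)
  · exact (b1 i).mono (mul_le_mul_of_nonneg_right (by linarith) hc)
  · exact (b2 i).mono (mul_le_mul_of_nonneg_right (by linarith) hc)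
  · intro X h0 h1
    set j : UX := ⟨(i, X), h0, h1⟩ with hj
    have hX : 0 ≤ X := hX0 j
    refine ⟨?_, ?_, ?_, ?_, ?_⟩
    · exact (c4 j).mono (mul_le_mul_of_nonneg_right (by linarith) (by positivity))
    · exact (c5 j).mono (mul_le_mul_of_nonneg_right (by linarith) (by positivity))
    · refine (c1 j).mono ?_
      change Y1 * ((c + X) * (c + X) * (c + X)) ≤ _
      rw [show (c + X) * (c + X) * (c + X) = (c + X) ^ 3 by ring]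
      exact mul_le_mul_of_nonneg_right (by linarith) (by positivity)
    · exact (c2 j).mono (mul_le_mul_of_nonneg_right (by linarith) (by positivity))
    · refine (c3 j).mono ?_
      change Y3 * (ε * (c * c) + X * c) ≤ _
      rw [show ε * (c * c) + X * c = ε * c ^ 2 + X * c by ring]
      exact mul_le_mul_of_nonneg_right (by linarith) (by positivity)

end Pool.Agent.MP_ae5b4e_an_LOC
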