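import Pool.Agent.Lib.MP_ae5b4e_an_LOC.Frm0
import Pool.Agent.Lib.MP_ae5b4e_an_LOC.Nm

/-!
# MP_ae5b4e_an, project LOC: the eleven numbers of the moved jet
-/

noncomputable section

namespace Pool.Agent.MP_ae5b4e_an_LOC

/-- the numbers of a jet for the forms `E`, `Q`, `X ^ 2 R_c` -/
def nmj (m : ℝ) (c : Fin 4 → ℝ) (V W : V3) : Nm :=
  ⟨Ef m V, Eb m V W, Ef m W, Qf V, Qb V W, Qf W, G0 c V W, G1 c V W, G2 c V W, G3 c V W,
    G4 c V W⟩

/-- the numbers of the jet moved by the frame `1 + xi` -/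
def nmf (m : ℝ) (p : P12) (V W : V3) : Nm := nmj m (pc p) (act m p V) (act m p W)

end Pool.Agent.MP_ae5b4e_an_LOC
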