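import Mathlib
import Pool.Agent.Lib.MP_ae5b4e_an_LOC.NmC
import Pool.Agent.Lib.MP_ae5b4e_an_LOC.Frm0
import Pool.Agent.Lib.MP_ae5b4e_an_LOC.Nmf

/-!
# MP_ae5b4e_an, project LOC: the numbers of the moved jets of a curve near the pencil
-/

noncomputable section

namespace Pool.Agent.MP_ae5b4e_an_LOC

open Real Set Filter Topology
open Pool.Agent.MP_ae5b4e_an_RG Pool.Agent.MP_ae5b4e_an_NC

/-- closeness to a fixed function -/
structure Cl {ι : Type} (ρ : ℝ) (ε : ι → ℝ) (u : ι → ℝ → ℝ) (u0 : ℝ → ℝ) : Prop where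
  sub : WOR ρ ε (fun i x => u i x - u0 x)
  bd : WOR ρ (fun _ : ι => (1:ℝ)) (fun _ => u0)

namespace Cl

variable {ι : Type} {ρ : ℝ} {ε c : ι → ℝ} {u v : ι → ℝ → ℝ} {u0 v0 : ℝ → ℝ}

theorem b (h1 : ∀ i, ε i ≤ 1) (h : Cl ρ ε u u0) : WOR ρ (fun _ => (1:ℝ)) u :=
  ((h.sub.le1 h1).add h.bd).congr fun i x => by ring

theorem add (h : Cl ρ ε u u0) (h' : Cl ρ ε v v0) :
    Cl ρ ε (fun i x => u i x + v i x) (fun x => u0 x + v0 x) :=
  ⟨(h.sub.add h'.sub).congr fun i x => by ring, h.bd.add h'.bd⟩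

theorem sub' (h : Cl ρ ε u u0) (h' : Cl ρ ε v v0) :
    Cl ρ ε (fun i x => u i x - v i x) (fun x => u0 x - v0 x) :=
  ⟨(h.sub.sub h'.sub).congr fun i x => by ring, h.bd.sub h'.bd⟩

theorem cmul (a : ℝ) (h : Cl ρ ε u u0) : Cl ρ ε (fun i x => a * u i x) (fun x => a * u0 x) :=
  ⟨(h.sub.cmul a).congr fun i x => by ring, h.bd.cmul a⟩

theorem mul (hρ : 0 ≤ ρ) (h1 : ∀ i, ε i ≤ 1) (h : Cl ρ ε u u0) (h' : Cl ρ ε v v0) :
    Cl ρ ε (fun i x => u i x * v i x) (fun x => u0 x * v0 x) :=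
  ⟨((h.sub.mulr hρ (h'.b h1)).add (h.bd.mull hρ h'.sub)).congr fun i x => by ring,
    h.bd.mulr hρ h'.bd⟩

/-- multiplication by small parameters -/
theorem small (h1 : ∀ i, ε i ≤ 1) (hρ : 0 ≤ ρ) (h : Cl ρ ε u u0) {a : ι → ℝ}
    (ha : ∀ i, |a i| ≤ c i) : WOR ρ c (fun i x => a i * u i x) := by
  have h2 : WOR ρ c (fun i _ => a i) := by
    refine WO.par ρ fun i => ?_
    rw [Complex.norm_real, Real.norm_eq_abs]
    exact ha i
  exact h2.mulr hρ (h.b h1)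

theorem congr (h : Cl ρ ε u u0) (hu : ∀ i x, v i x = u i x) (hv : ∀ x, v0 x = u0 x) :
    Cl ρ ε v v0 := by
  have e1 : v = u := by
    funext i x
    exact hu i x
  have e2 : v0 = u0 := funext hv
  rw [e1, e2]
  exact h

end Cl

section poly

variable {ι : Type} {ρ : ℝ} {ε : ι → ℝ} {V W : ι → ℝ → V3} {V0 W0 : ℝ → V3}

/-- closeness of jets -/
structure Cj (ρ : ℝ) (ε : ι → ℝ) (V W : ι → ℝ → V3) (V0 W0 : ℝ → V3) : Prop where
  rho : 0 ≤ ρ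
  le : ∀ i, ε i ≤ 1
  v : ∀ k, Cl ρ ε (fun i x => V i x k) (fun x => V0 x k)
  w : ∀ k, Cl ρ ε (fun i x => W i x k) (fun x => W0 x k)

theorem Cj.vv (h : Cj ρ ε V W V0 W0) (j k : Fin 3) :
    Cl ρ ε (fun i x => V i x j * V i x k) (fun x => V0 x j * V0 x k) :=
  (h.v j).mul h.rho h.le (h.v k)

theorem Cj.vw (h : Cj ρ ε V W V0 W0) (j k : Fin 3) :
    Cl ρ ε (fun i x => V i x j * W i x k) (fun x => V0 x j * W0 x k) :=
  (h.v j).mul h.rho h.le (h.w k)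

theorem Cj.swap (h : Cj ρ ε V W V0 W0) : Cj ρ ε W V W0 V0 := ⟨h.rho, h.le, h.w, h.v⟩

theorem Cj.ef (h : Cj ρ ε V W V0 W0) (m : ℝ) :
    Cl ρ ε (fun i x => Ef m (V i x)) (fun x => Ef m (V0 x)) := by
  refine (((((h.vv 0 0).cmul m).add (h.vv 1 1)).sub' (h.vv 2 2))).congr (fun i x => ?_)
    fun x => ?_
  · unfold Ef
    ring
  · unfold Ef
    ring

theorem Cj.eb (h : Cj ρ ε V W V0 W0) (m : ℝ) :
    Cl ρ ε (fun i x => Eb m (V i x) (W i x)) (fun x => Eb m (V0 x) (W0 x)) := by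
  refine ((((((h.vw 0 0).cmul m).add (h.vw 1 1)).sub' (h.vw 2 2))).cmul 2).congr
    (fun i x => ?_) fun x => ?_
  · unfold Eb
    ring
  · unfold Eb
    ring

theorem Cj.qf (h : Cj ρ ε V W V0 W0) :
    Cl ρ ε (fun i x => Qf (V i x)) (fun x => Qf (V0 x)) := by
  refine ((h.vv 0 0).add (h.vv 1 1)).congr (fun i x => ?_) fun x => ?_
  · unfold Qf
    ring
  · unfold Qf
    ring

theorem Cj.qb (h : Cj ρ ε V W V0 W0) :
    Cl ρ ε (fun i x => Qb (V i x) (W i x)) (fun x => Qb (V0 x) (W0 x)) := by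
  refine (((h.vw 0 0).add (h.vw 1 1)).cmul 2).congr (fun i x => ?_) fun x => ?_
  · unfold Qb
    ring
  · unfold Qb
    ring

theorem Cj.rf (h : Cj ρ ε V W V0 W0) (a : Fin 4 → ℝ) :
    Cl ρ ε (fun i x => Rf a (V i x)) (fun x => Rf a (V0 x)) := by
  refine (((((h.vv 0 0).cmul (a 0)).add ((h.vv 0 1).cmul (a 1))).add
    ((h.vv 0 2).cmul (a 2))).add ((h.vv 1 2).cmul (a 3))).congr (fun i x => ?_) fun x => ?_
  · unfold Rf
    ring
  · unfold Rf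
    ring

theorem Cj.rb (h : Cj ρ ε V W V0 W0) (a : Fin 4 → ℝ) :
    Cl ρ ε (fun i x => Rb a (V i x) (W i x)) (fun x => Rb a (V0 x) (W0 x)) := by
  refine (((((h.vw 0 0).cmul (2 * a 0)).add (((h.vw 0 1).add (h.vw 1 0)).cmul (a 1))).add
    (((h.vw 0 2).add (h.vw 2 0)).cmul (a 2))).add
    (((h.vw 1 2).add (h.vw 2 1)).cmul (a 3))).congr (fun i x => ?_) fun x => ?_
  · unfold Rb
    ring
  · unfold Rb
    ring

theorem Cj.g0 (h : Cj ρ ε V W V0 W0) (a : Fin 4 → ℝ) :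
    Cl ρ ε (fun i x => G0 a (V i x) (W i x)) (fun x => G0 a (V0 x) (W0 x)) := by
  refine ((h.vv 0 0).mul h.rho h.le (h.rf a)).congr (fun i x => ?_) fun x => ?_
  · unfold G0
    ring
  · unfold G0
    ring

theorem Cj.g1 (h : Cj ρ ε V W V0 W0) (a : Fin 4 → ℝ) :
    Cl ρ ε (fun i x => G1 a (V i x) (W i x)) (fun x => G1 a (V0 x) (W0 x)) := by
  refine (((h.vv 0 0).mul h.rho h.le (h.rb a)).add
    (((h.vw 0 0).mul h.rho h.le (h.rf a)).cmul 2)).congr (fun i x => ?_) fun x => ?_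
  · unfold G1
    ring
  · unfold G1
    ring

theorem Cj.g2 (h : Cj ρ ε V W V0 W0) (a : Fin 4 → ℝ) :
    Cl ρ ε (fun i x => G2 a (V i x) (W i x)) (fun x => G2 a (V0 x) (W0 x)) := by
  refine ((((h.vv 0 0).mul h.rho h.le (h.swap.rf a)).add
    (((h.vw 0 0).mul h.rho h.le (h.rb a)).cmul 2)).add
    ((h.swap.vv 0 0).mul h.rho h.le (h.rf a))).congr (fun i x => ?_) fun x => ?_
  · unfold G2
    ring
  · unfold G2
    ring

theorem Cj.g3 (h : Cj ρ ε V W V0 W0) (a : Fin 4 → ℝ) :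
    Cl ρ ε (fun i x => G3 a (V i x) (W i x)) (fun x => G3 a (V0 x) (W0 x)) := by
  refine ((((h.vw 0 0).mul h.rho h.le (h.swap.rf a)).cmul 2).add
    ((h.swap.vv 0 0).mul h.rho h.le (h.rb a))).congr (fun i x => ?_) fun x => ?_
  · unfold G3
    ring
  · unfold G3
    ring

theorem Cj.g4 (h : Cj ρ ε V W V0 W0) (a : Fin 4 → ℝ) :
    Cl ρ ε (fun i x => G4 a (V i x) (W i x)) (fun x => G4 a (V0 x) (W0 x)) := by
  refine ((h.swap.vv 0 0).mul h.rho h.le (h.swap.rf a)).congr (fun i x => ?_) fun x => ?_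
  · unfold G4
    ring
  · unfold G4
    ring

end poly

/-- a function of a jet which is linear in the four parameters -/
def Lin4 (f : (Fin 4 → ℝ) → V3 → V3 → ℝ) : Prop :=
  ∀ c V W, f c V W = c 0 * f (Pi.single 0 1) V W + c 1 * f (Pi.single 1 1) V W +
    c 2 * f (Pi.single 2 1) V W + c 3 * f (Pi.single 3 1) V W

theorem lin_G0 : Lin4 G0 := fun c V W => by
  simp only [G0, Rf, Pi.single_apply]
  simp
  ring

theorem lin_G1 : Lin4 G1 := fun c V W => by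
  simp only [G1, Rf, Rb, Pi.single_apply]
  simp
  ring

theorem lin_G2 : Lin4 G2 := fun c V W => by
  simp only [G2, Rf, Rb, Pi.single_apply]
  simp
  ring

theorem lin_G3 : Lin4 G3 := fun c V W => by
  simp only [G3, Rf, Rb, Pi.single_apply]
  simp
  ring

theorem lin_G4 : Lin4 G4 := fun c V W => by
  simp only [G4, Rf, Pi.single_apply]
  simp
  ring

section

variable {ι : Type} {ρ : ℝ} {ε c : ι → ℝ} {V W : ι → ℝ → V3} {V0 W0 : ℝ → V3}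

theorem lin4_close (hρ : 0 ≤ ρ) {f : (Fin 4 → ℝ) → V3 → V3 → ℝ}
    (hf : Lin4 f)
    (h : ∀ a, Cl ρ ε (fun i x => f a (V i x) (W i x)) (fun x => f a (V0 x) (W0 x)))
    {q : ι → Fin 4 → ℝ} (hq : ∀ i k, |q i k| ≤ c i) :
    WOR ρ (fun i => ε i * c i) (fun i x => f (q i) (V i x) (W i x) - f (q i) (V0 x) (W0 x)) ∧
      WOR ρ c (fun i x => f (q i) (V0 x) (W0 x)) := by
  have hp : ∀ k : Fin 4, WOR ρ c (fun i _ => q i k) := fun k => by
    refine WO.par ρ fun i => ?_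
    rw [Complex.norm_real, Real.norm_eq_abs]
    exact hq i k
  have h2 : ∀ k : Fin 4, WOR ρ (fun i => ε i * c i) (fun i x =>
      (f (Pi.single k 1) (V i x) (W i x) - f (Pi.single k 1) (V0 x) (W0 x)) * q i k) :=
    fun k => (h (Pi.single k 1)).sub.mul hρ (hp k)
  have h3 : ∀ k : Fin 4, WOR ρ c (fun i x => q i k * f (Pi.single k 1) (V0 x) (W0 x)) :=
    fun k => (hp k).mulr hρ (h (Pi.single k 1)).bd
  refine ⟨((((h2 0).add (h2 1)).add (h2 2)).add (h2 3)).congr fun i x => ?_,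
    ((((h3 0).add (h3 1)).add (h3 2)).add (h3 3)).congr fun i x => ?_⟩
  · rw [hf (q i) (V i x) (W i x), hf (q i) (V0 x) (W0 x)]
    ring
  · rw [hf (q i) (V0 x) (W0 x)]

end

/-- the background: weighted bounds -/
structure BW (ρ L m e : ℝ) (V0 W0 : ℝ → V3) : Prop where
  v : ∀ k, WR ρ 2 L (fun x => V0 x k)
  w : ∀ k, WR ρ 2 L (fun x => W0 x k)
  E0 : ∀ x, Ef m (V0 x) = 0
  E1 : ∀ x, Eb m (V0 x) (W0 x) = 0
  E2 : ∀ x, Ef m (W0 x) = e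
  Q0 : ∀ x, Qf (V0 x) = 1
  Q1 : ∀ x, Qb (V0 x) (W0 x) = 0

/-- the reference values of the quartic form -/
def hfn (p : P12) (V0 W0 : ℝ → V3) : Hf :=
  ⟨fun x => G0 (pc p) (V0 x) (W0 x), fun x => G1 (pc p) (V0 x) (W0 x),
    fun x => G2 (pc p) (V0 x) (W0 x), fun x => G3 (pc p) (V0 x) (W0 x),
    fun x => G4 (pc p) (V0 x) (W0 x)⟩

/-- the size of the quartic form -/
def cnp (p : P12) : ℝ := ‖pc p‖

theorem pc_le (p : P12) (k : Fin 4) : |pc p k| ≤ cnp p := norm_le_pi_norm (pc p) k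

theorem cn_le (p : P12) : cnp p ≤ ‖p‖ := by
  unfold cnp
  refine (pi_norm_le_iff_of_nonneg (norm_nonneg _)).2 fun k => ?_
  fin_cases k
  · exact norm_le_pi_norm p 0
  · exact norm_le_pi_norm p 1
  · exact norm_le_pi_norm p 2
  · exact norm_le_pi_norm p 3

/-- the family of curves near the background -/
def UP (ρ : ℝ) (V0 W0 : ℝ → V3) : Type :=
  {q : ℝ × (ℝ → V3) × (ℝ → V3) × P12 //
    (∀ k, WR ρ 2 q.1 (fun x => q.2.1 x k - V0 x k)) ∧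
    (∀ k, WR ρ 2 q.1 (fun x => q.2.2.1 x k - W0 x k)) ∧ ‖q.2.2.2‖ ≤ q.1 ∧ q.1 ≤ 1}

section

variable {ρ L m e : ℝ} {V0 W0 : ℝ → V3}

theorem UP.bd {ι : Type} {u : ℝ → ℝ} (hL : 0 ≤ L) (h : WR ρ 2 L u) :
    WOR ρ (fun _ : ι => (1:ℝ)) (fun _ => u) := ⟨L, hL, fun _ => h.mono (by linarith)⟩

theorem UP.par (k : Fin 12) :
    WOR ρ (fun i : UP ρ V0 W0 => i.1.1) (fun i _ => i.1.2.2.2 k) := by
  refine WO.par ρ fun i => ?_
  rw [Complex.norm_real, Real.norm_eq_abs]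
  exact (norm_le_pi_norm i.1.2.2.2 k).trans i.2.2.2.1

theorem UP.x00 : WOR ρ (fun i : UP ρ V0 W0 => i.1.1) (fun i _ => xi00 m i.1.2.2.2) := by
  refine (((UP.par 4).cmul (1 / (6 * (m - 1)))).add
    ((UP.par 8).cmul ((2 - m) / (6 * (m - 1))))).congr fun i x => ?_
  unfold xi00
  ring

theorem UP.x01 : WOR ρ (fun i : UP ρ V0 W0 => i.1.1) (fun i _ => xi01 m i.1.2.2.2) := by
  refine (((UP.par 5).cmul (1 / (2 * (m - 1)))).add
    ((UP.par 9).cmul (1 / (2 * (m - 1))))).congr fun i x => ?_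
  unfold xi01
  ring

/-- closeness of the moved vectors -/
theorem UP.act (hρ : 0 ≤ ρ) {U : UP ρ V0 W0 → ℝ → V3} {U0 : ℝ → V3}
    (h : ∀ k, Cl ρ (fun i : UP ρ V0 W0 => i.1.1) (fun i x => U i x k) (fun x => U0 x k))
    (k : Fin 3) : Cl ρ (fun i : UP ρ V0 W0 => i.1.1)
      (fun i x => act m i.1.2.2.2 (U i x) k) (fun x => U0 x k) := by
  have h1 : ∀ i : UP ρ V0 W0, i.1.1 ≤ 1 := fun i => i.2.2.2.2
  have ub : ∀ j, WOR ρ (fun _ => (1:ℝ)) (fun i x => U i x j) := fun j => (h j).b h1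
  refine ⟨?_, (h k).bd⟩
  fin_cases k
  · refine (((h 0).sub.add ((UP.x00 (m := m)).mulr hρ (ub 0))).add
      (((UP.x01 (m := m)).mulr hρ (ub 1)).sub
        (((UP.par 10).cmul (1 / 2)).mulr hρ (ub 2)))).congr fun i x => ?_
    change MP_ae5b4e_an_LOC.act m i.1.2.2.2 (U i x) 0 - U0 x 0 = _
    rw [act_apply0]
    ring
  · refine ((((h 1).sub.sub ((((UP.par 9).cmul (1 / 2)).add (UP.x01 (m := m))).mulr hρ
      (ub 0))).add (((UP.x00 (m := m)).add ((UP.par 8).cmul (1 / 2))).mulr hρ (ub 1))).sub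
        (((UP.par 11).cmul (1 / 2)).mulr hρ (ub 2))).congr fun i x => ?_
    change MP_ae5b4e_an_LOC.act m i.1.2.2.2 (U i x) 1 - U0 x 1 = _
    rw [act_apply1]
    ring
  · refine ((((h 2).sub.sub ((((UP.par 10).cmul (m / 2)).add ((UP.par 6).cmul (1 / 2))).mulr hρ
      (ub 0))).sub ((((UP.par 11).cmul (1 / 2)).add ((UP.par 7).cmul (1 / 2))).mulr hρ
      (ub 1))).sub ((((UP.x00 (m := m)).cmul 2).add ((UP.par 8).cmul (1 / 2))).mulr hρ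
      (ub 2))).congr fun i x => ?_
    change MP_ae5b4e_an_LOC.act m i.1.2.2.2 (U i x) 2 - U0 x 2 = _
    rw [act_apply2]
    ring

/-- the wrapper -/
theorem exists_nmH (hρ : 0 ≤ ρ) (hL : 0 ≤ L) (H : BW ρ L m e V0 W0) : ∃ B > 0,
    ∀ (ε : ℝ) (V W : ℝ → V3) (p : P12), ε ≤ 1 → (∀ k, WR ρ 2 ε (fun x => V x k - V0 x k)) →
      (∀ k, WR ρ 2 ε (fun x => W x k - W0 x k)) → ‖p‖ ≤ ε →
      NmH ρ B ⟨e, fun x => Qf (W0 x)⟩ ε (cnp p) (fun x => nmf m p (V x) (W x)) (hfn p V0 W0) := by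
  have h1 : ∀ i : UP ρ V0 W0, i.1.1 ≤ 1 := fun i => i.2.2.2.2
  have cV : ∀ k, Cl ρ (fun i : UP ρ V0 W0 => i.1.1) (fun i x => i.1.2.1 x k)
      (fun x => V0 x k) := fun k =>
    ⟨⟨1, zero_le_one, fun i => (i.2.1 k).mono (by linarith)⟩, UP.bd hL (H.v k)⟩
  have cW : ∀ k, Cl ρ (fun i : UP ρ V0 W0 => i.1.1) (fun i x => i.1.2.2.1 x k)
      (fun x => W0 x k) := fun k =>
    ⟨⟨1, zero_le_one, fun i => (i.2.2.1 k).mono (by linarith)⟩, UP.bd hL (H.w k)⟩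
  have J : Cj ρ (fun i : UP ρ V0 W0 => i.1.1) (fun i x => act m i.1.2.2.2 (i.1.2.1 x))
      (fun i x => act m i.1.2.2.2 (i.1.2.2.1 x)) V0 W0 :=
    ⟨hρ, h1, UP.act hρ cV, UP.act hρ cW⟩
  have hq : ∀ (i : UP ρ V0 W0) k, |pc i.1.2.2.2 k| ≤ cnp i.1.2.2.2 := fun i k => pc_le _ k
  obtain ⟨C1, k1, a1⟩ := (J.ef m).sub
  obtain ⟨C2, k2, a2⟩ := (J.eb m).sub
  obtain ⟨C3, k3, a3⟩ := (J.swap.ef m).sub
  obtain ⟨C4, k4, a4⟩ := J.qf.sub
  obtain ⟨C5, k5, a5⟩ := J.qb.sub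
  obtain ⟨C6, k6, a6⟩ := J.swap.qf.sub
  obtain ⟨⟨D0, l0, b0⟩, ⟨E0, m0, c0⟩⟩ := lin4_close hρ lin_G0 J.g0 hq
  obtain ⟨⟨D1, l1, b1⟩, ⟨E1, m1, c1⟩⟩ := lin4_close hρ lin_G1 J.g1 hq
  obtain ⟨⟨D2, l2, b2⟩, ⟨E2, m2, c2⟩⟩ := lin4_close hρ lin_G2 J.g2 hq
  obtain ⟨⟨D3, l3, b3⟩, ⟨E3, m3, c3⟩⟩ := lin4_close hρ lin_G3 J.g3 hq
  obtain ⟨⟨D4, l4, b4⟩, ⟨E4, m4, c4⟩⟩ := lin4_close hρ lin_G4 J.g4 hq
  refine ⟨C1 + C2 + C3 + C4 + C5 + C6 + D0 + D1 + D2 + D3 + D4 + E0 + E1 + E2 + E3 + E4 + 1,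
    by positivity, ?_⟩
  intro ε V W p hε hV hW hp
  set i : UP ρ V0 W0 := ⟨(ε, V, W, p), hV, hW, hp, hε⟩ with hi
  have hε0 : 0 ≤ ε := (norm_nonneg _).trans hp
  have hc : 0 ≤ cnp p := norm_nonneg _
  have hec : 0 ≤ ε * cnp p := mul_nonneg hε0 hc
  refine ⟨hc, (cn_le p).trans hp, ?_, ?_, ?_, ?_, ?_, ?_, ?_, ?_, ?_, ?_, ?_, ?_, ?_, ?_, ?_, ?_⟩
  · refine ((a1 i).mono (mul_le_mul_of_nonneg_right (by linarith) hε0)).congr fun x => ?_
    change (((Ef m (act m p (V x)) - Ef m (V0 x) : ℝ)) : ℂ) = ((Ef m (act m p (V x)) : ℝ) : ℂ)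
    rw [H.E0, sub_zero]
  · refine ((a2 i).mono (mul_le_mul_of_nonneg_right (by linarith) hε0)).congr fun x => ?_
    change (((Eb m (act m p (V x)) (act m p (W x)) - Eb m (V0 x) (W0 x) : ℝ)) : ℂ) =
      ((Eb m (act m p (V x)) (act m p (W x)) : ℝ) : ℂ)
    rw [H.E1, sub_zero]
  · refine ((a3 i).mono (mul_le_mul_of_nonneg_right (by linarith) hε0)).congr fun x => ?_
    change (((Ef m (act m p (W x)) - Ef m (W0 x) : ℝ)) : ℂ) =
      ((Ef m (act m p (W x)) - e : ℝ) : ℂ)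
    rw [H.E2]
  · refine ((a4 i).mono (mul_le_mul_of_nonneg_right (by linarith) hε0)).congr fun x => ?_
    change (((Qf (act m p (V x)) - Qf (V0 x) : ℝ)) : ℂ) = ((Qf (act m p (V x)) - 1 : ℝ) : ℂ)
    rw [H.Q0]
  · refine ((a5 i).mono (mul_le_mul_of_nonneg_right (by linarith) hε0)).congr fun x => ?_
    change (((Qb (act m p (V x)) (act m p (W x)) - Qb (V0 x) (W0 x) : ℝ)) : ℂ) =
      ((Qb (act m p (V x)) (act m p (W x)) : ℝ) : ℂ)
    rw [H.Q1, sub_zero]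
  · exact (a6 i).mono (mul_le_mul_of_nonneg_right (by linarith) hε0)
  · exact (b0 i).mono (mul_le_mul_of_nonneg_right (by linarith) hec)
  · exact (b1 i).mono (mul_le_mul_of_nonneg_right (by linarith) hec)
  · exact (b2 i).mono (mul_le_mul_of_nonneg_right (by linarith) hec)
  · exact (b3 i).mono (mul_le_mul_of_nonneg_right (by linarith) hec)
  · exact (b4 i).mono (mul_le_mul_of_nonneg_right (by linarith) hec)
  · exact (c0 i).mono (mul_le_mul_of_nonneg_right (by linarith) hc)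
  · exact (c1 i).mono (mul_le_mul_of_nonneg_right (by linarith) hc)
  · exact (c2 i).mono (mul_le_mul_of_nonneg_right (by linarith) hc)
  · exact (c3 i).mono (mul_le_mul_of_nonneg_right (by linarith) hc)
  · exact (c4 i).mono (mul_le_mul_of_nonneg_right (by linarith) hc)

end

end Pool.Agent.MP_ae5b4e_an_LOC
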