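import Pool.Agent.Lib.MP_ae5b4e_an_LOC.SHR
import Pool.Agent.Lib.MP_ae5b4e_an_LOC.RB

/-!
# LOC [SHR]: the real background for a smaller radius
-/

set_option autoImplicit false

noncomputable section

namespace Pool.Agent.MP_ae5b4e_an_LOC

open Set Metric Complex ComplexConjugate

def RB.shrink {B : Bg} {D : KerD B} (R : RB B D) (r' : ℝ) (h0 : 0 < r') (h1 : r' ≤ B.r) :
    RB (B.shrink r' h0 h1) (D.shrink r' h0 h1) where
  m1 := R.m1
  e := R.e
  V := R.V
  F := R.F
  tau := R.tau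
  cc := R.cc
  e_pos := R.e_pos
  anV := R.anV
  perV := R.perV
  reV := R.reV
  Q1 := R.Q1
  E0 := R.E0
  kerC := R.kerC
  kerA := R.kerA
  kerR := R.kerR
  F_ph := fun om hom h => R.F_ph om hom (lt_of_lt_of_le h h1)
  tau_ph := fun om hom h => R.tau_ph om hom (lt_of_lt_of_le h h1)
  cc_ne := fun om hom h => R.cc_ne om hom (lt_of_lt_of_le h h1)
  tau_sq := fun om hom h => R.tau_sq om hom (lt_of_lt_of_le h h1)
  law := fun p q hp hq h => R.law p q hp hq (by
    have h2 : (p : ℝ) < r' * q := h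
    exact h2.trans_le (mul_le_mul_of_nonneg_right h1 (Nat.cast_nonneg _)))

end Pool.Agent.MP_ae5b4e_an_LOC
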