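import Mathlib
import Pool.Agent.Lib.MP_ae5b4e_an_LOC.BgP0
import Pool.Agent.Lib.MP_ae5b4e_an_LOC.BgRB
import Pool.Agent.Lib.MP_ae5b4e_an_LOC.LkJ
import Pool.Agent.Lib.MP_ae5b4e_an_LOC.SHRB
import Pool.Agent.Lib.MP_ae5b4e_an_LOC.NmP

/-!
# MP_ae5b4e_an, project LOC: the whole background of a non-circular pencil
-/

set_option autoImplicit false

noncomputable section

namespace Pool.Agent.MP_ae5b4e_an_LOC

open Set Filter Topology
open scoped ContDiff Matrix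
open Pool.Agent.MP_ae5b4e_an_hopf (det3 dd ddx Wr L1 Curve)
open Pool.Agent.MP_ae5b4e_an_RG Pool.Agent.MP_ae5b4e_an_NC
open Pool.Agent.MP_ae5b4e_an_RIG (Bnd)

variable {m : ℝ}

/-- restriction to smaller rotation numbers -/
lemma IB.shrink {P0 : ℝ → Fin 3 → ℝ} {w0 w1 : ℝ} {F : ℝ → ℝ → ℝ} (h : IB P0 w0 F)
    (hw : w1 ≤ w0) : IB P0 w1 F where
  curve := h.curve
  cont := h.cont.mono (prod_mono (Ioo_subset_Ioo_right hw) le_rfl)
  gt w hw' := h.gt w ⟨hw'.1, hw'.2.trans_le hw⟩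
  lt w hw' := h.lt w ⟨hw'.1, hw'.2.trans_le hw⟩
  per w hw' := h.per w ⟨hw'.1, hw'.2.trans_le hw⟩
  mono_w t := (h.mono_w t).mono (Ioo_subset_Ioo_right hw)
  mono_t w hw' := h.mono_t w ⟨hw'.1, hw'.2.trans_le hw⟩
  law w hw' := h.law w ⟨hw'.1, hw'.2.trans_le hw⟩
  rot p q hq hw' := h.rot p q hq ⟨hw'.1, hw'.2.trans_le hw⟩

/-- THE BACKGROUND: for every modulus `0 < m < 1` and every `δ > 0` the data of the linear theory
(`B`, `D`), the real background `R` of the nonlinear half, the normalized curve `P0`, and the linear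
map `T` between them. -/
theorem bg_exists (h0 : 0 < m) (h1 : m < 1) {δ : ℝ} (hδ : 0 < δ) :
    ∃ (B : Bg) (D : KerD B) (R : RB B D) (P0 : ℝ → V3) (T : V3 ≃ₗ[ℝ] V3),
      B.r ≤ δ ∧ R.m1 = 1 - m ∧
      -- the normalized curve
      IB P0 B.r R.F ∧ (∀ x, Wr P0 x = 1) ∧
      (∀ x, deriv (deriv (deriv P0)) x = -(r0J m x) • deriv P0 x - m0J m x • P0 x) ∧
      (∀ om ∈ Ioo 0 B.r, ∀ y, L1 P0 y (R.F om y) < 0) ∧
      (∀ om ∈ Ioo 0 B.r, ∀ y, R.tau om y = tau0 P0 (R.F om) y) ∧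
      -- the frame
      (∀ x, R.P x = T (P0 x)) ∧ (∀ x, R.P1 x = (1 / (2 * Real.pi)) • T (deriv P0 x)) ∧
      BC R.m1 R.e (2 * Real.pi) R.P R.P1 ∧
      -- the analytic bounds
      ∀ ρ, 0 ≤ ρ → ρ < 2 * Real.pi * hJ m → ∃ L, 0 ≤ L ∧ BW ρ L R.m1 R.e R.P R.P1 := by
  obtain ⟨B, hB, D, R, hh, hm1, he, hV, hF, ht, -⟩ := exists_rbJ m h0 h1
  obtain ⟨s, M, hs, hM, hdet, hWr, hP, hP1⟩ := exists_M h0.le h1
  have hπ := Real.pi_pos
  have hr : 0 < min B.r δ := lt_min B.r_pos hδ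
  have hRP : ∀ x, R.P x = PJ m (4 * KK m * x) := by
    intro x
    funext i
    show (R.V i x).re = _
    rw [hV]
    exact VJ_re h0 h1 i x
  have hRP1 : ∀ x, R.P1 x = WJ m x := by
    intro x
    funext i
    show (deriv (R.V i) x / (2 * Real.pi)).re = _
    rw [hV]
    exact VJ_deriv_re h0 h1 i x
  have hRP' : R.P = fun x => PJ m (4 * KK m * x) := funext hRP
  have hRP1' : R.P1 = WJ m := funext hRP1
  have hbc : BC R.m1 R.e (2 * Real.pi) R.P R.P1 := by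
    rw [hm1, he, hRP', hRP1']
    exact bcJ h0 h1
  refine ⟨B.shrink (min B.r δ) hr (min_le_left _ _), D.shrink (min B.r δ) hr (min_le_left _ _),
    R.shrink (min B.r δ) hr (min_le_left _ _), PM m M,
    LinearEquiv.smulOfNeZero ℝ V3 (-s)⁻¹ (inv_ne_zero (by linarith)), min_le_right _ _, hm1,
    ?_, hWr, fun x => ode_PM h0.le h1 M x, ?_, ?_, ?_, ?_, hbc, ?_⟩
  · show IB (PM m M) (min B.r δ) R.F
    rw [hF]
    exact (hB.ib hdet).shrink (min_le_left _ _)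
  · intro om hom y
    show L1 (PM m M) y (R.F om y) < 0
    rw [hF]
    exact hB.neg hdet om ⟨hom.1, lt_of_lt_of_le hom.2 (min_le_left _ _)⟩ y
  · intro om hom y
    show R.tau om y = tau0 (PM m M) (R.F om) y
    rw [hF, ht]
    exact hB.tau hdet om ⟨hom.1, lt_of_lt_of_le hom.2 (min_le_left _ _)⟩ y
  · intro x
    show R.P x = (-s)⁻¹ • PM m M x
    rw [hRP, hP, smul_smul, inv_mul_cancel₀ (by linarith), one_smul]
  · intro x
    show R.P1 x = (1 / (2 * Real.pi)) • ((-s)⁻¹ • deriv (PM m M) x)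
    rw [hRP1, hP1, smul_smul, smul_smul]
    have : 1 / (2 * Real.pi) * (-s)⁻¹ * (-s * (2 * Real.pi)) = 1 := by
      field_simp
    rw [this, one_smul]
  · intro ρ hρ hρh
    obtain ⟨L, hL, hw⟩ := wr_J h0 h1 hρ hρh
    refine ⟨L, hL, ?_⟩
    show BW ρ L R.m1 R.e R.P R.P1
    refine ⟨fun k => ?_, fun k => ?_, hbc.E0, hbc.E1, hbc.E2, hbc.Q0, hbc.Q1⟩
    · rw [hRP']
      exact (hw k).1
    · rw [hRP1']
      exact (hw k).2

end Pool.Agent.MP_ae5b4e_an_LOC
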