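import Pool.Agent.Lib.MP_ae5b4e_an_LOC.CRd

/-!
# LOC, LT-6 (CR), the crossing lemma
-/

set_option autoImplicit false

namespace Pool.Agent.MP_ae5b4e_an_LOC

open Set Metric Complex Filter Topology
open Pool.Agent.Lib.MP_ae5b4e_an_LL (ExtH hrad hdom SubH)

/-- large values of `Lam / om ^ 2` -/
theorem exists_lam_big (B : Bg) (M : ℝ) {ρ : ℝ} (hρ : 0 < ρ) :
    ∃ om : ℝ, 0 < om ∧ om < ρ ∧ om < B.r ∧ M < ‖B.Lam om / (om : ℂ) ^ 2‖ := by
  have h0 : (0 : ℂ) ∈ ball (0 : ℂ) B.r := mem_ball_self B.r_pos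
  have hc : ContinuousAt B.Lam 0 := (B.Lam_an 0 h0).continuousAt
  have hL : 0 < ‖B.Lam 0‖ := norm_pos_iff.2 (B.Lam_ne 0 h0)
  have h1 : ∀ᶠ om in 𝓝 (0 : ℂ), ‖B.Lam 0‖ / 2 < ‖B.Lam om‖ :=
    hc.norm.eventually (lt_mem_nhds (half_lt_self hL))
  obtain ⟨ε, hε, hb⟩ := Metric.eventually_nhds_iff_ball.1 h1
  set a : ℝ := min (min (ρ / 2) (ε / 2)) (min (B.r / 2) (‖B.Lam 0‖ / (2 * (|M| + 1)))) with ha
  have ha0 : 0 < a := by
    have := B.r_pos
    positivity
  have h2 : a ≤ ρ / 2 := (min_le_left _ _).trans (min_le_left _ _)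
  have h3 : a ≤ ε / 2 := (min_le_left _ _).trans (min_le_right _ _)
  have h4 : a ≤ B.r / 2 := (min_le_right _ _).trans (min_le_left _ _)
  have h5 : a ≤ ‖B.Lam 0‖ / (2 * (|M| + 1)) := (min_le_right _ _).trans (min_le_right _ _)
  have hr := B.r_pos
  have hr1 : B.r ≤ 1 := by
    have := B.K_r_le
    have := B.rho_le
    have := B.one_le_K
    nlinarith
  refine ⟨a, ha0, by linarith, by linarith, ?_⟩
  have h6 : ‖B.Lam 0‖ / 2 < ‖B.Lam a‖ := hb a (by
    rw [mem_ball_zero_iff, Complex.norm_real, Real.norm_eq_abs, abs_of_pos ha0]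
    linarith)
  rw [norm_div, norm_pow, Complex.norm_real, Real.norm_eq_abs, abs_of_pos ha0,
    lt_div_iff₀ (by positivity)]
  have h7 : a * (2 * (|M| + 1)) ≤ ‖B.Lam 0‖ := by
    rwa [le_div_iff₀ (by positivity)] at h5
  have h8 : M * a ^ 2 ≤ |M| * a := by
    have h9 : a ^ 2 ≤ a := by nlinarith
    calc M * a ^ 2 ≤ |M| * a ^ 2 := mul_le_mul_of_nonneg_right (le_abs_self M) (by positivity)
      _ ≤ |M| * a := mul_le_mul_of_nonneg_left h9 (abs_nonneg M)
  nlinarith

/-- three values of `om` with distinct `Lam / om ^ 2` -/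
theorem exists_three (B : Bg) {ρ : ℝ} (hρ : 0 < ρ) :
    ∃ o : Fin 3 → ℝ, (∀ i, 0 < o i ∧ o i < ρ ∧ o i < B.r) ∧
      ∀ i j, i ≠ j → B.Lam (o i) / (o i : ℂ) ^ 2 ≠ B.Lam (o j) / (o j : ℂ) ^ 2 := by
  obtain ⟨o0, a1, a2, a3, -⟩ := exists_lam_big B 0 hρ
  obtain ⟨o1, b1, b2, b3, b4⟩ := exists_lam_big B ‖B.Lam o0 / (o0 : ℂ) ^ 2‖ hρ
  obtain ⟨o2, c1, c2, c3, c4⟩ := exists_lam_big B ‖B.Lam o1 / (o1 : ℂ) ^ 2‖ hρ
  refine ⟨![o0, o1, o2], ?_, ?_⟩
  · intro i
    fin_cases i
    · exact ⟨a1, a2, a3⟩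
    · exact ⟨b1, b2, b3⟩
    · exact ⟨c1, c2, c3⟩
  · have h01 : B.Lam o0 / (o0 : ℂ) ^ 2 ≠ B.Lam o1 / (o1 : ℂ) ^ 2 := fun h => by
      rw [h] at b4
      exact lt_irrefl _ b4
    have h12 : B.Lam o1 / (o1 : ℂ) ^ 2 ≠ B.Lam o2 / (o2 : ℂ) ^ 2 := fun h => by
      rw [h] at c4
      exact lt_irrefl _ c4
    have h02 : B.Lam o0 / (o0 : ℂ) ^ 2 ≠ B.Lam o2 / (o2 : ℂ) ^ 2 := fun h => by
      rw [h] at b4
      exact lt_irrefl _ (b4.trans c4)
    intro i j hij
    fin_cases i <;> fin_cases j <;> first | exact absurd rfl hij | skip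
    · exact h01
    · exact h02
    · exact h01.symm
    · exact h12
    · exact h02.symm
    · exact h12.symm

namespace CRD

variable {B : Bg} {t : ℝ} {f : Fin 3 → ℂ → ℂ} {G : ℂ → ℂ → ℂ} {c0 : ℂ → ℂ} {x0 : ℂ} {d : ℝ}
  {psi Xl : ℂ → ℂ → ℂ}

/-- the extension of `G` -/
theorem exists_Ge (D : CRD B t f G c0 x0 d psi Xl) {k0 : ℝ} (hk0 : 0 < k0)
    (hext : ∀ om : ℂ, ‖om‖ ≤ k0 * (d / (4096 * B.K)) →
      ExtH (fun p : ℂ × ℂ => G p.1 p.2) (x0 - I * (d / 64 : ℝ)) univ
        (d / 64 * (1 + k0 / (1024 * B.K))) om) (hk1 : k0 < 1) :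
    ∃ Ge : ℂ → ℂ → ℂ, AnalyticOnNhd ℂ (fun p : ℂ × ℂ => Ge p.1 p.2)
      (ball 0 (k0 * d / (65536 * B.K)) ×ˢ ball x0 (k0 * d / (65536 * B.K))) ∧
      ∀ om ∈ ball (0 : ℂ) (k0 * d / (65536 * B.K)), ∀ φ ∈ ball x0 (k0 * d / (65536 * B.K)),
        |φ.im| < t - 2 * B.K * ‖om‖ → Ge om φ = G om φ := by
  have hd := D.d_pos
  have hK := D.K0
  have hK1 := B.one_le_K
  set φ0 : ℂ := x0 - I * (d / 64 : ℝ) with hφ0
  set s1 : ℝ := d / 64 * (1 + k0 / (1024 * B.K)) with hs1
  have hs1' : s1 = d / 64 + k0 * d / (65536 * B.K) := by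
    rw [hs1]
    field_simp
    ring
  obtain ⟨Fh, hF1, -, hF3⟩ := Pool.Agent.Lib.MP_ae5b4e_an_LL.exists_hext
    (fun p : ℂ × ℂ => G p.1 p.2) φ0 univ
  have homle : ∀ om ∈ ball (0 : ℂ) (k0 * d / (65536 * B.K)),
      ‖om‖ ≤ k0 * (d / (4096 * B.K)) := by
    intro om h
    rw [mem_ball_zero_iff] at h
    refine h.le.trans ?_
    rw [← mul_div_assoc]
    apply div_le_div_of_nonneg_left (by positivity) (by positivity)
    linarith
  have hdom : ∀ om ∈ ball (0 : ℂ) (k0 * d / (65536 * B.K)), ∀ φ ∈ ball φ0 s1,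
      (om, φ) ∈ hdom (fun p : ℂ × ℂ => G p.1 p.2) φ0 univ := fun om h φ hφ =>
    ⟨s1, hφ, hext om (homle om h)⟩
  have hsub : ball x0 (k0 * d / (65536 * B.K)) ⊆ ball φ0 s1 := by
    intro φ h
    rw [mem_ball] at h ⊢
    have h1 : dist x0 φ0 = d / 64 := by
      rw [dist_eq_norm, hφ0]
      have : x0 - (x0 - I * (d / 64 : ℝ)) = I * (d / 64 : ℝ) := by ring
      rw [this, norm_mul, Complex.norm_I, one_mul, Complex.norm_real, Real.norm_eq_abs,
        abs_of_pos (by positivity)]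
    calc dist φ φ0 ≤ dist φ x0 + dist x0 φ0 := dist_triangle _ _ _
      _ < s1 := by
          rw [h1, hs1']
          linarith
  refine ⟨fun om φ => Fh (om, φ), ?_, ?_⟩
  · rintro ⟨om, φ⟩ ⟨h, hφ⟩
    exact hF1 _ (hdom om h φ (hsub hφ))
  · intro om h φ hφ him
    have hom4 : ‖om‖ < B.r / 4 := by
      have h1 := homle om h
      have h2 : k0 * (d / (4096 * B.K)) ≤ d / 4096 := by
        have h3 : d / (4096 * B.K) ≤ d / 4096 := by
          apply div_le_div_of_nonneg_left hd.le (by norm_num)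
          linarith
        have h4 : 0 ≤ d / (4096 * B.K) := by positivity
        nlinarith
      have := D.d_r
      linarith
    have hlow : ‖om‖ < d / (4096 * B.K) := by
      refine (homle om h).trans_lt ?_
      have : 0 < d / (4096 * B.K) := by positivity
      nlinarith
    have hlp := D.low_pos hlow
    set S : Set ℂ := ball φ0 s1 ∩ Sp (t - 2 * B.K * ‖om‖) with hS
    have hSc : IsPreconnected S := ((convex_ball _ _).inter (convex_Sp _)).isPreconnected
    have hφ0S : φ0 ∈ S := by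
      refine ⟨mem_ball_self (by positivity), ?_⟩
      rw [mem_Sp, hφ0]
      have : (x0 - I * (d / 64 : ℝ)).im = t - d / 64 := by simp [D.im]
      rw [this, abs_lt]
      have := D.d_t
      have h3 : 0 ≤ 2 * B.K * ‖om‖ := by positivity
      constructor <;> linarith
    have ha1 : AnalyticOnNhd ℂ (fun φ => Fh (om, φ)) S := fun ζ hζ =>
      AnalyticAt.comp (g := Fh) (f := fun φ : ℂ => (om, φ)) (x := ζ) (hF1 _ (hdom om h ζ hζ.1))
        (analyticAt_const.prod analyticAt_id)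
    have ha2 : AnalyticOnNhd ℂ (fun φ => G om φ) S := fun ζ hζ =>
      AnalyticAt.comp (g := fun p : ℂ × ℂ => G p.1 p.2) (f := fun φ : ℂ => (om, φ)) (x := ζ)
        (D.feq.an om ζ hom4 hζ.2) (analyticAt_const.prod analyticAt_id)
    have hev : (fun φ => Fh (om, φ)) =ᶠ[𝓝 φ0] fun φ => G om φ := by
      have h5 := hF3 om (hdom om h φ0 hφ0S.1)
      have h6 : Tendsto (fun φ : ℂ => (om, φ)) (𝓝 φ0) (𝓝 (om, φ0)) :=
        (Continuous.prodMk_right om).tendsto φ0
      exact h6.eventually h5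
    exact ha1.eqOn_of_preconnected_of_eventuallyEq ha2 hSc hφ0S hev ⟨hsub hφ, him⟩

end CRD

/-- THEOREM CR -/
theorem cr_stmt (hGQ : GQStmt) (B : Bg) : CRStmt B := by
  have hK := B.one_le_K
  have hK0 : 0 < B.K := by linarith
  have hr := B.r_pos
  have hrho := B.rho_pos
  have hr_rho : B.r ≤ B.rho := by
    have := B.K_r_le
    nlinarith
  obtain ⟨k0, hk0, hk1, hG⟩ := hGQ (32 * B.K) (by linarith)
  set c' : ℝ := k0 / (262144 * B.K) with hc'
  have hc'0 : 0 < c' := by positivity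
  set c : ℝ := c' * (B.r / B.rho) with hc
  have hc0 : 0 < c := by positivity
  have hrr : B.r / B.rho ≤ 1 := by rwa [div_le_one hrho]
  refine ⟨c, hc0, ?_, ?_⟩
  · have h1 : c' ≤ 1 / 4 := by
      rw [hc', div_le_iff₀ (by positivity)]
      nlinarith
    calc c ≤ c' * 1 := mul_le_mul_of_nonneg_left hrr hc'0.le
      _ ≤ 1 / 4 := by linarith
  intro t f G c0 ht hth hsol hfeq x0 d0 him hd0 hd0rho hd0t hfar
  set d : ℝ := min d0 B.r with hd
  have hdpos : 0 < d := lt_min hd0 hr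
  have hdd0 : d ≤ d0 := min_le_left _ _
  have hdr : d ≤ B.r := min_le_right _ _
  have hcd : c * d0 ≤ c' * d := by
    have h1 : B.r / B.rho * d0 ≤ d := by
      apply le_min
      · calc B.r / B.rho * d0 ≤ 1 * d0 := mul_le_mul_of_nonneg_right hrr hd0.le
          _ = d0 := one_mul _
      · rw [div_mul_eq_mul_div, div_le_iff₀ hrho]
        exact mul_le_mul_of_nonneg_left hd0rho hr.le
    calc c * d0 = c' * (B.r / B.rho * d0) := by rw [hc]; ring
      _ ≤ c' * d := mul_le_mul_of_nonneg_left h1 hc'0.le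
  -- the time map near `x0`
  obtain ⟨psi, hp1, hp2, hp3⟩ := B.near x0 d (by rw [him]; exact ht.le) (by rw [him]; exact hth)
    hdpos (hdd0.trans hd0rho) (fun n => hdd0.trans (hfar n))
  obtain ⟨Xl, hX1, hX2⟩ := loc_inv hK hdpos hp1 hp2
  have D : CRD B t f G c0 x0 d psi Xl :=
    { t_pos := ht
      t_le := hth
      sol := hsol
      feq := hfeq
      im := him
      d_pos := hdpos
      d_t := hdd0.trans hd0t
      d_r := hdr
      psi_eq := hp3
      Xl_an := hX1
      Xl_close := fun om h φ hφ => (hX2 om h φ hφ).1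
      Xl_psi := fun om h φ hφ => (hX2 om h φ hφ).2.1
      Xl_mem := fun om h φ hφ => (hX2 om h φ hφ).2.2 }
  obtain ⟨Ge, hGe1, hGe2⟩ := D.exists_Ge hk0 (D.gain hk0 hk1 hG) hk1
  set δ : ℝ := k0 * d / (65536 * B.K) with hδ
  have hδ0 : 0 < δ := by positivity
  have hδd : δ ≤ d / 65536 := by
    rw [hδ, div_le_div_iff₀ (by positivity) (by norm_num)]
    have : k0 * d ≤ 1 * d := mul_le_mul_of_nonneg_right hk1.le hdpos.le
    have h2 : d ≤ d * B.K := le_mul_of_one_le_right hdpos.le hK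
    nlinarith
  have hcdδ : c * d0 ≤ δ / 4 := by
    refine hcd.trans (le_of_eq ?_)
    rw [hc', hδ]
    field_simp
    ring
  -- three values of `om`
  obtain ⟨o, ho, hodist⟩ := exists_three B (show 0 < δ / (64 * B.K) by positivity)
  have hoδ : ∀ i, o i * (64 * B.K) < δ := fun i => by
    have := (ho i).2.1
    rwa [lt_div_iff₀ (by positivity)] at this
  have hoδ' : ∀ i, o i < δ / 64 := fun i => by
    have h1 := hoδ i
    have h2 := (ho i).1
    nlinarith
  have honorm : ∀ i, ‖((o i : ℝ) : ℂ)‖ = o i := fun i => by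
    rw [Complex.norm_real, Real.norm_eq_abs, abs_of_pos (ho i).1]
  have hodK : ∀ i, ((o i : ℝ) : ℂ) ∈ ball (0 : ℂ) (d / B.K) := fun i => by
    rw [mem_ball_zero_iff, honorm, lt_div_iff₀ hK0]
    have h1 := hoδ i
    have h2 := (ho i).1
    nlinarith
  -- the points `psi -+ om / 2`
  have hpsi : ∀ i, ∀ x ∈ ball x0 (δ / 2), ‖psi (o i) x - x‖ ≤ o i := by
    intro i x hx
    have h1 := hp2 (o i) (hodK i) x (ball_subset_ball (by linarith) hx)
    rw [honorm] at h1
    refine h1.trans ?_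
    rw [div_le_iff₀ hdpos]
    have h2 := hoδ i
    have h3 := (ho i).1
    have h4 : B.K * o i ≤ d := by nlinarith
    nlinarith
  have hpt : ∀ i, ∀ x ∈ ball x0 (δ / 2), psi (o i) x - (o i : ℂ) / 2 ∈ ball x0 δ ∧
      psi (o i) x + (o i : ℂ) / 2 ∈ ball x0 δ := by
    intro i x hx
    have h1 := hpsi i x hx
    have h2 := hoδ' i
    have h3 : ‖(o i : ℂ) / 2‖ = o i / 2 := by
      rw [norm_div, honorm, Complex.norm_ofNat]
    rw [mem_ball, dist_eq_norm] at hx
    constructor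
    · rw [mem_ball, dist_eq_norm]
      calc ‖psi (o i) x - (o i : ℂ) / 2 - x0‖ =
          ‖(psi (o i) x - x) + ((x - x0) - (o i : ℂ) / 2)‖ := by
            congr 1
            ring
        _ ≤ ‖psi (o i) x - x‖ + ‖(x - x0) - (o i : ℂ) / 2‖ := norm_add_le _ _
        _ ≤ ‖psi (o i) x - x‖ + (‖x - x0‖ + ‖(o i : ℂ) / 2‖) := by
            gcongr
            exact norm_sub_le _ _
        _ < δ := by
            rw [h3]
            linarith
    · rw [mem_ball, dist_eq_norm]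
      calc ‖psi (o i) x + (o i : ℂ) / 2 - x0‖ =
          ‖(psi (o i) x - x) + ((x - x0) + (o i : ℂ) / 2)‖ := by
            congr 1
            ring
        _ ≤ ‖psi (o i) x - x‖ + ‖(x - x0) + (o i : ℂ) / 2‖ := norm_add_le _ _
        _ ≤ ‖psi (o i) x - x‖ + (‖x - x0‖ + ‖(o i : ℂ) / 2‖) := by
            gcongr
            exact norm_add_le _ _
        _ < δ := by
            rw [h3]
            linarith
  have hoball : ∀ i, ((o i : ℝ) : ℂ) ∈ ball (0 : ℂ) δ := fun i => by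
    rw [mem_ball_zero_iff, honorm]
    linarith [hoδ' i]
  -- the extended values of `F`
  set He : Fin 3 → ℂ → ℂ := fun i x => c0 (o i) +
    (Ge (o i) (psi (o i) x - (o i : ℂ) / 2) - Ge (o i) (psi (o i) x + (o i : ℂ) / 2)) / (o i : ℂ)
    with hHe
  have hHe_an : ∀ i, AnalyticOnNhd ℂ (He i) (ball x0 (δ / 2)) := by
    intro i x hx
    have hpa : AnalyticAt ℂ (psi (o i)) x :=
      AnalyticAt.comp (g := fun p : ℂ × ℂ => psi p.1 p.2) (f := fun x : ℂ => ((o i : ℂ), x))
        (x := x) (hp1 _ ⟨hodK i, ball_subset_ball (by linarith) hx⟩)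
        (analyticAt_const.prod analyticAt_id)
    obtain ⟨q1, q2⟩ := hpt i x hx
    have hg : ∀ y : ℂ, y ∈ ball x0 δ → AnalyticAt ℂ (fun y => Ge (o i) y) y := fun y hy =>
      AnalyticAt.comp (g := fun p : ℂ × ℂ => Ge p.1 p.2) (f := fun x : ℂ => ((o i : ℂ), x))
        (x := y) (hGe1 _ ⟨hoball i, hy⟩) (analyticAt_const.prod analyticAt_id)
    have g1 : AnalyticAt ℂ (fun x => Ge (o i) (psi (o i) x - (o i : ℂ) / 2)) x :=
      AnalyticAt.comp (g := fun y => Ge (o i) y) (f := fun x => psi (o i) x - (o i : ℂ) / 2)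
        (x := x) (hg _ q1) (hpa.sub analyticAt_const)
    have g2 : AnalyticAt ℂ (fun x => Ge (o i) (psi (o i) x + (o i : ℂ) / 2)) x :=
      AnalyticAt.comp (g := fun y => Ge (o i) y) (f := fun x => psi (o i) x + (o i : ℂ) / 2)
        (x := x) (hg _ q2) (hpa.add analyticAt_const)
    exact analyticAt_const.add ((g1.sub g2).div analyticAt_const
      (by exact_mod_cast (ho i).1.ne'))
  -- on the deep part they are the values of `F`
  have hdeep : ∀ i, ∀ x ∈ ball x0 (δ / 2), |x.im| < t - 4 * B.K * o i →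
      He i x = B.F f (o i) x := by
    intro i x hx hxim
    have h0 := (ho i).1
    have hor : o i < B.r / 4 := by
      have := hoδ' i
      linarith
    have h1 : psi (o i) x = B.ph (o i) x := by
      apply hp3 _ (hodK i) x (ball_subset_ball (by linarith) hx)
      · rw [honorm]
        linarith
      · rw [honorm]
        have : 0 ≤ B.K * o i := by positivity
        linarith
    have h2 := hfeq.fe (o i) x (by rw [honorm]; exact hor) (by rw [honorm]; exact hxim)
    obtain ⟨q1, q2⟩ := hpt i x hx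
    have hclose := hpsi i x hx
    have himc := abs_le.1 ((Complex.abs_im_le_norm (psi (o i) x - x)).trans hclose)
    rw [Complex.sub_im] at himc
    have hxim' := abs_lt.1 hxim
    have hKo : o i ≤ B.K * o i := le_mul_of_one_le_left h0.le hK
    have e1 : (psi (o i) x - (o i : ℂ) / 2).im = (psi (o i) x).im := by
      simp
    have e2 : (psi (o i) x + (o i : ℂ) / 2).im = (psi (o i) x).im := by
      simp
    have him3 : |(psi (o i) x).im| < t - 2 * B.K * ‖((o i : ℝ) : ℂ)‖ := by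
      rw [honorm, abs_lt]
      constructor <;> linarith [himc.1, himc.2, hxim'.1, hxim'.2]
    have g1 := hGe2 (o i) (hoball i) _ q1 (by rw [e1]; exact him3)
    have g2 := hGe2 (o i) (hoball i) _ q2 (by rw [e2]; exact him3)
    have hne : (o i : ℂ) ≠ 0 := by exact_mod_cast h0.ne'
    show c0 (o i) + (Ge (o i) (psi (o i) x - (o i : ℂ) / 2) -
      Ge (o i) (psi (o i) x + (o i : ℂ) / 2)) / (o i : ℂ) = B.F f (o i) x
    rw [g1, g2, h1, h2]
    field_simp
    ring
  -- the solution of the linear system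
  set lam : Fin 3 → ℂ := fun i => B.Lam (o i) / (o i : ℂ) ^ 2 with hlam
  have h01 : lam 0 - lam 1 ≠ 0 := sub_ne_zero.2 (hodist 0 1 (by decide))
  have h02 : lam 0 - lam 2 ≠ 0 := sub_ne_zero.2 (hodist 0 2 (by decide))
  have h12 : lam 1 - lam 2 ≠ 0 := sub_ne_zero.2 (hodist 1 2 (by decide))
  set v : Fin 3 → ℂ → ℂ := fun i x => He i x / (o i : ℂ) ^ 4 with hv
  set g2 : ℂ → ℂ := fun x => (v 0 x / (lam 0 - lam 1) - v 1 x / (lam 0 - lam 1)) / (lam 0 - lam 2) -
    (v 1 x / (lam 1 - lam 2) - v 2 x / (lam 1 - lam 2)) / (lam 0 - lam 2) with hg2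
  set g1 : ℂ → ℂ := fun x => (v 0 x - v 1 x) / (lam 0 - lam 1) - (lam 0 + lam 1) * g2 x with hg1
  set g0 : ℂ → ℂ := fun x => v 0 x - lam 0 * g1 x - lam 0 ^ 2 * g2 x with hg0
  have hone : ∀ i, (o i : ℂ) ≠ 0 := fun i => by exact_mod_cast (ho i).1.ne'
  have hv_an : ∀ i, AnalyticOnNhd ℂ (v i) (ball x0 (δ / 2)) := fun i x hx =>
    (hHe_an i x hx).div analyticAt_const (pow_ne_zero 4 (hone i))
  have hg2_an : AnalyticOnNhd ℂ g2 (ball x0 (δ / 2)) := fun x hx =>
    ((((hv_an 0 x hx).div analyticAt_const h01).sub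
      ((hv_an 1 x hx).div analyticAt_const h01)).div analyticAt_const h02).sub
    ((((hv_an 1 x hx).div analyticAt_const h12).sub
      ((hv_an 2 x hx).div analyticAt_const h12)).div analyticAt_const h02)
  have hg1_an : AnalyticOnNhd ℂ g1 (ball x0 (δ / 2)) := fun x hx =>
    (((hv_an 0 x hx).sub (hv_an 1 x hx)).div analyticAt_const h01).sub
      (analyticAt_const.mul (hg2_an x hx))
  have hg0_an : AnalyticOnNhd ℂ g0 (ball x0 (δ / 2)) := fun x hx =>
    ((hv_an 0 x hx).sub (analyticAt_const.mul (hg1_an x hx))).sub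
      (analyticAt_const.mul (hg2_an x hx))
  -- values on the deep part
  have hval : ∀ x ∈ ball x0 (δ / 2), (∀ i, |x.im| < t - 4 * B.K * o i) →
      g0 x = f 0 x ∧ g1 x = f 1 x ∧ g2 x = f 2 x := by
    intro x hx hxi
    have hvi : ∀ i, v i x = f 0 x + lam i * f 1 x + lam i ^ 2 * f 2 x := by
      intro i
      have h1 := hdeep i x hx (hxi i)
      have h2 := hone i
      simp only [hv, hlam]
      rw [h1]
      unfold Bg.F
      field_simp
    have e2 : g2 x = f 2 x := by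
      simp only [hg2]
      rw [hvi 0, hvi 1, hvi 2]
      field_simp
      ring
    have e1 : g1 x = f 1 x := by
      have : g1 x = (v 0 x - v 1 x) / (lam 0 - lam 1) - (lam 0 + lam 1) * g2 x := rfl
      rw [this, e2, hvi 0, hvi 1]
      field_simp
      ring
    have e0 : g0 x = f 0 x := by
      have : g0 x = v 0 x - lam 0 * g1 x - lam 0 ^ 2 * g2 x := rfl
      rw [this, e1, e2, hvi 0]
      ring
    exact ⟨e0, e1, e2⟩
  -- identity theorem
  have hident : ∀ g : ℂ → ℂ, ∀ i, AnalyticOnNhd ℂ g (ball x0 (δ / 2)) →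
      (∀ x ∈ ball x0 (δ / 2), (∀ i, |x.im| < t - 4 * B.K * o i) → g x = f i x) →
      ∀ x ∈ ball x0 (δ / 2), |x.im| < t → g x = f i x := by
    intro g i hg hgf x hx hxt
    have hSc : IsPreconnected (ball x0 (δ / 2) ∩ Sp t) :=
      ((convex_ball _ _).inter (convex_Sp _)).isPreconnected
    set x1 : ℂ := x0 - I * (δ / 4 : ℝ) with hx1
    have hx1im : x1.im = t - δ / 4 := by simp [hx1, him]
    have hx1b : x1 ∈ ball x0 (δ / 2) := by
      rw [mem_ball, dist_eq_norm]
      have : x1 - x0 = -(I * (δ / 4 : ℝ)) := by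
        rw [hx1]
        ring
      rw [this, norm_neg, norm_mul, Complex.norm_I, one_mul, Complex.norm_real,
        Real.norm_eq_abs, abs_of_pos (by positivity)]
      linarith
    have hdt : d ≤ t := hdd0.trans hd0t
    have hx1t : |x1.im| < t := by
      rw [hx1im, abs_lt]
      constructor <;> linarith
    have hev : g =ᶠ[𝓝 x1] f i := by
      have h3 : ∀ᶠ y in 𝓝 x1, y ∈ ball x0 (δ / 2) := isOpen_ball.mem_nhds hx1b
      have h4 : ∀ᶠ y in 𝓝 x1, |y.im| < t - δ / 8 := by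
        have hc : Continuous fun y : ℂ => |y.im| := continuous_abs.comp Complex.continuous_im
        apply hc.continuousAt.eventually (gt_mem_nhds _)
        show |x1.im| < t - δ / 8
        rw [hx1im, abs_lt]
        constructor <;> linarith
      filter_upwards [h3, h4] with y hy1 hy2
      apply hgf y hy1
      intro j
      have := hoδ j
      linarith
    exact (hg.mono inter_subset_left).eqOn_of_preconnected_of_eventuallyEq
      (fun y hy => hsol.an i y hy.2) hSc ⟨hx1b, hx1t⟩ hev ⟨hx, hxt⟩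
  have hball1 : ball x0 (c * d0) ⊆ ball x0 (δ / 2) := ball_subset_ball (by linarith)
  have hball2 : ball x0 (c * d0) ⊆ ball x0 δ := ball_subset_ball (by linarith)
  have hball3 : ball (0 : ℂ) (c * d0) ⊆ ball 0 δ := ball_subset_ball (by linarith)
  refine ⟨Ge, ![g0, g1, g2], hGe1.mono (prod_mono hball3 hball2), ?_, ?_, ?_⟩
  · intro i
    fin_cases i
    · exact hg0_an.mono hball1
    · exact hg1_an.mono hball1
    · exact hg2_an.mono hball1
  · intro om hom φ hφ _ himφ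
    exact hGe2 om (hball3 hom) φ (hball2 hφ) himφ
  · intro i x hx hxt
    fin_cases i
    · exact hident g0 0 hg0_an (fun x hx h => (hval x hx h).1) x (hball1 hx) hxt
    · exact hident g1 1 hg1_an (fun x hx h => (hval x hx h).2.1) x (hball1 hx) hxt
    · exact hident g2 2 hg2_an (fun x hx h => (hval x hx h).2.2) x (hball1 hx) hxt

end Pool.Agent.MP_ae5b4e_an_LOC
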