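import Pool.Agent.Lib.MP_ae5b4e_an_LOC.LTS

/-!
# LOC, LT-18 [FIN0]: a function which is analytic on the closed strip and even about the base point
is constant
-/

set_option autoImplicit false

namespace Pool.Agent.MP_ae5b4e_an_LOC

open Set Metric Complex ComplexConjugate Filter Topology

private theorem Fin0_convex (a b : ℝ) : Convex ℝ {x : ℂ | a < x.im ∧ x.im < b} :=
  (convex_halfSpace_im_gt a).inter (convex_halfSpace_im_lt b)

private theorem Fin0_open (a b : ℝ) : IsOpen {x : ℂ | a < x.im ∧ x.im < b} :=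
  (isOpen_lt continuous_const Complex.continuous_im).inter
    (isOpen_lt Complex.continuous_im continuous_const)

private theorem Fin0_per {f : ℂ → ℂ} {a b : ℝ}
    (hf : ∀ x : ℂ, a < x.im → x.im < b → f (x + 1) = f x) (n : ℤ) (x : ℂ) (h1 : a < x.im)
    (h2 : x.im < b) : f (x + n) = f x := by
  induction n using Int.induction_on with
  | zero => simp
  | succ i ih =>
    rw [← ih]
    have h3 := hf (x + (i : ℤ)) (by simpa using h1) (by simpa using h2)
    rw [← h3]
    push_cast
    ring_nf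
  | pred i ih =>
    rw [← ih]
    have h3 := hf (x + ((-(i : ℤ) - 1 : ℤ) : ℂ)) (by simpa using h1) (by simpa using h2)
    rw [← h3]
    push_cast
    ring_nf

/-- uniform radius of the local extensions -/
private theorem Fin0_unif {h : ℝ} (hh : 0 < h) {f : ℂ → ℂ}
    (hper : ∀ x : ℂ, |x.im| < h → f (x + 1) = f x)
    (hloc : ∀ x0 : ℂ, x0.im = h → ∃ e > 0, ∃ g : ℂ → ℂ, AnalyticOnNhd ℂ g (ball x0 e) ∧
      ∀ x ∈ ball x0 e, |x.im| < h → g x = f x) :
    ∃ d : ℝ, 0 < d ∧ d ≤ h ∧ ∀ x0 : ℂ, x0.im = h → ∃ g : ℂ → ℂ, AnalyticOnNhd ℂ g (ball x0 d) ∧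
      ∀ x ∈ ball x0 d, |x.im| < h → g x = f x := by
  let S : Set ℂ := (fun u : ℝ => (u : ℂ) + I * h) '' Icc 0 1
  have hS : IsCompact S := isCompact_Icc.image (by fun_prop)
  have hSim : ∀ x ∈ S, x.im = h := by
    rintro x ⟨u, _, rfl⟩
    simp
  choose e he g hg using hloc
  obtain ⟨d, hd, hd'⟩ := lebesgue_number_lemma_of_metric (s := S)
    (c := fun i : {x : ℂ // x.im = h} => ball i.1 (e i.1 i.2)) hS (fun _ => isOpen_ball)
    (fun x hx => mem_iUnion.2 ⟨⟨x, hSim x hx⟩, mem_ball_self (he x (hSim x hx))⟩)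
  refine ⟨min d h, lt_min hd hh, min_le_right _ _, ?_⟩
  intro x0 hx0
  have hx1 : x0 - (⌊x0.re⌋ : ℤ) ∈ S := by
    refine ⟨x0.re - ⌊x0.re⌋, ⟨?_, ?_⟩, ?_⟩
    · linarith [Int.floor_le x0.re]
    · linarith [Int.lt_floor_add_one x0.re]
    · apply Complex.ext
      · simp
      · simp [hx0]
  obtain ⟨⟨x1, hx1'⟩, hi⟩ := hd' _ hx1
  have hmap : ∀ x ∈ ball x0 (min d h), x - (⌊x0.re⌋ : ℤ) ∈ ball x1 (e x1 hx1') := by
    intro x hx
    apply hi
    rw [mem_ball, dist_eq_norm] at hx ⊢
    rw [sub_sub_sub_cancel_right]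
    exact lt_of_lt_of_le hx (min_le_left _ _)
  refine ⟨fun x => g x1 hx1' (x - (⌊x0.re⌋ : ℤ)), ?_, ?_⟩
  · intro x hx
    have h1 : AnalyticAt ℂ (fun x : ℂ => x - ((⌊x0.re⌋ : ℤ) : ℂ)) x :=
      analyticAt_id.sub analyticAt_const
    exact AnalyticAt.comp (f := fun x : ℂ => x - ((⌊x0.re⌋ : ℤ) : ℂ)) (x := x)
      ((hg x1 hx1').1 _ (hmap x hx)) h1
  · intro x hx hxh
    have h1 := (hg x1 hx1').2 _ (hmap x hx) (by simpa using hxh)
    refine h1.trans ?_
    have h2 := Fin0_per (f := f) (a := -h) (b := h) (fun y h3 h4 => hper y (abs_lt.2 ⟨h3, h4⟩))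
      ⌊x0.re⌋ (x - (⌊x0.re⌋ : ℤ)) (by simpa using (abs_lt.1 hxh).1)
      (by simpa using (abs_lt.1 hxh).2)
    rw [sub_add_cancel] at h2
    exact h2.symm

/-- the local extensions glue to one function -/
private theorem Fin0_glue {h d : ℝ} (hd : 0 < d) (hdh : d ≤ h) {f : ℂ → ℂ}
    (hf : AnalyticOnNhd ℂ f {x : ℂ | |x.im| < h})
    (hloc : ∀ x0 : ℂ, x0.im = h → ∃ g : ℂ → ℂ, AnalyticOnNhd ℂ g (ball x0 d) ∧
      ∀ x ∈ ball x0 d, |x.im| < h → g x = f x) :
    ∃ F : ℂ → ℂ, AnalyticOnNhd ℂ F {x : ℂ | -h < x.im ∧ x.im < h + d} ∧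
      ∀ x : ℂ, |x.im| < h → F x = f x := by
  classical
  choose g hg using hloc
  let q : ℂ → ℂ := fun x => (x.re : ℂ) + I * h
  have hq : ∀ x, (q x).im = h := fun x => by simp [q]
  have hqre : ∀ x, (q x).re = x.re := fun x => by simp [q]
  let F : ℂ → ℂ := fun x => if x.im < h then f x else g (q x) (hq x) x
  have hF1 : ∀ x : ℂ, x.im < h → F x = f x := fun x hx => if_pos hx
  have hF2 : ∀ x : ℂ, ¬ x.im < h → F x = g (q x) (hq x) x := fun x hx => if_neg hx
  have hFg : ∀ (x0 : ℂ) (hx0 : x0.im = h), ∀ x ∈ ball x0 d, F x = g x0 hx0 x := by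
    intro x0 hx0 x hx
    have hx' : ‖x - x0‖ < d := by rwa [mem_ball, dist_eq_norm] at hx
    have him : |x.im - h| < d := by
      have h1 := (Complex.abs_im_le_norm (x - x0)).trans_lt hx'
      rwa [Complex.sub_im, hx0] at h1
    have hre : |x.re - x0.re| < d := by
      have h1 := (Complex.abs_re_le_norm (x - x0)).trans_lt hx'
      rwa [Complex.sub_re] at h1
    have h2 := abs_lt.1 him
    by_cases hxh : x.im < h
    · rw [hF1 x hxh]
      exact ((hg x0 hx0).2 x hx (abs_lt.2 ⟨by linarith, hxh⟩)).symm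
    · rw [hF2 x hxh]
      -- the identity theorem on the intersection of the two balls
      have hxq : x ∈ ball (q x) d := by
        rw [mem_ball, dist_eq_norm]
        have h3 : x - q x = I * ((x.im - h : ℝ) : ℂ) := by
          apply Complex.ext
          · simp [q]
          · simp [q]
        rw [h3, norm_mul, Complex.norm_I, one_mul, Complex.norm_real]
        exact him
      obtain ⟨s, hs, hsd⟩ : ∃ s : ℝ, 0 < s ∧ |x.re - x0.re| + s < d := by
        refine ⟨(d - |x.re - x0.re|) / 2, by linarith, by linarith⟩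
      have hsd' : s < d := by linarith [abs_nonneg (x.re - x0.re)]
      let p : ℂ := (x.re : ℂ) + I * ((h - s : ℝ) : ℂ)
      have hp1 : p ∈ ball x0 d := by
        rw [mem_ball, dist_eq_norm]
        have h3 : p - x0 = ((x.re - x0.re : ℝ) : ℂ) + I * ((-s : ℝ) : ℂ) := by
          apply Complex.ext
          · simp [p]
          · simp [p, hx0]
        rw [h3]
        refine (norm_add_le _ _).trans_lt ?_
        rw [norm_mul, Complex.norm_I, one_mul, Complex.norm_real, Complex.norm_real,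
          Real.norm_eq_abs, Real.norm_eq_abs, abs_neg, abs_of_pos hs]
        exact hsd
      have hp2 : p ∈ ball (q x) d := by
        rw [mem_ball, dist_eq_norm]
        have h3 : p - q x = I * ((-s : ℝ) : ℂ) := by
          apply Complex.ext
          · simp [p, q]
          · simp [p, q]
        rw [h3, norm_mul, Complex.norm_I, one_mul, Complex.norm_real, Real.norm_eq_abs, abs_neg,
          abs_of_pos hs]
        exact hsd'
      have hpim : |p.im| < h := by
        have h3 : p.im = h - s := by simp [p]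
        rw [h3, abs_lt]
        constructor
        · linarith
        · linarith
      have hconv : IsPreconnected (ball x0 d ∩ ball (q x) d) :=
        ((convex_ball x0 d).inter (convex_ball (q x) d)).isPreconnected
      have hev : g (q x) (hq x) =ᶠ[𝓝 p] g x0 hx0 := by
        have h3 : ∀ᶠ y in 𝓝 p, y ∈ ball x0 d := isOpen_ball.mem_nhds hp1
        have h4 : ∀ᶠ y in 𝓝 p, y ∈ ball (q x) d := isOpen_ball.mem_nhds hp2
        have h5 : ∀ᶠ y in 𝓝 p, |y.im| < h :=
          (isOpen_lt (continuous_abs.comp Complex.continuous_im) continuous_const).mem_nhds hpim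
        filter_upwards [h3, h4, h5] with y hy1 hy2 hy3
        rw [(hg x0 hx0).2 y hy1 hy3, (hg (q x) (hq x)).2 y hy2 hy3]
      exact AnalyticOnNhd.eqOn_of_preconnected_of_eventuallyEq
        ((hg (q x) (hq x)).1.mono inter_subset_right) ((hg x0 hx0).1.mono inter_subset_left)
        hconv ⟨hp1, hp2⟩ hev ⟨hx, hxq⟩
  refine ⟨F, ?_, fun x hx => hF1 x (abs_lt.1 hx).2⟩
  intro x hx
  by_cases hxh : x.im < h
  · have h1 : |x.im| < h := abs_lt.2 ⟨hx.1, hxh⟩
    refine (hf x h1).congr ?_
    have h2 : ∀ᶠ y : ℂ in 𝓝 x, y.im < h :=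
      (isOpen_lt Complex.continuous_im continuous_const).mem_nhds hxh
    filter_upwards [h2] with y hy
    exact (hF1 y hy).symm
  · have hxq : x ∈ ball (q x) d := by
      rw [mem_ball, dist_eq_norm]
      have h3 : x - q x = I * ((x.im - h : ℝ) : ℂ) := by
        apply Complex.ext
        · simp [q]
        · simp [q]
      rw [h3, norm_mul, Complex.norm_I, one_mul, Complex.norm_real, Real.norm_eq_abs, abs_lt]
      have h4 := hx.2
      constructor
      · linarith [not_lt.1 hxh]
      · linarith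
    refine ((hg (q x) (hq x)).1 x hxq).congr ?_
    filter_upwards [isOpen_ball.mem_nhds hxq] with y hy
    exact (hFg (q x) (hq x) y hy).symm

/-- the general form of FIN0 -/
theorem fin0_core {h : ℝ} (hh : 0 < h) {f : ℂ → ℂ} (hf : AnalyticOnNhd ℂ f {x : ℂ | |x.im| < h})
    (hper : ∀ x : ℂ, |x.im| < h → f (x + 1) = f x)
    (hconj : ∀ x : ℂ, |x.im| < h → f (conj x) = conj (f x))
    (hloc : ∀ x0 : ℂ, x0.im = h → ∃ e > 0, ∃ g : ℂ → ℂ, AnalyticOnNhd ℂ g (ball x0 e) ∧
      (∀ x ∈ ball x0 e, |x.im| < h → g x = f x) ∧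
      (x0 = I * h → ∀ y : ℂ, ‖y‖ < e → g (I * h + y) = g (I * h - y))) :
    ∃ c : ℝ, ∀ x : ℂ, |x.im| < h → f x = c := by
  obtain ⟨d, hd, hdh, hloc'⟩ := Fin0_unif hh hper (fun x0 hx0 => by
    obtain ⟨e, he, g, hg1, hg2, _⟩ := hloc x0 hx0
    exact ⟨e, he, g, hg1, hg2⟩)
  obtain ⟨F, hF, hFf⟩ := Fin0_glue hd hdh hf hloc'
  set U : Set ℂ := {x : ℂ | -h < x.im ∧ x.im < h + d} with hU
  have hUo : IsOpen U := Fin0_open _ _
  have hUc : IsPreconnected U := (Fin0_convex _ _).isPreconnected
  -- periodicity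
  have hFper : ∀ x : ℂ, -h < x.im → x.im < h + d → F (x + 1) = F x := by
    intro x h1 h2
    have h3 : AnalyticOnNhd ℂ (fun x => F (x + 1)) U := by
      intro y hy
      have h4 : AnalyticAt ℂ (fun x : ℂ => x + 1) y := analyticAt_id.add analyticAt_const
      refine AnalyticAt.comp (f := fun x : ℂ => x + 1) (x := y) (hF (y + 1) ?_) h4
      simpa [hU] using hy
    have h0 : (0 : ℂ) ∈ U := by
      simp only [hU, mem_ofPred_eq, Complex.zero_im]
      constructor
      · linarith
      · linarith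
    refine AnalyticOnNhd.eqOn_of_preconnected_of_eventuallyEq h3 hF hUc h0 ?_ ⟨h1, h2⟩
    have h5 : ∀ᶠ y : ℂ in 𝓝 0, |y.im| < h :=
      (isOpen_lt (continuous_abs.comp Complex.continuous_im) continuous_const).mem_nhds (by
        simpa using hh)
    filter_upwards [h5] with y hy
    have h6 : |(y + 1).im| < h := by simpa using hy
    rw [hFf _ h6, hFf y hy, hper y hy]
  -- the symmetry
  set b : ℂ := I * h with hb
  have hbim : b.im = h := by simp [hb]
  have hsym : ∀ x : ℂ, h - d < x.im → x.im < h + d → F (2 * b - x) = F x := by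
    obtain ⟨e, he, g, hg1, hg2, hg3⟩ := hloc b hbim
    have hg3' := hg3 rfl
    -- `F = g` near `b`
    have hFg : ∀ x ∈ ball b (min e d), F x = g x := by
      intro x hx
      have hsub : ball b (min e d) ⊆ U := by
        intro y hy
        have hy' : ‖y - b‖ < min e d := by rwa [mem_ball, dist_eq_norm] at hy
        have h1 := (Complex.abs_im_le_norm (y - b)).trans_lt (hy'.trans_le (min_le_right _ _))
        rw [Complex.sub_im, hbim] at h1
        have h2 := abs_lt.1 h1
        exact ⟨by linarith, by linarith⟩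
      have hmin : 0 < min e d := lt_min he hd
      let p : ℂ := b - I * ((min e d / 2 : ℝ) : ℂ)
      have hp : p ∈ ball b (min e d) := by
        rw [mem_ball, dist_eq_norm]
        have h3 : p - b = -(I * ((min e d / 2 : ℝ) : ℂ)) := by
          simp only [p]
          ring
        rw [h3, norm_neg, norm_mul, Complex.norm_I, one_mul, Complex.norm_real, Real.norm_eq_abs,
          abs_of_pos (by linarith)]
        linarith
      have hpim : |p.im| < h := by
        have h3 : p.im = h - min e d / 2 := by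
          simp [p, hbim]
        rw [h3, abs_lt]
        have h4 : min e d ≤ h := (min_le_right _ _).trans hdh
        constructor
        · linarith
        · linarith
      refine AnalyticOnNhd.eqOn_of_preconnected_of_eventuallyEq (hF.mono hsub)
        (hg1.mono (ball_subset_ball (min_le_left _ _))) (convex_ball b _).isPreconnected hp ?_ hx
      have h3 : ∀ᶠ y in 𝓝 p, y ∈ ball b (min e d) := isOpen_ball.mem_nhds hp
      have h5 : ∀ᶠ y in 𝓝 p, |y.im| < h :=
        (isOpen_lt (continuous_abs.comp Complex.continuous_im) continuous_const).mem_nhds hpim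
      filter_upwards [h3, h5] with y hy1 hy2
      rw [hFf y hy2, hg2 y (ball_subset_ball (min_le_left _ _) hy1) hy2]
    intro x h1 h2
    set W : Set ℂ := {x : ℂ | h - d < x.im ∧ x.im < h + d} with hW
    have hWU : W ⊆ U := by
      intro y hy
      exact ⟨by linarith [hy.1], hy.2⟩
    have hrefl : ∀ y ∈ W, 2 * b - y ∈ W := by
      intro y hy
      have h3 : (2 * b - y).im = 2 * h - y.im := by
        simp [hbim]
      refine ⟨?_, ?_⟩
      · rw [h3]
        linarith [hy.2]
      · rw [h3]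
        linarith [hy.1]
    have h3 : AnalyticOnNhd ℂ (fun x => F (2 * b - x)) W := by
      intro y hy
      have h4 : AnalyticAt ℂ (fun x : ℂ => 2 * b - x) y := analyticAt_const.sub analyticAt_id
      exact AnalyticAt.comp (f := fun x : ℂ => 2 * b - x) (x := y) (hF _ (hWU (hrefl y hy))) h4
    have hbW : b ∈ W := ⟨by rw [hbim]; linarith, by rw [hbim]; linarith⟩
    refine AnalyticOnNhd.eqOn_of_preconnected_of_eventuallyEq h3 (hF.mono hWU)
      (Fin0_convex _ _).isPreconnected hbW ?_ ⟨h1, h2⟩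
    filter_upwards [isOpen_ball.mem_nhds (mem_ball_self (x := b) (lt_min he hd))] with y hy
    have hy' : ‖y - b‖ < min e d := by rwa [mem_ball, dist_eq_norm] at hy
    have hy2 : 2 * b - y ∈ ball b (min e d) := by
      rw [mem_ball, dist_eq_norm]
      have h4 : 2 * b - y - b = -(y - b) := by ring
      rw [h4, norm_neg]
      exact hy'
    rw [hFg y hy, hFg _ hy2]
    have h5 := hg3' (y - b) (hy'.trans_le (min_le_left _ _))
    have h6 : b + (y - b) = y := by ring
    have h7 : b - (y - b) = 2 * b - y := by ring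
    rw [h6, h7] at h5
    exact h5.symm
  -- the maximum
  have hcomp : IsCompact (Icc (0 : ℝ) 1 ×ℂ Icc (0 : ℝ) h) := isCompact_Icc.reProdIm isCompact_Icc
  have hsub : (Icc (0 : ℝ) 1 ×ℂ Icc (0 : ℝ) h) ⊆ U := by
    intro x hx
    have h1 := hx.2
    exact ⟨by linarith [h1.1], by linarith [h1.2]⟩
  have hne : (Icc (0 : ℝ) 1 ×ℂ Icc (0 : ℝ) h).Nonempty :=
    ⟨0, ⟨by simp, by simpa using hh.le⟩⟩
  obtain ⟨xm, hxm, hmax⟩ := hcomp.exists_isMaxOn hne
    ((hF.continuousOn.mono hsub).norm)
  have hb1 : ∀ x : ℂ, 0 ≤ x.im → x.im ≤ h → ‖F x‖ ≤ ‖F xm‖ := by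
    intro x h1 h2
    have h3 := Fin0_per hFper (-⌊x.re⌋) x (by linarith) (by linarith)
    rw [← h3]
    have hre : (x + ((-⌊x.re⌋ : ℤ) : ℂ)).re = x.re - ⌊x.re⌋ := by
      rw [Complex.add_re, Complex.intCast_re]
      push_cast
      ring
    apply hmax
    refine ⟨⟨?_, ?_⟩, ?_⟩
    · rw [hre]
      linarith [Int.floor_le x.re]
    · rw [hre]
      linarith [Int.lt_floor_add_one x.re]
    · have h4 : (x + ((-⌊x.re⌋ : ℤ) : ℂ)).im = x.im := by simp
      change (x + ((-⌊x.re⌋ : ℤ) : ℂ)).im ∈ Icc 0 h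
      rw [h4]
      exact ⟨h1, h2⟩
  have hb2 : ∀ x ∈ U, ‖F x‖ ≤ ‖F xm‖ := by
    intro x hx
    rcases lt_or_ge x.im 0 with h1 | h1
    · have h2 : |x.im| < h := abs_lt.2 ⟨hx.1, by linarith⟩
      have h3 : |(conj x).im| < h := by simpa using h2
      have h4 := hconj x h2
      have h5 : ‖F (conj x)‖ = ‖F x‖ := by
        rw [hFf _ h3, hFf _ h2, h4, Complex.norm_conj]
      rw [← h5]
      apply hb1
      · rw [Complex.conj_im]
        linarith
      · rw [Complex.conj_im]
        linarith [hx.1]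
    · rcases le_or_gt x.im h with h2 | h2
      · exact hb1 x h1 h2
      · have h3 := hsym x (by linarith) hx.2
        rw [← h3]
        have h4 : (2 * b - x).im = 2 * h - x.im := by simp [hbim]
        apply hb1
        · rw [h4]
          linarith [hx.2]
        · rw [h4]
          linarith
  have hconst := Complex.eqOn_of_isPreconnected_of_isMaxOn_norm hUc hUo
    (hF.differentiableOn) (hsub hxm) (fun x hx => hb2 x hx)
  have hval : ∀ x : ℂ, |x.im| < h → f x = F xm := by
    intro x hx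
    rw [← hFf x hx]
    exact hconst ⟨(abs_lt.1 hx).1, by linarith [(abs_lt.1 hx).2]⟩
  have h0 : |(0 : ℂ).im| < h := by simpa using hh
  have hreal : conj (F xm) = F xm := by
    have h1 := hconj 0 h0
    rw [map_zero, hval 0 h0] at h1
    exact h1.symm
  obtain ⟨c, hc⟩ := Complex.conj_eq_iff_real.1 hreal
  exact ⟨c, fun x hx => by rw [hval x hx, hc]⟩

/-- LT-18 -/
theorem fin0_stmt (B : Bg) : Fin0Stmt B := by
  intro f hf hper hconj hloc
  refine fin0_core B.h_pos hf hper hconj ?_
  intro x0 hx0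
  obtain ⟨e, he, g, hg1, hg2, hg3⟩ := hloc x0 hx0
  have hb : B.b 0 = I * B.h := by
    unfold Bg.b
    simp
  refine ⟨e, he, g, hg1, hg2, fun h y hy => ?_⟩
  have h1 := hg3 (by rw [hb, h]) y hy
  rwa [hb] at h1

end Pool.Agent.MP_ae5b4e_an_LOC
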