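import Pool.Agent.Lib.MP_ae5b4e_an_LOC.Bg

/-!
# LOC, linear theory: common definitions (POR_LOC_MASTER, LT-0)

`Sol B t f` : the triple `f 0, f 1, f 2` is analytic on the strip `|Im x| < t`, `1`-periodic, real on
the real axis, and satisfies all the laws (V).
-/

set_option autoImplicit false

namespace Pool.Agent.MP_ae5b4e_an_LOC

open Set Metric Complex ComplexConjugate

/-- the strip -/
def Sp (t : ℝ) : Set ℂ := {x | |x.im| < t}

theorem mem_Sp {t : ℝ} {x : ℂ} : x ∈ Sp t ↔ |x.im| < t := Iff.rfl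

theorem isOpen_Sp (t : ℝ) : IsOpen (Sp t) :=
  isOpen_lt (continuous_abs.comp Complex.continuous_im) continuous_const

theorem convex_Sp (t : ℝ) : Convex ℝ (Sp t) := by
  have h : Sp t = {x : ℂ | -t < x.im} ∩ {x : ℂ | x.im < t} := by
    ext x
    simp [Sp, abs_lt]
  rw [h]
  exact (convex_halfSpace_im_gt (-t)).inter (convex_halfSpace_im_lt t)

theorem Sp_mono {t t' : ℝ} (h : t ≤ t') : Sp t ⊆ Sp t' := fun _ hx => lt_of_lt_of_le hx h

namespace Bg

variable (B : Bg)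

/-- the base points -/
noncomputable def b (n : ℤ) : ℂ := n / 2 + I * B.h

/-- `q = 1 / g` in the local coordinate -/
noncomputable def N (om z : ℂ) : ℂ := B.ep om - B.s om z ^ 2

/-- `om ^ 4 f 0 + om ^ 2 Lam f 1 + Lam ^ 2 f 2` -/
noncomputable def F (f : Fin 3 → ℂ → ℂ) (om x : ℂ) : ℂ :=
  om ^ 4 * f 0 x + om ^ 2 * B.Lam om * f 1 x + B.Lam om ^ 2 * f 2 x

/-- the Fourier coefficients of `F` with respect to the time map -/
noncomputable def cm (f : Fin 3 → ℂ → ℂ) (m : ℤ) (om : ℂ) : ℂ :=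
  ∫ x in (0:ℝ)..1, B.F f om x * exp (-(2 * Real.pi * I * m * B.ph om x)) * deriv (B.ph om) x

end Bg

/-- the data of the linear theory -/
structure Sol (B : Bg) (t : ℝ) (f : Fin 3 → ℂ → ℂ) : Prop where
  an : ∀ i, AnalyticOnNhd ℂ (f i) (Sp t)
  per : ∀ i, ∀ x ∈ Sp t, f i (x + 1) = f i x
  real : ∀ i, ∀ x ∈ Sp t, f i (conj x) = conj (f i x)
  law : ∀ (m : ℤ) (p : ℕ), m ≠ 0 → 1 ≤ p → (p : ℝ) < B.r * |(m : ℝ)| →
    B.cm f m ((p : ℂ) / ((|m| : ℤ) : ℂ)) = 0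

end Pool.Agent.MP_ae5b4e_an_LOC
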