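import Mathlib
import Pool.Agent.Lib.MP_ae5b4e_an_LOC.LT0

/-!
# LOC: definitions for the linear theory at a base point (LT part 2)

Text: `/team-store/POR_LOC_MASTER.md`, LT-8 .. LT-15.
-/

set_option autoImplicit false

noncomputable section

namespace Pool.Agent.MP_ae5b4e_an_LOC

open Set Metric Complex ComplexConjugate Filter Topology

namespace Bg

variable (B : Bg)

/-- `om ^ 4 a0 + om ^ 2 Lam a1 + Lam ^ 2 a2` -/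
def comb (om : ℂ) (a : Fin 3 → ℂ) : ℂ :=
  om ^ 4 * a 0 + om ^ 2 * B.Lam om * a 1 + B.Lam om ^ 2 * a 2

theorem F_eq_comb (f : Fin 3 → ℂ → ℂ) (om x : ℂ) : B.F f om x = B.comb om fun i => f i x := rfl

/-- the same function in the local coordinate at a base point -/
def V (u : Fin 3 → ℂ → ℂ) (om z : ℂ) : ℂ := B.comb om fun i => u i (B.N om z)

end Bg

/-- The result of LT-8 (LINE): the functions are analytic in the strip `|Im x| < h` and at the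
points of the line `Im x = h` which are not base points, together with the solution `G` of the
functional equation. -/
structure Line (B : Bg) (f : Fin 3 → ℂ → ℂ) where
  c : ℝ
  G : ℂ → ℂ → ℂ
  c0 : ℂ → ℂ
  c_pos : 0 < c
  c_le : c ≤ 1
  f_an : ∀ i, AnalyticOnNhd ℂ (f i) {x : ℂ | |x.im| < B.h}
  f_per : ∀ i, ∀ x : ℂ, |x.im| < B.h → f i (x + 1) = f i x
  f_loc : ∀ i, ∀ (x0 : ℂ) (d : ℝ), x0.im = B.h → 0 < d → d ≤ B.rho → (∀ n : ℤ, d ≤ ‖x0 - B.b n‖) →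
    AnalyticOnNhd ℂ (f i) (ball x0 (c * d))
  G_an : ∀ om phi : ℂ, ‖om‖ < B.r / 4 → |phi.im| < B.h - 2 * B.K * ‖om‖ →
    AnalyticAt ℂ (fun p : ℂ × ℂ => G p.1 p.2) (om, phi)
  G_loc : ∀ (x0 : ℂ) (d : ℝ), x0.im = B.h → 0 < d → d ≤ B.rho → (∀ n : ℤ, d ≤ ‖x0 - B.b n‖) →
    AnalyticOnNhd ℂ (fun p : ℂ × ℂ => G p.1 p.2) (ball 0 (c * d) ×ˢ ball x0 (c * d))
  G_even : ∀ om phi : ℂ, ‖om‖ < B.r / 4 → |phi.im| < B.h - 2 * B.K * ‖om‖ →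
    G (-om) phi = G om phi
  fe : ∀ om x : ℂ, ‖om‖ < B.r / 4 → |x.im| < B.h - 4 * B.K * ‖om‖ →
    G om (B.ph om x - om / 2) - G om (B.ph om x + om / 2) = om * (B.F f om x - c0 om)

/-- The inverse of the local coordinate `s om` (LT-9). -/
structure TInv (B : Bg) where
  w1 : ℝ
  rho1 : ℝ
  C : ℝ
  T : ℂ → ℂ → ℂ
  w1_pos : 0 < w1
  w1_le : w1 ≤ B.r
  rho1_pos : 0 < rho1
  rho1_le : rho1 ≤ B.rho
  rho1_le' : rho1 ≤ B.kap * B.rho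
  one_le_C : 1 ≤ C
  an : AnalyticOnNhd ℂ (fun p : ℂ × ℂ => T p.1 p.2) (ball 0 w1 ×ˢ ball 0 rho1)
  s_T : ∀ om ∈ ball (0:ℂ) w1, ∀ w ∈ ball (0:ℂ) rho1, B.s om (T om w) = w
  T_lt : ∀ om ∈ ball (0:ℂ) w1, ∀ w ∈ ball (0:ℂ) rho1, ‖T om w‖ < B.rho
  close : ∀ om ∈ ball (0:ℂ) w1, ∀ w ∈ ball (0:ℂ) rho1,
    ‖T om w - w / B.kap‖ ≤ C * ‖w‖ * (‖om‖ + ‖w‖) ^ 2
  odd : ∀ om ∈ ball (0:ℂ) w1, ∀ w ∈ ball (0:ℂ) rho1, T om (-w) = -T om w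
  T_conj : ∀ om ∈ ball (0:ℂ) w1, ∀ w ∈ ball (0:ℂ) rho1, T (conj om) (conj w) = conj (T om w)
  s_lt : ∀ om ∈ ball (0:ℂ) w1, ∀ z : ℂ, ‖z‖ < rho1 / (2 * B.kap) → ‖B.s om z‖ < rho1
  T_s : ∀ om ∈ ball (0:ℂ) w1, ∀ z : ℂ, ‖z‖ < rho1 / (2 * B.kap) → T om (B.s om z) = z

/-- The relation at a base point for real `om` (the result of LT-11, LT-12): the functions `u i`
are analytic on a punctured disc and the sum over the two sides of the base point is regular. -/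
structure Rel (B : Bg) (u : Fin 3 → ℂ → ℂ) (rq : ℝ) : Prop where
  rq_pos : 0 < rq
  an : ∀ i, AnalyticOnNhd ℂ (u i) (ball 0 rq \ {0})
  rel : ∃ w2 > 0, ∀ om : ℝ, 0 < om → om < w2 → ∃ e > 0, ∃ R : ℂ → ℂ,
    AnalyticOnNhd ℂ R (ball 0 e) ∧ ∀ z ∈ ball (0:ℂ) e, z.im < 0 →
      R z = B.V u om (z - om / 2) + B.V u om (z + om / 2)

/-- Cauchy's formula for the sum over the two sides of the base point, for all small complex `om`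
(the result of LT-13). -/
def RRel (B : Bg) (u : Fin 3 → ℂ → ℂ) (rq : ℝ) : Prop :=
  0 < rq ∧ (∀ i, AnalyticOnNhd ℂ (u i) (ball 0 rq \ {0})) ∧
    ∃ w5 > 0, ∀ (om z : ℂ) (d : ℝ), 0 < ‖z‖ → ‖z‖ < d → d < ‖om‖ → ‖om‖ < w5 →
      B.V u om (z - om / 2) + B.V u om (z + om / 2) =
        (2 * Real.pi * I)⁻¹ • ∮ ζ in C(0, d), (ζ - z)⁻¹ •
          (B.V u om (ζ - om / 2) + B.V u om (ζ + om / 2))

/-- the sector around the negative axis -/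
def Sec (c r : ℝ) : Set ℂ := {q : ℂ | ‖q‖ < r ∧ |q.im| < c * (-q.re)}

/-- The functions `f i` near the base point `b n`, as functions of `q = - s 0 y ^ 2` (LT-10):
`ul` from the lower side, `uR` and `uL` from the right and the left. -/
structure Slit (B : Bg) (f : Fin 3 → ℂ → ℂ) (n : ℤ) where
  c4 : ℝ
  rq : ℝ
  y0 : ℝ
  ul : Fin 3 → ℂ → ℂ
  uR : Fin 3 → ℂ → ℂ
  uL : Fin 3 → ℂ → ℂ
  c4_pos : 0 < c4
  rq_pos : 0 < rq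
  y0_pos : 0 < y0
  ul_an : ∀ i, AnalyticOnNhd ℂ (ul i) (slitPlane ∩ ball 0 rq)
  uR_an : ∀ i, AnalyticOnNhd ℂ (uR i) (Sec c4 rq)
  uL_an : ∀ i, AnalyticOnNhd ℂ (uL i) (Sec c4 rq)
  eqR : ∀ i, ∀ q ∈ Sec c4 rq, 0 < q.im → ul i q = uR i q
  eqL : ∀ i, ∀ q ∈ Sec c4 rq, q.im < 0 → ul i q = uL i q
  eq_low : ∀ i, ∀ y : ℂ, ‖y‖ < y0 → y.im < 0 →
    -B.s 0 y ^ 2 ∈ slitPlane ∩ ball 0 rq ∧ f i (B.b n + y) = ul i (-B.s 0 y ^ 2)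
  eq_right : ∀ i, ∀ t : ℝ, 0 < t → t < y0 →
    -B.s 0 t ^ 2 ∈ Sec c4 rq ∧ f i (B.b n + t) = uR i (-B.s 0 t ^ 2)
  eq_left : ∀ i, ∀ t : ℝ, 0 < t → t < y0 →
    -B.s 0 t ^ 2 ∈ Sec c4 rq ∧ f i (B.b n - t) = uL i (-B.s 0 t ^ 2)

/-- the signs of `N om` for real `om` (LT-9, SGN) -/
structure Sgn (B : Bg) (w z0 : ℝ) : Prop where
  w_pos : 0 < w
  w_le : w ≤ B.r
  w_le' : w ≤ z0
  z0_le : z0 ≤ B.rho
  right : ∀ om : ℝ, 0 ≤ om → om < w → ∀ z : ℂ, ‖z‖ < z0 → 0 < z.re → z.im < 0 → 0 < (B.N om z).im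
  left : ∀ om : ℝ, 0 ≤ om → om < w → ∀ z : ℂ, ‖z‖ < z0 → z.re < 0 → z.im < 0 → (B.N om z).im < 0
  slit : ∀ om : ℝ, 0 ≤ om → om < w → ∀ z : ℂ, ‖z‖ < z0 → z.im ≠ 0 → B.N om z ∈ slitPlane
  real : ∀ om : ℝ, 0 ≤ om → om < w → ∀ t : ℝ, |t| < z0 → (B.N om t).im = 0
  pos : ∀ om : ℝ, 0 ≤ om → om < w → ∀ t : ℝ, |t| < om / 2 → 0 < (B.N om t).re
  neg : ∀ om : ℝ, 0 ≤ om → om < w → ∀ t : ℝ, om / 2 < |t| → |t| < z0 → (B.N om t).re < 0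

end Pool.Agent.MP_ae5b4e_an_LOC
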