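import Pool.Agent.Lib.MP_ae5b4e_an_LOC.KerD
import Pool.Agent.Lib.MP_ae5b4e_an_LOC.LDef
import Pool.Agent.Lib.MP_ae5b4e_an_LL.Rad

/-!
# LOC, linear theory: the interface statements between the modules (POR_LOC_MASTER, LT)

Every module proves one of the `..Stmt`s and may use the others as hypotheses.
-/

set_option autoImplicit false

namespace Pool.Agent.MP_ae5b4e_an_LOC

open Set Metric Complex ComplexConjugate Filter Topology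
open Pool.Agent.Lib.MP_ae5b4e_an_LL (SubH)

/-! ### LT-1 -/

/-- the inverse `X` of the time map -/
structure InvD (B : Bg) (X : ℂ → ℂ → ℂ) : Prop where
  an : ∀ om φ : ℂ, ‖om‖ < B.r → |φ.im| < B.h - 3 * B.K * ‖om‖ →
    AnalyticAt ℂ (fun p : ℂ × ℂ => X p.1 p.2) (om, φ)
  close : ∀ om φ : ℂ, ‖om‖ < B.r → |φ.im| < B.h - 3 * B.K * ‖om‖ → ‖X om φ - φ‖ ≤ B.K * ‖om‖
  right : ∀ om φ : ℂ, ‖om‖ < B.r → |φ.im| < B.h - 3 * B.K * ‖om‖ → B.ph om (X om φ) = φ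
  left : ∀ om x : ℂ, ‖om‖ < B.r → |x.im| < B.h - 4 * B.K * ‖om‖ → X om (B.ph om x) = x
  per : ∀ om φ : ℂ, ‖om‖ < B.r → |φ.im| < B.h - 3 * B.K * ‖om‖ → X om (φ + 1) = X om φ + 1
  zero : ∀ φ : ℂ, |φ.im| < B.h → X 0 φ = φ
  real : ∀ om φ : ℝ, |om| < B.r → ((X om φ).im = 0)
  /-- injectivity of the time map -/
  inj : ∀ om x x' : ℂ, ‖om‖ < B.r → |x.im| < B.h - B.K * ‖om‖ → |x'.im| < B.h - B.K * ‖om‖ →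
    B.ph om x = B.ph om x' → x = x'

def InvStmt (B : Bg) : Prop := ∃ X, InvD B X

/-! ### LT-3 : division by the sine (one variable) -/

def DivStmt : Prop := ∀ (m : ℕ) (r : ℝ) (c : ℂ → ℂ), 1 ≤ m → 0 < r → AnalyticOnNhd ℂ c (ball 0 r) →
  (∀ p : ℤ, p ≠ 0 → |(p : ℝ)| < r * m → c ((p : ℂ) / m) = 0) →
  ∃ G : ℂ → ℂ, AnalyticOnNhd ℂ G (ball 0 r) ∧
    (∀ om ∈ ball (0 : ℂ) r, -2 * I * sin (Real.pi * m * om) * G om = om * c om) ∧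
    (∀ (om : ℂ) (M : ℝ), ‖om‖ + 1 / m < r → (∀ w : ℂ, ‖w - om‖ ≤ 1 / m → ‖w * c w‖ ≤ M) →
      ‖G om‖ ≤ M / 2)

/-! ### LT-4 : the functional equation -/

structure FEq (B : Bg) (t : ℝ) (f : Fin 3 → ℂ → ℂ) (G : ℂ → ℂ → ℂ) (c0 : ℂ → ℂ) : Prop where
  an : ∀ om φ : ℂ, ‖om‖ < B.r / 4 → |φ.im| < t - 2 * B.K * ‖om‖ →
    AnalyticAt ℂ (fun p : ℂ × ℂ => G p.1 p.2) (om, φ)
  c0_an : AnalyticOnNhd ℂ c0 (ball 0 B.r)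
  even : ∀ om φ : ℂ, ‖om‖ < B.r / 4 → |φ.im| < t - 2 * B.K * ‖om‖ → G (-om) φ = G om φ
  per : ∀ om φ : ℂ, ‖om‖ < B.r / 4 → |φ.im| < t - 2 * B.K * ‖om‖ → G om (φ + 1) = G om φ
  fe : ∀ om x : ℂ, ‖om‖ < B.r / 4 → |x.im| < t - 4 * B.K * ‖om‖ →
    G om (B.ph om x - om / 2) - G om (B.ph om x + om / 2) = om * (B.F f om x - c0 om)

def FEStmt (B : Bg) : Prop := ∀ (t : ℝ) (f : Fin 3 → ℂ → ℂ), 0 < t → t ≤ B.h → Sol B t f →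
  ∃ G c0, FEq B t f G c0

/-! ### LT-5 : quantitative log gain -/

def GQStmt : Prop := ∀ a : ℝ, 1 ≤ a → ∃ k0 : ℝ, 0 < k0 ∧ k0 < 1 ∧
  ∀ (c R : ℝ) (u : ℂ → ℝ), 0 < c → 0 < R → SubH u (ball 0 R) →
    (∀ om ∈ ball (0 : ℂ) R, u om ≤ a * c * ‖om‖) →
    (∀ om ∈ ball (0 : ℂ) R, om.re = 0 → u om ≤ -c * ‖om‖) →
    ∀ om : ℂ, ‖om‖ ≤ k0 * R → u om ≤ -c * k0 * R

/-! ### LT-6 : the crossing lemma -/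

/-- `x0` has distance `≥ d` from the base points of the upper line -/
def Far (B : Bg) (x0 : ℂ) (d : ℝ) : Prop := ∀ n : ℤ, d ≤ ‖x0 - B.b n‖

def CRStmt (B : Bg) : Prop := ∃ c : ℝ, 0 < c ∧ c ≤ 1 / 4 ∧
  ∀ (t : ℝ) (f : Fin 3 → ℂ → ℂ) (G : ℂ → ℂ → ℂ) (c0 : ℂ → ℂ), 0 < t → t ≤ B.h → Sol B t f →
    FEq B t f G c0 → ∀ (x0 : ℂ) (d : ℝ), x0.im = t → 0 < d → d ≤ B.rho → d ≤ t → Far B x0 d →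
    ∃ (Ge : ℂ → ℂ → ℂ) (fe : Fin 3 → ℂ → ℂ),
      AnalyticOnNhd ℂ (fun p : ℂ × ℂ => Ge p.1 p.2) (ball 0 (c * d) ×ˢ ball x0 (c * d)) ∧
      (∀ i, AnalyticOnNhd ℂ (fe i) (ball x0 (c * d))) ∧
      (∀ om ∈ ball (0 : ℂ) (c * d), ∀ φ ∈ ball x0 (c * d), ‖om‖ < B.r / 4 →
        |φ.im| < t - 2 * B.K * ‖om‖ → Ge om φ = G om φ) ∧
      (∀ i, ∀ x ∈ ball x0 (c * d), |x.im| < t → fe i x = f i x)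

/-! ### LT-7 -/

def STRStmt (B : Bg) : Prop := ∀ (t : ℝ) (f : Fin 3 → ℂ → ℂ), 0 < t → t ≤ B.h → Sol B t f →
  ∃ g : Fin 3 → ℂ → ℂ, Sol B B.h g ∧ ∀ i, ∀ x ∈ Sp t, g i x = f i x

/-! ### LT-8 : the closed strip -/

structure LineD (B : Bg) (c : ℝ) (f : Fin 3 → ℂ → ℂ) (G : ℂ → ℂ → ℂ) (c0 : ℂ → ℂ) : Prop where
  sol : Sol B B.h f
  feq : FEq B B.h f G c0
  fan : ∀ (x0 : ℂ) (d : ℝ), x0.im = B.h → 0 < d → d ≤ B.rho → Far B x0 d →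
    ∀ i, AnalyticOnNhd ℂ (f i) (ball x0 (c * d))
  Gan : ∀ (x0 : ℂ) (d : ℝ), x0.im = B.h → 0 < d → d ≤ B.rho → Far B x0 d →
    AnalyticOnNhd ℂ (fun p : ℂ × ℂ => G p.1 p.2) (ball 0 (c * d) ×ˢ ball x0 (c * d))

def LineStmt (B : Bg) : Prop := ∃ c : ℝ, 0 < c ∧ c ≤ 1 / 4 ∧
  ∀ f : Fin 3 → ℂ → ℂ, Sol B B.h f →
    ∃ (f' : Fin 3 → ℂ → ℂ) (G : ℂ → ℂ → ℂ) (c0 : ℂ → ℂ),
      (∀ i, ∀ x ∈ Sp B.h, f' i x = f i x) ∧ LineD B c f' G c0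

/-! ### LT-9 : the inverse of the local coordinate -/

/-- `T om w` = the inverse of `s om` on small balls: `‖om‖ < w1`, `‖w‖ < rho1`, `‖z‖ < rho2` -/
structure LInv (B : Bg) (w1 rho1 rho2 C : ℝ) (T : ℂ → ℂ → ℂ) : Prop where
  w1_pos : 0 < w1
  w1_le : w1 ≤ B.r
  rho1_pos : 0 < rho1
  rho2_pos : 0 < rho2
  rho2_le : rho2 ≤ B.rho
  C_ge : 1 ≤ C
  an : AnalyticOnNhd ℂ (fun p : ℂ × ℂ => T p.1 p.2) (ball 0 w1 ×ˢ ball 0 rho1)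
  mem : ∀ om ∈ ball (0 : ℂ) w1, ∀ w ∈ ball (0 : ℂ) rho1, ‖T om w‖ < B.rho
  right : ∀ om ∈ ball (0 : ℂ) w1, ∀ w ∈ ball (0 : ℂ) rho1, B.s om (T om w) = w
  s_mem : ∀ om ∈ ball (0 : ℂ) w1, ∀ z ∈ ball (0 : ℂ) rho2, ‖B.s om z‖ < rho1
  left : ∀ om ∈ ball (0 : ℂ) w1, ∀ z ∈ ball (0 : ℂ) rho2, T om (B.s om z) = z
  odd : ∀ om ∈ ball (0 : ℂ) w1, ∀ w ∈ ball (0 : ℂ) rho1, T om (-w) = -T om w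
  cj : ∀ om ∈ ball (0 : ℂ) w1, ∀ w ∈ ball (0 : ℂ) rho1, T (conj om) (conj w) = conj (T om w)
  close : ∀ om ∈ ball (0 : ℂ) w1, ∀ w ∈ ball (0 : ℂ) rho1,
    ‖T om w - w / B.kap‖ ≤ C * ‖w‖ * (‖om‖ + ‖w‖) ^ 2

def LInvStmt (B : Bg) : Prop := ∃ w1 rho1 rho2 C T, LInv B w1 rho1 rho2 C T

/-- LT-9 [SGN] for real `om` -/
structure SgnD (B : Bg) (w1 rho2 : ℝ) : Prop where
  w1_pos : 0 < w1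
  w1_le : w1 ≤ B.r
  rho2_pos : 0 < rho2
  rho2_le : rho2 ≤ B.rho
  w1_rho : w1 ≤ rho2
  real : ∀ (om x : ℝ), |om| < w1 → |x| < rho2 → (B.s om x).im = 0
  neg : ∀ (om : ℝ) (z : ℂ), |om| < w1 → ‖z‖ < rho2 → z.im < 0 → (B.s om z).im < 0
  mono : ∀ (om x y : ℝ), |om| < w1 → |x| < rho2 → |y| < rho2 → x < y →
    (B.s om x).re < (B.s om y).re
  slit : ∀ (om : ℝ) (z : ℂ), |om| < w1 → ‖z‖ < rho2 → z.im ≠ 0 → B.N om z ∈ slitPlane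
  Npos : ∀ (om x : ℝ), 0 < om → om < w1 → |x| < om / 2 → 0 < (B.N om x).re ∧ (B.N om x).im = 0
  Nneg : ∀ (om x : ℝ), 0 < om → om < w1 → |x| < rho2 → om / 2 < |x| →
    (B.N om x).re < 0 ∧ (B.N om x).im = 0
  Nim : ∀ (om : ℝ) (z : ℂ), 0 < om → om < w1 → ‖z‖ < rho2 → z.im < 0 →
    (0 < z.re → 0 < (B.N om z).im) ∧ (z.re < 0 → (B.N om z).im < 0)
  Nzero : ∀ om z : ℂ, ‖om‖ < w1 → ‖z‖ < rho2 → B.N om z = 0 → z = om / 2 ∨ z = -om / 2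

def SgnStmt (B : Bg) : Prop := ∃ w1 rho2, SgnD B w1 rho2

/-! ### LT-10 .. LT-13 : the functions `u i` of `q` -/

/-- outcome of JUMP: `u i` is analytic on a punctured disc, `f i (b_n + y) = u i (-(s 0 y) ^ 2)`,
and the slit relation holds for real `om` -/
structure UD (B : Bg) (n : ℤ) (f u : Fin 3 → ℂ → ℂ) (rq ry w : ℝ) : Prop where
  rq_pos : 0 < rq
  ry_pos : 0 < ry
  ry_le : ry ≤ B.rho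
  w_pos : 0 < w
  w_le : w ≤ B.r
  an : ∀ i, ∀ q : ℂ, q ≠ 0 → ‖q‖ < rq → AnalyticAt ℂ (u i) q
  small : ∀ om z : ℂ, ‖om‖ < w → ‖z‖ < ry → ‖B.N om z‖ < rq
  link : ∀ i, ∀ y : ℂ, ‖y‖ < ry → y.im < 0 → f i (B.b n + y) = u i (-B.s 0 y ^ 2)
  rr : ∀ om : ℝ, 0 < om → om < w → ∃ e > 0, ∃ R : ℂ → ℂ, AnalyticOnNhd ℂ R (ball 0 e) ∧
    ∀ z : ℂ, z ≠ 0 → ‖z‖ < e → R z = B.V u om (z - om / 2) + B.V u om (z + om / 2)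

def UStmt (B : Bg) : Prop := ∀ (f : Fin 3 → ℂ → ℂ) (n : ℤ), Sol B B.h f →
  ∃ u rq ry w, UD B n f u rq ry w

/-- LT-13 : the relation for complex `om` -/
def RRStmt (B : Bg) : Prop := ∀ (f u : Fin 3 → ℂ → ℂ) (n : ℤ) (rq ry w : ℝ),
  UD B n f u rq ry w → ∃ w' > 0, w' ≤ w ∧ ∀ (om z : ℂ) (d1 : ℝ), om ≠ 0 → ‖om‖ < w' → z ≠ 0 →
    ‖z‖ < d1 → d1 < ‖om‖ →
    B.V u om (z - om / 2) + B.V u om (z + om / 2) = (2 * Real.pi * I)⁻¹ *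
      ∮ ζ in C(0, d1), (B.V u om (ζ - om / 2) + B.V u om (ζ + om / 2)) / (ζ - z)

/-- LT-14 : polynomial growth -/
def PGStmt (B : Bg) : Prop := ∀ (f u : Fin 3 → ℂ → ℂ) (n : ℤ) (rq ry w : ℝ),
  UD B n f u rq ry w → ∃ (A : ℕ) (C r' : ℝ), 0 < r' ∧ ∀ i, ∀ q : ℂ, q ≠ 0 → ‖q‖ < r' →
    ‖q ^ A * u i q‖ ≤ C

/-- LT-15 : the weights -/
def L6Stmt (B : Bg) : Prop := ∀ (f u : Fin 3 → ℂ → ℂ) (n : ℤ) (rq ry w : ℝ),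
  UD B n f u rq ry w → ∀ (W : ℕ) (v : Fin 3 → ℂ → ℂ), 2 ≤ W → (∀ i, AnalyticAt ℂ (v i) 0) →
    (∀ᶠ q in 𝓝[≠] (0 : ℂ), q ^ W * u 0 q = v 0 q ∧ q ^ (W - 1) * u 1 q = v 1 q ∧
      q ^ (W - 2) * u 2 q = v 2 q) →
    ∃ p : ℕ → ℂ, (∀ k, k < W → Even (W - k) → p k = 0) ∧
      ∀ᶠ s in 𝓝 (0 : ℂ), HasSum (fun k => p k * s ^ k)
        (v 0 0 * (1 + s) ^ (-(W : ℤ)) - B.Lam 0 * B.kap ^ 2 * v 1 0 * s * (1 + s) ^ (1 - (W : ℤ)) +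
          B.Lam 0 ^ 2 * B.kap ^ 4 * v 2 0 * s ^ 2 * (1 + s) ^ (2 - (W : ℤ)))

/-! ### LT-17 : the local conclusion -/

def Loc1Stmt (B : Bg) : Prop := ∀ (f : Fin 3 → ℂ → ℂ) (n : ℤ), Sol B B.h f →
  (∀ x ∈ Sp B.h, f 2 x = 0) →
  ∃ be : ℂ, Tendsto (fun τ : ℝ => (τ : ℂ) ^ 6 * f 0 (B.b n - I * τ)) (𝓝[>] 0) (𝓝 be) ∧
    (∃ C e : ℝ, 0 < e ∧ ∀ y : ℂ, 0 < ‖y‖ → ‖y‖ < e → y.im < 0 → ‖y ^ 4 * f 1 (B.b n + y)‖ ≤ C) ∧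
    (be = 0 → ∃ be0 be1 : ℂ,
      Tendsto (fun τ : ℝ => (τ : ℂ) ^ 2 * f 0 (B.b n - I * τ)) (𝓝[>] 0) (𝓝 be0) ∧
      Tendsto (fun τ : ℝ => (τ : ℂ) ^ 2 * f 1 (B.b n - I * τ)) (𝓝[>] 0) (𝓝 be1) ∧
      (be0 = 0 → be1 = 0 → ∀ i : Fin 3, ∃ e > 0, ∃ g : ℂ → ℂ, AnalyticOnNhd ℂ g (ball (B.b n) e) ∧
        (∀ y : ℂ, ‖y‖ < e → g (B.b n + y) = g (B.b n - y)) ∧
        ∀ x ∈ ball (B.b n) e, x ∈ Sp B.h → g x = f i x))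

def Loc2Stmt (B : Bg) : Prop := ∀ (f : Fin 3 → ℂ → ℂ) (n : ℤ) (al : ℂ), Sol B B.h f →
  (∃ C e : ℝ, 0 < e ∧ ∀ y : ℂ, 0 < ‖y‖ → ‖y‖ < e → y.im < 0 → ‖y ^ 8 * f 2 (B.b n + y)‖ ≤ C) →
  Tendsto (fun τ : ℝ => (τ : ℂ) ^ 8 * f 2 (B.b n - I * τ)) (𝓝[>] 0) (𝓝 al) → al = 0

/-! ### LT-18, LT-19 -/

def Fin0Stmt (B : Bg) : Prop := ∀ f : ℂ → ℂ, AnalyticOnNhd ℂ f (Sp B.h) →
  (∀ x ∈ Sp B.h, f (x + 1) = f x) → (∀ x ∈ Sp B.h, f (conj x) = conj (f x)) →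
  (∀ x0 : ℂ, x0.im = B.h → ∃ e > 0, ∃ g : ℂ → ℂ, AnalyticOnNhd ℂ g (ball x0 e) ∧
    (∀ x ∈ ball x0 e, x ∈ Sp B.h → g x = f x) ∧
    (x0 = B.b 0 → ∀ y : ℂ, ‖y‖ < e → g (B.b 0 + y) = g (B.b 0 - y))) →
  ∃ c : ℝ, ∀ x ∈ Sp B.h, f x = c

def LINStmt (B : Bg) (D : KerD B) : Prop := ∀ (t : ℝ) (f : Fin 3 → ℂ → ℂ) (c : Fin 4 → ℝ)
  (kk : ℝ), kk ≠ 0 → 0 < t → t ≤ B.h → Sol B t f →
  (∀ x ∈ Sp t, f 2 x = kk * (∑ j, (c j : ℂ) * D.C j x) ^ 2) →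
  c = 0 ∧ ∃ (a b d : Fin 4 → ℝ) (e0 e1 : ℝ), ∀ x ∈ Sp t,
    f 0 x = (∑ j, (a j : ℂ) * D.A j x) + (∑ j, (b j : ℂ) * D.R j x) + e0 ∧
    f 1 x = (∑ j, (a j : ℂ) * D.C j x) + (∑ j, (d j : ℂ) * D.R j x) + e1

/-- LT-20, the derivative form -/
def LIN'Stmt (B : Bg) (D : KerD B) : Prop := ∀ (t : ℝ) (g : Fin 2 → ℂ → ℂ) (c : Fin 4 → ℝ)
  (kk : ℝ), kk ≠ 0 → 0 < t → t ≤ B.h → (∀ i, AnalyticOnNhd ℂ (g i) (Sp t)) → (∀ i, ∀ x ∈ Sp t, g i (x + 1) = g i x) →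
  (∀ i, ∀ x ∈ Sp t, g i (conj x) = conj (g i x)) →
  (∀ (m : ℤ) (n p : ℕ), 1 ≤ n → 1 ≤ p → (p : ℝ) < B.r * n → (n : ℤ) ∣ m →
    ∫ x in (0:ℝ)..1, (g 0 x + B.Lam (p / n) / (p / n) ^ 2 * g 1 x +
      (B.Lam (p / n) / (p / n) ^ 2) ^ 2 * (kk * (∑ j, (c j : ℂ) * D.C j x) *
        deriv (fun y => ∑ j, (c j : ℂ) * D.C j y) x)) *
      exp (-(2 * Real.pi * I * m * B.ph (p / n) x)) = 0) →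
  c = 0 ∧ ∃ a b d : Fin 4 → ℝ, ∀ x ∈ Sp t,
    g 0 x = deriv (fun y => (∑ j, (a j : ℂ) * D.A j y) + ∑ j, (b j : ℂ) * D.R j y) x ∧
    g 1 x = deriv (fun y => (∑ j, (a j : ℂ) * D.C j y) + ∑ j, (d j : ℂ) * D.R j y) x

end Pool.Agent.MP_ae5b4e_an_LOC
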