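import Pool.Agent.Lib.MP_ae5b4e_an_LL.Gain
import Pool.Agent.Lib.MP_ae5b4e_an_LOC.LTS

/-!
# LOC, linear theory, LT-5: the quantitative log gain

A subharmonic function on a disc of radius `R` with `u ≤ a c |om|` which is `≤ - c |om|` on the
imaginary diameter is `≤ - c k0 R` on the disc of radius `k0 R`, with `k0` depending only on `a`.
-/

set_option autoImplicit false

namespace Pool.Agent.MP_ae5b4e_an_LOC

open Topology Filter Set Metric InnerProductSpace
open Real (circleAverage)
open Pool.Agent.Lib.MP_ae5b4e_an_LL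

/-- the half disc part of the quantitative log gain lemma: the bound is only asked in the form
`v η ≤ A * max ‖η‖ r₀` -/
theorem gq_half {v : ℂ → ℝ} {A c r₀ r₁ : ℝ} (hA : 0 ≤ A) (hc : 0 < c) (h0 : 0 < r₀)
    (h01 : 100 * r₀ < r₁) (hs : SubH v (ball 0 r₁)) (hA' : ∀ η, ‖η‖ < r₁ → v η ≤ A * max ‖η‖ r₀)
    (hc' : ∀ ζ : ℂ, ζ.re = 0 → r₀ < ‖ζ‖ → ‖ζ‖ < r₁ → v ζ ≤ -c * ‖ζ‖)
    (hL : Real.log 10 + 3 * ((A + c) / c) < Real.log (r₁ / r₀)) :
    ∀ η : ℂ, 0 < η.re → ‖η‖ = 10 * r₀ → v η < 0 := by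
  have hpi := Real.pi_pos
  have hr1 : 0 < r₁ := by linarith
  have hAc : 0 < A + c := by linarith
  set V : ℂ → ℝ := fun η => 2 * c / Real.pi * tlog r₁ η +
    (A + c) * r₁ * (2 - 2 / Real.pi * ang r₁ η) + (A + c) * r₀ * (1 / Real.pi * ang r₀ η) with hV
  have hVh : HarmonicOnNhd V (RHD r₁) := by
    have e : V = ((2 * c / Real.pi) • tlog r₁ + ((fun _ => (A + c) * r₁ * 2) +
        (-((A + c) * r₁ * (2 / Real.pi))) • ang r₁)) +
        ((A + c) * r₀ * (1 / Real.pi)) • ang r₀ := by
      funext η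
      simp only [hV, Pi.add_apply, Pi.smul_apply, smul_eq_mul]
      ring
    rw [e]
    refine HarmonicOnNhd.add (HarmonicOnNhd.add ?_ (HarmonicOnNhd.add ?_ ?_)) ?_
    · exact HarmonicOnNhd.const_smul fun z hz => tlog_harmonic hz.1
    · exact harmonicOnNhd_const _
    · exact HarmonicOnNhd.const_smul fun z hz => ang_harmonic hr1 hz.1
    · exact HarmonicOnNhd.const_smul fun z hz => ang_harmonic h0 hz.1
  -- lower bounds for `V`
  have hw2 : ∀ η : ℂ, 0 ≤ 2 - 2 / Real.pi * ang r₁ η := by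
    intro η
    have h1 := ang_le_pi (a := r₁) (η := η)
    have h2 : 2 / Real.pi * ang r₁ η ≤ 2 := by
      rw [div_mul_eq_mul_div, div_le_iff₀ hpi]; linarith
    linarith
  have hw1 : ∀ η ∈ RHD r₁, 0 ≤ 1 / Real.pi * ang r₀ η := fun η hη =>
    mul_nonneg (by positivity) (ang_nonneg h0 hη.1)
  have hT : ∀ η ∈ RHD r₁, 2 * c / Real.pi * (η.re * (Real.log ‖η‖ - Real.log r₁)) - c * ‖η‖ ≤
      2 * c / Real.pi * tlog r₁ η := by
    intro η hη
    have h1 := mul_le_mul_of_nonneg_left (tlog_bounds (R := r₁) hη.1).1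
      (show 0 ≤ 2 * c / Real.pi by positivity)
    have h2 : 2 * c / Real.pi * (η.re * (Real.log ‖η‖ - Real.log r₁) - Real.pi / 2 * ‖η‖) =
        2 * c / Real.pi * (η.re * (Real.log ‖η‖ - Real.log r₁)) - c * ‖η‖ := by
      field_simp
    linarith
  have hnorm : ∀ η ∈ RHD r₁, 0 < ‖η‖ := fun η hη => by
    apply norm_pos_iff.2
    intro h
    have := hη.1
    rw [h] at this
    simp at this
  have hV1 : ∀ η ∈ RHD r₁, 2 * c / Real.pi * (η.re * (Real.log ‖η‖ - Real.log r₁)) - c * ‖η‖ ≤
      V η := by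
    intro η hη
    have h1 := hT η hη
    have h2 := mul_nonneg (mul_nonneg hAc.le hr1.le) (hw2 η)
    have h3 := mul_nonneg (mul_nonneg hAc.le h0.le) (hw1 η hη)
    simp only [hV]
    linarith
  have hVlow : ∀ η ∈ RHD r₁, -(2 * c * r₁) ≤ V η := by
    intro η hη
    refine le_trans ?_ (hV1 η hη)
    have h1 := mul_log_ge (hnorm η hη) hr1
    have hn := hη.2
    have h2 : Real.log ‖η‖ - Real.log r₁ ≤ 0 := by
      have := Real.log_le_log (hnorm η hη) hn.le
      linarith
    have h3 : ‖η‖ * (Real.log ‖η‖ - Real.log r₁) ≤ η.re * (Real.log ‖η‖ - Real.log r₁) := by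
      apply mul_le_mul_of_nonpos_right _ h2
      exact (le_abs_self _).trans (Complex.abs_re_le_norm η)
    have h4 : -r₁ ≤ η.re * (Real.log ‖η‖ - Real.log r₁) := by
      have := (hnorm η hη).le
      linarith
    have h5 : 2 * c / Real.pi * (-r₁) ≤ 2 * c / Real.pi * (η.re * (Real.log ‖η‖ - Real.log r₁)) :=
      mul_le_mul_of_nonneg_left h4 (by positivity)
    have h6 : 2 * c / Real.pi ≤ c := by
      rw [div_le_iff₀ hpi]
      nlinarith [Real.pi_gt_three]
    have h7 : -(c * r₁) ≤ 2 * c / Real.pi * (-r₁) := by nlinarith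
    have h8 : c * ‖η‖ ≤ c * r₁ := mul_le_mul_of_nonneg_left hn.le hc.le
    linarith
  -- the key limit
  have hk : ∀ ζ : ℂ, ζ ≠ 0 → (ζ.re = 0 ∨ ‖ζ‖ = r₁) → Tendsto (fun η : ℂ => 2 * c / Real.pi *
      (η.re * (Real.log ‖η‖ - Real.log r₁)) - c * ‖η‖) (𝓝 ζ) (𝓝 (-(c * ‖ζ‖))) := by
    intro ζ hζ h
    have h1 : ContinuousAt (fun η : ℂ => 2 * c / Real.pi *
        (η.re * (Real.log ‖η‖ - Real.log r₁)) - c * ‖η‖) ζ := by
      have h2 : ContinuousAt (fun η : ℂ => Real.log ‖η‖) ζ :=
        ContinuousAt.log continuous_norm.continuousAt (norm_ne_zero_iff.2 hζ)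
      have h3 : ContinuousAt (fun η : ℂ => η.re) ζ := Complex.continuous_re.continuousAt
      exact ((continuousAt_const.mul (h3.mul (h2.sub continuousAt_const))).sub
        (continuousAt_const.mul continuous_norm.continuousAt))
    have h2 : 2 * c / Real.pi * (ζ.re * (Real.log ‖ζ‖ - Real.log r₁)) - c * ‖ζ‖ =
        -(c * ‖ζ‖) := by
      rcases h with h | h
      · rw [h]; ring
      · rw [h]; ring
    rw [← h2]
    exact h1
  have key := (hs.mono (fun z (hz : z ∈ RHD r₁) => mem_ball_zero_iff.2 hz.2)).le_harmonic_diff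
    (isOpen_RHD r₁) (isBounded_RHD r₁) hVh (B := A * r₁ + 2 * c * r₁)
    (fun z hz => by
      have h1 := hA' z hz.2
      have h2 := hVlow z hz
      have h3 : A * max ‖z‖ r₀ ≤ A * r₁ :=
        mul_le_mul_of_nonneg_left (max_le hz.2.le (by linarith)) hA
      linarith)
    (E := {0, Complex.I * r₀, -(Complex.I * r₀), Complex.I * r₁, -(Complex.I * r₁)})
    (by simp) (fun ζ hζ hζE ε hε => by
      simp only [mem_insert_iff, mem_singleton_iff, not_or] at hζE
      obtain ⟨e1, e2, e3, e4, e5⟩ := hζE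
      rcases frontier_RHD hζ with h | h | h | h
      · -- the imaginary axis
        have hlim := hk ζ e1 (Or.inl h.1)
        have hζim : ζ = Complex.I * ζ.im := by
          apply Complex.ext <;> simp [h.1]
        have hζn : ‖ζ‖ = |ζ.im| := by
          conv_lhs => rw [hζim]
          rw [norm_mul, Complex.norm_I, one_mul, Complex.norm_real, Real.norm_eq_abs]
        rcases lt_trichotomy ‖ζ‖ r₀ with h3 | h3 | h3
        · -- inside
          have h4 : ∀ᶠ η in 𝓝 ζ, -(c * ‖ζ‖) - ε / 4 < 2 * c / Real.pi *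
              (η.re * (Real.log ‖η‖ - Real.log r₁)) - c * ‖η‖ :=
            hlim (Ioi_mem_nhds (by linarith))
          have h5 : ∀ᶠ η in 𝓝 ζ, ‖η‖ < r₀ := continuous_norm.continuousAt (Iio_mem_nhds h3)
          have h6 : ContinuousAt (fun η : ℂ => (A + c) * r₀ * (1 / Real.pi *
              (Real.pi - 2 * r₀ * η.re / (r₀ ^ 2 - ‖η‖ ^ 2)))) ζ := by
            have h7 : ContinuousAt (fun η : ℂ => η.re) ζ := Complex.continuous_re.continuousAt
            have h8 : ContinuousAt (fun η : ℂ => ‖η‖) ζ := continuous_norm.continuousAt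
            refine continuousAt_const.mul (continuousAt_const.mul (continuousAt_const.sub
              (ContinuousAt.div (continuousAt_const.mul h7) (continuousAt_const.sub (h8.pow 2))
                ?_)))
            have : ‖ζ‖ ^ 2 < r₀ ^ 2 := by nlinarith [norm_nonneg ζ]
            linarith
          have h6' : (A + c) * r₀ * (1 / Real.pi *
              (Real.pi - 2 * r₀ * ζ.re / (r₀ ^ 2 - ‖ζ‖ ^ 2))) = (A + c) * r₀ := by
            rw [h.1]
            field_simp
            ring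
          have h7 : ∀ᶠ η in 𝓝 ζ, (A + c) * r₀ - ε / 4 < (A + c) * r₀ * (1 / Real.pi *
              (Real.pi - 2 * r₀ * η.re / (r₀ ^ 2 - ‖η‖ ^ 2))) := by
            have := h6.tendsto
            rw [h6'] at this
            exact this (Ioi_mem_nhds (by linarith))
          filter_upwards [h4.filter_mono nhdsWithin_le_nhds, h5.filter_mono nhdsWithin_le_nhds,
            h7.filter_mono nhdsWithin_le_nhds, self_mem_nhdsWithin] with η g1 g2 g3 g5
          have g6 := hA' η g5.2
          rw [max_eq_right g2.le] at g6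
          have g7 := hT η g5
          have g8 := mul_nonneg (mul_nonneg hAc.le hr1.le) (hw2 η)
          have g9 : (A + c) * r₀ * (1 / Real.pi *
              (Real.pi - 2 * r₀ * η.re / (r₀ ^ 2 - ‖η‖ ^ 2))) ≤
              (A + c) * r₀ * (1 / Real.pi * ang r₀ η) :=
            mul_le_mul_of_nonneg_left (mul_le_mul_of_nonneg_left (le_ang h0 g5.1 g2)
              (by positivity)) (by positivity)
          have g10 : c * ‖ζ‖ ≤ c * r₀ := mul_le_mul_of_nonneg_left h3.le hc.le
          simp only [hV]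
          linarith
        · exfalso
          rw [hζn] at h3
          rcases abs_cases ζ.im with ⟨h7, _⟩ | ⟨h7, _⟩
          · apply e2
            rw [hζim, ← h3, h7]
          · apply e3
            rw [hζim, ← h3, h7]
            push_cast
            ring
        · -- outside
          have h4 : ∀ᶠ η in 𝓝 ζ, -(c * ‖ζ‖) - ε / 4 < 2 * c / Real.pi *
              (η.re * (Real.log ‖η‖ - Real.log r₁)) - c * ‖η‖ :=
            hlim (Ioi_mem_nhds (by linarith))
          have h5 := hc' ζ h.1 h3 h.2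
          have h6 := hs.usc ζ (mem_ball_zero_iff.2 h.2) (-(c * ‖ζ‖) + ε / 4) (by
            show v ζ < _
            linarith)
          have h7 := h6.filter_mono (nhdsWithin_mono ζ
            (fun z (hz : z ∈ RHD r₁) => mem_ball_zero_iff.2 hz.2))
          filter_upwards [h4.filter_mono nhdsWithin_le_nhds, h7, self_mem_nhdsWithin]
            with η g1 g2 g3
          have g4 := hV1 η g3
          have g5 : v η < -(c * ‖ζ‖) + ε / 4 := g2
          linarith
      · -- the arc
        have hlim := hk ζ e1 (Or.inr h.2)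
        have h1 := ang_tendsto hr1 h.1 h.2
        have h2 : Tendsto (fun η => (A + c) * r₁ * (2 - 2 / Real.pi * ang r₁ η)) (𝓝 ζ)
            (𝓝 ((A + c) * r₁ * (2 - 2 / Real.pi * (Real.pi / 2)))) :=
          tendsto_const_nhds.mul (tendsto_const_nhds.sub (tendsto_const_nhds.mul h1))
        have h3 : (A + c) * r₁ * (2 - 2 / Real.pi * (Real.pi / 2)) = (A + c) * r₁ := by
          field_simp
          ring
        rw [h3] at h2
        have h4 : ∀ᶠ η in 𝓝 ζ, -(c * ‖ζ‖) - ε / 4 < 2 * c / Real.pi *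
              (η.re * (Real.log ‖η‖ - Real.log r₁)) - c * ‖η‖ :=
            hlim (Ioi_mem_nhds (by linarith))
        have h5 : ∀ᶠ η in 𝓝 ζ, (A + c) * r₁ - ε / 4 <
            (A + c) * r₁ * (2 - 2 / Real.pi * ang r₁ η) := h2 (Ioi_mem_nhds (by linarith))
        filter_upwards [h4.filter_mono nhdsWithin_le_nhds, h5.filter_mono nhdsWithin_le_nhds,
          self_mem_nhdsWithin] with η g1 g2 g3
        have g4 := hT η g3
        have g5 := mul_nonneg (mul_nonneg hAc.le h0.le) (hw1 η g3)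
        have g6 := hA' η g3.2
        have g7 : A * max ‖η‖ r₀ ≤ A * r₁ :=
          mul_le_mul_of_nonneg_left (max_le g3.2.le (by linarith)) hA
        rw [h.2] at g1
        simp only [hV]
        linarith
      · exact absurd h e4
      · exact absurd h e5)
  intro η hη hn
  have hηR : η ∈ RHD r₁ := ⟨hη, by rw [hn]; linarith⟩
  refine lt_of_le_of_lt (key η hηR) ?_
  have h1 : 2 * c / Real.pi * tlog r₁ η ≤
      2 * c / Real.pi * (η.re * (Real.log (10 * r₀) - Real.log r₁)) := by
    apply mul_le_mul_of_nonneg_left _ (by positivity)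
    rw [← hn]
    exact (tlog_bounds hη).2
  have h2 : (A + c) * r₁ * (2 - 2 / Real.pi * ang r₁ η) ≤
      (A + c) * (4 / Real.pi * (r₁ ^ 2 * η.re / (r₁ ^ 2 - (10 * r₀) ^ 2))) := by
    have h3 := le_ang hr1 hη hηR.2
    rw [hn] at h3
    have h4 : 2 / Real.pi * (Real.pi - 2 * r₁ * η.re / (r₁ ^ 2 - (10 * r₀) ^ 2)) ≤
        2 / Real.pi * ang r₁ η := mul_le_mul_of_nonneg_left h3 (by positivity)
    have h5 : (A + c) * r₁ * (2 - 2 / Real.pi * ang r₁ η) ≤ (A + c) * r₁ *
        (2 - 2 / Real.pi * (Real.pi - 2 * r₁ * η.re / (r₁ ^ 2 - (10 * r₀) ^ 2))) :=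
      mul_le_mul_of_nonneg_left (by linarith) (by positivity)
    refine h5.trans (le_of_eq ?_)
    have h6 : r₁ ^ 2 - (10 * r₀) ^ 2 ≠ 0 := by nlinarith
    field_simp
    ring
  have h3 : (A + c) * r₀ * (1 / Real.pi * ang r₀ η) ≤
      (A + c) * (1 / Real.pi * (2 * r₀ ^ 2 * η.re / ((10 * r₀) ^ 2 - r₀ ^ 2))) := by
    have h4 := ang_le h0 hη (by rw [hn]; linarith)
    rw [hn] at h4
    have h5 : (A + c) * r₀ * (1 / Real.pi * ang r₀ η) ≤ (A + c) * r₀ *
        (1 / Real.pi * (2 * r₀ * η.re / ((10 * r₀) ^ 2 - r₀ ^ 2))) :=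
      mul_le_mul_of_nonneg_left (mul_le_mul_of_nonneg_left h4 (by positivity)) (by positivity)
    refine h5.trans (le_of_eq ?_)
    have h6 : (10 * r₀) ^ 2 - r₀ ^ 2 ≠ 0 := by nlinarith
    field_simp
  have h4 : r₁ ^ 2 * η.re / (r₁ ^ 2 - (10 * r₀) ^ 2) ≤ 100 / 99 * η.re := by
    rw [div_le_iff₀ (by nlinarith)]
    have h5 : (10 * r₀) ^ 2 ≤ r₁ ^ 2 / 100 := by nlinarith
    have h6 : r₁ ^ 2 ≤ 100 / 99 * (r₁ ^ 2 - (10 * r₀) ^ 2) := by nlinarith
    have h7 := mul_le_mul_of_nonneg_left h6 hη.le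
    nlinarith
  have h5 : 2 * r₀ ^ 2 * η.re / ((10 * r₀) ^ 2 - r₀ ^ 2) = 2 / 99 * η.re := by
    have h6 : (10 * r₀) ^ 2 - r₀ ^ 2 ≠ 0 := by nlinarith
    field_simp
    ring
  have h6 : (A + c) * (4 / Real.pi * (r₁ ^ 2 * η.re / (r₁ ^ 2 - (10 * r₀) ^ 2))) ≤
      (A + c) * (4 / Real.pi * (100 / 99 * η.re)) :=
    mul_le_mul_of_nonneg_left (mul_le_mul_of_nonneg_left h4 (by positivity)) hAc.le
  rw [h5] at h3
  have h7 : Real.log r₁ - Real.log (10 * r₀) = Real.log (r₁ / r₀) - Real.log 10 := by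
    rw [Real.log_mul (by norm_num) h0.ne', Real.log_div hr1.ne' h0.ne']
    ring
  have h8 : 3 * ((A + c) / c) < Real.log r₁ - Real.log (10 * r₀) := by rw [h7]; linarith
  have h9 : 3 * (A + c) < c * (Real.log r₁ - Real.log (10 * r₀)) := by
    have := mul_lt_mul_of_pos_left h8 hc
    have e : c * (3 * ((A + c) / c)) = 3 * (A + c) := by field_simp
    linarith
  have h10 : V η ≤ η.re / Real.pi * (-(2 * (c * (Real.log r₁ - Real.log (10 * r₀)))) +
      402 / 99 * (A + c)) := by
    have e1 : η.re / Real.pi * (-(2 * (c * (Real.log r₁ - Real.log (10 * r₀)))) +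
      402 / 99 * (A + c)) = 2 * c / Real.pi * (η.re * (Real.log (10 * r₀) - Real.log r₁)) +
        (A + c) * (4 / Real.pi * (100 / 99 * η.re)) + (A + c) * (1 / Real.pi * (2 / 99 * η.re)) := by
      field_simp
      ring
    rw [e1]
    simp only [hV]
    linarith
  refine lt_of_le_of_lt h10 ?_
  apply mul_neg_of_pos_of_neg (by positivity)
  nlinarith

/-- **LT-5** (quantitative log gain) -/
theorem gq_stmt : GQStmt := by
  intro a ha
  set L : ℝ := 12 * a + 8 with hLdef
  have hL0 : 0 < L := by rw [hLdef]; linarith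
  have hlog10 : Real.log 10 < 5 := by
    have h1 := Real.log_le_sub_one_of_pos (show (0 : ℝ) < 10 / Real.exp 1 ^ 2 by positivity)
    have h2 : Real.log (10 / Real.exp 1 ^ 2) = Real.log 10 - 2 := by
      rw [Real.log_div (by norm_num) (by positivity), Real.log_pow, Real.log_exp]
      norm_num
    have h3 : (10 : ℝ) / Real.exp 1 ^ 2 < 2 := by
      rw [div_lt_iff₀ (by positivity)]
      nlinarith [Real.exp_one_gt_d9]
    linarith
  have hexp : Real.exp (-L) < 1 / 100 := by
    have h1 : (20 : ℝ) ≤ L := by rw [hLdef]; linarith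
    have h2 : Real.exp (-L) ≤ Real.exp (-20) := Real.exp_le_exp.2 (by linarith)
    have h3 : (200 : ℝ) < Real.exp 20 := by
      have := Real.quadratic_le_exp_of_nonneg (show (0 : ℝ) ≤ 20 by norm_num)
      norm_num at this
      linarith
    have h4 : Real.exp (-20) < 1 / 100 := by
      rw [Real.exp_neg, inv_eq_one_div, div_lt_div_iff₀ (Real.exp_pos _) (by norm_num)]
      linarith
    linarith
  have hexp0 : 0 < Real.exp (-L) := Real.exp_pos _
  refine ⟨Real.exp (-L) / 2, by positivity, by linarith, ?_⟩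
  intro c R u hc hR hs hA hI om hom
  set ρ : ℝ := R * Real.exp (-L) with hρ
  have hρ0 : 0 < ρ := by positivity
  have h100 : 100 * ρ < R := by
    rw [hρ]
    nlinarith
  have hlogρ : Real.log (R / ρ) = L := by
    rw [hρ]
    have : R / (R * Real.exp (-L)) = Real.exp L := by
      rw [Real.exp_neg]
      field_simp
    rw [this, Real.log_exp]
  -- the function `v`
  set v : ℂ → ℝ := fun z => u z + c * (ρ / 2) with hv
  have hvs : SubH v (ball 0 R) := hs.add_const _
  have hac : 0 < a * c := by positivity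
  have hvA : ∀ η : ℂ, ‖η‖ < R → v η ≤ 2 * (a * c) * max ‖η‖ ρ := by
    intro η hη
    have h1 := hA η (mem_ball_zero_iff.2 hη)
    have h2 : a * c * ‖η‖ ≤ a * c * max ‖η‖ ρ :=
      mul_le_mul_of_nonneg_left (le_max_left _ _) hac.le
    have h3 : a * c * ρ ≤ a * c * max ‖η‖ ρ :=
      mul_le_mul_of_nonneg_left (le_max_right _ _) hac.le
    have h4 : c * (ρ / 2) ≤ a * c * ρ := by
      have : 0 < c * ρ := by positivity
      nlinarith
    simp only [hv]
    linarith
  have hvI : ∀ ζ : ℂ, ζ.re = 0 → ρ ≤ ‖ζ‖ → ‖ζ‖ < R → v ζ ≤ -(c / 2) * ‖ζ‖ := by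
    intro ζ h1 h2 h3
    have h4 := hI ζ (mem_ball_zero_iff.2 h3) h1
    have h5 : c * ρ ≤ c * ‖ζ‖ := mul_le_mul_of_nonneg_left h2 hc.le
    simp only [hv]
    linarith
  have hLL : Real.log 10 + 3 * ((2 * (a * c) + c / 2) / (c / 2)) < Real.log (R / ρ) := by
    have h1 : (2 * (a * c) + c / 2) / (c / 2) = 4 * a + 1 := by
      field_simp
      ring
    rw [h1, hlogρ, hLdef]
    linarith
  have hp := gq_half (v := v) (A := 2 * (a * c)) (c := c / 2) (by positivity) (by positivity) hρ0
    h100 hvs hvA (fun ζ h1 h2 h3 => hvI ζ h1 h2.le h3) hLL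
  have hsn : SubH (fun z => v (-z)) (ball 0 R) :=
    hvs.comp (φ := fun z => -z) isOpen_ball isOpen_ball
      (fun z _ => (analyticAt_id (𝕜 := ℂ)).neg) (fun z hz => by
        rw [mem_ball_zero_iff] at hz ⊢
        rwa [norm_neg])
  have hm := gq_half (v := fun z => v (-z)) (A := 2 * (a * c)) (c := c / 2) (by positivity)
    (by positivity) hρ0 h100 hsn (fun η hη => by
      have := hvA (-η) (by rwa [norm_neg])
      rwa [norm_neg] at this) (fun ζ h1 h2 h3 => by
      have := hvI (-ζ) (by rw [Complex.neg_re, h1, neg_zero]) (by rw [norm_neg]; exact h2.le)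
        (by rwa [norm_neg])
      rwa [norm_neg] at this) hLL
  have hneg : ∀ z ∈ sphere (0 : ℂ) (10 * ρ), v z < 0 := by
    intro z hz
    rw [mem_sphere_zero_iff_norm] at hz
    rcases lt_trichotomy z.re 0 with h | h | h
    · have := hm (-z) (by simpa using h) (by rw [norm_neg]; exact hz)
      rwa [neg_neg] at this
    · have := hvI z h (by rw [hz]; linarith) (by rw [hz]; linarith)
      rw [hz] at this
      have h2 : 0 < c / 2 * (10 * ρ) := by positivity
      linarith
    · exact hp z h hz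
  have hsub : closedBall (0 : ℂ) (10 * ρ) ⊆ ball 0 R := closedBall_subset_ball (by linarith)
  have hmax := SubH.le_of_frontier (V := ball (0 : ℂ) (10 * ρ)) isOpen_ball isBounded_ball
    (hvs.mono (ball_subset_closedBall.trans hsub)) (M := 0) (by
      intro ζ hζ ε hε
      rw [frontier_ball (0 : ℂ) (by positivity)] at hζ
      have h1 := hneg ζ hζ
      have h2 := hvs.usc ζ (hsub (sphere_subset_closedBall hζ)) 0 h1
      have h3 := h2.filter_mono (nhdsWithin_mono ζ (ball_subset_closedBall.trans hsub))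
      filter_upwards [h3] with z hz
      have : v z < 0 := hz
      linarith)
  have hom2 : om ∈ ball (0 : ℂ) (10 * ρ) := by
    rw [mem_ball_zero_iff]
    have : Real.exp (-L) / 2 * R = ρ / 2 := by rw [hρ]; ring
    linarith
  have h1 := hmax om hom2
  simp only [hv] at h1
  have h2 : -c * (Real.exp (-L) / 2) * R = -(c * (ρ / 2)) := by rw [hρ]; ring
  rw [h2]
  linarith

end Pool.Agent.MP_ae5b4e_an_LOC
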