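import Pool.Agent.Lib.MP_ae5b4e_an_LOC.SOLV

/-!
# LOC, LT-19 [LIN]: the linear theorem
-/

set_option autoImplicit false

namespace Pool.Agent.MP_ae5b4e_an_LOC

open Set Metric Complex ComplexConjugate Filter Topology

theorem Bg.path_mem (B : Bg) (n : ℤ) : ∀ᶠ τ : ℝ in 𝓝[>] 0, B.b n - I * τ ∈ Sp B.h := by
  have h1 : ∀ᶠ τ : ℝ in 𝓝[>] 0, τ < 2 * B.h :=
    nhdsWithin_le_nhds (Iio_mem_nhds (by linarith [B.h_pos]))
  filter_upwards [h1, self_mem_nhdsWithin] with τ h2 h3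
  have h4 : (B.b n - I * τ).im = B.h - τ := by simp [Bg.b]
  rw [mem_Sp, h4, abs_lt]
  constructor <;> linarith [mem_Ioi.1 h3]

theorem isPreconnected_Sp (t : ℝ) : IsPreconnected (Sp t) := (convex_Sp t).isPreconnected

/-- a point of the line which is not a base point has positive distance from the base points -/
theorem Bg.exists_far (B : Bg) {x0 : ℂ} (hx : x0.im = B.h) (hne : ∀ n : ℤ, x0 ≠ B.b n) :
    ∃ d > 0, d ≤ B.rho ∧ Far B x0 d := by
  set k : ℤ := round (2 * x0.re) with hk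
  have hk1 : x0.re - k / 2 ≠ 0 := by
    intro h
    apply hne k
    apply Complex.ext
    · simp only [Bg.b, add_re, mul_re, I_re, I_im, ofReal_re, ofReal_im]
      have : ((k : ℂ) / 2).re = (k : ℝ) / 2 := by
        rw [show ((k : ℂ) / 2) = (((k : ℝ) / 2 : ℝ) : ℂ) by push_cast; ring, ofReal_re]
      rw [this]
      linarith
    · have : ((k : ℂ) / 2).im = 0 := by
        rw [show ((k : ℂ) / 2) = (((k : ℝ) / 2 : ℝ) : ℂ) by push_cast; ring, ofReal_im]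
      simp only [Bg.b, add_im, mul_im, I_re, I_im, ofReal_re, ofReal_im, this]
      linarith
  have hpos : 0 < |x0.re - k / 2| := abs_pos.2 hk1
  refine ⟨min B.rho |x0.re - k / 2|, lt_min B.rho_pos hpos, min_le_left _ _, fun n => ?_⟩
  refine (min_le_right _ _).trans ?_
  have h1 : |x0.re - n / 2| ≤ ‖x0 - B.b n‖ := by
    have h2 := Complex.abs_re_le_norm (x0 - B.b n)
    have h3 : (x0 - B.b n).re = x0.re - n / 2 := by
      have : ((n : ℂ) / 2).re = (n : ℝ) / 2 := by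
        rw [show ((n : ℂ) / 2) = (((n : ℝ) / 2 : ℝ) : ℂ) by push_cast; ring, ofReal_re]
      simp [Bg.b, this]
    rwa [h3] at h2
  refine le_trans ?_ h1
  have h4 : |2 * x0.re - k| ≤ |2 * x0.re - n| := by
    rw [hk]
    exact round_le (2 * x0.re) n
  have h5 : ∀ y : ℝ, |x0.re - y / 2| = |2 * x0.re - y| / 2 := fun y => by
    rw [show x0.re - y / 2 = (2 * x0.re - y) / 2 by ring, abs_div, abs_of_pos (two_pos (α := ℝ))]
  rw [h5, h5]
  linarith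

theorem lin_stmt (B : Bg) (D : KerD B) (hS : STRStmt B) (hL : LineStmt B) (h1 : Loc1Stmt B)
    (h2 : Loc2Stmt B) (hF : Fin0Stmt B) : LINStmt B D := by
  intro t f c kk hkk ht hth hf hf2
  obtain ⟨g, hg, hgf⟩ := hS t f ht hth hf
  have hh := B.h_pos
  have hC : ∀ j, AnalyticOnNhd ℂ (D.C j) (Sp B.h) := fun j => (D.solA j).an 1
  have hSC : AnalyticOnNhd ℂ (fun x => ∑ j, (c j : ℂ) * D.C j x) (Sp B.h) :=
    Finset.analyticOnNhd_fun_sum _ fun j _ => analyticOnNhd_const.mul (hC j)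
  have h0t : (0:ℂ) ∈ Sp t := by rw [mem_Sp]; simpa using ht
  have hg2 : EqOn (g 2) (fun x => kk * (∑ j, (c j : ℂ) * D.C j x) ^ 2) (Sp B.h) := by
    refine (hg.an 2).eqOn_of_preconnected_of_eventuallyEq (analyticOnNhd_const.mul (hSC.pow 2))
      (isPreconnected_Sp _) (Sp_mono hth h0t) ?_
    filter_upwards [(isOpen_Sp t).mem_nhds h0t] with x hx
    rw [hgf 2 x hx, hf2 x hx]
  -- step 1: `c = 0`
  have hc : c = 0 := by
    apply D.injC
    intro n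
    have hz : ∀ x ∈ Sp B.h, (0 : ℂ → ℂ) x = 0 := fun _ _ => rfl
    choose be _ hb _ using fun j : Fin 4 =>
      h1 (![D.A j, D.C j, 0]) ((n : ℕ) : ℤ) (D.solA j) (fun x _ => rfl)
    choose Cb e he hb using hb
    have hal : (kk : ℂ) * (∑ j, (c j : ℂ) * D.LC j n) ^ 2 = 0 := by
      refine h2 g ((n : ℕ) : ℤ) _ hg ?_ ?_
      · have hh2 : (0:ℝ) < 2 * B.h := by linarith
        obtain ⟨e0, he0, hle⟩ : ∃ e0 > 0, ∀ j, e0 ≤ e j := by
          refine ⟨min (min (e 0) (e 1)) (min (e 2) (e 3)),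
            lt_min (lt_min (he 0) (he 1)) (lt_min (he 2) (he 3)), fun j => ?_⟩
          fin_cases j <;> simp
        refine ⟨|kk| * (∑ j, |c j| * |Cb j|) ^ 2, min e0 (2 * B.h), lt_min he0 hh2, ?_⟩
        intro y hy1 hy2 hy3
        have hy4 : B.b ((n : ℕ) : ℤ) + y ∈ Sp B.h := by
          have h5 : (B.b ((n : ℕ) : ℤ) + y).im = B.h + y.im := by simp [Bg.b]
          rw [mem_Sp, h5, abs_lt]
          have h6 := (abs_le.1 (Complex.abs_im_le_norm y)).1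
          have h7 := hy2.trans_le (min_le_right _ _)
          constructor <;> linarith
        rw [hg2 hy4]
        have h8 : y ^ 8 * ((kk : ℂ) * (∑ j, (c j : ℂ) * D.C j (B.b ((n : ℕ) : ℤ) + y)) ^ 2) =
            kk * (∑ j, (c j : ℂ) * (y ^ 4 * D.C j (B.b ((n : ℕ) : ℤ) + y))) ^ 2 := by
          have : (∑ j, (c j : ℂ) * (y ^ 4 * D.C j (B.b ((n : ℕ) : ℤ) + y))) =
              y ^ 4 * ∑ j, (c j : ℂ) * D.C j (B.b ((n : ℕ) : ℤ) + y) := by
            rw [Finset.mul_sum]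
            exact Finset.sum_congr rfl fun j _ => by ring
          rw [this]
          ring
        show ‖y ^ 8 * ((kk : ℂ) * (∑ j, (c j : ℂ) * D.C j (B.b ((n : ℕ) : ℤ) + y)) ^ 2)‖ ≤ _
        rw [h8, norm_mul, norm_pow, Complex.norm_real, Real.norm_eq_abs]
        refine mul_le_mul_of_nonneg_left ?_ (abs_nonneg _)
        refine pow_le_pow_left₀ (norm_nonneg _) ?_ 2
        refine (norm_sum_le _ _).trans (Finset.sum_le_sum fun j _ => ?_)
        rw [norm_mul, Complex.norm_real, Real.norm_eq_abs]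
        refine mul_le_mul_of_nonneg_left ?_ (abs_nonneg _)
        exact (hb j y hy1 (hy2.trans_le ((min_le_left _ _).trans (hle j))) hy3).trans (le_abs_self _)
      · have h3 : Tendsto (fun τ : ℝ => (kk : ℂ) * (∑ j, (c j : ℂ) *
            ((τ : ℂ) ^ 4 * D.C j (B.b ((n : ℕ) : ℤ) - I * τ))) ^ 2) (𝓝[>] 0)
            (𝓝 ((kk : ℂ) * (∑ j, (c j : ℂ) * D.LC j n) ^ 2)) :=
          ((tendsto_finset_sum _ fun j _ => (D.limC j n).const_mul _).pow 2).const_mul _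
        refine h3.congr' ?_
        filter_upwards [B.path_mem ((n : ℕ) : ℤ)] with τ hτ
        rw [hg2 hτ]
        have : (∑ j, (c j : ℂ) * ((τ : ℂ) ^ 4 * D.C j (B.b ((n : ℕ) : ℤ) - I * τ))) =
            (τ : ℂ) ^ 4 * ∑ j, (c j : ℂ) * D.C j (B.b ((n : ℕ) : ℤ) - I * τ) := by
          rw [Finset.mul_sum]
          exact Finset.sum_congr rfl fun j _ => by ring
        rw [this]
        ring
    have hkk' : (kk : ℂ) ≠ 0 := by exact_mod_cast hkk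
    exact pow_eq_zero_iff (two_ne_zero) |>.1 ((mul_eq_zero.1 hal).resolve_left hkk')
  refine ⟨hc, ?_⟩
  have hg2' : ∀ x ∈ Sp B.h, g 2 x = 0 := fun x hx => by
    rw [hg2 hx, hc]
    simp
  -- step 2: subtract the quartic part
  choose be hbe _ hbe' using fun n : Fin 2 => h1 g ((n : ℕ) : ℤ) hg hg2'
  obtain ⟨a, ha⟩ := D.spanA be
  set g1 : Fin 3 → ℂ → ℂ := fun i x => g i x + ∑ j, ((-a j : ℝ) : ℂ) * (![D.A j, D.C j, 0] :
    Fin 3 → ℂ → ℂ) i x with hg1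
  have sg1 : Sol B B.h g1 := hg.add_sum hh Finset.univ (fun j => -a j)
    (fun j => ![D.A j, D.C j, 0]) D.solA
  have zg1 : ∀ x ∈ Sp B.h, g1 2 x = 0 := fun x hx => by
    simp only [hg1, hg2' x hx]
    simp
  have lim1 : ∀ n : Fin 2, Tendsto (fun τ : ℝ => (τ : ℂ) ^ 6 * g1 0 (B.b ((n : ℕ) : ℤ) - I * τ))
      (𝓝[>] 0) (𝓝 0) := by
    intro n
    have h3 : Tendsto (fun τ : ℝ => (τ : ℂ) ^ 6 * g 0 (B.b ((n : ℕ) : ℤ) - I * τ) +
        ∑ j, ((-a j : ℝ) : ℂ) * ((τ : ℂ) ^ 6 * D.A j (B.b ((n : ℕ) : ℤ) - I * τ))) (𝓝[>] 0)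
        (𝓝 (be n + ∑ j, ((-a j : ℝ) : ℂ) * D.LA j n)) :=
      (hbe n).add (tendsto_finset_sum _ fun j _ => (D.limA j n).const_mul _)
    have h4 : be n + ∑ j, ((-a j : ℝ) : ℂ) * D.LA j n = 0 := by
      rw [← ha n, ← Finset.sum_add_distrib]
      apply Finset.sum_eq_zero
      intro j _
      push_cast
      ring
    rw [h4] at h3
    refine h3.congr fun τ => ?_
    simp only [hg1, Matrix.cons_val_zero, mul_add, Finset.mul_sum]
    congr 1
    exact Finset.sum_congr rfl fun j _ => by ring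
  -- step 3: the quadratic parts
  have hbe1 : ∀ n : Fin 2, ∃ be0 be1 : ℂ,
      Tendsto (fun τ : ℝ => (τ : ℂ) ^ 2 * g1 0 (B.b ((n : ℕ) : ℤ) - I * τ)) (𝓝[>] 0) (𝓝 be0) ∧
      Tendsto (fun τ : ℝ => (τ : ℂ) ^ 2 * g1 1 (B.b ((n : ℕ) : ℤ) - I * τ)) (𝓝[>] 0) (𝓝 be1) := by
    intro n
    obtain ⟨be', h3, _, h5⟩ := h1 g1 ((n : ℕ) : ℤ) sg1 zg1
    have h6 : be' = 0 := tendsto_nhds_unique h3 (lim1 n)
    obtain ⟨be0, be1, h7, h8, _⟩ := h5 h6
    exact ⟨be0, be1, h7, h8⟩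
  choose be0 be1 hb0 hb1 using hbe1
  obtain ⟨b, hb⟩ := D.spanR be0
  obtain ⟨d, hd⟩ := D.spanR be1
  set g2 : Fin 3 → ℂ → ℂ := fun i x => g1 i x + ∑ j, ((-b j : ℝ) : ℂ) * (![D.R j, 0, 0] :
    Fin 3 → ℂ → ℂ) i x with hg2d
  have sg2 : Sol B B.h g2 := sg1.add_sum hh Finset.univ (fun j => -b j)
    (fun j => ![D.R j, 0, 0]) D.solR0
  set g3 : Fin 3 → ℂ → ℂ := fun i x => g2 i x + ∑ j, ((-d j : ℝ) : ℂ) * (![0, D.R j, 0] :
    Fin 3 → ℂ → ℂ) i x with hg3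
  have sg3 : Sol B B.h g3 := sg2.add_sum hh Finset.univ (fun j => -d j)
    (fun j => ![0, D.R j, 0]) D.solR1
  have zg3 : ∀ x ∈ Sp B.h, g3 2 x = 0 := fun x hx => by
    simp only [hg3, hg2d, zg1 x hx]
    simp
  have e0 : ∀ x, g3 0 x = g1 0 x + ∑ j, ((-b j : ℝ) : ℂ) * D.R j x := fun x => by
    simp [hg3, hg2d]
  have e1 : ∀ x, g3 1 x = g1 1 x + ∑ j, ((-d j : ℝ) : ℂ) * D.R j x := fun x => by
    simp [hg3, hg2d]
  have lim2 : ∀ n : Fin 2, Tendsto (fun τ : ℝ => (τ : ℂ) ^ 2 * g3 0 (B.b ((n : ℕ) : ℤ) - I * τ))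
      (𝓝[>] 0) (𝓝 0) := by
    intro n
    have h3 : Tendsto (fun τ : ℝ => (τ : ℂ) ^ 2 * g1 0 (B.b ((n : ℕ) : ℤ) - I * τ) +
        ∑ j, ((-b j : ℝ) : ℂ) * ((τ : ℂ) ^ 2 * D.R j (B.b ((n : ℕ) : ℤ) - I * τ))) (𝓝[>] 0)
        (𝓝 (be0 n + ∑ j, ((-b j : ℝ) : ℂ) * D.LR j n)) :=
      (hb0 n).add (tendsto_finset_sum _ fun j _ => (D.limR j n).const_mul _)
    have h4 : be0 n + ∑ j, ((-b j : ℝ) : ℂ) * D.LR j n = 0 := by
      rw [← hb n, ← Finset.sum_add_distrib]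
      apply Finset.sum_eq_zero
      intro j _
      push_cast
      ring
    rw [h4] at h3
    refine h3.congr fun τ => ?_
    have key : ∀ A S : ℂ, (τ : ℂ) ^ 2 * (A + S) = (τ : ℂ) ^ 2 * A + (τ : ℂ) ^ 2 * S :=
      fun A S => by ring
    rw [e0, key (g1 0 _), Finset.mul_sum]
    congr 1
    exact Finset.sum_congr rfl fun j _ => by ring
  have lim3 : ∀ n : Fin 2, Tendsto (fun τ : ℝ => (τ : ℂ) ^ 2 * g3 1 (B.b ((n : ℕ) : ℤ) - I * τ))
      (𝓝[>] 0) (𝓝 0) := by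
    intro n
    have h3 : Tendsto (fun τ : ℝ => (τ : ℂ) ^ 2 * g1 1 (B.b ((n : ℕ) : ℤ) - I * τ) +
        ∑ j, ((-d j : ℝ) : ℂ) * ((τ : ℂ) ^ 2 * D.R j (B.b ((n : ℕ) : ℤ) - I * τ))) (𝓝[>] 0)
        (𝓝 (be1 n + ∑ j, ((-d j : ℝ) : ℂ) * D.LR j n)) :=
      (hb1 n).add (tendsto_finset_sum _ fun j _ => (D.limR j n).const_mul _)
    have h4 : be1 n + ∑ j, ((-d j : ℝ) : ℂ) * D.LR j n = 0 := by
      rw [← hd n, ← Finset.sum_add_distrib]
      apply Finset.sum_eq_zero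
      intro j _
      push_cast
      ring
    rw [h4] at h3
    refine h3.congr fun τ => ?_
    have key : ∀ A S : ℂ, (τ : ℂ) ^ 2 * (A + S) = (τ : ℂ) ^ 2 * A + (τ : ℂ) ^ 2 * S :=
      fun A S => by ring
    rw [e1, key (g1 1 _), Finset.mul_sum]
    congr 1
    exact Finset.sum_congr rfl fun j _ => by ring
  -- the limits at all base points, by periodicity
  have hper : ∀ (n : ℤ) (i : Fin 3) (k : ℕ) (z : ℂ),
      Tendsto (fun τ : ℝ => (τ : ℂ) ^ k * g3 i (B.b (n % 2) - I * τ)) (𝓝[>] 0) (𝓝 z) →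
      Tendsto (fun τ : ℝ => (τ : ℂ) ^ k * g3 i (B.b n - I * τ)) (𝓝[>] 0) (𝓝 z) := by
    intro n i k z h
    have hadd : ∀ (j : ℕ) (x : ℂ), x ∈ Sp B.h → g3 i (x + j) = g3 i x := by
      intro j
      induction j with
      | zero => intro x _; simp
      | succ j ih =>
        intro x hx
        have hx' : x + j ∈ Sp B.h := by rw [mem_Sp] at hx ⊢; simpa using hx
        rw [Nat.cast_add, Nat.cast_one, ← add_assoc, sg3.per i _ hx', ih x hx]
    have hz : ∀ (j : ℤ) (x : ℂ), x ∈ Sp B.h → g3 i (x + j) = g3 i x := by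
      intro j x hx
      obtain ⟨l, rfl | rfl⟩ := j.eq_nat_or_neg
      · exact_mod_cast hadd l x hx
      · have hx' : x + ((-(l : ℤ) : ℤ) : ℂ) ∈ Sp B.h := by rw [mem_Sp] at hx ⊢; simpa using hx
        have h3 := hadd l _ hx'
        rw [← h3]
        congr 1
        push_cast
        ring
    have hb' : B.b n = B.b (n % 2) + ((n / 2 : ℤ) : ℂ) := by
      have h3 : (n : ℂ) = 2 * ((n / 2 : ℤ) : ℂ) + ((n % 2 : ℤ) : ℂ) := by
        exact_mod_cast (Int.mul_ediv_add_emod n 2).symm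
      unfold Bg.b
      rw [h3]
      have h4 : (2 * (n / 2) + n % 2) % 2 = n % 2 := by omega
      ring_nf
    refine h.congr' ?_
    filter_upwards [B.path_mem (n % 2)] with τ hτ
    rw [hb', show B.b (n % 2) + ((n / 2 : ℤ) : ℂ) - I * τ = B.b (n % 2) - I * τ +
      ((n / 2 : ℤ) : ℂ) by ring, hz _ _ hτ]
  have hall : ∀ n : ℤ, Tendsto (fun τ : ℝ => (τ : ℂ) ^ 2 * g3 0 (B.b n - I * τ)) (𝓝[>] 0) (𝓝 0) ∧
      Tendsto (fun τ : ℝ => (τ : ℂ) ^ 2 * g3 1 (B.b n - I * τ)) (𝓝[>] 0) (𝓝 0) := by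
    intro n
    have h3 := lim2 0
    have h3' := lim2 1
    have h4 := lim3 0
    have h4' := lim3 1
    simp only [Fin.val_zero, Fin.val_one, Nat.cast_zero, Nat.cast_one] at h3 h3' h4 h4'
    rcases Int.emod_two_eq_zero_or_one n with h5 | h5
    · exact ⟨hper n 0 2 0 (by rw [h5]; exact h3), hper n 1 2 0 (by rw [h5]; exact h4)⟩
    · exact ⟨hper n 0 2 0 (by rw [h5]; exact h3'), hper n 1 2 0 (by rw [h5]; exact h4')⟩
  have hreg : ∀ n : ℤ, ∀ i : Fin 3, ∃ e > 0, ∃ G : ℂ → ℂ, AnalyticOnNhd ℂ G (ball (B.b n) e) ∧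
        (∀ y : ℂ, ‖y‖ < e → G (B.b n + y) = G (B.b n - y)) ∧
        ∀ x ∈ ball (B.b n) e, x ∈ Sp B.h → G x = g3 i x := by
    intro n
    obtain ⟨be', h3, _, h5⟩ := h1 g3 n sg3 zg3
    have h6 : be' = 0 := by
      refine tendsto_nhds_unique h3 ?_
      have h7 : Tendsto (fun τ : ℝ => (τ : ℂ) ^ 4 * ((τ : ℂ) ^ 2 * g3 0 (B.b n - I * τ)))
          (𝓝[>] 0) (𝓝 (((0:ℝ) : ℂ) ^ 4 * 0)) := by
        refine Tendsto.mul ?_ (hall n).1
        have : Continuous fun τ : ℝ => (τ : ℂ) ^ 4 := by fun_prop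
        exact (this.tendsto 0).mono_left nhdsWithin_le_nhds
      rw [mul_zero] at h7
      refine h7.congr fun τ => by ring
    obtain ⟨c0, c1, h7, h8, h9⟩ := h5 h6
    exact h9 (tendsto_nhds_unique h7 (hall n).1) (tendsto_nhds_unique h8 (hall n).2)
  -- step 4
  obtain ⟨cL, hcL, _, hLine⟩ := hL
  obtain ⟨f', G, c0, hf'1, hf'2⟩ := hLine g3 sg3
  have hfin : ∀ i, ∃ C : ℝ, ∀ x ∈ Sp B.h, g3 i x = C := by
    intro i
    refine hF (g3 i) (sg3.an i) (sg3.per i) (sg3.real i) fun x0 hx0 => ?_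
    by_cases hb0 : ∃ n : ℤ, x0 = B.b n
    · obtain ⟨n, rfl⟩ := hb0
      obtain ⟨e, he, G, h3, h4, h5⟩ := hreg n i
      refine ⟨e, he, G, h3, h5, fun h6 y hy => ?_⟩
      rw [← h6]
      exact h4 y hy
    · push Not at hb0
      obtain ⟨δ, hδ, hδ1, hδ2⟩ := B.exists_far hx0 hb0
      refine ⟨cL * δ, mul_pos hcL hδ, f' i, hf'2.fan x0 δ hx0 hδ hδ1 hδ2 i,
        fun x _ hx => hf'1 i x hx, fun h6 => (hb0 0 h6).elim⟩
  obtain ⟨C0, hC0⟩ := hfin 0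
  obtain ⟨C1, hC1⟩ := hfin 1
  refine ⟨a, b, d, C0, C1, fun x hx => ?_⟩
  have hx' := Sp_mono hth hx
  have h3 := hC0 x hx'
  have h4 := hC1 x hx'
  rw [e0] at h3
  rw [e1] at h4
  simp only [hg1, Matrix.cons_val_zero, Matrix.cons_val_one, hgf 0 x hx, hgf 1 x hx, ofReal_neg,
    neg_mul, Finset.sum_neg_distrib] at h3 h4
  constructor
  · linear_combination h3
  · linear_combination h4

end Pool.Agent.MP_ae5b4e_an_LOC
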