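import Mathlib
import Pool.Agent.Lib.MP_ae5b4e_an_LOC.LTS

/-!
# LOC, LT-7: extension of a solution to the full strip

`glue`: gluing of analytic functions on open sets over a common part.  `str_stmt`: a solution on a
strip of any width extends to the strip of width `h`.
-/

set_option autoImplicit false

namespace Pool.Agent.MP_ae5b4e_an_LOC

open Set Metric Complex ComplexConjugate Filter Topology

/-- gluing: the functions `φ j` on `U j` agree with `f` on `D`, and two of the sets `U j` have a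
connected intersection which meets `D` -/
theorem glue {ι E : Type*} [NormedAddCommGroup E] [NormedSpace ℂ E] {D : Set E} {U : ι → Set E}
    (f : E → ℂ) (φ : ι → E → ℂ) (hD : IsOpen D) (hU : ∀ j, IsOpen (U j))
    (hφ : ∀ j, AnalyticOnNhd ℂ (φ j) (U j)) (heq : ∀ j, ∀ x ∈ U j, x ∈ D → φ j x = f x)
    (hc : ∀ j k, (U j ∩ U k).Nonempty → IsPreconnected (U j ∩ U k) ∧ (U j ∩ U k ∩ D).Nonempty) :
    ∃ g : E → ℂ, (∀ x ∈ D, g x = f x) ∧ ∀ j, ∀ x ∈ U j, g x = φ j x := by
  classical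
  refine ⟨fun x => if x ∈ D then f x else if h : ∃ j, x ∈ U j then φ h.choose x else 0,
    fun x hx => if_pos hx, ?_⟩
  intro j x hx
  simp only
  by_cases hD' : x ∈ D
  · rw [if_pos hD', heq j x hx hD']
  · have h : ∃ j, x ∈ U j := ⟨j, hx⟩
    rw [if_neg hD', dif_pos h]
    obtain ⟨hpre, y, ⟨hy1, hy2⟩, hy3⟩ := hc h.choose j ⟨x, h.choose_spec, hx⟩
    have hev : φ h.choose =ᶠ[𝓝 y] φ j := by
      filter_upwards [(hU h.choose).mem_nhds hy1, (hU j).mem_nhds hy2, hD.mem_nhds hy3] with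
        z h1 h2 h3
      rw [heq _ z h1 h3, heq _ z h2 h3]
    exact ((hφ h.choose).mono inter_subset_left).eqOn_of_preconnected_of_eventuallyEq
      ((hφ j).mono inter_subset_right) hpre ⟨hy1, hy2⟩ hev ⟨h.choose_spec, hx⟩

/-- two balls with centres on a horizontal line which meet do so below the line too -/
theorem balls_meet {t : ℝ} {x1 x2 : ℂ} {d1 d2 : ℝ} (h1 : x1.im = t) (h2 : x2.im = t)
    (hd : d1 ≤ t) (hne : (ball x1 d1 ∩ ball x2 d2).Nonempty) :
    (ball x1 d1 ∩ ball x2 d2 ∩ Sp t).Nonempty := by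
  obtain ⟨x, hx1, hx2⟩ := hne
  set y : ℂ := ⟨x.re, t - |x.im - t|⟩ with hy
  have hdist : ∀ x0 : ℂ, x0.im = t → dist y x0 = dist x x0 := by
    intro x0 h0
    rw [Complex.dist_eq_re_im, Complex.dist_eq_re_im, h0]
    congr 2
    simp only [hy]
    rw [show t - |x.im - t| - t = -|x.im - t| by ring, neg_sq, sq_abs]
  have hy1 : y ∈ ball x1 d1 := by rw [mem_ball, hdist x1 h1]; exact hx1
  have hy2 : y ∈ ball x2 d2 := by rw [mem_ball, hdist x2 h2]; exact hx2
  have hopen : IsOpen (ball x1 d1 ∩ ball x2 d2) := isOpen_ball.inter isOpen_ball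
  obtain ⟨e, he, hsub⟩ := Metric.isOpen_iff.mp hopen y ⟨hy1, hy2⟩
  have hz : y - I * ((e / 2 : ℝ) : ℂ) ∈ ball y e := by
    rw [mem_ball, dist_eq_norm]
    have : y - I * ((e / 2 : ℝ) : ℂ) - y = -(I * ((e / 2 : ℝ) : ℂ)) := by ring
    rw [this, norm_neg, norm_mul, norm_I, one_mul, norm_real, Real.norm_of_nonneg (by linarith)]
    linarith
  refine ⟨y - I * ((e / 2 : ℝ) : ℂ), hsub hz, ?_⟩
  have him : (y - I * ((e / 2 : ℝ) : ℂ)).im = t - |x.im - t| - e / 2 := by
    simp [hy]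
  rw [mem_Sp, abs_lt]
  constructor
  · have h3 := (hsub hz).1
    rw [mem_ball, dist_eq_norm] at h3
    have h4 := (abs_im_le_norm (y - I * ((e / 2 : ℝ) : ℂ) - x1)).trans_lt h3
    rw [sub_im, h1, abs_lt] at h4
    have h5 : 0 < d1 := lt_of_le_of_lt dist_nonneg (mem_ball.mp hx1)
    linarith [h4.1]
  · rw [him]
    have := abs_nonneg (x.im - t)
    linarith

/-- the coefficients only see the real line -/
theorem cm_congr (B : Bg) {f g : Fin 3 → ℂ → ℂ} (h : ∀ i, ∀ x : ℝ, g i x = f i x) (m : ℤ) (om : ℂ) :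
    B.cm g m om = B.cm f m om := by
  unfold Bg.cm
  apply intervalIntegral.integral_congr
  intro x _
  simp only [Bg.F, h]

theorem analyticOnNhd_conj {g : ℂ → ℂ} {t : ℝ} (hg : AnalyticOnNhd ℂ g (Sp t)) :
    AnalyticOnNhd ℂ (fun x => conj (g (conj x))) (Sp t) := by
  apply DifferentiableOn.analyticOnNhd _ (isOpen_Sp t)
  intro x hx
  have hx' : conj x ∈ Sp t := by
    rw [mem_Sp] at hx ⊢
    simpa using hx
  have := (hg _ hx').differentiableAt.conj_conj
  simp only [conj_conj] at this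
  exact this.differentiableWithinAt

theorem Sp_conj {t : ℝ} {x : ℂ} (hx : x ∈ Sp t) : conj x ∈ Sp t := by
  rw [mem_Sp] at hx ⊢
  simpa using hx

theorem Sp_real {t : ℝ} (ht : 0 < t) (x : ℝ) : (x : ℂ) ∈ Sp t := by
  rw [mem_Sp]
  simpa using ht

/-- the identity theorem on strips -/
theorem eqOn_Sp {t t' : ℝ} (ht : 0 < t) (htt : t ≤ t') {f g : ℂ → ℂ}
    (hf : AnalyticOnNhd ℂ f (Sp t')) (hg : AnalyticOnNhd ℂ g (Sp t'))
    (h : ∀ x ∈ Sp t, f x = g x) : ∀ x ∈ Sp t', f x = g x := by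
  have h0 : (0:ℂ) ∈ Sp t := by
    rw [mem_Sp]
    simpa using ht
  have := hf.eqOn_of_preconnected_of_eventuallyEq hg (convex_Sp t').isPreconnected
    (Sp_mono htt h0) (by
      filter_upwards [(isOpen_Sp t).mem_nhds h0] with x hx
      exact h x hx)
  exact this

/-- an analytic extension of a solution is a solution -/
theorem Sol.of_ext {B : Bg} {t t' : ℝ} {f g : Fin 3 → ℂ → ℂ} (ht : 0 < t) (htt : t ≤ t')
    (hf : Sol B t f) (hg : ∀ i, AnalyticOnNhd ℂ (g i) (Sp t'))
    (he : ∀ i, ∀ x ∈ Sp t, g i x = f i x) : Sol B t' g := by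
  have hadd : ∀ {s : ℝ} {x : ℂ}, x ∈ Sp s → x + 1 ∈ Sp s := by
    intro s x hx
    rw [mem_Sp] at hx ⊢
    simpa using hx
  refine ⟨hg, ?_, ?_, ?_⟩
  · intro i
    apply eqOn_Sp ht htt (f := fun x => g i (x + 1)) (g := g i)
    · intro x hx
      have h1 : AnalyticAt ℂ (fun x : ℂ => x + 1) x := analyticAt_id.add analyticAt_const
      exact AnalyticAt.fun_comp (g := g i) (f := fun x : ℂ => x + 1) (hg i (x + 1) (hadd hx)) h1
    · exact hg i
    · intro x hx
      rw [he i x hx, he i (x + 1) (hadd hx), hf.per i x hx]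
  · intro i
    have := eqOn_Sp ht htt (f := g i) (g := fun x => conj (g i (conj x))) (hg i)
      (analyticOnNhd_conj (hg i)) (by
        intro x hx
        rw [he i x hx, he i _ (Sp_conj hx), hf.real i x hx, conj_conj])
    intro x hx
    have h1 := this (conj x) (Sp_conj hx)
    simp only [conj_conj] at h1
    exact h1
  · intro m p hm hp hr
    rw [cm_congr B (fun i x => he i x (Sp_real ht x))]
    exact hf.law m p hm hp hr

/-- one step of the extension -/
theorem str_step {B : Bg} (hFE : FEStmt B) (hCR : CRStmt B) {t : ℝ} (ht : 0 < t) (hth : t < B.h)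
    {f : Fin 3 → ℂ → ℂ} (hf : Sol B t f) :
    ∃ t' > t, t' ≤ B.h ∧ ∃ g : Fin 3 → ℂ → ℂ, Sol B t' g ∧ ∀ i, ∀ x ∈ Sp t, g i x = f i x := by
  classical
  obtain ⟨G, c0, hG⟩ := hFE t f ht hth.le hf
  obtain ⟨c, hc0, hc1, hCR⟩ := hCR
  set d : ℝ := min (min B.rho t) (B.h - t) with hd
  have hd0 : 0 < d := lt_min (lt_min B.rho_pos ht) (by linarith)
  have hdr : d ≤ B.rho := (min_le_left _ _).trans (min_le_left _ _)
  have hdt : d ≤ t := (min_le_left _ _).trans (min_le_right _ _)
  have hdh : d ≤ B.h - t := min_le_right _ _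
  have hcd : c * d ≤ d := by nlinarith
  have hcd0 : 0 < c * d := by positivity
  set x0 : ℝ → ℂ := fun a => ⟨a, t⟩ with hx0
  have hfar : ∀ a, Far B (x0 a) d := by
    intro a n
    have h1 := abs_im_le_norm (x0 a - B.b n)
    have h2 : (x0 a - B.b n).im = t - B.h := by
      simp [hx0, Bg.b]
    rw [h2, abs_of_neg (by linarith)] at h1
    linarith
  have hex : ∀ a : ℝ, ∃ fe : Fin 3 → ℂ → ℂ,
      (∀ i, AnalyticOnNhd ℂ (fe i) (ball (x0 a) (c * d))) ∧
      (∀ i, ∀ x ∈ ball (x0 a) (c * d), |x.im| < t → fe i x = f i x) := by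
    intro a
    obtain ⟨Ge, fe, -, h2, -, h4⟩ := hCR t f G c0 ht hth.le hf hG (x0 a) d rfl hd0 hdr hdt (hfar a)
    exact ⟨fe, h2, h4⟩
  choose fe hfe1 hfe2 using hex
  have hg1 : ∀ i, ∃ g : ℂ → ℂ, (∀ x ∈ Sp t, g x = f i x) ∧
      ∀ a : ℝ, ∀ x ∈ ball (x0 a) (c * d), g x = fe a i x := by
    intro i
    apply glue (U := fun a : ℝ => ball (x0 a) (c * d)) (f i) (fun a => fe a i) (isOpen_Sp t)
      (fun a => isOpen_ball) (fun a => hfe1 a i) (fun a x hx hx' => hfe2 a i x hx hx')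
    intro a a' hne
    exact ⟨((convex_ball _ _).inter (convex_ball _ _)).isPreconnected,
      balls_meet rfl rfl (hcd.trans hdt) hne⟩
  choose g1 hg1a hg1b using hg1
  -- analyticity on the upper part
  have hup : ∀ i, ∀ x : ℂ, -t < x.im → x.im < t + c * d → AnalyticAt ℂ (g1 i) x := by
    intro i x h1 h2
    by_cases h3 : x.im < t
    · have hx : x ∈ Sp t := by
        rw [mem_Sp, abs_lt]
        exact ⟨h1, h3⟩
      apply (hf.an i x hx).congr
      filter_upwards [(isOpen_Sp t).mem_nhds hx] with y hy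
      exact (hg1a i y hy).symm
    · have hx : x ∈ ball (x0 x.re) (c * d) := by
        rw [mem_ball, Complex.dist_eq_re_im]
        simp only [hx0]
        rw [sub_self, zero_pow (two_ne_zero), zero_add, Real.sqrt_sq (by linarith)]
        linarith
      apply (hfe1 x.re i x hx).congr
      filter_upwards [isOpen_ball.mem_nhds hx] with y hy
      exact (hg1b i x.re y hy).symm
  -- the final function
  set g2 : Fin 3 → ℂ → ℂ := fun i x => if -t < x.im then g1 i x else conj (g1 i (conj x)) with hg2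
  have hlow : ∀ i, ∀ x : ℂ, x.im < t → g2 i x = conj (g1 i (conj x)) := by
    intro i x hx
    simp only [hg2]
    split_ifs with h
    · have hxS : x ∈ Sp t := by
        rw [mem_Sp, abs_lt]
        exact ⟨h, hx⟩
      rw [hg1a i x hxS, hg1a i _ (Sp_conj hxS), hf.real i x hxS, conj_conj]
    · rfl
  have han : ∀ i, AnalyticOnNhd ℂ (g2 i) (Sp (t + c * d)) := by
    intro i x hx
    rw [mem_Sp, abs_lt] at hx
    by_cases h : -t < x.im
    · apply (hup i x h hx.2).congr
      filter_upwards [(isOpen_lt continuous_const Complex.continuous_im).mem_nhds h] with y hy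
      simp only [hg2]
      rw [if_pos hy]
    · have hxt : x.im < t := by
        push Not at h
        linarith
      have hopen : IsOpen {y : ℂ | -(t + c * d) < y.im ∧ y.im < t} :=
        (isOpen_lt continuous_const Complex.continuous_im).inter
          (isOpen_lt Complex.continuous_im continuous_const)
      have hdiff : DifferentiableOn ℂ (fun y => conj (g1 i (conj y)))
          {y : ℂ | -(t + c * d) < y.im ∧ y.im < t} := by
        intro y hy
        have h5 := (hup i (conj y) (by rw [conj_im]; linarith [hy.2])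
          (by rw [conj_im]; linarith [hy.1])).differentiableAt.conj_conj
        simp only [conj_conj] at h5
        exact h5.differentiableWithinAt
      have hA := hdiff.analyticOnNhd hopen x ⟨hx.1, hxt⟩
      apply hA.congr
      filter_upwards [(isOpen_lt Complex.continuous_im continuous_const).mem_nhds hxt] with y hy
      exact (hlow i y hy).symm
  have hagree : ∀ i, ∀ x ∈ Sp t, g2 i x = f i x := by
    intro i x hx
    have hx' := hx
    rw [mem_Sp, abs_lt] at hx'
    simp only [hg2]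
    rw [if_pos hx'.1, hg1a i x hx]
  exact ⟨t + c * d, by linarith, by linarith, g2,
    Sol.of_ext ht (by linarith) hf han hagree, hagree⟩

/-- LT-7 -/
theorem str_stmt {B : Bg} (hFE : FEStmt B) (hCR : CRStmt B) : STRStmt B := by
  classical
  intro t f ht hth hf
  set A : Set ℝ := {t' | t ≤ t' ∧ t' ≤ B.h ∧ ∃ g : Fin 3 → ℂ → ℂ, Sol B t' g ∧
    ∀ i, ∀ x ∈ Sp t, g i x = f i x} with hA
  have htA : t ∈ A := ⟨le_rfl, hth, f, hf, fun _ _ _ => rfl⟩
  have hbdd : BddAbove A := ⟨B.h, fun _ h => h.2.1⟩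
  set T := sSup A with hT
  have htT : t ≤ T := le_csSup hbdd htA
  have hTh : T ≤ B.h := csSup_le ⟨t, htA⟩ fun _ h => h.2.1
  have hT0 : 0 < T := ht.trans_le htT
  -- choose the extensions
  have hch : ∀ t' : ℝ, ∃ g : Fin 3 → ℂ → ℂ, t' ∈ A →
      Sol B t' g ∧ ∀ i, ∀ x ∈ Sp t, g i x = f i x := by
    intro t'
    by_cases h : t' ∈ A
    · obtain ⟨g, hg⟩ := h.2.2
      exact ⟨g, fun _ => hg⟩
    · exact ⟨fun _ _ => 0, fun h' => absurd h' h⟩
  choose g hg using hch
  have hagree : ∀ t1 ∈ A, ∀ t2 ∈ A, t1 ≤ t2 → ∀ i, ∀ x ∈ Sp t1, g t1 i x = g t2 i x := by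
    intro t1 h1 t2 h2 h12 i
    apply eqOn_Sp ht h1.1 ((hg t1 h1).1.an i) (((hg t2 h2).1.an i).mono (Sp_mono h12))
    intro x hx
    rw [(hg t1 h1).2 i x hx, (hg t2 h2).2 i x hx]
  have hagree' : ∀ t1 ∈ A, ∀ t2 ∈ A, ∀ i, ∀ x ∈ Sp t1, x ∈ Sp t2 → g t1 i x = g t2 i x := by
    intro t1 h1 t2 h2 i x hx1 hx2
    rcases le_total t1 t2 with h | h
    · exact hagree t1 h1 t2 h2 h i x hx1
    · exact (hagree t2 h2 t1 h1 h i x hx2).symm
  have hTA : T ∈ A := by
    set F : Fin 3 → ℂ → ℂ := fun i x =>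
      if h : ∃ t' ∈ A, x ∈ Sp t' then g h.choose i x else 0 with hF
    have hFg : ∀ t' ∈ A, ∀ i, ∀ x ∈ Sp t', F i x = g t' i x := by
      intro t' ht' i x hx
      have h : ∃ t' ∈ A, x ∈ Sp t' := ⟨t', ht', hx⟩
      simp only [hF]
      rw [dif_pos h]
      exact hagree' _ h.choose_spec.1 _ ht' i x h.choose_spec.2 hx
    have hFan : ∀ i, AnalyticOnNhd ℂ (F i) (Sp T) := by
      intro i x hx
      rw [mem_Sp] at hx
      obtain ⟨t', ht', hlt⟩ := exists_lt_of_lt_csSup ⟨t, htA⟩ hx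
      have hx' : x ∈ Sp t' := hlt
      apply ((hg t' ht').1.an i x hx').congr
      filter_upwards [(isOpen_Sp t').mem_nhds hx'] with y hy
      exact (hFg t' ht' i y hy).symm
    have hFf : ∀ i, ∀ x ∈ Sp t, F i x = f i x := by
      intro i x hx
      rw [hFg t htA i x hx, (hg t htA).2 i x hx]
    exact ⟨htT, hTh, F, Sol.of_ext ht htT hf hFan hFf, hFf⟩
  rcases hTh.lt_or_eq with hlt | heq
  · exfalso
    obtain ⟨t', h1, h2, g', hg', hag⟩ := str_step hFE hCR hT0 hlt (hg T hTA).1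
    have : t' ∈ A := by
      refine ⟨htT.trans h1.le, h2, g', hg', ?_⟩
      intro i x hx
      rw [hag i x (Sp_mono htT hx), (hg T hTA).2 i x hx]
    have := le_csSup hbdd this
    linarith
  · refine ⟨g T, ?_, (hg T hTA).2⟩
    rw [← heq]
    exact (hg T hTA).1

end Pool.Agent.MP_ae5b4e_an_LOC
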