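import Mathlib
import Pool.Agent.Lib.MP_ae5b4e_an_LOC.STR

/-!
# LOC, LT-8: the closed strip
-/

set_option autoImplicit false

namespace Pool.Agent.MP_ae5b4e_an_LOC

open Set Metric Complex ComplexConjugate Filter Topology

/-- LT-8 -/
theorem line_stmt {B : Bg} (hFE : FEStmt B) (hCR : CRStmt B) : LineStmt B := by
  classical
  obtain ⟨c, hc0, hc1, hCR⟩ := hCR
  refine ⟨c, hc0, hc1, ?_⟩
  intro f hf
  have hh := B.h_pos
  have hK := lt_of_lt_of_le one_pos B.one_le_K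
  have hr := B.r_pos
  obtain ⟨G, c0, hG⟩ := hFE B.h f hh le_rfl hf
  -- the index type
  let J := {p : ℂ × ℝ // p.1.im = B.h ∧ 0 < p.2 ∧ p.2 ≤ B.rho ∧ Far B p.1 p.2}
  have hex : ∀ j : J, ∃ (Ge : ℂ → ℂ → ℂ) (fe : Fin 3 → ℂ → ℂ),
      AnalyticOnNhd ℂ (fun p : ℂ × ℂ => Ge p.1 p.2)
        (ball 0 (c * j.1.2) ×ˢ ball j.1.1 (c * j.1.2)) ∧
      (∀ i, AnalyticOnNhd ℂ (fe i) (ball j.1.1 (c * j.1.2))) ∧
      (∀ om ∈ ball (0 : ℂ) (c * j.1.2), ∀ φ ∈ ball j.1.1 (c * j.1.2), ‖om‖ < B.r / 4 →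
        |φ.im| < B.h - 2 * B.K * ‖om‖ → Ge om φ = G om φ) ∧
      (∀ i, ∀ x ∈ ball j.1.1 (c * j.1.2), |x.im| < B.h → fe i x = f i x) := by
    rintro ⟨⟨x0, d⟩, h1, h2, h3, h4⟩
    exact hCR B.h f G c0 hh le_rfl hf hG x0 d h1 h2 h3 (h3.trans B.rho_le_h) h4
  choose Ge fe h1 h2 h3 h4 using hex
  have hcd : ∀ j : J, c * j.1.2 ≤ B.h := by
    rintro ⟨⟨x0, d⟩, -, a2, a3, -⟩
    have := B.rho_le_h
    simp only at a2 a3 ⊢
    nlinarith
  have hcd0 : ∀ j : J, 0 < c * j.1.2 := fun j => mul_pos hc0 j.2.2.1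
  -- the functions `f`
  have hg1 : ∀ i, ∃ g : ℂ → ℂ, (∀ x ∈ Sp B.h, g x = f i x) ∧
      ∀ j : J, ∀ x ∈ ball j.1.1 (c * j.1.2), g x = fe j i x := by
    intro i
    apply glue (U := fun j : J => ball j.1.1 (c * j.1.2)) (f i) (fun j => fe j i) (isOpen_Sp B.h)
      (fun j => isOpen_ball) (fun j => h2 j i) (fun j x hx hx' => h4 j i x hx hx')
    intro j j' hne
    exact ⟨((convex_ball _ _).inter (convex_ball _ _)).isPreconnected,
      balls_meet j.2.1 j'.2.1 (hcd j) hne⟩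
  choose f' hf'a hf'b using hg1
  -- the function `G`
  set D : Set (ℂ × ℂ) := {p | ‖p.1‖ < B.r / 4 ∧ |p.2.im| < B.h - 2 * B.K * ‖p.1‖} with hD
  have hDo : IsOpen D := by
    apply IsOpen.inter
    · exact isOpen_lt continuous_fst.norm continuous_const
    · exact isOpen_lt (continuous_abs.comp (Complex.continuous_im.comp continuous_snd))
        (continuous_const.sub (continuous_const.mul continuous_fst.norm))
  obtain ⟨G2, hG2a, hG2b⟩ : ∃ g : ℂ × ℂ → ℂ, (∀ p ∈ D, g p = G p.1 p.2) ∧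
      ∀ j : J, ∀ p ∈ ball (0:ℂ) (c * j.1.2) ×ˢ ball j.1.1 (c * j.1.2), g p = Ge j p.1 p.2 := by
    apply glue (U := fun j : J => ball (0:ℂ) (c * j.1.2) ×ˢ ball j.1.1 (c * j.1.2))
      (fun p => G p.1 p.2) (fun j p => Ge j p.1 p.2) hDo
      (fun j => isOpen_ball.prod isOpen_ball) (fun j => h1 j)
    · rintro j ⟨om, φ⟩ ⟨hx1, hx2⟩ ⟨hx3, hx4⟩
      exact h3 j om hx1 φ hx2 hx3 hx4
    · intro j j' hne
      constructor
      · exact (((convex_ball _ _).prod (convex_ball _ _)).inter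
          ((convex_ball _ _).prod (convex_ball _ _))).isPreconnected
      · obtain ⟨⟨om, φ⟩, ⟨-, ha⟩, ⟨-, hb⟩⟩ := hne
        obtain ⟨x, ⟨hx1, hx2⟩, hx3⟩ := balls_meet j.2.1 j'.2.1 (hcd j) ⟨φ, ha, hb⟩
        refine ⟨(0, x), ⟨⟨mem_ball_self (hcd0 j), hx1⟩, ⟨mem_ball_self (hcd0 j'), hx2⟩⟩, ?_, ?_⟩
        · simp only [norm_zero]
          positivity
        · simp only [norm_zero, mul_zero, sub_zero]
          exact hx3
  have hGe : ∀ om φ : ℂ, ‖om‖ < B.r / 4 → |φ.im| < B.h - 2 * B.K * ‖om‖ →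
      G2 (om, φ) = G om φ := fun om φ a1 a2 => hG2a (om, φ) ⟨a1, a2⟩
  refine ⟨f', fun om φ => G2 (om, φ), c0, hf'a, ?_, ?_, ?_, ?_⟩
  · apply Sol.of_ext hh le_rfl hf _ hf'a
    intro i x hx
    apply (hf.an i x hx).congr
    filter_upwards [(isOpen_Sp B.h).mem_nhds hx] with y hy
    exact (hf'a i y hy).symm
  · refine ⟨?_, hG.c0_an, ?_, ?_, ?_⟩
    · intro om φ a1 a2
      apply (hG.an om φ a1 a2).congr
      filter_upwards [hDo.mem_nhds (show ((om, φ) : ℂ × ℂ) ∈ D from ⟨a1, a2⟩)] with p hp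
      exact (hG2a p hp).symm
    · intro om φ a1 a2
      rw [hGe om φ a1 a2, hGe (-om) φ (by rwa [norm_neg]) (by rwa [norm_neg]), hG.even om φ a1 a2]
    · intro om φ a1 a2
      rw [hGe om φ a1 a2, hGe om (φ + 1) a1 (by simpa using a2), hG.per om φ a1 a2]
    · intro om x a1 a2
      have hn : 0 ≤ B.K * ‖om‖ := by positivity
      have hKn : ‖om‖ ≤ B.K * ‖om‖ := le_mul_of_one_le_left (norm_nonneg _) B.one_le_K
      have hph := B.ph_close om x (by linarith) (by linarith)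
      have him : |(B.ph om x).im| ≤ |x.im| + B.K * ‖om‖ := by
        have e1 := (abs_im_le_norm (B.ph om x - x)).trans hph
        rw [sub_im] at e1
        have e2 := abs_add_le ((B.ph om x).im - x.im) x.im
        rw [sub_add_cancel] at e2
        linarith
      have hom2 : |(om / 2).im| ≤ ‖om‖ / 2 := by
        have e1 := abs_im_le_norm (om / 2)
        rw [norm_div] at e1
        have : ‖(2:ℂ)‖ = 2 := by simp
        rwa [this] at e1
      have hx4 : |x.im| < B.h - 4 * (B.K * ‖om‖) := by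
        have : 4 * B.K * ‖om‖ = 4 * (B.K * ‖om‖) := by ring
        linarith
      have hgoal : B.h - 2 * B.K * ‖om‖ = B.h - 2 * (B.K * ‖om‖) := by ring
      have e3 : |(B.ph om x - om / 2).im| < B.h - 2 * B.K * ‖om‖ := by
        rw [sub_im, hgoal]
        have := abs_sub (B.ph om x).im (om / 2).im
        linarith
      have e4 : |(B.ph om x + om / 2).im| < B.h - 2 * B.K * ‖om‖ := by
        rw [add_im, hgoal]
        have := abs_add_le (B.ph om x).im (om / 2).im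
        linarith
      have hxS : x ∈ Sp B.h := by
        rw [mem_Sp]
        linarith
      rw [hGe om _ a1 e3, hGe om _ a1 e4, hG.fe om x a1 a2]
      simp only [Bg.F, hf'a _ x hxS]
  · intro x0 d a1 a2 a3 a4 i x hx
    let j : J := ⟨(x0, d), a1, a2, a3, a4⟩
    apply (h2 j i x hx).congr
    filter_upwards [isOpen_ball.mem_nhds hx] with y hy
    exact (hf'b i j y hy).symm
  · intro x0 d a1 a2 a3 a4 p hp
    let j : J := ⟨(x0, d), a1, a2, a3, a4⟩
    apply (h1 j p hp).congr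
    filter_upwards [(isOpen_ball.prod isOpen_ball).mem_nhds hp] with q hq
    exact (hG2b j q hq).symm

end Pool.Agent.MP_ae5b4e_an_LOC
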