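import Pool.Agent.Lib.MP_ae5b4e_an_LOC.L6
import Pool.Agent.Lib.MP_ae5b4e_an_LOC.LTS

/-!
# LOC, linear theory: the order of the poles at a base point (POR_LOC_MASTER, LT-15, LT-17)

`loc1_stmt`, `loc2_stmt`.
-/

set_option autoImplicit false

namespace Pool.Agent.MP_ae5b4e_an_LOC

open Set Metric Complex ComplexConjugate Filter Topology

/-- `q ^ k f q` extends to the analytic function `U` -/
def Ext (k : ℕ) (f U : ℂ → ℂ) : Prop :=
  AnalyticAt ℂ U 0 ∧ ∀ᶠ q in 𝓝[≠] (0 : ℂ), q ^ k * f q = U q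

theorem Ext.tendsto {k : ℕ} {f U : ℂ → ℂ} (h : Ext k f U) :
    Tendsto (fun q => q ^ k * f q) (𝓝[≠] 0) (𝓝 (U 0)) := by
  have h1 : Tendsto U (𝓝[≠] 0) (𝓝 (U 0)) := h.1.continuousAt.tendsto.mono_left nhdsWithin_le_nhds
  exact h1.congr' (h.2.mono fun q hq => hq.symm)

theorem Ext.down {k : ℕ} {f U : ℂ → ℂ} (h : Ext (k + 1) f U) (h0 : U 0 = 0) :
    ∃ U', Ext k f U' := by
  obtain ⟨p, hp⟩ := h.1
  refine ⟨dslope U 0, hp.has_fpower_series_dslope_fslope.analyticAt, ?_⟩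
  filter_upwards [h.2, self_mem_nhdsWithin] with q hq hq0
  have hq0' : q ≠ 0 := hq0
  rw [dslope_of_ne _ hq0', slope_def_field, h0, sub_zero, sub_zero, ← hq, pow_succ]
  field_simp

theorem Ext.up {k : ℕ} {f U : ℂ → ℂ} (h : Ext k f U) : Ext (k + 1) f (fun q => q * U q) := by
  refine ⟨analyticAt_id.mul h.1, ?_⟩
  filter_upwards [h.2] with q hq
  rw [← hq, pow_succ]; ring

theorem Ext.up' {k : ℕ} {f : ℂ → ℂ} (h : ∃ U, Ext k f U) (n : ℕ) : ∃ U, Ext (k + n) f U := by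
  induction n with
  | zero => exact h
  | succ n ih =>
    obtain ⟨U, hU⟩ := ih
    exact ⟨_, hU.up⟩

theorem ext_of_growth {f : ℂ → ℂ} {rq C r' : ℝ} {A : ℕ} (hrq : 0 < rq)
    (han : ∀ q : ℂ, q ≠ 0 → ‖q‖ < rq → AnalyticAt ℂ f q) (hr' : 0 < r')
    (hb : ∀ q : ℂ, q ≠ 0 → ‖q‖ < r' → ‖q ^ A * f q‖ ≤ C) : ∃ U, Ext A f U := by
  set r : ℝ := min rq r' with hr
  have hrp : 0 < r := lt_min hrq hr'
  have hs : ball (0:ℂ) r ∈ 𝓝 (0:ℂ) := ball_mem_nhds _ hrp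
  have hd : DifferentiableOn ℂ (fun q => q ^ A * f q) (ball (0:ℂ) r \ {0}) := by
    intro q hq
    have hq1 : ‖q‖ < r := by simpa using hq.1
    have hq2 : q ≠ 0 := by simpa using hq.2
    exact ((differentiableAt_id.pow A).mul
      (han q hq2 (lt_of_lt_of_le hq1 (min_le_left _ _))).differentiableAt).differentiableWithinAt
  have hbd : BddAbove (norm ∘ (fun q => q ^ A * f q) '' (ball (0:ℂ) r \ {0})) := by
    refine ⟨C, ?_⟩
    rintro _ ⟨q, hq, rfl⟩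
    have hq1 : ‖q‖ < r := by simpa using hq.1
    have hq2 : q ≠ 0 := by simpa using hq.2
    exact hb q hq2 (lt_of_lt_of_le hq1 (min_le_right _ _))
  have h := Complex.differentiableOn_update_limUnder_of_bddAbove hs hd hbd
  refine ⟨_, h.analyticAt hs, ?_⟩
  filter_upwards [self_mem_nhdsWithin] with q hq
  have hq0 : q ≠ 0 := hq
  rw [Function.update_of_ne hq0]

/-! ### The local coordinate at `om = 0` -/

theorem s0_bounds (B : Bg) : ∃ e : ℝ, 0 < e ∧ e ≤ B.rho ∧ ∀ y : ℂ, ‖y‖ < e →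
    B.kap / 2 * ‖y‖ ≤ ‖B.s 0 y‖ ∧ ‖B.s 0 y‖ ≤ 2 * B.kap * ‖y‖ ∧
      ‖B.s 0 y - B.kap * y‖ ≤ B.K * ‖y‖ ^ 3 := by
  have hK : 0 < B.K := lt_of_lt_of_le one_pos B.one_le_K
  have hk := B.kap_pos
  have hrho := B.rho_pos
  refine ⟨min B.rho (min 1 (B.kap / (2 * B.K))), by positivity, min_le_left _ _, ?_⟩
  intro y hy
  have h1 : ‖y‖ < B.rho := lt_of_lt_of_le hy (min_le_left _ _)
  have h2 : ‖y‖ ≤ 1 := (lt_of_lt_of_le hy ((min_le_right _ _).trans (min_le_left _ _))).le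
  have h3 : ‖y‖ ≤ B.kap / (2 * B.K) :=
    (lt_of_lt_of_le hy ((min_le_right _ _).trans (min_le_right _ _))).le
  have hs := B.s_close 0 (by simpa using B.r_pos) y (by simpa using h1)
  rw [norm_zero, zero_add] at hs
  have hs' : ‖B.s 0 y - B.kap * y‖ ≤ B.K * ‖y‖ ^ 3 := hs.trans (le_of_eq (by ring))
  have hy0 := norm_nonneg y
  have hKy : B.K * ‖y‖ ^ 3 ≤ B.kap / 2 * ‖y‖ := by
    have h4 : B.K * ‖y‖ ≤ B.kap / 2 := by
      rw [le_div_iff₀ (by positivity)] at h3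
      linarith
    have h5 : ‖y‖ ^ 2 ≤ ‖y‖ := by nlinarith
    calc B.K * ‖y‖ ^ 3 = B.K * ‖y‖ * ‖y‖ ^ 2 := by ring
      _ ≤ B.kap / 2 * ‖y‖ := by gcongr
  have hkn : ‖(B.kap : ℂ) * y‖ = B.kap * ‖y‖ := by
    rw [norm_mul, Complex.norm_real, Real.norm_eq_abs, abs_of_pos hk]
  refine ⟨?_, ?_, hs'⟩
  · have h6 := norm_sub_norm_le ((B.kap : ℂ) * y) (B.s 0 y)
    rw [norm_sub_rev, hkn] at h6
    linarith
  · have h6 := norm_sub_norm_le (B.s 0 y) ((B.kap : ℂ) * y)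
    rw [hkn] at h6
    have h7 := mul_nonneg hk.le hy0
    linarith

/-- the value of `q` on the vertical line below the base point -/
noncomputable def qt (B : Bg) (τ : ℝ) : ℂ := -B.s 0 (-(I * τ)) ^ 2

theorem qt_ratio (B : Bg) :
    Tendsto (fun τ : ℝ => qt B τ / (τ : ℂ) ^ 2) (𝓝[>] 0) (𝓝 ((B.kap : ℂ) ^ 2)) := by
  obtain ⟨e, he, -, hs⟩ := s0_bounds B
  have h1 : Tendsto (fun τ : ℝ => B.s 0 (-(I * τ)) / (-(I * τ))) (𝓝[>] 0) (𝓝 (B.kap : ℂ)) := by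
    rw [tendsto_iff_norm_sub_tendsto_zero]
    have hb : Tendsto (fun τ : ℝ => B.K * τ ^ 2) (𝓝[>] 0) (𝓝 0) := by
      have : Tendsto (fun τ : ℝ => B.K * τ ^ 2) (𝓝 0) (𝓝 (B.K * 0 ^ 2)) :=
        (continuous_const.mul (continuous_id.pow 2)).tendsto 0
      rw [zero_pow two_ne_zero, mul_zero] at this
      exact this.mono_left nhdsWithin_le_nhds
    refine tendsto_of_tendsto_of_tendsto_of_le_of_le' tendsto_const_nhds hb
      (Eventually.of_forall fun _ => norm_nonneg _) ?_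
    filter_upwards [Ioo_mem_nhdsGT he] with τ hτ
    have hτ0 : 0 < τ := hτ.1
    have hn : ‖-(I * (τ : ℂ))‖ = τ := by
      rw [norm_neg, norm_mul, Complex.norm_I, one_mul, Complex.norm_real, Real.norm_eq_abs,
        abs_of_pos hτ0]
    have hne : -(I * (τ : ℂ)) ≠ 0 := by
      rw [← norm_pos_iff, hn]; exact hτ0
    have h2 := (hs (-(I * τ)) (by rw [hn]; exact hτ.2)).2.2
    have h3 : B.s 0 (-(I * τ)) / (-(I * τ)) - B.kap =
        (B.s 0 (-(I * τ)) - B.kap * (-(I * τ))) / (-(I * τ)) := by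
      rw [sub_div, mul_div_cancel_right₀ _ hne]
    rw [h3, norm_div, hn, div_le_iff₀ hτ0]
    rw [hn] at h2
    calc _ ≤ B.K * τ ^ 3 := h2
      _ = B.K * τ ^ 2 * τ := by ring
  have h2 := h1.pow 2
  refine h2.congr' ?_
  filter_upwards [self_mem_nhdsWithin] with τ hτ
  have hτ0 : (τ : ℂ) ≠ 0 := by exact_mod_cast (ne_of_gt hτ)
  have hI : I ^ 2 = -1 := Complex.I_sq
  rw [qt, div_pow]
  have : (-(I * (τ : ℂ))) ^ 2 = -(τ : ℂ) ^ 2 := by
    rw [neg_sq, mul_pow, hI]; ring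
  rw [this, div_neg, neg_div]

theorem qt_tendsto (B : Bg) : Tendsto (qt B) (𝓝[>] 0) (𝓝[≠] 0) := by
  have hkap : (B.kap : ℂ) ≠ 0 := by exact_mod_cast B.kap_pos.ne'
  have h := qt_ratio B
  have tmu : Tendsto (fun mu : ℝ => (mu : ℂ)) (𝓝[>] 0) (𝓝 0) := by
    have : Tendsto (fun mu : ℝ => (mu : ℂ)) (𝓝 0) (𝓝 ((0 : ℝ) : ℂ)) :=
      Complex.continuous_ofReal.tendsto 0
    rw [Complex.ofReal_zero] at this
    exact this.mono_left nhdsWithin_le_nhds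
  rw [tendsto_nhdsWithin_iff]
  constructor
  · have := h.mul (tmu.pow 2)
    rw [zero_pow two_ne_zero, mul_zero] at this
    refine this.congr' ?_
    filter_upwards [self_mem_nhdsWithin] with τ hτ
    have hτ0 : (τ : ℂ) ≠ 0 := by exact_mod_cast (ne_of_gt hτ)
    field_simp
  · filter_upwards [h.eventually_ne (pow_ne_zero 2 hkap)] with τ hτ
    intro h'
    apply hτ
    have h'' : qt B τ = 0 := h'
    rw [h'', zero_div]

/-- limits along the vertical line -/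
theorem lim_qt (B : Bg) {k : ℕ} {f : ℂ → ℂ} {l : ℂ}
    (h : Tendsto (fun q => q ^ k * f q) (𝓝[≠] 0) (𝓝 l)) :
    Tendsto (fun τ : ℝ => (τ : ℂ) ^ (2 * k) * f (qt B τ)) (𝓝[>] 0)
      (𝓝 (l / (B.kap : ℂ) ^ (2 * k))) := by
  have hkap : (B.kap : ℂ) ≠ 0 := by exact_mod_cast B.kap_pos.ne'
  have h1 := (h.comp (qt_tendsto B)).div ((qt_ratio B).pow k) (pow_ne_zero _ (pow_ne_zero 2 hkap))
  rw [← pow_mul] at h1
  refine h1.congr' ?_
  filter_upwards [self_mem_nhdsWithin, (qt_ratio B).eventually_ne (pow_ne_zero 2 hkap)]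
    with τ hτ hr
  have hτ0 : (τ : ℂ) ≠ 0 := by exact_mod_cast (ne_of_gt hτ)
  have hq0 : qt B τ ≠ 0 := by
    intro h'; rw [h', zero_div] at hr; exact hr rfl
  simp only [Pi.div_apply, Function.comp, div_pow, pow_mul]
  field_simp

/-- the converse: a limit along the vertical line gives the value of the extension -/
theorem ext_value (B : Bg) {k : ℕ} {f U : ℂ → ℂ} {l : ℂ} (hU : Ext k f U)
    (h : Tendsto (fun τ : ℝ => (τ : ℂ) ^ (2 * k) * f (qt B τ)) (𝓝[>] 0) (𝓝 l)) :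
    U 0 = l * (B.kap : ℂ) ^ (2 * k) := by
  have hkap : (B.kap : ℂ) ≠ 0 := by exact_mod_cast B.kap_pos.ne'
  have h1 := tendsto_nhds_unique (lim_qt B hU.tendsto) h
  rw [div_eq_iff (pow_ne_zero _ hkap)] at h1
  exact h1

/-! ### The descent -/

section descent

variable {B : Bg} {u : Fin 3 → ℂ → ℂ} {w' : ℝ}

/-- the relation, in the form used by `l6` -/
def RRF (B : Bg) (u : Fin 3 → ℂ → ℂ) (w' : ℝ) : Prop :=
  ∀ (om z : ℂ) (d1 : ℝ), om ≠ 0 → ‖om‖ < w' → z ≠ 0 → ‖z‖ < d1 → d1 < ‖om‖ →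
      B.F u om (B.N om (z - om / 2)) + B.F u om (B.N om (z + om / 2)) = (2 * Real.pi * I)⁻¹ *
        ∮ ζ in C(0, d1), (B.F u om (B.N om (ζ - om / 2)) + B.F u om (B.N om (ζ + om / 2))) /
          (ζ - z)

theorem coef_ne (B : Bg) : (B.Lam 0 * B.kap ^ 2 : ℂ) ≠ 0 ∧ (B.Lam 0 ^ 2 * B.kap ^ 4 : ℂ) ≠ 0 := by
  have hkap : (B.kap : ℂ) ≠ 0 := by exact_mod_cast B.kap_pos.ne'
  have hL : B.Lam 0 ≠ 0 := B.Lam_ne 0 (by simpa using B.r_pos)
  exact ⟨mul_ne_zero hL (pow_ne_zero _ hkap), mul_ne_zero (pow_ne_zero _ hL) (pow_ne_zero _ hkap)⟩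

/-- one step down, `w ≥ 4`, `al = 0` -/
theorem step_down (hw' : 0 < w') (hRR : RRF B u w') {w : ℕ} (hw : 3 ≤ w)
    (h0 : ∃ U, Ext (w + 1) (u 0) U) (h1 : ∃ U, Ext w (u 1) U)
    (h2 : Tendsto (fun q => q ^ (w - 1) * u 2 q) (𝓝[≠] 0) (𝓝 0)) :
    (∃ U, Ext w (u 0) U) ∧ (∃ U, Ext (w - 1) (u 1) U) := by
  obtain ⟨U0, hU0⟩ := h0
  obtain ⟨U1, hU1⟩ := h1
  obtain ⟨v, rfl⟩ : ∃ v, w = v + 1 := ⟨w - 1, by omega⟩
  have h2' : Tendsto (fun q => q ^ v * u 2 q) (𝓝[≠] 0) (𝓝 0) := by simpa using h2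
  have h := l6 (v := v) hw' hRR hU0.tendsto hU1.tendsto h2'
  rw [mul_zero] at h
  obtain ⟨e1, e2⟩ := l6c_vanish (w := v + 2) (by omega) h
  have e3 : U1 0 = 0 := by
    rw [neg_eq_zero, mul_eq_zero] at e2
    exact e2.resolve_left (coef_ne B).1
  exact ⟨hU0.down e1, by simpa using hU1.down e3⟩

/-- LOC1 in terms of `u`, first part -/
theorem desc_three (hw' : 0 < w') (hRR : RRF B u w') (h2 : ∀ᶠ q in 𝓝[≠] (0:ℂ), u 2 q = 0) (n : ℕ)
    (h0 : ∃ U, Ext (n + 3) (u 0) U) (h1 : ∃ U, Ext (n + 2) (u 1) U) :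
    (∃ U, Ext 3 (u 0) U) ∧ (∃ U, Ext 2 (u 1) U) := by
  induction n with
  | zero => exact ⟨h0, h1⟩
  | succ n ih =>
    have hz : ∀ k : ℕ, Tendsto (fun q => q ^ k * u 2 q) (𝓝[≠] 0) (𝓝 0) := by
      intro k
      refine tendsto_const_nhds.congr' ?_
      filter_upwards [h2] with q hq
      rw [hq, mul_zero]
    obtain ⟨a, b⟩ := step_down (w := n + 3) hw' hRR (by omega) h0 h1 (hz _)
    exact ih a b

theorem desc_two (hw' : 0 < w') (hRR : RRF B u w') (h2 : ∀ᶠ q in 𝓝[≠] (0:ℂ), u 2 q = 0)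
    {U0 U1 : ℂ → ℂ} (h0 : Ext 3 (u 0) U0) (h1 : Ext 2 (u 1) U1) :
    U0 0 = 0 → (∃ U, Ext 1 (u 0) U) ∧ (∃ U, Ext 1 (u 1) U) := by
  intro hb
  have hz : ∀ k : ℕ, Tendsto (fun q => q ^ k * u 2 q) (𝓝[≠] 0) (𝓝 0) := by
    intro k
    refine tendsto_const_nhds.congr' ?_
    filter_upwards [h2] with q hq
    rw [hq, mul_zero]
  have h := l6 (v := 1) hw' hRR h0.tendsto h1.tendsto (hz 1)
  rw [mul_zero] at h
  have e := l6c_three h
  rw [hb, mul_zero, neg_eq_zero, mul_eq_zero] at e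
  have e1 : U1 0 = 0 := e.resolve_left (coef_ne B).1
  obtain ⟨V0, hV0⟩ := h0.down hb
  obtain ⟨V1, hV1⟩ := h1.down e1
  have h' := l6 (v := 0) hw' hRR hV0.tendsto hV1.tendsto (hz 0)
  have e2 := l6c_two h'
  exact ⟨hV0.down e2, V1, hV1⟩

/-- LOC2 in terms of `u` -/
theorem desc_six (hw' : 0 < w') (hRR : RRF B u w') {U2 : ℂ → ℂ} (h2 : Ext 4 (u 2) U2) (n : ℕ)
    (h0 : ∃ U, Ext (n + 6) (u 0) U) (h1 : ∃ U, Ext (n + 5) (u 1) U) : U2 0 = 0 := by
  induction n with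
  | zero =>
    obtain ⟨U0, hU0⟩ := h0
    obtain ⟨U1, hU1⟩ := h1
    have h := l6 (v := 4) hw' hRR hU0.tendsto hU1.tendsto h2.tendsto
    obtain ⟨-, -, e⟩ := l6c_six h
    rw [mul_eq_zero] at e
    exact e.resolve_left (coef_ne B).2
  | succ n ih =>
    have hz : Tendsto (fun q => q ^ (n + 6 - 1) * u 2 q) (𝓝[≠] 0) (𝓝 0) := by
      have t1 : Tendsto (fun q : ℂ => q ^ (n + 1)) (𝓝[≠] 0) (𝓝 0) := by
        have : Tendsto (fun q : ℂ => q ^ (n + 1)) (𝓝 0) (𝓝 (0 ^ (n + 1))) :=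
          (continuous_pow (n + 1)).tendsto 0
        rw [zero_pow (Nat.succ_ne_zero n)] at this
        exact this.mono_left nhdsWithin_le_nhds
      have t2 := t1.mul h2.tendsto
      rw [zero_mul] at t2
      refine t2.congr' (Eventually.of_forall fun q => ?_)
      show q ^ (n + 1) * (q ^ 4 * u 2 q) = q ^ (n + 6 - 1) * u 2 q
      rw [← mul_assoc, ← pow_add]
      congr 2
    obtain ⟨a, b⟩ := step_down (w := n + 6) hw' hRR (by omega) h0 h1 hz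
    exact ih a b

end descent

/-! ### The statements for `f` -/

theorem RRF.of_stmt {B : Bg} (hR : RRStmt B) {f u : Fin 3 → ℂ → ℂ} {n : ℤ} {rq ry w : ℝ}
    (hu : UD B n f u rq ry w) : ∃ w' > 0, RRF B u w' := by
  obtain ⟨w', hw', -, h⟩ := hR f u n rq ry w hu
  exact ⟨w', hw', fun om z d1 h1 h2 h3 h4 h5 => h om z d1 h1 h2 h3 h4 h5⟩

/-- all the functions `u i` have a common extension order -/
theorem ext_all {B : Bg} (hP : PGStmt B) {f u : Fin 3 → ℂ → ℂ} {n : ℤ} {rq ry w : ℝ}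
    (hu : UD B n f u rq ry w) : ∃ A : ℕ, ∀ i, ∃ U, Ext A (u i) U := by
  obtain ⟨A, C, r', hr', h⟩ := hP f u n rq ry w hu
  exact ⟨A, fun i => ext_of_growth hu.rq_pos (hu.an i) hr' (h i)⟩

/-- values of `f` on the vertical line -/
theorem f_qt {B : Bg} {f u : Fin 3 → ℂ → ℂ} {n : ℤ} {rq ry w : ℝ}
    (hu : UD B n f u rq ry w) (i : Fin 3) :
    ∀ᶠ τ : ℝ in 𝓝[>] 0, f i (B.b n - I * τ) = u i (qt B τ) := by
  filter_upwards [Ioo_mem_nhdsGT hu.ry_pos] with τ hτ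
  have hτ0 : 0 < τ := hτ.1
  have hn : ‖-(I * (τ : ℂ))‖ = τ := by
    rw [norm_neg, norm_mul, Complex.norm_I, one_mul, Complex.norm_real, Real.norm_eq_abs,
      abs_of_pos hτ0]
  have h := hu.link i (-(I * τ)) (by rw [hn]; exact hτ.2) (by simp [hτ0])
  rw [← sub_eq_add_neg] at h
  exact h

theorem lim_f {B : Bg} {f u : Fin 3 → ℂ → ℂ} {n : ℤ} {rq ry w : ℝ}
    (hu : UD B n f u rq ry w) (i : Fin 3) {k : ℕ} {U : ℂ → ℂ} (h : Ext k (u i) U) :
    Tendsto (fun τ : ℝ => (τ : ℂ) ^ (2 * k) * f i (B.b n - I * τ)) (𝓝[>] 0)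
      (𝓝 (U 0 / (B.kap : ℂ) ^ (2 * k))) := by
  refine (lim_qt B h.tendsto).congr' ?_
  filter_upwards [f_qt hu i] with τ hτ
  rw [hτ]

/-- if `f i` vanishes in the strip then `u i` vanishes -/
theorem u_zero {B : Bg} {f u : Fin 3 → ℂ → ℂ} {n : ℤ} {rq ry w : ℝ}
    (hu : UD B n f u rq ry w) (i : Fin 3) {A : ℕ} (hA : ∃ U, Ext A (u i) U)
    (hf : ∀ x ∈ Sp B.h, f i x = 0) : ∀ᶠ q in 𝓝[≠] (0:ℂ), u i q = 0 := by
  obtain ⟨U, hU⟩ := hA
  have h1 : ∀ᶠ τ : ℝ in 𝓝[>] 0, U (qt B τ) = 0 := by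
    have h2 := (qt_tendsto B).eventually hU.2
    filter_upwards [h2, f_qt hu i, Ioo_mem_nhdsGT B.h_pos] with τ a b c
    have hx : B.b n - I * τ ∈ Sp B.h := by
      have hτ0 : 0 < τ := c.1
      have hτh : τ < B.h := c.2
      rw [mem_Sp]
      have : (B.b n - I * τ).im = B.h - τ := by
        simp only [Bg.b, Complex.sub_im, Complex.add_im, Complex.mul_im, Complex.I_re,
          Complex.I_im, Complex.ofReal_im, Complex.ofReal_re]
        have : ((n : ℂ) / 2).im = 0 := by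
          have : ((n : ℂ) / 2) = (((n : ℝ) / 2 : ℝ) : ℂ) := by push_cast; ring
          rw [this, Complex.ofReal_im]
        rw [this]; ring
      rw [this, abs_of_pos (by linarith)]
      linarith
    rw [← a, ← b, hf _ hx, mul_zero]
  have h2 : ∃ᶠ q in 𝓝[≠] (0:ℂ), U q = 0 := (qt_tendsto B).frequently h1.frequently
  have h3 := hU.1.frequently_zero_iff_eventually_zero.1 h2
  filter_upwards [hU.2, h3.filter_mono nhdsWithin_le_nhds, self_mem_nhdsWithin] with q a b c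
  rw [b] at a
  have hq : q ^ A ≠ 0 := pow_ne_zero _ c
  exact (mul_eq_zero.1 a).resolve_left hq

theorem norm_b_lt {B : Bg} {n : ℤ} {x : ℂ} (hx : x ∈ Sp B.h) : (x - B.b n).im < 0 := by
  have h1 : (B.b n).im = B.h := by
    simp only [Bg.b, Complex.add_im, Complex.mul_im, Complex.I_re,
      Complex.I_im, Complex.ofReal_im, Complex.ofReal_re]
    have : ((n : ℂ) / 2).im = 0 := by
      have : ((n : ℂ) / 2) = (((n : ℝ) / 2 : ℝ) : ℂ) := by push_cast; ring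
      rw [this, Complex.ofReal_im]
    rw [this]; ring
  rw [Complex.sub_im, h1]
  rw [mem_Sp] at hx
  have := (abs_lt.1 hx).2
  linarith

/-- LT-17, LOC1 -/
theorem loc1_stmt (B : Bg) (hUS : UStmt B) (hR : RRStmt B) (hP : PGStmt B) : Loc1Stmt B := by
  intro f n hf hf2
  obtain ⟨u, rq, ry, w, hu⟩ := hUS f n hf
  obtain ⟨w', hw', hRR⟩ := RRF.of_stmt hR hu
  obtain ⟨A, hA⟩ := ext_all hP hu
  have hkap : (B.kap : ℂ) ≠ 0 := by exact_mod_cast B.kap_pos.ne'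
  have hkn : ∀ k : ℕ, (B.kap : ℂ) ^ k ≠ 0 := fun k => pow_ne_zero _ hkap
  have h2 := u_zero hu 2 (hA 2) hf2
  have a0 : ∃ U, Ext (A + 3) (u 0) U := Ext.up' (hA 0) 3
  have a1 : ∃ U, Ext (A + 2) (u 1) U := Ext.up' (hA 1) 2
  obtain ⟨⟨U0, hU0⟩, U1, hU1⟩ := desc_three hw' hRR h2 A a0 a1
  refine ⟨U0 0 / (B.kap : ℂ) ^ (2 * 3), lim_f hu 0 hU0, ?_, ?_⟩
  · -- boundedness
    obtain ⟨e0, he0, he0r, hs⟩ := s0_bounds B
    have hb : ∀ᶠ q in 𝓝[≠] (0:ℂ), ‖q ^ 2 * u 1 q‖ ≤ ‖U1 0‖ + 1 :=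
      hU1.tendsto.norm.eventually_le_const (show ‖U1 0‖ < ‖U1 0‖ + 1 by linarith)
    rw [eventually_nhdsWithin_iff, Metric.eventually_nhds_iff] at hb
    obtain ⟨δ, hδ, hb⟩ := hb
    have hk := B.kap_pos
    -- radius
    refine ⟨(2 / B.kap) ^ 4 * (‖U1 0‖ + 1), min (min e0 ry) (min 1 (δ / (8 * B.kap ^ 2))),
      lt_min (lt_min he0 hu.ry_pos) (lt_min one_pos (by positivity)), ?_⟩
    intro y hy0 hy him
    have y1 : ‖y‖ < e0 := lt_of_lt_of_le hy ((min_le_left _ _).trans (min_le_left _ _))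
    have y2 : ‖y‖ < ry := lt_of_lt_of_le hy ((min_le_left _ _).trans (min_le_right _ _))
    have y3 : ‖y‖ < 1 := lt_of_lt_of_le hy ((min_le_right _ _).trans (min_le_left _ _))
    have y4 : ‖y‖ < δ / (8 * B.kap ^ 2) :=
      lt_of_lt_of_le hy ((min_le_right _ _).trans (min_le_right _ _))
    obtain ⟨s1, s2, -⟩ := hs y y1
    rw [hu.link 1 y y2 him]
    set q : ℂ := -B.s 0 y ^ 2 with hq
    have hqn : ‖q‖ = ‖B.s 0 y‖ ^ 2 := by rw [hq, norm_neg, norm_pow]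
    have hs0 : 0 < ‖B.s 0 y‖ := lt_of_lt_of_le (by positivity) s1
    have hq0 : q ≠ 0 := by rw [← norm_pos_iff, hqn]; positivity
    have hqδ : dist q 0 < δ := by
      rw [dist_zero_right, hqn]
      calc ‖B.s 0 y‖ ^ 2 ≤ (2 * B.kap * ‖y‖) ^ 2 := by gcongr
        _ = 4 * B.kap ^ 2 * (‖y‖ * ‖y‖) := by ring
        _ ≤ 4 * B.kap ^ 2 * (‖y‖ * 1) := by gcongr
        _ ≤ 8 * B.kap ^ 2 * ‖y‖ := by nlinarith [mul_pos (pow_pos hk 2) hy0]
        _ < δ := by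
          rw [lt_div_iff₀ (by positivity)] at y4
          linarith
    have hbq := hb hqδ hq0
    rw [norm_mul, norm_pow] at hbq ⊢
    have h5 : ‖y‖ ^ 4 ≤ (2 / B.kap) ^ 4 * ‖q‖ ^ 2 := by
      have h6 : ‖y‖ ≤ 2 / B.kap * ‖B.s 0 y‖ := by
        rw [div_mul_eq_mul_div, le_div_iff₀ hk]
        linarith
      calc ‖y‖ ^ 4 ≤ (2 / B.kap * ‖B.s 0 y‖) ^ 4 := by gcongr
        _ = (2 / B.kap) ^ 4 * ‖q‖ ^ 2 := by rw [hqn]; ring
    calc ‖y‖ ^ 4 * ‖u 1 q‖ ≤ (2 / B.kap) ^ 4 * ‖q‖ ^ 2 * ‖u 1 q‖ := by gcongr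
      _ = (2 / B.kap) ^ 4 * (‖q‖ ^ 2 * ‖u 1 q‖) := by ring
      _ ≤ (2 / B.kap) ^ 4 * (‖U1 0‖ + 1) := by gcongr
  · intro hbe
    have hU00 : U0 0 = 0 := by
      rw [div_eq_zero_iff] at hbe
      exact hbe.resolve_right (hkn _)
    obtain ⟨⟨V0, hV0⟩, V1, hV1⟩ := desc_two hw' hRR h2 hU0 hU1 hU00
    refine ⟨V0 0 / (B.kap : ℂ) ^ (2 * 1), V1 0 / (B.kap : ℂ) ^ (2 * 1), lim_f hu 0 hV0,
      lim_f hu 1 hV1, ?_⟩
    intro hb0 hb1
    have hV00 : V0 0 = 0 := by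
      rw [div_eq_zero_iff] at hb0
      exact hb0.resolve_right (hkn _)
    have hV10 : V1 0 = 0 := by
      rw [div_eq_zero_iff] at hb1
      exact hb1.resolve_right (hkn _)
    -- each u i extends
    have key : ∀ i : Fin 3, (∃ W, Ext 0 (u i) W) → ∃ e > 0, ∃ g : ℂ → ℂ,
        AnalyticOnNhd ℂ g (ball (B.b n) e) ∧
        (∀ y : ℂ, ‖y‖ < e → g (B.b n + y) = g (B.b n - y)) ∧
        ∀ x ∈ ball (B.b n) e, x ∈ Sp B.h → g x = f i x := by
      rintro i ⟨W, hW1, hW2⟩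
      obtain ⟨e0, he0, he0r, hs⟩ := s0_bounds B
      have hk := B.kap_pos
      have hWan : ∀ᶠ q in 𝓝 (0:ℂ), AnalyticAt ℂ W q := hW1.eventually_analyticAt
      rw [eventually_nhdsWithin_iff] at hW2
      have hboth := hWan.and hW2
      rw [Metric.eventually_nhds_iff] at hboth
      obtain ⟨δ, hδ, hboth⟩ := hboth
      set e : ℝ := min (min e0 ry) (min 1 (δ / (8 * B.kap ^ 2))) with he
      have hep : 0 < e := lt_min (lt_min he0 hu.ry_pos) (lt_min one_pos (by positivity))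
      have small : ∀ y : ℂ, ‖y‖ < e → ‖y‖ < e0 ∧ ‖y‖ < ry ∧ dist (-B.s 0 y ^ 2) 0 < δ := by
        intro y hy
        have y1 : ‖y‖ < e0 := lt_of_lt_of_le hy ((min_le_left _ _).trans (min_le_left _ _))
        have y2 : ‖y‖ < ry := lt_of_lt_of_le hy ((min_le_left _ _).trans (min_le_right _ _))
        have y3 : ‖y‖ < 1 := lt_of_lt_of_le hy ((min_le_right _ _).trans (min_le_left _ _))
        have y4 : ‖y‖ < δ / (8 * B.kap ^ 2) :=
          lt_of_lt_of_le hy ((min_le_right _ _).trans (min_le_right _ _))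
        obtain ⟨s1, s2, -⟩ := hs y y1
        refine ⟨y1, y2, ?_⟩
        rw [dist_zero_right, norm_neg, norm_pow]
        have hy0 := norm_nonneg y
        calc ‖B.s 0 y‖ ^ 2 ≤ (2 * B.kap * ‖y‖) ^ 2 := by gcongr
          _ = 4 * B.kap ^ 2 * (‖y‖ * ‖y‖) := by ring
          _ ≤ 4 * B.kap ^ 2 * (‖y‖ * 1) := by gcongr
          _ ≤ 8 * B.kap ^ 2 * ‖y‖ := by nlinarith [mul_nonneg (pow_pos hk 2).le hy0]
          _ < δ := by
            rw [lt_div_iff₀ (by positivity)] at y4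
            linarith
      have sB : ∀ y : ℂ, ‖y‖ < e → y ∈ ball (0:ℂ) B.rho := fun y hy => by
        have := lt_of_lt_of_le (small y hy).1 he0r
        simpa using this
      refine ⟨e, hep, fun x => W (-B.s 0 (x - B.b n) ^ 2), ?_, ?_, ?_⟩
      · intro x hx
        have hx' : ‖x - B.b n‖ < e := by rwa [mem_ball, dist_eq_norm] at hx
        have hsan : AnalyticAt ℂ (fun x : ℂ => B.s 0 (x - B.b n)) x := by
          have h1 : AnalyticAt ℂ (fun p : ℂ × ℂ => B.s p.1 p.2) (0, x - B.b n) :=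
            B.s_an _ ⟨by simpa using B.r_pos, sB _ hx'⟩
          have h2 : AnalyticAt ℂ (fun x : ℂ => ((0 : ℂ), x - B.b n)) x :=
            analyticAt_const.prod (analyticAt_id.sub analyticAt_const)
          exact h1.comp_of_eq h2 rfl
        have hq : AnalyticAt ℂ (fun x : ℂ => -B.s 0 (x - B.b n) ^ 2) x := (hsan.pow 2).neg
        exact (hboth (small _ hx').2.2).1.comp_of_eq hq rfl
      · intro y hy
        have h1 : B.b n + y - B.b n = y := by ring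
        have h2 : B.b n - y - B.b n = -y := by ring
        show W (-B.s 0 (B.b n + y - B.b n) ^ 2) = W (-B.s 0 (B.b n - y - B.b n) ^ 2)
        rw [h1, h2, B.s_odd 0 (by simpa using B.r_pos) y (sB y hy), neg_sq]
      · intro x hx hxS
        have hx' : ‖x - B.b n‖ < e := by rwa [mem_ball, dist_eq_norm] at hx
        obtain ⟨y1, y2, y3⟩ := small _ hx'
        have him : (x - B.b n).im < 0 := norm_b_lt hxS
        have hne : x - B.b n ≠ 0 := by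
          intro h; rw [h] at him; simp at him
        have hq0 : -B.s 0 (x - B.b n) ^ 2 ≠ 0 := by
          have h3 := (hs _ y1).1
          have h4 : 0 < ‖B.s 0 (x - B.b n)‖ :=
            lt_of_lt_of_le (mul_pos (by positivity) (norm_pos_iff.2 hne)) h3
          exact neg_ne_zero.2 (pow_ne_zero _ (norm_pos_iff.1 h4))
        have h5 := (hboth y3).2 hq0
        rw [pow_zero, one_mul] at h5
        show W (-B.s 0 (x - B.b n) ^ 2) = f i x
        rw [← h5, ← hu.link i _ y2 him]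
        congr 1
        ring
    intro i
    fin_cases i
    · exact key 0 (hV0.down hV00)
    · exact key 1 (hV1.down hV10)
    · refine ⟨1, one_pos, fun _ => 0, fun _ _ => analyticAt_const, fun _ _ => rfl, ?_⟩
      intro x _ hx
      exact (hf2 x hx).symm

/-- LT-17, LOC2 -/
theorem loc2_stmt (B : Bg) (hUS : UStmt B) (hR : RRStmt B) (hP : PGStmt B) : Loc2Stmt B := by
  intro f n al hf _ hlim
  obtain ⟨u, rq, ry, w, hu⟩ := hUS f n hf
  obtain ⟨w', hw', hRR⟩ := RRF.of_stmt hR hu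
  obtain ⟨A, hA⟩ := ext_all hP hu
  have hkap : (B.kap : ℂ) ≠ 0 := by exact_mod_cast B.kap_pos.ne'
  have hlim' : Tendsto (fun τ : ℝ => (τ : ℂ) ^ (2 * 4) * u 2 (qt B τ)) (𝓝[>] 0) (𝓝 al) := by
    refine hlim.congr' ?_
    filter_upwards [f_qt hu 2] with τ hτ
    rw [hτ]
  -- `q ^ 4 u 2` extends
  have tmu : Tendsto (fun mu : ℝ => (mu : ℂ)) (𝓝[>] 0) (𝓝 0) := by
    have : Tendsto (fun mu : ℝ => (mu : ℂ)) (𝓝 0) (𝓝 ((0 : ℝ) : ℂ)) :=
      Complex.continuous_ofReal.tendsto 0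
    rw [Complex.ofReal_zero] at this
    exact this.mono_left nhdsWithin_le_nhds
  have desc : ∀ k : ℕ, (∃ U, Ext (4 + k) (u 2) U) → ∃ U, Ext 4 (u 2) U := by
    intro k
    induction k with
    | zero => exact id
    | succ k ih =>
      rintro ⟨U, hU⟩
      apply ih
      have hU' : Ext ((4 + k) + 1) (u 2) U := hU
      refine hU'.down ?_
      have h1 : Tendsto (fun τ : ℝ => (τ : ℂ) ^ (2 * (4 + k + 1)) * u 2 (qt B τ)) (𝓝[>] 0)
          (𝓝 0) := by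
        have h2 := (tmu.pow (2 * (k + 1))).mul hlim'
        rw [zero_pow (by omega), zero_mul] at h2
        refine h2.congr' (Eventually.of_forall fun τ => ?_)
        show (τ : ℂ) ^ (2 * (k + 1)) * ((τ : ℂ) ^ (2 * 4) * u 2 (qt B τ)) = _
        rw [← mul_assoc, ← pow_add]
        congr 2
        ring
      rw [ext_value B hU' h1, zero_mul]
  obtain ⟨U2, hU2⟩ := desc A (by rw [add_comm]; exact Ext.up' (hA 2) 4)
  have h0 := desc_six hw' hRR hU2 A (Ext.up' (hA 0) 6) (Ext.up' (hA 1) 5)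
  have h1 := ext_value B hU2 hlim'
  rw [h0] at h1
  exact (mul_eq_zero.1 h1.symm).resolve_right (pow_ne_zero _ hkap)

end Pool.Agent.MP_ae5b4e_an_LOC
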