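import Pool.Agent.Lib.MP_ae5b4e_an_LOC.PgB

/-!
# LOC, linear theory: polynomial growth (POR_LOC_MASTER, LT-14), the theorem without interface

`pg_core` : if the `u i` are continuous on a punctured disc and Cauchy's formula holds for the sum
over the two sides of the base point then `q ^ A u i q` is bounded near `q = 0`.
-/

set_option autoImplicit false

namespace Pool.Agent.MP_ae5b4e_an_LOC

open Set Metric Complex ComplexConjugate Filter Topology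

/-- the point `x` of the interpolation is close to `1 / al` -/
theorem pg_x {om q Lo L0 : ℂ} {k al : ℝ} (hk : 0 < k) (hal1 : 6 / 49 ≤ al)
    (hL0 : L0 ≠ 0) (hL : ‖Lo - L0‖ ≤ 1 / 1000 * ‖L0‖) (hq : q ≠ 0)
    (hom : ‖om ^ 2 - q / ((k * al : ℝ) : ℂ)‖ ≤ 1 / 400 * ‖q / ((k * al : ℝ) : ℂ)‖) :
    ‖om ^ 2 / Lo * (k * L0 / q) - 1 / (al : ℂ)‖ ≤ 1 / 20 := by
  have hal : 0 < al := by linarith
  have hL0n : 0 < ‖L0‖ := norm_pos_iff.2 hL0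
  have hLo1 : 999 / 1000 * ‖L0‖ ≤ ‖Lo‖ := by
    have := norm_sub_norm_le L0 Lo
    rw [norm_sub_rev] at this
    linarith
  have hLon : 0 < ‖Lo‖ := by
    have : 0 < 999 / 1000 * ‖L0‖ := by positivity
    linarith
  have hLo : Lo ≠ 0 := norm_pos_iff.1 hLon
  have hkC : (k:ℂ) ≠ 0 := by exact_mod_cast hk.ne'
  have halC : (al:ℂ) ≠ 0 := by exact_mod_cast hal.ne'
  have hqn : 0 < ‖q‖ := norm_pos_iff.2 hq
  -- a = om ^ 2 k al / q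
  have ha : ‖om ^ 2 * (k * al) / q - 1‖ ≤ 1 / 400 := by
    have e : om ^ 2 * (k * al) / q - 1 = (om ^ 2 - q / ((k * al : ℝ) : ℂ)) *
        ((k * al : ℝ) / q) := by
      push_cast
      field_simp
    rw [e, norm_mul]
    have e2 : ‖q / ((k * al : ℝ) : ℂ)‖ * ‖((k * al : ℝ) : ℂ) / q‖ = 1 := by
      rw [← norm_mul]
      have : q / ((k * al : ℝ) : ℂ) * (((k * al : ℝ) : ℂ) / q) = 1 := by
        push_cast
        field_simp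
      rw [this, norm_one]
    calc ‖om ^ 2 - q / ((k * al : ℝ) : ℂ)‖ * ‖((k * al : ℝ) : ℂ) / q‖
        ≤ 1 / 400 * ‖q / ((k * al : ℝ) : ℂ)‖ * ‖((k * al : ℝ) : ℂ) / q‖ :=
          mul_le_mul_of_nonneg_right hom (norm_nonneg _)
      _ = 1 / 400 * (‖q / ((k * al : ℝ) : ℂ)‖ * ‖((k * al : ℝ) : ℂ) / q‖) := by ring
      _ = 1 / 400 := by rw [e2, mul_one]
  have hb : ‖L0 / Lo - 1‖ ≤ 1 / 900 := by
    have e : L0 / Lo - 1 = (L0 - Lo) / Lo := by field_simp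
    rw [e, norm_div, norm_sub_rev, div_le_iff₀ hLon]
    linarith
  have e : om ^ 2 / Lo * (k * L0 / q) - 1 / (al : ℂ) =
      ((om ^ 2 * (k * al) / q - 1) * (L0 / Lo) + (L0 / Lo - 1)) / al := by
    field_simp
    ring
  rw [e, norm_div, Complex.norm_of_nonneg hal.le, div_le_iff₀ hal]
  have h1 : ‖L0 / Lo‖ ≤ 1 + 1 / 900 := by
    have := norm_add_le (L0 / Lo - 1) 1
    rw [sub_add_cancel, norm_one] at this
    linarith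
  have h2 : ‖(om ^ 2 * (k * al) / q - 1) * (L0 / Lo)‖ ≤ 1 / 400 * (1 + 1 / 900) := by
    rw [norm_mul]
    exact mul_le_mul ha h1 (norm_nonneg _) (by norm_num)
  refine (norm_add_le _ _).trans ?_
  have h3 : 1 / 20 * (6 / 49 : ℝ) ≤ 1 / 20 * al := by linarith
  have h4 : (1:ℝ) / 400 * (1 + 1 / 900) + 1 / 900 ≤ 1 / 20 * (6 / 49) := by norm_num
  linarith

/-- the final interpolation -/
theorem pg_final {u0 u1 u2 om1 om2 om3 L1 L2 L3 L0 q : ℂ} {k E : ℝ} (hk : 0 < k) (hL0 : L0 ≠ 0)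
    (hq : q ≠ 0)
    (hL1 : ‖L1 - L0‖ ≤ 1 / 1000 * ‖L0‖) (hL2 : ‖L2 - L0‖ ≤ 1 / 1000 * ‖L0‖)
    (hL3 : ‖L3 - L0‖ ≤ 1 / 1000 * ‖L0‖)
    (h1 : ‖om1 ^ 2 - q / ((k * (4 / 25) : ℝ) : ℂ)‖ ≤ 1 / 400 * ‖q / ((k * (4 / 25) : ℝ) : ℂ)‖)
    (h2 : ‖om2 ^ 2 - q / ((k * (5 / 36) : ℝ) : ℂ)‖ ≤ 1 / 400 * ‖q / ((k * (5 / 36) : ℝ) : ℂ)‖)
    (h3 : ‖om3 ^ 2 - q / ((k * (6 / 49) : ℝ) : ℂ)‖ ≤ 1 / 400 * ‖q / ((k * (6 / 49) : ℝ) : ℂ)‖)
    (v1 : ‖om1 ^ 4 * u0 + om1 ^ 2 * L1 * u1 + L1 ^ 2 * u2‖ ≤ E)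
    (v2 : ‖om2 ^ 4 * u0 + om2 ^ 2 * L2 * u1 + L2 ^ 2 * u2‖ ≤ E)
    (v3 : ‖om3 ^ 4 * u0 + om3 ^ 2 * L3 * u1 + L3 ^ 2 * u2‖ ≤ E) :
    ‖u2‖ + ‖q‖ * ‖u1‖ + ‖q‖ ^ 2 * ‖u0‖ ≤
      (5000 + 300 * (k * ‖L0‖) + 16 * (k * ‖L0‖) ^ 2) * (4 * E / ‖L0‖ ^ 2) := by
  have hL0n : 0 < ‖L0‖ := norm_pos_iff.2 hL0
  have hkC : (k:ℂ) ≠ 0 := by exact_mod_cast hk.ne'
  have hE : 0 ≤ E := (norm_nonneg _).trans v1
  have hqn : 0 < ‖q‖ := norm_pos_iff.2 hq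
  have hx1 := pg_x hk (by norm_num) hL0 hL1 hq h1
  have hx2 := pg_x hk (by norm_num) hL0 hL2 hq h2
  have hx3 := pg_x hk (by norm_num) hL0 hL3 hq h3
  set x1 := om1 ^ 2 / L1 * (k * L0 / q) with hxx1
  set x2 := om2 ^ 2 / L2 * (k * L0 / q) with hxx2
  set x3 := om3 ^ 2 / L3 * (k * L0 / q) with hxx3
  have hgen : ∀ {om L x : ℂ}, x = om ^ 2 / L * (k * L0 / q) → ‖L - L0‖ ≤ 1 / 1000 * ‖L0‖ →
      ‖om ^ 4 * u0 + om ^ 2 * L * u1 + L ^ 2 * u2‖ ≤ E →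
      ‖u2 + u1 * (q / (k * L0)) * x + u0 * (q / (k * L0)) ^ 2 * x ^ 2‖ ≤ 4 * E / ‖L0‖ ^ 2 := by
    intro om L x hx hL hv
    have hLo1 : 999 / 1000 * ‖L0‖ ≤ ‖L‖ := by
      have := norm_sub_norm_le L0 L
      rw [norm_sub_rev] at this
      linarith
    have hLon : 0 < ‖L‖ := by
      have : 0 < 999 / 1000 * ‖L0‖ := by positivity
      linarith
    have hLne : L ≠ 0 := norm_pos_iff.1 hLon
    have e : u2 + u1 * (q / (k * L0)) * x + u0 * (q / (k * L0)) ^ 2 * x ^ 2 =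
        (om ^ 4 * u0 + om ^ 2 * L * u1 + L ^ 2 * u2) / L ^ 2 := by
      rw [hx]
      field_simp
      ring
    rw [e, norm_div, norm_pow, div_le_div_iff₀ (by positivity) (by positivity)]
    have h5 : ‖L0‖ ^ 2 ≤ 4 * ‖L‖ ^ 2 := by
      have := pow_le_pow_left₀ (by positivity) hLo1 2
      have h6 : 0 ≤ ‖L0‖ ^ 2 := by positivity
      nlinarith
    calc ‖om ^ 4 * u0 + om ^ 2 * L * u1 + L ^ 2 * u2‖ * ‖L0‖ ^ 2 ≤ E * (4 * ‖L‖ ^ 2) :=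
          mul_le_mul hv h5 (by positivity) hE
      _ = 4 * E * ‖L‖ ^ 2 := by ring
  have w1 := hgen hxx1 hL1 v1
  have w2 := hgen hxx2 hL2 v2
  have w3 := hgen hxx3 hL3 v3
  have n1 : ‖x1 - 25 / 4‖ ≤ 1 / 20 := by
    have e : (1:ℂ) / ((4 / 25 : ℝ) : ℂ) = 25 / 4 := by push_cast; norm_num
    rwa [e] at hx1
  have n2 : ‖x2 - 36 / 5‖ ≤ 1 / 20 := by
    have e : (1:ℂ) / ((5 / 36 : ℝ) : ℂ) = 36 / 5 := by push_cast; norm_num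
    rwa [e] at hx2
  have n3 : ‖x3 - 49 / 6‖ ≤ 1 / 20 := by
    have e : (1:ℂ) / ((6 / 49 : ℝ) : ℂ) = 49 / 6 := by push_cast; norm_num
    rwa [e] at hx3
  have hle : ∀ {x : ℂ} {r : ℝ}, 0 ≤ r → r ≤ 8 → ‖x - r‖ ≤ 1 / 20 → ‖x‖ ≤ 9 := by
    intro x r hr0 hr hx
    have := norm_add_le (x - r) r
    rw [sub_add_cancel, Complex.norm_of_nonneg hr0] at this
    linarith
  have hsep : ∀ {x y : ℂ} {r s : ℝ}, r + 3 / 5 ≤ s → ‖x - r‖ ≤ 1 / 20 → ‖y - s‖ ≤ 1 / 20 →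
      1 / 2 ≤ ‖x - y‖ := by
    intro x y r s hrs hx hy
    have e : ((s - r : ℝ) : ℂ) = (x - r) - (y - s) - (x - y) := by push_cast; ring
    have h5 : s - r ≤ 1 / 20 + 1 / 20 + ‖x - y‖ := by
      have h6 : ‖((s - r : ℝ) : ℂ)‖ = s - r := Complex.norm_of_nonneg (by linarith)
      rw [← h6, e]
      exact (norm_sub_le _ _).trans (add_le_add ((norm_sub_le _ _).trans (add_le_add hx hy)) le_rfl)
    linarith
  have m1 : ‖x1 - ((25 / 4 : ℝ) : ℂ)‖ ≤ 1 / 20 := by push_cast; exact n1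
  have m2 : ‖x2 - ((36 / 5 : ℝ) : ℂ)‖ ≤ 1 / 20 := by push_cast; exact n2
  have m3 : ‖x3 - ((49 / 6 : ℝ) : ℂ)‖ ≤ 1 / 20 := by push_cast; exact n3
  obtain ⟨ha, hb, hc⟩ := interp (a := u2) (b := u1 * (q / (k * L0)))
    (c := u0 * (q / (k * L0)) ^ 2) (hle (by norm_num) (by norm_num) m1)
    (hle (by norm_num) (by norm_num) m2) (hsep (by norm_num) m1 m2) (hsep (by norm_num) m1 m3)
    (hsep (by norm_num) m2 m3) w1 w2 w3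
  set D := 4 * E / ‖L0‖ ^ 2 with hD
  have hn : ‖q / ((k:ℂ) * L0)‖ = ‖q‖ / (k * ‖L0‖) := by
    rw [norm_div, norm_mul, Complex.norm_of_nonneg hk.le]
  rw [norm_mul, hn] at hb
  rw [norm_mul, norm_pow, hn] at hc
  have hkL : 0 < k * ‖L0‖ := by positivity
  have hb' : ‖q‖ * ‖u1‖ ≤ 300 * (k * ‖L0‖) * D := by
    have e : ‖q‖ * ‖u1‖ = ‖u1‖ * (‖q‖ / (k * ‖L0‖)) * (k * ‖L0‖) := by field_simp
    rw [e]
    calc ‖u1‖ * (‖q‖ / (k * ‖L0‖)) * (k * ‖L0‖) ≤ 300 * D * (k * ‖L0‖) :=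
          mul_le_mul_of_nonneg_right hb hkL.le
      _ = _ := by ring
  have hc' : ‖q‖ ^ 2 * ‖u0‖ ≤ 16 * (k * ‖L0‖) ^ 2 * D := by
    have e : ‖q‖ ^ 2 * ‖u0‖ = ‖u0‖ * (‖q‖ / (k * ‖L0‖)) ^ 2 * (k * ‖L0‖) ^ 2 := by field_simp
    rw [e]
    calc ‖u0‖ * (‖q‖ / (k * ‖L0‖)) ^ 2 * (k * ‖L0‖) ^ 2 ≤ 16 * D * (k * ‖L0‖) ^ 2 :=
          mul_le_mul_of_nonneg_right hc (by positivity)
      _ = _ := by ring
  have e : (5000 + 300 * (k * ‖L0‖) + 16 * (k * ‖L0‖) ^ 2) * D =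
      5000 * D + 300 * (k * ‖L0‖) * D + 16 * (k * ‖L0‖) ^ 2 * D := by ring
  rw [e]
  linarith

/-- LT-14 without interface -/
theorem pg_core (B : Bg) {u : Fin 3 → ℂ → ℂ} {rq w5 : ℝ} (hrq : 0 < rq) (hw5 : 0 < w5)
    (hu : ∀ i, ∀ q : ℂ, q ≠ 0 → ‖q‖ < rq → ContinuousAt (u i) q)
    (hRR : ∀ (om z : ℂ) (d : ℝ), 0 < ‖z‖ → ‖z‖ < d → d < ‖om‖ → ‖om‖ < w5 →
      B.pgV u om (z - om / 2) + B.pgV u om (z + om / 2) = (2 * Real.pi * I)⁻¹ *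
        ∮ ζ in C(0, d), (B.pgV u om (ζ - om / 2) + B.pgV u om (ζ + om / 2)) / (ζ - z)) :
    ∃ (A : ℕ) (C r' : ℝ), 0 < r' ∧ ∀ i, ∀ q : ℂ, q ≠ 0 → ‖q‖ < r' → ‖q ^ A * u i q‖ ≤ C := by
  have hk := B.kap_pos
  have hk2 : 0 < B.kap ^ 2 := by positivity
  have h0r : (0:ℂ) ∈ ball (0:ℂ) B.r := mem_ball_self B.r_pos
  have hL0 : B.Lam 0 ≠ 0 := B.Lam_ne 0 h0r
  have hL0n : 0 < ‖B.Lam 0‖ := norm_pos_iff.2 hL0
  -- Lam near 0
  obtain ⟨δ, hδ, hLd⟩ : ∃ δ > 0, ∀ om : ℂ, ‖om‖ < δ →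
      ‖B.Lam om - B.Lam 0‖ ≤ 1 / 1000 * ‖B.Lam 0‖ := by
    have hc : ContinuousAt B.Lam 0 := (B.Lam_an 0 h0r).continuousAt
    obtain ⟨δ, hδ, h⟩ := Metric.continuousAt_iff.1 hc (1 / 1000 * ‖B.Lam 0‖) (by positivity)
    refine ⟨δ, hδ, fun om hom => ?_⟩
    have := h (x := om) (by rwa [dist_zero_right])
    rw [dist_eq_norm] at this
    exact this.le
  have hLm : ∀ om : ℂ, ‖om‖ < δ → ‖B.Lam om‖ ≤ 2 * ‖B.Lam 0‖ := by
    intro om hom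
    have h1 := hLd om hom
    have := norm_add_le (B.Lam om - B.Lam 0) (B.Lam 0)
    rw [sub_add_cancel] at this
    linarith
  obtain ⟨q1, hq1, H1⟩ := pg_claim B (c := 3 / 10) (by norm_num) (by norm_num) hw5 hδ hRR hLm
  obtain ⟨q2, hq2, H2⟩ := pg_claim B (c := 1 / 3) (by norm_num) (by norm_num) hw5 hδ hRR hLm
  obtain ⟨q3, hq3, H3⟩ := pg_claim B (c := 5 / 14) (by norm_num) (by norm_num) hw5 hδ hRR hLm
  set q0 : ℝ := min (min q1 q2) (min q3 (min (rq / 20) 1)) with hq0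
  have hq0p : 0 < q0 := by positivity
  have hq01 : q0 ≤ q1 := (min_le_left _ _).trans (min_le_left _ _)
  have hq02 : q0 ≤ q2 := (min_le_left _ _).trans (min_le_right _ _)
  have hq03 : q0 ≤ q3 := (min_le_right _ _).trans (min_le_left _ _)
  have hq04 : q0 ≤ rq / 20 :=
    (min_le_right _ _).trans ((min_le_right _ _).trans (min_le_left _ _))
  have hq05 : q0 ≤ 1 := (min_le_right _ _).trans ((min_le_right _ _).trans (min_le_right _ _))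
  -- compactness
  obtain ⟨B0, hB0, hB⟩ : ∃ B0 : ℝ, 0 ≤ B0 ∧
      ∀ q : ℂ, q0 ≤ ‖q‖ → ‖q‖ ≤ 10 * q0 → pgm u q ≤ B0 := by
    have hK : IsCompact {q : ℂ | q0 ≤ ‖q‖ ∧ ‖q‖ ≤ 10 * q0} := by
      have h1 : {q : ℂ | q0 ≤ ‖q‖ ∧ ‖q‖ ≤ 10 * q0} =
          closedBall 0 (10 * q0) ∩ {q : ℂ | q0 ≤ ‖q‖} := by
        ext q
        simp only [mem_ofPred_eq, mem_inter_iff, mem_closedBall_zero_iff]
        tauto
      rw [h1]
      exact (isCompact_closedBall _ _).inter_right (isClosed_le continuous_const continuous_norm)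
    have hcont : ContinuousOn (pgm u) {q : ℂ | q0 ≤ ‖q‖ ∧ ‖q‖ ≤ 10 * q0} := by
      intro q hq
      have hne : q ≠ 0 := by
        rintro rfl
        have := hq.1
        rw [norm_zero] at this
        linarith
      have hlt : ‖q‖ < rq := by
        have := hq.2
        linarith
      have c0 := hu 0 q hne hlt
      have c1 := hu 1 q hne hlt
      have c2 := hu 2 q hne hlt
      have hn : ContinuousAt (fun q : ℂ => ‖q‖) q := continuous_norm.continuousAt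
      exact ((c2.norm.add (hn.mul c1.norm)).add ((hn.pow 2).mul c0.norm)).continuousWithinAt
    obtain ⟨b, hb⟩ := (hK.image_of_continuousOn hcont).bddAbove
    refine ⟨max b 0, le_max_right _ _, fun q h1 h2 => ?_⟩
    exact (hb ⟨q, ⟨h1, h2⟩, rfl⟩).trans (le_max_left _ _)
  set E0 : ℝ := 5 * ((9 / B.kap ^ 2) ^ 2 + 9 / B.kap ^ 2 * (2 * ‖B.Lam 0‖) +
    (2 * ‖B.Lam 0‖) ^ 2) with hE0
  set C1 : ℝ := (5000 + 300 * (B.kap ^ 2 * ‖B.Lam 0‖) + 16 * (B.kap ^ 2 * ‖B.Lam 0‖) ^ 2) *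
    (4 * E0 / ‖B.Lam 0‖ ^ 2) with hC1
  obtain ⟨A, C', hC', hA⟩ := growth (m := pgm u) (C := C1) hq0p hB0 hB (by
    intro q hqp hqlt S hS
    have hq : q ≠ 0 := norm_pos_iff.1 hqp
    obtain ⟨om1, o1, s1, v1⟩ := H1 q hq (hqlt.trans_le hq01) S hS
    obtain ⟨om2, o2, s2, v2⟩ := H2 q hq (hqlt.trans_le hq02) S hS
    obtain ⟨om3, o3, s3, v3⟩ := H3 q hq (hqlt.trans_le hq03) S hS
    have a1 : (1:ℝ) / 4 - (3 / 10) ^ 2 = 4 / 25 := by norm_num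
    have a2 : (1:ℝ) / 4 - (1 / 3) ^ 2 = 5 / 36 := by norm_num
    have a3 : (1:ℝ) / 4 - (5 / 14) ^ 2 = 6 / 49 := by norm_num
    rw [a1] at s1
    rw [a2] at s2
    rw [a3] at s3
    have hfin := pg_final hk2 hL0 hq (hLd om1 o1) (hLd om2 o2) (hLd om3 o3) s1 s2 s3 v1 v2 v3
    refine hfin.trans (le_of_eq ?_)
    rw [hC1, hE0]
    ring)
  refine ⟨A + 2, C', q0, hq0p, ?_⟩
  intro i q hq hlt
  have hqn : 0 < ‖q‖ := norm_pos_iff.2 hq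
  have h1 := hA q hqn hlt.le
  have hq1' : ‖q‖ ≤ 1 := hlt.le.trans hq05
  have hA0 : 0 ≤ ‖q‖ ^ A := by positivity
  have n0 : 0 ≤ ‖u 0 q‖ := norm_nonneg _
  have n1 : 0 ≤ ‖u 1 q‖ := norm_nonneg _
  have n2 : 0 ≤ ‖u 2 q‖ := norm_nonneg _
  have hi : ‖q‖ ^ 2 * ‖u i q‖ ≤ pgm u q := by
    unfold pgm
    have p1 : 0 ≤ ‖q‖ * ‖u 1 q‖ := by positivity
    have p0 : 0 ≤ ‖q‖ ^ 2 * ‖u 0 q‖ := by positivity
    have hsq : ‖q‖ ^ 2 ≤ ‖q‖ := by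
      calc ‖q‖ ^ 2 = ‖q‖ * ‖q‖ := by ring
        _ ≤ ‖q‖ * 1 := mul_le_mul_of_nonneg_left hq1' hqn.le
        _ = ‖q‖ := mul_one _
    fin_cases i
    · simp only [Fin.zero_eta]
      linarith
    · simp only [Fin.mk_one]
      have := mul_le_mul_of_nonneg_right hsq n1
      linarith
    · have e : (⟨2, by norm_num⟩ : Fin 3) = 2 := rfl
      simp only [e]
      have := mul_le_mul_of_nonneg_right (hsq.trans hq1') n2
      linarith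
  rw [norm_mul, norm_pow]
  calc ‖q‖ ^ (A + 2) * ‖u i q‖ = (‖q‖ ^ 2 * ‖u i q‖) * ‖q‖ ^ A := by ring
    _ ≤ pgm u q * ‖q‖ ^ A := mul_le_mul_of_nonneg_right hi hA0
    _ ≤ C' := h1

end Pool.Agent.MP_ae5b4e_an_LOC
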