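import Pool.Agent.Lib.MP_ae5b4e_an_LOC.LTS
import Pool.Agent.Lib.MP_ae5b4e_an_LOC.PgC

/-!
# LOC, linear theory: LT-14, polynomial growth of the functions `u i`
-/

set_option autoImplicit false

namespace Pool.Agent.MP_ae5b4e_an_LOC

open Set Metric Complex ComplexConjugate Filter Topology

theorem pg_stmt {B : Bg} (hRR : RRStmt B) : PGStmt B := by
  intro f u n rq ry w hU
  obtain ⟨w', hw', -, H⟩ := hRR f u n rq ry w hU
  refine pg_core B hU.rq_pos hw' (fun i q hq hq' => (hU.an i q hq hq').continuousAt) ?_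
  intro om z d hz hzd hd hom
  have hom0 : om ≠ 0 := norm_pos_iff.1 ((hz.trans hzd).trans hd)
  exact H om z d hom0 hom (norm_pos_iff.1 hz) hzd hd

end Pool.Agent.MP_ae5b4e_an_LOC
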