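import Pool.Agent.Lib.MP_ae5b4e_an_LOC.LT0

/-!
# LOC, linear theory: approximation of `N` near a base point (POR_LOC_MASTER, LT-14, NAPP)
-/

set_option autoImplicit false

namespace Pool.Agent.MP_ae5b4e_an_LOC

open Set Metric Complex Filter Topology

namespace Bg

variable (B : Bg)

/-- approximation of `N` near a base point -/
theorem napp : ∃ C : ℝ, 0 < C ∧ ∀ om z : ℂ, ‖om‖ < B.r → ‖z‖ < B.rho →
    ‖B.N om z - B.kap ^ 2 * (om ^ 2 / 4 - z ^ 2)‖ ≤ C * (‖om‖ + ‖z‖) ^ 4 := by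
  have hk := B.kap_pos
  have hK : 0 < B.K := lt_of_lt_of_le one_pos B.one_le_K
  have hr := B.r_pos
  have hrho := B.rho_pos
  set C0 : ℝ := 2 * B.kap * B.K + B.K ^ 2 * (B.r + B.rho) ^ 2 with hC0
  have hC0p : 0 < C0 := by positivity
  -- one square
  have key : ∀ om z : ℂ, ‖om‖ < B.r → ‖z‖ < B.rho →
      ‖B.s om z ^ 2 - B.kap ^ 2 * z ^ 2‖ ≤ C0 * (‖om‖ + ‖z‖) ^ 4 := by
    intro om z hom hz
    set ρ : ℝ := ‖om‖ + ‖z‖ with hρ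
    have hρ0 : 0 ≤ ρ := by positivity
    have hρ1 : ρ ≤ B.r + B.rho := by linarith
    have hzρ : ‖z‖ ≤ ρ := by simp [hρ]
    have hs := B.s_close om (by simpa using hom) z (by simpa using hz)
    set δ : ℂ := B.s om z - B.kap * z with hδ
    have hs' : B.s om z = B.kap * z + δ := by rw [hδ]; ring
    have hδ1 : ‖δ‖ ≤ B.K * ρ ^ 3 := by
      calc ‖δ‖ ≤ B.K * ‖z‖ * ρ ^ 2 := hs
        _ ≤ B.K * ρ * ρ ^ 2 := by gcongr
        _ = B.K * ρ ^ 3 := by ring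
    have e : B.s om z ^ 2 - B.kap ^ 2 * z ^ 2 = 2 * B.kap * z * δ + δ ^ 2 := by
      rw [hs']; ring
    rw [e]
    calc ‖2 * (B.kap : ℂ) * z * δ + δ ^ 2‖ ≤ ‖2 * (B.kap : ℂ) * z * δ‖ + ‖δ ^ 2‖ := norm_add_le _ _
      _ = 2 * B.kap * ‖z‖ * ‖δ‖ + ‖δ‖ ^ 2 := by
          rw [norm_mul, norm_mul, norm_mul, norm_pow, Complex.norm_real, Real.norm_eq_abs,
            abs_of_pos hk]
          simp
      _ ≤ 2 * B.kap * ρ * (B.K * ρ ^ 3) + (B.K * ρ ^ 3) ^ 2 := by gcongr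
      _ = (2 * B.kap * B.K + B.K ^ 2 * ρ ^ 2) * ρ ^ 4 := by ring
      _ ≤ C0 * ρ ^ 4 := by rw [hC0]; gcongr
  refine ⟨7 * C0, by positivity, fun om z hom hz => ?_⟩
  have hom2 : ‖om / 2‖ < B.rho := by
    have h1 := B.K_r_le
    have h2 : B.r ≤ B.rho := by nlinarith [B.one_le_K, B.r_pos]
    rw [norm_div]
    simp only [Complex.norm_ofNat]
    have : 0 ≤ ‖om‖ := norm_nonneg _
    linarith
  have h1 := key om (om / 2) hom hom2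
  have h2 := key om z hom hz
  have hep := B.ep_eq om (by simpa using hom)
  have e : B.N om z - B.kap ^ 2 * (om ^ 2 / 4 - z ^ 2) =
      (B.s om (om / 2) ^ 2 - B.kap ^ 2 * (om / 2) ^ 2) - (B.s om z ^ 2 - B.kap ^ 2 * z ^ 2) := by
    simp only [Bg.N, hep]; ring
  have h3 : ‖om / 2‖ = ‖om‖ / 2 := by rw [norm_div]; simp
  have hn1 : 0 ≤ ‖om‖ := norm_nonneg _
  have hn2 : 0 ≤ ‖z‖ := norm_nonneg _
  rw [e]
  calc _ ≤ ‖B.s om (om / 2) ^ 2 - B.kap ^ 2 * (om / 2) ^ 2‖ + ‖B.s om z ^ 2 - B.kap ^ 2 * z ^ 2‖ :=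
        norm_sub_le _ _
    _ ≤ C0 * (‖om‖ + ‖om / 2‖) ^ 4 + C0 * (‖om‖ + ‖z‖) ^ 4 := add_le_add h1 h2
    _ ≤ C0 * (6 * (‖om‖ + ‖z‖) ^ 4) + C0 * (‖om‖ + ‖z‖) ^ 4 := by
        have : (‖om‖ + ‖om / 2‖) ^ 4 ≤ 6 * (‖om‖ + ‖z‖) ^ 4 := by
          rw [h3]
          calc (‖om‖ + ‖om‖ / 2) ^ 4 = (3 / 2) ^ 4 * ‖om‖ ^ 4 := by ring
            _ ≤ 6 * ‖om‖ ^ 4 := by gcongr; norm_num
            _ ≤ 6 * (‖om‖ + ‖z‖) ^ 4 := by gcongr; linarith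
        gcongr
    _ = 7 * C0 * (‖om‖ + ‖z‖) ^ 4 := by ring

end Bg

end Pool.Agent.MP_ae5b4e_an_LOC
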