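import Pool.Agent.Lib.MP_ae5b4e_an_LOC.LTS
import Pool.Agent.Lib.MP_ae5b4e_an_LOC.Napp
import Pool.Agent.Lib.MP_ae5b4e_an_WB.ParamInt

/-!
# LOC, LT-13: the relation at a base point for complex `om`

`rr_core`: for real `om` the sum `V u om (z - om / 2) + V u om (z + om / 2)` has a removable
singularity at `z = 0`, so Cauchy's formula holds on circles `‖ζ‖ = d < om`.  Both sides are analytic
functions of `om` on the annulus `d < ‖om‖ < w'`, which is connected, so the formula holds for all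
complex `om`.  `rr_stmt : RRStmt B`, `Rel.toRRel : Rel B u rq → RRel B u rq`.
-/

set_option autoImplicit false

noncomputable section

namespace Pool.Agent.MP_ae5b4e_an_LOC

open Set Metric Complex Filter Topology MeasureTheory

theorem rr_pre_ann {a b : ℝ} (ha : 0 < a) (hab : a < b) :
    IsPreconnected {z : ℂ | a < ‖z‖ ∧ ‖z‖ < b} := by
  have hb : 0 < b := ha.trans hab
  have h1 : Convex ℝ ({w : ℂ | Real.log a < w.re} ∩ {w : ℂ | w.re < Real.log b}) :=
    (convex_halfSpace_re_gt _).inter (convex_halfSpace_re_lt _)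
  have h2 := h1.isPreconnected.image exp continuous_exp.continuousOn
  convert h2 using 1
  ext z
  simp only [mem_ofPred_eq, mem_image, mem_inter_iff]
  constructor
  · rintro ⟨h3, h4⟩
    have hz : z ≠ 0 := norm_pos_iff.1 (ha.trans h3)
    refine ⟨log z, ⟨?_, ?_⟩, exp_log hz⟩
    · rw [log_re]; exact Real.log_lt_log ha h3
    · rw [log_re]; exact Real.log_lt_log (norm_pos_iff.2 hz) h4
  · rintro ⟨w, ⟨h3, h4⟩, rfl⟩
    rw [norm_exp]
    exact ⟨(Real.log_lt_iff_lt_exp ha).1 h3, (Real.lt_log_iff_exp_lt hb).1 h4⟩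

theorem rr_pre_punct {b : ℝ} (hb : 0 < b) :
    IsPreconnected {z : ℂ | z ≠ 0 ∧ ‖z‖ < b} := by
  have h1 : Convex ℝ {w : ℂ | w.re < Real.log b} := convex_halfSpace_re_lt _
  have h2 := h1.isPreconnected.image exp continuous_exp.continuousOn
  convert h2 using 1
  ext z
  simp only [mem_ofPred_eq, mem_image]
  constructor
  · rintro ⟨h3, h4⟩
    refine ⟨log z, ?_, exp_log h3⟩
    rw [log_re]; exact Real.log_lt_log (norm_pos_iff.2 h3) h4
  · rintro ⟨w, h4, rfl⟩
    rw [norm_exp]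
    exact ⟨exp_ne_zero _, (Real.lt_log_iff_exp_lt hb).1 h4⟩

namespace Bg

variable (B : Bg)

theorem rr_r_le : B.r ≤ B.rho / 4 := by
  have h1 := B.K_r_le
  have h2 := B.r_pos
  nlinarith [B.one_le_K]

/-- `N` is analytic in both variables -/
theorem rr_N_an {om z : ℂ} (hom : ‖om‖ < B.r) (hz : ‖z‖ < B.rho) :
    AnalyticAt ℂ (fun p : ℂ × ℂ => B.N p.1 p.2) (om, z) := by
  have h0 := B.rr_r_le
  have h1 : AnalyticAt ℂ (fun p : ℂ × ℂ => B.s p.1 p.2) (om, om / 2) := by
    refine B.s_an _ ⟨by simpa using hom, ?_⟩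
    simp only [mem_ball, dist_zero_right, norm_div, Complex.norm_ofNat]
    linarith [norm_nonneg om]
  have h2 : AnalyticAt ℂ (fun p : ℂ × ℂ => B.s p.1 (p.1 / 2)) (om, z) := by
    refine AnalyticAt.fun_comp (g := fun p : ℂ × ℂ => B.s p.1 p.2)
      (f := fun p : ℂ × ℂ => (p.1, p.1 / 2)) h1 ?_
    exact analyticAt_fst.prod (analyticAt_fst.div_const)
  have h3 : AnalyticAt ℂ (fun p : ℂ × ℂ => B.s p.1 p.2) (om, z) :=
    B.s_an _ ⟨by simpa using hom, by simpa using hz⟩
  have h4 : AnalyticAt ℂ (fun p : ℂ × ℂ => B.s p.1 (p.1 / 2) ^ 2 - B.s p.1 p.2 ^ 2) (om, z) :=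
    (h2.pow 2).sub (h3.pow 2)
  refine h4.congr ?_
  have h5 : ∀ᶠ p : ℂ × ℂ in 𝓝 (om, z), ‖p.1‖ < B.r := by
    have : ContinuousAt (fun p : ℂ × ℂ => ‖p.1‖) (om, z) := by fun_prop
    exact this.eventually_lt_const hom
  filter_upwards [h5] with p hp
  simp only [Bg.N]
  rw [B.ep_eq p.1 (by simpa using hp)]

theorem rr_N_zero {om z : ℂ} (hom : ‖om‖ < B.r) (hz : ‖z‖ < B.rho) (h : B.N om z = 0) :
    z = om / 2 ∨ z = -(om / 2) := by
  have h0 := B.rr_r_le
  have hm : om ∈ ball (0 : ℂ) B.r := by simpa using hom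
  have h1 : om / 2 ∈ ball (0 : ℂ) B.rho := by
    simp only [mem_ball, dist_zero_right, norm_div, Complex.norm_ofNat]
    linarith [norm_nonneg om]
  have h1' : -(om / 2) ∈ ball (0 : ℂ) B.rho := by
    simpa using h1
  have hz' : z ∈ ball (0 : ℂ) B.rho := by simpa using hz
  simp only [Bg.N] at h
  rw [B.ep_eq om hm] at h
  have h2 : (B.s om (om / 2) - B.s om z) * (B.s om (om / 2) + B.s om z) = 0 := by
    linear_combination h
  rcases mul_eq_zero.1 h2 with h3 | h3
  · left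
    exact B.s_inj om hm hz' h1 (sub_eq_zero.1 h3).symm
  · right
    refine B.s_inj om hm hz' h1' ?_
    rw [B.s_odd om hm _ h1]
    linear_combination h3

theorem rr_V_an {u : Fin 3 → ℂ → ℂ} {rq : ℝ}
    (hu : ∀ i, ∀ q : ℂ, q ≠ 0 → ‖q‖ < rq → AnalyticAt ℂ (u i) q)
    {om z : ℂ} (hom : ‖om‖ < B.r) (hz : ‖z‖ < B.rho) (h1 : B.N om z ≠ 0)
    (h2 : ‖B.N om z‖ < rq) :
    AnalyticAt ℂ (fun p : ℂ × ℂ => B.V u p.1 p.2) (om, z) := by
  have hN := B.rr_N_an hom hz
  have hL : AnalyticAt ℂ (fun p : ℂ × ℂ => B.Lam p.1) (om, z) :=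
    AnalyticAt.fun_comp (g := B.Lam) (f := fun p : ℂ × ℂ => p.1)
      (B.Lam_an om (by simpa using hom)) analyticAt_fst
  have hui : ∀ i, AnalyticAt ℂ (fun p : ℂ × ℂ => u i (B.N p.1 p.2)) (om, z) := fun i =>
    AnalyticAt.fun_comp (g := u i) (f := fun p : ℂ × ℂ => B.N p.1 p.2) (hu i _ h1 h2) hN
  have ho : AnalyticAt ℂ (fun p : ℂ × ℂ => p.1) (om, z) := analyticAt_fst
  exact (((ho.pow 4).mul (hui 0)).add (((ho.pow 2).mul hL).mul (hui 1))).add
    ((hL.pow 2).mul (hui 2))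

end Bg

/-- Cauchy's formula on a circle around a removable singularity -/
theorem rr_cauchy {g R : ℂ → ℂ} {d D e : ℝ} (hd : 0 < d) (hdD : d < D) (he : 0 < e)
    (hR : AnalyticAt ℂ R 0) (hg : ∀ z : ℂ, z ≠ 0 → ‖z‖ < D → AnalyticAt ℂ g z)
    (hgR : ∀ z : ℂ, z ≠ 0 → ‖z‖ < e → g z = R z) {z : ℂ} (hz0 : z ≠ 0) (hz : ‖z‖ < d) :
    g z = (2 * Real.pi * I)⁻¹ • ∮ ζ in C(0, d), (ζ - z)⁻¹ • g ζ := by
  set G : ℂ → ℂ := fun z => if z = 0 then R 0 else g z with hG
  have hG0 : AnalyticAt ℂ G 0 := by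
    refine hR.congr ?_
    filter_upwards [ball_mem_nhds (0 : ℂ) he] with z hz
    by_cases h : z = 0
    · simp [hG, h]
    · simp only [hG, h, if_false]
      exact (hgR z h (by simpa using hz)).symm
  have hGz : ∀ z : ℂ, z ≠ 0 → G z = g z := fun z h => by simp [hG, h]
  have hGa : ∀ z : ℂ, ‖z‖ < D → AnalyticAt ℂ G z := by
    intro z hz
    by_cases h : z = 0
    · rw [h]; exact hG0
    · refine (hg z h hz).congr ?_
      filter_upwards [isOpen_ne.mem_nhds h] with w hw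
      exact (hGz w hw).symm
  have hdiff : DiffContOnCl ℂ G (ball 0 d) := by
    refine DifferentiableOn.diffContOnCl fun w hw => ?_
    have h1 : w ∈ closedBall (0 : ℂ) d := closure_ball_subset_closedBall hw
    have h2 : ‖w‖ ≤ d := by simpa using h1
    exact (hGa w (lt_of_le_of_lt h2 hdD)).differentiableAt.differentiableWithinAt
  have h3 := hdiff.two_pi_i_inv_smul_circleIntegral_sub_inv_smul (w := z) (by simpa using hz)
  rw [← hGz z hz0, ← h3]
  congr 1
  refine circleIntegral.integral_congr hd.le fun w hw => ?_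
  have h4 : ‖w‖ = d := by simpa using hw
  have h5 : w ≠ 0 := by
    intro h
    rw [h, norm_zero] at h4
    linarith
  simp only [hGz w h5]

/-- a circle integral depending analytically on a parameter -/
theorem rr_param {U : Set ℂ} (hU : IsOpen U) {d : ℝ} (hd : 0 < d) {H : ℂ → ℂ → ℂ}
    (hH : ∀ om ∈ U, ∀ ζ : ℂ, ‖ζ‖ = d → AnalyticAt ℂ (fun p : ℂ × ℂ => H p.1 p.2) (om, ζ)) :
    DifferentiableOn ℂ (fun om => ∮ ζ in C(0, d), H om ζ) U := by
  have hn : ∀ θ : ℝ, ‖circleMap 0 d θ‖ = d := by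
    intro θ
    rw [norm_circleMap_zero, abs_of_pos hd]
  have hcont : ContinuousOn (fun p : ℂ × ℝ => H p.1 (circleMap 0 d p.2)) (U ×ˢ univ) := by
    rintro ⟨om, θ⟩ ⟨h1, -⟩
    have h2 := (hH om h1 (circleMap 0 d θ) (hn θ)).continuousAt
    have h3 : ContinuousAt (fun p : ℂ × ℝ => (p.1, circleMap 0 d p.2)) (om, θ) := by
      refine continuousAt_fst.prodMk ?_
      exact ((continuous_circleMap 0 d).comp continuous_snd).continuousAt
    exact (ContinuousAt.comp (g := fun p : ℂ × ℂ => H p.1 p.2)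
      (f := fun p : ℂ × ℝ => (p.1, circleMap 0 d p.2)) h2 h3).continuousWithinAt
  have hcd : Continuous (fun θ : ℝ => deriv (circleMap 0 d) θ) := by
    have : (fun θ : ℝ => deriv (circleMap 0 d) θ) = fun θ => circleMap 0 d θ * I := by
      ext θ; rw [deriv_circleMap]
    rw [this]
    exact (continuous_circleMap 0 d).mul continuous_const
  unfold circleIntegral
  refine Pool.Agent.MP_ae5b4e_an_WB.differentiableOn_paramInt hU (by positivity) ?_ ?_ ?_
  · intro θ _ om hom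
    have h1 := (hH om hom (circleMap 0 d θ) (hn θ)).differentiableAt
    have h2 : DifferentiableAt ℂ (fun o : ℂ => H o (circleMap 0 d θ)) om :=
      DifferentiableAt.comp (g := fun p : ℂ × ℂ => H p.1 p.2)
        (f := fun o : ℂ => (o, circleMap 0 d θ)) om h1 (by fun_prop)
    exact (h2.fun_const_smul (deriv (circleMap 0 d) θ)).differentiableWithinAt
  · intro om hom
    refine ContinuousOn.smul hcd.continuousOn ?_
    exact hcont.comp (f := fun θ : ℝ => (om, θ)) (by fun_prop) fun θ _ => ⟨hom, mem_univ _⟩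
  · intro om hom
    obtain ⟨ε, hε, hεU⟩ := nhds_basis_closedBall.mem_iff.1 (hU.mem_nhds hom)
    have hK : IsCompact (closedBall om ε ×ˢ Icc (0 : ℝ) (2 * Real.pi)) :=
      (isCompact_closedBall _ _).prod isCompact_Icc
    have hc2 : ContinuousOn (fun p : ℂ × ℝ => deriv (circleMap 0 d) p.2 •
        H p.1 (circleMap 0 d p.2)) (closedBall om ε ×ˢ Icc (0 : ℝ) (2 * Real.pi)) := by
      refine ContinuousOn.smul (hcd.comp continuous_snd).continuousOn ?_
      exact hcont.mono (prod_mono hεU (subset_univ _))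
    obtain ⟨C, hC⟩ := hK.exists_bound_of_continuousOn hc2
    refine ⟨C, ?_⟩
    filter_upwards [closedBall_mem_nhds om hε] with o ho θ hθ
    exact hC (o, θ) ⟨ho, hθ.1.le, hθ.2.le⟩

theorem rr_core {B : Bg} {u : Fin 3 → ℂ → ℂ} {rq ry w : ℝ} (hry0 : 0 < ry)
    (hw : w ≤ B.r) (hry : ry ≤ B.rho)
    (hu : ∀ i, ∀ q : ℂ, q ≠ 0 → ‖q‖ < rq → AnalyticAt ℂ (u i) q)
    (hs : ∀ om z : ℂ, ‖om‖ < w → ‖z‖ < ry → ‖B.N om z‖ < rq)
    (hrel : ∀ om : ℝ, 0 < om → om < w → ∃ e > 0, ∃ R : ℂ → ℂ, AnalyticOnNhd ℂ R (ball 0 e) ∧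
      ∀ z ∈ ball (0 : ℂ) e, z.im < 0 → R z = B.V u om (z - om / 2) + B.V u om (z + om / 2)) :
    ∀ (om z : ℂ) (d : ℝ), z ≠ 0 → ‖z‖ < d → d < ‖om‖ → ‖om‖ < min w (ry / 2) →
      B.V u om (z - om / 2) + B.V u om (z + om / 2) =
        (2 * Real.pi * I)⁻¹ • ∮ ζ in C(0, d), (ζ - z)⁻¹ •
          (B.V u om (ζ - om / 2) + B.V u om (ζ + om / 2)) := by
  -- analyticity of the two summands
  have key : ∀ om ζ : ℂ, ‖om‖ < min w (ry / 2) → ζ ≠ 0 → ‖ζ‖ < ‖om‖ →
      AnalyticAt ℂ (fun p : ℂ × ℂ => B.V u p.1 (p.2 - p.1 / 2) + B.V u p.1 (p.2 + p.1 / 2))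
        (om, ζ) := by
    intro om ζ h1 h2 h3
    have h1w : ‖om‖ < w := lt_of_lt_of_le h1 (min_le_left _ _)
    have h1y : ‖om‖ < ry / 2 := lt_of_lt_of_le h1 (min_le_right _ _)
    have hr : ‖om‖ < B.r := lt_of_lt_of_le h1w hw
    have ho2 : ‖om / 2‖ = ‖om‖ / 2 := by rw [norm_div, Complex.norm_ofNat]
    have hm : ‖ζ - om / 2‖ < ry := by
      have := norm_sub_le ζ (om / 2)
      rw [ho2] at this
      linarith [norm_nonneg om]
    have hp : ‖ζ + om / 2‖ < ry := by
      have := norm_add_le ζ (om / 2)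
      rw [ho2] at this
      linarith [norm_nonneg om]
    have hNm : B.N om (ζ - om / 2) ≠ 0 := by
      intro h
      rcases B.rr_N_zero hr (lt_of_lt_of_le hm hry) h with h4 | h4
      · have : ζ = om := by linear_combination h4
        rw [this] at h3
        exact lt_irrefl _ h3
      · exact h2 (by linear_combination h4)
    have hNp : B.N om (ζ + om / 2) ≠ 0 := by
      intro h
      rcases B.rr_N_zero hr (lt_of_lt_of_le hp hry) h with h4 | h4
      · exact h2 (by linear_combination h4)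
      · have : ζ = -om := by linear_combination h4
        rw [this, norm_neg] at h3
        exact lt_irrefl _ h3
    have a1 := B.rr_V_an hu hr (lt_of_lt_of_le hm hry) hNm (hs _ _ h1w hm)
    have a2 := B.rr_V_an hu hr (lt_of_lt_of_le hp hry) hNp (hs _ _ h1w hp)
    refine AnalyticAt.add ?_ ?_
    · refine AnalyticAt.fun_comp (g := fun p : ℂ × ℂ => B.V u p.1 p.2)
        (f := fun p : ℂ × ℂ => (p.1, p.2 - p.1 / 2)) a1 ?_
      exact analyticAt_fst.prod (analyticAt_snd.sub analyticAt_fst.div_const)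
    · refine AnalyticAt.fun_comp (g := fun p : ℂ × ℂ => B.V u p.1 p.2)
        (f := fun p : ℂ × ℂ => (p.1, p.2 + p.1 / 2)) a2 ?_
      exact analyticAt_fst.prod (analyticAt_snd.add analyticAt_fst.div_const)
  -- real values of `om`
  have hreal : ∀ (om : ℝ) (z : ℂ) (d : ℝ), z ≠ 0 → ‖z‖ < d → d < om → om < min w (ry / 2) →
      B.V u om (z - om / 2) + B.V u om (z + om / 2) =
        (2 * Real.pi * I)⁻¹ • ∮ ζ in C(0, d), (ζ - z)⁻¹ •
          (B.V u om (ζ - om / 2) + B.V u om (ζ + om / 2)) := by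
    intro om z d hz0 hzd hd hom
    have hd0 : 0 < d := lt_of_le_of_lt (norm_nonneg z) hzd
    have hom0 : 0 < om := hd0.trans hd
    have homn : ‖(om : ℂ)‖ = om := by rw [Complex.norm_real, Real.norm_eq_abs, abs_of_pos hom0]
    obtain ⟨e, he, R, hR, hRe⟩ := hrel om hom0 (lt_of_lt_of_le hom (min_le_left _ _))
    have hga : ∀ ζ : ℂ, ζ ≠ 0 → ‖ζ‖ < om → AnalyticAt ℂ
        (fun ζ => B.V u om (ζ - om / 2) + B.V u om (ζ + om / 2)) ζ := by
      intro ζ h1 h2
      have h3 := key om ζ (by rwa [homn]) h1 (by rwa [homn])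
      exact AnalyticAt.fun_comp (g := fun p : ℂ × ℂ => B.V u p.1 (p.2 - p.1 / 2) +
        B.V u p.1 (p.2 + p.1 / 2)) (f := fun ζ : ℂ => ((om : ℂ), ζ)) h3
        (analyticAt_const.prod analyticAt_id)
    set e' : ℝ := min e om with he'
    have he'0 : 0 < e' := lt_min he hom0
    -- the identity with `R` on the punctured disc
    have hEq : EqOn (fun ζ => B.V u om (ζ - om / 2) + B.V u om (ζ + om / 2)) R
        {z : ℂ | z ≠ 0 ∧ ‖z‖ < e'} := by
      have hp0 : (-(I * (e' / 2 : ℝ)) : ℂ) ∈ {z : ℂ | z ≠ 0 ∧ ‖z‖ < e'} := by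
        constructor
        · simp only [ne_eq, neg_eq_zero, mul_eq_zero, I_ne_zero, false_or]
          norm_cast
          linarith
        · rw [norm_neg, norm_mul, norm_I, one_mul, Complex.norm_real, Real.norm_eq_abs,
            abs_of_pos (by linarith)]
          linarith
      have hA1 : AnalyticOnNhd ℂ (fun ζ => B.V u om (ζ - om / 2) + B.V u om (ζ + om / 2))
          {z : ℂ | z ≠ 0 ∧ ‖z‖ < e'} := by
        rintro ζ ⟨h1, h2⟩
        exact hga ζ h1 (lt_of_lt_of_le h2 (min_le_right _ _))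
      have hA2 : AnalyticOnNhd ℂ R {z : ℂ | z ≠ 0 ∧ ‖z‖ < e'} := by
        rintro ζ ⟨h1, h2⟩
        exact hR ζ (by simpa using lt_of_lt_of_le h2 (min_le_left _ _))
      refine hA1.eqOn_of_preconnected_of_eventuallyEq hA2 (rr_pre_punct he'0) hp0 ?_
      · have h3 : ∀ᶠ ζ : ℂ in 𝓝 (-(I * (e' / 2 : ℝ)) : ℂ), ζ.im < 0 := by
          refine (Complex.continuous_im.continuousAt).eventually_lt_const ?_
          simp only [neg_im, mul_im, I_re, ofReal_im, mul_zero, I_im, ofReal_re, one_mul, zero_add]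
          linarith
        have h4 : ∀ᶠ ζ : ℂ in 𝓝 (-(I * (e' / 2 : ℝ)) : ℂ), ‖ζ‖ < e' :=
          (continuous_norm.continuousAt).eventually_lt_const hp0.2
        filter_upwards [h3, h4] with ζ h5 h6
        exact (hRe ζ (by simpa using lt_of_lt_of_le h6 (min_le_left _ _)) h5).symm
    exact rr_cauchy (g := fun ζ => B.V u om (ζ - om / 2) + B.V u om (ζ + om / 2)) (R := R)
      hd0 hd he'0 (hR 0 (by simpa using he)) hga (fun z h1 h2 => hEq ⟨h1, h2⟩) hz0 hzd
  -- complex values of `om`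
  intro om z d hz0 hzd hd hom
  have hd0 : 0 < d := lt_of_le_of_lt (norm_nonneg z) hzd
  set w' : ℝ := min w (ry / 2) with hw'
  have hdw : d < w' := hd.trans hom
  set U : Set ℂ := {z : ℂ | d < ‖z‖ ∧ ‖z‖ < w'} with hU
  have hUo : IsOpen U :=
    (isOpen_lt continuous_const continuous_norm).inter (isOpen_lt continuous_norm continuous_const)
  have hL : AnalyticOnNhd ℂ (fun o : ℂ => B.V u o (z - o / 2) + B.V u o (z + o / 2)) U := by
    rintro o ⟨h1, h2⟩
    exact AnalyticAt.fun_comp (g := fun p : ℂ × ℂ => B.V u p.1 (p.2 - p.1 / 2) +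
        B.V u p.1 (p.2 + p.1 / 2)) (f := fun o : ℂ => (o, z)) (key o z h2 hz0 (hzd.trans h1))
        (analyticAt_id.prod analyticAt_const)
  have hRt : AnalyticOnNhd ℂ (fun o : ℂ => (2 * Real.pi * I)⁻¹ • ∮ ζ in C(0, d), (ζ - z)⁻¹ •
      (B.V u o (ζ - o / 2) + B.V u o (ζ + o / 2))) U := by
    refine DifferentiableOn.analyticOnNhd ?_ hUo
    refine DifferentiableOn.fun_const_smul ?_ _
    refine rr_param (H := fun o ζ => (ζ - z)⁻¹ •
      (B.V u o (ζ - o / 2) + B.V u o (ζ + o / 2))) hUo hd0 ?_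
    rintro o ⟨h1, h2⟩ ζ hζ
    have hζ0 : ζ ≠ 0 := by
      intro h
      rw [h, norm_zero] at hζ
      linarith
    have hζz : ζ - z ≠ 0 := by
      intro h
      rw [sub_eq_zero] at h
      rw [h] at hζ
      linarith
    have h3 := key o ζ h2 hζ0 (by rw [hζ]; exact h1)
    have h4 : AnalyticAt ℂ (fun p : ℂ × ℂ => (p.2 - z)⁻¹) (o, ζ) :=
      (analyticAt_snd.sub analyticAt_const).inv hζz
    exact h4.smul h3
  have hmid : (((d + w') / 2 : ℝ) : ℂ) ∈ U := by
    have h1 : ‖(((d + w') / 2 : ℝ) : ℂ)‖ = (d + w') / 2 := by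
      rw [Complex.norm_real, Real.norm_eq_abs, abs_of_pos (by linarith)]
    constructor
    · rw [h1]; linarith
    · rw [h1]; linarith
  refine hL.eqOn_of_preconnected_of_frequently_eq hRt (rr_pre_ann hd0 hdw) hmid ?_ ⟨hd, hom⟩
  -- the real points accumulate
  have hseq : Tendsto (fun n : ℕ => ((((d + w') / 2 + (w' - d) / 4 / (n + 1 : ℝ)) : ℝ) : ℂ)) atTop
      (𝓝[≠] (((d + w') / 2 : ℝ) : ℂ)) := by
    refine tendsto_nhdsWithin_iff.2 ⟨?_, Eventually.of_forall fun n => ?_⟩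
    · refine (Complex.continuous_ofReal.tendsto _).comp ?_
      have h1 : Tendsto (fun n : ℕ => (w' - d) / 4 / (n + 1 : ℝ)) atTop (𝓝 0) :=
        tendsto_const_nhds.div_atTop
          (tendsto_atTop_add_const_right _ _ tendsto_natCast_atTop_atTop)
      simpa using h1.const_add ((d + w') / 2)
    · simp only [mem_compl_iff, mem_singleton_iff]
      intro h
      have h2 := Complex.ofReal_injective h
      have h3 : 0 < (w' - d) / 4 / (n + 1 : ℝ) := by
        have : 0 < w' - d := by linarith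
        positivity
      linarith
  refine hseq.frequently (Eventually.of_forall fun n => ?_).frequently
  have h3 : 0 < (w' - d) / 4 / (n + 1 : ℝ) := by
    have : 0 < w' - d := by linarith
    positivity
  have h4 : (w' - d) / 4 / (n + 1 : ℝ) ≤ (w' - d) / 4 := by
    apply div_le_self (by linarith)
    have : (0 : ℝ) ≤ n := Nat.cast_nonneg n
    linarith
  exact hreal _ z d hz0 hzd (by linarith) (by linarith)

/-- LT-13 -/
theorem rr_stmt (B : Bg) : RRStmt B := by
  intro f u n rq ry w H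
  refine ⟨min w (ry / 2), lt_min H.w_pos (by linarith [H.ry_pos]), min_le_left _ _, ?_⟩
  intro om z d1 _ hom hz hzd hd
  have h := rr_core (B := B) (u := u) (rq := rq) H.ry_pos H.w_le H.ry_le H.an H.small
    (fun o h1 h2 => by
      obtain ⟨e, he, R, hR, hRe⟩ := H.rr o h1 h2
      refine ⟨e, he, R, hR, fun z hz him => hRe z ?_ (by simpa using hz)⟩
      rintro rfl
      simp at him) om z d1 hz hzd hd hom
  rw [h, smul_eq_mul]
  congr 1
  refine circleIntegral.integral_congr (lt_of_le_of_lt (norm_nonneg z) hzd).le fun ζ _ => ?_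
  exact (div_eq_inv_mul _ _).symm

/-- LT-13, the form of `LDef` -/
theorem Rel.toRRel {B : Bg} {u : Fin 3 → ℂ → ℂ} {rq : ℝ} (H : Rel B u rq) : RRel B u rq := by
  obtain ⟨w2, hw2, hrel⟩ := H.rel
  have han : ∀ i, ∀ q : ℂ, q ≠ 0 → ‖q‖ < rq → AnalyticAt ℂ (u i) q := fun i q h1 h2 =>
    H.an i q ⟨by simpa using h2, by simpa using h1⟩
  obtain ⟨C, hC, hN⟩ := B.napp
  -- `N` is small
  have hsm : ∃ c > 0, ∀ om z : ℂ, ‖om‖ < c → ‖z‖ < c → ‖B.N om z‖ < rq := by
    have h0 : B.N 0 0 = 0 := by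
      have h1 := hN 0 0 (by simpa using B.r_pos) (by simpa using B.rho_pos)
      have h2 : ‖B.N 0 0‖ ≤ 0 := by simpa using h1
      exact norm_le_zero_iff.1 h2
    have h1 := (B.rr_N_an (om := 0) (z := 0) (by simpa using B.r_pos)
      (by simpa using B.rho_pos)).continuousAt
    have h2 : ∀ᶠ p : ℂ × ℂ in 𝓝 ((0 : ℂ), (0 : ℂ)), ‖B.N p.1 p.2‖ < rq := by
      refine h1.norm.eventually_lt_const ?_
      simpa [h0] using H.rq_pos
    obtain ⟨c, hc, hcb⟩ := Metric.eventually_nhds_iff.1 h2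
    refine ⟨c, hc, fun om z h3 h4 => hcb (y := (om, z)) ?_⟩
    rw [Prod.dist_eq, dist_zero_right, dist_zero_right]
    exact max_lt h3 h4
  obtain ⟨c, hc, hcb⟩ := hsm
  set w : ℝ := min w2 (min c B.r) with hw
  set ry : ℝ := min c B.rho with hry
  have hw0 : 0 < w := lt_min hw2 (lt_min hc B.r_pos)
  have hry0 : 0 < ry := lt_min hc B.rho_pos
  refine ⟨H.rq_pos, H.an, min w (ry / 2), lt_min hw0 (by linarith), ?_⟩
  intro om z d hz hzd hd hom
  refine rr_core (B := B) (u := u) (rq := rq) hry0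
    ((min_le_right _ _).trans (min_le_right _ _)) (min_le_right _ _) han ?_ ?_ om z d
    (norm_pos_iff.1 hz) hzd hd hom
  · intro om z h1 h2
    exact hcb om z (lt_of_lt_of_le h1 ((min_le_right _ _).trans (min_le_left _ _)))
      (lt_of_lt_of_le h2 (min_le_left _ _))
  · intro o h1 h2
    exact hrel o h1 (lt_of_lt_of_le h2 (min_le_left _ _))

end Pool.Agent.MP_ae5b4e_an_LOC
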