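import Mathlib

/-!
# LOC, LT-3 [DIV]: division by `sin (π m om)`
-/

set_option autoImplicit false

namespace Pool.Agent.MP_ae5b4e_an_LOC

open Set Metric Complex Filter Topology

/-- `|sin π (x + i y)| ^ 2 = sin² π x + sinh² π y` -/
theorem div_normSq_sin (z : ℂ) :
    ‖Complex.sin z‖ ^ 2 = Real.sin z.re ^ 2 + Real.sinh z.im ^ 2 := by
  rw [← Complex.normSq_eq_norm_sq, Complex.normSq_apply]
  have h1 := Complex.sin_eq z
  have h2 : Complex.sin z = (Real.sin z.re * Real.cosh z.im : ℝ) +
      (Real.cos z.re * Real.sinh z.im : ℝ) * I := by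
    rw [h1]
    push_cast
    ring
  have hre : (Complex.sin z).re = Real.sin z.re * Real.cosh z.im := by
    rw [h2]
    simp only [Complex.add_re, Complex.mul_re, Complex.ofReal_re, Complex.ofReal_im, Complex.I_re,
      Complex.I_im]
    ring
  have him : (Complex.sin z).im = Real.cos z.re * Real.sinh z.im := by
    rw [h2]
    simp only [Complex.add_im, Complex.mul_im, Complex.ofReal_re, Complex.ofReal_im, Complex.I_re,
      Complex.I_im]
    ring
  rw [hre, him]
  have h3 := Real.cosh_sq z.im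
  have h4 := Real.sin_sq_add_cos_sq z.re
  have h5 : Real.cos z.re ^ 2 = 1 - Real.sin z.re ^ 2 := by linarith
  calc Real.sin z.re * Real.cosh z.im * (Real.sin z.re * Real.cosh z.im) +
      Real.cos z.re * Real.sinh z.im * (Real.cos z.re * Real.sinh z.im) =
      Real.sin z.re ^ 2 * Real.cosh z.im ^ 2 + Real.cos z.re ^ 2 * Real.sinh z.im ^ 2 := by ring
    _ = Real.sin z.re ^ 2 + Real.sinh z.im ^ 2 := by
      rw [h3, h5]
      ring

private theorem Div_sin_real {x : ℝ} (hx : |x| ≤ 1 / 2) : 4 * x ^ 2 ≤ Real.sin (Real.pi * x) ^ 2 := by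
  have h0 : ∀ y : ℝ, 0 ≤ y → y ≤ 1 / 2 → 2 * y ≤ Real.sin (Real.pi * y) := by
    intro y hy hy'
    have hpi := Real.pi_pos
    have h1 := Real.mul_le_sin (x := Real.pi * y) (by positivity) (by nlinarith)
    have h2 : 2 / Real.pi * (Real.pi * y) = 2 * y := by field_simp
    linarith
  rw [abs_le] at hx
  rcases le_total 0 x with h | h
  · have h1 := h0 x h hx.2
    nlinarith
  · have h1 := h0 (-x) (by linarith) (by linarith)
    rw [mul_neg Real.pi, Real.sin_neg] at h1
    nlinarith

private theorem Div_sinh_real (y : ℝ) : 4 * y ^ 2 ≤ Real.sinh (Real.pi * y) ^ 2 := by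
  have hpi := Real.pi_gt_three
  have h0 : ∀ y : ℝ, 0 ≤ y → 2 * y ≤ Real.sinh (Real.pi * y) := by
    intro y hy
    have h1 : Real.pi * y ≤ Real.sinh (Real.pi * y) := Real.self_le_sinh_iff.2 (by positivity)
    nlinarith
  rcases le_total 0 y with h | h
  · have h1 := h0 y h
    nlinarith
  · have h1 := h0 (-y) (by linarith)
    rw [mul_neg Real.pi, Real.sinh_neg] at h1
    nlinarith

private theorem Div_sin_shift (z : ℂ) (p : ℤ) :
    ‖Complex.sin (Real.pi * (z - p))‖ = ‖Complex.sin (Real.pi * z)‖ := by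
  have h1 : Complex.sin (Real.pi * (z - p)) = (-1) ^ p * Complex.sin (Real.pi * z) := by
    rw [mul_sub, mul_comm (Real.pi : ℂ) (p : ℂ)]
    exact p.cast_negOnePow ℂ ▸ Complex.sin_antiperiodic.sub_int_mul_eq p
  rw [h1, norm_mul, norm_zpow, norm_neg, norm_one, one_zpow, one_mul]

/-- `|sin π z| ≥ 2 |z|` for `|Re z| ≤ 1 / 2` -/
theorem div_sin_lower {z : ℂ} (hz : |z.re| ≤ 1 / 2) : 2 * ‖z‖ ≤ ‖Complex.sin (Real.pi * z)‖ := by
  have h1 := div_normSq_sin (Real.pi * z)
  have hre : ((Real.pi : ℂ) * z).re = Real.pi * z.re := by simp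
  have him : ((Real.pi : ℂ) * z).im = Real.pi * z.im := by simp
  rw [hre, him] at h1
  have h2 := Div_sin_real hz
  have h3 := Div_sinh_real z.im
  have h4 : ‖z‖ ^ 2 = z.re ^ 2 + z.im ^ 2 := by
    rw [← Complex.normSq_eq_norm_sq, Complex.normSq_apply]
    ring
  have h5 : (2 * ‖z‖) ^ 2 ≤ ‖Complex.sin (Real.pi * z)‖ ^ 2 := by
    rw [h1, mul_pow, h4]
    linarith
  exact (abs_le_of_sq_le_sq' h5 (norm_nonneg _)).2

/-- `|sin π z| ≥ 1` on the circles of radius `1 / 2` about the integers -/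
theorem div_sin_circle {z : ℂ} {p : ℤ} (hz : ‖z - p‖ = 1 / 2) :
    1 ≤ ‖Complex.sin (Real.pi * z)‖ := by
  rw [← Div_sin_shift z p]
  have h1 : |(z - p).re| ≤ 1 / 2 := (Complex.abs_re_le_norm _).trans hz.le
  have h2 := div_sin_lower h1
  rw [hz] at h2
  linarith

/-- `|sin π z| ≥ 1` outside of the discs of radius `1 / 2` about the integers -/
theorem div_sin_off {z : ℂ} (hz : ∀ p : ℤ, 1 / 2 ≤ ‖z - p‖) : 1 ≤ ‖Complex.sin (Real.pi * z)‖ := by
  rw [← Div_sin_shift z (round z.re)]
  have h1 : |(z - (round z.re : ℤ)).re| ≤ 1 / 2 := by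
    have h2 := abs_sub_round z.re
    simpa using h2
  have h2 := div_sin_lower h1
  have h3 := hz (round z.re)
  linarith

/-- the zeros of `sin (π m om)` -/
private theorem Div_zero {m : ℕ} (hm : 1 ≤ m) {z : ℂ}
    (hz : Complex.sin (Real.pi * m * z) = 0) : ∃ p : ℤ, z = p / m := by
  obtain ⟨p, hp⟩ := Complex.sin_eq_zero_iff.1 hz
  refine ⟨p, ?_⟩
  have hm' : (m : ℂ) ≠ 0 := Nat.cast_ne_zero.2 (by omega)
  have hpi : (Real.pi : ℂ) ≠ 0 := Complex.ofReal_ne_zero.2 Real.pi_ne_zero
  rw [eq_div_iff hm']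
  apply mul_left_cancel₀ hpi
  linear_combination hp

theorem div_sin {m : ℕ} (hm : 1 ≤ m) {r : ℝ} (_ : 0 < r) {c : ℂ → ℂ}
    (hc : DifferentiableOn ℂ c (ball 0 r))
    (h0 : ∀ p : ℤ, p ≠ 0 → |(p : ℝ)| < r * m → c (p / m) = 0) :
    ∃ G : ℂ → ℂ, DifferentiableOn ℂ G (ball 0 r) ∧
      (∀ om ∈ ball (0 : ℂ) r, -2 * I * Complex.sin (Real.pi * m * om) * G om = om * c om) ∧
      ∀ (om : ℂ) (B : ℝ), ‖om‖ + 1 / m < r →
        (∀ w : ℂ, ‖w - om‖ ≤ 1 / m → ‖w * c w‖ ≤ B) → ‖G om‖ ≤ B / 2 := by
  classical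
  have hm0 : (0 : ℝ) < m := Nat.cast_pos.2 hm
  have hmC : (m : ℂ) ≠ 0 := Nat.cast_ne_zero.2 (by omega)
  have hpiC : (Real.pi : ℂ) ≠ 0 := Complex.ofReal_ne_zero.2 Real.pi_ne_zero
  let f : ℂ → ℂ := fun om => om * c om
  let s : ℂ → ℂ := fun om => -2 * I * Complex.sin (Real.pi * m * om)
  have hf : DifferentiableOn ℂ f (ball 0 r) := differentiableOn_id.mul hc
  have hs : Differentiable ℂ s := by
    intro z
    simp only [s]
    fun_prop
  have hsd : ∀ z, HasDerivAt s (-2 * I * (Complex.cos (Real.pi * m * z) * (Real.pi * m))) z := by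
    intro z
    have h1 : HasDerivAt (fun om : ℂ => Real.pi * m * om) (Real.pi * m) z := by
      simpa using (hasDerivAt_id z).const_mul ((Real.pi : ℂ) * m)
    exact (h1.csin).const_mul _
  have hs2 : ∀ z, s z = 0 ↔ Complex.sin (Real.pi * m * z) = 0 := by
    intro z
    simp only [s, mul_eq_zero, neg_eq_zero, OfNat.ofNat_ne_zero, I_ne_zero, false_or]
  have hfz : ∀ z ∈ ball (0 : ℂ) r, s z = 0 → f z = 0 := by
    intro z hz hsz
    obtain ⟨p, rfl⟩ := Div_zero hm ((hs2 z).1 hsz)
    simp only [f]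
    by_cases hp : p = 0
    · subst hp
      simp
    · rw [h0 p hp, mul_zero]
      rw [mem_ball_zero_iff, norm_div, Complex.norm_intCast, Complex.norm_natCast,
        div_lt_iff₀ hm0] at hz
      exact hz
  have hsz' : ∀ z, s z = 0 → deriv s z ≠ 0 := by
    intro z hz h1
    rw [(hsd z).deriv] at h1
    have h2 : Complex.cos (Real.pi * m * z) = 0 := by
      have h3 : (-2 * I * (Complex.cos (Real.pi * m * z) * (Real.pi * m)) : ℂ) = 0 := h1
      simp only [mul_eq_zero, neg_eq_zero, OfNat.ofNat_ne_zero, I_ne_zero, false_or, hpiC, hmC,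
        or_false] at h3
      exact h3
    have h4 := Complex.sin_sq_add_cos_sq (Real.pi * m * z)
    rw [(hs2 z).1 hz, h2] at h4
    norm_num at h4
  let G : ℂ → ℂ := fun z => if s z = 0 then deriv f z / deriv s z else f z / s z
  have hGs : ∀ z, s z ≠ 0 → G z = f z / s z := fun z hz => if_neg hz
  have hG : DifferentiableOn ℂ G (ball 0 r) := by
    intro z hz
    apply DifferentiableAt.differentiableWithinAt
    by_cases hsz : s z = 0
    · have h1 : DifferentiableAt ℂ (dslope f z) z := by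
        have h2 : DifferentiableOn ℂ (dslope f z) (ball 0 r) :=
          (Complex.differentiableOn_dslope (isOpen_ball.mem_nhds hz)).2 hf
        exact h2.differentiableAt (isOpen_ball.mem_nhds hz)
      have h2 : DifferentiableAt ℂ (dslope s z) z := by
        have h3 : DifferentiableOn ℂ (dslope s z) univ :=
          (Complex.differentiableOn_dslope univ_mem).2 hs.differentiableOn
        exact h3.differentiableAt univ_mem
      have h3 : dslope s z z ≠ 0 := by
        rw [dslope_same]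
        exact hsz' z hsz
      refine (h1.div h2 h3).congr_of_eventuallyEq ?_
      have h4 : ∀ᶠ w in 𝓝 z, dslope s z w ≠ 0 := h2.continuousAt.eventually_ne h3
      filter_upwards [h4] with w hw
      by_cases hwz : w = z
      · subst hwz
        rw [Pi.div_apply, dslope_same, dslope_same]
        exact if_pos hsz
      · rw [Pi.div_apply, dslope_of_ne _ hwz, dslope_of_ne _ hwz, slope_def_field,
          slope_def_field, hsz, hfz z hz hsz, sub_zero, sub_zero]
        have h5 : s w ≠ 0 := by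
          intro h6
          apply hw
          rw [dslope_of_ne _ hwz, slope_def_field, hsz, h6, sub_self, zero_div]
        rw [hGs w h5]
        have h7 : w - z ≠ 0 := sub_ne_zero.2 hwz
        field_simp
    · have h1 : DifferentiableAt ℂ f z := hf.differentiableAt (isOpen_ball.mem_nhds hz)
      refine (h1.div (hs z) hsz).congr_of_eventuallyEq ?_
      filter_upwards [(hs z).continuousAt.eventually_ne hsz] with w hw
      exact hGs w hw
  have hGm : ∀ om ∈ ball (0 : ℂ) r, s om * G om = f om := by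
    intro om hom
    by_cases hsz : s om = 0
    · rw [hsz, zero_mul, hfz om hom hsz]
    · rw [hGs om hsz]
      field_simp
  refine ⟨G, hG, hGm, ?_⟩
  intro om B hom hB
  -- the bound where the sine is large
  have hbig : ∀ w : ℂ, ‖w - om‖ ≤ 1 / m → 1 ≤ ‖Complex.sin (Real.pi * (m * w))‖ →
      ‖G w‖ ≤ B / 2 := by
    intro w hw h1
    have h2 : (2 : ℝ) ≤ ‖s w‖ := by
      simp only [s, norm_mul, norm_neg, Complex.norm_ofNat, Complex.norm_I, mul_one]
      rw [mul_assoc (Real.pi : ℂ)]
      linarith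
    have h3 : s w ≠ 0 := by
      intro h4
      rw [h4, norm_zero] at h2
      linarith
    rw [hGs w h3, norm_div]
    have h5 := hB w hw
    have h6 : 0 ≤ B := (norm_nonneg _).trans h5
    change ‖w * c w‖ / ‖s w‖ ≤ B / 2
    exact div_le_div₀ h6 h5 (by norm_num) h2
  by_cases hcase : ∀ p : ℤ, 1 / 2 ≤ ‖(m : ℂ) * om - p‖
  · refine hbig om ?_ (div_sin_off hcase)
    rw [sub_self, norm_zero]
    positivity
  · push Not at hcase
    obtain ⟨p, hp⟩ := hcase
    -- maximum principle on the disc about `p / m`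
    have hdist : ∀ w : ℂ, ‖w - p / m‖ = ‖(m : ℂ) * w - p‖ / m := by
      intro w
      have h1 : w - p / m = ((m : ℂ) * w - p) / m := by field_simp
      rw [h1, norm_div, Complex.norm_natCast]
    have hle : ∀ w ∈ closedBall ((p : ℂ) / m) (1 / (2 * m)), ‖w - om‖ ≤ 1 / m := by
      intro w hw
      rw [mem_closedBall, dist_eq_norm] at hw
      have h1 : ‖om - p / m‖ ≤ 1 / (2 * m) := by
        rw [hdist om, div_le_div_iff₀ hm0 (by positivity)]
        nlinarith
      calc ‖w - om‖ = ‖(w - p / m) - (om - p / m)‖ := by rw [sub_sub_sub_cancel_right]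
        _ ≤ ‖w - p / m‖ + ‖om - p / m‖ := norm_sub_le _ _
        _ ≤ 1 / (2 * m) + 1 / (2 * m) := add_le_add hw h1
        _ = 1 / m := by
          field_simp
          norm_num
    have hsub : closedBall ((p : ℂ) / m) (1 / (2 * m)) ⊆ ball 0 r := by
      intro w hw
      rw [mem_ball_zero_iff]
      calc ‖w‖ = ‖om + (w - om)‖ := by rw [add_sub_cancel]
        _ ≤ ‖om‖ + ‖w - om‖ := norm_add_le _ _
        _ ≤ ‖om‖ + 1 / m := by linarith [hle w hw]
        _ < r := hom
    have hrad : (1 / (2 * m) : ℝ) ≠ 0 := by positivity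
    have hd : DiffContOnCl ℂ G (ball ((p : ℂ) / m) (1 / (2 * m))) := by
      refine DifferentiableOn.diffContOnCl ?_
      rw [closure_ball _ hrad]
      exact hG.mono hsub
    refine Complex.norm_le_of_forall_mem_frontier_norm_le isBounded_ball hd ?_ ?_
    · intro w hw
      rw [frontier_ball _ hrad, mem_sphere, dist_eq_norm] at hw
      refine hbig w (hle w ?_) ?_
      · rw [mem_closedBall, dist_eq_norm]
        exact hw.le
      · apply div_sin_circle (p := p)
        rw [hdist w, div_eq_iff hm0.ne'] at hw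
        rw [hw]
        field_simp
    · rw [closure_ball _ hrad, mem_closedBall, dist_eq_norm, hdist om,
        div_le_div_iff₀ hm0 (by positivity)]
      nlinarith

end Pool.Agent.MP_ae5b4e_an_LOC
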