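import Pool.Agent.Lib.MP_ae5b4e_an_LOC.LTS
import Pool.Agent.Lib.MP_ae5b4e_an_LOC.Inv
import Pool.Agent.Lib.MP_ae5b4e_an_LOC.Div

/-!
# LOC: `InvStmt` (LT-1) and `DivStmt` (LT-3)
-/

set_option autoImplicit false

namespace Pool.Agent.MP_ae5b4e_an_LOC

open Set Metric Complex ComplexConjugate Filter Topology

theorem inv_of_XInv {B : Bg} {X : ℂ → ℂ → ℂ} (h : XInv B X) : InvD B X where
  an := h.an
  close := h.close
  right := h.ph_X
  left := h.X_ph
  per := h.one
  zero := h.zero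
  real := by
    intro om φ hom
    have h1 : ‖(om : ℂ)‖ < B.r := by rwa [Complex.norm_real]
    have h2 : |(φ : ℂ).im| < B.h - 3 * B.K * ‖(om : ℂ)‖ := by
      rw [Complex.ofReal_im, abs_zero, sub_pos]
      have h3 := B.K_r_le
      have h4 := B.rho_le_h
      have h5 := B.one_le_K
      have h6 : B.K * ‖(om : ℂ)‖ ≤ B.K * B.r :=
        mul_le_mul_of_nonneg_left h1.le (zero_le_one.trans h5)
      have h7 := B.rho_pos
      linarith
    have h3 := h.X_conj (om : ℂ) (φ : ℂ) h1 h2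
    rw [Complex.conj_ofReal, Complex.conj_ofReal] at h3
    exact Complex.conj_eq_iff_im.1 h3.symm
  inj := fun om x x' h1 h2 h3 h4 => B.ph_inj h1 h2 h3 h4

/-- LT-1 -/
theorem inv_stmt (B : Bg) : InvStmt B := by
  obtain ⟨X, hX⟩ := exists_XInv B
  exact ⟨X, inv_of_XInv hX⟩

/-- LT-3 -/
theorem div_stmt : DivStmt := by
  intro m r c hm hr hc h0
  obtain ⟨G, hG, hG1, hG2⟩ := div_sin hm hr hc.differentiableOn h0
  exact ⟨G, hG.analyticOnNhd isOpen_ball, hG1, hG2⟩

end Pool.Agent.MP_ae5b4e_an_LOC
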