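import Mathlib
import Pool.Agent.Lib.MP_ae5b4e_an_LOC.LDef
import Pool.Agent.Lib.MP_ae5b4e_an_LOC.InvG

/-!
# LOC, LT-9: the inverse of the local coordinate

`exists_TInv`: the inverse `T om` of `s om` near `0`, for small `om`.  `exists_Sgn`: the sign facts
for real `om` (`s om` is real exactly on the real axis, imaginary on the imaginary axis, and keeps
the four quadrants).
-/

set_option autoImplicit false

namespace Pool.Agent.MP_ae5b4e_an_LOC

open Set Metric Complex ComplexConjugate Filter Topology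

namespace Bg

variable (B : Bg)

theorem K_pos : 0 < B.K := lt_of_lt_of_le one_pos B.one_le_K

theorem s_diff {om z : ℂ} (hom : om ∈ ball (0:ℂ) B.r) (hz : z ∈ ball (0:ℂ) B.rho) :
    DifferentiableAt ℂ (B.s om) z := by
  have h1 : AnalyticAt ℂ (fun p : ℂ × ℂ => B.s p.1 p.2) (om, z) := B.s_an _ ⟨hom, hz⟩
  have h2 : AnalyticAt ℂ (fun z : ℂ => ((om, z) : ℂ × ℂ)) z :=
    AnalyticAt.prod analyticAt_const analyticAt_id
  exact (AnalyticAt.comp (f := fun z : ℂ => ((om, z) : ℂ × ℂ)) (x := z) h1 h2).differentiableAt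

theorem s_zero {om : ℂ} (hom : om ∈ ball (0:ℂ) B.r) : B.s om 0 = 0 := by
  have h := B.s_odd om hom 0 (mem_ball_self B.rho_pos)
  rw [neg_zero] at h
  exact self_eq_neg.mp h

/-- the radius on which `s om` is close to `kap z`: `4 dl <= rho`, `dl <= r`, `64 K dl^2 <= kap` -/
noncomputable def dl : ℝ := min (min (B.rho / 4) B.r) (min 1 (B.kap / (64 * B.K)))

theorem dl_pos : 0 < B.dl := by
  have := B.rho_pos
  have := B.r_pos
  have := B.kap_pos
  have := B.K_pos
  unfold dl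
  positivity

theorem dl_rho : 4 * B.dl ≤ B.rho := by
  have : B.dl ≤ B.rho / 4 := (min_le_left _ _).trans (min_le_left _ _)
  linarith

theorem dl_r : B.dl ≤ B.r := (min_le_left _ _).trans (min_le_right _ _)

theorem dl_K : 64 * (B.K * B.dl ^ 2) ≤ B.kap := by
  have hK := B.K_pos
  have h1 : B.dl ≤ 1 := (min_le_right _ _).trans (min_le_left _ _)
  have h2 : B.dl ≤ B.kap / (64 * B.K) := (min_le_right _ _).trans (min_le_right _ _)
  have h0 := B.dl_pos
  rw [le_div_iff₀ (by positivity)] at h2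
  have h3 : B.K * B.dl ^ 2 ≤ B.K * B.dl := by
    rw [pow_two]
    have := mul_le_mul_of_nonneg_left h1 (mul_pos hK h0).le
    nlinarith
  nlinarith

/-- the derivative of `s om` is close to `kap` -/
theorem s_der {om : ℂ} (hom : ‖om‖ < B.dl) {z : ℂ} (hz : ‖z‖ ≤ B.dl) :
    ‖deriv (fun z => B.s om z - B.kap * z) z‖ ≤ B.kap / 2 := by
  have hK := B.K_pos
  have h0 := B.dl_pos
  have h4 := B.dl_rho
  have hr := B.dl_r
  have hom' : om ∈ ball (0:ℂ) B.r := by simpa using hom.trans_le hr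
  set e : ℂ → ℂ := fun z => B.s om z - B.kap * z with he
  have hdiff : ∀ z ∈ ball (0:ℂ) B.rho, DifferentiableAt ℂ e z := fun z hz =>
    (B.s_diff hom' hz).sub (differentiableAt_id.const_mul _)
  have hsub : closedBall z B.dl ⊆ ball (0:ℂ) B.rho := by
    intro w hw
    rw [mem_closedBall, dist_eq_norm] at hw
    rw [mem_ball_zero_iff]
    have : ‖w‖ ≤ ‖w - z‖ + ‖z‖ := by
      have := norm_add_le (w - z) z
      simpa using this
    linarith
  have hdc : DiffContOnCl ℂ e (ball z B.dl) := by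
    apply DifferentiableOn.diffContOnCl
    rw [closure_ball z h0.ne']
    exact fun w hw => (hdiff w (hsub hw)).differentiableWithinAt
  have hb : ∀ w ∈ sphere z B.dl, ‖e w‖ ≤ B.kap / 2 * B.dl := by
    intro w hw
    have hw' : w ∈ ball (0:ℂ) B.rho := hsub (sphere_subset_closedBall hw)
    rw [mem_sphere, dist_eq_norm] at hw
    have hwn : ‖w‖ ≤ 2 * B.dl := by
      have := norm_add_le (w - z) z
      simp only [sub_add_cancel] at this
      linarith
    have h1 := B.s_close om hom' w hw'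
    have h2 : ‖om‖ + ‖w‖ ≤ 3 * B.dl := by linarith
    have h3 : (‖om‖ + ‖w‖) ^ 2 ≤ (3 * B.dl) ^ 2 := by
      apply pow_le_pow_left₀ (by positivity) h2
    have h4 : B.K * ‖w‖ * (‖om‖ + ‖w‖) ^ 2 ≤ B.K * (2 * B.dl) * (3 * B.dl) ^ 2 := by
      apply mul_le_mul _ h3 (by positivity) (by positivity)
      exact mul_le_mul_of_nonneg_left hwn hK.le
    have h5 := mul_le_mul_of_nonneg_right B.dl_K h0.le
    have h6 : 0 ≤ B.K * B.dl ^ 2 * B.dl := by positivity
    have h7 : B.K * (2 * B.dl) * (3 * B.dl) ^ 2 = 18 * (B.K * B.dl ^ 2 * B.dl) := by ring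
    have h8 : 64 * (B.K * B.dl ^ 2) * B.dl = 64 * (B.K * B.dl ^ 2 * B.dl) := by ring
    calc ‖e w‖ ≤ B.K * ‖w‖ * (‖om‖ + ‖w‖) ^ 2 := h1
      _ ≤ _ := h4
      _ ≤ B.kap / 2 * B.dl := by rw [h7]; nlinarith
  have := norm_deriv_le_of_forall_mem_sphere_norm_le h0 hdc hb
  calc ‖deriv e z‖ ≤ B.kap / 2 * B.dl / B.dl := this
    _ = B.kap / 2 := by field_simp

theorem s_deriv_ne {om : ℂ} (hom : ‖om‖ < B.dl) {z : ℂ} (hz : ‖z‖ ≤ B.dl) :
    deriv (B.s om) z ≠ 0 := by
  have h1 := B.s_der hom hz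
  have h4 := B.dl_rho
  have h0 := B.dl_pos
  have hom' : om ∈ ball (0:ℂ) B.r := by simpa using hom.trans_le B.dl_r
  have hz' : z ∈ ball (0:ℂ) B.rho := by
    rw [mem_ball_zero_iff]
    linarith
  have h2 : deriv (fun z => B.s om z - B.kap * z) z = deriv (B.s om) z - B.kap := by
    have h3 : HasDerivAt (fun z => B.s om z - B.kap * z) (deriv (B.s om) z - B.kap * 1) z :=
      (B.s_diff hom' hz').hasDerivAt.sub ((hasDerivAt_id z).const_mul (B.kap : ℂ))
    rw [h3.deriv, mul_one]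
  rw [h2] at h1
  intro h3
  rw [h3, zero_sub, norm_neg, norm_real, Real.norm_of_nonneg B.kap_pos.le] at h1
  have := B.kap_pos
  linarith

/-- `s om - kap` is Lipschitz with constant `kap / 2` on the small ball -/
theorem s_lip {om : ℂ} (hom : ‖om‖ < B.dl) {x y : ℂ} (hx : ‖x‖ ≤ B.dl) (hy : ‖y‖ ≤ B.dl) :
    ‖B.s om x - B.s om y - B.kap * (x - y)‖ ≤ B.kap / 2 * ‖x - y‖ := by
  have h0 := B.dl_pos
  have h4 := B.dl_rho
  have hom' : om ∈ ball (0:ℂ) B.r := by simpa using hom.trans_le B.dl_r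
  set e : ℂ → ℂ := fun z => B.s om z - B.kap * z with he
  have hdiff : ∀ z ∈ ball (0:ℂ) B.rho, DifferentiableAt ℂ e z := fun z hz =>
    (B.s_diff hom' hz).sub (differentiableAt_id.const_mul _)
  have hsub : closedBall (0:ℂ) B.dl ⊆ ball (0:ℂ) B.rho := closedBall_subset_ball (by linarith)
  have := (convex_closedBall (0:ℂ) B.dl).norm_image_sub_le_of_norm_deriv_le
    (fun z hz => hdiff z (hsub hz))
    (fun z hz => B.s_der hom (mem_closedBall_zero_iff.mp hz)) (mem_closedBall_zero_iff.mpr hy)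
    (mem_closedBall_zero_iff.mpr hx)
  calc ‖B.s om x - B.s om y - B.kap * (x - y)‖ = ‖e x - e y‖ := by
        simp only [he]
        congr 1
        ring
    _ ≤ _ := this

theorem s_norm_le {om : ℂ} (hom : ‖om‖ < B.dl) {x : ℂ} (hx : ‖x‖ ≤ B.dl) :
    ‖B.s om x‖ ≤ 3 / 2 * B.kap * ‖x‖ := by
  have hom' : om ∈ ball (0:ℂ) B.r := by simpa using hom.trans_le B.dl_r
  have h1 := B.s_lip hom hx (y := 0) (by simpa using B.dl_pos.le)
  rw [B.s_zero hom', sub_zero, sub_zero] at h1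
  have h2 : ‖(B.kap : ℂ) * x‖ = B.kap * ‖x‖ := by
    rw [norm_mul, norm_real, Real.norm_of_nonneg B.kap_pos.le]
  have h3 : ‖B.s om x‖ ≤ ‖B.s om x - B.kap * x‖ + ‖(B.kap : ℂ) * x‖ := by
    have := norm_add_le (B.s om x - B.kap * x) (B.kap * x)
    simpa using this
  linarith

theorem le_s_norm {om : ℂ} (hom : ‖om‖ < B.dl) {x : ℂ} (hx : ‖x‖ ≤ B.dl) :
    B.kap / 2 * ‖x‖ ≤ ‖B.s om x‖ := by
  have hom' : om ∈ ball (0:ℂ) B.r := by simpa using hom.trans_le B.dl_r
  have h1 := B.s_lip hom hx (y := 0) (by simpa using B.dl_pos.le)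
  rw [B.s_zero hom', sub_zero, sub_zero] at h1
  have h2 : ‖(B.kap : ℂ) * x‖ = B.kap * ‖x‖ := by
    rw [norm_mul, norm_real, Real.norm_of_nonneg B.kap_pos.le]
  have h3 : ‖(B.kap : ℂ) * x‖ ≤ ‖B.s om x‖ + ‖B.s om x - B.kap * x‖ := by
    have := norm_sub_le (B.s om x) (B.s om x - B.kap * x)
    simpa using this
  linarith

/-- surjectivity on small balls -/
theorem s_surj {om : ℂ} (hom : ‖om‖ < B.dl) {w : ℂ} (hw : ‖w‖ ≤ B.kap / 2 * B.dl) :
    ∃ z : ℂ, ‖z‖ ≤ B.dl ∧ B.s om z = w := by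
  have hk := B.kap_pos
  have h0 := B.dl_pos
  have hom' : om ∈ ball (0:ℂ) B.r := by simpa using hom.trans_le B.dl_r
  -- the map `z ↦ z - (s om z - w) / kap` is a contraction of the closed ball
  have hkne : (B.kap : ℂ) ≠ 0 := by exact_mod_cast hk.ne'
  let g : ℂ → ℂ := fun z => z - (B.s om z - w) / B.kap
  have hg : ∀ x ∈ closedBall (0:ℂ) B.dl, ∀ y ∈ closedBall (0:ℂ) B.dl,
      ‖g x - g y‖ ≤ 1 / 2 * ‖x - y‖ := by
    intro x hx y hy
    have h1 := B.s_lip hom (mem_closedBall_zero_iff.mp hx) (mem_closedBall_zero_iff.mp hy)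
    have h2 : g x - g y = -((B.s om x - B.s om y - B.kap * (x - y)) / B.kap) := by
      simp only [g]
      field_simp
      ring
    rw [h2, norm_neg, norm_div, norm_real, Real.norm_of_nonneg hk.le, div_le_iff₀ hk]
    linarith
  have hmaps : MapsTo g (closedBall (0:ℂ) B.dl) (closedBall (0:ℂ) B.dl) := by
    intro x hx
    have h1 := hg x hx 0 (by simpa using h0.le)
    have h2 : g 0 = w / B.kap := by
      simp only [g]
      rw [B.s_zero hom']
      ring
    rw [mem_closedBall_zero_iff] at hx ⊢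
    rw [sub_zero] at h1
    have h3 : ‖g 0‖ ≤ B.dl / 2 := by
      rw [h2, norm_div, norm_real, Real.norm_of_nonneg hk.le, div_le_iff₀ hk]
      linarith
    have h4 : ‖g x‖ ≤ ‖g x - g 0‖ + ‖g 0‖ := by
      have := norm_add_le (g x - g 0) (g 0)
      simpa using this
    linarith
  have hcomplete : IsComplete (closedBall (0:ℂ) B.dl) := isClosed_closedBall.isComplete
  have hcontr : ContractingWith (1 / 2 : NNReal) (hmaps.restrict g _ _) := by
    refine ⟨by norm_num [← NNReal.coe_lt_coe], ?_⟩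
    apply LipschitzWith.of_dist_le_mul
    rintro ⟨x, hx⟩ ⟨y, hy⟩
    have := hg x hx y hy
    rw [Subtype.dist_eq, Subtype.dist_eq, dist_eq_norm, dist_eq_norm]
    simpa using this
  obtain ⟨z, hz, hfix, -⟩ := hcontr.exists_fixedPoint' hcomplete hmaps
    (x := (0:ℂ)) (by simpa using h0.le) (edist_ne_top _ _)
  refine ⟨z, mem_closedBall_zero_iff.mp hz, ?_⟩
  have h1 : g z = z := hfix
  simp only [g] at h1
  have h2 : (B.s om z - w) / B.kap = 0 := by linear_combination -h1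
  rw [div_eq_zero_iff] at h2
  rcases h2 with h2 | h2
  · exact sub_eq_zero.mp h2
  · exact absurd h2 hkne

end Bg

/-- the inverse of the local coordinate -/
theorem exists_TInv (B : Bg) : Nonempty (TInv B) := by
  classical
  have hk := B.kap_pos
  have h0 := B.dl_pos
  have hK := B.K_pos
  have h4 := B.dl_rho
  have hrho := B.rho_pos
  have hsurj : ∀ om w : ℂ, ‖om‖ < B.dl → ‖w‖ ≤ B.kap / 2 * B.dl →
      ∃ z : ℂ, ‖z‖ ≤ B.dl ∧ B.s om z = w := fun om w h1 h2 => B.s_surj h1 h2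
  choose! T hT1 hT2 using hsurj
  have hin : ∀ om w : ℂ, ‖om‖ < B.dl → ‖w‖ ≤ B.kap / 2 * B.dl → T om w ∈ ball (0:ℂ) B.rho := by
    intro om w h1 h2
    rw [mem_ball_zero_iff]
    have := hT1 om w h1 h2
    linarith
  have huniq : ∀ om w z : ℂ, ‖om‖ < B.dl → ‖w‖ ≤ B.kap / 2 * B.dl → ‖z‖ < B.rho →
      B.s om z = w → z = T om w := by
    intro om w z h1 h2 h3 h5
    have hom' : om ∈ ball (0:ℂ) B.r := by simpa using h1.trans_le B.dl_r
    apply B.s_inj om hom' (by simpa using h3) (hin om w h1 h2)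
    rw [h5, hT2 om w h1 h2]
  set rho1 : ℝ := min (B.kap / 2 * B.dl) (min B.rho (B.kap * B.rho)) with hrho1
  have hr1 : 0 < rho1 := by positivity
  have hr1a : rho1 ≤ B.kap / 2 * B.dl := min_le_left _ _
  have hb : ∀ w ∈ ball (0:ℂ) rho1, ‖w‖ ≤ B.kap / 2 * B.dl := fun w hw =>
    (mem_ball_zero_iff.mp hw).le.trans hr1a
  have ha : ∀ om ∈ ball (0:ℂ) B.dl, ‖om‖ < B.dl := fun om hom => mem_ball_zero_iff.mp hom
  have har : ∀ om ∈ ball (0:ℂ) B.dl, om ∈ ball (0:ℂ) B.r := fun om hom =>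
    ball_subset_ball B.dl_r hom
  refine ⟨⟨B.dl, rho1, max 1 (B.K / B.kap * (2 / B.kap) * (max 1 (2 / B.kap)) ^ 2), T, h0,
    B.dl_r, hr1, (min_le_right _ _).trans (min_le_left _ _),
    (min_le_right _ _).trans (min_le_right _ _), le_max_left _ _, ?_, ?_, ?_, ?_, ?_, ?_, ?_, ?_⟩⟩
  · -- analytic
    apply inv_analytic (f := B.s) (U := ball 0 B.dl ×ˢ ball 0 B.rho)
      (isOpen_ball.prod isOpen_ball) (isOpen_ball.prod isOpen_ball)
    · exact B.s_an.mono (Set.prod_mono (ball_subset_ball B.dl_r) subset_rfl)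
    · rintro ⟨om, w⟩ ⟨h1, h2⟩
      exact ⟨⟨h1, hin om w (ha om h1) (hb w h2)⟩, hT2 om w (ha om h1) (hb w h2),
        B.s_deriv_ne (ha om h1) (hT1 om w (ha om h1) (hb w h2))⟩
    · rintro ⟨om, w⟩ ⟨h1, h2⟩ z ⟨-, hz⟩ he
      exact huniq om w z (ha om h1) (hb w h2) (mem_ball_zero_iff.mp hz) he
  · intro om hom w hw
    exact hT2 om w (ha om hom) (hb w hw)
  · intro om hom w hw
    exact mem_ball_zero_iff.mp (hin om w (ha om hom) (hb w hw))
  · intro om hom w hw
    have h1 := hT1 om w (ha om hom) (hb w hw)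
    have h2 := hT2 om w (ha om hom) (hb w hw)
    have h3 := B.s_close om (har om hom) (T om w) (hin om w (ha om hom) (hb w hw))
    have h5 := B.le_s_norm (ha om hom) h1
    rw [h2] at h3 h5
    have h6 : ‖T om w‖ ≤ 2 / B.kap * ‖w‖ := by
      rw [div_mul_eq_mul_div, le_div_iff₀ hk]
      linarith
    set M := max 1 (2 / B.kap) with hM
    have hM1 : 1 ≤ M := le_max_left _ _
    have h7 : ‖om‖ + ‖T om w‖ ≤ M * (‖om‖ + ‖w‖) := by
      have : 2 / B.kap * ‖w‖ ≤ M * ‖w‖ :=
        mul_le_mul_of_nonneg_right (le_max_right _ _) (norm_nonneg _)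
      have : ‖om‖ ≤ M * ‖om‖ := le_mul_of_one_le_left (norm_nonneg _) hM1
      linarith
    have h8 : ‖T om w - w / B.kap‖ = ‖w - B.kap * T om w‖ / B.kap := by
      have hkne : (B.kap : ℂ) ≠ 0 := by exact_mod_cast hk.ne'
      have : T om w - w / B.kap = -((w - B.kap * T om w) / B.kap) := by
        field_simp
        ring
      rw [this, norm_neg, norm_div, norm_real, Real.norm_of_nonneg hk.le]
    rw [h8]
    calc ‖w - B.kap * T om w‖ / B.kap
        ≤ (B.K * ‖T om w‖ * (‖om‖ + ‖T om w‖) ^ 2) / B.kap := by gcongr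
      _ ≤ (B.K * (2 / B.kap * ‖w‖) * (M * (‖om‖ + ‖w‖)) ^ 2) / B.kap := by gcongr
      _ = (B.K / B.kap * (2 / B.kap) * M ^ 2) * ‖w‖ * (‖om‖ + ‖w‖) ^ 2 := by
        field_simp
      _ ≤ _ := by
        gcongr
        exact le_max_right _ _
  · intro om hom w hw
    have hw' : -w ∈ ball (0:ℂ) rho1 := by simpa using hw
    have h1 := hin om w (ha om hom) (hb w hw)
    symm
    apply huniq om (-w) _ (ha om hom) (hb _ hw')
    · rw [norm_neg]
      exact mem_ball_zero_iff.mp h1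
    · rw [B.s_odd om (har om hom) _ h1, hT2 om w (ha om hom) (hb w hw)]
  · intro om hom w hw
    have hw' : conj w ∈ ball (0:ℂ) rho1 := by simpa using hw
    have hom' : conj om ∈ ball (0:ℂ) B.dl := by simpa using hom
    have h1 := hin om w (ha om hom) (hb w hw)
    symm
    apply huniq (conj om) (conj w) _ (ha _ hom') (hb _ hw')
    · rw [RCLike.norm_conj]
      exact mem_ball_zero_iff.mp h1
    · rw [B.s_conj om (har om hom) _ h1, hT2 om w (ha om hom) (hb w hw)]
  · intro om hom z hz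
    rw [lt_div_iff₀ (by positivity)] at hz
    have hz' : ‖z‖ ≤ B.dl := by
      have : ‖z‖ * (2 * B.kap) ≤ B.kap / 2 * B.dl := hz.le.trans hr1a
      nlinarith [norm_nonneg z]
    have := B.s_norm_le (ha om hom) hz'
    nlinarith [norm_nonneg z]
  · intro om hom z hz
    rw [lt_div_iff₀ (by positivity)] at hz
    have hz' : ‖z‖ ≤ B.dl := by
      have : ‖z‖ * (2 * B.kap) ≤ B.kap / 2 * B.dl := hz.le.trans hr1a
      nlinarith [norm_nonneg z]
    have h5 := B.s_norm_le (ha om hom) hz'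
    symm
    apply huniq om _ z (ha om hom) _ (by linarith) rfl
    nlinarith [norm_nonneg z]

namespace Bg

variable (B : Bg)

theorem real_mem {om : ℝ} (h1 : |om| < B.dl) : ‖(om : ℂ)‖ < B.dl := by
  rwa [norm_real, Real.norm_eq_abs]

theorem real_mem' {om : ℝ} (h1 : |om| < B.dl) : (om : ℂ) ∈ ball (0:ℂ) B.r := by
  rw [mem_ball_zero_iff]
  exact (B.real_mem h1).trans_le B.dl_r

/-- `s om` is real on the real axis -/
theorem s_real {om : ℝ} (h1 : |om| < B.dl) {t : ℝ} (ht : |t| < B.rho) :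
    (B.s om t).im = 0 := by
  have hom' := B.real_mem' h1
  have ht' : (t : ℂ) ∈ ball (0:ℂ) B.rho := by simpa using ht
  have h := B.s_conj om hom' t ht'
  rw [conj_ofReal, conj_ofReal] at h
  exact conj_eq_iff_im.mp h.symm

/-- `s om` is imaginary on the imaginary axis -/
theorem s_imag {om : ℝ} (h1 : |om| < B.dl) {t : ℝ} (ht : |t| < B.rho) :
    (B.s om (t * I)).re = 0 := by
  have hom' := B.real_mem' h1
  have ht' : (t * I : ℂ) ∈ ball (0:ℂ) B.rho := by simpa using ht
  have h := B.s_conj om hom' (t * I) ht'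
  have h2 := B.s_odd om hom' (t * I) ht'
  have h3 : conj ((t : ℂ) * I) = -(t * I) := by simp
  rw [conj_ofReal, h3, h2] at h
  have h4 := congrArg Complex.re h
  simp only [neg_re, conj_re] at h4
  linarith

/-- the imaginary part of `s om z` -/
theorem s_im_close {om : ℝ} (h1 : |om| < B.dl) {z : ℂ} (hz : ‖z‖ < B.dl) :
    |(B.s om z).im - B.kap * z.im| ≤ B.kap / 2 * |z.im| := by
  have h4 := B.dl_rho
  have hd := B.dl_pos
  have hx : |z.re| < B.dl := (abs_re_le_norm z).trans_lt hz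
  have h2 := B.s_lip (B.real_mem h1) (x := z) (y := z.re) hz.le (by simpa using hx.le)
  have h3 := B.s_real h1 (t := z.re) (by linarith)
  have h5 : z - (z.re : ℂ) = z.im * I := by
    apply Complex.ext <;> simp
  rw [h5, norm_mul, norm_I, mul_one, norm_real, Real.norm_eq_abs] at h2
  have h6 := (abs_im_le_norm _).trans h2
  have h7 : (B.s om z - B.s om z.re - B.kap * (z.im * I)).im = (B.s om z).im - B.kap * z.im := by
    simp [h3]
  rwa [h7] at h6

/-- the real part of `s om z` -/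
theorem s_re_close {om : ℝ} (h1 : |om| < B.dl) {z : ℂ} (hz : ‖z‖ < B.dl) :
    |(B.s om z).re - B.kap * z.re| ≤ B.kap / 2 * |z.re| := by
  have h4 := B.dl_rho
  have hd := B.dl_pos
  have hx : |z.im| < B.dl := (abs_im_le_norm z).trans_lt hz
  have h2 := B.s_lip (B.real_mem h1) (x := z) (y := z.im * I) hz.le (by simpa using hx.le)
  have h3 := B.s_imag h1 (t := z.im) (by linarith)
  have h5 : z - (z.im : ℂ) * I = z.re := by
    apply Complex.ext <;> simp
  rw [h5, norm_real, Real.norm_eq_abs] at h2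
  have h6 := (abs_re_le_norm _).trans h2
  have h7 : (B.s om z - B.s om (z.im * I) - B.kap * z.re).re = (B.s om z).re - B.kap * z.re := by
    simp [h3]
  rwa [h7] at h6

theorem s_im_pos {om : ℝ} (h1 : |om| < B.dl) {z : ℂ} (hz : ‖z‖ < B.dl)
    (h : 0 < z.im) : 0 < (B.s om z).im := by
  have h2 := abs_le.mp (B.s_im_close h1 hz)
  rw [abs_of_pos h] at h2
  have := mul_pos B.kap_pos h
  linarith [h2.1]

theorem s_im_neg {om : ℝ} (h1 : |om| < B.dl) {z : ℂ} (hz : ‖z‖ < B.dl)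
    (h : z.im < 0) : (B.s om z).im < 0 := by
  have h2 := abs_le.mp (B.s_im_close h1 hz)
  rw [abs_of_neg h] at h2
  have := mul_neg_of_pos_of_neg B.kap_pos h
  linarith [h2.2]

theorem s_re_pos {om : ℝ} (h1 : |om| < B.dl) {z : ℂ} (hz : ‖z‖ < B.dl)
    (h : 0 < z.re) : 0 < (B.s om z).re := by
  have h2 := abs_le.mp (B.s_re_close h1 hz)
  rw [abs_of_pos h] at h2
  have := mul_pos B.kap_pos h
  linarith [h2.1]

theorem s_re_neg {om : ℝ} (h1 : |om| < B.dl) {z : ℂ} (hz : ‖z‖ < B.dl)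
    (h : z.re < 0) : (B.s om z).re < 0 := by
  have h2 := abs_le.mp (B.s_re_close h1 hz)
  rw [abs_of_neg h] at h2
  have := mul_neg_of_pos_of_neg B.kap_pos h
  linarith [h2.2]

/-- `s om` is strictly increasing on the reals -/
theorem s_lt_real {om : ℝ} (h1 : |om| < B.dl) {t u : ℝ} (ht : |t| ≤ B.dl)
    (hu : |u| ≤ B.dl) (htu : t < u) : (B.s om t).re < (B.s om u).re := by
  have h2 := B.s_lip (B.real_mem h1) (x := u) (y := t) (by simpa using hu) (by simpa using ht)
  have h6 := abs_le.mp ((abs_re_le_norm _).trans h2)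
  have h7 : ‖(u : ℂ) - t‖ = u - t := by
    rw [← ofReal_sub, norm_real, Real.norm_of_nonneg (by linarith)]
  rw [h7] at h6
  have h8 : (B.s om u - B.s om t - B.kap * ((u : ℂ) - t)).re =
      (B.s om u).re - (B.s om t).re - B.kap * (u - t) := by
    simp
  rw [h8] at h6
  have := mul_pos B.kap_pos (sub_pos.mpr htu)
  linarith [h6.1]

/-- `ep om` for real `om` -/
theorem ep_real {om : ℝ} (h1 : |om| < B.dl) :
    B.ep om = ((B.s om ((om / 2 : ℝ) : ℂ)).re ^ 2 : ℝ) := by
  have hom' := B.real_mem' h1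
  have h4 := B.dl_rho
  have hd := B.dl_pos
  have hlt : |om / 2| < B.rho := by
    rw [abs_div, abs_of_pos (two_pos : (0:ℝ) < 2)]
    linarith
  have h2 := B.s_real h1 (t := om / 2) hlt
  rw [B.ep_eq om hom']
  have h3 : B.s om ((om / 2 : ℝ) : ℂ) = ((B.s om ((om / 2 : ℝ) : ℂ)).re : ℂ) := by
    apply Complex.ext
    · simp
    · simpa using h2
  have h5 : ((om / 2 : ℝ) : ℂ) = (om : ℂ) / 2 := by push_cast; rfl
  rw [← h5]
  conv_lhs => rw [h3]
  push_cast
  rfl

/-- the imaginary part of `N om z` for real `om` -/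
theorem N_im {om : ℝ} (h1 : |om| < B.dl) (z : ℂ) :
    (B.N om z).im = -(2 * (B.s om z).re * (B.s om z).im) := by
  unfold N
  rw [B.ep_real h1, sub_im, ofReal_im, pow_two (B.s om z), mul_im]
  ring

/-- the real part of `N om z` for real `om` -/
theorem N_re {om : ℝ} (h1 : |om| < B.dl) (z : ℂ) :
    (B.N om z).re = (B.s om ((om / 2 : ℝ) : ℂ)).re ^ 2 - (B.s om z).re ^ 2
      + (B.s om z).im ^ 2 := by
  unfold N
  rw [B.ep_real h1, sub_re, ofReal_re, pow_two (B.s om z), mul_re]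
  ring

theorem s_neg_real {om : ℝ} (h1 : |om| < B.dl) {u : ℝ} (hu : |u| < B.rho) :
    B.s om ((-u : ℝ) : ℂ) = -B.s om u := by
  have := B.s_odd om (B.real_mem' h1) u (by simpa using hu)
  rw [← this]
  push_cast
  rfl

theorem N_slit {om : ℝ} (h1 : |om| < B.dl) {z : ℂ} (hz : ‖z‖ < B.dl) (him : z.im ≠ 0) :
    B.N om z ∈ slitPlane := by
  rw [mem_slitPlane_iff]
  have h3 : (B.s om z).im ≠ 0 := by
    rcases lt_or_gt_of_ne him with h | h
    · exact (B.s_im_neg h1 hz h).ne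
    · exact (B.s_im_pos h1 hz h).ne'
  by_cases h2 : (B.s om z).re = 0
  · left
    rw [B.N_re h1, h2]
    have h5 : 0 < (B.s om z).im ^ 2 := by positivity
    nlinarith [sq_nonneg (B.s om ((om / 2 : ℝ) : ℂ)).re]
  · right
    rw [B.N_im h1]
    simpa using ⟨h2, h3⟩

theorem N_real {om : ℝ} (h1 : |om| < B.dl) {t : ℝ} (ht : |t| < B.dl) : (B.N om t).im = 0 := by
  have h4 := B.dl_rho
  have hd := B.dl_pos
  rw [B.N_im h1, B.s_real h1 (by linarith)]
  simp

theorem N_pos {om : ℝ} (h1 : |om| < B.dl) {t : ℝ} (ht : |t| < om / 2) : 0 < (B.N om t).re := by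
  have h4 := B.dl_rho
  have hd := B.dl_pos
  have ht' := abs_lt.mp ht
  have hom0 : 0 < om := by
    have := abs_nonneg t
    linarith
  rw [abs_of_pos hom0] at h1
  have h1' : |om| < B.dl := by rwa [abs_of_pos hom0]
  have habs : |om / 2| ≤ B.dl := by
    rw [abs_of_nonneg (by linarith)]
    linarith
  have habs' : |t| ≤ B.dl := by linarith
  have e1 := B.s_lt_real h1' habs' habs ht'.2
  have e2 := B.s_lt_real h1' (t := -t) (by rwa [abs_neg]) habs (by linarith [ht'.1])
  rw [B.s_neg_real h1' (by linarith), neg_re] at e2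
  rw [B.N_re h1', B.s_real h1' (by linarith)]
  nlinarith

theorem N_neg {om : ℝ} (h1 : |om| < B.dl) {t : ℝ} (ht : |om| / 2 < |t|) (ht1 : |t| < B.dl) :
    (B.N om t).re < 0 := by
  have h4 := B.dl_rho
  have hd := B.dl_pos
  have habs : |om / 2| ≤ B.dl := by
    rw [abs_div, abs_of_pos (two_pos : (0:ℝ) < 2)]
    linarith
  have hab : |om / 2| < |t| := by
    rwa [abs_div, abs_of_pos (two_pos : (0:ℝ) < 2)]
  have hab' := abs_le.mp (le_refl |om / 2|)
  rw [B.N_re h1, B.s_real h1 (by linarith)]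
  rcases le_or_gt 0 t with h | h
  · have htt : |t| = t := abs_of_nonneg h
    rw [htt] at hab
    have e1 := B.s_lt_real h1 habs ht1.le (by linarith [hab'.2] : om / 2 < t)
    have e4 := B.s_lt_real h1 (t := -t) (u := om / 2)
      (by rw [abs_neg]; exact ht1.le) habs (by linarith [hab'.1])
    rw [B.s_neg_real h1 (by linarith), neg_re] at e4
    nlinarith
  · have htt : |t| = -t := abs_of_neg h
    rw [htt] at hab
    have e1 := B.s_lt_real h1 (t := om / 2) (u := -t) habs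
      (by rw [abs_neg]; exact ht1.le) (by linarith [hab'.2])
    have e4 := B.s_lt_real h1 (t := t) (u := om / 2) ht1.le habs (by linarith [hab'.1])
    rw [B.s_neg_real h1 (by linarith), neg_re] at e1
    nlinarith

/-- the zeros of `N om` -/
theorem N_zero {om z : ℂ} (hom : ‖om‖ < B.dl) (hz : ‖z‖ < B.rho) (h : B.N om z = 0) :
    z = om / 2 ∨ z = -om / 2 := by
  have h4 := B.dl_rho
  have hd := B.dl_pos
  have hom' : om ∈ ball (0:ℂ) B.r := by
    rw [mem_ball_zero_iff]
    exact hom.trans_le B.dl_r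
  have h2 : om / 2 ∈ ball (0:ℂ) B.rho := by
    rw [mem_ball_zero_iff, norm_div]
    have : ‖(2:ℂ)‖ = 2 := by simp
    rw [this]
    linarith
  have h2' : -(om / 2) ∈ ball (0:ℂ) B.rho := by simpa using h2
  have hz' : z ∈ ball (0:ℂ) B.rho := by simpa using hz
  unfold N at h
  rw [B.ep_eq om hom', sub_eq_zero, sq_eq_sq_iff_eq_or_eq_neg] at h
  rcases h with h | h
  · left
    exact (B.s_inj om hom' h2 hz' h).symm
  · right
    rw [← B.s_odd om hom' z hz'] at h
    have hz2 : -z ∈ ball (0:ℂ) B.rho := by simpa using hz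
    have := B.s_inj om hom' h2 hz2 h
    linear_combination this

end Bg

/-- the signs of `N om` for real `om` -/
theorem exists_Sgn (B : Bg) : ∃ w z0, Sgn B w z0 := by
  have h4 := B.dl_rho
  have hd := B.dl_pos
  have ha : ∀ om : ℝ, 0 ≤ om → om < B.dl → |om| < B.dl := fun om h0 h1 => by
    rwa [abs_of_nonneg h0]
  refine ⟨B.dl, B.dl, hd, B.dl_r, le_rfl, by linarith, ?_, ?_, ?_, ?_, ?_, ?_⟩
  · intro om h0 h1 z hz hre him
    rw [B.N_im (ha om h0 h1)]
    have h2 := B.s_re_pos (ha om h0 h1) hz hre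
    have h3 := B.s_im_neg (ha om h0 h1) hz him
    nlinarith [mul_pos h2 (neg_pos.mpr h3)]
  · intro om h0 h1 z hz hre him
    rw [B.N_im (ha om h0 h1)]
    have h2 := B.s_re_neg (ha om h0 h1) hz hre
    have h3 := B.s_im_neg (ha om h0 h1) hz him
    nlinarith [mul_pos (neg_pos.mpr h2) (neg_pos.mpr h3)]
  · intro om h0 h1 z hz him
    exact B.N_slit (ha om h0 h1) hz him
  · intro om h0 h1 t ht
    exact B.N_real (ha om h0 h1) ht
  · intro om h0 h1 t ht
    exact B.N_pos (ha om h0 h1) ht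
  · intro om h0 h1 t ht ht1
    exact B.N_neg (ha om h0 h1) (by rwa [abs_of_nonneg h0]) ht1

end Pool.Agent.MP_ae5b4e_an_LOC
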