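import Mathlib
import Pool.Agent.Lib.MP_ae5b4e_an_LOC.LDef

/-!
# LOC, LT-12: tools for the jump at a base point
-/

set_option autoImplicit false

noncomputable section

namespace Pool.Agent.MP_ae5b4e_an_LOC

open Set Metric Complex ComplexConjugate Filter Topology

namespace Bg

variable (B : Bg)

theorem jump_r_le : B.r ≤ B.rho / 4 := by
  have h1 := B.K_r_le
  have h2 := B.one_le_K
  nlinarith [B.r_pos]

theorem jump_N_even {om z : ℂ} (h1 : ‖om‖ < B.r) (h2 : ‖z‖ < B.rho) :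
    B.N om (-z) = B.N om z := by
  unfold Bg.N
  rw [B.s_odd om (by simpa using h1) z (by simpa using h2)]
  ring

theorem jump_N_half {om : ℂ} (h1 : ‖om‖ < B.r) : B.N om (om / 2) = 0 := by
  unfold Bg.N
  rw [B.ep_eq om (by simpa using h1)]
  ring

theorem jump_half_lt {om : ℂ} (h1 : ‖om‖ < B.r) : ‖om / 2‖ < B.rho := by
  have := B.jump_r_le
  have h2 := B.rho_pos
  have h3 := norm_nonneg om
  rw [norm_div]
  simp only [Complex.norm_ofNat]
  linarith

theorem jump_N_an : AnalyticOnNhd ℂ (fun p : ℂ × ℂ => B.N p.1 p.2)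
    (ball 0 B.r ×ˢ ball 0 B.rho) := by
  rintro ⟨om, z⟩ ⟨h1, h2⟩
  simp only at h1 h2
  have h1' : ‖om‖ < B.r := by simpa using h1
  have hs : AnalyticAt ℂ (fun p : ℂ × ℂ => B.s p.1 p.2) (om, z) := B.s_an (om, z) ⟨h1, h2⟩
  have hs2 : AnalyticAt ℂ (fun p : ℂ × ℂ => B.s p.1 (p.1 / 2)) (om, z) := by
    have h3 : AnalyticAt ℂ (fun p : ℂ × ℂ => B.s p.1 p.2) (om, om / 2) :=
      B.s_an _ ⟨h1, by simpa using B.jump_half_lt h1'⟩
    have h4 : AnalyticAt ℂ (fun p : ℂ × ℂ => ((p.1, p.1 / 2) : ℂ × ℂ)) (om, z) :=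
      analyticAt_fst.prod (analyticAt_fst.div_const)
    exact AnalyticAt.comp (g := fun p : ℂ × ℂ => B.s p.1 p.2)
      (f := fun p : ℂ × ℂ => ((p.1, p.1 / 2) : ℂ × ℂ)) h3 h4
  refine ((hs2.pow 2).sub (hs.pow 2)).congr ?_
  have : ∀ᶠ p in 𝓝 ((om, z) : ℂ × ℂ), p.1 ∈ ball (0:ℂ) B.r :=
    continuous_fst.continuousAt.eventually_mem (isOpen_ball.mem_nhds h1)
  filter_upwards [this] with p hp
  simp only [Pi.sub_apply, Pi.pow_apply, Bg.N, B.ep_eq _ hp]

theorem jump_N_an1 {om z : ℂ} (h1 : ‖om‖ < B.r) (h2 : ‖z‖ < B.rho) :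
    AnalyticAt ℂ (B.N om) z := by
  have h3 : AnalyticAt ℂ (fun p : ℂ × ℂ => B.N p.1 p.2) (om, z) :=
    B.jump_N_an _ ⟨by simpa using h1, by simpa using h2⟩
  exact AnalyticAt.comp (g := fun p : ℂ × ℂ => B.N p.1 p.2)
    (f := fun z : ℂ => ((om, z) : ℂ × ℂ)) h3 (analyticAt_const.prod analyticAt_id)

theorem jump_s_zero {om : ℂ} (h1 : ‖om‖ < B.r) : B.s om 0 = 0 := by
  have h := B.s_odd om (by simpa using h1) 0 (by simpa using B.rho_pos)
  rw [neg_zero] at h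
  have h2 : (2 : ℂ) * B.s om 0 = 0 := by linear_combination h
  exact (mul_eq_zero.1 h2).resolve_left two_ne_zero

theorem jump_s_ne {om z : ℂ} (h1 : ‖om‖ < B.r) (h2 : ‖z‖ < B.rho) (hz : z ≠ 0) :
    B.s om z ≠ 0 := by
  intro h
  apply hz
  apply B.s_inj om (by simpa using h1) (by simpa using h2) (by simpa using B.rho_pos)
  rw [h, B.jump_s_zero h1]

theorem jump_s_an1 {om z : ℂ} (h1 : ‖om‖ < B.r) (h2 : ‖z‖ < B.rho) :
    AnalyticAt ℂ (B.s om) z := by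
  have h3 : AnalyticAt ℂ (fun p : ℂ × ℂ => B.s p.1 p.2) (om, z) :=
    B.s_an _ ⟨by simpa using h1, by simpa using h2⟩
  exact AnalyticAt.comp (g := fun p : ℂ × ℂ => B.s p.1 p.2)
    (f := fun z : ℂ => ((om, z) : ℂ × ℂ)) h3 (analyticAt_const.prod analyticAt_id)

theorem jump_s_deriv {om : ℂ} (h0 : om ≠ 0) (h1 : ‖om‖ < B.r)
    (h2 : 10 * B.K * ‖om‖ ^ 2 < B.kap) : deriv (B.s om) (om / 2) ≠ 0 := by
  have hK := B.one_le_K
  have hr := B.jump_r_le
  have hrho := B.rho_pos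
  have hn : 0 < ‖om‖ := norm_pos_iff.2 h0
  have hh : ‖om / 2‖ = ‖om‖ / 2 := by
    rw [norm_div]
    simp
  have hin : ∀ z ∈ closedBall (om / 2) ‖om‖, ‖z‖ ≤ 3 / 2 * ‖om‖ := by
    intro z hz
    rw [mem_closedBall, dist_eq_norm] at hz
    calc ‖z‖ = ‖(z - om / 2) + om / 2‖ := by ring_nf
      _ ≤ ‖z - om / 2‖ + ‖om / 2‖ := norm_add_le _ _
      _ ≤ 3 / 2 * ‖om‖ := by rw [hh]; linarith
  have hin' : ∀ z ∈ closedBall (om / 2) ‖om‖, ‖z‖ < B.rho := fun z hz => by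
    have := hin z hz
    nlinarith
  have hd : DifferentiableOn ℂ (fun z => B.s om z - B.kap * z) (closedBall (om / 2) ‖om‖) :=
    fun z hz => ((B.jump_s_an1 h1 (hin' z hz)).differentiableAt.sub
      (differentiableAt_id.const_mul _)).differentiableWithinAt
  have hb : ‖deriv (fun z => B.s om z - B.kap * z) (om / 2)‖ ≤
      (10 * B.K * ‖om‖ ^ 3) / ‖om‖ := by
    apply Complex.norm_deriv_le_of_forall_mem_sphere_norm_le hn
      (hd.diffContOnCl_ball Subset.rfl)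
    intro z hz
    have hz' := sphere_subset_closedBall hz
    have h3 := hin z hz'
    have h4 := B.s_close om (by simpa using h1) z (by simpa using hin' z hz')
    calc ‖B.s om z - B.kap * z‖ ≤ B.K * ‖z‖ * (‖om‖ + ‖z‖) ^ 2 := h4
      _ ≤ B.K * (3 / 2 * ‖om‖) * (‖om‖ + 3 / 2 * ‖om‖) ^ 2 := by gcongr
      _ = 75 / 8 * B.K * ‖om‖ ^ 3 := by ring
      _ ≤ 10 * B.K * ‖om‖ ^ 3 := by
        have : 0 ≤ B.K * ‖om‖ ^ 3 := by positivity
        linarith
  have hhalf := B.jump_half_lt h1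
  have hder : deriv (fun z => B.s om z - B.kap * z) (om / 2) =
      deriv (B.s om) (om / 2) - B.kap := by
    have e1 : HasDerivAt (fun z : ℂ => B.s om z - B.kap * z)
        (deriv (B.s om) (om / 2) - B.kap * 1) (om / 2) :=
      (B.jump_s_an1 h1 hhalf).differentiableAt.hasDerivAt.sub
        ((hasDerivAt_id _).const_mul _)
    rw [e1.deriv, mul_one]
  intro h
  rw [hder, h, zero_sub, norm_neg, Complex.norm_real, Real.norm_eq_abs,
    abs_of_pos B.kap_pos] at hb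
  have : 10 * B.K * ‖om‖ ^ 3 / ‖om‖ = 10 * B.K * ‖om‖ ^ 2 := by
    field_simp
  rw [this] at hb
  linarith

theorem jump_n_deriv {om : ℂ} (h0 : om ≠ 0) (h1 : ‖om‖ < B.r)
    (h2 : 10 * B.K * ‖om‖ ^ 2 < B.kap) : deriv (fun t => B.N om (om / 2 + t)) 0 ≠ 0 := by
  have hhalf := B.jump_half_lt h1
  have e0 : HasDerivAt (B.s om) (deriv (B.s om) (om / 2)) (om / 2 + 0) := by
    rw [add_zero]
    exact (B.jump_s_an1 h1 hhalf).differentiableAt.hasDerivAt
  have e1 : HasDerivAt (fun t : ℂ => B.s om (om / 2 + t)) (deriv (B.s om) (om / 2)) 0 := by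
    have := e0.comp_const_add (om / 2) 0
    exact this
  have e2 : HasDerivAt (fun t : ℂ => B.N om (om / 2 + t))
      (-(2 * B.s om (om / 2) * deriv (B.s om) (om / 2))) 0 := by
    have := (e1.fun_pow 2).const_sub (B.ep om)
    refine HasDerivAt.congr_deriv (f' := _) this ?_
    simp only [add_zero]
    norm_num
  rw [e2.deriv]
  have h3 := B.jump_s_deriv h0 h1 h2
  have h4 := B.jump_s_ne h1 hhalf (div_ne_zero h0 two_ne_zero)
  exact neg_ne_zero.2 (mul_ne_zero (mul_ne_zero two_ne_zero h4) h3)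

/-- `N (om, om / 2 + t)` is small near `(0, 0)` -/
theorem jump_small {r1 : ℝ} (hr1 : 0 < r1) : ∃ t0 > 0, t0 ≤ B.r ∧ t0 ≤ r1 ∧
    ∀ om t : ℂ, ‖om‖ < t0 → ‖t‖ < t0 → ‖om / 2 + t‖ < B.rho ∧ ‖B.N om (om / 2 + t)‖ < r1 := by
  have h0 : AnalyticAt ℂ (fun p : ℂ × ℂ => B.N p.1 p.2) (0, 0) :=
    B.jump_N_an _ ⟨by simpa using B.r_pos, by simpa using B.rho_pos⟩
  have h1 : ContinuousAt (fun p : ℂ × ℂ => B.N p.1 (p.1 / 2 + p.2)) (0, 0) := by
    have h2 : ContinuousAt (fun p : ℂ × ℂ => B.N p.1 p.2)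
        ((fun p : ℂ × ℂ => ((p.1, p.1 / 2 + p.2) : ℂ × ℂ)) (0, 0)) := by
      have e : (fun p : ℂ × ℂ => ((p.1, p.1 / 2 + p.2) : ℂ × ℂ)) (0, 0) = (0, 0) := by simp
      rw [e]
      exact h0.continuousAt
    exact ContinuousAt.comp (g := fun p : ℂ × ℂ => B.N p.1 p.2)
      (f := fun p : ℂ × ℂ => ((p.1, p.1 / 2 + p.2) : ℂ × ℂ)) h2 (by fun_prop)
  have h3 : B.N 0 (0 / 2 + 0) = 0 := by
    have := B.jump_N_half (om := 0) (by simpa using B.r_pos)
    simpa using this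
  have h4 : ∀ᶠ p in 𝓝 ((0, 0) : ℂ × ℂ), ‖B.N p.1 (p.1 / 2 + p.2)‖ < r1 := by
    have : Tendsto (fun p : ℂ × ℂ => ‖B.N p.1 (p.1 / 2 + p.2)‖) (𝓝 (0, 0)) (𝓝 0) := by
      have := h1.norm
      unfold ContinuousAt at this
      simp only [h3, norm_zero] at this
      exact this
    exact this.eventually (gt_mem_nhds hr1)
  rw [Metric.eventually_nhds_iff] at h4
  obtain ⟨e, he, h5⟩ := h4
  have hr := B.jump_r_le
  have hrp := B.r_pos
  have hrho := B.rho_pos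
  refine ⟨min (min e B.r) r1, lt_min (lt_min he hrp) hr1,
    (min_le_left _ _).trans (min_le_right _ _), min_le_right _ _, fun om t ho ht => ?_⟩
  have a1 : ‖om‖ < e := ho.trans_le ((min_le_left _ _).trans (min_le_left _ _))
  have a2 : ‖t‖ < e := ht.trans_le ((min_le_left _ _).trans (min_le_left _ _))
  have a3 : ‖om‖ < B.r := ho.trans_le ((min_le_left _ _).trans (min_le_right _ _))
  have a4 : ‖t‖ < B.r := ht.trans_le ((min_le_left _ _).trans (min_le_right _ _))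
  constructor
  · calc ‖om / 2 + t‖ ≤ ‖om / 2‖ + ‖t‖ := norm_add_le _ _
      _ < B.rho := by
        rw [norm_div]
        simp only [Complex.norm_ofNat]
        linarith [norm_nonneg om]
  · apply h5 (y := ((om, t) : ℂ × ℂ))
    rw [Prod.dist_eq]
    simp only [dist_zero_right]
    exact max_lt a1 a2

end Bg

end Pool.Agent.MP_ae5b4e_an_LOC
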