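import Mathlib
import Pool.Agent.Lib.MP_ae5b4e_an_LOC.JumpA

/-!
# LOC, LT-12: tools for the jump at a base point, II
-/

set_option autoImplicit false

noncomputable section

namespace Pool.Agent.MP_ae5b4e_an_LOC

open Set Metric Complex ComplexConjugate Filter Topology

/-- the limit argument -/
theorem jump_Z (B : Bg) {w3 r1 : ℝ} (hw3 : 0 < w3) (hr1 : 0 < r1) {H : ℂ → ℂ → ℂ}
    (hH : AnalyticOnNhd ℂ (fun p : ℂ × ℂ => H p.1 p.2) (ball 0 r1 ×ˢ ball 0 r1))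
    (h : ∀ om : ℝ, 0 < om → om < w3 → ∀ᶠ t in 𝓝 (0:ℂ),
      H om (B.N om (om / 2 + t)) + H om (B.N om (om / 2 - t)) = 0) :
    ∀ᶠ q in 𝓝 (0:ℂ), H 0 q = 0 := by
  obtain ⟨t0, ht0, ht0r, ht01, hs⟩ := B.jump_small hr1
  have hP : ∀ om t : ℂ, ‖om‖ < t0 → ‖t‖ < t0 →
      AnalyticAt ℂ (fun p : ℂ × ℂ => H p.1 (B.N p.1 (p.1 / 2 + p.2))) (om, t) := by
    intro om t h1 h2
    obtain ⟨a1, a2⟩ := hs om t h1 h2
    have b1 : AnalyticAt ℂ (fun p : ℂ × ℂ => B.N p.1 p.2) (om, om / 2 + t) :=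
      B.jump_N_an _ ⟨by simpa using h1.trans_le ht0r, by simpa using a1⟩
    have b2 : AnalyticAt ℂ (fun p : ℂ × ℂ => B.N p.1 (p.1 / 2 + p.2)) (om, t) :=
      AnalyticAt.comp (g := fun p : ℂ × ℂ => B.N p.1 p.2)
        (f := fun p : ℂ × ℂ => ((p.1, p.1 / 2 + p.2) : ℂ × ℂ)) b1
        (analyticAt_fst.prod (analyticAt_fst.div_const.add analyticAt_snd))
    have b3 : AnalyticAt ℂ (fun p : ℂ × ℂ => H p.1 p.2) (om, B.N om (om / 2 + t)) :=
      hH _ ⟨by simpa using h1.trans_le ht01, by simpa using a2⟩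
    exact AnalyticAt.comp (g := fun p : ℂ × ℂ => H p.1 p.2)
        (f := fun p : ℂ × ℂ => ((p.1, B.N p.1 (p.1 / 2 + p.2)) : ℂ × ℂ)) b3
        (analyticAt_fst.prod b2)
  have hQ : ∀ om t : ℂ, ‖om‖ < t0 → ‖t‖ < t0 →
      AnalyticAt ℂ (fun p : ℂ × ℂ => H p.1 (B.N p.1 (p.1 / 2 + p.2)) +
        H p.1 (B.N p.1 (p.1 / 2 - p.2))) (om, t) := by
    intro om t h1 h2
    have c1 := hP om t h1 h2
    have c2 := hP om (-t) h1 (by rwa [norm_neg])
    have c3 : AnalyticAt ℂ (fun p : ℂ × ℂ => H p.1 (B.N p.1 (p.1 / 2 - p.2))) (om, t) := by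
      have := AnalyticAt.comp (g := fun p : ℂ × ℂ => H p.1 (B.N p.1 (p.1 / 2 + p.2)))
        (f := fun p : ℂ × ℂ => ((p.1, -p.2) : ℂ × ℂ)) (x := (om, t)) c2
        (analyticAt_fst.prod analyticAt_snd.neg)
      simpa only [Function.comp_def, ← sub_eq_add_neg] using this
    exact c1.add c3
  have hzero : ∀ om : ℝ, 0 < om → om < min w3 t0 → ∀ t : ℂ, ‖t‖ < t0 →
      H om (B.N om (om / 2 + t)) + H om (B.N om (om / 2 - t)) = 0 := by
    intro om h0 h1 t ht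
    have hom : ‖(om : ℂ)‖ < t0 := by
      rw [Complex.norm_real, Real.norm_eq_abs, abs_of_pos h0]
      exact h1.trans_le (min_le_right _ _)
    have hA : AnalyticOnNhd ℂ (fun t : ℂ => H om (B.N om (om / 2 + t)) +
        H om (B.N om (om / 2 - t))) (ball 0 t0) := by
      intro t ht
      exact AnalyticAt.comp (g := fun p : ℂ × ℂ => H p.1 (B.N p.1 (p.1 / 2 + p.2)) +
        H p.1 (B.N p.1 (p.1 / 2 - p.2))) (f := fun t : ℂ => (((om : ℂ), t) : ℂ × ℂ))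
        (hQ om t hom (by simpa using ht)) (analyticAt_const.prod analyticAt_id)
    have := hA.eqOn_zero_of_preconnected_of_eventuallyEq_zero
      (convex_ball (0:ℂ) t0).isPreconnected (mem_ball_self ht0)
      (h om h0 (h1.trans_le (min_le_left _ _)))
    exact this (by simpa using ht)
  have hlim : ∀ t : ℂ, ‖t‖ < t0 → H 0 (B.N 0 t) = 0 := by
    intro t ht
    have c1 := (hQ 0 t (by simpa using ht0) ht).continuousAt
    have c2 : Tendsto (fun om : ℝ => H om (B.N om (om / 2 + t)) + H om (B.N om (om / 2 - t)))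
        (𝓝[>] 0) (𝓝 (H 0 (B.N 0 (0 / 2 + t)) + H 0 (B.N 0 (0 / 2 - t)))) := by
      have c3 : Tendsto (fun om : ℝ => (((om : ℂ), t) : ℂ × ℂ)) (𝓝[>] 0) (𝓝 ((0, t) : ℂ × ℂ)) := by
        have : Tendsto (fun om : ℝ => (((om : ℂ), t) : ℂ × ℂ)) (𝓝 0)
            (𝓝 (((0 : ℝ) : ℂ), t)) :=
          (Complex.continuous_ofReal.prodMk continuous_const).tendsto 0
        rw [Complex.ofReal_zero] at this
        exact this.mono_left nhdsWithin_le_nhds
      exact Tendsto.comp (g := fun p : ℂ × ℂ => H p.1 (B.N p.1 (p.1 / 2 + p.2)) +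
        H p.1 (B.N p.1 (p.1 / 2 - p.2))) c1 c3
    have c4 : Tendsto (fun om : ℝ => H om (B.N om (om / 2 + t)) + H om (B.N om (om / 2 - t)))
        (𝓝[>] 0) (𝓝 0) := by
      apply tendsto_const_nhds.congr'
      filter_upwards [Ioo_mem_nhdsGT (lt_min hw3 ht0)] with om hom
      exact (hzero om hom.1 hom.2 t ht).symm
    have c5 := tendsto_nhds_unique c2 c4
    have c6 : B.N 0 (-t) = B.N 0 t := by
      apply B.jump_N_even (by simpa using B.r_pos)
      have := (hs 0 t (by simpa using ht0) ht).1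
      simpa using this
    rw [zero_div, zero_add, zero_sub, c6] at c5
    have c7 : (2 : ℂ) * H 0 (B.N 0 t) = 0 := by linear_combination c5
    exact (mul_eq_zero.1 c7).resolve_left two_ne_zero
  have hH0 : AnalyticAt ℂ (H 0) 0 :=
    AnalyticAt.comp (g := fun p : ℂ × ℂ => H p.1 p.2)
      (f := fun q : ℂ => (((0 : ℂ), q) : ℂ × ℂ))
      (hH (0, 0) ⟨by simpa using hr1, by simpa using hr1⟩) (analyticAt_const.prod analyticAt_id)
  rcases hH0.eventually_eq_zero_or_eventually_ne_zero with h1 | h1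
  · exact h1
  exfalso
  have h0r : ‖(0:ℂ)‖ < B.r := by simpa using B.r_pos
  have hN0 : B.N 0 0 = 0 := by
    have := B.jump_N_half h0r
    simpa using this
  have hN : Tendsto (B.N 0) (𝓝[≠] 0) (𝓝[≠] 0) := by
    apply tendsto_nhdsWithin_of_tendsto_nhds_of_eventually_within
    · have := (B.jump_N_an1 h0r (z := 0) (by simpa using B.rho_pos)).continuousAt
      unfold ContinuousAt at this
      rw [hN0] at this
      exact this.mono_left nhdsWithin_le_nhds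
    · have h2 : ∀ᶠ t in 𝓝[≠] (0:ℂ), t ∈ ball (0:ℂ) B.rho :=
        nhdsWithin_le_nhds (ball_mem_nhds 0 B.rho_pos)
      filter_upwards [h2, self_mem_nhdsWithin] with t ht1 ht2
      have h3 : B.N 0 t = -B.s 0 t ^ 2 := by
        unfold Bg.N
        rw [B.ep_eq 0 (by simpa using B.r_pos), zero_div, B.jump_s_zero h0r]
        ring
      rw [mem_compl_iff, mem_singleton_iff, h3]
      exact neg_ne_zero.2 (pow_ne_zero _ (B.jump_s_ne h0r (by simpa using ht1) ht2))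
  have h4 := hN.eventually h1
  have h5 : ∀ᶠ t in 𝓝[≠] (0:ℂ), t ∈ ball (0:ℂ) t0 := nhdsWithin_le_nhds (ball_mem_nhds 0 ht0)
  obtain ⟨t, ht1, ht2⟩ := (h4.and h5).exists
  exact ht1 (hlim t (by simpa using ht2))

/-- Lagrange interpolation -/
theorem jump_vdm {μ : Fin 3 → ℂ} (h : Function.Injective μ) : ∃ c : Fin 3 → Fin 3 → ℂ,
    ∀ (a : Fin 3 → ℂ) (i : Fin 3), a i = ∑ k, c i k * (a 0 + μ k * a 1 + μ k ^ 2 * a 2) := by
  let W : Matrix (Fin 3) (Fin 3) ℂ := (Matrix.vandermonde μ)⁻¹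
  refine ⟨fun i k => W i k, fun a i => ?_⟩
  have hd : IsUnit (Matrix.vandermonde μ).det :=
    isUnit_iff_ne_zero.2 (Matrix.det_vandermonde_ne_zero_iff.2 h)
  have e1 : Matrix.mulVec W (Matrix.mulVec (Matrix.vandermonde μ) a) = a := by
    rw [Matrix.mulVec_mulVec, Matrix.nonsing_inv_mul _ hd, Matrix.one_mulVec]
  have e2 : ∀ k, Matrix.mulVec (Matrix.vandermonde μ) a k =
      a 0 + μ k * a 1 + μ k ^ 2 * a 2 := by
    intro k
    simp only [Matrix.mulVec, dotProduct, Matrix.vandermonde_apply, Fin.sum_univ_three]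
    simp
  have e3 := congrFun e1 i
  rw [← e3, Matrix.mulVec, dotProduct]
  apply Finset.sum_congr rfl
  intro k _
  rw [e2 k]

/-- three small values of `om` with distinct slopes -/
theorem jump_three (B : Bg) {w3 : ℝ} (hw3 : 0 < w3) : ∃ ω : Fin 3 → ℝ,
    (∀ k, 0 < ω k ∧ ω k < w3) ∧
      Function.Injective (fun k => B.Lam (ω k) / (ω k : ℂ) ^ 2) := by
  have h0 : (0:ℂ) ∈ ball (0:ℂ) B.r := by simpa using B.r_pos
  have hc : Tendsto (fun om : ℝ => ‖B.Lam om‖) (𝓝[>] 0) (𝓝 ‖B.Lam 0‖) := by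
    have h1 : ContinuousAt B.Lam ((0:ℝ):ℂ) := by
      rw [Complex.ofReal_zero]
      exact (B.Lam_an 0 h0).continuousAt
    have h2 : Tendsto (fun om : ℝ => B.Lam om) (𝓝 0) (𝓝 (B.Lam ((0:ℝ):ℂ))) :=
      h1.tendsto.comp (Complex.continuous_ofReal.tendsto 0)
    rw [Complex.ofReal_zero] at h2
    exact (h2.mono_left nhdsWithin_le_nhds).norm
  have hi : Tendsto (fun om : ℝ => (om ^ 2)⁻¹) (𝓝[>] 0) atTop := by
    apply tendsto_inv_nhdsGT_zero.comp
    apply tendsto_nhdsWithin_of_tendsto_nhds_of_eventually_within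
    · have : Tendsto (fun om : ℝ => om ^ 2) (𝓝 0) (𝓝 (0 ^ 2)) := (continuous_pow 2).tendsto 0
      rw [zero_pow two_ne_zero] at this
      exact this.mono_left nhdsWithin_le_nhds
    · filter_upwards [self_mem_nhdsWithin] with om hom
      exact pow_pos (mem_Ioi.1 hom) 2
  have ht := hc.pos_mul_atTop (norm_pos_iff.2 (B.Lam_ne 0 h0)) hi
  have key : ∀ C : ℝ, ∃ om : ℝ, 0 < om ∧ om < w3 ∧ C < ‖B.Lam om / (om : ℂ) ^ 2‖ := by
    intro C
    obtain ⟨om, h1, h2⟩ := ((ht.eventually_gt_atTop C).and (Ioo_mem_nhdsGT hw3)).exists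
    refine ⟨om, h2.1, h2.2, ?_⟩
    rw [norm_div, norm_pow, Complex.norm_real, Real.norm_eq_abs, abs_of_pos h2.1, div_eq_mul_inv]
    exact h1
  obtain ⟨o0, a0, b0, c0⟩ := key 0
  obtain ⟨o1, a1, b1, c1⟩ := key ‖B.Lam o0 / (o0 : ℂ) ^ 2‖
  obtain ⟨o2, a2, b2, c2⟩ := key ‖B.Lam o1 / (o1 : ℂ) ^ 2‖
  refine ⟨![o0, o1, o2], ?_, ?_⟩
  · intro k
    fin_cases k
    · exact ⟨a0, b0⟩
    · exact ⟨a1, b1⟩
    · exact ⟨a2, b2⟩
  · have hm : StrictMono (fun k => ‖B.Lam ((![o0, o1, o2] : Fin 3 → ℝ) k) /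
        (((![o0, o1, o2] : Fin 3 → ℝ) k : ℝ) : ℂ) ^ 2‖) := by
      rw [Fin.strictMono_iff_lt_succ]
      intro i
      fin_cases i
      · exact c1
      · exact c2
    intro i j hij
    exact hm.injective (congrArg norm hij)

/-- a property which holds along a monotone real curve -/
theorem jump_ivt {g : ℝ → ℝ} {P : ℝ → Prop} {a : ℝ} (ha : 0 < a) (hg : ContinuousOn g (Icc 0 a))
    (h0 : g 0 = 0) (hneg : ∀ t, 0 < t → t ≤ a → g t < 0) (hP : ∀ᶠ t in 𝓝[>] (0:ℝ), P (g t)) :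
    ∀ᶠ q in 𝓝[<] (0:ℝ), P q := by
  obtain ⟨b, hb0, hb⟩ := (mem_nhdsGT_iff_exists_Ioo_subset' ha).1 hP
  have hb0' : 0 < b := hb0
  have hc : 0 < min (b / 2) a := lt_min (half_pos hb0') ha
  have h1 : Ioo (g (min (b / 2) a)) (g 0) ⊆ g '' Ioo 0 (min (b / 2) a) :=
    intermediate_value_Ioo' hc.le (hg.mono (Icc_subset_Icc_right (min_le_right _ _)))
  have h2 : Ioo (g (min (b / 2) a)) 0 ∈ 𝓝[<] (0:ℝ) :=
    Ioo_mem_nhdsLT (hneg _ hc (min_le_right _ _))
  filter_upwards [h2] with q hq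
  obtain ⟨t, ht, rfl⟩ := h1 (by rwa [h0])
  apply hb
  refine ⟨ht.1, ht.2.trans ?_⟩
  exact (min_le_left _ _).trans_lt (half_lt_self hb0')

end Pool.Agent.MP_ae5b4e_an_LOC
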