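import Mathlib
import Pool.Agent.Lib.MP_ae5b4e_an_LOC.JumpB

/-!
# LOC, LT-12: the relation at a base point for one real `om`
-/

set_option autoImplicit false

noncomputable section

namespace Pool.Agent.MP_ae5b4e_an_LOC

open Set Metric Complex ComplexConjugate Filter Topology

theorem jump_V (B : Bg) (u : Fin 3 → ℂ → ℂ) (om z : ℂ) :
    B.V u om z = B.comb om fun i => u i (B.N om z) := rfl

theorem jump_V_tendsto (B : Bg) {ι : Type*} {l : Filter ι} {u v : Fin 3 → ℂ → ℂ} {om z : ℂ}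
    (h1 : ‖om‖ < B.r) (h2 : ‖z‖ < B.rho) (hv : ∀ i, ContinuousAt (v i) (B.N om z)) {p : ι → ℂ}
    (hp : Tendsto p l (𝓝 z))
    (he : ∀ᶠ x in l, ∀ i, u i (B.N om (p x)) = v i (B.N om (p x))) :
    Tendsto (fun x => B.V u om (p x)) l (𝓝 (B.V v om z)) := by
  have hN : Tendsto (fun x => B.N om (p x)) l (𝓝 (B.N om z)) :=
    (B.jump_N_an1 h1 h2).continuousAt.tendsto.comp hp
  have hv' : ∀ i, Tendsto (fun x => v i (B.N om (p x))) l (𝓝 (v i (B.N om z))) :=
    fun i => (hv i).tendsto.comp hN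
  have h3 : Tendsto (fun x => B.V v om (p x)) l (𝓝 (B.V v om z)) := by
    simp only [jump_V, Bg.comb]
    exact (((hv' 0).const_mul _).add ((hv' 1).const_mul _)).add ((hv' 2).const_mul _)
  refine h3.congr' ?_
  filter_upwards [he] with x hx
  simp only [jump_V, Bg.comb]
  rw [hx 0, hx 1, hx 2]

theorem jump_path (x : ℂ) : Tendsto (fun δ : ℝ => x - δ * I) (𝓝[>] 0) (𝓝 x) := by
  have : Tendsto (fun δ : ℝ => x - δ * I) (𝓝 0) (𝓝 (x - ((0:ℝ):ℂ) * I)) :=
    (continuous_const.sub (Complex.continuous_ofReal.mul continuous_const)).tendsto 0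
  rw [Complex.ofReal_zero, zero_mul, sub_zero] at this
  exact this.mono_left nhdsWithin_le_nhds

theorem isOpen_Sec (c r : ℝ) : IsOpen (Sec c r) := by
  unfold Sec
  apply IsOpen.inter
  · exact isOpen_lt continuous_norm continuous_const
  · exact isOpen_lt (continuous_abs.comp Complex.continuous_im)
      (continuous_const.mul Complex.continuous_re.neg)

section

variable {B : Bg} {f : Fin 3 → ℂ → ℂ} {n : ℤ} (S : Slit B f n) {w z0 : ℝ} (hS : Sgn B w z0)
  {om : ℝ} (h0 : 0 < om) (h1 : om < w)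

include hS h0 h1

theorem jump_om_lt : ‖(om : ℂ)‖ < B.r := by
  rw [Complex.norm_real, Real.norm_eq_abs, abs_of_pos h0]
  exact h1.trans_le hS.w_le

theorem jump_mem_Sec {x : ℝ} (hx : om / 2 < |x|) (hx1 : |x| < z0) (hq : ‖B.N om x‖ < S.rq) :
    B.N om x ∈ Sec S.c4 S.rq := by
  refine ⟨hq, ?_⟩
  rw [hS.real om h0.le h1 x hx1, abs_zero]
  exact mul_pos S.c4_pos (neg_pos.2 (hS.neg om h0.le h1 x hx hx1))

theorem jump_side_R {x : ℝ} (hx : om / 2 < x) (hx1 : x < z0) (hq : ‖B.N om x‖ < S.rq) :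
    Tendsto (fun δ : ℝ => B.V S.ul om ((x : ℂ) - δ * I)) (𝓝[>] 0) (𝓝 (B.V S.uR om x)) := by
  have hx0 : 0 < x := (half_pos h0).trans hx
  have hom := jump_om_lt hS h0 h1
  have hxr : ‖(x : ℂ)‖ < z0 := by
    rw [Complex.norm_real, Real.norm_eq_abs, abs_of_pos hx0]
    exact hx1
  have hmem : B.N om x ∈ Sec S.c4 S.rq :=
    jump_mem_Sec S hS h0 h1 (by rwa [abs_of_pos hx0]) (by rwa [abs_of_pos hx0]) hq
  have hp := jump_path x
  refine jump_V_tendsto B hom (hxr.trans_le hS.z0_le)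
    (fun i => (S.uR_an i _ hmem).continuousAt) hp ?_
  have hN : Tendsto (fun δ : ℝ => B.N om ((x : ℂ) - δ * I)) (𝓝[>] 0) (𝓝 (B.N om x)) :=
    (B.jump_N_an1 hom (hxr.trans_le hS.z0_le)).continuousAt.tendsto.comp hp
  filter_upwards [hN.eventually ((isOpen_Sec _ _).mem_nhds hmem),
    hp.norm.eventually (gt_mem_nhds hxr), self_mem_nhdsWithin] with δ h2 h3 h4 i
  have h4' : 0 < δ := h4
  apply S.eqR i _ h2
  apply hS.right om h0.le h1 _ h3
  · simpa using hx0
  · simpa using h4'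

theorem jump_side_L {x : ℝ} (hx : om / 2 < x) (hx1 : x < z0) (hq : ‖B.N om (-x : ℝ)‖ < S.rq) :
    Tendsto (fun δ : ℝ => B.V S.ul om (((-x : ℝ) : ℂ) - δ * I)) (𝓝[>] 0)
      (𝓝 (B.V S.uL om (-x : ℝ))) := by
  have hx0 : 0 < x := (half_pos h0).trans hx
  have hom := jump_om_lt hS h0 h1
  have hxr : ‖((-x : ℝ) : ℂ)‖ < z0 := by
    rw [Complex.norm_real, Real.norm_eq_abs, abs_neg, abs_of_pos hx0]
    exact hx1
  have hmem : B.N om (-x : ℝ) ∈ Sec S.c4 S.rq :=
    jump_mem_Sec S hS h0 h1 (by rwa [abs_neg, abs_of_pos hx0])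
      (by rwa [abs_neg, abs_of_pos hx0]) hq
  have hp := jump_path ((-x : ℝ) : ℂ)
  refine jump_V_tendsto B hom (hxr.trans_le hS.z0_le)
    (fun i => (S.uL_an i _ hmem).continuousAt) hp ?_
  have hN : Tendsto (fun δ : ℝ => B.N om (((-x : ℝ) : ℂ) - δ * I)) (𝓝[>] 0)
      (𝓝 (B.N om (-x : ℝ))) :=
    (B.jump_N_an1 hom (hxr.trans_le hS.z0_le)).continuousAt.tendsto.comp hp
  filter_upwards [hN.eventually ((isOpen_Sec _ _).mem_nhds hmem),
    hp.norm.eventually (gt_mem_nhds hxr), self_mem_nhdsWithin] with δ h2 h3 h4 i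
  have h4' : 0 < δ := h4
  apply S.eqL i _ h2
  apply hS.left om h0.le h1 _ h3
  · simpa using hx0
  · simpa using h4'

theorem jump_mid {x : ℝ} (hx : |x| < om / 2) (hq : ‖B.N om x‖ < S.rq) :
    Tendsto (fun δ : ℝ => B.V S.ul om ((x : ℂ) - δ * I)) (𝓝[>] 0) (𝓝 (B.V S.ul om x)) := by
  have hom := jump_om_lt hS h0 h1
  have hxz : |x| < z0 := by
    have := hS.w_le'
    linarith
  have hxr : ‖(x : ℂ)‖ < z0 := by
    rwa [Complex.norm_real, Real.norm_eq_abs]
  have hmem : B.N om x ∈ slitPlane ∩ ball 0 S.rq :=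
    ⟨Or.inl (hS.pos om h0.le h1 x hx), by simpa using hq⟩
  exact jump_V_tendsto B hom (hxr.trans_le hS.z0_le)
    (fun i => (S.ul_an i _ hmem).continuousAt) (jump_path x) (Eventually.of_forall fun _ _ => rfl)

/-- the jump relation -/
theorem jump_rel {e : ℝ} (he : 0 < e) {R : ℂ → ℂ} (hR : AnalyticOnNhd ℂ R (ball 0 e))
    (hrel : ∀ z ∈ ball (0:ℂ) e, z.im < 0 →
      R z = B.V S.ul om (z - om / 2) + B.V S.ul om (z + om / 2)) :
    ∀ᶠ t : ℝ in 𝓝[>] 0, B.comb om (fun i => S.uR i (B.N om (om / 2 + t)) -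
      S.uL i (B.N om (om / 2 + t))) = R t - R (-t) := by
  have hom := jump_om_lt hS h0 h1
  have hz0 : om / 2 < z0 := by
    have := hS.w_le'
    linarith
  have hnorm : ∀ c : ℝ, |c| < B.rho → B.N om c = 0 → ∀ s : ℝ,
      ∀ᶠ t in 𝓝[>] (0:ℝ), ‖B.N om ((c + s * t : ℝ) : ℂ)‖ < S.rq := by
    intro c hc hc0 s
    have a1 : Tendsto (fun t : ℝ => ((c + s * t : ℝ) : ℂ)) (𝓝[>] 0) (𝓝 (c : ℂ)) := by
      have : Tendsto (fun t : ℝ => ((c + s * t : ℝ) : ℂ)) (𝓝 0) (𝓝 ((c + s * 0 : ℝ) : ℂ)) :=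
        (Complex.continuous_ofReal.comp (by fun_prop :
          Continuous fun t : ℝ => c + s * t)).tendsto 0
      rw [mul_zero, add_zero] at this
      exact this.mono_left nhdsWithin_le_nhds
    have hc' : ‖(c : ℂ)‖ < B.rho := by rwa [Complex.norm_real, Real.norm_eq_abs]
    have a2 := ((B.jump_N_an1 hom hc').continuousAt.tendsto.comp a1).norm
    rw [hc0, norm_zero] at a2
    exact a2.eventually (gt_mem_nhds S.rq_pos)
  have hhalf : B.N om ((om / 2 : ℝ) : ℂ) = 0 := by
    have := B.jump_N_half hom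
    push_cast
    exact this
  have hz0r : |om / 2| < B.rho := by
    rw [abs_of_pos (half_pos h0)]
    exact hz0.trans_le hS.z0_le
  have hhalf' : B.N om ((-(om / 2) : ℝ) : ℂ) = 0 := by
    rw [Complex.ofReal_neg, B.jump_N_even hom (by rwa [Complex.norm_real, Real.norm_eq_abs]),
      hhalf]
  have e1 := hnorm (om / 2) hz0r hhalf 1
  have e2 := hnorm (-(om / 2)) (by rwa [abs_neg]) hhalf' 1
  have e3 := hnorm (om / 2) hz0r hhalf (-1)
  have e4 := hnorm (-(om / 2)) (by rwa [abs_neg]) hhalf' (-1)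
  have e5 : Ioo (0:ℝ) (min (min e om) (z0 - om / 2)) ∈ 𝓝[>] (0:ℝ) :=
    Ioo_mem_nhdsGT (lt_min (lt_min he h0) (sub_pos.2 hz0))
  filter_upwards [e1, e2, e3, e4, e5] with t g1 g2 g3 g4 g5
  have t0 : 0 < t := g5.1
  have te : t < e := g5.2.trans_le ((min_le_left _ _).trans (min_le_left _ _))
  have tom : t < om := g5.2.trans_le ((min_le_left _ _).trans (min_le_right _ _))
  have tz : t < z0 - om / 2 := g5.2.trans_le (min_le_right _ _)
  have hnt : ‖(t : ℂ)‖ < e := by
    rwa [Complex.norm_real, Real.norm_eq_abs, abs_of_pos t0]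
  -- the right side
  have R1 : R t = B.V S.ul om ((-(om / 2) + 1 * t : ℝ) : ℂ) +
      B.V S.uR om ((om / 2 + 1 * t : ℝ) : ℂ) := by
    have l1 : Tendsto (fun δ : ℝ => R ((t : ℂ) - δ * I)) (𝓝[>] 0) (𝓝 (R t)) :=
      (hR _ (by simpa using hnt)).continuousAt.tendsto.comp (jump_path t)
    have l2 := jump_mid S hS h0 h1 (x := -(om / 2) + 1 * t)
      (by rw [abs_lt]; constructor <;> linarith) g2
    have l3 := jump_side_R S hS h0 h1 (x := om / 2 + 1 * t) (by linarith) (by linarith) g1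
    refine tendsto_nhds_unique (l1.congr' ?_) (l2.add l3)
    filter_upwards [(jump_path t).norm.eventually (gt_mem_nhds hnt), self_mem_nhdsWithin]
      with δ k1 k2
    have k2' : 0 < δ := k2
    rw [hrel _ (by simpa using k1) (by simpa using k2')]
    congr 2
    · push_cast
      ring
    · push_cast
      ring
  have R2 : R (-t) = B.V S.uL om ((-(om / 2 + t) : ℝ) : ℂ) +
      B.V S.ul om ((om / 2 + (-1) * t : ℝ) : ℂ) := by
    have hnt' : ‖(-t : ℂ)‖ < e := by rwa [norm_neg]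
    have l1 : Tendsto (fun δ : ℝ => R ((-t : ℂ) - δ * I)) (𝓝[>] 0) (𝓝 (R (-t))) :=
      (hR _ (by simpa using hnt')).continuousAt.tendsto.comp (jump_path (-t))
    have l2 := jump_mid S hS h0 h1 (x := om / 2 + (-1) * t)
      (by rw [abs_lt]; constructor <;> linarith) g3
    have l3 := jump_side_L S hS h0 h1 (x := om / 2 + t) (by linarith) (by linarith) (by
      have : -(om / 2) + (-1) * t = -(om / 2 + t) := by ring
      rwa [this] at g4)
    refine tendsto_nhds_unique (l1.congr' ?_) (l3.add l2)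
    filter_upwards [(jump_path (-t)).norm.eventually (gt_mem_nhds hnt'), self_mem_nhdsWithin]
      with δ k1 k2
    have k2' : 0 < δ := k2
    rw [hrel _ (by simpa using k1) (by simpa using k2')]
    congr 2
    · push_cast
      ring
    · push_cast
      ring
  have hR1 : |om / 2 + t| < B.rho := by
    rw [abs_of_pos (by positivity)]
    have := hS.z0_le
    linarith
  have V1 : B.V S.uL om ((-(om / 2 + t) : ℝ) : ℂ) =
      B.comb om fun i => S.uL i (B.N om (om / 2 + t)) := by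
    rw [jump_V, Complex.ofReal_neg, B.jump_N_even hom
      (by rwa [Complex.norm_real, Real.norm_eq_abs])]
    push_cast
    rfl
  have V2 : B.V S.uR om ((om / 2 + 1 * t : ℝ) : ℂ) =
      B.comb om fun i => S.uR i (B.N om (om / 2 + t)) := by
    rw [jump_V, one_mul]
    push_cast
    rfl
  have V3 : B.V S.ul om ((-(om / 2) + 1 * t : ℝ) : ℂ) =
      B.V S.ul om ((om / 2 + (-1) * t : ℝ) : ℂ) := by
    have : (-(om / 2) + 1 * t : ℝ) = -(om / 2 + (-1) * t) := by ring
    rw [this, jump_V, jump_V, Complex.ofReal_neg, B.jump_N_even hom]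
    rw [Complex.norm_real, Real.norm_eq_abs, abs_lt]
    have := hS.z0_le
    constructor <;> linarith
  rw [R1, R2, V1, V2, V3]
  unfold Bg.comb
  ring

/-- the analytic extension of the jump for one `om` -/
theorem jump_A (h2 : 10 * B.K * om ^ 2 < B.kap) {e : ℝ} (he : 0 < e) {R : ℂ → ℂ}
    (hR : AnalyticOnNhd ℂ R (ball 0 e))
    (hrel : ∀ z ∈ ball (0:ℂ) e, z.im < 0 →
      R z = B.V S.ul om (z - om / 2) + B.V S.ul om (z + om / 2)) :
    ∃ A : ℂ → ℂ, AnalyticAt ℂ A 0 ∧
      (∀ᶠ q : ℝ in 𝓝[<] 0, B.comb om (fun i => S.uR i q - S.uL i q) = A q) ∧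
      ∀ᶠ t in 𝓝 (0:ℂ), A (B.N om (om / 2 + t)) + A (B.N om (om / 2 - t)) = 0 := by
  have hom := jump_om_lt hS h0 h1
  have hne : (om : ℂ) ≠ 0 := by exact_mod_cast h0.ne'
  have hhalf := B.jump_half_lt hom
  have hn0 : B.N om (om / 2 + 0) = 0 := by rw [add_zero, B.jump_N_half hom]
  have hnan : AnalyticAt ℂ (fun t : ℂ => B.N om (om / 2 + t)) 0 := by
    have a1 : AnalyticAt ℂ (B.N om) (om / 2 + 0) := by
      rw [add_zero]
      exact B.jump_N_an1 hom hhalf
    exact AnalyticAt.comp (g := B.N om) (f := fun t : ℂ => (om : ℂ) / 2 + t) a1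
      (analyticAt_const.add analyticAt_id)
  have hder : deriv (fun t : ℂ => B.N om (om / 2 + t)) 0 ≠ 0 := by
    apply B.jump_n_deriv hne hom
    rwa [Complex.norm_real, Real.norm_eq_abs, sq_abs]
  set ν : ℂ → ℂ := hnan.hasStrictDerivAt.localInverse _ _ _ hder with hν
  have hνan : AnalyticAt ℂ ν 0 := by
    have := hnan.analyticAt_localInverse hder
    simp only [hn0] at this
    exact this
  have hνl : ∀ᶠ t in 𝓝 (0:ℂ), ν (B.N om (om / 2 + t)) = t :=
    hnan.hasStrictDerivAt.eventually_left_inverse hder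
  have hν0 : ν 0 = 0 := by
    have := hνl.self_of_nhds
    rwa [hn0] at this
  have hOan : AnalyticAt ℂ (fun t : ℂ => R t - R (-t)) 0 := by
    have b1 : AnalyticAt ℂ R 0 := hR 0 (mem_ball_self he)
    have b2 : AnalyticAt ℂ R (-(0:ℂ)) := by rwa [neg_zero]
    exact b1.sub (AnalyticAt.comp (g := R) (f := fun t : ℂ => -t) b2 analyticAt_id.neg)
  set A : ℂ → ℂ := fun q => R (ν q) - R (-ν q) with hA
  have hAan : AnalyticAt ℂ A 0 := by
    have b1 : AnalyticAt ℂ (fun t : ℂ => R t - R (-t)) (ν 0) := by rwa [hν0]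
    exact AnalyticAt.comp (g := fun t : ℂ => R t - R (-t)) (f := ν) b1 hνan
  have hAn : ∀ᶠ t in 𝓝 (0:ℂ), A (B.N om (om / 2 + t)) = R t - R (-t) := by
    filter_upwards [hνl] with t ht
    simp only [hA, ht]
  refine ⟨A, hAan, ?_, ?_⟩
  · -- the real axis
    have hz0 : om / 2 < z0 := by
      have := hS.w_le'
      linarith
    set a : ℝ := (z0 - om / 2) / 2 with ha
    have ha0 : 0 < a := by
      rw [ha]
      linarith
    have hcast : ∀ t : ℝ, (om : ℂ) / 2 + t = ((om / 2 + t : ℝ) : ℂ) := fun t => by push_cast; rfl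
    have hreal : ∀ t : ℝ, 0 ≤ t → t ≤ a → B.N om (om / 2 + t) =
        (((B.N om (om / 2 + t)).re : ℝ) : ℂ) := by
      intro t ht0 hta
      apply Complex.ext
      · rw [Complex.ofReal_re]
      · rw [Complex.ofReal_im, hcast]
        apply hS.real om h0.le h1
        rw [abs_of_nonneg (by positivity)]
        rw [ha] at hta
        linarith
    refine jump_ivt (g := fun t : ℝ => (B.N om (om / 2 + t)).re) (a := a)
      (P := fun q : ℝ => B.comb om (fun i => S.uR i q - S.uL i q) = A q) ha0 ?_ ?_ ?_ ?_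
    · intro t ht
      apply ContinuousAt.continuousWithinAt
      have hlt : ‖(om : ℂ) / 2 + t‖ < B.rho := by
        rw [hcast, Complex.norm_real, Real.norm_eq_abs, abs_of_nonneg
          (by have := ht.1; positivity)]
        have := ht.2
        rw [ha] at this
        have := hS.z0_le
        linarith
      have c1 : ContinuousAt (B.N om) ((fun t : ℝ => (om : ℂ) / 2 + (t : ℂ)) t) :=
        (B.jump_N_an1 hom hlt).continuousAt
      have c2 : ContinuousAt (fun t : ℝ => (om : ℂ) / 2 + (t : ℂ)) t := by fun_prop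
      have c3 : ContinuousAt (fun t : ℝ => B.N om ((om : ℂ) / 2 + (t : ℂ))) t :=
        ContinuousAt.comp (g := B.N om) (f := fun t : ℝ => (om : ℂ) / 2 + (t : ℂ)) c1 c2
      exact Complex.continuous_re.continuousAt.comp c3
    · show (B.N om (om / 2 + ((0:ℝ):ℂ))).re = 0
      rw [Complex.ofReal_zero, hn0, Complex.zero_re]
    · intro t ht0 hta
      show (B.N om (om / 2 + t)).re < 0
      rw [hcast]
      apply hS.neg om h0.le h1
      · rw [abs_of_pos (by positivity)]
        linarith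
      · rw [abs_of_pos (by positivity)]
        rw [ha] at hta
        linarith
    · have d1 := jump_rel S hS h0 h1 he hR hrel
      have d2 : ∀ᶠ t : ℝ in 𝓝[>] 0, A (B.N om (om / 2 + t)) = R t - R (-t) := by
        have : Tendsto (fun t : ℝ => (t : ℂ)) (𝓝[>] 0) (𝓝 0) := by
          have := Complex.continuous_ofReal.tendsto 0
          rw [Complex.ofReal_zero] at this
          exact this.mono_left nhdsWithin_le_nhds
        exact this.eventually hAn
      filter_upwards [d1, d2, Ioo_mem_nhdsGT ha0] with t k1 k2 k3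
      rw [← hreal t k3.1.le k3.2.le, k2]
      exact k1
  · have c1 : ∀ᶠ t in 𝓝 (0:ℂ), A (B.N om (om / 2 + -t)) = R (-t) - R (- -t) := by
      have : Tendsto (fun t : ℂ => -t) (𝓝 0) (𝓝 0) := by
        have := (continuous_neg (G := ℂ)).tendsto 0
        rwa [neg_zero] at this
      exact this.eventually hAn
    filter_upwards [hAn, c1] with t k1 k2
    rw [k1, sub_eq_add_neg (om / 2 : ℂ) t, k2, neg_neg]
    ring

end

end Pool.Agent.MP_ae5b4e_an_LOC
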