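import Mathlib
import Pool.Agent.Lib.MP_ae5b4e_an_LOC.JumpC

/-!
# LOC, LT-12: the values of the two sides of a base point agree

PROOF (master text, LT-12).  `J i := uR i - uL i` on `Sec c4 rq`.  For real `om ∈ (0, w)` take `e`,
`R` from `hrel`, `Lam := B.Lam om`, `n t := B.N om (om / 2 + t)`.
(1) Let `z → t` and `z → -t` (`0 < t < e` small) from `im z < 0` in `hrel`: with `Sgn` (signs of
`N`), `Slit.eqR`, `Slit.eqL` and `N om (-z) = N om z` (`s_odd`)
  `R t = V uR om (t + om / 2) + V ul om (t - om / 2)`,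
  `R (-t) = V uL om (t + om / 2) + V ul om (om / 2 - t)`,
hence `B.comb om (fun i => J i (n t)) = R t - R (-t) =: O t` for small `t > 0`, `O` odd, analytic.
(2) `n 0 = 0`, `deriv n 0 ≠ 0` (`s_inj`: an injective analytic function has nonzero derivative, and
`s om (om / 2) ≠ 0`), so `q ↦ O (n⁻¹ q)` is analytic at `0` and equal to `B.comb om (J · q)` for
small negative `q`.  Three values of `om` with distinct `Lam om / om ^ 2` (it tends to infinity as
`om → 0`, `Lam_ne`): Vandermonde gives `r > 0` and `Jh i` analytic on `ball 0 r` with `Jh i q = J i q`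
for `q ∈ (-r, 0)`.
(3) Now for all real `om ∈ (0, w3)`: `A om q := B.comb om (fun i => Jh i q)` satisfies
`A om (n t) + A om (n (-t)) = 0` for small `t > 0` by (1) and oddness, hence for `|t| < t0`, `t0`
independent of `om` (identity theorem on a disc; `N` is continuous at `(0, 0)`).
`om → 0`: `2 Lam(0) ^ 2 Jh 2 (- s 0 t ^ 2) = 0`, so `Jh 2 = 0` near `0` (open mapping, or: on the
negative axis near `0`, then identity theorem); divide by `om ^ 2`: `Jh 1 = 0`; then `Jh 0 = 0`.
(4) So `J i = 0` on `(-r, 0)`, hence on the convex set `Sec c4 rq`.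
(5) `u i q := if q ∈ slitPlane then ul i q else uR i q`.  It is analytic on `ball 0 rq \ {0}`: at a
negative `q0` it is equal to `uR i` near `q0` (`eqR`, `eqL`, (4)).
-/

set_option autoImplicit false

noncomputable section

namespace Pool.Agent.MP_ae5b4e_an_LOC

open Set Metric Complex ComplexConjugate Filter Topology

theorem jump_ofReal_lt : Tendsto (fun q : ℝ => (q : ℂ)) (𝓝[<] 0) (𝓝[≠] 0) := by
  apply tendsto_nhdsWithin_of_tendsto_nhds_of_eventually_within
  · have := Complex.continuous_ofReal.tendsto 0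
    rw [Complex.ofReal_zero] at this
    exact this.mono_left nhdsWithin_le_nhds
  · filter_upwards [self_mem_nhdsWithin] with q hq
    have : q < 0 := hq
    simpa using this.ne

/-- LT-12 on the negative axis near `0` -/
theorem jump_germ {B : Bg} {f : Fin 3 → ℂ → ℂ} {n : ℤ} (S : Slit B f n) {w z0 : ℝ}
    (hS : Sgn B w z0) {w2 : ℝ} (hw2 : 0 < w2)
    (hrel : ∀ om : ℝ, 0 < om → om < w2 → ∃ e > 0, ∃ R : ℂ → ℂ, AnalyticOnNhd ℂ R (ball 0 e) ∧
      ∀ z ∈ ball (0:ℂ) e, z.im < 0 → R z = B.V S.ul om (z - om / 2) + B.V S.ul om (z + om / 2)) :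
    ∀ i, ∀ᶠ q : ℝ in 𝓝[<] 0, S.uR i q = S.uL i q := by
  have hK : 0 < B.K := zero_lt_one.trans_le B.one_le_K
  set w3 : ℝ := min (min w w2) (min 1 (B.kap / (10 * B.K))) with hw3d
  have hw3 : 0 < w3 :=
    lt_min (lt_min hS.w_pos hw2) (lt_min one_pos (div_pos B.kap_pos (by positivity)))
  have hA : ∀ om : ℝ, 0 < om → om < w3 → ∃ A : ℂ → ℂ, AnalyticAt ℂ A 0 ∧
      (∀ᶠ q : ℝ in 𝓝[<] 0, B.comb om (fun i => S.uR i q - S.uL i q) = A q) ∧
      ∀ᶠ t in 𝓝 (0:ℂ), A (B.N om (om / 2 + t)) + A (B.N om (om / 2 - t)) = 0 := by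
    intro om h0 h1
    have a1 : om < w := h1.trans_le ((min_le_left _ _).trans (min_le_left _ _))
    have a2 : om < w2 := h1.trans_le ((min_le_left _ _).trans (min_le_right _ _))
    have a3 : om < 1 := h1.trans_le ((min_le_right _ _).trans (min_le_left _ _))
    have a4 : om < B.kap / (10 * B.K) := h1.trans_le ((min_le_right _ _).trans (min_le_right _ _))
    have a5 : 10 * B.K * om ^ 2 < B.kap := by
      rw [lt_div_iff₀ (by positivity)] at a4
      have : om ^ 2 ≤ om := by nlinarith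
      have h10 : 0 < 10 * B.K := by positivity
      nlinarith
    obtain ⟨e, he, R, hR, hr⟩ := hrel om h0 a2
    exact jump_A S hS h0 a1 a5 he hR hr
  obtain ⟨ω, hω, hinj⟩ := jump_three B hw3
  have hA' : ∀ k, ∃ A : ℂ → ℂ, AnalyticAt ℂ A 0 ∧
      (∀ᶠ q : ℝ in 𝓝[<] 0, B.comb (ω k) (fun i => S.uR i q - S.uL i q) = A q) := by
    intro k
    obtain ⟨A, h1, h2, _⟩ := hA (ω k) (hω k).1 (hω k).2
    exact ⟨A, h1, h2⟩
  choose A hAan hAeq using hA'
  obtain ⟨c, hc⟩ := jump_vdm hinj
  set J : Fin 3 → ℂ → ℂ := fun i q => ∑ k, c i k * (A k q / (ω k : ℂ) ^ 4) with hJ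
  have hJan : ∀ i, AnalyticAt ℂ (J i) 0 := by
    intro i
    simp only [hJ]
    apply Finset.analyticAt_fun_sum
    intro k _
    exact analyticAt_const.mul (hAan k).div_const
  have hJeq : ∀ i, ∀ᶠ q : ℝ in 𝓝[<] 0, S.uR i q - S.uL i q = J i q := by
    intro i
    have : ∀ᶠ q : ℝ in 𝓝[<] 0, ∀ k, B.comb (ω k) (fun i => S.uR i q - S.uL i q) = A k q :=
      eventually_all.2 hAeq
    filter_upwards [this] with q hq
    simp only [hJ]
    refine (hc (fun i => S.uR i q - S.uL i q) i).trans ?_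
    apply Finset.sum_congr rfl
    intro k _
    rw [← hq k]
    have hk : (ω k : ℂ) ≠ 0 := by exact_mod_cast (hω k).1.ne'
    congr 1
    unfold Bg.comb
    field_simp
  -- the identity for all small `om`
  have hD : ∀ om : ℝ, 0 < om → om < w3 → ∀ᶠ t in 𝓝 (0:ℂ),
      B.comb om (fun i => J i (B.N om (om / 2 + t))) +
        B.comb om (fun i => J i (B.N om (om / 2 - t))) = 0 := by
    intro om h0 h1
    have hom : ‖(om : ℂ)‖ < B.r :=
      jump_om_lt hS h0 (h1.trans_le ((min_le_left _ _).trans (min_le_left _ _)))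
    obtain ⟨A', a1, a2, a3⟩ := hA om h0 h1
    have a4 : ∀ᶠ q : ℝ in 𝓝[<] 0, B.comb om (fun i => J i q) = A' q := by
      filter_upwards [eventually_all.2 hJeq, a2] with q h2 h3
      rw [← h3]
      congr 1
      funext i
      exact (h2 i).symm
    have a5 : AnalyticAt ℂ (fun q : ℂ => B.comb om (fun i => J i q)) 0 := by
      unfold Bg.comb
      exact ((analyticAt_const.mul (hJan 0)).add (analyticAt_const.mul (hJan 1))).add
        (analyticAt_const.mul (hJan 2))
    have a6 : ∀ᶠ q in 𝓝 (0:ℂ), B.comb om (fun i => J i q) = A' q :=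
      (a5.frequently_eq_iff_eventually_eq a1).1 (jump_ofReal_lt.frequently a4.frequently)
    have hN : ∀ s : ℂ, Tendsto (fun t : ℂ => B.N om (om / 2 + s * t)) (𝓝 0) (𝓝 0) := by
      intro s
      have hhalf := B.jump_half_lt hom
      have b1 : ContinuousAt (B.N om) ((fun t : ℂ => (om : ℂ) / 2 + s * t) 0) := by
        simp only [mul_zero, add_zero]
        exact (B.jump_N_an1 hom hhalf).continuousAt
      have b2 := ContinuousAt.comp (g := B.N om) (f := fun t : ℂ => (om : ℂ) / 2 + s * t) b1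
        (by fun_prop)
      unfold ContinuousAt at b2
      simp only [Function.comp_def, mul_zero, add_zero, B.jump_N_half hom] at b2
      exact b2
    have a7 := (hN 1).eventually a6
    have a8 := (hN (-1)).eventually a6
    filter_upwards [a3, a7, a8] with t k1 k2 k3
    rw [one_mul] at k2
    rw [neg_one_mul, ← sub_eq_add_neg] at k3
    rw [k2, k3, k1]
  -- a common disc
  have hball : ∀ᶠ q in 𝓝 (0:ℂ), ∀ i, AnalyticAt ℂ (J i) q :=
    eventually_all.2 fun i => (hJan i).eventually_analyticAt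
  obtain ⟨r0, hr0, hr0'⟩ := Metric.eventually_nhds_iff_ball.1 hball
  set r1 := min r0 B.r with hr1d
  have hr1 : 0 < r1 := lt_min hr0 B.r_pos
  have hJ1 : ∀ i, ∀ p ∈ (ball (0:ℂ) r1 ×ˢ ball (0:ℂ) r1 : Set (ℂ × ℂ)),
      AnalyticAt ℂ (fun p : ℂ × ℂ => J i p.2) p := by
    intro i p hp
    exact AnalyticAt.comp (g := J i) (f := fun p : ℂ × ℂ => p.2)
      (hr0' _ (ball_subset_ball (min_le_left _ _) hp.2) i) analyticAt_snd
  have hL1 : ∀ p ∈ (ball (0:ℂ) r1 ×ˢ ball (0:ℂ) r1 : Set (ℂ × ℂ)),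
      AnalyticAt ℂ (fun p : ℂ × ℂ => B.Lam p.1) p := by
    intro p hp
    exact AnalyticAt.comp (g := B.Lam) (f := fun p : ℂ × ℂ => p.1)
      (B.Lam_an _ (ball_subset_ball (min_le_right _ _) hp.1)) analyticAt_fst
  have hL0 : B.Lam 0 ≠ 0 := B.Lam_ne 0 (by simpa using B.r_pos)
  have hNs : ∀ om : ℝ, 0 < om → om < w3 → ∀ s : ℂ,
      Tendsto (fun t : ℂ => B.N om (om / 2 + s * t)) (𝓝 0) (𝓝 0) := by
    intro om h0 h1 s
    have hom : ‖(om : ℂ)‖ < B.r :=
      jump_om_lt hS h0 (h1.trans_le ((min_le_left _ _).trans (min_le_left _ _)))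
    have hhalf := B.jump_half_lt hom
    have b1 : ContinuousAt (B.N om) ((fun t : ℂ => (om : ℂ) / 2 + s * t) 0) := by
      simp only [mul_zero, add_zero]
      exact (B.jump_N_an1 hom hhalf).continuousAt
    have b2 := ContinuousAt.comp (g := B.N om) (f := fun t : ℂ => (om : ℂ) / 2 + s * t) b1
      (by fun_prop)
    unfold ContinuousAt at b2
    simp only [Function.comp_def, mul_zero, add_zero, B.jump_N_half hom] at b2
    exact b2
  have hpull : ∀ (g : ℂ → ℂ), (∀ᶠ q in 𝓝 (0:ℂ), g q = 0) → ∀ om : ℝ, 0 < om → om < w3 →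
      ∀ᶠ t in 𝓝 (0:ℂ), g (B.N om (om / 2 + t)) = 0 ∧ g (B.N om (om / 2 - t)) = 0 := by
    intro g hg om h0 h1
    filter_upwards [(hNs om h0 h1 1).eventually hg, (hNs om h0 h1 (-1)).eventually hg]
      with t k1 k2
    rw [one_mul] at k1
    rw [neg_one_mul, ← sub_eq_add_neg] at k2
    exact ⟨k1, k2⟩
  -- `J 2 = 0`
  have hJ2 : ∀ᶠ q in 𝓝 (0:ℂ), J 2 q = 0 := by
    have := jump_Z B hw3 hr1
      (H := fun om q => om ^ 4 * J 0 q + om ^ 2 * B.Lam om * J 1 q + B.Lam om ^ 2 * J 2 q)
      (fun p hp => (((analyticAt_fst.pow 4).mul (hJ1 0 p hp)).add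
        (((analyticAt_fst.pow 2).mul (hL1 p hp)).mul (hJ1 1 p hp))).add
        (((hL1 p hp).pow 2).mul (hJ1 2 p hp))) hD
    filter_upwards [this] with q hq
    have h2 : B.Lam 0 ^ 2 * J 2 q = 0 := by linear_combination hq
    exact (mul_eq_zero.1 h2).resolve_left (pow_ne_zero _ hL0)
  have hJ1' : ∀ᶠ q in 𝓝 (0:ℂ), J 1 q = 0 := by
    have := jump_Z B hw3 hr1 (H := fun om q => om ^ 2 * J 0 q + B.Lam om * J 1 q)
      (fun p hp => ((analyticAt_fst.pow 2).mul (hJ1 0 p hp)).add
        ((hL1 p hp).mul (hJ1 1 p hp))) (by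
        intro om h0 h1
        filter_upwards [hD om h0 h1, hpull _ hJ2 om h0 h1] with t k1 k2
        simp only [Bg.comb, k2.1, k2.2] at k1
        have hne : (om : ℂ) ≠ 0 := by exact_mod_cast h0.ne'
        have h3 : (om : ℂ) ^ 2 * ((om ^ 2 * J 0 (B.N om (om / 2 + t)) +
            B.Lam om * J 1 (B.N om (om / 2 + t))) + (om ^ 2 * J 0 (B.N om (om / 2 - t)) +
            B.Lam om * J 1 (B.N om (om / 2 - t)))) = 0 := by linear_combination k1
        exact (mul_eq_zero.1 h3).resolve_left (pow_ne_zero _ hne))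
    filter_upwards [this] with q hq
    have h2 : B.Lam 0 * J 1 q = 0 := by linear_combination hq
    exact (mul_eq_zero.1 h2).resolve_left hL0
  have hJ0 : ∀ᶠ q in 𝓝 (0:ℂ), J 0 q = 0 := by
    have := jump_Z B hw3 hr1 (H := fun _ q => J 0 q)
      (fun p hp => hJ1 0 p hp) (by
        intro om h0 h1
        filter_upwards [hD om h0 h1, hpull _ hJ2 om h0 h1, hpull _ hJ1' om h0 h1] with t k1 k2 k3
        simp only [Bg.comb, k2.1, k2.2, k3.1, k3.2] at k1
        have hne : (om : ℂ) ≠ 0 := by exact_mod_cast h0.ne'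
        have h3 : (om : ℂ) ^ 4 * (J 0 (B.N om (om / 2 + t)) + J 0 (B.N om (om / 2 - t))) = 0 := by
          linear_combination k1
        exact (mul_eq_zero.1 h3).resolve_left (pow_ne_zero _ hne))
    exact this
  have hJall : ∀ i, ∀ᶠ q in 𝓝 (0:ℂ), J i q = 0 := by
    intro i
    fin_cases i
    · exact hJ0
    · exact hJ1'
    · exact hJ2
  intro i
  have h4 : ∀ᶠ q : ℝ in 𝓝[<] 0, J i q = 0 :=
    (jump_ofReal_lt.mono_right nhdsWithin_le_nhds).eventually (hJall i)
  filter_upwards [h4, hJeq i] with q k1 k2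
  rw [k1] at k2
  exact sub_eq_zero.1 k2

theorem convex_Sec (c r : ℝ) : Convex ℝ (Sec c r) := by
  have h1 : Sec c r = ball (0:ℂ) r ∩ ({q : ℂ | q.im + c * q.re < 0} ∩
      {q : ℂ | -q.im + c * q.re < 0}) := by
    ext q
    simp only [Sec, mem_setOf_eq, mem_inter_iff, mem_ball_zero_iff, abs_lt]
    constructor
    · rintro ⟨h1, h2, h3⟩
      exact ⟨h1, by linarith, by linarith⟩
    · rintro ⟨h1, h2, h3⟩
      exact ⟨h1, by linarith, by linarith⟩
  rw [h1]
  refine (convex_ball 0 r).inter (Convex.inter ?_ ?_)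
  · apply convex_halfSpace_lt (𝕜 := ℝ) (f := fun q : ℂ => q.im + c * q.re)
    constructor
    · intro x y
      simp only [Complex.add_im, Complex.add_re]
      ring
    · intro a x
      simp only [Complex.smul_im, Complex.smul_re, smul_eq_mul]
      ring
  · apply convex_halfSpace_lt (𝕜 := ℝ) (f := fun q : ℂ => -q.im + c * q.re)
    constructor
    · intro x y
      simp only [Complex.add_im, Complex.add_re]
      ring
    · intro a x
      simp only [Complex.smul_im, Complex.smul_re, smul_eq_mul]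
      ring

/-- LT-12 -/
theorem jump {B : Bg} {f : Fin 3 → ℂ → ℂ} {n : ℤ} (S : Slit B f n) {w z0 : ℝ} (hS : Sgn B w z0)
    {w2 : ℝ} (hw2 : 0 < w2)
    (hrel : ∀ om : ℝ, 0 < om → om < w2 → ∃ e > 0, ∃ R : ℂ → ℂ, AnalyticOnNhd ℂ R (ball 0 e) ∧
      ∀ z ∈ ball (0:ℂ) e, z.im < 0 → R z = B.V S.ul om (z - om / 2) + B.V S.ul om (z + om / 2)) :
    ∃ u : Fin 3 → ℂ → ℂ, (∀ i, AnalyticOnNhd ℂ (u i) (ball 0 S.rq \ {0})) ∧
      (∀ i, ∀ q ∈ slitPlane ∩ ball 0 S.rq, u i q = S.ul i q) ∧
      (∀ i, ∀ q ∈ Sec S.c4 S.rq, u i q = S.uR i q ∧ u i q = S.uL i q) := by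
  classical
  have hg := jump_germ S hS hw2 hrel
  have hEq : ∀ i, EqOn (S.uR i) (S.uL i) (Sec S.c4 S.rq) := by
    intro i
    obtain ⟨a, ha, ha'⟩ := (mem_nhdsLT_iff_exists_Ioo_subset' (neg_one_lt_zero (R := ℝ))).1 (hg i)
    have ha0 : a < 0 := ha
    set x1 : ℝ := max a (-S.rq) / 2 with hx1
    have hm : max a (-S.rq) < 0 := max_lt ha0 (neg_lt_zero.2 S.rq_pos)
    have hx10 : x1 < 0 := by
      rw [hx1]
      linarith
    have hx1a : a < x1 := by
      have := le_max_left a (-S.rq)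
      rw [hx1]
      linarith
    have hx1q : -S.rq < x1 := by
      have := le_max_right a (-S.rq)
      rw [hx1]
      linarith
    have hmem : (x1 : ℂ) ∈ Sec S.c4 S.rq := by
      refine ⟨?_, ?_⟩
      · rw [Complex.norm_real, Real.norm_eq_abs, abs_of_neg hx10]
        linarith
      · rw [Complex.ofReal_im, abs_zero, Complex.ofReal_re]
        exact mul_pos S.c4_pos (neg_pos.2 hx10)
    refine (S.uR_an i).eqOn_of_preconnected_of_frequently_eq (S.uL_an i)
      (convex_Sec _ _).isPreconnected hmem ?_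
    have ht : Tendsto (fun x : ℝ => (x : ℂ)) (𝓝[≠] x1) (𝓝[≠] (x1 : ℂ)) := by
      apply tendsto_nhdsWithin_of_tendsto_nhds_of_eventually_within
      · exact (Complex.continuous_ofReal.tendsto x1).mono_left nhdsWithin_le_nhds
      · filter_upwards [self_mem_nhdsWithin] with x hx
        have hx' : x ≠ x1 := hx
        simpa using hx'
    apply ht.frequently
    apply Eventually.frequently
    have h1 : ∀ᶠ x in 𝓝[≠] x1, x ∈ Ioo a 0 :=
      nhdsWithin_le_nhds (Ioo_mem_nhds hx1a hx10)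
    filter_upwards [h1] with x hx
    exact ha' hx
  have hSec : ∀ i, ∀ q ∈ Sec S.c4 S.rq,
      (if q ∈ slitPlane then S.ul i q else S.uR i q) = S.uR i q := by
    intro i q hq
    split_ifs with h
    · rcases lt_trichotomy q.im 0 with h1 | h1 | h1
      · rw [S.eqL i q hq h1, hEq i hq]
      · exfalso
        have h2 := hq.2
        rw [h1, abs_zero] at h2
        have h3 : q.re < 0 := by
          by_contra h4
          have : S.c4 * -q.re ≤ 0 :=
            mul_nonpos_of_nonneg_of_nonpos S.c4_pos.le (by linarith [not_lt.1 h4])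
          linarith
        rcases h with h5 | h5
        · linarith
        · exact h5 h1
      · exact S.eqR i q hq h1
    · rfl
  refine ⟨fun i q => if q ∈ slitPlane then S.ul i q else S.uR i q, ?_, ?_, ?_⟩
  · intro i q hq
    by_cases h : q ∈ slitPlane
    · have h1 : AnalyticAt ℂ (S.ul i) q := S.ul_an i q ⟨h, hq.1⟩
      refine h1.congr ?_
      filter_upwards [isOpen_slitPlane.mem_nhds h] with x hx
      rw [if_pos hx]
    · have h2 : q ∈ Sec S.c4 S.rq := by
        have h3 : q.re ≤ 0 ∧ q.im = 0 := by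
          rw [mem_slitPlane_iff] at h
          push Not at h
          exact h
        have h4 : q.re < 0 := by
          rcases h3.1.lt_or_eq with h4 | h4
          · exact h4
          · exact absurd (Complex.ext h4 h3.2) hq.2
        refine ⟨by simpa using hq.1, ?_⟩
        rw [h3.2, abs_zero]
        exact mul_pos S.c4_pos (neg_pos.2 h4)
      refine (S.uR_an i q h2).congr ?_
      filter_upwards [(isOpen_Sec _ _).mem_nhds h2] with x hx
      exact (hSec i x hx).symm
  · intro i q hq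
    exact if_pos hq.1
  · intro i q hq
    refine ⟨hSec i q hq, ?_⟩
    show (if q ∈ slitPlane then S.ul i q else S.uR i q) = S.uL i q
    rw [hSec i q hq, hEq i hq]

end Pool.Agent.MP_ae5b4e_an_LOC
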