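import Mathlib
import Pool.Agent.Lib.MP_ae5b4e_an_LOC.LTS

/-!
# LOC: the bridge from `LineD` to `Line`
-/

set_option autoImplicit false

noncomputable section

namespace Pool.Agent.MP_ae5b4e_an_LOC

open Set Metric Complex ComplexConjugate Filter Topology

/-- `LineD` gives `Line` -/
def LineD.toLine {B : Bg} {c : ℝ} {f : Fin 3 → ℂ → ℂ} {G : ℂ → ℂ → ℂ} {c0 : ℂ → ℂ}
    (h : LineD B c f G c0) (hc : 0 < c) (hc1 : c ≤ 1) : Line B f where
  c := c
  G := G
  c0 := c0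
  c_pos := hc
  c_le := hc1
  f_an := h.sol.an
  f_per := fun i x hx => h.sol.per i x hx
  f_loc := fun i x0 d h0 h1 h2 h3 => h.fan x0 d h0 h1 h2 h3 i
  G_an := h.feq.an
  G_loc := h.Gan
  G_even := h.feq.even
  fe := h.feq.fe

end Pool.Agent.MP_ae5b4e_an_LOC
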