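import Mathlib
import Pool.Agent.Lib.MP_ae5b4e_an_LOC.LTS
import Pool.Agent.Lib.MP_ae5b4e_an_LOC.Napp

/-!
# LOC, LT-11 (LOCR): the relation at a base point for real `om`

`Phi z = G (bb + z - k om) - G (bb + z + k om)`, `bb = b n + bt om`, is analytic near `0`; for
`-16 K om < im z < -8 K om` it is the sum of the functional equations at `bb + z + (j + 1/2) om`,
`-k ≤ j < k`.
-/

set_option autoImplicit false

noncomputable section

namespace Pool.Agent.MP_ae5b4e_an_LOC

open Set Metric Complex ComplexConjugate Filter Topology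

namespace Bg

variable (B : Bg)

lemma N_an {om z : ℂ} (hom : ‖om‖ < B.r) (hz : ‖z‖ < B.rho) : AnalyticAt ℂ (B.N om) z := by
  have h1 := B.s_an (om, z) ⟨mem_ball_zero_iff.2 hom, mem_ball_zero_iff.2 hz⟩
  have h2 : AnalyticAt ℂ (fun y : ℂ => ((om, y) : ℂ × ℂ)) z := by fun_prop
  have h3 : AnalyticAt ℂ (fun y : ℂ => B.s om y) z :=
    AnalyticAt.comp_of_eq (g := fun p : ℂ × ℂ => B.s p.1 p.2) (f := fun y : ℂ => ((om, y) : ℂ × ℂ))
      h1 h2 rfl
  exact analyticAt_const.sub (h3.pow 2)

/-- `N` is small near `0` -/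
lemma N_small {q : ℝ} (hq : 0 < q) : ∃ δ > 0, δ ≤ B.r ∧ δ ≤ B.rho ∧
    ∀ om z : ℂ, ‖om‖ < δ → ‖z‖ < δ → ‖B.N om z‖ < q := by
  obtain ⟨C, hC, H⟩ := B.napp
  have hk := B.kap_pos
  set M : ℝ := 5 / 4 * B.kap ^ 2 + 16 * C with hM
  have hM0 : 0 < M := by positivity
  refine ⟨min (min B.r B.rho) (min 1 (q / (2 * M))), ?_, ?_, ?_, ?_⟩
  · have := B.r_pos
    have := B.rho_pos
    positivity
  · exact (min_le_left _ _).trans (min_le_left _ _)
  · exact (min_le_left _ _).trans (min_le_right _ _)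
  · intro om z hom hz
    set δ : ℝ := min (min B.r B.rho) (min 1 (q / (2 * M))) with hδ
    have d1 : δ ≤ 1 := (min_le_right _ _).trans (min_le_left _ _)
    have d2 : δ ≤ q / (2 * M) := (min_le_right _ _).trans (min_le_right _ _)
    have d3 : δ ≤ B.r := (min_le_left _ _).trans (min_le_left _ _)
    have d4 : δ ≤ B.rho := (min_le_left _ _).trans (min_le_right _ _)
    have hδ0 : 0 < δ := (norm_nonneg _).trans_lt hom
    have h1 := H om z (hom.trans_le d3) (hz.trans_le d4)
    have h2 : ‖(B.kap : ℂ) ^ 2 * (om ^ 2 / 4 - z ^ 2)‖ ≤ 5 / 4 * B.kap ^ 2 * δ ^ 2 := by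
      rw [norm_mul, norm_pow, Complex.norm_real, Real.norm_of_nonneg hk.le]
      have h3 : ‖om ^ 2 / 4 - z ^ 2‖ ≤ δ ^ 2 / 4 + δ ^ 2 := by
        refine (norm_sub_le _ _).trans (add_le_add ?_ ?_)
        · rw [norm_div, norm_pow]
          have : ‖(4:ℂ)‖ = 4 := by norm_num
          rw [this]
          have := pow_le_pow_left₀ (norm_nonneg om) hom.le 2
          linarith
        · rw [norm_pow]
          exact pow_le_pow_left₀ (norm_nonneg z) hz.le 2
      calc B.kap ^ 2 * ‖om ^ 2 / 4 - z ^ 2‖ ≤ B.kap ^ 2 * (δ ^ 2 / 4 + δ ^ 2) :=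
          mul_le_mul_of_nonneg_left h3 (by positivity)
        _ = 5 / 4 * B.kap ^ 2 * δ ^ 2 := by ring
    have h4 : (‖om‖ + ‖z‖) ^ 4 ≤ 16 * δ ^ 2 := by
      have h5 : ‖om‖ + ‖z‖ ≤ 2 * δ := by linarith
      calc (‖om‖ + ‖z‖) ^ 4 ≤ (2 * δ) ^ 4 := pow_le_pow_left₀ (by positivity) h5 4
        _ = 16 * δ ^ 2 * δ ^ 2 := by ring
        _ ≤ 16 * δ ^ 2 * 1 := by
          refine mul_le_mul_of_nonneg_left ?_ (by positivity)
          exact pow_le_one₀ hδ0.le d1
        _ = 16 * δ ^ 2 := by ring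
    have h5 : ‖B.N om z‖ ≤ M * δ ^ 2 := by
      have h6 : B.N om z = (B.N om z - B.kap ^ 2 * (om ^ 2 / 4 - z ^ 2)) +
        B.kap ^ 2 * (om ^ 2 / 4 - z ^ 2) := by ring
      rw [h6]
      refine (norm_add_le _ _).trans ?_
      have h7 := mul_le_mul_of_nonneg_left h4 hC.le
      calc _ ≤ C * (16 * δ ^ 2) + 5 / 4 * B.kap ^ 2 * δ ^ 2 := by linarith
        _ = M * δ ^ 2 := by rw [hM]; ring
    have h6 : M * δ ^ 2 < q := by
      have h7 : M * δ ^ 2 ≤ M * δ := by
        refine mul_le_mul_of_nonneg_left ?_ hM0.le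
        nlinarith
      have h8 : M * δ ≤ q / 2 := by
        calc M * δ ≤ M * (q / (2 * M)) := mul_le_mul_of_nonneg_left d2 hM0.le
          _ = q / 2 := by field_simp
      linarith
    linarith

lemma V_an {u : Fin 3 → ℂ → ℂ} {om z : ℂ} (hN : AnalyticAt ℂ (B.N om) z)
    (hu : ∀ l, AnalyticAt ℂ (u l) (B.N om z)) : AnalyticAt ℂ (B.V u om) z := by
  have h : ∀ l, AnalyticAt ℂ (fun z => u l (B.N om z)) z := fun l => (hu l).comp hN
  exact ((analyticAt_const.mul (h 0)).add (analyticAt_const.mul (h 1))).add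
    (analyticAt_const.mul (h 2))

end Bg

/-- the distance of the shifted base points from the base points -/
private lemma far_shift (B : Bg) (n : ℤ) {a : ℝ} (h0 : 0 ≤ |a|) (h1 : |a| ≤ 1 / 4) (m : ℤ) :
    |a| ≤ ‖(B.b n + a) - B.b m‖ := by
  have h2 : (B.b n + a) - B.b m = (((n - m : ℤ) : ℝ) / 2 + a : ℝ) := by
    unfold Bg.b
    push_cast
    ring
  rw [h2, Complex.norm_real, Real.norm_eq_abs]
  rcases eq_or_ne (n - m) 0 with h | h
  · rw [h]
    simp
  · have h3 : (1:ℝ) ≤ |((n - m : ℤ) : ℝ)| := by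
      have := Int.one_le_abs h
      rw [← Int.cast_abs]
      exact_mod_cast this
    have h4 : |((n - m : ℤ) : ℝ) / 2| ≤ |((n - m : ℤ) : ℝ) / 2 + a| + |a| := by
      have := abs_add_le (((n - m : ℤ) : ℝ) / 2 + a) (-a)
      rw [abs_neg] at this
      simpa using this
    rw [abs_div, abs_of_pos (by norm_num : (0:ℝ) < 2)] at h4
    linarith

theorem locr {B : Bg} {f : Fin 3 → ℂ → ℂ} (L : Line B f) {n : ℤ} (S : Slit B f n) {w z0 : ℝ}
    (hS : Sgn B w z0) {X : ℂ → ℂ → ℂ} (hX : InvD B X) :
    ∃ w2 > 0, ∀ om : ℝ, 0 < om → om < w2 → ∃ e > 0, ∃ R : ℂ → ℂ, AnalyticOnNhd ℂ R (ball 0 e) ∧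
      ∀ z ∈ ball (0:ℂ) e, z.im < 0 →
        R z = B.V S.ul om (z - om / 2) + B.V S.ul om (z + om / 2) := by
  have hK := B.one_le_K
  have hc := L.c_pos
  have hr := B.r_pos
  have hrho := B.rho_pos
  have hh := B.h_pos
  have hw := hS.w_pos
  have hz0 : 0 < z0 := hw.trans_le hS.w_le'
  have hy0 := S.y0_pos
  obtain ⟨k, hk⟩ := exists_nat_ge ((16 * B.K + 2) / L.c)
  have hck : 16 * B.K + 2 ≤ L.c * k := by
    rw [div_le_iff₀ hc] at hk
    linarith
  have hk18 : (18:ℝ) ≤ k := by
    have : L.c * k ≤ 1 * k := mul_le_mul_of_nonneg_right L.c_le (Nat.cast_nonneg k)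
    linarith
  have hk2 : 18 ≤ k := by exact_mod_cast hk18
  set M : ℝ := 17 * B.K + k + 2 with hM
  have hM0 : 0 < M := by positivity
  obtain ⟨δ, hδ, hδr, hδrho, hδN⟩ := B.N_small S.rq_pos
  set a : ℝ := min (min w (B.r / 4)) (min (min z0 (B.rho / 4)) (min (min δ (1 / 4))
    (min S.y0 B.h))) with ha
  have ha0 : 0 < a := by positivity
  have a1 : a ≤ w := (min_le_left _ _).trans (min_le_left _ _)
  have a2 : a ≤ B.r / 4 := (min_le_left _ _).trans (min_le_right _ _)
  have a3 : a ≤ z0 := (min_le_right _ _).trans ((min_le_left _ _).trans (min_le_left _ _))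
  have a4 : a ≤ B.rho / 4 := (min_le_right _ _).trans ((min_le_left _ _).trans (min_le_right _ _))
  have a5 : a ≤ δ := (min_le_right _ _).trans ((min_le_right _ _).trans
    ((min_le_left _ _).trans (min_le_left _ _)))
  have a6 : a ≤ 1 / 4 := (min_le_right _ _).trans ((min_le_right _ _).trans
    ((min_le_left _ _).trans (min_le_right _ _)))
  have a7 : a ≤ S.y0 := (min_le_right _ _).trans ((min_le_right _ _).trans
    ((min_le_right _ _).trans (min_le_left _ _)))
  have a8 : a ≤ B.h := (min_le_right _ _).trans ((min_le_right _ _).trans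
    ((min_le_right _ _).trans (min_le_right _ _)))
  refine ⟨a / (4 * M), by positivity, ?_⟩
  intro om hom0 hom
  have hMom : 4 * M * om < a := by
    rw [lt_div_iff₀ (by positivity)] at hom
    linarith
  have hKM : 17 * B.K ≤ M := by
    rw [hM]
    have := Nat.cast_nonneg (α := ℝ) k
    linarith
  have hKom : 17 * B.K * om ≤ M * om := mul_le_mul_of_nonneg_right hKM hom0.le
  have hkM : (k:ℝ) + 2 ≤ M := by
    rw [hM]
    linarith
  have hkom : ((k:ℝ) + 2) * om ≤ M * om := mul_le_mul_of_nonneg_right hkM hom0.le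
  have hKom' : om ≤ B.K * om := le_mul_of_one_le_left hom0.le hK
  have hK1 : B.K * om ≤ 1 / 2 := by linarith
  have hK2 : B.K * om ^ 2 ≤ om / 2 := by nlinarith
  have hnom : ‖(om : ℂ)‖ = om := by
    rw [Complex.norm_real, Real.norm_of_nonneg hom0.le]
  have homr4 : ‖(om : ℂ)‖ < B.r / 4 := by
    rw [hnom]
    nlinarith
  have homr : ‖(om : ℂ)‖ < B.r := by linarith
  have homw : om < w := by nlinarith
  have hbt : ‖B.bt om‖ ≤ om / 2 := by
    have h1 := B.bt_le om (mem_ball_zero_iff.2 homr)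
    rw [hnom] at h1
    linarith
  set bb : ℂ := B.b n + B.bt om with hbb
  have hbim : (B.b n).im = B.h := by
    unfold Bg.b
    simp
  -- the region
  set Vr : Set ℂ := {z : ℂ | |z.re| < om / 4 ∧ -(16 * B.K * om) < z.im ∧ z.im < om / 4} with hVr
  have hVconv : Convex ℝ Vr := by
    have e1 : Vr = (({z : ℂ | z.re < om / 4} ∩ {z : ℂ | -(om / 4) < z.re}) ∩
        ({z : ℂ | -(16 * B.K * om) < z.im} ∩ {z : ℂ | z.im < om / 4})) := by
      ext z
      simp only [hVr, mem_setOf_eq, mem_inter_iff, abs_lt]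
      tauto
    rw [e1]
    exact ((convex_halfSpace_re_lt _).inter (convex_halfSpace_re_gt _)).inter
      ((convex_halfSpace_im_gt _).inter (convex_halfSpace_im_lt _))
  have hVopen : IsOpen Vr := by
    have e1 : Vr = {z : ℂ | |z.re| < om / 4} ∩ ({z : ℂ | -(16 * B.K * om) < z.im} ∩
        {z : ℂ | z.im < om / 4}) := by
      ext z
      simp only [hVr, mem_setOf_eq, mem_inter_iff]
    rw [e1]
    exact (isOpen_lt (continuous_abs.comp Complex.continuous_re) continuous_const).inter
      ((isOpen_lt continuous_const Complex.continuous_im).inter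
        (isOpen_lt Complex.continuous_im continuous_const))
  have hVnorm : ∀ z ∈ Vr, ‖z‖ ≤ 16 * B.K * om + om / 4 := by
    rintro z ⟨h1, h2, h3⟩
    refine (Complex.norm_le_abs_re_add_abs_im z).trans ?_
    have h4 : |z.im| ≤ 16 * B.K * om := by
      rw [abs_le]
      constructor
      · linarith
      · nlinarith
    linarith
  -- the points of the orbit
  set ζ : ℕ → ℂ → ℂ := fun i z => z + (((i:ℝ) - k + 1 / 2) * om : ℝ) with hζ
  have hζnorm : ∀ i < 2 * k, ∀ z ∈ Vr, ‖ζ i z‖ ≤ M * om := by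
    intro i hi z hz
    have h1 := hVnorm z hz
    have hi' : (i:ℝ) + 1 ≤ 2 * k := by exact_mod_cast hi
    have h2 : ‖(((((i:ℝ) - k + 1 / 2) * om : ℝ)) : ℂ)‖ ≤ k * om := by
      rw [Complex.norm_real, Real.norm_eq_abs, abs_mul, abs_of_pos hom0]
      refine mul_le_mul_of_nonneg_right ?_ hom0.le
      rw [abs_le]
      have := Nat.cast_nonneg (α := ℝ) i
      constructor <;> linarith
    refine (norm_add_le _ _).trans ?_
    rw [hM]
    nlinarith
  have hζim : ∀ i z, (ζ i z).im = z.im := by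
    intro i z
    simp only [hζ, Complex.add_im, Complex.ofReal_im, add_zero]
  -- (a) analyticity of Phi
  set Phi : ℂ → ℂ := fun z => L.G om (bb + z - (k * om : ℝ)) - L.G om (bb + z + (k * om : ℝ))
    with hPhi
  have hkr : (k:ℝ) * om ≤ B.rho ∧ (k:ℝ) * om ≤ 1 / 4 ∧ 0 < (k:ℝ) * om := by
    refine ⟨?_, ?_, by positivity⟩
    · nlinarith
    · nlinarith
  have hGan : ∀ (sg : ℝ), |sg| = 1 → ∀ z ∈ Vr,
      AnalyticAt ℂ (fun z => L.G om (bb + z + (sg * (k * om) : ℝ))) z := by
    intro sg hsg z hz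
    have habs : |sg * (k * om)| = k * om := by
      rw [abs_mul, hsg, one_mul, abs_of_pos hkr.2.2]
    have h1 := L.G_loc (B.b n + (sg * (k * om) : ℝ)) (k * om) (by
      rw [Complex.add_im, hbim, Complex.ofReal_im, add_zero]) hkr.2.2 hkr.1 (fun m => by
        have := far_shift B n (a := sg * (k * om)) (abs_nonneg _) (by rw [habs]; exact hkr.2.1) m
        rwa [habs] at this)
    have hom1 : om < L.c * (k * om) := by
      have : 1 * om < (L.c * k) * om := mul_lt_mul_of_pos_right (by linarith) hom0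
      linarith
    have h2 : ((om : ℂ), bb + z + (sg * (k * om) : ℝ)) ∈ ball (0:ℂ) (L.c * (k * om)) ×ˢ
        ball (B.b n + (sg * (k * om) : ℝ)) (L.c * (k * om)) := by
      refine ⟨?_, ?_⟩
      · rw [mem_ball_zero_iff, hnom]
        exact hom1
      · rw [mem_ball, dist_eq_norm]
        have e1 : bb + z + (sg * (k * om) : ℝ) - (B.b n + (sg * (k * om) : ℝ)) = B.bt om + z := by
          rw [hbb]
          ring
        rw [e1]
        refine (norm_add_le _ _).trans_lt ?_
        have h3 := hVnorm z hz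
        have h4 : (16 * B.K + 2) * om ≤ L.c * k * om := mul_le_mul_of_nonneg_right hck hom0.le
        nlinarith
    have h3 := h1 _ h2
    have h4 : AnalyticAt ℂ (fun z : ℂ => ((om : ℂ), bb + z + (sg * (k * om) : ℝ))) z := by fun_prop
    exact AnalyticAt.comp_of_eq (g := fun p : ℂ × ℂ => L.G p.1 p.2)
      (f := fun z : ℂ => ((om : ℂ), bb + z + (sg * (k * om) : ℝ))) h3 h4 rfl
  have hPhian : AnalyticOnNhd ℂ Phi Vr := by
    intro z hz
    have h1 := hGan (-1) (by norm_num) z hz
    have h2 := hGan 1 (by norm_num) z hz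
    have e1 : Phi = fun z => L.G om (bb + z + (-1 * (k * om) : ℝ)) -
        L.G om (bb + z + (1 * (k * om) : ℝ)) := by
      funext z
      simp only [hPhi]
      congr 2
      · push_cast
        ring
      · push_cast
        ring
    rw [e1]
    exact h1.sub h2
  -- (b) the telescoping sum
  have hsum : ∀ z ∈ Vr, z.im < -(8 * B.K * om) → Phi z =
      om * ((∑ i ∈ Finset.range (2 * k), B.V S.ul om (ζ i z)) - 2 * k * L.c0 om) := by
    intro z hz hzim
    have hbtim : |(B.bt om).im| ≤ om / 2 := (Complex.abs_im_le_norm _).trans hbt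
    have hbtim' := abs_le.1 hbtim
    have hterm : ∀ i < 2 * k, L.G om (bb + ζ i z - om / 2) - L.G om (bb + ζ i z + om / 2) =
        om * (B.V S.ul om (ζ i z) - L.c0 om) := by
      intro i hi
      set φ : ℂ := bb + ζ i z with hφ
      have hφim : φ.im = B.h + (B.bt om).im + z.im := by
        rw [hφ, hbb, Complex.add_im, Complex.add_im, hbim, hζim]
      have hφ1 : φ.im ≤ B.h - 7 * B.K * om := by
        rw [hφim]
        nlinarith [hbtim'.2]
      have hφ2 : -(B.h - 7 * B.K * om) ≤ φ.im := by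
        rw [hφim]
        have := hz.2.1
        nlinarith [hbtim'.1]
      have hφabs : |φ.im| ≤ B.h - 7 * B.K * om := abs_le.2 ⟨hφ2, hφ1⟩
      have hKp : 0 < B.K * om := by positivity
      have hφ3 : |φ.im| < B.h - 3 * B.K * ‖(om:ℂ)‖ := by
        rw [hnom]
        linarith
      set x : ℂ := X om φ with hx
      have x1 := hX.close om φ homr hφ3
      have x2 := hX.right om φ homr hφ3
      rw [← hx] at x1 x2
      rw [hnom] at x1
      have ximb : |(x - φ).im| ≤ B.K * om := (Complex.abs_im_le_norm _).trans x1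
      have xim : |x.im| ≤ B.h - 6 * B.K * om := by
        rw [Complex.sub_im] at ximb
        have k1 := abs_le.1 ximb
        have k2 := abs_le.1 hφabs
        rw [abs_le]
        constructor <;> linarith [k1.1, k1.2, k2.1, k2.2]
      have h1 := L.fe om x homr4 (by rw [hnom]; linarith)
      rw [x2] at h1
      rw [h1]
      congr 1
      -- the values of `f`
      set y : ℂ := x - B.b n with hy
      have hxy : x = B.b n + y := by rw [hy]; ring
      have hynorm : ‖y‖ ≤ (M + 1 / 2) * om + B.K * om := by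
        have e1 : y = (x - φ) + (B.bt om + ζ i z) := by
          rw [hy, hφ, hbb]
          ring
        rw [e1]
        refine (norm_add_le _ _).trans ?_
        have := (norm_add_le (B.bt om) (ζ i z)).trans (add_le_add hbt (hζnorm i hi z hz))
        nlinarith
      have hysm : ‖y‖ < a / 2 := by
        have : om ≤ B.K * om := hKom'
        nlinarith
      have hyim : y.im < 0 := by
        rw [hy, Complex.sub_im, hbim]
        have := (abs_le.1 xim).2
        nlinarith
      have hlink := B.link n om x homr (by rw [hnom]; linarith) (by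
        show ‖x - B.b n‖ < B.rho / 2
        rw [← hy]
        linarith)
      have e2 : B.ph om x - (n / 2 + I * B.h) - B.bt om = ζ i z := by
        rw [x2, hφ, hbb]
        unfold Bg.b
        ring
      rw [e2] at hlink
      have e3 : x - (n / 2 + I * B.h) = y := rfl
      rw [e3] at hlink
      show B.comb om (fun l => f l x) - L.c0 om =
        B.comb om (fun l => S.ul l (B.N om (ζ i z))) - L.c0 om
      have e4 : ∀ l, f l x = S.ul l (B.N om (ζ i z)) := by
        intro l
        have := (S.eq_low l y (by linarith) hyim).2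
        rw [hxy, this]
        congr 1
        exact hlink.symm
      simp only [e4]
    set g : ℕ → ℂ := fun i => L.G om (bb + z + (((i:ℝ) - k) * om : ℝ)) with hg
    have hg1 : ∀ i, L.G om (bb + ζ i z - om / 2) = g i := by
      intro i
      simp only [hg, hζ]
      congr 1
      push_cast
      ring
    have hg2 : ∀ i, L.G om (bb + ζ i z + om / 2) = g (i + 1) := by
      intro i
      simp only [hg, hζ]
      congr 1
      push_cast
      ring
    have htel : ∑ i ∈ Finset.range (2 * k), (g i - g (i + 1)) = Phi z := by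
      rw [Finset.sum_range_sub']
      simp only [hg, hPhi]
      congr 2
      · push_cast
        ring
      · push_cast
        ring
    rw [← htel]
    have : ∀ i ∈ Finset.range (2 * k), g i - g (i + 1) =
        om * (B.V S.ul om (ζ i z) - L.c0 om) := by
      intro i hi
      rw [← hg1, ← hg2]
      exact hterm i (Finset.mem_range.1 hi)
    rw [Finset.sum_congr rfl this, ← Finset.mul_sum, Finset.sum_sub_distrib, Finset.sum_const,
      Finset.card_range]
    congr 2
    simp
  -- (c) the identity theorem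
  have hMδ : M * om < δ := by nlinarith
  have hMz0 : M * om < z0 := by nlinarith
  have hζan : ∀ i z, AnalyticAt ℂ (ζ i) z := fun i z => by
    simp only [hζ]
    fun_prop
  have hNan : ∀ i < 2 * k, ∀ z ∈ Vr, AnalyticAt ℂ (B.N om) (ζ i z) := fun i hi z hz =>
    B.N_an homr (((hζnorm i hi z hz).trans_lt hMδ).trans_le hδrho)
  have hNsm : ∀ i < 2 * k, ∀ z ∈ Vr, ‖B.N om (ζ i z)‖ < S.rq := fun i hi z hz =>
    hδN om _ (by rw [hnom]; nlinarith) ((hζnorm i hi z hz).trans_lt hMδ)
  have hVlan : ∀ i < 2 * k, ∀ z ∈ Vr, z.im < 0 →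
      AnalyticAt ℂ (fun z => B.V S.ul om (ζ i z)) z := by
    intro i hi z hz hzim
    have h1 : B.N om (ζ i z) ∈ slitPlane ∩ ball 0 S.rq := by
      refine ⟨hS.slit om hom0.le homw _ ((hζnorm i hi z hz).trans_lt hMz0) ?_,
        mem_ball_zero_iff.2 (hNsm i hi z hz)⟩
      rw [hζim]
      exact hzim.ne
    exact (B.V_an (hNan i hi z hz) fun l => S.ul_an l _ h1).comp (hζan i z)
  set V2 : Set ℂ := Vr ∩ {z : ℂ | z.im < 0} with hV2
  have hV2conv : Convex ℝ V2 := hVconv.inter (convex_halfSpace_im_lt _)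
  have hV2open : IsOpen V2 := hVopen.inter (isOpen_lt Complex.continuous_im continuous_const)
  have hrhs : AnalyticOnNhd ℂ (fun z => (om:ℂ) * ((∑ i ∈ Finset.range (2 * k),
      B.V S.ul om (ζ i z)) - 2 * k * L.c0 om)) V2 := by
    intro z hz
    refine analyticAt_const.mul (AnalyticAt.sub ?_ analyticAt_const)
    refine Finset.analyticAt_fun_sum _ fun i hi => ?_
    exact hVlan i (Finset.mem_range.1 hi) z hz.1 hz.2
  have hKp : 0 < B.K * om := by positivity
  have hall : ∀ z ∈ V2, Phi z =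
      om * ((∑ i ∈ Finset.range (2 * k), B.V S.ul om (ζ i z)) - 2 * k * L.c0 om) := by
    set z1 : ℂ := ((-(12 * B.K * om) : ℝ) : ℂ) * I with hz1
    have hz1re : z1.re = 0 := by simp [hz1]
    have hz1im : z1.im = -(12 * B.K * om) := by simp [hz1]
    have hz1V : z1 ∈ Vr := by
      refine ⟨?_, ?_, ?_⟩
      · rw [hz1re, abs_zero]
        positivity
      · rw [hz1im]
        linarith
      · rw [hz1im]
        linarith
    have hz1V2 : z1 ∈ V2 := ⟨hz1V, by
      show z1.im < 0
      rw [hz1im]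
      linarith⟩
    have hev : Phi =ᶠ[𝓝 z1] fun z => (om:ℂ) * ((∑ i ∈ Finset.range (2 * k),
        B.V S.ul om (ζ i z)) - 2 * k * L.c0 om) := by
      have h1 : {z : ℂ | z.im < -(8 * B.K * om)} ∈ 𝓝 z1 := by
        refine (isOpen_lt Complex.continuous_im continuous_const).mem_nhds ?_
        show z1.im < _
        rw [hz1im]
        linarith
      filter_upwards [hVopen.mem_nhds hz1V, h1] with z h2 h3
      exact hsum z h2 h3
    exact (hPhian.mono inter_subset_left).eqOn_of_preconnected_of_eventuallyEq hrhs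
      hV2conv.isPreconnected hz1V2 hev
  -- (d) the remaining terms
  have h0V : (0:ℂ) ∈ Vr := by
    refine ⟨?_, ?_, ?_⟩
    · simp only [Complex.zero_re, abs_zero]
      positivity
    · simp only [Complex.zero_im]
      linarith
    · simp only [Complex.zero_im]
      positivity
  set T : Finset ℕ := (Finset.range (2 * k)).filter fun i => i ≠ k - 1 ∧ i ≠ k with hT
  set D : ℕ → ℂ → ℂ := fun i z => if i < k then B.V S.uL om (ζ i z) else B.V S.uR om (ζ i z)
    with hD
  have hcase : ∀ i ∈ T, (i < k ∧ ((i:ℝ) - k + 1 / 2) * om ≤ -(3 / 2 * om)) ∨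
      (¬ i < k ∧ 3 / 2 * om ≤ ((i:ℝ) - k + 1 / 2) * om) := by
    intro i hi
    rw [hT, Finset.mem_filter, Finset.mem_range] at hi
    rcases lt_or_ge i k with h | h
    · left
      refine ⟨h, ?_⟩
      have h1 : i + 2 ≤ k := by omega
      have h2 : (i:ℝ) + 2 ≤ k := by exact_mod_cast h1
      nlinarith
    · right
      refine ⟨by omega, ?_⟩
      have h1 : k + 1 ≤ i := by omega
      have h2 : (k:ℝ) + 1 ≤ i := by exact_mod_cast h1
      nlinarith
  have hT2k : ∀ i ∈ T, i < 2 * k := fun i hi => Finset.mem_range.1 (Finset.mem_filter.1 hi).1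
  have hζ0 : ∀ i, ζ i 0 = (((((i:ℝ) - k + 1 / 2) * om : ℝ)) : ℂ) := fun i => by
    simp only [hζ, zero_add]
  have hSecOpen : IsOpen (Sec S.c4 S.rq) := by
    refine (isOpen_lt continuous_norm continuous_const).inter
      (isOpen_lt (continuous_abs.comp Complex.continuous_im)
        (continuous_const.mul (Complex.continuous_re.neg)))
  have hsec0 : ∀ i ∈ T, B.N om (ζ i 0) ∈ Sec S.c4 S.rq := by
    intro i hi
    have h1 := hNsm i (hT2k i hi) 0 h0V
    have h2 := hζnorm i (hT2k i hi) 0 h0V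
    have h3 : |((i:ℝ) - k + 1 / 2) * om| < z0 := by
      rw [hζ0, Complex.norm_real, Real.norm_eq_abs] at h2
      linarith
    have h4 : om / 2 < |((i:ℝ) - k + 1 / 2) * om| := by
      rcases hcase i hi with h | h
      · rw [abs_of_neg (by linarith)]
        linarith
      · rw [abs_of_pos (by linarith)]
        linarith
    have h5 := hS.neg om hom0.le homw _ h4 h3
    have h6 := hS.real om hom0.le homw _ h3
    rw [← hζ0] at h5 h6
    refine ⟨h1, ?_⟩
    rw [h6, abs_zero]
    exact mul_pos S.c4_pos (by linarith)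
  have hsec : ∀ i ∈ T, ∀ᶠ z in 𝓝 (0:ℂ), B.N om (ζ i z) ∈ Sec S.c4 S.rq := by
    intro i hi
    have h1 : ContinuousAt (fun z => B.N om (ζ i z)) 0 :=
      ((hNan i (hT2k i hi) 0 h0V).comp (hζan i 0)).continuousAt
    exact h1.eventually (hSecOpen.mem_nhds (hsec0 i hi))
  have hDan : ∀ i ∈ T, AnalyticAt ℂ (D i) 0 := by
    intro i hi
    have hN := hNan i (hT2k i hi) 0 h0V
    by_cases h : i < k
    · have e1 : D i = fun z => B.V S.uL om (ζ i z) := by
        funext z
        simp only [hD, if_pos h]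
      rw [e1]
      exact (B.V_an hN fun l => S.uL_an l _ (hsec0 i hi)).comp (hζan i 0)
    · have e1 : D i = fun z => B.V S.uR om (ζ i z) := by
        funext z
        simp only [hD, if_neg h]
      rw [e1]
      exact (B.V_an hN fun l => S.uR_an l _ (hsec0 i hi)).comp (hζan i 0)
  have hDeq : ∀ i ∈ T, ∀ᶠ z in 𝓝 (0:ℂ), z.im < 0 → B.V S.ul om (ζ i z) = D i z := by
    intro i hi
    have hre : ∀ᶠ z in 𝓝 (0:ℂ), |z.re| < om / 4 := by
      have : ContinuousAt (fun z : ℂ => |z.re|) 0 :=
        (continuous_abs.comp Complex.continuous_re).continuousAt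
      refine this.eventually (Iio_mem_nhds ?_)
      simp only [Complex.zero_re, abs_zero]
      positivity
    filter_upwards [hsec i hi, hre, hVopen.mem_nhds h0V] with z h1 h2 h3 h4
    have hzz : ‖ζ i z‖ < z0 := (hζnorm i (hT2k i hi) z h3).trans_lt hMz0
    have hre2 : (ζ i z).re = z.re + ((i:ℝ) - k + 1 / 2) * om := by
      simp only [hζ, Complex.add_re, Complex.ofReal_re]
    have him2 : (ζ i z).im < 0 := by rw [hζim]; exact h4
    have h2' := abs_lt.1 h2
    rcases hcase i hi with h | h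
    · have h5 := hS.left om hom0.le homw _ hzz (by rw [hre2]; linarith [h.2]) him2
      show B.comb om _ = _
      simp only [hD, if_pos h.1]
      show B.comb om (fun l => S.ul l (B.N om (ζ i z))) = B.comb om (fun l => S.uL l (B.N om (ζ i z)))
      congr 1
      funext l
      exact S.eqL l _ h1 h5
    · have h5 := hS.right om hom0.le homw _ hzz (by rw [hre2]; linarith [h.2]) him2
      simp only [hD, if_neg h.1]
      show B.comb om (fun l => S.ul l (B.N om (ζ i z))) = B.comb om (fun l => S.uR l (B.N om (ζ i z)))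
      congr 1
      funext l
      exact S.eqR l _ h1 h5
  set R : ℂ → ℂ := fun z => Phi z / om + 2 * k * L.c0 om - ∑ i ∈ T, D i z with hR
  have hRan : AnalyticAt ℂ R 0 := by
    refine AnalyticAt.sub (AnalyticAt.add ?_ analyticAt_const) ?_
    · exact (hPhian 0 h0V).div_const
    · exact Finset.analyticAt_fun_sum _ fun i hi => hDan i hi
  have hReq : ∀ᶠ z in 𝓝 (0:ℂ), z.im < 0 →
      R z = B.V S.ul om (z - om / 2) + B.V S.ul om (z + om / 2) := by
    have hD' : ∀ᶠ z in 𝓝 (0:ℂ), ∀ i ∈ T, z.im < 0 → B.V S.ul om (ζ i z) = D i z :=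
      (Finset.eventually_all T).2 hDeq
    filter_upwards [hD', hVopen.mem_nhds h0V] with z h1 h2 h3
    have h4 := hall z ⟨h2, h3⟩
    have homc : (om:ℂ) ≠ 0 := by exact_mod_cast hom0.ne'
    have h5 : ∑ i ∈ T, D i z = ∑ i ∈ T, B.V S.ul om (ζ i z) :=
      Finset.sum_congr rfl fun i hi => (h1 i hi h3).symm
    have h6 : ∑ i ∈ Finset.range (2 * k), B.V S.ul om (ζ i z) =
        ∑ i ∈ T, B.V S.ul om (ζ i z) + (B.V S.ul om (ζ (k - 1) z) + B.V S.ul om (ζ k z)) := by
      rw [← Finset.sum_filter_add_sum_filter_not (Finset.range (2 * k))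
        (fun i => i ≠ k - 1 ∧ i ≠ k)]
      congr 1
      have h7 : (Finset.range (2 * k)).filter (fun i => ¬ (i ≠ k - 1 ∧ i ≠ k)) = {k - 1, k} := by
        ext i
        simp only [Finset.mem_filter, Finset.mem_range, Finset.mem_insert, Finset.mem_singleton]
        omega
      rw [h7, Finset.sum_pair (by omega)]
    have h8 : ζ (k - 1) z = z - om / 2 := by
      simp only [hζ]
      have : ((k - 1 : ℕ) : ℝ) = (k:ℝ) - 1 := by
        rw [Nat.cast_sub (by omega), Nat.cast_one]
      rw [this]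
      push_cast
      ring
    have h9 : ζ k z = z + om / 2 := by
      simp only [hζ]
      push_cast
      ring
    simp only [hR]
    rw [h4, h5, h6, h8, h9]
    field_simp
    ring
  obtain ⟨e1, he1, hb1⟩ := hRan.exists_ball_analyticOnNhd
  obtain ⟨e2, he2, hb2⟩ := Metric.eventually_nhds_iff_ball.1 hReq
  refine ⟨min e1 e2, lt_min he1 he2, R, hb1.mono (ball_subset_ball (min_le_left _ _)), ?_⟩
  intro z hz hzim
  exact hb2 z (ball_subset_ball (min_le_right _ _) hz) hzim

end Pool.Agent.MP_ae5b4e_an_LOC
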