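import Mathlib
import Pool.Agent.Lib.MP_ae5b4e_an_LOC.LDef

/-!
# LOC, LT-10: the functions near a base point as functions of `q`

PROOF.  `sq` is the principal square root (`cpow` with exponent `1 / 2`, `0 < re` on `slitPlane`),
`T := A.T 0`, `b := B.b n`.
`ul i q := f i (b + T (-I * sq q))`, `uR i q := f i (b + T (sq (-q)))`,
`uL i q := f i (b - T (sq (-q)))`.
`rq` small: `sqrt rq < rho1` and everything below stays in the small balls.
`ul_an`: for `q ∈ slitPlane` the number `-I * sq q` has negative imaginary part, hence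
`T (-I * sq q)` has negative imaginary part (`T (conj w) = conj (T w)` and injectivity of `T`
(`s_T`) give `T w` real iff `w` real; connectedness of the half ball, or directly: if
`0 ≤ im (T w)`, `im w < 0`, join on the segment from `w` to `-I t`); so `b + ..` is in the strip.
`c4` small: for `-q` in the sector `y := T (sq (-q))` satisfies `|y.im| ≤ (c / 4) ‖y‖` (from
`TInv.close`, `c := L.c`) and `b ± y` is in `ball (b ± y.re) (c |y.re|)` where `f i` is analytic
(`L.f_loc` with `x0 = b ± y.re`, `d = |y.re|`; the distance to the other base points is at least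
`1 / 2 - |y.re|`).
`eqR`: for `0 < q.im` and `q` in the sector `-I * sq q = sq (-q)` (equal squares, both real parts
positive); `eqL`: `-I * sq q = - sq (-q)` and `T` is odd.
`eq_low`: `S := B.s 0 y`; `im S < 0` (the same argument as above, for `s`), `sq (-S ^ 2) = I * S`,
`-I * (I * S) = S`, `T S = y` (`T_s`).  `eq_right`, `eq_left`: `S t` is real and positive,
`sq (S ^ 2) = S`.
-/

set_option autoImplicit false

noncomputable section

namespace Pool.Agent.MP_ae5b4e_an_LOC

open Set Metric Complex ComplexConjugate Filter Topology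

/-- the principal square root -/
private def sq (q : ℂ) : ℂ := q ^ (2⁻¹ : ℂ)

private theorem sq_sq (q : ℂ) : sq q ^ 2 = q := by
  have h := Complex.cpow_nat_inv_pow q (n := 2) two_ne_zero
  rw [Nat.cast_ofNat] at h
  exact h

private theorem sq_of_sq {z : ℂ} (hz : 0 < z.re) : sq (z ^ 2) = z := Complex.sq_cpow_two_inv hz

private theorem sq_re {q : ℂ} (hq : q ∈ slitPlane) : 0 < (sq q).re := by
  unfold sq
  rw [Complex.cpow_inv_two_re]
  apply Real.sqrt_pos.mpr
  rcases mem_slitPlane_iff.mp hq with h | h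
  · have := norm_nonneg q
    linarith
  · have h1 : |q.re| < ‖q‖ := by
      rw [abs_re_lt_norm]
      exact h
    have h2 := neg_abs_le q.re
    linarith

private theorem sq_an {q : ℂ} (hq : q ∈ slitPlane) : AnalyticAt ℂ sq q :=
  AnalyticAt.cpow analyticAt_id analyticAt_const hq

private theorem sq_norm (q : ℂ) : ‖sq q‖ ^ 2 = ‖q‖ := by
  rw [← norm_pow, sq_sq]

private theorem sq_norm_lt {q : ℂ} {r s : ℝ} (hs : 0 < s) (hr : r ≤ s ^ 2) (hq : ‖q‖ < r) :
    ‖sq q‖ < s := by
  have h := sq_norm q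
  have h1 := norm_nonneg (sq q)
  by_contra hc
  push Not at hc
  nlinarith

private theorem slit_sq {z : ℂ} (hz : 0 < z.re) : z ^ 2 ∈ slitPlane := by
  rw [mem_slitPlane_iff]
  by_cases h : z.im = 0
  · left
    rw [pow_two, mul_re, h]
    nlinarith
  · right
    rw [pow_two, mul_im]
    intro h1
    apply h
    have h2 : z.re * z.im = 0 := by linarith
    rcases mul_eq_zero.mp h2 with h3 | h3
    · linarith
    · exact h3

/-- uniqueness of the root with positive real part -/
private theorem root_eq {a b : ℂ} (h : a ^ 2 = b ^ 2) (ha : 0 < a.re) (hb : 0 < b.re) : a = b := by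
  rw [← sq_of_sq ha, ← sq_of_sq hb, h]

/-- the sign of the imaginary part -/
private theorem sign_low (g : ℂ → ℂ) (r : ℝ) (hc : ContinuousOn g (ball 0 r))
    (hconj : ∀ w ∈ ball (0:ℂ) r, g (conj w) = conj (g w))
    (hinj : InjOn g (ball 0 r)) (t : ℝ) (ht : 0 < t) (htr : t < r)
    (h1 : (g (-I * t)).im < 0) (w : ℂ) (hw : w ∈ ball (0:ℂ) r) (hwi : w.im < 0) :
    (g w).im < 0 := by
  by_contra hcon
  push Not at hcon
  have hpre : IsPreconnected (ball (0:ℂ) r ∩ {w : ℂ | w.im < 0}) :=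
    ((convex_ball (0:ℂ) r).inter (convex_halfSpace_im_lt 0)).isPreconnected
  have hm : (-I * t : ℂ) ∈ ball (0:ℂ) r ∩ {w : ℂ | w.im < 0} := by
    constructor
    · rw [mem_ball_zero_iff, norm_mul, norm_neg, norm_I, one_mul, norm_real, Real.norm_eq_abs,
        abs_of_pos ht]
      exact htr
    · simpa using ht
  have hcim : ContinuousOn (fun w => (g w).im) (ball (0:ℂ) r ∩ {w : ℂ | w.im < 0}) :=
    continuous_im.comp_continuousOn (hc.mono inter_subset_left)
  obtain ⟨v, hv, hv0⟩ := hpre.intermediate_value hm (show w ∈ _ from ⟨hw, hwi⟩) hcim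
    (show (0:ℝ) ∈ Icc ((g (-I * t)).im) ((g w).im) from ⟨h1.le, hcon⟩)
  have hv1 : conj v ∈ ball (0:ℂ) r := by
    have := hv.1
    rw [mem_ball_zero_iff] at this ⊢
    rwa [Complex.norm_conj]
  have h2 : g (conj v) = g v := by
    rw [hconj v hv.1, Complex.conj_eq_iff_im]
    exact hv0
  have h3 : conj v = v := hinj hv1 hv.1 h2
  have h4 : v.im = 0 := Complex.conj_eq_iff_im.mp h3
  have h5 : v.im < 0 := hv.2
  linarith

/-- the basic facts on `T 0` -/
private theorem T_low {B : Bg} (A : TInv B) (w : ℂ) (hw : w ∈ ball (0:ℂ) A.rho1)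
    (hwi : w.im < 0) : (A.T 0 w).im < 0 := by
  have h0 : (0:ℂ) ∈ ball (0:ℂ) A.w1 := mem_ball_self A.w1_pos
  have hk := B.kap_pos
  have hC : 0 < A.C := lt_of_lt_of_le one_pos A.one_le_C
  have hr := A.rho1_pos
  -- the point on the axis
  obtain ⟨t, ht0, ht1, ht2⟩ : ∃ t : ℝ, 0 < t ∧ t < A.rho1 ∧ A.C * B.kap * t ^ 2 < 1 := by
    have hD : 0 < A.C * B.kap := by positivity
    refine ⟨min (A.rho1 / 2) (1 / (2 * (A.C * B.kap + 1))), by positivity, ?_, ?_⟩
    · exact lt_of_le_of_lt (min_le_left _ _) (by linarith)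
    · set m := min (A.rho1 / 2) (1 / (2 * (A.C * B.kap + 1))) with hm
      have hm0 : 0 < m := by positivity
      have hm1 : m ≤ 1 / (2 * (A.C * B.kap + 1)) := min_le_right _ _
      have hm2 : m * (2 * (A.C * B.kap + 1)) ≤ 1 := by
        rw [le_div_iff₀ (by positivity)] at hm1
        exact hm1
      have hm3 : m ≤ 1 := by nlinarith
      nlinarith
  refine sign_low (A.T 0) A.rho1 ?_ ?_ ?_ t ht0 ht1 ?_ w hw hwi
  · intro v hv
    have h1 := (A.an (0, v) ⟨h0, hv⟩).continuousAt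
    have h2 : ContinuousAt (fun v : ℂ => ((0:ℂ), v)) v := by fun_prop
    exact (ContinuousAt.comp (f := fun v : ℂ => ((0:ℂ), v)) (x := v) h1 h2).continuousWithinAt
  · intro v hv
    have := A.T_conj 0 h0 v hv
    rwa [map_zero] at this
  · intro v hv v' hv' hvv
    rw [← A.s_T 0 h0 v hv, ← A.s_T 0 h0 v' hv', hvv]
  · have hm : (-I * t : ℂ) ∈ ball (0:ℂ) A.rho1 := by
      rw [mem_ball_zero_iff, norm_mul, norm_neg, norm_I, one_mul, norm_real, Real.norm_eq_abs,
        abs_of_pos ht0]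
      exact ht1
    have hn : ‖(-I * t : ℂ)‖ = t := by
      rw [norm_mul, norm_neg, norm_I, one_mul, norm_real, Real.norm_eq_abs, abs_of_pos ht0]
    have h1 := A.close 0 h0 _ hm
    rw [hn, norm_zero, zero_add] at h1
    have h2 : |(A.T 0 (-I * t) - (-I * t) / B.kap).im| ≤ A.C * t * t ^ 2 :=
      (abs_im_le_norm _).trans h1
    have h3 : ((-I * t : ℂ) / B.kap).im = -(t / B.kap) := by
      have : ((-I * t : ℂ) / B.kap) = ((-(t / B.kap) : ℝ) : ℂ) * I := by
        push_cast
        ring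
      rw [this, im_ofReal_mul, I_im, mul_one]
    rw [sub_im, h3] at h2
    have h4 := (abs_le.mp h2).2
    have h5 : A.C * t * t ^ 2 < t / B.kap := by
      rw [lt_div_iff₀ hk]
      nlinarith
    linarith

private theorem s_cont (B : Bg) : ContinuousOn (B.s 0) (ball 0 B.rho) := by
  intro v hv
  have h1 := (B.s_an (0, v) ⟨mem_ball_self B.r_pos, hv⟩).continuousAt
  have h2 : ContinuousAt (fun v : ℂ => ((0:ℂ), v)) v := by fun_prop
  exact (ContinuousAt.comp (f := fun v : ℂ => ((0:ℂ), v)) (x := v) h1 h2).continuousWithinAt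

private theorem s_bound (B : Bg) (z : ℂ) (hz : z ∈ ball (0:ℂ) B.rho) :
    ‖B.s 0 z - B.kap * z‖ ≤ B.K * ‖z‖ * ‖z‖ ^ 2 := by
  have h := B.s_close 0 (mem_ball_self B.r_pos) z hz
  rwa [norm_zero, zero_add] at h

private theorem s_low {B : Bg} (w : ℂ) (hw : w ∈ ball (0:ℂ) B.rho) (hwi : w.im < 0) :
    (B.s 0 w).im < 0 := by
  have h0 : (0:ℂ) ∈ ball (0:ℂ) B.r := mem_ball_self B.r_pos
  have hk := B.kap_pos
  have hC : 0 < B.K := lt_of_lt_of_le one_pos B.one_le_K
  have hr := B.rho_pos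
  obtain ⟨t, ht0, ht1, ht2⟩ : ∃ t : ℝ, 0 < t ∧ t < B.rho ∧ B.K * t ^ 2 < B.kap := by
    refine ⟨min (B.rho / 2) (B.kap / (2 * (B.K + B.kap))), by positivity, ?_, ?_⟩
    · exact lt_of_le_of_lt (min_le_left _ _) (by linarith)
    · set m := min (B.rho / 2) (B.kap / (2 * (B.K + B.kap))) with hm
      have hm0 : 0 < m := by positivity
      have hm1 : m ≤ B.kap / (2 * (B.K + B.kap)) := min_le_right _ _
      have hm2 : m * (2 * (B.K + B.kap)) ≤ B.kap := by
        rw [le_div_iff₀ (by positivity)] at hm1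
        exact hm1
      have hm3 : m ≤ 1 := by nlinarith
      nlinarith
  have hm : (-I * t : ℂ) ∈ ball (0:ℂ) B.rho := by
    rw [mem_ball_zero_iff, norm_mul, norm_neg, norm_I, one_mul, norm_real, Real.norm_eq_abs,
      abs_of_pos ht0]
    exact ht1
  refine sign_low (B.s 0) B.rho (s_cont B) ?_ (B.s_inj 0 h0) t ht0 ht1 ?_ w hw hwi
  · intro v hv
    have := B.s_conj 0 h0 v hv
    rwa [map_zero] at this
  · have hn : ‖(-I * t : ℂ)‖ = t := by
      rw [norm_mul, norm_neg, norm_I, one_mul, norm_real, Real.norm_eq_abs, abs_of_pos ht0]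
    have h1 := s_bound B _ hm
    rw [hn] at h1
    have h2 : |(B.s 0 (-I * t) - B.kap * (-I * t)).im| ≤ B.K * t * t ^ 2 :=
      (abs_im_le_norm _).trans h1
    have h3 : ((B.kap : ℂ) * (-I * t)).im = -(B.kap * t) := by
      have : ((B.kap : ℂ) * (-I * t)) = ((-(B.kap * t) : ℝ) : ℂ) * I := by
        push_cast
        ring
      rw [this, im_ofReal_mul, I_im, mul_one]
    rw [sub_im, h3] at h2
    have h4 := (abs_le.mp h2).2
    have h5 : B.K * t * t ^ 2 < B.kap * t := by nlinarith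
    linarith

/-- `T` on a sector around the positive axis -/
private theorem T_sec {B : Bg} (A : TInv B) {c : ℝ} (hc : 0 < c) (hc1 : c ≤ 1) {r : ℝ}
    (hr1 : 16 * A.C * B.kap * r ^ 2 ≤ c / 4) (hr2 : r ≤ A.rho1) (w : ℂ) (hw : ‖w‖ < r)
    (hre : 0 < w.re) (him : |w.im| ≤ c / 4 * w.re) :
    0 < (A.T 0 w).re ∧ |(A.T 0 w).im| < c * (A.T 0 w).re := by
  have h0 : (0:ℂ) ∈ ball (0:ℂ) A.w1 := mem_ball_self A.w1_pos
  have hk := B.kap_pos
  have hC : 0 < A.C := lt_of_lt_of_le one_pos A.one_le_C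
  have hwm : w ∈ ball (0:ℂ) A.rho1 := by
    rw [mem_ball_zero_iff]
    linarith
  have h1 := A.close 0 h0 w hwm
  rw [norm_zero, zero_add] at h1
  set y := A.T 0 w with hy
  set e := y - w / B.kap with he
  have hyw : y = w / B.kap + e := by rw [he]; ring
  have hre' : (w / (B.kap : ℂ)).re = w.re / B.kap := by rw [div_ofReal_re]
  have him' : (w / (B.kap : ℂ)).im = w.im / B.kap := by rw [div_ofReal_im]
  have hyre : y.re = w.re / B.kap + e.re := by rw [hyw, add_re, hre']
  have hyim : y.im = w.im / B.kap + e.im := by rw [hyw, add_im, him']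
  have hn0 := norm_nonneg w
  have hnw : ‖w‖ ≤ 2 * w.re := by
    have h2 := norm_le_abs_re_add_abs_im w
    rw [abs_of_pos hre] at h2
    nlinarith
  have he1 : ‖e‖ ≤ c / 8 * (w.re / B.kap) := by
    have h3 : ‖w‖ ^ 2 ≤ r ^ 2 := by nlinarith
    have h4 : A.C * ‖w‖ * ‖w‖ ^ 2 ≤ A.C * (2 * w.re) * r ^ 2 := by
      have := mul_le_mul hnw h3 (by positivity) (by positivity)
      nlinarith
    have h5 : A.C * (2 * w.re) * r ^ 2 ≤ c / 8 * (w.re / B.kap) := by
      have h6 : A.C * (2 * w.re) * r ^ 2 * B.kap ≤ c / 8 * w.re := by nlinarith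
      have h7 : c / 8 * (w.re / B.kap) = c / 8 * w.re / B.kap := by ring
      rw [h7, le_div_iff₀ hk]
      exact h6
    linarith
  have hu : 0 < w.re / B.kap := by positivity
  have hir : |w.im / B.kap| ≤ c / 4 * (w.re / B.kap) := by
    rw [abs_div, abs_of_pos hk, div_le_iff₀ hk]
    have : c / 4 * (w.re / B.kap) * B.kap = c / 4 * w.re := by field_simp
    rw [this]
    exact him
  have her := (abs_le.mp ((abs_re_le_norm e).trans he1)).1
  have hei := (abs_im_le_norm e).trans he1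
  set u := w.re / B.kap with hu'
  have hcu : c * u ≤ u := by nlinarith
  refine ⟨by rw [hyre]; nlinarith, ?_⟩
  have h8 : |y.im| ≤ c / 4 * u + c / 8 * u := by
    rw [hyim]
    exact (abs_add_le _ _).trans (add_le_add hir hei)
  have h9 : c * (u - c / 8 * u) ≤ c * y.re := by
    rw [hyre]
    nlinarith
  nlinarith

private theorem b_im (B : Bg) (n : ℤ) : (B.b n).im = B.h := by
  unfold Bg.b
  simp

private theorem dist_b (B : Bg) (n m : ℤ) (e : ℝ) (he : |e| ≤ 1 / 8) :
    |e| ≤ ‖B.b n + e - B.b m‖ := by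
  have h1 : B.b n + e - B.b m = (((((n - m : ℤ) : ℝ) / 2 + e : ℝ)) : ℂ) := by
    unfold Bg.b
    push_cast
    ring
  rw [h1, norm_real, Real.norm_eq_abs]
  by_cases h : n = m
  · rw [h, sub_self, Int.cast_zero, zero_div, zero_add]
  · have h2 : (1:ℝ) ≤ |((n - m : ℤ) : ℝ)| := by
      rw [← Int.cast_abs]
      have : (1:ℤ) ≤ |n - m| := Int.one_le_abs (sub_ne_zero.mpr h)
      exact_mod_cast this
    have h3 : |((n - m : ℤ) : ℝ) / 2| = |((n - m : ℤ) : ℝ)| / 2 := by
      rw [abs_div, abs_of_pos (by norm_num : (0:ℝ) < 2)]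
    have h4 := abs_sub_abs_le_abs_sub (((n - m : ℤ) : ℝ) / 2) (-e)
    rw [abs_neg, sub_neg_eq_add, h3] at h4
    linarith

private theorem an_low {B : Bg} {f : Fin 3 → ℂ → ℂ} (L : Line B f) (n : ℤ) (i : Fin 3) (y : ℂ)
    (hy : ‖y‖ < B.rho) (hyi : y.im < 0) : AnalyticAt ℂ (f i) (B.b n + y) := by
  apply L.f_an i
  change |(B.b n + y).im| < B.h
  rw [add_im, b_im]
  have h1 := (abs_le.mp (abs_im_le_norm y)).1
  have h2 := B.rho_le_h
  have h3 := B.h_pos
  rw [abs_lt]
  constructor <;> linarith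

private theorem an_side {B : Bg} {f : Fin 3 → ℂ → ℂ} (L : Line B f) (n : ℤ) (i : Fin 3) (y : ℂ)
    (hy : ‖y‖ < B.rho) (hyr : 0 < y.re) (hyi : |y.im| < L.c * y.re) :
    AnalyticAt ℂ (f i) (B.b n + y) ∧ AnalyticAt ℂ (f i) (B.b n - y) := by
  have h1 : y.re ≤ ‖y‖ := (le_abs_self _).trans (abs_re_le_norm y)
  have h2 := B.rho_le
  have h3 : ‖y - (y.re : ℂ)‖ = |y.im| := by
    have : y - (y.re : ℂ) = (y.im : ℂ) * I := by
      apply Complex.ext <;> simp
    rw [this, norm_mul, norm_I, mul_one, norm_real, Real.norm_eq_abs]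
  constructor
  · refine L.f_loc i (B.b n + (y.re : ℂ)) y.re ?_ hyr (by linarith) ?_ _ ?_
    · rw [add_im, b_im, ofReal_im, add_zero]
    · intro m
      have := dist_b B n m y.re (by rw [abs_of_pos hyr]; linarith)
      rwa [abs_of_pos hyr] at this
    · rw [mem_ball, dist_eq_norm]
      have : B.b n + y - (B.b n + (y.re : ℂ)) = y - (y.re : ℂ) := by ring
      rw [this, h3]
      exact hyi
  · refine L.f_loc i (B.b n - (y.re : ℂ)) y.re ?_ hyr (by linarith) ?_ _ ?_
    · rw [sub_im, b_im, ofReal_im, sub_zero]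
    · intro m
      have := dist_b B n m (-y.re) (by rw [abs_neg, abs_of_pos hyr]; linarith)
      rw [abs_neg, abs_of_pos hyr] at this
      rwa [ofReal_neg, ← sub_eq_add_neg] at this
    · rw [mem_ball, dist_eq_norm]
      have : B.b n - y - (B.b n - (y.re : ℂ)) = -(y - (y.re : ℂ)) := by ring
      rw [this, norm_neg, h3]
      exact hyi

private theorem T_an {B : Bg} (A : TInv B) (w : ℂ) (hw : w ∈ ball (0:ℂ) A.rho1) :
    AnalyticAt ℂ (A.T 0) w := by
  have h1 := A.an (0, w) ⟨mem_ball_self A.w1_pos, hw⟩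
  have h2 : AnalyticAt ℂ (fun v : ℂ => ((0:ℂ), v)) w := analyticAt_const.prod analyticAt_id
  exact AnalyticAt.comp (g := fun p : ℂ × ℂ => A.T p.1 p.2) (f := fun v : ℂ => ((0:ℂ), v)) h1 h2

/-- the root on the sector -/
private theorem sec_root {c4 r : ℝ} {q : ℂ} (hc : 0 < c4) (hr : 0 < r) (hq : q ∈ Sec c4 (r ^ 2)) :
    -q ∈ slitPlane ∧ 0 < (sq (-q)).re ∧ |(sq (-q)).im| ≤ c4 / 2 * (sq (-q)).re ∧
      ‖sq (-q)‖ < r := by
  obtain ⟨hq1, hq2⟩ := hq
  have hre : 0 < (-q).re := by
    rw [neg_re]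
    have := abs_nonneg q.im
    by_contra hcon
    push Not at hcon
    nlinarith
  have hs : -q ∈ slitPlane := mem_slitPlane_iff.mpr (Or.inl hre)
  have hp := sq_re hs
  refine ⟨hs, hp, ?_, sq_norm_lt hr le_rfl (by rwa [norm_neg])⟩
  have h1 := sq_sq (-q)
  set w := sq (-q) with hw
  have h2 : (w ^ 2).re = -q.re := by rw [h1, neg_re]
  have h3 : (w ^ 2).im = -q.im := by rw [h1, neg_im]
  rw [pow_two, mul_re] at h2
  rw [pow_two, mul_im] at h3
  have h4 : |q.im| = 2 * w.re * |w.im| := by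
    have : q.im = -(2 * w.re * w.im) := by linarith
    rw [this, abs_neg, abs_mul, abs_of_pos (by linarith : 0 < 2 * w.re)]
  have h5 : 2 * w.re * |w.im| < c4 * (w.re * w.re - w.im * w.im) := by
    rw [← h4, h2]
    exact hq2
  have h6 : 0 ≤ w.im * w.im := mul_self_nonneg _
  have h7 : 2 * w.re * |w.im| ≤ c4 * (w.re * w.re) := by nlinarith
  by_contra hcon
  push Not at hcon
  nlinarith

theorem exists_Slit {B : Bg} {f : Fin 3 → ℂ → ℂ} (L : Line B f) (A : TInv B) (n : ℤ) :
    Nonempty (Slit B f n) := by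
  have h0 : (0:ℂ) ∈ ball (0:ℂ) A.w1 := mem_ball_self A.w1_pos
  have hk := B.kap_pos
  have hK : 1 ≤ B.K := B.one_le_K
  have hC : 0 < A.C := lt_of_lt_of_le one_pos A.one_le_C
  have hc := L.c_pos
  have hc1 := L.c_le
  have hrho := B.rho_pos
  have hrho1 := A.rho1_pos
  have hrho8 := B.rho_le
  -- the radius
  obtain ⟨r, hr0, hr1, hr2⟩ : ∃ r : ℝ, 0 < r ∧ 16 * A.C * B.kap * r ^ 2 ≤ L.c / 4 ∧
      r ≤ A.rho1 := by
    have hD : 0 < 16 * A.C * B.kap := by positivity
    refine ⟨min A.rho1 (L.c / (4 * (16 * A.C * B.kap + 1))), by positivity, ?_, min_le_left _ _⟩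
    set m := min A.rho1 (L.c / (4 * (16 * A.C * B.kap + 1))) with hm
    have hm0 : 0 < m := by positivity
    have hm1 : m ≤ L.c / (4 * (16 * A.C * B.kap + 1)) := min_le_right _ _
    have hm2 : m * (4 * (16 * A.C * B.kap + 1)) ≤ L.c := by
      rw [le_div_iff₀ (by positivity)] at hm1
      exact hm1
    have hm3 : m ≤ 1 := by nlinarith
    nlinarith
  obtain ⟨y0, hy0, hy1, hy2, hy3, hy4⟩ : ∃ y0 : ℝ, 0 < y0 ∧ y0 ≤ B.rho ∧
      y0 ≤ A.rho1 / (2 * B.kap) ∧ (B.kap + B.K) * y0 ≤ r ∧ B.K * y0 ≤ B.kap := by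
    refine ⟨min (min B.rho (A.rho1 / (2 * B.kap))) (min (r / (B.kap + B.K)) (B.kap / B.K)),
      by positivity, (min_le_left _ _).trans (min_le_left _ _),
      (min_le_left _ _).trans (min_le_right _ _), ?_, ?_⟩
    · have := (min_le_right (min B.rho (A.rho1 / (2 * B.kap)))
        (min (r / (B.kap + B.K)) (B.kap / B.K))).trans (min_le_left _ _)
      rw [le_div_iff₀ (by positivity)] at this
      linarith
    · have := (min_le_right (min B.rho (A.rho1 / (2 * B.kap)))
        (min (r / (B.kap + B.K)) (B.kap / B.K))).trans (min_le_right _ _)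
      rw [le_div_iff₀ (by positivity)] at this
      linarith
  have hball : ∀ w : ℂ, ‖w‖ < r → w ∈ ball (0:ℂ) A.rho1 := by
    intro w hw
    rw [mem_ball_zero_iff]
    linarith
  -- the values of `s`
  have hs1 : ∀ y : ℂ, ‖y‖ < y0 → ‖B.s 0 y‖ < r := by
    intro y hy
    have h1 : y ∈ ball (0:ℂ) B.rho := by
      rw [mem_ball_zero_iff]
      linarith
    have h2 := s_bound B y h1
    have h3 : ‖B.s 0 y‖ ≤ ‖B.s 0 y - B.kap * y‖ + ‖(B.kap : ℂ) * y‖ := by
      have := norm_add_le (B.s 0 y - B.kap * y) ((B.kap : ℂ) * y)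
      rwa [sub_add_cancel] at this
    have h4 : ‖(B.kap : ℂ) * y‖ = B.kap * ‖y‖ := by
      rw [norm_mul, norm_real, Real.norm_eq_abs, abs_of_pos hk]
    have h5 := norm_nonneg y
    have h6 : ‖y‖ ^ 2 ≤ 1 := by nlinarith
    have h7 : B.K * ‖y‖ * ‖y‖ ^ 2 ≤ B.K * ‖y‖ := by
      have : 0 ≤ B.K * ‖y‖ := by positivity
      nlinarith
    by_cases h8 : ‖y‖ = 0
    · rw [h8] at h7 h4
      have : ‖B.s 0 y‖ ≤ 0 := by
        rw [h4] at h3
        rw [h8] at h2
        nlinarith
      linarith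
    · have h9 : 0 < ‖y‖ := lt_of_le_of_ne h5 (Ne.symm h8)
      have h10 : (B.kap + B.K) * ‖y‖ < (B.kap + B.K) * y0 :=
        mul_lt_mul_of_pos_left hy (by positivity)
      rw [h4] at h3
      linarith
  have hTs : ∀ y : ℂ, ‖y‖ < y0 → A.T 0 (B.s 0 y) = y := fun y hy =>
    A.T_s 0 h0 y (lt_of_lt_of_le hy hy2)
  -- real points
  have hreal : ∀ t : ℝ, 0 < t → t < y0 → (B.s 0 t).im = 0 ∧ 0 < (B.s 0 t).re := by
    intro t ht ht0
    have hn : ‖(t : ℂ)‖ = t := by rw [norm_real, Real.norm_eq_abs, abs_of_pos ht]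
    have h1 : (t : ℂ) ∈ ball (0:ℂ) B.rho := by
      rw [mem_ball_zero_iff, hn]
      linarith
    constructor
    · have h2 := B.s_conj 0 (mem_ball_self B.r_pos) t h1
      rw [map_zero, conj_ofReal] at h2
      exact Complex.conj_eq_iff_im.mp h2.symm
    · have h2 := s_bound B t h1
      rw [hn] at h2
      have h3 := (abs_le.mp ((abs_re_le_norm _).trans h2)).1
      have h4 : ((B.kap : ℂ) * t).re = B.kap * t := by
        rw [← ofReal_mul, ofReal_re]
      rw [sub_re, h4] at h3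
      have h5 : t ≤ 1 := by linarith
      have h6 : B.K * t < B.kap := by nlinarith
      have h7 : B.K * t * t ^ 2 < B.kap * t := by
        have h8 : B.K * t * t ^ 2 ≤ B.K * t * t := by
          have : t ^ 2 ≤ t := by nlinarith
          exact mul_le_mul_of_nonneg_left this (by positivity)
        nlinarith
      linarith
  have hsecr : ∀ t : ℝ, 0 < t → t < y0 → -B.s 0 t ^ 2 ∈ Sec (L.c / 2) (r ^ 2) := by
    intro t ht ht0
    obtain ⟨h1, h2⟩ := hreal t ht ht0
    have hn : ‖(t : ℂ)‖ = t := by rw [norm_real, Real.norm_eq_abs, abs_of_pos ht]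
    have h3 := hs1 t (by rw [hn]; exact ht0)
    constructor
    · rw [norm_neg, norm_pow]
      have := norm_nonneg (B.s 0 t)
      nlinarith
    · rw [neg_im, neg_re, neg_neg, pow_two, mul_im, mul_re, h1, mul_zero, zero_mul, add_zero,
        neg_zero, abs_zero, mul_zero, sub_zero]
      positivity
  refine ⟨{
    c4 := L.c / 2
    rq := r ^ 2
    y0 := y0
    ul := fun i q => f i (B.b n + A.T 0 (-I * sq q))
    uR := fun i q => f i (B.b n + A.T 0 (sq (-q)))
    uL := fun i q => f i (B.b n - A.T 0 (sq (-q)))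
    c4_pos := by positivity
    rq_pos := by positivity
    y0_pos := hy0
    ul_an := ?_
    uR_an := ?_
    uL_an := ?_
    eqR := ?_
    eqL := ?_
    eq_low := ?_
    eq_right := ?_
    eq_left := ?_ }⟩
  · rintro i q ⟨hq1, hq2⟩
    rw [mem_ball_zero_iff] at hq2
    have h1 : ‖-I * sq q‖ < r := by
      rw [norm_mul, norm_neg, norm_I, one_mul]
      exact sq_norm_lt hr0 le_rfl hq2
    have h2 : (-I * sq q).im < 0 := by
      have h3 : (-I * sq q).im = -(sq q).re := by simp
      rw [h3]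
      linarith [sq_re hq1]
    have h4 := T_low A _ (hball _ h1) h2
    have h5 := A.T_lt 0 h0 _ (hball _ h1)
    have h6 := an_low L n i _ h5 h4
    have h7 : AnalyticAt ℂ (fun q => B.b n + A.T 0 (-I * sq q)) q := by
      refine analyticAt_const.add ?_
      exact AnalyticAt.comp (g := A.T 0) (f := fun q => -I * sq q) (T_an A _ (hball _ h1))
        (analyticAt_const.mul (sq_an hq1))
    exact AnalyticAt.comp (g := f i) (f := fun q => B.b n + A.T 0 (-I * sq q)) h6 h7
  · intro i q hq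
    obtain ⟨hs, h1, h2, h3⟩ := sec_root (by positivity) hr0 hq
    obtain ⟨h4, h5⟩ := T_sec A hc hc1 hr1 hr2 _ h3 h1 (by linarith)
    have h6 := (an_side L n i _ (A.T_lt 0 h0 _ (hball _ h3)) h4 h5).1
    have h7 : AnalyticAt ℂ (fun q => B.b n + A.T 0 (sq (-q))) q := by
      refine analyticAt_const.add ?_
      exact AnalyticAt.comp (g := A.T 0) (f := fun q => sq (-q)) (T_an A _ (hball _ h3))
        (AnalyticAt.comp (g := sq) (f := fun q => -q) (sq_an hs) analyticAt_id.neg)
    exact AnalyticAt.comp (g := f i) (f := fun q => B.b n + A.T 0 (sq (-q))) h6 h7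
  · intro i q hq
    obtain ⟨hs, h1, h2, h3⟩ := sec_root (by positivity) hr0 hq
    obtain ⟨h4, h5⟩ := T_sec A hc hc1 hr1 hr2 _ h3 h1 (by linarith)
    have h6 := (an_side L n i _ (A.T_lt 0 h0 _ (hball _ h3)) h4 h5).2
    have h7 : AnalyticAt ℂ (fun q => B.b n - A.T 0 (sq (-q))) q := by
      refine analyticAt_const.sub ?_
      exact AnalyticAt.comp (g := A.T 0) (f := fun q => sq (-q)) (T_an A _ (hball _ h3))
        (AnalyticAt.comp (g := sq) (f := fun q => -q) (sq_an hs) analyticAt_id.neg)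
    exact AnalyticAt.comp (g := f i) (f := fun q => B.b n - A.T 0 (sq (-q))) h6 h7
  · intro i q hq hqi
    obtain ⟨hs, h1, h2, h3⟩ := sec_root (by positivity) hr0 hq
    have hq' : q ∈ slitPlane := mem_slitPlane_iff.mpr (Or.inr hqi.ne')
    have h4 := sq_re hq'
    have h5 : (sq q ^ 2).im = q.im := by rw [sq_sq]
    rw [pow_two, mul_im] at h5
    have h6 : 0 < (sq q).im := by
      by_contra hcon
      push Not at hcon
      nlinarith
    have h7 : -I * sq q = sq (-q) := by
      apply root_eq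
      · rw [mul_pow, sq_sq, sq_sq, neg_sq, I_sq]
        ring
      · have : (-I * sq q).re = (sq q).im := by simp
        rw [this]
        exact h6
      · exact h1
    change f i (B.b n + A.T 0 (-I * sq q)) = f i (B.b n + A.T 0 (sq (-q)))
    rw [h7]
  · intro i q hq hqi
    obtain ⟨hs, h1, h2, h3⟩ := sec_root (by positivity) hr0 hq
    have hq' : q ∈ slitPlane := mem_slitPlane_iff.mpr (Or.inr hqi.ne)
    have h4 := sq_re hq'
    have h5 : (sq q ^ 2).im = q.im := by rw [sq_sq]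
    rw [pow_two, mul_im] at h5
    have h6 : (sq q).im < 0 := by
      by_contra hcon
      push Not at hcon
      nlinarith
    have h7 : I * sq q = sq (-q) := by
      apply root_eq
      · rw [mul_pow, sq_sq, sq_sq, I_sq]
        ring
      · have : (I * sq q).re = -(sq q).im := by simp
        rw [this]
        linarith
      · exact h1
    change f i (B.b n + A.T 0 (-I * sq q)) = f i (B.b n - A.T 0 (sq (-q)))
    have h8 : -I * sq q = -sq (-q) := by rw [← h7]; ring
    rw [h8, A.odd 0 h0 _ (hball _ h3), ← sub_eq_add_neg]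
  · intro i y hy hyi
    have h1 : y ∈ ball (0:ℂ) B.rho := by
      rw [mem_ball_zero_iff]
      linarith
    have h2 := s_low y h1 hyi
    have h3 := hs1 y hy
    have h4 : (I * B.s 0 y).re = -(B.s 0 y).im := by simp
    have h5 : 0 < (I * B.s 0 y).re := by rw [h4]; linarith
    have h6 : -B.s 0 y ^ 2 = (I * B.s 0 y) ^ 2 := by
      rw [mul_pow, I_sq]
      ring
    refine ⟨⟨?_, ?_⟩, ?_⟩
    · rw [h6]
      exact slit_sq h5
    · rw [mem_ball_zero_iff, norm_neg, norm_pow]
      have := norm_nonneg (B.s 0 y)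
      nlinarith
    · change f i (B.b n + y) = f i (B.b n + A.T 0 (-I * sq (-B.s 0 y ^ 2)))
      have h7 : -I * sq (-B.s 0 y ^ 2) = B.s 0 y := by
        rw [h6, sq_of_sq h5, ← mul_assoc, neg_mul, I_mul_I, neg_neg, one_mul]
      rw [h7, hTs y hy]
  · intro i t ht ht0
    refine ⟨hsecr t ht ht0, ?_⟩
    obtain ⟨h1, h2⟩ := hreal t ht ht0
    have hn : ‖(t : ℂ)‖ = t := by rw [norm_real, Real.norm_eq_abs, abs_of_pos ht]
    change f i (B.b n + t) = f i (B.b n + A.T 0 (sq (-(-B.s 0 t ^ 2))))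
    rw [neg_neg, sq_of_sq h2, hTs t (by rw [hn]; exact ht0)]
  · intro i t ht ht0
    refine ⟨hsecr t ht ht0, ?_⟩
    obtain ⟨h1, h2⟩ := hreal t ht ht0
    have hn : ‖(t : ℂ)‖ = t := by rw [norm_real, Real.norm_eq_abs, abs_of_pos ht]
    change f i (B.b n - t) = f i (B.b n - A.T 0 (sq (-(-B.s 0 t ^ 2))))
    rw [neg_neg, sq_of_sq h2, hTs t (by rw [hn]; exact ht0)]

end Pool.Agent.MP_ae5b4e_an_LOC
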