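import Mathlib
import Pool.Agent.Lib.MP_ae5b4e_an_LOC.LBr
import Pool.Agent.Lib.MP_ae5b4e_an_LOC.InvL
import Pool.Agent.Lib.MP_ae5b4e_an_LOC.InvS
import Pool.Agent.Lib.MP_ae5b4e_an_LOC.UL
import Pool.Agent.Lib.MP_ae5b4e_an_LOC.Locr
import Pool.Agent.Lib.MP_ae5b4e_an_LOC.Jump

/-!
# LOC, LT-10 .. LT-12: the outcome `UStmt`
-/

set_option autoImplicit false

noncomputable section

namespace Pool.Agent.MP_ae5b4e_an_LOC

open Set Metric Complex ComplexConjugate Filter Topology

private lemma punct {r : ℝ} (hr : 0 < r) : IsPreconnected (ball (0:ℂ) r \ {0}) := by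
  have hc : ∀ H : Set ℂ, Convex ℝ H → IsPreconnected (ball (0:ℂ) r ∩ H) := fun H hH =>
    ((convex_ball (0:ℂ) r).inter hH).isPreconnected
  have hp : ∀ a b : ℝ, |a| ≤ r / 4 → |b| ≤ r / 4 → (⟨a, b⟩ : ℂ) ∈ ball (0:ℂ) r := by
    intro a b h1 h2
    rw [mem_ball_zero_iff]
    refine (Complex.norm_le_abs_re_add_abs_im _).trans_lt ?_
    simp only
    linarith
  have h4 : |r / 4| ≤ r / 4 := by rw [abs_of_pos (by positivity)]
  have h4' : |-(r / 4)| ≤ r / 4 := by rw [abs_neg, abs_of_pos (by positivity)]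
  have h12 := IsPreconnected.union (⟨r / 4, -(r / 4)⟩ : ℂ)
    (s := ball (0:ℂ) r ∩ {c : ℂ | c.im < 0}) (t := ball (0:ℂ) r ∩ {c : ℂ | 0 < c.re})
    ⟨hp _ _ h4 h4', by show -(r / 4) < (0:ℝ); linarith⟩
    ⟨hp _ _ h4 h4', by show (0:ℝ) < r / 4; positivity⟩ (hc _ (convex_halfSpace_im_lt 0))
    (hc _ (convex_halfSpace_re_gt 0))
  have h123 := IsPreconnected.union (⟨-(r / 4), -(r / 4)⟩ : ℂ)
    (t := ball (0:ℂ) r ∩ {c : ℂ | c.re < 0})
    (Or.inl ⟨hp _ _ h4' h4', by show -(r / 4) < (0:ℝ); linarith⟩)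
    ⟨hp _ _ h4' h4', by show -(r / 4) < (0:ℝ); linarith⟩ h12 (hc _ (convex_halfSpace_re_lt 0))
  have h1234 := IsPreconnected.union (⟨r / 4, r / 4⟩ : ℂ)
    (t := ball (0:ℂ) r ∩ {c : ℂ | 0 < c.im})
    (Or.inl (Or.inr ⟨hp _ _ h4 h4, by show (0:ℝ) < r / 4; positivity⟩))
    ⟨hp _ _ h4 h4, by show (0:ℝ) < r / 4; positivity⟩ h123 (hc _ (convex_halfSpace_im_gt 0))
  convert h1234 using 1
  ext z
  simp only [mem_diff, mem_singleton_iff, mem_union, mem_inter_iff]
  constructor
  · rintro ⟨h1, h2⟩
    by_contra hcon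
    refine h2 (Complex.ext ?_ ?_)
    · by_contra h3
      rcases lt_or_gt_of_ne h3 with h4 | h4
      · exact hcon (Or.inl (Or.inr ⟨h1, h4⟩))
      · exact hcon (Or.inl (Or.inl (Or.inr ⟨h1, h4⟩)))
    · by_contra h3
      rcases lt_or_gt_of_ne h3 with h4 | h4
      · exact hcon (Or.inl (Or.inl (Or.inl ⟨h1, h4⟩)))
      · exact hcon (Or.inr ⟨h1, h4⟩)
  · intro h
    have key : ∀ H : Set ℂ, (0:ℂ) ∉ H → z ∈ ball (0:ℂ) r ∧ z ∈ H → z ∈ ball (0:ℂ) r ∧ ¬ z = 0 :=
      fun H h0 hz => ⟨hz.1, fun h => h0 (h ▸ hz.2)⟩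
    rcases h with ((h | h) | h) | h
    · exact key _ (by show ¬ ((0:ℂ).im < 0); simp) h
    · exact key _ (by show ¬ ((0:ℝ) < (0:ℂ).re); simp) h
    · exact key _ (by show ¬ ((0:ℂ).re < 0); simp) h
    · exact key _ (by show ¬ ((0:ℝ) < (0:ℂ).im); simp) h

theorem u_stmt (B : Bg) (hLine : LineStmt B) : UStmt B := by
  intro f n hf
  obtain ⟨c, hc, hc1, H⟩ := hLine
  obtain ⟨f', G, c0, hff, hL⟩ := H f hf
  have L := hL.toLine hc (by linarith)
  obtain ⟨A⟩ := exists_TInv B
  obtain ⟨w, z0, hS⟩ := exists_Sgn B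
  obtain ⟨X, hX⟩ := inv_stmt B
  obtain ⟨S⟩ := exists_Slit L A n
  obtain ⟨w2, hw2, hrel⟩ := locr L S hS hX
  obtain ⟨u, huan, hul, -⟩ := jump S hS hw2 hrel
  obtain ⟨δ, hδ, hδr, hδrho, hδN⟩ := B.N_small S.rq_pos
  have hw := hS.w_pos
  have hz0 : 0 < z0 := hw.trans_le hS.w_le'
  have hdl := B.dl_pos
  have hr := B.r_pos
  have hrho := B.rho_pos
  refine ⟨u, S.rq, min δ S.y0, min (min w w2) (min (min z0 B.dl) δ) / 2, ?_⟩
  set a : ℝ := min (min w w2) (min (min z0 B.dl) δ) with ha
  have ha0 : 0 < a := by positivity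
  have a1 : a ≤ w := (min_le_left _ _).trans (min_le_left _ _)
  have a2 : a ≤ w2 := (min_le_left _ _).trans (min_le_right _ _)
  have a3 : a ≤ z0 := (min_le_right _ _).trans ((min_le_left _ _).trans (min_le_left _ _))
  have a4 : a ≤ B.dl := (min_le_right _ _).trans ((min_le_left _ _).trans (min_le_right _ _))
  have a5 : a ≤ δ := (min_le_right _ _).trans (min_le_right _ _)
  refine ⟨S.rq_pos, lt_min hδ S.y0_pos, (min_le_left _ _).trans hδrho, by positivity,
    by linarith [hS.w_le], ?_, ?_, ?_, ?_⟩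
  · intro i q hq hqr
    exact huan i q ⟨mem_ball_zero_iff.2 hqr, hq⟩
  · intro om z hom hz
    exact hδN om z (by linarith) (hz.trans_le (min_le_left _ _))
  · intro i y hy hyim
    obtain ⟨h1, h2⟩ := S.eq_low i y (hy.trans_le (min_le_right _ _)) hyim
    rw [hul i _ h1, ← h2]
    refine (hff i _ ?_).symm
    have h3 : ‖y‖ < B.h := (hy.trans_le ((min_le_left _ _).trans hδrho)).trans_le B.rho_le_h
    have h4 := abs_le.1 (Complex.abs_im_le_norm y)
    rw [mem_Sp]
    have h5 : (B.b n + y).im = B.h + y.im := by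
      unfold Bg.b
      simp
    rw [h5, abs_lt]
    constructor <;> linarith
  · intro om hom0 hom
    obtain ⟨e, he, R, hR, hRe⟩ := hrel om hom0 (by linarith)
    have hnom : ‖(om : ℂ)‖ = om := by
      rw [Complex.norm_real, Real.norm_of_nonneg hom0.le]
    set e' : ℝ := min e (om / 2) with he'
    have he'0 : 0 < e' := by positivity
    refine ⟨e', he'0, R, hR.mono (ball_subset_ball (min_le_left _ _)), ?_⟩
    -- the points
    have hpt : ∀ sg : ℝ, |sg| = 1 → ∀ z : ℂ, ‖z‖ < e' → ‖z + (sg * (om / 2) : ℝ)‖ < om := by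
      intro sg hsg z hz
      refine (norm_add_le _ _).trans_lt ?_
      rw [Complex.norm_real, Real.norm_eq_abs, abs_mul, hsg, one_mul, abs_of_pos (by positivity)]
      have := hz.trans_le (min_le_right _ _)
      linarith
    have han : ∀ sg : ℝ, |sg| = 1 → ∀ z : ℂ, ‖z‖ < e' → z ≠ 0 →
        AnalyticAt ℂ (fun z => B.V u om (z + (sg * (om / 2) : ℝ))) z := by
      intro sg hsg z hz hz0'
      have h1 := hpt sg hsg z hz
      have h2 : B.N om (z + (sg * (om / 2) : ℝ)) ≠ 0 := by
        intro h3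
        have h4 := B.N_zero (om := om) (z := z + (sg * (om / 2) : ℝ)) (by rw [hnom]; linarith)
          (by linarith) h3
        have hz' := hz.trans_le (min_le_right _ _)
        have h5 : z = 0 ∨ z = om ∨ z = -om := by
          rcases eq_or_eq_neg_of_abs_eq hsg with h | h
          · rw [h] at h4
            rcases h4 with h4 | h4
            · left
              have : z = (z + ((1 * (om / 2) : ℝ) : ℂ)) - om / 2 := by push_cast; ring
              rw [this, h4]
              ring
            · right; right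
              have : z = (z + ((1 * (om / 2) : ℝ) : ℂ)) - om / 2 := by push_cast; ring
              rw [this, h4]
              ring
          · rw [h] at h4
            rcases h4 with h4 | h4
            · right; left
              have : z = (z + ((-1 * (om / 2) : ℝ) : ℂ)) + om / 2 := by push_cast; ring
              rw [this, h4]
              ring
            · left
              have : z = (z + ((-1 * (om / 2) : ℝ) : ℂ)) + om / 2 := by push_cast; ring
              rw [this, h4]
              ring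
        rcases h5 with h | h | h
        · exact hz0' h
        · rw [h, hnom] at hz'
          linarith
        · rw [h, norm_neg, hnom] at hz'
          linarith
      have h3 : AnalyticAt ℂ (B.N om) (z + (sg * (om / 2) : ℝ)) :=
        B.N_an (by rw [hnom]; linarith [hS.w_le]) (by linarith)
      have h4 := B.V_an h3 fun l => huan l _ ⟨mem_ball_zero_iff.2
        (hδN om _ (by rw [hnom]; linarith) (by linarith)), h2⟩
      have h5 : AnalyticAt ℂ (fun z : ℂ => z + ((sg * (om / 2) : ℝ) : ℂ)) z := by fun_prop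
      exact h4.comp_of_eq h5 rfl
    have han2 : AnalyticOnNhd ℂ (fun z => B.V u om (z - om / 2) + B.V u om (z + om / 2))
        (ball 0 e' \ {0}) := by
      intro z hz
      have h1 := han (-1) (by norm_num) z (mem_ball_zero_iff.1 hz.1) hz.2
      have h2 := han 1 (by norm_num) z (mem_ball_zero_iff.1 hz.1) hz.2
      have e1 : (fun z => B.V u om (z - om / 2) + B.V u om (z + om / 2)) =
          fun z => B.V u om (z + (-1 * (om / 2) : ℝ)) + B.V u om (z + (1 * (om / 2) : ℝ)) := by
        funext z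
        congr 2
        · push_cast
          ring
        · push_cast
          ring
      rw [e1]
      exact h1.add h2
    have hR' : AnalyticOnNhd ℂ R (ball 0 e' \ {0}) := fun z hz =>
      hR z (ball_subset_ball (min_le_left _ _) hz.1)
    -- equality in the lower half
    have hlow : ∀ z : ℂ, ‖z‖ < e' → z.im < 0 →
        R z = B.V u om (z - om / 2) + B.V u om (z + om / 2) := by
      intro z hz hzim
      rw [hRe z (mem_ball_zero_iff.2 (hz.trans_le (min_le_left _ _))) hzim]
      have key : ∀ sg : ℝ, |sg| = 1 → B.V S.ul om (z + (sg * (om / 2) : ℝ)) =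
          B.V u om (z + (sg * (om / 2) : ℝ)) := by
        intro sg hsg
        have h1 := hpt sg hsg z hz
        have h2 : B.N om (z + (sg * (om / 2) : ℝ)) ∈ slitPlane ∩ ball 0 S.rq := by
          refine ⟨hS.slit om hom0.le (by linarith) _ (by linarith) ?_, mem_ball_zero_iff.2
            (hδN om _ (by rw [hnom]; linarith) (by linarith))⟩
          rw [Complex.add_im, Complex.ofReal_im, add_zero]
          exact hzim.ne
        show B.comb om _ = B.comb om _
        congr 1
        funext l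
        exact (hul l _ h2).symm
      have e1 : z - om / 2 = z + ((-1 * (om / 2) : ℝ) : ℂ) := by push_cast; ring
      have e2 : z + om / 2 = z + ((1 * (om / 2) : ℝ) : ℂ) := by push_cast; ring
      rw [e1, e2, key _ (by norm_num), key _ (by norm_num)]
    have hz1 : (⟨0, -(e' / 2)⟩ : ℂ) ∈ ball (0:ℂ) e' \ {0} := by
      refine ⟨?_, ?_⟩
      · rw [mem_ball_zero_iff]
        refine (Complex.norm_le_abs_re_add_abs_im _).trans_lt ?_
        simp only [abs_zero, abs_neg, zero_add]
        rw [abs_of_pos (by positivity)]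
        linarith
      · intro h
        have := congrArg Complex.im h
        simp only [Complex.zero_im] at this
        linarith
    have hev : R =ᶠ[𝓝 (⟨0, -(e' / 2)⟩ : ℂ)]
        fun z => B.V u om (z - om / 2) + B.V u om (z + om / 2) := by
      have h1 : {z : ℂ | z.im < 0} ∈ 𝓝 (⟨0, -(e' / 2)⟩ : ℂ) := by
        refine (isOpen_lt Complex.continuous_im continuous_const).mem_nhds ?_
        show -(e' / 2) < (0:ℝ)
        linarith
      filter_upwards [isOpen_ball.mem_nhds hz1.1, h1] with z h2 h3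
      exact hlow z (mem_ball_zero_iff.1 h2) h3
    have hfin := hR'.eqOn_of_preconnected_of_eventuallyEq han2 (punct he'0) hz1 hev
    intro z hz0' hz
    exact hfin ⟨mem_ball_zero_iff.2 hz, hz0'⟩

end Pool.Agent.MP_ae5b4e_an_LOC
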