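import Pool.Agent.Lib.MP_ae5b4e_an_LOC.Fe
import Pool.Agent.Lib.MP_ae5b4e_an_LOC.GQ
import Pool.Agent.Lib.MP_ae5b4e_an_LOC.CR
import Pool.Agent.Lib.MP_ae5b4e_an_LOC.STR
import Pool.Agent.Lib.MP_ae5b4e_an_LOC.LINE
import Pool.Agent.Lib.MP_ae5b4e_an_LOC.U
import Pool.Agent.Lib.MP_ae5b4e_an_LOC.RR
import Pool.Agent.Lib.MP_ae5b4e_an_LOC.PG
import Pool.Agent.Lib.MP_ae5b4e_an_LOC.LOC1
import Pool.Agent.Lib.MP_ae5b4e_an_LOC.FIN0
import Pool.Agent.Lib.MP_ae5b4e_an_LOC.LIN
import Pool.Agent.Lib.MP_ae5b4e_an_LOC.LINP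

/-!
# LOC: the linear theory, assembled

Every analytic solution of the linearized laws, with the resonance of the kernel data, is trivial.
-/

set_option autoImplicit false

noncomputable section

namespace Pool.Agent.MP_ae5b4e_an_LOC

variable (B : Bg)

theorem cr_all : CRStmt B := cr_stmt gq_stmt B

theorem line_all : LineStmt B := line_stmt (fe_stmt B) (cr_all B)

theorem str_all : STRStmt B := str_stmt (fe_stmt B) (cr_all B)

theorem u_all : UStmt B := u_stmt B (line_all B)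

theorem rr_all : RRStmt B := rr_stmt B

theorem pg_all : PGStmt B := pg_stmt (rr_all B)

theorem loc1_all : Loc1Stmt B := loc1_stmt B (u_all B) (rr_all B) (pg_all B)

theorem loc2_all : Loc2Stmt B := loc2_stmt B (u_all B) (rr_all B) (pg_all B)

theorem lin_all (D : KerD B) : LINStmt B D :=
  lin_stmt B D (str_all B) (line_all B) (loc1_all B) (loc2_all B) (fin0_stmt B)

theorem lin'_all (D : KerD B) : LIN'Stmt B D := lin'_stmt B D (lin_all B D)

end Pool.Agent.MP_ae5b4e_an_LOC
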