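import Pool.Agent.Lib.MP_ae5b4e_an_LOC.Frm1

/-!
# MP_ae5b4e_an, project LOC: the end of the proof

If the quartic form and the defect `e0` vanish then the curve lies on a conic.
-/

noncomputable section

namespace Pool.Agent.MP_ae5b4e_an_LOC

open Set Filter Topology
open scoped Matrix

/-- the quadratic form `E - k Q` of the moved vector -/
def qE (m k : ℝ) (p : P12) : QuadraticForm ℝ V3 :=
  (m • QuadraticMap.sq.comp (LinearMap.proj (R := ℝ) (φ := fun _ : Fin 3 => ℝ) 0) +
    QuadraticMap.sq.comp (LinearMap.proj (R := ℝ) (φ := fun _ : Fin 3 => ℝ) 1) -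
    QuadraticMap.sq.comp (LinearMap.proj (R := ℝ) (φ := fun _ : Fin 3 => ℝ) 2) -
    k • (QuadraticMap.sq.comp (LinearMap.proj (R := ℝ) (φ := fun _ : Fin 3 => ℝ) 0) +
      QuadraticMap.sq.comp (LinearMap.proj (R := ℝ) (φ := fun _ : Fin 3 => ℝ) 1))).comp
    ((1 + xi m p).mulVecLin)

lemma qE_apply (m k : ℝ) (p : P12) (v : V3) :
    qE m k p v = Ef m (act m p v) - k * Qf (act m p v) := by
  have h : ((1 + xi m p).mulVecLin v : V3) = act m p v := by
    simp [act]
  simp only [qE, QuadraticMap.comp_apply, h]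
  simp [Ef, Qf]
  ring

/-- the frame is invertible -/
lemma exists_det (m : ℝ) : ∃ ε0 > 0, ∀ p : P12, ‖p‖ ≤ ε0 → (1 + xi m p).det ≠ 0 := by
  have hc : Continuous fun p : P12 => (1 + xi m p).det := by
    have h : Continuous fun p : P12 => (1 + xi m p) := by
      refine continuous_const.add ?_
      refine continuous_matrix fun i j => ?_
      fin_cases i <;> fin_cases j <;> simp [xi, xi00, xi01] <;> fun_prop
    exact h.matrix_det
  have h0 : (1 + xi m (0 : P12)).det = 1 := by
    have : xi m (0 : P12) = 0 := by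
      have := xi_smul m 0 (0 : P12)
      simpa using this
    rw [this, add_zero, Matrix.det_one]
  have hne : ∀ᶠ p in 𝓝 (0 : P12), (1 + xi m p).det ≠ 0 := by
    have h1 := hc.continuousAt (x := (0 : P12))
    exact h1.eventually_ne (by rw [h0]; exact one_ne_zero)
  rw [Metric.eventually_nhds_iff] at hne
  obtain ⟨ε, hε, h⟩ := hne
  refine ⟨ε / 2, by positivity, fun p hp => h ?_⟩
  rw [dist_zero_right]
  linarith

/-- THE END: no quartic form, no defect `e0`: the curve lies on a conic. -/
theorem cone_loc (m : ℝ) : ∃ ε0 > 0, ∀ p : P12, ‖p‖ ≤ ε0 → pc p = 0 → ∀ (k : ℝ) (V W : ℝ → V3),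
    (∀ x, HasDerivAt V (k • W x) x) → (∀ x, (nmf m p (V x) (W x)).al0 ≠ 0) →
    (∀ x, (nmf m p (V x) (W x)).e0 = 0) →
    ∃ C : QuadraticForm ℝ V3, C ≠ 0 ∧ ∀ x, C (V x) = 0 := by
  obtain ⟨ε0, hε0, hdet⟩ := exists_det m
  refine ⟨ε0, hε0, fun p hp hc k V W hd hal he => ?_⟩
  -- the derivative of the moved curve
  have hA : ∀ x, HasDerivAt (fun x => act m p (V x)) (k • act m p (W x)) x := by
    intro x
    have h1 : HasDerivAt (fun x => (xi m p).mulVec (V x)) ((xi m p).mulVec (k • W x)) x :=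
      ((xi m p).mulVecLin.toContinuousLinearMap).hasFDerivAt.comp_hasDerivAt x (hd x)
    have h2 := (hd x).add h1
    refine h2.congr_deriv ?_
    rw [act, Matrix.mulVec_smul, smul_add]
  have hA' : ∀ x i, HasDerivAt (fun x => act m p (V x) i) (k * act m p (W x) i) x := fun x i =>
    hasDerivAt_pi.1 (hA x) i
  have dE : ∀ x, HasDerivAt (fun x => Ef m (act m p (V x)))
      (k * Eb m (act m p (V x)) (act m p (W x))) x := by
    intro x
    refine (((((hA' x 0).pow 2).const_mul m).add ((hA' x 1).pow 2)).sub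
      ((hA' x 2).pow 2)).congr_deriv ?_
    simp only [Eb]
    ring
  have dQ : ∀ x, HasDerivAt (fun x => Qf (act m p (V x)))
      (k * Qb (act m p (V x)) (act m p (W x))) x := by
    intro x
    refine (((hA' x 0).pow 2).add ((hA' x 1).pow 2)).congr_deriv ?_
    simp only [Qb]
    ring
  have hQ : ∀ x, Qf (act m p (V x)) ≠ 0 := hal
  have hG : ∀ V W, G0 (0 : Fin 4 → ℝ) V W = 0 ∧ G1 (0 : Fin 4 → ℝ) V W = 0 := by
    intro V W
    simp [G0, G1, Rf, Rb]
  -- the quotient is constant
  have hconst : ∀ x y, Ef m (act m p (V x)) / Qf (act m p (V x)) =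
      Ef m (act m p (V y)) / Qf (act m p (V y)) := by
    have hd0 : ∀ x, HasDerivAt (fun x => Ef m (act m p (V x)) / Qf (act m p (V x))) 0 x := by
      intro x
      refine ((dE x).div (dQ x) (hQ x)).congr_deriv ?_
      have h1 := he x
      have h2 := hQ x
      simp only [nmf, nmj, Nm.e0, Nm.b1, Nm.ka, Nm.g1, hc, (hG _ _).1, (hG _ _).2] at h1
      field_simp at h1 ⊢
      have h3 : 2 * Qf (act m p (V x)) * (Eb m (act m p (V x)) (act m p (W x)) *
          Qf (act m p (V x)) - Qb (act m p (V x)) (act m p (W x)) * Ef m (act m p (V x))) = 0 := by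
        linear_combination h1
      have h4 := (mul_eq_zero.1 h3).resolve_left (mul_ne_zero two_ne_zero h2)
      linear_combination k * h4
    exact fun x y => is_const_of_deriv_eq_zero (fun x => (hd0 x).differentiableAt)
      (fun x => (hd0 x).deriv) x y
  refine ⟨qE m (Ef m (act m p (V 0)) / Qf (act m p (V 0))) p, fun h0 => ?_, fun x => ?_⟩
  · -- the form is not zero
    have hu : IsUnit (1 + xi m p).det := isUnit_iff_ne_zero.2 (hdet p hp)
    set v : V3 := (1 + xi m p)⁻¹.mulVec (Pi.single 2 1) with hv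
    have h1 : act m p v = Pi.single 2 1 := by
      have h2 : act m p v = (1 + xi m p).mulVec v := by
        rw [act, Matrix.add_mulVec, Matrix.one_mulVec]
      rw [h2, hv, Matrix.mulVec_mulVec, Matrix.mul_nonsing_inv _ hu, Matrix.one_mulVec]
    have h3 : qE m (Ef m (act m p (V 0)) / Qf (act m p (V 0))) p v = 0 := by
      rw [h0]
      rfl
    rw [qE_apply, h1] at h3
    simp [Ef, Qf] at h3
  · rw [qE_apply, hconst 0 x, div_mul_cancel₀ _ (hQ x), sub_self]

end Pool.Agent.MP_ae5b4e_an_LOC
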