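import Mathlib
import Pool.Agent.Lib.MP_ae5b4e_an_LOC.RB
import Pool.Agent.Lib.MP_ae5b4e_an_LOC.Inv

/-!
# LOC: preparations for the linear input of the closing theorem
-/

set_option autoImplicit false

noncomputable section

namespace Pool.Agent.MP_ae5b4e_an_LOC

open Set Complex ComplexConjugate Filter Topology

/-- identity theorem on the strip -/
theorem eqOn_SpL {t : ℝ} (ht : 0 < t) {f g : ℂ → ℂ} (hf : AnalyticOnNhd ℂ f (Sp t))
    (hg : AnalyticOnNhd ℂ g (Sp t)) (h : ∀ x : ℝ, f x = g x) : ∀ z ∈ Sp t, f z = g z := by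
  have h0 : (0:ℂ) ∈ Sp t := by
    rw [mem_Sp]
    simpa using ht
  refine hf.eqOn_of_preconnected_of_frequently_eq hg (convex_Sp t).isPreconnected h0 ?_
  have h1 : Tendsto (fun n : ℕ => ((1 / ((n:ℝ) + 1) : ℝ) : ℂ)) atTop (𝓝[≠] 0) := by
    rw [tendsto_nhdsWithin_iff]
    constructor
    · have h2 := (continuous_ofReal.tendsto (0:ℝ)).comp
        (tendsto_one_div_add_atTop_nhds_zero_nat (𝕜 := ℝ))
      simpa [Function.comp_def] using h2
    · refine Eventually.of_forall fun n => ?_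
      simp only [mem_compl_iff, mem_singleton_iff, ofReal_eq_zero]
      positivity
  exact h1.frequently (Frequently.of_forall fun n => h _)

theorem conj_mem_Sp {t : ℝ} {z : ℂ} (hz : z ∈ Sp t) : conj z ∈ Sp t := by
  rw [mem_Sp] at hz ⊢
  simpa using hz

theorem add_one_mem_Sp {t : ℝ} {z : ℂ} (hz : z ∈ Sp t) : z + 1 ∈ Sp t := by
  rw [mem_Sp] at hz ⊢
  simpa using hz

theorem real_mem_Sp {t : ℝ} (ht : 0 < t) (x : ℝ) : (x : ℂ) ∈ Sp t := by
  rw [mem_Sp]
  simpa using ht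

/-- an analytic function which is real on the real axis is symmetric -/
theorem sym_of_real {t : ℝ} (ht : 0 < t) {g : ℂ → ℂ} (hg : AnalyticOnNhd ℂ g (Sp t))
    (hr : ∀ x : ℝ, (g x).im = 0) : ∀ z ∈ Sp t, g (conj z) = conj (g z) := by
  have h1 : AnalyticOnNhd ℂ (fun z => conj (g (conj z))) (Sp t) := by
    refine DifferentiableOn.analyticOnNhd (fun z hz => ?_) (isOpen_Sp t)
    have h2 : DifferentiableAt ℂ g (conj z) := (hg _ (conj_mem_Sp hz)).differentiableAt
    have h3 := h2.conj_conj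
    rw [Complex.conj_conj] at h3
    exact h3.differentiableWithinAt
  have h2 := eqOn_SpL ht h1 hg fun x => by
    rw [Complex.conj_ofReal]
    exact Complex.conj_eq_iff_im.2 (hr x)
  intro z hz
  have h3 := h2 z hz
  have h4 := congrArg conj h3
  simpa using h4

theorem per_of_real {t : ℝ} (ht : 0 < t) {g : ℂ → ℂ} (hg : AnalyticOnNhd ℂ g (Sp t))
    (hr : ∀ x : ℝ, g (x + 1) = g x) : ∀ z ∈ Sp t, g (z + 1) = g z := by
  refine eqOn_SpL ht ?_ hg hr
  intro z hz
  have h1 : AnalyticAt ℂ (fun z : ℂ => z + 1) z := analyticAt_id.add analyticAt_const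
  exact (hg (z + 1) (add_one_mem_Sp hz)).comp_of_eq h1 rfl

section alg

lemma cR_cast (j : Fin 4) (v t : Fin 3 → ℝ) (k : Fin 3) :
    cR j (fun i => (v i : ℂ)) (fun i => (t i : ℂ)) k = ((cR j v t k : ℝ) : ℂ) := by
  fin_cases k <;> simp [cR]

lemma cU_cast (v t : Fin 3 → ℝ) (k : Fin 3) :
    cU (fun i => (v i : ℂ)) (fun i => (t i : ℂ)) k = ((cU v t k : ℝ) : ℂ) := by
  fin_cases k <;> simp [cU]

lemma cH_cast (j : Fin 4) (v t : Fin 3 → ℝ) (k : Fin 5) :
    cH j (fun i => (v i : ℂ)) (fun i => (t i : ℂ)) k = ((cH j v t k : ℝ) : ℂ) := by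
  fin_cases k <;> simp only [cH, cR_cast, cU_cast] <;> simp

lemma fQ_cast (v : Fin 3 → ℝ) : fQ (fun i => (v i : ℂ)) = ((fQ v : ℝ) : ℂ) := by
  simp [fQ]

lemma fR_cast (j : Fin 4) (v : Fin 3 → ℝ) : fR j (fun i => (v i : ℂ)) = ((fR j v : ℝ) : ℂ) := by
  simp [fR]

lemma fH_cast (j : Fin 4) (v : Fin 3 → ℝ) : fH j (fun i => (v i : ℂ)) = ((fH j v : ℝ) : ℂ) := by
  simp [fH, fR_cast]

end alg

namespace RB

variable {B : Bg} {D : KerD B} (R : RB B D)

/-- the complexified scaled derivative -/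
def T (i : Fin 3) (x : ℂ) : ℂ := deriv (R.V i) x / (2 * Real.pi)

lemma anT (i : Fin 3) : AnalyticOnNhd ℂ (R.T i) (Sp B.h) := by
  intro x hx
  have h1 : (2 * Real.pi : ℂ) ≠ 0 := by simp [Real.pi_ne_zero]
  exact ((R.anV i).deriv x hx).div analyticAt_const h1

lemma V_real (i : Fin 3) (x : ℝ) : R.V i x = (R.P x i : ℂ) := by
  have h1 := R.reV i x (real_mem_Sp B.h_pos x)
  rw [conj_ofReal] at h1
  exact (Complex.conj_eq_iff_real.1 h1.symm).elim fun r hr => by
    unfold P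
    rw [hr, ofReal_re]

lemma hasDerivAt_V (i : Fin 3) {x : ℂ} (hx : x ∈ Sp B.h) :
    HasDerivAt (R.V i) (2 * Real.pi * R.T i x) x := by
  have h1 := ((R.anV i) x hx).differentiableAt.hasDerivAt
  refine h1.congr_deriv ?_
  have : (Real.pi : ℂ) ≠ 0 := by exact_mod_cast Real.pi_ne_zero
  simp only [T]
  field_simp

lemma T_real (i : Fin 3) (x : ℝ) : R.T i x = (R.P1 x i : ℂ) := by
  have h1 := ((R.anV i) x (real_mem_Sp B.h_pos x)).differentiableAt.hasDerivAt
  have h2 : HasDerivAt (fun y : ℝ => R.V i y) (deriv (R.V i) x) x := h1.comp_ofReal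
  have h3 : HasDerivAt (fun y : ℝ => (R.P y i : ℂ)) (((deriv (R.V i) x).re : ℝ) : ℂ) x :=
    (h1.real_of_complex).ofReal_comp
  have h4 : (fun y : ℝ => R.V i y) = fun y : ℝ => (R.P y i : ℂ) := by
    funext y
    exact R.V_real i y
  rw [h4] at h2
  have h5 := h2.unique h3
  unfold T P1
  rw [h5]
  have h6 : (((deriv (R.V i) x).re : ℝ) : ℂ) / (2 * Real.pi) =
      (((deriv (R.V i) x).re / (2 * Real.pi) : ℝ) : ℂ) := by push_cast; ring
  rw [h6, ofReal_re]

lemma V_fun (x : ℝ) : (fun i => R.V i x) = fun i => (R.P x i : ℂ) :=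
  funext fun i => R.V_real i x

lemma T_fun (x : ℝ) : (fun i => R.T i x) = fun i => (R.P1 x i : ℂ) :=
  funext fun i => R.T_real i x

/-- complex versions of the coefficient functions -/
def laC (x : ℂ) : ℂ := fQ fun i => R.T i x

def gC (c : Fin 4 → ℝ) (k : Fin 5) (x : ℂ) : ℂ :=
  ∑ j, (c j : ℂ) * cH j (fun i => R.V i x) (fun i => R.T i x) k

lemma laC_real (x : ℝ) : R.laC x = (R.la x : ℂ) := by
  unfold laC la
  rw [R.T_fun, fQ_cast]

lemma gC_real (c : Fin 4 → ℝ) (k : Fin 5) (x : ℝ) : R.gC c k x = (R.g c k x : ℂ) := by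
  unfold gC g
  rw [R.T_fun, R.V_fun]
  simp only [cH_cast]
  push_cast
  rfl

lemma an_laC : AnalyticOnNhd ℂ R.laC (Sp B.h) := by
  intro x hx
  exact (((R.anT 0 x hx).mul (R.anT 0 x hx)).add ((R.anT 1 x hx).mul (R.anT 1 x hx)))

lemma an_cR (j : Fin 4) (k : Fin 3) :
    AnalyticOnNhd ℂ (fun x => cR j (fun i => R.V i x) (fun i => R.T i x) k) (Sp B.h) := by
  intro x hx
  have v := fun i => R.anV i x hx
  have t := fun i => R.anT i x hx
  fin_cases k
  · exact (v _).mul (v _)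
  · exact ((v _).mul (t _)).add ((t _).mul (v _))
  · exact (t _).mul (t _)

lemma an_cU (k : Fin 3) :
    AnalyticOnNhd ℂ (fun x => cU (fun i => R.V i x) (fun i => R.T i x) k) (Sp B.h) := by
  intro x hx
  have v := fun i => R.anV i x hx
  have t := fun i => R.anT i x hx
  fin_cases k
  · exact (v _).mul (v _)
  · exact ((v _).mul (t _)).add ((t _).mul (v _))
  · exact (t _).mul (t _)

lemma an_cH (j : Fin 4) (k : Fin 5) :
    AnalyticOnNhd ℂ (fun x => cH j (fun i => R.V i x) (fun i => R.T i x) k) (Sp B.h) := by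
  intro x hx
  have r := fun k => R.an_cR j k x hx
  have u := fun k => R.an_cU k x hx
  fin_cases k
  · exact (u 0).mul (r 0)
  · exact ((u 0).mul (r 1)).add ((u 1).mul (r 0))
  · exact (((u 0).mul (r 2)).add ((u 1).mul (r 1))).add ((u 2).mul (r 0))
  · exact ((u 1).mul (r 2)).add ((u 2).mul (r 1))
  · exact (u 2).mul (r 2)

lemma an_gC (c : Fin 4 → ℝ) (k : Fin 5) : AnalyticOnNhd ℂ (R.gC c k) (Sp B.h) := by
  have h : ∀ j ∈ (Finset.univ : Finset (Fin 4)), AnalyticOnNhd ℂ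
      (fun x => (c j : ℂ) * cH j (fun i => R.V i x) (fun i => R.T i x) k) (Sp B.h) :=
    fun j _ x hx => analyticAt_const.mul (R.an_cH j k x hx)
  have h1 := Finset.analyticOnNhd_fun_sum (Finset.univ : Finset (Fin 4)) h
  exact h1

lemma per_V (i : Fin 3) (x : ℝ) : R.P (x + 1) i = R.P x i := by
  have h1 := R.perV i x (real_mem_Sp B.h_pos x)
  unfold P
  push_cast
  rw [h1]

lemma per_T (i : Fin 3) {x : ℂ} (hx : x ∈ Sp B.h) : R.T i (x + 1) = R.T i x := by
  unfold T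
  congr 1
  have h1 : (fun z => R.V i (z + 1)) =ᶠ[𝓝 x] R.V i := by
    filter_upwards [(isOpen_Sp B.h).mem_nhds hx] with z hz using R.perV i z hz
  have h2 := h1.deriv_eq
  rw [← h2]
  exact (deriv_comp_add_const (R.V i) 1 x).symm

lemma per_T' (i : Fin 3) (x : ℝ) : R.P1 (x + 1) i = R.P1 x i := by
  have h1 := R.per_T i (real_mem_Sp B.h_pos x)
  unfold P1
  unfold T at h1
  push_cast
  rw [h1]

lemma per_P (x : ℝ) : R.P (x + 1) = R.P x := funext fun i => R.per_V i x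

lemma per_P1 (x : ℝ) : R.P1 (x + 1) = R.P1 x := funext fun i => R.per_T' i x

lemma per_la (x : ℝ) : R.la (x + 1) = R.la x := by
  unfold la
  rw [R.per_P1]

lemma per_g (c : Fin 4 → ℝ) (k : Fin 5) (x : ℝ) : R.g c k (x + 1) = R.g c k x := by
  unfold g
  rw [R.per_P1, R.per_P]

lemma cont_P (i : Fin 3) : Continuous fun x => R.P x i := by
  rw [continuous_iff_continuousAt]
  intro x
  have h1 := (R.anV i x (real_mem_Sp B.h_pos x)).continuousAt
  have h2 : ContinuousAt (fun y : ℝ => R.V i y) x :=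
    ContinuousAt.comp (f := fun y : ℝ => (y:ℂ)) (g := R.V i) h1 continuous_ofReal.continuousAt
  exact continuous_re.continuousAt.comp h2

lemma cont_P1 (i : Fin 3) : Continuous fun x => R.P1 x i := by
  rw [continuous_iff_continuousAt]
  intro x
  have h1 := (R.anT i x (real_mem_Sp B.h_pos x)).continuousAt
  have h2 : ContinuousAt (fun y : ℝ => R.T i y) x :=
    ContinuousAt.comp (f := fun y : ℝ => (y:ℂ)) (g := R.T i) h1 continuous_ofReal.continuousAt
  exact continuous_re.continuousAt.comp h2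

lemma cont_la : Continuous R.la := by
  unfold la fQ
  exact ((R.cont_P1 0).mul (R.cont_P1 0)).add ((R.cont_P1 1).mul (R.cont_P1 1))

lemma cont_cR (j : Fin 4) (k : Fin 3) : Continuous fun x => cR j (R.P x) (R.P1 x) k := by
  have v := R.cont_P
  have t := R.cont_P1
  fin_cases k
  · exact (v _).mul (v _)
  · exact ((v _).mul (t _)).add ((t _).mul (v _))
  · exact (t _).mul (t _)

lemma cont_cU (k : Fin 3) : Continuous fun x => cU (R.P x) (R.P1 x) k := by
  have v := R.cont_P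
  have t := R.cont_P1
  fin_cases k
  · exact (v _).mul (v _)
  · exact ((v _).mul (t _)).add ((t _).mul (v _))
  · exact (t _).mul (t _)

lemma cont_cH (j : Fin 4) (k : Fin 5) : Continuous fun x => cH j (R.P x) (R.P1 x) k := by
  have r := R.cont_cR j
  have u := R.cont_cU
  fin_cases k
  · exact (u 0).mul (r 0)
  · exact ((u 0).mul (r 1)).add ((u 1).mul (r 0))
  · exact (((u 0).mul (r 2)).add ((u 1).mul (r 1))).add ((u 2).mul (r 0))
  · exact ((u 1).mul (r 2)).add ((u 2).mul (r 1))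
  · exact (u 2).mul (r 2)

lemma cont_g (c : Fin 4 → ℝ) (k : Fin 5) : Continuous (R.g c k) := by
  unfold g
  exact continuous_finsetSum _ fun j _ => continuous_const.mul (R.cont_cH j k)

/-- `T` is orthogonal to `V` -/
lemma Q_VT {x : ℂ} (hx : x ∈ Sp B.h) :
    R.V 0 x * R.T 0 x + R.V 1 x * R.T 1 x = 0 := by
  have h1 : (fun z => fQ fun i => R.V i z) =ᶠ[𝓝 x] fun _ => 1 := by
    filter_upwards [(isOpen_Sp B.h).mem_nhds hx] with z hz using R.Q1 z hz
  have h2 := h1.deriv_eq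
  rw [deriv_const] at h2
  have h0 := R.hasDerivAt_V 0 hx
  have h1' := R.hasDerivAt_V 1 hx
  have h3 : HasDerivAt (fun z => fQ fun i => R.V i z)
      (2 * Real.pi * R.T 0 x * R.V 0 x + R.V 0 x * (2 * Real.pi * R.T 0 x) +
        (2 * Real.pi * R.T 1 x * R.V 1 x + R.V 1 x * (2 * Real.pi * R.T 1 x))) x :=
    (h0.mul h0).add (h1'.mul h1')
  rw [h3.deriv] at h2
  have h4 : (4 * Real.pi : ℂ) * (R.V 0 x * R.T 0 x + R.V 1 x * R.T 1 x) = 0 := by
    linear_combination h2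
  have h5 : (4 * Real.pi : ℂ) ≠ 0 := by
    simp [Real.pi_ne_zero]
  exact (mul_eq_zero.1 h4).resolve_left h5

lemma Q_PP (x : ℝ) : fQ (R.P x) = 1 := by
  have h1 := R.Q1 x (real_mem_Sp B.h_pos x)
  rw [R.V_fun, fQ_cast] at h1
  exact_mod_cast h1

lemma Q_PP1 (x : ℝ) : R.P x 0 * R.P1 x 0 + R.P x 1 * R.P1 x 1 = 0 := by
  have h1 := R.Q_VT (real_mem_Sp B.h_pos x)
  rw [R.V_real, R.V_real, R.T_real, R.T_real] at h1
  exact_mod_cast h1

/-- `Q` on the tangent line -/
lemma Q_line (x s : ℝ) : fQ (fun i => R.P x i + s * R.P1 x i) = 1 + R.la x * s ^ 2 := by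
  have h1 := R.Q_PP x
  have h2 := R.Q_PP1 x
  unfold la
  unfold fQ at h1 ⊢
  linear_combination h1 + 2 * s * h2

/-- the derivative of the quadratic forms along the curve -/
lemma hasDerivAt_fR (j : Fin 4) {x : ℂ} (hx : x ∈ Sp B.h) :
    HasDerivAt (fun z => fR j fun i => R.V i z)
      (2 * Real.pi * cR j (fun i => R.V i x) (fun i => R.T i x) 1) x := by
  have h1 := (R.hasDerivAt_V (i1 j) hx).mul (R.hasDerivAt_V (i2 j) hx)
  refine h1.congr_deriv ?_
  simp only [cR, Matrix.cons_val_one, Matrix.cons_val_zero]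
  ring

lemma hasDerivAt_fH (j : Fin 4) {x : ℂ} (hx : x ∈ Sp B.h) :
    HasDerivAt (fun z => fH j fun i => R.V i z)
      (2 * Real.pi * cH j (fun i => R.V i x) (fun i => R.T i x) 1) x := by
  have h0 := R.hasDerivAt_V 0 hx
  have h1 := (h0.mul h0).mul (R.hasDerivAt_fR j hx)
  refine h1.congr_deriv ?_
  simp only [cH, cU, cR, fR, Matrix.cons_val_one, Matrix.cons_val_zero, Pi.mul_apply]
  ring

/-! ### the leaf in the parameter of the time map -/

/-- the real points of the leaf -/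
def Xr (X : ℂ → ℂ → ℂ) (om φ : ℝ) : ℝ := (X om φ).re

variable {X : ℂ → ℂ → ℂ} (hX : XInv B X) {om : ℝ} (h0 : 0 < om) (h1 : om < B.r)

include h0 h1

omit h0 in
private lemma nrm (h0 : 0 < om) : ‖(om : ℂ)‖ < B.r := by
  rw [Complex.norm_real, Real.norm_eq_abs, abs_of_pos h0]
  exact h1

private lemma dom (φ : ℝ) {k : ℝ} (hk4 : k ≤ 3) :
    |((φ : ℂ)).im| < B.h - k * B.K * ‖(om : ℂ)‖ := by
  rw [Complex.norm_real, Real.norm_eq_abs, abs_of_pos h0, ofReal_im, abs_zero]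
  have hK := B.one_le_K
  have h2 := B.K_r_le
  have h3 := B.rho_le_h
  have h4 : B.K * om < B.K * B.r := mul_lt_mul_of_pos_left h1 (by linarith)
  have h5 : 0 < B.K * om := by positivity
  nlinarith

include hX

lemma X_real (φ : ℝ) : X om φ = (Xr X om φ : ℂ) := by
  have h2 := hX.X_conj om φ (nrm h1 h0) (dom h0 h1 φ (k := 3) (by norm_num))
  rw [conj_ofReal, conj_ofReal] at h2
  unfold Xr
  exact (Complex.conj_eq_iff_real.1 h2.symm).elim fun r hr => by rw [hr, ofReal_re]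

lemma ph_Xr (φ : ℝ) : B.ph om (Xr X om φ) = φ := by
  rw [← X_real hX h0 h1]
  exact hX.ph_X om φ (nrm h1 h0) (dom h0 h1 φ (k := 3) (by norm_num))

lemma Xr_add_one (φ : ℝ) : Xr X om (φ + 1) = Xr X om φ + 1 := by
  have h2 := hX.one om φ (nrm h1 h0) (dom h0 h1 φ (k := 3) (by norm_num))
  unfold Xr
  push_cast
  rw [h2]
  simp

omit hX in
lemma real_inj {x y : ℝ} (h : B.ph om x = B.ph om y) : x = y := by
  have hx := dom h0 h1 x (k := 1) (by norm_num)
  have hy := dom h0 h1 y (k := 1) (by norm_num)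
  rw [one_mul] at hx hy
  have h2 := B.ph_inj (nrm h1 h0) hx hy h
  exact_mod_cast h2

lemma F_Xr (φ : ℝ) : R.F om (Xr X om φ) = Xr X om (φ + om) := by
  refine real_inj h0 h1 ?_
  rw [R.F_ph om h0 h1, ph_Xr hX h0 h1, ph_Xr hX h0 h1]
  push_cast
  rfl

lemma F_iter (φ : ℝ) (j : ℕ) : (R.F om)^[j] (Xr X om φ) = Xr X om (φ + j * om) := by
  induction j with
  | zero => simp
  | succ j ih =>
    rw [Function.iterate_succ_apply', ih, R.F_Xr hX h0 h1]
    congr 1
    push_cast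
    ring

lemma hasDerivAt_Xr (φ : ℝ) :
    HasDerivAt (Xr X om) (1 / (R.cc om * R.tau om (Xr X om φ))) φ := by
  have d3 := dom h0 h1 φ (k := 3) (by norm_num)
  have a1 := hX.an om φ (nrm h1 h0) d3
  have a2 : DifferentiableAt ℂ (fun z : ℂ => X om z) (φ : ℂ) := by
    have h2 : DifferentiableAt ℂ (fun z : ℂ => (((om:ℂ), z) : ℂ × ℂ)) (φ : ℂ) := by fun_prop
    exact DifferentiableAt.comp (φ : ℂ) (g := fun p : ℂ × ℂ => X p.1 p.2) a1.differentiableAt h2
  have a3 := a2.hasDerivAt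
  have hx1 : |((Xr X om φ : ℝ) : ℂ).im| < B.h - B.K * ‖(om:ℂ)‖ := by
    have := dom h0 h1 (Xr X om φ) (k := 1) (by norm_num)
    rwa [one_mul] at this
  have a4 := (B.ph_diffAt om (Xr X om φ) (nrm h1 h0) hx1).hasDerivAt
  rw [← X_real hX h0 h1] at a4
  have a5 := a4.comp (φ:ℂ) a3
  have hev : (B.ph om ∘ fun z : ℂ => X om z) =ᶠ[𝓝 (φ:ℂ)] fun z => z := by
    have hop : IsOpen {z : ℂ | |z.im| < B.h - 3 * B.K * ‖(om:ℂ)‖} :=
      isOpen_lt (continuous_abs.comp Complex.continuous_im) continuous_const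
    filter_upwards [hop.mem_nhds d3] with z hz using hX.ph_X om z (nrm h1 h0) hz
  have a6 := hev.deriv_eq
  rw [a5.deriv, deriv_id''] at a6
  have a7 := R.tau_ph om h0 h1 (Xr X om φ)
  rw [X_real hX h0 h1, a7] at a6
  have a8 : deriv (fun z : ℂ => X om z) φ =
      ((1 / (R.cc om * R.tau om (Xr X om φ)) : ℝ) : ℂ) := by
    push_cast
    rw [eq_div_iff (left_ne_zero_of_mul_eq_one a6)]
    linear_combination a6
  rw [a8] at a3
  have a9 := a3.real_of_complex
  rwa [ofReal_re] at a9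

end RB

end Pool.Agent.MP_ae5b4e_an_LOC
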