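import Mathlib
import Pool.Agent.Lib.MP_ae5b4e_an_LOC.NmP

/-!
# MP_ae5b4e_an, project LOC: all bounds of the jet numbers of a curve near the background
-/

noncomputable section

namespace Pool.Agent.MP_ae5b4e_an_LOC

open Real Set Filter Topology
open Pool.Agent.MP_ae5b4e_an_RG Pool.Agent.MP_ae5b4e_an_NC

theorem NmH.rho_mono {ρ ρ0 B : ℝ} {R : Ref} {ε c : ℝ} {N : ℝ → Nm} {H : Hf}
    (h : NmH ρ0 B R ε c N H) (hr : ρ ≤ ρ0) : NmH ρ B R ε c N H :=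
  ⟨h.nn, h.cε, h.a0.rho_mono hr, h.a1.rho_mono hr, h.a2.rho_mono hr, h.al0.rho_mono hr,
    h.al1.rho_mono hr, h.al2.rho_mono hr, h.G0.rho_mono hr, h.G1.rho_mono hr, h.G2.rho_mono hr,
    h.G3.rho_mono hr, h.G4.rho_mono hr, h.k0.rho_mono hr, h.k1.rho_mono hr, h.k2.rho_mono hr,
    h.k3.rho_mono hr, h.k4.rho_mono hr⟩

/-- everything about one curve -/
structure NmAll (ρ0 ρ C : ℝ) (R : Ref) (ε c : ℝ) (N : ℝ → Nm) (H : Hf) : Prop where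
  O : NmO ρ0 C R ε c N H
  kab : WR ρ0 2 C (fun x => (N x).ka)
  lab : WR ρ0 2 C (fun x => (N x).la)
  x0 : WR ρ 4 (C * ε) (fun x => (N x).e0)
  x1 : WR ρ 2 (C * ε) (fun x => (N x).e1)
  X : ∀ X, WR ρ 4 X (fun x => (N x).e0) → WR ρ 2 X (fun x => (N x).e1) → NmX ρ C R ε c X N H

theorem exists_all {ρ ρ0 L m e : ℝ} (hρ : 0 ≤ ρ) (h : ρ < ρ0) (he : e ≠ 0) (hL : 0 ≤ L)
    {V0 W0 : ℝ → V3} (H : BW ρ0 L m e V0 W0) : ∃ C > 0, ∃ ε0 > 0, ε0 ≤ 1 ∧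
    ∀ (ε : ℝ) (V W : ℝ → V3) (p : P12), ε ≤ ε0 → (∀ k, WR ρ0 2 ε (fun x => V x k - V0 x k)) →
      (∀ k, WR ρ0 2 ε (fun x => W x k - W0 x k)) → ‖p‖ ≤ ε →
      NmAll ρ0 ρ C ⟨e, fun x => Qf (W0 x)⟩ ε (cnp p) (fun x => nmf m p (V x) (W x))
        (hfn p V0 W0) := by
  have hρ0 : 0 ≤ ρ0 := hρ.trans h.le
  obtain ⟨B, hB, hH⟩ := exists_nmH hρ0 hL H
  have hla : WR ρ0 2 (12 * (L * L) + 12 * (L * L)) (fun x => Qf (W0 x)) :=
    (((H.w 0).mul hρ0 (H.w 0)).add ((H.w 1).mul hρ0 (H.w 1))).congr fun x => by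
      unfold Qf
      ring_nf
  obtain ⟨C1, k1, ε1, l1, m1, h1⟩ := exists_nm hρ0 hB.le (R := ⟨e, fun x => Qf (W0 x)⟩) he hla
  obtain ⟨C2, k2, ε2, l2, m2, h2⟩ := exists_nm hρ hB.le (R := ⟨e, fun x => Qf (W0 x)⟩) he
    (hla.rho_mono h.le)
  obtain ⟨C4, k4, a4⟩ := WB.lower h 4
  obtain ⟨C5, k5, a5⟩ := WB.lower h 2
  have hLL : 0 ≤ 12 * (L * L) + 12 * (L * L) := by positivity
  refine ⟨C1 + C2 + C4 * C1 + C5 * C1 + (12 * (L * L) + 12 * (L * L)) + 1, by positivity,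
    min ε1 ε2, by positivity, (min_le_left _ _).trans m1, ?_⟩
  intro ε V W p hε hV hW hp
  have hε1 : ε ≤ 1 := hε.trans ((min_le_left _ _).trans m1)
  have hε0 : 0 ≤ ε := (norm_nonneg _).trans hp
  have hc : 0 ≤ cnp p := norm_nonneg _
  have hec : 0 ≤ ε * cnp p := mul_nonneg hε0 hc
  have q1 := hH ε V W p hε1 hV hW hp
  obtain ⟨q2, -⟩ := h1 ε (cnp p) _ _ (hε.trans (min_le_left _ _)) q1
  obtain ⟨-, q3⟩ := h2 ε (cnp p) _ _ (hε.trans (min_le_right _ _)) (q1.rho_mono h.le)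
  have hC1 : C1 ≤ C1 + C2 + C4 * C1 + C5 * C1 + (12 * (L * L) + 12 * (L * L)) + 1 := by
    have := mul_nonneg k4.le k1.le
    have := mul_nonneg k5.le k1.le
    linarith
  have hC2 : C2 ≤ C1 + C2 + C4 * C1 + C5 * C1 + (12 * (L * L) + 12 * (L * L)) + 1 := by
    have := mul_nonneg k4.le k1.le
    have := mul_nonneg k5.le k1.le
    linarith
  have s1 : C1 * ε ≤ (C1 + C2 + C4 * C1 + C5 * C1 + (12 * (L * L) + 12 * (L * L)) + 1) * ε :=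
    mul_le_mul_of_nonneg_right hC1 hε0
  have s2 : C1 * (ε * cnp p) ≤
      (C1 + C2 + C4 * C1 + C5 * C1 + (12 * (L * L) + 12 * (L * L)) + 1) * (ε * cnp p) :=
    mul_le_mul_of_nonneg_right hC1 hec
  have s3 : C1 * cnp p ≤
      (C1 + C2 + C4 * C1 + C5 * C1 + (12 * (L * L) + 12 * (L * L)) + 1) * cnp p :=
    mul_le_mul_of_nonneg_right hC1 hc
  have s4 : C1 * ε ≤ C1 := by nlinarith
  have s5 := mul_nonneg k4.le k1.le
  have s6 := mul_nonneg k5.le k1.le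
  refine ⟨⟨q2.al_ne, q2.psi_ne, q2.inv.mono s1, q2.ka.mono s1, q2.la.mono s1, q2.psi2.mono s1,
    q2.psii.mono s1, q2.e0.mono s1, q2.e1.mono s1, q2.g1.mono s2, q2.G3t.mono s2,
    q2.G4t.mono s2, q2.G3b.mono s3, q2.G4b.mono s3⟩, q2.ka.mono ?_, ?_, ?_, ?_, ?_⟩
  · linarith
  · have := q2.la.add hla
    refine (this.mono ?_).congr fun x => ?_
    · linarith
    · change (nmf m p (V x) (W x)).la - Qf (W0 x) + Qf (W0 x) = (nmf m p (V x) (W x)).la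
      ring
  · refine (a4 2 _ _ q2.e0).mono ?_
    rw [← mul_assoc]
    exact mul_le_mul_of_nonneg_right (by linarith) hε0
  · refine (a5 2 _ _ q2.e1).mono ?_
    rw [← mul_assoc]
    exact mul_le_mul_of_nonneg_right (by linarith) hε0
  · intro X x0 x1
    have r := q3 X x0 x1
    have hX : 0 ≤ X := x0.nonneg
    exact ⟨r.ka.mono (mul_le_mul_of_nonneg_right hC2 (by positivity)),
      r.kar.mono (mul_le_mul_of_nonneg_right hC2 (by positivity)),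
      r.y1.mono (mul_le_mul_of_nonneg_right hC2 (by positivity)),
      r.y2.mono (mul_le_mul_of_nonneg_right hC2 (by positivity)),
      r.y2r.mono (mul_le_mul_of_nonneg_right hC2 (by positivity))⟩

/-- the two sources in the form used by the compactness argument -/
theorem NmAll.src {ρ0 ρ C : ℝ} {R : Ref} {ε c : ℝ} {N : ℝ → Nm} {H : Hf}
    (h : NmAll ρ0 ρ C R ε c N H) (hρ : 0 ≤ ρ) (hC : 0 ≤ C) (hc : 0 ≤ c) (hcε : c ≤ ε)
    (hε1 : ε ≤ 1) {X : ℝ} (hX : X ≤ ε) (x0 : WR ρ 4 X (fun x => (N x).e0))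
    (x1 : WR ρ 2 X (fun x => (N x).e1)) :
    WR ρ 2 (8 * C * ε * (c ^ 2 + X)) (fun x => (N x).y1) ∧
    WR ρ 2 (2 * C * (c ^ 2 + ε * X)) (fun x => (N x).y2) ∧
    (∀ x, |(N x).y1| ≤ 24 * C * ε * (c ^ 2 + X)) ∧
    (∀ x, |(N x).y2 - H.r3 R.la x * H.r4 R.la x / (2 * R.e)| ≤ 3 * C * ε * (c ^ 2 + X)) := by
  have r := h.X X x0 x1
  have hX0 : 0 ≤ X := x0.nonneg
  have hε0 : 0 ≤ ε := hc.trans hcε
  have e1 : C * (c + X) ^ 3 ≤ 8 * C * ε * (c ^ 2 + X) := by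
    have k1 : c + X ≤ 2 * ε := by linarith
    have k2 : (c + X) ^ 2 ≤ 2 * (c ^ 2 + X) := by
      have : X ^ 2 ≤ X := by nlinarith
      nlinarith [sq_nonneg (c - X)]
    have k3 : (c + X) ^ 3 ≤ 4 * ε * (c ^ 2 + X) := by
      calc (c + X) ^ 3 = (c + X) * (c + X) ^ 2 := by ring
        _ ≤ (2 * ε) * (2 * (c ^ 2 + X)) := mul_le_mul k1 k2 (by positivity) (by positivity)
        _ = 4 * ε * (c ^ 2 + X) := by ring
    calc C * (c + X) ^ 3 ≤ C * (4 * ε * (c ^ 2 + X)) := mul_le_mul_of_nonneg_left k3 hC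
      _ ≤ 8 * C * ε * (c ^ 2 + X) := by
        have : 0 ≤ C * ε * (c ^ 2 + X) := by positivity
        linarith
  have e2 : C * ((c + X) * c) ≤ 2 * C * (c ^ 2 + ε * X) := by
    have k1 : (c + X) * c ≤ c ^ 2 + ε * X := by nlinarith
    calc C * ((c + X) * c) ≤ C * (c ^ 2 + ε * X) := mul_le_mul_of_nonneg_left k1 hC
      _ ≤ 2 * C * (c ^ 2 + ε * X) := by
        have : 0 ≤ C * (c ^ 2 + ε * X) := by positivity
        linarith
  have e3 : C * (ε * c ^ 2 + X * c) ≤ C * ε * (c ^ 2 + X) := by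
    have k1 : ε * c ^ 2 + X * c ≤ ε * (c ^ 2 + X) := by nlinarith
    calc C * (ε * c ^ 2 + X * c) ≤ C * (ε * (c ^ 2 + X)) := mul_le_mul_of_nonneg_left k1 hC
      _ = C * ε * (c ^ 2 + X) := by ring
  refine ⟨r.y1.mono e1, r.y2.mono e2, fun x => ?_, fun x => ?_⟩
  · have := (r.y1.mono e1).sup hρ le_rfl x
    linarith
  · have := (r.y2r.mono e3).sup hρ le_rfl x
    linarith

end Pool.Agent.MP_ae5b4e_an_LOC
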