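import Mathlib
import Pool.Agent.Lib.MP_ae5b4e_an_LOC.NmA
import Pool.Agent.Lib.MP_ae5b4e_an_LOC.RB
import Pool.Agent.Lib.MP_ae5b4e_an_LOC.Lin3

/-!
# MP_ae5b4e_an, project LOC: the numbers of a curve near the background, packaged
-/

noncomputable section

namespace Pool.Agent.MP_ae5b4e_an_LOC

open Real Set Filter Topology
open Pool.Agent.MP_ae5b4e_an_RG Pool.Agent.MP_ae5b4e_an_NC

/-- the package: everything is controlled by one small number -/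
structure Pk (ρ0 ρ C η : ℝ) (la0 S : ℝ → ℝ) (c : ℝ) (N : ℝ → Nm) : Prop where
  al : ∀ x, (N x).al0 ≠ 0
  ka : WR ρ0 2 C (fun x => (N x).ka)
  la : WR ρ0 2 C (fun x => (N x).la)
  kas : ∀ x, |(N x).ka| ≤ η
  las : ∀ x, |(N x).la - la0 x| ≤ η
  e0 : WR ρ 4 η (fun x => (N x).e0)
  e1 : WR ρ 2 η (fun x => (N x).e1)
  src : ∀ X, WR ρ 4 X (fun x => (N x).e0) → WR ρ 2 X (fun x => (N x).e1) →
    WR ρ 2 (C * (η * (c ^ 2 + X))) (fun x => (N x).y1) ∧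
    WR ρ 2 (C * (c ^ 2 + η * X)) (fun x => (N x).y2) ∧
    (∀ x, |(N x).y1| ≤ C * (η * (c ^ 2 + X))) ∧
    (∀ x, |(N x).y2 - S x| ≤ C * (η * (c ^ 2 + X)))

theorem nm_pack {ρ ρ0 L m e : ℝ} (hρ : 0 ≤ ρ) (h : ρ < ρ0) (he : e ≠ 0) (hL : 0 ≤ L)
    {V0 W0 : ℝ → V3} (H : BW ρ0 L m e V0 W0) : ∃ C > 0, ∀ η > 0, η ≤ 1 → ∃ ε > 0,
    ∀ (V W : ℝ → V3) (p : P12), (∀ k, WR ρ0 2 ε (fun x => V x k - V0 x k)) →
      (∀ k, WR ρ0 2 ε (fun x => W x k - W0 x k)) → ‖p‖ ≤ ε →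
      Pk ρ0 ρ C η (fun x => Qf (W0 x)) (fun x => (hfn p V0 W0).r3 (fun x => Qf (W0 x)) x *
        (hfn p V0 W0).r4 (fun x => Qf (W0 x)) x / (2 * e)) (cnp p)
        (fun x => nmf m p (V x) (W x)) := by
  have hρ0 : 0 ≤ ρ0 := hρ.trans h.le
  obtain ⟨C, hC, ε0, hε0, hε01, HA⟩ := exists_all hρ h he hL H
  refine ⟨24 * C, by positivity, fun η hη hη1 => ?_⟩
  -- the larger small number
  have hC1 : (0:ℝ) < max 1 C := lt_max_of_lt_left one_pos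
  set ε' : ℝ := min ε0 (η / (3 * max 1 C)) with hε'
  have hε'0 : 0 < ε' := by positivity
  have hε'ε0 : ε' ≤ ε0 := min_le_left _ _
  have hCε' : 3 * max 1 C * ε' ≤ η := by
    have h1 : ε' ≤ η / (3 * max 1 C) := min_le_right _ _
    rw [le_div_iff₀ (by positivity)] at h1
    linarith
  have hε'1 : ε' ≤ 1 := hε'ε0.trans hε01
  have hε'η : ε' ≤ η := by
    have h1 : 1 ≤ max 1 C := le_max_left _ _
    nlinarith
  have hC3 : 3 * (C * ε') ≤ η := by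
    have h1 : C ≤ max 1 C := le_max_right _ _
    nlinarith
  have hCε'0 : 0 ≤ C * ε' := by positivity
  refine ⟨ε' / max 1 C, by positivity, fun V W p hV hW hp => ?_⟩
  have hs : ε' / max 1 C ≤ ε' := div_le_self hε'0.le (le_max_left _ _)
  have N1 := HA (ε' / max 1 C) V W p (hs.trans hε'ε0) hV hW hp
  have N2 := HA ε' V W p hε'ε0 (fun k => (hV k).mono hs) (fun k => (hW k).mono hs) (hp.trans hs)
  have hCs : C * (ε' / max 1 C) ≤ ε' := by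
    have h1 : C ≤ max 1 C := le_max_right _ _
    calc C * (ε' / max 1 C) ≤ max 1 C * (ε' / max 1 C) :=
          mul_le_mul_of_nonneg_right h1 (by positivity)
      _ = ε' := by field_simp
  have x0 : WR ρ 4 ε' (fun x => (nmf m p (V x) (W x)).e0) := N1.x0.mono hCs
  have x1 : WR ρ 2 ε' (fun x => (nmf m p (V x) (W x)).e1) := N1.x1.mono hCs
  have hc0 : 0 ≤ cnp p := norm_nonneg _
  have hcε : cnp p ≤ ε' := (cn_le p).trans (hp.trans hs)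
  refine ⟨N2.O.al_ne, N2.kab.mono (by linarith), N2.lab.mono (by linarith), fun x => ?_,
    fun x => ?_, x0.mono hε'η, x1.mono hε'η, fun X hX0 hX1 => ?_⟩
  · have := N2.O.ka.sup hρ0 le_rfl x
    linarith
  · have := N2.O.la.sup hρ0 le_rfl x
    linarith
  · have hX : 0 ≤ X := hX0.nonneg
    obtain ⟨X', hX'ε, hX'X, hX'0, w0, w1⟩ : ∃ X', X' ≤ ε' ∧ X' ≤ X ∧ 0 ≤ X' ∧
        WR ρ 4 X' (fun x => (nmf m p (V x) (W x)).e0) ∧
        WR ρ 2 X' (fun x => (nmf m p (V x) (W x)).e1) := by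
      rcases le_total X ε' with h1 | h1
      · exact ⟨X, h1, le_rfl, hX, hX0, hX1⟩
      · exact ⟨ε', le_rfl, h1, hε'0.le, x0, x1⟩
    obtain ⟨s1, s2, s3, s4⟩ := N2.src hρ hC.le hc0 hcε hε'1 hX'ε w0 w1
    have hcX : 0 ≤ cnp p ^ 2 + X' := by positivity
    have hcX' : cnp p ^ 2 + X' ≤ cnp p ^ 2 + X := by linarith
    have m1 : ε' * (cnp p ^ 2 + X') ≤ η * (cnp p ^ 2 + X) :=
      mul_le_mul hε'η hcX' hcX hη.le
    have m0 : 0 ≤ ε' * (cnp p ^ 2 + X') := by positivity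
    have m1' : C * (ε' * (cnp p ^ 2 + X')) ≤ C * (η * (cnp p ^ 2 + X)) :=
      mul_le_mul_of_nonneg_left m1 hC.le
    have m0' : 0 ≤ C * (ε' * (cnp p ^ 2 + X')) := by positivity
    have m2 : ε' * X' ≤ η * X := mul_le_mul hε'η hX'X hX'0 hη.le
    have m2' : C * (cnp p ^ 2 + ε' * X') ≤ C * (cnp p ^ 2 + η * X) :=
      mul_le_mul_of_nonneg_left (by linarith) hC.le
    have m3 : 0 ≤ C * (cnp p ^ 2 + ε' * X') := by positivity
    refine ⟨s1.mono ?_, s2.mono ?_, fun x => (s3 x).trans ?_, fun x => (s4 x).trans ?_⟩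
    · calc 8 * C * ε' * (cnp p ^ 2 + X') = 8 * (C * (ε' * (cnp p ^ 2 + X'))) := by ring
        _ ≤ 24 * (C * (η * (cnp p ^ 2 + X))) := by linarith
        _ = 24 * C * (η * (cnp p ^ 2 + X)) := by ring
    · calc 2 * C * (cnp p ^ 2 + ε' * X') = 2 * (C * (cnp p ^ 2 + ε' * X')) := by ring
        _ ≤ 24 * (C * (cnp p ^ 2 + η * X)) := by linarith
        _ = 24 * C * (cnp p ^ 2 + η * X) := by ring
    · calc 24 * C * ε' * (cnp p ^ 2 + X') = 24 * (C * (ε' * (cnp p ^ 2 + X'))) := by ring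
        _ ≤ 24 * (C * (η * (cnp p ^ 2 + X))) := by linarith
        _ = 24 * C * (η * (cnp p ^ 2 + X)) := by ring
    · calc 3 * C * ε' * (cnp p ^ 2 + X') = 3 * (C * (ε' * (cnp p ^ 2 + X'))) := by ring
        _ ≤ 24 * (C * (η * (cnp p ^ 2 + X))) := by linarith
        _ = 24 * C * (η * (cnp p ^ 2 + X)) := by ring

namespace RB

variable {B : Bg} {D : KerD B} (R : RB B D)

lemma G_eq (c : Fin 4 → ℝ) (x : ℝ) : G0 c (R.P x) (R.P1 x) = R.g c 0 x ∧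
    G1 c (R.P x) (R.P1 x) = R.g c 1 x ∧ G2 c (R.P x) (R.P1 x) = R.g c 2 x ∧
    G3 c (R.P x) (R.P1 x) = R.g c 3 x ∧ G4 c (R.P x) (R.P1 x) = R.g c 4 x := by
  refine ⟨?_, ?_, ?_, ?_, ?_⟩ <;>
    simp [g, G0, G1, G2, G3, G4, Rf, Rb, cH, cU, cR, i1, i2, Fin.sum_univ_four] <;> ring

lemma Qf_P1 (x : ℝ) : Qf (R.P1 x) = R.la x := by
  unfold Qf la fQ
  ring

lemma S_eq (p : P12) (x : ℝ) : (hfn p R.P R.P1).r3 (fun x => Qf (R.P1 x)) x *
    (hfn p R.P R.P1).r4 (fun x => Qf (R.P1 x)) x / (2 * R.e) = R.S (pc p) x := by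
  obtain ⟨h0, h1, h2, h3, h4⟩ := R.G_eq (pc p) x
  unfold Hf.r3 Hf.r4 hfn S
  simp only [h0, h1, h2, h3, h4, Qf_P1]

end RB

end Pool.Agent.MP_ae5b4e_an_LOC
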