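import Mathlib
import Pool.Agent.Lib.MP_ae5b4e_an_NC.BigA

/-!
# MP_ae5b4e_an, project LOC: the high modes from the pairs `P = 1, 2`

Background-independent consequence of `NC.big_abs`.
-/

noncomputable section

namespace Pool.Agent.MP_ae5b4e_an_LOC

open Real Set Filter Topology MeasureTheory intervalIntegral
open Pool.Agent.MP_ae5b4e_an_RG Pool.Agent.MP_ae5b4e_an_NC

/-- the rotation number `P / n` in lowest terms -/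
lemma exists_pq {n P : ℕ} (hn : 4 ≤ n) (hP : P = 1 ∨ P = 2) :
    ∃ p q : ℕ, PQ p q ∧ n * p = P * q ∧ q ∣ n ∧ n ≤ 2 * q := by
  rcases hP with rfl | rfl
  · exact ⟨1, n, ⟨Or.inl rfl, by omega, Nat.coprime_one_left n⟩, by ring, dvd_rfl, by omega⟩
  · rcases Nat.even_or_odd n with h | h
    · obtain ⟨q, hq⟩ := h
      exact ⟨1, q, ⟨Or.inl rfl, by omega, Nat.coprime_one_left q⟩, by omega, ⟨2, by omega⟩,
        by omega⟩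
    · exact ⟨2, n, ⟨Or.inr rfl, by omega, (Nat.coprime_two_left).2 h⟩, by ring, dvd_rfl, by omega⟩

lemma rc_neg_norm (R : ℝ → ℝ) (k : ℤ) : ‖rc R (-k)‖ = ‖rc R k‖ := by
  have h1 : rc R (-k) = (starRingEnd ℂ) (rc R k) := by
    unfold rc fc
    rw [← intervalIntegral.intervalIntegral_conj]
    congr 1
    funext x
    rw [map_mul, Complex.conj_ofReal]
    congr 1
    unfold e
    rw [← Complex.exp_conj]
    congr 1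
    simp only [map_mul, Complex.conj_ofReal, Complex.conj_I, map_ofNat, map_intCast]
    push_cast
    ring
  rw [h1, Complex.norm_conj]

/-- the two linear equations -/
private lemma hig_alg {z0 z1 : ℂ} {n δ : ℝ} (hn : 0 < n) (hδ : 0 ≤ δ)
    (h1 : ‖z0 + (((π * (1:ℕ) / n) ^ 2 : ℝ) : ℂ) * z1‖ ≤ δ)
    (h2 : ‖z0 + (((π * (2:ℕ) / n) ^ 2 : ℝ) : ℂ) * z1‖ ≤ δ) :
    ‖z1‖ ≤ n ^ 2 * δ ∧ ‖z0‖ ≤ (1 + π ^ 2) * δ := by
  have hpi := Real.pi_gt_three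
  have h3 : (((3 * π ^ 2 / n ^ 2 : ℝ)) : ℂ) * z1 =
      (z0 + (((π * (2:ℕ) / n) ^ 2 : ℝ) : ℂ) * z1) -
        (z0 + (((π * (1:ℕ) / n) ^ 2 : ℝ) : ℂ) * z1) := by
    push_cast
    ring
  have h4 : 3 * π ^ 2 / n ^ 2 * ‖z1‖ ≤ 2 * δ := by
    have h5 : ‖(((3 * π ^ 2 / n ^ 2 : ℝ)) : ℂ) * z1‖ ≤ δ + δ := by
      rw [h3]
      exact (norm_sub_le _ _).trans (add_le_add h2 h1)
    rw [norm_mul, Complex.norm_real, Real.norm_eq_abs, abs_of_nonneg (by positivity)] at h5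
    linarith
  have h6 : ‖z1‖ ≤ n ^ 2 * δ := by
    have h7 : 3 * π ^ 2 * ‖z1‖ ≤ n ^ 2 * (2 * δ) := by
      calc 3 * π ^ 2 * ‖z1‖ = n ^ 2 * (3 * π ^ 2 / n ^ 2 * ‖z1‖) := by field_simp
        _ ≤ n ^ 2 * (2 * δ) := by gcongr
    have h8 : 0 ≤ n ^ 2 * δ := by positivity
    have h9 : 27 * ‖z1‖ ≤ 3 * π ^ 2 * ‖z1‖ := by
      refine mul_le_mul_of_nonneg_right ?_ (norm_nonneg _)
      nlinarith
    linarith
  refine ⟨h6, ?_⟩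
  have h7 : z0 = (z0 + (((π * (1:ℕ) / n) ^ 2 : ℝ) : ℂ) * z1) -
      (((π * (1:ℕ) / n) ^ 2 : ℝ) : ℂ) * z1 := by ring
  rw [h7]
  refine (norm_sub_le _ _).trans ?_
  have h8 : ‖(((π * (1:ℕ) / n) ^ 2 : ℝ) : ℂ) * z1‖ ≤ π ^ 2 * δ := by
    rw [norm_mul, Complex.norm_real, Real.norm_eq_abs, abs_of_nonneg (by positivity)]
    calc (π * (1:ℕ) / n) ^ 2 * ‖z1‖ ≤ (π * (1:ℕ) / n) ^ 2 * (n ^ 2 * δ) := by gcongr
      _ = π ^ 2 * δ := by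
        push_cast
        field_simp
  linarith

set_option linter.unusedVariables false in
/-- THE HIGH MODES: `e0`, `e1` separately. -/
theorem high (ρ1 ρ ρ' A0 A1 : ℝ) (h0 : 0 < ρ') (h1 : ρ' < ρ) (h2 : ρ < ρ1)
    (hA0 : 0 < A0) (hA1 : 0 < A1) :
    ∃ (C : ℝ) (n0 : ℕ), 0 < C ∧ 4 ≤ n0 ∧ ∀ (ka la e0 e1 y1 y2 : ℝ → ℝ) (X Y : ℝ),
      WR ρ1 2 A0 ka → WR ρ1 2 A0 la → WR ρ' 4 X e0 → WR ρ' 2 X e1 → WR ρ' 2 Y y1 →
      WR ρ' 2 Y y2 → ∀ m0 : ℕ, (∀ (p q n P : ℕ), m0 ≤ n → PQ p q → P = 1 ∨ P = 2 →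
        n * p = P * q → q ∣ n → ∃ L τ : ℝ → ℝ, Big ρ A1 p q L τ ∧
        fc (fun x => ((τ x * PhiA (ka (L x)) (la (L x)) (e0 (L x)) (e1 (L x)) (y1 (L x))
          (y2 (L x)) (τ x ^ 2) : ℝ) : ℂ)) (n:ℤ) = 0) →
      ∀ k : ℤ, ((max n0 m0 : ℕ) : ℝ) ≤ |(k:ℝ)| →
        ‖rc e0 k‖ ≤ C * (X / |(k:ℝ)| + Y / |(k:ℝ)| ^ 2) /
          ((1 + |(k:ℝ)|) ^ 4 * Real.exp (ρ' * |(k:ℝ)|)) ∧
        ‖rc e1 k‖ ≤ C * (X / |(k:ℝ)| + Y / |(k:ℝ)| ^ 2) /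
          ((1 + |(k:ℝ)|) ^ 2 * Real.exp (ρ' * |(k:ℝ)|)) := by
  obtain ⟨C, n0, hC, hbig⟩ := big_abs ρ1 ρ ρ' A0 A1 h0 h1 h2 hA0 hA1
  refine ⟨(1 + π ^ 2) * C, max 4 n0, by positivity, le_max_left _ _, ?_⟩
  intro ka la e0 e1 y1 y2 X Y hka hla he0 he1 hy1 hy2 m0 hleaf k hk
  have hX : 0 ≤ X := by
    obtain ⟨a, ha, _⟩ := he0
    have h3 := (norm_nonneg _).trans (ha 0)
    simpa using h3
  have hY : 0 ≤ Y := by
    obtain ⟨a, ha, _⟩ := hy1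
    have h3 := (norm_nonneg _).trans (ha 0)
    simpa using h3
  -- reduction to positive modes
  suffices h : ∀ n : ℕ, max (max 4 n0) m0 ≤ n →
      ‖rc e0 (n:ℤ)‖ ≤ (1 + π ^ 2) * C * (X / n + Y / (n:ℝ) ^ 2) /
        ((1 + (n:ℝ)) ^ 4 * Real.exp (ρ' * n)) ∧
      ‖rc e1 (n:ℤ)‖ ≤ (1 + π ^ 2) * C * (X / n + Y / (n:ℝ) ^ 2) /
        ((1 + (n:ℝ)) ^ 2 * Real.exp (ρ' * n)) by
    have h3 : ((k.natAbs : ℕ) : ℝ) = |(k:ℝ)| := by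
      rw [Nat.cast_natAbs, Int.cast_abs]
    have h4 := h k.natAbs (by
      have : ((max (max 4 n0) m0 : ℕ) : ℝ) ≤ ((k.natAbs : ℕ) : ℝ) := by rwa [h3]
      exact_mod_cast this)
    rw [h3] at h4
    have h5 : ∀ R : ℝ → ℝ, ‖rc R ((k.natAbs : ℕ) : ℤ)‖ = ‖rc R k‖ := by
      intro R
      rcases Int.natAbs_eq k with h6 | h6
      · rw [← h6]
      · conv_rhs => rw [h6]
        rw [rc_neg_norm]
    rw [h5, h5] at h4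
    exact h4
  intro n hn
  have hn4 : 4 ≤ n := (le_max_left _ _).trans ((le_max_left _ _).trans hn)
  have hn0 : n0 ≤ n := (le_max_right _ _).trans ((le_max_left _ _).trans hn)
  have hm0 : m0 ≤ n := (le_max_right _ _).trans hn
  have hnpos : (0:ℝ) < n := by
    have : (4:ℝ) ≤ n := by exact_mod_cast hn4
    linarith
  have both : ∀ P : ℕ, P = 1 ∨ P = 2 →
      ‖rc e0 n + (((π * P / n) ^ 2 : ℝ) : ℂ) * rc e1 n‖ ≤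
          (C / n * X + C / (n:ℝ) ^ 2 * Y) / ((1 + n) ^ 4 * Real.exp (ρ' * n)) := by
    intro P hP
    obtain ⟨p, q, hpq, hnp, hqn, -⟩ := exists_pq hn4 hP
    obtain ⟨L, τ, hB, hz⟩ := hleaf p q n P hm0 hpq hP hnp hqn
    exact hbig ka la e0 e1 y1 y2 X Y hka hla he0 he1 hy1 hy2 p q n P L τ hpq hn0 hP hnp hB hz
  have hδ : 0 ≤ (C / n * X + C / (n:ℝ) ^ 2 * Y) / ((1 + (n:ℝ)) ^ 4 * Real.exp (ρ' * n)) := by
    positivity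
  obtain ⟨a1, a0⟩ := hig_alg hnpos hδ (both 1 (Or.inl rfl)) (both 2 (Or.inr rfl))
  have hE : 0 < Real.exp (ρ' * n) := Real.exp_pos _
  constructor
  · refine a0.trans (le_of_eq ?_)
    field_simp
  · refine a1.trans ?_
    have h3 : (n:ℝ) ^ 2 * ((C / n * X + C / (n:ℝ) ^ 2 * Y) /
        ((1 + (n:ℝ)) ^ 4 * Real.exp (ρ' * n))) =
        ((n:ℝ) ^ 2 / (1 + (n:ℝ)) ^ 2) * (C * (X / n + Y / (n:ℝ) ^ 2) /
          ((1 + (n:ℝ)) ^ 2 * Real.exp (ρ' * n))) := by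
      field_simp
    rw [h3]
    have h4 : (n:ℝ) ^ 2 / (1 + (n:ℝ)) ^ 2 ≤ 1 + π ^ 2 := by
      rw [div_le_iff₀ (by positivity)]
      have h5 : (n:ℝ) ^ 2 ≤ (1 + (n:ℝ)) ^ 2 := by
        gcongr
        linarith
      have h6 : 0 ≤ π ^ 2 * (1 + (n:ℝ)) ^ 2 := by positivity
      linarith
    have h5 : 0 ≤ C * (X / n + Y / (n:ℝ) ^ 2) / ((1 + (n:ℝ)) ^ 2 * Real.exp (ρ' * n)) := by
      positivity
    calc (n:ℝ) ^ 2 / (1 + (n:ℝ)) ^ 2 * (C * (X / n + Y / (n:ℝ) ^ 2) /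
          ((1 + (n:ℝ)) ^ 2 * Real.exp (ρ' * n)))
        ≤ (1 + π ^ 2) * (C * (X / n + Y / (n:ℝ) ^ 2) /
          ((1 + (n:ℝ)) ^ 2 * Real.exp (ρ' * n))) := mul_le_mul_of_nonneg_right h4 h5
      _ = _ := by ring

end Pool.Agent.MP_ae5b4e_an_LOC
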