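import Mathlib
import Pool.Agent.Lib.MP_ae5b4e_an_NC.Tel
import Pool.Agent.Lib.MP_ae5b4e_an_LOC.NmP

/-!
# MP_ae5b4e_an, project LOC: the laws of the leaves of a solution in terms of the jet numbers
-/

noncomputable section

namespace Pool.Agent.MP_ae5b4e_an_LOC

open Real Set Filter Topology
open Pool.Agent.MP_ae5b4e_an_hopf Pool.Agent.MP_ae5b4e_an_RG Pool.Agent.MP_ae5b4e_an_NC

variable {P : ℝ → Fin 3 → ℝ} {U : ℝ → ℝ → ℝ} {p q : ℕ} {L : ℝ → ℝ}

theorem P_per_nat (h : LSys 1 P U (fun _ => 0)) (n : ℕ) (x : ℝ) : P (x + n) = P x := by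
  induction n with
  | zero => simp
  | succ n ih =>
    rw [show x + ((n + 1 : ℕ) : ℝ) = (x + n) + 1 by push_cast; ring, h.curve.per, ih]

theorem dP_per_nat (h : LSys 1 P U (fun _ => 0)) (n : ℕ) (x : ℝ) :
    deriv P (x + n) = deriv P x := by
  induction n with
  | zero => simp
  | succ n ih =>
    rw [show x + ((n + 1 : ℕ) : ℝ) = (x + n) + 1 by push_cast; ring, h.curve.per1, ih]

/-- The law of the leaf of rotation number `p/q`, for all functions of degree zero on `ℝ³`. -/
theorem law_hom (h : LSys 1 P U (fun _ => 0)) (hpq : q ≠ 2 * p) (hq : 0 < q)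
    (hL : PLeaf 1 (nxt P 1 U) p q L) (Ψ : (Fin 3 → ℝ) → ℝ)
    (hΨ : ∀ (v : Fin 3 → ℝ) (c : ℝ), c ≠ 0 → Ψ (fun i => c * v i) = Ψ v) (x : ℝ) :
    ∑ j ∈ Finset.range q,
      (Ψ (fun i => 2 * π * P (L (x + j * ((p:ℝ) / q))) i +
        tauL P L ((p:ℝ) / q) (x + j * ((p:ℝ) / q)) * deriv P (L (x + j * ((p:ℝ) / q))) i) -
      Ψ (fun i => 2 * π * P (L (x + j * ((p:ℝ) / q))) i -
        tauL P L ((p:ℝ) / q) (x + j * ((p:ℝ) / q)) * deriv P (L (x + j * ((p:ℝ) / q))) i)) = 0 := by
  obtain ⟨F, hF⟩ : ∃ F : ℝ → ℝ, F = fun x => Ψ (fun i => 2 * π * P (L x) i -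
    tauL P L ((p:ℝ) / q) x * deriv P (L x) i) := ⟨_, rfl⟩
  have key : ∀ x, Ψ (fun i => 2 * π * P (L x) i + tauL P L ((p:ℝ) / q) x * deriv P (L x) i) =
      F (x + (p:ℝ) / q) := by
    intro x
    obtain ⟨c, hc, hv⟩ := vertex h hpq hq hL x
    rw [hF, funext hv]
    exact hΨ _ _ hc
  have hq0 : (0:ℝ) < q := by exact_mod_cast hq
  have hsum : ∀ j : ℕ,
      (Ψ (fun i => 2 * π * P (L (x + j * ((p:ℝ) / q))) i +
        tauL P L ((p:ℝ) / q) (x + j * ((p:ℝ) / q)) * deriv P (L (x + j * ((p:ℝ) / q))) i) -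
      Ψ (fun i => 2 * π * P (L (x + j * ((p:ℝ) / q))) i -
        tauL P L ((p:ℝ) / q) (x + j * ((p:ℝ) / q)) * deriv P (L (x + j * ((p:ℝ) / q))) i)) =
      F (x + ((j + 1 : ℕ) : ℝ) * ((p:ℝ) / q)) - F (x + (j : ℝ) * ((p:ℝ) / q)) := by
    intro j
    rw [show x + ((j + 1 : ℕ) : ℝ) * ((p:ℝ) / q) = (x + j * ((p:ℝ) / q)) + (p:ℝ) / q by
      push_cast; ring, ← key, hF]
  rw [Finset.sum_congr rfl fun j _ => hsum j]
  rw [Finset.sum_range_sub (fun j : ℕ => F (x + (j : ℝ) * ((p:ℝ) / q)))]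
  have h1 : x + (q:ℝ) * ((p:ℝ) / q) = x + p := by field_simp
  rw [h1]
  have h2 : F (x + p) = F x := by
    rw [hF]
    have h3 : L (x + p) = L x + p := leaf_per_nat hL p x
    have h4 : tauL P L ((p:ℝ) / q) (x + p) = tauL P L ((p:ℝ) / q) x := by
      have h5 := (periodic_tauL h hL ((p:ℝ) / q)).nat_mul p x
      rwa [mul_one] at h5
    simp only [h3, h4, P_per_nat h, dP_per_nat h]
  rw [h2]
  simp

/-- the function on the plane -/
def psiF (m : ℝ) (c : Fin 4 → ℝ) (V : V3) : ℝ := Ef m V / Qf V + Gf c V / Qf V ^ 2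

theorem psiF_smul (m : ℝ) (c : Fin 4 → ℝ) (V : V3) {k : ℝ} (hk : k ≠ 0) :
    psiF m c (k • V) = psiF m c V := by
  have h1 : Ef m (k • V) = k ^ 2 * Ef m V := by
    simp only [Ef, Pi.smul_apply, smul_eq_mul]
    ring
  have h2 : Qf (k • V) = k ^ 2 * Qf V := by
    simp only [Qf, Pi.smul_apply, smul_eq_mul]
    ring
  have h3 : Gf c (k • V) = k ^ 4 * Gf c V := by
    simp only [Gf, Rf, Pi.smul_apply, smul_eq_mul]
    ring
  unfold psiF
  rw [h1, h2, h3]
  have hc2 : k ^ 2 ≠ 0 := pow_ne_zero _ hk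
  congr 1
  · exact mul_div_mul_left _ _ hc2
  · rw [mul_pow, show k ^ 4 = (k ^ 2) ^ 2 by ring]
    exact mul_div_mul_left _ _ (pow_ne_zero _ hc2)

theorem nmj_val (m : ℝ) (c : Fin 4 → ℝ) (V W : V3) (τ : ℝ) :
    (nmj m c V W).val τ = psiF m c (V + τ • W) := by
  unfold psiF
  rw [Ef_line, Qf_line, Gf_line]
  rfl

theorem act_add_smul (m : ℝ) (p : P12) (V W : V3) (τ : ℝ) :
    act m p (V + τ • W) = act m p V + τ • act m p W := by
  unfold act
  rw [Matrix.mulVec_add, Matrix.mulVec_smul, smul_add]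
  abel

theorem act_ksmul (m : ℝ) (p : P12) (V : V3) (k : ℝ) : act m p (k • V) = k • act m p V := by
  unfold act
  rw [Matrix.mulVec_smul, smul_add]

/-- The point law of a leaf. -/
theorem point_law (h : LSys 1 P U (fun _ => 0)) (hpq : q ≠ 2 * p) (hq : 0 < q)
    (hL : PLeaf 1 (nxt P 1 U) p q L) (m : ℝ) (s : P12) {V W : ℝ → V3} (T : V3 →ₗ[ℝ] V3)
    (hV : ∀ x, V x = T (P x)) (hW : ∀ x, W x = (1 / (2 * π)) • T (deriv P x))
    (hal : ∀ x, (nmf m s (V x) (W x)).al0 ≠ 0)
    (hD : ∀ x, aDD (nmf m s (V (L x)) (W (L x))).ka (nmf m s (V (L x)) (W (L x))).la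
      (tauL P L ((p:ℝ) / q) x ^ 2) ≠ 0) (x : ℝ) :
    ∑ j ∈ Finset.range q, (fun x => tauL P L ((p:ℝ) / q) x *
      PhiA (nmf m s (V (L x)) (W (L x))).ka (nmf m s (V (L x)) (W (L x))).la
        (nmf m s (V (L x)) (W (L x))).e0 (nmf m s (V (L x)) (W (L x))).e1
        (nmf m s (V (L x)) (W (L x))).y1 (nmf m s (V (L x)) (W (L x))).y2
        (tauL P L ((p:ℝ) / q) x ^ 2)) (x + j * ((p:ℝ) / q)) = 0 := by
  have hπ : (2 * π) ≠ 0 := by positivity
  have h1 := law_hom h hpq hq hL (fun v => psiF m (pc s) (act m s (T v))) (by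
    intro v c hc
    have h2 : (fun i => c * v i) = c • v := rfl
    rw [h2, map_smul, act_ksmul, psiF_smul _ _ _ hc]) x
  have h3 : ∀ (y τ : ℝ), psiF m (pc s) (act m s (T (fun i => 2 * π * P y i + τ * deriv P y i))) =
      (nmf m s (V y) (W y)).val τ := by
    intro y τ
    have h4 : (fun i => 2 * π * P y i + τ * deriv P y i) =
        (2 * π) • (P y + (τ / (2 * π)) • deriv P y) := by
      funext i
      simp only [Pi.smul_apply, Pi.add_apply, smul_eq_mul]
      field_simp
    rw [h4, map_smul, act_ksmul, psiF_smul _ _ _ hπ, map_add, map_smul, act_add_smul]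
    unfold nmf
    rw [nmj_val, hV, hW, act_ksmul, smul_smul]
    congr 3
    ring
  have h5 : ∀ (y τ : ℝ), psiF m (pc s) (act m s (T (fun i => 2 * π * P y i - τ * deriv P y i))) =
      (nmf m s (V y) (W y)).val (-τ) := by
    intro y τ
    rw [← h3]
    congr 3
    funext i
    ring
  simp only [h3, h5] at h1
  have h6 : ∀ y, (nmf m s (V (L y)) (W (L y))).val (tauL P L ((p:ℝ) / q) y) -
      (nmf m s (V (L y)) (W (L y))).val (-tauL P L ((p:ℝ) / q) y) =
      2 * (tauL P L ((p:ℝ) / q) y * PhiA (nmf m s (V (L y)) (W (L y))).ka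
        (nmf m s (V (L y)) (W (L y))).la
        (nmf m s (V (L y)) (W (L y))).e0 (nmf m s (V (L y)) (W (L y))).e1
        (nmf m s (V (L y)) (W (L y))).y1 (nmf m s (V (L y)) (W (L y))).y2
        (tauL P L ((p:ℝ) / q) y ^ 2)) := by
    intro y
    rw [Nm.od_eq _ (hal _) (hD y)]
    ring
  simp only [h6] at h1
  rw [← Finset.mul_sum] at h1
  exact (mul_eq_zero.1 h1).resolve_left two_ne_zero

/-- continuity of the numbers -/
structure NmCont (N : ℝ → Nm) : Prop where
  a0 : Continuous fun x => (N x).a0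
  a1 : Continuous fun x => (N x).a1
  a2 : Continuous fun x => (N x).a2
  al0 : Continuous fun x => (N x).al0
  al1 : Continuous fun x => (N x).al1
  al2 : Continuous fun x => (N x).al2
  G0 : Continuous fun x => (N x).G0
  G1 : Continuous fun x => (N x).G1
  G2 : Continuous fun x => (N x).G2
  G3 : Continuous fun x => (N x).G3
  G4 : Continuous fun x => (N x).G4

namespace NmCont

variable {N : ℝ → Nm} (h : NmCont N) (h0 : ∀ x, (N x).al0 ≠ 0)
include h h0

theorem ka : Continuous fun x => (N x).ka := by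
  unfold Nm.ka
  exact h.al1.div (continuous_const.mul h.al0) fun x => mul_ne_zero two_ne_zero (h0 x)

theorem la : Continuous fun x => (N x).la := by
  unfold Nm.la
  exact (h.al2.div h.al0 h0).sub ((h.ka h0).pow 2)

theorem b1 : Continuous fun x => (N x).b1 := by
  unfold Nm.b1
  exact h.a1.sub (continuous_const.mul ((h.ka h0).mul h.a0))

theorem b2 : Continuous fun x => (N x).b2 := by
  unfold Nm.b2
  exact (h.a2.sub ((h.ka h0).mul h.a1)).add (((h.ka h0).pow 2).mul h.a0)

theorem g1 : Continuous fun x => (N x).g1 := by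
  unfold Nm.g1
  exact h.G1.sub (continuous_const.mul ((h.ka h0).mul h.G0))

theorem g2 : Continuous fun x => (N x).g2 := by
  unfold Nm.g2
  exact (h.G2.sub (continuous_const.mul ((h.ka h0).mul h.G1))).add
    (continuous_const.mul (((h.ka h0).pow 2).mul h.G0))

theorem g3 : Continuous fun x => (N x).g3 := by
  unfold Nm.g3
  exact ((h.G3.sub (continuous_const.mul ((h.ka h0).mul h.G2))).add
    (continuous_const.mul (((h.ka h0).pow 2).mul h.G1))).sub
      (continuous_const.mul (((h.ka h0).pow 3).mul h.G0))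

theorem g4 : Continuous fun x => (N x).g4 := by
  unfold Nm.g4
  exact (((h.G4.sub ((h.ka h0).mul h.G3)).add (((h.ka h0).pow 2).mul h.G2)).sub
    (((h.ka h0).pow 3).mul h.G1)).add (((h.ka h0).pow 4).mul h.G0)

theorem al2' : ∀ x, (N x).al0 ^ 2 ≠ 0 := fun x => by
  have := h.a0
  exact pow_ne_zero 2 (h0 x)

theorem e0 : Continuous fun x => (N x).e0 := by
  unfold Nm.e0
  exact ((h.b1 h0).div h.al0 h0).add ((h.g1 h0).div (h.al0.pow 2) (h.al2' h0))

theorem psi2 : Continuous fun x => (N x).psi2 := by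
  unfold Nm.psi2
  exact (((h.b2 h0).sub ((h.la h0).mul h.a0)).div h.al0 h0).add
    (((h.g2 h0).sub (continuous_const.mul ((h.la h0).mul h.G0))).div (h.al0.pow 2) (h.al2' h0))

theorem G3t : Continuous fun x => (N x).G3t := by
  unfold Nm.G3t
  exact ((h.g3 h0).sub ((h.la h0).mul (h.g1 h0))).div (h.al0.pow 2) (h.al2' h0)

theorem G4t : Continuous fun x => (N x).G4t := by
  unfold Nm.G4t
  exact (((h.g4 h0).sub ((h.la h0).mul (h.g2 h0))).add (((h.la h0).pow 2).mul h.G0)).div
    (h.al0.pow 2) (h.al2' h0)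

theorem e1 : Continuous fun x => (N x).e1 := by
  unfold Nm.e1
  exact (((h.G3t h0).sub ((h.la h0).mul (h.e0 h0))).sub
    (continuous_const.mul ((h.ka h0).mul (h.psi2 h0)))).add (((h.ka h0).pow 2).mul (h.e0 h0))

theorem y1 : Continuous fun x => (N x).y1 := by
  unfold Nm.y1
  exact ((h.ka h0).pow 3).mul (h.psi2 h0)

theorem y2 : Continuous fun x => (N x).y2 := by
  unfold Nm.y2
  exact (h.ka h0).mul (h.G4t h0)

end NmCont

theorem nmCont_nmf (m : ℝ) (s : P12) {V W : ℝ → V3} (hV : Continuous V) (hW : Continuous W) :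
    NmCont (fun x => nmf m s (V x) (W x)) := by
  have k : ∀ {A : ℝ → V3}, Continuous A → ∀ i, Continuous fun x => act m s (A x) i := by
    intro A hA i
    have h1 : Continuous fun x => act m s (A x) := by
      unfold act
      exact hA.add (continuous_const.matrix_mulVec hA)
    exact (continuous_apply i).comp h1
  have v := k hV
  have w := k hW
  have v0 := v 0
  have v1 := v 1
  have v2 := v 2
  have w0 := w 0
  have w1 := w 1
  have w2 := w 2
  constructor
  · change Continuous fun x => Ef m (act m s (V x))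
    unfold Ef
    fun_prop
  · change Continuous fun x => Eb m (act m s (V x)) (act m s (W x))
    unfold Eb
    fun_prop
  · change Continuous fun x => Ef m (act m s (W x))
    unfold Ef
    fun_prop
  · change Continuous fun x => Qf (act m s (V x))
    unfold Qf
    fun_prop
  · change Continuous fun x => Qb (act m s (V x)) (act m s (W x))
    unfold Qb
    fun_prop
  · change Continuous fun x => Qf (act m s (W x))
    unfold Qf
    fun_prop
  · change Continuous fun x => G0 (pc s) (act m s (V x)) (act m s (W x))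
    unfold G0 Rf
    fun_prop
  · change Continuous fun x => G1 (pc s) (act m s (V x)) (act m s (W x))
    unfold G1 Rf Rb
    fun_prop
  · change Continuous fun x => G2 (pc s) (act m s (V x)) (act m s (W x))
    unfold G2 Rf Rb
    fun_prop
  · change Continuous fun x => G3 (pc s) (act m s (V x)) (act m s (W x))
    unfold G3 Rf Rb
    fun_prop
  · change Continuous fun x => G4 (pc s) (act m s (V x)) (act m s (W x))
    unfold G4 Rf
    fun_prop

/-- The law of a leaf: Fourier coefficients. -/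
theorem law_fc (h : LSys 1 P U (fun _ => 0)) (hpq : q ≠ 2 * p) (hq : 0 < q)
    (hL : PLeaf 1 (nxt P 1 U) p q L) (m : ℝ) (s : P12) {V W : ℝ → V3} (T : V3 →ₗ[ℝ] V3)
    (hV : ∀ x, V x = T (P x)) (hW : ∀ x, W x = (1 / (2 * π)) • T (deriv P x))
    (hal : ∀ x, (nmf m s (V x) (W x)).al0 ≠ 0)
    (hD : ∀ x, aDD (nmf m s (V (L x)) (W (L x))).ka (nmf m s (V (L x)) (W (L x))).la
      (tauL P L ((p:ℝ) / q) x ^ 2) ≠ 0) {n : ℤ} (hn : (q:ℤ) ∣ n) :
    fc (fun x => ((tauL P L ((p:ℝ) / q) x *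
      PhiA (nmf m s (V (L x)) (W (L x))).ka (nmf m s (V (L x)) (W (L x))).la
        (nmf m s (V (L x)) (W (L x))).e0 (nmf m s (V (L x)) (W (L x))).e1
        (nmf m s (V (L x)) (W (L x))).y1 (nmf m s (V (L x)) (W (L x))).y2
        (tauL P L ((p:ℝ) / q) x ^ 2) : ℝ) : ℂ)) n = 0 := by
  have cT : Continuous T := LinearMap.continuous_of_finiteDimensional T
  have cV : Continuous V := by
    rw [funext hV]
    exact cT.comp h.curve.smooth.continuous
  have cW : Continuous W := by
    rw [funext hW]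
    have c1 : Continuous fun x => T (deriv P x) := cT.comp h.curve.smooth1.continuous
    exact c1.const_smul (1 / (2 * π))
  have c := nmCont_nmf m s cV cW
  have cL := hL.cont
  have cτ := continuous_tauL h hpq hq hL
  have k1 := (c.ka hal).comp cL
  have k2 := (c.la hal).comp cL
  have k3 := (c.e0 hal).comp cL
  have k4 := (c.e1 hal).comp cL
  have k5 := (c.y1 hal).comp cL
  have k6 := (c.y2 hal).comp cL
  simp only [Function.comp_def] at k1 k2 k3 k4 k5 k6
  obtain ⟨Fr, hFr⟩ : ∃ Fr : ℝ → ℝ, Fr = fun x => tauL P L ((p:ℝ) / q) x *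
      PhiA (nmf m s (V (L x)) (W (L x))).ka (nmf m s (V (L x)) (W (L x))).la
        (nmf m s (V (L x)) (W (L x))).e0 (nmf m s (V (L x)) (W (L x))).e1
        (nmf m s (V (L x)) (W (L x))).y1 (nmf m s (V (L x)) (W (L x))).y2
        (tauL P L ((p:ℝ) / q) x ^ 2) := ⟨_, rfl⟩
  have hc : Continuous Fr := by
    rw [hFr]
    refine cτ.mul ?_
    unfold PhiA
    refine Continuous.div ?_ ?_ fun x => pow_ne_zero 2 (hD x)
    · unfold an0 an1
      fun_prop
    · unfold aDD
      fun_prop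
  have hp : Function.Periodic Fr 1 := by
    intro x
    have e1 : L (x + 1) = L x + 1 := hL.per x
    have e2 := periodic_tauL h hL ((p:ℝ) / q) x
    have e3 : V (L (x + 1)) = V (L x) := by rw [hV, hV, e1, h.curve.per]
    have e4 : W (L (x + 1)) = W (L x) := by rw [hW, hW, e1, h.curve.per1]
    rw [hFr]
    simp only [e2, e3, e4]
  have hs : ∀ x, ∑ j ∈ Finset.range q, Fr (x + j * ((p:ℝ) / q)) = 0 := by
    intro x
    rw [hFr]
    exact point_law h hpq hq hL m s T hV hW hal hD x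
  have hmain : fc (fun x => (Fr x : ℂ)) n = 0 := by
    refine fc_zero_of_sum (p := p) (q := q) (Complex.continuous_ofReal.comp hc)
      (fun x => ?_) hq (fun x => ?_) hn
    · simp only [Function.comp_apply, hp x]
    · have := hs x
      simp only [Function.comp_apply]
      exact_mod_cast this
  rw [hFr] at hmain
  exact hmain

end Pool.Agent.MP_ae5b4e_an_LOC
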