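import Mathlib
import Pool.Agent.Lib.MP_ae5b4e_an_NC.WB

/-!
# MP_ae5b4e_an, project LOC: the compactness argument

Abstract closing theorem: approximate solutions of the linearised laws with a quadratic source,
whose high modes are controlled by the low ones, vanish if the exact problem has only the zero
solution.  One normalisation `Z = X + |c|^2` handles the linear and the quadratic step.
-/

noncomputable section

namespace Pool.Agent.MP_ae5b4e_an_LOC

open Real Set Filter Topology MeasureTheory intervalIntegral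
open Pool.Agent.MP_ae5b4e_an_RG Pool.Agent.MP_ae5b4e_an_NC

/-- a linear functional of three functions on a leaf -/
structure Fn where
  A : ℝ → ℂ
  B : ℝ → ℂ
  C : ℝ → ℂ
  L : ℝ → ℝ
  cA : Continuous A
  cB : Continuous B
  cC : Continuous C
  cL : Continuous L

/-- the value of the functional -/
def Fn.ev (Φ : Fn) (f0 f1 s : ℝ → ℝ) : ℂ :=
  ∫ x in (0:ℝ)..1, (Φ.A x * (f0 (Φ.L x) : ℂ) + Φ.B x * (f1 (Φ.L x) : ℂ) + Φ.C x * (s (Φ.L x) : ℂ))

/-- a functional of three functions: homogeneous, and continuous for bounded pointwise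
convergence -/
structure Fnl where
  ev : (ℝ → ℝ) → (ℝ → ℝ) → (ℝ → ℝ) → ℂ
  smul : ∀ (z : ℝ) (f0 f1 s : ℝ → ℝ),
    ev (fun x => z * f0 x) (fun x => z * f1 x) (fun x => z * s x) = z * ev f0 f1 s
  cont : ∀ (g0 g1 s : ℕ → ℝ → ℝ) (f0 f1 t : ℝ → ℝ) (B : ℝ), (∀ j, Continuous (g0 j)) →
    (∀ j, Continuous (g1 j)) → (∀ j, Continuous (s j)) → (∀ j x, |g0 j x| ≤ B) →
    (∀ j x, |g1 j x| ≤ B) → (∀ j x, |s j x| ≤ B) →
    (∀ x, Tendsto (fun j => g0 j x) atTop (𝓝 (f0 x))) →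
    (∀ x, Tendsto (fun j => g1 j x) atTop (𝓝 (f1 x))) →
    (∀ x, Tendsto (fun j => s j x) atTop (𝓝 (t x))) →
    Tendsto (fun j => ev (g0 j) (g1 j) (s j)) atTop (𝓝 (ev f0 f1 t))

/-- The hypotheses of the closing theorem: `e0`, `e1` are the two defects, `c` are the parameters
of the quartic form, `S c` is the quadratic source. -/
structure Dat {ι : Type} (Φ : ι → Fnl) (ν : ι → ℕ) (ρ C : ℝ) (n0 : ℕ) {d : ℕ}
    (S : (Fin d → ℝ) → ℝ → ℝ) (ε : ℝ) (e0 e1 : ℝ → ℝ) (c : Fin d → ℝ) : Prop where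
  apr0 : WR ρ 4 ε e0
  apr1 : WR ρ 2 ε e1
  law : ∀ X, X ≤ ε → WR ρ 4 X e0 → WR ρ 2 X e1 → ∀ i, (ν i : ℝ) * ε ≤ 1 →
    ‖(Φ i).ev e0 e1 (S c)‖ ≤ ε * (X + ‖c‖ ^ 2)
  big0 : ∀ X, X ≤ ε → WR ρ 4 X e0 → WR ρ 2 X e1 → ∀ k : ℤ, (n0 : ℝ) ≤ |(k:ℝ)| →
    ‖rc e0 k‖ ≤ C * (X / |(k:ℝ)| + ‖c‖ ^ 2 + ε * X) /
      ((1 + |(k:ℝ)|) ^ 4 * Real.exp (ρ * |(k:ℝ)|))
  big1 : ∀ X, X ≤ ε → WR ρ 4 X e0 → WR ρ 2 X e1 → ∀ k : ℤ, (n0 : ℝ) ≤ |(k:ℝ)| →
    ‖rc e1 k‖ ≤ C * (X / |(k:ℝ)| + ‖c‖ ^ 2 + ε * X) /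
      ((1 + |(k:ℝ)|) ^ 2 * Real.exp (ρ * |(k:ℝ)|))

private def wt (ρ : ℝ) (b : ℕ) (k : ℤ) : ℝ := (1 + |(k:ℝ)|) ^ b * Real.exp (ρ * |(k:ℝ)|)

private lemma wt_pos (ρ : ℝ) (b : ℕ) (k : ℤ) : 0 < wt ρ b k := by
  unfold wt
  positivity

private lemma wt_summable {ρ : ℝ} (hρ : 0 ≤ ρ) {b : ℕ} (hb : 2 ≤ b) :
    Summable fun k : ℤ => 1 / wt ρ b k := by
  refine Summable.of_nonneg_of_le (fun k => (one_div_pos.2 (wt_pos ρ b k)).le) (fun k => ?_)
    (summable_V2 (ρ := 0) (N := 0) le_rfl)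
  refine one_div_le_one_div_of_le (V_pos 0 0 2 k) ?_
  unfold V MP_ae5b4e_an_RG.w wt
  have hk : 0 ≤ |(k:ℝ)| := abs_nonneg _
  have h1 : (1 + |(k:ℝ)|) ^ 2 ≤ (1 + |(k:ℝ)|) ^ b := pow_le_pow_right₀ (by linarith) hb
  have h2 : Real.exp (0 * min |(k:ℝ)| ((0:ℕ):ℝ)) ≤ Real.exp (ρ * |(k:ℝ)|) := by
    rw [zero_mul]
    exact Real.exp_le_exp.2 (by positivity)
  exact mul_le_mul h1 h2 (Real.exp_pos _).le (by positivity)

/-- convergence of normalised functions -/
private lemma cmp_conv {ρ : ℝ} (hρ : 0 ≤ ρ) {b : ℕ} (hb : 2 ≤ b) {g : ℕ → ℝ → ℝ}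
    (hg : ∀ j, WR ρ b 1 (g j)) {a : ℤ → ℂ}
    (ha : ∀ k, Tendsto (fun j => rc (g j) k * (wt ρ b k : ℂ)) atTop (𝓝 (a k)))
    (ha1 : ∀ k, ‖a k‖ ≤ 1) :
    ∃ f : ℝ → ℝ, WR ρ b 1 f ∧ (∀ x, Tendsto (fun j => g j x) atTop (𝓝 (f x))) ∧
      ∀ k, rc f k * (wt ρ b k : ℂ) = a k := by
  have hw := fun k => wt_pos ρ b k
  have hwc : ∀ k, (wt ρ b k : ℂ) ≠ 0 := fun k => by exact_mod_cast (hw k).ne'
  have hnorm : ∀ k, ‖a k / (wt ρ b k : ℂ)‖ ≤ 1 / wt ρ b k := fun k => by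
    rw [norm_div, Complex.norm_real, Real.norm_eq_abs, abs_of_pos (hw k)]
    exact div_le_div_of_nonneg_right (ha1 k) (hw k).le
  have hsum : ∀ x, Summable fun k => (a k / (wt ρ b k : ℂ)) * e k x := fun x => by
    refine Summable.of_norm_bounded (wt_summable hρ hb) fun k => ?_
    rw [norm_mul, norm_e, mul_one]
    exact hnorm k
  set F : ℝ → ℂ := fun x => ∑' k, (a k / (wt ρ b k : ℂ)) * e k x with hF
  have hconv : ∀ x, Tendsto (fun j => ((g j x : ℝ) : ℂ)) atTop (𝓝 (F x)) := by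
    intro x
    have h1 : ∀ j, ((g j x : ℝ) : ℂ) = ∑' k, rc (g j) k * e k x := fun j =>
      ((hg j).hasSum_rc hρ hb x).tsum_eq.symm
    simp only [h1, hF]
    refine tendsto_tsum_of_dominated_convergence (wt_summable hρ hb) (fun k => ?_)
      (Eventually.of_forall fun j k => ?_)
    · refine Tendsto.mul_const _ ?_
      have h2 := (ha k).div_const (wt ρ b k : ℂ)
      refine h2.congr fun j => ?_
      rw [mul_div_assoc, div_self (hwc k), mul_one]
    · rw [norm_mul, norm_e, mul_one]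
      exact (hg j).rc_le hρ hb k
  have him : ∀ x, (F x).im = 0 := by
    intro x
    have h1 := (Complex.continuous_im.tendsto _).comp (hconv x)
    have h2 : (Complex.im ∘ fun j => ((g j x : ℝ) : ℂ)) = fun _ => 0 := by
      funext j
      simp
    rw [h2] at h1
    exact (tendsto_nhds_unique h1 tendsto_const_nhds)
  have hre : ∀ x, (((F x).re : ℝ) : ℂ) = F x := fun x =>
    Complex.ext (by simp) (by simp [him x])
  have hs : ∀ x, HasSum (fun k => (a k / (wt ρ b k : ℂ)) * e k x) (((F x).re : ℝ) : ℂ) := by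
    intro x
    rw [hre x]
    exact (hsum x).hasSum
  refine ⟨fun x => (F x).re, ⟨fun k => a k / (wt ρ b k : ℂ), hnorm, hs⟩, fun x => ?_, fun k => ?_⟩
  · have h1 := (Complex.continuous_re.tendsto _).comp (hconv x)
    exact h1.congr fun j => Complex.ofReal_re _
  · have h1 : Summable fun k => ‖a k / (wt ρ b k : ℂ)‖ :=
      Summable.of_nonneg_of_le (fun k => norm_nonneg _) hnorm (wt_summable hρ hb)
    unfold rc
    rw [fc_of_hasSum h1 hs k]
    rw [div_mul_cancel₀ _ (hwc k)]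

/-- the integral functionals -/
def Fn.fnl (Φ : Fn) : Fnl where
  ev := Φ.ev
  smul z f0 f1 s := by
    unfold Fn.ev
    rw [← intervalIntegral.integral_const_mul]
    congr 1
    funext x
    push_cast
    ring
  cont g0 g1 s f0 f1 t B h0 h1 hs h0B h1B hsB l0 l1 ls := by
    unfold Fn.ev
    refine intervalIntegral.tendsto_integral_filter_of_dominated_convergence
      (fun x => ‖Φ.A x‖ * B + ‖Φ.B x‖ * B + ‖Φ.C x‖ * B) ?_ ?_ ?_ ?_
    · refine Eventually.of_forall fun j => Continuous.aestronglyMeasurable ?_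
      exact ((Φ.cA.mul (Complex.continuous_ofReal.comp ((h0 j).comp Φ.cL))).add
        (Φ.cB.mul (Complex.continuous_ofReal.comp ((h1 j).comp Φ.cL)))).add
        (Φ.cC.mul (Complex.continuous_ofReal.comp ((hs j).comp Φ.cL)))
    · refine Eventually.of_forall fun j => Eventually.of_forall fun x _ => ?_
      have a0 := h0B j (Φ.L x)
      have a1 := h1B j (Φ.L x)
      have a2 := hsB j (Φ.L x)
      refine (norm_add_le _ _).trans (add_le_add ((norm_add_le _ _).trans (add_le_add ?_ ?_)) ?_)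
      · rw [norm_mul, Complex.norm_real, Real.norm_eq_abs]
        gcongr
      · rw [norm_mul, Complex.norm_real, Real.norm_eq_abs]
        gcongr
      · rw [norm_mul, Complex.norm_real, Real.norm_eq_abs]
        gcongr
    · have : Continuous fun x => ‖Φ.A x‖ * B + ‖Φ.B x‖ * B + ‖Φ.C x‖ * B :=
        ((Φ.cA.norm.mul continuous_const).add (Φ.cB.norm.mul continuous_const)).add
          (Φ.cC.norm.mul continuous_const)
      exact this.intervalIntegrable _ _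
    · refine Eventually.of_forall fun x _ => ?_
      have m : ∀ {u : ℕ → ℝ} {v : ℝ} (z : ℂ), Tendsto u atTop (𝓝 v) →
          Tendsto (fun j => z * ((u j : ℝ) : ℂ)) atTop (𝓝 (z * (v : ℂ))) := fun z hu =>
        Tendsto.const_mul z ((Complex.continuous_ofReal.tendsto _).comp hu)
      exact ((m _ (l0 _)).add (m _ (l1 _))).add (m _ (ls _))

/-- the functionals given by finitely many points -/
def ptFnl (q : ℕ) (A B C y : ℕ → ℝ) : Fnl where
  ev f0 f1 s := ((∑ j ∈ Finset.range q, (A j * f0 (y j) + B j * f1 (y j) + C j * s (y j)) : ℝ) : ℂ)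
  smul z f0 f1 s := by
    rw [← Complex.ofReal_mul, Finset.mul_sum]
    congr 1
    refine Finset.sum_congr rfl fun j _ => ?_
    ring
  cont g0 g1 s f0 f1 t B' _ _ _ _ _ _ l0 l1 ls := by
    refine (Complex.continuous_ofReal.tendsto _).comp ?_
    refine tendsto_finsetSum _ fun j _ => ?_
    exact (((l0 _).const_mul _).add ((l1 _).const_mul _)).add ((ls _).const_mul _)

private lemma cmp_rc (f : ℝ → ℝ) (z : ℝ) (k : ℤ) : rc (fun x => z * f x) k = z * rc f k := by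
  unfold rc fc
  rw [← intervalIntegral.integral_const_mul]
  congr 1
  funext x
  push_cast
  ring

/-- THE CLOSING THEOREM -/
theorem closing {ι : Type} (Φ : ι → Fnl) (ν : ι → ℕ) {ρ C : ℝ} (hρ : 0 ≤ ρ) (hC : 0 ≤ C) (n0 : ℕ)
    {d : ℕ} (S : (Fin d → ℝ) → ℝ → ℝ) (cS : Continuous fun z : (Fin d → ℝ) × ℝ => S z.1 z.2)
    (sS : ∀ (t : ℝ) (c : Fin d → ℝ) (x : ℝ), S (t • c) x = t ^ 2 * S c x) {B : ℝ}
    (bS : ∀ (c : Fin d → ℝ) (x : ℝ), |S c x| ≤ B * ‖c‖ ^ 2)
    (lin : ∀ (f0 f1 : ℝ → ℝ) (c : Fin d → ℝ), WR ρ 4 1 f0 → WR ρ 2 1 f1 →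
      (∀ i, (Φ i).ev f0 f1 (S c) = 0) → c = 0 ∧ (∀ x, f0 x = 0) ∧ ∀ x, f1 x = 0) :
    ∃ ε > 0, ∀ (e0 e1 : ℝ → ℝ) (c : Fin d → ℝ), Dat Φ ν ρ C n0 S ε e0 e1 c →
      c = 0 ∧ (∀ x, e0 x = 0) ∧ ∀ x, e1 x = 0 := by
  by_contra hcon
  push Not at hcon
  have hB : 0 ≤ B ∨ d = 0 := by
    rcases Nat.eq_zero_or_pos d with h | h
    · exact Or.inr h
    · left
      have h1 := bS (fun _ => 1) 0
      have h2 : ‖(fun _ : Fin d => (1:ℝ))‖ = 1 := by
        have : Nonempty (Fin d) := ⟨⟨0, h⟩⟩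
        rw [pi_norm_const]
        simp
      rw [h2] at h1
      have := (abs_nonneg _).trans h1
      linarith
  have hε : ∀ j : ℕ, (0:ℝ) < 1 / ((j:ℝ) + 1) := fun j => Nat.one_div_pos_of_nat
  choose e0 e1 c hD hne using fun j : ℕ => hcon (1 / ((j:ℝ) + 1)) (hε j)
  set ε : ℕ → ℝ := fun j => 1 / ((j:ℝ) + 1) with hεd
  have w4 := fun k => wt_pos ρ 4 k
  have w2 := fun k => wt_pos ρ 2 k
  -- the optimal constants
  set U : ℕ → ℤ → ℝ := fun j k => max (‖rc (e0 j) k‖ * wt ρ 4 k) (‖rc (e1 j) k‖ * wt ρ 2 k) with hU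
  have hUε : ∀ j k, U j k ≤ ε j := by
    intro j k
    refine max_le ?_ ?_
    · have h1 := (hD j).apr0.rc_le hρ (by norm_num) k
      exact (le_div_iff₀ (w4 k)).1 h1
    · have h1 := (hD j).apr1.rc_le hρ le_rfl k
      exact (le_div_iff₀ (w2 k)).1 h1
  have hbdd : ∀ j, BddAbove (range (U j)) := fun j => ⟨ε j, by
    rintro _ ⟨k, rfl⟩
    exact hUε j k⟩
  set X : ℕ → ℝ := fun j => ⨆ k, U j k with hX
  have hUX : ∀ j k, U j k ≤ X j := fun j k => le_ciSup (hbdd j) k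
  have hXε : ∀ j, X j ≤ ε j := fun j => ciSup_le (hUε j)
  have hX0 : ∀ j, 0 ≤ X j := fun j => by
    refine le_trans ?_ (hUX j 0)
    exact le_max_of_le_left (mul_nonneg (norm_nonneg _) (w4 0).le)
  have hx0 : ∀ j, WR ρ 4 (X j) (e0 j) := fun j => by
    refine (hD j).apr0.of_rc hρ (by norm_num) fun k => ?_
    exact (le_div_iff₀ (w4 k)).2 ((le_max_left _ _).trans (hUX j k))
  have hx1 : ∀ j, WR ρ 2 (X j) (e1 j) := fun j => by
    refine (hD j).apr1.of_rc hρ le_rfl fun k => ?_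
    exact (le_div_iff₀ (w2 k)).2 ((le_max_right _ _).trans (hUX j k))
  set Z : ℕ → ℝ := fun j => X j + ‖c j‖ ^ 2 with hZ
  have hZpos : ∀ j, 0 < Z j := by
    intro j
    have h1 : 0 ≤ Z j := add_nonneg (hX0 j) (sq_nonneg _)
    rcases h1.lt_or_eq with h | h
    · exact h
    · exfalso
      have h2 : X j = 0 := by
        have := hX0 j
        have := sq_nonneg ‖c j‖
        simp only [hZ] at h
        linarith
      have h3 : c j = 0 := by
        have h4 : ‖c j‖ ^ 2 = 0 := by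
          simp only [hZ] at h
          linarith
        exact norm_eq_zero.1 (pow_eq_zero_iff (two_ne_zero) |>.1 h4)
      have z0 : ∀ x, e0 j x = 0 := fun x => by
        have h5 := (hx0 j).sup hρ (by norm_num) x
        rw [h2, mul_zero] at h5
        exact abs_nonpos_iff.1 h5
      have z1 : ∀ x, e1 j x = 0 := fun x => by
        have h5 := (hx1 j).sup hρ le_rfl x
        rw [h2, mul_zero] at h5
        exact abs_nonpos_iff.1 h5
      obtain ⟨x, hx⟩ := hne j h3 z0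
      exact hx (z1 x)
  have hXZ : ∀ j, X j ≤ Z j := fun j => by
    have := sq_nonneg ‖c j‖
    simp only [hZ]
    linarith
  have hcZ : ∀ j, ‖c j‖ ^ 2 ≤ Z j := fun j => by
    have := hX0 j
    simp only [hZ]
    linarith
  -- the normalised data
  set g0 : ℕ → ℝ → ℝ := fun j x => (1 / Z j) * e0 j x with hg0
  set g1 : ℕ → ℝ → ℝ := fun j x => (1 / Z j) * e1 j x with hg1
  set δ : ℕ → Fin d → ℝ := fun j => (1 / √(Z j)) • c j with hδ
  have hg0W : ∀ j, WR ρ 4 1 (g0 j) := fun j => by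
    refine ((hx0 j).const_mul (1 / Z j)).mono ?_
    rw [abs_of_pos (one_div_pos.2 (hZpos j)), one_div, inv_mul_le_iff₀ (hZpos j), mul_one]
    exact hXZ j
  have hg1W : ∀ j, WR ρ 2 1 (g1 j) := fun j => by
    refine ((hx1 j).const_mul (1 / Z j)).mono ?_
    rw [abs_of_pos (one_div_pos.2 (hZpos j)), one_div, inv_mul_le_iff₀ (hZpos j), mul_one]
    exact hXZ j
  have hδn : ∀ j, ‖δ j‖ ^ 2 = ‖c j‖ ^ 2 / Z j := fun j => by
    simp only [hδ]
    rw [norm_smul, mul_pow, Real.norm_eq_abs, sq_abs, div_pow, Real.sq_sqrt (hZpos j).le]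
    ring
  have hδ1 : ∀ j, ‖δ j‖ ≤ 1 := fun j => by
    have h1 : ‖δ j‖ ^ 2 ≤ 1 := by
      rw [hδn, div_le_one (hZpos j)]
      exact hcZ j
    nlinarith [norm_nonneg (δ j)]
  have hSδ : ∀ j x, S (δ j) x = (1 / Z j) * S (c j) x := fun j x => by
    simp only [hδ]
    rw [sS, div_pow, Real.sq_sqrt (hZpos j).le, one_pow]
  -- compactness
  set a : ℕ → ℤ → ℂ := fun j k => rc (g0 j) k * (wt ρ 4 k : ℂ) with ha
  set b : ℕ → ℤ → ℂ := fun j k => rc (g1 j) k * (wt ρ 2 k : ℂ) with hb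
  have ha1 : ∀ j k, ‖a j k‖ ≤ 1 := fun j k => by
    simp only [ha]
    rw [norm_mul, Complex.norm_real, Real.norm_eq_abs, abs_of_pos (w4 k)]
    exact (le_div_iff₀ (w4 k)).1 ((hg0W j).rc_le hρ (by norm_num) k)
  have hb1 : ∀ j k, ‖b j k‖ ≤ 1 := fun j k => by
    simp only [hb]
    rw [norm_mul, Complex.norm_real, Real.norm_eq_abs, abs_of_pos (w2 k)]
    exact (le_div_iff₀ (w2 k)).1 ((hg1W j).rc_le hρ le_rfl k)
  have hK : IsCompact ((Set.pi univ fun _ : ℤ => Metric.closedBall (0:ℂ) 1) ×ˢ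
      ((Set.pi univ fun _ : ℤ => Metric.closedBall (0:ℂ) 1) ×ˢ
        Metric.closedBall (0 : Fin d → ℝ) 1)) :=
    (isCompact_univ_pi fun _ => isCompact_closedBall _ _).prod
      ((isCompact_univ_pi fun _ => isCompact_closedBall _ _).prod (isCompact_closedBall _ _))
  obtain ⟨⟨a', b', δ'⟩, hmem, φ, hφ, hlim⟩ := hK.tendsto_subseq
    (x := fun j => (a j, b j, δ j)) fun j => by
      refine ⟨fun k _ => ?_, fun k _ => ?_, ?_⟩
      · simpa using ha1 j k
      · simpa using hb1 j k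
      · simpa using hδ1 j
  obtain ⟨ha', hb', -⟩ := hmem
  have ha'1 : ∀ k, ‖a' k‖ ≤ 1 := fun k => by simpa using ha' k (mem_univ k)
  have hb'1 : ∀ k, ‖b' k‖ ≤ 1 := fun k => by simpa using hb' k (mem_univ k)
  have hl1 : Tendsto (fun j => a (φ j)) atTop (𝓝 a') :=
    (continuous_fst.tendsto _).comp hlim
  have hl2 : Tendsto (fun j => b (φ j)) atTop (𝓝 b') :=
    ((continuous_fst.comp continuous_snd).tendsto _).comp hlim
  have hl3 : Tendsto (fun j => δ (φ j)) atTop (𝓝 δ') :=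
    ((continuous_snd.comp continuous_snd).tendsto _).comp hlim
  obtain ⟨f0, hf0, hf0l, hf0c⟩ := cmp_conv hρ (b := 4) (by norm_num)
    (g := fun j => g0 (φ j)) (fun j => hg0W (φ j)) (a := a')
    (fun k => (tendsto_pi_nhds.1 hl1) k) ha'1
  obtain ⟨f1, hf1, hf1l, hf1c⟩ := cmp_conv hρ (b := 2) le_rfl
    (g := fun j => g1 (φ j)) (fun j => hg1W (φ j)) (a := b')
    (fun k => (tendsto_pi_nhds.1 hl2) k) hb'1
  -- the limit satisfies the exact laws
  have hε0 : Tendsto (fun j => ε (φ j)) atTop (𝓝 0) :=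
    (tendsto_one_div_add_atTop_nhds_zero_nat (𝕜 := ℝ)).comp hφ.tendsto_atTop
  have hlaw : ∀ i, (Φ i).ev f0 f1 (S δ') = 0 := by
    intro i
    have h1 : Tendsto (fun j => (Φ i).ev (g0 (φ j)) (g1 (φ j)) (S (δ (φ j)))) atTop
        (𝓝 ((Φ i).ev f0 f1 (S δ'))) := by
      refine (Φ i).cont _ _ _ _ _ _ (3 + |B|) (fun j => (hg0W _).continuous hρ (by norm_num))
        (fun j => (hg1W _).continuous hρ le_rfl)
        (fun j => cS.comp (continuous_const.prodMk continuous_id)) (fun j x => ?_) (fun j x => ?_)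
        (fun j x => ?_) hf0l hf1l (fun x => ?_)
      · have h2 := (hg0W (φ j)).sup hρ (by norm_num) x
        have := abs_nonneg B
        linarith
      · have h2 := (hg1W (φ j)).sup hρ le_rfl x
        have := abs_nonneg B
        linarith
      · refine (bS _ x).trans ?_
        have h2 : ‖δ (φ j)‖ ^ 2 ≤ 1 := pow_le_one₀ (norm_nonneg _) (hδ1 _)
        calc B * ‖δ (φ j)‖ ^ 2 ≤ |B| * ‖δ (φ j)‖ ^ 2 :=
              mul_le_mul_of_nonneg_right (le_abs_self B) (by positivity)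
          _ ≤ |B| * 1 := mul_le_mul_of_nonneg_left h2 (abs_nonneg _)
          _ = |B| := mul_one _
          _ ≤ 3 + |B| := by linarith
      · have h2 : Continuous fun c : Fin d → ℝ => S c x :=
          cS.comp (continuous_id.prodMk continuous_const)
        exact (h2.tendsto _).comp hl3
    have h2 : Tendsto (fun j => (Φ i).ev (g0 (φ j)) (g1 (φ j)) (S (δ (φ j)))) atTop (𝓝 0) := by
      refine squeeze_zero_norm' ?_ hε0
      have h3 : ∀ᶠ j in atTop, (ν i : ℝ) ≤ (φ j : ℝ) + 1 := by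
        filter_upwards [eventually_ge_atTop (ν i)] with j hj
        have h4 : ν i ≤ φ j := hj.trans (hφ.id_le j)
        have h5 : (ν i : ℝ) ≤ (φ j : ℝ) := by exact_mod_cast h4
        linarith
      filter_upwards [h3] with j hj
      have h4 : S (δ (φ j)) = fun x => (1 / Z (φ j)) * S (c (φ j)) x := by
        funext x
        exact hSδ _ x
      rw [h4]
      have h5 := (Φ i).smul (1 / Z (φ j)) (e0 (φ j)) (e1 (φ j)) (S (c (φ j)))
      have h6 : (Φ i).ev (g0 (φ j)) (g1 (φ j)) (fun x => (1 / Z (φ j)) * S (c (φ j)) x) =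
          ((1 / Z (φ j) : ℝ) : ℂ) * (Φ i).ev (e0 (φ j)) (e1 (φ j)) (S (c (φ j))) := h5
      rw [h6, norm_mul, Complex.norm_real, Real.norm_eq_abs,
        abs_of_pos (one_div_pos.2 (hZpos _))]
      have h7 : (ν i : ℝ) * ε (φ j) ≤ 1 := by
        simp only [hεd]
        rw [mul_one_div, div_le_one (by positivity)]
        exact hj
      have h8 := (hD (φ j)).law (X (φ j)) (hXε _) (hx0 _) (hx1 _) i h7
      have hz := hZpos (φ j)
      calc 1 / Z (φ j) * ‖(Φ i).ev (e0 (φ j)) (e1 (φ j)) (S (c (φ j)))‖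
          ≤ 1 / Z (φ j) * (ε (φ j) * Z (φ j)) := mul_le_mul_of_nonneg_left h8 (by positivity)
        _ = ε (φ j) := by field_simp
    exact tendsto_nhds_unique h1 h2
  obtain ⟨hδ0, hz0, hz1⟩ := lin f0 f1 δ' hf0 hf1 hlaw
  have hrz : ∀ {f : ℝ → ℝ}, (∀ x, f x = 0) → ∀ k, rc f k = 0 := by
    intro f hf k
    unfold rc fc
    simp [hf]
  have ha0 : ∀ k, Tendsto (fun j => a (φ j) k) atTop (𝓝 0) := fun k => by
    have h1 := (tendsto_pi_nhds.1 hl1) k
    rwa [← hf0c k, hrz hz0 k, zero_mul] at h1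
  have hb0 : ∀ k, Tendsto (fun j => b (φ j) k) atTop (𝓝 0) := fun k => by
    have h1 := (tendsto_pi_nhds.1 hl2) k
    rwa [← hf1c k, hrz hz1 k, zero_mul] at h1
  have hd0 : Tendsto (fun j => C * ‖δ (φ j)‖ ^ 2 + C * ε (φ j)) atTop (𝓝 0) := by
    have h1 : Tendsto (fun j => ‖δ (φ j)‖) atTop (𝓝 0) := by
      have := hl3.norm
      rwa [hδ0, norm_zero] at this
    have h2 := ((h1.pow 2).const_mul C).add (hε0.const_mul C)
    simpa using h2
  have hd1 : Tendsto (fun j => ‖δ (φ j)‖ ^ 2) atTop (𝓝 0) := by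
    have h1 : Tendsto (fun j => ‖δ (φ j)‖) atTop (𝓝 0) := by
      have := hl3.norm
      rwa [hδ0, norm_zero] at this
    simpa using h1.pow 2
  -- the cut
  obtain ⟨N, hN⟩ := exists_nat_ge (max (n0:ℝ) (max 1 (8 * C)))
  have hNn : (n0:ℝ) ≤ N := (le_max_left _ _).trans hN
  have hN1 : (1:ℝ) ≤ N := ((le_max_left _ _).trans (le_max_right _ _)).trans hN
  have hNC : 8 * C ≤ N := ((le_max_right _ _).trans (le_max_right _ _)).trans hN
  have hlow : ∀ᶠ j in atTop, ∀ k ∈ Finset.Icc (-(N:ℤ)) N, ‖a (φ j) k‖ ≤ 1 / 4 ∧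
      ‖b (φ j) k‖ ≤ 1 / 4 := by
    rw [Finset.eventually_all]
    intro k _
    have h1 := (ha0 k).norm
    have h2 := (hb0 k).norm
    rw [norm_zero] at h1 h2
    filter_upwards [h1.eventually (gt_mem_nhds (by norm_num : (0:ℝ) < 1 / 4)),
      h2.eventually (gt_mem_nhds (by norm_num : (0:ℝ) < 1 / 4))] with j h3 h4
    exact ⟨h3.le, h4.le⟩
  have hev : ∀ᶠ j in (atTop : Filter ℕ), False := by
    filter_upwards [hlow, hd0.eventually (gt_mem_nhds (by norm_num : (0:ℝ) < 1 / 8)),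
      hd1.eventually (gt_mem_nhds (by norm_num : (0:ℝ) < 1 / 4))] with j h1 h2 h3
    have hz := hZpos (φ j)
    have key : ∀ k, U (φ j) k ≤ Z (φ j) / 4 := by
      intro k
      have na : ‖rc (e0 (φ j)) k‖ * wt ρ 4 k = ‖a (φ j) k‖ * Z (φ j) := by
        simp only [ha, hg0]
        rw [cmp_rc, norm_mul, norm_mul, Complex.norm_real, Complex.norm_real, Real.norm_eq_abs,
          Real.norm_eq_abs, abs_of_pos (w4 k), abs_of_pos (one_div_pos.2 hz)]
        field_simp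
      have nb : ‖rc (e1 (φ j)) k‖ * wt ρ 2 k = ‖b (φ j) k‖ * Z (φ j) := by
        simp only [hb, hg1]
        rw [cmp_rc, norm_mul, norm_mul, Complex.norm_real, Complex.norm_real, Real.norm_eq_abs,
          Real.norm_eq_abs, abs_of_pos (w2 k), abs_of_pos (one_div_pos.2 hz)]
        field_simp
      by_cases hk : k ∈ Finset.Icc (-(N:ℤ)) N
      · obtain ⟨h4, h5⟩ := h1 k hk
        refine max_le ?_ ?_
        · rw [na]
          nlinarith
        · rw [nb]
          nlinarith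
      · have hkN : (N:ℝ) ≤ |(k:ℝ)| := by
          have h4 : (N:ℤ) ≤ |k| := by
            by_contra h5
            push Not at h5
            rw [abs_lt] at h5
            exact hk (Finset.mem_Icc.2 ⟨h5.1.le, h5.2.le⟩)
          calc (N:ℝ) = ((N:ℤ):ℝ) := by push_cast; rfl
            _ ≤ ((|k| : ℤ) : ℝ) := by exact_mod_cast h4
            _ = |(k:ℝ)| := by push_cast; rfl
        have hkpos : (0:ℝ) < |(k:ℝ)| := by linarith
        have hq : C * (X (φ j) / |(k:ℝ)| + ‖c (φ j)‖ ^ 2 + ε (φ j) * X (φ j)) ≤ Z (φ j) / 4 := by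
          have h4 : C * (X (φ j) / |(k:ℝ)|) ≤ Z (φ j) / 8 := by
            rw [mul_div_assoc', div_le_iff₀ hkpos]
            have h5 : C * X (φ j) ≤ C * Z (φ j) := mul_le_mul_of_nonneg_left (hXZ _) hC
            have h6 : 8 * C * Z (φ j) ≤ |(k:ℝ)| * Z (φ j) :=
              mul_le_mul_of_nonneg_right (hNC.trans hkN) hz.le
            linarith
          have h5 : C * ‖c (φ j)‖ ^ 2 = C * ‖δ (φ j)‖ ^ 2 * Z (φ j) := by
            rw [hδn]
            field_simp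
          have h6 : C * (ε (φ j) * X (φ j)) ≤ C * ε (φ j) * Z (φ j) := by
            rw [← mul_assoc]
            exact mul_le_mul_of_nonneg_left (hXZ _) (mul_nonneg hC (hε _).le)
          have h7 : (C * ‖δ (φ j)‖ ^ 2 + C * ε (φ j)) * Z (φ j) ≤ 1 / 8 * Z (φ j) :=
            mul_le_mul_of_nonneg_right h2.le hz.le
          calc C * (X (φ j) / |(k:ℝ)| + ‖c (φ j)‖ ^ 2 + ε (φ j) * X (φ j))
              = C * (X (φ j) / |(k:ℝ)|) + C * ‖c (φ j)‖ ^ 2 + C * (ε (φ j) * X (φ j)) := by ring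
            _ ≤ Z (φ j) / 8 + C * ‖δ (φ j)‖ ^ 2 * Z (φ j) + C * ε (φ j) * Z (φ j) := by
              rw [h5]
              linarith
            _ = Z (φ j) / 8 + (C * ‖δ (φ j)‖ ^ 2 + C * ε (φ j)) * Z (φ j) := by ring
            _ ≤ Z (φ j) / 4 := by linarith
        refine max_le ?_ ?_
        · have h4 := (hD (φ j)).big0 (X (φ j)) (hXε _) (hx0 _) (hx1 _) k (hNn.trans hkN)
          exact ((le_div_iff₀ (w4 k)).1 h4).trans hq
        · have h4 := (hD (φ j)).big1 (X (φ j)) (hXε _) (hx0 _) (hx1 _) k (hNn.trans hkN)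
          exact ((le_div_iff₀ (w2 k)).1 h4).trans hq
    have h4 : X (φ j) ≤ Z (φ j) / 4 := ciSup_le key
    have h5 : ‖c (φ j)‖ ^ 2 ≤ Z (φ j) / 4 := by
      have h6 := hδn (φ j)
      rw [h6, div_lt_iff₀ hz] at h3
      linarith
    have h6 : Z (φ j) = X (φ j) + ‖c (φ j)‖ ^ 2 := rfl
    linarith
  obtain ⟨j, hj⟩ := hev.exists
  exact hj

end Pool.Agent.MP_ae5b4e_an_LOC
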