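import Mathlib
import Pool.Agent.Lib.MP_ae5b4e_an_NC.Mnb
import Pool.Agent.Lib.MP_ae5b4e_an_NC.WB

/-!
# MP_ae5b4e_an, project LOC: the law of one leaf near the leaf of the background

Background-independent form: `la0`, `L0`, `τ0` are the data of the background (`ka0 = 0`).
-/

noncomputable section

namespace Pool.Agent.MP_ae5b4e_an_LOC

open Real Set Filter Topology MeasureTheory intervalIntegral
open Pool.Agent.MP_ae5b4e_an_hopf
open Pool.Agent.MP_ae5b4e_an_RG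
open Pool.Agent.MP_ae5b4e_an_NC

/-- the weight of `e0` in the law -/
def gA (ka la τ : ℝ) : ℝ := τ * an0 ka la (τ ^ 2) / aDD ka la (τ ^ 2) ^ 2

/-- the weight of `e1` in the law -/
def gB (ka la τ : ℝ) : ℝ := τ * (τ ^ 2 * an1 ka la (τ ^ 2)) / aDD ka la (τ ^ 2) ^ 2

/-- the weight of `y1` in the law -/
def gC (ka la τ : ℝ) : ℝ :=
  τ * (8 * ((τ ^ 2) ^ 2 * (1 - (la + ka ^ 2) * τ ^ 2))) / aDD ka la (τ ^ 2) ^ 2

/-- the weight of `y2` in the law -/
def gS (ka la τ : ℝ) : ℝ :=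
  τ * (-(4 * ((τ ^ 2) ^ 2 * (1 + (la + ka ^ 2) * τ ^ 2)))) / aDD ka la (τ ^ 2) ^ 2

theorem phiA_split (ka la e0 e1 y1 y2 τ : ℝ) : τ * PhiA ka la e0 e1 y1 y2 (τ ^ 2) =
    gA ka la τ * e0 + gB ka la τ * e1 + gC ka la τ * y1 + gS ka la τ * y2 := by
  unfold PhiA gA gB gC gS
  ring

private lemma e_sub (k : ℤ) (x y : ℝ) : ‖e k x - e k y‖ ≤ 2 * π * |(k:ℝ)| * |x - y| := by
  have h1 : e k x = e k y * e k (x - y) := by
    rw [← e_shift]
    congr 1
    ring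
  have h2 : e k x - e k y = e k y * (e k (x - y) - 1) := by
    rw [h1]
    ring
  rw [h2, norm_mul, norm_e, one_mul]
  have h3 : e k (x - y) = Complex.exp (Complex.I * ((2 * π * k * (x - y) : ℝ) : ℂ)) := by
    unfold e
    congr 1
    push_cast
    ring
  rw [h3]
  refine Real.norm_exp_I_mul_ofReal_sub_one_le.trans ?_
  rw [Real.norm_eq_abs, abs_mul, abs_mul, abs_mul, abs_of_pos Real.pi_pos, abs_of_pos two_pos]

/-- functions with a weighted bound are Lipschitz -/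
theorem wb_lip {ρ : ℝ} (hρ : 0 < ρ) {B : ℝ} {f : ℝ → ℂ} (h : WB ρ 2 B f) (x y : ℝ) :
    ‖f x - f y‖ ≤ 6 * π / min 1 ρ * B * |x - y| := by
  have hB := h.nonneg
  obtain ⟨a, ha, hs⟩ := h
  have hm : 0 < min 1 ρ := lt_min one_pos hρ
  have h1 := (hs x).sub (hs y)
  have h2 := ((summable_V2 (ρ := 0) (N := 0) le_rfl).hasSum).mul_left
    (2 * π / min 1 ρ * B * |x - y|)
  refine (h1.norm_le_of_bounded h2 fun k => ?_).trans ?_
  · rw [← mul_sub, norm_mul]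
    have h3 := e_sub k x y
    have h4 := ha k
    have h5 : Real.exp (ρ * |(k:ℝ)|) ≥ min 1 ρ * (1 + |(k:ℝ)|) := by
      have h6 := Real.add_one_le_exp (ρ * |(k:ℝ)|)
      have h7 : min 1 ρ ≤ 1 := min_le_left _ _
      have h8 : min 1 ρ ≤ ρ := min_le_right _ _
      have h9 := abs_nonneg (k:ℝ)
      nlinarith
    have hV : V 0 0 2 k = (1 + |(k:ℝ)|) ^ 2 := by
      unfold V w
      rw [zero_mul, Real.exp_zero, mul_one]
    rw [hV]
    have hk : 0 < 1 + |(k:ℝ)| := by positivity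
    calc ‖a k‖ * ‖e k x - e k y‖ ≤ B / ((1 + |(k:ℝ)|) ^ 2 * Real.exp (ρ * |(k:ℝ)|)) *
          (2 * π * |(k:ℝ)| * |x - y|) := mul_le_mul h4 h3 (norm_nonneg _) (by positivity)
      _ ≤ B / ((1 + |(k:ℝ)|) ^ 2 * (min 1 ρ * (1 + |(k:ℝ)|))) *
          (2 * π * (1 + |(k:ℝ)|) * |x - y|) := by
        apply mul_le_mul _ _ (by positivity) (by positivity)
        · apply div_le_div_of_nonneg_left hB (by positivity)
          exact mul_le_mul_of_nonneg_left h5 (by positivity)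
        · apply mul_le_mul_of_nonneg_right _ (abs_nonneg _)
          apply mul_le_mul_of_nonneg_left _ (by positivity)
          linarith
      _ = 2 * π / min 1 ρ * B * |x - y| * (1 / (1 + |(k:ℝ)|) ^ 2) := by
        field_simp
  · have h3 := tsum_V2 (ρ := 0) (N := 0) le_rfl
    have h4 : 0 ≤ 2 * π / min 1 ρ * B * |x - y| := by positivity
    calc 2 * π / min 1 ρ * B * |x - y| * ∑' k : ℤ, 1 / V 0 0 2 k ≤
          2 * π / min 1 ρ * B * |x - y| * 3 := mul_le_mul_of_nonneg_left h3 h4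
      _ = _ := by ring

/-- uniform continuity near a compact set -/
private lemma unif {g : ℝ × ℝ × ℝ → ℝ} {U K : Set (ℝ × ℝ × ℝ)} (hU : IsOpen U)
    (hg : ContinuousOn g U) (hK : IsCompact K) (hKU : K ⊆ U) {δ : ℝ} (hδ : 0 < δ) :
    ∃ η > 0, ∀ v0 ∈ K, ∀ v, dist v v0 ≤ η → v ∈ U ∧ |g v - g v0| ≤ δ := by
  obtain ⟨r, hr, hrU⟩ := hK.exists_cthickening_subset_open hU hKU
  have hc : IsCompact (Metric.cthickening r K) := hK.cthickening
  have hu := hc.uniformContinuousOn_of_continuous (hg.mono hrU)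
  rw [Metric.uniformContinuousOn_iff] at hu
  obtain ⟨s, hs, hsu⟩ := hu δ hδ
  refine ⟨min r s / 2, by positivity, fun v0 hv0 v hv => ?_⟩
  have h1 : min r s / 2 ≤ r := by
    have := min_le_left r s
    linarith
  have h2 : min r s / 2 < s := by
    have := min_le_right r s
    linarith
  have h3 : v ∈ Metric.cthickening r K := Metric.mem_cthickening_of_dist_le v v0 r K hv0 (hv.trans h1)
  have h4 : v0 ∈ Metric.cthickening r K := Metric.self_subset_cthickening K hv0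
  have h5 := hsu v h3 v0 h4 (hv.trans_lt h2)
  rw [Real.dist_eq] at h5
  exact ⟨hrU h3, h5.le⟩

private lemma cont_aux : Continuous fun v : ℝ × ℝ × ℝ => aDD v.1 v.2.1 (v.2.2 ^ 2) := by
  unfold aDD
  fun_prop

private lemma g_cont : ContinuousOn (fun v : ℝ × ℝ × ℝ => gA v.1 v.2.1 v.2.2)
      {v | aDD v.1 v.2.1 (v.2.2 ^ 2) ≠ 0} ∧
    ContinuousOn (fun v : ℝ × ℝ × ℝ => gB v.1 v.2.1 v.2.2)
      {v | aDD v.1 v.2.1 (v.2.2 ^ 2) ≠ 0} ∧
    ContinuousOn (fun v : ℝ × ℝ × ℝ => gC v.1 v.2.1 v.2.2)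
      {v | aDD v.1 v.2.1 (v.2.2 ^ 2) ≠ 0} ∧
    ContinuousOn (fun v : ℝ × ℝ × ℝ => gS v.1 v.2.1 v.2.2)
      {v | aDD v.1 v.2.1 (v.2.2 ^ 2) ≠ 0} := by
  have h2 : ContinuousOn (fun v : ℝ × ℝ × ℝ => aDD v.1 v.2.1 (v.2.2 ^ 2) ^ 2)
      {v | aDD v.1 v.2.1 (v.2.2 ^ 2) ≠ 0} := (cont_aux.pow 2).continuousOn
  have h3 : ∀ v ∈ {v : ℝ × ℝ × ℝ | aDD v.1 v.2.1 (v.2.2 ^ 2) ≠ 0},
      aDD v.1 v.2.1 (v.2.2 ^ 2) ^ 2 ≠ 0 := fun v hv => pow_ne_zero 2 hv
  refine ⟨?_, ?_, ?_, ?_⟩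
  · unfold gA
    refine ContinuousOn.div (Continuous.continuousOn ?_) h2 h3
    unfold an0
    fun_prop
  · unfold gB
    refine ContinuousOn.div (Continuous.continuousOn ?_) h2 h3
    unfold an1
    fun_prop
  · unfold gC
    exact ContinuousOn.div (Continuous.continuousOn (by fun_prop)) h2 h3
  · unfold gS
    exact ContinuousOn.div (Continuous.continuousOn (by fun_prop)) h2 h3

/-- one term of the law -/
private lemma term_le {ρ : ℝ} (hρ : 0 < ρ) {B : ℝ} {f : ℝ → ℝ} (hf : WR ρ 2 B f)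
    {x y a a0 δ M ε : ℝ} (hxy : |x - y| ≤ ε) (ha : |a - a0| ≤ δ) (ha0 : |a0| ≤ M) :
    |a * f x - a0 * f y| ≤ (3 * δ + M * (6 * π / min 1 ρ) * ε) * B := by
  have hB := hf.nonneg
  have hm : 0 < min 1 ρ := lt_min one_pos hρ
  have h3 : a * f x - a0 * f y = (a - a0) * f x + a0 * (f x - f y) := by ring
  rw [h3]
  have h4 := hf.sup hρ.le le_rfl x
  have h5 := wb_lip hρ hf x y
  rw [← Complex.ofReal_sub, Complex.norm_real, Real.norm_eq_abs] at h5
  have h6 : |f x - f y| ≤ 6 * π / min 1 ρ * B * ε :=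
    h5.trans (mul_le_mul_of_nonneg_left hxy (by positivity))
  have hδ : 0 ≤ δ := (abs_nonneg _).trans ha
  have hM : 0 ≤ M := (abs_nonneg _).trans ha0
  calc |(a - a0) * f x + a0 * (f x - f y)| ≤ |a - a0| * |f x| + |a0| * |f x - f y| := by
        refine (abs_add_le _ _).trans ?_
        rw [abs_mul, abs_mul]
    _ ≤ δ * (3 * B) + M * (6 * π / min 1 ρ * B * ε) := by
        apply add_le_add
        · exact mul_le_mul ha h4 (abs_nonneg _) hδ
        · exact mul_le_mul ha0 h6 (abs_nonneg _) hM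
    _ = _ := by ring

/-- MID for a general background. -/
theorem mid_bg {ρ : ℝ} (hρ : 0 < ρ) {la0 L0 τ0 : ℝ → ℝ} (cl : Continuous la0)
    (cL : Continuous L0) (cτ : Continuous τ0) (pl : Function.Periodic la0 1)
    (pL : ∀ x, L0 (x + 1) = L0 x + 1) (pτ : Function.Periodic τ0 1)
    (hD : ∀ x, aDD 0 (la0 (L0 x)) (τ0 x ^ 2) ≠ 0) :
    ∃ C > 0, ∀ d > 0, ∃ ε0 > 0, ∀ (ε : ℝ) (ka la L τ : ℝ → ℝ), ε ≤ ε0 → Continuous ka →
      Continuous la → Continuous L → Continuous τ → (∀ x, |ka x| ≤ ε) →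
      (∀ x, |la x - la0 x| ≤ ε) → (∀ x, |L x - L0 x| ≤ ε) → (∀ x, |τ x - τ0 x| ≤ ε) →
      (∀ x, aDD (ka (L x)) (la (L x)) (τ x ^ 2) ≠ 0) ∧
      ∀ (e0 e1 y1 y2 s : ℝ → ℝ) (X Y Y1 : ℝ), WR ρ 2 X e0 → WR ρ 2 X e1 → WR ρ 2 Y y1 →
        WR ρ 2 Y y2 → Continuous s → (∀ x, |y1 x| ≤ Y1) → (∀ x, |y2 x - s x| ≤ Y1) →
        ∀ n : ℤ, fc (fun x => ((τ x * PhiA (ka (L x)) (la (L x)) (e0 (L x)) (e1 (L x))
            (y1 (L x)) (y2 (L x)) (τ x ^ 2) : ℝ) : ℂ)) n = 0 →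
          ‖∫ x in (0:ℝ)..1, ((gA 0 (la0 (L0 x)) (τ0 x) * e0 (L0 x) +
            gB 0 (la0 (L0 x)) (τ0 x) * e1 (L0 x) + gS 0 (la0 (L0 x)) (τ0 x) * s (L0 x) : ℝ) : ℂ) *
              e (-n) x‖ ≤ d * (X + Y) + C * Y1 := by
  set v0 : ℝ → ℝ × ℝ × ℝ := fun x => (0, la0 (L0 x), τ0 x) with hv0
  have cv0 : Continuous v0 := continuous_const.prodMk ((cl.comp cL).prodMk cτ)
  have pv0 : Function.Periodic v0 1 := by
    intro x
    simp only [hv0]
    rw [pL, pl, pτ x]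
  set K : Set (ℝ × ℝ × ℝ) := v0 '' Icc (0:ℝ) 1 with hK
  have hKc : IsCompact K := isCompact_Icc.image cv0
  have hmem : ∀ x, v0 x ∈ K := by
    intro x
    obtain ⟨y, hy, hxy⟩ := pv0.exists_mem_Ico₀ one_pos x
    rw [hxy]
    exact ⟨y, ⟨hy.1, hy.2.le⟩, rfl⟩
  set U : Set (ℝ × ℝ × ℝ) := {v | aDD v.1 v.2.1 (v.2.2 ^ 2) ≠ 0} with hU
  have hUo : IsOpen U := isOpen_ne_fun cont_aux continuous_const
  have hKU : K ⊆ U := by
    rintro _ ⟨x, -, rfl⟩
    exact hD x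
  obtain ⟨cA, cB, cC, cS⟩ := g_cont
  -- bounds of the weights on the background
  obtain ⟨M, hM0, hM⟩ : ∃ M > 0, ∀ x, |gA 0 (la0 (L0 x)) (τ0 x)| ≤ M ∧
      |gB 0 (la0 (L0 x)) (τ0 x)| ≤ M ∧ |gC 0 (la0 (L0 x)) (τ0 x)| ≤ M ∧
      |gS 0 (la0 (L0 x)) (τ0 x)| ≤ M := by
    obtain ⟨M1, h1⟩ := hKc.exists_bound_of_continuousOn (cA.mono hKU)
    obtain ⟨M2, h2⟩ := hKc.exists_bound_of_continuousOn (cB.mono hKU)
    obtain ⟨M3, h3⟩ := hKc.exists_bound_of_continuousOn (cC.mono hKU)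
    obtain ⟨M4, h4⟩ := hKc.exists_bound_of_continuousOn (cS.mono hKU)
    refine ⟨|M1| + |M2| + |M3| + |M4| + 1, by positivity, fun x => ?_⟩
    have k1 := h1 _ (hmem x)
    have k2 := h2 _ (hmem x)
    have k3 := h3 _ (hmem x)
    have k4 := h4 _ (hmem x)
    rw [Real.norm_eq_abs] at k1 k2 k3 k4
    have a1 := le_abs_self M1
    have a2 := le_abs_self M2
    have a3 := le_abs_self M3
    have a4 := le_abs_self M4
    have b1 := abs_nonneg M1
    have b2 := abs_nonneg M2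
    have b3 := abs_nonneg M3
    have b4 := abs_nonneg M4
    simp only [hv0] at k1 k2 k3 k4
    exact ⟨by linarith, by linarith, by linarith, by linarith⟩
  refine ⟨2 * M, by positivity, fun d hd => ?_⟩
  have hm : 0 < min 1 ρ := lt_min one_pos hρ
  set Kρ := 6 * π / min 1 ρ with hKρ
  have hKρ0 : 0 < Kρ := by positivity
  set δ := d / 12 with hδ
  have hδ0 : 0 < δ := by positivity
  obtain ⟨ηA, hηA, uA⟩ := unif hUo cA hKc hKU hδ0
  obtain ⟨ηB, hηB, uB⟩ := unif hUo cB hKc hKU hδ0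
  obtain ⟨ηC, hηC, uC⟩ := unif hUo cC hKc hKU hδ0
  obtain ⟨ηS, hηS, uS⟩ := unif hUo cS hKc hKU hδ0
  set η := min (min ηA ηB) (min ηC ηS) with hη
  have hη0 : 0 < η := lt_min (lt_min hηA hηB) (lt_min hηC hηS)
  have eA : η ≤ ηA := (min_le_left _ _).trans (min_le_left _ _)
  have eB : η ≤ ηB := (min_le_left _ _).trans (min_le_right _ _)
  have eC : η ≤ ηC := (min_le_right _ _).trans (min_le_left _ _)
  have eS : η ≤ ηS := (min_le_right _ _).trans (min_le_right _ _)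
  -- uniform continuity of `la0`
  obtain ⟨r, hr, hru⟩ : ∃ r > 0, ∀ x y, |x - y| ≤ r → |la0 x - la0 y| ≤ η / 2 := by
    have hc : IsCompact (Icc (-1:ℝ) 2) := isCompact_Icc
    have hu := hc.uniformContinuousOn_of_continuous cl.continuousOn
    rw [Metric.uniformContinuousOn_iff] at hu
    obtain ⟨r, hr, hru⟩ := hu (η / 2) (by positivity)
    refine ⟨min (r / 2) 1, by positivity, fun x y hxy => ?_⟩
    have h1 : |x - y| ≤ r / 2 := hxy.trans (min_le_left _ _)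
    have h2 : |x - y| ≤ 1 := hxy.trans (min_le_right _ _)
    have h3 := abs_le.1 h2
    have hf := Int.floor_le x
    have hf' := Int.lt_floor_add_one x
    have p1 : la0 x = la0 (x - ⌊x⌋) := (pl.sub_int_mul_eq ⌊x⌋ (x := x) ▸ by
      rw [mul_one])
    have p2 : la0 y = la0 (y - ⌊x⌋) := (pl.sub_int_mul_eq ⌊x⌋ (x := y) ▸ by
      rw [mul_one])
    rw [p1, p2]
    have h4 := hru (x - ⌊x⌋) ⟨by linarith, by linarith⟩ (y - ⌊x⌋) ⟨by linarith, by linarith⟩ (by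
      rw [Real.dist_eq]
      have : x - ⌊x⌋ - (y - ⌊x⌋) = x - y := by ring
      rw [this]
      linarith)
    rw [Real.dist_eq] at h4
    exact h4.le
  refine ⟨min (η / 2) (min r (d / (4 * (M * Kρ)))), by positivity, ?_⟩
  intro ε ka la L τ hε cka cla cL' cτ' hka hla hL hτ
  have hε1 : ε ≤ η / 2 := hε.trans (min_le_left _ _)
  have hε2 : ε ≤ r := hε.trans ((min_le_right _ _).trans (min_le_left _ _))
  have hε3 : ε ≤ d / (4 * (M * Kρ)) := hε.trans ((min_le_right _ _).trans (min_le_right _ _))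
  have hε0 : 0 ≤ ε := (abs_nonneg _).trans (hka 0)
  rw [le_div_iff₀ (by positivity)] at hε3
  set v : ℝ → ℝ × ℝ × ℝ := fun x => (ka (L x), la (L x), τ x) with hv
  have hdist : ∀ x, dist (v x) (v0 x) ≤ η := by
    intro x
    rw [Prod.dist_eq, Prod.dist_eq]
    simp only [hv, hv0, Real.dist_eq, sub_zero]
    refine max_le ?_ (max_le ?_ ?_)
    · exact (hka _).trans (by linarith)
    · have h1 := hla (L x)
      have h2 := hru (L x) (L0 x) ((hL x).trans hε2)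
      have h3 : la (L x) - la0 (L0 x) = (la (L x) - la0 (L x)) + (la0 (L x) - la0 (L0 x)) := by
        ring
      rw [h3]
      refine (abs_add_le _ _).trans ?_
      linarith
    · exact (hτ x).trans (by linarith)
  have hcl : ∀ x, v x ∈ U ∧ |gA (ka (L x)) (la (L x)) (τ x) - gA 0 (la0 (L0 x)) (τ0 x)| ≤ δ ∧
      |gB (ka (L x)) (la (L x)) (τ x) - gB 0 (la0 (L0 x)) (τ0 x)| ≤ δ ∧
      |gC (ka (L x)) (la (L x)) (τ x) - gC 0 (la0 (L0 x)) (τ0 x)| ≤ δ ∧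
      |gS (ka (L x)) (la (L x)) (τ x) - gS 0 (la0 (L0 x)) (τ0 x)| ≤ δ := by
    intro x
    have k1 := uA _ (hmem x) (v x) ((hdist x).trans eA)
    have k2 := uB _ (hmem x) (v x) ((hdist x).trans eB)
    have k3 := uC _ (hmem x) (v x) ((hdist x).trans eC)
    have k4 := uS _ (hmem x) (v x) ((hdist x).trans eS)
    exact ⟨k1.1, k1.2, k2.2, k3.2, k4.2⟩
  refine ⟨fun x => (hcl x).1, ?_⟩
  intro e0 e1 y1 y2 s X Y Y1 hX0 hX1 hY0 hY1 cs hy1 hy2 n hfc
  have X0 := hX0.nonneg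
  have Y0 := hY0.nonneg
  have Y10 : 0 ≤ Y1 := (abs_nonneg _).trans (hy1 0)
  have ce0 := hX0.continuous hρ.le le_rfl
  have ce1 := hX1.continuous hρ.le le_rfl
  have cy1 := hY0.continuous hρ.le le_rfl
  have cy2 := hY1.continuous hρ.le le_rfl
  -- continuity of the two integrands
  have cv : Continuous v := (cka.comp cL').prodMk ((cla.comp cL').prodMk cτ')
  have cg : ∀ {g : ℝ × ℝ × ℝ → ℝ}, ContinuousOn g U → Continuous (fun x => g (v x)) := fun hg =>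
    continuousOn_univ.1 (hg.comp cv.continuousOn fun x _ => (hcl x).1)
  have cg0 : ∀ {g : ℝ × ℝ × ℝ → ℝ}, ContinuousOn g U → Continuous (fun x => g (v0 x)) :=
    fun hg => continuousOn_univ.1 (hg.comp cv0.continuousOn fun x _ => hKU (hmem x))
  have gA' : Continuous fun x => gA (ka (L x)) (la (L x)) (τ x) := cg cA
  have gB' : Continuous fun x => gB (ka (L x)) (la (L x)) (τ x) := cg cB
  have gC' : Continuous fun x => gC (ka (L x)) (la (L x)) (τ x) := cg cC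
  have gS' : Continuous fun x => gS (ka (L x)) (la (L x)) (τ x) := cg cS
  have gA0 : Continuous fun x => gA 0 (la0 (L0 x)) (τ0 x) := cg0 cA
  have gB0 : Continuous fun x => gB 0 (la0 (L0 x)) (τ0 x) := cg0 cB
  have gS0 : Continuous fun x => gS 0 (la0 (L0 x)) (τ0 x) := cg0 cS
  have hfc2 : ∫ x in (0:ℝ)..1, ((gA (ka (L x)) (la (L x)) (τ x) * e0 (L x) +
      gB (ka (L x)) (la (L x)) (τ x) * e1 (L x) + gC (ka (L x)) (la (L x)) (τ x) * y1 (L x) +
      gS (ka (L x)) (la (L x)) (τ x) * y2 (L x) : ℝ) : ℂ) * e (-n) x = 0 := by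
    rw [← hfc]
    unfold fc
    congr 1
    funext x
    beta_reduce
    rw [phiA_split]
  have c1 : Continuous fun x => ((gA (ka (L x)) (la (L x)) (τ x) * e0 (L x) +
      gB (ka (L x)) (la (L x)) (τ x) * e1 (L x) + gC (ka (L x)) (la (L x)) (τ x) * y1 (L x) +
      gS (ka (L x)) (la (L x)) (τ x) * y2 (L x) : ℝ) : ℂ) * e (-n) x :=
    (Complex.continuous_ofReal.comp ((((gA'.mul (ce0.comp cL')).add (gB'.mul (ce1.comp cL'))).add
      (gC'.mul (cy1.comp cL'))).add (gS'.mul (cy2.comp cL')))).mul (continuous_e _)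
  have c2 : Continuous fun x => ((gA 0 (la0 (L0 x)) (τ0 x) * e0 (L0 x) +
      gB 0 (la0 (L0 x)) (τ0 x) * e1 (L0 x) + gS 0 (la0 (L0 x)) (τ0 x) * s (L0 x) : ℝ) : ℂ) *
      e (-n) x :=
    (Complex.continuous_ofReal.comp (((gA0.mul (ce0.comp cL)).add (gB0.mul (ce1.comp cL))).add
      (gS0.mul (cs.comp cL)))).mul (continuous_e _)
  have hdiff : ∫ x in (0:ℝ)..1, ((gA 0 (la0 (L0 x)) (τ0 x) * e0 (L0 x) +
      gB 0 (la0 (L0 x)) (τ0 x) * e1 (L0 x) + gS 0 (la0 (L0 x)) (τ0 x) * s (L0 x) : ℝ) : ℂ) *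
      e (-n) x = -∫ x in (0:ℝ)..1, (((gA (ka (L x)) (la (L x)) (τ x) * e0 (L x) +
      gB (ka (L x)) (la (L x)) (τ x) * e1 (L x) + gC (ka (L x)) (la (L x)) (τ x) * y1 (L x) +
      gS (ka (L x)) (la (L x)) (τ x) * y2 (L x) : ℝ) : ℂ) * e (-n) x -
      ((gA 0 (la0 (L0 x)) (τ0 x) * e0 (L0 x) +
      gB 0 (la0 (L0 x)) (τ0 x) * e1 (L0 x) + gS 0 (la0 (L0 x)) (τ0 x) * s (L0 x) : ℝ) : ℂ) *
      e (-n) x) := by
    rw [intervalIntegral.integral_sub (c1.intervalIntegrable _ _) (c2.intervalIntegrable _ _),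
      hfc2, zero_sub, neg_neg]
  rw [hdiff, norm_neg]
  have hpt : ∀ x ∈ Set.uIoc (0:ℝ) 1, ‖((gA (ka (L x)) (la (L x)) (τ x) * e0 (L x) +
      gB (ka (L x)) (la (L x)) (τ x) * e1 (L x) + gC (ka (L x)) (la (L x)) (τ x) * y1 (L x) +
      gS (ka (L x)) (la (L x)) (τ x) * y2 (L x) : ℝ) : ℂ) * e (-n) x -
      ((gA 0 (la0 (L0 x)) (τ0 x) * e0 (L0 x) +
      gB 0 (la0 (L0 x)) (τ0 x) * e1 (L0 x) + gS 0 (la0 (L0 x)) (τ0 x) * s (L0 x) : ℝ) : ℂ) *
      e (-n) x‖ ≤ d * (X + Y) + 2 * M * Y1 := by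
    intro x _
    rw [← sub_mul, norm_mul, norm_e, mul_one, ← Complex.ofReal_sub, Complex.norm_real,
      Real.norm_eq_abs]
    obtain ⟨-, dA, dB, dC, dS⟩ := hcl x
    obtain ⟨mA, mB, mC, mS⟩ := hM x
    have t1 := term_le hρ hX0 (hL x) dA mA
    have t2 := term_le hρ hX1 (hL x) dB mB
    have t3 := term_le hρ hY0 (hL x) dC mC
    have t4 := term_le hρ hY1 (hL x) dS mS
    have t5 : |gC 0 (la0 (L0 x)) (τ0 x) * y1 (L0 x)| ≤ M * Y1 := by
      rw [abs_mul]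
      exact mul_le_mul mC (hy1 _) (abs_nonneg _) hM0.le
    have t6 : |gS 0 (la0 (L0 x)) (τ0 x) * (y2 (L0 x) - s (L0 x))| ≤ M * Y1 := by
      rw [abs_mul]
      exact mul_le_mul mS (hy2 _) (abs_nonneg _) hM0.le
    have hid : gA (ka (L x)) (la (L x)) (τ x) * e0 (L x) +
        gB (ka (L x)) (la (L x)) (τ x) * e1 (L x) + gC (ka (L x)) (la (L x)) (τ x) * y1 (L x) +
        gS (ka (L x)) (la (L x)) (τ x) * y2 (L x) - (gA 0 (la0 (L0 x)) (τ0 x) * e0 (L0 x) +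
        gB 0 (la0 (L0 x)) (τ0 x) * e1 (L0 x) + gS 0 (la0 (L0 x)) (τ0 x) * s (L0 x)) =
        (gA (ka (L x)) (la (L x)) (τ x) * e0 (L x) - gA 0 (la0 (L0 x)) (τ0 x) * e0 (L0 x)) +
        (gB (ka (L x)) (la (L x)) (τ x) * e1 (L x) - gB 0 (la0 (L0 x)) (τ0 x) * e1 (L0 x)) +
        (gC (ka (L x)) (la (L x)) (τ x) * y1 (L x) - gC 0 (la0 (L0 x)) (τ0 x) * y1 (L0 x)) +
        (gS (ka (L x)) (la (L x)) (τ x) * y2 (L x) - gS 0 (la0 (L0 x)) (τ0 x) * y2 (L0 x)) +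
        gC 0 (la0 (L0 x)) (τ0 x) * y1 (L0 x) +
        gS 0 (la0 (L0 x)) (τ0 x) * (y2 (L0 x) - s (L0 x)) := by ring
    rw [hid]
    have hS : (3 * δ + M * Kρ * ε) * 2 ≤ d := by
      rw [hδ]
      nlinarith
    have hS0 : 0 ≤ 3 * δ + M * Kρ * ε := by positivity
    calc _ ≤ (3 * δ + M * Kρ * ε) * X + (3 * δ + M * Kρ * ε) * X +
          (3 * δ + M * Kρ * ε) * Y + (3 * δ + M * Kρ * ε) * Y + M * Y1 + M * Y1 := by
          refine (abs_add_le _ _).trans (add_le_add ?_ t6)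
          refine (abs_add_le _ _).trans (add_le_add ?_ t5)
          refine (abs_add_le _ _).trans (add_le_add ?_ t4)
          refine (abs_add_le _ _).trans (add_le_add ?_ t3)
          exact (abs_add_le _ _).trans (add_le_add t1 t2)
      _ = (3 * δ + M * Kρ * ε) * 2 * (X + Y) + 2 * M * Y1 := by ring
      _ ≤ d * (X + Y) + 2 * M * Y1 := by
          have := mul_le_mul_of_nonneg_right hS (add_nonneg X0 Y0)
          linarith
  have h3 := intervalIntegral.norm_integral_le_of_norm_le_const hpt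
  rw [sub_zero, abs_one, mul_one] at h3
  exact h3

end Pool.Agent.MP_ae5b4e_an_LOC
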