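import Mathlib
import Pool.Agent.Lib.MP_ae5b4e_an_LOC.MidG

/-!
# MP_ae5b4e_an, project LOC: the two forms of the second order law

On a leaf of the pencil `1 / t + la = 1 / mu` is constant, `t = τ ^ 2`.  With the exact law of
`(G / Q ^ 2) ^ 2` the term `mu ^ 2 G3 G4` is turned into `(1 / mu) ^ 2 g0 g1`.
-/

noncomputable section

namespace Pool.Agent.MP_ae5b4e_an_LOC

open Real
open Pool.Agent.MP_ae5b4e_an_NC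

/-- a quarter of the difference of the values of `(G / Q ^ 2) ^ 2` on `P + τ P'`, `G = ∑ g_j τ ^ j`, `Q = 1 + la τ ^ 2` -/
def oG (la g0 g1 g2 g3 g4 τ : ℝ) : ℝ :=
  τ * ((g0 + g2 * τ ^ 2 + g4 * (τ ^ 2) ^ 2) * (g1 + g3 * τ ^ 2)) / (1 + la * τ ^ 2) ^ 4

theorem oG_eq {la τ : ℝ} (hD : 1 + la * τ ^ 2 ≠ 0) (g0 g1 g2 g3 g4 : ℝ) :
    4 * oG la g0 g1 g2 g3 g4 τ =
      ((g0 + g1 * τ + g2 * τ ^ 2 + g3 * τ ^ 3 + g4 * τ ^ 4) / (1 + la * τ ^ 2) ^ 2) ^ 2 -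
      ((g0 - g1 * τ + g2 * τ ^ 2 - g3 * τ ^ 3 + g4 * τ ^ 4) / (1 + la * τ ^ 2) ^ 2) ^ 2 := by
  unfold oG
  have hD' : 1 + τ ^ 2 * la ≠ 0 := by rwa [mul_comm (τ ^ 2)]
  field_simp
  ring

/-- the law without the source -/
theorem g_lin {la τ μ : ℝ} (hD : 1 + la * τ ^ 2 ≠ 0) (hμ : μ = τ ^ 2 / (1 + la * τ ^ 2))
    (f0 f1 : ℝ) :
    gA 0 la τ * f0 + gB 0 la τ * f1 =
      τ / (1 + la * τ ^ 2) * (f0 + μ * (la * f0 + f1)) := by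
  subst hμ
  have h1 : aDD 0 la (τ ^ 2) = (1 + la * τ ^ 2) ^ 2 := by
    unfold aDD
    ring
  unfold gA gB
  rw [h1]
  unfold an0 an1
  have hD' : 1 + τ ^ 2 * la ≠ 0 := by rwa [mul_comm (τ ^ 2)]
  field_simp
  ring

/-- the source -/
theorem g_src {la τ μ : ℝ} (hD : 1 + la * τ ^ 2 ≠ 0) (hμ : μ = τ ^ 2 / (1 + la * τ ^ 2))
    (s : ℝ) : gS 0 la τ * s = τ / (1 + la * τ ^ 2) * (-(4 * μ ^ 2 * s)) := by
  subst hμ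
  have h1 : aDD 0 la (τ ^ 2) = (1 + la * τ ^ 2) ^ 2 := by
    unfold aDD
    ring
  unfold gS
  rw [h1]
  have hD' : 1 + τ ^ 2 * la ≠ 0 := by rwa [mul_comm (τ ^ 2)]
  field_simp
  ring

theorem oG_mu {la τ μ : ℝ} (hD : 1 + la * τ ^ 2 ≠ 0) (hμ : μ = τ ^ 2 / (1 + la * τ ^ 2))
    (g0 g1 g2 g3 g4 : ℝ) :
    oG la g0 g1 g2 g3 g4 τ = τ / (1 + la * τ ^ 2) *
      ((g0 + μ * (g2 - 2 * la * g0) + μ ^ 2 * (g4 - la * g2 + la ^ 2 * g0)) *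
        (g1 + μ * (g3 - la * g1))) := by
  subst hμ
  unfold oG
  have hD' : 1 + τ ^ 2 * la ≠ 0 := by rwa [mul_comm (τ ^ 2)]
  field_simp
  ring

/-- The conversion.  `s = G3 G4 / (2 e)`. -/
theorem conversion {e la τ μ : ℝ} (he : e ≠ 0) (hτ : τ ≠ 0) (hD : 1 + la * τ ^ 2 ≠ 0)
    (hμ : μ = τ ^ 2 / (1 + la * τ ^ 2)) (f0 f1 g0 g1 g2 g3 g4 : ℝ) :
    (gA 0 la τ * f0 + gB 0 la τ * f1 +
      gS 0 la τ * ((g3 - la * g1) * (g4 - la * g2 + la ^ 2 * g0) / (2 * e))) / μ +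
      2 / e * oG la g0 g1 g2 g3 g4 τ / μ ^ 2 =
    τ / (1 + la * τ ^ 2) *
      ((la * f0 + f1 + 2 / e * (g1 * (g4 - la * g2 + la ^ 2 * g0) +
          (g2 - 2 * la * g0) * (g3 - la * g1))) +
        1 / μ * (f0 + 2 / e * (g0 * (g3 - la * g1) + g1 * (g2 - 2 * la * g0))) +
        (1 / μ) ^ 2 * (2 / e * (g0 * g1))) := by
  have hμ0 : μ ≠ 0 := by
    rw [hμ]
    exact div_ne_zero (pow_ne_zero 2 hτ) hD
  rw [g_lin hD hμ, g_src hD hμ, oG_mu hD hμ]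
  have hD' : 1 + τ ^ 2 * la ≠ 0 := by rwa [mul_comm (τ ^ 2)]
  field_simp
  ring

end Pool.Agent.MP_ae5b4e_an_LOC
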