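import Mathlib
import Pool.Agent.Lib.MP_ae5b4e_an_NC.WB
import Pool.Agent.Lib.MP_ae5b4e_an_LOC.LT0

/-!
# MP_ae5b4e_an, project LOC: analytic extension of functions with decaying coefficients
-/

noncomputable section

namespace Pool.Agent.MP_ae5b4e_an_LOC

open Real Set Filter Topology MeasureTheory
open Pool.Agent.MP_ae5b4e_an_RG Pool.Agent.MP_ae5b4e_an_NC

private lemma ext_norm (k : ℤ) (z : ℂ) :
    ‖Complex.exp (2 * π * Complex.I * k * z)‖ = Real.exp (-(2 * π * k * z.im)) := by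
  rw [Complex.norm_exp]
  congr 1
  simp [Complex.mul_re, Complex.mul_im]

private lemma ext_conj (R : ℝ → ℝ) (k : ℤ) : rc R (-k) = (starRingEnd ℂ) (rc R k) := by
  unfold rc fc
  rw [← intervalIntegral.intervalIntegral_conj]
  congr 1
  funext x
  rw [map_mul, Complex.conj_ofReal]
  congr 1
  unfold e
  rw [← Complex.exp_conj]
  congr 1
  simp only [map_mul, Complex.conj_ofReal, Complex.conj_I, map_ofNat, map_intCast]
  push_cast
  ring

/-- Analytic extension to the strip `|Im z| < ρ / (2 π)`. -/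
theorem wr_ext {ρ M : ℝ} {b : ℕ} {f : ℝ → ℝ} (hρ : 0 ≤ ρ) (hb : 2 ≤ b) (h : WR ρ b M f) :
    ∃ g : ℂ → ℂ, AnalyticOnNhd ℂ g (Sp (ρ / (2 * π))) ∧ (∀ x : ℝ, g x = f x) ∧
      (∀ z ∈ Sp (ρ / (2 * π)), g (z + 1) = g z) ∧
      (∀ z ∈ Sp (ρ / (2 * π)), g ((starRingEnd ℂ) z) = (starRingEnd ℂ) (g z)) := by
  have hpi := Real.pi_pos
  have hM : 0 ≤ M := h.nonneg
  set F : ℤ → ℂ → ℂ := fun k z => rc f k * Complex.exp (2 * π * Complex.I * k * z) with hF
  set u : ℤ → ℝ := fun k => M / (1 + |(k:ℝ)|) ^ b with hu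
  have hus : Summable u := by
    have h1 : Summable fun k : ℤ => M * (1 / V 0 0 2 k) :=
      (summable_V2 (ρ := 0) (N := 0) le_rfl).mul_left M
    refine Summable.of_nonneg_of_le (fun k => by positivity) (fun k => ?_) h1
    simp only [hu]
    rw [mul_one_div]
    refine div_le_div_of_nonneg_left hM (V_pos 0 0 2 k) ?_
    unfold V MP_ae5b4e_an_RG.w
    rw [zero_mul, Real.exp_zero, mul_one]
    have hk : 0 ≤ |(k:ℝ)| := abs_nonneg _
    exact pow_le_pow_right₀ (by linarith) hb
  have hFle : ∀ k z, z ∈ Sp (ρ / (2 * π)) → ‖F k z‖ ≤ u k := by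
    intro k z hz
    rw [mem_Sp] at hz
    simp only [hF, hu]
    rw [norm_mul, ext_norm]
    have h1 := h.rc_le hρ hb k
    have h2 : -(2 * π * k * z.im) ≤ ρ * |(k:ℝ)| := by
      calc -(2 * π * k * z.im) ≤ |(2 * π * k * z.im)| := neg_le_abs _
        _ = 2 * π * |z.im| * |(k:ℝ)| := by
          rw [abs_mul, abs_mul, abs_mul, abs_of_pos hpi, abs_of_pos (by norm_num : (0:ℝ) < 2)]
          ring
        _ ≤ ρ * |(k:ℝ)| := by
          refine mul_le_mul_of_nonneg_right ?_ (abs_nonneg _)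
          rw [lt_div_iff₀ (by positivity)] at hz
          linarith
    calc ‖rc f k‖ * Real.exp (-(2 * π * k * z.im))
        ≤ (M / ((1 + |(k:ℝ)|) ^ b * Real.exp (ρ * |(k:ℝ)|))) * Real.exp (ρ * |(k:ℝ)|) :=
          mul_le_mul h1 (Real.exp_le_exp.2 h2) (Real.exp_pos _).le (by positivity)
      _ = M / (1 + |(k:ℝ)|) ^ b := by
          have := (Real.exp_pos (ρ * |(k:ℝ)|)).ne'
          field_simp
  have hsum : ∀ z ∈ Sp (ρ / (2 * π)), Summable fun k => F k z := fun z hz =>
    Summable.of_norm_bounded hus fun k => hFle k z hz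
  refine ⟨fun z => ∑' k, F k z, ?_, ?_, ?_, ?_⟩
  · refine DifferentiableOn.analyticOnNhd ?_ (isOpen_Sp _)
    refine Complex.differentiableOn_tsum_of_summable_norm hus (fun k => ?_) (isOpen_Sp _) hFle
    exact (((differentiable_id.const_mul _).cexp).const_mul _).differentiableOn
  · intro x
    exact (h.hasSum_rc hρ hb x).tsum_eq
  · intro z _
    refine tsum_congr fun k => ?_
    simp only [hF]
    congr 1
    have h1 : 2 * π * Complex.I * k * (z + 1) = 2 * π * Complex.I * k * z +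
        k * (2 * π * Complex.I) := by ring
    rw [h1, Complex.exp_add, Complex.exp_int_mul_two_pi_mul_I, mul_one]
  · intro z hz
    have h1 : (starRingEnd ℂ) (∑' k, F k z) = ∑' k, (starRingEnd ℂ) (F k z) :=
      Complex.conj_tsum _
    simp only
    rw [h1]
    rw [← (Equiv.neg ℤ).tsum_eq fun k => (starRingEnd ℂ) (F k z)]
    refine tsum_congr fun k => ?_
    simp only [hF, Equiv.neg_apply]
    rw [map_mul, ext_conj, Complex.conj_conj, ← Complex.exp_conj]
    congr 2
    simp only [map_mul, Complex.conj_ofReal, Complex.conj_I, map_ofNat, map_intCast]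
    push_cast
    ring

end Pool.Agent.MP_ae5b4e_an_LOC
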