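import Pool.Agent.Lib.MP_ae5b4e_an_LOC.Inv

/-!
# LOC, [ORB]: from the orbit sums of the polygons to the laws (L)

`ph` is the time map of the leaf with rotation number `p / q` on the real axis, `F` the map of the
polygon.  If the sums `∑ v (F^[j] t) g (F^[j] t)` vanish, where `v ph' = cc`, then the integrals of
`g x exp (-2 π i m ph x)` vanish for all multiples `m` of `q`.
-/

set_option autoImplicit false

namespace Pool.Agent.MP_ae5b4e_an_LOC

open Set Metric Complex ComplexConjugate Filter Topology MeasureTheory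

/-- a continuous function of period one with vanishing sums over the arithmetic progressions of
difference `p / q` has vanishing Fourier coefficients at the multiples of `q` -/
private theorem Orb_fourier {H : ℝ → ℂ} (hH : Continuous H) (hper : ∀ x, H (x + 1) = H x)
    {p q : ℕ} (hq : 0 < q) (hsum : ∀ x, ∑ j ∈ Finset.range q, H (x + j * (p / q)) = 0)
    {m : ℤ} (hm : (q : ℤ) ∣ m) :
    ∫ x in (0:ℝ)..1, H x * exp (-(2 * Real.pi * I * m * x)) = 0 := by
  obtain ⟨l, rfl⟩ := hm
  have hqR : (q : ℝ) ≠ 0 := Nat.cast_ne_zero.2 hq.ne'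
  have hqC : (q : ℂ) ≠ 0 := Nat.cast_ne_zero.2 hq.ne'
  set E : ℝ → ℂ := fun x => H x * exp (-(2 * Real.pi * I * ((q : ℤ) * l : ℤ) * x)) with hE
  have hEc : Continuous E := by
    apply hH.mul
    fun_prop
  have hexp : ∀ (x : ℝ) (n : ℤ) (s : ℝ), (((q : ℤ) * l : ℤ) : ℝ) * s = n →
      exp (-(2 * Real.pi * I * ((q : ℤ) * l : ℤ) * ((x + s : ℝ) : ℂ))) =
        exp (-(2 * Real.pi * I * ((q : ℤ) * l : ℤ) * (x : ℂ))) := by
    intro x n s hs
    have h1 : ((((q : ℤ) * l : ℤ)) : ℂ) * (s : ℂ) = (n : ℂ) := by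
      have h2 := congrArg (fun r : ℝ => (r : ℂ)) hs
      push_cast at h2 ⊢
      exact h2
    have h3 : -(2 * Real.pi * I * ((q : ℤ) * l : ℤ) * ((x + s : ℝ) : ℂ)) =
        -(2 * Real.pi * I * ((q : ℤ) * l : ℤ) * (x : ℂ)) + ((-n : ℤ) : ℂ) * (2 * Real.pi * I) := by
      push_cast at h1 ⊢
      linear_combination (-(2 * Real.pi * I)) * h1
    rw [h3, Complex.exp_add, Complex.exp_int_mul_two_pi_mul_I, mul_one]
  have hEper : Function.Periodic E 1 := by
    intro x
    simp only [hE]
    rw [hper, hexp x ((q : ℤ) * l) 1 (by push_cast; ring)]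
  have hj : ∀ j : ℕ, ∫ x in (0:ℝ)..1, H (x + j * (p / q)) *
      exp (-(2 * Real.pi * I * ((q : ℤ) * l : ℤ) * x)) = ∫ x in (0:ℝ)..1, E x := by
    intro j
    have h1 : ∀ x : ℝ, H (x + j * (p / q)) * exp (-(2 * Real.pi * I * ((q : ℤ) * l : ℤ) * x)) =
        E (x + j * (p / q)) := by
      intro x
      simp only [hE]
      rw [hexp x (l * j * p) (j * (p / q)) (by
        push_cast
        field_simp)]
    simp only [h1]
    rw [intervalIntegral.integral_comp_add_right (fun x => E x)]
    have h2 := hEper.intervalIntegral_add_eq (j * (p / q)) 0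
    rw [zero_add] at h2
    rw [zero_add, add_comm (1 : ℝ)]
    exact h2
  have hsum' : ∑ j ∈ Finset.range q, ∫ x in (0:ℝ)..1, H (x + j * (p / q)) *
      exp (-(2 * Real.pi * I * ((q : ℤ) * l : ℤ) * x)) = 0 := by
    rw [← intervalIntegral.integral_finsetSum]
    · have h1 : ∀ x : ℝ, ∑ j ∈ Finset.range q, H (x + j * (p / q)) *
          exp (-(2 * Real.pi * I * ((q : ℤ) * l : ℤ) * x)) = 0 := by
        intro x
        rw [← Finset.sum_mul, hsum x, zero_mul]
      simp only [h1, intervalIntegral.integral_zero]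
    · intro j _
      apply Continuous.intervalIntegrable
      have h1 : Continuous fun x : ℝ => H (x + j * (p / q)) :=
        hH.comp (continuous_id.add continuous_const)
      apply h1.mul
      fun_prop
  simp only [hj, Finset.sum_const, Finset.card_range, nsmul_eq_mul] at hsum'
  exact (mul_eq_zero.1 hsum').resolve_left hqC

/-- from the orbit sums to the law (L), real form -/
theorem orb {ph ph' v F : ℝ → ℝ} {g : ℝ → ℂ} {p q : ℕ} {cc : ℝ} (hq : 0 < q)
    (hd : ∀ x, HasDerivAt ph (ph' x) x) (hc : Continuous ph') (hpos : ∀ x, 0 < ph' x)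
    (hper : ∀ x, ph (x + 1) = ph x + 1) (hF : ∀ y, ph (F y) = ph y + p / q)
    (hv : ∀ y, v y * ph' y = cc) (hcc : cc ≠ 0) (hg : Continuous g) (hgp : ∀ x, g (x + 1) = g x)
    (law : ∀ t, ∑ j ∈ Finset.range q, (v (F^[j] t) : ℂ) * g (F^[j] t) = 0) {m : ℤ}
    (hm : (q : ℤ) ∣ m) :
    ∫ x in (0:ℝ)..1, g x * exp (-(2 * Real.pi * I * m * (ph x : ℂ))) = 0 := by
  have hphc : Continuous ph := continuous_iff_continuousAt.2 fun x => (hd x).continuousAt
  have hmono : StrictMono ph := by
    apply strictMono_of_deriv_pos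
    intro x
    rw [(hd x).deriv]
    exact hpos x
  have hpern : ∀ (n : ℕ) (x : ℝ), ph (x + n) = ph x + n ∧ ph (x - n) = ph x - n := by
    intro n
    induction n with
    | zero =>
      intro x
      simp
    | succ n ih =>
      intro x
      constructor
      · have h1 := hper (x + n)
        rw [(ih x).1] at h1
        push_cast
        rw [← add_assoc, h1, add_assoc]
      · have h1 := hper (x - (n + 1))
        have h2 : x - (n + 1) + 1 = x - (n : ℝ) := by ring
        rw [h2, (ih x).2] at h1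
        push_cast
        linarith
  have hsurj : Function.Surjective ph := by
    intro y
    have h1 : ∃ n : ℕ, |y - ph 0| ≤ n := exists_nat_ge _
    obtain ⟨n, hn⟩ := h1
    rw [abs_le] at hn
    have h2 := (hpern n 0).1
    have h3 := (hpern n 0).2
    have h4 : y ∈ Icc (ph (0 - n)) (ph (0 + n)) := by
      rw [h2, h3]
      exact ⟨by linarith [hn.1], by linarith [hn.2]⟩
    obtain ⟨x, _, hx⟩ := intermediate_value_Icc (a := (0 : ℝ) - n) (b := 0 + n) (by
      have : (0 : ℝ) ≤ n := Nat.cast_nonneg n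
      linarith) hphc.continuousOn h4
    exact ⟨x, hx⟩
  let e : ℝ ≃o ℝ := hmono.orderIsoOfSurjective ph hsurj
  have he : ∀ x, e x = ph x := fun x => rfl
  let X : ℝ → ℝ := e.symm
  have hXc : Continuous X := e.symm.continuous
  have hX1 : ∀ x, X (ph x) = x := fun x => e.symm_apply_apply x
  have hX2 : ∀ y, ph (X y) = y := fun y => e.apply_symm_apply y
  have hXper : ∀ y, X (y + 1) = X y + 1 := by
    intro y
    apply hmono.injective
    rw [hX2, hper, hX2]
  let H : ℝ → ℂ := fun y => g (X y) / (ph' (X y) : ℂ)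
  have hne : ∀ x, ph' x ≠ 0 := fun x => (hpos x).ne'
  have hneC : ∀ x, (ph' x : ℂ) ≠ 0 := fun x => Complex.ofReal_ne_zero.2 (hne x)
  have hHc : Continuous H := by
    apply (hg.comp hXc).div
    · exact Complex.continuous_ofReal.comp (hc.comp hXc)
    · intro y
      exact hneC _
  have hph'per : ∀ x, ph' (x + 1) = ph' x := by
    intro x
    have h1 : HasDerivAt (fun y => ph (y + 1)) (ph' (x + 1)) x := by
      simpa using (hd (x + 1)).comp_add_const x 1
    have h2 : HasDerivAt (fun y => ph y + 1) (ph' x) x := (hd x).add_const 1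
    have h3 : (fun y => ph (y + 1)) = fun y => ph y + 1 := funext hper
    rw [h3] at h1
    exact h1.unique h2
  have hHper : ∀ y, H (y + 1) = H y := by
    intro y
    simp only [H]
    rw [hXper, hgp, hph'per]
  have hiter : ∀ (j : ℕ) (t : ℝ), ph (F^[j] t) = ph t + j * (p / q) := by
    intro j t
    induction j with
    | zero => simp
    | succ j ih =>
      rw [Function.iterate_succ_apply', hF, ih]
      push_cast
      ring
  have hHsum : ∀ y, ∑ j ∈ Finset.range q, H (y + j * (p / q)) = 0 := by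
    intro y
    have h1 := law (X y)
    have h2 : ∀ j : ℕ, (v (F^[j] (X y)) : ℂ) * g (F^[j] (X y)) =
        (cc : ℂ) * H (y + j * (p / q)) := by
      intro j
      have h3 : X (y + j * (p / q)) = F^[j] (X y) := by
        apply hmono.injective
        rw [hX2, hiter, hX2]
      simp only [H]
      rw [h3]
      have h4 : (v (F^[j] (X y)) : ℂ) * (ph' (F^[j] (X y)) : ℂ) = (cc : ℂ) := by
        rw [← Complex.ofReal_mul, hv]
      rw [← h4]
      field_simp [hneC]
    simp only [h2] at h1
    rw [← Finset.mul_sum] at h1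
    exact (mul_eq_zero.1 h1).resolve_left (Complex.ofReal_ne_zero.2 hcc)
  -- substitution
  have hsub : ∫ x in (0:ℝ)..1, g x * exp (-(2 * Real.pi * I * m * (ph x : ℂ))) =
      ∫ y in ph 0..ph 1, H y * exp (-(2 * Real.pi * I * m * (y : ℂ))) := by
    have h1 := intervalIntegral.integral_deriv_smul_comp' (a := (0 : ℝ)) (b := 1) (f := ph)
      (f' := ph') (g := fun y : ℝ => H y * exp (-(2 * Real.pi * I * m * (y : ℂ))))
      (fun x _ => hd x) hc.continuousOn (by
        apply Continuous.continuousOn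
        apply hHc.mul
        fun_prop)
    rw [← h1]
    refine intervalIntegral.integral_congr fun x _ => ?_
    simp only [Function.comp_apply, H, hX1, Complex.real_smul]
    field_simp [hneC]
  rw [hsub]
  have h1 : ph 1 = ph 0 + 1 := by
    have := hper 0
    rwa [zero_add] at this
  rw [h1]
  have hper' : Function.Periodic (fun y : ℝ => H y * exp (-(2 * Real.pi * I * m * (y : ℂ)))) 1 := by
    intro y
    simp only
    rw [hHper]
    have h3 : -(2 * Real.pi * I * m * ((y + 1 : ℝ) : ℂ)) =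
        -(2 * Real.pi * I * m * (y : ℂ)) + ((-m : ℤ) : ℂ) * (2 * Real.pi * I) := by
      push_cast
      ring
    rw [h3, Complex.exp_add, Complex.exp_int_mul_two_pi_mul_I, mul_one]
  have h2 := hper'.intervalIntegral_add_eq (ph 0) 0
  rw [zero_add] at h2
  rw [h2]
  exact Orb_fourier hHc hHper hq hHsum hm

namespace Bg

variable (B : Bg)

theorem real_dom {om : ℂ} (hom : ‖om‖ < B.r) (x : ℝ) : |(x : ℂ).im| < B.h - B.K * ‖om‖ := by
  rw [Complex.ofReal_im, abs_zero, sub_pos]
  have h3 := B.K_r_le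
  have h4 := B.rho_le_h
  have h5 := B.one_le_K
  have h6 : B.K * ‖om‖ ≤ B.K * B.r := mul_le_mul_of_nonneg_left hom.le (zero_le_one.trans h5)
  have h7 := B.rho_pos
  have h8 : 0 < B.K * B.r := mul_pos (by linarith) B.r_pos
  linarith

/-- the time map is real for real arguments -/
theorem ph_real {om : ℝ} (hom : |om| < B.r) (x : ℝ) : ((B.ph om x).re : ℂ) = B.ph om x := by
  have h1 : ‖(om : ℂ)‖ < B.r := by rwa [Complex.norm_real]
  have h2 := B.ph_conj om x h1 (B.real_dom h1 x)
  rw [Complex.conj_ofReal, Complex.conj_ofReal] at h2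
  exact Complex.conj_eq_iff_re.1 h2.symm

theorem ph_real_hasDerivAt {om : ℝ} (hom : |om| < B.r) (x : ℝ) :
    HasDerivAt (fun y : ℝ => (B.ph om y).re) (deriv (B.ph om) x).re x := by
  have h1 : ‖(om : ℂ)‖ < B.r := by rwa [Complex.norm_real]
  exact (B.ph_diffAt om x h1 (B.real_dom h1 x)).hasDerivAt.real_of_complex

theorem deriv_ph_real {om : ℝ} (hom : |om| < B.r) (x : ℝ) :
    ((deriv (B.ph om) x).re : ℂ) = deriv (B.ph om) x := by
  have h1 : ‖(om : ℂ)‖ < B.r := by rwa [Complex.norm_real]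
  have h2 := (B.ph_diffAt om x h1 (B.real_dom h1 x)).hasDerivAt
  have h3 : HasDerivAt (fun y : ℝ => B.ph om y) (deriv (B.ph om) x) x := h2.comp_ofReal
  have h4 : HasDerivAt (fun y : ℝ => ((B.ph om y).re : ℂ)) (((deriv (B.ph om) x).re : ℝ) : ℂ) x :=
    (B.ph_real_hasDerivAt hom x).ofReal_comp
  have h5 : (fun y : ℝ => ((B.ph om y).re : ℂ)) = fun y : ℝ => B.ph om y :=
    funext fun y => B.ph_real hom y
  rw [h5] at h4
  exact h4.unique h3

theorem deriv_ph_re_pos {om : ℝ} (hom : |om| < B.r) (x : ℝ) : 0 < (deriv (B.ph om) x).re := by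
  have h1 : ‖(om : ℂ)‖ < B.r := by rwa [Complex.norm_real]
  have h2 := B.ph_der om x h1 (B.real_dom h1 x)
  have h3 := (Complex.abs_re_le_norm _).trans h2
  rw [Complex.sub_re, Complex.one_re, abs_le] at h3
  linarith [h3.1]

theorem deriv_ph_cont {om : ℝ} (hom : |om| < B.r) :
    Continuous fun x : ℝ => (deriv (B.ph om) x).re := by
  have h1 : ‖(om : ℂ)‖ < B.r := by rwa [Complex.norm_real]
  rw [continuous_iff_continuousAt]
  intro x
  have h2 : AnalyticAt ℂ (B.ph om) x := by
    have h3 := B.ph_an om x h1 (B.real_dom h1 x)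
    have h4 : AnalyticAt ℂ (fun z : ℂ => ((om, z) : ℂ × ℂ)) x :=
      analyticAt_const.prod analyticAt_id
    exact AnalyticAt.comp (g := fun p : ℂ × ℂ => B.ph p.1 p.2) (f := fun z : ℂ => ((om, z) : ℂ × ℂ))
      (x := (x : ℂ)) h3 h4
  have h5 : ContinuousAt (fun y : ℝ => deriv (B.ph om) y) x :=
    ContinuousAt.comp (f := fun y : ℝ => (y : ℂ)) (g := deriv (B.ph om)) (x := x)
      h2.deriv.continuousAt Complex.continuous_ofReal.continuousAt
  exact Complex.continuous_re.continuousAt.comp h5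

/-- from the orbit sums to the law (L) for the time map of a pencil -/
theorem orb {v F : ℝ → ℝ} {g : ℝ → ℂ} {p q : ℕ} {cc : ℝ} (hq : 0 < q)
    (hom : (p : ℝ) / q < B.r)
    (hF : ∀ y : ℝ, B.ph ((p : ℂ) / q) (F y) = B.ph ((p : ℂ) / q) y + (p : ℂ) / q)
    (hv : ∀ y : ℝ, v y * (deriv (B.ph ((p : ℂ) / q)) y).re = cc) (hcc : cc ≠ 0)
    (hg : Continuous g) (hgp : ∀ x, g (x + 1) = g x)
    (law : ∀ t, ∑ j ∈ Finset.range q, (v (F^[j] t) : ℂ) * g (F^[j] t) = 0) {m : ℤ}
    (hm : (q : ℤ) ∣ m) :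
    ∫ x in (0:ℝ)..1, g x * exp (-(2 * Real.pi * I * m * B.ph ((p : ℂ) / q) x)) = 0 := by
  have hom' : |((p : ℝ) / q)| < B.r := by
    rw [abs_of_nonneg (by positivity)]
    exact hom
  have hcast : ((p : ℂ) / q) = (((p : ℝ) / q : ℝ) : ℂ) := by push_cast; ring
  simp only [hcast] at hF hv ⊢
  have h1 := Pool.Agent.MP_ae5b4e_an_LOC.orb (ph := fun y : ℝ => (B.ph ((p : ℝ) / q : ℝ) y).re)
    (ph' := fun y : ℝ => (deriv (B.ph ((p : ℝ) / q : ℝ)) y).re) (v := v) (F := F) (g := g) (p := p)
    (q := q) (cc := cc) hq (B.ph_real_hasDerivAt hom') (B.deriv_ph_cont hom')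
    (B.deriv_ph_re_pos hom') (fun x => by
      have h2 := B.ph_one ((p : ℝ) / q : ℝ) x (by rwa [Complex.norm_real]) (B.real_dom (by
        rwa [Complex.norm_real]) x)
      have h3 := congrArg Complex.re h2
      push_cast at h3 ⊢
      simpa using h3) (fun y => by
      have h3 := congrArg Complex.re (hF y)
      rw [Complex.add_re, Complex.ofReal_re] at h3
      exact h3) hv hcc hg hgp law hm
  simp only [B.ph_real hom'] at h1
  exact h1

end Bg

end Pool.Agent.MP_ae5b4e_an_LOC
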