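import Mathlib
import Pool.Agent.Lib.MP_ae5b4e_an_LOC.Lin3
import Pool.Agent.Lib.MP_ae5b4e_an_LOC.ORB
import Pool.Agent.Lib.MP_ae5b4e_an_LOC.Cnv
import Pool.Agent.Lib.MP_ae5b4e_an_LOC.Ext
import Pool.Agent.Lib.MP_ae5b4e_an_LOC.LTS
import Pool.Agent.Lib.MP_ae5b4e_an_LOC.Cmp

/-!
# LOC: the linear input of the closing theorem

From the linear theorem (LT-20, `LIN'Stmt`) to the hypothesis `lin` of `closing`: the laws at all
polygons and the orthogonality to the twelve kernel elements imply that everything vanishes.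
-/

set_option autoImplicit false

noncomputable section

namespace Pool.Agent.MP_ae5b4e_an_LOC

open Set Complex ComplexConjugate Filter Topology MeasureTheory
open Pool.Agent.MP_ae5b4e_an_NC (WR)

namespace RB

variable {B : Bg} {D : KerD B} (R : RB B D)

/-- the points of a polygon -/
def yj (om t : ℝ) (j : ℕ) : ℝ := (R.F om)^[j] t

/-- the law at a polygon of the background -/
def pL (p q : ℕ) (t : ℝ) (f0 f1 s : ℝ → ℝ) : ℝ :=
  ∑ j ∈ Finset.range q,
    (gA 0 (R.la (R.yj ((p:ℝ) / q) t j)) (R.tau ((p:ℝ) / q) (R.yj ((p:ℝ) / q) t j)) *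
        f0 (R.yj ((p:ℝ) / q) t j) +
      gB 0 (R.la (R.yj ((p:ℝ) / q) t j)) (R.tau ((p:ℝ) / q) (R.yj ((p:ℝ) / q) t j)) *
        f1 (R.yj ((p:ℝ) / q) t j) +
      gS 0 (R.la (R.yj ((p:ℝ) / q) t j)) (R.tau ((p:ℝ) / q) (R.yj ((p:ℝ) / q) t j)) *
        s (R.yj ((p:ℝ) / q) t j))

/-- the constant of a leaf -/
lemma leafM {om : ℝ} (h0 : 0 < om) (h1 : om < B.r) :
    ∃ M : ℝ, M ≠ 0 ∧ (M : ℂ) = B.Lam om / om ^ 2 / (4 * Real.pi ^ 2) ∧
      ∀ x, R.tau om x ^ 2 * (M - R.la x) = 1 := by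
  have hT : ∀ x : ℝ, fQ (fun i => deriv (R.V i) x / (2 * Real.pi)) = (R.la x : ℂ) := fun x =>
    R.laC_real x
  have h2 := fun x : ℝ => R.tau_sq om h0 h1 x
  simp only [hT] at h2
  have h3 : R.tau om 0 ≠ 0 := by
    intro h
    have h4 := h2 0
    rw [h] at h4
    simp at h4
  have h4 : (((1 / R.tau om 0 ^ 2 + R.la 0 : ℝ)) : ℂ) = B.Lam om / om ^ 2 / (4 * Real.pi ^ 2) := by
    have h5 := h2 0
    have h6 : (R.tau om 0 : ℂ) ≠ 0 := by exact_mod_cast h3
    push_cast at h5 ⊢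
    field_simp at h5 ⊢
    linear_combination -h5
  refine ⟨1 / R.tau om 0 ^ 2 + R.la 0, ?_, h4, fun x => ?_⟩
  · intro h
    rw [h] at h4
    have h5 : B.Lam om ≠ 0 := B.Lam_ne om (by
      rw [Metric.mem_ball, dist_zero_right, Complex.norm_real, Real.norm_eq_abs, abs_of_pos h0]
      exact h1)
    have h6 : (om : ℂ) ≠ 0 := by exact_mod_cast h0.ne'
    have h7 : (Real.pi : ℂ) ≠ 0 := by exact_mod_cast Real.pi_ne_zero
    have h8 : B.Lam om / om ^ 2 / (4 * Real.pi ^ 2) ≠ 0 := by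
      refine div_ne_zero (div_ne_zero h5 (pow_ne_zero 2 h6)) ?_
      exact mul_ne_zero (by norm_num) (pow_ne_zero 2 h7)
    rw [← h4] at h8
    simp at h8
  · have h5 := h2 x
    rw [← h4] at h5
    exact_mod_cast h5

/-- the real function of the law, after the conversion -/
def HR (c : Fin 4 → ℝ) (f0 f1 : ℝ → ℝ) (M x : ℝ) : ℝ :=
  (R.la x * f0 x + f1 x + 2 / R.e * (R.g c 1 x * (R.g c 4 x - R.la x * R.g c 2 x +
      R.la x ^ 2 * R.g c 0 x) + (R.g c 2 x - 2 * R.la x * R.g c 0 x) *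
      (R.g c 3 x - R.la x * R.g c 1 x))) +
    M * (f0 x + 2 / R.e * (R.g c 0 x * (R.g c 3 x - R.la x * R.g c 1 x) +
      R.g c 1 x * (R.g c 2 x - 2 * R.la x * R.g c 0 x))) +
    M ^ 2 * (2 / R.e * (R.g c 0 x * R.g c 1 x))

lemma g_line (c : Fin 4 → ℝ) (x s : ℝ) :
    ∑ j, c j * fH j (fun i => R.P x i + s * R.P1 x i) =
      R.g c 0 x + R.g c 1 x * s + R.g c 2 x * s ^ 2 + R.g c 3 x * s ^ 3 + R.g c 4 x * s ^ 4 := by
  unfold g
  simp only [fH_line, Finset.sum_mul, ← Finset.sum_add_distrib]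
  refine Finset.sum_congr rfl fun j _ => ?_
  ring

/-- the law of the square of `G / Q ^ 2` -/
lemma sum_oG (c : Fin 4 → ℝ) {p q : ℕ} (hp : 1 ≤ p) (hq : 1 ≤ q) (hr : (p:ℝ) < B.r * q) {M : ℝ}
    (hM : M ≠ 0) (hτ : ∀ x, R.tau ((p:ℝ) / q) x ^ 2 * (M - R.la x) = 1) (t : ℝ) :
    ∑ j ∈ Finset.range q, oG (R.la (R.yj ((p:ℝ) / q) t j)) (R.g c 0 (R.yj ((p:ℝ) / q) t j))
      (R.g c 1 (R.yj ((p:ℝ) / q) t j)) (R.g c 2 (R.yj ((p:ℝ) / q) t j))
      (R.g c 3 (R.yj ((p:ℝ) / q) t j)) (R.g c 4 (R.yj ((p:ℝ) / q) t j))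
      (R.tau ((p:ℝ) / q) (R.yj ((p:ℝ) / q) t j)) = 0 := by
  set Ψ : (Fin 3 → ℝ) → ℝ := fun v => ((∑ j, c j * fH j v) / fQ v ^ 2) ^ 2 with hΨ
  have hom : ∀ (v : Fin 3 → ℝ) (s : ℝ), s ≠ 0 → Ψ (fun i => s * v i) = Ψ v := by
    intro v s hs
    simp only [hΨ]
    have h1 : ∑ j, c j * fH j (fun i => s * v i) = s ^ 4 * ∑ j, c j * fH j v := by
      rw [Finset.mul_sum]
      refine Finset.sum_congr rfl fun j _ => ?_
      simp only [fH, fR]
      ring
    have h2 : fQ (fun i => s * v i) ^ 2 = s ^ 4 * fQ v ^ 2 := by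
      simp only [fQ]
      ring
    rw [h1, h2, mul_div_mul_left _ _ (pow_ne_zero 4 hs)]
  have h1 := R.law p q hp hq hr Ψ hom t
  have h2 : ∀ j ∈ Finset.range q,
      (Ψ (fun i => (R.V i ((R.F ((p:ℝ) / q))^[j] t : ℝ)).re +
          R.tau ((p:ℝ) / q) ((R.F ((p:ℝ) / q))^[j] t) *
            (deriv (R.V i) ((R.F ((p:ℝ) / q))^[j] t : ℝ) / (2 * Real.pi)).re) -
        Ψ (fun i => (R.V i ((R.F ((p:ℝ) / q))^[j] t : ℝ)).re -
          R.tau ((p:ℝ) / q) ((R.F ((p:ℝ) / q))^[j] t) *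
            (deriv (R.V i) ((R.F ((p:ℝ) / q))^[j] t : ℝ) / (2 * Real.pi)).re)) =
      4 * oG (R.la (R.yj ((p:ℝ) / q) t j)) (R.g c 0 (R.yj ((p:ℝ) / q) t j))
        (R.g c 1 (R.yj ((p:ℝ) / q) t j)) (R.g c 2 (R.yj ((p:ℝ) / q) t j))
        (R.g c 3 (R.yj ((p:ℝ) / q) t j)) (R.g c 4 (R.yj ((p:ℝ) / q) t j))
        (R.tau ((p:ℝ) / q) (R.yj ((p:ℝ) / q) t j)) := by
    intro j _
    set y := R.yj ((p:ℝ) / q) t j with hy
    have h3 : (R.F ((p:ℝ) / q))^[j] t = y := rfl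
    rw [h3]
    set τ := R.tau ((p:ℝ) / q) y with hτy
    have hD : 1 + R.la y * τ ^ 2 ≠ 0 := by
      have h4 := hτ y
      have h5 : 1 + R.la y * τ ^ 2 = M * τ ^ 2 := by linear_combination -h4
      rw [h5]
      refine mul_ne_zero hM (pow_ne_zero 2 ?_)
      intro h6
      rw [← hτy, h6] at h4
      simp at h4
    have e1 : (fun i => (R.V i y).re + τ * (deriv (R.V i) y / (2 * Real.pi)).re) =
        fun i => R.P y i + τ * R.P1 y i := rfl
    have e2 : (fun i => (R.V i y).re - τ * (deriv (R.V i) y / (2 * Real.pi)).re) =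
        fun i => R.P y i + (-τ) * R.P1 y i := by
      funext i
      unfold P P1
      ring
    rw [e1, e2, oG_eq hD]
    simp only [hΨ, R.g_line, R.Q_line]
    ring
  rw [Finset.sum_congr rfl h2, ← Finset.mul_sum] at h1
  exact (mul_eq_zero.1 h1).resolve_left (by norm_num)

/-- the converted law at the polygons -/
lemma sum_HR (c : Fin 4 → ℝ) (f0 f1 : ℝ → ℝ) {p q : ℕ} (hp : 1 ≤ p) (hq : 1 ≤ q)
    (hr : (p:ℝ) < B.r * q) {M : ℝ} (hM : M ≠ 0)
    (hτ : ∀ x, R.tau ((p:ℝ) / q) x ^ 2 * (M - R.la x) = 1) (t : ℝ)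
    (hl : R.pL p q t f0 f1 (R.S c) = 0) :
    ∑ j ∈ Finset.range q, (1 / R.tau ((p:ℝ) / q) (R.yj ((p:ℝ) / q) t j)) *
      R.HR c f0 f1 M (R.yj ((p:ℝ) / q) t j) = 0 := by
  have he := R.e_pos.ne'
  have h1 := R.sum_oG c hp hq hr hM hτ t
  have h2 : ∀ j ∈ Finset.range q, (1 / R.tau ((p:ℝ) / q) (R.yj ((p:ℝ) / q) t j)) *
      R.HR c f0 f1 M (R.yj ((p:ℝ) / q) t j) =
      M * (M * (gA 0 (R.la (R.yj ((p:ℝ) / q) t j)) (R.tau ((p:ℝ) / q) (R.yj ((p:ℝ) / q) t j)) *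
        f0 (R.yj ((p:ℝ) / q) t j) +
      gB 0 (R.la (R.yj ((p:ℝ) / q) t j)) (R.tau ((p:ℝ) / q) (R.yj ((p:ℝ) / q) t j)) *
        f1 (R.yj ((p:ℝ) / q) t j) +
      gS 0 (R.la (R.yj ((p:ℝ) / q) t j)) (R.tau ((p:ℝ) / q) (R.yj ((p:ℝ) / q) t j)) *
        R.S c (R.yj ((p:ℝ) / q) t j))) +
      M * (2 / R.e * M ^ 2 * oG (R.la (R.yj ((p:ℝ) / q) t j)) (R.g c 0 (R.yj ((p:ℝ) / q) t j))
        (R.g c 1 (R.yj ((p:ℝ) / q) t j)) (R.g c 2 (R.yj ((p:ℝ) / q) t j))
        (R.g c 3 (R.yj ((p:ℝ) / q) t j)) (R.g c 4 (R.yj ((p:ℝ) / q) t j))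
        (R.tau ((p:ℝ) / q) (R.yj ((p:ℝ) / q) t j))) := by
    intro j _
    set y := R.yj ((p:ℝ) / q) t j with hy
    have h4 := hτ y
    set τ := R.tau ((p:ℝ) / q) y with hτy
    have hτ0 : τ ≠ 0 := by
      intro h6
      rw [h6] at h4
      simp at h4
    have h5 : 1 + R.la y * τ ^ 2 = M * τ ^ 2 := by linear_combination -h4
    have hD : 1 + R.la y * τ ^ 2 ≠ 0 := by
      rw [h5]
      exact mul_ne_zero hM (pow_ne_zero 2 hτ0)
    have hμ : 1 / M = τ ^ 2 / (1 + R.la y * τ ^ 2) := by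
      rw [h5]
      field_simp
    have h6 := conversion he hτ0 hD hμ (f0 y) (f1 y) (R.g c 0 y) (R.g c 1 y) (R.g c 2 y)
      (R.g c 3 y) (R.g c 4 y)
    have h7 : τ / (1 + R.la y * τ ^ 2) = 1 / (M * τ) := by
      rw [h5]
      field_simp
    rw [h7] at h6
    have h8 : (1 / τ) * R.HR c f0 f1 M y = M * (1 / (M * τ) * R.HR c f0 f1 M y) := by
      field_simp
    rw [h8]
    have h9 : 1 / (M * τ) * R.HR c f0 f1 M y =
        (gA 0 (R.la y) τ * f0 y + gB 0 (R.la y) τ * f1 y + gS 0 (R.la y) τ * R.S c y) / (1 / M) +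
        2 / R.e * oG (R.la y) (R.g c 0 y) (R.g c 1 y) (R.g c 2 y) (R.g c 3 y) (R.g c 4 y) τ /
          (1 / M) ^ 2 := by
      unfold S
      rw [h6]
      unfold HR
      congr 1
      rw [one_div_one_div]
    rw [h9]
    field_simp
  rw [Finset.sum_congr rfl h2, Finset.sum_add_distrib, ← Finset.mul_sum, ← Finset.mul_sum,
    ← Finset.mul_sum, ← Finset.mul_sum, h1]
  unfold pL at hl
  rw [hl]
  ring

/-- the complexified functions of the law -/
def c0 (F0 F1 : ℂ → ℂ) (c : Fin 4 → ℝ) (x : ℂ) : ℂ :=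
  R.laC x * F0 x + F1 x + 2 / R.e * (R.gC c 1 x * (R.gC c 4 x - R.laC x * R.gC c 2 x +
      R.laC x ^ 2 * R.gC c 0 x) + (R.gC c 2 x - 2 * R.laC x * R.gC c 0 x) *
      (R.gC c 3 x - R.laC x * R.gC c 1 x))

def c1 (F0 : ℂ → ℂ) (c : Fin 4 → ℝ) (x : ℂ) : ℂ :=
  1 / (4 * Real.pi ^ 2) * (F0 x + 2 / R.e * (R.gC c 0 x * (R.gC c 3 x - R.laC x * R.gC c 1 x) +
      R.gC c 1 x * (R.gC c 2 x - 2 * R.laC x * R.gC c 0 x)))

lemma an_c0 {t : ℝ} (ht : t ≤ B.h) {F0 F1 : ℂ → ℂ} (h0 : AnalyticOnNhd ℂ F0 (Sp t))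
    (h1 : AnalyticOnNhd ℂ F1 (Sp t)) (c : Fin 4 → ℝ) : AnalyticOnNhd ℂ (R.c0 F0 F1 c) (Sp t) := by
  intro x hx
  have hx' := Sp_mono ht hx
  have l := R.an_laC x hx'
  have g := fun k => R.an_gC c k x hx'
  exact ((l.mul (h0 x hx)).add (h1 x hx)).add (analyticAt_const.mul
    (((g 1).mul (((g 4).sub (l.mul (g 2))).add ((l.pow 2).mul (g 0)))).add
      (((g 2).sub ((analyticAt_const.mul l).mul (g 0))).mul ((g 3).sub (l.mul (g 1))))))

lemma an_c1 {t : ℝ} (ht : t ≤ B.h) {F0 : ℂ → ℂ} (h0 : AnalyticOnNhd ℂ F0 (Sp t))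
    (c : Fin 4 → ℝ) : AnalyticOnNhd ℂ (R.c1 F0 c) (Sp t) := by
  intro x hx
  have hx' := Sp_mono ht hx
  have l := R.an_laC x hx'
  have g := fun k => R.an_gC c k x hx'
  exact analyticAt_const.mul ((h0 x hx).add (analyticAt_const.mul
    (((g 0).mul ((g 3).sub (l.mul (g 1)))).add
      ((g 1).mul ((g 2).sub ((analyticAt_const.mul l).mul (g 0)))))))

/-- the sum of the `C j` -/
lemma sumC {x : ℂ} (hx : x ∈ Sp B.h) (c : Fin 4 → ℝ) :
    ∑ j, (c j : ℂ) * D.C j x = -(1 / 2) * R.gC c 0 x := by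
  unfold gC
  rw [Finset.mul_sum]
  refine Finset.sum_congr rfl fun j _ => ?_
  rw [R.kerC j x hx]
  simp only [fH, fR, cH, cU, cR, Matrix.cons_val_zero]
  ring

lemma hasDerivAt_C (j : Fin 4) {x : ℂ} (hx : x ∈ Sp B.h) :
    HasDerivAt (D.C j) (-Real.pi * cH j (fun i => R.V i x) (fun i => R.T i x) 1) x := by
  have h1 : D.C j =ᶠ[𝓝 x] fun z => -(1 / 2) * fH j fun i => R.V i z := by
    filter_upwards [(isOpen_Sp B.h).mem_nhds hx] with z hz using R.kerC j z hz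
  have h2 := ((R.hasDerivAt_fH j hx).const_mul (-(1 / 2) : ℂ)).congr_of_eventuallyEq h1
  refine h2.congr_deriv ?_
  ring

lemma hasDerivAt_R (j : Fin 4) {x : ℂ} (hx : x ∈ Sp B.h) :
    HasDerivAt (D.R j) (2 * Real.pi * cR j (fun i => R.V i x) (fun i => R.T i x) 1) x := by
  have h1 : D.R j =ᶠ[𝓝 x] fun z => fR j fun i => R.V i z := by
    filter_upwards [(isOpen_Sp B.h).mem_nhds hx] with z hz using R.kerR j z hz
  exact (R.hasDerivAt_fR j hx).congr_of_eventuallyEq h1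

lemma hasDerivAt_A (j : Fin 4) {x : ℂ} (hx : x ∈ Sp B.h) :
    HasDerivAt (D.A j) (-(4 * Real.pi ^ 3) * (cH j (fun i => R.V i x) (fun i => R.T i x) 3 -
      R.laC x * cH j (fun i => R.V i x) (fun i => R.T i x) 1)) x := R.kerA j x hx

lemma hasDerivAt_sumC (c : Fin 4 → ℝ) {x : ℂ} (hx : x ∈ Sp B.h) :
    HasDerivAt (fun y => ∑ j, (c j : ℂ) * D.C j y) (-Real.pi * R.gC c 1 x) x := by
  have h1 := HasDerivAt.fun_sum (u := Finset.univ) fun j _ =>
    (R.hasDerivAt_C j hx).const_mul (c j : ℂ)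
  refine h1.congr_deriv ?_
  unfold gC
  rw [Finset.mul_sum]
  refine Finset.sum_congr rfl fun j _ => ?_
  ring

end RB

/-- the hypothesis `lin` of the closing theorem -/
theorem lin {B : Bg} {D : KerD B} (R : RB B D) (hLIN : LIN'Stmt B D) {ρ : ℝ} (hρ : 0 < ρ)
    {f0 f1 : ℝ → ℝ} {c : Fin 4 → ℝ} {M0 M1 : ℝ} (w0 : WR ρ 4 M0 f0) (w1 : WR ρ 2 M1 f1)
    (hlaw : ∀ p q : ℕ, 1 ≤ p → 1 ≤ q → Nat.Coprime p q → (p:ℝ) < B.r * q → ∀ t,
      R.pL p q t f0 f1 (R.S c) = 0)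
    (oH : ∀ j, ∫ x in (0:ℝ)..1, ((R.kH j x).1 * f0 x + (R.kH j x).2 * f1 x) = 0)
    (oQ : ∀ j, ∫ x in (0:ℝ)..1, ((R.kQ j x).1 * f0 x + (R.kQ j x).2 * f1 x) = 0)
    (oE : ∀ j, ∫ x in (0:ℝ)..1, ((R.kE j x).1 * f0 x + (R.kE j x).2 * f1 x) = 0) :
    c = 0 ∧ (∀ x, f0 x = 0) ∧ ∀ x, f1 x = 0 := by
  have hpi := Real.pi_pos
  have hpic : (Real.pi : ℂ) ≠ 0 := by exact_mod_cast Real.pi_ne_zero
  have he := R.e_pos
  have hec : (R.e : ℂ) ≠ 0 := by exact_mod_cast he.ne'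
  obtain ⟨F0, aF0, rF0, pF0, sF0⟩ := wr_ext hρ.le (by norm_num) w0
  obtain ⟨F1, aF1, rF1, pF1, sF1⟩ := wr_ext hρ.le le_rfl w1
  set t : ℝ := min (ρ / (2 * Real.pi)) B.h with ht
  have ht0 : 0 < t := lt_min (by positivity) B.h_pos
  have htρ : t ≤ ρ / (2 * Real.pi) := min_le_left _ _
  have hth : t ≤ B.h := min_le_right _ _
  have aF0' : AnalyticOnNhd ℂ F0 (Sp t) := fun x hx => aF0 x (Sp_mono htρ hx)
  have aF1' : AnalyticOnNhd ℂ F1 (Sp t) := fun x hx => aF1 x (Sp_mono htρ hx)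
  have cf0 : Continuous f0 := w0.continuous hρ.le (by norm_num)
  have cf1 : Continuous f1 := w1.continuous hρ.le le_rfl
  have pf0 := w0.periodic
  have pf1 := w1.periodic
  -- the two complex functions
  have a0 := R.an_c0 hth aF0' aF1' c
  have a1 := R.an_c1 hth aF0' c
  have r0 : ∀ x : ℝ, R.c0 F0 F1 c x = ((R.la x * f0 x + f1 x + 2 / R.e * (R.g c 1 x *
      (R.g c 4 x - R.la x * R.g c 2 x + R.la x ^ 2 * R.g c 0 x) +
      (R.g c 2 x - 2 * R.la x * R.g c 0 x) * (R.g c 3 x - R.la x * R.g c 1 x)) : ℝ) : ℂ) := by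
    intro x
    unfold RB.c0
    simp only [R.laC_real, R.gC_real, rF0, rF1]
    push_cast
    ring
  have r1 : ∀ x : ℝ, R.c1 F0 c x = ((1 / (4 * Real.pi ^ 2) * (f0 x + 2 / R.e * (R.g c 0 x *
      (R.g c 3 x - R.la x * R.g c 1 x) + R.g c 1 x * (R.g c 2 x - 2 * R.la x * R.g c 0 x))) : ℝ) :
      ℂ) := by
    intro x
    unfold RB.c1
    simp only [R.laC_real, R.gC_real, rF0]
    push_cast
    ring
  set g : Fin 2 → ℂ → ℂ := ![R.c0 F0 F1 c, R.c1 F0 c] with hg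
  set kk : ℝ := 1 / (4 * Real.pi ^ 5 * R.e) with hkk
  have hkk0 : kk ≠ 0 := by positivity
  have hH : ∀ (M : ℝ), Continuous (R.HR c f0 f1 M) := by
    intro M
    unfold RB.HR
    have cg := R.cont_g c
    have cl := R.cont_la
    fun_prop
  have hHp : ∀ (M x : ℝ), R.HR c f0 f1 M (x + 1) = R.HR c f0 f1 M x := by
    intro M x
    unfold RB.HR
    simp only [R.per_la, R.per_g, pf0 x, pf1 x]
  have key := hLIN t g c kk hkk0 ht0 hth ?_ ?_ ?_ ?_
  · obtain ⟨hc, a, b, d, hab⟩ := key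
    refine ⟨hc, ?_⟩
    subst hc
    have g0 : ∀ (k : Fin 5) (x : ℝ), R.g 0 k x = 0 := fun k x => by
      unfold RB.g
      simp
    -- the values on the real axis
    have e0 : ∀ x : ℝ, R.la x * f0 x + f1 x =
        ∑ j, (a j * (-(4 * Real.pi ^ 3) * (cH j (R.P x) (R.P1 x) 3 -
          R.la x * cH j (R.P x) (R.P1 x) 1))) +
        ∑ j, (b j * (2 * Real.pi * cR j (R.P x) (R.P1 x) 1)) := by
      intro x
      have hx := real_mem_Sp ht0 x
      have hx' := real_mem_Sp B.h_pos x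
      have h1 := (hab x hx).1
      have h2 : HasDerivAt (fun y => (∑ j, (a j : ℂ) * D.A j y) + ∑ j, (b j : ℂ) * D.R j y)
          ((∑ j, (a j : ℂ) * (-(4 * Real.pi ^ 3) *
            (cH j (fun i => R.V i x) (fun i => R.T i x) 3 -
              R.laC x * cH j (fun i => R.V i x) (fun i => R.T i x) 1))) +
            ∑ j, (b j : ℂ) * (2 * Real.pi * cR j (fun i => R.V i x) (fun i => R.T i x) 1))
          (x : ℂ) :=
        (HasDerivAt.fun_sum (u := Finset.univ) fun j _ =>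
          (R.hasDerivAt_A j hx').const_mul (a j : ℂ)).add
        (HasDerivAt.fun_sum (u := Finset.univ) fun j _ =>
          (R.hasDerivAt_R j hx').const_mul (b j : ℂ))
      rw [h2.deriv] at h1
      have h3 : g 0 x = ((R.la x * f0 x + f1 x : ℝ) : ℂ) := by
        simp only [hg, Matrix.cons_val_zero]
        rw [r0]
        simp only [g0]
        push_cast
        ring
      rw [h3, R.V_fun, R.T_fun, R.laC_real] at h1
      simp only [cH_cast, cR_cast] at h1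
      exact_mod_cast h1
    have e1 : ∀ x : ℝ, 1 / (4 * Real.pi ^ 2) * f0 x =
        ∑ j, (a j * (-Real.pi * cH j (R.P x) (R.P1 x) 1)) +
        ∑ j, (d j * (2 * Real.pi * cR j (R.P x) (R.P1 x) 1)) := by
      intro x
      have hx := real_mem_Sp ht0 x
      have hx' := real_mem_Sp B.h_pos x
      have h1 := (hab x hx).2
      have h2 : HasDerivAt (fun y => (∑ j, (a j : ℂ) * D.C j y) + ∑ j, (d j : ℂ) * D.R j y)
          ((∑ j, (a j : ℂ) * (-Real.pi *
            cH j (fun i => R.V i x) (fun i => R.T i x) 1)) +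
            ∑ j, (d j : ℂ) * (2 * Real.pi * cR j (fun i => R.V i x) (fun i => R.T i x) 1))
          (x : ℂ) :=
        (HasDerivAt.fun_sum (u := Finset.univ) fun j _ =>
          (R.hasDerivAt_C j hx').const_mul (a j : ℂ)).add
        (HasDerivAt.fun_sum (u := Finset.univ) fun j _ =>
          (R.hasDerivAt_R j hx').const_mul (d j : ℂ))
      rw [h2.deriv] at h1
      have h3 : g 1 x = ((1 / (4 * Real.pi ^ 2) * f0 x : ℝ) : ℂ) := by
        simp only [hg, Matrix.cons_val_one, Matrix.cons_val_zero]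
        rw [r1]
        simp only [g0]
        push_cast
        ring
      rw [h3, R.V_fun, R.T_fun] at h1
      simp only [cH_cast, cR_cast] at h1
      exact_mod_cast h1
    -- the two functions in terms of the kernel elements
    have k0 : ∀ x, f0 x = ∑ j, (-(4 * Real.pi ^ 3) * a j * (R.kH j x).1 +
        8 * Real.pi ^ 3 * d j * (R.kQ j x).1 + 2 * Real.pi / R.e * b j * (R.kE j x).1) := by
      intro x
      have h1 := e1 x
      have h2 : f0 x = 4 * Real.pi ^ 2 * (1 / (4 * Real.pi ^ 2) * f0 x) := by field_simp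
      rw [h2, h1, ← Finset.sum_add_distrib, Finset.mul_sum]
      refine Finset.sum_congr rfl fun j _ => ?_
      simp only [RB.kH, RB.kQ, RB.kE]
      ring
    have k1 : ∀ x, f1 x = ∑ j, (-(4 * Real.pi ^ 3) * a j * (R.kH j x).2 +
        8 * Real.pi ^ 3 * d j * (R.kQ j x).2 + 2 * Real.pi / R.e * b j * (R.kE j x).2) := by
      intro x
      have h1 := e0 x
      have h2 : f1 x = (R.la x * f0 x + f1 x) - R.la x * f0 x := by ring
      rw [h2, h1, k0 x, ← Finset.sum_add_distrib, Finset.mul_sum, ← Finset.sum_sub_distrib]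
      refine Finset.sum_congr rfl fun j _ => ?_
      simp only [RB.kH, RB.kQ, RB.kE]
      have := he.ne'
      field_simp
      ring
    -- orthogonality
    have cH' := R.cont_cH
    have cR' := R.cont_cR
    have cl := R.cont_la
    have hsq : ∫ x in (0:ℝ)..1, (f0 x ^ 2 + f1 x ^ 2) = 0 := by
      have h1 : ∀ x, f0 x ^ 2 + f1 x ^ 2 = ∑ j,
          (-(4 * Real.pi ^ 3) * a j * ((R.kH j x).1 * f0 x + (R.kH j x).2 * f1 x) +
          8 * Real.pi ^ 3 * d j * ((R.kQ j x).1 * f0 x + (R.kQ j x).2 * f1 x) +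
          2 * Real.pi / R.e * b j * ((R.kE j x).1 * f0 x + (R.kE j x).2 * f1 x)) := by
        intro x
        have h2 : f0 x ^ 2 + f1 x ^ 2 =
            (∑ j, (-(4 * Real.pi ^ 3) * a j * (R.kH j x).1 +
              8 * Real.pi ^ 3 * d j * (R.kQ j x).1 + 2 * Real.pi / R.e * b j * (R.kE j x).1)) *
              f0 x +
            (∑ j, (-(4 * Real.pi ^ 3) * a j * (R.kH j x).2 +
              8 * Real.pi ^ 3 * d j * (R.kQ j x).2 + 2 * Real.pi / R.e * b j * (R.kE j x).2)) *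
              f1 x := by
          rw [← k0 x, ← k1 x]
          ring
        rw [h2, Finset.sum_mul, Finset.sum_mul, ← Finset.sum_add_distrib]
        refine Finset.sum_congr rfl fun j _ => ?_
        ring
      simp only [h1]
      rw [intervalIntegral.integral_finsetSum]
      · refine Finset.sum_eq_zero fun j _ => ?_
        rw [intervalIntegral.integral_add, intervalIntegral.integral_add,
          intervalIntegral.integral_const_mul, intervalIntegral.integral_const_mul,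
          intervalIntegral.integral_const_mul, oH, oQ, oE]
        · ring
        all_goals
          simp only [RB.kH, RB.kQ, RB.kE]
          refine Continuous.intervalIntegrable ?_ _ _
          have := cH' j 1
          have := cH' j 3
          have := cR' j 1
          fun_prop
      · intro j _
        simp only [RB.kH, RB.kQ, RB.kE]
        refine Continuous.intervalIntegrable ?_ _ _
        have := cH' j 1
        have := cH' j 3
        have := cR' j 1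
        fun_prop
    have hz : ∀ x ∈ Icc (0:ℝ) 1, f0 x ^ 2 + f1 x ^ 2 = 0 := by
      intro x hx
      have h1 : ContinuousOn (fun x => f0 x ^ 2 + f1 x ^ 2) (Icc 0 1) := by fun_prop
      by_contra hne
      have hpos : 0 < f0 x ^ 2 + f1 x ^ 2 := lt_of_le_of_ne (by positivity) (Ne.symm hne)
      have h2 : 0 < ∫ x in (0:ℝ)..1, (f0 x ^ 2 + f1 x ^ 2) :=
        intervalIntegral.integral_pos one_pos h1 (fun y _ => by positivity) ⟨x, hx, hpos⟩
      linarith
    have hper : Function.Periodic (fun x => f0 x ^ 2 + f1 x ^ 2) 1 := fun x => by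
      simp only [pf0 x, pf1 x]
    have hall : ∀ x, f0 x ^ 2 + f1 x ^ 2 = 0 := by
      intro x
      obtain ⟨y, hy, hxy⟩ := hper.exists_mem_Ico₀ one_pos x
      have hxy' : f0 x ^ 2 + f1 x ^ 2 = f0 y ^ 2 + f1 y ^ 2 := hxy
      rw [hxy']
      exact hz y ⟨hy.1, hy.2.le⟩
    constructor
    · intro x
      have := hall x
      nlinarith [sq_nonneg (f0 x), sq_nonneg (f1 x)]
    · intro x
      have := hall x
      nlinarith [sq_nonneg (f0 x), sq_nonneg (f1 x)]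
  · intro i
    fin_cases i
    · exact a0
    · exact a1
  · intro i
    fin_cases i
    · refine per_of_real ht0 a0 fun x => ?_
      have h1 : ((x:ℂ) + 1) = ((x + 1 : ℝ) : ℂ) := by push_cast; ring
      show R.c0 F0 F1 c _ = R.c0 F0 F1 c _
      rw [h1, r0, r0]
      simp only [R.per_la, R.per_g, pf0 x, pf1 x]
    · refine per_of_real ht0 a1 fun x => ?_
      have h1 : ((x:ℂ) + 1) = ((x + 1 : ℝ) : ℂ) := by push_cast; ring
      show R.c1 F0 c _ = R.c1 F0 c _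
      rw [h1, r1, r1]
      simp only [R.per_la, R.per_g, pf0 x]
  · intro i
    fin_cases i
    · refine sym_of_real ht0 a0 fun x => ?_
      show (R.c0 F0 F1 c _).im = 0
      rw [r0, ofReal_im]
    · refine sym_of_real ht0 a1 fun x => ?_
      show (R.c1 F0 c _).im = 0
      rw [r1, ofReal_im]
  · -- the laws
    intro m n p hn hp hr hm
    -- reduction to lowest terms
    obtain ⟨p', q', hp', hq', hcop, hpq, hr', hm'⟩ : ∃ p' q' : ℕ, 1 ≤ p' ∧ 1 ≤ q' ∧
        Nat.Coprime p' q' ∧ (p:ℂ) / n = (p':ℂ) / q' ∧ (p':ℝ) < B.r * q' ∧ (q':ℤ) ∣ m := by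
      have hd : 0 < Nat.gcd p n := Nat.gcd_pos_of_pos_left n (by omega)
      refine ⟨p / Nat.gcd p n, n / Nat.gcd p n, ?_, ?_, Nat.coprime_div_gcd_div_gcd hd, ?_, ?_, ?_⟩
      · exact Nat.div_pos (Nat.le_of_dvd (by omega) (Nat.gcd_dvd_left p n)) hd
      · exact Nat.div_pos (Nat.le_of_dvd (by omega) (Nat.gcd_dvd_right p n)) hd
      · have h1 : ((Nat.gcd p n : ℕ) : ℂ) ≠ 0 := by exact_mod_cast hd.ne'
        rw [Nat.cast_div (Nat.gcd_dvd_left p n) h1, Nat.cast_div (Nat.gcd_dvd_right p n) h1]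
        field_simp
      · have h1 : ((Nat.gcd p n : ℕ) : ℝ) ≠ 0 := by exact_mod_cast hd.ne'
        have h2 : (0:ℝ) < ((Nat.gcd p n : ℕ) : ℝ) := by exact_mod_cast hd
        rw [Nat.cast_div (Nat.gcd_dvd_left p n) h1, Nat.cast_div (Nat.gcd_dvd_right p n) h1,
          mul_div_assoc', div_lt_div_iff_of_pos_right h2]
        exact hr
      · refine dvd_trans ?_ hm
        exact_mod_cast Nat.div_dvd_of_dvd (Nat.gcd_dvd_right p n)
    rw [hpq]
    have hq0 : (0:ℝ) < q' := by exact_mod_cast hq'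
    have hp0 : (0:ℝ) < p' := by exact_mod_cast hp'
    have hom0 : 0 < (p':ℝ) / q' := by positivity
    have hom1 : (p':ℝ) / q' < B.r := by
      rw [div_lt_iff₀ hq0]
      exact hr'
    obtain ⟨M, hM0, hM, hτ⟩ := R.leafM hom0 hom1
    have hcast : (((p':ℝ) / q' : ℝ) : ℂ) = (p':ℂ) / q' := by push_cast; ring
    rw [hcast] at hM
    have horb := B.orb (v := fun y => 1 / R.tau ((p':ℝ) / q') y) (F := R.F ((p':ℝ) / q'))
      (g := fun x => (R.HR c f0 f1 M x : ℂ)) (p := p') (q := q') (cc := R.cc ((p':ℝ) / q')) hq'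
      hom1 (fun y => by
        have h1 := R.F_ph ((p':ℝ) / q') hom0 hom1 y
        rw [hcast] at h1
        exact h1) (fun y => by
        have h1 := R.tau_ph ((p':ℝ) / q') hom0 hom1 y
        rw [hcast] at h1
        have h2 : (deriv (B.ph ((p':ℂ) / q')) y).re = R.cc ((p':ℝ) / q') *
            R.tau ((p':ℝ) / q') y := by
          rw [h1, ← ofReal_mul, ofReal_re]
        have h3 : R.tau ((p':ℝ) / q') y ≠ 0 := by
          intro h4
          have h5 := hτ y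
          rw [h4] at h5
          simp at h5
        rw [h2]
        field_simp) (R.cc_ne _ hom0 hom1) (continuous_ofReal.comp (hH M))
      (fun x => by simp only [hHp M x]) (fun s => by
        have h1 := R.sum_HR c f0 f1 hp' hq' hr' hM0 hτ s (hlaw p' q' hp' hq' hcop hr' s)
        have h2 := congrArg (fun z : ℝ => (z : ℂ)) h1
        simp only [ofReal_sum, ofReal_mul, ofReal_zero] at h2
        exact h2) hm'
    rw [← horb]
    refine intervalIntegral.integral_congr fun x _ => ?_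
    congr 1
    have hx := real_mem_Sp B.h_pos x
    rw [R.sumC hx, (R.hasDerivAt_sumC c hx).deriv]
    simp only [hg, Matrix.cons_val_zero, Matrix.cons_val_one]
    rw [r0, r1, R.gC_real, R.gC_real]
    have hM' : B.Lam ((p':ℂ) / q') / ((p':ℂ) / q') ^ 2 = 4 * Real.pi ^ 2 * (M : ℂ) := by
      rw [hM]
      field_simp
    rw [hM']
    simp only [hkk, RB.HR]
    push_cast
    field_simp
    ring

end Pool.Agent.MP_ae5b4e_an_LOC
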