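import Pool.Agent.Lib.MP_ae5b4e_an_LOC.MidG

/-!
# MP_ae5b4e_an, project LOC: the law of one polygon near the polygon of the background

Pointwise form of `mid_bg`: `mid_one` is the estimate at one vertex, `mid_pt` the sum over the
vertices.
-/

noncomputable section

namespace Pool.Agent.MP_ae5b4e_an_LOC

open Real Set Filter Topology MeasureTheory intervalIntegral
open Pool.Agent.MP_ae5b4e_an_hopf
open Pool.Agent.MP_ae5b4e_an_RG
open Pool.Agent.MP_ae5b4e_an_NC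

/-- uniform continuity near a compact set -/
private lemma unif' {g : ℝ × ℝ × ℝ → ℝ} {U K : Set (ℝ × ℝ × ℝ)} (hU : IsOpen U)
    (hg : ContinuousOn g U) (hK : IsCompact K) (hKU : K ⊆ U) {δ : ℝ} (hδ : 0 < δ) :
    ∃ η > 0, ∀ v0 ∈ K, ∀ v, dist v v0 ≤ η → v ∈ U ∧ |g v - g v0| ≤ δ := by
  obtain ⟨r, hr, hrU⟩ := hK.exists_cthickening_subset_open hU hKU
  have hc : IsCompact (Metric.cthickening r K) := hK.cthickening
  have hu := hc.uniformContinuousOn_of_continuous (hg.mono hrU)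
  rw [Metric.uniformContinuousOn_iff] at hu
  obtain ⟨s, hs, hsu⟩ := hu δ hδ
  refine ⟨min r s / 2, by positivity, fun v0 hv0 v hv => ?_⟩
  have h1 : min r s / 2 ≤ r := by
    have := min_le_left r s
    linarith
  have h2 : min r s / 2 < s := by
    have := min_le_right r s
    linarith
  have h3 : v ∈ Metric.cthickening r K :=
    Metric.mem_cthickening_of_dist_le v v0 r K hv0 (hv.trans h1)
  have h4 : v0 ∈ Metric.cthickening r K := Metric.self_subset_cthickening K hv0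
  have h5 := hsu v h3 v0 h4 (hv.trans_lt h2)
  rw [Real.dist_eq] at h5
  exact ⟨hrU h3, h5.le⟩

private lemma cont_aux' : Continuous fun v : ℝ × ℝ × ℝ => aDD v.1 v.2.1 (v.2.2 ^ 2) := by
  unfold aDD
  fun_prop

private lemma g_cont' : ContinuousOn (fun v : ℝ × ℝ × ℝ => gA v.1 v.2.1 v.2.2)
      {v | aDD v.1 v.2.1 (v.2.2 ^ 2) ≠ 0} ∧
    ContinuousOn (fun v : ℝ × ℝ × ℝ => gB v.1 v.2.1 v.2.2)
      {v | aDD v.1 v.2.1 (v.2.2 ^ 2) ≠ 0} ∧
    ContinuousOn (fun v : ℝ × ℝ × ℝ => gC v.1 v.2.1 v.2.2)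
      {v | aDD v.1 v.2.1 (v.2.2 ^ 2) ≠ 0} ∧
    ContinuousOn (fun v : ℝ × ℝ × ℝ => gS v.1 v.2.1 v.2.2)
      {v | aDD v.1 v.2.1 (v.2.2 ^ 2) ≠ 0} := by
  have h2 : ContinuousOn (fun v : ℝ × ℝ × ℝ => aDD v.1 v.2.1 (v.2.2 ^ 2) ^ 2)
      {v | aDD v.1 v.2.1 (v.2.2 ^ 2) ≠ 0} := (cont_aux'.pow 2).continuousOn
  have h3 : ∀ v ∈ {v : ℝ × ℝ × ℝ | aDD v.1 v.2.1 (v.2.2 ^ 2) ≠ 0},
      aDD v.1 v.2.1 (v.2.2 ^ 2) ^ 2 ≠ 0 := fun v hv => pow_ne_zero 2 hv
  refine ⟨?_, ?_, ?_, ?_⟩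
  · unfold gA
    refine ContinuousOn.div (Continuous.continuousOn ?_) h2 h3
    unfold an0
    fun_prop
  · unfold gB
    refine ContinuousOn.div (Continuous.continuousOn ?_) h2 h3
    unfold an1
    fun_prop
  · unfold gC
    exact ContinuousOn.div (Continuous.continuousOn (by fun_prop)) h2 h3
  · unfold gS
    exact ContinuousOn.div (Continuous.continuousOn (by fun_prop)) h2 h3

/-- one term of the law -/
private lemma term_le' {ρ : ℝ} (hρ : 0 < ρ) {B : ℝ} {f : ℝ → ℝ} (hf : WR ρ 2 B f)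
    {x y a a0 δ M ε : ℝ} (hxy : |x - y| ≤ ε) (ha : |a - a0| ≤ δ) (ha0 : |a0| ≤ M) :
    |a * f x - a0 * f y| ≤ (3 * δ + M * (6 * π / min 1 ρ) * ε) * B := by
  have hB := hf.nonneg
  have hm : 0 < min 1 ρ := lt_min one_pos hρ
  have h3 : a * f x - a0 * f y = (a - a0) * f x + a0 * (f x - f y) := by ring
  rw [h3]
  have h4 := hf.sup hρ.le le_rfl x
  have h5 := wb_lip hρ hf x y
  rw [← Complex.ofReal_sub, Complex.norm_real, Real.norm_eq_abs] at h5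
  have h6 : |f x - f y| ≤ 6 * π / min 1 ρ * B * ε :=
    h5.trans (mul_le_mul_of_nonneg_left hxy (by positivity))
  have hδ : 0 ≤ δ := (abs_nonneg _).trans ha
  have hM : 0 ≤ M := (abs_nonneg _).trans ha0
  calc |(a - a0) * f x + a0 * (f x - f y)| ≤ |a - a0| * |f x| + |a0| * |f x - f y| := by
        refine (abs_add_le _ _).trans ?_
        rw [abs_mul, abs_mul]
    _ ≤ δ * (3 * B) + M * (6 * π / min 1 ρ * B * ε) := by
        apply add_le_add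
        · exact mul_le_mul ha h4 (abs_nonneg _) hδ
        · exact mul_le_mul ha0 h6 (abs_nonneg _) hM
    _ = _ := by ring

/-- One vertex: `y` is the vertex of the background, `τ0 y` its datum. -/
theorem mid_one {ρ : ℝ} (hρ : 0 < ρ) {la0 τ0 : ℝ → ℝ} (cl : Continuous la0)
    (cτ : Continuous τ0) (pl : Function.Periodic la0 1) (pτ : Function.Periodic τ0 1)
    (hD : ∀ y, aDD 0 (la0 y) (τ0 y ^ 2) ≠ 0) :
    ∃ C > 0, ∀ d > 0, ∃ ε0 > 0, ∀ (ε : ℝ) (ka la : ℝ → ℝ), ε ≤ ε0 → (∀ x, |ka x| ≤ ε) →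
      (∀ x, |la x - la0 x| ≤ ε) → ∀ x y τ : ℝ, |x - y| ≤ ε → |τ - τ0 y| ≤ ε →
      aDD (ka x) (la x) (τ ^ 2) ≠ 0 ∧
      ∀ (e0 e1 y1 y2 s : ℝ → ℝ) (X Y Y1 : ℝ), WR ρ 2 X e0 → WR ρ 2 X e1 → WR ρ 2 Y y1 →
        WR ρ 2 Y y2 → (∀ x, |y1 x| ≤ Y1) → (∀ x, |y2 x - s x| ≤ Y1) →
        |τ * PhiA (ka x) (la x) (e0 x) (e1 x) (y1 x) (y2 x) (τ ^ 2) -
          (gA 0 (la0 y) (τ0 y) * e0 y + gB 0 (la0 y) (τ0 y) * e1 y +
            gS 0 (la0 y) (τ0 y) * s y)| ≤ d * (X + Y) + C * Y1 := by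
  set v0 : ℝ → ℝ × ℝ × ℝ := fun y => (0, la0 y, τ0 y) with hv0
  have cv0 : Continuous v0 := continuous_const.prodMk (cl.prodMk cτ)
  have pv0 : Function.Periodic v0 1 := by
    intro x
    simp only [hv0]
    rw [pl, pτ x]
  set K : Set (ℝ × ℝ × ℝ) := v0 '' Icc (0:ℝ) 1 with hK
  have hKc : IsCompact K := isCompact_Icc.image cv0
  have hmem : ∀ x, v0 x ∈ K := by
    intro x
    obtain ⟨y, hy, hxy⟩ := pv0.exists_mem_Ico₀ one_pos x
    rw [hxy]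
    exact ⟨y, ⟨hy.1, hy.2.le⟩, rfl⟩
  set U : Set (ℝ × ℝ × ℝ) := {v | aDD v.1 v.2.1 (v.2.2 ^ 2) ≠ 0} with hU
  have hUo : IsOpen U := isOpen_ne_fun cont_aux' continuous_const
  have hKU : K ⊆ U := by
    rintro _ ⟨x, -, rfl⟩
    exact hD x
  obtain ⟨cA, cB, cC, cS⟩ := g_cont'
  -- bounds of the weights on the background
  obtain ⟨M, hM0, hM⟩ : ∃ M > 0, ∀ y, |gA 0 (la0 y) (τ0 y)| ≤ M ∧
      |gB 0 (la0 y) (τ0 y)| ≤ M ∧ |gC 0 (la0 y) (τ0 y)| ≤ M ∧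
      |gS 0 (la0 y) (τ0 y)| ≤ M := by
    obtain ⟨M1, h1⟩ := hKc.exists_bound_of_continuousOn (cA.mono hKU)
    obtain ⟨M2, h2⟩ := hKc.exists_bound_of_continuousOn (cB.mono hKU)
    obtain ⟨M3, h3⟩ := hKc.exists_bound_of_continuousOn (cC.mono hKU)
    obtain ⟨M4, h4⟩ := hKc.exists_bound_of_continuousOn (cS.mono hKU)
    refine ⟨|M1| + |M2| + |M3| + |M4| + 1, by positivity, fun x => ?_⟩
    have k1 := h1 _ (hmem x)
    have k2 := h2 _ (hmem x)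
    have k3 := h3 _ (hmem x)
    have k4 := h4 _ (hmem x)
    rw [Real.norm_eq_abs] at k1 k2 k3 k4
    have a1 := le_abs_self M1
    have a2 := le_abs_self M2
    have a3 := le_abs_self M3
    have a4 := le_abs_self M4
    have b1 := abs_nonneg M1
    have b2 := abs_nonneg M2
    have b3 := abs_nonneg M3
    have b4 := abs_nonneg M4
    simp only [hv0] at k1 k2 k3 k4
    exact ⟨by linarith, by linarith, by linarith, by linarith⟩
  refine ⟨2 * M, by positivity, fun d hd => ?_⟩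
  have hm : 0 < min 1 ρ := lt_min one_pos hρ
  set Kρ := 6 * π / min 1 ρ with hKρ
  have hKρ0 : 0 < Kρ := by positivity
  set δ := d / 12 with hδ
  have hδ0 : 0 < δ := by positivity
  obtain ⟨ηA, hηA, uA⟩ := unif' hUo cA hKc hKU hδ0
  obtain ⟨ηB, hηB, uB⟩ := unif' hUo cB hKc hKU hδ0
  obtain ⟨ηC, hηC, uC⟩ := unif' hUo cC hKc hKU hδ0
  obtain ⟨ηS, hηS, uS⟩ := unif' hUo cS hKc hKU hδ0
  set η := min (min ηA ηB) (min ηC ηS) with hη
  have hη0 : 0 < η := lt_min (lt_min hηA hηB) (lt_min hηC hηS)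
  have eA : η ≤ ηA := (min_le_left _ _).trans (min_le_left _ _)
  have eB : η ≤ ηB := (min_le_left _ _).trans (min_le_right _ _)
  have eC : η ≤ ηC := (min_le_right _ _).trans (min_le_left _ _)
  have eS : η ≤ ηS := (min_le_right _ _).trans (min_le_right _ _)
  -- uniform continuity of `la0`
  obtain ⟨r, hr, hru⟩ : ∃ r > 0, ∀ x y, |x - y| ≤ r → |la0 x - la0 y| ≤ η / 2 := by
    have hc : IsCompact (Icc (-1:ℝ) 2) := isCompact_Icc
    have hu := hc.uniformContinuousOn_of_continuous cl.continuousOn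
    rw [Metric.uniformContinuousOn_iff] at hu
    obtain ⟨r, hr, hru⟩ := hu (η / 2) (by positivity)
    refine ⟨min (r / 2) 1, by positivity, fun x y hxy => ?_⟩
    have h1 : |x - y| ≤ r / 2 := hxy.trans (min_le_left _ _)
    have h2 : |x - y| ≤ 1 := hxy.trans (min_le_right _ _)
    have h3 := abs_le.1 h2
    have hf := Int.floor_le x
    have hf' := Int.lt_floor_add_one x
    have p1 : la0 x = la0 (x - ⌊x⌋) := (pl.sub_int_mul_eq ⌊x⌋ (x := x) ▸ by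
      rw [mul_one])
    have p2 : la0 y = la0 (y - ⌊x⌋) := (pl.sub_int_mul_eq ⌊x⌋ (x := y) ▸ by
      rw [mul_one])
    rw [p1, p2]
    have h4 := hru (x - ⌊x⌋) ⟨by linarith, by linarith⟩ (y - ⌊x⌋) ⟨by linarith, by linarith⟩ (by
      rw [Real.dist_eq]
      have : x - ⌊x⌋ - (y - ⌊x⌋) = x - y := by ring
      rw [this]
      linarith)
    rw [Real.dist_eq] at h4
    exact h4.le
  refine ⟨min (η / 2) (min r (d / (4 * (M * Kρ)))), by positivity, ?_⟩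
  intro ε ka la hε hka hla x y τ hxy hτ
  have hε1 : ε ≤ η / 2 := hε.trans (min_le_left _ _)
  have hε2 : ε ≤ r := hε.trans ((min_le_right _ _).trans (min_le_left _ _))
  have hε3 : ε ≤ d / (4 * (M * Kρ)) := hε.trans ((min_le_right _ _).trans (min_le_right _ _))
  have hε0 : 0 ≤ ε := (abs_nonneg _).trans (hka 0)
  rw [le_div_iff₀ (by positivity)] at hε3
  have hdist : dist (ka x, la x, τ) (v0 y) ≤ η := by
    rw [Prod.dist_eq, Prod.dist_eq]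
    simp only [hv0, Real.dist_eq, sub_zero]
    refine max_le ?_ (max_le ?_ ?_)
    · exact (hka _).trans (by linarith)
    · have h1 := hla x
      have h2 := hru x y (hxy.trans hε2)
      have h3 : la x - la0 y = (la x - la0 x) + (la0 x - la0 y) := by
        ring
      rw [h3]
      refine (abs_add_le _ _).trans ?_
      linarith
    · exact hτ.trans (by linarith)
  have k1 := uA _ (hmem y) _ (hdist.trans eA)
  have k2 := uB _ (hmem y) _ (hdist.trans eB)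
  have k3 := uC _ (hmem y) _ (hdist.trans eC)
  have k4 := uS _ (hmem y) _ (hdist.trans eS)
  refine ⟨k1.1, ?_⟩
  intro e0 e1 y1 y2 s X Y Y1 hX0 hX1 hY0 hY1 hy1 hy2
  have X0 := hX0.nonneg
  have Y0 := hY0.nonneg
  have dA : |gA (ka x) (la x) τ - gA 0 (la0 y) (τ0 y)| ≤ δ := k1.2
  have dB : |gB (ka x) (la x) τ - gB 0 (la0 y) (τ0 y)| ≤ δ := k2.2
  have dC : |gC (ka x) (la x) τ - gC 0 (la0 y) (τ0 y)| ≤ δ := k3.2
  have dS : |gS (ka x) (la x) τ - gS 0 (la0 y) (τ0 y)| ≤ δ := k4.2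
  obtain ⟨mA, mB, mC, mS⟩ := hM y
  have t1 := term_le' hρ hX0 hxy dA mA
  have t2 := term_le' hρ hX1 hxy dB mB
  have t3 := term_le' hρ hY0 hxy dC mC
  have t4 := term_le' hρ hY1 hxy dS mS
  have t5 : |gC 0 (la0 y) (τ0 y) * y1 y| ≤ M * Y1 := by
    rw [abs_mul]
    exact mul_le_mul mC (hy1 _) (abs_nonneg _) hM0.le
  have t6 : |gS 0 (la0 y) (τ0 y) * (y2 y - s y)| ≤ M * Y1 := by
    rw [abs_mul]
    exact mul_le_mul mS (hy2 _) (abs_nonneg _) hM0.le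
  have hid : τ * PhiA (ka x) (la x) (e0 x) (e1 x) (y1 x) (y2 x) (τ ^ 2) -
      (gA 0 (la0 y) (τ0 y) * e0 y + gB 0 (la0 y) (τ0 y) * e1 y + gS 0 (la0 y) (τ0 y) * s y) =
      (gA (ka x) (la x) τ * e0 x - gA 0 (la0 y) (τ0 y) * e0 y) +
      (gB (ka x) (la x) τ * e1 x - gB 0 (la0 y) (τ0 y) * e1 y) +
      (gC (ka x) (la x) τ * y1 x - gC 0 (la0 y) (τ0 y) * y1 y) +
      (gS (ka x) (la x) τ * y2 x - gS 0 (la0 y) (τ0 y) * y2 y) +
      gC 0 (la0 y) (τ0 y) * y1 y + gS 0 (la0 y) (τ0 y) * (y2 y - s y) := by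
    rw [phiA_split]
    ring
  rw [hid]
  have hS : (3 * δ + M * Kρ * ε) * 2 ≤ d := by
    rw [hδ]
    nlinarith
  have hS0 : 0 ≤ 3 * δ + M * Kρ * ε := by positivity
  calc _ ≤ (3 * δ + M * Kρ * ε) * X + (3 * δ + M * Kρ * ε) * X +
        (3 * δ + M * Kρ * ε) * Y + (3 * δ + M * Kρ * ε) * Y + M * Y1 + M * Y1 := by
        refine (abs_add_le _ _).trans (add_le_add ?_ t6)
        refine (abs_add_le _ _).trans (add_le_add ?_ t5)
        refine (abs_add_le _ _).trans (add_le_add ?_ t4)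
        refine (abs_add_le _ _).trans (add_le_add ?_ t3)
        exact (abs_add_le _ _).trans (add_le_add t1 t2)
    _ = (3 * δ + M * Kρ * ε) * 2 * (X + Y) + 2 * M * Y1 := by ring
    _ ≤ d * (X + Y) + 2 * M * Y1 := by
        have := mul_le_mul_of_nonneg_right hS (add_nonneg X0 Y0)
        linarith

/-- MID, pointwise: the law of a polygon with `q` vertices `z j` near the points `y j`.  The
constants do not depend on the points. -/
theorem mid_pt {ρ : ℝ} (hρ : 0 < ρ) {la0 τ0 : ℝ → ℝ} (cl : Continuous la0)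
    (cτ : Continuous τ0) (pl : Function.Periodic la0 1) (pτ : Function.Periodic τ0 1)
    (hD : ∀ y, aDD 0 (la0 y) (τ0 y ^ 2) ≠ 0) (q : ℕ) :
    ∃ C > 0, ∀ d > 0, ∃ ε0 > 0, ∀ (ε : ℝ) (ka la : ℝ → ℝ) (y z τ : ℕ → ℝ), ε ≤ ε0 →
      (∀ x, |ka x| ≤ ε) → (∀ x, |la x - la0 x| ≤ ε) → (∀ j < q, |z j - y j| ≤ ε) →
      (∀ j < q, |τ j - τ0 (y j)| ≤ ε) →
      (∀ j < q, aDD (ka (z j)) (la (z j)) (τ j ^ 2) ≠ 0) ∧
      ∀ (e0 e1 y1 y2 s : ℝ → ℝ) (X Y Y1 : ℝ), WR ρ 2 X e0 → WR ρ 2 X e1 → WR ρ 2 Y y1 →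
        WR ρ 2 Y y2 → (∀ x, |y1 x| ≤ Y1) → (∀ x, |y2 x - s x| ≤ Y1) →
        ∑ j ∈ Finset.range q, τ j * PhiA (ka (z j)) (la (z j)) (e0 (z j)) (e1 (z j))
            (y1 (z j)) (y2 (z j)) (τ j ^ 2) = 0 →
          |∑ j ∈ Finset.range q, (gA 0 (la0 (y j)) (τ0 (y j)) * e0 (y j) +
            gB 0 (la0 (y j)) (τ0 (y j)) * e1 (y j) + gS 0 (la0 (y j)) (τ0 (y j)) * s (y j))| ≤
              d * (X + Y) + C * Y1 := by
  obtain ⟨C, hC, H⟩ := mid_one hρ cl cτ pl pτ hD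
  have hq : (0:ℝ) < (q:ℝ) + 1 := by positivity
  refine ⟨((q:ℝ) + 1) * C, by positivity, fun d hd => ?_⟩
  obtain ⟨ε0, hε0, H1⟩ := H (d / ((q:ℝ) + 1)) (by positivity)
  refine ⟨ε0, hε0, fun ε ka la y z τ hε hka hla hz hτ => ?_⟩
  have H2 := fun j (hj : j < q) => H1 ε ka la hε hka hla (z j) (y j) (τ j) (hz j hj) (hτ j hj)
  refine ⟨fun j hj => (H2 j hj).1, fun e0 e1 y1 y2 s X Y Y1 hX0 hX1 hY0 hY1 hy1 hy2 hsum => ?_⟩
  have X0 := hX0.nonneg
  have Y0 := hY0.nonneg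
  have Y10 : 0 ≤ Y1 := (abs_nonneg _).trans (hy1 0)
  set S1 := ∑ j ∈ Finset.range q, τ j * PhiA (ka (z j)) (la (z j)) (e0 (z j)) (e1 (z j))
            (y1 (z j)) (y2 (z j)) (τ j ^ 2) with hS1
  have h1 : |S1 - ∑ j ∈ Finset.range q, (gA 0 (la0 (y j)) (τ0 (y j)) * e0 (y j) +
      gB 0 (la0 (y j)) (τ0 (y j)) * e1 (y j) + gS 0 (la0 (y j)) (τ0 (y j)) * s (y j))| ≤
      ∑ j ∈ Finset.range q, (d / ((q:ℝ) + 1) * (X + Y) + C * Y1) := by
    rw [hS1, ← Finset.sum_sub_distrib]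
    refine (Finset.abs_sum_le_sum_abs _ _).trans (Finset.sum_le_sum fun j hj => ?_)
    exact (H2 j (Finset.mem_range.1 hj)).2 e0 e1 y1 y2 s X Y Y1 hX0 hX1 hY0 hY1 hy1 hy2
  rw [hsum, zero_sub, abs_neg, Finset.sum_const, Finset.card_range, nsmul_eq_mul] at h1
  refine h1.trans ?_
  have h2 : 0 ≤ d / ((q:ℝ) + 1) * (X + Y) + C * Y1 := by positivity
  calc (q:ℝ) * (d / ((q:ℝ) + 1) * (X + Y) + C * Y1) ≤
      ((q:ℝ) + 1) * (d / ((q:ℝ) + 1) * (X + Y) + C * Y1) := by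
        apply mul_le_mul_of_nonneg_right _ h2
        linarith
    _ = d * (X + Y) + ((q:ℝ) + 1) * C * Y1 := by
        field_simp

end Pool.Agent.MP_ae5b4e_an_LOC
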