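import Mathlib
import Pool.Agent.Lib.MP_ae5b4e_an_LOC.DatA
import Pool.Agent.Lib.MP_ae5b4e_an_LOC.MidP
import Pool.Agent.Lib.MP_ae5b4e_an_LOC.Law
import Pool.Agent.Lib.MP_ae5b4e_an_LOC.Wrp
import Pool.Agent.Lib.MP_ae5b4e_an_LOC.Big
import Pool.Agent.Lib.MP_ae5b4e_an_LOC.Hig
import Pool.Agent.Lib.MP_ae5b4e_an_LOC.Lin4
import Pool.Agent.Lib.MP_ae5b4e_an_NC.BigB

/-!
# MP_ae5b4e_an, project LOC: the data of the closing theorem for a solution near the background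
-/

noncomputable section

namespace Pool.Agent.MP_ae5b4e_an_LOC

open Real Set Filter Topology
open Pool.Agent.MP_ae5b4e_an_hopf Pool.Agent.MP_ae5b4e_an_RG
open Pool.Agent.MP_ae5b4e_an_NC hiding exists_pleaf

/-- the relation between the real background and the geometry -/
structure Lk {B : Bg} {D : KerD B} (R : RB B D) (P0 : ℝ → Fin 3 → ℝ) (r0 m0 : ℝ → ℝ)
    (K0 : ℝ) : Prop where
  ib : IB P0 B.r R.F
  wr : ∀ x, Wr P0 x = 1
  ode : ∀ x, deriv (deriv (deriv P0)) x = -(r0 x) • deriv P0 x - m0 x • P0 x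
  r0 : ∀ x, |r0 x| ≤ K0
  m0 : ∀ x, |m0 x| ≤ K0
  neg : ∀ om ∈ Ioo 0 B.r, ∀ y, L1 P0 y (R.F om y) < 0
  tau : ∀ om ∈ Ioo 0 B.r, ∀ y, R.tau om y = tau0 P0 (R.F om) y

/-- the polygons which are used -/
def PV (B : Bg) (p q : ℕ) : Prop := 1 ≤ p ∧ 1 ≤ q ∧ Nat.Coprime p q ∧ (p:ℝ) < B.r * q

lemma PV.om {B : Bg} {p q : ℕ} (h : PV B p q) : (p:ℝ) / q ∈ Ioo 0 B.r := by
  obtain ⟨hp, hq, -, hr⟩ := h
  have hq0 : (0:ℝ) < q := by exact_mod_cast hq
  have hp0 : (0:ℝ) < p := by exact_mod_cast hp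
  exact ⟨by positivity, by rwa [div_lt_iff₀ hq0]⟩

lemma PV.ne {B : Bg} {p q : ℕ} (h : PV B p q) : q ≠ 2 * p := by
  have hr := h.om.2
  obtain ⟨hp, hq, -, -⟩ := h
  have hq0 : (0:ℝ) < q := by exact_mod_cast hq
  intro h2
  have h3 : (p:ℝ) / q = 1 / 2 := by
    rw [h2]
    have hp0 : (p:ℝ) ≠ 0 := by
      have : (0:ℝ) < p := by exact_mod_cast hp
      exact this.ne'
    push_cast
    field_simp
  rw [h3] at hr
  have h4 := B.K_r_le
  have h5 := B.one_le_K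
  have h6 := B.rho_le
  have h7 := B.r_pos
  nlinarith

/-- The law of the polygons. -/
theorem poly_dat {B : Bg} {D : KerD B} (R : RB B D) {P0 : ℝ → Fin 3 → ℝ} {r0 m0 : ℝ → ℝ}
    {K0 : ℝ} (hL : Lk R P0 r0 m0 K0) {ρ0 ρ C K δ : ℝ} (hρ : 0 < ρ) (hC : 0 < C) (hr : B.r ≤ δ)
    {p q : ℕ} (hpq : PV B p q) {η : ℝ} (hη : 0 < η) : ∃ ε > 0,
    ∀ (P : ℝ → Fin 3 → ℝ) (U : ℝ → ℝ → ℝ) (r m : ℝ → ℝ), NSK K δ P U r m →
      (∀ x, |r x - r0 x| ≤ ε) → (∀ x, |m x - m0 x| ≤ ε) →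
      ∀ (T : V3 →ₗ[ℝ] V3) (V W : ℝ → V3), (∀ x, V x = T (P x)) →
      (∀ x, W x = (1 / (2 * π)) • T (deriv P x)) → ∀ (s : P12) (η' : ℝ), η' ≤ ε →
      Pk ρ0 ρ C η' R.la (R.S (pc s)) (cnp s) (fun x => nmf R.m1 s (V x) (W x)) →
      ∀ X, WR ρ 4 X (fun x => (nmf R.m1 s (V x) (W x)).e0) →
        WR ρ 2 X (fun x => (nmf R.m1 s (V x) (W x)).e1) → ∀ t,
        |R.pL p q t (fun x => (nmf R.m1 s (V x) (W x)).e0)
          (fun x => (nmf R.m1 s (V x) (W x)).e1) (R.S (pc s))| ≤ η * (X + cnp s ^ 2) := by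
  obtain ⟨om, hom⟩ : ∃ om : ℝ, om = (p:ℝ) / q := ⟨_, rfl⟩
  have homI : om ∈ Ioo 0 B.r := hom ▸ hpq.om
  have hq1 : 1 ≤ q := hpq.2.1
  have hq0 : 0 < q := hq1
  obtain ⟨M, hM0, -, hτ⟩ := R.leafM homI.1 homI.2
  have ib := hL.ib
  have cG : Continuous fun y => L1 P0 y (R.F om y) := by
    have h1 : Continuous fun y : ℝ => ((om, y) : ℝ × ℝ) := by fun_prop
    exact ib.contG.comp_continuous h1 fun y => ⟨homI, trivial⟩
  have cτ : Continuous (R.tau om) := by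
    have h1 : R.tau om = fun y => -(2 * π) / L1 P0 y (R.F om y) := by
      funext y
      exact hL.tau om homI y
    rw [h1]
    exact continuous_const.div cG fun y => (hL.neg om homI y).ne
  have pτ : Function.Periodic (R.tau om) 1 := by
    intro y
    rw [hL.tau om homI, hL.tau om homI]
    unfold tau0
    rw [ib.G_per homI]
  have hD : ∀ y, aDD 0 (R.la y) (R.tau om y ^ 2) ≠ 0 := by
    intro y
    have h1 := hτ y
    have h2 : aDD 0 (R.la y) (R.tau om y ^ 2) = (M * R.tau om y ^ 2) ^ 2 := by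
      unfold aDD
      have h3 : R.la y * R.tau om y ^ 2 = M * R.tau om y ^ 2 - 1 := by linear_combination -h1
      linear_combination (R.la y * R.tau om y ^ 2 + 1 + M * R.tau om y ^ 2) * h3
    rw [h2]
    have h3 : R.tau om y ≠ 0 := by
      intro h4
      rw [h4] at h1
      simp at h1
    exact pow_ne_zero 2 (mul_ne_zero hM0 (pow_ne_zero 2 h3))
  obtain ⟨Cm, hCm, Hm⟩ := mid_pt hρ R.cont_la cτ R.per_la pτ hD q
  obtain ⟨ε1, hε1, Hm1⟩ := Hm (η / (2 * (1 + C))) (by positivity)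
  obtain ⟨ε2, hε2, Hl⟩ := leaf_pts ib hL.wr hL.ode hL.r0 hL.m0 hq0 (hom ▸ homI)
    (fun y => hom ▸ hL.neg om homI y) (η := ε1) hε1
  rw [← hom] at Hl
  refine ⟨min (min ε1 ε2) (min 1 (η / (2 * (Cm * C)))), by positivity, ?_⟩
  intro P U r m hS hrr hmm T V W hV hW s η' hη' hPk X hX0 hX1 t
  have hη'1 : η' ≤ ε1 := hη'.trans ((min_le_left _ _).trans (min_le_left _ _))
  have hη'2 : η' ≤ 1 := hη'.trans ((min_le_right _ _).trans (min_le_left _ _))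
  have hη'3 : Cm * C * η' ≤ η / 2 := by
    have h1 : η' ≤ η / (2 * (Cm * C)) := hη'.trans ((min_le_right _ _).trans (min_le_right _ _))
    rw [le_div_iff₀ (by positivity)] at h1
    linarith
  have hsys := hS.sys
  have hpq' : (p:ℝ) < q * δ := by
    have h1 := hpq.2.2.2
    have h2 : (0:ℝ) < q := by exact_mod_cast hq0
    nlinarith
  obtain ⟨L, hLf⟩ := hS.pleaf hpq.1 hq1 hpq'
  have Hl1 := Hl P U r m hsys hS.wr hS.ode
    (fun x => (hrr x).trans ((min_le_left _ _).trans (min_le_right _ _)))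
    (fun x => (hmm x).trans ((min_le_left _ _).trans (min_le_right _ _))) L hLf
  have kas : ∀ x, |(nmf R.m1 s (V x) (W x)).ka| ≤ ε1 := fun x => (hPk.kas x).trans hη'1
  have las : ∀ x, |(nmf R.m1 s (V x) (W x)).la - R.la x| ≤ ε1 := fun x =>
    (hPk.las x).trans hη'1
  have hDD : ∀ x, aDD (nmf R.m1 s (V (L x)) (W (L x))).ka (nmf R.m1 s (V (L x)) (W (L x))).la
      (tauL P L om x ^ 2) ≠ 0 := by
    intro x
    obtain ⟨x', hx', h1, h2⟩ := Hl1 (L x)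
    have h3 : x' = x := hLf.mono.injective hx'
    subst h3
    have h4 := (Hm1 ε1 (fun x => (nmf R.m1 s (V x) (W x)).ka)
      (fun x => (nmf R.m1 s (V x) (W x)).la) (fun j => (R.F om)^[j] (L x'))
      (fun j => L (x' + j * om)) (fun j => tauL P L om (x' + j * om)) le_rfl kas las h1
      (fun j hj => by
        rw [hL.tau om homI]
        exact h2 j hj)).1 0 hq0
    simpa using h4
  obtain ⟨x, hx, h1, h2⟩ := Hl1 t
  have hlaw := point_law hsys hpq.ne hq0 hLf R.m1 s T hV hW hPk.al (by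
    rw [← hom]
    exact hDD) x
  rw [← hom] at hlaw
  have hXnn : 0 ≤ X := hX0.nonneg
  have hc2 : 0 ≤ cnp s ^ 2 := sq_nonneg _
  have hη'0 : 0 ≤ η' := (abs_nonneg _).trans (hPk.kas 0)
  obtain ⟨s1, s2, s3, s4⟩ := hPk.src X hX0 hX1
  have hfin := (Hm1 ε1 (fun x => (nmf R.m1 s (V x) (W x)).ka)
      (fun x => (nmf R.m1 s (V x) (W x)).la) (fun j => (R.F om)^[j] t)
      (fun j => L (x + j * om)) (fun j => tauL P L om (x + j * om)) le_rfl kas las h1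
      (fun j hj => by
        rw [hL.tau om homI]
        exact h2 j hj)).2 (fun x => (nmf R.m1 s (V x) (W x)).e0)
      (fun x => (nmf R.m1 s (V x) (W x)).e1) (fun x => (nmf R.m1 s (V x) (W x)).y1)
      (fun x => (nmf R.m1 s (V x) (W x)).y2) (R.S (pc s)) X (C * (cnp s ^ 2 + X))
      (C * (η' * (cnp s ^ 2 + X))) (hX0.b_mono (by norm_num)) hX1
      (s1.mono (mul_le_mul_of_nonneg_left (by nlinarith) hC.le))
      (s2.mono (mul_le_mul_of_nonneg_left (by nlinarith) hC.le)) s3 s4 hlaw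
  have e1 : R.pL p q t (fun x => (nmf R.m1 s (V x) (W x)).e0)
          (fun x => (nmf R.m1 s (V x) (W x)).e1) (R.S (pc s)) =
      ∑ j ∈ Finset.range q, (gA 0 (R.la ((R.F om)^[j] t)) (R.tau om ((R.F om)^[j] t)) *
        (nmf R.m1 s (V ((R.F om)^[j] t)) (W ((R.F om)^[j] t))).e0 +
        gB 0 (R.la ((R.F om)^[j] t)) (R.tau om ((R.F om)^[j] t)) *
        (nmf R.m1 s (V ((R.F om)^[j] t)) (W ((R.F om)^[j] t))).e1 +
        gS 0 (R.la ((R.F om)^[j] t)) (R.tau om ((R.F om)^[j] t)) *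
        R.S (pc s) ((R.F om)^[j] t)) := by
    unfold RB.pL RB.yj
    rw [← hom]
  rw [e1]
  refine hfin.trans ?_
  have k1 : η / (2 * (1 + C)) * (X + C * (cnp s ^ 2 + X)) ≤ η / 2 * (X + cnp s ^ 2) := by
    have h3 : X + C * (cnp s ^ 2 + X) ≤ (1 + C) * (X + cnp s ^ 2) := by nlinarith
    calc η / (2 * (1 + C)) * (X + C * (cnp s ^ 2 + X)) ≤
          η / (2 * (1 + C)) * ((1 + C) * (X + cnp s ^ 2)) :=
          mul_le_mul_of_nonneg_left h3 (by positivity)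
      _ = η / 2 * (X + cnp s ^ 2) := by field_simp
  have k2 : Cm * (C * (η' * (cnp s ^ 2 + X))) ≤ η / 2 * (X + cnp s ^ 2) := by
    calc Cm * (C * (η' * (cnp s ^ 2 + X))) = (Cm * C * η') * (X + cnp s ^ 2) := by ring
      _ ≤ η / 2 * (X + cnp s ^ 2) := mul_le_mul_of_nonneg_right hη'3 (by positivity)
  linarith

/-- The tangent lengths on the leaves with small rotation numbers are harmless. -/
theorem big_dd {ρ A1 S : ℝ} (hρ : 0 ≤ ρ) (hA1 : 0 < A1) (hS : 0 < S) : ∃ n1 : ℕ,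
    ∀ (p q : ℕ) (L τ : ℝ → ℝ), PQ p q → n1 ≤ q → Big ρ A1 p q L τ → ∀ (k l x : ℝ), |k| ≤ S →
      |l| ≤ S → aDD k l (τ x ^ 2) ≠ 0 := by
  have hpi := Real.pi_pos
  refine ⟨max 4 (max (⌈4 * A1⌉₊) (⌈128 * π ^ 2 * (S + S ^ 2)⌉₊)), ?_⟩
  intro p n L τ hpq hn' hBig k l x hk hl
  have hn4 : 4 ≤ n := (le_max_left _ _).trans hn'
  have hn4r : (4:ℝ) ≤ n := by exact_mod_cast hn4
  have hnpos : (0:ℝ) < n := by linarith
  have hnA : 4 * A1 ≤ (n:ℝ) := (Nat.le_ceil _).trans (by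
    exact_mod_cast ((le_max_left _ _).trans (le_max_right _ _)).trans hn')
  have hnS : 128 * π ^ 2 * (S + S ^ 2) ≤ (n:ℝ) := (Nat.le_ceil _).trans (by
    exact_mod_cast ((le_max_right _ _).trans (le_max_right _ _)).trans hn')
  have hp0 : 0 < p := by rcases hpq.1 with h | h <;> omega
  have hpr : (0:ℝ) < p := by exact_mod_cast hp0
  have hp2 : (p:ℝ) ≤ 2 := by rcases hpq.1 with h | h <;> rw [h] <;> norm_num
  have hω0 : 0 < (p:ℝ) / n := by positivity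
  have hωn : (p:ℝ) / n ≤ 2 / n := by gcongr
  obtain ⟨η, hη1, hη2, hη3, hNu, hNV⟩ := hBig 0
  have hη : 0 < η := by
    refine lt_of_lt_of_le ?_ hη1
    unfold etam
    positivity
  have ht : τ x ^ 2 ≤ 16 * π ^ 2 / n := by
    have h3 := hNV.sup hρ hη hη3 x
    rw [Complex.norm_real, Real.norm_eq_abs] at h3
    have h4 : A1 * ((p:ℝ) / n) ^ 2 ≤ 1 := by
      calc A1 * ((p:ℝ) / n) ^ 2 ≤ A1 * (2 / n) ^ 2 := by gcongr
        _ = (4 * A1) / n / n := by ring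
        _ ≤ 1 / 1 := by
          refine div_le_div₀ zero_le_one ?_ one_pos (by linarith)
          rw [div_le_iff₀ hnpos]
          linarith
        _ = 1 := by norm_num
    have h5 : |τ x / (π * ((p:ℝ) / n))| ≤ 2 := by
      have h6 := abs_le.1 (h3.trans h4)
      rw [abs_le]
      constructor <;> linarith [h6.1, h6.2]
    have h6 : |τ x| ≤ 2 * (π * ((p:ℝ) / n)) := by
      rw [abs_div, abs_of_pos (by positivity : 0 < π * ((p:ℝ) / n)),
        div_le_iff₀ (by positivity)] at h5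
      exact h5
    have h7 : |τ x| ≤ 4 * π / n := by
      refine h6.trans ?_
      calc 2 * (π * ((p:ℝ) / n)) ≤ 2 * (π * (2 / n)) := by gcongr
        _ = 4 * π / n := by ring
    calc τ x ^ 2 = |τ x| ^ 2 := (sq_abs _).symm
      _ ≤ (4 * π / n) ^ 2 := by gcongr
      _ = 16 * π ^ 2 / n / n := by ring
      _ ≤ 16 * π ^ 2 / n := div_le_self (by positivity) (by linarith)
  refine (aDD_ne hk hl (sq_nonneg _) ?_).ne'
  calc (S + S ^ 2) * τ x ^ 2 ≤ (S + S ^ 2) * (16 * π ^ 2 / n) := by gcongr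
    _ = (128 * π ^ 2 * (S + S ^ 2)) / n / 8 := by ring
    _ ≤ 1 / 8 := by
      gcongr
      rw [div_le_iff₀ hnpos]
      linarith

/-- The high modes. -/
theorem high_dat (m1 : ℝ) {ρ0 K δ : ℝ} (hρ0 : 0 < ρ0) (hK : 0 ≤ K) (hδ : 0 < δ) :
    ∃ ρ > 0, ρ < ρ0 ∧ (∀ C : ℝ, 0 < C → ∃ (C1 : ℝ) (n0 : ℕ), 0 < C1 ∧ 4 ≤ n0 ∧
    ∀ (P : ℝ → Fin 3 → ℝ) (U : ℝ → ℝ → ℝ) (r m : ℝ → ℝ), NSK K δ P U r m →
      ∀ (T : V3 →ₗ[ℝ] V3) (V W : ℝ → V3), (∀ x, V x = T (P x)) →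
      (∀ x, W x = (1 / (2 * π)) • T (deriv P x)) → ∀ (s : P12) (la0 S : ℝ → ℝ) (η : ℝ), η ≤ 1 →
      Pk ρ0 ρ C η la0 S (cnp s) (fun x => nmf m1 s (V x) (W x)) →
      ∀ X, WR ρ 4 X (fun x => (nmf m1 s (V x) (W x)).e0) →
        WR ρ 2 X (fun x => (nmf m1 s (V x) (W x)).e1) → ∀ k : ℤ, (n0 : ℝ) ≤ |(k:ℝ)| →
        ‖rc (fun x => (nmf m1 s (V x) (W x)).e0) k‖ ≤
          C1 * (X / |(k:ℝ)| + cnp s ^ 2 + η * X) /
            ((1 + |(k:ℝ)|) ^ 4 * Real.exp (ρ * |(k:ℝ)|)) ∧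
        ‖rc (fun x => (nmf m1 s (V x) (W x)).e1) k‖ ≤
          C1 * (X / |(k:ℝ)| + cnp s ^ 2 + η * X) /
            ((1 + |(k:ℝ)|) ^ 2 * Real.exp (ρ * |(k:ℝ)|))) := by
  obtain ⟨ρc, hρc, HB⟩ := exists_bigK K δ hK hδ
  obtain ⟨ρm, hρm⟩ : ∃ ρm : ℝ, ρm = min ρc (ρ0 / 2) := ⟨_, rfl⟩
  have hρm0 : 0 < ρm := by
    rw [hρm]
    positivity
  have hρm1 : ρm < ρ0 := by
    have : ρm ≤ ρ0 / 2 := hρm ▸ min_le_right _ _
    linarith
  obtain ⟨A1, q0, hA1, HB1⟩ := HB ρm hρm0.le (hρm ▸ min_le_left _ _)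
  refine ⟨ρm / 2, by positivity, by linarith, fun C hC => ?_⟩
  obtain ⟨Ch, n0, hCh, hn04, Hh⟩ := high ρ0 ρm (ρm / 2) C A1 (by positivity) (by linarith) hρm1
    hC hA1
  obtain ⟨n1, Hd⟩ := big_dd hρm0.le hA1 (S := 3 * C) (by positivity)
  obtain ⟨q2, hq2⟩ := exists_nat_gt (2 / δ)
  obtain ⟨N, hN⟩ : ∃ N : ℕ, N = 2 * (q0 + n1 + q2 + 5) := ⟨_, rfl⟩
  refine ⟨Ch * (1 + C), max n0 N, by positivity, hn04.trans (le_max_left _ _), ?_⟩
  intro P U r m hS T V W hV hW s la0 S η hη1 hPk X hX0 hX1 k hk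
  have hsys := hS.sys
  have hXnn : 0 ≤ X := hX0.nonneg
  have hη0 : 0 ≤ η := (abs_nonneg _).trans (hPk.kas 0)
  have hc2 : 0 ≤ cnp s ^ 2 := sq_nonneg _
  obtain ⟨s1, s2, -, -⟩ := hPk.src X hX0 hX1
  have supk : ∀ x, |(nmf m1 s (V x) (W x)).ka| ≤ 3 * C := hPk.ka.sup hρ0.le le_rfl
  have supl : ∀ x, |(nmf m1 s (V x) (W x)).la| ≤ 3 * C := hPk.la.sup hρ0.le le_rfl
  have key := Hh (fun x => (nmf m1 s (V x) (W x)).ka) (fun x => (nmf m1 s (V x) (W x)).la)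
    (fun x => (nmf m1 s (V x) (W x)).e0) (fun x => (nmf m1 s (V x) (W x)).e1)
    (fun x => (nmf m1 s (V x) (W x)).y1) (fun x => (nmf m1 s (V x) (W x)).y2) X
    (C * (cnp s ^ 2 + η * X)) hPk.ka hPk.la hX0 hX1
    (s1.mono (mul_le_mul_of_nonneg_left (by nlinarith) hC.le)) s2 N
    (fun p q n P' hn hpq hP' hnp hqn => by
      have hp1 : 1 ≤ p := by rcases hpq.1 with h | h <;> omega
      have hp2 : p ≤ 2 := by rcases hpq.1 with h | h <;> omega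
      have hnq : n ≤ 2 * q := by
        calc n ≤ n * p := Nat.le_mul_of_pos_right n hp1
          _ = P' * q := hnp
          _ ≤ 2 * q := Nat.mul_le_mul_right q (by rcases hP' with h | h <;> omega)
      have hq : q0 + n1 + q2 + 5 ≤ q := by omega
      have hqR : (q2:ℝ) ≤ q := by exact_mod_cast (by omega : q2 ≤ q)
      obtain ⟨L, hLf⟩ := hS.pleaf (p := p) (q := q) hp1 (by omega) (by
        rw [div_lt_iff₀ hδ] at hq2
        have : (p:ℝ) ≤ 2 := by exact_mod_cast hp2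
        nlinarith)
      have hB := HB1 P U r m hS p q L hpq (by omega) hLf
      refine ⟨L, tauL P L ((p:ℝ) / q), hB, ?_⟩
      exact law_fc hsys (by omega) (by omega) hLf m1 s T hV hW hPk.al
        (fun x => Hd p q L _ hpq (by omega) hB _ _ x (supk _) (supl _))
        (by exact_mod_cast hqn)) k hk
  have hk4 : (4:ℝ) ≤ |(k:ℝ)| := by
    have h1 : (4:ℝ) ≤ ((max n0 N : ℕ) : ℝ) := by exact_mod_cast hn04.trans (le_max_left _ _)
    exact h1.trans hk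
  have hkpos : 0 < |(k:ℝ)| := by linarith
  have hb : Ch * (X / |(k:ℝ)| + C * (cnp s ^ 2 + η * X) / |(k:ℝ)| ^ 2) ≤
      Ch * (1 + C) * (X / |(k:ℝ)| + cnp s ^ 2 + η * X) := by
    have h0 : 0 ≤ cnp s ^ 2 + η * X := by positivity
    have h1 : C * (cnp s ^ 2 + η * X) / |(k:ℝ)| ^ 2 ≤ C * (cnp s ^ 2 + η * X) := by
      refine div_le_self (by positivity) ?_
      nlinarith
    have h2 : 0 ≤ X / |(k:ℝ)| := by positivity
    have h3 : 0 ≤ C * (X / |(k:ℝ)|) := by positivity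
    rw [mul_assoc]
    refine mul_le_mul_of_nonneg_left ?_ hCh.le
    nlinarith
  refine ⟨key.1.trans ?_, key.2.trans ?_⟩
  · exact div_le_div_of_nonneg_right hb (by positivity)
  · exact div_le_div_of_nonneg_right hb (by positivity)

end Pool.Agent.MP_ae5b4e_an_LOC
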