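import Pool.Agent.Lib.MP_ae5b4e_an_LOC.Frm1
import Pool.Agent.Lib.MP_ae5b4e_an_LOC.RB

/-!
# MP_ae5b4e_an, project LOC: `con_loc` in terms of the real background `RB`
-/

noncomputable section

namespace Pool.Agent.MP_ae5b4e_an_LOC

open Set Filter Topology MeasureTheory intervalIntegral

lemma kerL_H (m : ℝ) (V W : V3) (j : Fin 4) :
    kerL m (Pi.single ((![0, 1, 2, 3] : Fin 4 → Fin 12) j) 1) V W =
      (cH j V W 1, cH j V W 3 - 2 * fQ W * cH j V W 1) := by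
  fin_cases j <;> refine Prod.ext ?_ ?_ <;>
    simp [kerL, f1, f3, pc, pa, pb, G1, G3, Rf, Rb, Qf, fQ, cH, cU, cR, i1, i2] <;> ring

lemma kerL_Q (m : ℝ) (V W : V3) (j : Fin 4) :
    kerL m (Pi.single ((![4, 5, 6, 7] : Fin 4 → Fin 12) j) 1) V W =
      (cR j V W 1, -(fQ W * cR j V W 1)) := by
  fin_cases j <;> refine Prod.ext ?_ ?_ <;>
    simp [kerL, f1, f3, pc, pa, pb, G1, G3, Rf, Rb, Qf, fQ, cR, i1, i2] <;> ring

lemma kerL_E (m : ℝ) (V W : V3) (j : Fin 4) :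
    kerL m (Pi.single ((![8, 9, 10, 11] : Fin 4 → Fin 12) j) 1) V W =
      (0, Ef m W * cR j V W 1) := by
  fin_cases j <;> refine Prod.ext ?_ ?_ <;>
    simp [-mul_eq_mul_left_iff, kerL, f1, f3, pc, pa, pb, G1, G3, Rf, Rb, Qf, cR, i1, i2] <;>
    ring

/-- The frame and the quartic form, for the real background of the nonlinear half. -/
theorem con_rb {B : Bg} {D : KerD B} (R : RB B D) {k : ℝ} (h : BC R.m1 R.e k R.P R.P1) :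
    ∃ C > 0, ∃ ε0 > 0, ∀ ε : ℝ, 0 ≤ ε → ε ≤ ε0 → ∀ V W : ℝ → V3,
    Continuous V → Continuous W → (∀ x ∈ Icc (0:ℝ) 1, ‖V x - R.P x‖ ≤ ε) →
    (∀ x ∈ Icc (0:ℝ) 1, ‖W x - R.P1 x‖ ≤ ε) →
    ∃ p : P12, ‖p‖ ≤ C * ε ∧ (∀ x ∈ Icc (0:ℝ) 1, (nmf R.m1 p (V x) (W x)).al0 ≠ 0) ∧
      (∀ j, ∫ x in (0:ℝ)..1, ((R.kH j x).1 * (nmf R.m1 p (V x) (W x)).e0 +
        (R.kH j x).2 * (nmf R.m1 p (V x) (W x)).e1) = 0) ∧
      (∀ j, ∫ x in (0:ℝ)..1, ((R.kQ j x).1 * (nmf R.m1 p (V x) (W x)).e0 +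
        (R.kQ j x).2 * (nmf R.m1 p (V x) (W x)).e1) = 0) ∧
      (∀ j, ∫ x in (0:ℝ)..1, ((R.kE j x).1 * (nmf R.m1 p (V x) (W x)).e0 +
        (R.kE j x).2 * (nmf R.m1 p (V x) (W x)).e1) = 0) := by
  obtain ⟨C, hC, ε0, hε0, H⟩ := h.con_loc
  refine ⟨C, hC, ε0, hε0, fun ε h0 h1 V W cV cW bV bW => ?_⟩
  obtain ⟨p, hp, hU, hz⟩ := H ε h0 h1 V W cV cW bV bW
  refine ⟨p, hp, hU, fun j => ?_, fun j => ?_, fun j => ?_⟩
  · have h2 := hz ((![0, 1, 2, 3] : Fin 4 → Fin 12) j)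
    simp only [kerL_H] at h2
    exact h2
  · have h2 := hz ((![4, 5, 6, 7] : Fin 4 → Fin 12) j)
    simp only [kerL_Q] at h2
    exact h2
  · have h2 := hz ((![8, 9, 10, 11] : Fin 4 → Fin 12) j)
    simp only [kerL_E, h.E2] at h2
    exact h2

end Pool.Agent.MP_ae5b4e_an_LOC
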