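import Mathlib
import Pool.Agent.Lib.MP_ae5b4e_an_LOC.DatR
import Pool.Agent.Lib.MP_ae5b4e_an_LOC.FrmR
import Pool.Agent.Lib.MP_ae5b4e_an_LOC.ConeL

/-!
# MP_ae5b4e_an, project LOC: the core theorem

A solution whose curve is near the background lies on a conic.
-/

noncomputable section

namespace Pool.Agent.MP_ae5b4e_an_LOC

open Real Set Filter Topology
open Pool.Agent.MP_ae5b4e_an_hopf Pool.Agent.MP_ae5b4e_an_RG
open Pool.Agent.MP_ae5b4e_an_NC hiding exists_pleaf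

namespace RB

variable {B : Bg} {D : KerD B} (R : RB B D)

/-- the twelve kernel elements -/
def ker (a : Fin 3 × Fin 4) (x : ℝ) : ℝ × ℝ :=
  (![R.kH a.2 x, R.kQ a.2 x, R.kE a.2 x] : Fin 3 → ℝ × ℝ) a.1

lemma cont_ker (a : Fin 3 × Fin 4) : (Continuous fun x => (R.ker a x).1) ∧
    Continuous fun x => (R.ker a x).2 := by
  obtain ⟨i, j⟩ := a
  have cl := R.cont_la
  have h1 := R.cont_cH j 1
  have h3 := R.cont_cH j 3
  have r1 := R.cont_cR j 1
  fin_cases i
  · change (Continuous fun x => (R.kH j x).1) ∧ Continuous fun x => (R.kH j x).2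
    simp only [kH]
    exact ⟨by fun_prop, by fun_prop⟩
  · change (Continuous fun x => (R.kQ j x).1) ∧ Continuous fun x => (R.kQ j x).2
    simp only [kQ]
    exact ⟨by fun_prop, by fun_prop⟩
  · change (Continuous fun x => (R.kE j x).1) ∧ Continuous fun x => (R.kE j x).2
    simp only [kE]
    exact ⟨by fun_prop, by fun_prop⟩

/-- the integral functionals -/
def kFn (a : Fin 3 × Fin 4) : Fn :=
  ⟨fun x => ((R.ker a x).1 : ℂ), fun x => ((R.ker a x).2 : ℂ), fun _ => 0, fun x => x,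
    Complex.continuous_ofReal.comp (R.cont_ker a).1,
    Complex.continuous_ofReal.comp (R.cont_ker a).2, continuous_const, continuous_id⟩

lemma kFn_ev (a : Fin 3 × Fin 4) (f0 f1 s : ℝ → ℝ) : (R.kFn a).fnl.ev f0 f1 s =
    ((∫ x in (0:ℝ)..1, ((R.ker a x).1 * f0 x + (R.ker a x).2 * f1 x) : ℝ) : ℂ) := by
  change (R.kFn a).ev f0 f1 s = _
  unfold Fn.ev kFn
  rw [← intervalIntegral.integral_ofReal]
  refine intervalIntegral.integral_congr fun x _ => ?_
  push_cast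
  ring

open Classical in
/-- all the functionals -/
def Phi : (ℕ × ℕ × ℝ) ⊕ (Fin 3 × Fin 4) → Fnl
  | Sum.inl (p, q, t) => ptFnl (if PV B p q then q else 0)
      (fun j => gA 0 (R.la (R.yj ((p:ℝ) / q) t j))
        (R.tau ((p:ℝ) / q) (R.yj ((p:ℝ) / q) t j)))
      (fun j => gB 0 (R.la (R.yj ((p:ℝ) / q) t j))
        (R.tau ((p:ℝ) / q) (R.yj ((p:ℝ) / q) t j)))
      (fun j => gS 0 (R.la (R.yj ((p:ℝ) / q) t j))
        (R.tau ((p:ℝ) / q) (R.yj ((p:ℝ) / q) t j)))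
      (fun j => R.yj ((p:ℝ) / q) t j)
  | Sum.inr a => (R.kFn a).fnl

lemma Phi_inl {p q : ℕ} (h : PV B p q) (t : ℝ) (f0 f1 s : ℝ → ℝ) :
    (R.Phi (Sum.inl (p, q, t))).ev f0 f1 s = (R.pL p q t f0 f1 s : ℂ) := by
  unfold Phi ptFnl pL
  simp only [if_pos h]

lemma Phi_inl' {p q : ℕ} (h : ¬ PV B p q) (t : ℝ) (f0 f1 s : ℝ → ℝ) :
    (R.Phi (Sum.inl (p, q, t))).ev f0 f1 s = 0 := by
  unfold Phi ptFnl
  simp only [if_neg h, Finset.range_zero, Finset.sum_empty, Complex.ofReal_zero]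

/-- continuity and homogeneity of the source -/
lemma cont_S : Continuous fun z : (Fin 4 → ℝ) × ℝ => R.S z.1 z.2 := by
  have cl := R.cont_la
  have cg : ∀ k : Fin 5, Continuous fun z : (Fin 4 → ℝ) × ℝ => R.g z.1 k z.2 := by
    intro k
    unfold g
    refine continuous_finsetSum _ fun j _ => ?_
    exact ((continuous_apply j).comp continuous_fst).mul ((R.cont_cH j k).comp continuous_snd)
  have c0 := cg 0
  have c1 := cg 1
  have c2 := cg 2
  have c3 := cg 3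
  have c4 := cg 4
  have cl' : Continuous fun z : (Fin 4 → ℝ) × ℝ => R.la z.2 := cl.comp continuous_snd
  unfold S
  fun_prop

lemma g_smul (t : ℝ) (c : Fin 4 → ℝ) (k : Fin 5) (x : ℝ) : R.g (t • c) k x = t * R.g c k x := by
  unfold g
  rw [Finset.mul_sum]
  refine Finset.sum_congr rfl fun j _ => ?_
  simp only [Pi.smul_apply, smul_eq_mul]
  ring

lemma S_smul (t : ℝ) (c : Fin 4 → ℝ) (x : ℝ) : R.S (t • c) x = t ^ 2 * R.S c x := by
  unfold S
  simp only [g_smul]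
  ring

/-- a uniform bound of a continuous periodic function -/
lemma exists_bd {f : ℝ → ℝ} (hf : Continuous f) (hp : Function.Periodic f 1) :
    ∃ M > 0, ∀ x, |f x| ≤ M := by
  obtain ⟨M, hM⟩ := isCompact_Icc.exists_bound_of_continuousOn (s := Icc (0:ℝ) 1) hf.continuousOn
  refine ⟨|M| + 1, by positivity, fun x => ?_⟩
  obtain ⟨y, hy, hxy⟩ := hp.exists_mem_Ico₀ one_pos x
  rw [hxy]
  have h1 := hM y ⟨hy.1, hy.2.le⟩
  rw [Real.norm_eq_abs] at h1
  have h2 := le_abs_self M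
  linarith

lemma exists_gbd : ∃ M > 0, ∀ (c : Fin 4 → ℝ) (k : Fin 5) (x : ℝ), |R.g c k x| ≤ M * ‖c‖ := by
  have h1 : ∀ (j : Fin 4) (k : Fin 5), ∃ M > 0, ∀ x, |cH j (R.P x) (R.P1 x) k| ≤ M := by
    intro j k
    refine exists_bd (R.cont_cH j k) fun x => ?_
    simp only [R.per_P, R.per_P1]
  choose M hM hb using h1
  refine ⟨∑ j, ∑ k, M j k, ?_, fun c k x => ?_⟩
  · exact Finset.sum_pos (fun j _ => Finset.sum_pos (fun k _ => hM j k) ⟨0, Finset.mem_univ _⟩)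
      ⟨0, Finset.mem_univ _⟩
  · unfold g
    refine (Finset.abs_sum_le_sum_abs _ _).trans ?_
    rw [Finset.sum_mul]
    refine Finset.sum_le_sum fun j _ => ?_
    rw [abs_mul, mul_comm]
    have h2 : |c j| ≤ ‖c‖ := norm_le_pi_norm c j
    have h3 : M j k ≤ ∑ k, M j k :=
      Finset.single_le_sum (f := fun k => M j k) (fun k _ => (hM j k).le) (Finset.mem_univ k)
    exact mul_le_mul ((hb j k x).trans h3) h2 (abs_nonneg _)
      (Finset.sum_nonneg fun k _ => (hM j k).le)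

lemma exists_Sbd : ∃ M : ℝ, ∀ (c : Fin 4 → ℝ) (x : ℝ), |R.S c x| ≤ M * ‖c‖ ^ 2 := by
  obtain ⟨M, hM, hg⟩ := R.exists_gbd
  obtain ⟨l, hl, hla⟩ := exists_bd R.cont_la R.per_la
  have he := R.e_pos
  refine ⟨(M + l * M) * (M + l * M + l ^ 2 * M) / (2 * R.e), fun c x => ?_⟩
  unfold S
  rw [abs_div, abs_of_pos (by positivity : 0 < 2 * R.e), div_mul_eq_mul_div]
  refine div_le_div_of_nonneg_right ?_ (by positivity)
  rw [abs_mul]
  have n0 : 0 ≤ ‖c‖ := norm_nonneg _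
  have a1 : |R.g c 3 x - R.la x * R.g c 1 x| ≤ (M + l * M) * ‖c‖ := by
    refine (abs_sub _ _).trans ?_
    rw [abs_mul]
    have h1 := mul_le_mul (hla x) (hg c 1 x) (abs_nonneg _) hl.le
    have h2 := hg c 3 x
    linarith
  have a2 : |R.g c 4 x - R.la x * R.g c 2 x + R.la x ^ 2 * R.g c 0 x| ≤
      (M + l * M + l ^ 2 * M) * ‖c‖ := by
    refine (abs_add_le _ _).trans ?_
    have h0 : |R.g c 4 x - R.la x * R.g c 2 x| ≤ (M + l * M) * ‖c‖ := by
      refine (abs_sub _ _).trans ?_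
      rw [abs_mul]
      have h1 := mul_le_mul (hla x) (hg c 2 x) (abs_nonneg _) hl.le
      have h2 := hg c 4 x
      linarith
    have h3 : |R.la x ^ 2 * R.g c 0 x| ≤ l ^ 2 * (M * ‖c‖) := by
      rw [abs_mul, abs_pow]
      refine mul_le_mul ?_ (hg c 0 x) (abs_nonneg _) (by positivity)
      exact pow_le_pow_left₀ (abs_nonneg _) (hla x) 2
    linarith
  calc |R.g c 3 x - R.la x * R.g c 1 x| *
        |R.g c 4 x - R.la x * R.g c 2 x + R.la x ^ 2 * R.g c 0 x|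
      ≤ ((M + l * M) * ‖c‖) * ((M + l * M + l ^ 2 * M) * ‖c‖) :=
        mul_le_mul a1 a2 (abs_nonneg _) (by positivity)
    _ = (M + l * M) * (M + l * M + l ^ 2 * M) * ‖c‖ ^ 2 := by ring

end RB

/-- weights of the functionals -/
def nuw : (ℕ × ℕ × ℝ) ⊕ (Fin 3 × Fin 4) → ℕ
  | Sum.inl (p, q, _) => p + q
  | Sum.inr _ => 0

/-- THE CORE THEOREM: a solution near the background lies on a conic. -/
theorem loc_core {B : Bg} {D : KerD B} (R : RB B D) {P0 : ℝ → Fin 3 → ℝ} {r0 m0 : ℝ → ℝ}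
    {K0 : ℝ} (hL : Lk R P0 r0 m0 K0) {ρ0 L k : ℝ} (hρ0 : 0 < ρ0) (hL0 : 0 ≤ L)
    (hBW : BW ρ0 L R.m1 R.e R.P R.P1) (hBC : BC R.m1 R.e k R.P R.P1) (hLIN : LIN'Stmt B D)
    {K δ : ℝ} (hK : 0 ≤ K) (hδ : 0 < δ) (hr : B.r ≤ δ) : ∃ ε > 0,
    ∀ (P : ℝ → Fin 3 → ℝ) (U : ℝ → ℝ → ℝ) (r m : ℝ → ℝ), NSK K δ P U r m →
      (∀ x, |r x - r0 x| ≤ ε) → (∀ x, |m x - m0 x| ≤ ε) →
      ∀ (T : V3 →ₗ[ℝ] V3) (V W : ℝ → V3), (∀ x, V x = T (P x)) →
      (∀ x, W x = (1 / (2 * π)) • T (deriv P x)) →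
      (∀ i, WR ρ0 2 ε (fun x => V x i - R.P x i)) →
      (∀ i, WR ρ0 2 ε (fun x => W x i - R.P1 x i)) →
      ∃ C : QuadraticForm ℝ V3, C ≠ 0 ∧ ∀ x, C (V x) = 0 := by
  have he := R.e_pos
  obtain ⟨ρ, hρ, hρρ0, HH⟩ := high_dat R.m1 hρ0 hK hδ
  obtain ⟨C, hC, HN⟩ := nm_pack hρ.le hρρ0 he.ne' hL0 hBW
  obtain ⟨C1, n0, hC1, -, HH1⟩ := HH C hC
  obtain ⟨Ms, hMs⟩ := R.exists_Sbd
  obtain ⟨η, hη, Hcl⟩ := closing R.Phi nuw hρ.le hC1.le n0 R.S R.cont_S R.S_smul hMs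
    (fun f0 f1 c w0 w1 hz => lin R hLIN hρ w0 w1
      (fun p q hp hq hc hr t => by
        have h1 := hz (Sum.inl (p, q, t))
        rw [R.Phi_inl ⟨hp, hq, hc, hr⟩] at h1
        exact_mod_cast h1)
      (fun j => by
        have h1 := hz (Sum.inr (0, j))
        change (R.kFn (0, j)).fnl.ev f0 f1 (R.S c) = 0 at h1
        rw [R.kFn_ev] at h1
        exact_mod_cast h1)
      (fun j => by
        have h1 := hz (Sum.inr (1, j))
        change (R.kFn (1, j)).fnl.ev f0 f1 (R.S c) = 0 at h1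
        rw [R.kFn_ev] at h1
        exact_mod_cast h1)
      (fun j => by
        have h1 := hz (Sum.inr (2, j))
        change (R.kFn (2, j)).fnl.ev f0 f1 (R.S c) = 0 at h1
        rw [R.kFn_ev] at h1
        exact_mod_cast h1))
  -- the polygons
  obtain ⟨N, hN⟩ := exists_nat_gt (1 / η)
  have hpd : ∀ pq : ℕ × ℕ, ∃ ε > 0, PV B pq.1 pq.2 →
      ∀ (P : ℝ → Fin 3 → ℝ) (U : ℝ → ℝ → ℝ) (r m : ℝ → ℝ), NSK K δ P U r m →
      (∀ x, |r x - r0 x| ≤ ε) → (∀ x, |m x - m0 x| ≤ ε) →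
      ∀ (T : V3 →ₗ[ℝ] V3) (V W : ℝ → V3), (∀ x, V x = T (P x)) →
      (∀ x, W x = (1 / (2 * π)) • T (deriv P x)) → ∀ (s : P12) (η' : ℝ), η' ≤ ε →
      Pk ρ0 ρ C η' R.la (R.S (pc s)) (cnp s) (fun x => nmf R.m1 s (V x) (W x)) →
      ∀ X, WR ρ 4 X (fun x => (nmf R.m1 s (V x) (W x)).e0) →
        WR ρ 2 X (fun x => (nmf R.m1 s (V x) (W x)).e1) → ∀ t,
        |R.pL pq.1 pq.2 t (fun x => (nmf R.m1 s (V x) (W x)).e0)
          (fun x => (nmf R.m1 s (V x) (W x)).e1) (R.S (pc s))| ≤ η * (X + cnp s ^ 2) := by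
    intro pq
    by_cases h : PV B pq.1 pq.2
    · obtain ⟨ε, hε, h1⟩ := poly_dat (K := K) (ρ0 := ρ0) R hL hρ hC hr h hη
      exact ⟨ε, hε, fun _ => h1⟩
    · exact ⟨1, one_pos, fun h2 => absurd h2 h⟩
  choose f hf Hf using hpd
  obtain ⟨εp, hεp, hεpl⟩ : ∃ ε > 0, ∀ a ∈ Finset.range (N + 1) ×ˢ Finset.range (N + 1),
      ε ≤ f a := by
    generalize Finset.range (N + 1) ×ˢ Finset.range (N + 1) = s
    induction s using Finset.induction_on with
    | empty => exact ⟨1, one_pos, fun a ha => absurd ha (Finset.notMem_empty a)⟩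
    | insert b s hb ih =>
      obtain ⟨ε, hε, h1⟩ := ih
      refine ⟨min ε (f b), lt_min hε (hf b), fun a ha => ?_⟩
      rcases Finset.mem_insert.1 ha with h2 | h2
      · rw [h2]
        exact min_le_right _ _
      · exact (min_le_left _ _).trans (h1 a h2)
  obtain ⟨ηN, hηN⟩ : ∃ x : ℝ, x = min (min η 1) εp := ⟨_, rfl⟩
  have hηN0 : 0 < ηN := by
    rw [hηN]
    positivity
  have hηN1 : ηN ≤ η := hηN ▸ (min_le_left _ _).trans (min_le_left _ _)
  have hηN2 : ηN ≤ 1 := hηN ▸ (min_le_left _ _).trans (min_le_right _ _)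
  have hηN3 : ηN ≤ εp := hηN ▸ min_le_right _ _
  obtain ⟨εN, hεN, HN1⟩ := HN ηN hηN0 hηN2
  obtain ⟨C2, hC2, ε2, hε2, Hcon⟩ := con_rb R hBC
  obtain ⟨ε3, hε3, Hcone⟩ := cone_loc R.m1
  -- the final size
  obtain ⟨ε, hεd⟩ : ∃ x : ℝ, x = min (min εN εp) (min (ε2 / 3) (min εN ε3 / (3 * C2))) :=
    ⟨_, rfl⟩
  have hε0 : 0 < ε := by
    rw [hεd]
    positivity
  have hεN' : ε ≤ εN := hεd ▸ (min_le_left _ _).trans (min_le_left _ _)
  have hεp' : ε ≤ εp := hεd ▸ (min_le_left _ _).trans (min_le_right _ _)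
  have hε2' : 3 * ε ≤ ε2 := by
    have h1 : ε ≤ ε2 / 3 := hεd ▸ (min_le_right _ _).trans (min_le_left _ _)
    linarith
  have hε3' : C2 * (3 * ε) ≤ min εN ε3 := by
    have h1 : ε ≤ min εN ε3 / (3 * C2) := hεd ▸ (min_le_right _ _).trans (min_le_right _ _)
    rw [le_div_iff₀ (by positivity)] at h1
    linarith
  refine ⟨ε, hε0, ?_⟩
  intro P U r m hS hrr hmm T V W hV hW wV wW
  have cT : Continuous T := LinearMap.continuous_of_finiteDimensional T
  have cV : Continuous V := by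
    rw [funext hV]
    exact cT.comp hS.sys.curve.smooth.continuous
  have cW : Continuous W := by
    rw [funext hW]
    have c1 : Continuous fun x => T (deriv P x) := cT.comp hS.sys.curve.smooth1.continuous
    exact c1.const_smul (1 / (2 * π))
  have nV : ∀ x ∈ Icc (0:ℝ) 1, ‖V x - R.P x‖ ≤ 3 * ε := fun x _ =>
    (pi_norm_le_iff_of_nonneg (by positivity)).2 fun i => by
      rw [Real.norm_eq_abs]
      exact (wV i).sup hρ0.le le_rfl x
  have nW : ∀ x ∈ Icc (0:ℝ) 1, ‖W x - R.P1 x‖ ≤ 3 * ε := fun x _ =>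
    (pi_norm_le_iff_of_nonneg (by positivity)).2 fun i => by
      rw [Real.norm_eq_abs]
      exact (wW i).sup hρ0.le le_rfl x
  obtain ⟨s, hs, -, oH, oQ, oE⟩ := Hcon (3 * ε) (by positivity) hε2' V W cV cW nV nW
  have hsN : ‖s‖ ≤ εN := hs.trans (hε3'.trans (min_le_left _ _))
  have hs3 : ‖s‖ ≤ ε3 := hs.trans (hε3'.trans (min_le_right _ _))
  have hPk : Pk ρ0 ρ C ηN R.la (R.S (pc s)) (cnp s) (fun x => nmf R.m1 s (V x) (W x)) := by
    have h1 := HN1 V W s (fun k => (wV k).mono hεN') (fun k => (wW k).mono hεN') hsN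
    have h2 : (fun x => Qf (R.P1 x)) = R.la := funext R.Qf_P1
    have h3 : (fun x => (hfn s R.P R.P1).r3 (fun x => Qf (R.P1 x)) x *
        (hfn s R.P R.P1).r4 (fun x => Qf (R.P1 x)) x / (2 * R.e)) = R.S (pc s) :=
      funext (R.S_eq s)
    rw [h3, h2] at h1
    exact h1
  have hdat : Dat R.Phi nuw ρ C1 n0 R.S η (fun x => (nmf R.m1 s (V x) (W x)).e0)
      (fun x => (nmf R.m1 s (V x) (W x)).e1) (pc s) := by
    refine ⟨hPk.e0.mono hηN1, hPk.e1.mono hηN1, ?_, ?_, ?_⟩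
    · intro X hXη w0 w1 i hi
      have hX0 : 0 ≤ X := w0.nonneg
      have hnn : 0 ≤ η * (X + ‖pc s‖ ^ 2) := by positivity
      rcases i with ⟨p, q, t⟩ | ⟨a, j⟩
      · by_cases hpq : PV B p q
        · rw [R.Phi_inl hpq, Complex.norm_real, Real.norm_eq_abs]
          have hle : (p + q : ℕ) ≤ N := by
            have h1 : ((p + q : ℕ) : ℝ) * η ≤ 1 := hi
            have h2 : ((p + q : ℕ) : ℝ) ≤ 1 / η := by
              rw [le_div_iff₀ hη]
              exact h1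
            exact_mod_cast h2.trans hN.le
          have hmem : (p, q) ∈ Finset.range (N + 1) ×ˢ Finset.range (N + 1) := by
            rw [Finset.mem_product, Finset.mem_range, Finset.mem_range]
            constructor <;> simp only <;> omega
          have h3 := hεpl (p, q) hmem
          exact Hf (p, q) hpq P U r m hS (fun x => (hrr x).trans (hεp'.trans h3))
            (fun x => (hmm x).trans (hεp'.trans h3)) T V W hV hW s ηN (hηN3.trans h3) hPk X w0 w1 t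
        · rw [R.Phi_inl' hpq, norm_zero]
          exact hnn
      · have h1 : (R.Phi (Sum.inr (a, j))).ev (fun x => (nmf R.m1 s (V x) (W x)).e0)
            (fun x => (nmf R.m1 s (V x) (W x)).e1) (R.S (pc s)) = 0 := by
          change (R.kFn (a, j)).fnl.ev _ _ _ = 0
          rw [R.kFn_ev]
          fin_cases a
          · exact_mod_cast oH j
          · exact_mod_cast oQ j
          · exact_mod_cast oE j
        rw [h1, norm_zero]
        exact hnn
    · intro X hXη w0 w1 k hk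
      have hX0 : 0 ≤ X := w0.nonneg
      refine (HH1 P U r m hS T V W hV hW s R.la (R.S (pc s)) ηN hηN2 hPk X w0 w1 k hk).1.trans ?_
      refine div_le_div_of_nonneg_right ?_ (by positivity)
      refine mul_le_mul_of_nonneg_left ?_ hC1.le
      have h1 : ηN * X ≤ η * X := mul_le_mul_of_nonneg_right hηN1 hX0
      have h2 : cnp s = ‖pc s‖ := rfl
      rw [h2]
      linarith
    · intro X hXη w0 w1 k hk
      have hX0 : 0 ≤ X := w0.nonneg
      refine (HH1 P U r m hS T V W hV hW s R.la (R.S (pc s)) ηN hηN2 hPk X w0 w1 k hk).2.trans ?_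
      refine div_le_div_of_nonneg_right ?_ (by positivity)
      refine mul_le_mul_of_nonneg_left ?_ hC1.le
      have h1 : ηN * X ≤ η * X := mul_le_mul_of_nonneg_right hηN1 hX0
      have h2 : cnp s = ‖pc s‖ := rfl
      rw [h2]
      linarith
  obtain ⟨hc, he0, -⟩ := Hcl _ _ _ hdat
  refine Hcone s hs3 hc (2 * π) V W (fun x => ?_) hPk.al he0
  have hd : HasDerivAt P (deriv P x) x :=
    (hS.sys.curve.smooth.differentiable (by simp) x).hasDerivAt
  have h1 : HasDerivAt (fun x => T (P x)) (T (deriv P x)) x :=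
    (LinearMap.toContinuousLinearMap T).hasFDerivAt.comp_hasDerivAt x hd
  have h2 : V = fun x => T (P x) := funext hV
  rw [h2]
  refine h1.congr_deriv ?_
  rw [hW, smul_smul]
  have hπ : 2 * π * (1 / (2 * π)) = 1 := by
    field_simp
  rw [hπ, one_smul]

end Pool.Agent.MP_ae5b4e_an_LOC
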