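import Mathlib
import Pool.Agent.Lib.MP_ae5b4e_an_LOC.Core
import Pool.Agent.Lib.MP_ae5b4e_an_LOC.AnaB

/-!
# MP_ae5b4e_an, project LOC: a normalized solution near the background lies on a conic
-/

noncomputable section

namespace Pool.Agent.MP_ae5b4e_an_LOC

open Real Set Filter Topology Matrix
open scoped ContDiff
open Pool.Agent.MP_ae5b4e_an_hopf Pool.Agent.MP_ae5b4e_an_RG Pool.Agent.MP_ae5b4e_an_NC
open Pool.Agent.MP_ae5b4e_an_RIG (Bnd)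

private lemma V_mono' {ρ ρ' : ℝ} (h : ρ ≤ ρ') (N b : ℕ) (k : ℤ) : V ρ N b k ≤ V ρ' N b k := by
  unfold V MP_ae5b4e_an_RG.w
  apply mul_le_mul_of_nonneg_left _ (by positivity)
  apply Real.exp_le_exp.2
  exact mul_le_mul_of_nonneg_right h (le_min (abs_nonneg _) (Nat.cast_nonneg _))

private lemma dec_weak {ρ ρ' A A' : ℝ} (h : ρ ≤ ρ') (hA : A' ≤ A) (hA0 : 0 ≤ A) {z : ℂ} {N : ℕ}
    {k : ℤ} (hz : ‖z‖ ≤ A' / V ρ' N 2 k) : ‖z‖ ≤ A / V ρ N 2 k :=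
  hz.trans ((div_le_div_of_nonneg_right hA (V_pos ρ' N 2 k).le).trans
    (div_le_div_of_nonneg_left hA0 (V_pos ρ N 2 k) (V_mono' h N 2 k)))

/-- a linear map, weighted bounds -/
private lemma lin_wr {ρ η : ℝ} (T : V3 →ₗ[ℝ] V3) {u : ℝ → V3} (h : ∀ i, WR ρ 2 η (fun x => u x i))
    (i : Fin 3) : WR ρ 2 ((∑ j, ∑ i, |T (Pi.single j 1) i|) * η) (fun x => T (u x) i) := by
  have hη : 0 ≤ η := (h 0).nonneg
  have h1 : ∀ x, T (u x) i = T (Pi.single 0 1) i * u x 0 + T (Pi.single 1 1) i * u x 1 +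
      T (Pi.single 2 1) i * u x 2 := by
    intro x
    have h2 : u x = u x 0 • (Pi.single 0 1 : V3) + u x 1 • (Pi.single 1 1 : V3) +
        u x 2 • (Pi.single 2 1 : V3) := by
      ext j
      fin_cases j <;> simp
    conv_lhs => rw [h2]
    simp only [map_add, map_smul, Pi.add_apply, Pi.smul_apply, smul_eq_mul]
    ring
  have h3 := (((h 0).const_mul (T (Pi.single 0 1) i)).add ((h 1).const_mul (T (Pi.single 1 1) i))).add
    ((h 2).const_mul (T (Pi.single 2 1) i))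
  refine (h3.congr fun x => (h1 x).symm).mono ?_
  have h4 : ∀ j : Fin 3, |T (Pi.single j 1) i| ≤ ∑ i, |T (Pi.single j 1) i| := fun j =>
    Finset.single_le_sum (f := fun i => |T (Pi.single j 1) i|) (fun _ _ => abs_nonneg _)
      (Finset.mem_univ i)
  have h5 : |T (Pi.single 0 1) i| + |T (Pi.single 1 1) i| + |T (Pi.single 2 1) i| ≤
      ∑ j, ∑ i, |T (Pi.single j 1) i| := by
    rw [Fin.sum_univ_three (fun j => ∑ i, |T (Pi.single j 1) i|)]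
    linarith [h4 0, h4 1, h4 2]
  calc |T (Pi.single 0 1) i| * η + |T (Pi.single 1 1) i| * η + |T (Pi.single 2 1) i| * η =
      (|T (Pi.single 0 1) i| + |T (Pi.single 1 1) i| + |T (Pi.single 2 1) i|) * η := by ring
    _ ≤ _ := mul_le_mul_of_nonneg_right h5 hη

/-- A normalized solution near the background lies on a conic. -/
theorem near_bg {B : Bg} {D : KerD B} (R : RB B D) {P0 : ℝ → Fin 3 → ℝ} {r0 m0 : ℝ → ℝ} {K0 : ℝ}
    (lk : Lk R P0 r0 m0 K0) (sr0 : ContDiff ℝ ∞ r0) (sm0 : ContDiff ℝ ∞ m0)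
    (pr0 : Function.Periodic r0 1) (pm0 : Function.Periodic m0 1) (T : V3 ≃ₗ[ℝ] V3)
    (hT : ∀ x, R.P x = T (P0 x)) (hT1 : ∀ x, R.P1 x = (1 / (2 * π)) • T (deriv P0 x))
    {ρb Lb : ℝ} (hρb : 0 < ρb) (hLb : 0 ≤ Lb) (bw : BW ρb Lb R.m1 R.e R.P R.P1) {k : ℝ}
    (bc : BC R.m1 R.e k R.P R.P1) {ρd Ad : ℝ} (hρd : 0 < ρd)
    (dr0 : ∀ (N : ℕ) (k : ℤ), ‖rc r0 k‖ ≤ Ad / V ρd N 2 k)
    (dm0 : ∀ (N : ℕ) (k : ℤ), ‖rc m0 k‖ ≤ Ad / V ρd N 2 k) (hLIN : LIN'Stmt B D)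
    {K δ : ℝ} (hδ : 0 < δ) (hB : B.r ≤ δ) : ∃ ε > 0, ∀ (P : ℝ → Fin 3 → ℝ) (U : ℝ → ℝ → ℝ)
      (r m : ℝ → ℝ), NSK K δ P U r m → (∀ x, |r x - r0 x| ≤ ε) → (∀ x, |m x - m0 x| ≤ ε) →
      ∃ C : QuadraticForm ℝ V3, C ≠ 0 ∧ ∀ x, C (P x) = 0 := by
  obtain ⟨K', hK', hKK⟩ : ∃ K' : ℝ, 0 ≤ K' ∧ K ≤ K' := ⟨max K 0, le_max_right _ _, le_max_left _ _⟩
  obtain ⟨ρ1, A1, hρ1, hA1, HD⟩ := rm_decay_bg K' δ hK' hδ
  -- common constants of the decay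
  obtain ⟨ρ, hρ, hρ1', hρd'⟩ : ∃ ρ : ℝ, 0 < ρ ∧ ρ ≤ ρ1 ∧ ρ ≤ ρd :=
    ⟨min ρ1 ρd, lt_min hρ1 hρd, min_le_left _ _, min_le_right _ _⟩
  obtain ⟨A, hA, hA1', hAd'⟩ : ∃ A : ℝ, 0 ≤ A ∧ 7 * A1 ≤ A ∧ Ad ≤ A :=
    ⟨max (7 * A1) Ad, le_max_of_le_left (by linarith), le_max_left _ _, le_max_right _ _⟩
  obtain ⟨C, hC, HA⟩ := ana_bg lk.ib.curve lk.wr lk.ode sr0 sm0 pr0 pm0 lk.r0 lk.m0 hρ hA
    (fun N k => dec_weak hρd' hAd' hA (dr0 N k)) (fun N k => dec_weak hρd' hAd' hA (dm0 N k))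
  obtain ⟨ρ0, hρ0, hρ0', hρ0b⟩ : ∃ ρ0 : ℝ, 0 < ρ0 ∧ ρ0 ≤ ρ / 4 ∧ ρ0 ≤ ρb :=
    ⟨min (ρ / 4) ρb, lt_min (by positivity) hρb, min_le_left _ _, min_le_right _ _⟩
  have bw' : BW ρ0 Lb R.m1 R.e R.P R.P1 :=
    ⟨fun k => (bw.v k).rho_mono hρ0b, fun k => (bw.w k).rho_mono hρ0b, bw.E0, bw.E1, bw.E2, bw.Q0,
      bw.Q1⟩
  obtain ⟨εc, hεc, HC⟩ := loc_core R lk hρ0 hLb bw' bc hLIN hK' hδ hB
  set t : ℝ := ∑ j, ∑ i, |T.toLinearMap (Pi.single j 1) i| with ht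
  have ht0 : 0 ≤ t := Finset.sum_nonneg fun _ _ => Finset.sum_nonneg fun _ _ => abs_nonneg _
  -- the closeness
  refine ⟨min (min 1 εc) ((εc / (C * (t + 1))) ^ 2), lt_min (lt_min one_pos hεc) (by positivity), ?_⟩
  intro P U r m h hr hm
  set ε : ℝ := min (min 1 εc) ((εc / (C * (t + 1))) ^ 2) with hε
  have hε1 : ε ≤ 1 := (min_le_left _ _).trans (min_le_left _ _)
  have hεε : ε ≤ εc := (min_le_left _ _).trans (min_le_right _ _)
  have hsq : C * √ε * (t + 1) ≤ εc := by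
    have h1 : √ε ≤ εc / (C * (t + 1)) := by
      rw [← Real.sqrt_sq (by positivity : 0 ≤ εc / (C * (t + 1)))]
      exact Real.sqrt_le_sqrt (min_le_right _ _)
    rw [le_div_iff₀ (by positivity)] at h1
    linarith
  have hs0 : 0 ≤ √ε := Real.sqrt_nonneg _
  have h' : NSK K' δ P U r m :=
    ⟨h.sys, h.wr, h.sr, h.sm, h.pr, h.pm, h.ode, ⟨fun x => (h.bnd.r0 x).trans hKK,
      fun x => (h.bnd.r1 x).trans hKK, fun x => (h.bnd.r2 x).trans hKK,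
      fun x => (h.bnd.r3 x).trans hKK, fun x => (h.bnd.m0 x).trans hKK,
      fun x => (h.bnd.m1 x).trans hKK, fun x => (h.bnd.m2 x).trans hKK⟩, h.step⟩
  obtain ⟨-, -, hdec⟩ := HD P U r m h'.sys h'.wr h'.sr h'.sm h'.pr h'.pm h'.ode h'.bnd h'.step
  obtain ⟨M, hM, -, -, hMW⟩ := HA ε hε1 P r m h'.sys.curve h'.wr h'.ode h'.sr h'.sm h'.pr h'.pm hr hm
    (fun N k => dec_weak hρ1' hA1' hA (hdec N k).1) (fun N k => dec_weak hρ1' hA1' hA (hdec N k).2)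
  -- the linear map
  have key : ∀ (η : ℝ) (u : ℝ → V3), (∀ i, WR (ρ / 4) 2 (C * √ε) (fun x => u x i)) → ∀ i,
      WR ρ0 2 εc (fun x => T.toLinearMap (u x) i) := by
    intro _ u hu i
    refine (lin_wr T.toLinearMap (fun i => (hu i).rho_mono hρ0') i).mono ?_
    calc t * (C * √ε) ≤ C * √ε * (t + 1) := by nlinarith [mul_nonneg hC.le hs0]
      _ ≤ εc := hsq
  have h2pi : |1 / (2 * π)| ≤ 1 := by
    rw [abs_of_pos (by positivity), div_le_one (by positivity)]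
    linarith [Real.pi_gt_three]
  obtain ⟨Cq, hCq, hCV⟩ := HC P U r m h' (fun x => (hr x).trans hεε) (fun x => (hm x).trans hεε)
    (T.toLinearMap ∘ₗ M.mulVecLin) (fun x => T (M *ᵥ P x))
    (fun x => (1 / (2 * π)) • T (M *ᵥ deriv P x)) (fun x => rfl) (fun x => rfl)
    (fun i => by
      refine (key 0 (fun x => M *ᵥ P x - P0 x) (fun i => (hMW i).1) i).congr fun x => ?_
      simp only [LinearEquiv.coe_coe, map_sub, Pi.sub_apply, hT])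
    (fun i => by
      have h1 := (key 0 (fun x => M *ᵥ deriv P x - deriv P0 x) (fun i => (hMW i).2) i).const_mul
        (1 / (2 * π))
      refine (h1.congr fun x => ?_).mono ?_
      · simp only [LinearEquiv.coe_coe, map_sub, Pi.sub_apply, hT1, Pi.smul_apply, smul_eq_mul]
        ring
      · nlinarith [abs_nonneg (1 / (2 * π))])
  refine ⟨Cq.comp (T.toLinearMap ∘ₗ M.mulVecLin), fun h0 => hCq ?_, fun x => ?_⟩
  · ext v
    have h2 := congrArg (fun q : QuadraticForm ℝ V3 => q (M⁻¹ *ᵥ (T.symm v))) h0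
    have h3 : M *ᵥ (M⁻¹ *ᵥ (T.symm v)) = T.symm v := by
      rw [Matrix.mulVec_mulVec, Matrix.mul_nonsing_inv _ (by rw [hM]; exact isUnit_one),
        Matrix.one_mulVec]
    simp only [QuadraticMap.comp_apply, LinearMap.comp_apply, Matrix.mulVecLin_apply, h3,
      LinearEquiv.coe_coe, LinearEquiv.apply_symm_apply] at h2
    simpa using h2
  · exact hCV x

end Pool.Agent.MP_ae5b4e_an_LOC
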