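import Mathlib
import Pool.Agent.Lib.MP_ae5b4e_an_RIG.GDef
import Pool.Agent.Lib.MP_ae5b4e_an_RIG.GGau

/-!
# MP_ae5b4e_an, project LOC: translations of the normal parameter
-/

noncomputable section

namespace Pool.Agent.MP_ae5b4e_an_LOC

open Real Set Filter Topology
open scoped ContDiff
open Pool.Agent.MP_ae5b4e_an_hopf
open Pool.Agent.MP_ae5b4e_an_RG
open Pool.Agent.MP_ae5b4e_an_RIG

variable {γ : ConvexCurve} {U : ℝ → ℝ → ℝ} {κ σ lam r m : ℝ → ℝ}

theorem lift_shift (γ : ConvexCurve) (σ lam : ℝ → ℝ) (s : ℝ) :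
    lift γ (fun x => σ (x + s)) (fun x => lam (x + s)) = fun x => lift γ σ lam (x + s) := rfl

private lemma d_shift {F : Type*} [NormedAddCommGroup F] [NormedSpace ℝ F] (f : ℝ → F) (s : ℝ) :
    deriv (fun x => f (x + s)) = fun x => deriv f (x + s) := by
  funext x
  exact deriv_comp_add_const f s x

private lemma smooth_shift {f : ℝ → ℝ} (h : ContDiff ℝ ∞ f) (s : ℝ) :
    ContDiff ℝ ∞ fun x => f (x + s) :=
  h.comp (contDiff_id.add contDiff_const)

theorem Normal_shift (h : Normal γ κ σ lam r m) (s : ℝ) :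
    Normal γ κ (fun x => σ (x + s)) (fun x => lam (x + s)) (fun x => r (x + s))
      (fun x => m (x + s)) where
  smooth_σ := smooth_shift h.smooth_σ s
  pos_σ x := by
    rw [d_shift]
    exact h.pos_σ _
  per_σ x := by
    have := h.per_σ (x + s)
    rw [← this]
    congr 1
    ring
  smooth_lam := smooth_shift h.smooth_lam s
  pos_lam x := h.pos_lam _
  eq_lam x := by
    rw [d_shift, d_shift]
    exact h.eq_lam _
  wr x := by
    rw [lift_shift, d_shift, d_shift]
    exact h.wr _
  smooth_r := smooth_shift h.smooth_r s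
  smooth_m := smooth_shift h.smooth_m s
  per_r x := by
    have := h.per_r (x + s)
    simp only
    rw [← this]
    congr 1
    ring
  per_m x := by
    have := h.per_m (x + s)
    simp only
    rw [← this]
    congr 1
    ring
  ode x := by
    rw [lift_shift, d_shift, d_shift, d_shift]
    exact h.ode _

theorem Reach_shift {δ : ℝ} (h : Reach γ U σ δ) (s : ℝ) : Reach γ U (fun x => σ (x + s)) δ := by
  obtain ⟨c, hc, H⟩ := h
  refine ⟨c, hc, fun x y hxy hyx h0 => ?_⟩
  have := H (x + s) (y + s) (by linarith) (by linarith) h0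
  linarith

end Pool.Agent.MP_ae5b4e_an_LOC
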