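import Mathlib
import Pool.Agent.Lib.MP_ae5b4e_an_LOC.MainL
import Pool.Agent.Lib.MP_ae5b4e_an_LOC.BgS
import Pool.Agent.Lib.MP_ae5b4e_an_LOC.LinAll
import Pool.Agent.Lib.MP_ae5b4e_an_LOC.TopL
import Pool.Agent.Lib.MP_ae5b4e_an_LOC.Shf
import Pool.Agent.Lib.MP_ae5b4e_an_FA.Fin

/-!
# MP_ae5b4e_an, project LOC: solutions near the Jacobi normal form are pencils
-/

noncomputable section

namespace Pool.Agent.MP_ae5b4e_an_LOC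

open Real Set Filter Topology
open scoped ContDiff
open Pool.Agent.MP_ae5b4e_an_hopf
open Pool.Agent.MP_ae5b4e_an_RG
open Pool.Agent.MP_ae5b4e_an_NC
open Pool.Agent.MP_ae5b4e_an_RIG (Bnd Reach Normal lift)

/-- normalized solutions -/
theorem near_jac_nsk {m : ℝ} (h0 : 0 < m) (h1 : m < 1) {K δ : ℝ} (hδ : 0 < δ) :
    ∃ ε > 0, ∀ (P : ℝ → Fin 3 → ℝ) (U : ℝ → ℝ → ℝ) (r m' : ℝ → ℝ), NSK K δ P U r m' →
      (∀ x, |r x - r0J m x| ≤ ε) → (∀ x, |m' x - m0J m x| ≤ ε) →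
      ∃ C : QuadraticForm ℝ V3, C ≠ 0 ∧ ∀ x, C (P x) = 0 := by
  obtain ⟨B, D, R, P0, T, hB, -, ib, wr, ode, neg, tau, hT, hT1, bc, hbw⟩ := bg_exists h0 h1 hδ
  obtain ⟨K0, hK0, hb⟩ := bnd_J h0.le h1
  have hh := hJ_pos h0 h1
  have hρ : 0 < π * hJ m := by positivity
  have hρ2 : π * hJ m < 2 * π * hJ m := by nlinarith [Real.pi_pos, mul_pos Real.pi_pos hh]
  obtain ⟨L, hL, bw⟩ := hbw (π * hJ m) hρ.le hρ2
  obtain ⟨A, hA, hdec⟩ := dec_J h0 h1 hρ.le hρ2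
  exact near_bg R (P0 := P0) (r0 := r0J m) (m0 := m0J m) (K0 := K0)
    ⟨ib, wr, ode, hb.r0, hb.m0, neg, tau⟩ (smooth_r0J h0.le h1) (smooth_m0J h0.le h1)
    (per_r0J h0.le h1) (per_m0J h0.le h1) T hT hT1 hρ hL bw bc hρ (fun N k => (hdec N k).1)
    (fun N k => (hdec N k).2) (lin'_all B D) hδ hB

end Pool.Agent.MP_ae5b4e_an_LOC
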