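import Mathlib
import Pool.Agent.Lib.MP_ae5b4e_an_LOC.FinJ
import Pool.Agent.Lib.MP_ae5b4e_an_LOC.BgId
import Pool.Agent.Lib.MP_ae5b4e_an_NC.Cir

/-!
# MP_ae5b4e_an, project LOC: solutions near a pencil of conics are pencils of conics
-/

noncomputable section

namespace Pool.Agent.MP_ae5b4e_an_LOC

open Real Set Filter Topology
open scoped ContDiff
open Pool.Agent.MP_ae5b4e_an_hopf
open Pool.Agent.MP_ae5b4e_an_RG
open Pool.Agent.MP_ae5b4e_an_NC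
open Pool.Agent.MP_ae5b4e_an_RIG (Bnd Reach Normal lift)

/-- every solution near the Jacobi normal form with the parameter `μ` is a pencil -/
def BgNear (K δ μ : ℝ) : Prop :=
  ∃ ε > 0, ∀ (γ : ConvexCurve) (U : ℝ → ℝ → ℝ) (κ σ lam r m : ℝ → ℝ),
    Pool.Agent.MP_ae5b4e_an_RIG.Sol γ U κ → Normal γ κ σ lam r m → Bnd K r m → Reach γ U σ δ →
    (∀ x, |r x - r0J μ x| ≤ ε) → (∀ x, |m x - m0J μ x| ≤ ε) → Pencil γ U

theorem bgNear_pos {K δ μ : ℝ} (hδ : 0 < δ) (h0 : 0 < μ) (h1 : μ < 1) : BgNear K δ μ := by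
  obtain ⟨ε, hε, H⟩ := near_jac_nsk h0 h1 (K := K) hδ
  refine ⟨ε, hε, fun γ U κ σ lam r m h hN hB hR hr hm => ?_⟩
  obtain ⟨C, hC, hC'⟩ := H _ _ r m (nsk_of_sol h hN hB hR) hr hm
  exact Pool.Agent.MP_ae5b4e_an_FA.conic_all γ
    ⟨h.cont, h.per, h.simple, fun c hc c' hc' hcc t => h.anti t hc hc' hcc, h.lim, h.proj⟩
    h.reg hC (t₀ := 0) (Eventually.of_forall (cone_curve hN hC'))

/-- **Theorem**: solutions near a pencil are pencils -/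
theorem near_pencil {γ0 : ConvexCurve} {U0 : ℝ → ℝ → ℝ} {κ0 σ0 lam0 r0 m0 : ℝ → ℝ}
    (h0 : Pool.Agent.MP_ae5b4e_an_RIG.Sol γ0 U0 κ0) (hN0 : Normal γ0 κ0 σ0 lam0 r0 m0)
    (hP0 : Pencil γ0 U0) {K δ : ℝ} (hδ : 0 < δ) (hc : (∀ x, r0 x = r0 0) → 3 / 7 < δ) :
    ∃ ε > 0, ∀ (γ : ConvexCurve) (U : ℝ → ℝ → ℝ) (κ σ lam r m : ℝ → ℝ),
      Pool.Agent.MP_ae5b4e_an_RIG.Sol γ U κ → Normal γ κ σ lam r m → Bnd K r m →
      Reach γ U σ δ → (∀ x, |r x - r0 x| ≤ ε) → (∀ x, |m x - m0 x| ≤ ε) → Pencil γ U := by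
  by_cases hcon : ∀ x, r0 x = r0 0
  · exact near_circular h0 hN0 hP0 hcon (hc hcon)
  obtain ⟨μ, hμ0, hμ1, M, c, -, -, hr0, hm0⟩ := exists_bgid_pos h0 hN0 hP0 hcon
  obtain ⟨ε, hε, H⟩ := bgNear_pos (K := K) hδ hμ0 hμ1
  refine ⟨ε, hε, fun γ U κ σ lam r m h hN hB hR hr hm => ?_⟩
  refine H γ U κ _ _ _ _ h (Normal_shift hN (-c)) (Bnd.shift hB (-c)) (Reach_shift hR (-c))
    (fun x => ?_) fun x => ?_
  · have h1 := hr (x + -c)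
    rwa [hr0, neg_add_cancel_right] at h1
  · have h1 := hm (x + -c)
    rwa [hm0, neg_add_cancel_right] at h1

end Pool.Agent.MP_ae5b4e_an_LOC
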