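import Mathlib
import Pool.Agent.Lib.MP_ae5b4e_an_LOC.Shf

/-!
# MP_ae5b4e_an, project LOC: the normal form is unique up to a translation of the parameter
-/

noncomputable section

namespace Pool.Agent.MP_ae5b4e_an_LOC

open Real Set Filter Topology
open scoped ContDiff
open Pool.Agent.MP_ae5b4e_an_hopf
open Pool.Agent.MP_ae5b4e_an_RG
open Pool.Agent.MP_ae5b4e_an_RIG

variable {γ : ConvexCurve} {κ σ lam r m τ mu r' m' : ℝ → ℝ}

/-- first and second derivative of a smooth function -/
private lemma Nuq_hd {F : Type*} [NormedAddCommGroup F] [NormedSpace ℝ F] {f : ℝ → F}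
    (h : ContDiff ℝ ∞ f) : (∀ x, HasDerivAt f (deriv f x) x) ∧ ContDiff ℝ ∞ (deriv f) :=
  ⟨fun x => ((contDiff_infty_iff_deriv.1 h).1 x).hasDerivAt, (contDiff_infty_iff_deriv.1 h).2⟩

private lemma Nuq_lift_smooth (h : Normal γ κ σ lam r m) : ContDiff ℝ ∞ (lift γ σ lam) :=
  h.smooth_lam.smul (γ.smooth_Γ.comp h.smooth_σ)

private lemma Nuq_mono (h : Normal γ κ σ lam r m) : StrictMono σ :=
  strictMono_of_deriv_pos h.pos_σ

private lemma Nuq_surj (h : Normal γ κ σ lam r m) : Function.Surjective σ := by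
  intro y
  have hT := γ.T_pos
  have h1 : ∀ n : ℕ, σ n = σ 0 + n * γ.T := by
    intro n
    induction n with
    | zero => simp
    | succ n ih =>
      push_cast
      rw [h.per_σ, ih]
      ring
  have h2 : ∀ n : ℕ, σ (-n) = σ 0 - n * γ.T := by
    intro n
    induction n with
    | zero => simp
    | succ n ih =>
      have := h.per_σ (-((n : ℝ) + 1))
      rw [show -((n : ℝ) + 1) + 1 = -n by ring, ih] at this
      push_cast
      linarith
  obtain ⟨n, hn⟩ := exists_nat_ge (|y - σ 0| / γ.T)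
  rw [div_le_iff₀ hT] at hn
  have h3 := abs_le.1 hn
  have hc : ContinuousOn σ (Icc (-(n : ℝ)) n) := h.smooth_σ.continuous.continuousOn
  have h4 := intermediate_value_Icc (show -(n : ℝ) ≤ n by
    have : (0:ℝ) ≤ n := n.cast_nonneg
    linarith) hc
  rw [h1, h2] at h4
  obtain ⟨x, -, hx⟩ := h4 (show y ∈ Icc _ _ from ⟨by linarith, by linarith⟩)
  exact ⟨x, hx⟩

/-- The normal parameter is unique up to a translation. -/
theorem normal_unique (h : Normal γ κ σ lam r m) (h' : Normal γ κ τ mu r' m') :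
    ∃ s, (∀ x, τ x = σ (x + s)) ∧ (∀ x, mu x = lam (x + s)) ∧ (∀ x, r' x = r (x + s)) ∧
      ∀ x, m' x = m (x + s) := by
  set e := (Nuq_mono h).orderIsoOfSurjective σ (Nuq_surj h) with he
  have heσ : ∀ x, e x = σ x := fun x => rfl
  set φ : ℝ → ℝ := fun x => e.symm (τ x) with hφ
  have hφσ : ∀ x, σ (φ x) = τ x := fun x => e.apply_symm_apply (τ x)
  have hφper : φ (0 + 1) = φ 0 + 1 := by
    refine (Nuq_mono h).injective ?_
    rw [hφσ, h.per_σ, hφσ, h'.per_σ]
  obtain ⟨dσ, sσ⟩ := Nuq_hd h.smooth_σ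
  obtain ⟨dτ, sτ⟩ := Nuq_hd h'.smooth_σ
  obtain ⟨dσ2, -⟩ := Nuq_hd sσ
  obtain ⟨dτ2, -⟩ := Nuq_hd sτ
  -- the derivative of `φ`
  have dφ : ∀ x, HasDerivAt φ (deriv τ x / deriv σ (φ x)) x := by
    intro x
    have hinv : HasDerivAt e.symm (deriv σ (e.symm (τ x)))⁻¹ (τ x) :=
      HasDerivAt.of_local_left_inverse (f := σ) e.symm.continuous.continuousAt (dσ _)
        (h.pos_σ _).ne' (Eventually.of_forall fun y => e.apply_symm_apply y)
    refine (hinv.comp x (dτ x)).congr_deriv ?_
    rw [div_eq_mul_inv, mul_comm]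
  set φ1 : ℝ → ℝ := fun x => deriv τ x / deriv σ (φ x) with hφ1
  have pφ1 : ∀ x, 0 < φ1 x := fun x => div_pos (h'.pos_σ x) (h.pos_σ _)
  obtain ⟨φ2, dφ1⟩ : ∃ φ2 : ℝ → ℝ, ∀ x, HasDerivAt φ1 (φ2 x) x :=
    ⟨_, fun x => (dτ2 x).div ((dσ2 (φ x)).comp x (dφ x)) (h.pos_σ _).ne'⟩
  -- the factor
  have dlam := (Nuq_hd h.smooth_lam).1
  have dmu := (Nuq_hd h'.smooth_lam).1
  have dnu : ∀ x, HasDerivAt (fun x => mu x / lam (φ x)) 0 x := by
    intro x
    have hl := (h.pos_lam (φ x)).ne'
    have hs := (h.pos_σ (φ x)).ne'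
    refine ((dmu x).div ((dlam (φ x)).comp x (dφ x)) hl).congr_deriv ?_
    rw [h.eq_lam, h'.eq_lam, hφσ]
    simp only [Function.comp]
    field_simp
    ring
  obtain ⟨c, hc⟩ : ∃ c, ∀ x, mu x = c * lam (φ x) := by
    refine ⟨mu 0 / lam (φ 0), fun x => ?_⟩
    have := is_const_of_deriv_eq_zero (fun t => (dnu t).differentiableAt)
      (fun t => (dnu t).deriv) x 0
    rw [← this]
    have hl := (h.pos_lam (φ x)).ne'
    field_simp
  have hlift : lift γ τ mu = fun x => c • lift γ σ lam (φ x) := by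
    funext x
    unfold lift
    rw [hc, hφσ, smul_smul]
  -- derivatives of the lift
  have sP := Nuq_lift_smooth h
  obtain ⟨dP, sP1⟩ := Nuq_hd sP
  obtain ⟨dP1, -⟩ := Nuq_hd sP1
  have d1 : ∀ x, HasDerivAt (lift γ τ mu) (c • φ1 x • deriv (lift γ σ lam) (φ x)) x := by
    intro x
    rw [hlift]
    exact ((dP (φ x)).scomp x (dφ x)).const_smul c
  have d1' : deriv (lift γ τ mu) = fun x => c • φ1 x • deriv (lift γ σ lam) (φ x) :=
    funext fun x => (d1 x).deriv
  have d2 : ∀ x, HasDerivAt (deriv (lift γ τ mu))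
      (c • (φ1 x • φ1 x • deriv (deriv (lift γ σ lam)) (φ x) +
        φ2 x • deriv (lift γ σ lam) (φ x))) x := by
    intro x
    rw [d1']
    exact ((dφ1 x).smul ((dP1 (φ x)).scomp x (dφ x))).const_smul c
  have hwr : ∀ x, (c * φ1 x) ^ 3 = 1 := by
    intro x
    have w1 := h.wr (φ x)
    have w2 := h'.wr x
    rw [(d2 x).deriv, d1', hlift] at w2
    have key : det3 (c • lift γ σ lam (φ x)) (c • φ1 x • deriv (lift γ σ lam) (φ x))
        (c • (φ1 x • φ1 x • deriv (deriv (lift γ σ lam)) (φ x) +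
        φ2 x • deriv (lift γ σ lam) (φ x))) = (c * φ1 x) ^ 3 *
        det3 (lift γ σ lam (φ x)) (deriv (lift γ σ lam) (φ x))
          (deriv (deriv (lift γ σ lam)) (φ x)) := by
      simp only [det3, Pi.smul_apply, Pi.add_apply, smul_eq_mul]
      ring
    rw [← w2]
    exact (key.trans (by rw [w1, mul_one])).symm
  have hone : ∀ x, c * φ1 x = 1 := by
    intro x
    have k := hwr x
    nlinarith [sq_nonneg (c * φ1 x - 1), sq_nonneg (c * φ1 x + 1), sq_nonneg (c * φ1 x)]
  have hc0 : c ≠ 0 := by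
    intro h0
    have := hone 0
    rw [h0, zero_mul] at this
    exact zero_ne_one this
  have hφlin : ∀ x, φ x = φ 0 + x / c := by
    intro x
    have hd : ∀ t, HasDerivAt (fun t => φ t - t / c) 0 t := by
      intro t
      refine ((dφ t).sub ((hasDerivAt_id t).div_const c)).congr_deriv ?_
      have := hone t
      show φ1 t - 1 / c = 0
      field_simp
      linarith
    have := is_const_of_deriv_eq_zero (fun t => (hd t).differentiableAt)
      (fun t => (hd t).deriv) x 0
    simp only [zero_div, sub_zero] at this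
    linarith
  have hc1 : c = 1 := by
    have k := hφlin (0 + 1)
    rw [hφper, zero_add] at k
    have : (1:ℝ) / c = 1 := by linarith
    rw [div_eq_iff hc0] at this
    linarith
  rw [hc1] at hφlin hc
  have hτ : τ = fun x => σ (x + φ 0) := by
    funext x
    rw [← hφσ, hφlin x, div_one, add_comm]
  have hmu : mu = fun x => lam (x + φ 0) := by
    funext x
    rw [hc, hφlin x, div_one, one_mul, add_comm x]
  refine ⟨φ 0, fun x => congrFun hτ x, fun x => congrFun hmu x, ?_⟩
  have hN := Normal_shift h (φ 0)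
  rw [← hτ, ← hmu] at hN
  have hall : ∀ x, r' x = r (x + φ 0) ∧ m' x = m (x + φ 0) := by
    intro x
    have o1 := hN.ode x
    have o2 := h'.ode x
    have w := h'.wr x
    rw [o2] at o1
    set P := lift γ τ mu x
    set P1 := deriv (lift γ τ mu) x
    set P2 := deriv (deriv (lift γ τ mu)) x
    have z : ∀ i, (r' x - r (x + φ 0)) * P1 i + (m' x - m (x + φ 0)) * P i = 0 := by
      intro i
      have := congrFun o1 i
      simp only [Pi.sub_apply, Pi.smul_apply, smul_eq_mul] at this
      linear_combination (-1) * this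
    have k1 : (r' x - r (x + φ 0)) * det3 P P1 P2 = 0 := by
      have e : (r' x - r (x + φ 0)) * det3 P P1 P2 =
          det3 P (fun i => (r' x - r (x + φ 0)) * P1 i + (m' x - m (x + φ 0)) * P i) P2 := by
        simp only [det3]
        ring
      rw [e]
      simp only [z, det3]
      ring
    have k2 : (m' x - m (x + φ 0)) * det3 P P1 P2 = 0 := by
      have e : (m' x - m (x + φ 0)) * det3 P P1 P2 =
          det3 (fun i => (r' x - r (x + φ 0)) * P1 i + (m' x - m (x + φ 0)) * P i) P1 P2 := by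
        simp only [det3]
        ring
      rw [e]
      simp only [z, det3]
      ring
    rw [w, mul_one] at k1 k2
    exact ⟨by linarith, by linarith⟩
  exact ⟨fun x => (hall x).1, fun x => (hall x).2⟩

end Pool.Agent.MP_ae5b4e_an_LOC
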