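import Mathlib
import Pool.Agent.Lib.MP_ae5b4e_an_RIG.GDef

/-!
# MP_ae5b4e_an, project LOC: every solution has a positive reach

PROOF.  Otherwise there are parameters `x_n < y_n`, `y_n - x_n → 0`, such that the point of the leaf
on the tangent line at `x_n` is on the tangent line at `y_n`.  By Rolle's theorem the derivative of
`s ↦ det (hvec, Γ s, Γ' s)` vanishes between; in the limit `x_n → x` this is `det (Γ', Γ, Γ'') = 0`,
against the positive curvature.
-/

noncomputable section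

namespace Pool.Agent.MP_ae5b4e_an_LOC

open Real Set Filter Topology
open scoped ContDiff
open Pool.Agent.MP_ae5b4e_an_hopf
open Pool.Agent.MP_ae5b4e_an_RG
open Pool.Agent.MP_ae5b4e_an_RIG

/-- the determinant of the tangency condition -/
private def dE (γ : ConvexCurve) (t u s : ℝ) : ℝ :=
  -(u * γ.x t + deriv γ.x t) * deriv γ.y s + (u * γ.y t + deriv γ.y t) * deriv γ.x s +
    u * (γ.x s * deriv γ.y s - γ.y s * deriv γ.x s)

/-- its derivative in `s` -/
private def dE' (γ : ConvexCurve) (t u s : ℝ) : ℝ :=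
  -(u * γ.x t + deriv γ.x t) * deriv (deriv γ.y) s + (u * γ.y t + deriv γ.y t) *
    deriv (deriv γ.x) s + u * (γ.x s * deriv (deriv γ.y) s - γ.y s * deriv (deriv γ.x) s)

private lemma dE_eq (γ : ConvexCurve) (t u s : ℝ) :
    det3 (γ.hvec t u) (γ.Γ s) (deriv γ.Γ s) = dE γ t u s := by
  unfold dE det3
  rw [γ.deriv_Γ]
  simp only [ConvexCurve.Γ, ConvexCurve.hvec, Matrix.cons_val_zero, Matrix.cons_val_one,
    Matrix.cons_val]
  ring

private lemma dE_self (γ : ConvexCurve) (t u : ℝ) : dE γ t u t = 0 := by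
  unfold dE
  ring

private lemma dE_hd (γ : ConvexCurve) (t u s : ℝ) : HasDerivAt (dE γ t u) (dE' γ t u s) s := by
  have h1 := (γ.hd_y' s).const_mul (-(u * γ.x t + deriv γ.x t))
  have h2 := (γ.hd_x' s).const_mul (u * γ.y t + deriv γ.y t)
  have h3 := (((γ.hd_x s).mul (γ.hd_y' s)).sub ((γ.hd_y s).mul (γ.hd_x' s))).const_mul u
  refine ((h1.add h2).add h3).congr_deriv ?_
  unfold dE'
  ring

private lemma dE'_self (γ : ConvexCurve) (t u : ℝ) : dE' γ t u t < 0 := by
  have h := γ.curved t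
  have e : dE' γ t u t =
      -(deriv γ.x t * deriv (deriv γ.y) t - deriv γ.y t * deriv (deriv γ.x) t) := by
    unfold dE'
    ring
  rw [e]
  linarith

private lemma dE'_cont (γ : ConvexCurve) :
    Continuous fun z : ℝ × ℝ × ℝ => dE' γ z.1 z.2.1 z.2.2 := by
  have hx : Continuous γ.x := γ.smooth_x.continuous
  have hy : Continuous γ.y := γ.smooth_y.continuous
  have hx1 : Continuous (deriv γ.x) := (contDiff_infty_iff_deriv.1 γ.smooth_x).2.continuous
  have hy1 : Continuous (deriv γ.y) := (contDiff_infty_iff_deriv.1 γ.smooth_y).2.continuous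
  have hx2 : Continuous (deriv (deriv γ.x)) :=
    (contDiff_infty_iff_deriv.1 (contDiff_infty_iff_deriv.1 γ.smooth_x).2).2.continuous
  have hy2 : Continuous (deriv (deriv γ.y)) :=
    (contDiff_infty_iff_deriv.1 (contDiff_infty_iff_deriv.1 γ.smooth_y).2).2.continuous
  unfold dE'
  fun_prop

/-- **Every leaf has a positive distance from the curve** -/
theorem leaf_reach {γ : ConvexCurve} {U : ℝ → ℝ → ℝ} {κ σ lam r m : ℝ → ℝ}
    (h : Sol γ U κ) (hN : Normal γ κ σ lam r m) {c : ℝ} (hc : c ∈ Ioo (0:ℝ) 1) :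
    ∃ δ : ℝ, 0 < δ ∧ ∀ x y, x < y → y < x + 1 →
      det3 (γ.hvec (σ x) (U c (σ x))) (γ.Γ (σ y)) (deriv γ.Γ (σ y)) = 0 → x + δ ≤ y := by
  by_contra hcon
  push Not at hcon
  have hσ : Continuous σ := hN.smooth_σ.continuous
  have hσm : StrictMono σ := strictMono_of_deriv_pos hN.pos_σ
  have hU : Continuous (U c) := by
    rw [← continuousOn_univ]
    exact (h.cont.comp (Continuous.prodMk_right c).continuousOn fun t _ => ⟨hc, mem_univ t⟩)
  -- the condition is periodic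
  have hper : ∀ d : ℝ, Function.Periodic (fun x => dE γ (σ x) (U c (σ x)) (σ (x + d))) 1 := by
    intro d x
    have e1 : σ (x + 1 + d) = σ (x + d) + γ.T := by
      rw [← hN.per_σ, show x + 1 + d = x + d + 1 by ring]
    simp only [hN.per_σ, h.per c hc, e1]
    rw [← dE_eq, ← dE_eq]
    have hC := γ.isCurve
    rw [hC.per, hC.per1]
    congr 1
    rw [γ.hvec_eq, γ.hvec_eq, hC.per, hC.per1]
  have key : ∀ n : ℕ, ∃ x d : ℝ, x ∈ Ico (0:ℝ) 1 ∧ 0 < d ∧ d < 1 / ((n:ℝ) + 1) ∧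
      dE γ (σ x) (U c (σ x)) (σ (x + d)) = 0 := by
    intro n
    obtain ⟨x, y, h1, h2, h3, h4⟩ := hcon (1 / ((n:ℝ) + 1)) (by positivity)
    obtain ⟨x', hx', hx''⟩ := (hper (y - x)).exists_mem_Ico₀ one_pos x
    refine ⟨x', y - x, hx', by linarith, by linarith, ?_⟩
    have hx3 : dE γ (σ x) (U c (σ x)) (σ (x + (y - x))) =
      dE γ (σ x') (U c (σ x')) (σ (x' + (y - x))) := hx''
    rw [← hx3, ← dE_eq, show x + (y - x) = y by ring]
    exact h3
  choose x d hx hd0 hd1 hE using key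
  have key2 : ∀ n : ℕ, ∃ z ∈ Ioo (σ (x n)) (σ (x n + d n)),
      dE' γ (σ (x n)) (U c (σ (x n))) z = 0 := by
    intro n
    refine exists_hasDerivAt_eq_zero (f := dE γ (σ (x n)) (U c (σ (x n))))
      (hσm (by linarith [hd0 n])) (fun s _ => (dE_hd γ _ _ s).continuousAt.continuousWithinAt)
      ?_ (fun s _ => dE_hd γ _ _ s)
    rw [dE_self, hE]
  choose z hz hz0 using key2
  obtain ⟨a, -, φ, hφ, hlim⟩ := (isCompact_Icc (a := (0:ℝ)) (b := 1)).tendsto_subseq
    (fun n => Ico_subset_Icc_self (hx n))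
  have hlim' : Tendsto (fun n => x (φ n)) atTop (𝓝 a) := hlim
  have hd : Tendsto (fun n => d (φ n)) atTop (𝓝 0) := by
    have h1 : Tendsto d atTop (𝓝 0) :=
      squeeze_zero (fun n => (hd0 n).le) (fun n => (hd1 n).le)
        (tendsto_one_div_add_atTop_nhds_zero_nat (𝕜 := ℝ))
    exact h1.comp hφ.tendsto_atTop
  have hxd : Tendsto (fun n => x (φ n) + d (φ n)) atTop (𝓝 a) := by
    have := hlim'.add hd
    rwa [add_zero] at this
  have h1 : Tendsto (fun n => σ (x (φ n))) atTop (𝓝 (σ a)) := (hσ.tendsto a).comp hlim'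
  have h2 : Tendsto (fun n => σ (x (φ n) + d (φ n))) atTop (𝓝 (σ a)) := (hσ.tendsto a).comp hxd
  have h3 : Tendsto (fun n => z (φ n)) atTop (𝓝 (σ a)) :=
    tendsto_of_tendsto_of_tendsto_of_le_of_le h1 h2 (fun n => (hz (φ n)).1.le)
      (fun n => (hz (φ n)).2.le)
  have h4 : Tendsto (fun n => U c (σ (x (φ n)))) atTop (𝓝 (U c (σ a))) :=
    (hU.tendsto (σ a)).comp h1
  have h5 := ((dE'_cont γ).tendsto (σ a, U c (σ a), σ a)).comp
    (h1.prodMk_nhds (h4.prodMk_nhds h3))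
  have h6 : ((fun z : ℝ × ℝ × ℝ => dE' γ z.1 z.2.1 z.2.2) ∘ fun n =>
      (σ (x (φ n)), U c (σ (x (φ n))), z (φ n))) = fun _ => 0 := by
    funext n
    exact hz0 (φ n)
  rw [h6] at h5
  have h7 := tendsto_nhds_unique h5 tendsto_const_nhds
  exact (dE'_self γ (σ a) (U c (σ a))).ne h7

/-- **Every solution has a positive reach** -/
theorem exists_reach {γ : ConvexCurve} {U : ℝ → ℝ → ℝ} {κ σ lam r m : ℝ → ℝ}
    (h : Sol γ U κ) (hN : Normal γ κ σ lam r m) : ∃ δ : ℝ, 0 < δ ∧ Reach γ U σ δ := by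
  have hc : (1 / 2 : ℝ) ∈ Ioo (0:ℝ) 1 := ⟨by norm_num, by norm_num⟩
  obtain ⟨δ, hδ, H⟩ := leaf_reach h hN hc
  exact ⟨δ, hδ, 1 / 2, hc, H⟩

end Pool.Agent.MP_ae5b4e_an_LOC
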