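import Pool.Agent.Lib.MP_ae5b4e_an_LOC.GDJ

/-!
The local coordinate sc(4K z) at a base point: TJ = sn/cn, g (b_n + z) TJ(z)^2 = -1 and
TJ' = sigma sqrt((1 + TJ^2)(1 + m1 TJ^2)).
-/

set_option autoImplicit false

namespace Pool.Agent.MP_ae5b4e_an_LOC

open Complex Set Filter Topology ComplexConjugate

noncomputable section

variable {m : ℝ}

/-- sc (4K z) -/
def TJ (m : ℝ) (z : ℂ) : ℂ := Sn m (sg m * z) / Cn m (sg m * z)

section

variable (h0 : 0 < m) (h1 : m < 1)

include h0 h1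

lemma Sn_zero : Sn m 0 = 0 := by
  have := Sn_ofReal h0 h1 0
  simpa [sn_zero h0.le h1] using this
lemma Cn_zero : Cn m 0 = 1 := by
  have := Cn_ofReal h0 h1 0
  simpa [cn_zero h0.le h1] using this
lemma Dn_zero : Dn m 0 = 1 := by
  have := Dn_ofReal h0 h1 0
  simpa [dn_zero h0.le h1] using this

lemma JD_zero_ne : JD m 0 ≠ 0 := JD_ne_zero_of_im h0 h1 (by simpa using KP_pos h0 h1)

/-- the principal root of the square of Dn/Cn^2 near 0 -/
lemma sq2_TJ {z : ℂ} (hz : JD m (sg m * z) ≠ 0) (hc : Cn m (sg m * z) ≠ 0)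
    (hp : 0 < (Dn m (sg m * z) / Cn m (sg m * z) ^ 2).re) :
    sq2 (1 - m) 0 (TJ m z) = Dn m (sg m * z) / Cn m (sg m * z) ^ 2 := by
  have e1 := Sn_sq_add h0 h1 hz
  have e2 := Dn_sq_add h0 h1 hz
  unfold sq2 TJ
  have key : (1 - 0 + (Sn m (sg m * z) / Cn m (sg m * z)) ^ 2) *
      (1 - ((1 - m : ℝ) : ℂ) * 0 + ((1 - m : ℝ) : ℂ) * (Sn m (sg m * z) / Cn m (sg m * z)) ^ 2) =
      (Dn m (sg m * z) / Cn m (sg m * z) ^ 2) ^ 2 := by
    push_cast
    field_simp
    generalize Sn m (sg m * z) = S at *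
    generalize Cn m (sg m * z) = C at *
    generalize Dn m (sg m * z) = D at *
    generalize (m : ℂ) = M at *
    grind
  rw [key]
  rw [← Complex.cpow_natCast, ← Complex.cpow_mul]
  · norm_num
  · have := (Complex.arg_mem_Ioc (Dn m (sg m * z) / Cn m (sg m * z) ^ 2))
    have ha : |arg (Dn m (sg m * z) / Cn m (sg m * z) ^ 2)| < Real.pi / 2 :=
      Complex.abs_arg_lt_pi_div_two_iff.2 (Or.inl hp)
    rw [abs_lt] at ha
    have e : (log (Dn m (sg m * z) / Cn m (sg m * z) ^ 2) * ((2 : ℕ) : ℂ)).im =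
        2 * arg (Dn m (sg m * z) / Cn m (sg m * z) ^ 2) := by
      simp [Complex.log_im]; ring
    rw [e]; linarith
  · have ha : |arg (Dn m (sg m * z) / Cn m (sg m * z) ^ 2)| < Real.pi / 2 :=
      Complex.abs_arg_lt_pi_div_two_iff.2 (Or.inl hp)
    rw [abs_lt] at ha
    have e : (log (Dn m (sg m * z) / Cn m (sg m * z) ^ 2) * ((2 : ℕ) : ℂ)).im =
        2 * arg (Dn m (sg m * z) / Cn m (sg m * z) ^ 2) := by
      simp [Complex.log_im]; ring
    rw [e]; linarith

/-- near 0 everything is fine -/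
lemma near_zero : ∃ ρ : ℝ, 0 < ρ ∧ ∀ z : ℂ, ‖z‖ < ρ → JD m (sg m * z) ≠ 0 ∧
    Cn m (sg m * z) ≠ 0 ∧ 0 < (Dn m (sg m * z) / Cn m (sg m * z) ^ 2).re := by
  have hl : Tendsto (fun z : ℂ => (sg m : ℂ) * z) (𝓝 0) (𝓝 0) := by
    have : Continuous fun z : ℂ => (sg m : ℂ) * z := by fun_prop
    simpa using this.tendsto 0
  have hj : ∀ᶠ w in 𝓝 (0:ℂ), JD m w ≠ 0 := (JD_open h0 h1).mem_nhds (JD_zero_ne h0 h1)
  have hcc := (Cn_an h0 h1 (JD_zero_ne h0 h1)).continuousAt
  have hdd := (Dn_an h0 h1 (JD_zero_ne h0 h1)).continuousAt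
  have hc : ∀ᶠ w in 𝓝 (0:ℂ), Cn m w ≠ 0 := by
    refine hcc.eventually_ne ?_
    rw [Cn_zero h0 h1]; exact one_ne_zero
  have hq : ∀ᶠ w in 𝓝 (0:ℂ), 0 < (Dn m w / Cn m w ^ 2).re := by
    have : ContinuousAt (fun w => Dn m w / Cn m w ^ 2) 0 := by
      refine hdd.div (hcc.pow 2) ?_
      rw [Cn_zero h0 h1]; norm_num
    have h3 : ContinuousAt (fun w => (Dn m w / Cn m w ^ 2).re) 0 :=
      Complex.continuous_re.continuousAt.comp this
    refine h3.eventually_const_lt ?_
    change 0 < (Dn m 0 / Cn m 0 ^ 2).re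
    rw [Cn_zero h0 h1, Dn_zero h0 h1]; norm_num
  have := hl.eventually (hj.and (hc.and hq))
  obtain ⟨ρ, hρ, h⟩ := Metric.eventually_nhds_iff_ball.1 this
  exact ⟨ρ, hρ, fun z hz => h z (by simpa using hz)⟩

lemma TJ_zero : TJ m 0 = 0 := by simp [TJ, Sn_zero h0 h1]

lemma TJ_hasDerivAt {z : ℂ} (hz : JD m (sg m * z) ≠ 0) (hc : Cn m (sg m * z) ≠ 0) :
    HasDerivAt (TJ m) (sg m * (Dn m (sg m * z) / Cn m (sg m * z) ^ 2)) z := by
  have hl : HasDerivAt (fun z : ℂ => (sg m : ℂ) * z) (sg m) z := by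
    simpa using (hasDerivAt_id z).const_mul (sg m : ℂ)
  have hs := (Sn_hasDerivAt h0 h1 hz).comp z hl
  have hc' := (Cn_hasDerivAt h0 h1 hz).comp z hl
  have h := hs.div hc' hc
  refine h.congr_deriv ?_
  have e1 := Sn_sq_add h0 h1 hz
  simp only [Function.comp_apply]
  field_simp
  linear_combination ((sg m : ℂ) * Dn m (sg m * z)) * e1

/-- the local coordinate near a base point -/
theorem TJ_local : ∃ ρ : ℝ, 0 < ρ ∧ ρ ≤ 1 / 8 ∧ ρ ≤ hJ m ∧
    (∀ z : ℂ, ‖z‖ < ρ → AnalyticAt ℂ (TJ m) z) ∧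
    (∀ z : ℂ, ‖z‖ < ρ → HasDerivAt (TJ m) (sg m * sq2 (1 - m) 0 (TJ m z)) z) ∧
    (∀ (n : ℤ) (z : ℂ), ‖z‖ < ρ → z ≠ 0 →
      gJ m (n / 2 + I * hJ m + z) * TJ m z ^ 2 = -1) := by
  obtain ⟨ρ, hρ, h⟩ := near_zero h0 h1
  have hh := hJ_pos h0 h1
  refine ⟨min ρ (min (1 / 8) (hJ m)), by positivity, (min_le_right _ _).trans (min_le_left _ _),
    (min_le_right _ _).trans (min_le_right _ _), ?_, ?_, ?_⟩
  · intro z hz
    obtain ⟨a, b, c⟩ := h z (lt_of_lt_of_le hz (min_le_left _ _))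
    have hl : AnalyticAt ℂ (fun z : ℂ => (sg m : ℂ) * z) z := by fun_prop
    have h3 : AnalyticAt ℂ (fun z => Sn m (sg m * z)) z := (Sn_an h0 h1 a).comp hl
    have h4 : AnalyticAt ℂ (fun z => Cn m (sg m * z)) z := (Cn_an h0 h1 a).comp hl
    exact h3.div h4 b
  · intro z hz
    obtain ⟨a, b, c⟩ := h z (lt_of_lt_of_le hz (min_le_left _ _))
    rw [sq2_TJ h0 h1 a b c]
    exact TJ_hasDerivAt h0 h1 a b
  · intro n z hz hz0
    obtain ⟨a, b, c⟩ := h z (lt_of_lt_of_le hz (min_le_left _ _))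
    have hz8 : ‖z‖ < 1 / 8 := lt_of_lt_of_le hz ((min_le_right _ _).trans (min_le_left _ _))
    have hzh : ‖z‖ < hJ m := lt_of_lt_of_le hz ((min_le_right _ _).trans (min_le_right _ _))
    have hs := sg_pos h0 h1
    have hK := KK_pos h0.le h1
    have hKP := KP_pos h0 h1
    -- sg * z is not a zero of Sn
    have hz' : JD m (sg m * z + KP m * I) ≠ 0 := by
      intro h'
      obtain ⟨k, l, e⟩ := (JD_shift_eq_zero_iff h0 h1 _).1 h'
      have ere := congrArg Complex.re e
      have eim := congrArg Complex.im e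
      simp only [mul_re, ofReal_re, ofReal_im, zero_mul, sub_zero, add_re, I_re, mul_zero,
        I_im, mul_one, sub_self, add_zero] at ere
      simp only [mul_im, ofReal_re, ofReal_im, zero_mul, add_zero, add_im, I_im, mul_one,
        I_re, mul_zero, zero_add] at eim
      have bre : |z.re| < 1 / 8 := (Complex.abs_re_le_norm z).trans_lt hz8
      have bim : |z.im| < hJ m := (Complex.abs_im_le_norm z).trans_lt hzh
      have hk : k = 0 := by
        have h3 : |sg m * z.re| < 2 * KK m := by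
          rw [abs_mul, abs_of_pos hs]; unfold sg; nlinarith
        rw [ere, abs_mul, abs_of_pos (by positivity : 0 < 2 * KK m)] at h3
        have h4 : |(k:ℝ)| < 1 := by
          by_contra h'
          push Not at h'
          nlinarith
        have h5 : |k| < 1 := by exact_mod_cast h4
        exact Int.abs_lt_one_iff.1 h5
      have hl : l = 0 := by
        have h3 : |sg m * z.im| < KP m := by
          rw [abs_mul, abs_of_pos hs, ← sg_hJ h0 h1]
          exact mul_lt_mul_of_pos_left bim hs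
        rw [eim, abs_mul, abs_of_pos (by positivity : 0 < 2 * KP m)] at h3
        have h4 : |(l:ℝ)| < 1 := by
          by_contra h'
          push Not at h'
          nlinarith
        have h5 : |l| < 1 := by exact_mod_cast h4
        exact Int.abs_lt_one_iff.1 h5
      rw [hk, hl] at e
      simp only [Int.cast_zero, zero_mul, ofReal_zero, add_zero] at e
      rcases mul_eq_zero.1 e with h6 | h6
      · have : (sg m : ℝ) = 0 := by exact_mod_cast h6
        exact hs.ne' this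
      · exact hz0 h6
    have hS := Sn_ne_zero_of h0 h1 a hz'
    -- reduce to n = 0
    have hper : gJ m (n / 2 + I * hJ m + z) = gJ m (I * hJ m + z) := by
      have : ∀ k : ℤ, gJ m (k / 2 + (I * hJ m + z)) = gJ m (I * hJ m + z) := by
        intro k
        induction k using Int.induction_on with
        | zero => simp
        | succ k ih =>
            rw [← ih, ← gJ_half h0 h1 ((k:ℤ) / 2 + (I * hJ m + z))]
            congr 1; push_cast; ring
        | pred k ih =>
            rw [← ih, ← gJ_half h0 h1 (((-(k:ℤ) - 1 : ℤ) : ℂ) / 2 + (I * hJ m + z))]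
            congr 1; push_cast; ring
      rw [← this n]
      congr 1; ring
    rw [hper]
    have e : (sg m : ℂ) * (I * hJ m + z) = sg m * z + KP m * I := by
      have : (sg m : ℂ) * hJ m = KP m := by exact_mod_cast sg_hJ h0 h1
      linear_combination I * this
    unfold gJ TJ
    rw [e, Dn_shift h0 h1 a hz']
    field_simp
    rw [I_sq]

end

end

end Pool.Agent.MP_ae5b4e_an_LOC
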