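import Pool.Agent.Lib.MP_ae5b4e_an_LOC.Lb6
import Pool.Agent.Lib.MP_ae5b4e_an_LOC.ScJ

/-!
# LOC, local block: the Jacobi instance
-/

set_option autoImplicit false

noncomputable section

namespace Pool.Agent.MP_ae5b4e_an_LOC

open Complex Set Filter Topology Metric ComplexConjugate

theorem exists_YDJ (m : ℝ) (h0 : 0 < m) (h1 : m < 1) :
    ∃ Y : YD (GDJ m h0 h1) (sg m) (1 - m), Y.y = TJ m := by
  obtain ⟨ρ, hρ, -, -, -, h2, h3⟩ := TJ_local h0 h1
  exact ⟨{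
    y := TJ m
    ry := ρ
    ry_pos := hρ
    y_zero := TJ_zero h0 h1
    y_deriv := fun z hz => h2 z (mem_ball_zero_iff.1 hz)
    g_eq := fun n z hz hne => h3 n z (mem_ball_zero_iff.1 hz) hne }, rfl⟩

theorem exists_LBJ (m : ℝ) (h0 : 0 < m) (h1 : m < 1) (T : TD (GDJ m h0 h1)) :
    Nonempty (LB (GDJ m h0 h1) T (sg m) (1 - m)) := by
  obtain ⟨Y, -⟩ := exists_YDJ m h0 h1
  exact exists_LB T (sg_pos h0 h1) (by linarith) (by linarith) Y

end Pool.Agent.MP_ae5b4e_an_LOC
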