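import Mathlib
import Pool.Agent.Lib.MP_ae5b4e_an_LOC.GD

/-!
Tools for the time map of LOC: the branch `rt`, an analytic function of one variable applied in
the algebra `C([0,1])`, primitives by a horizontal and a vertical segment.
-/

set_option autoImplicit false

namespace Pool.Agent.MP_ae5b4e_an_LOC

open Complex Filter Topology Metric ComplexConjugate MeasureTheory

/-! ### the branch -/

theorem Tim_slit {w : ℂ} (hw : ‖w‖ < 1) : 1 - w ∈ slitPlane := by
  left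
  have h := Complex.re_le_norm w
  simp only [sub_re, one_re]
  linarith

theorem Tim_rt_an {w : ℂ} (hw : ‖w‖ < 1) : AnalyticAt ℂ rt w := by
  unfold rt
  exact (analyticAt_const.sub analyticAt_id).cpow analyticAt_const (Tim_slit hw)

theorem Tim_rt_zero : rt 0 = 1 := by
  simp [rt]

theorem Tim_rt_sq {w : ℂ} (hw : ‖w‖ < 1) : rt w ^ 2 * (1 - w) = 1 := by
  have h0 : 1 - w ≠ 0 := slitPlane_ne_zero (Tim_slit hw)
  unfold rt
  rw [← Complex.cpow_nat_mul]
  have h1 : (((2 : ℕ) : ℂ) * (-(1 / 2) : ℂ)) = -1 := by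
    push_cast
    ring
  rw [h1, Complex.cpow_neg_one]
  exact inv_mul_cancel₀ h0

theorem Tim_rt_re {w : ℂ} (hw : ‖w‖ < 1) : 0 ≤ (rt w).re := by
  have h0 : 1 - w ≠ 0 := slitPlane_ne_zero (Tim_slit hw)
  unfold rt
  rw [Complex.cpow_def_of_ne_zero h0, Complex.exp_re]
  refine mul_nonneg (Real.exp_pos _).le (Real.cos_nonneg_of_neg_pi_div_two_le_of_le ?_ ?_)
  · have h1 : (log (1 - w) * (-(1 / 2) : ℂ)).im = -(1 / 2) * arg (1 - w) := by
      simp [Complex.mul_im, Complex.log_im]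
      ring
    rw [h1]
    have h2 := Complex.arg_le_pi (1 - w)
    linarith
  · have h1 : (log (1 - w) * (-(1 / 2) : ℂ)).im = -(1 / 2) * arg (1 - w) := by
      simp [Complex.mul_im, Complex.log_im]
      ring
    rw [h1]
    have h2 := Complex.neg_pi_lt_arg (1 - w)
    linarith

theorem Tim_rt_norm {w : ℂ} (hw : ‖w‖ ≤ 1 / 2) : ‖rt w‖ ^ 2 ≤ 2 ∧ 2 / 3 ≤ ‖rt w‖ ^ 2 := by
  have h1 := congrArg norm (Tim_rt_sq (show ‖w‖ < 1 by linarith))
  rw [norm_mul, norm_pow, norm_one] at h1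
  have h2 : ‖(1 : ℂ) - w‖ ≤ 3 / 2 := by
    refine (norm_sub_le _ _).trans ?_
    rw [norm_one]
    linarith
  have h3 : 1 / 2 ≤ ‖(1 : ℂ) - w‖ := by
    have := norm_sub_norm_le (1 : ℂ) w
    rw [norm_one] at this
    linarith
  have h4 : 0 ≤ ‖rt w‖ ^ 2 := by positivity
  constructor <;> nlinarith

theorem Tim_rt_bd {w : ℂ} (hw : ‖w‖ ≤ 1 / 2) : ‖rt w - 1‖ ≤ 2 * ‖w‖ := by
  have hw1 : ‖w‖ < 1 := by linarith
  have h1 := Tim_rt_sq hw1
  have h2 : (rt w - 1) * (rt w + 1) = w * rt w ^ 2 := by linear_combination h1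
  have h3 := congrArg norm h2
  rw [norm_mul, norm_mul, norm_pow] at h3
  have h4 : 1 ≤ ‖rt w + 1‖ := by
    have h5 := Complex.re_le_norm (rt w + 1)
    have h6 := Tim_rt_re hw1
    simp only [add_re, one_re] at h5
    linarith
  have h5 := (Tim_rt_norm hw).1
  have h6 : ‖rt w - 1‖ ≤ ‖rt w - 1‖ * ‖rt w + 1‖ := le_mul_of_one_le_right (norm_nonneg _) h4
  have h7 : ‖w‖ * ‖rt w‖ ^ 2 ≤ ‖w‖ * 2 := mul_le_mul_of_nonneg_left h5 (norm_nonneg _)
  linarith

theorem Tim_rt_conj {w : ℂ} (hw : ‖w‖ < 1) : rt (conj w) = conj (rt w) := by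
  unfold rt
  have h1 : (1 - w).arg ≠ Real.pi := Complex.mem_slitPlane_iff_arg.1 (Tim_slit hw) |>.1
  have h2 : ((1 : ℂ) - conj w).arg ≠ Real.pi := by
    refine (Complex.mem_slitPlane_iff_arg.1 (Tim_slit (w := conj w) ?_)).1
    rwa [Complex.norm_conj]
  have h3 := Complex.cpow_conj ((1 : ℂ) - conj w) (-(1 / 2) : ℂ) h2
  have h4 : conj (-(1 / 2) : ℂ) = (-(1 / 2) : ℂ) := by
    have h5 : (-(1 / 2) : ℂ) = ((-(1 / 2) : ℝ) : ℂ) := by
      push_cast
      ring
    rw [h5, Complex.conj_ofReal]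
  rw [h4] at h3
  rw [h3]
  simp

/-! ### Calculus in the algebra `C([0,1])` -/

/-- the algebra of continuous functions on the unit interval -/
abbrev TimC := C(unitInterval, ℂ)

/-- an analytic function of one variable, applied to elements of the algebra -/
theorem Tim_calc {A : ℂ → ℂ} {R' : ℝ} {R : ENNReal} {p : FormalMultilinearSeries ℂ ℂ ℂ}
    (hp : HasFPowerSeriesOnBall A p 0 R) (hR' : ENNReal.ofReal R' ≤ R) :
    ∃ Φ : TimC → TimC, AnalyticOnNhd ℂ Φ (ball 0 R') ∧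
      ∀ X ∈ ball (0 : TimC) R', ∀ s, Φ X s = A (X s) := by
  let q : FormalMultilinearSeries ℂ TimC TimC :=
    FormalMultilinearSeries.ofScalars TimC p.coeff
  have hq : p.radius ≤ q.radius := by
    refine FormalMultilinearSeries.radius_le_of_le fun n => ?_
    rw [FormalMultilinearSeries.norm_apply_eq_norm_coef]
    exact (FormalMultilinearSeries.ofScalars_norm TimC p.coeff n).le
  have hR : R ≤ q.radius := hp.r_le.trans hq
  have hq0 : 0 < q.radius := hp.r_pos.trans_le hR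
  have hs := q.hasFPowerSeriesOnBall hq0
  have hmem : ∀ X ∈ ball (0 : TimC) R', X ∈ Metric.eball (0 : TimC) R := by
    intro X hX
    rw [Metric.mem_eball, edist_dist]
    rw [Metric.mem_ball] at hX
    refine lt_of_lt_of_le ?_ hR'
    rw [ENNReal.ofReal_lt_ofReal_iff_of_nonneg dist_nonneg]
    exact hX
  refine ⟨q.sum, ?_, ?_⟩
  · have h1 := hs.analyticOnNhd
    exact h1.mono fun X hX => Metric.eball_subset_eball hR (hmem X hX)
  · intro X hX s
    have hX1 : X ∈ Metric.eball (0 : TimC) R := hmem X hX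
    have hX2 : X ∈ Metric.eball (0 : TimC) q.radius := Metric.eball_subset_eball hR hX1
    have h1 := hs.hasSum hX2
    rw [zero_add] at h1
    have h2 := h1.mapL (ContinuousMap.evalCLM ℂ s)
    have hXs : X s ∈ Metric.eball (0 : ℂ) R := by
      rw [Metric.mem_eball, edist_dist, dist_zero_right]
      rw [Metric.mem_eball, edist_dist, dist_zero_right] at hX1
      exact (ENNReal.ofReal_le_ofReal (ContinuousMap.norm_coe_le_norm X s)).trans_lt hX1
    have h3 := hp.hasSum hXs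
    rw [zero_add] at h3
    have h4 : (fun n => (ContinuousMap.evalCLM ℂ s) ((q n) fun _ => X)) =
        fun n => (p n) fun _ => X s := by
      funext n
      rw [FormalMultilinearSeries.apply_eq_pow_smul_coeff,
        show ((q n) fun _ => X) = p.coeff n • X ^ n from
          FormalMultilinearSeries.ofScalars_apply_eq p.coeff X n]
      simp [mul_comm]
    rw [h4] at h2
    exact h2.unique h3

/-- `rt` in the algebra -/
theorem Tim_calc_rt : ∃ Φ : TimC → TimC, AnalyticOnNhd ℂ Φ (ball 0 (3 / 4)) ∧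
    ∀ X ∈ ball (0 : TimC) (3 / 4), ∀ s, Φ X s = rt (X s) := by
  have h1 : DifferentiableOn ℂ rt (closedBall 0 ((3 / 4 : NNReal) : ℝ)) := by
    intro w hw
    rw [mem_closedBall_zero_iff] at hw
    refine (Tim_rt_an ?_).differentiableAt.differentiableWithinAt
    refine lt_of_le_of_lt hw ?_
    push_cast
    norm_num
  have h2 := h1.hasFPowerSeriesOnBall (by norm_num)
  refine Tim_calc h2 ?_
  rw [ENNReal.ofReal]
  refine ENNReal.coe_le_coe.2 ?_
  rw [← NNReal.coe_le_coe, Real.coe_toNNReal _ (by norm_num)]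
  push_cast
  exact le_rfl

/-- an analytic germ in the algebra -/
theorem Tim_calc_germ {A : ℂ → ℂ} (hA : AnalyticAt ℂ A 0) :
    ∃ (R : ℝ) (Φ : TimC → TimC), 0 < R ∧ AnalyticOnNhd ℂ Φ (ball 0 R) ∧
      ∀ X ∈ ball (0 : TimC) R, ∀ s, Φ X s = A (X s) := by
  obtain ⟨p, R, hp⟩ := hA
  obtain ⟨R', hR'0, hR'⟩ := ENNReal.lt_iff_exists_nnreal_btwn.1 hp.r_pos
  have hR'0 : 0 < (R' : ℝ) := by exact_mod_cast hR'0
  obtain ⟨Φ, h1, h2⟩ := Tim_calc (R' := R') hp (by
    rw [ENNReal.ofReal_coe_nnreal]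
    exact hR'.le)
  exact ⟨R', Φ, hR'0, h1, h2⟩

/-- integration over the interval -/
noncomputable def Tim_I : TimC →L[ℂ] ℂ :=
  LinearMap.mkContinuous
    { toFun := fun f => ∫ s in (0 : ℝ)..1, f (Set.projIcc 0 1 zero_le_one s)
      map_add' := by
        intro f g
        simp only [ContinuousMap.add_apply]
        exact intervalIntegral.integral_add
          ((f.continuous.comp continuous_projIcc).intervalIntegrable _ _)
          ((g.continuous.comp continuous_projIcc).intervalIntegrable _ _)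
      map_smul' := by
        intro a f
        simp only [ContinuousMap.smul_apply, RingHom.id_apply]
        exact intervalIntegral.integral_smul _ _ } 1 (by
    intro f
    rw [one_mul]
    have h := intervalIntegral.norm_integral_le_of_norm_le_const (a := 0) (b := 1)
      (f := fun s : ℝ => f (Set.projIcc 0 1 zero_le_one s)) (C := ‖f‖)
      (fun s _ => ContinuousMap.norm_coe_le_norm f _)
    simpa using h)

theorem Tim_I_apply (f : TimC) (F : ℝ → ℂ) (h : ∀ s : unitInterval, f s = F s) :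
    Tim_I f = ∫ s in (0 : ℝ)..1, F s := by
  have h0 : Tim_I f = ∫ s in (0 : ℝ)..1, f (Set.projIcc 0 1 zero_le_one s) := rfl
  rw [h0]
  refine intervalIntegral.integral_congr fun s hs => ?_
  rw [Set.uIcc_of_le zero_le_one] at hs
  show f (Set.projIcc 0 1 zero_le_one s) = F s
  rw [h, Set.projIcc_of_mem zero_le_one hs]

/-- analyticity in `ε` of the integral over a path -/
theorem Tim_path_an {k : ℝ → ℂ} {b : ℝ} (hk : ContinuousOn k (Set.uIcc 0 b)) {ε0 : ℂ}
    (h : ∀ t ∈ Set.uIcc 0 b, ‖ε0 * k t‖ ≤ 1 / 2) :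
    AnalyticAt ℂ (fun ε => ∫ t in (0 : ℝ)..b, rt (ε * k t)) ε0 := by
  obtain ⟨Φ, hΦ1, hΦ2⟩ := Tim_calc_rt
  have hmem : ∀ s : unitInterval, b * (s : ℝ) ∈ Set.uIcc 0 b := by
    intro s
    have h1 := s.2.1
    have h2 := s.2.2
    rcases le_total 0 b with h3 | h3
    · rw [Set.uIcc_of_le h3]
      exact ⟨mul_nonneg h3 h1, by nlinarith⟩
    · rw [Set.uIcc_of_ge h3]
      exact ⟨by nlinarith, mul_nonpos_of_nonpos_of_nonneg h3 h1⟩
  have hc : Continuous (fun s : unitInterval => k (b * (s : ℝ))) :=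
    hk.comp_continuous (by fun_prop) hmem
  obtain ⟨K, hK⟩ : ∃ K : TimC, ∀ s : unitInterval, K s = k (b * (s : ℝ)) :=
    ⟨⟨fun s => k (b * (s : ℝ)), hc⟩, fun s => rfl⟩
  have h0 : ‖ε0 • K‖ ≤ 1 / 2 := by
    refine (ContinuousMap.norm_le _ (by norm_num)).2 fun s => ?_
    rw [ContinuousMap.smul_apply, hK, smul_eq_mul]
    exact h _ (hmem s)
  have hcont : Continuous (fun ε : ℂ => ε • K) := by fun_prop
  have h1 : ∀ᶠ ε in 𝓝 ε0, ‖ε • K‖ < 3 / 4 := by
    have h2 : Tendsto (fun ε : ℂ => ‖ε • K‖) (𝓝 ε0) (𝓝 ‖ε0 • K‖) := hcont.norm.tendsto ε0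
    exact h2.eventually_lt_const (by linarith)
  have h2 : (fun ε => ∫ t in (0 : ℝ)..b, rt (ε * k t)) =ᶠ[𝓝 ε0]
      fun ε => (b : ℂ) * Tim_I (Φ (ε • K)) := by
    filter_upwards [h1] with ε hε
    have h3 : Tim_I (Φ (ε • K)) = ∫ s in (0 : ℝ)..1, rt (ε * k (b * s)) := by
      refine Tim_I_apply _ _ fun s => ?_
      rw [hΦ2 _ (by rwa [mem_ball_zero_iff]), ContinuousMap.smul_apply, hK, smul_eq_mul]
    rw [h3]
    have h4 := intervalIntegral.smul_integral_comp_mul_left (a := 0) (b := 1)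
      (fun t => rt (ε * k t)) b
    rw [mul_zero, mul_one] at h4
    rw [← h4]
    rfl
  have h3 : AnalyticAt ℂ (fun ε : ℂ => ε • K) ε0 := by
    have h4 : ContDiff ℂ ⊤ (fun ε : ℂ => ε • K) := by fun_prop
    exact h4.contDiffAt.analyticAt
  have h4 : AnalyticAt ℂ (fun ε => Φ (ε • K)) ε0 := by
    refine AnalyticAt.fun_comp (g := Φ) (hΦ1 _ ?_) h3
    rw [mem_ball_zero_iff]
    linarith
  have h5 : AnalyticAt ℂ (fun ε => Tim_I (Φ (ε • K))) ε0 :=
    (Tim_I.analyticAt _).fun_comp h4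
  exact (analyticAt_const.mul h5).congr h2.symm

/-! ### primitives -/

/-- horizontal and vertical segment -/
noncomputable def Tim_W (f : ℂ → ℂ) (x : ℂ) : ℂ :=
  (∫ t in (0 : ℝ)..x.re, f t) + I * ∫ y in (0 : ℝ)..x.im, f (x.re + I * y)

/-- an open set which contains the real axis and all vertical segments down to the axis -/
structure TimU (U : Set ℂ) : Prop where
  isOpen : IsOpen U
  real : ∀ t : ℝ, (t : ℂ) ∈ U
  star : ∀ x ∈ U, ∀ y ∈ Set.uIcc 0 x.im, (x.re : ℂ) + I * (y : ℂ) ∈ U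

theorem Tim_re (a b : ℝ) : ((a : ℂ) + I * (b : ℂ)).re = a := by simp

theorem Tim_im (a b : ℝ) : ((a : ℂ) + I * (b : ℂ)).im = b := by simp

theorem Tim_mk (x : ℂ) : (x.re : ℂ) + I * (x.im : ℂ) = x := by
  rw [mul_comm]
  exact Complex.re_add_im x

theorem Tim_W_sub {U : Set ℂ} (hU : TimU U) {f : ℂ → ℂ} (hf : DifferentiableOn ℂ f U) {z : ℂ}
    {r : ℝ} (hr : ball z r ⊆ U) {w : ℂ} (hw : w ∈ ball z r) :
    Tim_W f w = Tim_W f z + wedgeIntegral z w f := by
  have hc := hf.continuousOn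
  have hr0 : 0 < r := pos_of_mem_ball hw
  rw [mem_ball, dist_eq] at hw
  have hz : z ∈ U := hr (mem_ball_self hr0)
  have hwU : w ∈ U := hr (by rwa [mem_ball, dist_eq])
  -- vertical segments
  have V : ∀ x ∈ U, ∀ a b : ℝ, a ∈ Set.uIcc 0 x.im → b ∈ Set.uIcc 0 x.im →
      IntervalIntegrable (fun y : ℝ => f (x.re + I * y)) volume a b := by
    intro x hx a b ha hb
    have hsub : Set.uIcc a b ⊆ Set.uIcc 0 x.im := Set.uIcc_subset_uIcc ha hb
    refine (hc.comp (t := U) ?_ ?_).intervalIntegrable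
    · exact Continuous.continuousOn (by fun_prop)
    · intro y hy
      exact hU.star x hx y (hsub hy)
  have H : ∀ a b : ℝ, IntervalIntegrable (fun t : ℝ => f t) volume a b := by
    intro a b
    refine (hc.comp_continuous (by fun_prop) fun t => hU.real t).intervalIntegrable _ _
  -- the corner
  have hre : |w.re - z.re| ≤ ‖w - z‖ := by
    have := Complex.abs_re_le_norm (w - z)
    rwa [sub_re] at this
  have hcor : ∀ a : ℝ, |a - z.re| ≤ |w.re - z.re| → (a : ℂ) + I * (z.im : ℂ) ∈ U := by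
    intro a ha
    apply hr
    rw [mem_ball, dist_eq]
    have e : (a : ℂ) + I * (z.im : ℂ) - z = ((a - z.re : ℝ) : ℂ) := by
      conv_lhs => rw [← Tim_mk z]
      push_cast
      simp
    rw [e, Complex.norm_real, Real.norm_eq_abs]
    linarith
  have hcw : (w.re : ℂ) + I * (z.im : ℂ) ∈ U := hcor _ le_rfl
  -- the last vertical piece
  have V2 : IntervalIntegrable (fun y : ℝ => f (w.re + I * y)) volume z.im w.im := by
    refine (hc.comp (t := U) ?_ ?_).intervalIntegrable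
    · exact Continuous.continuousOn (by fun_prop)
    · intro y hy
      show (w.re : ℂ) + I * (y : ℂ) ∈ U
      apply hr
      rw [mem_ball, dist_eq]
      refine lt_of_le_of_lt ?_ hw
      rw [Complex.norm_eq_sqrt_sq_add_sq, Complex.norm_eq_sqrt_sq_add_sq]
      refine Real.sqrt_le_sqrt ?_
      rw [sub_re, sub_im, Tim_re, Tim_im, sub_re, sub_im]
      have h1 : |y - z.im| ≤ |w.im - z.im| := by
        rcases le_total z.im w.im with h | h
        · rw [Set.uIcc_of_le h] at hy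
          rw [abs_of_nonneg (by linarith [hy.1]), abs_of_nonneg (by linarith)]
          linarith [hy.2]
        · rw [Set.uIcc_of_ge h] at hy
          rw [abs_of_nonpos (by linarith [hy.2]), abs_of_nonpos (by linarith)]
          linarith [hy.1]
      have h3 : (y - z.im) ^ 2 ≤ (w.im - z.im) ^ 2 := sq_le_sq.2 h1
      linarith
  have e1 : (∫ t in (0 : ℝ)..w.re, f t) = (∫ t in (0 : ℝ)..z.re, f t) +
      ∫ t in z.re..w.re, f t :=
    (intervalIntegral.integral_add_adjacent_intervals (H _ _) (H _ _)).symm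
  have V1 : IntervalIntegrable (fun y : ℝ => f (w.re + I * y)) volume 0 z.im := by
    have h1 := V _ hcw 0 z.im (by simp) (by rw [Tim_im]; simp)
    rw [Tim_re] at h1
    exact h1
  have e2 : (∫ y in (0 : ℝ)..w.im, f (w.re + I * y)) = (∫ y in (0 : ℝ)..z.im, f (w.re + I * y)) +
      ∫ y in z.im..w.im, f (w.re + I * y) :=
    (intervalIntegral.integral_add_adjacent_intervals V1 V2).symm
  have hrect : Rectangle ((z.re : ℂ)) ((w.re : ℂ) + I * (z.im : ℂ)) ⊆ U := by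
    intro p hp
    rw [Rectangle, mem_reProdIm, Tim_re, Tim_im, ofReal_re, ofReal_im] at hp
    have h1 : |p.re - z.re| ≤ |w.re - z.re| := by
      have hy := hp.1
      rcases le_total z.re w.re with h | h
      · rw [Set.uIcc_of_le h] at hy
        rw [abs_of_nonneg (by linarith [hy.1]), abs_of_nonneg (by linarith)]
        linarith [hy.2]
      · rw [Set.uIcc_of_ge h] at hy
        rw [abs_of_nonpos (by linarith [hy.2]), abs_of_nonpos (by linarith)]
        linarith [hy.1]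
    have h2 := hU.star _ (hcor p.re h1) p.im (by rw [Tim_im]; exact hp.2)
    rw [Tim_re, Tim_mk] at h2
    exact h2
  have hC := hf.isConservativeOn _ _ hrect
  rw [← add_eq_zero_iff_eq_neg, wedgeIntegral_add_wedgeIntegral_eq] at hC
  simp only [Tim_re, Tim_im, ofReal_re, ofReal_im, smul_eq_mul, ofReal_zero, zero_mul,
    add_zero] at hC
  unfold Tim_W wedgeIntegral
  rw [e1, e2]
  simp only [smul_eq_mul]
  have c1 : ∀ a : ℝ, (fun y : ℝ => f (a + I * y)) = fun y : ℝ => f (a + y * I) := by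
    intro a
    funext y
    rw [mul_comm]
  simp only [c1]
  linear_combination hC

theorem Tim_W_deriv {U : Set ℂ} (hU : TimU U) {f : ℂ → ℂ} (hf : DifferentiableOn ℂ f U) {z : ℂ}
    (hz : z ∈ U) : HasDerivAt (Tim_W f) (f z) z := by
  obtain ⟨r, hr0, hr⟩ := Metric.isOpen_iff.1 hU.isOpen z hz
  have h1 : DifferentiableOn ℂ f (ball z r) := hf.mono hr
  have h2 := h1.isConservativeOn.hasDerivAt_wedgeIntegral h1.continuousOn (mem_ball_self hr0)
  have h3 : HasDerivAt (fun w => Tim_W f z + wedgeIntegral z w f) (f z) z := h2.const_add _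
  refine h3.congr_of_eventuallyEq ?_
  filter_upwards [Metric.ball_mem_nhds z hr0] with w hw
  exact Tim_W_sub hU hf hr hw

/-! ### the constant and the time map -/

theorem Tim_g_an (G : GD) (t : ℝ) : AnalyticAt ℂ G.g t := by
  refine G.g_an t ?_ fun n => ⟨?_, ?_⟩
  · rw [ofReal_im, abs_zero]
    linarith [G.h_pos]
  · intro h
    have h1 := congrArg Complex.im h
    have h2 : ((n : ℂ) / 2 + I * G.h).im = G.h := by
      have : ((n : ℂ) / 2 + I * G.h) = (((n : ℝ) / 2 : ℝ) : ℂ) + I * ((G.h : ℝ) : ℂ) := by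
        push_cast
        ring
      rw [this, Tim_im]
    rw [h2, ofReal_im] at h1
    linarith [G.h_pos]
  · intro h
    have h1 := congrArg Complex.im h
    have h2 : ((n : ℂ) / 2 - I * G.h).im = -G.h := by
      have : ((n : ℂ) / 2 - I * G.h) = (((n : ℝ) / 2 : ℝ) : ℂ) + I * ((-G.h : ℝ) : ℂ) := by
        push_cast
        ring
      rw [this, Tim_im]
    rw [h2, ofReal_im] at h1
    linarith [G.h_pos]

theorem Tim_g_le (G : GD) (t : ℝ) : ‖G.g t‖ ≤ 1 := by
  obtain ⟨h1, h2, h3⟩ := G.g_real t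
  have h4 : G.g t = (((G.g t).re : ℝ) : ℂ) := by
    apply Complex.ext
    · simp
    · simpa using h1
  rw [h4, Complex.norm_real, Real.norm_of_nonneg h2]
  exact h3

theorem Tim_g_conj (G : GD) (t : ℝ) : conj (G.g t) = G.g t := by
  rw [← G.g_conj, Complex.conj_ofReal]

theorem Tim_g_cont (G : GD) : Continuous (fun t : ℝ => G.g t) := by
  rw [continuous_iff_continuousAt]
  intro t
  exact ContinuousAt.comp (g := G.g) (Tim_g_an G t).continuousAt (by fun_prop)

theorem Tim_eg_le (G : GD) (ε : ℂ) (t : ℝ) : ‖ε * G.g t‖ ≤ ‖ε‖ := by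
  rw [norm_mul]
  exact mul_le_of_le_one_right (norm_nonneg _) (Tim_g_le G t)

theorem Tim_rt_cont (G : GD) {ε : ℂ} (hε : ‖ε‖ < 1) :
    Continuous (fun t : ℝ => rt (ε * G.g t)) := by
  rw [continuous_iff_continuousAt]
  intro t
  refine ContinuousAt.comp (g := rt) (Tim_rt_an ?_).continuousAt
    (continuousAt_const.mul (Tim_g_cont G).continuousAt)
  exact (Tim_eg_le G ε t).trans_lt hε

theorem Tim_c_an (G : GD) {ε : ℂ} (hε : ‖ε‖ ≤ 1 / 2) : AnalyticAt ℂ (cE G) ε := by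
  refine Tim_path_an (k := fun t => G.g t) (b := 1) (Tim_g_cont G).continuousOn ?_
  intro t _
  exact (Tim_eg_le G ε t).trans hε

theorem Tim_c_zero (G : GD) : cE G 0 = 1 := by
  simp [cE, Tim_rt_zero]

theorem Tim_c_close (G : GD) {ε : ℂ} (hε : ‖ε‖ ≤ 1 / 2) : ‖cE G ε - 1‖ ≤ 2 * ‖ε‖ := by
  have h1 : cE G ε - 1 = ∫ t in (0 : ℝ)..1, (rt (ε * G.g t) - 1) := by
    rw [intervalIntegral.integral_sub ((Tim_rt_cont G (by linarith)).intervalIntegrable _ _)
      (by simp)]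
    simp [cE]
  rw [h1]
  have h2 := intervalIntegral.norm_integral_le_of_norm_le_const (a := 0) (b := 1)
    (f := fun t : ℝ => rt (ε * G.g t) - 1) (C := 2 * ‖ε‖) (fun t _ => by
      have h3 := Tim_eg_le G ε t
      exact (Tim_rt_bd (h3.trans hε)).trans (by linarith))
  simpa using h2

theorem Tim_c_half (G : GD) {ε : ℂ} (hε : ‖ε‖ ≤ 1 / 4) : 1 / 2 ≤ ‖cE G ε‖ := by
  have h1 := Tim_c_close G (ε := ε) (by linarith)
  have h2 := norm_sub_norm_le (1 : ℂ) (cE G ε)
  rw [norm_one, norm_sub_rev] at h2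
  linarith

theorem Tim_c_ne (G : GD) {ε : ℂ} (hε : ‖ε‖ ≤ 1 / 4) : cE G ε ≠ 0 := by
  intro h
  have h1 := Tim_c_half G hε
  rw [h, norm_zero] at h1
  linarith

theorem Tim_int_conj (f : ℝ → ℂ) (a b : ℝ) :
    (∫ t in a..b, conj (f t)) = conj (∫ t in a..b, f t) := by
  rw [intervalIntegral, intervalIntegral, integral_conj, integral_conj, map_sub]

theorem Tim_c_conj (G : GD) {ε : ℂ} (hε : ‖ε‖ < 1) : cE G (conj ε) = conj (cE G ε) := by
  unfold cE
  rw [← Tim_int_conj]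
  refine intervalIntegral.integral_congr fun t _ => ?_
  show rt (conj ε * G.g t) = conj (rt (ε * G.g t))
  rw [← Tim_rt_conj ((Tim_eg_le G ε t).trans_lt hε), map_mul, Tim_g_conj]

theorem Tim_ph_W (G : GD) (ε x : ℂ) :
    phE G ε x = (cE G ε)⁻¹ * Tim_W (fun x => rt (ε * G.g x)) x := rfl

theorem Tim_rtg_an (G : GD) {ε x : ℂ} (hg : AnalyticAt ℂ G.g x) (hs : ‖ε * G.g x‖ < 1) :
    AnalyticAt ℂ (fun x => rt (ε * G.g x)) x :=
  AnalyticAt.fun_comp (g := rt) (Tim_rt_an hs) (analyticAt_const.mul hg)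

/-- derivative of the time map -/
theorem Tim_ph_deriv (G : GD) {U : Set ℂ} (hU : TimU U) {ε : ℂ}
    (hg : ∀ x ∈ U, AnalyticAt ℂ G.g x) (hs : ∀ x ∈ U, ‖ε * G.g x‖ < 1) {x : ℂ} (hx : x ∈ U) :
    HasDerivAt (phE G ε) (rt (ε * G.g x) / cE G ε) x := by
  have h1 : DifferentiableOn ℂ (fun x => rt (ε * G.g x)) U := fun y hy =>
    (Tim_rtg_an G (hg y hy) (hs y hy)).differentiableAt.differentiableWithinAt
  have h2 := (Tim_W_deriv hU h1 hx).const_mul (cE G ε)⁻¹
  rw [div_eq_inv_mul]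
  exact h2

/-- the increment of the time map along a segment -/
theorem Tim_ph_seg (G : GD) {U : Set ℂ} (hU : TimU U) {ε : ℂ}
    (hg : ∀ x ∈ U, AnalyticAt ℂ G.g x) (hs : ∀ x ∈ U, ‖ε * G.g x‖ < 1) {x0 x : ℂ}
    (hx : ∀ s ∈ Set.Icc (0 : ℝ) 1, x0 + (s : ℂ) * (x - x0) ∈ U) :
    phE G ε x = phE G ε x0 +
      (cE G ε)⁻¹ * ((x - x0) * ∫ s in (0 : ℝ)..1, rt (ε * G.g (x0 + s * (x - x0)))) := by
  have h1 : ∀ s ∈ Set.uIcc (0 : ℝ) 1, HasDerivAt (fun s : ℝ => phE G ε (x0 + s * (x - x0)))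
      ((x - x0) * (rt (ε * G.g (x0 + s * (x - x0))) / cE G ε)) s := by
    intro s hs1
    rw [Set.uIcc_of_le zero_le_one] at hs1
    have h2 := Tim_ph_deriv G hU hg hs (hx s hs1)
    have h3 : HasDerivAt (fun s : ℝ => x0 + (s : ℂ) * (x - x0)) (x - x0) s := by
      have h4 := ((hasDerivAt_id s).ofReal_comp.mul_const (x - x0)).const_add x0
      simpa using h4
    have h5 := h2.scomp s h3
    simp only [smul_eq_mul] at h5
    exact h5
  have h2 : ContinuousOn (fun s : ℝ => rt (ε * G.g (x0 + s * (x - x0)))) (Set.uIcc 0 1) := by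
    intro s hs1
    rw [Set.uIcc_of_le zero_le_one] at hs1
    have h3 := (Tim_rtg_an G (hg _ (hx s hs1)) (hs _ (hx s hs1))).continuousAt
    refine ContinuousAt.continuousWithinAt ?_
    exact ContinuousAt.comp (f := fun s : ℝ => x0 + (s : ℂ) * (x - x0))
      (g := fun x => rt (ε * G.g x)) h3 (by fun_prop)
  have h3 := intervalIntegral.integral_eq_sub_of_hasDerivAt h1
    (ContinuousOn.intervalIntegrable (continuousOn_const.mul (h2.div_const _)))
  rw [intervalIntegral.integral_const_mul, intervalIntegral.integral_div] at h3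
  have h4 : x0 + ((1 : ℝ) : ℂ) * (x - x0) = x := by
    push_cast
    ring
  have h5 : x0 + ((0 : ℝ) : ℂ) * (x - x0) = x0 := by
    push_cast
    ring
  rw [h4, h5] at h3
  linear_combination -h3

theorem Tim_M0 (G : GD) {U : Set ℂ} (hU : TimU U) {M : ℝ} (hM : ∀ x ∈ U, ‖G.g x‖ ≤ M) : 0 ≤ M :=
  (norm_nonneg _).trans (hM _ (hU.real 0))

/-- joint analyticity of the time map -/
theorem Tim_ph_joint (G : GD) {U : Set ℂ} (hU : TimU U) (hg : ∀ x ∈ U, AnalyticAt ℂ G.g x)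
    {M : ℝ} (hM : ∀ x ∈ U, ‖G.g x‖ ≤ M) {η0 : ℂ} (h0 : ‖η0‖ ≤ 1 / 2) (h1 : ‖η0‖ ^ 2 * M ≤ 1 / 2)
    {x0 : ℂ} (hx0 : x0 ∈ U) :
    AnalyticAt ℂ (fun p : ℂ × ℂ => phE G (p.1 ^ 2) p.2) (η0, x0) := by
  have hM0 := Tim_M0 G hU hM
  have hη2 : ‖η0 ^ 2‖ ≤ 1 / 4 := by
    rw [norm_pow]
    nlinarith [norm_nonneg η0]
  have hsm0 : ∀ x ∈ U, ‖η0 ^ 2 * G.g x‖ ≤ 1 / 2 := by
    intro x hx
    rw [norm_mul, norm_pow]
    exact (mul_le_mul_of_nonneg_left (hM x hx) (by positivity)).trans h1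
  -- neighbourhoods
  obtain ⟨r, hr0, hr⟩ := Metric.isOpen_iff.1 hU.isOpen x0 hx0
  have n1 : ∀ᶠ p in 𝓝 ((η0, x0) : ℂ × ℂ), ‖p.1‖ ^ 2 * M < 3 / 4 := by
    have h2 : Continuous (fun p : ℂ × ℂ => ‖p.1‖ ^ 2 * M) := by fun_prop
    exact (h2.tendsto (η0, x0)).eventually_lt_const (by
      show ‖η0‖ ^ 2 * M < 3 / 4
      linarith)
  have n2 : ∀ᶠ p in 𝓝 ((η0, x0) : ℂ × ℂ), p.2 ∈ ball x0 r := by
    have h2 : Continuous (fun p : ℂ × ℂ => p.2) := continuous_snd
    exact (h2.tendsto (η0, x0)).eventually (Metric.ball_mem_nhds x0 hr0)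
  -- the algebra
  obtain ⟨Φ, hΦ1, hΦ2⟩ := Tim_calc_rt
  have hA : AnalyticAt ℂ (fun u => G.g (x0 + u)) 0 := by
    refine AnalyticAt.fun_comp (g := G.g) (f := fun u => x0 + u) ?_
      (analyticAt_const.add analyticAt_id)
    rw [add_zero]
    exact hg x0 hx0
  obtain ⟨R, Ψ, hR0, hΨ1, hΨ2⟩ := Tim_calc_germ hA
  obtain ⟨S, hS⟩ : ∃ S : TimC, ∀ s : unitInterval, S s = ((s : ℝ) : ℂ) :=
    ⟨⟨fun s => ((s : ℝ) : ℂ), by fun_prop⟩, fun s => rfl⟩
  obtain ⟨X, hX⟩ : ∃ X : ℂ × ℂ → TimC, X = fun p => (p.2 - x0) • S := ⟨_, rfl⟩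
  have hXan : AnalyticAt ℂ X (η0, x0) := by
    have h2 : ContDiff ℂ ⊤ X := by
      rw [hX]
      fun_prop
    exact h2.contDiffAt.analyticAt
  have hX0 : X (η0, x0) = 0 := by
    rw [hX]
    ext s
    show ((x0 - x0) • S) s = 0
    rw [ContinuousMap.smul_apply, sub_self, smul_eq_mul, zero_mul]
  have n3 : ∀ᶠ p in 𝓝 ((η0, x0) : ℂ × ℂ), X p ∈ ball (0 : TimC) R := by
    have h2 := hXan.continuousAt.tendsto
    rw [hX0] at h2
    exact h2.eventually (Metric.ball_mem_nhds _ hR0)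
  obtain ⟨Z, hZ⟩ : ∃ Z : ℂ × ℂ → TimC, Z = fun p => (p.1 ^ 2) • Ψ (X p) := ⟨_, rfl⟩
  have hZan : AnalyticAt ℂ Z (η0, x0) := by
    rw [hZ]
    refine AnalyticAt.fun_smul ?_ ?_
    · exact (analyticAt_fst).fun_pow 2
    · refine AnalyticAt.fun_comp (g := Ψ) ?_ hXan
      rw [hX0]
      exact hΨ1 _ (mem_ball_self hR0)
  have hZs : ∀ p : ℂ × ℂ, X p ∈ ball (0 : TimC) R → ∀ s : unitInterval,
      Z p s = p.1 ^ 2 * G.g (x0 + s * (p.2 - x0)) := by
    intro p hp s
    rw [hZ]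
    show ((p.1 ^ 2) • Ψ (X p)) s = _
    rw [ContinuousMap.smul_apply, hΨ2 _ hp, smul_eq_mul, hX]
    show _ * G.g (x0 + ((p.2 - x0) • S) s) = _
    rw [ContinuousMap.smul_apply, hS, smul_eq_mul, mul_comm (p.2 - x0)]
  have hZ0 : ‖Z (η0, x0)‖ ≤ 1 / 2 := by
    refine (ContinuousMap.norm_le _ (by norm_num)).2 fun s => ?_
    rw [hZs _ (by rw [hX0]; exact mem_ball_self hR0)]
    show ‖η0 ^ 2 * G.g (x0 + s * (x0 - x0))‖ ≤ 1 / 2
    rw [sub_self, mul_zero, add_zero]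
    exact hsm0 x0 hx0
  have n4 : ∀ᶠ p in 𝓝 ((η0, x0) : ℂ × ℂ), Z p ∈ ball (0 : TimC) (3 / 4) := by
    refine hZan.continuousAt.eventually (Metric.isOpen_ball.mem_nhds ?_)
    rw [mem_ball_zero_iff]
    linarith
  have hJan : AnalyticAt ℂ (fun p => Tim_I (Φ (Z p))) (η0, x0) := by
    refine (Tim_I.analyticAt _).fun_comp (AnalyticAt.fun_comp (g := Φ) (hΦ1 _ ?_) hZan)
    rw [mem_ball_zero_iff]
    linarith
  have n5 : ∀ᶠ p in 𝓝 ((η0, x0) : ℂ × ℂ), Tim_I (Φ (Z p)) =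
      ∫ s in (0 : ℝ)..1, rt (p.1 ^ 2 * G.g (x0 + s * (p.2 - x0))) := by
    filter_upwards [n3, n4] with p h2 h3
    refine Tim_I_apply _ _ fun s => ?_
    rw [hΦ2 _ h3, hZs p h2]
  -- the value at `x0`
  have hsq : AnalyticAt ℂ (fun p : ℂ × ℂ => p.1 ^ 2) (η0, x0) := (analyticAt_fst).fun_pow 2
  have hcan : AnalyticAt ℂ (fun p : ℂ × ℂ => (cE G (p.1 ^ 2))⁻¹) (η0, x0) := by
    refine AnalyticAt.fun_inv ?_ (Tim_c_ne G hη2)
    exact AnalyticAt.fun_comp (g := cE G) (Tim_c_an G (by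
      show ‖η0 ^ 2‖ ≤ 1 / 2
      linarith)) hsq
  have hW : AnalyticAt ℂ (fun ε => Tim_W (fun x => rt (ε * G.g x)) x0) (η0 ^ 2) := by
    unfold Tim_W
    refine AnalyticAt.fun_add ?_ (analyticAt_const.fun_mul ?_)
    · refine Tim_path_an (k := fun t => G.g t) (Tim_g_cont G).continuousOn ?_
      intro t _
      exact hsm0 _ (hU.real t)
    · refine Tim_path_an (k := fun y => G.g (x0.re + I * y)) ?_ ?_
      · intro y hy
        refine ContinuousAt.continuousWithinAt ?_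
        exact ContinuousAt.comp (f := fun y : ℝ => (x0.re : ℂ) + I * (y : ℂ))
          (g := G.g) (hg _ (hU.star x0 hx0 y hy)).continuousAt (by fun_prop)
      · intro y hy
        exact hsm0 _ (hU.star x0 hx0 y hy)
  have hph0 : AnalyticAt ℂ (fun p : ℂ × ℂ => phE G (p.1 ^ 2) x0) (η0, x0) := by
    have h2 : AnalyticAt ℂ (fun p : ℂ × ℂ => (cE G (p.1 ^ 2))⁻¹ *
        Tim_W (fun x => rt (p.1 ^ 2 * G.g x)) x0) (η0, x0) :=
      hcan.fun_mul (AnalyticAt.fun_comp
        (g := fun ε => Tim_W (fun x => rt (ε * G.g x)) x0) hW hsq)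
    exact h2
  have hlin : AnalyticAt ℂ (fun p : ℂ × ℂ => p.2 - x0) (η0, x0) :=
    analyticAt_snd.sub analyticAt_const
  refine (hph0.fun_add (hcan.fun_mul (hlin.fun_mul hJan))).congr ?_
  filter_upwards [n1, n2, n5] with p h2 h3 h4
  rw [h4]
  refine (Tim_ph_seg G hU hg ?_ ?_).symm
  · intro x hx
    rw [norm_mul, norm_pow]
    have h5 : ‖p.1‖ ^ 2 * ‖G.g x‖ ≤ ‖p.1‖ ^ 2 * M :=
      mul_le_mul_of_nonneg_left (hM x hx) (by positivity)
    linarith
  · intro s hs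
    apply hr
    rw [mem_ball, dist_eq]
    rw [mem_ball, dist_eq] at h3
    have e : x0 + (s : ℂ) * (p.2 - x0) - x0 = (s : ℂ) * (p.2 - x0) := by ring
    rw [e, norm_mul, Complex.norm_real, Real.norm_of_nonneg hs.1]
    have h5 : s * ‖p.2 - x0‖ ≤ 1 * ‖p.2 - x0‖ :=
      mul_le_mul_of_nonneg_right hs.2 (norm_nonneg _)
    linarith

end Pool.Agent.MP_ae5b4e_an_LOC
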