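import Mathlib
import Pool.Agent.Lib.MP_ae5b4e_an_LOC.TimL

/-!
The time map of LOC: everything in `TD` except `near`, for all large `K0` and small `r0`.
-/

set_option autoImplicit false

namespace Pool.Agent.MP_ae5b4e_an_LOC

open Complex Filter Topology Metric ComplexConjugate MeasureTheory

/-- the fields of `TD` except `K0_r0` and `near` -/
structure TA (G : GD) (r0 K0 : ℝ) : Prop where
  c_an : ∀ ε : ℂ, ‖ε‖ < r0 ^ 2 → AnalyticAt ℂ (cE G) ε
  c_zero : cE G 0 = 1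
  c_conj : ∀ ε : ℂ, ‖ε‖ < r0 ^ 2 → cE G (conj ε) = conj (cE G ε)
  c_close : ∀ ε : ℂ, ‖ε‖ < r0 ^ 2 → ‖cE G ε - 1‖ ≤ K0 * ‖ε‖ ∧ 1 / 2 ≤ ‖cE G ε‖
  ph_an : ∀ η x : ℂ, ‖η‖ < r0 → |x.im| < G.h - K0 * ‖η‖ →
    AnalyticAt ℂ (fun p : ℂ × ℂ => phE G (p.1 ^ 2) p.2) (η, x)
  ph_deriv : ∀ η x : ℂ, ‖η‖ < r0 → |x.im| < G.h - K0 * ‖η‖ →
    HasDerivAt (phE G (η ^ 2)) (rt (η ^ 2 * G.g x) / cE G (η ^ 2)) x
  ph_half : ∀ η x : ℂ, ‖η‖ < r0 → |x.im| < G.h - K0 * ‖η‖ →
    phE G (η ^ 2) (x + 1 / 2) = phE G (η ^ 2) x + 1 / 2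
  ph_conj : ∀ η x : ℂ, ‖η‖ < r0 → |x.im| < G.h - K0 * ‖η‖ →
    phE G (conj (η ^ 2)) (conj x) = conj (phE G (η ^ 2) x)
  ph_zero : ∀ x : ℂ, |x.im| < G.h → phE G 0 x = x
  ph_close : ∀ η x : ℂ, ‖η‖ < r0 → |x.im| < G.h - K0 * ‖η‖ → ‖phE G (η ^ 2) x - x‖ ≤ K0 * ‖η‖
  ph_der : ∀ η x : ℂ, ‖η‖ < r0 → |x.im| < G.h - K0 * ‖η‖ →
    ‖rt (η ^ 2 * G.g x) / cE G (η ^ 2) - 1‖ ≤ 1 / 2
  small : ∀ η x : ℂ, ‖η‖ < r0 → |x.im| < G.h - K0 * ‖η‖ → ‖η ^ 2 * G.g x‖ ≤ 1 / 2

/-! ### the strip -/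

theorem Tim_pole_im (G : GD) (n : ℤ) : ((n : ℂ) / 2 + I * G.h).im = G.h := by
  have : ((n : ℂ) / 2 + I * G.h) = (((n : ℝ) / 2 : ℝ) : ℂ) + I * ((G.h : ℝ) : ℂ) := by
    push_cast
    ring
  rw [this, Tim_im]

theorem Tim_pole_im' (G : GD) (n : ℤ) : ((n : ℂ) / 2 - I * G.h).im = -G.h := by
  have : ((n : ℂ) / 2 - I * G.h) = (((n : ℝ) / 2 : ℝ) : ℂ) + I * ((-G.h : ℝ) : ℂ) := by
    push_cast
    ring
  rw [this, Tim_im]

theorem Tim_dist (G : GD) (x : ℂ) (n : ℤ) :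
    G.h - |x.im| ≤ ‖x - (n / 2 + I * G.h)‖ ∧ G.h - |x.im| ≤ ‖x - (n / 2 - I * G.h)‖ := by
  have h1 := Complex.abs_im_le_norm (x - (n / 2 + I * G.h))
  have h2 := Complex.abs_im_le_norm (x - (n / 2 - I * G.h))
  rw [sub_im, Tim_pole_im] at h1
  rw [sub_im, Tim_pole_im'] at h2
  constructor
  · linarith [neg_abs_le (x.im - G.h), le_abs_self x.im]
  · linarith [le_abs_self (x.im - -G.h), neg_abs_le x.im]

theorem Tim_g_an' (G : GD) {x : ℂ} (hx : |x.im| < G.h) : AnalyticAt ℂ G.g x := by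
  have hh := G.h_pos
  refine G.g_an x (by linarith) fun n => ?_
  have h1 := Tim_dist G x n
  constructor
  · intro h
    have h2 := h1.1
    rw [← h, sub_self, norm_zero] at h2
    linarith
  · intro h
    have h2 := h1.2
    rw [← h, sub_self, norm_zero] at h2
    linarith

theorem Tim_g_bd (G : GD) {x : ℂ} (hx : |x.im| < G.h) : ‖G.g x‖ ≤ G.C / (G.h - |x.im|) ^ 2 := by
  have hh := G.h_pos
  exact G.g_bd x _ (by linarith) (by linarith) fun n => Tim_dist G x n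

/-- the size of `η² g` on the domain -/
theorem Tim_small (G : GD) {K0 : ℝ} (hK : 0 < K0) {η x : ℂ} (hx : |x.im| < G.h - K0 * ‖η‖) :
    ‖η ^ 2 * G.g x‖ ≤ G.C / K0 ^ 2 := by
  have hn : 0 ≤ ‖η‖ := norm_nonneg η
  have h1 : |x.im| < G.h := by nlinarith
  have h2 := Tim_g_bd G h1
  have h3 : 0 < G.h - |x.im| := by linarith
  rw [norm_mul, norm_pow]
  have hC : 0 ≤ G.C := by linarith [G.one_le_C]
  refine (mul_le_mul_of_nonneg_left h2 (by positivity)).trans ?_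
  rw [← mul_div_assoc, div_le_div_iff₀ (by positivity) (by positivity)]
  have h4 : K0 * ‖η‖ ≤ G.h - |x.im| := by linarith
  have h5 : (K0 * ‖η‖) ^ 2 ≤ (G.h - |x.im|) ^ 2 := by
    exact pow_le_pow_left₀ (by positivity) h4 2
  calc ‖η‖ ^ 2 * G.C * K0 ^ 2 = G.C * (K0 * ‖η‖) ^ 2 := by ring
    _ ≤ G.C * (G.h - |x.im|) ^ 2 := mul_le_mul_of_nonneg_left h5 hC

theorem Tim_strip {b : ℝ} (hb : 0 < b) : TimU {x : ℂ | |x.im| < b} where
  isOpen := isOpen_lt (by fun_prop) continuous_const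
  real := by
    intro t
    show |(t : ℂ).im| < b
    rw [ofReal_im, abs_zero]
    exact hb
  star := by
    intro x hx y hy
    show |((x.re : ℂ) + I * (y : ℂ)).im| < b
    rw [Tim_im]
    have hx' : |x.im| < b := hx
    rcases le_total 0 x.im with h | h
    · rw [Set.uIcc_of_le h] at hy
      rw [abs_of_nonneg h] at hx'
      rw [abs_of_nonneg hy.1]
      linarith [hy.2]
    · rw [Set.uIcc_of_ge h] at hy
      rw [abs_of_nonpos h] at hx'
      rw [abs_of_nonpos hy.2]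
      linarith [hy.1]

/-! ### half period -/

theorem Tim_ph_half (G : GD) {ε : ℂ} (hε : ‖ε‖ ≤ 1 / 4) (x : ℂ) :
    phE G ε (x + 1 / 2) = phE G ε x + 1 / 2 := by
  have hc := Tim_c_ne G hε
  have hcont := Tim_rt_cont G (ε := ε) (by linarith)
  have hi : ∀ a b : ℝ, IntervalIntegrable (fun t : ℝ => rt (ε * G.g t)) volume a b := fun a b =>
    hcont.intervalIntegrable a b
  have hper : Function.Periodic (fun t : ℝ => rt (ε * G.g t)) (1 / 2) := by
    intro t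
    show rt (ε * G.g ((t + 1 / 2 : ℝ) : ℂ)) = rt (ε * G.g t)
    have h1 : ((t + 1 / 2 : ℝ) : ℂ) = t + 1 / 2 := by push_cast; ring
    rw [h1, G.g_half]
  have e1 : ∀ a : ℝ, (∫ t in a..a + 1 / 2, rt (ε * G.g t)) = ∫ t in (0 : ℝ)..(1 / 2),
      rt (ε * G.g t) := by
    intro a
    have h1 := hper.intervalIntegral_add_eq a 0
    rw [zero_add] at h1
    exact h1
  have e2 : cE G ε = 2 * ∫ t in (0 : ℝ)..(1 / 2), rt (ε * G.g t) := by
    unfold cE
    rw [← intervalIntegral.integral_add_adjacent_intervals (hi 0 (1 / 2)) (hi (1 / 2) 1)]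
    have h1 := e1 (1 / 2)
    rw [show (1 / 2 + 1 / 2 : ℝ) = 1 by norm_num] at h1
    rw [h1]
    ring
  have hre : (x + 1 / 2).re = x.re + 1 / 2 := by simp
  have him : (x + 1 / 2).im = x.im := by simp
  have e3 : (∫ t in (0 : ℝ)..x.re + 1 / 2, rt (ε * G.g t)) = (∫ t in (0 : ℝ)..x.re,
      rt (ε * G.g t)) + ∫ t in (0 : ℝ)..(1 / 2), rt (ε * G.g t) := by
    rw [← e1 x.re, intervalIntegral.integral_add_adjacent_intervals (hi _ _) (hi _ _)]
  have e4 : (∫ y in (0 : ℝ)..x.im, rt (ε * G.g (((x.re + 1 / 2 : ℝ) : ℂ) + I * y))) =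
      ∫ y in (0 : ℝ)..x.im, rt (ε * G.g (x.re + I * y)) := by
    refine intervalIntegral.integral_congr fun y _ => ?_
    show rt (ε * G.g (((x.re + 1 / 2 : ℝ) : ℂ) + I * y)) = rt (ε * G.g (x.re + I * y))
    have h1 : (((x.re + 1 / 2 : ℝ) : ℂ) + I * y) = (x.re + I * y) + 1 / 2 := by
      push_cast
      ring
    rw [h1, G.g_half]
  unfold phE
  rw [hre, him, e3, e4]
  have h5 : (cE G ε)⁻¹ * (∫ t in (0 : ℝ)..(1 / 2), rt (ε * G.g t)) = 1 / 2 := by
    rw [inv_mul_eq_iff_eq_mul₀ hc]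
    rw [e2]
    ring
  linear_combination h5

/-- periodicity of the displacement -/
theorem Tim_ph_per (G : GD) {ε : ℂ} (hε : ‖ε‖ ≤ 1 / 4) (n : ℤ) (x : ℂ) :
    phE G ε (x + n / 2) - (x + n / 2) = phE G ε x - x := by
  have h1 : Function.Periodic (fun x => phE G ε x - x) (1 / 2) := by
    intro y
    show phE G ε (y + 1 / 2) - (y + 1 / 2) = phE G ε y - y
    rw [Tim_ph_half G hε]
    ring
  have h2 := h1.int_mul n x
  have h3 : x + (n : ℂ) * (1 / 2) = x + n / 2 := by ring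
  simp only [h3] at h2
  exact h2

/-! ### conjugation -/

theorem Tim_ph_conj (G : GD) {ε : ℂ} (hε : ‖ε‖ < 1) {x : ℂ}
    (hx : ∀ y ∈ Set.uIcc 0 x.im, ‖ε * G.g (x.re + I * y)‖ < 1) :
    phE G (conj ε) (conj x) = conj (phE G ε x) := by
  unfold phE
  rw [Tim_c_conj G hε, conj_re, conj_im]
  simp only [map_mul, map_inv₀, map_add, Complex.conj_I]
  congr 1
  have e1 : (∫ t in (0 : ℝ)..x.re, rt (conj ε * G.g t)) =
      conj (∫ t in (0 : ℝ)..x.re, rt (ε * G.g t)) := by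
    rw [← Tim_int_conj]
    refine intervalIntegral.integral_congr fun t _ => ?_
    show rt (conj ε * G.g t) = conj (rt (ε * G.g t))
    rw [← Tim_rt_conj ((Tim_eg_le G ε t).trans_lt hε), map_mul, Tim_g_conj]
  have e2 : (∫ y in (0 : ℝ)..-x.im, rt (conj ε * G.g (x.re + I * y))) =
      -conj (∫ y in (0 : ℝ)..x.im, rt (ε * G.g (x.re + I * y))) := by
    have h1 := intervalIntegral.integral_comp_neg (a := 0) (b := x.im)
      (fun y : ℝ => rt (conj ε * G.g (x.re + I * y)))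
    rw [neg_zero] at h1
    rw [intervalIntegral.integral_symm, ← h1, ← Tim_int_conj]
    congr 1
    refine intervalIntegral.integral_congr fun y hy => ?_
    show rt (conj ε * G.g (x.re + I * ((-y : ℝ) : ℂ))) = conj (rt (ε * G.g (x.re + I * y)))
    rw [← Tim_rt_conj (hx y hy), map_mul, ← G.g_conj]
    congr 3
    simp only [map_add, map_mul, Complex.conj_I, Complex.conj_ofReal]
    push_cast
    ring
  rw [e1, e2]
  ring

/-! ### closeness -/

theorem Tim_int_sq {h b : ℝ} (hb : 0 ≤ b) (hbh : b < h) :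
    (∫ y in (0 : ℝ)..b, 1 / (h - y) ^ 2) = 1 / (h - b) - 1 / h := by
  have h1 : ∀ y ∈ Set.uIcc 0 b, HasDerivAt (fun y : ℝ => 1 / (h - y)) (1 / (h - y) ^ 2) y := by
    intro y hy
    rw [Set.uIcc_of_le hb] at hy
    have h2 : h - y ≠ 0 := by
      have := hy.2
      intro h3
      linarith
    have h3 : HasDerivAt (fun y : ℝ => h - y) (-1) y := (hasDerivAt_id y).const_sub h
    have h4 := h3.inv h2
    simp only [one_div]
    refine (h4.congr_deriv ?_)
    field_simp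
  have h2 : ContinuousOn (fun y : ℝ => 1 / (h - y) ^ 2) (Set.uIcc 0 b) := by
    intro y hy
    rw [Set.uIcc_of_le hb] at hy
    have h2 : (h - y) ^ 2 ≠ 0 := by
      have := hy.2
      have h3 : 0 < h - y := by linarith
      positivity
    exact (ContinuousAt.div continuousAt_const
      ((continuous_const.sub continuous_id).pow 2).continuousAt h2).continuousWithinAt
  rw [intervalIntegral.integral_eq_sub_of_hasDerivAt h1 h2.intervalIntegrable, sub_zero]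

/-- closeness for `0 ≤ Im x` and `0 ≤ Re x ≤ 1/2` -/
theorem Tim_close0 (G : GD) {K0 : ℝ} (hK : 16 * G.C ≤ K0) {η x : ℂ} (hη : ‖η‖ ≤ 1 / 4)
    (hx : |x.im| < G.h - K0 * ‖η‖) (h0 : 0 ≤ x.im) (h1 : 0 ≤ x.re) (h2 : x.re ≤ 1 / 2) :
    ‖phE G (η ^ 2) x - x‖ ≤ (2 + G.h) * ‖η‖ := by
  have hC := G.one_le_C
  have hh := G.h_pos
  have hK0 : 0 < K0 := by linarith
  have hn : 0 ≤ ‖η‖ := norm_nonneg η
  have hη2 : ‖η ^ 2‖ = ‖η‖ ^ 2 := norm_pow η 2
  have hη4 : ‖η ^ 2‖ ≤ 1 / 16 := by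
    rw [hη2]
    nlinarith
  rw [abs_of_nonneg h0] at hx
  have hc1 := Tim_c_close G (ε := η ^ 2) (by linarith)
  have hc2 := Tim_c_half G (ε := η ^ 2) (by linarith)
  have hcne := Tim_c_ne G (ε := η ^ 2) (by linarith)
  set c := cE G (η ^ 2) with hcdef
  -- the horizontal part
  have H : ‖(∫ t in (0 : ℝ)..x.re, rt (η ^ 2 * G.g t)) - c * x.re‖ ≤ 2 * ‖η‖ ^ 2 := by
    have e : (∫ t in (0 : ℝ)..x.re, rt (η ^ 2 * G.g t)) - c * x.re =
        ∫ t in (0 : ℝ)..x.re, (rt (η ^ 2 * G.g t) - c) := by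
      rw [intervalIntegral.integral_sub
        ((Tim_rt_cont G (by linarith)).intervalIntegrable _ _) (by simp)]
      simp [mul_comm]
    rw [e]
    have h3 := intervalIntegral.norm_integral_le_of_norm_le_const (a := 0) (b := x.re)
      (f := fun t : ℝ => rt (η ^ 2 * G.g t) - c) (C := 4 * ‖η‖ ^ 2) (fun t _ => by
        have h4 := Tim_eg_le G (η ^ 2) t
        have h5 := Tim_rt_bd (h4.trans (by linarith))
        have h6 : rt (η ^ 2 * G.g t) - c = (rt (η ^ 2 * G.g t) - 1) - (c - 1) := by ring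
        rw [h6]
        refine (norm_sub_le _ _).trans ?_
        rw [← hη2]
        linarith)
    rw [sub_zero, abs_of_nonneg h1] at h3
    refine h3.trans ?_
    have : 0 ≤ 4 * ‖η‖ ^ 2 := by positivity
    nlinarith
  -- the vertical part
  have hxim : x.im < G.h := by nlinarith
  have hmem : ∀ y ∈ Set.uIcc 0 x.im, |((x.re : ℂ) + I * (y : ℂ)).im| < G.h - K0 * ‖η‖ ∧
      |((x.re : ℂ) + I * (y : ℂ)).im| = y := by
    intro y hy
    rw [Set.uIcc_of_le h0] at hy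
    rw [Tim_im, abs_of_nonneg hy.1]
    exact ⟨by linarith [hy.2], rfl⟩
  have hsm : G.C / K0 ^ 2 ≤ 1 / 2 := by
    rw [div_le_div_iff₀ (by positivity) (by norm_num)]
    nlinarith
  have hcontV : ContinuousOn (fun y : ℝ => rt (η ^ 2 * G.g (x.re + I * y))) (Set.uIcc 0 x.im) := by
    intro y hy
    obtain ⟨h3, h4⟩ := hmem y hy
    have h5 : |((x.re : ℂ) + I * (y : ℂ)).im| < G.h := by nlinarith
    have h6 := Tim_rtg_an G (ε := η ^ 2) (Tim_g_an' G h5)
      (((Tim_small G hK0 h3).trans hsm).trans_lt (by norm_num))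
    refine ContinuousAt.continuousWithinAt ?_
    exact ContinuousAt.comp (f := fun y : ℝ => (x.re : ℂ) + I * (y : ℂ))
      (g := fun x => rt (η ^ 2 * G.g x)) h6.continuousAt (by fun_prop)
  have V : ‖(∫ y in (0 : ℝ)..x.im, rt (η ^ 2 * G.g (x.re + I * y))) - c * x.im‖ ≤
      2 * G.C * ‖η‖ / K0 + 2 * ‖η‖ ^ 2 * G.h := by
    have e : (∫ y in (0 : ℝ)..x.im, rt (η ^ 2 * G.g (x.re + I * y))) - c * x.im =
        (∫ y in (0 : ℝ)..x.im, (rt (η ^ 2 * G.g (x.re + I * y)) - 1)) - (c - 1) * x.im := by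
      rw [intervalIntegral.integral_sub hcontV.intervalIntegrable (by simp)]
      simp
      ring
    rw [e]
    refine (norm_sub_le _ _).trans ?_
    have p2 : ‖(c - 1) * (x.im : ℂ)‖ ≤ 2 * ‖η‖ ^ 2 * G.h := by
      rw [norm_mul, Complex.norm_real, Real.norm_of_nonneg h0, ← hη2]
      exact mul_le_mul hc1 hxim.le h0 (by positivity)
    have p1 : ‖∫ y in (0 : ℝ)..x.im, (rt (η ^ 2 * G.g (x.re + I * y)) - 1)‖ ≤
        2 * G.C * ‖η‖ / K0 := by
      have hint : IntervalIntegrable (fun y : ℝ => 2 * ‖η‖ ^ 2 * G.C * (1 / (G.h - y) ^ 2))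
          volume 0 x.im := by
        refine ContinuousOn.intervalIntegrable ?_
        intro y hy
        rw [Set.uIcc_of_le h0] at hy
        have h2 : (G.h - y) ^ 2 ≠ 0 := by
          have h3 : 0 < G.h - y := by linarith [hy.2]
          positivity
        exact (continuousAt_const.mul
          (ContinuousAt.div continuousAt_const
            ((continuous_const.sub continuous_id).pow 2).continuousAt h2)).continuousWithinAt
      have h3 := intervalIntegral.norm_integral_le_of_norm_le (μ := volume) h0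
        (f := fun y : ℝ => rt (η ^ 2 * G.g (x.re + I * y)) - 1)
        (g := fun y : ℝ => 2 * ‖η‖ ^ 2 * G.C * (1 / (G.h - y) ^ 2))
        (Filter.Eventually.of_forall fun y hy => by
          have hy' : y ∈ Set.uIcc 0 x.im := by
            rw [Set.uIcc_of_le h0]
            exact ⟨hy.1.le, hy.2⟩
          obtain ⟨h4, h5⟩ := hmem y hy'
          have h6 : |((x.re : ℂ) + I * (y : ℂ)).im| < G.h := by nlinarith
          have h7 := Tim_g_bd G h6
          rw [h5] at h7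
          have h8 := Tim_rt_bd ((Tim_small G hK0 h4).trans hsm)
          refine h8.trans ?_
          rw [norm_mul, norm_pow]
          have h9 : ‖η‖ ^ 2 * ‖G.g (x.re + I * y)‖ ≤ ‖η‖ ^ 2 * (G.C / (G.h - y) ^ 2) :=
            mul_le_mul_of_nonneg_left h7 (by positivity)
          calc 2 * (‖η‖ ^ 2 * ‖G.g (x.re + I * y)‖) ≤ 2 * (‖η‖ ^ 2 * (G.C / (G.h - y) ^ 2)) := by
                linarith
            _ = 2 * ‖η‖ ^ 2 * G.C * (1 / (G.h - y) ^ 2) := by ring) hint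
      refine h3.trans ?_
      rw [intervalIntegral.integral_const_mul, Tim_int_sq h0 hxim]
      have h4 : 0 < G.h - x.im := by linarith
      have h5 : 1 / (G.h - x.im) - 1 / G.h ≤ 1 / (G.h - x.im) := by
        have : 0 < 1 / G.h := by positivity
        linarith
      have h6 : ‖η‖ * (1 / (G.h - x.im)) ≤ 1 / K0 := by
        rw [mul_one_div, div_le_div_iff₀ h4 hK0]
        linarith
      calc 2 * ‖η‖ ^ 2 * G.C * (1 / (G.h - x.im) - 1 / G.h)
          ≤ 2 * ‖η‖ ^ 2 * G.C * (1 / (G.h - x.im)) :=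
            mul_le_mul_of_nonneg_left h5 (by positivity)
        _ = 2 * ‖η‖ * G.C * (‖η‖ * (1 / (G.h - x.im))) := by ring
        _ ≤ 2 * ‖η‖ * G.C * (1 / K0) := mul_le_mul_of_nonneg_left h6 (by positivity)
        _ = 2 * G.C * ‖η‖ / K0 := by ring
    linarith
  -- together
  have e : phE G (η ^ 2) x - x = c⁻¹ * (((∫ t in (0 : ℝ)..x.re, rt (η ^ 2 * G.g t)) - c * x.re) +
      I * ((∫ y in (0 : ℝ)..x.im, rt (η ^ 2 * G.g (x.re + I * y))) - c * x.im)) := by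
    have e1 : phE G (η ^ 2) x = c⁻¹ * ((∫ t in (0 : ℝ)..x.re, rt (η ^ 2 * G.g t)) +
        I * ∫ y in (0 : ℝ)..x.im, rt (η ^ 2 * G.g (x.re + I * y))) := rfl
    rw [e1]
    have e4 : c⁻¹ * (c * ((x.re : ℂ) + I * (x.im : ℂ))) = x := by
      rw [Tim_mk, ← mul_assoc, inv_mul_cancel₀ hcne, one_mul]
    linear_combination e4
  rw [e, norm_mul]
  have h3 : ‖c⁻¹‖ ≤ 2 := by
    rw [norm_inv]
    rw [inv_le_comm₀ (by linarith) (by norm_num)]
    linarith
  have h4 : ‖((∫ t in (0 : ℝ)..x.re, rt (η ^ 2 * G.g t)) - c * x.re) +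
      I * ((∫ y in (0 : ℝ)..x.im, rt (η ^ 2 * G.g (x.re + I * y))) - c * x.im)‖ ≤
      2 * ‖η‖ ^ 2 + (2 * G.C * ‖η‖ / K0 + 2 * ‖η‖ ^ 2 * G.h) := by
    refine (norm_add_le _ _).trans (add_le_add H ?_)
    rw [norm_mul, Complex.norm_I, one_mul]
    exact V
  refine (mul_le_mul h3 h4 (norm_nonneg _) (by norm_num)).trans ?_
  have h5 : 2 * G.C * ‖η‖ / K0 ≤ ‖η‖ / 8 := by
    rw [div_le_div_iff₀ hK0 (by norm_num)]
    nlinarith
  have h6 : ‖η‖ ^ 2 ≤ ‖η‖ / 4 := by nlinarith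
  nlinarith

/-- closeness on the upper half of the strip -/
theorem Tim_close1 (G : GD) {K0 : ℝ} (hK : 16 * G.C ≤ K0) {η x : ℂ} (hη : ‖η‖ ≤ 1 / 4)
    (hx : |x.im| < G.h - K0 * ‖η‖) (h0 : 0 ≤ x.im) :
    ‖phE G (η ^ 2) x - x‖ ≤ (2 + G.h) * ‖η‖ := by
  have hη4 : ‖η ^ 2‖ ≤ 1 / 4 := by
    rw [norm_pow]
    nlinarith [norm_nonneg η]
  obtain ⟨n, hn⟩ : ∃ n : ℤ, n = -⌊2 * x.re⌋ := ⟨_, rfl⟩
  have h1 := Int.floor_le (2 * x.re)
  have h2 := Int.lt_floor_add_one (2 * x.re)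
  have hre : (x + n / 2).re = x.re + (n : ℝ) / 2 := by
    have : (x + (n : ℂ) / 2) = x + (((n : ℝ) / 2 : ℝ) : ℂ) := by push_cast; ring
    rw [this, add_re, ofReal_re]
  have him : (x + n / 2).im = x.im := by
    have : (x + (n : ℂ) / 2) = x + (((n : ℝ) / 2 : ℝ) : ℂ) := by push_cast; ring
    rw [this, add_im, ofReal_im, add_zero]
  have hnr : (n : ℝ) = -(⌊2 * x.re⌋ : ℝ) := by
    rw [hn]
    push_cast
    ring
  rw [← Tim_ph_per G hη4 n x]
  refine Tim_close0 G hK hη ?_ ?_ ?_ ?_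
  · rw [him]
    exact hx
  · rw [him]
    exact h0
  · rw [hre, hnr]
    linarith
  · rw [hre, hnr]
    linarith

/-- closeness -/
theorem Tim_close (G : GD) {K0 : ℝ} (hK : 16 * G.C ≤ K0) {η x : ℂ} (hη : ‖η‖ ≤ 1 / 4)
    (hx : |x.im| < G.h - K0 * ‖η‖) :
    ‖phE G (η ^ 2) x - x‖ ≤ (2 + G.h) * ‖η‖ := by
  have hC := G.one_le_C
  have hK0 : 0 < K0 := by linarith
  have hη4 : ‖η ^ 2‖ ≤ 1 / 4 := by
    rw [norm_pow]
    nlinarith [norm_nonneg η]
  have hsm : G.C / K0 ^ 2 ≤ 1 / 2 := by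
    rw [div_le_div_iff₀ (by positivity) (by norm_num)]
    nlinarith
  rcases le_total 0 x.im with h | h
  · exact Tim_close1 G hK hη hx h
  · have h1 := Tim_close1 G hK (η := conj η) (x := conj x) (by rwa [Complex.norm_conj])
      (by rw [Complex.norm_conj, conj_im, abs_neg]; exact hx) (by rw [conj_im]; linarith)
    rw [Complex.norm_conj, ← map_pow, Tim_ph_conj G (by linarith), ← map_sub,
      Complex.norm_conj] at h1
    · exact h1
    · intro y hy
      have hb : 0 < G.h - K0 * ‖η‖ := lt_of_le_of_lt (abs_nonneg _) hx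
      have h2 := (Tim_strip hb).star x hx y hy
      exact ((Tim_small G hK0 h2).trans hsm).trans_lt (by norm_num)

/-- **the time map**: everything except `near` -/
theorem exists_TA (G : GD) : ∃ K00 r00 : ℝ, 1 ≤ K00 ∧ 0 < r00 ∧
    ∀ K0 r0 : ℝ, K00 ≤ K0 → 0 < r0 → r0 ≤ r00 → TA G r0 K0 := by
  have hC := G.one_le_C
  have hh := G.h_pos
  refine ⟨16 * G.C + G.h + 2, 1 / 8, by linarith, by norm_num, fun K0 r0 hK hr0 hr => ?_⟩
  have hK16 : 16 * G.C ≤ K0 := by linarith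
  have hK0 : 0 < K0 := by linarith
  have hr2 : r0 ^ 2 ≤ 1 / 64 := by nlinarith
  have hsm : G.C / K0 ^ 2 ≤ 1 / 16 := by
    rw [div_le_div_iff₀ (by positivity) (by norm_num)]
    nlinarith
  have A : ∀ η x : ℂ, ‖η‖ < r0 → |x.im| < G.h - K0 * ‖η‖ → ‖η‖ ≤ 1 / 8 ∧ ‖η ^ 2‖ ≤ 1 / 64 ∧
      0 < G.h - K0 * ‖η‖ ∧ |x.im| < G.h ∧ ‖η ^ 2 * G.g x‖ ≤ 1 / 16 := by
    intro η x hη hx
    have hn := norm_nonneg η
    refine ⟨by linarith, ?_, lt_of_le_of_lt (abs_nonneg _) hx, by nlinarith,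
      (Tim_small G hK0 hx).trans hsm⟩
    rw [norm_pow]
    nlinarith
  have hg : ∀ η x : ℂ, ‖η‖ < r0 → x ∈ {x : ℂ | |x.im| < G.h - K0 * ‖η‖} →
      AnalyticAt ℂ G.g x := fun η x hη hx => Tim_g_an' G (A η x hη hx).2.2.2.1
  constructor
  · intro ε hε
    exact Tim_c_an G (by linarith)
  · exact Tim_c_zero G
  · intro ε hε
    exact Tim_c_conj G (by linarith)
  · intro ε hε
    refine ⟨(Tim_c_close G (by linarith)).trans ?_, Tim_c_half G (by linarith)⟩
    exact mul_le_mul_of_nonneg_right (by linarith) (norm_nonneg _)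
  · -- joint analyticity
    intro η x hη hx
    obtain ⟨h1, h2, h3, h4, h5⟩ := A η x hη hx
    -- a strip between
    obtain ⟨b, hb⟩ : ∃ b : ℝ, b = (|x.im| + G.h - K0 * ‖η‖) / 2 := ⟨_, rfl⟩
    have hn := norm_nonneg η
    have hKn : 0 ≤ K0 * ‖η‖ := by positivity
    have hb1 : |x.im| < b := by rw [hb]; linarith
    have hb0 : 0 < b := lt_of_le_of_lt (abs_nonneg _) hb1
    have hb2 : b < G.h - K0 * ‖η‖ := by rw [hb]; linarith
    have hbh : 0 < G.h - b := by linarith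
    refine Tim_ph_joint G (Tim_strip hb0) (M := G.C / (G.h - b) ^ 2) ?_ ?_ (by linarith) ?_ hb1
    · intro y hy
      have hy' : |y.im| < b := hy
      exact Tim_g_an' G (by linarith)
    · intro y hy
      have hy' : |y.im| < b := hy
      refine (Tim_g_bd G (by linarith)).trans ?_
      refine div_le_div_of_nonneg_left (by linarith) (by positivity) ?_
      exact pow_le_pow_left₀ hbh.le (by linarith) 2
    · have h6 : (K0 * ‖η‖) ^ 2 ≤ (G.h - b) ^ 2 := pow_le_pow_left₀ hKn (by linarith) 2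
      have h7 : ‖η‖ ^ 2 * (G.C / (G.h - b) ^ 2) ≤ G.C / K0 ^ 2 := by
        rw [← mul_div_assoc, div_le_div_iff₀ (by positivity) (by positivity)]
        calc ‖η‖ ^ 2 * G.C * K0 ^ 2 = G.C * (K0 * ‖η‖) ^ 2 := by ring
          _ ≤ G.C * (G.h - b) ^ 2 := mul_le_mul_of_nonneg_left h6 (by linarith)
      linarith
  · -- derivative
    intro η x hη hx
    obtain ⟨h1, h2, h3, h4, h5⟩ := A η x hη hx
    exact Tim_ph_deriv G (Tim_strip h3) (fun y hy => hg η y hη hy)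
      (fun y hy => ((A η y hη hy).2.2.2.2).trans_lt (by norm_num)) hx
  · intro η x hη hx
    obtain ⟨h1, h2, h3, h4, h5⟩ := A η x hη hx
    exact Tim_ph_half G (by linarith) x
  · intro η x hη hx
    obtain ⟨h1, h2, h3, h4, h5⟩ := A η x hη hx
    refine Tim_ph_conj G (by linarith) fun y hy => ?_
    exact ((A η _ hη ((Tim_strip h3).star x hx y hy)).2.2.2.2).trans_lt (by norm_num)
  · intro x hx
    have h1 : phE G 0 x = (x.re : ℂ) + I * (x.im : ℂ) := by
      unfold phE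
      rw [Tim_c_zero]
      simp [Tim_rt_zero]
    rw [h1, Tim_mk]
  · intro η x hη hx
    obtain ⟨h1, h2, h3, h4, h5⟩ := A η x hη hx
    refine (Tim_close G hK16 (by linarith) hx).trans ?_
    exact mul_le_mul_of_nonneg_right (by linarith) (norm_nonneg _)
  · intro η x hη hx
    obtain ⟨h1, h2, h3, h4, h5⟩ := A η x hη hx
    have c1 := Tim_c_close G (ε := η ^ 2) (by linarith)
    have c2 := Tim_c_half G (ε := η ^ 2) (by linarith)
    have c3 := Tim_c_ne G (ε := η ^ 2) (by linarith)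
    have c4 := Tim_rt_bd (w := η ^ 2 * G.g x) (by linarith)
    have e : rt (η ^ 2 * G.g x) / cE G (η ^ 2) - 1 =
        ((rt (η ^ 2 * G.g x) - 1) - (cE G (η ^ 2) - 1)) / cE G (η ^ 2) := by
      field_simp
      ring
    rw [e, norm_div, div_le_iff₀ (by linarith)]
    refine (norm_sub_le _ _).trans ?_
    nlinarith
  · intro η x hη hx
    obtain ⟨h1, h2, h3, h4, h5⟩ := A η x hη hx
    linarith

end Pool.Agent.MP_ae5b4e_an_LOC
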