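import Mathlib
import Pool.Agent.Lib.MP_ae5b4e_an_LOC.TimA

/-!
The time map near a point at distance `d` from the poles (field `near` of `TD`).
-/

set_option autoImplicit false

namespace Pool.Agent.MP_ae5b4e_an_LOC

open Complex Filter Topology Metric ComplexConjugate MeasureTheory

/-! ### the domain -/

/-- the half integers -/
def TimBH : Set ℝ := Set.range fun n : ℤ => (n : ℝ) / 2

/-- the poles -/
def TimBP (G : GD) : Set ℂ := {p | ∃ n : ℤ, p = n / 2 + I * G.h ∨ p = n / 2 - I * G.h}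

/-- points whose vertical segment to the real axis has distance more than `ρ` from the poles -/
def TimBU (G : GD) (ρ : ℝ) : Set ℂ :=
  {x | |x.im| < 2 * G.h ∧ (ρ < infDist x.re TimBH ∨ (|x.im| < G.h ∧ ρ < infDist x (TimBP G)))}

theorem TimB_H_ne : TimBH.Nonempty := ⟨((0 : ℤ) : ℝ) / 2, 0, rfl⟩

theorem TimB_P_ne (G : GD) : (TimBP G).Nonempty := ⟨((0 : ℤ) : ℂ) / 2 + I * G.h, 0, Or.inl rfl⟩

theorem TimB_pre (n : ℤ) (h : ℝ) : ((n : ℂ) / 2 + I * h).re = n / 2 := by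
  have : ((n : ℂ) / 2 + I * h) = (((n : ℝ) / 2 : ℝ) : ℂ) + I * ((h : ℝ) : ℂ) := by
    push_cast
    ring
  rw [this, Tim_re]

theorem TimB_pim (n : ℤ) (h : ℝ) : ((n : ℂ) / 2 + I * h).im = h := by
  have : ((n : ℂ) / 2 + I * h) = (((n : ℝ) / 2 : ℝ) : ℂ) + I * ((h : ℝ) : ℂ) := by
    push_cast
    ring
  rw [this, Tim_im]

theorem TimB_mre (n : ℤ) (h : ℝ) : ((n : ℂ) / 2 - I * h).re = n / 2 := by
  have : ((n : ℂ) / 2 - I * h) = (n : ℂ) / 2 + I * ((-h : ℝ) : ℂ) := by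
    push_cast
    ring
  rw [this, TimB_pre]

theorem TimB_mim (n : ℤ) (h : ℝ) : ((n : ℂ) / 2 - I * h).im = -h := by
  have : ((n : ℂ) / 2 - I * h) = (n : ℂ) / 2 + I * ((-h : ℝ) : ℂ) := by
    push_cast
    ring
  rw [this, TimB_pim]

theorem TimB_im_le (x p : ℂ) : |x.im - p.im| ≤ ‖x - p‖ := by
  have := Complex.abs_im_le_norm (x - p)
  rwa [sub_im] at this

theorem TimB_re_le (x p : ℂ) : |x.re - p.re| ≤ ‖x - p‖ := by
  have := Complex.abs_re_le_norm (x - p)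
  rwa [sub_re] at this

/-- the distance to a pole -/
theorem TimB_dist {G : GD} {ρ : ℝ} {x : ℂ} (hx : x ∈ TimBU G ρ) (n : ℤ) :
    ρ < ‖x - (n / 2 + I * G.h)‖ ∧ ρ < ‖x - (n / 2 - I * G.h)‖ := by
  rcases hx.2 with h | ⟨-, h⟩
  · have h1 : ρ < dist x.re ((n : ℝ) / 2) := h.trans_le (infDist_le_dist_of_mem ⟨n, rfl⟩)
    rw [Real.dist_eq] at h1
    constructor
    · refine h1.trans_le ?_
      have h2 := TimB_re_le x (n / 2 + I * G.h)
      rwa [TimB_pre] at h2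
    · refine h1.trans_le ?_
      have h2 := TimB_re_le x (n / 2 - I * G.h)
      rwa [TimB_mre] at h2
  · constructor
    · rw [← dist_eq]
      exact h.trans_le (infDist_le_dist_of_mem ⟨n, Or.inl rfl⟩)
    · rw [← dist_eq]
      exact h.trans_le (infDist_le_dist_of_mem ⟨n, Or.inr rfl⟩)

theorem TimB_an {G : GD} {ρ : ℝ} (hρ : 0 ≤ ρ) {x : ℂ} (hx : x ∈ TimBU G ρ) :
    AnalyticAt ℂ G.g x := by
  refine G.g_an x hx.1 fun n => ?_
  obtain ⟨h1, h2⟩ := TimB_dist hx n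
  constructor
  · intro h
    rw [h, sub_self, norm_zero] at h1
    linarith
  · intro h
    rw [h, sub_self, norm_zero] at h2
    linarith

theorem TimB_bd {G : GD} {ρ : ℝ} (hρ : 0 < ρ) {x : ℂ} (hx : x ∈ TimBU G ρ) :
    ‖G.g x‖ ≤ G.C / ρ ^ 2 :=
  G.g_bd x ρ hx.1 hρ fun n => ⟨(TimB_dist hx n).1.le, (TimB_dist hx n).2.le⟩

theorem TimB_isU (G : GD) {ρ : ℝ} (hρ : ρ < G.h) : TimU (TimBU G ρ) := by
  have hh := G.h_pos
  refine ⟨?_, ?_, ?_⟩
  · have e : TimBU G ρ = {x : ℂ | |x.im| < 2 * G.h} ∩ ({x : ℂ | ρ < infDist x.re TimBH} ∪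
        ({x : ℂ | |x.im| < G.h} ∩ {x : ℂ | ρ < infDist x (TimBP G)})) := rfl
    rw [e]
    have c1 : Continuous fun x : ℂ => |x.im| := by fun_prop
    have c2 : Continuous fun x : ℂ => infDist x.re TimBH :=
      (continuous_infDist_pt TimBH).comp Complex.continuous_re
    have c3 : Continuous fun x : ℂ => infDist x (TimBP G) := continuous_infDist_pt _
    exact (isOpen_lt c1 continuous_const).inter ((isOpen_lt continuous_const c2).union
      ((isOpen_lt c1 continuous_const).inter (isOpen_lt continuous_const c3)))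
  · intro t
    refine ⟨by rw [ofReal_im, abs_zero]; linarith, Or.inr ⟨by rw [ofReal_im, abs_zero]; exact hh,
      ?_⟩⟩
    refine hρ.trans_le ((le_infDist (TimB_P_ne G)).2 ?_)
    rintro p ⟨n, rfl | rfl⟩
    · rw [dist_eq]
      have h2 := TimB_im_le (t : ℂ) (n / 2 + I * G.h)
      rw [TimB_pim, ofReal_im, zero_sub, abs_neg, abs_of_pos hh] at h2
      exact h2
    · rw [dist_eq]
      have h2 := TimB_im_le (t : ℂ) (n / 2 - I * G.h)
      rw [TimB_mim, ofReal_im, zero_sub, neg_neg, abs_of_pos hh] at h2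
      exact h2
  · intro x hx y hy
    have hy1 : |y| ≤ |x.im| := by
      rcases le_total 0 x.im with h | h
      · rw [Set.uIcc_of_le h] at hy
        rw [abs_of_nonneg hy.1, abs_of_nonneg h]
        exact hy.2
      · rw [Set.uIcc_of_ge h] at hy
        rw [abs_of_nonpos hy.2, abs_of_nonpos h]
        linarith [hy.1]
    refine ⟨?_, ?_⟩
    · rw [Tim_im]
      exact hy1.trans_lt hx.1
    · rcases hx.2 with h | ⟨h0, h⟩
      · left
        rw [Tim_re]
        exact h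
      · right
        refine ⟨by rw [Tim_im]; exact hy1.trans_lt h0, ?_⟩
        refine lt_of_lt_of_le (lt_min h hρ) ((le_infDist (TimB_P_ne G)).2 ?_)
        have key : ∀ p ∈ TimBP G, G.h ≤ |y - p.im| ∨ |x.im - p.im| ≤ |y - p.im| := by
          have h3 := abs_lt.1 h0
          rintro p ⟨n, rfl | rfl⟩
          · rw [TimB_pim]
            rcases le_total 0 x.im with h4 | h4
            · rw [Set.uIcc_of_le h4] at hy
              right
              rw [abs_of_nonpos (by linarith), abs_of_nonpos (by linarith [hy.2])]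
              linarith [hy.2]
            · rw [Set.uIcc_of_ge h4] at hy
              left
              rw [abs_of_nonpos (by linarith [hy.2])]
              linarith [hy.2]
          · rw [TimB_mim]
            rcases le_total 0 x.im with h4 | h4
            · rw [Set.uIcc_of_le h4] at hy
              left
              rw [abs_of_nonneg (by linarith [hy.1])]
              linarith [hy.1]
            · rw [Set.uIcc_of_ge h4] at hy
              right
              rw [abs_of_nonneg (by linarith), abs_of_nonneg (by linarith [hy.1])]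
              linarith [hy.1]
        intro p hp
        rcases key p hp with h4 | h4
        · refine (min_le_right _ _).trans (h4.trans ?_)
          rw [dist_eq]
          have h5 := TimB_im_le ((x.re : ℂ) + I * (y : ℂ)) p
          rwa [Tim_im] at h5
        · refine (min_le_left _ _).trans ((infDist_le_dist_of_mem hp).trans ?_)
          rw [dist_eq, dist_eq, Complex.norm_eq_sqrt_sq_add_sq, Complex.norm_eq_sqrt_sq_add_sq]
          refine Real.sqrt_le_sqrt ?_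
          rw [sub_re, sub_im, sub_re, sub_im, Tim_re, Tim_im]
          have h5 := sq_le_sq.2 h4
          linarith

/-- the ball lies in the domain -/
theorem TimB_ball (G : GD) {x0 : ℂ} {d : ℝ} (h0 : 0 ≤ x0.im) (h1 : x0.im ≤ G.h) (hd : 0 < d)
    (hdh : d ≤ G.h) (hp : ∀ n : ℤ, d ≤ ‖x0 - (n / 2 + I * G.h)‖) :
    ball x0 (d / 2) ⊆ TimBU G (d / 4) := by
  have hh := G.h_pos
  intro x hx
  rw [mem_ball, dist_eq] at hx
  have hi := abs_lt.1 ((TimB_im_le x x0).trans_lt hx)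
  have hr := abs_lt.1 ((TimB_re_le x x0).trans_lt hx)
  refine ⟨abs_lt.2 ⟨by linarith, by linarith⟩, ?_⟩
  rcases lt_or_ge x.im G.h with h2 | h2
  · right
    refine ⟨abs_lt.2 ⟨by linarith, h2⟩, ?_⟩
    refine lt_of_lt_of_le (show d / 4 < d / 2 by linarith) ((le_infDist (TimB_P_ne G)).2 ?_)
    rintro p ⟨n, rfl | rfl⟩
    · rw [dist_eq]
      have h3 := hp n
      have h4 := norm_sub_le_norm_sub_add_norm_sub x0 x (n / 2 + I * G.h)
      rw [norm_sub_rev x0 x] at h4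
      linarith
    · rw [dist_eq]
      have h3 := TimB_im_le x (n / 2 - I * G.h)
      rw [TimB_mim, abs_of_nonneg (by linarith)] at h3
      linarith
  · left
    refine lt_of_lt_of_le (show d / 4 < d / 3 by linarith) ((le_infDist TimB_H_ne).2 ?_)
    rintro _ ⟨n, rfl⟩
    rw [Real.dist_eq]
    show d / 3 ≤ |x.re - (n : ℝ) / 2|
    have h3 := hp n
    have h4 : d ^ 2 ≤ (x0.re - n / 2) ^ 2 + (x0.im - G.h) ^ 2 := by
      have h5 : d ^ 2 ≤ ‖x0 - (n / 2 + I * G.h)‖ ^ 2 := by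
        exact pow_le_pow_left₀ hd.le h3 2
      rw [← Complex.normSq_eq_norm_sq, Complex.normSq_apply, sub_re, sub_im, TimB_pre,
        TimB_pim] at h5
      linarith
    have h6 : (x0.im - G.h) ^ 2 ≤ (d / 2) ^ 2 := by
      refine sq_le_sq.2 ?_
      rw [abs_of_nonpos (by linarith), abs_of_pos (by linarith)]
      linarith
    have h7 : 5 * d / 6 ≤ |x0.re - n / 2| := by
      by_contra hc
      rw [not_le] at hc
      have h8 := sq_abs (x0.re - (n : ℝ) / 2)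
      nlinarith [abs_nonneg (x0.re - (n : ℝ) / 2)]
    have h8 : |x0.re - (n : ℝ) / 2| ≤ |x0.re - x.re| + |x.re - n / 2| := abs_sub_le _ _ _
    have h9 : |x0.re - x.re| ≤ d / 2 := abs_le.2 ⟨by linarith, by linarith⟩
    linarith

/-! ### the bound -/

theorem TimB_per (G : GD) (ε : ℂ) : Function.Periodic (fun t : ℝ => rt (ε * G.g t) - cE G ε) 1 := by
  intro t
  show rt (ε * G.g ((t + 1 : ℝ) : ℂ)) - cE G ε = rt (ε * G.g t) - cE G ε
  have h1 : G.g ((t + 1 : ℝ) : ℂ) = G.g t := by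
    have h2 : ((t + 1 : ℝ) : ℂ) = (t : ℂ) + 1 / 2 + 1 / 2 := by
      push_cast
      ring
    rw [h2, G.g_half, G.g_half]
  rw [h1]

theorem TimB_hor (G : GD) {ε : ℂ} (hε : ‖ε‖ ≤ 1 / 4) (X : ℝ) :
    ‖∫ t in (0 : ℝ)..X, (rt (ε * G.g t) - cE G ε)‖ ≤ 4 * ‖ε‖ := by
  have hc : Continuous (fun t : ℝ => rt (ε * G.g t) - cE G ε) :=
    (Tim_rt_cont G (by linarith)).sub continuous_const
  have hi : ∀ a b : ℝ, IntervalIntegrable (fun t : ℝ => rt (ε * G.g t) - cE G ε) volume a b :=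
    fun a b => hc.intervalIntegrable a b
  have h1 : (∫ t in (0 : ℝ)..1, (rt (ε * G.g t) - cE G ε)) = 0 := by
    rw [intervalIntegral.integral_sub ((Tim_rt_cont G (by linarith)).intervalIntegrable _ _)
      (by simp)]
    simp [cE]
  have h2 := (TimB_per G ε).intervalIntegral_add_zsmul_eq ⌊X⌋ 0 hi
  rw [zero_add, zero_add, h1, smul_zero, zsmul_eq_mul, mul_one] at h2
  rw [← intervalIntegral.integral_add_adjacent_intervals (hi 0 (⌊X⌋ : ℝ)) (hi _ _), h2, zero_add]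
  have h3 := intervalIntegral.norm_integral_le_of_norm_le_const (a := (⌊X⌋ : ℝ)) (b := X)
    (f := fun t : ℝ => rt (ε * G.g t) - cE G ε) (C := 4 * ‖ε‖) (fun t _ => by
      have h4 := Tim_eg_le G ε t
      have h5 := Tim_rt_bd (h4.trans (show ‖ε‖ ≤ 1 / 2 by linarith))
      have h6 := Tim_c_close G (show ‖ε‖ ≤ 1 / 2 by linarith)
      have h7 := norm_sub_le (rt (ε * G.g t) - 1) (cE G ε - 1)
      rw [sub_sub_sub_cancel_right] at h7
      linarith)
  refine h3.trans ?_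
  have h4 : |X - ⌊X⌋| ≤ 1 := by
    rw [abs_of_nonneg (by linarith [Int.floor_le X])]
    linarith [Int.lt_floor_add_one X]
  exact mul_le_of_le_one_right (by positivity) h4

theorem TimB_arc (h : ℝ) {ρ : ℝ} (hρ : 0 < ρ) (Y : ℝ) :
    |∫ y in (0 : ℝ)..Y, (ρ ^ 2 + (y - h) ^ 2)⁻¹| ≤ 4 / ρ := by
  have hpos : ∀ y : ℝ, 0 < ρ ^ 2 + (y - h) ^ 2 := fun y => by positivity
  have hd : ∀ y ∈ Set.uIcc (0 : ℝ) Y, HasDerivAt (fun y => ρ⁻¹ * Real.arctan ((y - h) / ρ))
      (ρ ^ 2 + (y - h) ^ 2)⁻¹ y := by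
    intro y _
    have h1 : HasDerivAt (fun y : ℝ => (y - h) / ρ) (1 / ρ) y :=
      ((hasDerivAt_id y).sub_const h).div_const ρ
    have h2 := (h1.arctan).const_mul ρ⁻¹
    have h3 := hpos y
    refine h2.congr_deriv ?_
    field_simp
  have hc : Continuous fun y : ℝ => (ρ ^ 2 + (y - h) ^ 2)⁻¹ :=
    Continuous.inv₀ (by fun_prop) fun y => (hpos y).ne'
  rw [intervalIntegral.integral_eq_sub_of_hasDerivAt hd (hc.intervalIntegrable _ _)]
  rw [← mul_sub, abs_mul, abs_of_pos (inv_pos.2 hρ), inv_mul_eq_div]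
  refine div_le_div_of_nonneg_right ?_ hρ.le
  have h1 := Real.arctan_lt_pi_div_two ((Y - h) / ρ)
  have h2 := Real.neg_pi_div_two_lt_arctan ((Y - h) / ρ)
  have h3 := Real.arctan_lt_pi_div_two ((0 - h) / ρ)
  have h4 := Real.neg_pi_div_two_lt_arctan ((0 - h) / ρ)
  have h5 := Real.pi_lt_four
  exact abs_le.2 ⟨by linarith, by linarith⟩

/-- the bound for `g` on the vertical segment -/
theorem TimB_seg (G : GD) {ρ : ℝ} (hρ : 0 < ρ) {x : ℂ} (hx : x ∈ TimBU G ρ)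
    (h1 : -(G.h / 2) ≤ x.im) (h2 : x.im ≤ 3 * G.h / 2) :
    ‖G.g x‖ ≤ 18 * G.C * (ρ ^ 2 + (x.im - G.h) ^ 2)⁻¹ := by
  have hh := G.h_pos
  have hC := G.one_le_C
  have hm : 0 < max ρ (|x.im - G.h| / 3) := lt_max_of_lt_left hρ
  have h3 := G.g_bd x (max ρ (|x.im - G.h| / 3)) hx.1 hm fun n => ?_
  · have h4 : ρ ^ 2 ≤ max ρ (|x.im - G.h| / 3) ^ 2 := by
      exact pow_le_pow_left₀ hρ.le (le_max_left _ _) 2
    have h5 : (|x.im - G.h| / 3) ^ 2 ≤ max ρ (|x.im - G.h| / 3) ^ 2 := by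
      exact pow_le_pow_left₀ (by positivity) (le_max_right _ _) 2
    rw [div_pow, sq_abs] at h5
    have h6 : 0 < ρ ^ 2 + (x.im - G.h) ^ 2 := by positivity
    refine h3.trans ?_
    rw [← div_eq_mul_inv, div_le_div_iff₀ (by positivity) h6]
    have h7 : ρ ^ 2 + (x.im - G.h) ^ 2 ≤ 18 * max ρ (|x.im - G.h| / 3) ^ 2 := by
      linarith
    calc G.C * (ρ ^ 2 + (x.im - G.h) ^ 2)
        ≤ G.C * (18 * max ρ (|x.im - G.h| / 3) ^ 2) :=
          mul_le_mul_of_nonneg_left h7 (by linarith)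
      _ = 18 * G.C * max ρ (|x.im - G.h| / 3) ^ 2 := by ring
  · obtain ⟨h4, h5⟩ := TimB_dist hx n
    refine ⟨max_le h4.le ?_, max_le h5.le ?_⟩
    · have h6 := TimB_im_le x (n / 2 + I * G.h)
      rw [TimB_pim] at h6
      have h7 := abs_nonneg (x.im - G.h)
      linarith
    · have h6 := TimB_im_le x (n / 2 - I * G.h)
      rw [TimB_mim, abs_of_nonneg (by linarith)] at h6
      have h7 : |x.im - G.h| ≤ 3 * G.h / 2 := abs_le.2 ⟨by linarith, by linarith⟩
      linarith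

/-- the vertical part -/
theorem TimB_ver (G : GD) {ρ : ℝ} (hρ : 0 < ρ) (hρh : ρ < G.h) {ε : ℂ} (hε : ‖ε‖ ≤ 1 / 4)
    (hs : ‖ε‖ * (G.C / ρ ^ 2) ≤ 1 / 2) {x : ℂ} (hx : x ∈ TimBU G ρ)
    (h1 : -(G.h / 2) ≤ x.im) (h2 : x.im ≤ 3 * G.h / 2) :
    ‖∫ y in (0 : ℝ)..x.im, (rt (ε * G.g (x.re + I * y)) - cE G ε)‖ ≤
      ‖ε‖ * (144 * G.C / ρ + 3 * G.h) := by
  have hh := G.h_pos
  have hC := G.one_le_C
  have hU := TimB_isU G hρh
  have hpos : ∀ y : ℝ, 0 < ρ ^ 2 + (y - G.h) ^ 2 := fun y => by positivity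
  have hc : Continuous fun y : ℝ => (ρ ^ 2 + (y - G.h) ^ 2)⁻¹ :=
    Continuous.inv₀ (by fun_prop) fun y => (hpos y).ne'
  have hb : ∀ y ∈ Set.uIcc (0 : ℝ) x.im, ‖rt (ε * G.g (x.re + I * y)) - cE G ε‖ ≤
      ‖ε‖ * (36 * G.C * (ρ ^ 2 + (y - G.h) ^ 2)⁻¹ + 2) := by
    intro y hy
    have hyU := hU.star x hx y hy
    have hy1 : -(G.h / 2) ≤ y ∧ y ≤ 3 * G.h / 2 := by
      rcases le_total 0 x.im with h | h
      · rw [Set.uIcc_of_le h] at hy
        exact ⟨by linarith [hy.1], by linarith [hy.2]⟩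
      · rw [Set.uIcc_of_ge h] at hy
        exact ⟨by linarith [hy.1], by linarith [hy.2]⟩
    have h3 := TimB_seg G hρ hyU (by rw [Tim_im]; exact hy1.1) (by rw [Tim_im]; exact hy1.2)
    rw [Tim_im] at h3
    have h4 : ‖ε * G.g (x.re + I * y)‖ ≤ 1 / 2 := by
      rw [norm_mul]
      exact (mul_le_mul_of_nonneg_left (TimB_bd hρ hyU) (norm_nonneg _)).trans hs
    have h5 := Tim_rt_bd h4
    have h6 := Tim_c_close G (show ‖ε‖ ≤ 1 / 2 by linarith)
    have h7 := norm_sub_le (rt (ε * G.g (x.re + I * y)) - 1) (cE G ε - 1)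
    rw [sub_sub_sub_cancel_right] at h7
    rw [norm_mul] at h5
    have h8 : ‖ε‖ * ‖G.g (x.re + I * y)‖ ≤ ‖ε‖ * (18 * G.C * (ρ ^ 2 + (y - G.h) ^ 2)⁻¹) :=
      mul_le_mul_of_nonneg_left h3 (norm_nonneg _)
    calc ‖rt (ε * G.g (x.re + I * y)) - cE G ε‖
        ≤ 2 * (‖ε‖ * (18 * G.C * (ρ ^ 2 + (y - G.h) ^ 2)⁻¹)) + 2 * ‖ε‖ := by linarith
      _ = ‖ε‖ * (36 * G.C * (ρ ^ 2 + (y - G.h) ^ 2)⁻¹ + 2) := by ring
  have hgi : ∀ a b : ℝ, IntervalIntegrable
      (fun y : ℝ => ‖ε‖ * (36 * G.C * (ρ ^ 2 + (y - G.h) ^ 2)⁻¹ + 2)) volume a b := by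
    intro a b
    exact Continuous.intervalIntegrable (by fun_prop) _ _
  have h3 := intervalIntegral.norm_integral_le_abs_of_norm_le (a := 0) (b := x.im)
    (f := fun y : ℝ => rt (ε * G.g (x.re + I * y)) - cE G ε)
    (g := fun y : ℝ => ‖ε‖ * (36 * G.C * (ρ ^ 2 + (y - G.h) ^ 2)⁻¹ + 2))
    (ae_restrict_of_forall_mem measurableSet_uIoc fun y hy =>
      hb y (Set.uIoc_subset_uIcc hy)) (hgi _ _)
  refine h3.trans ?_
  rw [intervalIntegral.integral_const_mul, intervalIntegral.integral_add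
    ((hc.const_mul _).intervalIntegrable _ _) (by simp), intervalIntegral.integral_const_mul,
    intervalIntegral.integral_const, abs_mul, abs_of_nonneg (norm_nonneg ε)]
  refine mul_le_mul_of_nonneg_left ?_ (norm_nonneg _)
  have h4 := TimB_arc G.h hρ x.im
  have h5 : |x.im| ≤ 3 * G.h / 2 := abs_le.2 ⟨by linarith, h2⟩
  refine (abs_add_le _ _).trans ?_
  rw [abs_mul, abs_of_nonneg (show (0 : ℝ) ≤ 36 * G.C by linarith), smul_eq_mul, abs_mul,
    sub_zero, abs_of_pos (show (0 : ℝ) < 2 by norm_num)]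
  have h6 : 36 * G.C * |∫ y in (0 : ℝ)..x.im, (ρ ^ 2 + (y - G.h) ^ 2)⁻¹| ≤
      36 * G.C * (4 / ρ) := mul_le_mul_of_nonneg_left h4 (by linarith)
  have h7 : 36 * G.C * (4 / ρ) = 144 * G.C / ρ := by ring
  linarith

/-- the constant -/
noncomputable def TimBK (G : GD) : ℝ := 1 + 1152 * G.C + G.h

theorem TimB_close (G : GD) {x0 : ℂ} {d : ℝ} (h0 : 0 ≤ x0.im) (h1 : x0.im ≤ G.h) (hd : 0 < d)
    (hdh : d ≤ G.h) (hd8 : d ≤ 1 / 8) (hp : ∀ n : ℤ, d ≤ ‖x0 - (n / 2 + I * G.h)‖) {ε : ℂ}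
    (hε : ‖ε‖ ≤ 1 / 4) (hs : ‖ε‖ * (G.C / (d / 4) ^ 2) ≤ 1 / 2) {x : ℂ}
    (hx : x ∈ ball x0 (d / 2)) : ‖phE G ε x - x‖ ≤ TimBK G * ‖ε‖ / d := by
  have hh := G.h_pos
  have hC := G.one_le_C
  have hxU := TimB_ball G h0 h1 hd hdh hp hx
  rw [mem_ball, dist_eq] at hx
  have hi := abs_lt.1 ((TimB_im_le x x0).trans_lt hx)
  have hU := TimB_isU G (show d / 4 < G.h by linarith)
  have hcne := Tim_c_ne G hε
  have c1 : IntervalIntegrable (fun t : ℝ => rt (ε * G.g t)) volume 0 x.re :=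
    (Tim_rt_cont G (by linarith)).intervalIntegrable _ _
  have c2 : IntervalIntegrable (fun y : ℝ => rt (ε * G.g (x.re + I * y))) volume 0 x.im := by
    refine ContinuousOn.intervalIntegrable ?_
    intro y hy
    have hyU := hU.star x hxU y hy
    have h4 : ‖ε * G.g (x.re + I * y)‖ < 1 := by
      rw [norm_mul]
      have := mul_le_mul_of_nonneg_left (TimB_bd (by linarith) hyU) (norm_nonneg ε)
      linarith
    have h5 := (Tim_rtg_an G (TimB_an (by linarith) hyU) h4).continuousAt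
    refine ContinuousAt.continuousWithinAt ?_
    exact ContinuousAt.comp (f := fun y : ℝ => (x.re : ℂ) + I * (y : ℂ))
      (g := fun x => rt (ε * G.g x)) h5 (by fun_prop)
  have e : phE G ε x - x = (cE G ε)⁻¹ * ((∫ t in (0 : ℝ)..x.re, (rt (ε * G.g t) - cE G ε)) +
      I * ∫ y in (0 : ℝ)..x.im, (rt (ε * G.g (x.re + I * y)) - cE G ε)) := by
    rw [intervalIntegral.integral_sub c1 (by simp), intervalIntegral.integral_sub c2 (by simp),
      intervalIntegral.integral_const, intervalIntegral.integral_const, sub_zero, sub_zero]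
    unfold phE
    conv_lhs => rw [← Tim_mk x]
    simp only [Tim_re, Tim_im, real_smul]
    field_simp
    ring
  have h3 := TimB_hor G hε x.re
  have h4 := TimB_ver G (show 0 < d / 4 by linarith) (by linarith) hε hs hxU (by linarith)
    (by linarith)
  have h5 : ‖(cE G ε)⁻¹‖ ≤ 2 := by
    rw [norm_inv]
    have h6 := Tim_c_half G hε
    rw [inv_le_comm₀ (by linarith) (by norm_num)]
    linarith
  rw [e, norm_mul]
  have h6 : ‖(∫ t in (0 : ℝ)..x.re, (rt (ε * G.g t) - cE G ε)) +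
      I * ∫ y in (0 : ℝ)..x.im, (rt (ε * G.g (x.re + I * y)) - cE G ε)‖ ≤
      4 * ‖ε‖ + ‖ε‖ * (144 * G.C / (d / 4) + 3 * G.h) := by
    refine (norm_add_le _ _).trans ?_
    rw [norm_mul, norm_I, one_mul]
    linarith
  refine (mul_le_mul h5 h6 (norm_nonneg _) (by norm_num)).trans ?_
  have h7 : 144 * G.C / (d / 4) = 576 * G.C / d := by
    field_simp
    ring
  rw [h7, TimBK]
  have h8 : 8 ≤ 1 / d := by
    rw [le_div_iff₀ hd]
    linarith
  have h9 : 6 * G.h ≤ G.h / d := by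
    rw [le_div_iff₀ hd]
    nlinarith
  have h10 : 2 * (4 * ‖ε‖ + ‖ε‖ * (576 * G.C / d + 3 * G.h)) =
      ‖ε‖ * (8 + 1152 * G.C / d + 6 * G.h) := by ring
  have h11 : (1 + 1152 * G.C + G.h) * ‖ε‖ / d =
      ‖ε‖ * (1 / d + 1152 * G.C / d + G.h / d) := by
    field_simp
  rw [h10, h11]
  exact mul_le_mul_of_nonneg_left (by linarith) (norm_nonneg _)

/-- the field `near` of `TD` -/
theorem TimB_near (G : GD) {K0 : ℝ} (hK : TimBK G ≤ K0) (x0 : ℂ) (d : ℝ) (h0 : 0 ≤ x0.im)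
    (h1 : x0.im ≤ G.h) (hd : 0 < d) (hdh : d ≤ G.h) (hd8 : d ≤ 1 / 8)
    (hp : ∀ n : ℤ, d ≤ ‖x0 - (n / 2 + I * G.h)‖) :
    ∃ psi : ℂ → ℂ → ℂ,
      AnalyticOnNhd ℂ (fun p : ℂ × ℂ => psi p.1 p.2) (ball 0 (d / K0) ×ˢ ball x0 (d / 2)) ∧
      (∀ η ∈ ball (0 : ℂ) (d / K0), ∀ x ∈ ball x0 (d / 2), ‖psi η x - x‖ ≤ K0 * ‖η‖ ^ 2 / d) ∧
      (∀ η ∈ ball (0 : ℂ) (d / K0), ∀ x ∈ ball x0 (d / 2), |x.im| < G.h - K0 * ‖η‖ →
        psi η x = phE G (η ^ 2) x) := by
  have hh := G.h_pos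
  have hC := G.one_le_C
  unfold TimBK at hK
  have hK1 : 1152 * G.C ≤ K0 := by linarith
  have hK0 : 0 < K0 := by linarith
  have hη1 : ∀ η ∈ ball (0 : ℂ) (d / K0), ‖η‖ ≤ 1 / 8 ∧ ‖η‖ ^ 2 * (G.C / (d / 4) ^ 2) ≤ 1 / 2 := by
    intro η hη
    rw [mem_ball_zero_iff, lt_div_iff₀ hK0] at hη
    have h3 : ‖η‖ * 1152 ≤ ‖η‖ * K0 := mul_le_mul_of_nonneg_left (by linarith) (norm_nonneg _)
    refine ⟨by linarith [norm_nonneg η], ?_⟩
    have h4 : (‖η‖ * K0) ^ 2 ≤ d ^ 2 := pow_le_pow_left₀ (by positivity) hη.le 2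
    have h5 : 32 * G.C ≤ K0 ^ 2 := by nlinarith
    have h6 : ‖η‖ ^ 2 * (32 * G.C) ≤ ‖η‖ ^ 2 * K0 ^ 2 :=
      mul_le_mul_of_nonneg_left h5 (by positivity)
    rw [div_pow, div_div_eq_mul_div, ← mul_div_assoc, div_le_iff₀ (by positivity)]
    nlinarith
  refine ⟨fun η x => phE G (η ^ 2) x, ?_, ?_, fun _ _ _ _ _ => rfl⟩
  · rintro ⟨η, x⟩ ⟨hη, hx⟩
    obtain ⟨h3, h4⟩ := hη1 η hη
    exact Tim_ph_joint G (TimB_isU G (show d / 4 < G.h by linarith))
      (fun y hy => TimB_an (by linarith) hy) (fun y hy => TimB_bd (by linarith) hy)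
      (by linarith) h4 (TimB_ball G h0 h1 hd hdh hp hx)
  · intro η hη x hx
    obtain ⟨h3, h4⟩ := hη1 η hη
    have h5 : ‖η ^ 2‖ ≤ 1 / 4 := by
      rw [norm_pow]
      nlinarith [norm_nonneg η]
    have h6 := TimB_close G h0 h1 hd hdh hd8 hp h5 (by rw [norm_pow]; exact h4) hx
    refine h6.trans ?_
    rw [norm_pow]
    refine div_le_div_of_nonneg_right ?_ hd.le
    exact mul_le_mul_of_nonneg_right hK (by positivity)

/-- all facts about the time map -/
theorem exists_TD (G : GD) : Nonempty (TD G) := by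
  obtain ⟨K00, r00, h1, h2, h3⟩ := exists_TA G
  have hh := G.h_pos
  have hK1 : 1 ≤ max K00 (TimBK G) := h1.trans (le_max_left _ _)
  have hK0 : 0 < max K00 (TimBK G) := by linarith
  have hr : 0 < min r00 (G.h / max K00 (TimBK G)) := lt_min h2 (div_pos hh hK0)
  have h4 := h3 (max K00 (TimBK G)) (min r00 (G.h / max K00 (TimBK G))) (le_max_left _ _) hr
    (min_le_left _ _)
  exact ⟨{
    r0 := min r00 (G.h / max K00 (TimBK G))
    K0 := max K00 (TimBK G)
    r0_pos := hr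
    one_le_K0 := hK1
    K0_r0 := by
      have h5 : min r00 (G.h / max K00 (TimBK G)) ≤ G.h / max K00 (TimBK G) := min_le_right _ _
      calc max K00 (TimBK G) * min r00 (G.h / max K00 (TimBK G))
          ≤ max K00 (TimBK G) * (G.h / max K00 (TimBK G)) :=
            mul_le_mul_of_nonneg_left h5 hK0.le
        _ = G.h := by field_simp
    c_an := h4.c_an
    c_zero := h4.c_zero
    c_conj := h4.c_conj
    c_close := h4.c_close
    ph_an := h4.ph_an
    ph_deriv := h4.ph_deriv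
    ph_half := h4.ph_half
    ph_conj := h4.ph_conj
    ph_zero := h4.ph_zero
    ph_close := h4.ph_close
    ph_der := h4.ph_der
    small := h4.small
    near := TimB_near G (le_max_right _ _) }⟩

end Pool.Agent.MP_ae5b4e_an_LOC
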