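import Pool.Agent.Lib.MP_ae5b4e_an_LOC.Bg
import Pool.Agent.Lib.MP_ae5b4e_an_LOC.Lb7
import Pool.Agent.Lib.MP_ae5b4e_an_LOC.TimB

/-!
Assembly of the interface `Bg` from the time map and the local block.
-/

set_option autoImplicit false

noncomputable section

namespace Pool.Agent.MP_ae5b4e_an_LOC

open Complex Set Filter Topology Metric ComplexConjugate

section

variable {σ : ℝ} {r : ℝ} {eta : ℂ → ℂ}

/-- `Lam om = om ^ 2 σ ^ 2 / eta om ^ 2` -/
def asmLam (σ : ℝ) (eta : ℂ → ℂ) (om : ℂ) : ℂ := (σ : ℂ) ^ 2 / dslope eta 0 om ^ 2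

lemma dslope_an (hr : 0 < r) (han : AnalyticOnNhd ℂ eta (ball 0 r)) :
    AnalyticOnNhd ℂ (dslope eta 0) (ball 0 r) := by
  have h : DifferentiableOn ℂ (dslope eta 0) (ball 0 r) :=
    (Complex.differentiableOn_dslope (ball_mem_nhds 0 hr)).2 han.differentiableOn
  exact h.analyticOnNhd isOpen_ball

lemma dslope_eq (h0 : eta 0 = 0) {om : ℂ} (hom : om ≠ 0) : dslope eta 0 om = eta om / om := by
  rw [dslope_of_ne _ hom, slope_def_field, h0]
  simp

lemma dslope_close (hr : 0 < r) (han : AnalyticOnNhd ℂ eta (ball 0 r)) (h0 : eta 0 = 0)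
    (hc : ∀ om ∈ ball (0 : ℂ) r, ‖eta om - σ / 2 * om‖ ≤ σ / 8 * ‖om‖) {om : ℂ}
    (hom : om ∈ ball (0 : ℂ) r) : ‖dslope eta 0 om - σ / 2‖ ≤ σ / 8 := by
  have key : ∀ w ∈ ball (0 : ℂ) r, w ≠ 0 → ‖dslope eta 0 w - σ / 2‖ ≤ σ / 8 := by
    intro w hw hw0
    rw [dslope_eq h0 hw0]
    have h1 : eta w / w - σ / 2 = (eta w - σ / 2 * w) / w := by field_simp
    rw [h1, norm_div, div_le_iff₀ (norm_pos_iff.2 hw0)]
    exact hc w hw
  by_cases hom0 : om = 0
  · subst hom0
    have hcont : ContinuousAt (fun w => ‖dslope eta 0 w - (σ : ℂ) / 2‖) 0 :=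
      (((dslope_an hr han) 0 hom).continuousAt.sub continuousAt_const).norm
    have ht : Tendsto (fun w => ‖dslope eta 0 w - (σ : ℂ) / 2‖) (𝓝[≠] 0)
        (𝓝 ‖dslope eta 0 0 - (σ : ℂ) / 2‖) := hcont.tendsto.mono_left nhdsWithin_le_nhds
    refine le_of_tendsto ht ?_
    have hb : ball (0 : ℂ) r ∈ 𝓝[≠] (0 : ℂ) := mem_nhdsWithin_of_mem_nhds (ball_mem_nhds 0 hr)
    filter_upwards [hb, self_mem_nhdsWithin] with w hw hw0
    exact key w hw hw0
  · exact key om hom hom0

lemma dslope_ne (hσ : 0 < σ) (hr : 0 < r) (han : AnalyticOnNhd ℂ eta (ball 0 r)) (h0 : eta 0 = 0)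
    (hc : ∀ om ∈ ball (0 : ℂ) r, ‖eta om - σ / 2 * om‖ ≤ σ / 8 * ‖om‖) {om : ℂ}
    (hom : om ∈ ball (0 : ℂ) r) : dslope eta 0 om ≠ 0 := by
  intro h
  have h1 := dslope_close hr han h0 hc hom
  rw [h, zero_sub, norm_neg, norm_div, norm_real, Real.norm_eq_abs, abs_of_pos hσ] at h1
  simp at h1
  linarith

lemma dslope_even (h0 : eta 0 = 0) (ho : ∀ om ∈ ball (0 : ℂ) r, eta (-om) = -eta om) {om : ℂ}
    (hom : om ∈ ball (0 : ℂ) r) : dslope eta 0 (-om) = dslope eta 0 om := by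
  by_cases h : om = 0
  · rw [h, neg_zero]
  · rw [dslope_eq h0 h, dslope_eq h0 (neg_ne_zero.2 h), ho om hom, neg_div_neg_eq]

lemma dslope_conj (hr : 0 < r) (han : AnalyticOnNhd ℂ eta (ball 0 r)) (h0 : eta 0 = 0)
    (ho : ∀ om ∈ ball (0 : ℂ) r, eta (conj om) = conj (eta om)) {om : ℂ}
    (hom : om ∈ ball (0 : ℂ) r) : dslope eta 0 (conj om) = conj (dslope eta 0 om) := by
  have key : ∀ w ∈ ball (0 : ℂ) r, w ≠ 0 → dslope eta 0 (conj w) = conj (dslope eta 0 w) := by
    intro w hw hw0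
    have : conj w ≠ 0 := (map_ne_zero _).2 hw0
    rw [dslope_eq h0 hw0, dslope_eq h0 this, ho w hw, map_div₀]
  by_cases hom0 : om = 0
  · subst hom0
    have hc1 : ContinuousAt (fun w : ℂ => conj (dslope eta 0 w)) 0 :=
      continuous_conj.continuousAt.comp ((dslope_an hr han) 0 hom).continuousAt
    have hc2 : ContinuousAt (fun w : ℂ => dslope eta 0 (conj w)) 0 := by
      have h3 : ContinuousAt (dslope eta 0) (conj (0:ℂ)) := by
        rw [map_zero]; exact ((dslope_an hr han) 0 hom).continuousAt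
      exact ContinuousAt.comp (f := fun w : ℂ => conj w) h3 continuous_conj.continuousAt
    have t1 := hc1.tendsto.mono_left (nhdsWithin_le_nhds (s := {(0:ℂ)}ᶜ))
    have t2 := hc2.tendsto.mono_left (nhdsWithin_le_nhds (s := {(0:ℂ)}ᶜ))
    have hb : ball (0 : ℂ) r ∈ 𝓝[≠] (0 : ℂ) := mem_nhdsWithin_of_mem_nhds (ball_mem_nhds 0 hr)
    refine tendsto_nhds_unique (t2.congr' ?_) t1
    filter_upwards [hb, self_mem_nhdsWithin] with w hw hw0
    exact key w hw hw0
  · exact key om hom hom0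

end

/-- The assembly. -/
theorem exists_Bg {G : GD} {T : TD G} {σ m1 : ℝ} (hσ : 0 < σ) (L : LB G T σ m1) :
    ∃ B : Bg, B.h = G.h ∧ B.kap = σ ∧ B.r ≤ L.r ∧ B.rho ≤ L.rho ∧ L.K ≤ B.K ∧
      B.ph = (fun om x => phE G (L.eta om ^ 2) x) ∧
      B.Lam = asmLam σ L.eta ∧ B.s = L.s ∧ B.ep = (fun om => L.eta om ^ 2) ∧ B.bt = L.bt := by
  -- constants
  set rho : ℝ := min L.rho (min (1 / 8) G.h) with hrho
  have hGh := G.h_pos
  have hrho0 : 0 < rho := lt_min L.rho_pos (lt_min (by norm_num) hGh)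
  have hrhoL : rho ≤ L.rho := min_le_left _ _
  have hrho8 : rho ≤ 1 / 8 := (min_le_right _ _).trans (min_le_left _ _)
  have hrhoh : rho ≤ G.h := (min_le_right _ _).trans (min_le_right _ _)
  have hLr := L.r_pos
  have hLK := L.one_le_K
  set K : ℝ := L.K * (1 + σ) + rho / L.r with hK
  have hK1 : L.K ≤ K := by
    have : 0 ≤ L.K * σ := by positivity
    have : 0 ≤ rho / L.r := by positivity
    rw [hK]; nlinarith
  have hK2 : L.K * σ ≤ K := by
    have : 0 ≤ rho / L.r := by positivity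
    rw [hK]; nlinarith
  have hK3 : rho / K ≤ L.r := by
    have hKpos : 0 < K := by linarith
    rw [div_le_iff₀ hKpos]
    have : rho / L.r ≤ K := by
      have : 0 ≤ L.K * (1 + σ) := by positivity
      rw [hK]; linarith
    calc rho = L.r * (rho / L.r) := by field_simp
      _ ≤ L.r * K := by gcongr
  have hKone : 1 ≤ K := hLK.trans hK1
  have hKpos : 0 < K := by linarith
  set r : ℝ := rho / (4 * K) with hr
  have hr0 : 0 < r := by positivity
  have hrr : r ≤ rho / K := by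
    rw [hr]; apply div_le_div_of_nonneg_left hrho0.le hKpos; linarith
  have hrL : r ≤ L.r := hrr.trans hK3
  have hin : ∀ {om : ℂ}, ‖om‖ < r → om ∈ ball (0 : ℂ) L.r := fun h =>
    mem_ball_zero_iff.2 (lt_of_lt_of_le h hrL)
  have hin' : ∀ {om : ℂ}, om ∈ ball (0 : ℂ) r → om ∈ ball (0 : ℂ) L.r := fun h =>
    ball_subset_ball hrL h
  have hK0η : ∀ {om : ℂ}, om ∈ ball (0 : ℂ) L.r → T.K0 * ‖L.eta om‖ ≤ K * ‖om‖ := by
    intro om h
    exact (L.K_eta om h).trans (by gcongr)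
  have hstrip : ∀ {om x : ℂ}, ‖om‖ < r → |x.im| < G.h - K * ‖om‖ →
      |x.im| < G.h - T.K0 * ‖L.eta om‖ := by
    intro om x h h'
    have := hK0η (hin h)
    linarith
  have heta_le : ∀ {om : ℂ}, om ∈ ball (0 : ℂ) L.r → ‖L.eta om‖ ≤ σ * ‖om‖ := by
    intro om h
    have h1 := L.eta_close om h
    have h2 : ‖L.eta om‖ ≤ ‖L.eta om - σ / 2 * om‖ + ‖(σ : ℂ) / 2 * om‖ := by
      calc ‖L.eta om‖ = ‖(L.eta om - σ / 2 * om) + (σ : ℂ) / 2 * om‖ := by ring_nf
        _ ≤ _ := norm_add_le _ _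
    have h3 : ‖(σ : ℂ) / 2 * om‖ = σ / 2 * ‖om‖ := by
      rw [norm_mul, norm_div, norm_real, Real.norm_eq_abs, abs_of_pos hσ]; simp
    have h4 : 0 ≤ σ * ‖om‖ := by positivity
    rw [h3] at h2
    nlinarith
  refine ⟨{
    h := G.h
    r := r
    rho := rho
    K := K
    kap := σ
    ph := fun om x => phE G (L.eta om ^ 2) x
    Lam := asmLam σ L.eta
    s := L.s
    ep := fun om => L.eta om ^ 2
    bt := L.bt
    h_pos := G.h_pos
    r_pos := hr0
    rho_pos := hrho0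
    one_le_K := hKone
    kap_pos := hσ
    rho_le_h := hrhoh
    rho_le := hrho8
    K_r_le := by rw [hr]; exact le_of_eq (by field_simp)
    ph_an := ?_
    ph_half := fun om x h h' => T.ph_half _ x (L.eta_lt om (hin h)) (hstrip h h')
    ph_even := fun om x h h' => by
      simp only [L.eta_odd om (hin h), neg_sq]
    ph_conj := fun om x h h' => by
      have := T.ph_conj _ x (L.eta_lt om (hin h)) (hstrip h h')
      simp only [L.eta_conj om (hin h)]
      rw [← this, map_pow]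
    ph_zero := fun x h => by
      simp only [L.eta_zero]
      have := T.ph_zero x h
      simpa using this
    ph_close := fun om x h h' =>
      (T.ph_close _ x (L.eta_lt om (hin h)) (hstrip h h')).trans (hK0η (hin h))
    ph_der := fun om x h h' => by
      have h1 := T.ph_deriv _ x (L.eta_lt om (hin h)) (hstrip h h')
      have h2 := T.ph_der _ x (L.eta_lt om (hin h)) (hstrip h h')
      have h3 : deriv (fun x => phE G (L.eta om ^ 2) x) x = _ := h1.deriv
      rw [h3]; exact h2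
    near := ?_
    Lam_an := ?_
    Lam_even := fun om h => by
      simp only [asmLam, dslope_even L.eta_zero L.eta_odd (hin' h)]
    Lam_conj := fun om h => by
      simp only [asmLam, dslope_conj hLr L.eta_an L.eta_zero L.eta_conj (hin' h)]
      simp
    Lam_ne := fun om h => div_ne_zero (pow_ne_zero 2 (by exact_mod_cast hσ.ne'))
      (pow_ne_zero 2 (dslope_ne hσ hLr L.eta_an L.eta_zero L.eta_close (hin' h)))
    s_an := L.s_an.mono (prod_mono (ball_subset_ball hrL) (ball_subset_ball hrhoL))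
    s_odd := fun om h z hz => L.s_odd om (hin' h) z (ball_subset_ball hrhoL hz)
    s_even := fun om h z hz => L.s_even om (hin' h) z (ball_subset_ball hrhoL hz)
    s_conj := fun om h z hz => L.s_conj om (hin' h) z (ball_subset_ball hrhoL hz)
    s_inj := fun om h => (L.s_inj om (hin' h)).mono (ball_subset_ball hrhoL)
    s_close := fun om h z hz => (L.s_close om (hin' h) z (ball_subset_ball hrhoL hz)).trans
      (by gcongr)
    ep_eq := fun om h => by simp only [L.eta_half om (hin' h)]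
    bt_an := L.bt_an.mono (ball_subset_ball hrL)
    bt_even := fun om h => L.bt_even om (hin' h)
    bt_le := fun om h => (L.bt_le om (hin' h)).trans (by gcongr)
    link := ?_ }, rfl, rfl, hrL, hrhoL, hK1, rfl, rfl, rfl, rfl, rfl⟩
  · intro om x h h'
    have h1 := T.ph_an _ x (L.eta_lt om (hin h)) (hstrip h h')
    have h2 : AnalyticAt ℂ (fun p : ℂ × ℂ => (L.eta p.1, p.2)) (om, x) :=
      (AnalyticAt.comp (g := L.eta) (f := Prod.fst) (L.eta_an om (hin h)) analyticAt_fst).prod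
        analyticAt_snd
    exact AnalyticAt.comp (g := fun p : ℂ × ℂ => phE G (p.1 ^ 2) p.2)
      (f := fun p : ℂ × ℂ => (L.eta p.1, p.2)) h1 h2
  · intro x0 d hx0 hx0' hd hd' hn
    obtain ⟨psi, p1, p2, p3⟩ := T.near x0 d hx0 hx0' hd (hd'.trans hrhoh) (hd'.trans hrho8) hn
    have hK0 := T.one_le_K0
    have hdK : d / K ≤ L.r := (div_le_div_of_nonneg_right hd' hKpos.le).trans hK3
    have hmem : ∀ {om : ℂ}, om ∈ ball (0 : ℂ) (d / K) → om ∈ ball (0 : ℂ) L.r ∧
        L.eta om ∈ ball (0 : ℂ) (d / T.K0) := by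
      intro om hom
      have h1 : om ∈ ball (0 : ℂ) L.r := ball_subset_ball hdK hom
      refine ⟨h1, ?_⟩
      rw [mem_ball_zero_iff] at hom ⊢
      rw [lt_div_iff₀ hKpos] at hom
      rw [lt_div_iff₀ (by linarith)]
      have := hK0η h1
      linarith
    refine ⟨fun om x => psi (L.eta om) x, ?_, ?_, ?_⟩
    · rintro ⟨om, x⟩ ⟨hom, hx⟩
      obtain ⟨a, b⟩ := hmem hom
      have h2 : AnalyticAt ℂ (fun p : ℂ × ℂ => (L.eta p.1, p.2)) (om, x) :=
        (AnalyticAt.comp (g := L.eta) (f := Prod.fst) (L.eta_an om a) analyticAt_fst).prod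
          analyticAt_snd
      exact AnalyticAt.comp (g := fun p : ℂ × ℂ => psi p.1 p.2)
        (f := fun p : ℂ × ℂ => (L.eta p.1, p.2)) (p1 (L.eta om, x) ⟨b, hx⟩) h2
    · intro om hom x hx
      obtain ⟨a, b⟩ := hmem hom
      refine (p2 _ b x hx).trans (div_le_div_of_nonneg_right ?_ hd.le)
      have h3 := L.K_eta om a
      have h4 := heta_le a
      calc T.K0 * ‖L.eta om‖ ^ 2 = (T.K0 * ‖L.eta om‖) * ‖L.eta om‖ := by ring
        _ ≤ (L.K * ‖om‖) * (σ * ‖om‖) := by gcongr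
        _ = (L.K * σ) * ‖om‖ ^ 2 := by ring
        _ ≤ K * ‖om‖ ^ 2 := by gcongr
    · intro om hom x hx h h'
      obtain ⟨a, b⟩ := hmem hom
      exact p3 _ b x hx (hstrip h h')
  · intro om hom
    have h1 := dslope_an hLr L.eta_an om (hin' hom)
    exact analyticAt_const.div (h1.pow 2)
      (pow_ne_zero 2 (dslope_ne hσ hLr L.eta_an L.eta_zero L.eta_close (hin' hom)))
  · intro n om x h h' h''
    have h1 : |x.im| < G.h - L.K * ‖om‖ := by
      have : L.K * ‖om‖ ≤ K * ‖om‖ := by gcongr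
      linarith
    have h2 : ‖x - (n / 2 + I * G.h)‖ < L.rho := by
      have : rho / 2 ≤ L.rho := by linarith
      linarith
    exact L.link n om x (lt_of_lt_of_le h hrL) h1 h2

/-- away from 0 the slope is `σ ^ 2 / eta ^ 2` -/
lemma asmLam_eq {σ : ℝ} {eta : ℂ → ℂ} (h0 : eta 0 = 0) {om : ℂ} (hom : om ≠ 0) :
    asmLam σ eta om / om ^ 2 = (σ : ℂ) ^ 2 / eta om ^ 2 := by
  unfold asmLam
  rw [dslope_eq h0 hom]
  by_cases h : eta om = 0
  · simp [h]
  · field_simp

end Pool.Agent.MP_ae5b4e_an_LOC
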