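import Mathlib

/-!
# LOC: the interface between the background (Jacobi) block and the linear theory

`Bg` collects what the linear theory uses about the complexified time map `ph om x` of a
non-circular pencil: `om` is the rotation number of the leaf, `x` the normalised parameter of the
conic (period one), `b n = n / 2 + i h` are the base points in the upper half plane.  The slope of
the leaf enters through `Lam om = om ^ 2 * lambda om`.  Near a base point the coordinate is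
`s om z` with `z = ph - b n - bt om`, and `q = 1 / g` is `ep om - s om z ^ 2`.
-/

set_option autoImplicit false

namespace Pool.Agent.MP_ae5b4e_an_LOC

open Set Metric Complex ComplexConjugate

/-- the complexified time map of a pencil -/
structure Bg where
  /-- half width of the strip -/
  h : ℝ
  /-- radius for `om` -/
  r : ℝ
  /-- radius of the local coordinate at the base points -/
  rho : ℝ
  /-- the constant of all estimates -/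
  K : ℝ
  /-- `s 0 z = kap z + ..` -/
  kap : ℝ
  /-- the time map -/
  ph : ℂ → ℂ → ℂ
  /-- `om ^ 2 * lambda` -/
  Lam : ℂ → ℂ
  /-- the local coordinate -/
  s : ℂ → ℂ → ℂ
  /-- the small parameter `ep`, `q = ep - s ^ 2` -/
  ep : ℂ → ℂ
  /-- the shift of the base point -/
  bt : ℂ → ℂ
  h_pos : 0 < h
  r_pos : 0 < r
  rho_pos : 0 < rho
  one_le_K : 1 ≤ K
  kap_pos : 0 < kap
  rho_le_h : rho ≤ h
  rho_le : rho ≤ 1 / 8
  K_r_le : 4 * K * r ≤ rho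
  /-- the time map is analytic on `‖om‖ < r`, `|Im x| < h - K ‖om‖` -/
  ph_an : ∀ om x : ℂ, ‖om‖ < r → |x.im| < h - K * ‖om‖ →
    AnalyticAt ℂ (fun p : ℂ × ℂ => ph p.1 p.2) (om, x)
  ph_half : ∀ om x : ℂ, ‖om‖ < r → |x.im| < h - K * ‖om‖ → ph om (x + 1 / 2) = ph om x + 1 / 2
  ph_even : ∀ om x : ℂ, ‖om‖ < r → |x.im| < h - K * ‖om‖ → ph (-om) x = ph om x
  ph_conj : ∀ om x : ℂ, ‖om‖ < r → |x.im| < h - K * ‖om‖ →
    ph (conj om) (conj x) = conj (ph om x)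
  ph_zero : ∀ x : ℂ, |x.im| < h → ph 0 x = x
  ph_close : ∀ om x : ℂ, ‖om‖ < r → |x.im| < h - K * ‖om‖ → ‖ph om x - x‖ ≤ K * ‖om‖
  ph_der : ∀ om x : ℂ, ‖om‖ < r → |x.im| < h - K * ‖om‖ → ‖deriv (ph om) x - 1‖ ≤ 1 / 2
  /-- near a point `x0` of the closed upper half strip at distance `≥ d` from the base points -/
  near : ∀ (x0 : ℂ) (d : ℝ), 0 ≤ x0.im → x0.im ≤ h → 0 < d → d ≤ rho →
    (∀ n : ℤ, d ≤ ‖x0 - (n / 2 + I * h)‖) →
    ∃ psi : ℂ → ℂ → ℂ,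
      AnalyticOnNhd ℂ (fun p : ℂ × ℂ => psi p.1 p.2) (ball 0 (d / K) ×ˢ ball x0 (d / 2)) ∧
      (∀ om ∈ ball (0 : ℂ) (d / K), ∀ x ∈ ball x0 (d / 2), ‖psi om x - x‖ ≤ K * ‖om‖ ^ 2 / d) ∧
      (∀ om ∈ ball (0 : ℂ) (d / K), ∀ x ∈ ball x0 (d / 2), ‖om‖ < r → |x.im| < h - K * ‖om‖ →
        psi om x = ph om x)
  Lam_an : AnalyticOnNhd ℂ Lam (ball 0 r)
  Lam_even : ∀ om ∈ ball (0 : ℂ) r, Lam (-om) = Lam om
  Lam_conj : ∀ om ∈ ball (0 : ℂ) r, Lam (conj om) = conj (Lam om)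
  Lam_ne : ∀ om ∈ ball (0 : ℂ) r, Lam om ≠ 0
  s_an : AnalyticOnNhd ℂ (fun p : ℂ × ℂ => s p.1 p.2) (ball 0 r ×ˢ ball 0 rho)
  s_odd : ∀ om ∈ ball (0 : ℂ) r, ∀ z ∈ ball (0 : ℂ) rho, s om (-z) = -s om z
  s_even : ∀ om ∈ ball (0 : ℂ) r, ∀ z ∈ ball (0 : ℂ) rho, s (-om) z = s om z
  s_conj : ∀ om ∈ ball (0 : ℂ) r, ∀ z ∈ ball (0 : ℂ) rho, s (conj om) (conj z) = conj (s om z)
  s_inj : ∀ om ∈ ball (0 : ℂ) r, InjOn (s om) (ball 0 rho)
  s_close : ∀ om ∈ ball (0 : ℂ) r, ∀ z ∈ ball (0 : ℂ) rho,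
    ‖s om z - kap * z‖ ≤ K * ‖z‖ * (‖om‖ + ‖z‖) ^ 2
  ep_eq : ∀ om ∈ ball (0 : ℂ) r, ep om = s om (om / 2) ^ 2
  bt_an : AnalyticOnNhd ℂ bt (ball 0 r)
  bt_even : ∀ om ∈ ball (0 : ℂ) r, bt (-om) = bt om
  bt_le : ∀ om ∈ ball (0 : ℂ) r, ‖bt om‖ ≤ K * ‖om‖ ^ 2
  /-- the local form of the time map at a base point -/
  link : ∀ (n : ℤ) (om x : ℂ), ‖om‖ < r → |x.im| < h - K * ‖om‖ →
    ‖x - (n / 2 + I * h)‖ < rho / 2 →
    ep om - s om (ph om x - (n / 2 + I * h) - bt om) ^ 2 = -s 0 (x - (n / 2 + I * h)) ^ 2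

end Pool.Agent.MP_ae5b4e_an_LOC
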