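import Pool.Agent.Lib.MP_ae5b4e_an_LOC.LTS
import Pool.Agent.Lib.MP_ae5b4e_an_LOC.InvG

/-!
# LOC, LT-6 (CR), part (a): the local inverse of the time map
-/

set_option autoImplicit false

namespace Pool.Agent.MP_ae5b4e_an_LOC

open Set Metric Complex Filter Topology

/-- the local inverse -/
theorem loc_inv {K d : ℝ} {x0 : ℂ} {psi : ℂ → ℂ → ℂ} (hK : 1 ≤ K) (hd : 0 < d)
    (han : AnalyticOnNhd ℂ (fun p : ℂ × ℂ => psi p.1 p.2) (ball 0 (d / K) ×ˢ ball x0 (d / 2)))
    (hcl : ∀ om ∈ ball (0 : ℂ) (d / K), ∀ x ∈ ball x0 (d / 2),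
      ‖psi om x - x‖ ≤ K * ‖om‖ ^ 2 / d) :
    ∃ Xl : ℂ → ℂ → ℂ,
      AnalyticOnNhd ℂ (fun p : ℂ × ℂ => Xl p.1 p.2) (ball 0 (d / (8 * K)) ×ˢ ball x0 (d / 4)) ∧
      ∀ om ∈ ball (0 : ℂ) (d / (8 * K)), ∀ φ ∈ ball x0 (d / 4),
        ‖Xl om φ - φ‖ ≤ K * ‖om‖ ^ 2 / d ∧ psi om (Xl om φ) = φ ∧
          Xl om φ ∈ ball x0 (3 * d / 8) := by
  have hK0 : 0 < K := by linarith
  have hsub : ball (0 : ℂ) (d / (8 * K)) ⊆ ball 0 (d / K) := by
    apply ball_subset_ball
    apply div_le_div_of_nonneg_left hd.le hK0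
    linarith
  have hm : ∀ om ∈ ball (0 : ℂ) (d / (8 * K)), K * ‖om‖ ^ 2 / d ≤ d / 64 := by
    intro om hom
    rw [mem_ball_zero_iff] at hom
    rw [div_le_div_iff₀ hd (by norm_num)]
    have h1 : ‖om‖ ^ 2 ≤ (d / (8 * K)) ^ 2 := by
      have := norm_nonneg om
      nlinarith
    have h2 : K * (d / (8 * K)) ^ 2 * 64 = d * d / K := by
      field_simp
      ring
    have h3 : d * d / K ≤ d * d := by
      rw [div_le_iff₀ hK0]
      nlinarith [mul_pos hd hd]
    nlinarith
  -- analyticity in `x`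
  have hanx : ∀ om ∈ ball (0 : ℂ) (d / (8 * K)), ∀ x ∈ ball x0 (d / 2),
      AnalyticAt ℂ (psi om) x := by
    intro om hom x hx
    have h := han (om, x) ⟨hsub hom, hx⟩
    exact AnalyticAt.comp (g := fun p : ℂ × ℂ => psi p.1 p.2) (f := fun x : ℂ => (om, x)) h
      (analyticAt_const.prod analyticAt_id)
  -- the derivative
  have hder : ∀ om ∈ ball (0 : ℂ) (d / (8 * K)), ∀ x ∈ ball x0 (3 * d / 8),
      ‖deriv (fun y => psi om y - y) x‖ ≤ 1 / 8 := by
    intro om hom x hx
    have hcb : closedBall x (d / 8) ⊆ ball x0 (d / 2) := by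
      intro y hy
      rw [mem_closedBall] at hy
      rw [mem_ball] at hx ⊢
      calc dist y x0 ≤ dist y x + dist x x0 := dist_triangle _ _ _
        _ < d / 8 + 3 * d / 8 := by linarith
        _ = d / 2 := by ring
    have hdiff : DiffContOnCl ℂ (fun y => psi om y - y) (ball x (d / 8)) := by
      apply DifferentiableOn.diffContOnCl
      rw [closure_ball _ (by positivity)]
      intro y hy
      exact ((hanx om hom y (hcb hy)).differentiableAt.sub
        differentiableAt_id).differentiableWithinAt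
    have h := Complex.norm_deriv_le_of_forall_mem_sphere_norm_le (by positivity : 0 < d / 8) hdiff
      (C := d / 64) (fun z hz => (hcl om (hsub hom) z (hcb (sphere_subset_closedBall hz))).trans
        (hm om hom))
    refine h.trans (le_of_eq ?_)
    field_simp
    norm_num
  have hlip : ∀ om ∈ ball (0 : ℂ) (d / (8 * K)), ∀ x ∈ ball x0 (3 * d / 8),
      ∀ y ∈ ball x0 (3 * d / 8),
      ‖(psi om x - x) - (psi om y - y)‖ ≤ 1 / 8 * ‖x - y‖ := by
    intro om hom x hx y hy
    have hsub2 : ball x0 (3 * d / 8) ⊆ ball x0 (d / 2) := ball_subset_ball (by linarith)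
    exact (convex_ball x0 (3 * d / 8)).norm_image_sub_le_of_norm_deriv_le
      (f := fun y => psi om y - y) (fun z hz =>
        (hanx om hom z (hsub2 hz)).differentiableAt.sub differentiableAt_id)
      (fun z hz => hder om hom z hz) hy hx
  have huniq : ∀ om ∈ ball (0 : ℂ) (d / (8 * K)), ∀ x ∈ ball x0 (3 * d / 8),
      ∀ y ∈ ball x0 (3 * d / 8), psi om x = psi om y → x = y := by
    intro om hom x hx y hy hxy
    have h := hlip om hom x hx y hy
    have e1 : (psi om x - x) - (psi om y - y) = -(x - y) := by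
      rw [hxy]
      ring
    rw [e1, norm_neg] at h
    have h2 : ‖x - y‖ = 0 := by
      have := norm_nonneg (x - y)
      linarith
    exact sub_eq_zero.1 (norm_eq_zero.1 h2)
  -- existence
  have hex : ∀ om ∈ ball (0 : ℂ) (d / (8 * K)), ∀ φ ∈ ball x0 (d / 4), ∃ x : ℂ,
      ‖x - φ‖ ≤ K * ‖om‖ ^ 2 / d ∧ psi om x = φ ∧ x ∈ ball x0 (3 * d / 8) := by
    intro om hom φ hφ
    set m := K * ‖om‖ ^ 2 / d with hmd
    have hm0 : 0 ≤ m := by positivity
    have hmle := hm om hom
    set s : Set ℂ := closedBall φ m with hs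
    have hsb : s ⊆ ball x0 (3 * d / 8) := by
      intro y hy
      rw [hs, mem_closedBall] at hy
      rw [mem_ball] at hφ ⊢
      calc dist y x0 ≤ dist y φ + dist φ x0 := dist_triangle _ _ _
        _ < m + d / 4 := by linarith
        _ ≤ 3 * d / 8 := by linarith
    have hsub2 : ball x0 (3 * d / 8) ⊆ ball x0 (d / 2) := ball_subset_ball (by linarith)
    set T : ℂ → ℂ := fun x => φ - (psi om x - x) with hT
    have hmaps : MapsTo T s s := by
      intro x hx
      rw [hs, mem_closedBall, dist_eq_norm]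
      have e1 : T x - φ = -(psi om x - x) := by
        simp only [hT]
        ring
      rw [e1, norm_neg]
      exact hcl om (hsub hom) x (hsub2 (hsb hx))
    have hcontr : ContractingWith (1 / 8) (hmaps.restrict T s s) := by
      refine ⟨by norm_num, LipschitzWith.of_dist_le_mul fun x y => ?_⟩
      rw [Subtype.dist_eq, Subtype.dist_eq]
      simp only [MapsTo.val_restrict_apply]
      rw [dist_eq_norm, dist_eq_norm]
      have e1 : T x - T y = -((psi om x - x) - (psi om y - y)) := by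
        simp only [hT]
        ring
      rw [e1, norm_neg]
      have := hlip om hom x (hsb x.2) y (hsb y.2)
      simpa using this
    obtain ⟨x, hxs, hfix, -⟩ := ContractingWith.exists_fixedPoint' isClosed_closedBall.isComplete
      hmaps hcontr (x := φ) (mem_closedBall_self hm0) (edist_ne_top _ _)
    refine ⟨x, ?_, ?_, hsb hxs⟩
    · rw [hs, mem_closedBall, dist_eq_norm] at hxs
      exact hxs
    · have h1 : φ - (psi om x - x) = x := hfix
      linear_combination -h1
  choose! Xl hXl using hex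
  refine ⟨Xl, ?_, hXl⟩
  refine inv_analytic (f := psi) (U := ball 0 (d / (8 * K)) ×ˢ ball x0 (3 * d / 8))
    (V := ball 0 (d / (8 * K)) ×ˢ ball x0 (d / 4)) (isOpen_ball.prod isOpen_ball)
    (isOpen_ball.prod isOpen_ball) (han.mono (prod_mono hsub (ball_subset_ball (by linarith))))
    ?_ ?_
  · rintro ⟨om, φ⟩ ⟨hom, hφ⟩
    obtain ⟨-, h2, h3⟩ := hXl om hom φ hφ
    refine ⟨⟨hom, h3⟩, h2, ?_⟩
    intro h0
    have hsub2 : ball x0 (3 * d / 8) ⊆ ball x0 (d / 2) := ball_subset_ball (by linarith)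
    have h4 := hder om hom _ h3
    have h5 : deriv (fun y => psi om y - y) (Xl om φ) = deriv (psi om) (Xl om φ) - 1 := by
      rw [deriv_fun_sub (hanx om hom _ (hsub2 h3)).differentiableAt differentiableAt_fun_id]
      simp
    rw [h5, h0, zero_sub, norm_neg, norm_one] at h4
    norm_num at h4
  · rintro ⟨om, φ⟩ ⟨hom, hφ⟩ z ⟨_, hz⟩ hpz
    obtain ⟨-, h2, h3⟩ := hXl om hom φ hφ
    exact huniq om hom z hz _ h3 (hpz.trans h2.symm)

end Pool.Agent.MP_ae5b4e_an_LOC
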