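import Pool.Agent.Lib.MP_ae5b4e_an_LOC.CRa

/-!
# LOC, LT-6 (CR), part (b): the functional equation near a point of the line, steps
-/

set_option autoImplicit false

namespace Pool.Agent.MP_ae5b4e_an_LOC

open Set Metric Complex Filter Topology
open Pool.Agent.Lib.MP_ae5b4e_an_LL (ExtH)

/-- the data near a point `x0` of the line `Im x = t` -/
structure CRD (B : Bg) (t : ℝ) (f : Fin 3 → ℂ → ℂ) (G : ℂ → ℂ → ℂ) (c0 : ℂ → ℂ) (x0 : ℂ) (d : ℝ)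
    (psi Xl : ℂ → ℂ → ℂ) : Prop where
  t_pos : 0 < t
  t_le : t ≤ B.h
  sol : Sol B t f
  feq : FEq B t f G c0
  im : x0.im = t
  d_pos : 0 < d
  d_t : d ≤ t
  d_r : d ≤ B.r
  psi_eq : ∀ om ∈ ball (0 : ℂ) (d / B.K), ∀ x ∈ ball x0 (d / 2), ‖om‖ < B.r →
    |x.im| < B.h - B.K * ‖om‖ → psi om x = B.ph om x
  Xl_an : AnalyticOnNhd ℂ (fun p : ℂ × ℂ => Xl p.1 p.2)
    (ball 0 (d / (8 * B.K)) ×ˢ ball x0 (d / 4))
  Xl_close : ∀ om ∈ ball (0 : ℂ) (d / (8 * B.K)), ∀ φ ∈ ball x0 (d / 4),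
    ‖Xl om φ - φ‖ ≤ B.K * ‖om‖ ^ 2 / d
  Xl_psi : ∀ om ∈ ball (0 : ℂ) (d / (8 * B.K)), ∀ φ ∈ ball x0 (d / 4), psi om (Xl om φ) = φ
  Xl_mem : ∀ om ∈ ball (0 : ℂ) (d / (8 * B.K)), ∀ φ ∈ ball x0 (d / 4), Xl om φ ∈ ball x0 (3 * d / 8)

namespace CRD

variable {B : Bg} {t : ℝ} {f : Fin 3 → ℂ → ℂ} {G : ℂ → ℂ → ℂ} {c0 : ℂ → ℂ} {x0 : ℂ} {d : ℝ}
  {psi Xl : ℂ → ℂ → ℂ}

theorem K0 (_ : CRD B t f G c0 x0 d psi Xl) : 0 < B.K := by linarith [B.one_le_K]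

theorem dK (D : CRD B t f G c0 x0 d psi Xl) : d / (8 * B.K) ≤ d / B.K := by
  apply div_le_div_of_nonneg_left D.d_pos.le D.K0
  linarith [D.K0]

theorem dr (D : CRD B t f G c0 x0 d psi Xl) : d / (8 * B.K) < B.r / 4 := by
  have h1 := D.d_r
  have h2 := B.one_le_K
  have h3 := D.d_pos
  calc d / (8 * B.K) ≤ d / 8 := by
        apply div_le_div_of_nonneg_left h3.le (by norm_num)
        linarith
    _ < B.r / 4 := by linarith

/-- the shift of the point -/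
theorem im_close (D : CRD B t f G c0 x0 d psi Xl) {om φ : ℂ}
    (hom : om ∈ ball (0 : ℂ) (d / (8 * B.K))) (hφ : φ ∈ ball x0 (d / 4)) :
    |(Xl om φ).im - φ.im| ≤ B.K * ‖om‖ ^ 2 / d := by
  rw [← Complex.sub_im]
  exact (Complex.abs_im_le_norm _).trans (D.Xl_close om hom φ hφ)

theorem im_pos (D : CRD B t f G c0 x0 d psi Xl) {om φ : ℂ}
    (hom : om ∈ ball (0 : ℂ) (d / (8 * B.K))) (hφ : φ ∈ ball x0 (d / 4)) : 0 < (Xl om φ).im := by
  have h1 := D.Xl_mem om hom φ hφ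
  rw [mem_ball, dist_eq_norm] at h1
  have h2 := (Complex.abs_im_le_norm (Xl om φ - x0)).trans_lt h1
  rw [Complex.sub_im, D.im, abs_lt] at h2
  have := D.d_t
  have := D.d_pos
  linarith [h2.1]

/-- FE at the point `φ` -/
theorem fe_loc (D : CRD B t f G c0 x0 d psi Xl) {om φ : ℂ}
    (hom : om ∈ ball (0 : ℂ) (d / (8 * B.K))) (hφ : φ ∈ ball x0 (d / 4))
    (him : φ.im + B.K * ‖om‖ ^ 2 / d < t - 4 * B.K * ‖om‖) :
    G om (φ - om / 2) - G om (φ + om / 2) = om * (B.F f om (Xl om φ) - c0 om) := by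
  have h1 := abs_le.1 (D.im_close hom hφ)
  have h2 := D.im_pos hom hφ
  have h3 : |(Xl om φ).im| < t - 4 * B.K * ‖om‖ := by
    rw [abs_of_pos h2]
    linarith [h1.2]
  have hn := mem_ball_zero_iff.1 hom
  have h4 : ‖om‖ < B.r / 4 := hn.trans D.dr
  have h5 : B.ph om (Xl om φ) = φ := by
    rw [← D.psi_eq om (ball_subset_ball D.dK hom) _
      (ball_subset_ball (by linarith [D.d_pos]) (D.Xl_mem om hom φ hφ)) (by linarith [B.r_pos])
      (by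
        have := D.t_le
        have h6 : 0 ≤ B.K * ‖om‖ := mul_nonneg D.K0.le (norm_nonneg _)
        linarith), D.Xl_psi om hom φ hφ]
  have h6 := D.feq.fe om (Xl om φ) h4 h3
  rwa [h5] at h6

/-- the function `F` at the point `φ` is analytic -/
theorem Fh_an (D : CRD B t f G c0 x0 d psi Xl) {om φ : ℂ}
    (hom : om ∈ ball (0 : ℂ) (d / (8 * B.K))) (hφ : φ ∈ ball x0 (d / 4))
    (him : φ.im + B.K * ‖om‖ ^ 2 / d < t) :
    AnalyticAt ℂ (fun p : ℂ × ℂ => B.F f p.1 (Xl p.1 p.2)) (om, φ) := by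
  have h1 := abs_le.1 (D.im_close hom hφ)
  have h2 := D.im_pos hom hφ
  have h3 : Xl om φ ∈ Sp t := by
    rw [mem_Sp, abs_of_pos h2]
    linarith [h1.2]
  have hX : AnalyticAt ℂ (fun p : ℂ × ℂ => Xl p.1 p.2) (om, φ) := D.Xl_an _ ⟨hom, hφ⟩
  have hf : ∀ i, AnalyticAt ℂ (fun p : ℂ × ℂ => f i (Xl p.1 p.2)) (om, φ) := fun i =>
    AnalyticAt.comp (g := f i) (f := fun p : ℂ × ℂ => Xl p.1 p.2) (x := (om, φ))
      (D.sol.an i _ h3) hX
  have hn := mem_ball_zero_iff.1 hom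
  have hL : AnalyticAt ℂ (fun p : ℂ × ℂ => B.Lam p.1) (om, φ) := by
    have h4 : AnalyticAt ℂ B.Lam om := B.Lam_an om (by
      rw [mem_ball_zero_iff]
      linarith [D.dr, B.r_pos])
    exact AnalyticAt.comp (g := B.Lam) (f := fun p : ℂ × ℂ => p.1) (x := (om, φ)) h4
      analyticAt_fst
  unfold Bg.F
  exact (((analyticAt_fst.pow 4).mul (hf 0)).add (((analyticAt_fst.pow 2).mul hL).mul
    (hf 1))).add ((hL.pow 2).mul (hf 2))

end CRD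

end Pool.Agent.MP_ae5b4e_an_LOC
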