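import Pool.Agent.Lib.MP_ae5b4e_an_LOC.CRb

/-!
# LOC, LT-6 (CR), part (c): the extension for imaginary `om`
-/

set_option autoImplicit false

namespace Pool.Agent.MP_ae5b4e_an_LOC

open Set Metric Complex Filter Topology
open Pool.Agent.Lib.MP_ae5b4e_an_LL (ExtH)

namespace CRD

variable {B : Bg} {t : ℝ} {f : Fin 3 → ℂ → ℂ} {G : ℂ → ℂ → ℂ} {c0 : ℂ → ℂ} {x0 : ℂ} {d : ℝ}
  {psi Xl : ℂ → ℂ → ℂ}

/-- the extension near `om = i η` -/
theorem step_ext (D : CRD B t f G c0 x0 d psi Xl) {η : ℝ} (hη : 0 < η)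
    (hη2 : η ≤ d / (4096 * B.K)) :
    ExtH (fun p : ℂ × ℂ => G p.1 p.2) (x0 - I * (d / 64 : ℝ)) univ (d / 64 + η / 4)
      (I * (η : ℝ)) := by
  have hd := D.d_pos
  have hK := D.K0
  have hK1 := B.one_le_K
  have hdt := D.d_t
  have htim := D.im
  have hKη : B.K * η ≤ d / 4096 := by
    rw [le_div_iff₀ (by positivity)] at hη2
    linarith
  have hηd : η ≤ d / 4096 := by nlinarith
  obtain ⟨k, hk1, hk2⟩ : ∃ k : ℕ, 4 * B.K + 1 ≤ k ∧ (k : ℝ) ≤ 4 * B.K + 2 := by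
    refine ⟨⌈4 * B.K⌉₊ + 1, ?_, ?_⟩
    · push_cast
      linarith [Nat.le_ceil (4 * B.K)]
    · push_cast
      linarith [Nat.ceil_lt_add_one (show 0 ≤ 4 * B.K by positivity)]
  have hkη : (k : ℝ) * (17 / 16 * η) ≤ d / 600 := by
    have h1 : (k : ℝ) * (17 / 16 * η) ≤ (6 * B.K) * (17 / 16 * η) :=
      mul_le_mul_of_nonneg_right (by linarith) (by positivity)
    nlinarith
  -- `om` near `i η`
  have hom : ∀ om ∈ ball (I * (η : ℝ) : ℂ) (η / 16), 15 / 16 * η < om.im ∧ om.im < 17 / 16 * η ∧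
      ‖om‖ < 17 / 16 * η := by
    intro om h
    rw [mem_ball, dist_eq_norm] at h
    have h1 := (Complex.abs_im_le_norm (om - I * (η : ℝ))).trans_lt h
    have h2 : (om - I * (η : ℝ)).im = om.im - η := by simp
    rw [h2, abs_lt] at h1
    refine ⟨by linarith [h1.1], by linarith [h1.2], ?_⟩
    calc ‖om‖ = ‖(om - I * (η : ℝ)) + I * (η : ℝ)‖ := by rw [sub_add_cancel]
      _ ≤ ‖om - I * (η : ℝ)‖ + ‖I * (η : ℝ)‖ := norm_add_le _ _
      _ = ‖om - I * (η : ℝ)‖ + η := by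
          rw [norm_mul, Complex.norm_I, one_mul, Complex.norm_real, Real.norm_eq_abs,
            abs_of_pos hη]
      _ < 17 / 16 * η := by linarith
  have hom8 : ∀ om ∈ ball (I * (η : ℝ) : ℂ) (η / 16), om ∈ ball (0 : ℂ) (d / (8 * B.K)) := by
    intro om h
    rw [mem_ball_zero_iff, lt_div_iff₀ (by positivity)]
    have h1 := (hom om h).2.2
    have h2 : ‖om‖ * (8 * B.K) ≤ (17 / 16 * η) * (8 * B.K) :=
      mul_le_mul_of_nonneg_right h1.le (by positivity)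
    nlinarith
  have hom2 : ∀ om ∈ ball (I * (η : ℝ) : ℂ) (η / 16), B.K * ‖om‖ ^ 2 / d ≤ η / 32 := by
    intro om h
    rw [div_le_iff₀ hd]
    have h1 := (hom om h).2.2
    have h2 := norm_nonneg om
    have h3 : ‖om‖ ^ 2 ≤ (17 / 16 * η) ^ 2 := by nlinarith
    have h4 : B.K * ‖om‖ ^ 2 ≤ B.K * (17 / 16 * η) ^ 2 := mul_le_mul_of_nonneg_left h3 hK.le
    have h5 : B.K * (17 / 16 * η) ^ 2 = (17 / 16) ^ 2 * (B.K * η) * η := by ring
    have h6 : (B.K * η) * η ≤ (d / 4096) * η := mul_le_mul_of_nonneg_right hKη hη.le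
    nlinarith
  -- the points
  set φ0 : ℂ := x0 - I * (d / 64 : ℝ) with hφ0
  have hφ0im : φ0.im = t - d / 64 := by
    rw [hφ0]
    simp [htim]
  have hφ0x : ‖φ0 - x0‖ = d / 64 := by
    rw [hφ0]
    have : x0 - I * (d / 64 : ℝ) - x0 = -(I * (d / 64 : ℝ)) := by ring
    rw [this, norm_neg, norm_mul, Complex.norm_I, one_mul, Complex.norm_real, Real.norm_eq_abs,
      abs_of_pos (by positivity)]
  have hpt : ∀ (s : ℝ) (φ : ℂ), φ ∈ ball φ0 s → φ.im < t - d / 64 + s ∧ t - d / 64 - s < φ.im ∧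
      ‖φ - x0‖ < s + d / 64 := by
    intro s φ h
    rw [mem_ball, dist_eq_norm] at h
    have h1 := (Complex.abs_im_le_norm (φ - φ0)).trans_lt h
    rw [Complex.sub_im, hφ0im, abs_lt] at h1
    refine ⟨by linarith [h1.2], by linarith [h1.1], ?_⟩
    calc ‖φ - x0‖ = ‖(φ - φ0) + (φ0 - x0)‖ := by
          congr 1
          ring
      _ ≤ ‖φ - φ0‖ + ‖φ0 - x0‖ := norm_add_le _ _
      _ < s + d / 64 := by linarith
  -- imaginary parts of the shifted points
  have hshim : ∀ (a : ℝ) (om φ : ℂ), (φ - (a : ℂ) * om).im = φ.im - a * om.im := by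
    intro a om φ
    simp
  -- the points `φ - (j + 1/2) om`
  have hcast : ∀ j : ℕ, ((j : ℂ) + 1 / 2) = (((j : ℝ) + 1 / 2 : ℝ) : ℂ) := by
    intro j
    push_cast
    ring
  have hball : ∀ (s : ℝ), s ≤ d / 64 + η / 4 → ∀ j < k, ∀ om ∈ ball (I * (η : ℝ) : ℂ) (η / 16),
      ∀ φ ∈ ball φ0 s, φ - ((j : ℂ) + 1 / 2) * om ∈ ball x0 (d / 4) ∧
        (φ - ((j : ℂ) + 1 / 2) * om).im < t - d / 64 + s - 15 / 32 * η := by
    intro s hs j hj om h φ hφ
    obtain ⟨h1, h2, h3⟩ := hom om h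
    obtain ⟨p1, p2, p3⟩ := hpt s φ hφ
    have hj' : (j : ℝ) + 1 / 2 ≤ k := by
      have : (j : ℝ) + 1 ≤ k := by exact_mod_cast hj
      linarith
    have hj0 : (0 : ℝ) ≤ j := Nat.cast_nonneg j
    rw [hcast j]
    constructor
    · rw [mem_ball, dist_eq_norm]
      have e1 : φ - (((j : ℝ) + 1 / 2 : ℝ) : ℂ) * om - x0 =
          (φ - x0) - (((j : ℝ) + 1 / 2 : ℝ) : ℂ) * om := by ring
      rw [e1]
      have e2 : ‖(((j : ℝ) + 1 / 2 : ℝ) : ℂ) * om‖ ≤ k * (17 / 16 * η) := by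
        rw [norm_mul, Complex.norm_real, Real.norm_eq_abs, abs_of_nonneg (by positivity)]
        exact mul_le_mul hj' h3.le (norm_nonneg _) (by positivity)
      calc _ ≤ ‖φ - x0‖ + ‖(((j : ℝ) + 1 / 2 : ℝ) : ℂ) * om‖ := norm_sub_le _ _
        _ < (s + d / 64) + k * (17 / 16 * η) := by linarith
        _ ≤ d / 4 := by linarith
    · rw [hshim]
      have e3 : 15 / 32 * η < ((j : ℝ) + 1 / 2) * om.im := by nlinarith
      linarith
  -- the extension
  set Gt : ℂ × ℂ → ℂ := fun p => G p.1 (p.2 - (k : ℂ) * p.1) -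
    ∑ j ∈ Finset.range k, p.1 * (B.F f p.1 (Xl p.1 (p.2 - ((j : ℂ) + 1 / 2) * p.1)) - c0 p.1)
    with hGt
  refine ⟨η / 16, by positivity, Gt, ?_, fun _ _ => mem_univ _, ?_⟩
  · rintro ⟨om, φ⟩ ⟨h, hφ⟩
    simp only at h hφ
    obtain ⟨h1, h2, h3⟩ := hom om h
    obtain ⟨p1, p2, p3⟩ := hpt _ φ hφ
    have hkc : (k : ℂ) = ((k : ℝ) : ℂ) := by push_cast; rfl
    have hr : ‖om‖ < B.r / 4 := (mem_ball_zero_iff.1 (hom8 om h)).trans D.dr
    have hk0 : (0 : ℝ) ≤ k := Nat.cast_nonneg k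
    -- `G` at the shifted point
    have a1 : AnalyticAt ℂ (fun p : ℂ × ℂ => G p.1 p.2) (om, φ - (k : ℂ) * om) := by
      apply D.feq.an om _ hr
      rw [hkc, hshim, abs_lt]
      have h4 : (k : ℝ) * om.im ≤ d / 600 := (mul_le_mul_of_nonneg_left h2.le hk0).trans hkη
      have h5 : (4 * B.K + 1) * (15 / 16 * η) ≤ k * om.im :=
        mul_le_mul hk1 h1.le (by positivity) hk0
      have h6 : 2 * B.K * ‖om‖ ≤ 2 * B.K * (17 / 16 * η) :=
        mul_le_mul_of_nonneg_left h3.le (by positivity)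
      constructor
      · nlinarith
      · nlinarith
    have a2 : AnalyticAt ℂ (fun p : ℂ × ℂ => G p.1 (p.2 - (k : ℂ) * p.1)) (om, φ) :=
      AnalyticAt.comp (g := fun p : ℂ × ℂ => G p.1 p.2)
        (f := fun p : ℂ × ℂ => (p.1, p.2 - (k : ℂ) * p.1)) (x := (om, φ)) a1
        (analyticAt_fst.prod (analyticAt_snd.sub (analyticAt_const.mul analyticAt_fst)))
    have hc : AnalyticAt ℂ (fun p : ℂ × ℂ => c0 p.1) (om, φ) :=
      AnalyticAt.comp (g := c0) (f := fun p : ℂ × ℂ => p.1) (x := (om, φ))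
        (D.feq.c0_an om (by
          rw [mem_ball_zero_iff]
          linarith [B.r_pos])) analyticAt_fst
    refine a2.sub (Finset.analyticAt_fun_sum _ fun j hj => ?_)
    have hj' := Finset.mem_range.1 hj
    obtain ⟨q1, q2⟩ := hball _ le_rfl j hj' om h φ hφ
    have a3 := D.Fh_an (hom8 om h) q1 (by
      have := hom2 om h
      linarith)
    have a4 : AnalyticAt ℂ (fun p : ℂ × ℂ =>
        B.F f p.1 (Xl p.1 (p.2 - ((j : ℂ) + 1 / 2) * p.1))) (om, φ) :=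
      AnalyticAt.comp (g := fun p : ℂ × ℂ => B.F f p.1 (Xl p.1 p.2))
        (f := fun p : ℂ × ℂ => (p.1, p.2 - ((j : ℂ) + 1 / 2) * p.1)) (x := (om, φ)) a3
        (analyticAt_fst.prod (analyticAt_snd.sub (analyticAt_const.mul analyticAt_fst)))
    exact analyticAt_fst.mul (a4.sub hc)
  · intro om h
    have hev : ball (I * (η : ℝ) : ℂ) (η / 16) ×ˢ ball φ0 (d / 128) ∈ 𝓝 (om, φ0) :=
      (isOpen_ball.prod isOpen_ball).mem_nhds ⟨h, mem_ball_self (by positivity)⟩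
    filter_upwards [hev] with p hp
    obtain ⟨om', φ⟩ := p
    obtain ⟨h', hφ⟩ := hp
    simp only at h' hφ
    obtain ⟨h1, h2, h3⟩ := hom om' h'
    have hstep : ∀ j ∈ Finset.range k,
        om' * (B.F f om' (Xl om' (φ - ((j : ℂ) + 1 / 2) * om')) - c0 om') =
        G om' (φ - ((j + 1 : ℕ) : ℂ) * om') - G om' (φ - (j : ℂ) * om') := by
      intro j hj
      have hj' := Finset.mem_range.1 hj
      obtain ⟨q1, q2⟩ := hball (d / 128) (by linarith) j hj' om' h' φ hφ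
      have e1 := D.fe_loc (hom8 om' h') q1 (by
        have e2 := hom2 om' h'
        have e3 : 4 * B.K * ‖om'‖ ≤ 4 * B.K * (17 / 16 * η) :=
          mul_le_mul_of_nonneg_left h3.le (by positivity)
        nlinarith)
      rw [← e1]
      congr 2
      · push_cast
        ring
      · ring
    show G om' (φ - (k : ℂ) * om') - ∑ j ∈ Finset.range k,
      om' * (B.F f om' (Xl om' (φ - ((j : ℂ) + 1 / 2) * om')) - c0 om') = G om' φ
    rw [Finset.sum_congr rfl hstep,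
      Finset.sum_range_sub (fun j : ℕ => G om' (φ - (j : ℂ) * om'))]
    simp

end CRD

end Pool.Agent.MP_ae5b4e_an_LOC
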