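import Pool.Agent.Lib.MP_ae5b4e_an_LOC.CRc

/-!
# LOC, LT-6 (CR), part (d): the Hartogs radius and the extension of `G`
-/

set_option autoImplicit false

namespace Pool.Agent.MP_ae5b4e_an_LOC

open Set Metric Complex Filter Topology
open Pool.Agent.Lib.MP_ae5b4e_an_LL (ExtH hrad hdom SubH)

namespace CRD

variable {B : Bg} {t : ℝ} {f : Fin 3 → ℂ → ℂ} {G : ℂ → ℂ → ℂ} {c0 : ℂ → ℂ} {x0 : ℂ} {d : ℝ}
  {psi Xl : ℂ → ℂ → ℂ}

/-- imaginary parts in the discs around `x0 - i d / 64` -/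
theorem pt_im (D : CRD B t f G c0 x0 d psi Xl) {s : ℝ} {φ : ℂ}
    (h : φ ∈ ball (x0 - I * (d / 64 : ℝ)) s) :
    φ.im < t - d / 64 + s ∧ t - d / 64 - s < φ.im := by
  rw [mem_ball, dist_eq_norm] at h
  have h1 := (Complex.abs_im_le_norm (φ - (x0 - I * (d / 64 : ℝ)))).trans_lt h
  have h2 : (x0 - I * (d / 64 : ℝ)).im = t - d / 64 := by simp [D.im]
  rw [Complex.sub_im, h2, abs_lt] at h1
  exact ⟨by linarith [h1.2], by linarith [h1.1]⟩

/-- the trivial lower bound of the radius -/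
theorem low_ext (D : CRD B t f G c0 x0 d psi Xl) {om : ℂ} (hom : ‖om‖ < d / (4096 * B.K)) {s : ℝ}
    (hs0 : 0 < s) (hs : s < d / 64 - 2 * B.K * ‖om‖) :
    ExtH (fun p : ℂ × ℂ => G p.1 p.2) (x0 - I * (d / 64 : ℝ)) univ s om := by
  have hd := D.d_pos
  have hK := D.K0
  have hK1 := B.one_le_K
  have hdt := D.d_t
  have hdr := D.d_r
  set ε : ℝ := (d / 64 - 2 * B.K * ‖om‖ - s) / (4 * B.K) with hε
  have hε0 : 0 < ε := by
    apply div_pos _ (by positivity)
    linarith
  have hε1 : 2 * B.K * ε = (d / 64 - 2 * B.K * ‖om‖ - s) / 2 := by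
    rw [hε]
    field_simp
    ring
  have hεd : ε ≤ d / 256 := by
    rw [hε, div_le_iff₀ (by positivity)]
    have h1 : 0 ≤ 2 * B.K * ‖om‖ := by positivity
    nlinarith
  have homd : ‖om‖ ≤ d / 4096 := by
    have h1 : d / (4096 * B.K) ≤ d / 4096 := by
      apply div_le_div_of_nonneg_left hd.le (by norm_num)
      linarith
    linarith
  have hn : ∀ om' ∈ ball om ε, ‖om'‖ < ‖om‖ + ε := by
    intro om' h
    rw [mem_ball, dist_eq_norm] at h
    calc ‖om'‖ = ‖(om' - om) + om‖ := by rw [sub_add_cancel]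
      _ ≤ ‖om' - om‖ + ‖om‖ := norm_add_le _ _
      _ < ‖om‖ + ε := by linarith
  refine ⟨ε, hε0, fun p => G p.1 p.2, ?_, fun _ _ => mem_univ _, fun _ _ =>
    Eventually.of_forall fun _ => rfl⟩
  rintro ⟨om', φ⟩ ⟨h, hφ⟩
  simp only at h hφ
  have h1 := hn om' h
  obtain ⟨p1, p2⟩ := D.pt_im hφ
  apply D.feq.an om' φ (by linarith)
  have h2 : 2 * B.K * ‖om'‖ < 2 * B.K * ‖om‖ + 2 * B.K * ε := by
    have := mul_lt_mul_of_pos_left h1 (show 0 < 2 * B.K by positivity)
    linarith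
  have h3 : 0 ≤ 2 * B.K * ‖om‖ := by positivity
  rw [abs_lt]
  constructor <;> linarith

theorem low_pos (D : CRD B t f G c0 x0 d psi Xl) {om : ℂ} (hom : ‖om‖ < d / (4096 * B.K)) :
    0 < d / 64 - 2 * B.K * ‖om‖ := by
  have hd := D.d_pos
  have hK := D.K0
  have h1 : ‖om‖ * (4096 * B.K) < d := by rwa [lt_div_iff₀ (by positivity)] at hom
  linarith

/-- the extension for `om = - i η` -/
theorem step_ext' (D : CRD B t f G c0 x0 d psi Xl) {η : ℝ} (hη : 0 < η)
    (hη2 : η ≤ d / (4096 * B.K)) :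
    ExtH (fun p : ℂ × ℂ => G p.1 p.2) (x0 - I * (d / 64 : ℝ)) univ (d / 64 + η / 4)
      (-(I * (η : ℝ))) := by
  obtain ⟨ε, hε, Gt, h1, -, h3⟩ := D.step_ext hη hη2
  have hd := D.d_pos
  have hK := D.K0
  have hK1 := B.one_le_K
  have hdt := D.d_t
  have hdr := D.d_r
  have hKη : B.K * η ≤ d / 4096 := by
    rw [le_div_iff₀ (by positivity)] at hη2
    linarith
  have hηd : η ≤ d / 4096 := by nlinarith
  have hneg : ∀ om ∈ ball (-(I * (η : ℝ)) : ℂ) (min ε η), -om ∈ ball (I * (η : ℝ) : ℂ) ε ∧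
      ‖om‖ < 2 * η := by
    intro om h
    rw [mem_ball, dist_eq_norm] at h
    constructor
    · rw [mem_ball, dist_eq_norm]
      have : -om - I * (η : ℝ) = -(om - -(I * (η : ℝ))) := by ring
      rw [this, norm_neg]
      exact h.trans_le (min_le_left _ _)
    · calc ‖om‖ = ‖(om - -(I * (η : ℝ))) + -(I * (η : ℝ))‖ := by rw [sub_add_cancel]
        _ ≤ ‖om - -(I * (η : ℝ))‖ + ‖-(I * (η : ℝ))‖ := norm_add_le _ _
        _ = ‖om - -(I * (η : ℝ))‖ + η := by
            rw [norm_neg (I * (η : ℝ)), norm_mul, Complex.norm_I, one_mul, Complex.norm_real,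
              Real.norm_eq_abs, abs_of_pos hη]
        _ < 2 * η := by
            have := h.trans_le (min_le_right _ _)
            linarith
  refine ⟨min ε η, lt_min hε hη, fun p => Gt (-p.1, p.2), ?_, fun _ _ => mem_univ _, ?_⟩
  · rintro ⟨om, φ⟩ ⟨h, hφ⟩
    exact AnalyticAt.comp (g := Gt) (f := fun p : ℂ × ℂ => (-p.1, p.2)) (x := (om, φ))
      (h1 (-om, φ) ⟨(hneg om h).1, hφ⟩) (analyticAt_fst.neg.prod analyticAt_snd)
  · intro om h
    have e1 := h3 (-om) (hneg om h).1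
    have htend : Tendsto (fun p : ℂ × ℂ => (-p.1, p.2)) (𝓝 (om, x0 - I * (d / 64 : ℝ)))
        (𝓝 (-om, x0 - I * (d / 64 : ℝ))) := by
      have hc : Continuous (fun p : ℂ × ℂ => (-p.1, p.2)) := by fun_prop
      exact hc.tendsto _
    have e2 := htend.eventually e1
    have e3 : ball (-(I * (η : ℝ)) : ℂ) (min ε η) ×ˢ ball (x0 - I * (d / 64 : ℝ)) (d / 128) ∈
        𝓝 (om, x0 - I * (d / 64 : ℝ)) :=
      (isOpen_ball.prod isOpen_ball).mem_nhds ⟨h, mem_ball_self (by positivity)⟩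
    filter_upwards [e2, e3] with p hp hp2
    obtain ⟨om', φ⟩ := p
    simp only at hp hp2 ⊢
    rw [hp]
    obtain ⟨p1, p2⟩ := D.pt_im hp2.2
    have h4 := (hneg om' hp2.1).2
    have h5 : 2 * B.K * ‖om'‖ ≤ 2 * B.K * (2 * η) := mul_le_mul_of_nonneg_left h4.le (by positivity)
    apply D.feq.even om' φ (by linarith)
    rw [abs_lt]
    constructor <;> nlinarith

/-- THE RADIUS: uniform gain near `om = 0` -/
theorem gain (D : CRD B t f G c0 x0 d psi Xl) {k0 : ℝ} (hk0 : 0 < k0) (hk1 : k0 < 1)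
    (hGQ : ∀ (c R : ℝ) (u : ℂ → ℝ), 0 < c → 0 < R → SubH u (ball 0 R) →
      (∀ om ∈ ball (0 : ℂ) R, u om ≤ 32 * B.K * c * ‖om‖) →
      (∀ om ∈ ball (0 : ℂ) R, om.re = 0 → u om ≤ -c * ‖om‖) →
      ∀ om : ℂ, ‖om‖ ≤ k0 * R → u om ≤ -c * k0 * R) :
    ∀ om : ℂ, ‖om‖ ≤ k0 * (d / (4096 * B.K)) →
      ExtH (fun p : ℂ × ℂ => G p.1 p.2) (x0 - I * (d / 64 : ℝ)) univ
        (d / 64 * (1 + k0 / (1024 * B.K))) om := by
  have hd := D.d_pos
  have hK := D.K0
  have hK1 := B.one_le_K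
  set Φ : ℂ × ℂ → ℂ := fun p => G p.1 p.2 with hΦ
  set φ0 : ℂ := x0 - I * (d / 64 : ℝ) with hφ0
  set R : ℝ := d / (4096 * B.K) with hR
  have hR0 : 0 < R := by positivity
  have hex : ∀ om ∈ ball (0 : ℂ) R, ∃ s > 0, ExtH Φ φ0 univ s om := by
    intro om hom
    rw [mem_ball_zero_iff] at hom
    have h1 := D.low_pos hom
    exact ⟨(d / 64 - 2 * B.K * ‖om‖) / 2, by linarith, D.low_ext hom (by linarith) (by linarith)⟩
  have hY : 0 < d / 32 := by positivity
  have hsub : SubH (fun om => -Real.log (hrad Φ φ0 univ (d / 32) om)) (ball 0 R) :=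
    Pool.Agent.Lib.MP_ae5b4e_an_LL.subH_neg_log_hrad isOpen_ball hY hex
  have hsub2 := hsub.add_const (Real.log (d / 64))
  have hpos : ∀ om ∈ ball (0 : ℂ) R, 0 < hrad Φ φ0 univ (d / 32) om := fun om hom =>
    Pool.Agent.Lib.MP_ae5b4e_an_LL.hrad_pos hY (hex om hom)
  -- the trivial bound
  have hlow : ∀ om ∈ ball (0 : ℂ) R, d / 64 - 2 * B.K * ‖om‖ ≤ hrad Φ φ0 univ (d / 32) om := by
    intro om hom
    rw [mem_ball_zero_iff] at hom
    apply le_of_forall_lt
    intro a ha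
    obtain ⟨s, hs1, hs2⟩ := exists_between (max_lt ha (D.low_pos hom))
    have hs0 : 0 < s := (le_max_right _ _).trans_lt hs1
    have h3 : 0 ≤ 2 * B.K * ‖om‖ := by positivity
    exact ((le_max_left _ _).trans_lt hs1).trans_le
      (Pool.Agent.Lib.MP_ae5b4e_an_LL.le_hrad hs0 (by linarith) (D.low_ext hom hs0 hs2))
  have hu1 : ∀ om ∈ ball (0 : ℂ) R, -Real.log (hrad Φ φ0 univ (d / 32) om) + Real.log (d / 64) ≤
      32 * B.K * (8 / d) * ‖om‖ := by
    intro om hom
    have h1 := hlow om hom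
    rw [mem_ball_zero_iff] at hom
    have h2 := D.low_pos hom
    have h3 := Real.log_le_log h2 h1
    set x := 128 * B.K * ‖om‖ / d with hx
    have hx0 : 0 ≤ x := by positivity
    have hx1 : x ≤ 1 / 2 := by
      rw [hx, div_le_iff₀ hd]
      rw [hR, lt_div_iff₀ (by positivity)] at hom
      linarith
    have e1 : d / 64 - 2 * B.K * ‖om‖ = d / 64 * (1 - x) := by
      rw [hx]
      field_simp
      ring
    rw [e1, Real.log_mul (by positivity) (by linarith)] at h3
    have h4 := Real.one_sub_inv_le_log_of_pos (show 0 < 1 - x by linarith)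
    have h5 : -(2 * x) ≤ 1 - (1 - x)⁻¹ := by
      have h6 : (1 - x)⁻¹ ≤ 1 + 2 * x := by
        rw [inv_le_iff_one_le_mul₀ (by linarith)]
        nlinarith
      linarith
    have h7 : 2 * x = 32 * B.K * (8 / d) * ‖om‖ := by
      rw [hx]
      ring
    linarith
  -- the imaginary axis
  have hax : ∀ om ∈ ball (0 : ℂ) R, om.re = 0 →
      d / 64 + ‖om‖ / 4 ≤ hrad Φ φ0 univ (d / 32) om := by
    intro om hom hre
    rw [mem_ball_zero_iff] at hom
    have hnorm : ‖om‖ = |om.im| := by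
      rw [Complex.norm_eq_sqrt_sq_add_sq, hre]
      simp [Real.sqrt_sq_eq_abs]
    have hRd : R ≤ d / 4096 := by
      rw [hR]
      apply div_le_div_of_nonneg_left hd.le (by norm_num)
      linarith
    have hle : d / 64 + ‖om‖ / 4 ≤ d / 32 := by linarith
    rcases lt_trichotomy om.im 0 with h | h | h
    · have e1 : om = -(I * ((-om.im : ℝ) : ℂ)) := by
        apply Complex.ext <;> simp [hre]
      have e2 : ‖om‖ = -om.im := by rw [hnorm, abs_of_neg h]
      have h3 := D.step_ext' (η := -om.im) (by linarith) (by rw [← e2]; exact hom.le)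
      rw [← e1, ← e2] at h3
      exact Pool.Agent.Lib.MP_ae5b4e_an_LL.le_hrad (by positivity) hle h3
    · have e1 : om = 0 := by
        apply Complex.ext <;> simp [hre, h]
      rw [e1, norm_zero]
      have := hlow 0 (mem_ball_self hR0)
      rw [norm_zero] at this
      linarith
    · have e1 : om = I * ((om.im : ℝ) : ℂ) := by
        apply Complex.ext <;> simp [hre]
      have e2 : ‖om‖ = om.im := by rw [hnorm, abs_of_pos h]
      have h3 := D.step_ext (η := om.im) h (by rw [← e2]; exact hom.le)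
      rw [← e1, ← e2] at h3
      exact Pool.Agent.Lib.MP_ae5b4e_an_LL.le_hrad (by positivity) hle h3
  have hu2 : ∀ om ∈ ball (0 : ℂ) R, om.re = 0 →
      -Real.log (hrad Φ φ0 univ (d / 32) om) + Real.log (d / 64) ≤ -(8 / d) * ‖om‖ := by
    intro om hom hre
    have h1 := hax om hom hre
    rw [mem_ball_zero_iff] at hom
    set x := 16 * ‖om‖ / d with hx
    have hx0 : 0 ≤ x := by positivity
    have hx1 : x ≤ 1 := by
      rw [hx, div_le_iff₀ hd]
      rw [hR, lt_div_iff₀ (by positivity)] at hom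
      have := norm_nonneg om
      nlinarith
    have e1 : d / 64 + ‖om‖ / 4 = d / 64 * (1 + x) := by
      rw [hx]
      field_simp
      ring
    rw [e1] at h1
    have h3 := Real.log_le_log (by positivity) h1
    rw [Real.log_mul (by positivity) (by positivity)] at h3
    have h4 := Real.one_sub_inv_le_log_of_pos (show 0 < 1 + x by linarith)
    have h5 : x / 2 ≤ 1 - (1 + x)⁻¹ := by
      have h6 : (1 + x)⁻¹ ≤ 1 - x / 2 := by
        rw [inv_le_iff_one_le_mul₀ (by linarith)]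
        nlinarith
      linarith
    have h7 : x / 2 = (8 / d) * ‖om‖ := by
      rw [hx]
      ring
    linarith
  have key := hGQ (8 / d) R _ (by positivity) hR0 hsub2 hu1 hu2
  intro om hom
  have h1 := key om hom
  have homR : om ∈ ball (0 : ℂ) R := by
    rw [mem_ball_zero_iff]
    nlinarith
  have h2 : Real.log (d / 64) + 8 / d * k0 * R ≤ Real.log (hrad Φ φ0 univ (d / 32) om) := by
    linarith
  have h3 : 8 / d * k0 * R = k0 / (512 * B.K) := by
    rw [hR]
    field_simp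
    ring
  rw [h3] at h2
  have h4 : d / 64 * (1 + k0 / (1024 * B.K)) < hrad Φ φ0 univ (d / 32) om := by
    have h5 : Real.log (d / 64 * (1 + k0 / (1024 * B.K))) <
        Real.log (hrad Φ φ0 univ (d / 32) om) := by
      rw [Real.log_mul (by positivity) (by positivity)]
      have h6 : Real.log (1 + k0 / (1024 * B.K)) ≤ k0 / (1024 * B.K) := by
        have := Real.log_le_sub_one_of_pos (show 0 < 1 + k0 / (1024 * B.K) by positivity)
        linarith
      have h7 : k0 / (1024 * B.K) < k0 / (512 * B.K) := by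
        apply div_lt_div_of_pos_left hk0 (by positivity)
        linarith
      linarith
    exact (Real.log_lt_log_iff (by positivity) (hpos om homR)).1 h5
  exact Pool.Agent.Lib.MP_ae5b4e_an_LL.extH_of_lt (by positivity) h4

end CRD

end Pool.Agent.MP_ae5b4e_an_LOC
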