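import Mathlib
import Pool.Agent.Lib.MP_ae5b4e_an_LOC.FraG
import Pool.Agent.Lib.MP_ae5b4e_an_NC.End
import Pool.Agent.Lib.MP_ae5b4e_an_RIG.GGau
import Pool.Agent.Lib.MP_ae5b4e_an_FA.Fin

/-!
# MP_ae5b4e_an, project LOC: the pencils are closed, and connected families of solutions

If solutions which are pencils have normal coefficients arbitrarily close (in the sup norm) to those
of a solution, then this solution is a pencil (`pencil_closed`).  With a neighbourhood theorem as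
input, a connected family of solutions which contains a pencil consists of pencils
(`pencil_connected`).
-/

noncomputable section

namespace Pool.Agent.MP_ae5b4e_an_LOC

open Real Set Filter Topology
open scoped ContDiff Matrix
open Pool.Agent.MP_ae5b4e_an_hopf
open Pool.Agent.MP_ae5b4e_an_RG
open Pool.Agent.MP_ae5b4e_an_RIG
open Pool.Agent.MP_ae5b4e_an_NC
open Pool.Agent.MP_ae5b4e_an_MET (conic mem_conic coef coef_apply qform qform_apply QH)

/-- the value of the form with the coefficients `q` is continuous in `q` and in the vector -/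
lemma clo_QH_cont :
    Continuous fun z : (Fin 6 → ℝ) × (Fin 3 → ℝ) => QH z.1 (z.2 0) (z.2 1) (z.2 2) := by
  unfold QH
  fun_prop

lemma clo_coef_ne {C : QuadraticForm ℝ (Fin 3 → ℝ)} (hC : C ≠ 0) : coef C ≠ 0 := fun h => hC (by
  ext v
  rw [coef_apply, h]
  simp [QH])

lemma clo_qform_ne {q : Fin 6 → ℝ} (hq : q ≠ 0) : qform q ≠ 0 := fun h => hq (by
  have key : ∀ v : Fin 3 → ℝ, QH q (v 0) (v 1) (v 2) = 0 := fun v => by
    rw [← qform_apply, h]
    rfl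
  have k0 := key ![1, 0, 0]
  have k1 := key ![0, 1, 0]
  have k2 := key ![0, 0, 1]
  have k3 := key ![1, 1, 0]
  have k4 := key ![1, 0, 1]
  have k5 := key ![0, 1, 1]
  simp only [QH, Matrix.cons_val_zero, Matrix.cons_val_one, Matrix.cons_val] at k0 k1 k2 k3 k4 k5
  have e0 : q 0 = 0 := by linarith
  have e2 : q 2 = 0 := by linarith
  have e5 : q 5 = 0 := by linarith
  have e1 : q 1 = 0 := by linarith
  have e3 : q 3 = 0 := by linarith
  have e4 : q 4 = 0 := by linarith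
  funext i
  fin_cases i
  · exact e0
  · exact e1
  · exact e2
  · exact e3
  · exact e4
  · exact e5)

/-- **Closedness for curves**: a limit of curves on conics lies on a conic. -/
theorem conic_closed {P0 : ℝ → Fin 3 → ℝ} {r0 m0 : ℝ → ℝ} (h : Curve 1 P0)
    (hW : ∀ x, Wr P0 x = 1)
    (hode : ∀ x, deriv (deriv (deriv P0)) x = -(r0 x) • deriv P0 x - m0 x • P0 x)
    {K : ℝ} (hr0 : ∀ x, |r0 x| ≤ K) (hm0 : ∀ x, |m0 x| ≤ K)
    (H : ∀ ε > 0, ∃ (P : ℝ → Fin 3 → ℝ) (r m : ℝ → ℝ) (C : QuadraticForm ℝ (Fin 3 → ℝ)),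
      Curve 1 P ∧ (∀ x, Wr P x = 1) ∧
      (∀ x, deriv (deriv (deriv P)) x = -(r x) • deriv P x - m x • P x) ∧
      (∀ x, |r x - r0 x| ≤ ε) ∧ (∀ x, |m x - m0 x| ≤ ε) ∧ C ≠ 0 ∧ ∀ x, C (P x) = 0) :
    ∃ C : QuadraticForm ℝ (Fin 3 → ℝ), C ≠ 0 ∧ ∀ x, C (P0 x) = 0 := by
  obtain ⟨B, hB, F⟩ := fra_bg h hW hode hr0 hm0
  have key : ∀ n : ℕ, ∃ (q : Fin 6 → ℝ) (P : ℝ → Fin 3 → ℝ), ‖q‖ = 1 ∧
      (∀ x, QH q (P x 0) (P x 1) (P x 2) = 0) ∧ ∀ x, ‖P x - P0 x‖ ≤ B * (1 / ((n:ℝ) + 1)) := by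
    intro n
    have hn : (0:ℝ) < 1 / ((n:ℝ) + 1) := by positivity
    have hn1 : (1:ℝ) / ((n:ℝ) + 1) ≤ 1 := by
      rw [div_le_one (by positivity)]
      have : (0:ℝ) ≤ n := Nat.cast_nonneg n
      linarith
    obtain ⟨P, r, m, C, k, kW, kode, hr, hm, hC, hCP⟩ := H _ hn
    obtain ⟨M, hM, -, -, -, -, hclose⟩ := F _ hn1 P r m k kW kode hr hm
    have hMu : IsUnit M.det := by
      rw [hM]
      exact isUnit_one
    -- the form in the new frame
    have hne : C.comp (Matrix.toLin' M⁻¹) ≠ 0 := fun h0 => hC (by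
      ext v
      have h1 := congrArg (fun Q : QuadraticForm ℝ (Fin 3 → ℝ) => Q (M *ᵥ v)) h0
      simp only [QuadraticMap.comp_apply, Matrix.toLin'_apply, Matrix.mulVec_mulVec] at h1
      rw [Matrix.nonsing_inv_mul _ hMu, Matrix.one_mulVec] at h1
      exact h1)
    set c := coef (C.comp (Matrix.toLin' M⁻¹)) with hc
    have hc0 : c ≠ 0 := clo_coef_ne hne
    have hcn : ‖c‖ ≠ 0 := norm_ne_zero_iff.2 hc0
    refine ⟨‖c‖⁻¹ • c, fun x => M *ᵥ P x, ?_, fun x => ?_, fun x => (hclose x).1⟩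
    · rw [norm_smul, norm_inv, norm_norm, inv_mul_cancel₀ hcn]
    · have h1 : (C.comp (Matrix.toLin' M⁻¹)) (M *ᵥ P x) = 0 := by
        rw [QuadraticMap.comp_apply, Matrix.toLin'_apply, Matrix.mulVec_mulVec,
          Matrix.nonsing_inv_mul _ hMu, Matrix.one_mulVec]
        exact hCP x
      rw [coef_apply, ← hc] at h1
      have h2 : QH (‖c‖⁻¹ • c) ((M *ᵥ P x) 0) ((M *ᵥ P x) 1) ((M *ᵥ P x) 2) =
          ‖c‖⁻¹ * QH c ((M *ᵥ P x) 0) ((M *ᵥ P x) 1) ((M *ᵥ P x) 2) := by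
        simp only [QH, Pi.smul_apply, smul_eq_mul]
        ring
      rw [h2, h1, mul_zero]
  choose q P hq hqP hP using key
  obtain ⟨a, ha, φ, hφ, hlim⟩ := (isCompact_sphere (0 : Fin 6 → ℝ) 1).tendsto_subseq
    (fun n => mem_sphere_zero_iff_norm.2 (hq n))
  have ha1 : ‖a‖ = 1 := mem_sphere_zero_iff_norm.1 ha
  have ha0 : a ≠ 0 := by
    intro h0
    rw [h0, norm_zero] at ha1
    exact zero_ne_one ha1
  refine ⟨qform a, clo_qform_ne ha0, fun x => ?_⟩
  rw [qform_apply]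
  have h1 : Tendsto (fun n : ℕ => B * (1 / ((n:ℝ) + 1))) atTop (𝓝 0) := by
    have := (tendsto_one_div_add_atTop_nhds_zero_nat (𝕜 := ℝ)).const_mul B
    rwa [mul_zero] at this
  have h2 : Tendsto (fun n => P n x) atTop (𝓝 (P0 x)) := by
    rw [tendsto_iff_norm_sub_tendsto_zero]
    exact squeeze_zero (fun n => norm_nonneg _) (fun n => hP n x) h1
  have h3 : Tendsto (fun n => (q (φ n), P (φ n) x)) atTop (𝓝 (a, P0 x)) :=
    hlim.prodMk_nhds (h2.comp hφ.tendsto_atTop)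
  have h4 := (clo_QH_cont.tendsto (a, P0 x)).comp h3
  have h5 : (fun z : (Fin 6 → ℝ) × (Fin 3 → ℝ) => QH z.1 (z.2 0) (z.2 1) (z.2 2)) ∘
      (fun n => (q (φ n), P (φ n) x)) = fun _ => 0 := by
    funext n
    exact hqP (φ n) x
  rw [h5] at h4
  exact tendsto_nhds_unique h4 tendsto_const_nhds

/-- the curve of a pencil lies on a conic -/
lemma clo_pencil_form {γ : ConvexCurve} {U : ℝ → ℝ → ℝ} (h : Pencil γ U) :
    ∃ C : QuadraticForm ℝ (Fin 3 → ℝ), C ≠ 0 ∧ ∀ t, C (γ.Γ t) = 0 := by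
  obtain ⟨Q, E, hE, htr, -, -⟩ := h
  refine ⟨E, ?_, fun t => ?_⟩
  · rintro rfl
    have : Invertible (2:ℝ) := invertibleOfNonzero two_ne_zero
    rw [QuadraticMap.nondegenerate_iff_radical_eq_bot, eq_bot_iff] at hE
    have h3 : (![1, 0, 0] : Fin 3 → ℝ) ∈ (0 : QuadraticForm ℝ (Fin 3 → ℝ)).radical := by
      rw [QuadraticMap.mem_radical_iff']
      exact ⟨rfl, fun w => rfl⟩
    have h4 := hE h3
    rw [Submodule.mem_bot] at h4
    have h5 := congrFun h4 0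
    simp at h5
  · have h1 : Projectivization.mk ℝ ![γ.x t, γ.y t, 1] (γ.avec_ne t) ∈ conic E := by
      rw [← htr]
      exact ⟨t, rfl⟩
    exact (mem_conic E _).1 h1

/-- the normalized lift of a pencil lies on a cone -/
lemma clo_pencil_lift {γ : ConvexCurve} {U : ℝ → ℝ → ℝ} (h : Pencil γ U) (σ lam : ℝ → ℝ) :
    ∃ C : QuadraticForm ℝ (Fin 3 → ℝ), C ≠ 0 ∧ ∀ x, C (lift γ σ lam x) = 0 := by
  obtain ⟨C, hC, hC'⟩ := clo_pencil_form h
  refine ⟨C, hC, fun x => ?_⟩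
  unfold lift
  rw [QuadraticMap.map_smul, hC', smul_zero]

/-- a periodic continuous function is bounded -/
lemma clo_exists_bd {f : ℝ → ℝ} (hf : Continuous f) (hp : Function.Periodic f 1) :
    ∃ K : ℝ, ∀ x, |f x| ≤ K := by
  obtain ⟨B, hB⟩ := (isCompact_Icc (a := (0:ℝ)) (b := 1)).exists_bound_of_continuousOn
    hf.continuousOn
  refine ⟨B, fun x => ?_⟩
  obtain ⟨y, hy, hy'⟩ := hp.exists_mem_Ico₀ one_pos x
  rw [hy']
  exact hB y (Ico_subset_Icc_self hy)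

/-- **Closedness**: a solution whose normal coefficients are the uniform limits of the normal
coefficients of pencils is a pencil. -/
theorem pencil_closed {γ₀ : ConvexCurve} {U₀ : ℝ → ℝ → ℝ} {κ₀ σ₀ lam₀ r₀ m₀ : ℝ → ℝ}
    (h : Sol γ₀ U₀ κ₀) (hN : Normal γ₀ κ₀ σ₀ lam₀ r₀ m₀)
    (H : ∀ ε > 0, ∃ (γ : ConvexCurve) (U : ℝ → ℝ → ℝ) (κ σ lam r m : ℝ → ℝ), Sol γ U κ ∧
      Normal γ κ σ lam r m ∧ (∀ x, |r x - r₀ x| ≤ ε) ∧ (∀ x, |m x - m₀ x| ≤ ε) ∧
      Pencil γ U) : Pencil γ₀ U₀ := by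
  obtain ⟨K1, hK1⟩ := clo_exists_bd hN.smooth_r.continuous hN.per_r
  obtain ⟨K2, hK2⟩ := clo_exists_bd hN.smooth_m.continuous hN.per_m
  obtain ⟨C, hC, hC'⟩ := conic_closed (K := max K1 K2) (hN.lsys h).curve hN.wr hN.ode
    (fun x => (hK1 x).trans (le_max_left _ _)) (fun x => (hK2 x).trans (le_max_right _ _))
    (fun ε hε => by
      obtain ⟨γ, U, κ, σ, lam, r, m, k, kN, hr, hm, hP⟩ := H ε hε
      obtain ⟨C, hC, hC'⟩ := clo_pencil_lift hP σ lam
      exact ⟨_, r, m, C, (kN.lsys k).curve, kN.wr, kN.ode, hr, hm, hC, hC'⟩)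
  exact Pool.Agent.MP_ae5b4e_an_FA.conic_all γ₀
    ⟨h.cont, h.per, h.simple, fun c hc c' hc' hcc t => h.anti t hc hc' hcc, h.lim, h.proj⟩
    h.reg hC (t₀ := 0) (Eventually.of_forall (cone_curve hN hC'))

/-- **Connected families**: a connected family of solutions, whose normal coefficients depend
continuously on the member in the sup norm, and in which the pencils are an open set, consists of
pencils if one member is a pencil. -/
theorem pencil_connected {X : Type*} [TopologicalSpace X] [PreconnectedSpace X]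
    {γ : X → ConvexCurve} {U : X → ℝ → ℝ → ℝ} {κ σ lam r m : X → ℝ → ℝ}
    (h : ∀ a, Sol (γ a) (U a) (κ a)) (hN : ∀ a, Normal (γ a) (κ a) (σ a) (lam a) (r a) (m a))
    (hc : ∀ a, ∀ ε > 0, ∀ᶠ b in 𝓝 a, (∀ x, |r b x - r a x| ≤ ε) ∧ ∀ x, |m b x - m a x| ≤ ε)
    (ho : ∀ a, Pencil (γ a) (U a) → ∀ᶠ b in 𝓝 a, Pencil (γ b) (U b))
    {a : X} (ha : Pencil (γ a) (U a)) (b : X) : Pencil (γ b) (U b) := by
  set T : Set X := {a | Pencil (γ a) (U a)} with hT
  have h1 : IsOpen T := isOpen_iff_mem_nhds.2 fun a ha => ho a ha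
  have h2 : IsClosed T := by
    refine isClosed_of_closure_subset fun a ha => ?_
    refine pencil_closed (h a) (hN a) fun ε hε => ?_
    obtain ⟨b, hb1, hb2⟩ := mem_closure_iff_nhds.1 ha _ (hc a ε hε)
    exact ⟨γ b, U b, κ b, σ b, lam b, r b, m b, h b, hN b, hb1.1, hb1.2, hb2⟩
  have h3 : T = univ := IsClopen.eq_univ ⟨h2, h1⟩ ⟨a, ha⟩
  have h4 : b ∈ T := by
    rw [h3]
    exact mem_univ b
  exact h4

end Pool.Agent.MP_ae5b4e_an_LOC
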