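import Mathlib

/-!
# LOC: general lemmas of complex analysis

`sin_lower`: lower bound of `sin (π z)` on the circles `‖z‖ = N + 1/2`;
`prod_max`: the maximum principle for the product of `N` rotated copies;
`shift_line`, `coeff_le`: Fourier coefficients of analytic functions in a strip;
`strip_ext`: functions with exponentially decaying coefficients;
`disc_ext`: Taylor coefficients with a geometric bound.
-/

set_option autoImplicit false

noncomputable section

namespace Pool.Agent.MP_ae5b4e_an_LOC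

open Set Metric Complex ComplexConjugate Filter Topology MeasureTheory intervalIntegral

/-! ### the sine -/

lemma normSq_sin (z : ℂ) : ‖Complex.sin z‖ ^ 2 = Real.sin z.re ^ 2 + Real.sinh z.im ^ 2 := by
  have h1 : Complex.sin z = ((Real.sin z.re * Real.cosh z.im : ℝ) : ℂ) +
      ((Real.cos z.re * Real.sinh z.im : ℝ) : ℂ) * I := by
    rw [Complex.sin_eq]
    push_cast
    ring
  rw [Complex.sq_norm, h1, Complex.normSq_add_mul_I]
  have h2 := Real.sin_sq_add_cos_sq z.re
  have h3 := Real.cosh_sq z.im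
  have h4 : Real.cos z.re ^ 2 = 1 - Real.sin z.re ^ 2 := by linarith
  rw [mul_pow, mul_pow, h3, h4]
  ring

lemma sinh_abs_le_norm_sin (z : ℂ) : Real.sinh |z.im| ≤ ‖Complex.sin z‖ := by
  have h1 := normSq_sin z
  have h2 : Real.sinh |z.im| ^ 2 = Real.sinh z.im ^ 2 := by
    rcases abs_choice z.im with h | h <;> rw [h]
    rw [Real.sinh_neg, neg_sq]
  have h3 : Real.sinh |z.im| ^ 2 ≤ ‖Complex.sin z‖ ^ 2 := by
    rw [h1, h2]
    have := sq_nonneg (Real.sin z.re)
    linarith
  exact le_of_sq_le_sq h3 (norm_nonneg _)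

/-- the sine on the circles which avoid its zeros -/
theorem sin_lower {z : ℂ} {N : ℕ} (h : ‖z‖ = N + 1 / 2) :
    Real.exp (Real.pi * |z.im|) / 8 ≤ ‖Complex.sin (Real.pi * z)‖ := by
  have hπ := Real.pi_gt_three
  have him : ((Real.pi : ℂ) * z).im = Real.pi * z.im := by simp
  have hre : ((Real.pi : ℂ) * z).re = Real.pi * z.re := by simp
  have hN : (0:ℝ) ≤ N := Nat.cast_nonneg N
  rcases le_or_gt (1 / 4) |z.im| with hy | hy
  · refine le_trans ?_ (sinh_abs_le_norm_sin _)
    rw [him, abs_mul, abs_of_pos Real.pi_pos, Real.sinh_eq]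
    set u : ℝ := Real.exp (Real.pi * |z.im|) with hu
    have h1 : Real.exp (-(Real.pi * |z.im|)) = u⁻¹ := by rw [Real.exp_neg]
    rw [h1]
    have hu1 : 7 / 4 ≤ u := by
      have := Real.add_one_le_exp (Real.pi * |z.im|)
      nlinarith
    have h2 : u⁻¹ ≤ 4 / 7 := by
      rw [inv_le_comm₀ (by linarith) (by norm_num)]
      linarith
    linarith
  · have h1 : z.re ^ 2 + z.im ^ 2 = (N + 1 / 2) ^ 2 := by
      rw [← h, Complex.sq_norm, Complex.normSq_apply]
      ring
    have h2 : z.im ^ 2 < 1 / 16 := by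
      have := sq_lt_sq' (by linarith [abs_nonneg z.im]) hy
      rw [sq_abs] at this
      linarith
    set x : ℝ := |z.re| with hx
    have hx2 : x ^ 2 = z.re ^ 2 := sq_abs _
    have hx0 : 0 ≤ x := abs_nonneg _
    have h3 : (N:ℝ) + 3 / 8 ≤ x := by
      by_contra hc
      rw [not_le] at hc
      nlinarith
    have h4 : x ≤ N + 1 / 2 := by
      by_contra hc
      rw [not_le] at hc
      nlinarith [sq_nonneg z.im]
    -- the sine of the real part
    have h5 : (3 / 4 : ℝ) ≤ Real.sin (Real.pi * (x - N)) := by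
      have := Real.mul_le_sin (x := Real.pi * (x - N)) (by nlinarith) (by nlinarith)
      have h6 : 2 / Real.pi * (Real.pi * (x - N)) = 2 * (x - N) := by field_simp
      rw [h6] at this
      linarith
    have h6 : Real.sin (Real.pi * z.re) ^ 2 = Real.sin (Real.pi * (x - N)) ^ 2 := by
      have e1 : Real.sin (Real.pi * z.re) ^ 2 = Real.sin (Real.pi * x) ^ 2 := by
        rcases abs_choice z.re with h | h
        · rw [hx, h]
        · rw [hx, h, mul_neg, Real.sin_neg, neg_sq]
      rw [e1]
      have e2 : Real.pi * x = Real.pi * (x - N) + N * Real.pi := by ring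
      rw [e2, Real.sin_add_nat_mul_pi, mul_pow, ← pow_mul, mul_comm N 2, pow_mul]
      norm_num
    have h7 : (9 / 16 : ℝ) ≤ ‖Complex.sin (Real.pi * z)‖ ^ 2 := by
      rw [normSq_sin, hre, h6]
      have := sq_nonneg (Real.sinh ((Real.pi : ℂ) * z).im)
      nlinarith
    have h8 : (3 / 4 : ℝ) ≤ ‖Complex.sin (Real.pi * z)‖ := by
      have := norm_nonneg (Complex.sin (Real.pi * z))
      nlinarith
    refine le_trans ?_ h8
    have h9 : Real.exp (Real.pi * |z.im|) ≤ Real.exp 1 := by
      refine Real.exp_le_exp.2 ?_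
      have := Real.pi_lt_d2
      nlinarith [abs_nonneg z.im]
    have h10 := Real.exp_one_lt_d9
    linarith

/-! ### the maximum principle for products of rotated copies -/

theorem prod_max {g : ℂ → ℂ} {w : ℂ} {R : ℝ} (hR : 0 < R) (hg : DiffContOnCl ℂ g (ball w R))
    {N : ℕ} (hN : 0 < N) {B : ℂ → ℝ} (hB : ∀ z : ℂ, ‖z‖ = R → ‖g (w + z)‖ ≤ B z) {M : ℝ}
    (hM0 : 0 ≤ M)
    (hM : ∀ z : ℂ, ‖z‖ = R →
      ∏ j ∈ Finset.range N, B (z * Complex.exp (2 * Real.pi * I * (j / N))) ≤ M ^ N) :
    ‖g w‖ ≤ M := by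
  set ζ : ℕ → ℂ := fun j => Complex.exp (2 * Real.pi * I * (j / N)) with hζ
  have hζn : ∀ j, ‖ζ j‖ = 1 := by
    intro j
    have : (2 * Real.pi * I * (j / N) : ℂ) = ((2 * Real.pi * (j / N) : ℝ) : ℂ) * I := by
      push_cast
      ring
    rw [hζ]
    simp only
    rw [this]
    exact Complex.norm_exp_ofReal_mul_I _
  set G : ℂ → ℂ := fun z => ∏ j ∈ Finset.range N, g (w + z * ζ j) with hG
  have hmaps : ∀ j, MapsTo (fun z => w + z * ζ j) (ball 0 R) (ball w R) := by
    intro j z hz
    rw [mem_ball, dist_eq_norm] at *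
    rw [add_sub_cancel_left, norm_mul, hζn, mul_one]
    simpa using hz
  have hmapsc : ∀ j, MapsTo (fun z => w + z * ζ j) (closedBall 0 R) (closedBall w R) := by
    intro j z hz
    rw [mem_closedBall, dist_eq_norm] at *
    rw [add_sub_cancel_left, norm_mul, hζn, mul_one]
    simpa using hz
  have hGd : DiffContOnCl ℂ G (ball 0 R) := by
    constructor
    · refine DifferentiableOn.fun_finset_prod fun j _ => ?_
      exact hg.differentiableOn.comp (by fun_prop) (hmaps j)
    · rw [closure_ball _ hR.ne']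
      refine continuousOn_finset_prod _ fun j _ => ?_
      have hc := hg.continuousOn_ball
      exact hc.comp (by fun_prop) (hmapsc j)
  have hb : ∀ z ∈ frontier (ball (0:ℂ) R), ‖G z‖ ≤ M ^ N := by
    intro z hz
    rw [frontier_ball _ hR.ne', mem_sphere_zero_iff_norm] at hz
    rw [hG]
    simp only [norm_prod]
    refine le_trans (Finset.prod_le_prod (fun _ _ => norm_nonneg _) fun j _ => ?_) (hM z hz)
    refine hB _ ?_
    rw [norm_mul, hζn, mul_one, hz]
  have h0 := Complex.norm_le_of_forall_mem_frontier_norm_le isBounded_ball hGd hb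
    (subset_closure (mem_ball_self hR))
  have h1 : G 0 = g w ^ N := by
    rw [hG]
    simp
  rw [h1, norm_pow] at h0
  exact le_of_pow_le_pow_left₀ hN.ne' hM0 h0

end Pool.Agent.MP_ae5b4e_an_LOC
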