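import Pool.Agent.Lib.MP_ae5b4e_an_LOC.Cm1
import Pool.Agent.Lib.MP_ae5b4e_an_LOC.Div
import Pool.Agent.Lib.SCV.Osgood

/-!
# LOC, LT-4: series in two variables, the functions `G m`
-/

set_option autoImplicit false

namespace Pool.Agent.MP_ae5b4e_an_LOC

open Set Metric Complex ComplexConjugate Filter Topology MeasureTheory intervalIntegral

/-! ### series -/

/-- a locally normally convergent series of analytic functions of two variables -/
theorem ser_an {U : Set (ℂ × ℂ)} (hU : IsOpen U) {F : ℤ → ℂ × ℂ → ℂ}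
    (hF : ∀ m, AnalyticOnNhd ℂ (F m) U)
    (hb : ∀ p0 ∈ U, ∃ V ∈ 𝓝 p0, ∃ u : ℤ → ℝ, Summable u ∧ ∀ m, ∀ p ∈ V, ‖F m p‖ ≤ u m) :
    AnalyticOnNhd ℂ (fun p => ∑' m, F m p) U := by
  refine Pool.Agent.SCV.analyticOnNhd_of_tendstoLocallyUniformlyOn U hU (l := atTop)
    (fun (s : Finset ℤ) p => ∑ m ∈ s, F m p) _ ?_ ?_
  · intro s
    exact Finset.analyticOnNhd_fun_sum _ fun m _ => hF m
  · intro u hu x hx
    obtain ⟨V, hV, w, hw, hFw⟩ := hb x hx
    exact ⟨V, mem_nhdsWithin_of_mem_nhds hV, (tendstoUniformlyOn_tsum hw hFw) u hu⟩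

theorem summable_geo (C : ℝ) {δ : ℝ} (hδ : 0 < δ) :
    Summable fun m : ℤ => C * Real.exp (-(2 * Real.pi * |(m:ℝ)| * δ)) := by
  refine Summable.mul_left _ ?_
  have h1 : Real.exp (-(2 * Real.pi * δ)) < 1 := by
    rw [Real.exp_lt_one_iff]
    have : 0 < 2 * Real.pi * δ := by positivity
    linarith
  have h2 : Summable fun n : ℕ => Real.exp (-(2 * Real.pi * δ)) ^ n :=
    summable_geometric_of_lt_one (Real.exp_pos _).le h1
  refine Summable.of_nat_of_neg ?_ ?_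
  · refine h2.congr fun n => ?_
    rw [← Real.exp_nat_mul, Int.cast_natCast, abs_of_nonneg (Nat.cast_nonneg n)]
    congr 1
    ring
  · refine h2.congr fun n => ?_
    rw [← Real.exp_nat_mul, Int.cast_neg, Int.cast_natCast, abs_neg,
      abs_of_nonneg (Nat.cast_nonneg n)]
    congr 1
    ring

theorem norm_exp_mul (m : ℤ) (z : ℂ) :
    ‖exp (2 * Real.pi * I * m * z)‖ ≤ Real.exp (2 * Real.pi * |(m:ℝ)| * |z.im|) := by
  rw [Complex.norm_exp, Real.exp_le_exp]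
  have h1 : 2 * Real.pi * I * m * z = ((2 * Real.pi * m : ℝ) : ℂ) * (I * z) := by
    push_cast
    ring
  rw [h1, Complex.re_ofReal_mul]
  have h2 : (I * z).re = -z.im := by simp
  rw [h2]
  have h3 : -((m:ℝ) * z.im) ≤ |(m:ℝ)| * |z.im| := by
    rw [← abs_mul]
    exact neg_le_abs _
  have h4 : (0:ℝ) ≤ 2 * Real.pi := by positivity
  nlinarith [mul_le_mul_of_nonneg_left h3 h4]

theorem exp_one_per (m : ℤ) (z : ℂ) :
    exp (2 * Real.pi * I * m * (z + 1)) = exp (2 * Real.pi * I * m * z) := by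
  have h1 : 2 * Real.pi * I * m * (z + 1) =
      2 * Real.pi * I * m * z + (m : ℂ) * (2 * Real.pi * I) := by
    ring
  rw [h1, Complex.exp_add, Complex.exp_int_mul_two_pi_mul_I, mul_one]

/-- decay of a family of coefficients -/
def Dec (K t R : ℝ) (c : ℤ → ℂ → ℂ) : Prop := ∀ h1 < t, ∃ C : ℝ, 0 < C ∧
  ∀ (m : ℤ) (om : ℂ), ‖om‖ ≤ R →
    ‖c m om‖ ≤ C * Real.exp (-(2 * Real.pi * |(m:ℝ)| * (h1 - 2 * K * ‖om‖)))

section
variable {K t R : ℝ} {c : ℤ → ℂ → ℂ}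

theorem ser_term {C h1 δ : ℝ} (hC : 0 < C)
    (hc : ∀ (m : ℤ) (om : ℂ), ‖om‖ ≤ R →
    ‖c m om‖ ≤ C * Real.exp (-(2 * Real.pi * |(m:ℝ)| * (h1 - 2 * K * ‖om‖)))) {om φ : ℂ}
    (hom : ‖om‖ ≤ R) (h : δ ≤ h1 - 2 * K * ‖om‖ - |φ.im|) (m : ℤ) :
    ‖c m om * exp (2 * Real.pi * I * m * φ)‖ ≤ C * Real.exp (-(2 * Real.pi * |(m:ℝ)| * δ)) := by
  rw [norm_mul]
  calc ‖c m om‖ * ‖exp (2 * Real.pi * I * m * φ)‖
      ≤ (C * Real.exp (-(2 * Real.pi * |(m:ℝ)| * (h1 - 2 * K * ‖om‖)))) *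
        Real.exp (2 * Real.pi * |(m:ℝ)| * |φ.im|) := by
        refine mul_le_mul (hc m om hom) (norm_exp_mul m φ) (norm_nonneg _) (by positivity)
    _ = C * Real.exp (-(2 * Real.pi * |(m:ℝ)| * (h1 - 2 * K * ‖om‖ - |φ.im|))) := by
        rw [mul_assoc, ← Real.exp_add]
        congr 2
        ring
    _ ≤ _ := by
        refine mul_le_mul_of_nonneg_left ?_ hC.le
        rw [Real.exp_le_exp]
        have : 0 ≤ 2 * Real.pi * |(m:ℝ)| := by positivity
        nlinarith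

theorem ser_summable (hc : Dec K t R c) {om φ : ℂ} (h1 : ‖om‖ ≤ R)
    (h2 : |φ.im| < t - 2 * K * ‖om‖) :
    Summable fun m : ℤ => c m om * exp (2 * Real.pi * I * m * φ) := by
  set g : ℝ := t - 2 * K * ‖om‖ - |φ.im| with hg
  have hg0 : 0 < g := by linarith
  obtain ⟨C, hC, hcC⟩ := hc (t - g / 3) (by linarith)
  refine Summable.of_norm_bounded (summable_geo C (δ := g / 3) (by linarith)) fun m => ?_
  exact ser_term hC hcC h1 (by linarith) m

theorem ser_analytic (hc : Dec K t R c) (hd : ∀ m, DifferentiableOn ℂ (c m) (ball 0 R))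
    {om φ : ℂ} (h1 : ‖om‖ < R) (h2 : |φ.im| < t - 2 * K * ‖om‖) :
    AnalyticAt ℂ (fun p : ℂ × ℂ => ∑' m : ℤ, c m p.1 * exp (2 * Real.pi * I * m * p.2)) (om, φ) := by
  have hc1 : Continuous (fun p : ℂ × ℂ => ‖p.1‖) := continuous_norm.comp continuous_fst
  have hc2 : Continuous (fun p : ℂ × ℂ => |p.2.im|) :=
    continuous_abs.comp (Complex.continuous_im.comp continuous_snd)
  have hopen : ∀ s : ℝ, IsOpen {p : ℂ × ℂ | ‖p.1‖ < R ∧ |p.2.im| < s - 2 * K * ‖p.1‖} := by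
    intro s
    exact (isOpen_lt hc1 continuous_const).inter
      (isOpen_lt hc2 (continuous_const.sub (continuous_const.mul hc1)))
  refine ser_an (hopen t) (F := fun (m : ℤ) (p : ℂ × ℂ) =>
    c m p.1 * exp (2 * Real.pi * I * m * p.2)) ?_ ?_ (om, φ) ⟨h1, h2⟩
  · rintro m ⟨a, b⟩ ⟨ha, hb⟩
    have e1 : AnalyticAt ℂ (c m) a := (hd m).analyticAt (isOpen_ball.mem_nhds (by simpa using ha))
    have e2 : AnalyticAt ℂ (fun p : ℂ × ℂ => c m p.1) (a, b) :=
      AnalyticAt.comp (g := c m) (f := fun p : ℂ × ℂ => p.1) e1 analyticAt_fst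
    exact e2.mul ((analyticAt_const.mul analyticAt_snd).cexp)
  · rintro ⟨a, b⟩ ⟨ha, hb⟩
    simp only at ha hb
    set g : ℝ := t - 2 * K * ‖a‖ - |b.im| with hg
    have hg0 : 0 < g := by linarith
    obtain ⟨C, hC, hcC⟩ := hc (t - g / 3) (by linarith)
    refine ⟨{p : ℂ × ℂ | ‖p.1‖ < R ∧ |p.2.im| < t - g / 3 - g / 3 - 2 * K * ‖p.1‖},
      (hopen _).mem_nhds ⟨ha, ?_⟩, fun m => C * Real.exp (-(2 * Real.pi * |(m:ℝ)| * (g / 3))),
      summable_geo C (by linarith), ?_⟩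
    · simp only
      linarith
    · rintro m ⟨a', b'⟩ ⟨ha', hb'⟩
      simp only at ha' hb'
      exact ser_term hC hcC ha'.le (by linarith) m

end

namespace Bg

variable {B : Bg} {t : ℝ} {f : Fin 3 → ℂ → ℂ}

theorem cm_dec (ht : 0 < t) (hth : t ≤ B.h) (S : Sol B t f) : Dec B.K t (B.r / 2) (B.cm f) :=
  fun _ h => cm_bound ht hth S h

/-- LT-4: the functions `G m` -/
theorem exists_Gm1 (ht : 0 < t) (S : Sol B t f) {m : ℤ} (hm : m ≠ 0) :
    ∃ G : ℂ → ℂ, DifferentiableOn ℂ G (ball 0 B.r) ∧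
      (∀ om ∈ ball (0:ℂ) B.r, -2 * I * sin (Real.pi * m * om) * G om = om * B.cm f m om) ∧
      ∀ (om : ℂ) (M : ℝ), ‖om‖ + 1 / |(m:ℝ)| < B.r →
        (∀ w : ℂ, ‖w - om‖ ≤ 1 / |(m:ℝ)| → ‖w * B.cm f m w‖ ≤ M) → ‖G om‖ ≤ M / 2 := by
  have hn : 1 ≤ m.natAbs := Int.natAbs_pos.2 hm
  have hnR : ((m.natAbs : ℕ) : ℝ) = |(m:ℝ)| := by
    rw [Nat.cast_natAbs, Int.cast_abs]
  have hnC : ((m.natAbs : ℕ) : ℂ) = ((|m| : ℤ) : ℂ) := by
    rw [Nat.cast_natAbs]
  have hn0 : 0 < |(m:ℝ)| := abs_pos.2 (Int.cast_ne_zero.2 hm)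
  have hpos : ∀ p : ℤ, 0 < p → (p : ℝ) < B.r * |(m:ℝ)| →
      B.cm f m ((p : ℂ) / ((m.natAbs : ℕ) : ℂ)) = 0 := by
    intro p hp hlt
    have hp2 : (p.toNat : ℤ) = p := Int.toNat_of_nonneg hp.le
    have hp3 : ((p.toNat : ℕ) : ℝ) = (p : ℝ) := by
      rw [← Int.cast_natCast, hp2]
    have hp4 : ((p.toNat : ℕ) : ℂ) = (p : ℂ) := by
      rw [← Int.cast_natCast, hp2]
    have h1 := S.law m p.toNat hm (by omega) (by rw [hp3]; exact hlt)
    rw [hp4, ← hnC] at h1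
    exact h1
  obtain ⟨G, hG1, hG2, hG3⟩ := div_sin hn B.r_pos (cm_diff ht S m) (fun p hp hlt => by
    rw [hnR] at hlt
    rcases lt_or_gt_of_ne hp with h | h
    · have hneg : ((p : ℂ) / ((m.natAbs : ℕ) : ℂ)) =
          -((((-p : ℤ) : ℤ) : ℂ) / ((m.natAbs : ℕ) : ℂ)) := by
        push_cast
        ring
      have hlt2 : (((-p : ℤ)) : ℝ) < B.r * |(m:ℝ)| := by
        rw [Int.cast_neg]
        exact lt_of_le_of_lt (neg_le_abs _) hlt
      rw [hneg, cm_even]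
      · exact hpos (-p) (by omega) hlt2
      · rw [norm_div, Complex.norm_natCast, hnR, Complex.norm_intCast,
          div_lt_iff₀ hn0, Int.cast_neg, abs_neg]
        exact hlt
    · exact hpos p h (lt_of_le_of_lt (le_abs_self _) hlt))
  rw [hnR] at hG3
  rcases lt_or_gt_of_ne hm with h | h
  · -- negative `m`
    have hmn : (m : ℂ) = -((m.natAbs : ℕ) : ℂ) := by
      rw [hnC, abs_of_neg h]
      push_cast
      ring
    refine ⟨fun om => -G om, hG1.neg, fun om hom => ?_, fun om M h1 h2 => ?_⟩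
    · rw [← hG2 om hom, hmn]
      have : (Real.pi : ℂ) * -((m.natAbs : ℕ) : ℂ) * om =
          -(Real.pi * ((m.natAbs : ℕ) : ℂ) * om) := by ring
      rw [this, Complex.sin_neg]
      ring
    · rw [norm_neg]
      exact hG3 om M h1 h2
  · have hmn : (m : ℂ) = ((m.natAbs : ℕ) : ℂ) := by
      rw [hnC, abs_of_pos h]
    refine ⟨G, hG1, fun om hom => ?_, hG3⟩
    rw [← hG2 om hom, hmn]

/-- the function `G m` is even -/
theorem Gm_even1 {m : ℤ} (hm : m ≠ 0) {G : ℂ → ℂ}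
    (hG : DifferentiableOn ℂ G (ball 0 B.r))
    (hG2 : ∀ om ∈ ball (0:ℂ) B.r, -2 * I * sin (Real.pi * m * om) * G om = om * B.cm f m om)
    {om : ℂ} (hom : om ∈ ball (0:ℂ) B.r) : G (-om) = G om := by
  have hneg : ∀ w ∈ ball (0:ℂ) B.r, -w ∈ ball (0:ℂ) B.r := by
    intro w hw
    simpa using hw
  have hmC : (m : ℂ) ≠ 0 := Int.cast_ne_zero.2 hm
  have hpiC : (Real.pi : ℂ) ≠ 0 := Complex.ofReal_ne_zero.2 Real.pi_ne_zero
  have h1 : AnalyticOnNhd ℂ (fun w => G (-w) - G w) (ball 0 B.r) := by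
    refine DifferentiableOn.analyticOnNhd ?_ isOpen_ball
    exact (hG.comp differentiable_neg.differentiableOn hneg).sub hG
  have h2 : ∀ᶠ w in 𝓝[≠] (0:ℂ), sin (Real.pi * m * w) ≠ 0 := by
    have h3 : HasDerivAt (fun w : ℂ => Real.pi * m * w) (Real.pi * m) 0 := by
      simpa using (hasDerivAt_id (0:ℂ)).const_mul ((Real.pi : ℂ) * m)
    have h4 : HasDerivAt (fun w : ℂ => sin (Real.pi * m * w)) (Real.pi * m) 0 := by
      have := h3.csin
      simpa using this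
    exact h4.eventually_ne (mul_ne_zero hpiC hmC)
  have h5 : ∀ᶠ w in 𝓝[≠] (0:ℂ), G (-w) - G w = 0 := by
    filter_upwards [h2, nhdsWithin_le_nhds (isOpen_ball.mem_nhds (mem_ball_self B.r_pos))]
      with w hw hwb
    have e1 := hG2 w hwb
    have e2 := hG2 (-w) (hneg w hwb)
    rw [cm_even m (by simpa using hwb)] at e2
    have e3 : (Real.pi : ℂ) * m * -w = -(Real.pi * m * w) := by ring
    rw [e3, Complex.sin_neg] at e2
    have e4 : -2 * I * sin (Real.pi * m * w) * (G (-w) - G w) = 0 := by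
      linear_combination -e2 - e1
    have e5 : -2 * I * sin (Real.pi * m * w) ≠ 0 :=
      mul_ne_zero (mul_ne_zero (by norm_num) I_ne_zero) hw
    exact (mul_eq_zero.1 e4).resolve_left e5
  have h6 := h1.eqOn_zero_of_preconnected_of_frequently_eq_zero
    (convex_ball (0:ℂ) B.r).isPreconnected (mem_ball_self B.r_pos) h5.frequently hom
  exact sub_eq_zero.1 h6

/-- LT-4: the whole family -/
theorem exists_Gm (ht : 0 < t) (hth : t ≤ B.h) (S : Sol B t f) :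
    ∃ G : ℤ → ℂ → ℂ, (∀ m, DifferentiableOn ℂ (G m) (ball 0 B.r)) ∧ (∀ om, G 0 om = 0) ∧
      (∀ m : ℤ, m ≠ 0 → ∀ om ∈ ball (0:ℂ) B.r,
        -2 * I * sin (Real.pi * m * om) * G m om = om * B.cm f m om) ∧
      (∀ m, ∀ om ∈ ball (0:ℂ) B.r, G m (-om) = G m om) ∧ Dec B.K t (B.r / 4) G := by
  classical
  have hr := B.r_pos
  have hK := B.K_pos1
  have hex : ∀ m : ℤ, ∃ G : ℂ → ℂ, DifferentiableOn ℂ G (ball 0 B.r) ∧ (m = 0 → ∀ om, G om = 0) ∧
      (m ≠ 0 → (∀ om ∈ ball (0:ℂ) B.r,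
        -2 * I * sin (Real.pi * m * om) * G om = om * B.cm f m om) ∧
      ∀ (om : ℂ) (M : ℝ), ‖om‖ + 1 / |(m:ℝ)| < B.r →
        (∀ w : ℂ, ‖w - om‖ ≤ 1 / |(m:ℝ)| → ‖w * B.cm f m w‖ ≤ M) → ‖G om‖ ≤ M / 2) := by
    intro m
    by_cases hm : m = 0
    · exact ⟨fun _ => 0, differentiableOn_const _, fun _ _ => rfl, fun h => absurd hm h⟩
    · obtain ⟨G, h1, h2, h3⟩ := exists_Gm1 ht S hm
      exact ⟨G, h1, fun h => absurd h hm, fun _ => ⟨h2, h3⟩⟩
  choose G hG1 hG0 hG2 using hex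
  refine ⟨G, hG1, hG0 0 rfl, fun m hm => (hG2 m hm).1, fun m om hom => ?_, ?_⟩
  · by_cases hm : m = 0
    · rw [hG0 m hm, hG0 m hm]
    · exact Gm_even1 hm (hG1 m) (hG2 m hm).1 hom
  intro h1 h1t
  obtain ⟨C, hC0, hC⟩ := cm_bound ht hth S h1t
  -- the finitely many small `m`
  set N : ℤ := ⌈8 / B.r⌉ with hN
  have hNr : 8 / B.r ≤ N := Int.le_ceil _
  have hsmall : ∀ m : ℤ, ∃ M : ℝ, 0 ≤ M ∧ ∀ om : ℂ, ‖om‖ ≤ B.r / 4 →
      ‖G m om‖ ≤ M * Real.exp (-(2 * Real.pi * |(m:ℝ)| * (h1 - 2 * B.K * ‖om‖))) := by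
    intro m
    have hcont : ContinuousOn (G m) (closedBall 0 (B.r / 4)) :=
      (hG1 m).continuousOn.mono (closedBall_subset_ball (by linarith))
    obtain ⟨M, hM⟩ := (isCompact_closedBall (0:ℂ) (B.r / 4)).exists_bound_of_continuousOn hcont
    refine ⟨|M| * Real.exp (2 * Real.pi * |(m:ℝ)| * |h1|), by positivity, fun om hom => ?_⟩
    have h3 : ‖G m om‖ ≤ |M| := (hM om (by simpa using hom)).trans (le_abs_self _)
    rw [mul_assoc, ← Real.exp_add]
    refine h3.trans ?_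
    have h4 : 0 ≤ 2 * Real.pi * |(m:ℝ)| * |h1| +
        -(2 * Real.pi * |(m:ℝ)| * (h1 - 2 * B.K * ‖om‖)) := by
      have h5 : 0 ≤ 2 * Real.pi * |(m:ℝ)| := by positivity
      have h6 : 0 ≤ |h1| - h1 := sub_nonneg.2 (le_abs_self _)
      have h7 : 0 ≤ 2 * B.K * ‖om‖ := by positivity
      have h8 : 2 * Real.pi * |(m:ℝ)| * |h1| +
        -(2 * Real.pi * |(m:ℝ)| * (h1 - 2 * B.K * ‖om‖)) =
        2 * Real.pi * |(m:ℝ)| * ((|h1| - h1) + 2 * B.K * ‖om‖) := by ring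
      rw [h8]
      exact mul_nonneg h5 (add_nonneg h6 h7)
    have h9 : 1 ≤ Real.exp (2 * Real.pi * |(m:ℝ)| * |h1| +
        -(2 * Real.pi * |(m:ℝ)| * (h1 - 2 * B.K * ‖om‖))) := Real.one_le_exp h4
    have := abs_nonneg M
    nlinarith
  choose M hM0 hM using hsmall
  refine ⟨B.r / 4 * C * Real.exp (4 * Real.pi * B.K) + ∑ m ∈ Finset.Icc (-N) N, M m,
    by
      have : 0 ≤ ∑ m ∈ Finset.Icc (-N) N, M m := Finset.sum_nonneg fun m _ => hM0 m
      positivity, fun m om hom => ?_⟩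
  have hsum : 0 ≤ ∑ m ∈ Finset.Icc (-N) N, M m := Finset.sum_nonneg fun m _ => hM0 m
  have hE := Real.exp_pos (-(2 * Real.pi * |(m:ℝ)| * (h1 - 2 * B.K * ‖om‖)))
  by_cases hmN : m ∈ Finset.Icc (-N) N
  · refine (hM m om hom).trans ?_
    refine mul_le_mul_of_nonneg_right ?_ hE.le
    have h2 := Finset.single_le_sum (f := M) (fun m _ => hM0 m) hmN
    have h3 : 0 ≤ B.r / 4 * C * Real.exp (4 * Real.pi * B.K) := by positivity
    linarith
  · -- large `m`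
    have hmabs : 8 / B.r < |(m:ℝ)| := by
      rw [Finset.mem_Icc, not_and_or] at hmN
      refine lt_of_le_of_lt hNr ?_
      rw [lt_abs]
      rcases hmN with h | h
      · right
        have : N < -m := by omega
        exact_mod_cast this
      · left
        have : N < m := by omega
        exact_mod_cast this
    have hmpos : 0 < |(m:ℝ)| := lt_trans (by positivity) hmabs
    have hm0 : m ≠ 0 := by
      rintro rfl
      simp at hmpos
    have hinv : 1 / |(m:ℝ)| < B.r / 8 := by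
      rw [div_lt_iff₀ hr] at hmabs
      rw [div_lt_div_iff₀ hmpos (by norm_num)]
      linarith
    have h4 := (hG2 m hm0).2 om (B.r / 2 * C * Real.exp (4 * Real.pi * B.K) *
      Real.exp (-(2 * Real.pi * |(m:ℝ)| * (h1 - 2 * B.K * ‖om‖)))) (by linarith) (fun w hw => by
        have hw1 : ‖w‖ ≤ ‖om‖ + 1 / |(m:ℝ)| := by
          have : w = (w - om) + om := by ring
          calc ‖w‖ = ‖(w - om) + om‖ := by rw [← this]
            _ ≤ ‖w - om‖ + ‖om‖ := norm_add_le _ _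
            _ ≤ _ := by linarith
        have hw2 : ‖w‖ ≤ B.r / 2 := by linarith
        rw [norm_mul]
        have hw3 := hC m w hw2
        have hw4 : Real.exp (-(2 * Real.pi * |(m:ℝ)| * (h1 - 2 * B.K * ‖w‖))) ≤
            Real.exp (4 * Real.pi * B.K) *
              Real.exp (-(2 * Real.pi * |(m:ℝ)| * (h1 - 2 * B.K * ‖om‖))) := by
          rw [← Real.exp_add, Real.exp_le_exp]
          have e1 : |(m:ℝ)| * (‖w‖ - ‖om‖) ≤ 1 := by
            have : ‖w‖ - ‖om‖ ≤ 1 / |(m:ℝ)| := by linarith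
            calc |(m:ℝ)| * (‖w‖ - ‖om‖) ≤ |(m:ℝ)| * (1 / |(m:ℝ)|) :=
                  mul_le_mul_of_nonneg_left this hmpos.le
              _ = 1 := by field_simp
          have e2 : 0 ≤ 4 * Real.pi * B.K := by positivity
          have e3 := mul_le_mul_of_nonneg_left e1 e2
          have e4 : -(2 * Real.pi * |(m:ℝ)| * (h1 - 2 * B.K * ‖w‖)) =
              4 * Real.pi * B.K * (|(m:ℝ)| * (‖w‖ - ‖om‖)) +
              -(2 * Real.pi * |(m:ℝ)| * (h1 - 2 * B.K * ‖om‖)) := by ring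
          rw [e4]
          linarith
        calc ‖w‖ * ‖B.cm f m w‖ ≤ B.r / 2 * (C * (Real.exp (4 * Real.pi * B.K) *
              Real.exp (-(2 * Real.pi * |(m:ℝ)| * (h1 - 2 * B.K * ‖om‖))))) := by
              refine mul_le_mul hw2 (hw3.trans ?_) (norm_nonneg _) (by linarith)
              exact mul_le_mul_of_nonneg_left hw4 hC0.le
          _ = _ := by ring)
    refine h4.trans ?_
    have h5 : B.r / 2 * C * Real.exp (4 * Real.pi * B.K) *
      Real.exp (-(2 * Real.pi * |(m:ℝ)| * (h1 - 2 * B.K * ‖om‖))) / 2 =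
      (B.r / 4 * C * Real.exp (4 * Real.pi * B.K)) *
      Real.exp (-(2 * Real.pi * |(m:ℝ)| * (h1 - 2 * B.K * ‖om‖))) := by ring
    rw [h5]
    refine mul_le_mul_of_nonneg_right ?_ hE.le
    linarith

end Bg

end Pool.Agent.MP_ae5b4e_an_LOC
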