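import Pool.Agent.Lib.MP_ae5b4e_an_LOC.LTS
import Pool.Agent.Lib.MP_ae5b4e_an_LOC.Gm
import Pool.Agent.Lib.MP_ae5b4e_an_LOC.InvL

/-!
# LOC, LT-4: the functional equation
-/

set_option autoImplicit false

namespace Pool.Agent.MP_ae5b4e_an_LOC

open Set Metric Complex ComplexConjugate Filter Topology MeasureTheory intervalIntegral

/-- identity theorem from a real interval -/
theorem zero_of_real {U : Set ℂ} {g : ℂ → ℂ} (hg : AnalyticOnNhd ℂ g U) (hU : IsPreconnected U)
    {x0 : ℝ} (hx0 : (x0 : ℂ) ∈ U) (h : ∀ᶠ x : ℝ in 𝓝 x0, g x = 0) : EqOn g 0 U := by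
  refine hg.eqOn_zero_of_preconnected_of_frequently_eq_zero hU hx0 ?_
  have h1 : Tendsto (fun x : ℝ => (x : ℂ)) (𝓝[≠] x0) (𝓝[≠] (x0 : ℂ)) := by
    refine tendsto_nhdsWithin_iff.2 ⟨?_, ?_⟩
    · exact (Complex.continuous_ofReal.tendsto x0).mono_left nhdsWithin_le_nhds
    · filter_upwards [self_mem_nhdsWithin] with x hx
      simpa using hx
  exact h1.frequently (h.filter_mono nhdsWithin_le_nhds).frequently

namespace Bg

variable {B : Bg} {t : ℝ} {f : Fin 3 → ℂ → ℂ}

theorem K3_lt (B : Bg) {om : ℂ} (h : ‖om‖ < B.r) : 4 * B.K * ‖om‖ < B.h := by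
  have h1 := mul_lt_mul_of_pos_left h B.K_pos1
  have h2 := B.K_r_le
  have h3 := B.rho_le_h
  nlinarith

/-- the time map on the real axis -/
theorem ph_real_fe (B : Bg) {om : ℝ} (hom : |om| < B.r) (u : ℝ) :
    B.ph om u = ((B.ph om u).re : ℂ) := by
  have h1 : ‖(om : ℂ)‖ < B.r := by rwa [Complex.norm_real]
  have h2 := B.ph_conj om u h1 (B.dom_real h1 u)
  rw [Complex.conj_ofReal, Complex.conj_ofReal] at h2
  exact (Complex.conj_eq_iff_re.1 h2.symm).symm

theorem ph_hasDeriv (B : Bg) {om : ℝ} (hom : |om| < B.r) (u : ℝ) :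
    HasDerivAt (fun u : ℝ => (B.ph om u).re) (deriv (B.ph om) u).re u ∧
      deriv (B.ph om) u = ((deriv (B.ph om) u).re : ℂ) := by
  have h1 : ‖(om : ℂ)‖ < B.r := by rwa [Complex.norm_real]
  have h2 := (B.ph_an1 h1 (B.dom_real h1 u)).differentiableAt.hasDerivAt
  have h3 := h2.real_of_complex
  refine ⟨h3, ?_⟩
  have h4 : HasDerivAt (fun u : ℝ => B.ph om u) (deriv (B.ph om) u) u := h2.comp_ofReal
  have h5 : HasDerivAt (fun u : ℝ => (((B.ph om u).re : ℝ) : ℂ))
      (((deriv (B.ph om) u).re : ℝ) : ℂ) u := h3.ofReal_comp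
  have h6 : (fun u : ℝ => B.ph om u) = fun u : ℝ => (((B.ph om u).re : ℝ) : ℂ) := by
    ext v
    exact B.ph_real_fe hom v
  rw [h6] at h4
  exact h4.unique h5

theorem ph_deriv_cont (B : Bg) {om : ℝ} (hom : |om| < B.r) :
    Continuous (fun u : ℝ => (deriv (B.ph om) u).re) := by
  have h1 : ‖(om : ℂ)‖ < B.r := by rwa [Complex.norm_real]
  refine Complex.continuous_re.comp ?_
  refine continuous_iff_continuousAt.2 fun u => ?_
  have h2 := (B.ph_an1 h1 (B.dom_real h1 u)).deriv.continuousAt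
  exact ContinuousAt.comp (f := fun u : ℝ => (u : ℂ)) (g := deriv (B.ph om)) h2
    Complex.continuous_ofReal.continuousAt

/-- Fourier expansion for real `om` -/
theorem fou_real (ht : 0 < t) (hth : t ≤ B.h) (S : Sol B t f) {X : ℂ → ℂ → ℂ} (hX : InvD B X)
    {om : ℝ} (hom : |om| < B.r / 2) (hom2 : 2 * B.K * |om| < t) (v : ℝ) :
    HasSum (fun m : ℤ => B.cm f m om * exp (2 * Real.pi * I * m * v)) (B.F f om (X om v)) := by
  have hr := B.r_pos
  have homr : |om| < B.r := by linarith
  have h1 : ‖(om : ℂ)‖ < B.r := by rwa [Complex.norm_real]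
  have hK4 := B.K3_lt h1
  have hKn : 0 ≤ B.K * ‖(om:ℂ)‖ := mul_nonneg B.K_pos1.le (norm_nonneg _)
  have hdom : ∀ v : ℝ, |(v : ℂ).im| < B.h - 3 * B.K * ‖(om : ℂ)‖ := by
    intro v
    rw [ofReal_im, abs_zero]
    linarith
  have hdom4 : ∀ v : ℝ, |(v : ℂ).im| < B.h - 4 * B.K * ‖(om : ℂ)‖ := by
    intro v
    rw [ofReal_im, abs_zero]
    linarith
  have hXim : ∀ v : ℝ, (X om v).im = 0 := fun v => hX.real om v homr
  set g : ℝ → ℂ := fun v => B.F f om (X om v) with hg
  have hgc : Continuous g := by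
    refine continuous_iff_continuousAt.2 fun v => ?_
    have e1 : ContinuousAt (fun p : ℂ × ℂ => X p.1 p.2) ((om : ℂ), (v : ℂ)) :=
      (hX.an om v h1 (hdom v)).continuousAt
    have e2 : ContinuousAt (fun u : ℝ => (((om : ℂ), (u : ℂ)) : ℂ × ℂ)) v :=
      (continuous_const.prodMk Complex.continuous_ofReal).continuousAt
    have e3 : ContinuousAt (fun u : ℝ => X om u) v :=
      ContinuousAt.comp (x := v) (g := fun p : ℂ × ℂ => X p.1 p.2)
        (f := fun u : ℝ => (((om : ℂ), (u : ℂ)) : ℂ × ℂ)) e1 e2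
    have e4 : ContinuousAt (fun p : ℂ × ℂ => B.F f p.1 p.2) ((om : ℂ), X om v) :=
      (F_an S h1 (by rw [hXim v, abs_zero]; exact ht)).continuousAt
    have e5 : ContinuousAt (fun u : ℝ => (((om : ℂ), X om u) : ℂ × ℂ)) v :=
      continuousAt_const.prodMk e3
    exact ContinuousAt.comp (x := v) (g := fun p : ℂ × ℂ => B.F f p.1 p.2)
      (f := fun u : ℝ => (((om : ℂ), X om u) : ℂ × ℂ)) e4 e5
  have hgper : Function.Periodic g 1 := by
    intro v
    simp only [hg]
    have e1 : ((v + 1 : ℝ) : ℂ) = (v : ℂ) + 1 := by push_cast; ring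
    rw [e1, hX.per om v h1 (hdom v), F_per S (by rw [hXim v, abs_zero]; exact ht)]
  let gl : C(AddCircle (1:ℝ), ℂ) := ⟨hgper.lift, continuous_coinduced_dom.mpr hgc⟩
  have hgl : ∀ v : ℝ, gl (v : AddCircle (1:ℝ)) = g v := fun v => rfl
  -- the coefficients
  have hcoef : ∀ k : ℤ, fourierCoeff gl k = B.cm f k om := by
    intro k
    rw [fourierCoeff_eq_intervalIntegral _ k ((B.ph om (0:ℝ)).re)]
    rw [div_one, one_smul]
    have e1 : (B.ph om (0:ℝ)).re + 1 = (B.ph om ((1:ℝ) : ℂ)).re := by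
      have := B.ph_one om (0:ℝ) h1 (B.dom_real h1 0)
      have e2 : (((0:ℝ) : ℂ) + 1) = ((1:ℝ) : ℂ) := by push_cast; ring
      rw [e2] at this
      rw [this]
      simp
    rw [e1]
    set Γ : ℝ → ℂ := fun v => exp (-(2 * Real.pi * I * k * v)) * g v with hΓ
    have hΓc : Continuous Γ := by
      refine Continuous.mul ?_ hgc
      fun_prop
    have e3 : ∀ v : ℝ, (fourier (-k) (v : AddCircle (1:ℝ))) • gl (v : AddCircle (1:ℝ)) = Γ v := by
      intro v
      rw [fourier_coe_apply, hgl, smul_eq_mul]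
      simp only [hΓ]
      congr 2
      push_cast
      ring
    simp_rw [e3]
    have key := intervalIntegral.integral_deriv_smul_comp (a := 0) (b := 1)
      (f := fun u : ℝ => (B.ph om u).re) (f' := fun u : ℝ => (deriv (B.ph om) u).re) (g := Γ)
      (fun u _ => (B.ph_hasDeriv homr u).1) (B.ph_deriv_cont homr).continuousOn hΓc
    rw [← key, cm_eq]
    refine intervalIntegral.integral_congr fun u _ => ?_
    simp only [Function.comp, hΓ, hg, Bg.Ig]
    rw [← B.ph_real_fe homr u, hX.left om u h1 (hdom4 u), Complex.real_smul,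
      ← (B.ph_hasDeriv homr u).2]
    ring
  have hsum : Summable (fourierCoeff gl) := by
    have e1 := ser_summable (cm_dec ht hth S) (om := (om : ℂ)) (φ := 0)
      (by rw [Complex.norm_real]; exact hom.le) (by
        rw [Complex.zero_im, abs_zero, Complex.norm_real, Real.norm_eq_abs]
        linarith)
    refine e1.congr fun m => ?_
    rw [hcoef]
    simp
  have hfin := has_pointwise_sum_fourier_series_of_summable hsum (v : AddCircle (1:ℝ))
  rw [hgl] at hfin
  refine hfin.congr_fun fun m => ?_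
  rw [hcoef, fourier_coe_apply, smul_eq_mul]
  congr 2
  push_cast
  ring

/-- the Fourier expansion for complex `om` -/
theorem fou_eq (ht : 0 < t) (hth : t ≤ B.h) (S : Sol B t f) {X : ℂ → ℂ → ℂ} (hX : InvD B X)
    {om φ : ℂ} (hom : ‖om‖ < B.r / 2) (hφ : |φ.im| < t - 3 * B.K * ‖om‖) :
    ∑' m : ℤ, B.cm f m om * exp (2 * Real.pi * I * m * φ) = B.F f om (X om φ) := by
  have hr := B.r_pos
  have hK := B.K_pos1
  set H : ℂ → ℂ → ℂ := fun om φ =>
    ∑' m : ℤ, B.cm f m om * exp (2 * Real.pi * I * m * φ) - B.F f om (X om φ) with hH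
  have hHan : ∀ om φ : ℂ, ‖om‖ < B.r / 2 → |φ.im| < t - 3 * B.K * ‖om‖ →
      AnalyticAt ℂ (fun p : ℂ × ℂ => H p.1 p.2) (om, φ) := by
    intro om φ h1 h2
    have hKn : 0 ≤ B.K * ‖om‖ := mul_nonneg hK.le (norm_nonneg _)
    have h1r : ‖om‖ < B.r := by linarith
    refine AnalyticAt.sub ?_ ?_
    · exact ser_analytic (cm_dec ht hth S)
        (fun m => (cm_diff ht S m).mono (ball_subset_ball (by linarith))) h1 (by linarith)
    · have e1 := hX.an om φ h1r (by linarith)
      have e2 := hX.close om φ h1r (by linarith)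
      have e3 : |(X om φ).im| < t := by
        have e4 := Complex.abs_im_le_norm (X om φ - φ)
        rw [sub_im] at e4
        have e5 := abs_sub_abs_le_abs_sub (X om φ).im φ.im
        linarith
      have e6 := F_an S h1r e3
      exact AnalyticAt.comp (g := fun p : ℂ × ℂ => B.F f p.1 p.2)
        (f := fun p : ℂ × ℂ => ((p.1, X p.1 p.2) : ℂ × ℂ)) (x := (om, φ)) e6
        (analyticAt_fst.prod e1)
  -- real `om`
  have hreal : ∀ (om : ℝ) (φ : ℂ), |om| < B.r / 2 → |φ.im| < t - 3 * B.K * |om| →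
      H om φ = 0 := by
    intro om φ h1 h2
    have hKn : 0 ≤ B.K * |om| := mul_nonneg hK.le (abs_nonneg _)
    have h3 : 3 * B.K * |om| < t := by
      have := abs_nonneg φ.im
      linarith
    have han : AnalyticOnNhd ℂ (H om) (Sp (t - 3 * B.K * |om|)) := by
      intro x hx
      have e1 := hHan om x (by rwa [Complex.norm_real]) (by
        rw [Complex.norm_real, Real.norm_eq_abs]
        exact hx)
      exact AnalyticAt.comp (g := fun p : ℂ × ℂ => H p.1 p.2) (f := fun x : ℂ => ((om : ℂ), x)) e1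
        (by fun_prop)
    have hz := zero_of_real (x0 := 0) han (convex_Sp _).isPreconnected (by
      rw [mem_Sp, ofReal_im, abs_zero]
      linarith) (Filter.Eventually.of_forall fun x => by
        simp only [hH]
        rw [sub_eq_zero]
        exact (fou_real ht hth S hX h1 (by linarith) x).tsum_eq)
    exact hz h2
  -- complex `om`
  have h3 : 0 < t - |φ.im| := by
    have : 0 ≤ B.K * ‖om‖ := mul_nonneg hK.le (norm_nonneg _)
    linarith
  set ρ : ℝ := min (B.r / 2) ((t - |φ.im|) / (3 * B.K)) with hρ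
  have hρ0 : 0 < ρ := lt_min (by linarith) (by positivity)
  have hdom : ∀ w : ℂ, ‖w‖ < ρ → ‖w‖ < B.r / 2 ∧ |φ.im| < t - 3 * B.K * ‖w‖ := by
    intro w hw
    refine ⟨lt_of_lt_of_le hw (min_le_left _ _), ?_⟩
    have e1 := lt_of_lt_of_le hw (min_le_right _ _)
    rw [lt_div_iff₀ (by positivity)] at e1
    linarith
  have han : AnalyticOnNhd ℂ (fun w => H w φ) (ball 0 ρ) := by
    intro w hw
    obtain ⟨e1, e2⟩ := hdom w (by simpa using hw)
    exact AnalyticAt.comp (g := fun p : ℂ × ℂ => H p.1 p.2) (f := fun w : ℂ => (w, φ))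
      (hHan w φ e1 e2) (by fun_prop)
  have hz := zero_of_real (x0 := 0) han (convex_ball (0:ℂ) ρ).isPreconnected
    (by simpa using hρ0) (by
      have e1 : ∀ᶠ x : ℝ in 𝓝 (0:ℝ), |x| < ρ := by
        have := (continuous_abs (G := ℝ)).tendsto 0
        rw [abs_zero] at this
        exact this (Iio_mem_nhds hρ0)
      filter_upwards [e1] with x hx
      obtain ⟨e2, e3⟩ := hdom (x : ℂ) (by rwa [Complex.norm_real])
      rw [Complex.norm_real, Real.norm_eq_abs] at e2 e3
      exact hreal x φ e2 e3)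
  have hmem : om ∈ ball (0:ℂ) ρ := by
    rw [mem_ball_zero_iff]
    refine lt_min hom ?_
    rw [lt_div_iff₀ (by positivity)]
    linarith
  have := hz hmem
  simp only [hH, Pi.zero_apply] at this
  exact sub_eq_zero.1 this

end Bg

open Bg

/-- LT-4: the functional equation, for a given inverse of the time map -/
theorem fe_of_inv (B : Bg) (hI : InvStmt B) : FEStmt B := by
  intro t f ht hth S
  obtain ⟨X, hX⟩ := hI
  have hr := B.r_pos
  have hK := B.K_pos1
  have hK1 := B.one_le_K
  obtain ⟨G, hG1, hG0, hG2, hG3, hG4⟩ := exists_Gm ht hth S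
  refine ⟨fun om φ => ∑' m : ℤ, G m om * exp (2 * Real.pi * I * m * φ), B.cm f 0, ?_, ?_, ?_, ?_, ?_⟩
  · intro om φ h1 h2
    exact ser_analytic hG4 (fun m => (hG1 m).mono (ball_subset_ball (by linarith))) h1 h2
  · exact (cm_diff ht S 0).analyticOnNhd isOpen_ball
  · intro om φ h1 _
    refine tsum_congr fun m => ?_
    rw [hG3 m om (by rw [mem_ball_zero_iff]; linarith)]
  · intro om φ _ _
    refine tsum_congr fun m => ?_
    rw [exp_one_per]
  · intro om x h1 h2
    have h1r : ‖om‖ < B.r := by linarith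
    have hKn : 0 ≤ B.K * ‖om‖ := mul_nonneg hK.le (norm_nonneg _)
    have homK : ‖om‖ ≤ B.K * ‖om‖ := le_mul_of_one_le_left (norm_nonneg _) hK1
    set φ : ℂ := B.ph om x with hφ
    have hcl := B.ph_close om x h1r (by linarith)
    have hφim : |φ.im| < t - 3 * B.K * ‖om‖ := by
      have e4 := Complex.abs_im_le_norm (φ - x)
      rw [sub_im] at e4
      have e5 := abs_sub_abs_le_abs_sub φ.im x.im
      linarith
    have hhalf : |(om / 2).im| ≤ ‖om‖ / 2 := by
      refine (Complex.abs_im_le_norm _).trans ?_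
      rw [norm_div]
      simp
    have hd1 : |(φ - om / 2).im| < t - 2 * B.K * ‖om‖ := by
      rw [sub_im]
      have := abs_sub φ.im (om / 2).im
      have := norm_nonneg om
      linarith
    have hd2 : |(φ + om / 2).im| < t - 2 * B.K * ‖om‖ := by
      rw [add_im]
      have := abs_add_le φ.im (om / 2).im
      have := norm_nonneg om
      linarith
    have s1 := ser_summable hG4 h1.le hd1
    have s2 := ser_summable hG4 h1.le hd2
    have s3 := ser_summable (cm_dec ht hth S) (om := om) (φ := φ) (by linarith) (by linarith)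
    have hmem : om ∈ ball (0:ℂ) B.r := by rwa [mem_ball_zero_iff]
    have hterm : ∀ m : ℤ, G m om * exp (2 * Real.pi * I * m * (φ - om / 2)) -
        G m om * exp (2 * Real.pi * I * m * (φ + om / 2)) =
        om * (B.cm f m om * exp (2 * Real.pi * I * m * φ) -
          if m = 0 then B.cm f 0 om else 0) := by
      intro m
      by_cases hm : m = 0
      · subst hm
        rw [hG0]
        simp
      · rw [if_neg hm, sub_zero, ← mul_assoc, ← hG2 m hm om hmem]
        have e1 : (2 * Real.pi * I * m * (φ - om / 2) : ℂ) =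
            2 * Real.pi * I * m * φ + -(Real.pi * m * om) * I := by ring
        have e2 : (2 * Real.pi * I * m * (φ + om / 2) : ℂ) =
            2 * Real.pi * I * m * φ + (Real.pi * m * om) * I := by ring
        rw [e1, e2, Complex.exp_add, Complex.exp_add]
        have e3 : exp (Real.pi * m * om * I) - exp (-(Real.pi * m * om) * I) =
            2 * I * sin (Real.pi * m * om) := by
          rw [Complex.sin]
          linear_combination (exp (Real.pi * m * om * I) - exp (-(Real.pi * m * om) * I)) * I_sq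
        linear_combination (-(G m om * exp (2 * Real.pi * I * m * φ))) * e3
    have h0 : Summable fun m : ℤ => if m = 0 then B.cm f 0 om else 0 :=
      (hasSum_ite_eq 0 (B.cm f 0 om)).summable
    have h0' : ∑' m : ℤ, (if m = 0 then B.cm f 0 om else 0) = B.cm f 0 om :=
      (hasSum_ite_eq 0 (B.cm f 0 om)).tsum_eq
    rw [← s1.tsum_sub s2, tsum_congr hterm, tsum_mul_left, s3.tsum_sub h0, h0',
      fou_eq ht hth S hX (by linarith) hφim, hX.left om x h1r (by linarith)]

/-- LT-4 -/
theorem fe_stmt (B : Bg) : FEStmt B := fe_of_inv B (inv_stmt B)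

end Pool.Agent.MP_ae5b4e_an_LOC
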