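import Pool.Agent.Lib.MP_ae5b4e_an_NC.Solve

/-!
# MP_ae5b4e_an, project LOC: adjusting finitely many parameters by Gram conditions

`J` is a curve near `J0`, `f (J x, p)` is a pair of functions that depends on `n` parameters `p`
and vanishes for `J0`, `p = 0`; `k i x` is the derivative of `f` in the `i`-th parameter along
`(J0, 0)`.  If these are linearly independent then some `p`, `‖p‖ ≤ C ε`, makes `f (J x, p)`
orthogonal to all the `k i` in `L²`.
-/

noncomputable section

namespace Pool.Agent.MP_ae5b4e_an_LOC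

open Set Filter Topology MeasureTheory intervalIntegral

/-- the weights as continuous linear maps -/
def gramW {n : ℕ} (k : Fin n → ℝ → ℝ × ℝ) (x : ℝ) : (ℝ × ℝ) →L[ℝ] (Fin n → ℝ) :=
  ContinuousLinearMap.pi fun i =>
    (k i x).1 • ContinuousLinearMap.fst ℝ ℝ ℝ + (k i x).2 • ContinuousLinearMap.snd ℝ ℝ ℝ

theorem gramW_apply {n : ℕ} (k : Fin n → ℝ → ℝ × ℝ) (x : ℝ) (v : ℝ × ℝ) (i : Fin n) :
    gramW k x v i = (k i x).1 * v.1 + (k i x).2 * v.2 := rfl

theorem continuous_gramW {n : ℕ} {k : Fin n → ℝ → ℝ × ℝ} (hk : ∀ i, Continuous (k i)) :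
    Continuous (gramW k) := by
  rw [continuous_clm_apply]
  intro v
  rw [continuous_pi_iff]
  intro i
  simp only [gramW_apply]
  have := hk i
  fun_prop

theorem integral_pi_apply {n : ℕ} {g : ℝ → Fin n → ℝ} (hg : ContinuousOn g (Icc (0:ℝ) 1))
    (i : Fin n) : (∫ x in (0:ℝ)..1, g x) i = ∫ x in (0:ℝ)..1, g x i := by
  have hint : IntervalIntegrable g volume 0 1 :=
    ContinuousOn.intervalIntegrable (by rwa [uIcc_of_le zero_le_one])
  exact ((ContinuousLinearMap.proj (R := ℝ) (φ := fun _ : Fin n => ℝ) i).intervalIntegral_comp_comm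
    hint).symm

/-- The Gram contraction. -/
theorem gram_solve {F : Type*} [NormedAddCommGroup F] [NormedSpace ℝ F] [FiniteDimensional ℝ F]
    {n : ℕ} (hn : 0 < n) {f : F × (Fin n → ℝ) → ℝ × ℝ} {U : Set (F × (Fin n → ℝ))}
    (hU : IsOpen U) (hf : ContDiffOn ℝ 1 f U) {J0 : ℝ → F} (hJ0 : Continuous J0)
    (hmem : ∀ x, (J0 x, (0 : Fin n → ℝ)) ∈ U) (h0 : ∀ x ∈ Icc (0:ℝ) 1, f (J0 x, 0) = 0)
    (hinj : ∀ p : Fin n → ℝ, (∀ x ∈ Icc (0:ℝ) 1, fderiv ℝ f (J0 x, 0) (0, p) = 0) → p = 0) :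
    ∃ C > 0, ∃ ε0 > 0, ∀ ε : ℝ, 0 ≤ ε → ε ≤ ε0 → ∀ J : ℝ → F, Continuous J →
      (∀ x ∈ Icc (0:ℝ) 1, ‖J x - J0 x‖ ≤ ε) →
      ∃ p : Fin n → ℝ, ‖p‖ ≤ C * ε ∧ (∀ x ∈ Icc (0:ℝ) 1, (J x, p) ∈ U) ∧
        ∀ i, ∫ x in (0:ℝ)..1,
          ((fderiv ℝ f (J0 x, 0) (0, Pi.single i 1)).1 * (f (J x, p)).1 +
            (fderiv ℝ f (J0 x, 0) (0, Pi.single i 1)).2 * (f (J x, p)).2) = 0 := by
  classical
  set k : Fin n → ℝ → ℝ × ℝ := fun i x => fderiv ℝ f (J0 x, 0) (0, Pi.single i 1) with hk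
  have hfd : ContinuousOn (fderiv ℝ f) U := hf.continuousOn_fderiv_of_isOpen hU le_rfl
  have hfdx : Continuous fun x => fderiv ℝ f (J0 x, 0) := by
    have h2 : Continuous (fun x : ℝ => (J0 x, (0 : Fin n → ℝ))) :=
      hJ0.prodMk continuous_const
    exact hfd.comp_continuous h2 hmem
  have hkc : ∀ i, Continuous (k i) := fun i => hfdx.clm_apply continuous_const
  have hw : Continuous (gramW k) := continuous_gramW hkc
  have hlin : ∀ (p : Fin n → ℝ) x, fderiv ℝ f (J0 x, 0) (0, p) = ∑ i, p i • k i x := by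
    intro p x
    have h1 : ((0:F), p) = ∑ i, p i • ((0:F), (Pi.single i 1 : Fin n → ℝ)) := by
      ext j
      · simp [Prod.fst_sum]
      · rw [Prod.snd_sum]
        simp [Finset.sum_apply, Pi.single_apply]
    rw [h1, map_sum]
    simp only [map_smul, hk]
  -- the linear map
  have hcont : ∀ p : Fin n → ℝ, Continuous fun x => gramW k x (fderiv ℝ f (J0 x, 0) (0, p)) :=
    fun p => hw.clm_apply (hfdx.clm_apply continuous_const)
  have hint : ∀ p : Fin n → ℝ, IntervalIntegrable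
      (fun x => gramW k x (fderiv ℝ f (J0 x, 0) (0, p))) volume 0 1 := fun p =>
    (hcont p).intervalIntegrable _ _
  let A0 : (Fin n → ℝ) →ₗ[ℝ] (Fin n → ℝ) :=
    { toFun := fun p => ∫ x in (0:ℝ)..1, gramW k x (fderiv ℝ f (J0 x, 0) (0, p))
      map_add' := by
        intro p q
        rw [← intervalIntegral.integral_add (hint p) (hint q)]
        refine intervalIntegral.integral_congr fun x _ => ?_
        simp only [← map_add, Prod.mk_add_mk, add_zero]
      map_smul' := by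
        intro c p
        simp only [RingHom.id_apply]
        rw [← intervalIntegral.integral_smul]
        refine intervalIntegral.integral_congr fun x _ => ?_
        simp only [← map_smul, Prod.smul_mk, smul_zero] }
  have hA0 : ∀ p, A0 p = ∫ x in (0:ℝ)..1, gramW k x (fderiv ℝ f (J0 x, 0) (0, p)) := fun _ => rfl
  have hinj' : Function.Injective A0 := by
    rw [← LinearMap.ker_eq_bot, LinearMap.ker_eq_bot']
    intro p hp
    apply hinj
    -- the quadratic form
    have hq : ∫ x in (0:ℝ)..1, ((fderiv ℝ f (J0 x, 0) (0, p)).1 ^ 2 +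
        (fderiv ℝ f (J0 x, 0) (0, p)).2 ^ 2) = 0 := by
      have h1 : ∑ i, p i * (A0 p) i = 0 := by
        rw [hp]; simp
      have h2 : ∀ i, p i * (A0 p) i = ∫ x in (0:ℝ)..1,
          p i * (gramW k x (fderiv ℝ f (J0 x, 0) (0, p)) i) := by
        intro i
        rw [hA0, integral_pi_apply (hcont p).continuousOn, intervalIntegral.integral_const_mul]
      rw [Finset.sum_congr rfl fun i _ => h2 i] at h1
      rw [← intervalIntegral.integral_finsetSum] at h1
      · refine Eq.trans ?_ h1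
        refine intervalIntegral.integral_congr fun x _ => ?_
        simp only [gramW_apply]
        have h3 := hlin p x
        have h4 : (fderiv ℝ f (J0 x, 0) (0, p)).1 = ∑ i, p i * (k i x).1 := by
          rw [h3, Prod.fst_sum]; rfl
        have h5 : (fderiv ℝ f (J0 x, 0) (0, p)).2 = ∑ i, p i * (k i x).2 := by
          rw [h3, Prod.snd_sum]; rfl
        set a := (fderiv ℝ f (J0 x, 0) (0, p)).1
        set b := (fderiv ℝ f (J0 x, 0) (0, p)).2
        calc a ^ 2 + b ^ 2 = (∑ i, p i * (k i x).1) * a + (∑ i, p i * (k i x).2) * b := by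
              rw [← h4, ← h5]; ring
          _ = ∑ i, p i * ((k i x).1 * a + (k i x).2 * b) := by
              rw [Finset.sum_mul, Finset.sum_mul, ← Finset.sum_add_distrib]
              refine Finset.sum_congr rfl fun i _ => ?_
              ring
      · intro i _
        have h6 : Continuous fun x => gramW k x (fderiv ℝ f (J0 x, 0) (0, p)) i :=
          (continuous_apply i).comp (hcont p)
        exact (continuous_const.mul h6).intervalIntegrable _ _
    have hqc : Continuous fun x => ((fderiv ℝ f (J0 x, 0) (0, p)).1 ^ 2 +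
        (fderiv ℝ f (J0 x, 0) (0, p)).2 ^ 2) := by
      have h7 : Continuous fun x => fderiv ℝ f (J0 x, 0) (0, p) := hfdx.clm_apply continuous_const
      fun_prop
    intro x hx
    by_contra hne
    have hpos : 0 < (fderiv ℝ f (J0 x, 0) (0, p)).1 ^ 2 +
        (fderiv ℝ f (J0 x, 0) (0, p)).2 ^ 2 := by
      rcases eq_or_ne (fderiv ℝ f (J0 x, 0) (0, p)).1 0 with h8 | h8
      · have h9 : (fderiv ℝ f (J0 x, 0) (0, p)).2 ≠ 0 := fun h9 => hne (Prod.ext h8 h9)
        positivity
      · positivity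
    have := intervalIntegral.integral_pos (a := 0) (b := 1) zero_lt_one hqc.continuousOn
      (fun y _ => by positivity) ⟨x, hx, hpos⟩
    rw [hq] at this
    exact lt_irrefl _ this
  have : Nonempty (Fin n) := ⟨⟨0, hn⟩⟩
  let A : (Fin n → ℝ) ≃L[ℝ] (Fin n → ℝ) :=
    (LinearEquiv.ofInjectiveEndo A0 hinj').toContinuousLinearEquiv
  have hA : ∀ p, A p = ∫ x in (0:ℝ)..1, gramW k x (fderiv ℝ f (J0 x, 0) (0, p)) := fun _ => rfl
  obtain ⟨C, hC, ε0, hε0, h⟩ := Pool.Agent.MP_ae5b4e_an_NC.solve_modes hU hf hJ0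
    (fun x _ => hmem x) h0 hw A hA
  refine ⟨C, hC, ε0, hε0, fun ε h1 h2 J hJ hJJ => ?_⟩
  obtain ⟨p, hp1, hp2, hp3⟩ := h ε h1 h2 J hJ hJJ
  refine ⟨p, hp1, hp2, fun i => ?_⟩
  have hfc : ContinuousOn (fun x => gramW k x (f (J x, p))) (Icc (0:ℝ) 1) := by
    have h1 : ContinuousOn (fun x => f (J x, p)) (Icc (0:ℝ) 1) := by
      have h2 : ContinuousOn (fun x : ℝ => (J x, p)) (Icc (0:ℝ) 1) :=
        (hJ.prodMk continuous_const).continuousOn
      exact hf.continuousOn.comp h2 fun x hx => hp2 x hx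
    exact hw.continuousOn.clm_apply h1
  have h3 := congrFun hp3 i
  rw [integral_pi_apply hfc] at h3
  exact h3

end Pool.Agent.MP_ae5b4e_an_LOC
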