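import Pool.Agent.Lib.MP_ae5b4e_an_LOC.Nmf
import Pool.Agent.Lib.MP_ae5b4e_an_LOC.Gram

/-!
# MP_ae5b4e_an, project LOC: the frame and the quartic form of a curve near the background

`con_loc`: the twelve parameters can be chosen such that the two defects `e0`, `e1` are orthogonal
to the twelve kernel elements `(f1, f3 - 2 la0 f1)`.
-/

noncomputable section

namespace Pool.Agent.MP_ae5b4e_an_LOC

open Set Filter Topology MeasureTheory intervalIntegral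

/-! ## the linearization of the defects -/

/-- a path of numbers which starts at the numbers of the background -/
structure PthL (N : ℝ → Nm) (e la a1' al1' G1' G3' : ℝ) : Prop where
  v_a0 : (N 0).a0 = 0
  v_a1 : (N 0).a1 = 0
  v_a2 : (N 0).a2 = e
  v_al0 : (N 0).al0 = 1
  v_al1 : (N 0).al1 = 0
  v_al2 : (N 0).al2 = la
  v_G0 : (N 0).G0 = 0
  v_G1 : (N 0).G1 = 0
  v_G2 : (N 0).G2 = 0
  v_G3 : (N 0).G3 = 0
  d_a0 : ∃ l, HasDerivAt (fun t => (N t).a0) l 0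
  d_a1 : HasDerivAt (fun t => (N t).a1) a1' 0
  d_a2 : ∃ l, HasDerivAt (fun t => (N t).a2) l 0
  d_al0 : ∃ l, HasDerivAt (fun t => (N t).al0) l 0
  d_al1 : HasDerivAt (fun t => (N t).al1) al1' 0
  d_al2 : ∃ l, HasDerivAt (fun t => (N t).al2) l 0
  d_G0 : ∃ l, HasDerivAt (fun t => (N t).G0) l 0
  d_G1 : HasDerivAt (fun t => (N t).G1) G1' 0
  d_G2 : ∃ l, HasDerivAt (fun t => (N t).G2) l 0
  d_G3 : HasDerivAt (fun t => (N t).G3) G3' 0

namespace PthL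

variable {N : ℝ → Nm} {e la a1' al1' G1' G3' : ℝ} (h : PthL N e la a1' al1' G1' G3')
include h

lemma v_ka : (N 0).ka = 0 := by simp [Nm.ka, h.v_al1]

lemma v_la : (N 0).la = la := by simp [Nm.la, h.v_ka, h.v_al0, h.v_al2]

lemma v_b1 : (N 0).b1 = 0 := by simp [Nm.b1, h.v_a1, h.v_ka]

lemma v_g1 : (N 0).g1 = 0 := by simp [Nm.g1, h.v_G1, h.v_ka]

lemma v_g3 : (N 0).g3 = 0 := by simp [Nm.g3, h.v_G3, h.v_ka]

lemma v_e0 : (N 0).e0 = 0 := by simp [Nm.e0, h.v_b1, h.v_g1]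

lemma v_psi2 : (N 0).psi2 = e := by
  simp [Nm.psi2, Nm.b2, Nm.g2, Nm.g0, h.v_a2, h.v_ka, h.v_a0, h.v_al0, h.v_G2, h.v_G0]

lemma v_G3t : (N 0).G3t = 0 := by simp [Nm.G3t, h.v_g3, h.v_g1]

lemma v_e1 : (N 0).e1 = 0 := by simp [Nm.e1, h.v_G3t, h.v_e0, h.v_ka]

lemma d_ka : HasDerivAt (fun t => (N t).ka) (al1' / 2) 0 := by
  obtain ⟨l, hl⟩ := h.d_al0
  refine (h.d_al1.div (hl.const_mul 2) (by simp [h.v_al0])).congr_deriv ?_
  rw [h.v_al0, h.v_al1]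
  ring

lemma d_la : ∃ l, HasDerivAt (fun t => (N t).la) l 0 := by
  obtain ⟨l, hl⟩ := h.d_al0
  obtain ⟨l2, hl2⟩ := h.d_al2
  exact ⟨_, (hl2.div hl (by simp [h.v_al0])).sub (h.d_ka.pow 2)⟩

lemma d_b1 : HasDerivAt (fun t => (N t).b1) a1' 0 := by
  obtain ⟨l, hl⟩ := h.d_a0
  refine (h.d_a1.sub ((h.d_ka.mul hl).const_mul 2)).congr_deriv ?_
  rw [h.v_ka, h.v_a0]
  ring

lemma d_g1 : HasDerivAt (fun t => (N t).g1) G1' 0 := by
  obtain ⟨l, hl⟩ := h.d_G0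
  refine (h.d_G1.sub ((h.d_ka.mul hl).const_mul 4)).congr_deriv ?_
  rw [h.v_ka, h.v_G0]
  ring

lemma d_g3 : HasDerivAt (fun t => (N t).g3) G3' 0 := by
  obtain ⟨l, hl⟩ := h.d_G0
  obtain ⟨l2, hl2⟩ := h.d_G2
  refine (((h.d_G3.sub ((h.d_ka.mul hl2).const_mul 2)).add
    (((h.d_ka.pow 2).mul h.d_G1).const_mul 3)).sub
    (((h.d_ka.pow 3).mul hl).const_mul 4)).congr_deriv ?_
  simp [h.v_ka, h.v_G2]

lemma d_e0 : HasDerivAt (fun t => (N t).e0) (a1' + G1') 0 := by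
  obtain ⟨l, hl⟩ := h.d_al0
  refine ((h.d_b1.div hl (by simp [h.v_al0])).add
    (h.d_g1.div (hl.pow 2) (by simp [h.v_al0]))).congr_deriv ?_
  simp [h.v_al0, h.v_b1, h.v_g1]

lemma d_psi2 : ∃ l, HasDerivAt (fun t => (N t).psi2) l 0 := by
  obtain ⟨l1, h1⟩ := h.d_a2
  obtain ⟨l2, h2⟩ := h.d_la
  obtain ⟨l3, h3⟩ := h.d_a0
  obtain ⟨l4, h4⟩ := h.d_G2
  obtain ⟨l5, h5⟩ := h.d_G0
  obtain ⟨l6, h6⟩ := h.d_al0
  have hb2 : ∃ l, HasDerivAt (fun t => (N t).b2) l 0 :=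
    ⟨_, (h1.sub (h.d_ka.mul h.d_a1)).add ((h.d_ka.pow 2).mul h3)⟩
  have hg2 : ∃ l, HasDerivAt (fun t => (N t).g2) l 0 :=
    ⟨_, (h4.sub ((h.d_ka.mul h.d_G1).const_mul 3)).add (((h.d_ka.pow 2).mul h5).const_mul 6)⟩
  obtain ⟨l7, h7⟩ := hb2
  obtain ⟨l8, h8⟩ := hg2
  exact ⟨_, ((h7.sub (h2.mul h3)).div h6 (by simp [h.v_al0])).add
    ((h8.sub ((h2.mul h5).const_mul 2)).div (h6.pow 2) (by simp [h.v_al0]))⟩

lemma d_G3t : HasDerivAt (fun t => (N t).G3t) (G3' - la * G1') 0 := by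
  obtain ⟨l, hl⟩ := h.d_al0
  obtain ⟨l2, hl2⟩ := h.d_la
  refine ((h.d_g3.sub (hl2.mul h.d_g1)).div (hl.pow 2) (by simp [h.v_al0])).congr_deriv ?_
  simp [h.v_al0, h.v_g3, h.v_g1, h.v_la]

lemma d_e1 : HasDerivAt (fun t => (N t).e1)
    (G3' - 2 * (la * G1') - la * a1' - e * al1') 0 := by
  obtain ⟨l2, hl2⟩ := h.d_la
  obtain ⟨l3, hl3⟩ := h.d_psi2
  refine (((h.d_G3t.sub (hl2.mul h.d_e0)).sub ((h.d_ka.mul hl3).const_mul 2)).add
    ((h.d_ka.pow 2).mul h.d_e0)).congr_deriv ?_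
  simp only [Pi.pow_apply, h.v_e0, h.v_ka, h.v_psi2, h.v_la]
  ring

end PthL

/-! ## the path of the parameters -/

lemma xi_smul (m t : ℝ) (p : P12) : xi m (t • p) = t • xi m p := by
  ext i j
  fin_cases i <;> fin_cases j <;> simp [xi, xi00, xi01] <;> ring

lemma act_smul (m t : ℝ) (p : P12) (V : V3) :
    act m (t • p) V = V + t • ((xi m p).mulVec V) := by
  rw [act, xi_smul, Matrix.smul_mulVec]

lemma pc_smul (t : ℝ) (p : P12) : pc (t • p) = t • pc p := by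
  ext i
  fin_cases i <;> simp [pc]

/-- the polarized first order change of `Ef` -/
lemma Eb_xi2 {m : ℝ} (hm : m ≠ 1) (p : P12) (V W : V3) :
    Eb m V ((xi m p).mulVec W) + Eb m ((xi m p).mulVec V) W =
    Rb (pa p) V W + (2 * (xi00 m p + p 8 / 2) - 2 * (-2 * xi00 m p - p 8 / 2)) * Qb V W +
      2 * (-2 * xi00 m p - p 8 / 2) * Eb m V W := by
  have h1 : m - 1 ≠ 0 := sub_ne_zero.2 hm
  simp only [Eb, Qb, Rb, pa, xi, Matrix.mulVec, dotProduct, Fin.sum_univ_three, xi00, xi01]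
  simp
  field_simp
  ring

/-- the polarized first order change of `Qf` -/
lemma Qb_xi2 {m : ℝ} (hm : m ≠ 1) (p : P12) (V W : V3) :
    Qb V ((xi m p).mulVec W) + Qb ((xi m p).mulVec V) W =
    -(Rb (pb p) V W) + 2 * (xi00 m p + p 8 / 2) * Qb V W := by
  have h1 : m - 1 ≠ 0 := sub_ne_zero.2 hm
  simp only [Qb, Rb, pb, xi, Matrix.mulVec, dotProduct, Fin.sum_univ_three, xi00, xi01]
  simp
  field_simp
  ring

section lin

variable {m : ℝ} (p : P12) (V W : V3)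

lemma hd_V (i : Fin 3) : HasDerivAt (fun t : ℝ => act m (t • p) V i)
    ((xi m p).mulVec V i) 0 := by
  have h : (fun t : ℝ => act m (t • p) V i) = fun t => V i + t * (xi m p).mulVec V i := by
    funext t
    rw [act_smul]
    simp
  rw [h]
  simpa using ((hasDerivAt_id (0:ℝ)).mul_const ((xi m p).mulVec V i)).const_add (V i)

lemma act_zero : act m 0 V = V := by
  have := act_smul m 0 0 V
  simpa using this

/-- the derivative of a polynomial of the moved jet exists -/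
lemma ex_deriv {g : (V3 × V3) → ℝ} (hg : Differentiable ℝ g) :
    ∃ l, HasDerivAt (fun t : ℝ => g (act m (t • p) V, act m (t • p) W)) l 0 := by
  have h1 : HasDerivAt (fun t : ℝ => ((act m (t • p) V, act m (t • p) W) : V3 × V3))
      (((xi m p).mulVec V), ((xi m p).mulVec W)) 0 :=
    (hasDerivAt_pi.2 fun i => hd_V p V i).prodMk (hasDerivAt_pi.2 fun i => hd_V p W i)
  exact ⟨_, (hg _).hasFDerivAt.comp_hasDerivAt (0:ℝ) h1⟩

lemma hd_tmul {g : ℝ → ℝ} {l : ℝ} (hg : HasDerivAt g l 0) :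
    HasDerivAt (fun t => t * g t) (g 0) 0 := by
  refine ((hasDerivAt_id (0:ℝ)).mul hg).congr_deriv ?_
  simp

lemma G1_smul (t : ℝ) (c : Fin 4 → ℝ) (V W : V3) : G1 (t • c) V W = t * G1 c V W := by
  simp only [G1, Rf, Rb, Pi.smul_apply, smul_eq_mul]; ring

lemma G0_smul (t : ℝ) (c : Fin 4 → ℝ) (V W : V3) : G0 (t • c) V W = t * G0 c V W := by
  simp only [G0, Rf, Pi.smul_apply, smul_eq_mul]; ring

lemma G2_smul (t : ℝ) (c : Fin 4 → ℝ) (V W : V3) : G2 (t • c) V W = t * G2 c V W := by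
  simp only [G2, Rf, Rb, Pi.smul_apply, smul_eq_mul]; ring

lemma G3_smul (t : ℝ) (c : Fin 4 → ℝ) (V W : V3) : G3 (t • c) V W = t * G3 c V W := by
  simp only [G3, Rf, Rb, Pi.smul_apply, smul_eq_mul]; ring

lemma dif_Ef1 : Differentiable ℝ (fun z : V3 × V3 => Ef m z.1) := by unfold Ef; fun_prop
lemma dif_Ef2 : Differentiable ℝ (fun z : V3 × V3 => Ef m z.2) := by unfold Ef; fun_prop
lemma dif_Qf1 : Differentiable ℝ (fun z : V3 × V3 => Qf z.1) := by unfold Qf; fun_prop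
lemma dif_Qf2 : Differentiable ℝ (fun z : V3 × V3 => Qf z.2) := by unfold Qf; fun_prop
lemma dif_G0 (c : Fin 4 → ℝ) : Differentiable ℝ (fun z : V3 × V3 => G0 c z.1 z.2) := by
  unfold G0 Rf; fun_prop
lemma dif_G1 (c : Fin 4 → ℝ) : Differentiable ℝ (fun z : V3 × V3 => G1 c z.1 z.2) := by
  unfold G1 Rf Rb; fun_prop
lemma dif_G2 (c : Fin 4 → ℝ) : Differentiable ℝ (fun z : V3 × V3 => G2 c z.1 z.2) := by
  unfold G2 Rf Rb; fun_prop
lemma dif_G3 (c : Fin 4 → ℝ) : Differentiable ℝ (fun z : V3 × V3 => G3 c z.1 z.2) := by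
  unfold G3 Rf Rb; fun_prop

/-- the path of the numbers -/
theorem pthL (hm : m ≠ 1) {e : ℝ} (hE0 : Ef m V = 0) (hE1 : Eb m V W = 0) (hE2 : Ef m W = e)
    (hQ0 : Qf V = 1) (hQ1 : Qb V W = 0) :
    PthL (fun t => nmf m (t • p) V W) e (Qf W) (Rb (pa p) V W) (-(Rb (pb p) V W))
      (G1 (pc p) V W) (G3 (pc p) V W) where
  v_a0 := by simpa [nmf, nmj, act_zero] using hE0
  v_a1 := by simpa [nmf, nmj, act_zero] using hE1
  v_a2 := by simpa [nmf, nmj, act_zero] using hE2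
  v_al0 := by simpa [nmf, nmj, act_zero] using hQ0
  v_al1 := by simpa [nmf, nmj, act_zero] using hQ1
  v_al2 := by simp [nmf, nmj, act_zero]
  v_G0 := by
    simp only [nmf, nmj, pc_smul, G0_smul]
    ring
  v_G1 := by
    simp only [nmf, nmj, pc_smul, G1_smul]
    ring
  v_G2 := by
    simp only [nmf, nmj, pc_smul, G2_smul]
    ring
  v_G3 := by
    simp only [nmf, nmj, pc_smul, G3_smul]
    ring
  d_a0 := ex_deriv p V W dif_Ef1
  d_a1 := by
    have h : (fun t : ℝ => (nmf m (t • p) V W).a1) = fun t => Eb m V W +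
        t * (Eb m V ((xi m p).mulVec W) + Eb m ((xi m p).mulVec V) W) +
        t * (t * Eb m ((xi m p).mulVec V) ((xi m p).mulVec W)) := by
      funext t
      simp only [nmf, nmj, act_smul]
      simp only [Eb, Pi.add_apply, Pi.smul_apply, smul_eq_mul]
      ring
    rw [h, Eb_xi2 hm, hQ1, hE1]
    refine (((hd_tmul (hasDerivAt_const (0:ℝ) _)).const_add (0:ℝ)).add
      (hd_tmul ((hasDerivAt_id (0:ℝ)).mul_const _))).congr_deriv ?_
    simp
  d_a2 := ex_deriv p V W dif_Ef2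
  d_al0 := ex_deriv p V W dif_Qf1
  d_al1 := by
    have h : (fun t : ℝ => (nmf m (t • p) V W).al1) = fun t => Qb V W +
        t * (Qb V ((xi m p).mulVec W) + Qb ((xi m p).mulVec V) W) +
        t * (t * Qb ((xi m p).mulVec V) ((xi m p).mulVec W)) := by
      funext t
      simp only [nmf, nmj, act_smul]
      simp only [Qb, Pi.add_apply, Pi.smul_apply, smul_eq_mul]
      ring
    rw [h, Qb_xi2 hm, hQ1]
    refine (((hd_tmul (hasDerivAt_const (0:ℝ) _)).const_add (0:ℝ)).add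
      (hd_tmul ((hasDerivAt_id (0:ℝ)).mul_const _))).congr_deriv ?_
    simp
  d_al2 := ex_deriv p V W dif_Qf2
  d_G0 := by
    obtain ⟨l, hl⟩ := ex_deriv (m := m) p V W (dif_G0 (pc p))
    refine ⟨_, (hd_tmul hl).congr_of_eventuallyEq (Eventually.of_forall fun t => ?_)⟩
    simp only [nmf, nmj, pc_smul, G0_smul]
  d_G1 := by
    obtain ⟨l, hl⟩ := ex_deriv (m := m) p V W (dif_G1 (pc p))
    refine ((hd_tmul hl).congr_of_eventuallyEq
      (Eventually.of_forall fun t => ?_)).congr_deriv ?_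
    · simp only [nmf, nmj, pc_smul, G1_smul]
    · simp [act_zero]
  d_G2 := by
    obtain ⟨l, hl⟩ := ex_deriv (m := m) p V W (dif_G2 (pc p))
    refine ⟨_, (hd_tmul hl).congr_of_eventuallyEq (Eventually.of_forall fun t => ?_)⟩
    simp only [nmf, nmj, pc_smul, G2_smul]
  d_G3 := by
    obtain ⟨l, hl⟩ := ex_deriv (m := m) p V W (dif_G3 (pc p))
    refine ((hd_tmul hl).congr_of_eventuallyEq
      (Eventually.of_forall fun t => ?_)).congr_deriv ?_
    · simp only [nmf, nmj, pc_smul, G3_smul]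
    · simp [act_zero]

end lin

/-! ## smoothness -/

/-- the defects as functions of the jet and of the parameters -/
def cfL (m : ℝ) (z : (V3 × V3) × P12) : ℝ × ℝ :=
  ((nmf m z.2 z.1.1 z.1.2).e0, (nmf m z.2 z.1.1 z.1.2).e1)

/-- where everything is smooth -/
def UL (m : ℝ) : Set ((V3 × V3) × P12) := {z | (nmf m z.2 z.1.1 z.1.2).al0 ≠ 0}

section smooth

variable (m : ℝ)

lemma sm_a1 (i : Fin 3) : ContDiff ℝ 1 (fun z : (V3 × V3) × P12 => act m z.2 z.1.1 i) := by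
  fin_cases i
  · simp only [Fin.zero_eta, act_apply0, xi00, xi01]; fun_prop
  · simp only [Fin.mk_one, act_apply1, xi00, xi01]; fun_prop
  · simp only [Fin.reduceFinMk, act_apply2, xi00]; fun_prop

lemma sm_a2 (i : Fin 3) : ContDiff ℝ 1 (fun z : (V3 × V3) × P12 => act m z.2 z.1.2 i) := by
  fin_cases i
  · simp only [Fin.zero_eta, act_apply0, xi00, xi01]; fun_prop
  · simp only [Fin.mk_one, act_apply1, xi00, xi01]; fun_prop
  · simp only [Fin.reduceFinMk, act_apply2, xi00]; fun_prop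

lemma sm_c (i : Fin 4) : ContDiff ℝ 1 (fun z : (V3 × V3) × P12 => pc z.2 i) := by
  fin_cases i
  · simp only [Fin.zero_eta, pc, Matrix.cons_val]; fun_prop
  · simp only [Fin.mk_one, pc, Matrix.cons_val]; fun_prop
  · simp only [Fin.reduceFinMk, pc, Matrix.cons_val]; fun_prop
  · simp only [Fin.reduceFinMk, pc, Matrix.cons_val]; fun_prop

variable {m}
variable {z : (V3 × V3) × P12}

lemma sm_num : ContDiff ℝ 1 (fun z : (V3 × V3) × P12 => (nmf m z.2 z.1.1 z.1.2).a0) ∧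
    ContDiff ℝ 1 (fun z : (V3 × V3) × P12 => (nmf m z.2 z.1.1 z.1.2).a1) ∧
    ContDiff ℝ 1 (fun z : (V3 × V3) × P12 => (nmf m z.2 z.1.1 z.1.2).a2) ∧
    ContDiff ℝ 1 (fun z : (V3 × V3) × P12 => (nmf m z.2 z.1.1 z.1.2).al0) ∧
    ContDiff ℝ 1 (fun z : (V3 × V3) × P12 => (nmf m z.2 z.1.1 z.1.2).al1) ∧
    ContDiff ℝ 1 (fun z : (V3 × V3) × P12 => (nmf m z.2 z.1.1 z.1.2).al2) ∧
    ContDiff ℝ 1 (fun z : (V3 × V3) × P12 => (nmf m z.2 z.1.1 z.1.2).G0) ∧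
    ContDiff ℝ 1 (fun z : (V3 × V3) × P12 => (nmf m z.2 z.1.1 z.1.2).G1) ∧
    ContDiff ℝ 1 (fun z : (V3 × V3) × P12 => (nmf m z.2 z.1.1 z.1.2).G2) ∧
    ContDiff ℝ 1 (fun z : (V3 × V3) × P12 => (nmf m z.2 z.1.1 z.1.2).G3) := by
  have v0 := sm_a1 m 0
  have v1 := sm_a1 m 1
  have v2 := sm_a1 m 2
  have w0 := sm_a2 m 0
  have w1 := sm_a2 m 1
  have w2 := sm_a2 m 2
  have c0 := sm_c 0
  have c1 := sm_c 1
  have c2 := sm_c 2
  have c3 := sm_c 3
  simp only [nmf, nmj, Ef, Eb, Qf, Qb, G0, G1, G2, G3, Rf, Rb]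
  refine ⟨?_, ?_, ?_, ?_, ?_, ?_, ?_, ?_, ?_, ?_⟩ <;> fun_prop

lemma isOpen_UL : IsOpen (UL m) := by
  have h := (sm_num (m := m)).2.2.2.1.continuous
  exact isOpen_ne.preimage h

lemma cd_cfL : ContDiffOn ℝ 1 (cfL m) (UL m) := by
  obtain ⟨a0, a1, a2, al0, al1, al2, g0, g1, g2, g3⟩ := sm_num (m := m)
  have a0 := a0.contDiffOn (s := UL m)
  have a1 := a1.contDiffOn (s := UL m)
  have a2 := a2.contDiffOn (s := UL m)
  have al0 := al0.contDiffOn (s := UL m)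
  have al1 := al1.contDiffOn (s := UL m)
  have al2 := al2.contDiffOn (s := UL m)
  have g0 := g0.contDiffOn (s := UL m)
  have g1 := g1.contDiffOn (s := UL m)
  have g2 := g2.contDiffOn (s := UL m)
  have g3 := g3.contDiffOn (s := UL m)
  have ka : ContDiffOn ℝ 1 (fun z : (V3 × V3) × P12 => (nmf m z.2 z.1.1 z.1.2).ka) (UL m) :=
    al1.div (contDiffOn_const.mul al0) fun _ hz => mul_ne_zero two_ne_zero hz
  have la : ContDiffOn ℝ 1 (fun z : (V3 × V3) × P12 => (nmf m z.2 z.1.1 z.1.2).la) (UL m) :=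
    (al2.div al0 fun _ hz => hz).sub (ka.pow 2)
  have b1 : ContDiffOn ℝ 1 (fun z : (V3 × V3) × P12 => (nmf m z.2 z.1.1 z.1.2).b1) (UL m) :=
    a1.sub (contDiffOn_const.mul (ka.mul a0))
  have b2 : ContDiffOn ℝ 1 (fun z : (V3 × V3) × P12 => (nmf m z.2 z.1.1 z.1.2).b2) (UL m) :=
    (a2.sub (ka.mul a1)).add ((ka.pow 2).mul a0)
  have k1 : ContDiffOn ℝ 1 (fun z : (V3 × V3) × P12 => (nmf m z.2 z.1.1 z.1.2).g1) (UL m) :=
    g1.sub (contDiffOn_const.mul (ka.mul g0))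
  have k2 : ContDiffOn ℝ 1 (fun z : (V3 × V3) × P12 => (nmf m z.2 z.1.1 z.1.2).g2) (UL m) :=
    (g2.sub (contDiffOn_const.mul (ka.mul g1))).add (contDiffOn_const.mul ((ka.pow 2).mul g0))
  have k3 : ContDiffOn ℝ 1 (fun z : (V3 × V3) × P12 => (nmf m z.2 z.1.1 z.1.2).g3) (UL m) :=
    ((g3.sub (contDiffOn_const.mul (ka.mul g2))).add
      (contDiffOn_const.mul ((ka.pow 2).mul g1))).sub (contDiffOn_const.mul ((ka.pow 3).mul g0))
  have e0 : ContDiffOn ℝ 1 (fun z : (V3 × V3) × P12 => (nmf m z.2 z.1.1 z.1.2).e0) (UL m) :=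
    (b1.div al0 fun _ hz => hz).add (k1.div (al0.pow 2) fun _ hz => pow_ne_zero 2 hz)
  have psi2 : ContDiffOn ℝ 1 (fun z : (V3 × V3) × P12 => (nmf m z.2 z.1.1 z.1.2).psi2) (UL m) :=
    ((b2.sub (la.mul a0)).div al0 fun _ hz => hz).add
      ((k2.sub (contDiffOn_const.mul (la.mul g0))).div (al0.pow 2) fun _ hz => pow_ne_zero 2 hz)
  have G3t : ContDiffOn ℝ 1 (fun z : (V3 × V3) × P12 => (nmf m z.2 z.1.1 z.1.2).G3t) (UL m) :=
    (k3.sub (la.mul k1)).div (al0.pow 2) fun _ hz => pow_ne_zero 2 hz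
  have e1 : ContDiffOn ℝ 1 (fun z : (V3 × V3) × P12 => (nmf m z.2 z.1.1 z.1.2).e1) (UL m) :=
    ((G3t.sub (la.mul e0)).sub (contDiffOn_const.mul (ka.mul psi2))).add ((ka.pow 2).mul e0)
  exact e0.prodMk e1

end smooth

/-! ## the choice of the parameters -/

/-- the kernel element as a pair of functions -/
def kerL (m : ℝ) (p : P12) (V W : V3) : ℝ × ℝ :=
  (f1 p V W, f3 m p V W - 2 * Qf W * f1 p V W)

namespace BC

variable {m e k : ℝ} {V W : ℝ → V3} (h : BC m e k V W)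
include h

lemma mne : m ≠ 1 := h.m1.ne

lemma pth (p : P12) (x : ℝ) : PthL (fun t => nmf m (t • p) (V x) (W x)) e (Qf (W x))
    (Rb (pa p) (V x) (W x)) (-(Rb (pb p) (V x) (W x))) (G1 (pc p) (V x) (W x))
    (G3 (pc p) (V x) (W x)) :=
  pthL p (V x) (W x) h.mne (h.E0 x) (h.E1 x) (h.E2 x) (h.Q0 x) (h.Q1 x)

lemma mem (x : ℝ) : (((V x, W x) : V3 × V3), (0 : P12)) ∈ UL m := by
  have h1 := (h.pth 0 x).v_al0
  simp only [smul_zero] at h1
  show (nmf m 0 (V x) (W x)).al0 ≠ 0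
  rw [h1]
  norm_num

lemma cf_zero (x : ℝ) : cfL m ((V x, W x), 0) = 0 := by
  have h1 := (h.pth 0 x).v_e0
  have h2 := (h.pth 0 x).v_e1
  simp only [smul_zero] at h1 h2
  exact Prod.ext h1 h2

/-- the derivative of the defects -/
lemma fderiv_cf (x : ℝ) (p : P12) :
    fderiv ℝ (cfL m) ((V x, W x), 0) (0, p) = kerL m p (V x) (W x) := by
  have h1 : HasFDerivAt (cfL m) (fderiv ℝ (cfL m) ((V x, W x), 0)) ((V x, W x), 0) :=
    ((cd_cfL.contDiffAt (isOpen_UL.mem_nhds (h.mem x))).differentiableAt (by simp)).hasFDerivAt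
  have h2 : HasDerivAt (fun t : ℝ => (((V x, W x), t • p) : (V3 × V3) × P12)) (0, p) 0 := by
    have h3 : HasDerivAt (fun t : ℝ => t • p) p 0 := by
      simpa using (hasDerivAt_id (0:ℝ)).smul_const p
    exact (hasDerivAt_const (0:ℝ) ((V x, W x) : V3 × V3)).prodMk h3
  have h4 : HasDerivAt (fun t : ℝ => cfL m ((V x, W x), t • p))
      (fderiv ℝ (cfL m) ((V x, W x), 0) (0, p)) 0 := by
    have h5 : HasFDerivAt (cfL m) (fderiv ℝ (cfL m) ((V x, W x), 0))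
        ((fun t : ℝ => (((V x, W x), t • p) : (V3 × V3) × P12)) 0) := by
      simpa using h1
    exact h5.comp_hasDerivAt (0:ℝ) h2
  have kp := h.pth p x
  rw [h4.unique (kp.d_e0.prodMk kp.d_e1)]
  refine Prod.ext ?_ ?_
  · simp only [kerL, f1]
    ring
  · simp only [kerL, f1, f3, h.E2 x]
    ring

/-- The frame and the quartic form. -/
theorem con_loc : ∃ C > 0, ∃ ε0 > 0, ∀ ε : ℝ, 0 ≤ ε → ε ≤ ε0 → ∀ V' W' : ℝ → V3,
    Continuous V' → Continuous W' → (∀ x ∈ Icc (0:ℝ) 1, ‖V' x - V x‖ ≤ ε) →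
    (∀ x ∈ Icc (0:ℝ) 1, ‖W' x - W x‖ ≤ ε) →
    ∃ p : P12, ‖p‖ ≤ C * ε ∧ (∀ x ∈ Icc (0:ℝ) 1, (nmf m p (V' x) (W' x)).al0 ≠ 0) ∧
      ∀ i, ∫ x in (0:ℝ)..1,
        ((kerL m (Pi.single i 1) (V x) (W x)).1 * (nmf m p (V' x) (W' x)).e0 +
          (kerL m (Pi.single i 1) (V x) (W x)).2 * (nmf m p (V' x) (W' x)).e1) = 0 := by
  obtain ⟨C, hC, ε0, hε0, H⟩ := gram_solve (n := 12) (by norm_num) (f := cfL m) (U := UL m)
    isOpen_UL cd_cfL (J0 := fun x => (V x, W x)) (h.cV.prodMk h.cW) h.mem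
    (fun x _ => h.cf_zero x) (fun p hp => by
      refine h.inj p (fun x hx => ?_) (fun x hx => ?_)
      · have h1 := hp x hx
        rw [h.fderiv_cf] at h1
        exact congrArg Prod.fst h1
      · have h1 := hp x hx
        rw [h.fderiv_cf] at h1
        exact congrArg Prod.snd h1)
  refine ⟨C, hC, ε0, hε0, fun ε h0 h1 V' W' cV cW bV bW => ?_⟩
  obtain ⟨p, hp, hU, hz⟩ := H ε h0 h1 (fun x => (V' x, W' x)) (cV.prodMk cW) (fun x hx => by
    rw [norm_prod_le_iff]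
    exact ⟨bV x hx, bW x hx⟩)
  refine ⟨p, hp, fun x hx => hU x hx, fun i => ?_⟩
  have h2 := hz i
  simp only [h.fderiv_cf] at h2
  exact h2

end BC

end Pool.Agent.MP_ae5b4e_an_LOC
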