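import Mathlib
import Pool.Agent.Lib.MP_ae5b4e_an_LOC.LTS
import Pool.Agent.Lib.MP_ae5b4e_an_LOC.InvS

/-!
# LOC, LT-9: the statements of `LTS.lean`
-/

set_option autoImplicit false

namespace Pool.Agent.MP_ae5b4e_an_LOC

open Set Metric Complex ComplexConjugate Filter Topology

theorem linv_stmt (B : Bg) : LInvStmt B := by
  obtain ⟨A⟩ := exists_TInv B
  have hk := B.kap_pos
  have hr := A.rho1_pos
  refine ⟨A.w1, A.rho1, A.rho1 / (2 * B.kap), A.C, A.T, A.w1_pos, A.w1_le, hr, by positivity, ?_,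
    A.one_le_C, A.an, A.T_lt, A.s_T, ?_, ?_, A.odd, A.T_conj, A.close⟩
  · rw [div_le_iff₀ (by positivity)]
    have := A.rho1_le'
    have := B.rho_pos
    nlinarith
  · intro om hom z hz
    exact A.s_lt om hom z (mem_ball_zero_iff.mp hz)
  · intro om hom z hz
    exact A.T_s om hom z (mem_ball_zero_iff.mp hz)

theorem sgn_stmt (B : Bg) : SgnStmt B := by
  have h4 := B.dl_rho
  have hd := B.dl_pos
  refine ⟨B.dl, B.dl, hd, B.dl_r, hd, by linarith, le_rfl, ?_, ?_, ?_, ?_, ?_, ?_, ?_, ?_⟩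
  · intro om x h1 h2
    exact B.s_real h1 (by linarith)
  · intro om z h1 h2 h3
    exact B.s_im_neg h1 h2 h3
  · intro om x y h1 h2 h3 h5
    exact B.s_lt_real h1 h2.le h3.le h5
  · intro om z h1 h2 h3
    exact B.N_slit h1 h2 h3
  · intro om x h1 h2 h3
    have ha : |om| < B.dl := by rwa [abs_of_pos h1]
    exact ⟨B.N_pos ha h3, B.N_real ha (by linarith)⟩
  · intro om x h1 h2 h3 h5
    have ha : |om| < B.dl := by rwa [abs_of_pos h1]
    exact ⟨B.N_neg ha (by rwa [abs_of_pos h1]) h3, B.N_real ha h3⟩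
  · intro om z h1 h2 h3 h5
    have ha : |om| < B.dl := by rwa [abs_of_pos h1]
    rw [B.N_im ha]
    have hi := B.s_im_neg ha h3 h5
    constructor
    · intro hre
      have := B.s_re_pos ha h3 hre
      nlinarith
    · intro hre
      have := B.s_re_neg ha h3 hre
      nlinarith
  · intro om z h1 h2 h3
    exact B.N_zero h1 (by linarith) h3

end Pool.Agent.MP_ae5b4e_an_LOC
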