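import Mathlib
import Pool.Agent.Lib.MP_ae5b4e_an_LOC.JacR

/-!
# MP_ae5b4e_an, project LOC: joint continuity of the Jacobi functions in the modulus

The Jacobi functions are continuous in `(m, u)` for `0 ≤ m < 1`, and the quarter period tends to
infinity for `m → 1`: `exp (- 2 K(m)) ≤ 1 - m`.
-/

set_option autoImplicit false

noncomputable section

namespace Pool.Agent.MP_ae5b4e_an_LOC

open Set Filter Topology MeasureTheory

/-- the elliptic integral is jointly continuous -/
lemma ath_joint : Continuous fun z : Ico (0:ℝ) 1 × ℝ => ath z.1 z.2 := by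
  have hf : Continuous (Function.uncurry fun (z : Ico (0:ℝ) 1 × ℝ) (t : ℝ) =>
      (Real.sqrt (rad z.1 t))⁻¹) := by
    refine Continuous.inv₀ (Real.continuous_sqrt.comp ?_) fun p => ?_
    · unfold rad
      fun_prop
    · exact (Real.sqrt_pos.2 (rad_pos p.1.1.2.1 p.1.1.2.2 p.2)).ne'
  exact intervalIntegral.continuous_parametric_intervalIntegral_of_continuous hf continuous_snd

lemma ath_expand {m : ℝ} (h0 : 0 ≤ m) (h1 : m < 1) (θ θ' : ℝ) :
    |θ - θ'| ≤ |ath m θ - ath m θ'| := by
  have h := ath_sub_mono h0 h1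
  rcases le_total θ θ' with h2 | h2
  · have h3 := h h2
    simp only at h3
    rw [abs_of_nonpos (by linarith), abs_of_nonpos (by linarith)]
    linarith
  · have h3 := h h2
    simp only at h3
    rw [abs_of_nonneg (by linarith), abs_of_nonneg (by linarith)]
    linarith

/-- the amplitude is jointly continuous -/
lemma am_joint : Continuous fun z : Ico (0:ℝ) 1 × ℝ => am z.1 z.2 := by
  rw [continuous_iff_continuousAt]
  intro z0
  have h1 : Tendsto (fun z : Ico (0:ℝ) 1 × ℝ => |z.2 - ath z.1 (am z0.1 z0.2)|) (𝓝 z0) (𝓝 0) := by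
    have hc : Continuous fun z : Ico (0:ℝ) 1 × ℝ => |z.2 - ath z.1 (am z0.1 z0.2)| := by
      refine (continuous_snd.sub ?_).abs
      exact ath_joint.comp (continuous_fst.prodMk continuous_const)
    have h2 := hc.tendsto z0
    rwa [ath_am z0.1.2.1 z0.1.2.2, sub_self, abs_zero] at h2
  show Tendsto _ _ _
  rw [tendsto_iff_dist_tendsto_zero]
  refine squeeze_zero (fun z => dist_nonneg) (fun z => ?_) h1
  rw [Real.dist_eq]
  refine (ath_expand z.1.2.1 z.1.2.2 _ _).trans (le_of_eq ?_)
  rw [ath_am z.1.2.1 z.1.2.2]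

lemma KK_joint : Continuous fun m : Ico (0:ℝ) 1 => KK m :=
  ath_joint.comp (continuous_id.prodMk continuous_const)

lemma sn_joint : Continuous fun z : Ico (0:ℝ) 1 × ℝ => sn z.1 z.2 :=
  Real.continuous_sin.comp am_joint

lemma cn_joint : Continuous fun z : Ico (0:ℝ) 1 × ℝ => cn z.1 z.2 :=
  Real.continuous_cos.comp am_joint

lemma dn_joint : Continuous fun z : Ico (0:ℝ) 1 × ℝ => dn z.1 z.2 := by
  refine Real.continuous_sqrt.comp ?_
  have h := am_joint
  have h1 : Continuous fun z : Ico (0:ℝ) 1 × ℝ => ((z.1 : ℝ)) := continuous_subtype_val.comp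
    continuous_fst
  unfold rad
  exact continuous_const.sub (h1.mul ((Real.continuous_sin.comp h).pow 2))

/-- the quarter period is large for `m` near one -/
lemma KK_log {m : ℝ} (h0 : 0 ≤ m) (h1 : m < 1) : -Real.log (Real.sqrt (1 - m)) ≤ KK m := by
  set c := Real.sqrt (1 - m) with hc
  have hc0 : 0 < c := Real.sqrt_pos.2 (by linarith)
  have hc2 : c ^ 2 = 1 - m := Real.sq_sqrt (by linarith)
  have hpi : 0 < Real.pi / 2 := by positivity
  have hd : ∀ θ ∈ Icc (0:ℝ) (Real.pi / 2), HasDerivAt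
      (fun θ => ath m θ + Real.log (c + Real.pi / 2 - θ))
      ((Real.sqrt (rad m θ))⁻¹ + (-1) / (c + Real.pi / 2 - θ)) θ := by
    intro θ hθ
    have hp : c + Real.pi / 2 - θ ≠ 0 := by
      have := hθ.2
      linarith
    exact (ath_hasDerivAt h0 h1 θ).add (((hasDerivAt_id θ).const_sub _).log hp)
  have hmono : MonotoneOn (fun θ => ath m θ + Real.log (c + Real.pi / 2 - θ))
      (Icc (0:ℝ) (Real.pi / 2)) := by
    refine monotoneOn_of_deriv_nonneg (convex_Icc _ _)
      (fun θ hθ => (hd θ hθ).continuousAt.continuousWithinAt) (fun θ hθ => ?_) fun θ hθ => ?_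
    · exact (hd θ (interior_subset hθ)).differentiableAt.differentiableWithinAt
    · have hθ' := interior_subset hθ
      rw [(hd θ hθ').deriv]
      have hp : 0 < c + Real.pi / 2 - θ := by
        have := hθ'.2
        linarith
      have hs : 0 < Real.sqrt (rad m θ) := Real.sqrt_pos.2 (rad_pos h0 h1 θ)
      have hcos : Real.cos θ ≤ Real.pi / 2 - θ := by
        rw [← Real.sin_pi_div_two_sub]
        exact Real.sin_le (by linarith [hθ'.2])
      have hcos0 : 0 ≤ Real.cos θ :=
        Real.cos_nonneg_of_mem_Icc ⟨by linarith [hθ'.1], hθ'.2⟩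
      have hle : Real.sqrt (rad m θ) ≤ c + Real.pi / 2 - θ := by
        rw [Real.sqrt_le_left hp.le]
        have e1 : rad m θ = (1 - m) + m * Real.cos θ ^ 2 := by
          unfold rad
          rw [Real.sin_sq]
          ring
        rw [e1, ← hc2]
        have h3 : m * Real.cos θ ^ 2 ≤ (Real.pi / 2 - θ) ^ 2 := by
          have : Real.cos θ ^ 2 ≤ (Real.pi / 2 - θ) ^ 2 := by
            exact pow_le_pow_left₀ hcos0 hcos 2
          nlinarith [sq_nonneg (Real.cos θ)]
        have h4 : 0 ≤ c * (Real.pi / 2 - θ) := mul_nonneg hc0.le (by linarith [hθ'.2])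
        nlinarith
      have h5 : (c + Real.pi / 2 - θ)⁻¹ ≤ (Real.sqrt (rad m θ))⁻¹ := inv_anti₀ hs hle
      have h6 : (-1) / (c + Real.pi / 2 - θ) = -(c + Real.pi / 2 - θ)⁻¹ := by
        rw [neg_div, one_div]
      rw [h6]
      linarith
  have h2 := hmono ⟨le_rfl, hpi.le⟩ ⟨hpi.le, le_rfl⟩ hpi.le
  simp only [ath_zero, sub_zero, zero_add, add_sub_cancel_right] at h2
  have h3 : 0 ≤ Real.log (c + Real.pi / 2) := by
    refine Real.log_nonneg ?_
    have := Real.pi_gt_three
    linarith
  have h4 : KK m = ath m (Real.pi / 2) := rfl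
  rw [h4]
  linarith

/-- a bound of the quarter period bounds the modulus away from one -/
lemma KK_bd {m B : ℝ} (h0 : 0 ≤ m) (h1 : m < 1) (hB : KK m ≤ B) :
    m ≤ 1 - Real.exp (-(2 * B)) := by
  have h := (KK_log h0 h1).trans hB
  have hc0 : 0 < Real.sqrt (1 - m) := Real.sqrt_pos.2 (by linarith)
  have h2 : Real.exp (-B) ≤ Real.sqrt (1 - m) := by
    rw [← Real.le_log_iff_exp_le hc0]
    linarith
  have h3 : Real.exp (-(2 * B)) = Real.exp (-B) ^ 2 := by
    rw [← Real.exp_nat_mul]
    congr 1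
    push_cast
    ring
  have h4 : Real.exp (-B) ^ 2 ≤ Real.sqrt (1 - m) ^ 2 :=
    pow_le_pow_left₀ (Real.exp_pos _).le h2 2
  rw [Real.sq_sqrt (by linarith)] at h4
  rw [h3]
  linarith

end Pool.Agent.MP_ae5b4e_an_LOC
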