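import Pool.Agent.Lib.MP_ae5b4e_an_LOC.JacR

/-!
Complex Jacobi functions by the closed addition formula.
-/

namespace Pool.Agent.MP_ae5b4e_an_LOC

open Complex Set Filter Topology

noncomputable section

/-! ### Cauchy-Riemann calculus -/

/-- F is real differentiable at z with partial derivatives a (in x) and b (in y) -/
def HP (F : ℂ → ℂ) (z a b : ℂ) : Prop :=
  ∃ L : ℂ →L[ℝ] ℂ, HasFDerivAt F L z ∧ L 1 = a ∧ L I = b

lemma HP.add {F G : ℂ → ℂ} {z a b a' b' : ℂ} (h : HP F z a b) (h' : HP G z a' b') :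
    HP (fun w => F w + G w) z (a + a') (b + b') := by
  obtain ⟨L, hL, e1, e2⟩ := h
  obtain ⟨L', hL', e1', e2'⟩ := h'
  exact ⟨L + L', hL.add hL', by simp [e1, e1'], by simp [e2, e2']⟩

lemma HP.sub {F G : ℂ → ℂ} {z a b a' b' : ℂ} (h : HP F z a b) (h' : HP G z a' b') :
    HP (fun w => F w - G w) z (a - a') (b - b') := by
  obtain ⟨L, hL, e1, e2⟩ := h
  obtain ⟨L', hL', e1', e2'⟩ := h'
  exact ⟨L - L', hL.sub hL', by simp [e1, e1'], by simp [e2, e2']⟩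

lemma HP.mul {F G : ℂ → ℂ} {z a b a' b' : ℂ} (h : HP F z a b) (h' : HP G z a' b') :
    HP (fun w => F w * G w) z (a * G z + F z * a') (b * G z + F z * b') := by
  obtain ⟨L, hL, e1, e2⟩ := h
  obtain ⟨L', hL', e1', e2'⟩ := h'
  refine ⟨_, hL.mul hL', ?_, ?_⟩
  · simp [e1, e1']; ring
  · simp [e2, e2']; ring

lemma HP.const (c z : ℂ) : HP (fun _ => c) z 0 0 :=
  ⟨0, hasFDerivAt_const c z, by simp, by simp⟩

lemma HP.div {F G : ℂ → ℂ} {z a b a' b' : ℂ} (h : HP F z a b) (h' : HP G z a' b') (hG : G z ≠ 0) :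
    HP (fun w => F w / G w) z ((a * G z - F z * a') / G z ^ 2)
      ((b * G z - F z * b') / G z ^ 2) := by
  obtain ⟨L, hL, e1, e2⟩ := h
  obtain ⟨L', hL', e1', e2'⟩ := h'
  have hi := ((hasDerivAt_inv hG).hasFDerivAt.restrictScalars ℝ).comp z hL'
  have := hL.mul hi
  refine ⟨_, this.congr_of_eventuallyEq (Eventually.of_forall fun w => by simp [div_eq_mul_inv]), ?_, ?_⟩
  · simp [e1, e1']; field_simp; ring
  · simp [e2, e2']; field_simp; ring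

lemma HP.re {f : ℝ → ℝ} {f' : ℝ} {z : ℂ} (h : HasDerivAt f f' z.re) :
    HP (fun w => (f w.re : ℂ)) z f' 0 := by
  have h1 : HasFDerivAt (fun w : ℂ => f w.re) (f' • reCLM) z :=
    h.comp_hasFDerivAt z reCLM.hasFDerivAt
  have h2 := ofRealCLM.hasFDerivAt.comp z h1
  exact ⟨_, h2, by simp, by simp⟩

lemma HP.im {f : ℝ → ℝ} {f' : ℝ} {z : ℂ} (h : HasDerivAt f f' z.im) :
    HP (fun w => (f w.im : ℂ)) z 0 f' := by
  have h1 : HasFDerivAt (fun w : ℂ => f w.im) (f' • imCLM) z :=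
    h.comp_hasFDerivAt z imCLM.hasFDerivAt
  have h2 := ofRealCLM.hasFDerivAt.comp z h1
  exact ⟨_, h2, by simp, by simp⟩

lemma HP.hasDerivAt {F : ℂ → ℂ} {z a b : ℂ} (h : HP F z a b) (hb : b = I * a) :
    HasDerivAt F a z := by
  obtain ⟨L, hL, e1, e2⟩ := h
  have key : (ContinuousLinearMap.toSpanSingleton ℂ a).restrictScalars ℝ = L := by
    ext w
    have : L w = L ((w.re : ℝ) • (1:ℂ) + (w.im : ℝ) • I) := by
      congr 1
      simp [Complex.re_add_im]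
    rw [this, map_add, map_smul, map_smul, e1, e2, hb]
    simp only [ContinuousLinearMap.coe_restrictScalars', ContinuousLinearMap.toSpanSingleton_apply,
      smul_eq_mul, real_smul]
    conv_lhs => rw [← Complex.re_add_im w]
    ring
  exact hasFDerivAt_of_restrictScalars ℝ hL key

/-! ### the functions -/

variable {m : ℝ}

def JD (m : ℝ) (z : ℂ) : ℂ :=
  (cn (1 - m) z.im : ℂ) * (cn (1 - m) z.im : ℂ) +
    (m : ℂ) * ((sn m z.re : ℂ) * (sn m z.re : ℂ)) * ((sn (1 - m) z.im : ℂ) * (sn (1 - m) z.im : ℂ))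

def NS (m : ℝ) (z : ℂ) : ℂ :=
  (sn m z.re : ℂ) * (dn (1 - m) z.im : ℂ) +
    I * ((cn m z.re : ℂ) * (dn m z.re : ℂ)) * ((sn (1 - m) z.im : ℂ) * (cn (1 - m) z.im : ℂ))

def NC (m : ℝ) (z : ℂ) : ℂ :=
  (cn m z.re : ℂ) * (cn (1 - m) z.im : ℂ) -
    I * ((sn m z.re : ℂ) * (dn m z.re : ℂ)) * ((sn (1 - m) z.im : ℂ) * (dn (1 - m) z.im : ℂ))

def ND (m : ℝ) (z : ℂ) : ℂ :=
  (dn m z.re : ℂ) * ((cn (1 - m) z.im : ℂ) * (dn (1 - m) z.im : ℂ)) -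
    I * (m : ℂ) * ((sn m z.re : ℂ) * (cn m z.re : ℂ)) * (sn (1 - m) z.im : ℂ)

/-- complex sn, cn, dn -/
def Sn (m : ℝ) (z : ℂ) : ℂ := NS m z / JD m z
def Cn (m : ℝ) (z : ℂ) : ℂ := NC m z / JD m z
def Dn (m : ℝ) (z : ℂ) : ℂ := ND m z / JD m z

section alg

variable {M s c d s1 c1 d1 : ℂ} (e1 : s ^ 2 + c ^ 2 = 1) (e2 : d ^ 2 + M * s ^ 2 = 1)
  (e3 : s1 ^ 2 + c1 ^ 2 = 1) (e4 : d1 ^ 2 + (1 - M) * s1 ^ 2 = 1)

include e1 e2 e3 e4

lemma alg_s_x :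
    (c * d * d1 - I * (s * (d * d + M * (c * c))) * (s1 * c1)) *
        (c1 * c1 + M * (s * s) * (s1 * s1)) -
      (s * d1 + I * (c * d) * (s1 * c1)) * (2 * M * (s * c * d) * (s1 * s1)) =
    (c * c1 - I * (s * d) * (s1 * d1)) * (d * (c1 * d1) - I * M * (s * c) * s1) := by
  have hI : I ^ 2 = -1 := I_sq
  grind

lemma alg_s_y :
    (-(1 - M) * s * (s1 * c1) + I * (c * d) * (d1 * (c1 * c1 - s1 * s1))) *
        (c1 * c1 + M * (s * s) * (s1 * s1)) -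
      (s * d1 + I * (c * d) * (s1 * c1)) * (-2 * (s1 * c1 * d1) * (1 - M * (s * s))) =
    I * ((c * c1 - I * (s * d) * (s1 * d1)) * (d * (c1 * d1) - I * M * (s * c) * s1)) := by
  have hI : I ^ 2 = -1 := I_sq
  grind

lemma alg_c_x :
    (-(s * d * c1) - I * (c * (d * d - M * (s * s))) * (s1 * d1)) *
        (c1 * c1 + M * (s * s) * (s1 * s1)) -
      (c * c1 - I * (s * d) * (s1 * d1)) * (2 * M * (s * c * d) * (s1 * s1)) =
    -((s * d1 + I * (c * d) * (s1 * c1)) * (d * (c1 * d1) - I * M * (s * c) * s1)) := by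
  have hI : I ^ 2 = -1 := I_sq
  grind

lemma alg_c_y :
    (-(c * (s1 * d1)) - I * (s * d) * (c1 * (d1 * d1 - (1 - M) * (s1 * s1)))) *
        (c1 * c1 + M * (s * s) * (s1 * s1)) -
      (c * c1 - I * (s * d) * (s1 * d1)) * (-2 * (s1 * c1 * d1) * (1 - M * (s * s))) =
    I * -((s * d1 + I * (c * d) * (s1 * c1)) * (d * (c1 * d1) - I * M * (s * c) * s1)) := by
  have hI : I ^ 2 = -1 := I_sq
  grind

lemma alg_d_x :
    (-(M * s * c * (c1 * d1)) - I * M * (d * (c * c - s * s)) * s1) *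
        (c1 * c1 + M * (s * s) * (s1 * s1)) -
      (d * (c1 * d1) - I * M * (s * c) * s1) * (2 * M * (s * c * d) * (s1 * s1)) =
    -(M * ((s * d1 + I * (c * d) * (s1 * c1)) * (c * c1 - I * (s * d) * (s1 * d1)))) := by
  have hI : I ^ 2 = -1 := I_sq
  grind

lemma alg_d_y :
    (-(d * (s1 * (d1 * d1 + (1 - M) * (c1 * c1)))) - I * M * (s * c) * (c1 * d1)) *
        (c1 * c1 + M * (s * s) * (s1 * s1)) -
      (d * (c1 * d1) - I * M * (s * c) * s1) * (-2 * (s1 * c1 * d1) * (1 - M * (s * s))) =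
    I * -(M * ((s * d1 + I * (c * d) * (s1 * c1)) * (c * c1 - I * (s * d) * (s1 * d1)))) := by
  have hI : I ^ 2 = -1 := I_sq
  grind

lemma alg_sc : (s * d1 + I * (c * d) * (s1 * c1)) ^ 2 + (c * c1 - I * (s * d) * (s1 * d1)) ^ 2 =
    (c1 * c1 + M * (s * s) * (s1 * s1)) ^ 2 := by
  have hI : I ^ 2 = -1 := I_sq
  grind

lemma alg_sd : (d * (c1 * d1) - I * M * (s * c) * s1) ^ 2 +
    M * (s * d1 + I * (c * d) * (s1 * c1)) ^ 2 =
    (c1 * c1 + M * (s * s) * (s1 * s1)) ^ 2 := by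
  have hI : I ^ 2 = -1 := I_sq
  grind

end alg

lemma HP.congr {F : ℂ → ℂ} {z a b a' b' : ℂ} (h : HP F z a b) (ha : a = a') (hb : b = b') :
    HP F z a' b' := by subst ha hb; exact h

section rel

lemma rel1 (x : ℝ) : (sn m x : ℂ) ^ 2 + (cn m x : ℂ) ^ 2 = 1 := by
  exact_mod_cast sn_sq_add m x

lemma rel2 (h0 : 0 < m) (h1 : m < 1) (x : ℝ) : (dn m x : ℂ) ^ 2 + (m : ℂ) * (sn m x : ℂ) ^ 2 = 1 := by
  exact_mod_cast dn_sq h0.le h1 x

lemma rel3 (x : ℝ) : (sn (1 - m) x : ℂ) ^ 2 + (cn (1 - m) x : ℂ) ^ 2 = 1 := by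
  exact_mod_cast sn_sq_add (1 - m) x

lemma rel4 (h0 : 0 < m) (h1 : m < 1) (x : ℝ) : (dn (1 - m) x : ℂ) ^ 2 + (1 - (m : ℂ)) * (sn (1 - m) x : ℂ) ^ 2 = 1 := by
  exact_mod_cast dn_sq (m := 1 - m) (by linarith) (by linarith) x

variable (h0 : 0 < m) (h1 : m < 1)

include h0 h1

lemma JD_HP (z : ℂ) : HP (JD m) z
    (2 * (m : ℂ) * ((sn m z.re : ℂ) * (cn m z.re : ℂ) * (dn m z.re : ℂ)) *
      ((sn (1 - m) z.im : ℂ) * (sn (1 - m) z.im : ℂ)))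
    (-2 * ((sn (1 - m) z.im : ℂ) * (cn (1 - m) z.im : ℂ) * (dn (1 - m) z.im : ℂ)) *
      (1 - (m : ℂ) * ((sn m z.re : ℂ) * (sn m z.re : ℂ)))) := by
  have hm0 : (0:ℝ) ≤ 1 - m := by linarith
  have hm1 : 1 - m < 1 := by linarith
  have hs := HP.re (sn_hasDerivAt h0.le h1 z.re)
  have hs1 := HP.im (sn_hasDerivAt hm0 hm1 z.im)
  have hc1 := HP.im (cn_hasDerivAt hm0 hm1 z.im)
  refine ((hc1.mul hc1).add (((HP.const (m : ℂ) z).mul (hs.mul hs)).mul (hs1.mul hs1))).congr ?_ ?_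
  · push_cast; ring
  · push_cast; ring

lemma NS_HP (z : ℂ) : HP (NS m) z
    ((cn m z.re : ℂ) * (dn m z.re : ℂ) * (dn (1 - m) z.im : ℂ) -
      I * ((sn m z.re : ℂ) * ((dn m z.re : ℂ) * (dn m z.re : ℂ) +
        (m : ℂ) * ((cn m z.re : ℂ) * (cn m z.re : ℂ)))) *
        ((sn (1 - m) z.im : ℂ) * (cn (1 - m) z.im : ℂ)))
    (-(1 - (m : ℂ)) * (sn m z.re : ℂ) * ((sn (1 - m) z.im : ℂ) * (cn (1 - m) z.im : ℂ)) +
      I * ((cn m z.re : ℂ) * (dn m z.re : ℂ)) * ((dn (1 - m) z.im : ℂ) *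
        ((cn (1 - m) z.im : ℂ) * (cn (1 - m) z.im : ℂ) -
          (sn (1 - m) z.im : ℂ) * (sn (1 - m) z.im : ℂ)))) := by
  have hm0 : (0:ℝ) ≤ 1 - m := by linarith
  have hm1 : 1 - m < 1 := by linarith
  have hs := HP.re (sn_hasDerivAt h0.le h1 z.re)
  have hc := HP.re (cn_hasDerivAt h0.le h1 z.re)
  have hd := HP.re (dn_hasDerivAt h0.le h1 z.re)
  have hs1 := HP.im (sn_hasDerivAt hm0 hm1 z.im)
  have hc1 := HP.im (cn_hasDerivAt hm0 hm1 z.im)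
  have hd1 := HP.im (dn_hasDerivAt hm0 hm1 z.im)
  refine ((hs.mul hd1).add (((HP.const I z).mul (hc.mul hd)).mul (hs1.mul hc1))).congr ?_ ?_
  · push_cast; ring
  · push_cast; ring

lemma NC_HP (z : ℂ) : HP (NC m) z
    (-((sn m z.re : ℂ) * (dn m z.re : ℂ) * (cn (1 - m) z.im : ℂ)) -
      I * ((cn m z.re : ℂ) * ((dn m z.re : ℂ) * (dn m z.re : ℂ) -
        (m : ℂ) * ((sn m z.re : ℂ) * (sn m z.re : ℂ)))) *
        ((sn (1 - m) z.im : ℂ) * (dn (1 - m) z.im : ℂ)))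
    (-((cn m z.re : ℂ) * ((sn (1 - m) z.im : ℂ) * (dn (1 - m) z.im : ℂ))) -
      I * ((sn m z.re : ℂ) * (dn m z.re : ℂ)) * ((cn (1 - m) z.im : ℂ) *
        ((dn (1 - m) z.im : ℂ) * (dn (1 - m) z.im : ℂ) -
          (1 - (m : ℂ)) * ((sn (1 - m) z.im : ℂ) * (sn (1 - m) z.im : ℂ))))) := by
  have hm0 : (0:ℝ) ≤ 1 - m := by linarith
  have hm1 : 1 - m < 1 := by linarith
  have hs := HP.re (sn_hasDerivAt h0.le h1 z.re)
  have hc := HP.re (cn_hasDerivAt h0.le h1 z.re)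
  have hd := HP.re (dn_hasDerivAt h0.le h1 z.re)
  have hs1 := HP.im (sn_hasDerivAt hm0 hm1 z.im)
  have hc1 := HP.im (cn_hasDerivAt hm0 hm1 z.im)
  have hd1 := HP.im (dn_hasDerivAt hm0 hm1 z.im)
  refine ((hc.mul hc1).sub (((HP.const I z).mul (hs.mul hd)).mul (hs1.mul hd1))).congr ?_ ?_
  · push_cast; ring
  · push_cast; ring

lemma ND_HP (z : ℂ) : HP (ND m) z
    (-((m : ℂ) * (sn m z.re : ℂ) * (cn m z.re : ℂ) *
        ((cn (1 - m) z.im : ℂ) * (dn (1 - m) z.im : ℂ))) -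
      I * (m : ℂ) * ((dn m z.re : ℂ) * ((cn m z.re : ℂ) * (cn m z.re : ℂ) -
        (sn m z.re : ℂ) * (sn m z.re : ℂ))) * (sn (1 - m) z.im : ℂ))
    (-((dn m z.re : ℂ) * ((sn (1 - m) z.im : ℂ) * ((dn (1 - m) z.im : ℂ) * (dn (1 - m) z.im : ℂ) +
        (1 - (m : ℂ)) * ((cn (1 - m) z.im : ℂ) * (cn (1 - m) z.im : ℂ))))) -
      I * (m : ℂ) * ((sn m z.re : ℂ) * (cn m z.re : ℂ)) *
        ((cn (1 - m) z.im : ℂ) * (dn (1 - m) z.im : ℂ))) := by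
  have hm0 : (0:ℝ) ≤ 1 - m := by linarith
  have hm1 : 1 - m < 1 := by linarith
  have hs := HP.re (sn_hasDerivAt h0.le h1 z.re)
  have hc := HP.re (cn_hasDerivAt h0.le h1 z.re)
  have hd := HP.re (dn_hasDerivAt h0.le h1 z.re)
  have hs1 := HP.im (sn_hasDerivAt hm0 hm1 z.im)
  have hc1 := HP.im (cn_hasDerivAt hm0 hm1 z.im)
  have hd1 := HP.im (dn_hasDerivAt hm0 hm1 z.im)
  refine ((hd.mul (hc1.mul hd1)).sub
    ((((HP.const I z).mul (HP.const (m : ℂ) z)).mul (hs.mul hc)).mul hs1)).congr ?_ ?_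
  · push_cast; ring
  · push_cast; ring

lemma Sn_hasDerivAt {z : ℂ} (hz : JD m z ≠ 0) : HasDerivAt (Sn m) (Cn m z * Dn m z) z := by
  have h := (NS_HP h0 h1 z).div (JD_HP h0 h1 z) hz
  have ex := alg_s_x (rel1 z.re) (rel2 h0 h1 z.re) (rel3 z.im) (rel4 h0 h1 z.im)
  have ey := alg_s_y (rel1 z.re) (rel2 h0 h1 z.re) (rel3 z.im) (rel4 h0 h1 z.im)
  refine (h.congr (a' := Cn m z * Dn m z) (b' := I * (Cn m z * Dn m z)) ?_ ?_).hasDerivAt rfl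
  · rw [Cn, Dn, div_mul_div_comm, ← sq (JD m z)]
    exact congrArg (· / JD m z ^ 2) ex
  · rw [Cn, Dn, div_mul_div_comm, ← sq (JD m z), ← mul_div_assoc]
    exact congrArg (· / JD m z ^ 2) ey

lemma Cn_hasDerivAt {z : ℂ} (hz : JD m z ≠ 0) : HasDerivAt (Cn m) (-(Sn m z * Dn m z)) z := by
  have h := (NC_HP h0 h1 z).div (JD_HP h0 h1 z) hz
  have ex := alg_c_x (rel1 z.re) (rel2 h0 h1 z.re) (rel3 z.im) (rel4 h0 h1 z.im)
  have ey := alg_c_y (rel1 z.re) (rel2 h0 h1 z.re) (rel3 z.im) (rel4 h0 h1 z.im)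
  refine (h.congr (a' := -(Sn m z * Dn m z)) (b' := I * (-(Sn m z * Dn m z))) ?_ ?_).hasDerivAt rfl
  · rw [Sn, Dn, div_mul_div_comm, ← sq (JD m z), ← neg_div]
    exact congrArg (· / JD m z ^ 2) ex
  · rw [Sn, Dn, div_mul_div_comm, ← sq (JD m z), ← neg_div, ← mul_div_assoc]
    exact congrArg (· / JD m z ^ 2) ey

lemma Dn_hasDerivAt {z : ℂ} (hz : JD m z ≠ 0) :
    HasDerivAt (Dn m) (-((m : ℂ) * (Sn m z * Cn m z))) z := by
  have h := (ND_HP h0 h1 z).div (JD_HP h0 h1 z) hz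
  have ex := alg_d_x (rel1 z.re) (rel2 h0 h1 z.re) (rel3 z.im) (rel4 h0 h1 z.im)
  have ey := alg_d_y (rel1 z.re) (rel2 h0 h1 z.re) (rel3 z.im) (rel4 h0 h1 z.im)
  refine (h.congr (a' := -((m : ℂ) * (Sn m z * Cn m z)))
    (b' := I * (-((m : ℂ) * (Sn m z * Cn m z)))) ?_ ?_).hasDerivAt rfl
  · rw [Sn, Cn, div_mul_div_comm, ← sq (JD m z), ← mul_div_assoc, ← neg_div]
    exact congrArg (· / JD m z ^ 2) ex
  · rw [Sn, Cn, div_mul_div_comm, ← sq (JD m z), ← mul_div_assoc, ← neg_div, ← mul_div_assoc]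
    exact congrArg (· / JD m z ^ 2) ey

lemma Sn_sq_add {z : ℂ} (hz : JD m z ≠ 0) : Sn m z ^ 2 + Cn m z ^ 2 = 1 := by
  have h := alg_sc (rel1 z.re) (rel2 h0 h1 z.re) (rel3 z.im) (rel4 h0 h1 z.im)
  rw [Sn, Cn, div_pow, div_pow, ← add_div, div_eq_one_iff_eq (pow_ne_zero 2 hz)]
  exact h

lemma Dn_sq_add {z : ℂ} (hz : JD m z ≠ 0) : Dn m z ^ 2 + (m : ℂ) * Sn m z ^ 2 = 1 := by
  have h := alg_sd (rel1 z.re) (rel2 h0 h1 z.re) (rel3 z.im) (rel4 h0 h1 z.im)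
  rw [Sn, Dn, div_pow, div_pow, ← mul_div_assoc, ← add_div, div_eq_one_iff_eq (pow_ne_zero 2 hz)]
  exact h

end rel

end

end Pool.Agent.MP_ae5b4e_an_LOC
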