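import Pool.Agent.Lib.MP_ae5b4e_an_LOC.JacC

/-!
Complex Jacobi functions: poles, periods, parity, conjugation, shift by i K'.
-/

namespace Pool.Agent.MP_ae5b4e_an_LOC

open Complex Set Filter Topology ComplexConjugate

noncomputable section

variable {m : ℝ}

/-- the complementary quarter period -/
def KP (m : ℝ) : ℝ := KK (1 - m)

section

variable (h0 : 0 < m) (h1 : m < 1)

include h0 h1

lemma KP_pos : 0 < KP m := KK_pos (by linarith) (by linarith)

omit h0 h1 in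
lemma JD_real (z : ℂ) : JD m z =
    ((cn (1 - m) z.im ^ 2 + m * sn m z.re ^ 2 * sn (1 - m) z.im ^ 2 : ℝ) : ℂ) := by
  unfold JD; push_cast; ring

lemma JD_eq_zero_iff (z : ℂ) : JD m z = 0 ↔ sn m z.re = 0 ∧ cn (1 - m) z.im = 0 := by
  rw [JD_real, ofReal_eq_zero]
  constructor
  · intro h
    have a1 : 0 ≤ cn (1 - m) z.im ^ 2 := sq_nonneg _
    have a2 : 0 ≤ m * sn m z.re ^ 2 * sn (1 - m) z.im ^ 2 := by positivity
    have b1 : cn (1 - m) z.im ^ 2 = 0 := by linarith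
    have b2 : m * sn m z.re ^ 2 * sn (1 - m) z.im ^ 2 = 0 := by linarith
    have c1 : cn (1 - m) z.im = 0 := by simpa using b1
    have c2 : sn (1 - m) z.im ^ 2 = 1 := by
      have := sn_sq_add (1 - m) z.im
      rw [c1] at this; linarith
    rw [c2, mul_one] at b2
    refine ⟨?_, c1⟩
    have := (mul_eq_zero.1 b2).resolve_left h0.ne'
    simpa using this
  · rintro ⟨h, h'⟩
    rw [h, h']; ring

/-- the poles -/
lemma JD_eq_zero_iff' (z : ℂ) : JD m z = 0 ↔
    ∃ k l : ℤ, z = (k * (2 * KK m) : ℝ) + (KP m + l * (2 * KP m) : ℝ) * I := by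
  rw [JD_eq_zero_iff h0 h1, sn_eq_zero_iff h0.le h1, cn_eq_zero_iff (by linarith) (by linarith)]
  constructor
  · rintro ⟨⟨k, hk⟩, l, hl⟩
    refine ⟨k, l, ?_⟩
    apply Complex.ext
    · simpa using hk
    · simpa [KP] using hl
  · rintro ⟨k, l, rfl⟩
    exact ⟨⟨k, by simp⟩, l, by simp [KP]⟩

lemma JD_ne_zero_of_im {z : ℂ} (hz : |z.im| < KP m) : JD m z ≠ 0 := by
  intro h
  obtain ⟨k, l, rfl⟩ := (JD_eq_zero_iff' h0 h1 z).1 h
  have hK := KP_pos h0 h1
  simp only [add_im, ofReal_im, mul_im, ofReal_re, I_im, mul_one, I_re, mul_zero, add_zero,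
    zero_add] at hz
  rw [show KP m + l * (2 * KP m) = (2 * (l:ℝ) + 1) * KP m by ring, abs_mul, abs_of_pos hK] at hz
  have h3 : |2 * (l:ℝ) + 1| < 1 := by
    by_contra h'
    push Not at h'
    nlinarith
  have h4 : |2 * l + 1| < 1 := by exact_mod_cast h3
  rw [Int.abs_lt_one_iff] at h4
  omega

lemma sn_zero' : sn (1 - m) 0 = 0 := sn_zero (by linarith) (by linarith)
lemma cn_zero' : cn (1 - m) 0 = 1 := cn_zero (by linarith) (by linarith)
lemma dn_zero' : dn (1 - m) 0 = 1 := dn_zero (by linarith) (by linarith)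

lemma Sn_ofReal (x : ℝ) : Sn m x = sn m x := by
  simp [Sn, NS, JD, sn_zero' h0 h1, cn_zero' h0 h1, dn_zero' h0 h1]
lemma Cn_ofReal (x : ℝ) : Cn m x = cn m x := by
  simp [Cn, NC, JD, sn_zero' h0 h1, cn_zero' h0 h1, dn_zero' h0 h1]
lemma Dn_ofReal (x : ℝ) : Dn m x = dn m x := by
  simp [Dn, ND, JD, sn_zero' h0 h1, cn_zero' h0 h1, dn_zero' h0 h1]

lemma sn_neg' (u : ℝ) : sn (1 - m) (-u) = -sn (1 - m) u := sn_neg (by linarith) (by linarith) u
lemma cn_neg' (u : ℝ) : cn (1 - m) (-u) = cn (1 - m) u := cn_neg (by linarith) (by linarith) u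
lemma dn_neg' (u : ℝ) : dn (1 - m) (-u) = dn (1 - m) u := dn_neg (by linarith) (by linarith) u

lemma JD_neg (z : ℂ) : JD m (-z) = JD m z := by
  simp [JD, sn_neg h0.le h1, sn_neg' h0 h1, cn_neg' h0 h1]
lemma Sn_neg (z : ℂ) : Sn m (-z) = -Sn m z := by
  simp only [Sn, JD_neg h0 h1, ← neg_div]
  congr 1
  simp [NS, sn_neg h0.le h1, cn_neg h0.le h1, dn_neg h0.le h1, sn_neg' h0 h1, cn_neg' h0 h1,
    dn_neg' h0 h1]
  ring
lemma Cn_neg (z : ℂ) : Cn m (-z) = Cn m z := by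
  simp only [Cn, JD_neg h0 h1]
  congr 1
  simp [NC, sn_neg h0.le h1, cn_neg h0.le h1, dn_neg h0.le h1, sn_neg' h0 h1, cn_neg' h0 h1,
    dn_neg' h0 h1]
lemma Dn_neg (z : ℂ) : Dn m (-z) = Dn m z := by
  simp only [Dn, JD_neg h0 h1]
  congr 1
  simp [ND, sn_neg h0.le h1, cn_neg h0.le h1, dn_neg h0.le h1, sn_neg' h0 h1, cn_neg' h0 h1,
    dn_neg' h0 h1]

lemma JD_conj (z : ℂ) : JD m (conj z) = conj (JD m z) := by
  simp [JD, sn_neg' h0 h1, cn_neg' h0 h1]
lemma Sn_conj (z : ℂ) : Sn m (conj z) = conj (Sn m z) := by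
  simp only [Sn, JD_conj h0 h1, map_div₀]
  congr 1
  simp [NS, sn_neg' h0 h1, cn_neg' h0 h1, dn_neg' h0 h1]
lemma Cn_conj (z : ℂ) : Cn m (conj z) = conj (Cn m z) := by
  simp only [Cn, JD_conj h0 h1, map_div₀]
  congr 1
  simp [NC, sn_neg' h0 h1, cn_neg' h0 h1, dn_neg' h0 h1]
lemma Dn_conj (z : ℂ) : Dn m (conj z) = conj (Dn m z) := by
  simp only [Dn, JD_conj h0 h1, map_div₀]
  congr 1
  simp [ND, sn_neg' h0 h1, cn_neg' h0 h1, dn_neg' h0 h1]

/-! ### real period 2K -/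

lemma JD_add (z : ℂ) : JD m (z + (2 * KK m : ℝ)) = JD m z := by
  simp only [JD, add_re, ofReal_re, add_im, ofReal_im, add_zero, sn_add h0.le h1]
  push_cast; ring
lemma Sn_add (z : ℂ) : Sn m (z + (2 * KK m : ℝ)) = -Sn m z := by
  simp only [Sn, JD_add h0 h1, ← neg_div]
  congr 1
  simp only [NS, add_re, ofReal_re, add_im, ofReal_im, add_zero, sn_add h0.le h1, cn_add h0.le h1,
    dn_add h0.le h1]
  push_cast; ring
lemma Cn_add (z : ℂ) : Cn m (z + (2 * KK m : ℝ)) = -Cn m z := by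
  simp only [Cn, JD_add h0 h1, ← neg_div]
  congr 1
  simp only [NC, add_re, ofReal_re, add_im, ofReal_im, add_zero, sn_add h0.le h1, cn_add h0.le h1,
    dn_add h0.le h1]
  push_cast; ring
lemma Dn_add (z : ℂ) : Dn m (z + (2 * KK m : ℝ)) = Dn m z := by
  simp only [Dn, JD_add h0 h1]
  congr 1
  simp only [ND, add_re, ofReal_re, add_im, ofReal_im, add_zero, sn_add h0.le h1, cn_add h0.le h1,
    dn_add h0.le h1]
  push_cast; ring

/-! ### shift by i K' -/

lemma shift' (y : ℝ) :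
    sn (1 - m) (y + KP m) = cn (1 - m) y / dn (1 - m) y ∧
    cn (1 - m) (y + KP m) = -(Real.sqrt m * sn (1 - m) y / dn (1 - m) y) ∧
    dn (1 - m) (y + KP m) = Real.sqrt m / dn (1 - m) y := by
  have := jac_shift (m := 1 - m) (by linarith) (by linarith) y
  rwa [show (1:ℝ) - (1 - m) = m by ring] at this

lemma dn_ne' (y : ℝ) : (dn (1 - m) y : ℂ) ≠ 0 := by
  have := (dn_pos (m := 1 - m) (by linarith) (by linarith) y).ne'
  exact_mod_cast this

/-- the three products: on the line of the shift -/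
lemma NS_shift (z : ℂ) : (Real.sqrt m : ℂ) * (NS m (z + KP m * I) * NS m z) =
    JD m (z + KP m * I) * JD m z := by
  have hq : ((Real.sqrt m : ℝ) : ℂ) ^ 2 = m := by
    exact_mod_cast Real.sq_sqrt h0.le
  obtain ⟨s1, s2, s3⟩ := shift' h0 h1 z.im
  have hd := dn_ne' h0 h1 z.im
  have r1 := rel1 (m := m) z.re
  have r2 := rel2 h0 h1 z.re
  have r3 := rel3 (m := m) z.im
  have r4 := rel4 h0 h1 z.im
  simp only [NS, JD, add_re, add_im, mul_re, mul_im, ofReal_re, ofReal_im, I_re, I_im, mul_zero,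
    mul_one, sub_zero, add_zero, s1, s2, s3]
  push_cast
  generalize (sn m z.re : ℂ) = s at *
  generalize (cn m z.re : ℂ) = c at *
  generalize (dn m z.re : ℂ) = d at *
  generalize (sn (1 - m) z.im : ℂ) = s1 at *
  generalize (cn (1 - m) z.im : ℂ) = c1 at *
  generalize (dn (1 - m) z.im : ℂ) = d1 at *
  generalize ((Real.sqrt m : ℝ) : ℂ) = q at *
  generalize ((m : ℝ) : ℂ) = M at *
  have hI : I ^ 2 = -1 := I_sq
  field_simp
  grind

lemma NC_shift (z : ℂ) : (Real.sqrt m : ℂ) * (NC m (z + KP m * I) * NS m z) =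
    -I * (JD m (z + KP m * I) * ND m z) := by
  have hq : ((Real.sqrt m : ℝ) : ℂ) ^ 2 = m := by
    exact_mod_cast Real.sq_sqrt h0.le
  obtain ⟨s1, s2, s3⟩ := shift' h0 h1 z.im
  have hd := dn_ne' h0 h1 z.im
  have r1 := rel1 (m := m) z.re
  have r2 := rel2 h0 h1 z.re
  have r3 := rel3 (m := m) z.im
  have r4 := rel4 h0 h1 z.im
  simp only [NS, NC, ND, JD, add_re, add_im, mul_re, mul_im, ofReal_re, ofReal_im, I_re, I_im,
    mul_zero, mul_one, sub_zero, add_zero, s1, s2, s3]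
  push_cast
  generalize (sn m z.re : ℂ) = s at *
  generalize (cn m z.re : ℂ) = c at *
  generalize (dn m z.re : ℂ) = d at *
  generalize (sn (1 - m) z.im : ℂ) = s1 at *
  generalize (cn (1 - m) z.im : ℂ) = c1 at *
  generalize (dn (1 - m) z.im : ℂ) = d1 at *
  generalize ((Real.sqrt m : ℝ) : ℂ) = q at *
  generalize ((m : ℝ) : ℂ) = M at *
  have hI : I ^ 2 = -1 := I_sq
  field_simp
  grind

lemma ND_shift (z : ℂ) : ND m (z + KP m * I) * NS m z =
    -I * (JD m (z + KP m * I) * NC m z) := by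
  have hq : ((Real.sqrt m : ℝ) : ℂ) ^ 2 = m := by
    exact_mod_cast Real.sq_sqrt h0.le
  obtain ⟨s1, s2, s3⟩ := shift' h0 h1 z.im
  have hd := dn_ne' h0 h1 z.im
  have r1 := rel1 (m := m) z.re
  have r2 := rel2 h0 h1 z.re
  have r3 := rel3 (m := m) z.im
  have r4 := rel4 h0 h1 z.im
  simp only [NS, NC, ND, JD, add_re, add_im, mul_re, mul_im, ofReal_re, ofReal_im, I_re, I_im,
    mul_zero, mul_one, sub_zero, add_zero, s1, s2, s3]
  push_cast
  generalize (sn m z.re : ℂ) = s at *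
  generalize (cn m z.re : ℂ) = c at *
  generalize (dn m z.re : ℂ) = d at *
  generalize (sn (1 - m) z.im : ℂ) = s1 at *
  generalize (cn (1 - m) z.im : ℂ) = c1 at *
  generalize (dn (1 - m) z.im : ℂ) = d1 at *
  generalize ((Real.sqrt m : ℝ) : ℂ) = q at *
  generalize ((m : ℝ) : ℂ) = M at *
  have hI : I ^ 2 = -1 := I_sq
  field_simp
  grind

lemma sqrt_ne : (Real.sqrt m : ℂ) ≠ 0 := by
  have := (Real.sqrt_pos.2 h0).ne'
  exact_mod_cast this

section

variable {z : ℂ} (hz : JD m z ≠ 0) (hz' : JD m (z + KP m * I) ≠ 0)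

include hz hz'

lemma Sn_shift_mul : (Real.sqrt m : ℂ) * (Sn m (z + KP m * I) * Sn m z) = 1 := by
  have := NS_shift h0 h1 z
  rw [Sn, Sn]
  field_simp
  linear_combination this

lemma Sn_ne_zero_of : Sn m z ≠ 0 := by
  intro h
  have := Sn_shift_mul h0 h1 hz hz'
  rw [h] at this
  simp at this

lemma Sn_shift : Sn m (z + KP m * I) = 1 / ((Real.sqrt m : ℂ) * Sn m z) := by
  have h2 := Sn_ne_zero_of h0 h1 hz hz'
  have h3 := sqrt_ne h0 h1
  rw [eq_div_iff (mul_ne_zero h3 h2)]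
  linear_combination Sn_shift_mul h0 h1 hz hz'

lemma Cn_shift : Cn m (z + KP m * I) = -I * Dn m z / ((Real.sqrt m : ℂ) * Sn m z) := by
  have h2 := Sn_ne_zero_of h0 h1 hz hz'
  have h3 := sqrt_ne h0 h1
  rw [eq_div_iff (mul_ne_zero h3 h2)]
  have := NC_shift h0 h1 z
  rw [Cn, Sn, Dn]
  field_simp
  linear_combination this

lemma Dn_shift : Dn m (z + KP m * I) = -I * Cn m z / Sn m z := by
  have h2 := Sn_ne_zero_of h0 h1 hz hz'
  rw [eq_div_iff h2]
  have := ND_shift h0 h1 z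
  rw [Cn, Sn, Dn]
  field_simp
  linear_combination this

end

/-- a shifted point is a pole iff the point is a zero of sn -/
lemma JD_shift_eq_zero_iff (z : ℂ) : JD m (z + KP m * I) = 0 ↔
    ∃ k l : ℤ, z = (k * (2 * KK m) : ℝ) + (l * (2 * KP m) : ℝ) * I := by
  rw [JD_eq_zero_iff' h0 h1]
  constructor
  · rintro ⟨k, l, h⟩
    refine ⟨k, l, ?_⟩
    push_cast at h ⊢
    linear_combination h
  · rintro ⟨k, l, rfl⟩
    refine ⟨k, l, ?_⟩
    push_cast
    ring

lemma NS_eq_zero_iff (z : ℂ) : NS m z = 0 ↔ sn m z.re = 0 ∧ sn (1 - m) z.im * cn (1 - m) z.im = 0 := by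
  have hre : (NS m z).re = sn m z.re * dn (1 - m) z.im := by simp [NS]
  have him : (NS m z).im = cn m z.re * dn m z.re * (sn (1 - m) z.im * cn (1 - m) z.im) := by
    simp [NS]
  have hd1 := (dn_pos (m := 1 - m) (by linarith) (by linarith) z.im).ne'
  have hd := (dn_pos h0.le h1 z.re).ne'
  constructor
  · intro h
    rw [h] at hre him
    have a1 : sn m z.re = 0 := by simpa [hd1] using hre.symm
    have a2 : cn m z.re ≠ 0 := by
      intro h'
      have := sn_sq_add m z.re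
      rw [a1, h'] at this
      norm_num at this
    refine ⟨a1, ?_⟩
    have := him.symm
    simp only [zero_im, mul_eq_zero, a2, hd, false_or] at this
    simpa using this
  · rintro ⟨h, h'⟩
    apply Complex.ext
    · rw [hre, h]; simp
    · rw [him, h']; simp

/-- zeros of Sn -/
lemma Sn_eq_zero_iff {z : ℂ} (hz : JD m z ≠ 0) : Sn m z = 0 ↔
    ∃ k l : ℤ, z = (k * (2 * KK m) : ℝ) + (l * (2 * KP m) : ℝ) * I := by
  rw [Sn, div_eq_zero_iff, or_iff_left hz, NS_eq_zero_iff h0 h1]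
  rw [Ne, JD_eq_zero_iff h0 h1] at hz
  constructor
  · rintro ⟨h, h'⟩
    have h2 : cn (1 - m) z.im ≠ 0 := fun h3 => hz ⟨h, h3⟩
    have h3 := (mul_eq_zero.1 h').resolve_right h2
    obtain ⟨k, hk⟩ := (sn_eq_zero_iff h0.le h1 _).1 h
    obtain ⟨l, hl⟩ := (sn_eq_zero_iff (by linarith) (by linarith) _).1 h3
    refine ⟨k, l, ?_⟩
    apply Complex.ext
    · simpa using hk
    · simpa [KP] using hl
  · rintro ⟨k, l, rfl⟩
    refine ⟨(sn_eq_zero_iff h0.le h1 _).2 ⟨k, by simp⟩, ?_⟩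
    rw [(sn_eq_zero_iff (by linarith) (by linarith) _).2 ⟨l, by simp [KP]⟩]
    simp

/-! ### imaginary period 2iK' -/

lemma JD_addI (z : ℂ) : JD m (z + (2 * KP m : ℝ) * I) = JD m z := by
  have e : (z + (2 * KP m : ℝ) * I).im = z.im + 2 * KK (1 - m) := by simp [KP]
  have e2 : (z + (2 * KP m : ℝ) * I).re = z.re := by simp
  simp only [JD, e, e2]
  rw [sn_add (m := 1 - m) (by linarith) (by linarith), cn_add (m := 1 - m) (by linarith) (by linarith)]
  push_cast; ring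

lemma Sn_addI (z : ℂ) : Sn m (z + (2 * KP m : ℝ) * I) = Sn m z := by
  have e : (z + (2 * KP m : ℝ) * I).im = z.im + 2 * KK (1 - m) := by simp [KP]
  have e2 : (z + (2 * KP m : ℝ) * I).re = z.re := by simp
  simp only [Sn, JD_addI h0 h1]
  congr 1
  simp only [NS, e, e2]
  rw [sn_add (m := 1 - m) (by linarith) (by linarith), cn_add (m := 1 - m) (by linarith) (by linarith),
    dn_add (m := 1 - m) (by linarith) (by linarith)]
  push_cast; ring

lemma Cn_addI (z : ℂ) : Cn m (z + (2 * KP m : ℝ) * I) = -Cn m z := by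
  have e : (z + (2 * KP m : ℝ) * I).im = z.im + 2 * KK (1 - m) := by simp [KP]
  have e2 : (z + (2 * KP m : ℝ) * I).re = z.re := by simp
  simp only [Cn, JD_addI h0 h1, ← neg_div]
  congr 1
  simp only [NC, e, e2]
  rw [sn_add (m := 1 - m) (by linarith) (by linarith), cn_add (m := 1 - m) (by linarith) (by linarith),
    dn_add (m := 1 - m) (by linarith) (by linarith)]
  push_cast; ring

lemma Dn_addI (z : ℂ) : Dn m (z + (2 * KP m : ℝ) * I) = -Dn m z := by
  have e : (z + (2 * KP m : ℝ) * I).im = z.im + 2 * KK (1 - m) := by simp [KP]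
  have e2 : (z + (2 * KP m : ℝ) * I).re = z.re := by simp
  simp only [Dn, JD_addI h0 h1, ← neg_div]
  congr 1
  simp only [ND, e, e2]
  rw [sn_add (m := 1 - m) (by linarith) (by linarith), cn_add (m := 1 - m) (by linarith) (by linarith),
    dn_add (m := 1 - m) (by linarith) (by linarith)]
  push_cast; ring

end

end

end Pool.Agent.MP_ae5b4e_an_LOC
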