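import Mathlib
import Pool.Agent.Lib.MP_ae5b4e_an_LOC.NeCp

/-!
# MP_ae5b4e_an, project LOC: from Fourier coefficients to jets at one point

In a class of pairs of periodic functions which are controlled, uniformly, by their first Fourier
coefficients, every pair is controlled, uniformly, by its jet of a fixed order at one point.
-/

noncomputable section

namespace Pool.Agent.MP_ae5b4e_an_LOC

open Real Set Filter Topology MeasureTheory intervalIntegral
open scoped ContDiff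
open Pool.Agent.MP_ae5b4e_an_RG

namespace JetC

lemma rc_cmul (c : ℝ) (f : ℝ → ℝ) (k : ℤ) : rc (fun x => c * f x) k = c * rc f k := by
  unfold rc fc
  rw [← intervalIntegral.integral_const_mul]
  congr 1
  funext x
  push_cast
  ring

lemma smooth_it {f : ℝ → ℝ} (hf : ContDiff ℝ ∞ f) (j : ℕ) : ContDiff ℝ ∞ (deriv^[j] f) := by
  induction j with
  | zero => exact hf
  | succ j ih =>
    rw [Function.iterate_succ_apply']
    exact (contDiff_infty_iff_deriv.1 ih).2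

lemma it_cmul {f : ℝ → ℝ} (hf : ContDiff ℝ ∞ f) (c : ℝ) (j : ℕ) (x : ℝ) :
    deriv^[j] (fun x => c * f x) x = c * deriv^[j] f x := by
  induction j generalizing x with
  | zero => rfl
  | succ j ih =>
    have h1 : deriv^[j] (fun x => c * f x) = fun x => c * deriv^[j] f x := funext ih
    rw [Function.iterate_succ_apply', h1, Function.iterate_succ_apply' deriv j f]
    exact ((((contDiff_infty_iff_deriv.1 (smooth_it hf j)).1 x).hasDerivAt).const_mul c).deriv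

lemma it_sub {f g : ℝ → ℝ} (hf : ContDiff ℝ ∞ f) (hg : ContDiff ℝ ∞ g) (j : ℕ) (x : ℝ) :
    deriv^[j] (fun x => f x - g x) x = deriv^[j] f x - deriv^[j] g x := by
  induction j generalizing x with
  | zero => rfl
  | succ j ih =>
    have h1 : deriv^[j] (fun x => f x - g x) = fun x => deriv^[j] f x - deriv^[j] g x :=
      funext ih
    rw [Function.iterate_succ_apply', h1, Function.iterate_succ_apply' deriv j f,
      Function.iterate_succ_apply' deriv j g]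
    exact ((((contDiff_infty_iff_deriv.1 (smooth_it hf j)).1 x).hasDerivAt).sub
      (((contDiff_infty_iff_deriv.1 (smooth_it hg j)).1 x).hasDerivAt)).deriv

/-- an analytic function whose derivatives at `0` vanish is zero -/
lemma zero_of_jet {f : ℝ → ℝ} (han : AnalyticOnNhd ℝ f univ)
    (h0 : ∀ j : ℕ, deriv^[j] f 0 = 0) (x : ℝ) : f x = 0 := by
  have h2 : f =ᶠ[𝓝 0] 0 := by
    have h3 : HasFPowerSeriesAt f
        (FormalMultilinearSeries.ofScalars ℝ fun n => iteratedDeriv n f 0 / (n.factorial : ℝ)) 0 :=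
      (han 0 (mem_univ _)).hasFPowerSeriesAt
    have h4 : (fun n : ℕ => iteratedDeriv n f 0 / (n.factorial : ℝ)) = 0 := by
      funext n
      rw [iteratedDeriv_eq_iterate, h0 n, zero_div]
      rfl
    rw [h4, FormalMultilinearSeries.ofScalars_series_eq_zero_of_scalar_zero] at h3
    exact h3.eventually_eq_zero
  have h4 := han.eqOn_zero_of_preconnected_of_eventuallyEq_zero isPreconnected_univ (mem_univ 0) h2
  exact h4 (mem_univ x)

/-- the supremum is controlled by the decay of the coefficients -/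
lemma sup_le {f : ℝ → ℝ} (hf : ContDiff ℝ ∞ f) (pf : Function.Periodic f 1) {ρ A : ℝ}
    (hρ : 0 < ρ) (h : ∀ k : ℤ, ‖rc f k‖ ≤ A * Real.exp (-(ρ * |(k:ℝ)|))) (x : ℝ) :
    |f x| ≤ A * ∑' k : ℤ, 1 * Real.exp (-(ρ * |(k:ℝ)|)) := by
  have h1 := NeCp.hasSum_smooth hf pf x
  have hs := NeCp.summable_w hρ A
  have hs1 := NeCp.summable_w hρ 1
  have h2 : Summable fun k => ‖rc f k * e k x‖ := by
    refine Summable.of_nonneg_of_le (fun k => norm_nonneg _) (fun k => ?_) hs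
    rw [norm_mul, NeCp.norm_e', mul_one]
    exact h k
  have h3 : ‖((f x : ℝ) : ℂ)‖ ≤ ∑' k, ‖rc f k * e k x‖ := by
    rw [← h1.tsum_eq]
    exact norm_tsum_le_tsum_norm h2
  rw [Complex.norm_real, Real.norm_eq_abs] at h3
  refine h3.trans ?_
  rw [← tsum_mul_left]
  refine Summable.tsum_le_tsum (fun k => ?_) h2 (hs1.mul_left A)
  rw [norm_mul, NeCp.norm_e', mul_one, one_mul]
  exact h k

/-- uniform convergence gives convergence of the Fourier coefficients -/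
lemma rc_tendsto {h : ℕ → ℝ → ℝ} {g : ℝ → ℝ} (ch : ∀ k, Continuous (h k)) (cg : Continuous g)
    (hu : TendstoUniformly h g atTop) (n : ℤ) :
    Tendsto (fun k => rc (h k) n) atTop (𝓝 (rc g n)) := by
  rw [Metric.tendsto_atTop]
  intro ε hε
  rw [Metric.tendstoUniformly_iff] at hu
  obtain ⟨K, hK⟩ := eventually_atTop.1 (hu (ε / 2) (by positivity))
  refine ⟨K, fun k hk => ?_⟩
  have he : Continuous (e (-n)) := by
    unfold e
    fun_prop
  have h1 : rc (h k) n - rc g n = ∫ x in (0:ℝ)..1, (((h k x - g x : ℝ) : ℂ) * e (-n) x) := by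
    unfold rc fc
    rw [← intervalIntegral.integral_sub]
    · congr 1
      funext x
      push_cast
      ring
    · exact ((Complex.continuous_ofReal.comp (ch k)).mul he).intervalIntegrable _ _
    · exact ((Complex.continuous_ofReal.comp cg).mul he).intervalIntegrable _ _
  rw [dist_eq_norm, h1]
  refine lt_of_le_of_lt (intervalIntegral.norm_integral_le_of_norm_le_const (C := ε / 2)
    fun x _ => ?_) ?_
  · rw [norm_mul, NeCp.norm_e', mul_one, Complex.norm_real, Real.norm_eq_abs, abs_sub_comm,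
      ← Real.dist_eq]
    exact (hK k hk x).le
  · norm_num
    linarith

/-- **From Fourier coefficients to jets.** -/
theorem jet_core {ρ C0 : ℝ} (Q : ℕ) (hρ : 0 < ρ) (hC0 : 0 ≤ C0) :
    ∃ (N : ℕ) (C : ℝ), 0 < C ∧ ∀ f g : ℝ → ℝ, ContDiff ℝ ∞ f → ContDiff ℝ ∞ g →
      Function.Periodic f 1 → Function.Periodic g 1 →
      (∀ B : ℝ, (∀ k : ℤ, |(k:ℝ)| ≤ Q → ‖rc f k‖ ≤ B ∧ ‖rc g k‖ ≤ B) →
        ∀ k : ℤ, ‖rc f k‖ ≤ C0 * B * Real.exp (-(ρ * |(k:ℝ)|)) ∧
          ‖rc g k‖ ≤ C0 * B * Real.exp (-(ρ * |(k:ℝ)|))) →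
      ∀ B : ℝ, (∀ j ≤ N, |deriv^[j] f 0| ≤ B ∧ |deriv^[j] g 0| ≤ B) →
        ∀ x, |f x| ≤ C * B ∧ |g x| ≤ C * B := by
  by_contra hcon
  push Not at hcon
  have hseq : ∀ k : ℕ, ∃ f g : ℝ → ℝ, ContDiff ℝ ∞ f ∧ ContDiff ℝ ∞ g ∧
      Function.Periodic f 1 ∧ Function.Periodic g 1 ∧
      (∀ B : ℝ, (∀ k : ℤ, |(k:ℝ)| ≤ Q → ‖rc f k‖ ≤ B ∧ ‖rc g k‖ ≤ B) →
        ∀ k : ℤ, ‖rc f k‖ ≤ C0 * B * Real.exp (-(ρ * |(k:ℝ)|)) ∧
          ‖rc g k‖ ≤ C0 * B * Real.exp (-(ρ * |(k:ℝ)|))) ∧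
      ∃ B : ℝ, (∀ j ≤ k, |deriv^[j] f 0| ≤ B ∧ |deriv^[j] g 0| ≤ B) ∧
        ∃ x, (|f x| ≤ ((k:ℝ) + 1) * B → ((k:ℝ) + 1) * B < |g x|) := fun k =>
    hcon k ((k:ℝ) + 1) (by positivity)
  choose f g sf sg pf pg hD B hB x hx using hseq
  obtain ⟨β, hβ⟩ : ∃ β : ℕ → ℝ, β = fun k => ∑ n ∈ Finset.Icc (-(Q:ℤ)) Q,
    (‖rc (f k) n‖ + ‖rc (g k) n‖) := ⟨_, rfl⟩
  have hβ0 : ∀ k, 0 ≤ β k := fun k => by
    rw [hβ]
    exact Finset.sum_nonneg fun n _ => add_nonneg (norm_nonneg _) (norm_nonneg _)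
  have hmem : ∀ n : ℤ, |(n:ℝ)| ≤ Q → n ∈ Finset.Icc (-(Q:ℤ)) Q := by
    intro n hn
    rw [abs_le] at hn
    rw [Finset.mem_Icc]
    exact ⟨by exact_mod_cast hn.1, by exact_mod_cast hn.2⟩
  have hβ1 : ∀ k, ∀ n : ℤ, |(n:ℝ)| ≤ Q → ‖rc (f k) n‖ ≤ β k ∧ ‖rc (g k) n‖ ≤ β k := by
    intro k n hn
    have h1 : ‖rc (f k) n‖ + ‖rc (g k) n‖ ≤ β k := by
      rw [hβ]
      exact Finset.single_le_sum (f := fun n => ‖rc (f k) n‖ + ‖rc (g k) n‖)
        (fun n _ => add_nonneg (norm_nonneg _) (norm_nonneg _)) (hmem n hn)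
    have h2 := norm_nonneg (rc (f k) n)
    have h3 := norm_nonneg (rc (g k) n)
    exact ⟨by linarith, by linarith⟩
  have hdec := fun k => hD k (β k) (hβ1 k)
  obtain ⟨S, hS⟩ : ∃ S : ℝ, S = ∑' k : ℤ, 1 * Real.exp (-(ρ * |(k:ℝ)|)) := ⟨_, rfl⟩
  have hS0 : 0 ≤ S := by
    rw [hS]
    exact tsum_nonneg fun k => by positivity
  have hfs : ∀ k y, |f k y| ≤ C0 * β k * S := fun k y => by
    rw [hS]
    exact sup_le (sf k) (pf k) hρ (fun n => (hdec k n).1) y
  have hgs : ∀ k y, |g k y| ≤ C0 * β k * S := fun k y => by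
    rw [hS]
    exact sup_le (sg k) (pg k) hρ (fun n => (hdec k n).2) y
  have hB0 : ∀ k, 0 ≤ B k := fun k => (abs_nonneg _).trans (hB k 0 (Nat.zero_le _)).1
  -- the sup is large
  have hlarge : ∀ k : ℕ, ((k:ℝ) + 1) * B k < C0 * β k * S := by
    intro k
    by_cases h1 : |f k (x k)| ≤ ((k:ℝ) + 1) * B k
    · exact (hx k h1).trans_le (hgs k _)
    · exact (not_le.1 h1).trans_le (hfs k _)
  have hβpos : ∀ k, 0 < β k := by
    intro k
    refine lt_of_le_of_ne (hβ0 k) fun h0 => ?_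
    have h1 := hlarge k
    rw [← h0, mul_zero, zero_mul] at h1
    have h2 := hB0 k
    have h3 : 0 ≤ ((k:ℝ) + 1) * B k := by positivity
    linarith
  -- the normalized pairs
  obtain ⟨F, hF⟩ : ∃ F : Fin 2 → ℕ → ℝ → ℝ, F = fun i k y =>
    (β k)⁻¹ * (if i = 0 then f k y else g k y) := ⟨_, rfl⟩
  have F0 : ∀ k, F 0 k = fun y => (β k)⁻¹ * f k y := fun k => by rw [hF]; rfl
  have F1 : ∀ k, F 1 k = fun y => (β k)⁻¹ * g k y := fun k => by rw [hF]; rfl
  have sF : ∀ i k, ContDiff ℝ ∞ (F i k) := by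
    intro i k
    fin_cases i
    · show ContDiff ℝ ∞ (F 0 k)
      rw [F0]
      exact contDiff_const.mul (sf k)
    · show ContDiff ℝ ∞ (F 1 k)
      rw [F1]
      exact contDiff_const.mul (sg k)
  have pF : ∀ i k, Function.Periodic (F i k) 1 := by
    intro i k
    fin_cases i
    · show Function.Periodic (F 0 k) 1
      rw [F0]
      intro y
      simp only [pf k y]
    · show Function.Periodic (F 1 k) 1
      rw [F1]
      intro y
      simp only [pg k y]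
  have nb : ∀ k, ‖(((β k)⁻¹ : ℝ) : ℂ)‖ = (β k)⁻¹ := fun k => by
    rw [Complex.norm_real, Real.norm_of_nonneg (inv_nonneg.2 (hβ0 k))]
  have dF : ∀ i k n, ‖rc (F i k) n‖ ≤ C0 * Real.exp (-(ρ * |(n:ℝ)|)) := by
    intro i k n
    have hb := hβpos k
    fin_cases i
    · show ‖rc (F 0 k) n‖ ≤ _
      rw [F0, rc_cmul, norm_mul, nb, inv_mul_le_iff₀ hb]
      refine (hdec k n).1.trans (le_of_eq (by ring))
    · show ‖rc (F 1 k) n‖ ≤ _
      rw [F1, rc_cmul, norm_mul, nb, inv_mul_le_iff₀ hb]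
      refine (hdec k n).2.trans (le_of_eq (by ring))
  obtain ⟨φ, hφ, G, hG⟩ := NeCp.compact_family hρ hC0 sF pF dF
  -- the limit has zero jet
  have hsmall : Tendsto (fun k : ℕ => C0 * S / ((φ k : ℝ) + 1)) atTop (𝓝 0) := by
    have h1 : Tendsto (fun k : ℕ => C0 * S * (1 / ((k : ℝ) + 1))) atTop (𝓝 (C0 * S * 0)) :=
      tendsto_one_div_add_atTop_nhds_zero_nat.const_mul _
    rw [mul_zero] at h1
    refine (h1.comp hφ.tendsto_atTop).congr fun k => ?_
    simp only [Function.comp]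
    ring
  have hjb : ∀ k : ℕ, ∀ j ≤ k, |deriv^[j] (F 0 k) 0| ≤ C0 * S / ((k : ℝ) + 1) ∧
      |deriv^[j] (F 1 k) 0| ≤ C0 * S / ((k : ℝ) + 1) := by
    intro k j hj
    have hb := hβpos k
    have h1 := hB k j hj
    have h2 : (β k)⁻¹ * B k ≤ C0 * S / ((k : ℝ) + 1) := by
      rw [inv_mul_le_iff₀ hb, mul_div_assoc', le_div_iff₀ (by positivity)]
      have := (hlarge k).le
      linarith
    rw [F0, F1, it_cmul (sf k), it_cmul (sg k), abs_mul, abs_mul,
      abs_of_nonneg (inv_nonneg.2 hb.le)]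
    have hi := inv_nonneg.2 hb.le
    exact ⟨(mul_le_mul_of_nonneg_left h1.1 hi).trans h2,
      (mul_le_mul_of_nonneg_left h1.2 hi).trans h2⟩
  have hjet : ∀ i, ∀ j : ℕ, deriv^[j] (G i) 0 = 0 := by
    intro i j
    have h1 := ((hG i).2.2.2 j).tendsto_at 0
    refine tendsto_nhds_unique h1 ?_
    rw [tendsto_zero_iff_abs_tendsto_zero]
    refine squeeze_zero' (Eventually.of_forall fun k => abs_nonneg _) ?_ hsmall
    filter_upwards [eventually_ge_atTop j] with k hk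
    have h2 := hjb (φ k) j (hk.trans (hφ.id_le k))
    fin_cases i
    · exact h2.1
    · exact h2.2
  have hzero : ∀ i y, G i y = 0 := fun i y =>
    zero_of_jet (analytic_of_decay (hG i).1 (hG i).2.1 hρ (hG i).2.2.1) (hjet i) y
  -- the sum of the first coefficients is one
  have hone : ∀ k, ∑ n ∈ Finset.Icc (-(Q:ℤ)) Q, (‖rc (F 0 k) n‖ + ‖rc (F 1 k) n‖) = 1 := by
    intro k
    have hb := hβpos k
    have h1 : ∀ n, ‖rc (F 0 k) n‖ + ‖rc (F 1 k) n‖ =
        (β k)⁻¹ * (‖rc (f k) n‖ + ‖rc (g k) n‖) := by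
      intro n
      rw [F0, F1, rc_cmul, rc_cmul, norm_mul, norm_mul, nb]
      ring
    simp only [h1]
    rw [← Finset.mul_sum]
    have h2 : ∑ n ∈ Finset.Icc (-(Q:ℤ)) Q, (‖rc (f k) n‖ + ‖rc (g k) n‖) = β k := by rw [hβ]
    rw [h2, inv_mul_cancel₀ hb.ne']
  have hlim : Tendsto (fun k => ∑ n ∈ Finset.Icc (-(Q:ℤ)) Q,
      (‖rc (F 0 (φ k)) n‖ + ‖rc (F 1 (φ k)) n‖)) atTop
      (𝓝 (∑ n ∈ Finset.Icc (-(Q:ℤ)) Q, (‖rc (G 0) n‖ + ‖rc (G 1) n‖))) := by
    refine tendsto_finsetSum _ fun n _ => ?_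
    have c : ∀ i, Tendsto (fun k => rc (F i (φ k)) n) atTop (𝓝 (rc (G i) n)) := fun i =>
      rc_tendsto (fun k => (sF i (φ k)).continuous) (hG i).1.continuous ((hG i).2.2.2 0) n
    exact (c 0).norm.add (c 1).norm
  simp only [hone] at hlim
  have h1 := tendsto_nhds_unique hlim tendsto_const_nhds
  have h2 : ∀ i, G i = fun _ => (0:ℝ) := fun i => funext (hzero i)
  have h3 : ∀ n, rc (fun _ : ℝ => (0:ℝ)) n = 0 := by
    intro n
    unfold rc fc
    simp
  rw [h2, h2] at h1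
  simp only [h3, norm_zero, add_zero, Finset.sum_const_zero] at h1
  exact zero_ne_one h1

end JetC

end Pool.Agent.MP_ae5b4e_an_LOC
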