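import Mathlib
import Pool.Agent.Lib.MP_ae5b4e_an_LOC.JetC
import Pool.Agent.Lib.MP_ae5b4e_an_LOC.Shf
import Pool.Agent.Lib.MP_ae5b4e_an_LOC.TopL
import Pool.Agent.Lib.MP_ae5b4e_an_RIG.GFin
import Pool.Agent.Lib.MP_ae5b4e_an_RIG.CFin

/-!
# MP_ae5b4e_an, project LOC: solutions are determined by a jet of bounded order at one point

For all bounds `K`, `δ` there are `N` and `C` such that the difference of the coefficients of any
two solutions with these bounds is at most `C` times the difference of their jets of order `N` at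
one point.
-/

noncomputable section

namespace Pool.Agent.MP_ae5b4e_an_LOC

open Real Set Filter Topology
open scoped ContDiff
open Pool.Agent.MP_ae5b4e_an_hopf
open Pool.Agent.MP_ae5b4e_an_RG
open Pool.Agent.MP_ae5b4e_an_RIG (Bnd Reach Normal lift nrm rig determinacy)

namespace Jet

lemma rc_sub {f g : ℝ → ℝ} (hf : Continuous f) (hg : Continuous g) (k : ℤ) :
    rc (fun x => f x - g x) k = rc f k - rc g k := by
  have he : Continuous (e (-k)) := by
    unfold e
    fun_prop
  unfold rc fc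
  rw [← intervalIntegral.integral_sub]
  · congr 1
    funext x
    push_cast
    ring
  · exact ((Complex.continuous_ofReal.comp hf).mul he).intervalIntegrable _ _
  · exact ((Complex.continuous_ofReal.comp hg).mul he).intervalIntegrable _ _

lemma it_shift (f : ℝ → ℝ) (s : ℝ) (j : ℕ) :
    deriv^[j] (fun x => f (x + s)) 0 = iteratedDeriv j f s := by
  have h3 := congrFun (iteratedDeriv_comp_add_const j f s) 0
  rw [zero_add, iteratedDeriv_eq_iterate] at h3
  exact h3

end Jet

/-- **Theorem** (finite determinacy). For all bounds `K`, `δ` there are `N` and `C` such that, for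
any two solutions with these bounds, the coefficients `r`, `m` differ by at most `C` times the
difference of their jets of order `N` at one point; if these jets are equal then a projective map
takes one solution (the curve and all its projective involutions) to the other. -/
theorem jet_determinacy {K δ : ℝ} (hδ : 0 < δ) :
    ∃ (N : ℕ) (C : ℝ), 0 < C ∧ ∀ (γ : ConvexCurve) (U : ℝ → ℝ → ℝ) (κ σ lam r m : ℝ → ℝ)
      (γ' : ConvexCurve) (U' : ℝ → ℝ → ℝ) (κ' σ' lam' r' m' : ℝ → ℝ),
      Pool.Agent.MP_ae5b4e_an_RIG.Sol γ U κ → Normal γ κ σ lam r m → Bnd K r m →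
      Reach γ U σ δ → Pool.Agent.MP_ae5b4e_an_RIG.Sol γ' U' κ' →
      Normal γ' κ' σ' lam' r' m' → Bnd K r' m' → Reach γ' U' σ' δ → ∀ x₀ x₀' : ℝ,
      (∀ B : ℝ, (∀ j ≤ N, |iteratedDeriv j r x₀ - iteratedDeriv j r' x₀'| ≤ B ∧
          |iteratedDeriv j m x₀ - iteratedDeriv j m' x₀'| ≤ B) →
        ∀ x, |r (x + x₀) - r' (x + x₀')| ≤ C * B ∧ |m (x + x₀) - m' (x + x₀')| ≤ C * B) ∧
      ((∀ j ≤ N, iteratedDeriv j r x₀ = iteratedDeriv j r' x₀' ∧
          iteratedDeriv j m x₀ = iteratedDeriv j m' x₀') →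
        ∃ g : (Fin 3 → ℝ) ≃ₗ[ℝ] (Fin 3 → ℝ), ∀ x v,
          Projectivization.map g.toLinearMap g.injective
            (γ.pt (σ (x + x₀)) (nrm κ (fun y => σ (y + x₀)) x v)) =
          γ'.pt (σ' (x + x₀')) (nrm κ' (fun y => σ' (y + x₀')) x v)) := by
  obtain ⟨Q, C0, ρ, hC0, hρ, H, -⟩ := rig determinacy K δ hδ
  obtain ⟨N, C, hC, HJ⟩ := JetC.jet_core Q hρ hC0.le
  refine ⟨N, C, hC, ?_⟩
  intro γ U κ σ lam r m γ' U' κ' σ' lam' r' m' h hN hB hR h' hN' hB' hR' x₀ x₀'
  have s1 := Normal_shift hN x₀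
  have s1' := Normal_shift hN' x₀'
  obtain ⟨H1, H2⟩ := H γ U κ _ _ _ _ γ' U' κ' _ _ _ _ h s1 (Bnd.shift hB x₀)
    (Reach_shift hR x₀) h' s1' (Bnd.shift hB' x₀') (Reach_shift hR' x₀')
  have main : ∀ B : ℝ, (∀ j ≤ N, |iteratedDeriv j r x₀ - iteratedDeriv j r' x₀'| ≤ B ∧
      |iteratedDeriv j m x₀ - iteratedDeriv j m' x₀'| ≤ B) →
      ∀ x, |r (x + x₀) - r' (x + x₀')| ≤ C * B ∧ |m (x + x₀) - m' (x + x₀')| ≤ C * B := by
    intro B hj
    refine HJ (fun x => r (x + x₀) - r' (x + x₀')) (fun x => m (x + x₀) - m' (x + x₀'))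
      (s1.smooth_r.sub s1'.smooth_r) (s1.smooth_m.sub s1'.smooth_m)
      (fun x => ?_) (fun x => ?_) (fun B hk k => ?_) B fun j hjN => ?_
    · have e1 := s1.per_r x
      have e2 := s1'.per_r x
      simp only at e1 e2 ⊢
      rw [e1, e2]
    · have e1 := s1.per_m x
      have e2 := s1'.per_m x
      simp only at e1 e2 ⊢
      rw [e1, e2]
    · have e1 : ∀ k, rc (fun x => r (x + x₀) - r' (x + x₀')) k =
          rc (fun x => r (x + x₀)) k - rc (fun x => r' (x + x₀')) k := fun k =>
        Jet.rc_sub s1.smooth_r.continuous s1'.smooth_r.continuous k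
      have e2 : ∀ k, rc (fun x => m (x + x₀) - m' (x + x₀')) k =
          rc (fun x => m (x + x₀)) k - rc (fun x => m' (x + x₀')) k := fun k =>
        Jet.rc_sub s1.smooth_m.continuous s1'.smooth_m.continuous k
      rw [e1, e2]
      exact H1 B (fun k hkQ => by
        have := hk k hkQ
        rwa [e1, e2] at this) k
    · rw [JetC.it_sub s1.smooth_r s1'.smooth_r, JetC.it_sub s1.smooth_m s1'.smooth_m,
        Jet.it_shift, Jet.it_shift, Jet.it_shift, Jet.it_shift]
      exact hj j hjN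
  refine ⟨main, fun hj => ?_⟩
  have h0 := main 0 fun j hjN => by
    obtain ⟨a1, a2⟩ := hj j hjN
    rw [a1, a2, sub_self, sub_self, abs_zero]
    exact ⟨le_refl _, le_refl _⟩
  have hr : (fun x => r (x + x₀)) = fun x => r' (x + x₀') := by
    funext x
    have := (h0 x).1
    rw [mul_zero, abs_nonpos_iff, sub_eq_zero] at this
    exact this
  have hm : (fun x => m (x + x₀)) = fun x => m' (x + x₀') := by
    funext x
    have := (h0 x).2
    rw [mul_zero, abs_nonpos_iff, sub_eq_zero] at this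
    exact this
  exact H2 fun k _ => by
    rw [hr, hm]
    exact ⟨rfl, rfl⟩

end Pool.Agent.MP_ae5b4e_an_LOC
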