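import Mathlib
import Pool.Agent.Lib.MP_ae5b4e_an_LOC.Jet

/-!
# MP_ae5b4e_an, project LOC: the jets of all orders are functions of the jet of order `N`

For all bounds `K`, `δ` there is `N` such that, for any two solutions with these bounds, the
differences of the derivatives of any order `i` of the coefficients are, everywhere, at most
`C = C (i, K, δ)` times the difference of the jets of order `N` at one point.
-/

noncomputable section

namespace Pool.Agent.MP_ae5b4e_an_LOC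

open Real Set Filter Topology
open scoped ContDiff
open Pool.Agent.MP_ae5b4e_an_hopf
open Pool.Agent.MP_ae5b4e_an_RG
open Pool.Agent.MP_ae5b4e_an_RIG (Bnd Reach Normal lift nrm rig determinacy)

namespace Jet

lemma per_it {f : ℝ → ℝ} (p : Function.Periodic f 1) (i : ℕ) :
    Function.Periodic (deriv^[i] f) 1 := by
  induction i with
  | zero => exact p
  | succ i ih =>
    rw [Function.iterate_succ_apply']
    exact NeCp.per_deriv' ih

/-- the derivatives are controlled by the decay of the coefficients -/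
lemma sup_deriv {ρ : ℝ} (hρ : 0 < ρ) (i : ℕ) : ∃ C : ℝ, 0 ≤ C ∧ ∀ (f : ℝ → ℝ) (B : ℝ),
    ContDiff ℝ ∞ f → Function.Periodic f 1 → 0 ≤ B →
    (∀ k : ℤ, ‖rc f k‖ ≤ B * Real.exp (-(ρ * |(k:ℝ)|))) → ∀ x, |deriv^[i] f x| ≤ C * B := by
  have key : ∀ i : ℕ, ∃ ρi Ai : ℝ, 0 < ρi ∧ 0 ≤ Ai ∧ ∀ (f : ℝ → ℝ) (B : ℝ),
      ContDiff ℝ ∞ f → Function.Periodic f 1 → 0 ≤ B →
      (∀ k : ℤ, ‖rc f k‖ ≤ B * Real.exp (-(ρ * |(k:ℝ)|))) →
      ∀ k : ℤ, ‖rc (deriv^[i] f) k‖ ≤ (Ai * B) * Real.exp (-(ρi * |(k:ℝ)|)) := by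
    intro i
    induction i with
    | zero =>
      refine ⟨ρ, 1, hρ, zero_le_one, fun f B _ _ _ h k => ?_⟩
      rw [one_mul]
      exact h k
    | succ i ih =>
      obtain ⟨ρi, Ai, h1, h2, h3⟩ := ih
      refine ⟨ρi / 2, 4 * π * Ai / ρi, by positivity, by positivity, fun f B hf pf hB h k => ?_⟩
      rw [Function.iterate_succ_apply']
      have h4 := NeCp.decay_deriv h1 (mul_nonneg h2 hB) (JetC.smooth_it hf i) (per_it pf i)
        (h3 f B hf pf hB h) k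
      refine h4.trans (le_of_eq ?_)
      ring
  obtain ⟨ρi, Ai, h1, h2, h3⟩ := key i
  refine ⟨Ai * ∑' k : ℤ, 1 * Real.exp (-(ρi * |(k:ℝ)|)),
    mul_nonneg h2 (tsum_nonneg fun k => by positivity), fun f B hf pf hB h x => ?_⟩
  refine (JetC.sup_le (JetC.smooth_it hf i) (per_it pf i) h1 (h3 f B hf pf hB h) x).trans
    (le_of_eq ?_)
  ring

/-- the coefficients are bounded by the supremum -/
lemma rc_le {f : ℝ → ℝ} {M : ℝ} (h : ∀ x, |f x| ≤ M) (k : ℤ) : ‖rc f k‖ ≤ M := by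
  unfold rc fc
  refine (intervalIntegral.norm_integral_le_of_norm_le_const (C := M) fun x _ => ?_).trans ?_
  · rw [norm_mul, NeCp.norm_e', mul_one, Complex.norm_real, Real.norm_eq_abs]
    exact h x
  · norm_num

end Jet

/-- **Theorem** (finite determinacy, all derivatives). -/
theorem jet_determinacy_all {K δ : ℝ} (hδ : 0 < δ) :
    ∃ N : ℕ, ∀ i : ℕ, ∃ C : ℝ, 0 < C ∧ ∀ (γ : ConvexCurve) (U : ℝ → ℝ → ℝ)
      (κ σ lam r m : ℝ → ℝ) (γ' : ConvexCurve) (U' : ℝ → ℝ → ℝ) (κ' σ' lam' r' m' : ℝ → ℝ),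
      Pool.Agent.MP_ae5b4e_an_RIG.Sol γ U κ → Normal γ κ σ lam r m → Bnd K r m →
      Reach γ U σ δ → Pool.Agent.MP_ae5b4e_an_RIG.Sol γ' U' κ' →
      Normal γ' κ' σ' lam' r' m' → Bnd K r' m' → Reach γ' U' σ' δ → ∀ x₀ x₀' B : ℝ,
      (∀ j ≤ N, |iteratedDeriv j r x₀ - iteratedDeriv j r' x₀'| ≤ B ∧
          |iteratedDeriv j m x₀ - iteratedDeriv j m' x₀'| ≤ B) →
        ∀ x, |iteratedDeriv i r (x + x₀) - iteratedDeriv i r' (x + x₀')| ≤ C * B ∧
          |iteratedDeriv i m (x + x₀) - iteratedDeriv i m' (x + x₀')| ≤ C * B := by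
  obtain ⟨Q, C0, ρ, hC0, hρ, H, -⟩ := rig determinacy K δ hδ
  obtain ⟨N, C, hC, HJ⟩ := jet_determinacy (K := K) hδ
  refine ⟨N, fun i => ?_⟩
  obtain ⟨Ci, hCi, HS⟩ := Jet.sup_deriv hρ i
  refine ⟨Ci * (C0 * C) + 1, by positivity, ?_⟩
  intro γ U κ σ lam r m γ' U' κ' σ' lam' r' m' h hN hB hR h' hN' hB' hR' x₀ x₀' B hj x
  have hB0 : 0 ≤ B := (abs_nonneg _).trans (hj 0 (Nat.zero_le _)).1
  have s1 := Normal_shift hN x₀
  have s1' := Normal_shift hN' x₀'
  obtain ⟨H1, -⟩ := H γ U κ _ _ _ _ γ' U' κ' _ _ _ _ h s1 (Bnd.shift hB x₀)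
    (Reach_shift hR x₀) h' s1' (Bnd.shift hB' x₀') (Reach_shift hR' x₀')
  have hsup := (HJ γ U κ σ lam r m γ' U' κ' σ' lam' r' m' h hN hB hR h' hN' hB' hR' x₀ x₀').1
    B hj
  have e1 : ∀ k, rc (fun x => r (x + x₀) - r' (x + x₀')) k =
      rc (fun x => r (x + x₀)) k - rc (fun x => r' (x + x₀')) k := fun k =>
    Jet.rc_sub s1.smooth_r.continuous s1'.smooth_r.continuous k
  have e2 : ∀ k, rc (fun x => m (x + x₀) - m' (x + x₀')) k =
      rc (fun x => m (x + x₀)) k - rc (fun x => m' (x + x₀')) k := fun k =>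
    Jet.rc_sub s1.smooth_m.continuous s1'.smooth_m.continuous k
  have hlow := H1 (C * B) fun k _ => by
    rw [← e1, ← e2]
    exact ⟨Jet.rc_le (fun x => (hsup x).1) k, Jet.rc_le (fun x => (hsup x).2) k⟩
  have hCB : 0 ≤ C0 * (C * B) := by positivity
  have p1 : Function.Periodic (fun x => r (x + x₀) - r' (x + x₀')) 1 := fun x => by
    have a1 := s1.per_r x
    have a2 := s1'.per_r x
    simp only at a1 a2 ⊢
    rw [a1, a2]
  have p2 : Function.Periodic (fun x => m (x + x₀) - m' (x + x₀')) 1 := fun x => by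
    have a1 := s1.per_m x
    have a2 := s1'.per_m x
    simp only at a1 a2 ⊢
    rw [a1, a2]
  have f1 := HS _ _ (s1.smooth_r.sub s1'.smooth_r) p1 hCB
    (fun k => by rw [e1]; exact (hlow k).1) x
  have f2 := HS _ _ (s1.smooth_m.sub s1'.smooth_m) p2 hCB
    (fun k => by rw [e2]; exact (hlow k).2) x
  rw [JetC.it_sub s1.smooth_r s1'.smooth_r] at f1
  rw [JetC.it_sub s1.smooth_m s1'.smooth_m] at f2
  have sh : ∀ (f : ℝ → ℝ) (s : ℝ),
      deriv^[i] (fun x => f (x + s)) x = iteratedDeriv i f (x + s) := by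
    intro f s
    have h3 := congrFun (iteratedDeriv_comp_add_const i f s) x
    rw [iteratedDeriv_eq_iterate] at h3
    exact h3
  rw [sh, sh] at f1 f2
  have hle : Ci * (C0 * (C * B)) ≤ (Ci * (C0 * C) + 1) * B := by nlinarith
  exact ⟨f1.trans hle, f2.trans hle⟩

end Pool.Agent.MP_ae5b4e_an_LOC
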