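import Pool.Agent.Lib.MP_ae5b4e_an_LOC.L6A

/-!
# LOC, linear theory: the scaling argument (POR_LOC_MASTER, LT-15)
-/

set_option autoImplicit false

namespace Pool.Agent.MP_ae5b4e_an_LOC

open Set Metric Complex Filter Topology


/-! ### The scaling limit -/

section scale

variable {B : Bg} {u : Fin 3 → ℂ → ℂ} {v : ℕ} {be ga al : ℂ}

/-- `N om (om y) / om ^ 2 → kap ^ 2 (1/4 - y ^ 2)`, quantitatively -/
theorem napp_scaled (B : Bg) : ∃ C : ℝ, 0 < C ∧ ∃ w0 : ℝ, 0 < w0 ∧ w0 ≤ B.r ∧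
    ∀ (mu : ℝ) (y : ℂ), 0 < mu → mu < w0 → ‖y‖ ≤ 1 →
      ‖B.N mu (mu * y) / (mu : ℂ) ^ 2 - B.kap ^ 2 * (1 / 4 - y ^ 2)‖ ≤ C * mu ^ 2 := by
  obtain ⟨C, hC, hN⟩ := Bg.napp B
  refine ⟨16 * C, by positivity, min B.r B.rho, lt_min B.r_pos B.rho_pos, min_le_left _ _, ?_⟩
  intro mu y hmu hmu' hy
  have h1 : ‖(mu : ℂ)‖ = mu := by
    rw [Complex.norm_real, Real.norm_eq_abs, abs_of_pos hmu]
  have hy0 : 0 ≤ ‖y‖ := norm_nonneg _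
  have h2 : ‖(mu : ℂ) * y‖ ≤ mu := by
    rw [norm_mul, h1]; nlinarith
  have h3 := hN mu (mu * y) (by rw [h1]; exact lt_of_lt_of_le hmu' (min_le_left _ _))
    (lt_of_le_of_lt h2 (lt_of_lt_of_le hmu' (min_le_right _ _)))
  have hmune : (mu : ℂ) ≠ 0 := by exact_mod_cast hmu.ne'
  have e : B.N mu (mu * y) / (mu : ℂ) ^ 2 - B.kap ^ 2 * (1 / 4 - y ^ 2) =
      (B.N mu (mu * y) - B.kap ^ 2 * ((mu : ℂ) ^ 2 / 4 - ((mu : ℂ) * y) ^ 2)) / (mu : ℂ) ^ 2 := by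
    field_simp
  rw [e, norm_div, norm_pow, h1, div_le_iff₀ (by positivity)]
  calc _ ≤ C * (‖(mu : ℂ)‖ + ‖(mu : ℂ) * y‖) ^ 4 := h3
    _ ≤ C * (mu + mu) ^ 4 := by rw [h1]; gcongr
    _ = 16 * C * mu ^ 2 * mu ^ 2 := by ring

/-- the scaled value in terms of the ratio -/
theorem scaled_eq {mu : ℝ} {y q ρ : ℂ} (hq : q = B.N mu (mu * y)) (hmu : (mu : ℂ) ≠ 0)
    (hρ : ρ = q / (mu : ℂ) ^ 2) (hρ0 : ρ ≠ 0) :
    (B.kap : ℂ) ^ (2 * (v + 2)) * (mu : ℂ) ^ (2 * v) * B.F u mu (B.N mu (mu * y)) =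
      (B.kap : ℂ) ^ (2 * (v + 2)) * ((q ^ (v + 2) * u 0 q) / ρ ^ (v + 2) +
        B.Lam mu * (q ^ (v + 1) * u 1 q) / ρ ^ (v + 1) +
        B.Lam mu ^ 2 * (q ^ v * u 2 q) / ρ ^ v) := by
  have hq' : q = ρ * (mu : ℂ) ^ 2 := by rw [hρ]; field_simp
  have hV : B.F u mu (B.N mu (mu * y)) = (mu : ℂ) ^ 4 * u 0 q + (mu : ℂ) ^ 2 * B.Lam mu * u 1 q +
      B.Lam mu ^ 2 * u 2 q := by
    rw [hq]; rfl
  rw [hV]
  have e0 : q ^ (v + 2) / ρ ^ (v + 2) = (mu : ℂ) ^ (2 * v) * (mu : ℂ) ^ 4 := by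
    rw [← div_pow, hq', mul_div_assoc, mul_comm ρ, div_mul_cancel₀ _ hρ0, ← pow_mul, ← pow_add]
    congr 1
  have e1 : q ^ (v + 1) / ρ ^ (v + 1) = (mu : ℂ) ^ (2 * v) * (mu : ℂ) ^ 2 := by
    rw [← div_pow, hq', mul_div_assoc, mul_comm ρ, div_mul_cancel₀ _ hρ0, ← pow_mul, ← pow_add]
    congr 1
  have e2 : q ^ v / ρ ^ v = (mu : ℂ) ^ (2 * v) := by
    rw [← div_pow, hq', mul_div_assoc, mul_comm ρ, div_mul_cancel₀ _ hρ0, ← pow_mul]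
  have f0 : (q ^ (v + 2) * u 0 q) / ρ ^ (v + 2) = (mu : ℂ) ^ (2 * v) * (mu : ℂ) ^ 4 * u 0 q := by
    rw [mul_div_right_comm, e0]
  have f1 : B.Lam mu * (q ^ (v + 1) * u 1 q) / ρ ^ (v + 1) =
      B.Lam mu * ((mu : ℂ) ^ (2 * v) * (mu : ℂ) ^ 2) * u 1 q := by
    rw [← e1]; ring
  have f2 : B.Lam mu ^ 2 * (q ^ v * u 2 q) / ρ ^ v =
      B.Lam mu ^ 2 * (mu : ℂ) ^ (2 * v) * u 2 q := by
    rw [← e2]; ring
  rw [f0, f1, f2]
  ring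

/-- the pointwise limit -/
theorem lim_V (h0 : Tendsto (fun q => q ^ (v + 2) * u 0 q) (𝓝[≠] 0) (𝓝 be))
    (h1 : Tendsto (fun q => q ^ (v + 1) * u 1 q) (𝓝[≠] 0) (𝓝 ga))
    (h2 : Tendsto (fun q => q ^ v * u 2 q) (𝓝[≠] 0) (𝓝 al))
    {y : ℂ} (hy : ‖y‖ ≤ 1) (hy2 : (1 / 4 - y ^ 2 : ℂ) ≠ 0) :
    Tendsto (fun mu : ℝ => (B.kap : ℂ) ^ (2 * (v + 2)) * (mu : ℂ) ^ (2 * v) * B.F u mu (B.N mu (mu * y)))
      (𝓝[>] 0) (𝓝 (be / (1 / 4 - y ^ 2) ^ (v + 2) +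
        B.Lam 0 * B.kap ^ 2 * ga / (1 / 4 - y ^ 2) ^ (v + 1) +
        B.Lam 0 ^ 2 * B.kap ^ 4 * al / (1 / 4 - y ^ 2) ^ v)) := by
  obtain ⟨C, hC, w0, hw0, hw0r, hN⟩ := napp_scaled B
  have hkap : (B.kap : ℂ) ≠ 0 := by exact_mod_cast B.kap_pos.ne'
  set κ : ℂ := B.kap ^ 2 * (1 / 4 - y ^ 2) with hκ
  have hκ0 : κ ≠ 0 := mul_ne_zero (pow_ne_zero _ hkap) hy2
  set ρ : ℝ → ℂ := fun mu => B.N mu (mu * y) / (mu : ℂ) ^ 2 with hρ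
  have hev : ∀ᶠ mu : ℝ in 𝓝[>] 0, 0 < mu ∧ mu < w0 := by
    filter_upwards [Ioo_mem_nhdsGT hw0] with mu hmu using hmu
  have tmu : Tendsto (fun mu : ℝ => (mu : ℂ)) (𝓝[>] 0) (𝓝 0) := by
    have : Tendsto (fun mu : ℝ => (mu : ℂ)) (𝓝 0) (𝓝 ((0 : ℝ) : ℂ)) :=
      Complex.continuous_ofReal.tendsto 0
    rw [Complex.ofReal_zero] at this
    exact this.mono_left nhdsWithin_le_nhds
  have tρ : Tendsto ρ (𝓝[>] 0) (𝓝 κ) := by
    rw [tendsto_iff_norm_sub_tendsto_zero]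
    have hb : Tendsto (fun mu : ℝ => C * mu ^ 2) (𝓝[>] 0) (𝓝 0) := by
      have : Tendsto (fun mu : ℝ => C * mu ^ 2) (𝓝 0) (𝓝 (C * 0 ^ 2)) :=
        (continuous_const.mul (continuous_id.pow 2)).tendsto 0
      rw [zero_pow two_ne_zero, mul_zero] at this
      exact this.mono_left nhdsWithin_le_nhds
    refine tendsto_of_tendsto_of_tendsto_of_le_of_le' tendsto_const_nhds hb
      (Eventually.of_forall fun _ => norm_nonneg _) ?_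
    filter_upwards [hev] with mu hmu
    exact hN mu y hmu.1 hmu.2 hy
  have hρ0 : ∀ᶠ mu in 𝓝[>] (0:ℝ), ρ mu ≠ 0 := tρ.eventually_ne hκ0
  have tq : Tendsto (fun mu : ℝ => B.N mu (mu * y)) (𝓝[>] 0) (𝓝[≠] 0) := by
    rw [tendsto_nhdsWithin_iff]
    constructor
    · have : Tendsto (fun mu : ℝ => ρ mu * (mu : ℂ) ^ 2) (𝓝[>] 0) (𝓝 (κ * 0 ^ 2)) :=
        tρ.mul (tmu.pow 2)
      rw [zero_pow two_ne_zero, mul_zero] at this
      refine this.congr' ?_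
      filter_upwards [hev] with mu hmu
      have hmune : (mu : ℂ) ≠ 0 := by exact_mod_cast hmu.1.ne'
      simp only [hρ]
      field_simp
    · filter_upwards [hρ0] with mu hmu
      intro h
      apply hmu
      simp only [hρ]
      have h' : B.N mu (mu * y) = 0 := h
      rw [h', zero_div]
  have tLam : Tendsto (fun mu : ℝ => B.Lam mu) (𝓝[>] 0) (𝓝 (B.Lam 0)) := by
    have hc : ContinuousAt B.Lam 0 := (B.Lam_an 0 (by simpa using B.r_pos)).continuousAt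
    exact hc.tendsto.comp tmu
  have T0 := (h0.comp tq).div (tρ.pow (v + 2)) (pow_ne_zero _ hκ0)
  have T1 := (tLam.mul (h1.comp tq)).div (tρ.pow (v + 1)) (pow_ne_zero _ hκ0)
  have T2 := ((tLam.pow 2).mul (h2.comp tq)).div (tρ.pow v) (pow_ne_zero _ hκ0)
  have T := ((T0.add T1).add T2).const_mul ((B.kap : ℂ) ^ (2 * (v + 2)))
  have elim : (B.kap : ℂ) ^ (2 * (v + 2)) * (be / κ ^ (v + 2) + B.Lam 0 * ga / κ ^ (v + 1) +
      B.Lam 0 ^ 2 * al / κ ^ v) = be / (1 / 4 - y ^ 2) ^ (v + 2) +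
        B.Lam 0 * B.kap ^ 2 * ga / (1 / 4 - y ^ 2) ^ (v + 1) +
        B.Lam 0 ^ 2 * B.kap ^ 4 * al / (1 / 4 - y ^ 2) ^ v := by
    rw [hκ, mul_pow, mul_pow, mul_pow, ← pow_mul, ← pow_mul, ← pow_mul]
    have k1 : (B.kap : ℂ) ^ (2 * (v + 2)) = (B.kap : ℂ) ^ (2 * (v + 1)) * (B.kap : ℂ) ^ 2 := by
      rw [← pow_add]; congr 1
    have k2 : (B.kap : ℂ) ^ (2 * (v + 2)) = (B.kap : ℂ) ^ (2 * v) * (B.kap : ℂ) ^ 4 := by
      rw [← pow_add]; congr 1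
    have kn : ∀ m : ℕ, (B.kap : ℂ) ^ m ≠ 0 := fun m => pow_ne_zero _ hkap
    rw [mul_add, mul_add]
    congr 1
    · congr 1
      · field_simp
      · rw [k1]; field_simp
    · rw [k2]; field_simp
  rw [elim] at T
  refine T.congr' ?_
  filter_upwards [hev, hρ0] with mu hmu hr
  have hmune : (mu : ℂ) ≠ 0 := by exact_mod_cast hmu.1.ne'
  exact (scaled_eq (v := v) (u := u) rfl hmune rfl hr).symm


/-- the uniform bound -/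
theorem bd_V (h0 : Tendsto (fun q => q ^ (v + 2) * u 0 q) (𝓝[≠] 0) (𝓝 be))
    (h1 : Tendsto (fun q => q ^ (v + 1) * u 1 q) (𝓝[≠] 0) (𝓝 ga))
    (h2 : Tendsto (fun q => q ^ v * u 2 q) (𝓝[≠] 0) (𝓝 al)) :
    ∃ M w0 : ℝ, 0 < w0 ∧ ∀ (mu : ℝ) (y : ℂ), 0 < mu → mu < w0 → ‖y‖ ≤ 1 →
      1 / 4 ≤ ‖(1 / 4 - y ^ 2 : ℂ)‖ →
      ‖(B.kap : ℂ) ^ (2 * (v + 2)) * (mu : ℂ) ^ (2 * v) * B.F u mu (B.N mu (mu * y))‖ ≤ M := by
  obtain ⟨C, hC, w0, hw0, hw0r, hN⟩ := napp_scaled B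
  have hkp := B.kap_pos
  have hkap : (B.kap : ℂ) ≠ 0 := by exact_mod_cast B.kap_pos.ne'
  -- bounds of the three functions
  have ev : ∀ {f : ℂ → ℂ} {l : ℂ}, Tendsto f (𝓝[≠] 0) (𝓝 l) →
      ∀ᶠ q in 𝓝[≠] (0:ℂ), ‖f q‖ ≤ ‖l‖ + 1 := fun {f l} hf => by
    have := hf.norm.eventually_le_const (show ‖l‖ < ‖l‖ + 1 by linarith)
    exact this
  have e3 := (ev h0).and ((ev h1).and (ev h2))
  rw [eventually_nhdsWithin_iff, Metric.eventually_nhds_iff] at e3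
  obtain ⟨δ, hδ, e3⟩ := e3
  -- bound of Lam
  have hcL : ContinuousAt B.Lam 0 := (B.Lam_an 0 (by simpa using B.r_pos)).continuousAt
  have eL : ∀ᶠ om in 𝓝 (0:ℂ), ‖B.Lam om‖ ≤ ‖B.Lam 0‖ + 1 :=
    hcL.tendsto.norm.eventually_le_const (show ‖B.Lam 0‖ < ‖B.Lam 0‖ + 1 by linarith)
  rw [Metric.eventually_nhds_iff] at eL
  obtain ⟨δ', hδ', eL⟩ := eL
  set c1 : ℝ := B.kap ^ 2 / 8 with hc1
  have hc1p : 0 < c1 := by positivity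
  obtain ⟨w1, hw1, hw1a⟩ : ∃ w1 : ℝ, 0 < w1 ∧ ∀ mu : ℝ, 0 < mu → mu < w1 →
      C * mu ^ 2 ≤ c1 ∧ 16 * c1 * mu ^ 2 < δ := by
    have t1 : Tendsto (fun mu : ℝ => C * mu ^ 2) (𝓝 0) (𝓝 0) := by
      have : Tendsto (fun mu : ℝ => C * mu ^ 2) (𝓝 0) (𝓝 (C * 0 ^ 2)) :=
        (continuous_const.mul (continuous_id.pow 2)).tendsto 0
      rwa [zero_pow two_ne_zero, mul_zero] at this
    have t2 : Tendsto (fun mu : ℝ => 16 * c1 * mu ^ 2) (𝓝 0) (𝓝 0) := by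
      have : Tendsto (fun mu : ℝ => 16 * c1 * mu ^ 2) (𝓝 0) (𝓝 (16 * c1 * 0 ^ 2)) :=
        (continuous_const.mul (continuous_id.pow 2)).tendsto 0
      rwa [zero_pow two_ne_zero, mul_zero] at this
    have := (t1.eventually_le_const hc1p).and (t2.eventually_lt_const hδ)
    rw [Metric.eventually_nhds_iff] at this
    obtain ⟨w1, hw1, h⟩ := this
    refine ⟨w1, hw1, fun mu hmu hmu' => h ?_⟩
    rw [Real.dist_eq, sub_zero, abs_of_pos hmu]; exact hmu'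
  set L1 : ℝ := ‖B.Lam 0‖ + 1 with hL1
  have hL1p : 0 ≤ L1 := by positivity
  refine ⟨B.kap ^ (2 * (v + 2)) * ((‖be‖ + 1) / c1 ^ (v + 2) + L1 * (‖ga‖ + 1) / c1 ^ (v + 1) +
    L1 ^ 2 * (‖al‖ + 1) / c1 ^ v), min w0 (min w1 δ'), lt_min hw0 (lt_min hw1 hδ'), ?_⟩
  intro mu y hmu hmu' hy hy2
  have m1 : mu < w0 := lt_of_lt_of_le hmu' (min_le_left _ _)
  have m2 : mu < w1 := lt_of_lt_of_le hmu' ((min_le_right _ _).trans (min_le_left _ _))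
  have m3 : mu < δ' := lt_of_lt_of_le hmu' ((min_le_right _ _).trans (min_le_right _ _))
  have hmune : (mu : ℂ) ≠ 0 := by exact_mod_cast hmu.ne'
  have hmun : ‖(mu : ℂ)‖ = mu := by
    rw [Complex.norm_real, Real.norm_eq_abs, abs_of_pos hmu]
  have hn := hN mu y hmu m1 hy
  obtain ⟨b1, b2⟩ := hw1a mu hmu m2
  set q : ℂ := B.N mu (mu * y) with hq
  set ρ : ℂ := q / (mu : ℂ) ^ 2 with hρ
  have hknorm : ‖(B.kap : ℂ)‖ = B.kap := by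
    rw [Complex.norm_real, Real.norm_eq_abs, abs_of_pos hkp]
  have hκ1 : B.kap ^ 2 * (1 / 4) ≤ ‖(B.kap : ℂ) ^ 2 * (1 / 4 - y ^ 2)‖ := by
    rw [norm_mul, norm_pow, hknorm]; gcongr
  have hκ2 : ‖(B.kap : ℂ) ^ 2 * (1 / 4 - y ^ 2)‖ ≤ B.kap ^ 2 * (5 / 4) := by
    rw [norm_mul, norm_pow, hknorm]
    have : ‖(1 / 4 - y ^ 2 : ℂ)‖ ≤ 5 / 4 := by
      calc ‖(1 / 4 - y ^ 2 : ℂ)‖ ≤ ‖(1 / 4 : ℂ)‖ + ‖y ^ 2‖ := norm_sub_le _ _
        _ ≤ 1 / 4 + 1 := by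
            rw [norm_pow]
            have : ‖(1 / 4 : ℂ)‖ = 1 / 4 := by simp
            rw [this]
            have : ‖y‖ ^ 2 ≤ 1 := pow_le_one₀ (norm_nonneg _) hy
            linarith
        _ = 5 / 4 := by norm_num
    gcongr
  have hρ1 : c1 ≤ ‖ρ‖ := by
    have h4 : ‖(B.kap : ℂ) ^ 2 * (1 / 4 - y ^ 2)‖ ≤ ‖ρ‖ + ‖ρ - (B.kap : ℂ) ^ 2 * (1 / 4 - y ^ 2)‖ := by
      have := norm_sub_norm_le ((B.kap : ℂ) ^ 2 * (1 / 4 - y ^ 2)) ρ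
      rw [norm_sub_rev] at this
      linarith
    have h5 := hn.trans b1
    rw [hc1] at h5 ⊢
    linarith
  have hρ2 : ‖ρ‖ ≤ 11 * c1 := by
    have h4 := norm_sub_norm_le ρ ((B.kap : ℂ) ^ 2 * (1 / 4 - y ^ 2))
    have h5 := hn.trans b1
    rw [hc1] at h5 ⊢
    linarith
  have hρ0 : ρ ≠ 0 := by
    intro h; rw [h, norm_zero] at hρ1; linarith
  have hqρ : q = ρ * (mu : ℂ) ^ 2 := by rw [hρ]; field_simp
  have hq0 : q ≠ 0 := by rw [hqρ]; exact mul_ne_zero hρ0 (pow_ne_zero _ hmune)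
  have hqδ : dist q 0 < δ := by
    rw [dist_zero_right, hqρ, norm_mul, norm_pow, hmun]
    calc ‖ρ‖ * mu ^ 2 ≤ 11 * c1 * mu ^ 2 := by gcongr
      _ ≤ 16 * c1 * mu ^ 2 := by gcongr; norm_num
      _ < δ := b2
  obtain ⟨g0, g1, g2⟩ := e3 hqδ hq0
  have gL : ‖B.Lam mu‖ ≤ L1 := eL (by rw [dist_zero_right, hmun]; exact m3)
  rw [scaled_eq (v := v) (u := u) hq hmune hρ hρ0, norm_mul, norm_pow, hknorm]
  have pk : ∀ k : ℕ, c1 ^ k ≤ ‖ρ ^ k‖ := fun k => by rw [norm_pow]; gcongr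
  have n0 : ‖(q ^ (v + 2) * u 0 q) / ρ ^ (v + 2)‖ ≤ (‖be‖ + 1) / c1 ^ (v + 2) := by
    rw [norm_div]; exact div_le_div₀ (by positivity) g0 (by positivity) (pk _)
  have n1 : ‖B.Lam mu * (q ^ (v + 1) * u 1 q) / ρ ^ (v + 1)‖ ≤
      L1 * (‖ga‖ + 1) / c1 ^ (v + 1) := by
    rw [norm_div, norm_mul]
    exact div_le_div₀ (by positivity) (mul_le_mul gL g1 (norm_nonneg _) hL1p)
      (by positivity) (pk _)
  have n2 : ‖B.Lam mu ^ 2 * (q ^ v * u 2 q) / ρ ^ v‖ ≤ L1 ^ 2 * (‖al‖ + 1) / c1 ^ v := by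
    rw [norm_div, norm_mul, norm_pow]
    exact div_le_div₀ (by positivity) (mul_le_mul (by gcongr) g2 (norm_nonneg _) (by positivity))
      (by positivity) (pk _)
  have := (norm_add₃_le (a := (q ^ (v + 2) * u 0 q) / ρ ^ (v + 2))
    (b := B.Lam mu * (q ^ (v + 1) * u 1 q) / ρ ^ (v + 1))
    (c := B.Lam mu ^ 2 * (q ^ v * u 2 q) / ρ ^ v))
  gcongr
  linarith

/-- the scaled relation: the symmetrised limit is bounded near `0` -/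
theorem l6_bound {w' : ℝ} (hw' : 0 < w')
    (hRR : ∀ (om z : ℂ) (d1 : ℝ), om ≠ 0 → ‖om‖ < w' → z ≠ 0 → ‖z‖ < d1 → d1 < ‖om‖ →
      B.F u om (B.N om (z - om / 2)) + B.F u om (B.N om (z + om / 2)) = (2 * Real.pi * I)⁻¹ *
        ∮ ζ in C(0, d1), (B.F u om (B.N om (ζ - om / 2)) + B.F u om (B.N om (ζ + om / 2))) /
          (ζ - z))
    (h0 : Tendsto (fun q => q ^ (v + 2) * u 0 q) (𝓝[≠] 0) (𝓝 be))
    (h1 : Tendsto (fun q => q ^ (v + 1) * u 1 q) (𝓝[≠] 0) (𝓝 ga))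
    (h2 : Tendsto (fun q => q ^ v * u 2 q) (𝓝[≠] 0) (𝓝 al)) :
    ∃ M : ℝ, ∀ z : ℂ, 0 < ‖z‖ → ‖z‖ ≤ 1 / 4 →
      ‖(be / (1 / 4 - (z - 1 / 2) ^ 2) ^ (v + 2) +
        B.Lam 0 * B.kap ^ 2 * ga / (1 / 4 - (z - 1 / 2) ^ 2) ^ (v + 1) +
        B.Lam 0 ^ 2 * B.kap ^ 4 * al / (1 / 4 - (z - 1 / 2) ^ 2) ^ v) +
       (be / (1 / 4 - (z + 1 / 2) ^ 2) ^ (v + 2) +
        B.Lam 0 * B.kap ^ 2 * ga / (1 / 4 - (z + 1 / 2) ^ 2) ^ (v + 1) +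
        B.Lam 0 ^ 2 * B.kap ^ 4 * al / (1 / 4 - (z + 1 / 2) ^ 2) ^ v)‖ ≤ M := by
  obtain ⟨M, w0, hw0, hM⟩ := bd_V (B := B) h0 h1 h2
  refine ⟨4 * M, fun z hz hz' => ?_⟩
  have hz0 : z ≠ 0 := norm_pos_iff.1 hz
  -- the two factors
  have fac1 : (1 / 4 - (z - 1 / 2) ^ 2 : ℂ) = z * (1 - z) := by ring
  have fac2 : (1 / 4 - (z + 1 / 2) ^ 2 : ℂ) = -(z * (1 + z)) := by ring
  have ne1 : (1 - z : ℂ) ≠ 0 := by
    intro h
    have : z = 1 := by linear_combination -h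
    rw [this, norm_one] at hz'; norm_num at hz'
  have ne2 : (1 + z : ℂ) ≠ 0 := by
    intro h
    have : z = -1 := by linear_combination h
    rw [this, norm_neg, norm_one] at hz'; norm_num at hz'
  have ny1 : ‖z - 1 / 2‖ ≤ 1 := by
    calc ‖z - 1 / 2‖ ≤ ‖z‖ + ‖(1 / 2 : ℂ)‖ := norm_sub_le _ _
      _ ≤ 1 / 4 + 1 / 2 := by
        have : ‖(1 / 2 : ℂ)‖ = 1 / 2 := by simp
        linarith
      _ ≤ 1 := by norm_num
  have ny2 : ‖z + 1 / 2‖ ≤ 1 := by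
    calc ‖z + 1 / 2‖ ≤ ‖z‖ + ‖(1 / 2 : ℂ)‖ := norm_add_le _ _
      _ ≤ 1 / 4 + 1 / 2 := by
        have : ‖(1 / 2 : ℂ)‖ = 1 / 2 := by simp
        linarith
      _ ≤ 1 := by norm_num
  have T1 := lim_V (B := B) h0 h1 h2 ny1 (by rw [fac1]; exact mul_ne_zero hz0 ne1)
  have T2 := lim_V (B := B) h0 h1 h2 ny2 (by rw [fac2]; exact neg_ne_zero.2 (mul_ne_zero hz0 ne2))
  refine le_of_tendsto (T1.add T2).norm ?_
  filter_upwards [Ioo_mem_nhdsGT (lt_min hw0 hw')] with mu hmu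
  have hmu0 : 0 < mu := hmu.1
  have m0 : mu < w0 := lt_of_lt_of_le hmu.2 (min_le_left _ _)
  have m1 : mu < w' := lt_of_lt_of_le hmu.2 (min_le_right _ _)
  have hmune : (mu : ℂ) ≠ 0 := by exact_mod_cast hmu0.ne'
  have hmun : ‖(mu : ℂ)‖ = mu := by
    rw [Complex.norm_real, Real.norm_eq_abs, abs_of_pos hmu0]
  set S : ℂ := (B.kap : ℂ) ^ (2 * (v + 2)) * (mu : ℂ) ^ (2 * v) with hS
  clear_value S
  -- the relation
  have hrel := hRR mu (mu * z) (mu / 2) hmune (by rw [hmun]; exact m1)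
    (mul_ne_zero hmune hz0) (by rw [norm_mul, hmun]; nlinarith) (by rw [hmun]; linarith)
  have a1 : (mu : ℂ) * z - mu / 2 = mu * (z - 1 / 2) := by ring
  have a2 : (mu : ℂ) * z + mu / 2 = mu * (z + 1 / 2) := by ring
  rw [a1, a2] at hrel
  rw [← mul_add, hrel]
  -- bound of the integral
  have hint : ∀ ζ ∈ sphere (0:ℂ) (mu / 2),
      ‖(B.F u mu (B.N mu (ζ - mu / 2)) + B.F u mu (B.N mu (ζ + mu / 2))) / (ζ - mu * z)‖ ≤
        (2 * M / ‖S‖) / (mu / 4) := by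
    intro ζ hζ
    have hζn : ‖ζ‖ = mu / 2 := by simpa using hζ
    set η : ℂ := ζ / mu with hη
    have hζη : ζ = mu * η := by rw [hη]; field_simp
    have hηn : ‖η‖ = 1 / 2 := by
      rw [hη, norm_div, hζn, hmun]; field_simp
    have b1 : ζ - mu / 2 = mu * (η - 1 / 2) := by rw [hζη]; ring
    have b2 : ζ + mu / 2 = mu * (η + 1 / 2) := by rw [hζη]; ring
    have half : ‖(1 / 2 : ℂ)‖ = 1 / 2 := by simp
    have c1 : ‖η - 1 / 2‖ ≤ 1 := by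
      calc ‖η - 1 / 2‖ ≤ ‖η‖ + ‖(1 / 2 : ℂ)‖ := norm_sub_le _ _
        _ ≤ 1 := by rw [half, hηn]; norm_num
    have c2 : ‖η + 1 / 2‖ ≤ 1 := by
      calc ‖η + 1 / 2‖ ≤ ‖η‖ + ‖(1 / 2 : ℂ)‖ := norm_add_le _ _
        _ ≤ 1 := by rw [half, hηn]; norm_num
    have d1 : 1 / 4 ≤ ‖(1 / 4 - (η - 1 / 2) ^ 2 : ℂ)‖ := by
      have : (1 / 4 - (η - 1 / 2) ^ 2 : ℂ) = η * (1 - η) := by ring
      rw [this, norm_mul, hηn]
      have : 1 / 2 ≤ ‖1 - η‖ := by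
        have := norm_sub_norm_le (1:ℂ) η
        rw [norm_one, hηn] at this
        linarith
      linarith
    have d2 : 1 / 4 ≤ ‖(1 / 4 - (η + 1 / 2) ^ 2 : ℂ)‖ := by
      have : (1 / 4 - (η + 1 / 2) ^ 2 : ℂ) = -(η * (1 + η)) := by ring
      rw [this, norm_neg, norm_mul, hηn]
      have : 1 / 2 ≤ ‖1 + η‖ := by
        have := norm_sub_norm_le (1:ℂ) (-η)
        rw [norm_one, norm_neg, hηn, sub_neg_eq_add] at this
        linarith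
      linarith
    have e1 := hM mu (η - 1 / 2) hmu0 m0 c1 d1
    have e2 := hM mu (η + 1 / 2) hmu0 m0 c2 d2
    rw [← hS] at e1 e2
    have hSne : S ≠ 0 := by
      rw [hS]
      exact mul_ne_zero (pow_ne_zero _ (by exact_mod_cast B.kap_pos.ne')) (pow_ne_zero _ hmune)
    have hSn : 0 < ‖S‖ := norm_pos_iff.2 hSne
    rw [norm_div]
    have f1 : ‖B.F u mu (B.N mu (ζ - mu / 2)) + B.F u mu (B.N mu (ζ + mu / 2))‖ ≤ 2 * M / ‖S‖ := by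
      rw [le_div_iff₀ hSn, mul_comm, ← norm_mul, mul_add, b1, b2]
      calc _ ≤ ‖S * B.F u mu (B.N mu (mu * (η - 1 / 2)))‖ +
            ‖S * B.F u mu (B.N mu (mu * (η + 1 / 2)))‖ := norm_add_le _ _
        _ ≤ 2 * M := by linarith
    have f2 : mu / 4 ≤ ‖ζ - mu * z‖ := by
      have h3 := norm_sub_norm_le ζ (mu * z)
      rw [hζn, norm_mul, hmun] at h3
      nlinarith
    exact div_le_div₀ ((norm_nonneg _).trans f1) f1 (by positivity) f2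
  have hci := circleIntegral.norm_integral_le_of_norm_le_const (by positivity : 0 ≤ mu / 2) hint
  have hSne : S ≠ 0 := by
    rw [hS]
    exact mul_ne_zero (pow_ne_zero _ (by exact_mod_cast B.kap_pos.ne')) (pow_ne_zero _ hmune)
  have hSn : 0 < ‖S‖ := norm_pos_iff.2 hSne
  rw [norm_mul, norm_mul, norm_inv]
  have h2pi : ‖(2 * Real.pi * I : ℂ)‖ = 2 * Real.pi := by
    rw [norm_mul, norm_mul, Complex.norm_I, mul_one, Complex.norm_real, Real.norm_eq_abs,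
      abs_of_pos Real.pi_pos]
    simp
  rw [h2pi]
  have hpi := Real.pi_pos
  calc ‖S‖ * ((2 * Real.pi)⁻¹ * _) ≤
        ‖S‖ * ((2 * Real.pi)⁻¹ * (2 * Real.pi * (mu / 2) * ((2 * M / ‖S‖) / (mu / 4)))) := by
        gcongr
    _ = 4 * M := by
        field_simp

/-- THEOREM L6 -/
theorem l6 {w' : ℝ} (hw' : 0 < w')
    (hRR : ∀ (om z : ℂ) (d1 : ℝ), om ≠ 0 → ‖om‖ < w' → z ≠ 0 → ‖z‖ < d1 → d1 < ‖om‖ →
      B.F u om (B.N om (z - om / 2)) + B.F u om (B.N om (z + om / 2)) = (2 * Real.pi * I)⁻¹ *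
        ∮ ζ in C(0, d1), (B.F u om (B.N om (ζ - om / 2)) + B.F u om (B.N om (ζ + om / 2))) /
          (ζ - z))
    (h0 : Tendsto (fun q => q ^ (v + 2) * u 0 q) (𝓝[≠] 0) (𝓝 be))
    (h1 : Tendsto (fun q => q ^ (v + 1) * u 1 q) (𝓝[≠] 0) (𝓝 ga))
    (h2 : Tendsto (fun q => q ^ v * u 2 q) (𝓝[≠] 0) (𝓝 al)) :
    ∀ k < v + 2, Even (v + 2 + k) →
      (aP (v + 2) be (-(B.Lam 0 * B.kap ^ 2 * ga)) (B.Lam 0 ^ 2 * B.kap ^ 4 * al)).coeff k = 0 := by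
  obtain ⟨M, hM⟩ := l6_bound hw' hRR h0 h1 h2
  intro k hk hp
  refine aP_coeff_eq_zero (M := M * 2 ^ (v + 2)) (r := 1 / 4) (by norm_num) ?_ hk hp
  intro z hz hz'
  have h := hM z hz hz'
  have hz0 : z ≠ 0 := norm_pos_iff.1 hz
  have ne1 : (1 - z : ℂ) ≠ 0 := by
    intro h
    have : z = 1 := by linear_combination -h
    rw [this, norm_one] at hz'; norm_num at hz'
  have ne2 : (1 + z : ℂ) ≠ 0 := by
    intro h
    have : z = -1 := by linear_combination h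
    rw [this, norm_neg, norm_one] at hz'; norm_num at hz'
  have fac1 : (1 / 4 - (z - 1 / 2) ^ 2 : ℂ) = z * (1 - z) := by ring
  have fac2 : (1 / 4 - (z + 1 / 2) ^ 2 : ℂ) = -(z * (1 + z)) := by ring
  rw [fac1, fac2] at h
  set G : ℂ := B.Lam 0 * B.kap ^ 2 * ga with hG
  set A : ℂ := B.Lam 0 ^ 2 * B.kap ^ 4 * al with hA
  have ev1 : (nP be (-G) A).eval z = be - G * (z * (1 + z)) + A * (z * (1 + z)) ^ 2 := by
    simp [nP]; ring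
  have ev2 : (nP be (-G) A).eval (-z) = be + G * (z * (1 - z)) + A * (z * (1 - z)) ^ 2 := by
    simp [nP]; ring
  rw [ev1, ev2]
  have key : (-1) ^ (v + 2) * ((1 - z) ^ (v + 2) * (be - G * (z * (1 + z)) +
      A * (z * (1 + z)) ^ 2)) + (1 + z) ^ (v + 2) * (be + G * (z * (1 - z)) +
      A * (z * (1 - z)) ^ 2) = (z * ((1 - z) * (1 + z))) ^ (v + 2) *
      (be / (z * (1 - z)) ^ (v + 2) + G * 1 / (z * (1 - z)) ^ (v + 1) +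
        A * 1 / (z * (1 - z)) ^ v + (be / (-(z * (1 + z))) ^ (v + 2) +
        G * 1 / (-(z * (1 + z))) ^ (v + 1) + A * 1 / (-(z * (1 + z))) ^ v)) := by
    have hP : z * (1 - z) ≠ 0 := mul_ne_zero hz0 ne1
    have hQ : z * (1 + z) ≠ 0 := mul_ne_zero hz0 ne2
    have hP' := pow_ne_zero v hP
    have hQ' := pow_ne_zero v hQ
    have s1 : ((-1 : ℂ)) ^ v * (-1) ^ v = 1 := by
      rw [← mul_pow]; norm_num
    have sne : ((-1 : ℂ)) ^ v ≠ 0 := pow_ne_zero _ (by norm_num)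
    have e1 : (z * ((1 - z) * (1 + z))) ^ (v + 2) =
        (1 + z) ^ (v + 2) * (z * (1 - z)) ^ (v + 2) := by
      rw [← mul_pow]; ring
    have e2 : (z * ((1 - z) * (1 + z))) ^ (v + 2) =
        (-1) ^ (v + 2) * (1 - z) ^ (v + 2) * (-(z * (1 + z))) ^ (v + 2) := by
      rw [← mul_pow, ← mul_pow]; ring
    have hR : -(z * (1 + z)) ≠ 0 := neg_ne_zero.2 hQ
    have hR' := pow_ne_zero v hR
    have p1 : (z * ((1 - z) * (1 + z))) ^ (v + 2) * (be / (z * (1 - z)) ^ (v + 2) +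
        G * 1 / (z * (1 - z)) ^ (v + 1) + A * 1 / (z * (1 - z)) ^ v) =
        (1 + z) ^ (v + 2) * (be + G * (z * (1 - z)) + A * (z * (1 - z)) ^ 2) := by
      rw [e1, mul_assoc]
      congr 1
      generalize z * (1 - z) = P at hP hP' ⊢
      rw [pow_add, pow_add]
      field_simp
    have p2 : (z * ((1 - z) * (1 + z))) ^ (v + 2) * (be / (-(z * (1 + z))) ^ (v + 2) +
        G * 1 / (-(z * (1 + z))) ^ (v + 1) + A * 1 / (-(z * (1 + z))) ^ v) =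
        (-1) ^ (v + 2) * ((1 - z) ^ (v + 2) * (be - G * (z * (1 + z)) +
          A * (z * (1 + z)) ^ 2)) := by
      have e3 : be - G * (z * (1 + z)) + A * (z * (1 + z)) ^ 2 =
          be + G * (-(z * (1 + z))) + A * (-(z * (1 + z))) ^ 2 := by ring
      rw [e2, e3, mul_assoc, mul_assoc]
      congr 2
      generalize -(z * (1 + z)) = P at hR hR' ⊢
      rw [pow_add, pow_add]
      field_simp
    linear_combination (-1 : ℂ) * p1 + (-1 : ℂ) * p2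
  have h' : ‖be / (z * (1 - z)) ^ (v + 2) + G * 1 / (z * (1 - z)) ^ (v + 1) +
        A * 1 / (z * (1 - z)) ^ v + (be / (-(z * (1 + z))) ^ (v + 2) +
        G * 1 / (-(z * (1 + z))) ^ (v + 1) + A * 1 / (-(z * (1 + z))) ^ v)‖ ≤ M := by
    simpa only [mul_one] using h
  rw [key, norm_mul, norm_pow, norm_mul, norm_mul]
  have hM0 : 0 ≤ M := (norm_nonneg _).trans h
  have i1 : ‖(1 - z : ℂ)‖ * ‖(1 + z : ℂ)‖ ≤ 2 := by
    have j1 : ‖(1 - z : ℂ)‖ ≤ 5 / 4 := by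
      calc ‖(1 - z : ℂ)‖ ≤ ‖(1:ℂ)‖ + ‖z‖ := norm_sub_le _ _
        _ ≤ 5 / 4 := by rw [norm_one]; linarith
    have j2 : ‖(1 + z : ℂ)‖ ≤ 5 / 4 := by
      calc ‖(1 + z : ℂ)‖ ≤ ‖(1:ℂ)‖ + ‖z‖ := norm_add_le _ _
        _ ≤ 5 / 4 := by rw [norm_one]; linarith
    calc ‖(1 - z : ℂ)‖ * ‖(1 + z : ℂ)‖ ≤ 5 / 4 * (5 / 4) := by gcongr
      _ ≤ 2 := by norm_num
  calc (‖z‖ * (‖(1 - z : ℂ)‖ * ‖(1 + z : ℂ)‖)) ^ (v + 2) * _ ≤ (‖z‖ * 2) ^ (v + 2) * M := by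
        gcongr
    _ = M * 2 ^ (v + 2) * ‖z‖ ^ (v + 2) := by rw [mul_pow]; ring

end scale

end Pool.Agent.MP_ae5b4e_an_LOC
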