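import Pool.Agent.Lib.MP_ae5b4e_an_LOC.Napp

/-!
# LOC, linear theory: the weights at a base point (POR_LOC_MASTER, LT-15, LT-17)

`l6_bound`, `l6_coeff` = the scaling argument, `loc1`, `loc2` = the order of the poles.
-/

set_option autoImplicit false

namespace Pool.Agent.MP_ae5b4e_an_LOC

open Set Metric Complex Filter Topology

/-! ### Algebra -/

/-- a polynomial which is `O (z ^ w)` at `0` has no coefficient below `w` -/
theorem coeff_eq_zero_of_bound {P : Polynomial ℂ} {w : ℕ} {M r : ℝ} (hr : 0 < r)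
    (h : ∀ z : ℂ, 0 < ‖z‖ → ‖z‖ ≤ r → ‖P.eval z‖ ≤ M * ‖z‖ ^ w) : ∀ k < w, P.coeff k = 0 := by
  rw [← Polynomial.X_pow_dvd_iff]
  have key : ∀ k : ℕ, k ≤ w → Polynomial.X ^ k ∣ P := by
    intro k
    induction k with
    | zero => intro _; simp
    | succ k ih =>
      intro hk
      obtain ⟨Q, hQ⟩ := ih (by omega)
      have hQ0 : Q.eval 0 = 0 := by
        have h1 : Tendsto (fun z : ℂ => Q.eval z) (𝓝[≠] 0) (𝓝 (Q.eval 0)) :=
          (Q.continuous.tendsto 0).mono_left nhdsWithin_le_nhds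
        have h2 : Tendsto (fun z : ℂ => Q.eval z) (𝓝[≠] 0) (𝓝 0) := by
          rw [tendsto_zero_iff_norm_tendsto_zero]
          have h3 : Tendsto (fun z : ℂ => M * ‖z‖ ^ (w - k)) (𝓝[≠] 0) (𝓝 0) := by
            have : Tendsto (fun z : ℂ => M * ‖z‖ ^ (w - k)) (𝓝 0) (𝓝 (M * ‖(0:ℂ)‖ ^ (w - k))) :=
              (continuous_const.mul (continuous_norm.pow _)).tendsto 0
            rw [norm_zero, zero_pow (by omega), mul_zero] at this
            exact this.mono_left nhdsWithin_le_nhds
          refine tendsto_of_tendsto_of_tendsto_of_le_of_le' tendsto_const_nhds h3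
            (Eventually.of_forall fun _ => norm_nonneg _) ?_
          have hb : ∀ᶠ z : ℂ in 𝓝[≠] 0, ‖z‖ ≤ r := by
            have : ∀ᶠ z : ℂ in 𝓝 0, ‖z‖ < r := by
              have := Metric.ball_mem_nhds (0:ℂ) hr
              filter_upwards [this] with z hz
              simpa using hz
            exact (this.filter_mono nhdsWithin_le_nhds).mono fun z hz => hz.le
          filter_upwards [hb, self_mem_nhdsWithin] with z hz hz0
          have hzp : 0 < ‖z‖ := norm_pos_iff.2 hz0
          have h4 := h z hzp hz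
          rw [hQ, Polynomial.eval_mul, Polynomial.eval_pow, Polynomial.eval_X, norm_mul,
            norm_pow] at h4
          have h5 : ‖z‖ ^ w = ‖z‖ ^ k * ‖z‖ ^ (w - k) := by
            rw [← pow_add]; congr 1; omega
          rw [h5] at h4
          have h6 : 0 < ‖z‖ ^ k := by positivity
          refine le_of_mul_le_mul_left ?_ h6
          calc ‖z‖ ^ k * ‖Q.eval z‖ ≤ M * (‖z‖ ^ k * ‖z‖ ^ (w - k)) := h4
            _ = ‖z‖ ^ k * (M * ‖z‖ ^ (w - k)) := by ring
        exact tendsto_nhds_unique h1 h2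
      have hX : Polynomial.X ∣ Q := by
        rw [Polynomial.X_dvd_iff, Polynomial.coeff_zero_eq_eval_zero, hQ0]
      obtain ⟨Q', hQ'⟩ := hX
      exact ⟨Q', by rw [hQ, hQ', pow_succ]; ring⟩
  exact key w le_rfl

/-- the numerator `be + ga (X + X^2) + al (X + X^2)^2` -/
noncomputable def nP (be ga al : ℂ) : Polynomial ℂ :=
  Polynomial.C be + Polynomial.C ga * (Polynomial.X + Polynomial.X ^ 2) +
    Polynomial.C al * (Polynomial.X + Polynomial.X ^ 2) ^ 2

/-- the coefficients `a_k` of `(1 - X) ^ w (be + ga (X + X^2) + al (X + X^2)^2)` -/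
noncomputable def aP (w : ℕ) (be ga al : ℂ) : Polynomial ℂ :=
  (1 - Polynomial.X) ^ w * nP be ga al

theorem coeff_comp_neg (p : Polynomial ℂ) (k : ℕ) :
    (p.comp (-Polynomial.X)).coeff k = (-1) ^ k * p.coeff k := by
  have : (-Polynomial.X : Polynomial ℂ) = Polynomial.C (-1) * Polynomial.X := by simp
  rw [this, Polynomial.comp_C_mul_X_coeff, mul_comm]

theorem coeff_one_sub_pow (w k : ℕ) :
    (((1 - Polynomial.X) ^ w : Polynomial ℂ)).coeff k = (-1) ^ k * (w.choose k : ℂ) := by
  have : ((1 - Polynomial.X) ^ w : Polynomial ℂ) = ((1 + Polynomial.X) ^ w).comp (-Polynomial.X) := by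
    simp [sub_eq_add_neg]
  rw [this, coeff_comp_neg, Polynomial.coeff_one_add_X_pow]

theorem nP_coeff (be ga al : ℂ) (k : ℕ) : (nP be ga al).coeff k =
    (if k = 0 then be else 0) + ga * ((if k = 1 then 1 else 0) + (if k = 2 then 1 else 0)) +
      al * ((if k = 2 then 1 else 0) + 2 * (if k = 3 then 1 else 0) + (if k = 4 then 1 else 0)) := by
  have : nP be ga al = Polynomial.C be + Polynomial.C ga * (Polynomial.X ^ 1 + Polynomial.X ^ 2) +
      Polynomial.C al * (Polynomial.X ^ 2 + Polynomial.C 2 * Polynomial.X ^ 3 +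
        Polynomial.X ^ 4) := by
    have h2 : (Polynomial.C 2 : Polynomial ℂ) = 2 := rfl
    rw [nP, h2]; ring
  rw [this]
  simp only [Polynomial.coeff_add, Polynomial.coeff_C_mul, Polynomial.coeff_X_pow,
    Polynomial.coeff_C]

theorem aP_zero (w : ℕ) (be ga al : ℂ) : (aP w be ga al).coeff 0 = be := by
  rw [aP, Polynomial.mul_coeff_zero, nP_coeff, coeff_one_sub_pow]
  simp

theorem aP_one (w : ℕ) (be ga al : ℂ) : (aP w be ga al).coeff 1 = -(w : ℂ) * be + ga := by
  rw [aP, Polynomial.coeff_mul]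
  simp only [Finset.Nat.antidiagonal_succ, Finset.Nat.antidiagonal_zero, Finset.sum_cons,
    Finset.map_singleton, Finset.sum_singleton, nP_coeff, coeff_one_sub_pow]
  simp
  ring

theorem aP_two (w : ℕ) (be ga al : ℂ) : (aP w be ga al).coeff 2 =
    (w.choose 2 : ℂ) * be + (1 - (w : ℂ)) * ga + al := by
  rw [aP, Polynomial.coeff_mul]
  simp only [Finset.Nat.antidiagonal_succ, Finset.Nat.antidiagonal_zero, Finset.sum_cons,
    Finset.map_singleton, Finset.sum_singleton, nP_coeff, coeff_one_sub_pow, Finset.map_cons]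
  simp
  ring

theorem aP_three (w : ℕ) (be ga al : ℂ) : (aP w be ga al).coeff 3 =
    -(w.choose 3 : ℂ) * be + ((w.choose 2 : ℂ) - w) * ga + (2 - (w : ℂ)) * al := by
  rw [aP, Polynomial.coeff_mul]
  simp only [Finset.Nat.antidiagonal_succ, Finset.Nat.antidiagonal_zero, Finset.sum_cons,
    Finset.map_singleton, Finset.sum_singleton, nP_coeff, coeff_one_sub_pow, Finset.map_cons]
  simp
  ring

theorem aP_four (w : ℕ) (be ga al : ℂ) : (aP w be ga al).coeff 4 =
    (w.choose 4 : ℂ) * be + (-(w.choose 3 : ℂ) + w.choose 2) * ga +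
      ((w.choose 2 : ℂ) - 2 * w + 1) * al := by
  rw [aP, Polynomial.coeff_mul]
  simp only [Finset.Nat.antidiagonal_succ, Finset.Nat.antidiagonal_zero, Finset.sum_cons,
    Finset.map_singleton, Finset.sum_singleton, nP_coeff, coeff_one_sub_pow, Finset.map_cons]
  simp
  ring

/-- the symmetrised numerator is `O (z ^ w)`: the coefficients `a_k`, `k < w`, `k = w mod 2`,
vanish -/
theorem aP_coeff_eq_zero {w : ℕ} {be ga al : ℂ} {M r : ℝ} (hr : 0 < r)
    (h : ∀ z : ℂ, 0 < ‖z‖ → ‖z‖ ≤ r →
      ‖(-1) ^ w * ((1 - z) ^ w * (nP be ga al).eval z) + (1 + z) ^ w * (nP be ga al).eval (-z)‖ ≤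
        M * ‖z‖ ^ w) {k : ℕ} (hk : k < w) (hp : Even (w + k)) :
    (aP w be ga al).coeff k = 0 := by
  have h1 := coeff_eq_zero_of_bound (P := Polynomial.C ((-1) ^ w) * aP w be ga al +
    (aP w be ga al).comp (-Polynomial.X)) hr (w := w) (M := M) (by
      intro z hz hz'
      have := h z hz hz'
      simpa [aP] using this) k hk
  rw [Polynomial.coeff_add, Polynomial.coeff_C_mul, coeff_comp_neg] at h1
  have h2 : ((-1 : ℂ)) ^ k = (-1) ^ w := by
    have h3 : ((-1 : ℂ)) ^ (w + k) = 1 := hp.neg_one_pow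
    have h4 : ((-1 : ℂ)) ^ (k + k) = 1 := (Even.add_self k).neg_one_pow
    rw [pow_add] at h3 h4
    have h5 : ((-1 : ℂ)) ^ k ≠ 0 := pow_ne_zero _ (by norm_num)
    exact mul_right_cancel₀ h5 (h4.trans h3.symm)
  rw [h2] at h1
  have h3 : 2 * ((-1 : ℂ) ^ w * (aP w be ga al).coeff k) = 0 := by
    rw [two_mul]; exact h1
  have h4 : ((-1 : ℂ)) ^ w ≠ 0 := pow_ne_zero _ (by norm_num)
  simpa [h4] using h3

/-- (i), (ii): for `w ≥ 4` and `al = 0` the values vanish -/
theorem l6c_vanish {w : ℕ} (hw : 4 ≤ w) {be ga : ℂ}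
    (h : ∀ k < w, Even (w + k) → (aP w be ga 0).coeff k = 0) : be = 0 ∧ ga = 0 := by
  rcases Nat.even_or_odd w with he | ho
  · have h0 := h 0 (by omega) (by simpa using he)
    rw [aP_zero] at h0
    have h2 := h 2 (by omega) (he.add (by decide))
    rw [aP_two, h0, mul_zero, zero_add, add_zero, mul_eq_zero] at h2
    refine ⟨h0, h2.resolve_left ?_⟩
    intro h3
    have h4 : (w : ℂ) = 1 := by linear_combination -h3
    have h5 : w = 1 := by exact_mod_cast h4
    omega
  · have hw5 : 5 ≤ w := by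
      rcases ho with ⟨j, hj⟩
      omega
    have h1 := h 1 (by omega) (ho.add_odd (by decide))
    have h3 := h 3 (by omega) (ho.add_odd (by decide))
    rw [aP_one] at h1
    rw [aP_three] at h3
    have hga : ga = w * be := by linear_combination h1
    have c2 : (w.choose 2 : ℂ) * 2 = w * (w - 1) := by
      have := Nat.choose_succ_right_eq w 1
      rw [Nat.choose_one_right] at this
      have h' : ((w.choose 2 * 2 : ℕ) : ℂ) = ((w * (w - 1) : ℕ) : ℂ) := by exact_mod_cast this
      rw [Nat.cast_mul, Nat.cast_mul, Nat.cast_sub (by omega)] at h'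
      simpa using h'
    have c3 : (w.choose 3 : ℂ) * 3 = (w.choose 2 : ℂ) * (w - 2) := by
      have := Nat.choose_succ_right_eq w 2
      have h' : ((w.choose 3 * 3 : ℕ) : ℂ) = ((w.choose 2 * (w - 2) : ℕ) : ℂ) := by
        exact_mod_cast this
      rw [Nat.cast_mul, Nat.cast_mul, Nat.cast_sub (by omega)] at h'
      simpa using h'
    have hprod : be * ((w : ℂ) * (w * (w - 3) - 1)) = 0 := by
      rw [hga, mul_zero, add_zero] at h3
      have h6 : 3 * (-(w.choose 3 : ℂ) * be + ((w.choose 2 : ℂ) - w) * (w * be)) = 0 := by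
        rw [h3, mul_zero]
      linear_combination h6 + be * c3 - ((3 : ℂ) * w - (w - 2)) / 2 * be * c2
    rw [mul_eq_zero, mul_eq_zero] at hprod
    have hwne : (w : ℂ) ≠ 0 := by exact_mod_cast (by omega : w ≠ 0)
    have hne : ((w : ℂ) * (w - 3) - 1) ≠ 0 := by
      intro h7
      have h8 : (w : ℂ) * (w - 3 : ℂ) = 1 := by linear_combination h7
      have h9 : ((w * (w - 3) : ℕ) : ℂ) = 1 := by
        rw [Nat.cast_mul, Nat.cast_sub (by omega)]
        simpa using h8
      have h10 : w * (w - 3) = 1 := by exact_mod_cast h9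
      have h11 : w = 1 := Nat.eq_one_of_mul_eq_one_right h10
      omega
    have hbe : be = 0 := by
      rcases hprod with h7 | h7 | h7
      · exact h7
      · exact absurd h7 hwne
      · exact absurd h7 hne
    exact ⟨hbe, by rw [hga, hbe, mul_zero]⟩

/-- (iii): `w = 6` -/
theorem l6c_six {be ga al : ℂ} (h : ∀ k < 6, Even (6 + k) → (aP 6 be ga al).coeff k = 0) :
    be = 0 ∧ ga = 0 ∧ al = 0 := by
  have h0 := h 0 (by norm_num) (by decide)
  have h2 := h 2 (by norm_num) (by decide)
  have h4 := h 4 (by norm_num) (by decide)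
  rw [aP_zero] at h0
  rw [aP_two] at h2
  rw [aP_four] at h4
  have e2 : (6 : ℕ).choose 2 = 15 := by decide
  have e3 : (6 : ℕ).choose 3 = 20 := by decide
  have e4 : (6 : ℕ).choose 4 = 15 := by decide
  rw [e2] at h2 h4
  rw [e3, e4] at h4
  rw [h0] at h2 h4
  norm_num at h2 h4
  have hal : al = 5 * ga := by linear_combination h2
  have hga : ga = 0 := by
    rw [hal] at h4
    have : (15 : ℂ) * ga = 0 := by linear_combination h4
    simpa using this
  exact ⟨h0, hga, by rw [hal, hga, mul_zero]⟩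

/-- (iv): `w = 3`, `al = 0` -/
theorem l6c_three {be ga : ℂ} (h : ∀ k < 3, Even (3 + k) → (aP 3 be ga 0).coeff k = 0) :
    ga = 3 * be := by
  have h1 := h 1 (by norm_num) (by decide)
  rw [aP_one] at h1
  push_cast at h1
  linear_combination h1

/-- (v): `w = 2` -/
theorem l6c_two {be ga al : ℂ} (h : ∀ k < 2, Even (2 + k) → (aP 2 be ga al).coeff k = 0) :
    be = 0 := by
  have h0 := h 0 (by norm_num) (by decide)
  rwa [aP_zero] at h0


end Pool.Agent.MP_ae5b4e_an_LOC
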