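import Pool.Agent.Lib.MP_ae5b4e_an_LOC.PARTS

/-!
# LOC, LT-20 [LIN']: the derivative form of the linear theorem
-/

set_option autoImplicit false

namespace Pool.Agent.MP_ae5b4e_an_LOC

open Set Metric Complex ComplexConjugate Filter Topology

theorem lin'_stmt (B : Bg) (D : KerD B) (hLIN : LINStmt B D) : LIN'Stmt B D := by
  intro t g c kk hkk ht hth hg hgp hgc hlaw
  have hh := B.h_pos
  have hr := B.r_pos
  have hC : ∀ j, AnalyticOnNhd ℂ (D.C j) (Sp t) := fun j => ((D.solA j).an 1).mono (Sp_mono hth)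
  have hA : ∀ j, AnalyticOnNhd ℂ (D.A j) (Sp t) := fun j => ((D.solA j).an 0).mono (Sp_mono hth)
  have hR : ∀ j, AnalyticOnNhd ℂ (D.R j) (Sp t) := fun j => ((D.solR0 j).an 0).mono (Sp_mono hth)
  set S : ℂ → ℂ := fun y => ∑ j, (c j : ℂ) * D.C j y with hS
  have hSa : AnalyticOnNhd ℂ S (Sp t) :=
    Finset.analyticOnNhd_fun_sum _ fun j _ => analyticOnNhd_const.mul (hC j)
  have hSp : ∀ x ∈ Sp t, S (x + 1) = S x := fun x hx => by
    simp only [hS]
    exact Finset.sum_congr rfl fun j _ => by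
      have := (D.solA j).per 1 x (Sp_mono hth hx)
      simp only [Matrix.cons_val_one, Matrix.cons_val_zero] at this
      rw [this]
  have hSc : ∀ x ∈ Sp t, S (conj x) = conj (S x) := fun x hx => by
    simp only [hS, map_sum, map_mul, conj_ofReal]
    exact Finset.sum_congr rfl fun j _ => by
      have := (D.solA j).real 1 x (Sp_mono hth hx)
      simp only [Matrix.cons_val_one, Matrix.cons_val_zero] at this
      rw [this]
  have hcont : ∀ f : ℂ → ℂ, AnalyticOnNhd ℂ f (Sp t) → Continuous fun x : ℝ => f x := by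
    intro f hf
    rw [continuous_iff_continuousAt]
    exact fun x => (hf x (ofReal_mem_Sp ht x)).continuousAt.comp_of_eq
      continuous_ofReal.continuousAt rfl
  have hSd : ∀ x ∈ Sp t, HasDerivAt S (deriv S x) x := fun x hx =>
    (hSa x hx).differentiableAt.hasDerivAt
  have hS2d : ∀ x ∈ Sp t, HasDerivAt (fun x => (kk : ℂ) / 2 * S x ^ 2)
      (kk * S x * deriv S x) x := fun x hx => by
    have h1 := ((hSd x hx).pow 2).const_mul ((kk : ℂ) / 2)
    have e : (kk : ℂ) / 2 * (((2:ℕ) : ℂ) * S x ^ (2 - 1) * deriv S x) = kk * S x * deriv S x := by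
      push_cast
      ring
    rw [← e]
    exact h1
  have hS2a : AnalyticOnNhd ℂ (fun x => (kk : ℂ) / 2 * S x ^ 2) (Sp t) :=
    analyticOnNhd_const.mul (hSa.pow 2)
  -- the mean value of `S S'`
  have hmean : ∫ x in (0:ℝ)..1, (kk : ℂ) * S x * deriv S x = 0 := by
    have h1 : ∫ x in (0:ℝ)..1, (kk : ℂ) * S x * deriv S x =
        (kk : ℂ) / 2 * S ((1:ℝ) : ℂ) ^ 2 - (kk : ℂ) / 2 * S ((0:ℝ) : ℂ) ^ 2 := by
      refine intervalIntegral.integral_eq_sub_of_hasDerivAt
        (f := fun x : ℝ => (kk : ℂ) / 2 * S (x : ℂ) ^ 2) (fun x _ => ?_) ?_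
      · exact (hS2d x (ofReal_mem_Sp ht x)).comp_ofReal
      · exact ((continuous_const.mul (hcont S hSa)).mul (hcont _ hSa.deriv)).intervalIntegrable _ _
    rw [h1, show ((1:ℝ) : ℂ) = ((0:ℝ) : ℂ) + 1 by push_cast; ring, hSp _ (ofReal_mem_Sp ht 0)]
    ring
  -- the zeroth laws
  have hI : ∀ n : ℕ, 1 ≤ n → (1:ℝ) < B.r * n → (∫ x in (0:ℝ)..1, g 0 x) +
      B.Lam (1 / n) / (1 / n) ^ 2 * ∫ x in (0:ℝ)..1, g 1 x = 0 := by
    intro n hn1 hn2
    have h1 := hlaw 0 n 1 hn1 le_rfl (by push_cast; linarith) (dvd_zero _)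
    simp only [Int.cast_zero, mul_zero, zero_mul, neg_zero, exp_zero, mul_one, Nat.cast_one] at h1
    set lam := B.Lam (1 / n) / (1 / (n:ℂ)) ^ 2 with hlam
    have c0 := hcont _ (hg 0)
    have c1 := hcont _ (hg 1)
    have c2 : Continuous fun x : ℝ => (kk : ℂ) * S x * deriv S x :=
      (continuous_const.mul (hcont S hSa)).mul (hcont _ hSa.deriv)
    have h2 : ∫ x in (0:ℝ)..1, (g 0 x + lam * g 1 x + lam ^ 2 * (kk * S x * deriv S x)) =
        (∫ x in (0:ℝ)..1, g 0 x) + lam * (∫ x in (0:ℝ)..1, g 1 x) +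
        lam ^ 2 * ∫ x in (0:ℝ)..1, (kk : ℂ) * S x * deriv S x := by
      have e1 : IntervalIntegrable (fun x : ℝ => g 0 x + lam * g 1 x) MeasureTheory.volume 0 1 :=
        (c0.add (continuous_const.mul c1)).intervalIntegrable _ _
      have e2 : IntervalIntegrable (fun x : ℝ => lam ^ 2 * (kk * S x * deriv S x))
          MeasureTheory.volume 0 1 := (continuous_const.mul c2).intervalIntegrable _ _
      have e3 : IntervalIntegrable (fun x : ℝ => g 0 x) MeasureTheory.volume 0 1 :=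
        c0.intervalIntegrable _ _
      have e4 : IntervalIntegrable (fun x : ℝ => lam * g 1 x) MeasureTheory.volume 0 1 :=
        (continuous_const.mul c1).intervalIntegrable _ _
      rw [intervalIntegral.integral_add e1 e2, intervalIntegral.integral_add e3 e4,
        intervalIntegral.integral_const_mul, intervalIntegral.integral_const_mul]
    rw [hmean, mul_zero, add_zero] at h2
    rw [← h2]
    exact h1
  have hI1 : ∫ x in (0:ℝ)..1, g 1 x = 0 := by
    have h1 : Tendsto (fun n : ℕ => (1 / (n:ℂ)) ^ 2 * (∫ x in (0:ℝ)..1, g 0 x) +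
        B.Lam (1 / n) * ∫ x in (0:ℝ)..1, g 1 x) atTop
        (𝓝 ((0:ℂ) ^ 2 * (∫ x in (0:ℝ)..1, g 0 x) + B.Lam 0 * ∫ x in (0:ℝ)..1, g 1 x)) := by
      have h2 : Tendsto (fun n : ℕ => 1 / (n:ℂ)) atTop (𝓝 0) := tendsto_one_div_atTop_nhds_zero_nat
      have h3 : Tendsto (fun n : ℕ => B.Lam (1 / (n:ℂ))) atTop (𝓝 (B.Lam 0)) :=
        (B.Lam_an 0 (mem_ball_self hr)).continuousAt.tendsto.comp h2
      exact ((h2.pow 2).mul_const _).add (h3.mul_const _)
    have h4 : ∀ᶠ n : ℕ in atTop, (1 / (n:ℂ)) ^ 2 * (∫ x in (0:ℝ)..1, g 0 x) +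
        B.Lam (1 / n) * (∫ x in (0:ℝ)..1, g 1 x) = 0 := by
      obtain ⟨N, hN⟩ := exists_nat_gt (1 / B.r)
      filter_upwards [eventually_ge_atTop (max N 1)] with n hn
      have hn1 : 1 ≤ n := (le_max_right _ _).trans hn
      have hn2 : (1:ℝ) < B.r * n := by
        have h5 : (N:ℝ) ≤ n := by exact_mod_cast (le_max_left _ _).trans hn
        have h6 : 1 / B.r < n := hN.trans_le h5
        rwa [div_lt_iff₀ hr, mul_comm] at h6
      have h7 := hI n hn1 hn2
      have hn0 : (n:ℂ) ≠ 0 := by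
        have : n ≠ 0 := by omega
        exact_mod_cast this
      have h8 : (1 / (n:ℂ)) ^ 2 ≠ 0 := pow_ne_zero _ (div_ne_zero one_ne_zero hn0)
      have h9 : (1 / (n:ℂ)) ^ 2 * (∫ x in (0:ℝ)..1, g 0 x) +
          B.Lam (1 / n) * (∫ x in (0:ℝ)..1, g 1 x) = (1 / (n:ℂ)) ^ 2 *
          ((∫ x in (0:ℝ)..1, g 0 x) + B.Lam (1 / n) / (1 / n) ^ 2 * ∫ x in (0:ℝ)..1, g 1 x) := by
        rw [mul_add, ← mul_assoc, mul_div_cancel₀ _ h8]
      rw [h9, h7, mul_zero]
    have h5 := tendsto_nhds_unique (h1.congr' h4) tendsto_const_nhds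
    have h6 : B.Lam 0 * ∫ x in (0:ℝ)..1, g 1 x = 0 := by simpa using h5
    exact (mul_eq_zero.1 h6).resolve_left (B.Lam_ne 0 (mem_ball_self hr))
  have hI0 : ∫ x in (0:ℝ)..1, g 0 x = 0 := by
    obtain ⟨N, hN⟩ := exists_nat_gt (1 / B.r)
    have hn2 : (1:ℝ) < B.r * ((max N 1 : ℕ) : ℝ) := by
      have h5 : (N:ℝ) ≤ ((max N 1 : ℕ) : ℝ) := by exact_mod_cast le_max_left _ _
      have h6 : 1 / B.r < ((max N 1 : ℕ) : ℝ) := hN.trans_le h5
      rwa [div_lt_iff₀ hr, mul_comm] at h6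
    have h7 := hI (max N 1) (le_max_right _ _) hn2
    rw [hI1, mul_zero, add_zero] at h7
    exact h7
  obtain ⟨f0, hf0a, hf0d, hf0p, hf0c⟩ := exists_prim ht (hg 0) (hgp 0) (hgc 0) hI0
  obtain ⟨f1, hf1a, hf1d, hf1p, hf1c⟩ := exists_prim ht (hg 1) (hgp 1) (hgc 1) hI1
  set f : Fin 3 → ℂ → ℂ := ![f0, f1, fun x => (kk : ℂ) / 2 * S x ^ 2] with hf
  set f' : Fin 3 → ℂ → ℂ := ![g 0, g 1, fun x => kk * S x * deriv S x] with hf'
  have hfa : ∀ i, AnalyticOnNhd ℂ (f i) (Sp t) := by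
    intro i
    fin_cases i
    · exact hf0a
    · exact hf1a
    · exact hS2a
  have hfd : ∀ i, ∀ x ∈ Sp t, HasDerivAt (f i) (f' i x) x := by
    intro i
    fin_cases i
    · exact hf0d
    · exact hf1d
    · exact hS2d
  have hfp : ∀ i, ∀ x ∈ Sp t, f i (x + 1) = f i x := by
    intro i
    fin_cases i
    · exact hf0p
    · exact hf1p
    · intro x hx
      show (kk : ℂ) / 2 * S (x + 1) ^ 2 = (kk : ℂ) / 2 * S x ^ 2
      rw [hSp x hx]
  have hfc : ∀ i, ∀ x ∈ Sp t, f i (conj x) = conj (f i x) := by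
    intro i
    fin_cases i
    · exact hf0c
    · exact hf1c
    · intro x hx
      show (kk : ℂ) / 2 * S (conj x) ^ 2 = conj ((kk : ℂ) / 2 * S x ^ 2)
      rw [hSc x hx, map_mul, map_pow, map_div₀, conj_ofReal, map_ofNat]
  have hsol : Sol B t f := by
    refine ⟨hfa, hfp, hfc, fun m p hm hp hpm => ?_⟩
    have hnorm := norm_pm B hm hpm
    have h1 := B.cm_parts ht hfa hfd hfp m hnorm
    set n : ℕ := m.natAbs with hn
    have hn0 : n ≠ 0 := by rw [hn]; exact Int.natAbs_ne_zero.2 hm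
    have hnabs : ((|m| : ℤ) : ℂ) = (n : ℂ) := by
      rw [hn, ← Int.natCast_natAbs]
      simp
    have hnabs' : |(m:ℝ)| = (n:ℝ) := by
      rw [hn, Nat.cast_natAbs]
      push_cast
      rfl
    rw [hnabs] at h1 hnorm ⊢
    have h2 := hlaw m n p (by omega) hp (by rw [← hnabs']; exact hpm)
      (by rw [hn]; exact Int.natAbs_dvd.2 dvd_rfl)
    have hp0 : (p : ℂ) ≠ 0 := by
      have : p ≠ 0 := by omega
      exact_mod_cast this
    have hnC : (n : ℂ) ≠ 0 := by exact_mod_cast hn0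
    have hom : ((p : ℂ) / n) ≠ 0 := div_ne_zero hp0 hnC
    have h3 : ∫ x in (0:ℝ)..1, B.F f' (p / n) x * exp (-(2 * Real.pi * I * m * B.ph (p / n) x)) =
        ((p : ℂ) / n) ^ 4 * ∫ x in (0:ℝ)..1, (g 0 x + B.Lam (p / n) / (p / n) ^ 2 * g 1 x +
          (B.Lam (p / n) / (p / n) ^ 2) ^ 2 * (kk * S x * deriv S x)) *
          exp (-(2 * Real.pi * I * m * B.ph (p / n) x)) := by
      rw [← intervalIntegral.integral_const_mul]
      apply intervalIntegral.integral_congr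
      intro x _
      simp only [Bg.F, hf', Matrix.cons_val_zero, Matrix.cons_val_one, Matrix.cons_val]
      field_simp
    rw [h3, h2, mul_zero] at h1
    have h4 : (2 * Real.pi * I * m : ℂ) ≠ 0 := by
      have h5 : (m : ℂ) ≠ 0 := by exact_mod_cast hm
      exact mul_ne_zero Complex.two_pi_I_ne_zero h5
    exact (mul_eq_zero.1 h1.symm).resolve_left h4
  have hkk2 : kk / 2 ≠ 0 := by
    intro h
    apply hkk
    linarith
  obtain ⟨hc, a, b, d, e0, e1, hfin⟩ := hLIN t f c (kk / 2) hkk2 ht hth hsol (fun x _ => by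
    show (kk : ℂ) / 2 * S x ^ 2 = _
    push_cast
    rfl)
  refine ⟨hc, a, b, d, fun x hx => ?_⟩
  have hAa : ∀ a : Fin 4 → ℝ, AnalyticOnNhd ℂ (fun y => ∑ j, (a j : ℂ) * D.A j y) (Sp t) := fun a =>
    Finset.analyticOnNhd_fun_sum _ fun j _ => analyticOnNhd_const.mul (hA j)
  have hx' := (isOpen_Sp t).mem_nhds hx
  constructor
  · have h1 : (fun y => (∑ j, (a j : ℂ) * D.A j y) + ∑ j, (b j : ℂ) * D.R j y) =ᶠ[𝓝 x]
        fun y => f0 y - e0 := by
      filter_upwards [hx'] with y hy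
      have := (hfin y hy).1
      simp only [hf, Matrix.cons_val_zero] at this
      rw [this]
      ring
    rw [h1.deriv_eq]
    exact ((hf0d x hx).sub_const _).deriv.symm
  · have h1 : (fun y => (∑ j, (a j : ℂ) * D.C j y) + ∑ j, (d j : ℂ) * D.R j y) =ᶠ[𝓝 x]
        fun y => f1 y - e1 := by
      filter_upwards [hx'] with y hy
      have := (hfin y hy).2
      simp only [hf, Matrix.cons_val_one, Matrix.cons_val_zero] at this
      rw [this]
      ring
    rw [h1.deriv_eq]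
    exact ((hf1d x hx).sub_const _).deriv.symm

end Pool.Agent.MP_ae5b4e_an_LOC
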