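import Pool.Agent.Lib.MP_ae5b4e_an_AZ.T2

/-!
# LOC, local block: the inverse of the primitive of a kernel with a parameter
-/

set_option autoImplicit false

noncomputable section

namespace Pool.Agent.MP_ae5b4e_an_LOC

open Complex Set Filter Topology Metric ComplexConjugate
open Pool.Agent.MP_ae5b4e_an_AZ (prim prim_an prim_der)

/-- the kernel of the local time map: analytic, even in the first variable, real, positive
at `(0, 0)` -/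
structure Ker (k : ℂ × ℂ → ℂ) (a kap : ℝ) : Prop where
  a_pos : 0 < a
  kap_pos : 0 < kap
  an : AnalyticOnNhd ℂ k (ball 0 a ×ˢ ball 0 a)
  even : ∀ s ∈ ball (0 : ℂ) a, ∀ e ∈ ball (0 : ℂ) a, k (-s, e) = k (s, e)
  cj : ∀ s ∈ ball (0 : ℂ) a, ∀ e ∈ ball (0 : ℂ) a, k (conj s, conj e) = conj (k (s, e))
  zero : k (0, 0) = (kap : ℂ)⁻¹

theorem neg_mem_ball {a : ℝ} {s : ℂ} (h : s ∈ ball (0 : ℂ) a) : -s ∈ ball (0 : ℂ) a := by
  rw [mem_ball_zero_iff] at h ⊢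
  rwa [norm_neg]

theorem conj_mem_ball {a : ℝ} {s : ℂ} (h : s ∈ ball (0 : ℂ) a) : conj s ∈ ball (0 : ℂ) a := by
  rw [mem_ball_zero_iff] at h ⊢
  rwa [RCLike.norm_conj]

theorem smul_mem_ball {a : ℝ} {s : ℂ} (h : s ∈ ball (0 : ℂ) a) {t : ℝ} (h0 : 0 ≤ t)
    (h1 : t ≤ 1) : (t : ℂ) * s ∈ ball (0 : ℂ) a := by
  rw [mem_ball_zero_iff] at h ⊢
  rw [norm_mul, Complex.norm_real, Real.norm_of_nonneg h0]
  have := norm_nonneg s
  nlinarith

theorem prim_zero (k : ℂ × ℂ → ℂ) (e : ℂ) : prim 0 k (0, e) = 0 := by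
  unfold prim
  simp

section
variable {k : ℂ × ℂ → ℂ} {a kap : ℝ}

theorem Ker.opn (_ : Ker k a kap) : IsOpen (ball (0 : ℂ) a ×ˢ ball (0 : ℂ) a) :=
  isOpen_ball.prod isOpen_ball

theorem Ker.star (_ : Ker k a kap) : ∀ x ∈ ball (0 : ℂ) a ×ˢ ball (0 : ℂ) a, ∀ s : ℝ, 0 ≤ s →
    s ≤ 1 → ((0 : ℂ) + s * (x.1 - 0), x.2) ∈ ball (0 : ℂ) a ×ˢ ball (0 : ℂ) a := by
  intro x hx s h0 h1
  refine ⟨?_, hx.2⟩
  show (0 : ℂ) + s * (x.1 - 0) ∈ ball (0 : ℂ) a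
  rw [zero_add, sub_zero]
  exact smul_mem_ball hx.1 h0 h1

theorem Ker.J_an (h : Ker k a kap) : AnalyticOnNhd ℂ (prim 0 k) (ball 0 a ×ˢ ball 0 a) :=
  prim_an h.opn h.an h.star

theorem Ker.J_der (h : Ker k a kap) {s e : ℂ} (hs : s ∈ ball (0 : ℂ) a)
    (he : e ∈ ball (0 : ℂ) a) : HasDerivAt (fun z => prim 0 k (z, e)) (k (s, e)) s :=
  prim_der (x := (s, e)) h.opn h.an h.star ⟨hs, he⟩

theorem Ker.J_odd (h : Ker k a kap) {s e : ℂ} (hs : s ∈ ball (0 : ℂ) a)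
    (he : e ∈ ball (0 : ℂ) a) : prim 0 k (-s, e) = -prim 0 k (s, e) := by
  unfold prim
  have e1 : ∫ t in (0 : ℝ)..1, k ((0 : ℂ) + t * (-s - 0), e) =
      ∫ t in (0 : ℝ)..1, k ((0 : ℂ) + t * (s - 0), e) := by
    refine intervalIntegral.integral_congr fun t ht => ?_
    rw [uIcc_of_le zero_le_one] at ht
    show k ((0 : ℂ) + t * (-s - 0), e) = k ((0 : ℂ) + t * (s - 0), e)
    rw [zero_add, zero_add, sub_zero, sub_zero, mul_neg]
    exact h.even _ (smul_mem_ball hs ht.1 ht.2) _ he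
  show (-s - 0) * ∫ t in (0 : ℝ)..1, k ((0 : ℂ) + t * (-s - 0), e) =
    -((s - 0) * ∫ t in (0 : ℝ)..1, k ((0 : ℂ) + t * (s - 0), e))
  rw [e1]
  ring

theorem Ker.J_conj (h : Ker k a kap) {s e : ℂ} (hs : s ∈ ball (0 : ℂ) a)
    (he : e ∈ ball (0 : ℂ) a) : prim 0 k (conj s, conj e) = conj (prim 0 k (s, e)) := by
  unfold prim
  show (conj s - 0) * ∫ t in (0 : ℝ)..1, k ((0 : ℂ) + t * (conj s - 0), conj e) =
    conj ((s - 0) * ∫ t in (0 : ℝ)..1, k ((0 : ℂ) + t * (s - 0), e))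
  rw [map_mul, sub_zero, sub_zero, ← intervalIntegral.intervalIntegral_conj]
  congr 1
  refine intervalIntegral.integral_congr fun t ht => ?_
  rw [uIcc_of_le zero_le_one] at ht
  show k ((0 : ℂ) + t * conj s, conj e) = conj (k ((0 : ℂ) + t * s, e))
  rw [zero_add, zero_add, ← h.cj _ (smul_mem_ball hs ht.1 ht.2) _ he, map_mul,
    Complex.conj_ofReal]

/-- the map `(s, e) ↦ (∫ k, e)` -/
def Psi (k : ℂ × ℂ → ℂ) (p : ℂ × ℂ) : ℂ × ℂ := (prim 0 k p, p.2)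

theorem Ker.k0_ne (h : Ker k a kap) : (kap : ℂ)⁻¹ ≠ 0 := by
  have := h.kap_pos
  exact inv_ne_zero (by exact_mod_cast this.ne')

/-- the derivative of `Psi` at the origin -/
def Psi0 (kap : ℝ) (h : (kap : ℂ)⁻¹ ≠ 0) : (ℂ × ℂ) ≃L[ℂ] (ℂ × ℂ) :=
  (ContinuousLinearEquiv.smulLeft (Units.mk0 _ h)).prodCongr (ContinuousLinearEquiv.refl ℂ ℂ)

theorem Ker.Psi_an (h : Ker k a kap) : AnalyticOnNhd ℂ (Psi k) (ball 0 a ×ˢ ball 0 a) :=
  fun p hp => (h.J_an p hp).prod analyticAt_snd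

theorem Ker.zero_mem (h : Ker k a kap) : ((0 : ℂ), (0 : ℂ)) ∈ ball (0 : ℂ) a ×ˢ ball (0 : ℂ) a :=
  ⟨mem_ball_self h.a_pos, mem_ball_self h.a_pos⟩

theorem Ker.Psi_fd (h : Ker k a kap) :
    HasFDerivAt (Psi k) (Psi0 kap h.k0_ne : (ℂ × ℂ) →L[ℂ] (ℂ × ℂ)) (0, 0) := by
  have h1 := (h.J_an _ h.zero_mem).differentiableAt.hasFDerivAt
  have h2 : fderiv ℂ (prim 0 k) (0, 0) =
      (kap : ℂ)⁻¹ • ContinuousLinearMap.fst ℂ ℂ ℂ := by
    have e1 : (fderiv ℂ (prim 0 k) (0, 0)) (1, 0) = (kap : ℂ)⁻¹ := by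
      have h3 : HasDerivAt (fun z : ℂ => (z, (0 : ℂ))) ((1 : ℂ), (0 : ℂ)) 0 :=
        (hasDerivAt_id _).prodMk (hasDerivAt_const _ _)
      have h4 : HasDerivAt (fun z : ℂ => prim 0 k (z, 0))
          ((fderiv ℂ (prim 0 k) (0, 0)) (1, 0)) 0 :=
        HasFDerivAt.comp_hasDerivAt (0 : ℂ) (f := fun z : ℂ => (z, (0 : ℂ))) h1 h3
      rw [h4.unique (h.J_der (mem_ball_self h.a_pos) (mem_ball_self h.a_pos)), h.zero]
    have e2 : (fderiv ℂ (prim 0 k) (0, 0)) (0, 1) = 0 := by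
      have h3 : HasDerivAt (fun z : ℂ => ((0 : ℂ), z)) ((0 : ℂ), (1 : ℂ)) 0 :=
        (hasDerivAt_const _ _).prodMk (hasDerivAt_id _)
      have h4 : HasDerivAt (fun z : ℂ => prim 0 k (0, z))
          ((fderiv ℂ (prim 0 k) (0, 0)) (0, 1)) 0 :=
        HasFDerivAt.comp_hasDerivAt (0 : ℂ) (f := fun z : ℂ => ((0 : ℂ), z)) h1 h3
      have h5 : (fun z : ℂ => prim 0 k (0, z)) = fun _ => 0 := funext fun z => prim_zero k z
      rw [h5] at h4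
      exact h4.unique (hasDerivAt_const _ _)
    refine ContinuousLinearMap.ext fun v => ?_
    have ev : v = v.1 • ((1 : ℂ), (0 : ℂ)) + v.2 • ((0 : ℂ), (1 : ℂ)) := by
      refine Prod.ext ?_ ?_ <;> simp
    conv_lhs => rw [ev]
    rw [map_add, map_smul, map_smul, e1, e2]
    simp [mul_comm]
  have h3 : HasFDerivAt (Psi k) ((fderiv ℂ (prim 0 k) (0, 0)).prod
      (ContinuousLinearMap.snd ℂ ℂ ℂ)) (0, 0) := h1.prodMk hasFDerivAt_snd
  refine h3.congr_fderiv ?_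
  rw [h2]
  refine ContinuousLinearMap.ext fun v => ?_
  refine Prod.ext ?_ ?_
  · show (kap : ℂ)⁻¹ * v.1 = _
    rfl
  · rfl

/-- **The inverse** `S (·, e)` of the primitive `∫_0^s k (·, e)`. -/
theorem Ker.inv (h : Ker k a kap) : ∃ (δ ρ : ℝ) (S : ℂ × ℂ → ℂ), 0 < δ ∧ δ ≤ a ∧ 0 < ρ ∧
    ρ ≤ δ ∧ AnalyticOnNhd ℂ S (ball 0 ρ ×ˢ ball 0 ρ) ∧
    (∀ z ∈ ball (0 : ℂ) ρ, ∀ e ∈ ball (0 : ℂ) ρ, S (z, e) ∈ ball (0 : ℂ) δ ∧
      prim 0 k (S (z, e), e) = z) ∧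
    (∀ s ∈ ball (0 : ℂ) δ, ∀ e ∈ ball (0 : ℂ) δ, S (prim 0 k (s, e), e) = s) := by
  have han := h.Psi_an _ h.zero_mem
  have hst : HasStrictFDerivAt (Psi k) (Psi0 kap h.k0_ne : (ℂ × ℂ) →L[ℂ] (ℂ × ℂ)) (0, 0) := by
    have h1 := han.hasStrictFDerivAt
    rwa [h.Psi_fd.fderiv] at h1
  set f := hst.toOpenPartialHomeomorph (Psi k) with hf
  have hfc : ∀ p, f p = Psi k p := fun p => rfl
  have hs0 : ((0 : ℂ), (0 : ℂ)) ∈ f.source := hst.mem_toOpenPartialHomeomorph_source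
  have hP0 : Psi k (0, 0) = (0, 0) := by
    unfold Psi
    rw [prim_zero]
  have ht0 : ((0 : ℂ), (0 : ℂ)) ∈ f.target := by
    have := hst.image_mem_toOpenPartialHomeomorph_target
    rwa [hP0] at this
  have hsy0 : f.symm (0, 0) = (0, 0) := by
    have h1 := f.left_inv hs0
    rw [hfc, hP0] at h1
    exact h1
  have hsa : AnalyticAt ℂ f.symm (0, 0) := by
    refine f.analyticAt_symm (i := Psi0 kap h.k0_ne) ht0 ?_ ?_
    · rw [hsy0]
      exact han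
    · rw [hsy0]
      exact h.Psi_fd.fderiv
  -- the source contains a polydisc
  have hN1 : f.source ∩ (ball 0 a ×ˢ ball 0 a) ∈ 𝓝 ((0 : ℂ), (0 : ℂ)) :=
    inter_mem (f.open_source.mem_nhds hs0) (h.opn.mem_nhds h.zero_mem)
  obtain ⟨δ, hδ, hδs⟩ := Metric.mem_nhds_iff.1 hN1
  have hδs' : ∀ s ∈ ball (0 : ℂ) δ, ∀ e ∈ ball (0 : ℂ) δ,
      (s, e) ∈ f.source ∩ (ball 0 a ×ˢ ball 0 a) := by
    intro s hs e he
    apply hδs
    rw [← ball_prod_same]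
    exact ⟨hs, he⟩
  have hδa : δ ≤ a := by
    by_contra hlt
    push Not at hlt
    have h1 : ((a : ℝ) : ℂ) ∈ ball (0 : ℂ) δ := by
      rw [mem_ball_zero_iff, Complex.norm_real, Real.norm_of_nonneg h.a_pos.le]
      exact hlt
    have h2 := (hδs' _ h1 0 (mem_ball_self hδ)).2.1
    have h3 : ((a : ℝ) : ℂ) ∈ ball (0 : ℂ) a := h2
    rw [mem_ball_zero_iff, Complex.norm_real, Real.norm_of_nonneg h.a_pos.le] at h3
    exact lt_irrefl _ h3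
  have hN2 : ∀ᶠ p in 𝓝 ((0 : ℂ), (0 : ℂ)), AnalyticAt ℂ f.symm p ∧ p ∈ f.target ∧
      f.symm p ∈ ball ((0 : ℂ), (0 : ℂ)) δ := by
    refine hsa.eventually_analyticAt.and (Filter.Eventually.and
      (Filter.eventually_of_mem (f.open_target.mem_nhds ht0) fun _ hp => hp) ?_)
    have h1 : Tendsto f.symm (𝓝 (0, 0)) (𝓝 (0, 0)) := by
      have := hsa.continuousAt.tendsto
      rwa [hsy0] at this
    exact h1 (ball_mem_nhds _ hδ)
  obtain ⟨ρ, hρ, hρs⟩ := Metric.mem_nhds_iff.1 hN2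
  refine ⟨δ, min ρ δ, fun p => (f.symm p).1, hδ, hδa, lt_min hρ hδ, min_le_right _ _, ?_, ?_, ?_⟩
  · intro p hp
    have h1 : p ∈ ball ((0 : ℂ), (0 : ℂ)) ρ := by
      rw [← ball_prod_same]
      exact ⟨ball_subset_ball (min_le_left _ _) hp.1, ball_subset_ball (min_le_left _ _) hp.2⟩
    exact analyticAt_fst.comp (hρs h1).1
  · intro z hz e he
    have h1 : (z, e) ∈ ball ((0 : ℂ), (0 : ℂ)) ρ := by
      rw [← ball_prod_same]
      exact ⟨ball_subset_ball (min_le_left _ _) hz, ball_subset_ball (min_le_left _ _) he⟩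
    obtain ⟨-, h2, h3⟩ := hρs h1
    rw [← ball_prod_same] at h3
    have h4 := f.right_inv h2
    rw [hfc] at h4
    have h5 : prim 0 k (f.symm (z, e)) = z := congrArg Prod.fst h4
    have h6 : (f.symm (z, e)).2 = e := congrArg Prod.snd h4
    refine ⟨h3.1, ?_⟩
    have h7 : ((f.symm (z, e)).1, e) = f.symm (z, e) := by
      conv_rhs => rw [← Prod.mk.eta (p := f.symm (z, e)), h6]
    rw [h7, h5]
  · intro s hs e he
    have h1 := f.left_inv (hδs' s hs e he).1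
    rw [hfc] at h1
    exact congrArg Prod.fst h1

end

end Pool.Agent.MP_ae5b4e_an_LOC
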