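import Pool.Agent.Lib.MP_ae5b4e_an_LOC.Lb1

/-!
# LOC, local block: parity and estimates of the inverse
-/

set_option autoImplicit false

noncomputable section

namespace Pool.Agent.MP_ae5b4e_an_LOC

open Complex Set Filter Topology Metric ComplexConjugate
open Pool.Agent.MP_ae5b4e_an_AZ (prim prim_an prim_der)

theorem lip_ball {F : ℂ × ℂ → ℂ} {ρ : ℝ} (hρ : 0 < ρ)
    (hF : AnalyticOnNhd ℂ F (ball 0 ρ ×ˢ ball 0 ρ)) :
    ∃ M : ℝ, 0 ≤ M ∧ ∀ z ∈ closedBall (0 : ℂ) (ρ / 2), ∀ e ∈ closedBall (0 : ℂ) (ρ / 2),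
      ∀ z' ∈ closedBall (0 : ℂ) (ρ / 2), ∀ e' ∈ closedBall (0 : ℂ) (ρ / 2),
        ‖F (z', e') - F (z, e)‖ ≤ M * ‖(z', e') - (z, e)‖ := by
  have hsub : closedBall ((0 : ℂ), (0 : ℂ)) (ρ / 2) ⊆ ball (0 : ℂ) ρ ×ˢ ball (0 : ℂ) ρ := by
    rw [ball_prod_same]
    exact closedBall_subset_ball (by linarith)
  have hc : ContinuousOn (fderiv ℂ F) (closedBall ((0 : ℂ), (0 : ℂ)) (ρ / 2)) :=
    hF.fderiv.continuousOn.mono hsub
  obtain ⟨M, hM⟩ := (isCompact_closedBall _ _).exists_bound_of_continuousOn hc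
  have hmem : ∀ z ∈ closedBall (0 : ℂ) (ρ / 2), ∀ e ∈ closedBall (0 : ℂ) (ρ / 2),
      (z, e) ∈ closedBall ((0 : ℂ), (0 : ℂ)) (ρ / 2) := by
    intro z hz e he
    rw [← closedBall_prod_same]
    exact ⟨hz, he⟩
  refine ⟨M, (norm_nonneg _).trans (hM (0, 0) (mem_closedBall_self (by linarith))), ?_⟩
  intro z hz e he z' hz' e' he'
  exact (convex_closedBall _ _).norm_image_sub_le_of_norm_fderiv_le
    (fun x hx => (hF x (hsub hx)).differentiableAt) hM (hmem z hz e he) (hmem z' hz' e' he')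

/-- the partial derivative in the first variable -/
def dfst (F : ℂ × ℂ → ℂ) (p : ℂ × ℂ) : ℂ := (fderiv ℂ F p) (1, 0)

theorem dfst_der {F : ℂ × ℂ → ℂ} {z e : ℂ} (h : AnalyticAt ℂ F (z, e)) :
    HasDerivAt (fun w => F (w, e)) (dfst F (z, e)) z := by
  have h3 : HasDerivAt (fun w : ℂ => (w, e)) ((1 : ℂ), (0 : ℂ)) z :=
    (hasDerivAt_id _).prodMk (hasDerivAt_const _ _)
  exact HasFDerivAt.comp_hasDerivAt z (f := fun w : ℂ => (w, e))
    h.differentiableAt.hasFDerivAt h3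

theorem dfst_an {F : ℂ × ℂ → ℂ} {U : Set (ℂ × ℂ)} (h : AnalyticOnNhd ℂ F U) :
    AnalyticOnNhd ℂ (dfst F) U := by
  intro p hp
  have h1 := h.fderiv p hp
  exact (ContinuousLinearMap.analyticAt
    (ContinuousLinearMap.apply ℂ ℂ ((1 : ℂ), (0 : ℂ))) _).comp h1

/-- a function which is even in the first variable -/
theorem even_bd {G : ℂ × ℂ → ℂ} {ρ : ℝ} (hρ : 0 < ρ)
    (hG : AnalyticOnNhd ℂ G (ball 0 ρ ×ˢ ball 0 ρ))
    (hev : ∀ z ∈ ball (0 : ℂ) ρ, ∀ e ∈ ball (0 : ℂ) ρ, G (-z, e) = G (z, e)) :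
    ∃ M : ℝ, 0 ≤ M ∧ ∀ z ∈ closedBall (0 : ℂ) (ρ / 2), ∀ e ∈ closedBall (0 : ℂ) (ρ / 2),
      ‖G (z, e) - G (0, 0)‖ ≤ M * (‖z‖ ^ 2 + ‖e‖) := by
  have hD := dfst_an hG
  obtain ⟨M₁, hM₁, h1⟩ := lip_ball hρ hD
  obtain ⟨M₂, hM₂, h2⟩ := lip_ball hρ hG
  have hcb : closedBall (0 : ℂ) (ρ / 2) ⊆ ball (0 : ℂ) ρ := closedBall_subset_ball (by linarith)
  have h0c : (0 : ℂ) ∈ closedBall (0 : ℂ) (ρ / 2) := mem_closedBall_self (by linarith)
  have h0 : (0 : ℂ) ∈ ball (0 : ℂ) ρ := mem_ball_self hρ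
  have hD0 : ∀ e ∈ ball (0 : ℂ) ρ, dfst G (0, e) = 0 := by
    intro e he
    have h3 : HasDerivAt (fun w => G (w, e)) (dfst G (0, e)) 0 := dfst_der (hG (0, e) ⟨h0, he⟩)
    have h4 : HasDerivAt (fun w => G (-w, e)) (dfst G (0, e) * (-1)) 0 := by
      have h5 : HasDerivAt (fun w : ℂ => -w) (-1) (0 : ℂ) := hasDerivAt_neg _
      have h6 : HasDerivAt (fun w => G (w, e)) (dfst G (0, e)) (-(0 : ℂ)) := by
        rw [neg_zero]
        exact h3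
      exact HasDerivAt.comp (0 : ℂ) (h₂ := fun w => G (w, e)) (h := fun w : ℂ => -w) h6 h5
    have h7 : (fun w => G (-w, e)) =ᶠ[𝓝 0] fun w => G (w, e) := by
      filter_upwards [isOpen_ball.mem_nhds h0] with w hw
      exact hev w hw e he
    have h8 := (h4.congr_of_eventuallyEq h7.symm).unique h3
    have h9 : dfst G (0, e) + dfst G (0, e) = 0 := by linear_combination (-1 : ℂ) * h8
    rw [← two_mul] at h9
    exact (mul_eq_zero.1 h9).resolve_left two_ne_zero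
  refine ⟨M₁ + M₂, add_nonneg hM₁ hM₂, ?_⟩
  intro z hz e he
  have e1 : ‖G (z, e) - G (0, e)‖ ≤ (M₁ * ‖z‖) * ‖z - 0‖ := by
    refine (convex_closedBall (0 : ℂ) ‖z‖).norm_image_sub_le_of_norm_hasDerivWithin_le
      (f := fun w => G (w, e)) (f' := fun w => dfst G (w, e)) ?_ ?_
      (mem_closedBall_self (norm_nonneg _)) (by simp)
    · intro w hw
      have hw' : w ∈ ball (0 : ℂ) ρ := by
        apply hcb
        rw [mem_closedBall_zero_iff] at hw hz ⊢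
        exact hw.trans hz
      exact (dfst_der (hG (w, e) ⟨hw', hcb he⟩)).hasDerivWithinAt
    · intro w hw
      have hw' : w ∈ closedBall (0 : ℂ) (ρ / 2) := by
        rw [mem_closedBall_zero_iff] at hw hz ⊢
        exact hw.trans hz
      have h5 := h1 0 h0c e he w hw' e he
      rw [hD0 e (hcb he), sub_zero] at h5
      refine h5.trans (mul_le_mul_of_nonneg_left ?_ hM₁)
      rw [mem_closedBall_zero_iff] at hw
      simpa [Prod.norm_def] using hw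
  have e2 := h2 0 h0c 0 h0c 0 h0c e he
  have e3 : ‖((0 : ℂ), e) - ((0 : ℂ), (0 : ℂ))‖ = ‖e‖ := by
    simp [Prod.norm_def]
  rw [e3] at e2
  rw [sub_zero] at e1
  calc ‖G (z, e) - G (0, 0)‖ = ‖(G (z, e) - G (0, e)) + (G (0, e) - G (0, 0))‖ := by
        congr 1
        ring
    _ ≤ ‖G (z, e) - G (0, e)‖ + ‖G (0, e) - G (0, 0)‖ := norm_add_le _ _
    _ ≤ M₁ * ‖z‖ * ‖z‖ + M₂ * ‖e‖ := add_le_add e1 e2
    _ ≤ (M₁ + M₂) * (‖z‖ ^ 2 + ‖e‖) := by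
        have a1 := mul_nonneg hM₁ (norm_nonneg e)
        have a2 := mul_nonneg hM₂ (sq_nonneg ‖z‖)
        nlinarith

/-- **The inverse with parity and estimate.** -/
theorem Ker.inv2 {k : ℂ × ℂ → ℂ} {a kap : ℝ} (h : Ker k a kap) :
    ∃ (δ ρ M : ℝ) (S : ℂ × ℂ → ℂ), 0 < δ ∧ δ ≤ a ∧ 0 < ρ ∧ ρ ≤ δ ∧ 0 ≤ M ∧
    AnalyticOnNhd ℂ S (ball 0 ρ ×ˢ ball 0 ρ) ∧
    (∀ z ∈ ball (0 : ℂ) ρ, ∀ e ∈ ball (0 : ℂ) ρ, S (z, e) ∈ ball (0 : ℂ) δ ∧
      prim 0 k (S (z, e), e) = z) ∧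
    (∀ s ∈ ball (0 : ℂ) δ, ∀ e ∈ ball (0 : ℂ) δ, S (prim 0 k (s, e), e) = s) ∧
    (∀ z ∈ ball (0 : ℂ) ρ, ∀ e ∈ ball (0 : ℂ) ρ, S (-z, e) = -S (z, e)) ∧
    (∀ z ∈ ball (0 : ℂ) ρ, ∀ e ∈ ball (0 : ℂ) ρ, S (conj z, conj e) = conj (S (z, e))) ∧
    (∀ z ∈ ball (0 : ℂ) ρ, ∀ e ∈ ball (0 : ℂ) ρ,
      ‖S (z, e) - kap * z‖ ≤ M * ‖z‖ * (‖z‖ ^ 2 + ‖e‖)) := by
  obtain ⟨δ, ρ, S, hδ, hδa, hρ, hρδ, hSa, hS1, hS2⟩ := h.inv
  have hρb : ball (0 : ℂ) ρ ⊆ ball (0 : ℂ) δ := ball_subset_ball hρδ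
  have hδb : ball (0 : ℂ) δ ⊆ ball (0 : ℂ) a := ball_subset_ball hδa
  have hodd : ∀ z ∈ ball (0 : ℂ) ρ, ∀ e ∈ ball (0 : ℂ) ρ, S (-z, e) = -S (z, e) := by
    intro z hz e he
    obtain ⟨h1, h2⟩ := hS1 z hz e he
    have h3 := hS2 _ (neg_mem_ball h1) e (hρb he)
    rwa [h.J_odd (hδb h1) (hδb (hρb he)), h2] at h3
  have hcj : ∀ z ∈ ball (0 : ℂ) ρ, ∀ e ∈ ball (0 : ℂ) ρ,
      S (conj z, conj e) = conj (S (z, e)) := by
    intro z hz e he
    obtain ⟨h1, h2⟩ := hS1 z hz e he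
    have h3 := hS2 _ (conj_mem_ball h1) _ (conj_mem_ball (hρb he))
    rwa [h.J_conj (hδb h1) (hδb (hρb he)), h2] at h3
  have hS0 : ∀ e ∈ ball (0 : ℂ) ρ, S (0, e) = 0 := by
    intro e he
    have h3 := hS2 0 (mem_ball_self hδ) e (hρb he)
    rwa [prim_zero] at h3
  have h0 : (0 : ℂ) ∈ ball (0 : ℂ) ρ := mem_ball_self hρ
  -- the derivative at the origin
  have hd0 : dfst S (0, 0) = kap := by
    have h1 : HasDerivAt (fun z => S (z, 0)) (dfst S (0, 0)) 0 := dfst_der (hSa _ ⟨h0, h0⟩)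
    have h2 : HasDerivAt (fun s => prim 0 k (s, 0)) (k (0, 0)) (S (0, 0)) := by
      rw [hS0 0 h0]
      exact h.J_der (mem_ball_self h.a_pos) (mem_ball_self h.a_pos)
    have h3 : HasDerivAt (fun z => prim 0 k (S (z, 0), 0)) (k (0, 0) * dfst S (0, 0)) 0 :=
      HasDerivAt.comp (0 : ℂ) (h₂ := fun s => prim 0 k (s, 0)) (h := fun z => S (z, 0)) h2 h1
    have h4 : (fun z => prim 0 k (S (z, 0), 0)) =ᶠ[𝓝 0] fun z => z := by
      filter_upwards [isOpen_ball.mem_nhds h0] with w hw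
      exact (hS1 w hw 0 h0).2
    have h5 := (h3.congr_of_eventuallyEq h4.symm).unique (hasDerivAt_id (0 : ℂ))
    rw [h.zero] at h5
    have h6 : (kap : ℂ) ≠ 0 := by
      have := h.kap_pos
      exact_mod_cast this.ne'
    have h7 := congrArg (fun w => (kap : ℂ) * w) h5
    simpa [mul_inv_cancel₀ h6, ← mul_assoc] using h7
  have hev : ∀ z ∈ ball (0 : ℂ) ρ, ∀ e ∈ ball (0 : ℂ) ρ, dfst S (-z, e) = dfst S (z, e) := by
    intro z hz e he
    have h1 : HasDerivAt (fun w => S (w, e)) (dfst S (-z, e)) (-z) :=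
      dfst_der (hSa _ ⟨neg_mem_ball hz, he⟩)
    have h2 : HasDerivAt (fun w => S (-w, e)) (dfst S (-z, e) * (-1)) z :=
      HasDerivAt.comp z (h₂ := fun w => S (w, e)) (h := fun w : ℂ => -w) h1 (hasDerivAt_neg _)
    have h3 : (fun w => S (-w, e)) =ᶠ[𝓝 z] fun w => -S (w, e) := by
      filter_upwards [isOpen_ball.mem_nhds hz] with w hw
      exact hodd w hw e he
    have h4 : HasDerivAt (fun w => -S (w, e)) (-dfst S (z, e)) z :=
      (dfst_der (hSa _ ⟨hz, he⟩)).neg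
    have h5 := (h2.congr_of_eventuallyEq h3.symm).unique h4
    linear_combination (-1 : ℂ) * h5
  obtain ⟨M, hM, hb⟩ := even_bd hρ (dfst_an hSa) hev
  have hcb : closedBall (0 : ℂ) (ρ / 2) ⊆ ball (0 : ℂ) ρ := closedBall_subset_ball (by linarith)
  have hbb : ball (0 : ℂ) (ρ / 2) ⊆ ball (0 : ℂ) ρ := ball_subset_ball (by linarith)
  refine ⟨δ, ρ / 2, M, S, hδ, hδa, half_pos hρ, by linarith, hM,
    fun p hp => hSa p ⟨hbb hp.1, hbb hp.2⟩,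
    fun z hz e he => hS1 z (hbb hz) e (hbb he), hS2,
    fun z hz e he => hodd z (hbb hz) e (hbb he),
    fun z hz e he => hcj z (hbb hz) e (hbb he), ?_⟩
  intro z hz e he
  have he' : e ∈ closedBall (0 : ℂ) (ρ / 2) := ball_subset_closedBall he
  have hz' : z ∈ closedBall (0 : ℂ) (ρ / 2) := ball_subset_closedBall hz
  have e1 : ‖(S (z, e) - kap * z) - (S (0, e) - kap * 0)‖ ≤
      (M * (‖z‖ ^ 2 + ‖e‖)) * ‖z - 0‖ := by
    refine (convex_closedBall (0 : ℂ) ‖z‖).norm_image_sub_le_of_norm_hasDerivWithin_le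
      (f := fun w => S (w, e) - kap * w) (f' := fun w => dfst S (w, e) - kap * 1) ?_ ?_
      (mem_closedBall_self (norm_nonneg _)) (by simp)
    · intro w hw
      have hw' : w ∈ ball (0 : ℂ) ρ := by
        apply hcb
        rw [mem_closedBall_zero_iff] at hw hz' ⊢
        exact hw.trans hz'
      exact ((dfst_der (hSa (w, e) ⟨hw', hcb he'⟩)).sub
        ((hasDerivAt_id w).const_mul (kap : ℂ))).hasDerivWithinAt
    · intro w hw
      have hw' : w ∈ closedBall (0 : ℂ) (ρ / 2) := by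
        rw [mem_closedBall_zero_iff] at hw hz' ⊢
        exact hw.trans hz'
      have h5 := hb w hw' e he'
      rw [hd0] at h5
      rw [mul_one]
      refine h5.trans (mul_le_mul_of_nonneg_left ?_ hM)
      rw [mem_closedBall_zero_iff] at hw
      have := norm_nonneg w
      nlinarith
  rw [hS0 e (hcb he'), mul_zero, sub_zero, sub_zero, sub_zero] at e1
  calc ‖S (z, e) - kap * z‖ ≤ M * (‖z‖ ^ 2 + ‖e‖) * ‖z‖ := e1
    _ = M * ‖z‖ * (‖z‖ ^ 2 + ‖e‖) := by ring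

end Pool.Agent.MP_ae5b4e_an_LOC
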