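import Pool.Agent.Lib.MP_ae5b4e_an_LOC.Lb2

/-!
# LOC, local block: the parameter `eta`, `eta ^ 2 = eps`
-/

set_option autoImplicit false

noncomputable section

namespace Pool.Agent.MP_ae5b4e_an_LOC

open Complex Set Filter Topology Metric ComplexConjugate
open Pool.Agent.MP_ae5b4e_an_AZ (prim prim_an prim_der)

/-- the inverse function theorem in one variable, with radii -/
theorem inv1 {Om : ℂ → ℂ} {b : ℝ} (hb : 0 < b) (hO : AnalyticOnNhd ℂ Om (ball 0 b))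
    (h0 : Om 0 = 0) {c : ℂ} (hc : c ≠ 0) (hd : HasDerivAt Om c 0) :
    ∃ (δ r : ℝ) (w : ℂ → ℂ), 0 < δ ∧ δ ≤ b ∧ 0 < r ∧ AnalyticOnNhd ℂ w (ball 0 r) ∧
      (∀ z ∈ ball (0 : ℂ) r, w z ∈ ball (0 : ℂ) δ ∧ Om (w z) = z) ∧
      ∀ x ∈ ball (0 : ℂ) δ, w (Om x) = x := by
  set i : ℂ ≃L[ℂ] ℂ := ContinuousLinearEquiv.smulLeft (Units.mk0 c hc) with hi
  have hz0 : (0 : ℂ) ∈ ball (0 : ℂ) b := mem_ball_self hb
  have han := hO 0 hz0
  have hfd : HasFDerivAt Om (i : ℂ →L[ℂ] ℂ) 0 := by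
    refine hd.hasFDerivAt.congr_fderiv ?_
    refine ContinuousLinearMap.ext fun v => ?_
    show v • c = c * v
    rw [smul_eq_mul, mul_comm]
  have hst : HasStrictFDerivAt Om (i : ℂ →L[ℂ] ℂ) 0 := by
    have h1 := han.hasStrictFDerivAt
    rwa [hfd.fderiv] at h1
  set f := hst.toOpenPartialHomeomorph Om with hf
  have hfc : ∀ p, f p = Om p := fun p => rfl
  have hs0 : (0 : ℂ) ∈ f.source := hst.mem_toOpenPartialHomeomorph_source
  have ht0 : (0 : ℂ) ∈ f.target := by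
    have := hst.image_mem_toOpenPartialHomeomorph_target
    rwa [h0] at this
  have hsy0 : f.symm 0 = 0 := by
    have h1 := f.left_inv hs0
    rw [hfc, h0] at h1
    exact h1
  have hsa : AnalyticAt ℂ f.symm 0 := by
    refine f.analyticAt_symm (i := i) ht0 ?_ ?_
    · rw [hsy0]
      exact han
    · rw [hsy0]
      exact hfd.fderiv
  have hN1 : f.source ∩ ball 0 b ∈ 𝓝 (0 : ℂ) :=
    inter_mem (f.open_source.mem_nhds hs0) (isOpen_ball.mem_nhds hz0)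
  obtain ⟨δ, hδ, hδs⟩ := Metric.mem_nhds_iff.1 hN1
  have hδb : δ ≤ b := by
    by_contra hlt
    push Not at hlt
    have h1 : ((b : ℝ) : ℂ) ∈ ball (0 : ℂ) δ := by
      rw [mem_ball_zero_iff, Complex.norm_real, Real.norm_of_nonneg hb.le]
      exact hlt
    have h3 : ((b : ℝ) : ℂ) ∈ ball (0 : ℂ) b := (hδs h1).2
    rw [mem_ball_zero_iff, Complex.norm_real, Real.norm_of_nonneg hb.le] at h3
    exact lt_irrefl _ h3
  have hN2 : ∀ᶠ p in 𝓝 (0 : ℂ), AnalyticAt ℂ f.symm p ∧ p ∈ f.target ∧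
      f.symm p ∈ ball (0 : ℂ) δ := by
    refine hsa.eventually_analyticAt.and (Filter.Eventually.and
      (Filter.eventually_of_mem (f.open_target.mem_nhds ht0) fun _ hp => hp) ?_)
    have h1 : Tendsto f.symm (𝓝 0) (𝓝 0) := by
      have := hsa.continuousAt.tendsto
      rwa [hsy0] at this
    exact h1 (ball_mem_nhds _ hδ)
  obtain ⟨r, hr, hrs⟩ := Metric.mem_nhds_iff.1 hN2
  refine ⟨δ, r, f.symm, hδ, hδb, hr, fun p hp => (hrs hp).1, ?_, ?_⟩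
  · intro z hz
    obtain ⟨-, h2, h3⟩ := hrs hz
    exact ⟨h3, f.right_inv h2⟩
  · intro x hx
    exact f.left_inv (hδs hx).1

theorem lip1 {F : ℂ → ℂ} {ρ : ℝ} (hρ : 0 < ρ) (hF : AnalyticOnNhd ℂ F (ball 0 ρ)) :
    ∃ M : ℝ, 0 ≤ M ∧ ∀ z ∈ closedBall (0 : ℂ) (ρ / 2), ‖F z - F 0‖ ≤ M * ‖z‖ := by
  have hsub : closedBall (0 : ℂ) (ρ / 2) ⊆ ball (0 : ℂ) ρ := closedBall_subset_ball (by linarith)
  obtain ⟨M, hM⟩ := (isCompact_closedBall _ _).exists_bound_of_continuousOn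
    (hF.fderiv.continuousOn.mono hsub)
  have h0 : (0 : ℂ) ∈ closedBall (0 : ℂ) (ρ / 2) := mem_closedBall_self (by linarith)
  refine ⟨M, (norm_nonneg _).trans (hM 0 h0), fun z hz => ?_⟩
  have := (convex_closedBall (0 : ℂ) (ρ / 2)).norm_image_sub_le_of_norm_fderiv_le
    (fun x hx => (hF x (hsub hx)).differentiableAt) hM h0 hz
  rwa [sub_zero] at this

/-- an even analytic function which vanishes at 0 -/
theorem even1 {F : ℂ → ℂ} {ρ : ℝ} (hρ : 0 < ρ) (hF : AnalyticOnNhd ℂ F (ball 0 ρ))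
    (hev : ∀ z ∈ ball (0 : ℂ) ρ, F (-z) = F z) :
    ∃ M : ℝ, 0 ≤ M ∧ ∀ z ∈ closedBall (0 : ℂ) (ρ / 2), ‖F z - F 0‖ ≤ M * ‖z‖ ^ 2 := by
  have hG : AnalyticOnNhd ℂ (fun p : ℂ × ℂ => F p.1) (ball 0 ρ ×ˢ ball 0 ρ) :=
    fun p hp => AnalyticAt.comp (hF p.1 hp.1) analyticAt_fst
  obtain ⟨M, hM, h1⟩ := even_bd hρ hG fun z hz e _ => hev z hz
  refine ⟨M, hM, fun z hz => ?_⟩
  have h2 := h1 z hz 0 (mem_closedBall_self (by linarith))
  simpa using h2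

/-- what the local block gives -/
structure Blk (k : ℂ × ℂ → ℂ) (a kap : ℝ) where
  /-- radius for the values of `S` -/
  del : ℝ
  /-- radius for `S` -/
  rho : ℝ
  /-- radius for `eta` -/
  r : ℝ
  K : ℝ
  /-- the inverse of `prim 0 k (·, e)` -/
  S : ℂ × ℂ → ℂ
  eta : ℂ → ℂ
  del_pos : 0 < del
  del_le : del ≤ a
  rho_pos : 0 < rho
  rho_le : rho ≤ del
  r_pos : 0 < r
  r_le : r ≤ rho
  one_le_K : 1 ≤ K
  S_an : AnalyticOnNhd ℂ S (ball 0 rho ×ˢ ball 0 rho)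
  S_mem : ∀ z ∈ ball (0 : ℂ) rho, ∀ e ∈ ball (0 : ℂ) rho, S (z, e) ∈ ball (0 : ℂ) del
  S_right : ∀ z ∈ ball (0 : ℂ) rho, ∀ e ∈ ball (0 : ℂ) rho, prim 0 k (S (z, e), e) = z
  S_left : ∀ s ∈ ball (0 : ℂ) del, ∀ e ∈ ball (0 : ℂ) del, S (prim 0 k (s, e), e) = s
  S_odd : ∀ z ∈ ball (0 : ℂ) rho, ∀ e ∈ ball (0 : ℂ) rho, S (-z, e) = -S (z, e)
  S_conj : ∀ z ∈ ball (0 : ℂ) rho, ∀ e ∈ ball (0 : ℂ) rho,
    S (conj z, conj e) = conj (S (z, e))
  S_close : ∀ z ∈ ball (0 : ℂ) rho, ∀ e ∈ ball (0 : ℂ) rho,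
    ‖S (z, e) - kap * z‖ ≤ K * ‖z‖ * (‖z‖ ^ 2 + ‖e‖)
  eta_an : AnalyticOnNhd ℂ eta (ball 0 r)
  eta_mem : ∀ om ∈ ball (0 : ℂ) r, eta om ∈ ball (0 : ℂ) del
  eta_sq : ∀ om ∈ ball (0 : ℂ) r, eta om ^ 2 ∈ ball (0 : ℂ) rho
  eta_zero : eta 0 = 0
  eta_odd : ∀ om ∈ ball (0 : ℂ) r, eta (-om) = -eta om
  eta_conj : ∀ om ∈ ball (0 : ℂ) r, eta (conj om) = conj (eta om)
  eta_S : ∀ om ∈ ball (0 : ℂ) r, S (om / 2, eta om ^ 2) = eta om
  eta_le : ∀ om ∈ ball (0 : ℂ) r, ‖eta om‖ ≤ K * ‖om‖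
  eta_close : ∀ om ∈ ball (0 : ℂ) r, ‖eta om - kap / 2 * om‖ ≤ kap / 8 * ‖om‖

theorem Ker.blk {k : ℂ × ℂ → ℂ} {a kap : ℝ} (h : Ker k a kap) : Nonempty (Blk k a kap) := by
  obtain ⟨δ, ρ, M, S, hδ, hδa, hρ, hρδ, hM, hSa, hS1, hS2, hSo, hSc, hSb⟩ := h.inv2
  have hδb : ball (0 : ℂ) δ ⊆ ball (0 : ℂ) a := ball_subset_ball hδa
  -- the radius for `w`: `w, w ^ 2` in the ball of radius `δ`
  set b : ℝ := min δ 1 with hbd
  have hb : 0 < b := lt_min hδ one_pos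
  have hbw : ∀ w ∈ ball (0 : ℂ) b, w ∈ ball (0 : ℂ) δ ∧ w ^ 2 ∈ ball (0 : ℂ) δ := by
    intro w hw
    have h1 : ‖w‖ < δ := (mem_ball_zero_iff.1 hw).trans_le (min_le_left _ _)
    have h2 : ‖w‖ < 1 := (mem_ball_zero_iff.1 hw).trans_le (min_le_right _ _)
    refine ⟨mem_ball_zero_iff.2 h1, mem_ball_zero_iff.2 ?_⟩
    rw [norm_pow]
    have := norm_nonneg w
    nlinarith
  have hsq : ∀ w : ℂ, AnalyticAt ℂ (fun w : ℂ => ((w, w ^ 2) : ℂ × ℂ)) w := by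
    intro w
    fun_prop
  have hOa : AnalyticOnNhd ℂ (fun w => 2 * prim 0 k (w, w ^ 2)) (ball 0 b) := by
    intro w hw
    obtain ⟨h1, h2⟩ := hbw w hw
    have h3 : AnalyticAt ℂ (prim 0 k) (w, w ^ 2) := h.J_an _ ⟨hδb h1, hδb h2⟩
    have h4 : AnalyticAt ℂ (fun w : ℂ => prim 0 k (w, w ^ 2)) w :=
      AnalyticAt.comp (g := prim 0 k) (f := fun w : ℂ => ((w, w ^ 2) : ℂ × ℂ)) h3 (hsq w)
    exact analyticAt_const.mul h4
  have hk0 : (kap : ℂ) ≠ 0 := by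
    have := h.kap_pos
    exact_mod_cast this.ne'
  have hOd : HasDerivAt (fun w : ℂ => 2 * prim 0 k (w, w ^ 2)) (2 * (kap : ℂ)⁻¹) 0 := by
    have h1 : HasFDerivAt (prim 0 k) ((kap : ℂ)⁻¹ • ContinuousLinearMap.fst ℂ ℂ ℂ)
        ((fun w : ℂ => ((w, w ^ 2) : ℂ × ℂ)) 0) := by
      show HasFDerivAt (prim 0 k) ((kap : ℂ)⁻¹ • ContinuousLinearMap.fst ℂ ℂ ℂ)
        ((0 : ℂ), (0 : ℂ) ^ 2)
      rw [zero_pow two_ne_zero]
      have h2 := hasFDerivAt_fst.comp (0, 0) h.Psi_fd (g := Prod.fst)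
      refine h2.congr_fderiv ?_
      refine ContinuousLinearMap.ext fun v => ?_
      rfl
    have h2 : HasDerivAt (fun w : ℂ => ((w, w ^ 2) : ℂ × ℂ)) (1, ((2 : ℕ) : ℂ) * 0 ^ (2 - 1)) 0 :=
      (hasDerivAt_id _).prodMk (hasDerivAt_pow 2 _)
    have h3 := h1.comp_hasDerivAt (0 : ℂ) h2
    have h4 := h3.const_mul (2 : ℂ)
    simpa using h4
  obtain ⟨δ', r, w, hδ', hδb', hr, hwa, hw1, hw2⟩ := inv1 hb hOa
    (by rw [zero_pow two_ne_zero, prim_zero, mul_zero])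
    (mul_ne_zero two_ne_zero (inv_ne_zero hk0)) hOd
  have hδ'b : ∀ x ∈ ball (0 : ℂ) δ', x ∈ ball (0 : ℂ) δ ∧ x ^ 2 ∈ ball (0 : ℂ) δ :=
    fun x hx => hbw x (ball_subset_ball hδb' hx)
  have hw0 : w 0 = 0 := by
    have h1 := hw2 0 (mem_ball_self hδ')
    simpa [prim_zero] using h1
  obtain ⟨L, hL, hLb⟩ := lip1 hr hwa
  rw [hw0] at hLb
  -- the radius
  obtain ⟨r₁, hr₁, h1r, h1ρ, h1L, h1c⟩ : ∃ r₁ : ℝ, 0 < r₁ ∧ r₁ ≤ r / 2 ∧ r₁ ≤ ρ ∧
      L * r₁ * (L * r₁) < ρ ∧ M / 2 * (r₁ * r₁ / 4 + L * r₁ * (L * r₁)) ≤ kap / 8 := by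
    have hT : Tendsto (fun t : ℝ => L * t * (L * t)) (𝓝[>] 0) (𝓝 0) := by
      have h1 : Continuous fun t : ℝ => L * t * (L * t) := by fun_prop
      have h2 := (h1.tendsto 0).mono_left (nhdsWithin_le_nhds : 𝓝[>] (0 : ℝ) ≤ 𝓝 0)
      simpa using h2
    have hT2 : Tendsto (fun t : ℝ => M / 2 * (t * t / 4 + L * t * (L * t))) (𝓝[>] 0) (𝓝 0) := by
      have h1 : Continuous fun t : ℝ => M / 2 * (t * t / 4 + L * t * (L * t)) := by fun_prop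
      have h2 := (h1.tendsto 0).mono_left (nhdsWithin_le_nhds : 𝓝[>] (0 : ℝ) ≤ 𝓝 0)
      simpa using h2
    have hk8 : 0 < kap / 8 := by
      have := h.kap_pos
      positivity
    have hE1 : ∀ᶠ t in 𝓝[>] (0 : ℝ), t ∈ Ioo 0 (r / 2) := Ioo_mem_nhdsGT (half_pos hr)
    have hE2 : ∀ᶠ t in 𝓝[>] (0 : ℝ), t ∈ Ioo 0 ρ := Ioo_mem_nhdsGT hρ
    have hE := ((hT.eventually_lt_const hρ).and (hT2.eventually_le_const hk8)).and
      (hE1.and hE2)
    obtain ⟨t, ⟨h1, h2⟩, h3, h4⟩ := hE.exists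
    exact ⟨t, h3.1, h3.2.le, h4.2.le, h1, h2⟩
  have hbr : ball (0 : ℂ) r₁ ⊆ ball (0 : ℂ) r := ball_subset_ball (by linarith)
  have hle : ∀ om ∈ ball (0 : ℂ) r₁, ‖w om‖ ≤ L * ‖om‖ := by
    intro om hom
    have h1 := hLb om (mem_closedBall_zero_iff.2 (by
      have := mem_ball_zero_iff.1 hom
      linarith))
    rwa [sub_zero] at h1
  have hsqm : ∀ om ∈ ball (0 : ℂ) r₁, w om ^ 2 ∈ ball (0 : ℂ) ρ := by
    intro om hom
    rw [mem_ball_zero_iff, norm_pow]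
    have h1 := hle om hom
    have h2 := mem_ball_zero_iff.1 hom
    have h3 : L * ‖om‖ ≤ L * r₁ := mul_le_mul_of_nonneg_left h2.le hL
    have h4 := norm_nonneg (w om)
    have h5 : ‖w om‖ ≤ L * r₁ := h1.trans h3
    nlinarith
  have hS : ∀ om ∈ ball (0 : ℂ) r₁, S (om / 2, w om ^ 2) = w om := by
    intro om hom
    obtain ⟨h1, h2⟩ := hw1 om (hbr hom)
    obtain ⟨h3, h4⟩ := hδ'b _ h1
    have h5 := hS2 _ h3 _ h4
    have h6 : prim 0 k (w om, w om ^ 2) = om / 2 := by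
      have h7 : 2 * prim 0 k (w om, w om ^ 2) = om := h2
      linear_combination (1 / 2 : ℂ) * h7
    rwa [h6] at h5
  refine ⟨{
    del := δ
    rho := ρ
    r := r₁
    K := max 1 (max M L)
    S := S
    eta := w
    del_pos := hδ
    del_le := hδa
    rho_pos := hρ
    rho_le := hρδ
    r_pos := hr₁
    r_le := h1ρ
    one_le_K := le_max_left _ _
    S_an := hSa
    S_mem := fun z hz e he => (hS1 z hz e he).1
    S_right := fun z hz e he => (hS1 z hz e he).2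
    S_left := hS2
    S_odd := hSo
    S_conj := hSc
    S_close := ?_
    eta_an := fun om hom => hwa om (hbr hom)
    eta_mem := fun om hom => (hδ'b _ (hw1 om (hbr hom)).1).1
    eta_sq := hsqm
    eta_zero := hw0
    eta_odd := ?_
    eta_conj := ?_
    eta_S := hS
    eta_le := ?_
    eta_close := ?_ }⟩
  · intro z hz e he
    refine (hSb z hz e he).trans ?_
    have h1 : M ≤ max 1 (max M L) := (le_max_left _ _).trans (le_max_right _ _)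
    have h2 := norm_nonneg z
    have h3 : 0 ≤ ‖z‖ ^ 2 + ‖e‖ := by positivity
    exact mul_le_mul_of_nonneg_right (mul_le_mul_of_nonneg_right h1 h2) h3
  · intro om hom
    obtain ⟨h1, h2⟩ := hw1 om (hbr hom)
    obtain ⟨h3, h4⟩ := hδ'b _ h1
    have h5 := hw2 _ (neg_mem_ball h1)
    have h6 : 2 * prim 0 k (-w om, (-w om) ^ 2) = -om := by
      rw [neg_sq, h.J_odd (hδb h3) (hδb h4)]
      have h7 : 2 * prim 0 k (w om, w om ^ 2) = om := h2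
      linear_combination (-1 : ℂ) * h7
    rwa [h6] at h5
  · intro om hom
    obtain ⟨h1, h2⟩ := hw1 om (hbr hom)
    obtain ⟨h3, h4⟩ := hδ'b _ h1
    have h5 := hw2 _ (conj_mem_ball h1)
    have h6 : 2 * prim 0 k (conj (w om), (conj (w om)) ^ 2) = conj om := by
      rw [← map_pow, h.J_conj (hδb h3) (hδb h4)]
      have h7 : 2 * prim 0 k (w om, w om ^ 2) = om := h2
      have h8 := congrArg (starRingEnd ℂ) h7
      rwa [map_mul, map_ofNat] at h8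
    rwa [h6] at h5
  · intro om hom
    refine (hle om hom).trans (mul_le_mul_of_nonneg_right ?_ (norm_nonneg _))
    exact (le_max_right _ _).trans (le_max_right _ _)
  · intro om hom
    have h2 := mem_ball_zero_iff.1 hom
    have h0 := norm_nonneg om
    have h1 := hSb (om / 2) (mem_ball_zero_iff.2 (by
      rw [norm_div, Complex.norm_ofNat]
      linarith)) _ (hsqm om hom)
    rw [hS om hom, norm_div, Complex.norm_ofNat, norm_pow] at h1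
    have h3 : w om - kap * (om / 2) = w om - kap / 2 * om := by ring
    rw [h3] at h1
    refine h1.trans ?_
    have h4 := hle om hom
    have h5 : L * ‖om‖ ≤ L * r₁ := mul_le_mul_of_nonneg_left h2.le hL
    have h6 : ‖w om‖ ≤ L * r₁ := h4.trans h5
    have h7 := norm_nonneg (w om)
    have h8 : ‖w om‖ ^ 2 ≤ L * r₁ * (L * r₁) := by nlinarith
    have h9 : (‖om‖ / 2) ^ 2 ≤ r₁ * r₁ / 4 := by nlinarith
    calc M * (‖om‖ / 2) * ((‖om‖ / 2) ^ 2 + ‖w om‖ ^ 2)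
        ≤ M * (‖om‖ / 2) * (r₁ * r₁ / 4 + L * r₁ * (L * r₁)) :=
          mul_le_mul_of_nonneg_left (add_le_add h9 h8) (by positivity)
      _ = (M / 2 * (r₁ * r₁ / 4 + L * r₁ * (L * r₁))) * ‖om‖ := by ring
      _ ≤ kap / 8 * ‖om‖ := mul_le_mul_of_nonneg_right h1c h0

end Pool.Agent.MP_ae5b4e_an_LOC
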