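import Pool.Agent.Lib.MP_ae5b4e_an_LOC.Lb3
import Pool.Agent.Lib.MP_ae5b4e_an_LOC.GD

/-!
# LOC, local block: the kernel
-/

set_option autoImplicit false

noncomputable section

namespace Pool.Agent.MP_ae5b4e_an_LOC

open Complex Set Filter Topology Metric ComplexConjugate
open Pool.Agent.MP_ae5b4e_an_AZ (prim prim_an prim_der)

/-- the kernel of the local time map -/
def kJ (σ m1 : ℝ) (c : ℂ → ℂ) (p : ℂ × ℂ) : ℂ := (σ * c p.2 * sq2 m1 p.2 p.1)⁻¹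

/-- the argument of the square root -/
def sqb (m1 : ℝ) (ε w : ℂ) : ℂ := (1 - ε + w ^ 2) * (1 - m1 * ε + m1 * w ^ 2)

theorem sq2_eq (m1 : ℝ) (ε w : ℂ) : sq2 m1 ε w = sqb m1 ε w ^ ((1 / 2) : ℂ) := rfl

theorem sqb_mem {m1 : ℝ} (hm : 0 < m1) (hm' : m1 < 1) {ε w : ℂ} (hε : ‖ε‖ < 1 / 8)
    (hw : ‖w‖ < 1 / 8) : sqb m1 ε w ∈ slitPlane := by
  set u : ℂ := -ε + w ^ 2 with hu
  have h1 : ‖u‖ ≤ 9 / 64 := by
    refine (norm_add_le _ _).trans ?_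
    rw [norm_neg, norm_pow]
    have := norm_nonneg w
    nlinarith
  have h2 : sqb m1 ε w = 1 + (u + m1 * u + m1 * u * u) := by
    unfold sqb
    rw [hu]
    ring
  rw [h2]
  refine mem_slitPlane_of_norm_lt_one ?_
  have h0 := norm_nonneg u
  have h3 : ‖(m1 : ℂ)‖ = m1 := by
    rw [Complex.norm_real, Real.norm_of_nonneg hm.le]
  calc ‖u + m1 * u + m1 * u * u‖ ≤ ‖u + m1 * u‖ + ‖(m1 : ℂ) * u * u‖ := norm_add_le _ _
    _ ≤ (‖u‖ + ‖(m1 : ℂ) * u‖) + ‖(m1 : ℂ) * u * u‖ := by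
        have := norm_add_le u (m1 * u)
        linarith
    _ = ‖u‖ + m1 * ‖u‖ + m1 * ‖u‖ * ‖u‖ := by rw [norm_mul, norm_mul, norm_mul, h3]
    _ ≤ 9 / 64 + 1 * (9 / 64) + 1 * (9 / 64) * (9 / 64) := by gcongr
    _ < 1 := by norm_num

theorem sq2_ne {m1 : ℝ} (hm : 0 < m1) (hm' : m1 < 1) {ε w : ℂ} (hε : ‖ε‖ < 1 / 8)
    (hw : ‖w‖ < 1 / 8) : sq2 m1 ε w ≠ 0 := by
  rw [sq2_eq]
  intro h
  rw [cpow_eq_zero_iff] at h
  exact slitPlane_ne_zero (sqb_mem hm hm' hε hw) h.1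

theorem ker_kJ {σ m1 R : ℝ} (hσ : 0 < σ) (hm : 0 < m1) (hm' : m1 < 1) (hR : 0 < R)
    {c : ℂ → ℂ} (hc : ∀ e ∈ ball (0 : ℂ) R, AnalyticAt ℂ c e) (hc0 : c 0 = 1)
    (hcc : ∀ e ∈ ball (0 : ℂ) R, c (conj e) = conj (c e)) :
    ∃ a : ℝ, a ≤ 1 / 8 ∧ a ≤ R ∧ (∀ e ∈ ball (0 : ℂ) a, c e ≠ 0) ∧ Ker (kJ σ m1 c) a σ := by
  have h1 : ∀ᶠ e in 𝓝 (0 : ℂ), c e ≠ 0 := by
    refine (hc 0 (mem_ball_self hR)).continuousAt.eventually_ne ?_
    rw [hc0]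
    exact one_ne_zero
  obtain ⟨a₀, ha₀, h2⟩ := Metric.mem_nhds_iff.1 h1
  have e1 : min a₀ (min R (1 / 8)) ≤ a₀ := min_le_left _ _
  have e2 : min a₀ (min R (1 / 8)) ≤ R := (min_le_right _ _).trans (min_le_left _ _)
  have e3 : min a₀ (min R (1 / 8)) ≤ 1 / 8 := (min_le_right _ _).trans (min_le_right _ _)
  set a := min a₀ (min R (1 / 8)) with ha
  have n3 : ∀ e ∈ ball (0 : ℂ) a, ‖e‖ < 1 / 8 := fun e he =>
    (mem_ball_zero_iff.1 he).trans_le e3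
  have hne : ∀ e ∈ ball (0 : ℂ) a, c e ≠ 0 := fun e he => h2 (ball_subset_ball e1 he)
  have hσ' : (σ : ℂ) ≠ 0 := by exact_mod_cast hσ.ne'
  refine ⟨a, e3, e2, hne, ?_⟩
  refine ⟨lt_min ha₀ (lt_min hR (by norm_num)), hσ, ?_, ?_, ?_, ?_⟩
  · rintro ⟨s, e⟩ ⟨hs, he⟩
    have hs' : ‖s‖ < 1 / 8 := n3 s hs
    have he' : ‖e‖ < 1 / 8 := n3 e he
    have a1 : AnalyticAt ℂ (fun p : ℂ × ℂ => c p.2) (s, e) :=
      AnalyticAt.comp (g := c) (f := fun p : ℂ × ℂ => p.2) (hc e (ball_subset_ball e2 he))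
        analyticAt_snd
    have f1 : AnalyticAt ℂ (fun p : ℂ × ℂ => p.1) (s, e) := analyticAt_fst
    have f2 : AnalyticAt ℂ (fun p : ℂ × ℂ => p.2) (s, e) := analyticAt_snd
    have a2 : AnalyticAt ℂ (fun p : ℂ × ℂ => sqb m1 p.2 p.1) (s, e) :=
      ((analyticAt_const.sub f2).add (f1.pow 2)).mul
        ((analyticAt_const.sub (analyticAt_const.mul f2)).add (analyticAt_const.mul (f1.pow 2)))
    have a3 : AnalyticAt ℂ (fun p : ℂ × ℂ => sq2 m1 p.2 p.1) (s, e) :=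
      a2.cpow analyticAt_const (sqb_mem hm hm' he' hs')
    refine ((analyticAt_const.mul a1).mul a3).inv ?_
    exact mul_ne_zero (mul_ne_zero hσ' (hne e he)) (sq2_ne hm hm' he' hs')
  · intro s _ e _
    unfold kJ sq2
    simp only [neg_sq]
  · intro s hs e he
    have hs' : ‖s‖ < 1 / 8 := n3 s hs
    have he' : ‖e‖ < 1 / 8 := n3 e he
    have b1 := sqb_mem hm hm' he' hs'
    have b2 : sqb m1 (conj e) (conj s) = conj (sqb m1 e s) := by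
      unfold sqb
      simp
    have b3 : sq2 m1 (conj e) (conj s) = conj (sq2 m1 e s) := by
      rw [sq2_eq, sq2_eq, b2, conj_cpow _ _ (mem_slitPlane_iff_arg.1 b1).1]
      congr 2
      rw [map_div₀, map_one, map_ofNat]
    show (σ * c (conj e) * sq2 m1 (conj e) (conj s))⁻¹ = conj ((σ * c e * sq2 m1 e s)⁻¹)
    rw [b3, hcc e (ball_subset_ball e2 he), map_inv₀, map_mul, map_mul, conj_ofReal]
  · unfold kJ
    show (σ * c 0 * sq2 m1 0 0)⁻¹ = (σ : ℂ)⁻¹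
    rw [hc0, sq2_eq]
    have b1 : sqb m1 0 0 = 1 := by
      unfold sqb
      simp
    rw [b1, one_cpow, mul_one, mul_one]

/-- `(1 - w)^(-1/2)` squared -/
theorem rt_sq {w : ℂ} (hw : ‖w‖ < 1) : rt w ^ 2 = (1 - w)⁻¹ ∧ rt w ≠ 0 ∧ AnalyticAt ℂ rt w := by
  have h1 : 1 - w ∈ slitPlane := by
    rw [sub_eq_add_neg]
    exact mem_slitPlane_of_norm_lt_one (by rwa [norm_neg])
  have h0 := slitPlane_ne_zero h1
  refine ⟨?_, ?_, ?_⟩
  · unfold rt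
    rw [← cpow_nat_mul]
    have e1 : ((2 : ℕ) : ℂ) * -(1 / 2) = -1 := by
      push_cast
      ring
    rw [e1, cpow_neg_one]
  · unfold rt
    intro h
    rw [cpow_eq_zero_iff] at h
    exact h0 h.1
  · unfold rt
    exact AnalyticAt.cpow (analyticAt_const.sub analyticAt_id) analyticAt_const h1

theorem rt_zero : rt 0 = 1 := by
  unfold rt
  simp

end Pool.Agent.MP_ae5b4e_an_LOC
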