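import Pool.Agent.Lib.MP_ae5b4e_an_LOC.Lb4

/-!
# LOC, local block: the link between the global time map and the local coordinate
-/

set_option autoImplicit false

noncomputable section

namespace Pool.Agent.MP_ae5b4e_an_LOC

open Complex Set Filter Topology Metric ComplexConjugate
open Pool.Agent.MP_ae5b4e_an_AZ (prim prim_an prim_der)

/-- the local form of `g` at the base points, `y = sc (σ ·)` -/
structure YD (G : GD) (σ m1 : ℝ) where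
  y : ℂ → ℂ
  ry : ℝ
  ry_pos : 0 < ry
  y_zero : y 0 = 0
  y_deriv : ∀ z ∈ ball (0 : ℂ) ry, HasDerivAt y (σ * sq2 m1 0 (y z)) z
  g_eq : ∀ n : ℤ, ∀ z ∈ ball (0 : ℂ) ry, z ≠ 0 → G.g (n / 2 + I * G.h + z) * y z ^ 2 = -1

/-- the result of the local block -/
structure LB (G : GD) (T : TD G) (σ m1 : ℝ) where
  r : ℝ
  rho : ℝ
  K : ℝ
  eta : ℂ → ℂ
  s : ℂ → ℂ → ℂ
  bt : ℂ → ℂ
  r_pos : 0 < r
  rho_pos : 0 < rho
  r_le : r ≤ rho
  one_le_K : 1 ≤ K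
  eta_an : AnalyticOnNhd ℂ eta (ball 0 r)
  eta_zero : eta 0 = 0
  eta_odd : ∀ om ∈ ball (0 : ℂ) r, eta (-om) = -eta om
  eta_conj : ∀ om ∈ ball (0 : ℂ) r, eta (conj om) = conj (eta om)
  eta_close : ∀ om ∈ ball (0 : ℂ) r, ‖eta om - σ / 2 * om‖ ≤ σ / 8 * ‖om‖
  eta_lt : ∀ om ∈ ball (0 : ℂ) r, ‖eta om‖ < T.r0
  K_eta : ∀ om ∈ ball (0 : ℂ) r, T.K0 * ‖eta om‖ ≤ K * ‖om‖
  s_an : AnalyticOnNhd ℂ (fun p : ℂ × ℂ => s p.1 p.2) (ball 0 r ×ˢ ball 0 rho)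
  s_odd : ∀ om ∈ ball (0 : ℂ) r, ∀ z ∈ ball (0 : ℂ) rho, s om (-z) = -s om z
  s_even : ∀ om ∈ ball (0 : ℂ) r, ∀ z ∈ ball (0 : ℂ) rho, s (-om) z = s om z
  s_conj : ∀ om ∈ ball (0 : ℂ) r, ∀ z ∈ ball (0 : ℂ) rho, s (conj om) (conj z) = conj (s om z)
  s_inj : ∀ om ∈ ball (0 : ℂ) r, InjOn (s om) (ball 0 rho)
  s_close : ∀ om ∈ ball (0 : ℂ) r, ∀ z ∈ ball (0 : ℂ) rho,
    ‖s om z - σ * z‖ ≤ K * ‖z‖ * (‖om‖ + ‖z‖) ^ 2
  /-- `s om` is the inverse of the local time `J = prim 0 (kJ σ m1 (cE G)) (·, eta om ^ 2)` -/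
  J_s : ∀ om ∈ ball (0 : ℂ) r, ∀ z ∈ ball (0 : ℂ) rho,
    prim 0 (kJ σ m1 (cE G)) (s om z, eta om ^ 2) = z
  eta_half : ∀ om ∈ ball (0 : ℂ) r, s om (om / 2) = eta om
  bt_an : AnalyticOnNhd ℂ bt (ball 0 r)
  bt_even : ∀ om ∈ ball (0 : ℂ) r, bt (-om) = bt om
  bt_le : ∀ om ∈ ball (0 : ℂ) r, ‖bt om‖ ≤ K * ‖om‖ ^ 2
  link : ∀ (n : ℤ) (om x : ℂ), ‖om‖ < r → |x.im| < G.h - K * ‖om‖ →
    ‖x - (n / 2 + I * G.h)‖ < rho →
    eta om ^ 2 - s om (phE G (eta om ^ 2) x - (n / 2 + I * G.h) - bt om) ^ 2 =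
      -s 0 (x - (n / 2 + I * G.h)) ^ 2

theorem sq2_congr {m1 : ℝ} {e w y : ℂ} (h : w ^ 2 = y ^ 2 + e) : sq2 m1 e w = sq2 m1 0 y := by
  rw [sq2_eq, sq2_eq]
  congr 1
  unfold sqb
  rw [h]
  ring

/-- a function whose square is `y ^ 2 + e` -/
theorem sqrt_der {y' : ℂ} {S1 Y : ℂ → ℂ} {e x : ℂ} (hS : DifferentiableAt ℂ S1 x)
    (hY : HasDerivAt Y y' x) (hsq : ∀ᶠ w in 𝓝 x, S1 w ^ 2 = Y w ^ 2 + e) (hne : S1 x ≠ 0) :
    HasDerivAt S1 (Y x * y' / S1 x) x := by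
  have h1 : HasDerivAt (fun w => S1 w ^ 2) (2 * S1 x * deriv S1 x) x := by
    have := hS.hasDerivAt.fun_pow 2
    simpa using this
  have h2 : HasDerivAt (fun w => Y w ^ 2 + e) (2 * Y x * y') x := by
    have := (hY.fun_pow 2).add_const e
    simpa using this
  have h3 := (h2.congr_of_eventuallyEq hsq).unique h1
  have h4 : deriv S1 x = Y x * y' / S1 x := by
    rw [eq_div_iff hne]
    linear_combination (-1 / 2 : ℂ) * h3
  rw [← h4]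
  exact hS.hasDerivAt

/-- The derivative of the local time along `S1 = y / rt (e g)`. -/
theorem local_der {G : GD} {σ m1 a : ℝ} {c : ℂ → ℂ} (hσ : 0 < σ) (hm : 0 < m1) (hm' : m1 < 1)
    (hk : Ker (kJ σ m1 c) a σ) (ha8 : a ≤ 1 / 8) {y : ℂ → ℂ} {b e x : ℂ}
    (hy : HasDerivAt y (σ * sq2 m1 0 (y (x - b))) (x - b)) (hya : y (x - b) ∈ ball (0 : ℂ) a)
    (hg : AnalyticAt ℂ G.g x) (hgy : ∀ᶠ w in 𝓝 x, G.g w * y (w - b) ^ 2 = -1)
    (hsm : ‖e * G.g x‖ ≤ 1 / 2)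
    (hS : y (x - b) / rt (e * G.g x) ∈ ball (0 : ℂ) a) (he : e ∈ ball (0 : ℂ) a) :
    HasDerivAt (fun w => prim 0 (kJ σ m1 c) (y (w - b) / rt (e * G.g w), e))
      (rt (e * G.g x) / c e) x := by
  have hlt : ‖e * G.g x‖ < 1 := by linarith
  obtain ⟨h1, h2, h3⟩ := rt_sq hlt
  have hgy0 := hgy.self_of_nhds
  have hy0 : y (x - b) ≠ 0 := by
    intro h0
    rw [h0] at hgy0
    norm_num at hgy0
  have hYd : HasDerivAt (fun w => y (w - b)) (σ * sq2 m1 0 (y (x - b))) x := by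
    have h4 : HasDerivAt (fun w : ℂ => w - b) 1 x := (hasDerivAt_id x).sub_const b
    have h5 := HasDerivAt.comp x (h₂ := y) (h := fun w : ℂ => w - b) hy h4
    rw [mul_one] at h5
    exact h5
  have hgc : ContinuousAt (fun w => e * G.g w) x := continuousAt_const.mul hg.continuousAt
  have hrd : DifferentiableAt ℂ (fun w => rt (e * G.g w)) x := by
    have h5 : DifferentiableAt ℂ (fun w => e * G.g w) x :=
      (differentiableAt_const e).mul hg.differentiableAt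
    exact DifferentiableAt.comp x (g := rt) (f := fun w => e * G.g w) h3.differentiableAt h5
  have hSd : DifferentiableAt ℂ (fun w => y (w - b) / rt (e * G.g w)) x :=
    hYd.differentiableAt.div hrd h2
  have hsq : ∀ᶠ w in 𝓝 x, (y (w - b) / rt (e * G.g w)) ^ 2 = y (w - b) ^ 2 + e := by
    have h5 : ∀ᶠ w in 𝓝 x, ‖e * G.g w‖ < 1 := hgc.norm.eventually_lt_const hlt
    filter_upwards [hgy, h5] with w h6 h7
    obtain ⟨h8, h9, -⟩ := rt_sq h7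
    have h10 : 1 - e * G.g w ≠ 0 := by
      intro h11
      rw [h11, inv_zero] at h8
      exact h9 (pow_eq_zero_iff two_ne_zero |>.1 h8)
    rw [div_pow, h8, div_inv_eq_mul]
    linear_combination (-e) * h6
  have hSne : y (x - b) / rt (e * G.g x) ≠ 0 := div_ne_zero hy0 h2
  have hSder := sqrt_der hSd hYd hsq hSne
  have h6 : y (x - b) * (σ * sq2 m1 0 (y (x - b))) / (y (x - b) / rt (e * G.g x)) =
      σ * sq2 m1 0 (y (x - b)) * rt (e * G.g x) := by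
    field_simp
  rw [h6] at hSder
  have hJ := hk.J_der hS he
  have h7 := HasDerivAt.comp x (h₂ := fun z => prim 0 (kJ σ m1 c) (z, e))
    (h := fun w => y (w - b) / rt (e * G.g w)) hJ hSder
  refine h7.congr_deriv ?_
  have h8 := hsq.self_of_nhds
  unfold kJ
  show (σ * c e * sq2 m1 e (y (x - b) / rt (e * G.g x)))⁻¹ *
    (σ * sq2 m1 0 (y (x - b)) * rt (e * G.g x)) = rt (e * G.g x) / c e
  rw [sq2_congr h8]
  have n1 : ‖y (x - b)‖ < 1 / 8 := (mem_ball_zero_iff.1 hya).trans_le ha8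
  have h9 : sq2 m1 0 (y (x - b)) ≠ 0 := sq2_ne hm hm' (by norm_num) n1
  have h10 : (σ : ℂ) ≠ 0 := by exact_mod_cast hσ.ne'
  by_cases h11 : c e = 0
  · rw [h11]
    simp
  · field_simp

end Pool.Agent.MP_ae5b4e_an_LOC
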