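import Pool.Agent.Lib.MP_ae5b4e_an_LOC.Lb5

/-!
# LOC, local block: assembly
-/

set_option autoImplicit false

noncomputable section

namespace Pool.Agent.MP_ae5b4e_an_LOC

open Complex Set Filter Topology Metric ComplexConjugate
open Pool.Agent.MP_ae5b4e_an_AZ (prim prim_an prim_der)

theorem GD.g_per (G : GD) (n : ℤ) : ∀ x : ℂ, G.g (x + n / 2) = G.g x := by
  induction n using Int.induction_on with
  | zero =>
    intro x
    simp
  | succ n ih =>
    intro x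
    have e1 : x + (((n : ℤ) + 1 : ℤ) : ℂ) / 2 = (x + ((n : ℤ) : ℂ) / 2) + 1 / 2 := by
      push_cast
      ring
    rw [e1, G.g_half, ih]
  | pred n ih =>
    intro x
    have e1 : x + ((-(n : ℤ) - 1 : ℤ) : ℂ) / 2 + 1 / 2 = x + ((-(n : ℤ) : ℤ) : ℂ) / 2 := by
      push_cast
      ring
    rw [← G.g_half, e1, ih]

theorem TD.ph_per {G : GD} (T : TD G) {η : ℂ} (hη : ‖η‖ < T.r0) (n : ℤ) : ∀ x : ℂ,
    |x.im| < G.h - T.K0 * ‖η‖ → phE G (η ^ 2) (x + n / 2) = phE G (η ^ 2) x + n / 2 := by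
  have him : ∀ (x : ℂ) (n : ℤ), (x + (n : ℂ) / 2).im = x.im := by
    intro x n
    have e1 : ((n : ℂ) / 2).im = 0 := by
      have e2 : ((n : ℂ) / 2) = (((n : ℝ) / 2 : ℝ) : ℂ) := by push_cast; ring
      rw [e2, ofReal_im]
    rw [add_im, e1, add_zero]
  induction n using Int.induction_on with
  | zero =>
    intro x _
    simp
  | succ n ih =>
    intro x hx
    have e1 : x + (((n : ℤ) + 1 : ℤ) : ℂ) / 2 = (x + ((n : ℤ) : ℂ) / 2) + 1 / 2 := by
      push_cast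
      ring
    rw [e1, T.ph_half η _ hη (by rw [him]; exact hx), ih x hx]
    push_cast
    ring
  | pred n ih =>
    intro x hx
    have e1 : x + ((-(n : ℤ) - 1 : ℤ) : ℂ) / 2 + 1 / 2 = x + ((-(n : ℤ) : ℤ) : ℂ) / 2 := by
      push_cast
      ring
    have h1 := T.ph_half η (x + ((-(n : ℤ) - 1 : ℤ) : ℂ) / 2) hη (by rw [him]; exact hx)
    rw [e1, ih x hx] at h1
    push_cast at h1 ⊢
    linear_combination -h1

theorem GD.an_strip (G : GD) {x : ℂ} (hx : |x.im| < G.h) : AnalyticAt ℂ G.g x := by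
  have hh := G.h_pos
  obtain ⟨h1, h2⟩ := abs_lt.1 hx
  refine G.g_an x (by linarith) fun n => ⟨?_, ?_⟩
  · intro h
    have h3 := congrArg Complex.im h
    have e2 : ((n : ℂ) / 2) = (((n : ℝ) / 2 : ℝ) : ℂ) := by push_cast; ring
    rw [add_im, e2, ofReal_im, zero_add] at h3
    simp at h3
    linarith
  · intro h
    have h3 := congrArg Complex.im h
    have e2 : ((n : ℂ) / 2) = (((n : ℝ) / 2 : ℝ) : ℂ) := by push_cast; ring
    rw [sub_im, e2, ofReal_im, zero_sub] at h3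
    simp at h3
    linarith

/-- `y` is the inverse at `e = 0` -/
theorem y_left {σ m1 a : ℝ} {c : ℂ → ℂ} (hσ : 0 < σ) (hm : 0 < m1) (hm' : m1 < 1)
    (hk : Ker (kJ σ m1 c) a σ) (ha8 : a ≤ 1 / 8) (hc0 : c 0 = 1) {y : ℂ → ℂ} {ρ : ℝ}
    (hρ : 0 < ρ) (hy0 : y 0 = 0)
    (hy : ∀ z ∈ ball (0 : ℂ) ρ, HasDerivAt y (σ * sq2 m1 0 (y z)) z)
    (hya : ∀ z ∈ ball (0 : ℂ) ρ, y z ∈ ball (0 : ℂ) a) :
    ∀ z ∈ ball (0 : ℂ) ρ, prim 0 (kJ σ m1 c) (y z, 0) = z := by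
  intro z hz
  have h0 : (0 : ℂ) ∈ ball (0 : ℂ) ρ := mem_ball_self hρ
  have hσ' : (σ : ℂ) ≠ 0 := by exact_mod_cast hσ.ne'
  have hd : ∀ w ∈ ball (0 : ℂ) ρ,
      HasDerivWithinAt (fun w => prim 0 (kJ σ m1 c) (y w, 0) - w) 0 (ball 0 ρ) w := by
    intro w hw
    have h1 := HasDerivAt.comp w (h₂ := fun s => prim 0 (kJ σ m1 c) (s, 0)) (h := y)
      (hk.J_der (hya w hw) (mem_ball_self hk.a_pos)) (hy w hw)
    have n1 : ‖y w‖ < 1 / 8 := (mem_ball_zero_iff.1 (hya w hw)).trans_le ha8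
    have h9 : sq2 m1 0 (y w) ≠ 0 := sq2_ne hm hm' (by norm_num) n1
    have h2 : kJ σ m1 c (y w, 0) * (σ * sq2 m1 0 (y w)) = 1 := by
      show (σ * c 0 * sq2 m1 0 (y w))⁻¹ * (σ * sq2 m1 0 (y w)) = 1
      rw [hc0, mul_one]
      exact inv_mul_cancel₀ (mul_ne_zero hσ' h9)
    rw [h2] at h1
    have h3 := h1.sub (hasDerivAt_id w)
    rw [sub_self] at h3
    exact h3.hasDerivWithinAt
  have h4 := (convex_ball (0 : ℂ) ρ).norm_image_sub_le_of_norm_hasDerivWithin_le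
    (f' := fun _ => (0 : ℂ)) (C := 0) hd (fun w _ => by simp) h0 hz
  rw [zero_mul] at h4
  have h5 := sub_eq_zero.1 (norm_le_zero_iff.1 h4)
  have h6 : prim 0 (kJ σ m1 c) (y z, 0) - z = prim 0 (kJ σ m1 c) (y 0, 0) - 0 := h5
  rw [hy0, prim_zero, sub_zero] at h6
  exact sub_eq_zero.1 h6

theorem exists_LB {G : GD} (T : TD G) {σ m1 : ℝ} (hσ : 0 < σ) (hm : 0 < m1) (hm' : m1 < 1)
    (Y : YD G σ m1) : Nonempty (LB G T σ m1) := by
  have hh := G.h_pos
  have hr0 := T.r0_pos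
  have hK0 := T.one_le_K0
  have hc0 := T.c_zero
  have hR : 0 < T.r0 ^ 2 := by positivity
  obtain ⟨a, ha8, haR, hne, hk⟩ := ker_kJ hσ hm hm' hR
    (fun e he => T.c_an e (mem_ball_zero_iff.1 he)) hc0
    (fun e he => T.c_conj e (mem_ball_zero_iff.1 he))
  obtain ⟨B⟩ := hk.blk
  have ha := hk.a_pos
  have hδ := B.del_pos
  have hδa := B.del_le
  have hBρ := B.rho_pos
  have hBρδ := B.rho_le
  have hBr := B.r_pos
  have hBK := B.one_le_K
  set y := Y.y with hydef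
  -- the radius `ρ₁`
  obtain ⟨ρ₁, hρ₁, hρ₁y, hρ₁B, hρ₁h, hy2⟩ : ∃ ρ₁ : ℝ, 0 < ρ₁ ∧ ρ₁ ≤ Y.ry ∧ ρ₁ ≤ B.rho ∧
      ρ₁ ≤ G.h ∧ ∀ z ∈ ball (0 : ℂ) ρ₁, ‖y z‖ < B.del / 2 := by
    have h1 : ContinuousAt y 0 := (Y.y_deriv 0 (mem_ball_self Y.ry_pos)).continuousAt
    have h2 : ∀ᶠ z in 𝓝 (0 : ℂ), ‖y z‖ < B.del / 2 := by
      refine h1.norm.eventually_lt_const ?_
      show ‖Y.y 0‖ < B.del / 2
      rw [Y.y_zero, norm_zero]
      exact half_pos hδ
    obtain ⟨t, ht, h3⟩ := Metric.mem_nhds_iff.1 h2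
    have hry := Y.ry_pos
    refine ⟨min (min t Y.ry) (min B.rho G.h), lt_min (lt_min ht hry) (lt_min hBρ hh),
      (min_le_left _ _).trans (min_le_right _ _), (min_le_right _ _).trans (min_le_left _ _),
      (min_le_right _ _).trans (min_le_right _ _), fun z hz => h3 ?_⟩
    exact ball_subset_ball ((min_le_left _ _).trans (min_le_left _ _)) hz
  have hya : ∀ z ∈ ball (0 : ℂ) ρ₁, y z ∈ ball (0 : ℂ) a := by
    intro z hz
    rw [mem_ball_zero_iff]
    have := hy2 z hz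
    linarith
  have hyd : ∀ z ∈ ball (0 : ℂ) ρ₁, y z ∈ ball (0 : ℂ) B.del := by
    intro z hz
    rw [mem_ball_zero_iff]
    have := hy2 z hz
    linarith
  have hder : ∀ z ∈ ball (0 : ℂ) ρ₁, HasDerivAt y (σ * sq2 m1 0 (y z)) z :=
    fun z hz => Y.y_deriv z (ball_subset_ball hρ₁y hz)
  have hyl := y_left hσ hm hm' hk ha8 hc0 hρ₁ Y.y_zero hder hya
  have hyS : ∀ z ∈ ball (0 : ℂ) ρ₁, B.S (z, 0) = y z := by
    intro z hz
    have h1 := B.S_left (y z) (hyd z hz) 0 (mem_ball_self hδ)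
    rwa [hyl z hz] at h1
  -- the constant and the radius for `om`
  set K₁ : ℝ := T.K0 * B.K with hK₁
  have hK₁1 : 1 ≤ K₁ := by nlinarith
  obtain ⟨r₁, hr₁, h1B, h1T, h1ρ, h1δ⟩ : ∃ r₁ : ℝ, 0 < r₁ ∧ r₁ ≤ B.r ∧ B.K * r₁ < T.r0 ∧
      K₁ * r₁ < ρ₁ / 2 ∧ B.K * r₁ * (B.K * r₁) < B.del ^ 2 / 4 := by
    have hT1 : Tendsto (fun t : ℝ => B.K * t) (𝓝[>] 0) (𝓝 0) := by
      have h1 : Continuous fun t : ℝ => B.K * t := by fun_prop
      have h2 := (h1.tendsto 0).mono_left (nhdsWithin_le_nhds : 𝓝[>] (0 : ℝ) ≤ 𝓝 0)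
      simpa using h2
    have hT2 : Tendsto (fun t : ℝ => K₁ * t) (𝓝[>] 0) (𝓝 0) := by
      have h1 : Continuous fun t : ℝ => K₁ * t := by fun_prop
      have h2 := (h1.tendsto 0).mono_left (nhdsWithin_le_nhds : 𝓝[>] (0 : ℝ) ≤ 𝓝 0)
      simpa using h2
    have hT3 : Tendsto (fun t : ℝ => B.K * t * (B.K * t)) (𝓝[>] 0) (𝓝 0) := by
      have h1 : Continuous fun t : ℝ => B.K * t * (B.K * t) := by fun_prop
      have h2 := (h1.tendsto 0).mono_left (nhdsWithin_le_nhds : 𝓝[>] (0 : ℝ) ≤ 𝓝 0)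
      simpa using h2
    have hE1 : ∀ᶠ t in 𝓝[>] (0 : ℝ), t ∈ Ioo 0 B.r := Ioo_mem_nhdsGT hBr
    obtain ⟨t, ⟨⟨h1, h2⟩, h3⟩, h4⟩ := (((hE1.and (hT1.eventually_lt_const hr0)).and
      (hT2.eventually_lt_const (half_pos hρ₁))).and
      (hT3.eventually_lt_const (by positivity : 0 < B.del ^ 2 / 4))).exists
    exact ⟨t, h1.1, h1.2.le, h2, h3, h4⟩
  have hbr : ball (0 : ℂ) r₁ ⊆ ball (0 : ℂ) B.r := ball_subset_ball h1B
  have heta : ∀ om ∈ ball (0 : ℂ) r₁, ‖B.eta om‖ ≤ B.K * ‖om‖ ∧ ‖B.eta om‖ < T.r0 ∧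
      T.K0 * ‖B.eta om‖ ≤ K₁ * ‖om‖ ∧ ‖B.eta om ^ 2‖ < B.del ^ 2 / 4 := by
    intro om hom
    have h1 := B.eta_le om (hbr hom)
    have h2 := mem_ball_zero_iff.1 hom
    have h0 := norm_nonneg (B.eta om)
    have h3 : B.K * ‖om‖ ≤ B.K * r₁ := mul_le_mul_of_nonneg_left h2.le (by linarith)
    refine ⟨h1, by linarith, ?_, ?_⟩
    · have := mul_le_mul_of_nonneg_left h1 (by linarith : 0 ≤ T.K0)
      rw [hK₁, mul_assoc]
      exact this
    · rw [norm_pow]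
      have h4 : ‖B.eta om‖ ≤ B.K * r₁ := h1.trans h3
      nlinarith
  have hdom : ∀ om ∈ ball (0 : ℂ) r₁, ∀ x : ℂ, |x.im| < G.h - K₁ * ‖om‖ →
      |x.im| < G.h - T.K0 * ‖B.eta om‖ ∧ |x.im| < G.h := by
    intro om hom x hx
    have h1 := (heta om hom).2.2.1
    have h2 : 0 ≤ K₁ * ‖om‖ := mul_nonneg (by linarith) (norm_nonneg _)
    exact ⟨by linarith, by linarith⟩
  have hδ1 : B.del ^ 2 / 4 ≤ B.del := by nlinarith
  have hedel : ∀ om ∈ ball (0 : ℂ) r₁, B.eta om ^ 2 ∈ ball (0 : ℂ) B.del := by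
    intro om hom
    rw [mem_ball_zero_iff]
    exact (heta om hom).2.2.2.trans_le hδ1
  -- the function `S1`
  have hgy : ∀ x : ℂ, ‖x - I * G.h‖ < ρ₁ → |x.im| < G.h → G.g x * y (x - I * G.h) ^ 2 = -1 := by
    intro x hx him
    have h1 : x - I * G.h ≠ 0 := by
      intro h0
      rw [sub_eq_zero] at h0
      rw [h0] at him
      simp at him
      have := le_abs_self G.h
      linarith
    have h2 := Y.g_eq 0 (x - I * G.h) (mem_ball_zero_iff.2 (hx.trans_le hρ₁y)) h1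
    have e1 : ((0 : ℤ) : ℂ) / 2 + I * G.h + (x - I * G.h) = x := by
      push_cast
      ring
    rwa [e1] at h2
  have hS1 : ∀ om ∈ ball (0 : ℂ) r₁, ∀ x : ℂ, ‖x - I * G.h‖ < ρ₁ → |x.im| < G.h - K₁ * ‖om‖ →
      (y (x - I * G.h) / rt (B.eta om ^ 2 * G.g x)) ^ 2 =
        y (x - I * G.h) ^ 2 + B.eta om ^ 2 ∧
      y (x - I * G.h) / rt (B.eta om ^ 2 * G.g x) ∈ ball (0 : ℂ) B.del := by
    intro om hom x hx him
    obtain ⟨h1, h2⟩ := hdom om hom x him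
    have h3 := T.small (B.eta om) x (heta om hom).2.1 h1
    obtain ⟨h8, h9, -⟩ := rt_sq (w := B.eta om ^ 2 * G.g x) (by linarith)
    have h10 : 1 - B.eta om ^ 2 * G.g x ≠ 0 := by
      intro h11
      rw [h11, inv_zero] at h8
      exact h9 (pow_eq_zero_iff two_ne_zero |>.1 h8)
    have h4 : (y (x - I * G.h) / rt (B.eta om ^ 2 * G.g x)) ^ 2 =
        y (x - I * G.h) ^ 2 + B.eta om ^ 2 := by
      rw [div_pow, h8, div_inv_eq_mul]
      linear_combination (-B.eta om ^ 2) * hgy x hx h2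
    refine ⟨h4, ?_⟩
    rw [mem_ball_zero_iff]
    have h5 := congrArg norm h4
    rw [norm_pow] at h5
    have h6 : ‖y (x - I * G.h) ^ 2 + B.eta om ^ 2‖ < B.del ^ 2 / 4 + B.del ^ 2 / 4 := by
      refine (norm_add_le _ _).trans_lt ?_
      have h7 := hy2 (x - I * G.h) (mem_ball_zero_iff.2 hx)
      rw [norm_pow]
      have h11 := norm_nonneg (y (x - I * G.h))
      have h12 := (heta om hom).2.2.2
      nlinarith
    rw [← h5] at h6
    have h7 := norm_nonneg (y (x - I * G.h) / rt (B.eta om ^ 2 * G.g x))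
    nlinarith
  -- the point where `bt` is defined
  set xs : ℂ := I * (((G.h - ρ₁ / 2 : ℝ)) : ℂ) with hxs
  have hxs_im : xs.im = G.h - ρ₁ / 2 := by
    rw [hxs]
    simp
  have hxs_abs : |xs.im| = G.h - ρ₁ / 2 := by
    rw [hxs_im, abs_of_nonneg]
    linarith
  have hxs_d : xs - I * G.h = -(I * ((ρ₁ / 2 : ℝ) : ℂ)) := by
    rw [hxs]
    push_cast
    ring
  have hxs_n : ‖xs - I * G.h‖ < ρ₁ := by
    rw [hxs_d, norm_neg, norm_mul, norm_I, one_mul, Complex.norm_real,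
      Real.norm_of_nonneg (by linarith)]
    linarith
  have hxs_dom : ∀ om ∈ ball (0 : ℂ) r₁, |xs.im| < G.h - K₁ * ‖om‖ := by
    intro om hom
    rw [hxs_abs]
    have h2 := mem_ball_zero_iff.1 hom
    have h3 : K₁ * ‖om‖ ≤ K₁ * r₁ := mul_le_mul_of_nonneg_left h2.le (by linarith)
    linarith
  set bt : ℂ → ℂ := fun om => phE G (B.eta om ^ 2) xs - I * G.h -
    prim 0 (kJ σ m1 (cE G)) (y (xs - I * G.h) / rt (B.eta om ^ 2 * G.g xs), B.eta om ^ 2)
    with hbt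
  -- the main identity for `n = 0`
  have hmain : ∀ om ∈ ball (0 : ℂ) r₁, ∀ x : ℂ, ‖x - I * G.h‖ < ρ₁ →
      |x.im| < G.h - K₁ * ‖om‖ →
      prim 0 (kJ σ m1 (cE G)) (y (x - I * G.h) / rt (B.eta om ^ 2 * G.g x), B.eta om ^ 2) =
        phE G (B.eta om ^ 2) x - I * G.h - bt om := by
    intro om hom x hx him
    set Rg : Set ℂ := ball (I * G.h) ρ₁ ∩ {x : ℂ | |x.im| < G.h - K₁ * ‖om‖} with hRg
    have hconv : Convex ℝ Rg := by
      refine (convex_ball _ _).inter ?_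
      have h1 : {x : ℂ | |x.im| < G.h - K₁ * ‖om‖} =
          Complex.imLm ⁻¹' (ball 0 (G.h - K₁ * ‖om‖)) := by
        ext w
        simp [Complex.imLm]
      rw [h1]
      exact (convex_ball _ _).linear_preimage _
    have hopen : IsOpen Rg := by
      refine isOpen_ball.inter ?_
      exact isOpen_lt (by fun_prop) continuous_const
    have hd : ∀ w ∈ Rg, HasDerivWithinAt (fun w => prim 0 (kJ σ m1 (cE G))
        (y (w - I * G.h) / rt (B.eta om ^ 2 * G.g w), B.eta om ^ 2) -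
          phE G (B.eta om ^ 2) w) 0 Rg w := by
      intro w hw
      have hw1 : ‖w - I * G.h‖ < ρ₁ := by
        have := hw.1
        rwa [mem_ball, dist_eq_norm] at this
      have hw2 : |w.im| < G.h - K₁ * ‖om‖ := hw.2
      obtain ⟨h1, h2⟩ := hdom om hom w hw2
      have hwb : w - I * G.h ∈ ball (0 : ℂ) ρ₁ := mem_ball_zero_iff.2 hw1
      obtain ⟨h3, h4⟩ := hS1 om hom w hw1 hw2
      have h5 : HasDerivAt (fun w => prim 0 (kJ σ m1 (cE G))
          (y (w - I * G.h) / rt (B.eta om ^ 2 * G.g w), B.eta om ^ 2))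
          (rt (B.eta om ^ 2 * G.g w) / cE G (B.eta om ^ 2)) w := by
        refine local_der hσ hm hm' hk ha8 (hder _ hwb) (hya _ hwb) (G.an_strip h2) ?_
          (T.small _ _ (heta om hom).2.1 h1) (ball_subset_ball hδa h4)
          (ball_subset_ball hδa (hedel om hom))
        filter_upwards [hopen.mem_nhds hw] with v hv
        have hv1 : ‖v - I * G.h‖ < ρ₁ := by
          have := hv.1
          rwa [mem_ball, dist_eq_norm] at this
        exact hgy v hv1 (hdom om hom v hv.2).2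
      have h6 := T.ph_deriv (B.eta om) w (heta om hom).2.1 h1
      have h7 := h5.sub h6
      rw [sub_self] at h7
      exact h7.hasDerivWithinAt
    have hxR : x ∈ Rg := ⟨by rw [mem_ball, dist_eq_norm]; exact hx, him⟩
    have hsR : xs ∈ Rg := ⟨by rw [mem_ball, dist_eq_norm]; exact hxs_n, hxs_dom om hom⟩
    have h4 := hconv.norm_image_sub_le_of_norm_hasDerivWithin_le
      (f' := fun _ => (0 : ℂ)) (C := 0) hd (fun w _ => by simp) hsR hxR
    rw [zero_mul] at h4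
    have h5 := sub_eq_zero.1 (norm_le_zero_iff.1 h4)
    rw [hbt]
    linear_combination h5
  -- `bt` is analytic
  have hbt_an : AnalyticOnNhd ℂ bt (ball 0 r₁) := by
    intro om hom
    obtain ⟨h1, h2⟩ := hdom om hom xs (hxs_dom om hom)
    obtain ⟨-, h4⟩ := hS1 om hom xs hxs_n (hxs_dom om hom)
    have hea : AnalyticAt ℂ B.eta om := B.eta_an om (hbr hom)
    have a1 : AnalyticAt ℂ (fun om => phE G (B.eta om ^ 2) xs) om :=
      AnalyticAt.comp (g := fun p : ℂ × ℂ => phE G (p.1 ^ 2) p.2)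
        (f := fun om : ℂ => ((B.eta om, xs) : ℂ × ℂ))
        (T.ph_an (B.eta om) xs (heta om hom).2.1 h1) (hea.prod analyticAt_const)
    have h3 := T.small (B.eta om) xs (heta om hom).2.1 h1
    obtain ⟨-, h9, h10⟩ := rt_sq (w := B.eta om ^ 2 * G.g xs) (by linarith)
    have a2 : AnalyticAt ℂ (fun om => B.eta om ^ 2 * G.g xs) om :=
      (hea.pow 2).mul analyticAt_const
    have a3 : AnalyticAt ℂ (fun om => rt (B.eta om ^ 2 * G.g xs)) om :=
      AnalyticAt.comp (g := rt) (f := fun om => B.eta om ^ 2 * G.g xs) h10 a2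
    have a4 : AnalyticAt ℂ (fun om => y (xs - I * G.h) / rt (B.eta om ^ 2 * G.g xs)) om :=
      analyticAt_const.div a3 h9
    have a5 : AnalyticAt ℂ (fun om => prim 0 (kJ σ m1 (cE G))
        (y (xs - I * G.h) / rt (B.eta om ^ 2 * G.g xs), B.eta om ^ 2)) om :=
      AnalyticAt.comp (g := prim 0 (kJ σ m1 (cE G)))
        (f := fun om : ℂ => ((y (xs - I * G.h) / rt (B.eta om ^ 2 * G.g xs),
          B.eta om ^ 2) : ℂ × ℂ))
        (hk.J_an _ ⟨ball_subset_ball hδa h4, ball_subset_ball hδa (hedel om hom)⟩)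
        (a4.prod (hea.pow 2))
    exact (a1.sub analyticAt_const).sub a5
  have hbt_even : ∀ om ∈ ball (0 : ℂ) r₁, bt (-om) = bt om := by
    intro om hom
    have h1 : B.eta (-om) ^ 2 = B.eta om ^ 2 := by
      rw [B.eta_odd om (hbr hom), neg_sq]
    rw [hbt]
    simp only [h1]
  have hbt0 : bt 0 = 0 := by
    rw [hbt]
    simp only [B.eta_zero, zero_pow two_ne_zero, zero_mul, rt_zero, div_one]
    rw [hyl _ (mem_ball_zero_iff.2 hxs_n), T.ph_zero xs (by rw [hxs_abs]; linarith)]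
    ring
  obtain ⟨M, hM, hMb⟩ := even1 hr₁ hbt_an hbt_even
  rw [hbt0] at hMb
  have hKm1 : K₁ ≤ max K₁ (max M (B.K ^ 3)) := le_max_left _ _
  have hKm2 : M ≤ max K₁ (max M (B.K ^ 3)) := (le_max_left _ _).trans (le_max_right _ _)
  have hKm3 : B.K ^ 3 ≤ max K₁ (max M (B.K ^ 3)) := (le_max_right _ _).trans (le_max_right _ _)
  set Kf : ℝ := max K₁ (max M (B.K ^ 3)) with hKf
  set r₂ : ℝ := min (r₁ / 2) ρ₁ with hr₂
  have hr₂1 : r₂ ≤ r₁ / 2 := min_le_left _ _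
  have hr₂ρ : r₂ ≤ ρ₁ := min_le_right _ _
  have hsub1 : ball (0 : ℂ) r₂ ⊆ ball (0 : ℂ) r₁ := ball_subset_ball (by linarith)
  have hsubB : ball (0 : ℂ) r₂ ⊆ ball (0 : ℂ) B.r := hsub1.trans hbr
  have hsubρ : ball (0 : ℂ) ρ₁ ⊆ ball (0 : ℂ) B.rho := ball_subset_ball hρ₁B
  have hesq : ∀ om ∈ ball (0 : ℂ) r₂, B.eta om ^ 2 ∈ ball (0 : ℂ) B.rho :=
    fun om hom => B.eta_sq om (hsubB hom)
  refine ⟨{
    r := r₂
    rho := ρ₁
    K := Kf
    eta := B.eta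
    s := fun om z => B.S (z, B.eta om ^ 2)
    bt := bt
    r_pos := lt_min (half_pos hr₁) hρ₁
    rho_pos := hρ₁
    r_le := hr₂ρ
    one_le_K := hK₁1.trans hKm1
    eta_an := fun om hom => B.eta_an om (hsubB hom)
    eta_zero := B.eta_zero
    eta_odd := fun om hom => B.eta_odd om (hsubB hom)
    eta_conj := fun om hom => B.eta_conj om (hsubB hom)
    eta_close := fun om hom => B.eta_close om (hsubB hom)
    eta_lt := fun om hom => (heta om (hsub1 hom)).2.1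
    K_eta := fun om hom => (heta om (hsub1 hom)).2.2.1.trans
      (mul_le_mul_of_nonneg_right hKm1 (norm_nonneg _))
    s_an := ?_
    s_odd := fun om hom z hz => B.S_odd z (hsubρ hz) _ (hesq om hom)
    s_even := ?_
    s_conj := ?_
    s_inj := ?_
    s_close := ?_
    J_s := fun om hom z hz => B.S_right z (hsubρ hz) _ (hesq om hom)
    eta_half := fun om hom => B.eta_S om (hsubB hom)
    bt_an := fun om hom => hbt_an om (hsub1 hom)
    bt_even := fun om hom => hbt_even om (hsub1 hom)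
    bt_le := ?_
    link := ?_ }⟩
  · rintro ⟨om, z⟩ ⟨hom, hz⟩
    have hom' : om ∈ ball (0 : ℂ) r₂ := hom
    have hz' : z ∈ ball (0 : ℂ) ρ₁ := hz
    have a1 : AnalyticAt ℂ (fun p : ℂ × ℂ => B.eta p.1) (om, z) :=
      AnalyticAt.comp (g := B.eta) (f := fun p : ℂ × ℂ => p.1) (B.eta_an om (hsubB hom'))
        analyticAt_fst
    exact AnalyticAt.comp (g := B.S) (f := fun p : ℂ × ℂ => ((p.2, B.eta p.1 ^ 2) : ℂ × ℂ))
      (B.S_an (z, B.eta om ^ 2) ⟨hsubρ hz', hesq om hom'⟩) (analyticAt_snd.prod (a1.pow 2))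
  · intro om hom z _
    show B.S (z, B.eta (-om) ^ 2) = B.S (z, B.eta om ^ 2)
    rw [B.eta_odd om (hsubB hom), neg_sq]
  · intro om hom z hz
    show B.S (conj z, B.eta (conj om) ^ 2) = conj (B.S (z, B.eta om ^ 2))
    rw [B.eta_conj om (hsubB hom), ← map_pow]
    exact B.S_conj z (hsubρ hz) _ (hesq om hom)
  · intro om hom z hz z' hz' hzz
    have h1 := B.S_right z (hsubρ hz) _ (hesq om hom)
    have h2 := B.S_right z' (hsubρ hz') _ (hesq om hom)
    have h3 : B.S (z, B.eta om ^ 2) = B.S (z', B.eta om ^ 2) := hzz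
    rw [h3, h2] at h1
    exact h1.symm
  · intro om hom z hz
    have h1 := B.S_close z (hsubρ hz) _ (hesq om hom)
    refine h1.trans ?_
    have h2 := (heta om (hsub1 hom)).1
    have h3 := norm_nonneg (B.eta om)
    have h4 := norm_nonneg om
    have h5 := norm_nonneg z
    have h6 : ‖B.eta om ^ 2‖ ≤ B.K ^ 2 * ‖om‖ ^ 2 := by
      rw [norm_pow, ← mul_pow]
      exact pow_le_pow_left₀ h3 h2 2
    have h7 : ‖z‖ ^ 2 ≤ B.K ^ 2 * ‖z‖ ^ 2 :=
      le_mul_of_one_le_left (sq_nonneg _) (one_le_pow₀ hBK)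
    have h8 : ‖z‖ ^ 2 + ‖B.eta om ^ 2‖ ≤ B.K ^ 2 * (‖om‖ + ‖z‖) ^ 2 := by
      have h9 : 0 ≤ B.K ^ 2 * (2 * ‖om‖ * ‖z‖) := by positivity
      have h10 : B.K ^ 2 * (‖om‖ + ‖z‖) ^ 2 =
          B.K ^ 2 * ‖z‖ ^ 2 + B.K ^ 2 * ‖om‖ ^ 2 + B.K ^ 2 * (2 * ‖om‖ * ‖z‖) := by ring
      rw [h10]
      linarith
    calc B.K * ‖z‖ * (‖z‖ ^ 2 + ‖B.eta om ^ 2‖)
        ≤ B.K * ‖z‖ * (B.K ^ 2 * (‖om‖ + ‖z‖) ^ 2) :=
          mul_le_mul_of_nonneg_left h8 (by positivity)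
      _ = B.K ^ 3 * ‖z‖ * (‖om‖ + ‖z‖) ^ 2 := by ring
      _ ≤ Kf * ‖z‖ * (‖om‖ + ‖z‖) ^ 2 :=
          mul_le_mul_of_nonneg_right (mul_le_mul_of_nonneg_right hKm3 h5) (sq_nonneg _)
  · intro om hom
    have h1 := hMb om (mem_closedBall_zero_iff.2 (by
      have := mem_ball_zero_iff.1 hom
      linarith))
    rw [sub_zero] at h1
    exact h1.trans (mul_le_mul_of_nonneg_right hKm2 (by positivity))
  · intro n om x hom hx hd
    have hom' : om ∈ ball (0 : ℂ) r₂ := mem_ball_zero_iff.2 hom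
    have hom1 := hsub1 hom'
    -- translation to `n = 0`
    set x' : ℂ := x - n / 2 with hx'
    have hxx : x = x' + n / 2 := by
      rw [hx']
      ring
    have him : x'.im = x.im := by
      have e2 : ((n : ℂ) / 2) = (((n : ℝ) / 2 : ℝ) : ℂ) := by push_cast; ring
      rw [hx', sub_im, e2, ofReal_im, sub_zero]
    have e1 : x - (n / 2 + I * G.h) = x' - I * G.h := by
      rw [hx']
      ring
    have hd' : ‖x' - I * G.h‖ < ρ₁ := by
      rw [← e1]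
      exact hd
    have hx'' : |x'.im| < G.h - K₁ * ‖om‖ := by
      rw [him]
      have : K₁ * ‖om‖ ≤ Kf * ‖om‖ := mul_le_mul_of_nonneg_right hKm1 (norm_nonneg _)
      linarith
    have h1 := hmain om hom1 x' hd' hx''
    obtain ⟨h2, h3⟩ := hS1 om hom1 x' hd' hx''
    have h4 := T.ph_per (heta om hom1).2.1 n x' (hdom om hom1 x' hx'').1
    have h5 : phE G (B.eta om ^ 2) x - (n / 2 + I * G.h) - bt om =
        phE G (B.eta om ^ 2) x' - I * G.h - bt om := by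
      rw [hxx, h4]
      ring
    show B.eta om ^ 2 - B.S (phE G (B.eta om ^ 2) x - (n / 2 + I * G.h) - bt om,
      B.eta om ^ 2) ^ 2 = -B.S (x - (n / 2 + I * G.h), B.eta 0 ^ 2) ^ 2
    rw [h5, ← h1, B.S_left _ h3 _ (hedel om hom1), h2, B.eta_zero, zero_pow two_ne_zero, e1,
      hyS _ (mem_ball_zero_iff.2 hd')]
    ring

end Pool.Agent.MP_ae5b4e_an_LOC
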