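import Mathlib
import Pool.Agent.Lib.MP_ae5b4e_an_LOC.NeA

/-!
# MP_ae5b4e_an, project NE: the limit of a sequence of solutions with small `m - r' / 2`
-/

noncomputable section

namespace Pool.Agent.MP_ae5b4e_an_LOC

open Real Set Filter Topology MeasureTheory intervalIntegral Matrix
open scoped ContDiff
open Pool.Agent.MP_ae5b4e_an_hopf
open Pool.Agent.MP_ae5b4e_an_RG
open Pool.Agent.MP_ae5b4e_an_RIG
open Pool.Agent.MP_ae5b4e_an_NC

private lemma unif_pi {P : ℕ → ℝ → Fin 3 → ℝ} {Q : ℝ → Fin 3 → ℝ}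
    (h : ∀ i, TendstoUniformly (fun k x => P k x i) (fun x => Q x i) atTop) :
    TendstoUniformly P Q atTop := by
  rw [Metric.tendstoUniformly_iff]
  intro ε hε
  have h1 : ∀ᶠ k in atTop, ∀ i : Fin 3, ∀ x, dist (Q x i) (P k x i) < ε :=
    eventually_all.2 fun i => Metric.tendstoUniformly_iff.1 (h i) ε hε
  filter_upwards [h1] with k hk x
  rw [dist_pi_lt_iff hε]
  exact fun i => hk i x

/-- THE LIMIT of a sequence of normalized solutions for which all the derivatives of `m - r' / 2`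
at `0` tend to zero -/
theorem exists_limit {K δ : ℝ} (hK : 0 ≤ K) (hδ : 0 < δ) {P : ℕ → ℝ → Fin 3 → ℝ}
    {U : ℕ → ℝ → ℝ → ℝ} {r m : ℕ → ℝ → ℝ} (h : ∀ k, NSK K δ (P k) (U k) (r k) (m k))
    (hm : ∀ j : ℕ, Tendsto (fun k => deriv^[j] (fun x => m k x - deriv (r k) x / 2) 0) atTop
      (𝓝 0)) :
    ∃ (φ : ℕ → ℕ) (P' : ℕ → ℝ → Fin 3 → ℝ) (Q : ℝ → Fin 3 → ℝ) (s m0 : ℝ → ℝ), StrictMono φ ∧
      (∀ k, NSK K δ (P' k) (U (φ k)) (r (φ k)) (m (φ k))) ∧
      (∀ k, ∃ M : Matrix (Fin 3) (Fin 3) ℝ, M.det = 1 ∧ P' k = fun x => M *ᵥ P (φ k) x) ∧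
      NLim Q s m0 ∧ (∀ x, m0 x = deriv s x / 2) ∧
      TendstoUniformly P' Q atTop ∧ TendstoUniformly (fun k => deriv (P' k)) (deriv Q) atTop ∧
      TendstoUniformly (fun k => deriv (deriv (P' k))) (deriv (deriv Q)) atTop ∧
      TendstoUniformly (fun k => r (φ k)) s atTop ∧
      TendstoUniformly (fun k => m (φ k)) (fun x => deriv s x / 2) atTop ∧
      (∀ j : ℕ, TendstoUniformly (fun k => deriv^[j] (r (φ k))) (deriv^[j] s) atTop) ∧
      (∀ j : ℕ, TendstoUniformly (fun k => deriv^[j] (m (φ k)))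
        (deriv^[j] (fun x => deriv s x / 2)) atTop) := by
  have hF := fun k => (h k).frame
  choose M hM hN e0 e1 e2 using hF
  obtain ⟨φ, hφ, Q, s, m0, hQ, ur, um, uP⟩ := ne_limit hK hδ hN e0 e1 e2
  have hθ := theta_zero hQ (rk := fun k => r (φ k)) (mk := fun k => m (φ k))
    (fun k => (h (φ k)).sr) (fun k => (h (φ k)).sm) ur um
    (fun j => (hm j).comp hφ.tendsto_atTop)
  have hm0 : m0 = fun x => deriv s x / 2 := funext hθ
  have hit : ∀ {Q : ℝ → Fin 3 → ℝ}, ContDiff ℝ ∞ Q → ∀ i,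
      deriv (fun x => Q x i) = fun x => deriv Q x i := fun h i => funext fun x =>
    (hasDerivAt_pi.1 ((h.differentiable (by norm_num) x).hasDerivAt) i).deriv
  have sQ1 : ContDiff ℝ ∞ (deriv Q) := (contDiff_infty_iff_deriv.1 hQ.sP).2
  refine ⟨φ, fun k x => M (φ k) *ᵥ P (φ k) x, Q, s, m0, hφ, fun k => hN (φ k),
    fun k => ⟨M (φ k), hM (φ k), rfl⟩, hQ, hθ, ?_, ?_, ?_, ur 0, ?_, ur, ?_⟩
  · exact unif_pi fun i => uP i 0
  · refine unif_pi fun i => ?_
    have h1 : TendstoUniformly (fun k => deriv (fun x => (M (φ k) *ᵥ P (φ k) x) i))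
        (deriv (fun x => Q x i)) atTop := uP i 1
    rw [hit hQ.sP] at h1
    have h2 : (fun k => deriv (fun x => (M (φ k) *ᵥ P (φ k) x) i)) =
        fun k x => deriv (fun x => M (φ k) *ᵥ P (φ k) x) x i := funext fun k =>
      hit (hN (φ k)).sys.curve.smooth i
    rw [h2] at h1
    exact h1
  · refine unif_pi fun i => ?_
    have h1 : TendstoUniformly (fun k => deriv (deriv (fun x => (M (φ k) *ᵥ P (φ k) x) i)))
        (deriv (deriv (fun x => Q x i))) atTop := uP i 2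
    rw [hit hQ.sP, hit sQ1] at h1
    have h2 : (fun k => deriv (deriv (fun x => (M (φ k) *ᵥ P (φ k) x) i))) =
        fun k x => deriv (deriv (fun x => M (φ k) *ᵥ P (φ k) x)) x i := funext fun k => by
      rw [hit (hN (φ k)).sys.curve.smooth i, hit (hN (φ k)).sys.curve.smooth1 i]
    rw [h2] at h1
    exact h1
  · rw [← hm0]
    exact um 0
  · rw [← hm0]
    exact um

end Pool.Agent.MP_ae5b4e_an_LOC
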