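import Mathlib
import Pool.Agent.Lib.MP_ae5b4e_an_LOC.NeA
import Pool.Agent.Lib.MP_ae5b4e_an_RG.Circ
import Pool.Agent.Lib.MP_ae5b4e_an_SM.PsiEx

/-!
# MP_ae5b4e_an, project NE: a limit curve with `m = r' / 2` is a conic

The curve is `M⁻¹ (lam (cos σ, sin σ, 1))` with `det M = 1`, `lam σ' = 1`, `σ (x + 1) = σ x + 2 π`.
-/

noncomputable section

namespace Pool.Agent.MP_ae5b4e_an_LOC

open Real Set Filter Topology MeasureTheory intervalIntegral Matrix
open scoped ContDiff
open Pool.Agent.MP_ae5b4e_an_hopf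
open Pool.Agent.MP_ae5b4e_an_RG
open Pool.Agent.MP_ae5b4e_an_RIG
open Pool.Agent.MP_ae5b4e_an_NC

namespace NeC

variable {Q : ℝ → Fin 3 → ℝ} {s m : ℝ → ℝ}

lemma hd0 (h : NLim Q s m) (x : ℝ) : HasDerivAt Q (deriv Q x) x :=
  ((contDiff_infty_iff_deriv.1 h.sP).1 x).hasDerivAt

lemma sQ1 (h : NLim Q s m) : ContDiff ℝ ∞ (deriv Q) := (contDiff_infty_iff_deriv.1 h.sP).2

lemma sQ2 (h : NLim Q s m) : ContDiff ℝ ∞ (deriv (deriv Q)) :=
  (contDiff_infty_iff_deriv.1 (sQ1 h)).2

lemma hd1 (h : NLim Q s m) (x : ℝ) : HasDerivAt (deriv Q) (deriv (deriv Q) x) x :=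
  ((contDiff_infty_iff_deriv.1 (sQ1 h)).1 x).hasDerivAt

lemma hd2 (h : NLim Q s m) (x : ℝ) : HasDerivAt (deriv (deriv Q)) (-(s x) • deriv Q x - m x • Q x) x := by
  rw [← h.ode x]
  exact ((contDiff_infty_iff_deriv.1 (sQ2 h)).1 x).hasDerivAt

/-- the invariant quadratic form -/
lemma form (h : NLim Q s m) (hm : ∀ x, m x = deriv s x / 2) (v : Fin 3 → ℝ) (x : ℝ) :
    det3 (Q x) v (deriv (deriv Q) x) ^ 2 -
      2 * det3 v (deriv Q x) (deriv (deriv Q) x) * det3 (Q x) (deriv Q x) v +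
      s x * det3 (Q x) (deriv Q x) v ^ 2 = v 1 ^ 2 - 2 * v 0 * v 2 + s 0 * v 2 ^ 2 := by
  set F : ℝ → ℝ := fun x => det3 (Q x) v (deriv (deriv Q) x) ^ 2 -
      2 * det3 v (deriv Q x) (deriv (deriv Q) x) * det3 (Q x) (deriv Q x) v +
      s x * det3 (Q x) (deriv Q x) v ^ 2 with hF
  have hd : ∀ x, HasDerivAt F 0 x := by
    intro x
    have d0 := hd0 h x
    have d1 := hd1 h x
    have d2 := hd2 h x
    have cv := hasDerivAt_const x v
    have b1 := hasDerivAt_det3 d0 cv d2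
    have b2 := hasDerivAt_det3 cv d1 d2
    have b3 := hasDerivAt_det3 d0 d1 cv
    have ds := ((contDiff_infty_iff_deriv.1 h.sr).1 x).hasDerivAt
    refine (((b1.pow 2).sub ((b2.const_mul 2).mul b3)).add (ds.mul (b3.pow 2))).congr_deriv ?_
    rw [hm x]
    unfold det3
    simp only [Pi.sub_apply, Pi.smul_apply, smul_eq_mul, Pi.zero_apply, Pi.pow_apply, Pi.mul_apply]
    ring
  have h1 : F x = F 0 := is_const_of_deriv_eq_zero (fun x => (hd x).differentiableAt)
    (fun x => (hd x).deriv) x 0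
  have h2 : F 0 = v 1 ^ 2 - 2 * v 0 * v 2 + s 0 * v 2 ^ 2 := by
    simp only [hF, h.f0, h.f1, h.f2]
    unfold det3
    simp
  rw [← h2, ← h1]

lemma form_Q (h : NLim Q s m) (hm : ∀ x, m x = deriv s x / 2) (x : ℝ) :
    Q x 1 ^ 2 - 2 * Q x 0 * Q x 2 + s 0 * Q x 2 ^ 2 = 0 := by
  rw [← form h hm (Q x) x]
  unfold det3
  ring

lemma form_Q1 (h : NLim Q s m) (hm : ∀ x, m x = deriv s x / 2) (x : ℝ) :
    deriv Q x 1 ^ 2 - 2 * deriv Q x 0 * deriv Q x 2 + s 0 * deriv Q x 2 ^ 2 = 1 := by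
  rw [← form h hm (deriv Q x) x]
  have h1 := h.wr x
  unfold Wr at h1
  rw [h1]
  unfold det3
  ring

end NeC

/-- A limit curve with `m = r' / 2` is a conic. -/
theorem conic_rep {Q : ℝ → Fin 3 → ℝ} {s m : ℝ → ℝ} (h : NLim Q s m)
    (hm : ∀ x, m x = deriv s x / 2) :
    ∃ (M : Matrix (Fin 3) (Fin 3) ℝ) (σ lam : ℝ → ℝ), M.det = 1 ∧
      (∀ x, M *ᵥ Q x = lift circ1 σ lam x) ∧ (∀ x, 0 < lam x) ∧ (∀ x, 0 < deriv σ x) ∧
      (∀ x, lam x * deriv σ x = 1) ∧ (∀ x, σ (x + 1) = σ x + 2 * π) ∧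
      (∀ x, lam (x + 1) = lam x) ∧ AnalyticOnNhd ℝ σ univ ∧ AnalyticOnNhd ℝ lam univ ∧
      σ 0 = 0 := by
  set c : ℝ := (√2)⁻¹ with hc
  have hc2 : c ^ 2 = 1 / 2 := by
    rw [hc, inv_pow, Real.sq_sqrt (by norm_num)]
    norm_num
  have hc0 : 0 < c := by positivity
  set s0 := s 0 with hs0
  set M : Matrix (Fin 3) (Fin 3) ℝ :=
    !![c, 0, -(c * (1 + s0 / 2)); 0, 1, 0; c, 0, c * (1 - s0 / 2)] with hM
  have hMd : M.det = 1 := by
    rw [hM, Matrix.det_fin_three]
    simp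
    linear_combination (2:ℝ) * hc2
  have hMv : ∀ v : Fin 3 → ℝ, M *ᵥ v = ![c * v 0 - c * (1 + s0 / 2) * v 2, v 1,
      c * v 0 + c * (1 - s0 / 2) * v 2] := by
    intro v
    funext i
    fin_cases i
    · simp [hM, Matrix.mulVec, dotProduct, Fin.sum_univ_three]
      ring
    · simp [hM, Matrix.mulVec, dotProduct, Fin.sum_univ_three]
    · simp [hM, Matrix.mulVec, dotProduct, Fin.sum_univ_three]
  set X : ℝ → ℝ := fun x => c * Q x 0 - c * (1 + s0 / 2) * Q x 2 with hX
  set Y : ℝ → ℝ := fun x => Q x 1 with hY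
  set Z : ℝ → ℝ := fun x => c * Q x 0 + c * (1 - s0 / 2) * Q x 2 with hZ
  have dQ : ∀ x i, HasDerivAt (fun x => Q x i) (deriv Q x i) x := fun x =>
    hasDerivAt_pi.1 (NeC.hd0 h x)
  have dQ1 : ∀ x i, HasDerivAt (fun x => deriv Q x i) (deriv (deriv Q) x i) x := fun x =>
    hasDerivAt_pi.1 (NeC.hd1 h x)
  set X1 : ℝ → ℝ := fun x => c * deriv Q x 0 - c * (1 + s0 / 2) * deriv Q x 2 with hX1
  set Y1 : ℝ → ℝ := fun x => deriv Q x 1 with hY1
  set Z1 : ℝ → ℝ := fun x => c * deriv Q x 0 + c * (1 - s0 / 2) * deriv Q x 2 with hZ1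
  set X2 : ℝ → ℝ := fun x => c * deriv (deriv Q) x 0 - c * (1 + s0 / 2) * deriv (deriv Q) x 2
    with hX2
  set Y2 : ℝ → ℝ := fun x => deriv (deriv Q) x 1 with hY2
  set Z2 : ℝ → ℝ := fun x => c * deriv (deriv Q) x 0 + c * (1 - s0 / 2) * deriv (deriv Q) x 2
    with hZ2
  have dX : ∀ x, HasDerivAt X (X1 x) x := fun x => ((dQ x 0).const_mul c).sub ((dQ x 2).const_mul _)
  have dY : ∀ x, HasDerivAt Y (Y1 x) x := fun x => dQ x 1
  have dZ : ∀ x, HasDerivAt Z (Z1 x) x := fun x => ((dQ x 0).const_mul c).add ((dQ x 2).const_mul _)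
  have dX1 : ∀ x, HasDerivAt X1 (X2 x) x := fun x =>
    ((dQ1 x 0).const_mul c).sub ((dQ1 x 2).const_mul _)
  have dY1 : ∀ x, HasDerivAt Y1 (Y2 x) x := fun x => dQ1 x 1
  have dZ1 : ∀ x, HasDerivAt Z1 (Z2 x) x := fun x =>
    ((dQ1 x 0).const_mul c).add ((dQ1 x 2).const_mul _)
  have q0 : ∀ x, X x ^ 2 + Y x ^ 2 = Z x ^ 2 := by
    intro x
    have h1 := NeC.form_Q h hm x
    simp only [hX, hY, hZ]
    linear_combination h1 + (-4 * Q x 0 * Q x 2 + 2 * s0 * Q x 2 ^ 2) * hc2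
  have q1 : ∀ x, X1 x ^ 2 + Y1 x ^ 2 = Z1 x ^ 2 + 1 := by
    intro x
    have h1 := NeC.form_Q1 h hm x
    simp only [hX1, hY1, hZ1]
    linear_combination h1 + (-4 * deriv Q x 0 * deriv Q x 2 + 2 * s0 * deriv Q x 2 ^ 2) * hc2
  have hdet : ∀ x, X x * (Y1 x * Z2 x - Z1 x * Y2 x) - Y x * (X1 x * Z2 x - Z1 x * X2 x) +
      Z x * (X1 x * Y2 x - Y1 x * X2 x) = 1 := by
    intro x
    have h1 := h.wr x
    unfold Wr det3 at h1
    simp only [hX, hY, hZ, hX1, hY1, hZ1, hX2, hY2, hZ2]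
    linear_combination h1 + 2 * (Q x 0 * (deriv Q x 1 * deriv (deriv Q) x 2 -
      deriv Q x 2 * deriv (deriv Q) x 1) - Q x 1 * (deriv Q x 0 * deriv (deriv Q) x 2 -
      deriv Q x 2 * deriv (deriv Q) x 0) + Q x 2 * (deriv Q x 0 * deriv (deriv Q) x 1 -
      deriv Q x 1 * deriv (deriv Q) x 0)) * hc2
  have hcZ : Continuous Z := continuous_iff_continuousAt.2 fun x => (dZ x).continuousAt
  have hZne : ∀ x, Z x ≠ 0 := by
    intro x hx
    have h1 := q0 x
    rw [hx] at h1
    have h2 : X x = 0 := by nlinarith [sq_nonneg (X x), sq_nonneg (Y x)]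
    have h3 : Y x = 0 := by nlinarith [sq_nonneg (X x), sq_nonneg (Y x)]
    have h4 := hdet x
    rw [h2, h3, hx] at h4
    norm_num at h4
  have hZ0 : Z 0 = c := by
    simp only [hZ, h.f0]
    simp
  have hZp : ∀ x, 0 < Z x := by
    intro x
    by_contra hneg
    push Not at hneg
    obtain ⟨y, hy⟩ := mem_range_of_exists_le_of_exists_ge hcZ ⟨x, hneg⟩ ⟨0, by
      rw [hZ0]
      exact hc0.le⟩
    exact hZne y hy
  -- the point on the unit circle
  set u : ℝ → ℝ := fun x => X x / Z x with hu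
  set v : ℝ → ℝ := fun x => Y x / Z x with hv
  have huv : ∀ x, u x ^ 2 + v x ^ 2 = 1 := by
    intro x
    have := hZne x
    simp only [hu, hv]
    field_simp
    exact q0 x
  set σ : ℝ → ℝ := fun x => ∫ t in (0:ℝ)..x, (Z t)⁻¹ with hσ
  have hcZi : Continuous fun t => (Z t)⁻¹ := hcZ.inv₀ hZne
  have dσ : ∀ x, HasDerivAt σ (Z x)⁻¹ x := fun x =>
    intervalIntegral.integral_hasDerivAt_right (hcZi.intervalIntegrable _ _)
      (hcZi.stronglyMeasurableAtFilter _ _) hcZi.continuousAt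
  -- the derivative of the first two equations
  have p0 : ∀ x, X x * X1 x + Y x * Y1 x = Z x * Z1 x := by
    intro x
    have h1 := ((dX x).pow 2).add ((dY x).pow 2)
    have h2 := (dZ x).pow 2
    have h3 : (fun x => X x ^ 2 + Y x ^ 2) = fun x => Z x ^ 2 := funext q0
    have h4 : HasDerivAt (fun x => X x ^ 2 + Y x ^ 2) (2 * X x * X1 x + 2 * Y x * Y1 x) x := by
      refine h1.congr_deriv ?_
      ring
    rw [h3] at h4
    have h5 : HasDerivAt (fun x => Z x ^ 2) (2 * Z x * Z1 x) x := by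
      refine h2.congr_deriv ?_
      ring
    have h6 := h4.unique h5
    linarith
  have r0 : ∀ x, X x * X2 x + Y x * Y2 x = Z x * Z2 x - 1 := by
    intro x
    have h1 := ((dX x).mul (dX1 x)).add ((dY x).mul (dY1 x))
    have h2 := (dZ x).mul (dZ1 x)
    have h3 : (X * X1 + Y * Y1) = Z * Z1 := funext p0
    rw [h3] at h1
    have h4 := h1.unique h2
    have h5 := q1 x
    linarith
  -- the angular velocity
  have ea : ∀ x, Z x * (Y x * Z1 x - Z x * Y1 x) = -(X x * (X x * Y1 x - Y x * X1 x)) := by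
    intro x
    linear_combination (-Y x) * p0 x + Y1 x * q0 x
  have eb : ∀ x, Z x * (Z x * X1 x - X x * Z1 x) = -(Y x * (X x * Y1 x - Y x * X1 x)) := by
    intro x
    linear_combination X x * p0 x - X1 x * q0 x
  have hk : ∀ x, X x * Y1 x - Y x * X1 x = Z x := by
    intro x
    linear_combination Z x * hdet x - X2 x * ea x - Y2 x * eb x +
      (X x * Y1 x - Y x * X1 x) * r0 x
  have ea' : ∀ x, Y x * Z1 x - Z x * Y1 x = -X x := by
    intro x
    have h1 := ea x
    rw [hk x] at h1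
    have h2 : Z x * (Y x * Z1 x - Z x * Y1 x) = Z x * -X x := by rw [h1]; ring
    exact mul_left_cancel₀ (hZne x) h2
  have eb' : ∀ x, Z x * X1 x - X x * Z1 x = -Y x := by
    intro x
    have h1 := eb x
    rw [hk x] at h1
    have h2 : Z x * (Z x * X1 x - X x * Z1 x) = Z x * -Y x := by rw [h1]; ring
    exact mul_left_cancel₀ (hZne x) h2
  have du : ∀ x, HasDerivAt u (-((Z x)⁻¹ * v x)) x := by
    intro x
    refine ((dX x).div (dZ x) (hZne x)).congr_deriv ?_
    have := hZne x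
    have h1 := eb' x
    have e1 : X1 x * Z x - X x * Z1 x = -Y x := by linarith
    rw [e1]
    simp only [hv]
    field_simp
  have dv : ∀ x, HasDerivAt v ((Z x)⁻¹ * u x) x := by
    intro x
    refine ((dY x).div (dZ x) (hZne x)).congr_deriv ?_
    have := hZne x
    have h1 := ea' x
    have e1 : Y1 x * Z x - Y x * Z1 x = X x := by linarith
    rw [e1]
    simp only [hu]
    field_simp
  have hσ0 : σ 0 = 0 := intervalIntegral.integral_same
  have hu0 : u 0 = 1 := by
    simp only [hu, hX]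
    rw [hZ0, h.f0]
    simp only [Matrix.cons_val_zero, Matrix.cons_val]
    field_simp
    ring
  have hv0 : v 0 = 0 := by
    simp only [hv, hY]
    rw [h.f0]
    simp
  have hp : ∀ x, Real.cos (σ x) * u x + Real.sin (σ x) * v x = 1 := by
    intro x
    have hd : ∀ x, HasDerivAt (fun x => Real.cos (σ x) * u x + Real.sin (σ x) * v x) 0 x := by
      intro x
      refine (((dσ x).cos.mul (du x)).add ((dσ x).sin.mul (dv x))).congr_deriv ?_
      ring
    have h1 := is_const_of_deriv_eq_zero (fun x => (hd x).differentiableAt)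
      (fun x => (hd x).deriv) x 0
    rw [h1, hσ0, hu0, hv0]
    simp
  have hq : ∀ x, -Real.sin (σ x) * u x + Real.cos (σ x) * v x = 0 := by
    intro x
    have hd : ∀ x, HasDerivAt (fun x => -Real.sin (σ x) * u x + Real.cos (σ x) * v x) 0 x := by
      intro x
      refine (((dσ x).sin.neg.mul (du x)).add ((dσ x).cos.mul (dv x))).congr_deriv ?_
      simp only [Pi.neg_apply]
      ring
    have h1 := is_const_of_deriv_eq_zero (fun x => (hd x).differentiableAt)
      (fun x => (hd x).deriv) x 0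
    rw [h1, hσ0, hu0, hv0]
    simp
  have huc : ∀ x, u x = Real.cos (σ x) := by
    intro x
    have h1 := hp x
    have h2 := hq x
    have h3 := Real.sin_sq_add_cos_sq (σ x)
    linear_combination Real.cos (σ x) * h1 - Real.sin (σ x) * h2 - u x * h3
  have hvs : ∀ x, v x = Real.sin (σ x) := by
    intro x
    have h1 := hp x
    have h2 := hq x
    have h3 := Real.sin_sq_add_cos_sq (σ x)
    linear_combination Real.sin (σ x) * h1 + Real.cos (σ x) * h2 - v x * h3
  have hrep : ∀ x, M *ᵥ Q x = lift circ1 σ Z x := by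
    intro x
    rw [hMv]
    have h1 : X x = Z x * Real.cos (σ x) := by
      rw [← huc]
      simp only [hu]
      rw [mul_div_cancel₀ _ (hZne x)]
    have h2 : Y x = Z x * Real.sin (σ x) := by
      rw [← hvs]
      simp only [hv]
      rw [mul_div_cancel₀ _ (hZne x)]
    unfold lift
    funext i
    fin_cases i
    · exact h1
    · exact h2
    · show Z x = Z x * 1
      rw [mul_one]
  have hdσ : ∀ x, deriv σ x = (Z x)⁻¹ := fun x => (dσ x).deriv
  have hσp : ∀ x, 0 < deriv σ x := fun x => by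
    rw [hdσ]
    exact inv_pos.2 (hZp x)
  have hσm : StrictMono σ := strictMono_of_deriv_pos hσp
  have hZper : ∀ x, Z (x + 1) = Z x := fun x => by
    simp only [hZ]
    rw [h.pP]
  have huper : ∀ x, u (x + 1) = u x := fun x => by
    simp only [hu, hX]
    rw [hZper, h.pP]
  have hvper : ∀ x, v (x + 1) = v x := fun x => by
    simp only [hv, hY]
    rw [hZper, h.pP]
  have hσ1 : ∀ x, σ (x + 1) = σ x + σ 1 := by
    intro x
    have hd : ∀ x, HasDerivAt (fun x => σ (x + 1) - σ x) 0 x := by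
      intro x
      have h1 := (dσ (x + 1)).comp_add_const x 1
      refine (h1.sub (dσ x)).congr_deriv ?_
      rw [hZper, sub_self]
    have h1 := is_const_of_deriv_eq_zero (fun x => (hd x).differentiableAt)
      (fun x => (hd x).deriv) x 0
    rw [zero_add, hσ0, sub_zero] at h1
    linarith
  have hcσ : Continuous σ := continuous_iff_continuousAt.2 fun x => (dσ x).continuousAt
  have h01 : 0 < σ 1 := by
    have := hσm zero_lt_one
    rwa [hσ0] at this
  obtain ⟨n, hn⟩ : ∃ n : ℤ, (n:ℝ) * (2 * π) = σ 1 := by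
    rw [← Real.cos_eq_one_iff, ← huc, ← zero_add (1:ℝ), huper, hu0]
    norm_num
  have hπ := Real.pi_pos
  have hn1 : 1 ≤ n := by
    by_contra hneg
    have : n ≤ 0 := by omega
    have h2 : (n:ℝ) ≤ 0 := by exact_mod_cast this
    nlinarith
  have hn2 : n ≤ 1 := by
    by_contra hneg
    have h1 : 2 ≤ n := by omega
    have h2 : (2:ℝ) ≤ n := by exact_mod_cast h1
    have h3 : 4 * π ≤ σ 1 := by nlinarith
    obtain ⟨b, hb, hb'⟩ := intermediate_value_Ioo (a := (0:ℝ)) (b := 1) zero_le_one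
      hcσ.continuousOn (show π ∈ Ioo (σ 0) (σ 1) from ⟨by rw [hσ0]; exact hπ, by linarith⟩)
    obtain ⟨c', hc', hc''⟩ := intermediate_value_Ioo (a := (0:ℝ)) (b := 1) zero_le_one
      hcσ.continuousOn (show 5 * π / 2 ∈ Ioo (σ 0) (σ 1) from
        ⟨by rw [hσ0]; linarith, by linarith⟩)
    have hbc : b < c' := by
      rw [← hσm.lt_iff_lt, hb', hc'']
      linarith
    have h4 := h.det 0 b c' hb.1 hbc (by linarith [hc'.2])
    have h5 : det3 (M *ᵥ Q 0) (M *ᵥ Q b) (M *ᵥ Q c') = det3 (Q 0) (Q b) (Q c') := by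
      rw [det3_mulVec, hMd, one_mul]
    rw [← h5, hrep, hrep, hrep] at h4
    have e1 : Real.cos (5 * π / 2) = 0 := by
      rw [show 5 * π / 2 = π / 2 + 2 * π by ring, Real.cos_add_two_pi, Real.cos_pi_div_two]
    have e2 : Real.sin (5 * π / 2) = 1 := by
      rw [show 5 * π / 2 = π / 2 + 2 * π by ring, Real.sin_add_two_pi, Real.sin_pi_div_two]
    have e3 : det3 (lift circ1 σ Z 0) (lift circ1 σ Z b) (lift circ1 σ Z c') =
        -2 * (Z 0 * Z b * Z c') := by
      have g0 : lift circ1 σ Z 0 = ![Z 0, 0, Z 0] := by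
        unfold lift
        rw [hσ0]
        funext i
        fin_cases i
        · show Z 0 * Real.cos 0 = Z 0
          rw [Real.cos_zero, mul_one]
        · show Z 0 * Real.sin 0 = 0
          rw [Real.sin_zero, mul_zero]
        · show Z 0 * 1 = Z 0
          rw [mul_one]
      have g1 : lift circ1 σ Z b = ![-Z b, 0, Z b] := by
        unfold lift
        rw [hb']
        funext i
        fin_cases i
        · show Z b * Real.cos π = -Z b
          rw [Real.cos_pi, mul_neg_one]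
        · show Z b * Real.sin π = 0
          rw [Real.sin_pi, mul_zero]
        · show Z b * 1 = Z b
          rw [mul_one]
      have g2 : lift circ1 σ Z c' = ![0, Z c', Z c'] := by
        unfold lift
        rw [hc'']
        funext i
        fin_cases i
        · show Z c' * Real.cos (5 * π / 2) = 0
          rw [e1, mul_zero]
        · show Z c' * Real.sin (5 * π / 2) = Z c'
          rw [e2, mul_one]
        · show Z c' * 1 = Z c'
          rw [mul_one]
      rw [g0, g1, g2]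
      unfold det3
      simp
      ring
    rw [e3] at h4
    have h6 : 0 < Z 0 * Z b * Z c' := mul_pos (mul_pos (hZp 0) (hZp b)) (hZp c')
    linarith
  have hn' : n = 1 := le_antisymm hn2 hn1
  have hσ2 : σ 1 = 2 * π := by
    rw [← hn, hn']
    push_cast
    ring
  -- analyticity
  have aQ : ∀ i x, AnalyticAt ℝ (fun x => Q x i) x := fun i x =>
    (analyticAt_pi_iff.1 (h.aP x (mem_univ x))) i
  have aZ : ∀ x, AnalyticAt ℝ Z x := fun x =>
    (analyticAt_const.mul (aQ 0 x)).add (analyticAt_const.mul (aQ 2 x))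
  have aZi : ∀ x, AnalyticAt ℝ (fun x => (Z x)⁻¹) x := fun x => (aZ x).inv (hZne x)
  refine ⟨M, σ, Z, hMd, hrep, hZp, hσp, fun x => ?_, fun x => ?_, hZper, fun x _ => ?_,
    fun x _ => aZ x, hσ0⟩
  · rw [hdσ, mul_inv_cancel₀ (hZne x)]
  · rw [hσ1, hσ2]
  · exact Pool.Agent.MP_ae5b4e_an_SM.PsiEx.prim aZi one_pos (fun x => by
      simp only [hZper]) x

/-- the derivative of the lift -/
lemma NeC.lift_deriv {γ : ConvexCurve} {σ lam : ℝ → ℝ} {x σ' l' : ℝ} (dσ : HasDerivAt σ σ' x)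
    (dl : HasDerivAt lam l' x) :
    HasDerivAt (lift γ σ lam) (l' • γ.Γ (σ x) + (lam x * σ') • deriv γ.Γ (σ x)) x := by
  have k2 := (γ.isCurve.hd0 (σ x)).scomp x dσ
  refine (dl.smul k2).congr_deriv ?_
  funext i
  simp only [Function.comp, Pi.add_apply, Pi.smul_apply, smul_eq_mul]
  ring

lemma NeC.det3_lin' (a b c : Fin 3 → ℝ) (x y z w : ℝ) :
    det3 (x • a) (y • b) (z • b + w • c) = x * y * w * det3 a b c := by
  unfold det3
  simp only [Pi.add_apply, Pi.smul_apply, smul_eq_mul]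
  ring

/-- The limit curve is a closed convex curve. -/
theorem conic_curve {Q : ℝ → Fin 3 → ℝ} {s m : ℝ → ℝ} (h : NLim Q s m)
    (hm : ∀ x, m x = deriv s x / 2) : Curve 1 Q := by
  obtain ⟨M, σ, lam, hM, hrep, hl, hσ, h1, pσ, pl, aσ, al, -⟩ := conic_rep h hm
  have hσm : StrictMono σ := strictMono_of_deriv_pos hσ
  have dM : ∀ x, M *ᵥ deriv Q x = deriv lam x • circ1.Γ (σ x) +
      (lam x * deriv σ x) • deriv circ1.Γ (σ x) := by
    intro x
    have e1 : (fun x => M *ᵥ Q x) = lift circ1 σ lam := funext hrep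
    have e2 := hasDerivAt_mulVec M (NeC.hd0 h x)
    rw [e1] at e2
    exact e2.unique (NeC.lift_deriv (aσ x (mem_univ x)).differentiableAt.hasDerivAt
      (al x (mem_univ x)).differentiableAt.hasDerivAt)
  refine ⟨one_pos, h.sP, h.pP, fun x y hxy hyx => ?_, fun x => ?_⟩
  · have e1 : dd Q x y = det3 (M *ᵥ Q x) (M *ᵥ Q y) (M *ᵥ deriv Q y) := by
      unfold dd
      rw [det3_mulVec, hM, one_mul]
    rw [e1, dM, hrep, hrep]
    unfold lift
    rw [NeC.det3_lin']
    have e2 : 0 < dd circ1.Γ (σ x) (σ y) := by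
      refine circ1.isCurve.pos _ _ (hσm hxy) ?_
      show σ y < σ x + 2 * π
      rw [← pσ]
      exact hσm hyx
    have e3 := hl x
    have e4 := hl y
    have e5 := h1 y
    unfold dd at e2
    rw [e5, mul_one]
    positivity
  · rw [h.wr]
    exact one_pos

end Pool.Agent.MP_ae5b4e_an_LOC
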