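import Mathlib
import Pool.Agent.Lib.MP_ae5b4e_an_RG.Circ
import Pool.Agent.Lib.MP_ae5b4e_an_RIG.GDef
import Pool.Agent.Lib.MP_ae5b4e_an_NC.Fra

/-!
# MP_ae5b4e_an, project NE: the field of involutions of the unit circle of a conic
-/

noncomputable section

namespace Pool.Agent.MP_ae5b4e_an_LOC

open Real Set Filter Topology MeasureTheory intervalIntegral
open scoped ContDiff Matrix
open Pool.Agent.MP_ae5b4e_an_hopf
open Pool.Agent.MP_ae5b4e_an_RG
open Pool.Agent.MP_ae5b4e_an_RIG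

namespace NeC2

/-- integer translations -/
lemma shift_int {σ : ℝ → ℝ} (per_σ : ∀ x, σ (x + 1) = σ x + 2 * π) (n : ℤ) (x : ℝ) :
    σ (x + n) = σ x + 2 * π * n := by
  have h1 : Function.Periodic (fun x => σ x - 2 * π * x) 1 := fun x => by
    show σ (x + 1) - 2 * π * (x + 1) = σ x - 2 * π * x
    rw [per_σ]
    ring
  have h2 := h1.int_mul n x
  simp only [mul_one] at h2
  linarith

lemma surj {σ : ℝ → ℝ} (cσ : Continuous σ) (per_σ : ∀ x, σ (x + 1) = σ x + 2 * π) :
    Function.Surjective σ := by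
  intro y
  have hπ : (0:ℝ) < 2 * π := by positivity
  set n : ℤ := ⌊(y - σ 0) / (2 * π)⌋ with hn
  have h1 : (n:ℝ) ≤ (y - σ 0) / (2 * π) := Int.floor_le _
  have h2 : (y - σ 0) / (2 * π) < n + 1 := Int.lt_floor_add_one _
  rw [le_div_iff₀ hπ] at h1
  rw [div_lt_iff₀ hπ] at h2
  have h3 : y - 2 * π * n ∈ Icc (σ 0) (σ 1) := by
    have h4 : σ 1 = σ 0 + 2 * π := by
      have := per_σ 0
      rwa [zero_add] at this
    rw [h4]
    constructor <;> nlinarith
  obtain ⟨x, -, hx⟩ := intermediate_value_Icc zero_le_one cσ.continuousOn h3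
  exact ⟨x + n, by rw [shift_int per_σ, hx]; ring⟩

/-- THE FIELD `κ`: `lam' / lam = (κ ∘ σ) / 2 * σ'` for an analytic `κ` of period `2 π` and of
integral zero -/
theorem kappa_rep {σ lam : ℝ → ℝ} (aσ : AnalyticOnNhd ℝ σ univ) (al : AnalyticOnNhd ℝ lam univ)
    (pos_σ : ∀ x, 0 < deriv σ x) (pos_lam : ∀ x, 0 < lam x) (h1 : ∀ x, lam x * deriv σ x = 1)
    (per_σ : ∀ x, σ (x + 1) = σ x + 2 * π) (per_lam : ∀ x, lam (x + 1) = lam x) :
    ∃ κ : ℝ → ℝ, (∀ θ, AnalyticAt ℝ κ θ) ∧ (∀ θ, κ (θ + 2 * π) = κ θ) ∧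
      (∫ θ in (0:ℝ)..(2 * π), κ θ = 0) ∧
      ∀ x, deriv lam x = lam x * (κ (σ x) / 2) * deriv σ x := by
  have cσ : Continuous σ := continuous_iff_continuousAt.2 fun x => (aσ x trivial).continuousAt
  have mσ : StrictMono σ := strictMono_of_deriv_pos pos_σ
  set e := mσ.orderIsoOfSurjective σ (surj cσ per_σ) with he
  set τ : ℝ → ℝ := fun y => e.symm y with hτ
  have hστ : ∀ θ, σ (τ θ) = θ := fun θ => e.apply_symm_apply θ
  have hτσ : ∀ x, τ (σ x) = x := fun x => e.symm_apply_apply x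
  -- the inverse is analytic
  have aτ : ∀ θ, AnalyticAt ℝ τ θ := by
    intro θ
    have h2 := e.toHomeomorph.toOpenPartialHomeomorph.analyticAt_symm (a := θ)
      (i := ContinuousLinearEquiv.unitsEquivAut ℝ (Units.mk0 _ (pos_σ (τ θ)).ne'))
      (mem_univ _) (aσ (τ θ) trivial) (by
        refine ContinuousLinearMap.ext_ring ?_
        have h3 : HasDerivAt σ (deriv σ (τ θ)) (τ θ) :=
          (aσ (τ θ) trivial).differentiableAt.hasDerivAt
        have h4 := h3.hasFDerivAt.fderiv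
        show (fderiv ℝ σ (τ θ)) 1 = _
        rw [h4]
        simp)
    exact h2
  have dl : AnalyticOnNhd ℝ (deriv lam) univ := al.deriv
  have perτ : ∀ θ, τ (θ + 2 * π) = τ θ + 1 := fun θ => by
    apply mσ.injective
    rw [hστ, per_σ, hστ]
  have perd : ∀ x, deriv lam (x + 1) = deriv lam x := fun x => by
    have e1 : (fun y => lam (y + 1)) = lam := funext per_lam
    have e2 := deriv_comp_add_const lam 1 x
    rw [e1] at e2
    exact e2.symm
  set κ : ℝ → ℝ := fun θ => 2 * deriv lam (τ θ) with hκ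
  have aκ : ∀ θ, AnalyticAt ℝ κ θ := fun θ =>
    analyticAt_const.mul (AnalyticAt.fun_comp (g := deriv lam) (dl (τ θ) trivial) (aτ θ))
  have pκ : ∀ θ, κ (θ + 2 * π) = κ θ := fun θ => by
    show 2 * deriv lam (τ (θ + 2 * π)) = 2 * deriv lam (τ θ)
    rw [perτ, perd]
  have cκ : Continuous κ := continuous_iff_continuousAt.2 fun x => (aκ x).continuousAt
  refine ⟨κ, aκ, pκ, ?_, fun x => ?_⟩
  · have h5 : σ 1 = σ 0 + 2 * π := by
      have := per_σ 0
      rwa [zero_add] at this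
    have h6 : ∫ θ in (0:ℝ)..(2 * π), κ θ = ∫ θ in σ 0..σ 1, κ θ := by
      have h7 := (show Function.Periodic κ (2 * π) from pκ).intervalIntegral_add_eq 0 (σ 0)
      rw [zero_add] at h7
      rw [h7, h5]
    have dσ : ∀ x, HasDerivAt σ (deriv σ x) x := fun x =>
      (aσ x trivial).differentiableAt.hasDerivAt
    have cd : Continuous (deriv σ) :=
      continuous_iff_continuousAt.2 fun x => (aσ.deriv x trivial).continuousAt
    rw [h6, ← integral_comp_mul_deriv (fun x _ => dσ x) cd.continuousOn cκ]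
    have h8 : ∀ x, HasDerivAt (fun x => 2 * Real.log (lam x)) ((κ ∘ σ) x * deriv σ x) x := by
      intro x
      have h9 := (((al x trivial).differentiableAt.hasDerivAt).log (pos_lam x).ne').const_mul 2
      have h10 : (κ ∘ σ) x * deriv σ x = 2 * (deriv lam x / lam x) := by
        show 2 * deriv lam (τ (σ x)) * deriv σ x = _
        rw [hτσ]
        have := h1 x
        have hp := (pos_lam x).ne'
        field_simp
        rw [mul_assoc, mul_comm (deriv σ x), h1, mul_one]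
      rw [h10]
      exact h9
    have h11 : IntervalIntegrable (fun x => (κ ∘ σ) x * deriv σ x) volume 0 1 :=
      ((cκ.comp cσ).mul cd).intervalIntegrable _ _
    rw [integral_eq_sub_of_hasDerivAt (fun x _ => h8 x) h11]
    have h12 := per_lam 0
    rw [zero_add] at h12
    rw [h12]
    ring
  · show deriv lam x = lam x * (2 * deriv lam (τ (σ x)) / 2) * deriv σ x
    rw [hτσ]
    have := h1 x
    linear_combination (- deriv lam x) * this

/-- THE NORMAL FORM over the circle of a curve which is the image of a lift of the circle -/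
theorem normal_rep {Q : ℝ → Fin 3 → ℝ} {s m : ℝ → ℝ} (hQ : Curve 1 Q) (hW : ∀ x, Wr Q x = 1)
    (ode : ∀ x, deriv (deriv (deriv Q)) x = -(s x) • deriv Q x - m x • Q x)
    (ss : ContDiff ℝ ∞ s) (sm : ContDiff ℝ ∞ m) (ps : Function.Periodic s 1)
    (pm : Function.Periodic m 1) {M : Matrix (Fin 3) (Fin 3) ℝ} (hM : M.det = 1)
    {σ lam : ℝ → ℝ} (aσ : AnalyticOnNhd ℝ σ univ) (al : AnalyticOnNhd ℝ lam univ)
    (pos_σ : ∀ x, 0 < deriv σ x) (pos_lam : ∀ x, 0 < lam x) (h1 : ∀ x, lam x * deriv σ x = 1)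
    (per_σ : ∀ x, σ (x + 1) = σ x + 2 * π) (per_lam : ∀ x, lam (x + 1) = lam x)
    (hl : ∀ x, lift circ1 σ lam x = M *ᵥ Q x) :
    ∃ κ : ℝ → ℝ, (∀ θ, AnalyticAt ℝ κ θ) ∧ (∀ θ, κ (θ + 2 * π) = κ θ) ∧
      (∫ θ in (0:ℝ)..(2 * π), κ θ = 0) ∧ Normal circ1 κ σ lam s m := by
  obtain ⟨κ, aκ, pκ, iκ, eκ⟩ := kappa_rep aσ al pos_σ pos_lam h1 per_σ per_lam
  have hl' : lift circ1 σ lam = fun x => M *ᵥ Q x := funext hl
  refine ⟨κ, aκ, pκ, iκ, ?_⟩
  exact
    { smooth_σ := aσ.contDiff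
      pos_σ := pos_σ
      per_σ := per_σ
      smooth_lam := al.contDiff
      pos_lam := pos_lam
      eq_lam := eκ
      wr := fun x => by
        rw [hl']
        exact (Pool.Agent.MP_ae5b4e_an_NC.Wr_mv M hQ hM x).trans (hW x)
      smooth_r := ss
      smooth_m := sm
      per_r := ps
      per_m := pm
      ode := fun x => by
        rw [hl', Pool.Agent.MP_ae5b4e_an_NC.deriv3_mv M hQ,
          Pool.Agent.MP_ae5b4e_an_NC.deriv_mv M hQ]
        simp only
        rw [ode x, Matrix.mulVec_sub, Matrix.mulVec_smul, Matrix.mulVec_smul] }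

end NeC2

end Pool.Agent.MP_ae5b4e_an_LOC
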