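import Mathlib
import Pool.Agent.Lib.MP_ae5b4e_an_LOC.NeC
import Pool.Agent.Lib.MP_ae5b4e_an_LOC.NeC2

/-!
# MP_ae5b4e_an, project NE: a limit curve with `m = r' / 2` is a conic in its normal form
-/

noncomputable section

namespace Pool.Agent.MP_ae5b4e_an_LOC

open Real Set Filter Topology MeasureTheory intervalIntegral Matrix
open scoped ContDiff
open Pool.Agent.MP_ae5b4e_an_hopf
open Pool.Agent.MP_ae5b4e_an_RG
open Pool.Agent.MP_ae5b4e_an_RIG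
open Pool.Agent.MP_ae5b4e_an_NC

/-- A limit curve with `m = r' / 2` is the normal lift of the unit circle with an analytic function
`κ`, up to a unimodular map. -/
theorem conic_normal {Q : ℝ → Fin 3 → ℝ} {s m : ℝ → ℝ} (h : NLim Q s m)
    (hm : ∀ x, m x = deriv s x / 2) :
    Curve 1 Q ∧ ∃ (M : Matrix (Fin 3) (Fin 3) ℝ) (σ lam κ : ℝ → ℝ), M.det = 1 ∧
      (∀ x, lift circ1 σ lam x = M *ᵥ Q x) ∧ Normal circ1 κ σ lam s m ∧
      (∀ θ, AnalyticAt ℝ κ θ) ∧ (∀ θ, κ (θ + 2 * π) = κ θ) ∧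
      (∫ θ in (0:ℝ)..(2 * π), κ θ = 0) ∧ (∀ x, lam x * deriv σ x = 1) ∧ σ 0 = 0 := by
  have hC := conic_curve h hm
  obtain ⟨M, σ, lam, hM, hrep, hl, hσ, h1, pσ, pl, aσ, al, h0⟩ := conic_rep h hm
  obtain ⟨κ, aκ, pκ, iκ, hN⟩ := NeC2.normal_rep hC h.wr h.ode h.sr h.sm h.pr h.pm hM aσ al hσ hl h1
    pσ pl (fun x => (hrep x).symm)
  exact ⟨hC, M, σ, lam, κ, hM, fun x => (hrep x).symm, hN, aκ, pκ, iκ, h1, h0⟩

end Pool.Agent.MP_ae5b4e_an_LOC
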