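import Mathlib
import Pool.Agent.Lib.MP_ae5b4e_an_RG.LSys

/-!
# MP_ae5b4e_an, project LOC, curves near a conic: the closing properties (definitions)
-/

noncomputable section

namespace Pool.Agent.MP_ae5b4e_an_LOC

open Real Set Filter Topology
open Pool.Agent.MP_ae5b4e_an_hopf
open Pool.Agent.MP_ae5b4e_an_RG

/-- The closing property of a field of involutions of the tangent lines of the unit circle: a
closed polygon with small sides which satisfies the law except at one vertex satisfies it there. -/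
def Core (κ : ℝ → ℝ) : Prop :=
  ∃ ε > 0, ∀ (θ : ℤ → ℝ) (q : ℕ) (k : ℤ), 0 < q → (∀ j, θ (j + q) = θ j + 2 * π * k) →
    (∀ j, 0 < θ (j + 1) - θ j) → (∀ j, θ (j + 1) - θ j < ε) →
    (∀ j, ¬ ((q : ℤ) ∣ j) →
      Real.cot ((θ (j + 1) - θ j) / 2) - Real.cot ((θ j - θ (j - 1)) / 2) = κ (θ j)) →
    Real.cot ((θ 1 - θ 0) / 2) - Real.cot ((θ 0 - θ (-1)) / 2) = κ (θ 0)

/-- The closing property of a normalized curve. -/
def ClosP (Q : ℝ → Fin 3 → ℝ) : Prop :=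
  ∃ ε > 0, ∀ (X : ℤ → ℝ) (q : ℕ) (k : ℤ), 0 < q → (∀ j, X (j + q) = X j + k) →
    (∀ j, 0 < X (j + 1) - X j) → (∀ j, X (j + 1) - X j < ε) →
    (∀ j, ¬ ((q : ℤ) ∣ j) → L1 Q (X j) (X (j - 1)) + L1 Q (X j) (X (j + 1)) = 0) →
    L1 Q (X 0) (X (-1)) + L1 Q (X 0) (X 1) = 0

end Pool.Agent.MP_ae5b4e_an_LOC
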