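import Mathlib
import Pool.Agent.Lib.MP_ae5b4e_an_LOC.NeD0

/-!
# MP_ae5b4e_an, project LOC, curves near a conic: the closing property of a limit

The limit of a sequence of curves with families of invariant curves (of a thickness bounded from
below) has the closing property; the invariant curves of the limit are not needed.  A closed polygon
`X` of the limit which satisfies the law except at `X 0` is the limit of orbits on invariant curves,
which are graphs, and the invariant curves are equicontinuous by monotonicity.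
-/

noncomputable section

namespace Pool.Agent.MP_ae5b4e_an_LOC

open Real Set Filter Topology
open Pool.Agent.MP_ae5b4e_an_hopf
open Pool.Agent.MP_ae5b4e_an_RG

variable {ι : Type*} {l : Filter ι} {P : ι → ℝ → Fin 3 → ℝ} {Q : ℝ → Fin 3 → ℝ}

private lemma ned_det {a b c : ι → Fin 3 → ℝ} {a0 b0 c0 : Fin 3 → ℝ} (ha : Tendsto a l (𝓝 a0))
    (hb : Tendsto b l (𝓝 b0)) (hc : Tendsto c l (𝓝 c0)) :
    Tendsto (fun j => det3 (a j) (b j) (c j)) l (𝓝 (det3 a0 b0 c0)) := by
  have a' := fun i => tendsto_pi_nhds.1 ha i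
  have b' := fun i => tendsto_pi_nhds.1 hb i
  have c' := fun i => tendsto_pi_nhds.1 hc i
  unfold det3
  exact (((a' 0).mul (((b' 1).mul (c' 2)).sub ((b' 2).mul (c' 1)))).sub
    ((a' 1).mul (((b' 0).mul (c' 2)).sub ((b' 2).mul (c' 0))))).add
    ((a' 2).mul (((b' 0).mul (c' 1)).sub ((b' 1).mul (c' 0))))

private lemma ned_L1 (hQ : Curve 1 Q) (h0 : TendstoUniformly P Q l)
    (h1 : TendstoUniformly (fun j => deriv (P j)) (deriv Q) l) {x y : ι → ℝ} {x0 y0 : ℝ}
    (hx : Tendsto x l (𝓝 x0)) (hy : Tendsto y l (𝓝 y0)) (hne : dd Q x0 y0 ≠ 0) :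
    Tendsto (fun j => L1 (P j) (x j) (y j)) l (𝓝 (L1 Q x0 y0)) := by
  have c0 : Continuous Q := hQ.smooth.continuous
  have c1 : Continuous (deriv Q) := hQ.smooth1.continuous
  have e0 := h0.tendsto_comp c0.continuousAt hx
  have e1 := h1.tendsto_comp c1.continuousAt hx
  have f0 := h0.tendsto_comp c0.continuousAt hy
  have f1 := h1.tendsto_comp c1.continuousAt hy
  exact (ned_det e1 f0 f1).div (ned_det e0 f0 f1) hne

private lemma ned_inv (hP : ∀ j, Curve 1 (P j)) (hQ : Curve 1 Q) (h0 : TendstoUniformly P Q l)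
    (h1 : TendstoUniformly (fun j => deriv (P j)) (deriv Q) l) {x y : ι → ℝ} {x0 y0 : ℝ}
    (hx : Tendsto x l (𝓝 x0)) (hxy : ∀ j, x j < y j ∧ y j < x j + 1) (h : x0 < y0)
    (h' : y0 < x0 + 1)
    (hL : Tendsto (fun j => L1 (P j) (x j) (y j)) l (𝓝 (L1 Q x0 y0))) :
    Tendsto y l (𝓝 y0) := by
  rw [tendsto_order]
  constructor
  · intro a ha
    obtain ⟨a', ha1, ha2, ha3⟩ : ∃ a', a ≤ a' ∧ x0 < a' ∧ a' < y0 :=
      ⟨max a ((x0 + y0) / 2), le_max_left _ _, lt_max_of_lt_right (by linarith),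
        max_lt ha (by linarith)⟩
    have e1 := ned_L1 hQ h0 h1 hx (tendsto_const_nhds (x := a'))
      (hQ.dd_pos_right ha2 (by linarith)).ne'
    have e2 : L1 Q x0 a' < L1 Q x0 y0 :=
      hQ.strictMono_L1 x0 ⟨ha2, by linarith⟩ ⟨h, h'⟩ ha3
    filter_upwards [e1.eventually_lt hL e2, hx.eventually_lt_const ha2,
      (hx.add_const 1).eventually_const_lt (by linarith : a' < x0 + 1)] with j k1 k2 k3
    exact ha1.trans_lt (((hP j).strictMono_L1 (x j)).lt_iff_lt ⟨k2, k3⟩ (hxy j) |>.1 k1)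
  · intro b hb
    obtain ⟨b', hb1, hb2, hb3⟩ : ∃ b', b' ≤ b ∧ y0 < b' ∧ b' < x0 + 1 :=
      ⟨min b ((y0 + (x0 + 1)) / 2), min_le_left _ _, lt_min hb (by linarith),
        min_lt_of_right_lt (by linarith)⟩
    have e1 := ned_L1 hQ h0 h1 hx (tendsto_const_nhds (x := b'))
      (hQ.dd_pos_right (h.trans hb2) (by linarith)).ne'
    have e2 : L1 Q x0 y0 < L1 Q x0 b' :=
      hQ.strictMono_L1 x0 ⟨h, h'⟩ ⟨h.trans hb2, by linarith⟩ hb2
    filter_upwards [hL.eventually_lt e1 e2, hx.eventually_lt_const (h.trans hb2),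
      (hx.add_const 1).eventually_const_lt hb3] with j k1 k2 k3
    exact (((hP j).strictMono_L1 (x j)).lt_iff_lt (hxy j) ⟨k2, k3⟩ |>.1 k1).trans_le hb1

/-- the leaf through a point near the curve -/
private lemma ned_leaf {P : ℝ → Fin 3 → ℝ} {U : ℝ → ℝ → ℝ} (hS : LSys 1 P U (fun _ => 0)) {δ : ℝ}
    (hst : ∃ c ∈ Ioo (0:ℝ) 1, ∀ t, t + δ ≤ nxt P 1 U c t) {x y : ℝ} (h : x < y) (h' : y < x + δ) :
    ∃ c ∈ Ioo (0:ℝ) 1, nxt P 1 U c x = y := by
  obtain ⟨c, hc, hs⟩ := hst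
  have hT := hS.tmap
  have e1 : ∀ᶠ a in 𝓝[>] (0:ℝ), nxt P 1 U a x < y := (hT.lim x).eventually_lt_const h
  obtain ⟨a, ha, ha'⟩ := (e1.and (Ioo_mem_nhdsGT hc.1)).exists
  have hcont : ContinuousOn (fun a => nxt P 1 U a x) (Icc a c) := by
    refine hT.cont.comp (f := fun a : ℝ => ((a, x) : ℝ × ℝ)) (by fun_prop) ?_
    intro b hb
    exact ⟨⟨ha'.1.trans_le hb.1, hb.2.trans_lt hc.2⟩, mem_univ _⟩
  obtain ⟨b, hb, hb'⟩ := intermediate_value_Icc ha'.2.le hcont
    (show y ∈ Icc _ _ from ⟨ha.le, h'.le.trans (hs x)⟩)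
  exact ⟨b, ⟨ha'.1.trans_le hb.1, hb.2.trans_lt hc.2⟩, hb'⟩

private lemma ned_perZ {f : ℝ → ℝ} (hf : ∀ x, f (x + 1) = f x + 1) (k : ℤ) (x : ℝ) :
    f (x + k) = f x + k := by
  have h1 : Function.Periodic (fun x => f x - x) 1 := fun x => by
    show f (x + 1) - (x + 1) = f x - x
    rw [hf]
    ring
  have h2 := h1.int_mul k x
  rw [mul_one] at h2
  have h3 : f (x + k) - (x + k) = f x - x := h2
  linarith

private lemma ned_L1Z (hQ : Curve 1 Q) (k : ℤ) (x y : ℝ) :
    L1 Q (x + k) (y + k) = L1 Q x y := by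
  have h1 : Function.Periodic (fun t => L1 Q (x + t) (y + t)) 1 := fun t => by
    show L1 Q (x + (t + 1)) (y + (t + 1)) = L1 Q (x + t) (y + t)
    rw [← add_assoc, ← add_assoc, hQ.L1_per_left, hQ.L1_per_right]
  have h2 := h1.int_mul k 0
  simp only [zero_add, mul_one, add_zero] at h2
  exact h2

/-- **The closing property passes to limits.** -/
theorem closP_of_lim [NeBot l] {U : ι → ℝ → ℝ → ℝ} {δ : ℝ} (hδ : 0 < δ)
    (hS : ∀ j, LSys 1 (P j) (U j) (fun _ => 0))
    (hst : ∀ j, ∃ c ∈ Ioo (0:ℝ) 1, ∀ t, t + δ ≤ nxt (P j) 1 (U j) c t) (hQ : Curve 1 Q)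
    (h0 : TendstoUniformly P Q l) (h1 : TendstoUniformly (fun j => deriv (P j)) (deriv Q) l) :
    ClosP Q := by
  refine ⟨min δ 1, lt_min hδ one_pos, ?_⟩
  intro X q k hq hper hX0 hXε heq
  have hXδ : ∀ j, X (j + 1) < X j + δ := fun j => by
    have := (hXε j).trans_le (min_le_left _ _)
    linarith
  have hX1 : ∀ j, X (j + 1) < X j + 1 := fun j => by
    have := (hXε j).trans_le (min_le_right _ _)
    linarith
  have hXm : ∀ j, X j < X (j + 1) := fun j => by linarith [hX0 j]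
  have hP : ∀ j, Curve 1 (P j) := fun j => (hS j).curve
  -- the leaves
  have hex : ∀ j, ∃ c ∈ Ioo (0:ℝ) 1, nxt (P j) 1 (U j) c (X 0) = X 1 := fun j =>
    ned_leaf (hS j) (hst j) (by simpa using hXm 0) (by simpa using hXδ 0)
  choose c hc hc1 using hex
  obtain ⟨f, hf⟩ : ∃ f : ι → ℝ → ℝ, f = fun j => nxt (P j) 1 (U j) (c j) := ⟨_, rfl⟩
  have fX : ∀ j, f j (X 0) = X 1 := fun j => by rw [hf]; exact hc1 j
  have fgt : ∀ j t, t < f j t := fun j t => by rw [hf]; exact ((hS j).nxt_spec (c j) t).1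
  have flt : ∀ j t, f j t < t + 1 := fun j t => by rw [hf]; exact ((hS j).nxt_spec (c j) t).2.1
  have fper : ∀ j t, f j (t + 1) = f j t + 1 := fun j t => by
    rw [hf]; exact (hS j).nxt_per (hc j) t
  have fmono : ∀ j, StrictMono (f j) := fun j => by
    rw [hf]; exact (hS j).tmap.mono_t (c j) (hc j)
  have fsurj : ∀ j s, ∃ t, f j t = s := fun j s => by
    rw [hf]; exact (hS j).surj_nxt (hc j) s
  have flaw : ∀ j t, L1 (P j) (f j t) (f j (f j t)) = -L1 (P j) (f j t) t := fun j t => by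
    have := (hS j).law (hc j) t
    rw [hf]
    simp only at this ⊢
    linarith
  clear hf hc1
  -- the orbit
  obtain ⟨Y, hY⟩ : ∃ Y : ι → ℕ → ℝ, Y = fun j i => (f j)^[i] (X 0) := ⟨_, rfl⟩
  have Y0 : ∀ j, Y j 0 = X 0 := fun j => by rw [hY]; rfl
  have Ys : ∀ j i, Y j (i + 1) = f j (Y j i) := fun j i => by
    rw [hY]
    exact Function.iterate_succ_apply' _ _ _
  have Y1 : ∀ j, Y j 1 = X 1 := fun j => by
    rw [← fX j, ← Y0 j, ← Ys j 0]
  have ddX : ∀ i : ℤ, dd Q (X i) (X (i + 1)) ≠ 0 ∧ dd Q (X (i + 1)) (X i) ≠ 0 := fun i =>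
    ⟨(hQ.dd_pos_right (hXm i) (hX1 i)).ne', (hQ.dd_pos_left (hXm i) (hX1 i)).ne'⟩
  have hconv : ∀ i : ℕ, i < q → Tendsto (fun j => Y j i) l (𝓝 (X i)) ∧
      Tendsto (fun j => Y j (i + 1)) l (𝓝 (X (i + 1))) := by
    intro i
    induction i with
    | zero =>
      intro _
      refine ⟨?_, ?_⟩
      · simp only [Y0]
        exact tendsto_const_nhds
      · simp only [zero_add, Y1]
        exact tendsto_const_nhds
    | succ i ih =>
      intro hi
      obtain ⟨k1, k2⟩ := ih (by omega)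
      refine ⟨by exact_mod_cast k2, ?_⟩
      have e1 := ned_L1 hQ h0 h1 k2 k1 (ddX i).2
      have e2 : -L1 Q (X (i + 1)) (X i) = L1 Q (X (i + 1)) (X (i + 1 + 1)) := by
        have := heq ((i:ℤ) + 1) (by
          intro hdvd
          have := Int.le_of_dvd (by omega) hdvd
          omega)
        rw [show (i:ℤ) + 1 - 1 = i by ring] at this
        linarith
      have e3 : Tendsto (fun j => L1 (P j) (Y j (i + 1)) (Y j (i + 1 + 1))) l
          (𝓝 (L1 Q (X (i + 1)) (X (i + 1 + 1)))) := by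
        rw [← e2]
        refine e1.neg.congr fun j => ?_
        rw [Ys j (i + 1), Ys j i, flaw]
      have e4 := ned_inv hP hQ h0 h1 k2 (fun j => ⟨by rw [Ys j (i + 1)]; exact fgt j _,
        by rw [Ys j (i + 1)]; exact flt j _⟩) (hXm _) (hX1 _) e3
      exact_mod_cast e4
  obtain ⟨p, rfl⟩ : ∃ p, q = p + 1 := ⟨q - 1, by omega⟩
  obtain ⟨c1, c2⟩ := hconv p (by omega)
  -- the end of the orbit
  have eA : X ((p:ℤ) + 1) = X 0 + k := by
    have := hper 0
    push_cast at this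
    simpa using this
  have eB : X (p:ℤ) = X (-1) + k := by
    have := hper (-1)
    push_cast at this
    rw [show (-1:ℤ) + (p + 1) = p by ring] at this
    exact this
  have fk : ∀ j t, f j (t + k) = f j t + k := fun j t => ned_perZ (fper j) k t
  rw [eA] at c2
  rw [eB] at c1
  have hm1 : X (-1) < X 0 ∧ X 0 < X (-1) + 1 := by
    have a1 := hXm (-1)
    have a2 := hX1 (-1)
    rw [show (-1:ℤ) + 1 = 0 by norm_num] at a1 a2
    exact ⟨a1, a2⟩
  have h01 : X 0 < X 1 ∧ X 1 < X 0 + 1 := by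
    have a1 := hXm 0
    have a2 := hX1 0
    rw [show (0:ℤ) + 1 = 1 by norm_num] at a1 a2
    exact ⟨a1, a2⟩
  have v1 : Tendsto (fun j => L1 (P j) (Y j (p + 1)) (Y j (p + 1 + 1))) l
      (𝓝 (-L1 Q (X 0) (X (-1)))) := by
    have e1 := ned_L1 hQ h0 h1 c2 c1 (hQ.dd_pos_left (by linarith) (by linarith)).ne'
    rw [ned_L1Z hQ] at e1
    refine e1.neg.congr fun j => ?_
    rw [Ys j (p + 1), Ys j p, flaw]
  -- the preimages of `X 0`
  choose W hW using fun j => fsurj j (X 0)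
  have hW1 : ∀ j, W j < X 0 ∧ X 0 < W j + 1 := fun j => by
    have a1 := fgt j (W j)
    have a2 := flt j (W j)
    rw [hW] at a1 a2
    exact ⟨a1, a2⟩
  obtain ⟨s, hs1, hs2, hs3⟩ := hQ.exists_nx (X 0) (L1 Q (X 0) (X 1))
  have W1 : Tendsto (fun j => W j + 1) l (𝓝 s) := by
    refine ned_inv hP hQ h0 h1 (tendsto_const_nhds (x := X 0)) (fun j => ⟨(hW1 j).2,
      by linarith [(hW1 j).1]⟩) hs1 hs2 ?_
    rw [hs3]
    have e1 := ned_L1 hQ h0 h1 (tendsto_const_nhds (x := X 0)) (tendsto_const_nhds (x := X 1))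
      (hQ.dd_pos_right h01.1 h01.2).ne'
    refine e1.neg.congr fun j => ?_
    rw [(hP j).L1_per_right, ← fX j]
    have := flaw j (W j)
    rw [hW] at this
    rw [this]
    ring
  have W2 : Tendsto (fun j => W j + k) l (𝓝 (s - 1 + k)) := by
    have := (W1.sub_const 1).add_const (k:ℝ)
    refine this.congr fun j => ?_
    ring
  -- the squeeze
  have b1 : Tendsto (fun j => L1 (P j) (Y j (p + 1)) (X 1 + k)) l (𝓝 (L1 Q (X 0) (X 1))) := by
    have e1 := ned_L1 hQ h0 h1 c2 (tendsto_const_nhds (x := X 1 + k))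
      (hQ.dd_pos_right (by linarith) (by linarith)).ne'
    rwa [ned_L1Z hQ] at e1
  have b2 : Tendsto (fun j => -L1 (P j) (Y j (p + 1)) (W j + k)) l (𝓝 (L1 Q (X 0) (X 1))) := by
    have e1 := ned_L1 hQ h0 h1 c2 W2 (hQ.dd_pos_left (by linarith) (by linarith)).ne'
    have e2 : L1 Q (X 0 + k) (s - 1 + k) = -L1 Q (X 0) (X 1) := by
      rw [ned_L1Z hQ, ← hs3, ← hQ.L1_per_right, sub_add_cancel]
    rw [e2] at e1
    have := e1.neg
    rwa [neg_neg] at this
  have b3 := b1.min b2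
  have b4 := b1.max b2
  rw [min_self] at b3
  rw [max_self] at b4
  have hYY : ∀ j, f j (Y j p) = Y j (p + 1) := fun j => (Ys j p).symm
  have key : ∀ᶠ j in l,
      min (L1 (P j) (Y j (p + 1)) (X 1 + k)) (-L1 (P j) (Y j (p + 1)) (W j + k)) ≤
        L1 (P j) (Y j (p + 1)) (Y j (p + 1 + 1)) ∧
      L1 (P j) (Y j (p + 1)) (Y j (p + 1 + 1)) ≤
        max (L1 (P j) (Y j (p + 1)) (X 1 + k)) (-L1 (P j) (Y j (p + 1)) (W j + k)) := by
    filter_upwards [c2.eventually_lt_const (show X 0 + k < X 1 + k by linarith),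
      (c2.add_const 1).eventually_const_lt (show X 1 + k < X 0 + k + 1 by linarith),
      W2.eventually_lt c2 (show s - 1 + k < X 0 + k by linarith),
      c2.eventually_lt (W2.add_const 1) (show X 0 + k < s - 1 + k + 1 by linarith)]
      with j a1 a2 a3 a4
    have hA : f j (X 0 + k) = X 1 + k := by rw [fk, fX]
    have hB : f j (W j + k) = X 0 + k := by rw [fk, hW]
    have m1 := (hP j).strictMono_L1 (Y j (p + 1))
    have r1 : Y j (p + 1 + 1) ∈ Ioo (Y j (p + 1)) (Y j (p + 1) + 1) := by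
      rw [Ys j (p + 1)]
      exact ⟨fgt j _, flt j _⟩
    have r2 : X 1 + k ∈ Ioo (Y j (p + 1)) (Y j (p + 1) + 1) := ⟨a1, a2⟩
    have r3 : Y j p + 1 ∈ Ioo (Y j (p + 1)) (Y j (p + 1) + 1) := by
      rw [Ys j p]
      exact ⟨flt j _, by linarith [fgt j (Y j p)]⟩
    have r4 : W j + k + 1 ∈ Ioo (Y j (p + 1)) (Y j (p + 1) + 1) := ⟨a4, by linarith⟩
    have law : L1 (P j) (Y j (p + 1)) (Y j (p + 1 + 1)) = -L1 (P j) (Y j (p + 1)) (Y j p + 1) := by
      rw [(hP j).L1_per_right, Ys j (p + 1), Ys j p, flaw]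
    have e5 : L1 (P j) (Y j (p + 1)) (W j + k) = L1 (P j) (Y j (p + 1)) (W j + k + 1) :=
      ((hP j).L1_per_right _ _).symm
    rw [e5]
    rcases le_total (X 0 + k) (Y j (p + 1)) with hc | hc
    · -- `Y ≥ X 0 + k`
      have t1 : X 1 + k ≤ Y j (p + 1 + 1) := by
        rw [← hA, Ys j (p + 1)]
        exact (fmono j).monotone hc
      have t2 : W j + k ≤ Y j p := by
        rw [← (fmono j).le_iff_le, hB, hYY]
        exact hc
      have t3 := m1.monotoneOn r2 r1 t1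
      have t4 := m1.monotoneOn r4 r3 (by linarith)
      constructor
      · exact (min_le_left _ _).trans t3
      · rw [law]
        exact (neg_le_neg t4).trans (le_max_right _ _)
    · have t1 : Y j (p + 1 + 1) ≤ X 1 + k := by
        rw [← hA, Ys j (p + 1)]
        exact (fmono j).monotone hc
      have t2 : Y j p ≤ W j + k := by
        rw [← (fmono j).le_iff_le, hB, hYY]
        exact hc
      have t3 := m1.monotoneOn r1 r2 t1
      have t4 := m1.monotoneOn r3 r4 (by linarith)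
      constructor
      · rw [law]
        exact (min_le_right _ _).trans (neg_le_neg t4)
      · exact t3.trans (le_max_left _ _)
  have v2 := tendsto_of_tendsto_of_tendsto_of_le_of_le' b3 b4 (key.mono fun j h => h.1)
    (key.mono fun j h => h.2)
  have := tendsto_nhds_unique v1 v2
  linarith

end Pool.Agent.MP_ae5b4e_an_LOC
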