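import Mathlib
import Pool.Agent.Lib.MP_ae5b4e_an_LOC.BgId

/-!
# LOC, curves near a conic: the normal coefficients of a conic with a quadratic form
-/

set_option autoImplicit false

noncomputable section

namespace Pool.Agent.MP_ae5b4e_an_LOC

open Set Filter Topology
open scoped ContDiff Matrix
open Pool.Agent.MP_ae5b4e_an_hopf (det3 dd Wr Curve ConvexCurve)

private lemma cramer3 (a b c v : Fin 3 → ℝ) :
    det3 a b c • v = det3 v b c • a + det3 a v c • b + det3 a b v • c := by
  funext i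
  fin_cases i <;> simp only [det3, Pi.add_apply, Pi.smul_apply, smul_eq_mul, Fin.zero_eta,
    Fin.mk_one, Fin.reduceFinMk] <;> ring

/-- **The normal coefficients of a conic with a quadratic form**: a normalized curve on a conic
`E = 0` on which another quadratic form `Q`, positive on the conic, is constant is the Jacobi
curve. -/
theorem bgid_core {P : ℝ → Fin 3 → ℝ} {r m' : ℝ → ℝ} {Q E : QuadraticForm ℝ (Fin 3 → ℝ)}
    {q e : ℝ} (hcur : Curve 1 P) (hwr' : ∀ x, Wr P x = 1)
    (hode : ∀ x, deriv (deriv (deriv P)) x = -(r x) • deriv P x - m' x • P x)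
    (hnd : E.Nondegenerate) (hq : 0 < q) (hPQ : ∀ x, Q (P x) = q) (hPE : ∀ x, E (P x) = 0)
    (hPe : ∀ x, E (deriv P x) = e) (hQpos : ∀ v, v ≠ 0 → E v = 0 → 0 < Q v) :
    ∃ m : ℝ, 0 ≤ m ∧ m < 1 ∧ ∃ (M : Matrix (Fin 3) (Fin 3) ℝ) (c : ℝ),
      (∀ x, P x = PM m M (x + c)) ∧ (∀ x, r x = r0J m (x + c)) ∧
      (∀ x, m' x = m0J m (x + c)) := by
  have hwr : ∀ x, det3 (P x) (deriv P x) (deriv (deriv P) x) = 1 := hwr'
  have hsm := hcur.smooth
  have hd0 : ∀ x, HasDerivAt P (deriv P x) x := fun x =>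
    ((contDiff_infty_iff_deriv.1 hsm).1 x).hasDerivAt
  have hsm1 := (contDiff_infty_iff_deriv.1 hsm).2
  have hd1 : ∀ x, HasDerivAt (deriv P) (deriv (deriv P) x) x := fun x =>
    ((contDiff_infty_iff_deriv.1 hsm1).1 x).hasDerivAt
  -- the polar form
  have p1 : ∀ x, QuadraticMap.polar E (P x) (deriv P x) = 0 := by
    intro x
    have h1 := bgid_hd E (hd0 x)
    rw [show (fun x => E (P x)) = fun _ => (0:ℝ) from funext hPE] at h1
    exact h1.unique (hasDerivAt_const x 0)
  have p2 : ∀ x, QuadraticMap.polar E (P x) (deriv (deriv P) x) = -2 * e := by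
    intro x
    have h1 := bgid_hd2 E (hd0 x) (hd1 x)
    rw [show (fun x => QuadraticMap.polar E (P x) (deriv P x)) = fun _ => (0:ℝ) from
      funext p1] at h1
    have h2 := h1.unique (hasDerivAt_const x 0)
    rw [bgid_self, hPe] at h2
    linarith
  have p3 : ∀ x, QuadraticMap.polar E (deriv P x) (deriv (deriv P) x) = 0 := by
    intro x
    have h1 := bgid_hd E (hd1 x)
    rw [show (fun x => E (deriv P x)) = fun _ => e from funext hPe] at h1
    exact h1.unique (hasDerivAt_const x e)
  -- the normalized conic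
  have he : e ≠ 0 := by
    intro he
    have hP0 : P 0 ≠ 0 := by
      intro h0
      have := hwr 0
      rw [h0] at this
      simp [det3] at this
    have : Invertible (2:ℝ) := invertibleOfNonzero two_ne_zero
    refine hP0 ((QuadraticMap.nondegenerate_polar_iff.2 hnd).1 (P 0) fun v => ?_)
    rw [QuadraticMap.polarBilin_apply_apply]
    have h1 := cramer3 (P 0) (deriv P 0) (deriv (deriv P) 0) v
    rw [hwr, one_smul] at h1
    rw [h1, QuadraticMap.polar_add_right, QuadraticMap.polar_add_right,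
      QuadraticMap.polar_smul_right, QuadraticMap.polar_smul_right,
      QuadraticMap.polar_smul_right, bgid_self, hPE, p1, p2, he]
    simp
  obtain ⟨E1, hE1⟩ : ∃ E1 : QuadraticForm ℝ (Fin 3 → ℝ), E1 = e⁻¹ • E := ⟨_, rfl⟩
  have hE1v : ∀ v, E1 v = e⁻¹ * E v := fun v => by
    rw [hE1, smul_apply, smul_eq_mul]
  have hE1p : ∀ u v, QuadraticMap.polar E1 u v = e⁻¹ * QuadraticMap.polar E u v := fun u v => by
    simp only [QuadraticMap.polar, hE1v]
    ring
  have hform := bgid_form (E := E1) (hwr 0) (by rw [hE1v, hPE, mul_zero])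
    (by rw [hE1p, p1, mul_zero]) (by rw [hE1p, p2]; field_simp)
    (by rw [hE1v, hPe]; field_simp) (by rw [hE1p, p3, mul_zero])
  have hQ1 : ∀ v, v ≠ 0 → E1 v = 0 → 0 < Q v := by
    intro v hv hEv
    rw [hE1v] at hEv
    rcases mul_eq_zero.1 hEv with h | h
    · exact absurd h (inv_ne_zero he)
    · exact hQpos v hv h
  obtain ⟨g, A, B, cc, hB, hBA, hg⟩ := pencil_normal E1 Q hform hQ1
  have hA : 0 < A := hB.trans_le hBA
  -- the coordinates
  have hw : ∀ x, HasDerivAt (fun x => g.symm (P x)) (g.symm (deriv P x)) x := fun x =>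
    (g.symm.toLinearMap.toContinuousLinearMap).hasFDerivAt.comp_hasDerivAt x (hd0 x)
  have hwi : ∀ i x, HasDerivAt (fun x => g.symm (P x) i) (g.symm (deriv P x) i) x :=
    fun i x => hasDerivAt_pi.1 (hw x) i
  have hcv : ∀ i, Continuous fun x => g.symm (deriv P x) i := by
    intro i
    have h1 : Continuous fun x => g.symm (deriv P x) :=
      (g.symm.toLinearMap.toContinuousLinearMap).continuous.comp hsm1.continuous
    exact (continuous_apply i).comp h1
  have k1 : ∀ x, g.symm (P x) 0 ^ 2 + g.symm (P x) 1 ^ 2 = g.symm (P x) 2 ^ 2 := by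
    intro x
    have h1 := (hg (g.symm (P x))).1
    rw [LinearEquiv.apply_symm_apply, hE1v, hPE, mul_zero] at h1
    linarith
  have k2 : ∀ x, A * g.symm (P x) 0 ^ 2 + B * g.symm (P x) 1 ^ 2 = q := by
    intro x
    have h1 := (hg (g.symm (P x))).2
    rw [LinearEquiv.apply_symm_apply, hPQ] at h1
    have h2 := k1 x
    rw [show g.symm (P x) 0 ^ 2 + g.symm (P x) 1 ^ 2 - g.symm (P x) 2 ^ 2 = 0 by linarith,
      mul_zero, add_zero] at h1
    exact h1.symm
  have k3 : ∀ x, g.symm (deriv P x) 0 ^ 2 + g.symm (deriv P x) 1 ^ 2 -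
      g.symm (deriv P x) 2 ^ 2 = 1 := by
    intro x
    have h1 := (hg (g.symm (deriv P x))).1
    rw [LinearEquiv.apply_symm_apply, hE1v, hPe] at h1
    rw [← h1]
    field_simp
  obtain ⟨s, t, hs, ht, hpos, j0, j1, j2⟩ := bgid_ode hB hBA hq (hwi 0) (hwi 1) (hwi 2) (hcv 0)
    (hcv 1) k1 k2 k3
  obtain ⟨al, hal⟩ : ∃ al, al = √(A / q) := ⟨_, rfl⟩
  obtain ⟨be, hbe⟩ : ∃ be, be = √(B / q) := ⟨_, rfl⟩
  have hal0 : 0 < al := hal ▸ Real.sqrt_pos.2 (by positivity)
  have hbe0 : 0 < be := hbe ▸ Real.sqrt_pos.2 (by positivity)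
  have hal2 : al ^ 2 = A / q := hal ▸ Real.sq_sqrt (by positivity)
  have hbe2 : be ^ 2 = B / q := hbe ▸ Real.sq_sqrt (by positivity)
  rw [← hal, ← hbe] at j0 j2
  rw [← hbe, ← hal] at j1
  rw [← hbe] at hpos
  obtain ⟨m, hm⟩ : ∃ m, m = 1 - B / A := ⟨_, rfl⟩
  rw [← hm] at j2
  have hm0 : 0 ≤ m := by
    rw [hm, sub_nonneg, div_le_one hA]
    exact hBA
  have hm1 : m < 1 := by
    rw [hm]
    have := div_pos hB hA
    linarith
  have l1 : ∀ x, (s * (al * g.symm (P x) 0)) ^ 2 + (be * g.symm (P x) 1) ^ 2 = 1 := by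
    intro x
    rw [mul_pow, hs, mul_pow, mul_pow, hal2, hbe2]
    have := k2 x
    field_simp
    linarith
  have l2 : ∀ x, (t * (be * g.symm (P x) 2)) ^ 2 + m * (s * (al * g.symm (P x) 0)) ^ 2 = 1 := by
    intro x
    rw [← l1 x, mul_pow, ht, mul_pow s, hs, mul_pow, mul_pow, ← k1 x, hm, mul_pow, hal2, hbe2]
    field_simp
    ring
  have hper : ∀ x i, g.symm (P (x + 1)) i = g.symm (P x) i := fun x i => by rw [hcur.per]
  have hrec : ∀ x, P x = g ![s / al * (s * (al * g.symm (P x) 0)),
      1 / be * (be * g.symm (P x) 1), t / be * (t * (be * g.symm (P x) 2))] := by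
    intro x
    rw [← LinearEquiv.symm_apply_eq]
    have e0 : s / al * (s * (al * g.symm (P x) 0)) = g.symm (P x) 0 := by
      have : s / al * (s * (al * g.symm (P x) 0)) = s ^ 2 * g.symm (P x) 0 := by
        field_simp
      rw [this, hs, one_mul]
    have e1 : 1 / be * (be * g.symm (P x) 1) = g.symm (P x) 1 := by
      field_simp
    have e2 : t / be * (t * (be * g.symm (P x) 2)) = g.symm (P x) 2 := by
      have : t / be * (t * (be * g.symm (P x) 2)) = t ^ 2 * g.symm (P x) 2 := by
        field_simp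
      rw [this, ht, one_mul]
    rw [e0, e1, e2]
    funext i
    fin_cases i <;> rfl
  obtain ⟨c, hc⟩ := jac_id hm0 hm1 hal0 (X := fun x => s * (al * g.symm (P x) 0))
    (Y := fun x => be * g.symm (P x) 1) (Z := fun x => t * (be * g.symm (P x) 2))
    j0 j1 j2 l1 l2 hpos (fun x => ⟨by simp only [hper], by simp only [hper]⟩) (by
      rintro x y hxy hyx ⟨h1, h2⟩
      have h3 : t * (be * g.symm (P x) 2) = t * (be * g.symm (P y) 2) := by
        have a1 := l2 x
        have a2 := l2 y
        rw [h1] at a1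
        have a3 := hpos x
        have a4 := hpos y
        have a5 : (t * (be * g.symm (P x) 2)) ^ 2 = (t * (be * g.symm (P y) 2)) ^ 2 := by
          linarith
        exact (pow_left_inj₀ a3.le a4.le two_ne_zero).1 a5
      have h4 : P x = P y := by
        rw [hrec x, hrec y, h1, h2, h3]
      have h5 := hcur.pos x y hxy hyx
      unfold dd at h5
      rw [h4] at h5
      simp only [det3] at h5
      have : P y 0 * (P y 1 * deriv P y 2 - P y 2 * deriv P y 1) -
          P y 1 * (P y 0 * deriv P y 2 - P y 2 * deriv P y 0) +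
          P y 2 * (P y 0 * deriv P y 1 - P y 1 * deriv P y 0) = 0 := by ring
      rw [this] at h5
      exact lt_irrefl _ h5)
  let L : (Fin 3 → ℝ) →ₗ[ℝ] (Fin 3 → ℝ) :=
    { toFun := fun v => g ![s / al * v 0, 1 / be * v 1, t / be * v 2]
      map_add' := fun u v => by
        rw [← map_add]
        congr 1
        funext i
        fin_cases i <;> simp [mul_add]
      map_smul' := fun a v => by
        rw [RingHom.id_apply, ← map_smul]
        congr 1
        funext i
        fin_cases i <;> simp <;> ring }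
  have hPM : ∀ x, P x = PM m (LinearMap.toMatrix' L) (x + c) := by
    intro x
    unfold PM
    rw [← hc x, LinearMap.toMatrix'_mulVec]
    exact hrec x
  have hPf : P = fun x => PM m (LinearMap.toMatrix' L) (x + c) := funext hPM
  have hP1 : ∀ x, deriv P x = deriv (PM m (LinearMap.toMatrix' L)) (x + c) := by
    intro x
    rw [hPf]
    exact deriv_comp_add_const _ _ _
  have hP2 : ∀ x, deriv (deriv P) x = deriv (deriv (PM m (LinearMap.toMatrix' L))) (x + c) := by
    intro x
    rw [funext hP1]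
    exact deriv_comp_add_const _ _ _
  have hP3 : ∀ x, deriv (deriv (deriv P)) x =
      deriv (deriv (deriv (PM m (LinearMap.toMatrix' L)))) (x + c) := by
    intro x
    rw [funext hP2]
    exact deriv_comp_add_const _ _ _
  have hco : ∀ x, r x = r0J m (x + c) ∧ m' x = m0J m (x + c) := by
    intro x
    have h1 := hode x
    have h2 := ode_PM hm0 hm1 (LinearMap.toMatrix' L) (x + c)
    rw [← hP3, ← hP1, ← hPM, h1] at h2
    have h3 : (r0J m (x + c) - r x) • deriv P x + (m0J m (x + c) - m' x) • P x = 0 := by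
      have : (r0J m (x + c) - r x) • deriv P x + (m0J m (x + c) - m' x) • P x =
          (-(r x) • deriv P x - m' x • P x) -
            (-(r0J m (x + c)) • deriv P x - m0J m (x + c) • P x) := by module
      rw [this, h2, sub_self]
    have hW := hwr x
    have q0 := congrFun h3 0
    have q1 := congrFun h3 1
    have q2 := congrFun h3 2
    simp only [Pi.add_apply, Pi.smul_apply, smul_eq_mul, Pi.zero_apply] at q0 q1 q2
    obtain ⟨α, hα⟩ : ∃ α, α = r0J m (x + c) - r x := ⟨_, rfl⟩
    obtain ⟨β, hβ⟩ : ∃ β, β = m0J m (x + c) - m' x := ⟨_, rfl⟩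
    rw [← hα, ← hβ] at q0 q1 q2
    unfold det3 at hW
    generalize deriv (deriv P) x = C2 at *
    generalize deriv P x = C1 at *
    generalize P x = C0 at *
    have z1 : β = 0 := by
      linear_combination (-β) * hW + (C1 1 * C2 2 - C1 2 * C2 1) * q0 +
        (C1 2 * C2 0 - C1 0 * C2 2) * q1 + (C1 0 * C2 1 - C1 1 * C2 0) * q2
    have z2 : α = 0 := by
      linear_combination (-α) * hW + (C2 1 * C0 2 - C2 2 * C0 1) * q0 +
        (C2 2 * C0 0 - C2 0 * C0 2) * q1 + (C2 0 * C0 1 - C2 1 * C0 0) * q2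
    exact ⟨by linarith, by linarith⟩
  exact ⟨m, hm0, hm1, LinearMap.toMatrix' L, c, hPM, fun x => (hco x).1, fun x => (hco x).2⟩

end Pool.Agent.MP_ae5b4e_an_LOC
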