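import Mathlib
import Pool.Agent.Lib.MP_ae5b4e_an_LOC.NeD0
import Pool.Agent.Lib.MP_ae5b4e_an_RIG.GDef
import Pool.Agent.Lib.MP_ae5b4e_an_NC.Fra
import Pool.Agent.Lib.MP_ae5b4e_an_RG.CFin

/-!
# MP_ae5b4e_an, project LOC, curves near a conic: the conic in its normal form as the unit circle
-/

noncomputable section

namespace Pool.Agent.MP_ae5b4e_an_LOC

open Real Set Filter Topology Matrix
open scoped ContDiff
open Pool.Agent.MP_ae5b4e_an_hopf
open Pool.Agent.MP_ae5b4e_an_RG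
open Pool.Agent.MP_ae5b4e_an_RIG (Normal lift)
open Pool.Agent.MP_ae5b4e_an_rat (gg gd gg_pos)
open Pool.Agent.MP_ae5b4e_an_MET (conic qform coef EF QH)

namespace NeG

variable {κ σ lam r m : ℝ → ℝ}

lemma hdσ (hN : Normal circ1 κ σ lam r m) (x : ℝ) : HasDerivAt σ (deriv σ x) x :=
  (hN.smooth_σ.differentiable (by simp) x).hasDerivAt

lemma hdl (hN : Normal circ1 κ σ lam r m) (x : ℝ) : HasDerivAt lam (deriv lam x) x :=
  (hN.smooth_lam.differentiable (by simp) x).hasDerivAt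

/-- the derivative of the lift -/
lemma hd_lift (hN : Normal circ1 κ σ lam r m) (x : ℝ) : HasDerivAt (lift circ1 σ lam)
    (deriv lam x • circ1.Γ (σ x) + (lam x * deriv σ x) • deriv circ1.Γ (σ x)) x := by
  have hC := circ1.isCurve
  have k2 := (hC.hd0 (σ x)).scomp x (hdσ hN x)
  refine ((hdl hN x).smul k2).congr_deriv ?_
  funext i
  simp only [Function.comp, Pi.add_apply, Pi.smul_apply, smul_eq_mul]
  ring

lemma deriv_lift (hN : Normal circ1 κ σ lam r m) : deriv (lift circ1 σ lam) = fun x =>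
    deriv lam x • circ1.Γ (σ x) + (lam x * deriv σ x) • deriv circ1.Γ (σ x) :=
  funext fun x => (hd_lift hN x).deriv

lemma hd_lift2 (hN : Normal circ1 κ σ lam r m) (x : ℝ) : HasDerivAt (deriv (lift circ1 σ lam))
    (deriv (deriv lam) x • circ1.Γ (σ x) +
      (deriv lam x * deriv σ x + deriv (fun x => lam x * deriv σ x) x) • deriv circ1.Γ (σ x) +
      (lam x * deriv σ x * deriv σ x) • deriv (deriv circ1.Γ) (σ x)) x := by
  have hC := circ1.isCurve
  rw [deriv_lift hN]
  have hl1 : ContDiff ℝ ∞ (deriv lam) := (contDiff_infty_iff_deriv.1 hN.smooth_lam).2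
  have hs1 : ContDiff ℝ ∞ (deriv σ) := (contDiff_infty_iff_deriv.1 hN.smooth_σ).2
  have hc : ContDiff ℝ ∞ (fun x => lam x * deriv σ x) := hN.smooth_lam.mul hs1
  have k0 := (hl1.differentiable (by simp) x).hasDerivAt
  have k1 := (hc.differentiable (by simp) x).hasDerivAt
  have k2 := (hC.hd0 (σ x)).scomp x (hdσ hN x)
  have k3 := (hC.hd1 (σ x)).scomp x (hdσ hN x)
  refine ((k0.smul k2).add (k1.smul k3)).congr_deriv ?_
  funext i
  simp only [Function.comp, Pi.add_apply, Pi.smul_apply, smul_eq_mul]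
  ring

lemma Wr_circ (t : ℝ) : det3 (circ1.Γ t) (deriv circ1.Γ t) (deriv (deriv circ1.Γ) t) = 1 := by
  have e1 : deriv circ1.Γ = fun t => ![-Real.sin t, Real.cos t, 0] := by
    funext t
    refine HasDerivAt.deriv (hasDerivAt_pi.2 fun i => ?_)
    fin_cases i
    · exact Real.hasDerivAt_cos t
    · exact Real.hasDerivAt_sin t
    · exact hasDerivAt_const t 1
  have e2 : deriv (deriv circ1.Γ) = fun t => ![-Real.cos t, -Real.sin t, 0] := by
    rw [e1]
    funext t
    refine HasDerivAt.deriv (hasDerivAt_pi.2 fun i => ?_)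
    fin_cases i
    · exact (Real.hasDerivAt_sin t).neg
    · exact Real.hasDerivAt_cos t
    · exact hasDerivAt_const t 0
  rw [e2, e1]
  have e0 : circ1.Γ t = ![Real.cos t, Real.sin t, 1] := rfl
  rw [e0]
  simp only [det3, Matrix.cons_val_zero, Matrix.cons_val_one, Matrix.cons_val]
  have := Real.sin_sq_add_cos_sq t
  nlinarith

/-- the speed of the normal parameter -/
lemma lam_σ (hN : Normal circ1 κ σ lam r m) (x : ℝ) : lam x * deriv σ x = 1 := by
  have h1 := hN.wr x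
  rw [(hd_lift2 hN x).deriv, (hd_lift hN x).deriv] at h1
  have h2 : det3 (lift circ1 σ lam x)
      (deriv lam x • circ1.Γ (σ x) + (lam x * deriv σ x) • deriv circ1.Γ (σ x))
      (deriv (deriv lam) x • circ1.Γ (σ x) +
      (deriv lam x * deriv σ x + deriv (fun x => lam x * deriv σ x) x) • deriv circ1.Γ (σ x) +
      (lam x * deriv σ x * deriv σ x) • deriv (deriv circ1.Γ) (σ x)) =
      (lam x * deriv σ x) ^ 3 *
        det3 (circ1.Γ (σ x)) (deriv circ1.Γ (σ x)) (deriv (deriv circ1.Γ) (σ x)) := by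
    unfold lift det3
    simp only [Pi.smul_apply, Pi.add_apply, smul_eq_mul]
    ring
  rw [h2, Wr_circ, mul_one] at h1
  have h3 : 0 < lam x * deriv σ x := mul_pos (hN.pos_lam x) (hN.pos_σ x)
  have h4 : (lam x * deriv σ x - 1) * ((lam x * deriv σ x) ^ 2 + lam x * deriv σ x + 1) = 0 := by
    linear_combination h1
  rcases mul_eq_zero.1 h4 with h5 | h5
  · linarith
  · nlinarith

lemma L1_lift (hN : Normal circ1 κ σ lam r m) {x y : ℝ} (hn : dd circ1.Γ (σ x) (σ y) ≠ 0) :
    L1 (lift circ1 σ lam) x y = deriv σ x * (κ (σ x) / 2 + L1 circ1.Γ (σ x) (σ y)) := by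
  have a1 := (hN.pos_lam x).ne'
  have a2 := (hN.pos_lam y).ne'
  have a3 := (hN.pos_σ y).ne'
  have hdd : dd (lift circ1 σ lam) x y =
      lam x * lam y * (lam y * deriv σ y) * dd circ1.Γ (σ x) (σ y) := by
    unfold dd
    rw [deriv_lift hN]
    unfold lift det3
    simp only [Pi.smul_apply, Pi.add_apply, smul_eq_mul]
    ring
  have hddx : ddx (lift circ1 σ lam) x y = (lam x * deriv σ x) * lam y * (lam y * deriv σ y) *
      ((κ (σ x) / 2) * dd circ1.Γ (σ x) (σ y) + ddx circ1.Γ (σ x) (σ y)) := by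
    unfold ddx dd
    rw [deriv_lift hN]
    simp only
    rw [hN.eq_lam x]
    unfold lift det3
    simp only [Pi.smul_apply, Pi.add_apply, smul_eq_mul]
    ring
  unfold L1
  rw [hddx, hdd]
  field_simp

lemma L1_cot (x y : ℝ) : L1 circ1.Γ x y = Real.cot ((x - y) / 2) := by
  rw [L1_circ, Real.cot_eq_cos_div_sin]
  have e1 : Real.sin (x - y) = 2 * Real.sin ((x - y) / 2) * Real.cos ((x - y) / 2) := by
    rw [← Real.sin_two_mul]; congr 1; ring
  have e2 : 1 - Real.cos (x - y) = 2 * Real.sin ((x - y) / 2) * Real.sin ((x - y) / 2) := by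
    have h1 : Real.cos (x - y) = 1 - 2 * Real.sin ((x - y) / 2) ^ 2 := by
      have h2 := Real.cos_two_mul ((x - y) / 2)
      have h3 := Real.sin_sq_add_cos_sq ((x - y) / 2)
      rw [show 2 * ((x - y) / 2) = x - y by ring] at h2
      linarith
    rw [h1]; ring
  rw [e1, e2]
  by_cases h : Real.sin ((x - y) / 2) = 0
  · simp [h]
  · field_simp

lemma cot_neg (x : ℝ) : Real.cot (-x) = -Real.cot x := by
  rw [Real.cot_eq_cos_div_sin, Real.cot_eq_cos_div_sin, Real.cos_neg, Real.sin_neg, div_neg]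

/-- the speed is bounded from below -/
lemma speed (hN : Normal circ1 κ σ lam r m) : ∃ c > 0, ∀ x, c ≤ deriv σ x := by
  have hs1 : ContDiff ℝ ∞ (deriv σ) := (contDiff_infty_iff_deriv.1 hN.smooth_σ).2
  have hp : Function.Periodic (deriv σ) 1 := by
    intro x
    have h1 : (fun s => σ (s + 1)) = fun s => σ s + circ1.T := funext hN.per_σ
    have h2 := congrFun (congrArg deriv h1) x
    rw [deriv_comp_add_const, deriv_add_const] at h2
    exact h2
  obtain ⟨y, hy, hmin⟩ := (isCompact_Icc (a := (0:ℝ)) (b := 1)).exists_isMinOn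
    ⟨0, by norm_num⟩ hs1.continuous.continuousOn
  refine ⟨deriv σ y, hN.pos_σ y, fun x => ?_⟩
  obtain ⟨z, hz, hz'⟩ := hp.exists_mem_Ico₀ one_pos x
  rw [hz']
  exact hmin ⟨hz.1, hz.2.le⟩

/-- **The closing property of the normalized conic is the one of the field of the circle.** -/
theorem core_of_closP {Q : ℝ → Fin 3 → ℝ} {M : Matrix (Fin 3) (Fin 3) ℝ} (hQ : Curve 1 Q)
    (hM : M.det = 1) (hl : ∀ x, lift circ1 σ lam x = M *ᵥ Q x) (hN : Normal circ1 κ σ lam r m)
    (hc : ClosP Q) : Core κ := by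
  obtain ⟨ε, hε, H⟩ := hc
  obtain ⟨c, hc0, hcσ⟩ := speed hN
  have hσm : StrictMono σ := strictMono_of_deriv_pos hN.pos_σ
  have hσc : Continuous σ := hN.smooth_σ.continuous
  have hT : circ1.T = 2 * π := rfl
  have hpi := Real.pi_pos
  have hσn : ∀ (n : ℤ) x, σ (x + n) = σ x + 2 * π * n := by
    intro n x
    have h4 : Function.Periodic (fun t => σ t - 2 * π * t) 1 := by
      intro t
      simp only [hN.per_σ, hT]
      ring
    have h5 := h4.int_mul n x
    simp only [mul_one] at h5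
    linarith
  have hsurj : Function.Surjective σ := by
    intro t
    obtain ⟨n, hn⟩ := exists_int_gt ((t - σ 0) / (2 * π))
    obtain ⟨n', hn'⟩ := exists_int_lt ((t - σ 0) / (2 * π))
    rw [div_lt_iff₀ (by positivity)] at hn
    rw [lt_div_iff₀ (by positivity)] at hn'
    have h1 := hσn n 0
    have h2 := hσn n' 0
    have h3 : (n' : ℝ) ≤ n := by
      by_contra hcon
      push Not at hcon
      nlinarith
    obtain ⟨x, -, hx⟩ := intermediate_value_Icc (show (0 + n' : ℝ) ≤ 0 + n by linarith)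
      hσc.continuousOn (show t ∈ Icc (σ (0 + n')) (σ (0 + n)) from
        ⟨by rw [h2]; linarith, by rw [h1]; linarith⟩)
    exact ⟨x, hx⟩
  have hfun : lift circ1 σ lam = fun x => M *ᵥ Q x := funext hl
  refine ⟨min (c * ε) (2 * π), lt_min (by positivity) (by positivity), ?_⟩
  intro θ q k hq hper h0 h1 heq
  choose X hX using fun j => hsurj (θ j)
  have hXlt : ∀ j, X j < X (j + 1) := by
    intro j
    have h2 := h0 j
    rw [← hσm.lt_iff_lt, hX, hX]
    linarith
  have hXstep : ∀ j, X (j + 1) - X j < ε := by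
    intro j
    have h2 := (h1 j).trans_le (min_le_left _ _)
    have h3 : c * (X (j + 1) - X j) ≤ σ (X (j + 1)) - σ (X j) :=
      Convex.mul_sub_le_image_sub_of_le_deriv (convex_univ)
        hσc.continuousOn (hN.smooth_σ.differentiable (by simp)).differentiableOn
        (fun x _ => hcσ x) _ (mem_univ _) _ (mem_univ _) (hXlt j).le
    rw [hX, hX] at h3
    have h4 : c * (X (j + 1) - X j) < c * ε := lt_of_le_of_lt h3 h2
    exact lt_of_mul_lt_mul_left h4 hc0.le
  have hXper : ∀ j, X (j + q) = X j + k := by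
    intro j
    apply hσm.injective
    rw [hX, hσn, hX, hper]
  have hconv : ∀ j, L1 Q (X j) (X (j - 1)) + L1 Q (X j) (X (j + 1)) =
      deriv σ (X j) * (κ (θ j) - (Real.cot ((θ (j + 1) - θ j) / 2) -
        Real.cot ((θ j - θ (j - 1)) / 2))) := by
    intro j
    have b1 := h0 j
    have b2 := (h1 j).trans_le (min_le_right _ _)
    have b3 := h0 (j - 1)
    have b4 := (h1 (j - 1)).trans_le (min_le_right _ _)
    rw [sub_add_cancel] at b3 b4
    have hC := circ1.isCurve
    have e1 : L1 Q (X j) (X (j - 1)) =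
        deriv σ (X j) * (κ (θ j) / 2 + L1 circ1.Γ (θ j) (θ (j - 1))) := by
      have k1 := Pool.Agent.MP_ae5b4e_an_NC.L1_mv M hQ hM (X j) (X (j - 1))
      rw [← hfun, L1_lift hN, hX, hX] at k1
      · exact k1.symm
      · rw [hX, hX]
        refine (hC.dd_pos (by linarith) ?_).ne'
        rw [hT, abs_lt]
        constructor <;> linarith
    have e2 : L1 Q (X j) (X (j + 1)) =
        deriv σ (X j) * (κ (θ j) / 2 + L1 circ1.Γ (θ j) (θ (j + 1))) := by
      have k1 := Pool.Agent.MP_ae5b4e_an_NC.L1_mv M hQ hM (X j) (X (j + 1))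
      rw [← hfun, L1_lift hN, hX, hX] at k1
      · exact k1.symm
      · rw [hX, hX]
        refine (hC.dd_pos (by linarith) ?_).ne'
        rw [hT, abs_lt]
        constructor <;> linarith
    rw [e1, e2, L1_cot, L1_cot, show (θ j - θ (j + 1)) / 2 = -((θ (j + 1) - θ j) / 2) by ring,
      cot_neg]
    ring
  have key := H X q k hq hXper (fun j => by linarith [hXlt j]) hXstep fun j hj => by
    rw [hconv, heq j hj, sub_self, mul_zero]
  have k2 := hconv 0
  rw [zero_sub, zero_add, key] at k2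
  rcases mul_eq_zero.1 k2.symm with h5 | h5
  · exact absurd h5 (hN.pos_σ _).ne'
  · linarith

/-- the circle -/
lemma E_Γ (t : ℝ) : EF 0 0 1 0 1 (circ1.Γ t) = 0 := by
  rw [MP_ae5b4e_an_MET.EF_apply]
  simp only [MP_ae5b4e_an_MET.EC]
  have e0 : circ1.Γ t 0 = Real.cos t := rfl
  have e1 : circ1.Γ t 1 = Real.sin t := rfl
  have e2 : circ1.Γ t 2 = 1 := rfl
  rw [e0, e1, e2]
  linear_combination Real.sin_sq_add_cos_sq t

lemma E_val (v : Fin 3 → ℝ) : EF 0 0 1 0 1 v = v 0 ^ 2 + v 1 ^ 2 - v 2 ^ 2 := by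
  rw [MP_ae5b4e_an_MET.EF_apply]
  simp only [MP_ae5b4e_an_MET.EC]
  ring

lemma qform_Γ (b₁ c₁ b₂ c₂ t : ℝ) :
    qform (qq b₁ c₁ b₂ c₂) (circ1.Γ t) = gg b₁ c₁ t * gg b₂ c₂ t := by
  rw [MP_ae5b4e_an_MET.qform_apply, QH_qq]
  have e0 : circ1.Γ t 0 = Real.cos t := rfl
  have e1 : circ1.Γ t 1 = Real.sin t := rfl
  have e2 : circ1.Γ t 2 = 1 := rfl
  rw [e0, e1, e2]
  unfold gg
  ring

/-- **The two forms of the pencil on the normalized conic** -/
theorem forms (hN : Normal circ1 κ σ lam r m) {b₁ c₁ b₂ c₂ : ℝ} (hb₁ : b₁ ^ 2 < 4 * c₁)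
    (hb₂ : b₂ ^ 2 < 4 * c₂) (hκ : ∀ θ, κ θ * (gg b₁ c₁ θ * gg b₂ c₂ θ) =
        -(gd b₁ c₁ θ * gg b₂ c₂ θ + gg b₁ c₁ θ * gd b₂ c₂ θ)) :
    ∃ q > 0, (∀ x, qform (qq b₁ c₁ b₂ c₂) (lift circ1 σ lam x) = q) ∧
      (∀ x, EF 0 0 1 0 1 (lift circ1 σ lam x) = 0) ∧
      (∀ x, EF 0 0 1 0 1 (deriv (lift circ1 σ lam) x) = 1) ∧
      ∀ v, v ≠ 0 → EF 0 0 1 0 1 v = 0 → 0 < qform (qq b₁ c₁ b₂ c₂) v := by
  have hpos : ∀ t, 0 < gg b₁ c₁ t * gg b₂ c₂ t := fun t => mul_pos (gg_pos hb₁ t) (gg_pos hb₂ t)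
  have hval : ∀ x, qform (qq b₁ c₁ b₂ c₂) (lift circ1 σ lam x) =
      lam x * lam x * (gg b₁ c₁ (σ x) * gg b₂ c₂ (σ x)) := by
    intro x
    unfold lift
    rw [QuadraticMap.map_smul, qform_Γ, smul_eq_mul]
  have hd : ∀ x, HasDerivAt
      (fun x => lam x * lam x * (gg b₁ c₁ (σ x) * gg b₂ c₂ (σ x))) 0 x := by
    intro x
    have k1 := (hd_gg b₁ c₁ (σ x)).comp x (hdσ hN x)
    have k2 := (hd_gg b₂ c₂ (σ x)).comp x (hdσ hN x)
    refine (((hdl hN x).mul (hdl hN x)).mul (k1.mul k2)).congr_deriv ?_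
    simp only [Function.comp, Pi.mul_apply]
    rw [hN.eq_lam]
    linear_combination (lam x ^ 2 * deriv σ x) * hκ (σ x)
  have hcon : ∀ x, lam x * lam x * (gg b₁ c₁ (σ x) * gg b₂ c₂ (σ x)) =
      lam 0 * lam 0 * (gg b₁ c₁ (σ 0) * gg b₂ c₂ (σ 0)) := fun x =>
    is_const_of_deriv_eq_zero (fun x => (hd x).differentiableAt) (fun x => (hd x).deriv) x 0
  refine ⟨lam 0 * lam 0 * (gg b₁ c₁ (σ 0) * gg b₂ c₂ (σ 0)), ?_, fun x => ?_, fun x => ?_,
    fun x => ?_, fun v hv hE => ?_⟩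
  · have h1 := hN.pos_lam 0
    have h2 := hpos (σ 0)
    positivity
  · rw [hval, hcon]
  · unfold lift
    rw [QuadraticMap.map_smul, E_Γ, smul_zero]
  · rw [deriv_lift hN, E_val]
    have e1 : deriv circ1.Γ (σ x) = ![-Real.sin (σ x), Real.cos (σ x), 0] := by
      refine HasDerivAt.deriv (hasDerivAt_pi.2 fun i => ?_)
      fin_cases i
      · exact Real.hasDerivAt_cos _
      · exact Real.hasDerivAt_sin _
      · exact hasDerivAt_const _ 1
    have e0 : circ1.Γ (σ x) = ![Real.cos (σ x), Real.sin (σ x), 1] := rfl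
    simp only [lam_σ hN x, one_smul, e1, e0, Pi.add_apply, Pi.smul_apply, smul_eq_mul,
      Matrix.cons_val_zero, Matrix.cons_val_one, Matrix.cons_val]
    linear_combination (deriv lam x ^ 2 + 1) * Real.sin_sq_add_cos_sq (σ x)
  · rw [E_val] at hE
    have h2 : v 2 ≠ 0 := by
      intro h0
      rw [h0] at hE
      have h3 : v 0 = 0 := by nlinarith [sq_nonneg (v 0), sq_nonneg (v 1)]
      have h4 : v 1 = 0 := by nlinarith [sq_nonneg (v 0), sq_nonneg (v 1)]
      apply hv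
      funext i
      fin_cases i
      · exact h3
      · exact h4
      · exact h0
    obtain ⟨t, h3, h4⟩ := MP_ae5b4e_an_MET.Circ.exists_ang (c := v 0 / v 2) (s := v 1 / v 2) (by
      field_simp
      linarith)
    have h5 : v = v 2 • circ1.Γ t := by
      have e0 : circ1.Γ t = ![Real.cos t, Real.sin t, 1] := rfl
      rw [e0, h3, h4]
      funext i
      fin_cases i
      · simp; field_simp
      · simp; field_simp
      · simp
    rw [h5, QuadraticMap.map_smul, qform_Γ, smul_eq_mul]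
    have h6 : 0 < v 2 * v 2 := mul_self_pos.2 h2
    exact mul_pos h6 (hpos t)

end NeG

end Pool.Agent.MP_ae5b4e_an_LOC
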