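import Mathlib
import Pool.Agent.Lib.MP_ae5b4e_an_LOC.NeP
import Pool.Agent.Lib.MP_ae5b4e_an_FA.Fin

/-!
# MP_ae5b4e_an, project LOC, curves near a conic: fields with the closing property

An analytic field of involutions of the tangent lines of the unit circle with the closing property
is the field of a pencil of conics: it is minus the logarithmic derivative of a quadratic form which
is positive on the circle.
-/

noncomputable section

namespace Pool.Agent.MP_ae5b4e_an_LOC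

open Complex Set Filter Topology Metric
open scoped ContDiff Polynomial
open Pool.Agent.MP_ae5b4e_an_SM
open Pool.Agent.MP_ae5b4e_an_RG

section con

open Pool.Agent.MP_ae5b4e_an_NBT

/-- the conic datum -/
theorem exists_con_core {κ : ℝ → ℝ} (hU : CoreF κ) :
    ∃ (k : ℂ → ℂ) (F : ℂ × ℂ → ℂ) (c : ℝ), Con k F c ∧
      ∀ θ : ℝ, k (exp (θ * I)) = -(exp (θ * I))⁻¹ + κ θ / (2 * I * exp (θ * I)) := by
  obtain ⟨b, c, r, ψ, F, hψ, hc, hr, -, hF, -, hel⟩ := smooth_core hU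
  obtain ⟨K, hK⟩ := exists_circle_ext hU.analytic_κ hU.κ_per
  obtain ⟨c', Z, hZ, hsy⟩ := dat_refl hψ hc hr hF hel (K := K) (fun θ => (hK θ).1)
    (fun θ => (hK θ).2.symm) (k := fun w => -w⁻¹ + K w / (2 * I * w))
    (fun z _ _ => EventuallyEq.rfl)
  obtain ⟨c'', G, hG⟩ := con_of_dat hZ hsy
  refine ⟨_, G, c'', hG, fun θ => ?_⟩
  show -(exp (θ * I))⁻¹ + K (exp (θ * I)) / (2 * I * exp (θ * I)) = _
  rw [(hK θ).2]

end con

section rat

open Pool.Agent.MP_ae5b4e_an_MERO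

/-- A field which agrees on one arc with a function with countably many singularities is
rational. -/
theorem rational_core {κ : ℝ → ℝ} (hU : CoreF κ) {K₁ : ℂ → ℂ}
    (hK₁ : {z | ¬ AnalyticAt ℂ K₁ z}.Countable) {θ₀ : ℝ}
    (hκ₁ : ∀ᶠ θ : ℝ in 𝓝 θ₀, (κ θ : ℂ) = K₁ (exp (θ * I))) :
    ∃ A B : Polynomial ℝ, B ≠ 0 ∧ ∀ θ : ℝ, Real.cos (θ / 2) ≠ 0 →
      κ θ * B.eval (Real.tan (θ / 2)) = A.eval (Real.tan (θ / 2)) := by
  obtain ⟨K, hK, hKc, hκ⟩ := fix_circle hU.analytic_κ hU.κ_per hK₁ hκ₁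
  obtain ⟨b, c, r, ψ, F, hψ, hc, hr, -, hF, -, hel⟩ := smooth_core hU
  -- the kernel in the coordinate `z`
  set k₀ : ℂ → ℂ := fun w => -w⁻¹ + K w / (2 * I * w) with hk₀
  have hk₀a : ∀ z, z ≠ 0 → AnalyticAt ℂ K z → AnalyticAt ℂ k₀ z := by
    intro z hz hKz
    refine ((analyticAt_id.inv hz).neg).add (hKz.div (analyticAt_const.mul analyticAt_id) ?_)
    simpa using hz
  have hA₀ : CSing k₀ := by
    refine (hK.union (countable_singleton (0:ℂ))).mono ?_
    intro z hz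
    by_contra h
    simp only [mem_union, mem_ofPred_eq, mem_singleton_iff, not_or, not_not] at h
    exact hz (hk₀a z h.2 h.1)
  obtain ⟨k, hN, hA, hkk⟩ := exists_nrm hA₀
  obtain ⟨c', Z, hD⟩ := dat_of_smooth hψ hc hr hF hel hKc hκ (k := k)
    (fun z hz hKz => hkk z (hk₀a z hz hKz))
  by_cases hE : ∃ e, ¬ MeromorphicAt k e
  · obtain ⟨e, he⟩ := hE
    obtain ⟨k', F', h1, h2, h3, h4⟩ := chart hA hN hD he
    exact (MP_ae5b4e_an_MERO.core h1 h2 h3 h4).elim
  push Not at hE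
  by_cases hinf : SingInf k
  · exact (MP_ae5b4e_an_MERO.core hA hN hinf hD).elim
  unfold SingInf at hinf
  push Not at hinf
  obtain ⟨P, Q, hQ, hPQ⟩ := rational_of_meromorphic hE hinf
  refine rat_of_rational (P := Polynomial.C (2 * I) * (Polynomial.X * P + Q)) hQ fun θ => ?_
  have h0 : exp ((θ : ℂ) * I) ≠ 0 := exp_ne_zero _
  have h1 := hkk _ (hk₀a _ h0 (hKc θ))
  have h2 : AnalyticAt ℂ k (exp ((θ : ℂ) * I)) := (hk₀a _ h0 (hKc θ)).congr h1.symm
  have h3 := hPQ _ h2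
  rw [h1.self_of_nhds] at h3
  simp only [hk₀] at h3
  rw [← hκ] at h3
  simp only [Polynomial.eval_mul, Polynomial.eval_C, Polynomial.eval_add, Polynomial.eval_X]
  have hI : (I : ℂ) ≠ 0 := I_ne_zero
  rw [← h3]
  field_simp
  ring

end rat

section kern

open Pool.Agent.MP_ae5b4e_an_NBT
open Pool.Agent.MP_ae5b4e_an_SVC
open Pool.Agent.MP_ae5b4e_an_FV (ukern)

/-- every field with the closing property is rational -/
theorem rational_of_core {κ : ℝ → ℝ} (hU : CoreF κ) :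
    ∃ A B : Polynomial ℝ, B ≠ 0 ∧ ∀ θ : ℝ, Real.cos (θ / 2) ≠ 0 →
      κ θ * B.eval (Real.tan (θ / 2)) = A.eval (Real.tan (θ / 2)) := by
  obtain ⟨k, F, c, hC, hk⟩ := exists_con_core hU
  have hrat := Pool.Agent.MP_ae5b4e_an_FA.con_rational hC
  have H₀ := crv_of_con hC
  -- the base point
  set θ₀ : ℝ := (F (0, 0)).arg with hθ₀
  have hx₀ : F (0, 0) = exp (θ₀ * I) := by
    have h1 : ‖F (0, 0)‖ = 1 := by
      have := H₀.circ 0
      rwa [ofReal_zero] at this
    have h2 := norm_mul_exp_arg_mul_I (F (0, 0))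
    rw [h1, ofReal_one, one_mul] at h2
    exact h2.symm
  have hne : ∀ θ : ℝ, exp (θ * I) ≠ 0 := fun θ => exp_ne_zero _
  have huk : ∀ θ : ℝ, ukern k (exp (θ * I)) = κ θ := by
    intro θ
    have h1 := hne θ
    unfold ukern
    rw [hk]
    field_simp
    ring
  obtain ⟨P, Q, hQ, hPQ⟩ := hrat
  -- a good point of the circle
  have hcont : Tendsto (fun θ : ℝ => exp (θ * I)) (𝓝 θ₀) (𝓝 (exp (θ₀ * I))) := by
    have : Continuous fun θ : ℝ => exp (θ * I) := by fun_prop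
    exact this.continuousAt
  rw [hx₀] at hPQ
  obtain ⟨δ, hδ, hev⟩ := Metric.eventually_nhds_iff_ball.1 (hcont.eventually hPQ)
  obtain ⟨θ₁, hθ₁, hQ₁⟩ : ∃ θ₁ ∈ Ioo θ₀ (θ₀ + min δ 1), Q.eval (exp (θ₁ * I)) ≠ 0 := by
    by_contra hcon
    push Not at hcon
    have hinj : InjOn (fun θ : ℝ => exp (θ * I)) (Ioo θ₀ (θ₀ + min δ 1)) := by
      intro a ha b hb hab
      obtain ⟨n, hn⟩ := exp_eq_exp_iff_exists_int.1 hab
      have h1 : (a : ℂ) = b + n * (2 * Real.pi) := by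
        have h2 : (I : ℂ) ≠ 0 := I_ne_zero
        apply mul_right_cancel₀ h2
        rw [hn]
        ring
      have h3 : a = b + n * (2 * Real.pi) := by exact_mod_cast h1
      have h4 : min δ 1 ≤ 1 := min_le_right _ _
      have h5 : |(n : ℝ) * (2 * Real.pi)| < 1 := by
        rw [show (n : ℝ) * (2 * Real.pi) = a - b by rw [h3]; ring, abs_lt]
        constructor <;> linarith [ha.1, ha.2, hb.1, hb.2]
      have h6 : n = 0 := by
        by_contra hn0
        have h7 : (1:ℝ) ≤ |(n:ℝ)| := by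
          have := Int.one_le_abs hn0
          exact_mod_cast this
        rw [abs_mul, abs_of_pos Real.two_pi_pos] at h5
        have h8 : (6:ℝ) < 2 * Real.pi := by linarith [Real.pi_gt_three]
        nlinarith
      rw [h3, h6]
      simp
    have hfinite : (Ioo θ₀ (θ₀ + min δ 1)).Finite := by
      refine Set.Finite.of_finite_image (f := fun θ : ℝ => exp (θ * I)) ?_ hinj
      refine (Q.roots.toFinset.finite_toSet).subset ?_
      rintro _ ⟨θ, hθ, rfl⟩
      simp only [Finset.mem_coe, Multiset.mem_toFinset, Polynomial.mem_roots hQ,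
        Polynomial.IsRoot.def]
      exact hcon θ hθ
    exact (Ioo_infinite (by have := lt_min hδ one_pos; linarith)) hfinite
  have hθδ : ∀ᶠ θ : ℝ in 𝓝 θ₁, θ ∈ ball θ₀ δ := by
    refine isOpen_ball.mem_nhds ?_
    rw [mem_ball, Real.dist_eq, abs_lt]
    have h4 : min δ 1 ≤ δ := min_le_left _ _
    constructor <;> linarith [hθ₁.1, hθ₁.2]
  -- the rational field
  set K₁ : ℂ → ℂ := fun x => 2 * I * x * (P.eval x / Q.eval x + x⁻¹) with hK₁
  have hcount : {z : ℂ | ¬ AnalyticAt ℂ K₁ z}.Countable := by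
    have hfinite : (insert (0:ℂ) (Q.roots.toFinset : Set ℂ)).Finite :=
      (Q.roots.toFinset.finite_toSet).insert 0
    refine hfinite.countable.mono fun z hz => ?_
    by_contra hcon
    rw [mem_insert_iff, not_or] at hcon
    obtain ⟨hz0, hzQ⟩ := hcon
    have hQz : Q.eval z ≠ 0 := by
      intro h
      apply hzQ
      simp only [Finset.mem_coe, Multiset.mem_toFinset, Polynomial.mem_roots hQ,
        Polynomial.IsRoot.def]
      exact h
    apply hz
    have hpoly : ∀ R : ℂ[X], AnalyticAt ℂ (fun x => R.eval x) z := fun R =>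
      AnalyticOnNhd.eval_polynomial R z (mem_univ _)
    exact (analyticAt_const.mul analyticAt_id).mul
      (((hpoly P).div (hpoly Q) hQz).add (analyticAt_id.inv hz0))
  refine rational_core hU hcount (θ₀ := θ₁) ?_
  have hQev : ∀ᶠ θ : ℝ in 𝓝 θ₁, Q.eval (exp (θ * I)) ≠ 0 := by
    have : Continuous fun θ : ℝ => Q.eval (exp (θ * I)) := by fun_prop
    exact this.continuousAt.eventually_ne hQ₁
  filter_upwards [hθδ, hQev] with θ h1 h2
  have h3 := hev θ h1
  have h4 : k (exp (θ * I)) = P.eval (exp (θ * I)) / Q.eval (exp (θ * I)) := by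
    rw [eq_div_iff h2]
    exact h3
  rw [hK₁]
  show _ = 2 * I * exp (θ * I) * (P.eval (exp (θ * I)) / Q.eval (exp (θ * I)) + (exp (θ * I))⁻¹)
  rw [← h4, ← huk θ]
  rfl

end kern

section factors

open Pool.Agent.MP_ae5b4e_an_rat (gg gd gg_pos)
open Pool.Agent.MP_ae5b4e_an_MET (qform QH)

/-- the factors of the field -/
theorem factors_of_core {κ : ℝ → ℝ} (hU : CoreF κ) :
    ∃ b₁ c₁ b₂ c₂ : ℝ, b₁ ^ 2 < 4 * c₁ ∧ b₂ ^ 2 < 4 * c₂ ∧
      ∀ θ, κ θ * (gg b₁ c₁ θ * gg b₂ c₂ θ) =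
        -(gd b₁ c₁ θ * gg b₂ c₂ θ + gg b₁ c₁ θ * gd b₂ c₂ θ) := by
  obtain ⟨A, B, hB, hrat⟩ := rational_of_core hU
  obtain ⟨b, c, r, κ', ψ, F, hψ, hc, hr, hrc, hκ1, hcb, hF, hE⟩ := smooth_core' hU
  obtain ⟨u, q, hu⟩ := exists_qleaf hψ hc hr hκ1 hF hE
  exact hu.exists_factors (continuous_iff_continuousAt.2 fun θ => (hU.analytic_κ θ).continuousAt)
    hU.κ_per hB hrat

/-- **Theorem.** A field of involutions with the closing property is the field of a pencil: it is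
minus the logarithmic derivative of a quadratic form on the circle. -/
theorem form_of_core {κ : ℝ → ℝ} (hU : CoreF κ) :
    ∃ Q : QuadraticForm ℝ (Fin 3 → ℝ), (∀ θ, 0 < Q (circ1.Γ θ)) ∧
      ∀ θ, HasDerivAt (fun t => Q (circ1.Γ t)) (-(κ θ * Q (circ1.Γ θ))) θ := by
  obtain ⟨b₁, c₁, b₂, c₂, hb₁, hb₂, hk⟩ := factors_of_core hU
  have hval : ∀ θ, qform (qq b₁ c₁ b₂ c₂) (circ1.Γ θ) = gg b₁ c₁ θ * gg b₂ c₂ θ := by
    intro θ
    rw [MP_ae5b4e_an_MET.qform_apply, QH_qq]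
    have e0 : circ1.Γ θ 0 = Real.cos θ := rfl
    have e1 : circ1.Γ θ 1 = Real.sin θ := rfl
    have e2 : circ1.Γ θ 2 = 1 := rfl
    rw [e0, e1, e2]
    unfold gg
    ring
  refine ⟨qform (qq b₁ c₁ b₂ c₂), fun θ => ?_, fun θ => ?_⟩
  · rw [hval]
    exact mul_pos (gg_pos hb₁ θ) (gg_pos hb₂ θ)
  · have h2 := (hd_gg b₁ c₁ θ).mul (hd_gg b₂ c₂ θ)
    rw [hval, hk, neg_neg]
    refine h2.congr_of_eventuallyEq (Eventually.of_forall fun t => ?_)
    exact hval t

end factors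

end Pool.Agent.MP_ae5b4e_an_LOC
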