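import Mathlib
import Pool.Agent.Lib.MP_ae5b4e_an_LOC.JCon
import Pool.Agent.Lib.MP_ae5b4e_an_LOC.BgP0
import Pool.Agent.Lib.MP_ae5b4e_an_LOC.BgId
import Pool.Agent.Lib.MP_ae5b4e_an_LOC.Shf
import Pool.Agent.Lib.MP_ae5b4e_an_LOC.TopL
import Pool.Agent.Lib.MP_ae5b4e_an_LOC.FinL
import Pool.Agent.Lib.MP_ae5b4e_an_NC.Cir

/-!
# MP_ae5b4e_an, project LOC: the uniform version

The size of the neighbourhood of a pencil depends only on the bound `K` of the coefficients, on the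
reach `δ` and (for `δ ≤ 3 / 7`) on a lower bound `η` of the oscillation of the coefficient `r` of the
pencil.

PROOF.  The coefficients of the pencils are `r0J μ (x + c)`, `m0J μ (x + c)` (`exists_bgid`), they
are periodic in `x` and continuous in `(μ, c)`, and a bound of the coefficients bounds the modulus
away from one (`KK_bd`).  So the neighbourhoods of finitely many of them are enough.
-/

set_option autoImplicit false

noncomputable section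

namespace Pool.Agent.MP_ae5b4e_an_LOC

open Set Filter Topology
open scoped ContDiff Matrix
open Pool.Agent.MP_ae5b4e_an_hopf
open Pool.Agent.MP_ae5b4e_an_RG
open Pool.Agent.MP_ae5b4e_an_RIG

private lemma kk_arg : Continuous fun z : Ico (0:ℝ) 1 × ℝ => KK (z.1 : ℝ) :=
  KK_joint.comp continuous_fst

private lemma mod_arg : Continuous fun z : Ico (0:ℝ) 1 × ℝ => (z.1 : ℝ) :=
  continuous_subtype_val.comp continuous_fst

private lemma arg_joint : Continuous fun z : Ico (0:ℝ) 1 × ℝ =>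
    ((z.1, 4 * KK (z.1 : ℝ) * z.2) : Ico (0:ℝ) 1 × ℝ) :=
  continuous_fst.prodMk ((continuous_const.mul kk_arg).mul continuous_snd)

private lemma sn_arg :
    Continuous fun z : Ico (0:ℝ) 1 × ℝ => sn (z.1 : ℝ) (4 * KK (z.1 : ℝ) * z.2) := by
  have h := Continuous.comp sn_joint arg_joint
  simp only [Function.comp_def] at h
  exact h

private lemma cn_arg :
    Continuous fun z : Ico (0:ℝ) 1 × ℝ => cn (z.1 : ℝ) (4 * KK (z.1 : ℝ) * z.2) := by
  have h := Continuous.comp cn_joint arg_joint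
  simp only [Function.comp_def] at h
  exact h

private lemma dn_arg :
    Continuous fun z : Ico (0:ℝ) 1 × ℝ => dn (z.1 : ℝ) (4 * KK (z.1 : ℝ) * z.2) := by
  have h := Continuous.comp dn_joint arg_joint
  simp only [Function.comp_def] at h
  exact h

lemma r0J_joint : Continuous fun z : Ico (0:ℝ) 1 × ℝ => r0J (z.1 : ℝ) z.2 := by
  unfold r0J
  refine Continuous.mul ?_ (Continuous.sub ?_ ?_)
  · exact (continuous_const.mul kk_arg).pow 2
  · exact continuous_const.add mod_arg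
  · exact (continuous_const.mul mod_arg).mul (sn_arg.pow 2)

lemma m0J_joint : Continuous fun z : Ico (0:ℝ) 1 × ℝ => m0J (z.1 : ℝ) z.2 := by
  unfold m0J
  refine Continuous.neg (Continuous.mul (Continuous.mul ?_ ?_) ?_)
  · exact continuous_const.mul ((continuous_const.mul kk_arg).pow 3)
  · exact mod_arg
  · exact (sn_arg.mul cn_arg).mul dn_arg

/-- uniform closeness of nearby backgrounds -/
lemma sup_near {g : ℝ → ℝ → ℝ} (hg : Continuous fun z : Ico (0:ℝ) 1 × ℝ => g z.1 z.2)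
    (hp : ∀ μ ∈ Ico (0:ℝ) 1, Function.Periodic (g μ) 1) (p : Ico (0:ℝ) 1 × ℝ) {ε : ℝ}
    (hε : 0 < ε) : ∀ᶠ q in 𝓝 p, ∀ x, |g q.1 (x + q.2) - g p.1 (x + p.2)| ≤ ε := by
  have h1 : ∀ᶠ q in 𝓝 p, ∀ x ∈ Icc (0:ℝ) 1, |g q.1 (x + q.2) - g p.1 (x + p.2)| < ε := by
    refine isCompact_Icc.eventually_forall_of_forall_eventually
      (P := fun (q : Ico (0:ℝ) 1 × ℝ) x => |g q.1 (x + q.2) - g p.1 (x + p.2)| < ε)
      fun x _ => ?_
    have hc : Continuous fun z : (Ico (0:ℝ) 1 × ℝ) × ℝ =>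
        |g z.1.1 (z.2 + z.1.2) - g p.1 (z.2 + p.2)| := by
      refine (Continuous.sub ?_ ?_).abs
      · exact hg.comp ((continuous_fst.comp continuous_fst).prodMk
          (continuous_snd.add (continuous_snd.comp continuous_fst)))
      · exact hg.comp (continuous_const.prodMk (continuous_snd.add continuous_const))
    have h2 := hc.tendsto (p, x)
    simp only [sub_self, abs_zero] at h2
    exact h2.eventually_lt_const hε
  filter_upwards [h1] with q hq x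
  have hper : Function.Periodic (fun x => (g q.1 (x + q.2), g p.1 (x + p.2))) 1 := by
    intro x
    simp only [Prod.mk.injEq]
    exact ⟨by rw [show x + 1 + q.2 = x + q.2 + 1 by ring, hp _ q.1.2],
      by rw [show x + 1 + p.2 = x + p.2 + 1 by ring, hp _ p.1.2]⟩
  obtain ⟨y, hy, hy'⟩ := hper.exists_mem_Ico₀ one_pos x
  simp only [Prod.mk.injEq] at hy'
  rw [hy'.1, hy'.2]
  exact (hq y (Ico_subset_Icc_self hy)).le

/-- the set of parameters of the backgrounds -/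
lemma isCompact_par {a b : ℝ} (ha : 0 ≤ a) (hb : b < 1) :
    IsCompact ({z : Ico (0:ℝ) 1 | a ≤ z ∧ (z : ℝ) ≤ b} ×ˢ Icc (0:ℝ) 1) := by
  refine IsCompact.prod ?_ isCompact_Icc
  rw [Subtype.isCompact_iff]
  have h1 : Subtype.val '' {z : Ico (0:ℝ) 1 | a ≤ z ∧ (z : ℝ) ≤ b} = Icc a b := by
    ext x
    constructor
    · rintro ⟨z, hz, rfl⟩
      exact hz
    · intro hx
      exact ⟨⟨x, ha.trans hx.1, hx.2.trans_lt hb⟩, hx, rfl⟩
  rw [h1]
  exact isCompact_Icc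

/-- the uniform neighbourhood of the backgrounds with the moduli in `[a, b]` -/
theorem unif_bg {K δ a b : ℝ} (ha : 0 ≤ a) (hb : b < 1) (H : ∀ μ ∈ Icc a b, BgNear K δ μ) :
    ∃ ε : ℝ, 0 < ε ∧ ∀ μ ∈ Icc a b, ∀ s : ℝ, ∀ (γ : ConvexCurve) (U : ℝ → ℝ → ℝ)
      (κ σ lam r m : ℝ → ℝ), Pool.Agent.MP_ae5b4e_an_RIG.Sol γ U κ → Normal γ κ σ lam r m → Bnd K r m → Reach γ U σ δ →
      (∀ x, |r x - r0J μ (x + s)| ≤ ε) → (∀ x, |m x - m0J μ (x + s)| ≤ ε) → Pencil γ U := by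
  -- the compactness argument
  have key : ∃ ε : ℝ, 0 < ε ∧ ∀ p ∈ ({z : Ico (0:ℝ) 1 | a ≤ z ∧ (z : ℝ) ≤ b} ×ˢ Icc (0:ℝ) 1),
      ∀ (γ : ConvexCurve) (U : ℝ → ℝ → ℝ) (κ σ lam r m : ℝ → ℝ), Pool.Agent.MP_ae5b4e_an_RIG.Sol γ U κ →
      Normal γ κ σ lam r m → Bnd K r m → Reach γ U σ δ →
      (∀ x, |r x - r0J p.1 (x + p.2)| ≤ ε) → (∀ x, |m x - m0J p.1 (x + p.2)| ≤ ε) →
      Pencil γ U := by
    refine (isCompact_par ha hb).induction_on (p := fun T : Set (Ico (0:ℝ) 1 × ℝ) =>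
      ∃ ε : ℝ, 0 < ε ∧ ∀ p ∈ T,
      ∀ (γ : ConvexCurve) (U : ℝ → ℝ → ℝ) (κ σ lam r m : ℝ → ℝ), Pool.Agent.MP_ae5b4e_an_RIG.Sol γ U κ →
      Normal γ κ σ lam r m → Bnd K r m → Reach γ U σ δ →
      (∀ x, |r x - r0J p.1 (x + p.2)| ≤ ε) → (∀ x, |m x - m0J p.1 (x + p.2)| ≤ ε) →
      Pencil γ U) ?_ ?_ ?_ ?_
    · exact ⟨1, one_pos, fun p hp => absurd hp (notMem_empty p)⟩
    · rintro S T hST ⟨ε, hε, F⟩
      exact ⟨ε, hε, fun p hp => F p (hST hp)⟩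
    · rintro S T ⟨ε, hε, F⟩ ⟨ε', hε', F'⟩
      refine ⟨min ε ε', lt_min hε hε', fun p hp γ U κ σ lam r m h1 h2 h3 h4 h5 h6 => ?_⟩
      rcases hp with hp | hp
      · exact F p hp γ U κ σ lam r m h1 h2 h3 h4 (fun x => (h5 x).trans (min_le_left _ _))
          fun x => (h6 x).trans (min_le_left _ _)
      · exact F' p hp γ U κ σ lam r m h1 h2 h3 h4 (fun x => (h5 x).trans (min_le_right _ _))
          fun x => (h6 x).trans (min_le_right _ _)
    · rintro p hp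
      obtain ⟨ε, hε, F⟩ := H p.1 hp.1
      have hr := sup_near r0J_joint (fun μ hμ => per_r0J hμ.1 hμ.2) p (half_pos hε)
      have hm := sup_near m0J_joint (fun μ hμ => per_m0J hμ.1 hμ.2) p (half_pos hε)
      refine ⟨_, mem_nhdsWithin_of_mem_nhds (hr.and hm), ε / 2, half_pos hε,
        fun q hq γ U κ σ lam r m h1 h2 h3 h4 h5 h6 => ?_⟩
      have hq1 : ∀ x, |r0J q.1 (x + q.2) - r0J p.1 (x + p.2)| ≤ ε / 2 := hq.1
      have hq2 : ∀ x, |m0J q.1 (x + q.2) - m0J p.1 (x + p.2)| ≤ ε / 2 := hq.2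
      have c1 : ∀ x, |r x - r0J p.1 (x + p.2)| ≤ ε := fun x => by
        have := abs_sub_le (r x) (r0J q.1 (x + q.2)) (r0J p.1 (x + p.2))
        linarith [h5 x, hq1 x]
      have c2 : ∀ x, |m x - m0J p.1 (x + p.2)| ≤ ε := fun x => by
        have := abs_sub_le (m x) (m0J q.1 (x + q.2)) (m0J p.1 (x + p.2))
        linarith [h6 x, hq2 x]
      refine F γ U κ _ _ _ _ h1 (Normal_shift h2 (-p.2)) (Bnd.shift h3 (-p.2))
        (Reach_shift h4 (-p.2)) (fun x => ?_) fun x => ?_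
      · have := c1 (x + -p.2)
        rwa [neg_add_cancel_right] at this
      · have := c2 (x + -p.2)
        rwa [neg_add_cancel_right] at this
  obtain ⟨ε, hε, F⟩ := key
  refine ⟨ε, hε, fun μ hμ s γ U κ σ lam r m h1 h2 h3 h4 h5 h6 => ?_⟩
  have hμ' : μ ∈ Ico (0:ℝ) 1 := ⟨ha.trans hμ.1, hμ.2.trans_lt hb⟩
  obtain ⟨c, hc, hc'⟩ := (per_r0J hμ'.1 hμ'.2).exists_mem_Ico₀ one_pos s
  set n : ℤ := ⌊s⌋ with hn
  have hfr : Int.fract s ∈ Icc (0:ℝ) 1 := ⟨Int.fract_nonneg s, (Int.fract_lt_one s).le⟩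
  have e1 : ∀ x, r0J μ (x + s) = r0J μ (x + Int.fract s) := fun x => by
    have := (per_r0J hμ'.1 hμ'.2).int_mul n (x + Int.fract s)
    rw [← this]
    congr 1
    rw [mul_one, add_assoc, hn, Int.fract_add_floor]
  have e2 : ∀ x, m0J μ (x + s) = m0J μ (x + Int.fract s) := fun x => by
    have := (per_m0J hμ'.1 hμ'.2).int_mul n (x + Int.fract s)
    rw [← this]
    congr 1
    rw [mul_one, add_assoc, hn, Int.fract_add_floor]
  refine F (⟨μ, hμ'⟩, Int.fract s) ⟨hμ, hfr⟩ γ U κ σ lam r m h1 h2 h3 h4 (fun x => ?_) fun x => ?_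
  · rw [← e1]
    exact h5 x
  · rw [← e2]
    exact h6 x

/-- the value of `r0J` at zero -/
lemma r0J_zero {μ : ℝ} (h0 : 0 ≤ μ) (h1 : μ < 1) : r0J μ 0 = 16 * KK μ ^ 2 * (1 + μ) := by
  unfold r0J
  rw [mul_zero, sn_zero h0 h1]
  ring

/-- a bound of the coefficient bounds the modulus -/
lemma mod_bd {μ K c : ℝ} (h0 : 0 ≤ μ) (h1 : μ < 1) (h : ∀ x, |r0J μ (x + c)| ≤ K) :
    16 * KK μ ^ 2 ≤ K ∧ μ ≤ 1 - Real.exp (-(2 * (K + 1))) := by
  have h2 := h (-c)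
  rw [neg_add_cancel, r0J_zero h0 h1] at h2
  have h3 := (le_abs_self _).trans h2
  have h4 : 16 * KK μ ^ 2 ≤ K := by nlinarith [sq_nonneg (KK μ)]
  have h5 := KK_pos h0 h1
  refine ⟨h4, KK_bd h0 h1 ?_⟩
  nlinarith [sq_nonneg (KK μ - 1)]

/-- the oscillation of the coefficient bounds the modulus below -/
lemma mod_osc {μ K c η : ℝ} (h0 : 0 ≤ μ) (h1 : μ < 1) (h : ∀ x, |r0J μ (x + c)| ≤ K) {x y : ℝ}
    (hxy : η ≤ |r0J μ (x + c) - r0J μ (y + c)|) : η ≤ 3 * K * μ := by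
  obtain ⟨h2, -⟩ := mod_bd h0 h1 h
  refine hxy.trans ?_
  unfold r0J
  have e : (4 * KK μ) ^ 2 * (1 + μ - 3 * μ * sn μ (4 * KK μ * (x + c)) ^ 2) -
      (4 * KK μ) ^ 2 * (1 + μ - 3 * μ * sn μ (4 * KK μ * (y + c)) ^ 2) =
      16 * KK μ ^ 2 * (3 * μ * (sn μ (4 * KK μ * (y + c)) ^ 2 -
        sn μ (4 * KK μ * (x + c)) ^ 2)) := by ring
  rw [e, abs_mul (16 * KK μ ^ 2), abs_mul (3 * μ), abs_of_nonneg (by positivity : (0:ℝ) ≤ 16 * KK μ ^ 2),
    abs_of_nonneg (by positivity : (0:ℝ) ≤ 3 * μ)]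
  have s1 : ∀ u, sn μ u ^ 2 ≤ 1 := fun u => by
    have := sn_sq_add μ u
    nlinarith [sq_nonneg (cn μ u)]
  have h3 : |sn μ (4 * KK μ * (y + c)) ^ 2 - sn μ (4 * KK μ * (x + c)) ^ 2| ≤ 1 := by
    rw [abs_le]
    constructor <;> nlinarith [s1 (4 * KK μ * (y + c)), s1 (4 * KK μ * (x + c)),
      sq_nonneg (sn μ (4 * KK μ * (y + c))), sq_nonneg (sn μ (4 * KK μ * (x + c)))]
  have h4 : 3 * μ * |sn μ (4 * KK μ * (y + c)) ^ 2 - sn μ (4 * KK μ * (x + c)) ^ 2| ≤ 3 * μ := by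
    have : 0 ≤ 3 * μ := by positivity
    nlinarith
  calc 16 * KK μ ^ 2 * (3 * μ * |sn μ (4 * KK μ * (y + c)) ^ 2 -
        sn μ (4 * KK μ * (x + c)) ^ 2|) ≤ K * (3 * μ) := by
        refine mul_le_mul h2 h4 (by positivity) ?_
        exact (by positivity : (0:ℝ) ≤ 16 * KK μ ^ 2).trans h2
    _ = 3 * K * μ := by ring

/-- **Theorem** (uniform version): the size of the neighbourhood of the pencils depends only on the
bound `K` of the coefficients, the reach `δ` and the lower bound `η` of the oscillation of `r`. -/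
theorem near_pencil_unif_of {K δ η : ℝ} (hη : 3 / 7 < δ ∨ 0 < η)
    (H1 : ∀ μ, 0 < μ → μ < 1 → BgNear K δ μ) (H0 : 3 / 7 < δ → BgNear K δ 0) :
    ∃ ε : ℝ, 0 < ε ∧
    ∀ (γ0 : ConvexCurve) (U0 : ℝ → ℝ → ℝ) (κ0 σ0 lam0 r0 m0 : ℝ → ℝ), Pool.Agent.MP_ae5b4e_an_RIG.Sol γ0 U0 κ0 →
      Normal γ0 κ0 σ0 lam0 r0 m0 → Pencil γ0 U0 → (∀ x, |r0 x| ≤ K) →
      (∃ x y, η ≤ |r0 x - r0 y|) →
    ∀ (γ : ConvexCurve) (U : ℝ → ℝ → ℝ) (κ σ lam r m : ℝ → ℝ), Pool.Agent.MP_ae5b4e_an_RIG.Sol γ U κ →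
      Normal γ κ σ lam r m → Bnd K r m → Reach γ U σ δ → (∀ x, |r x - r0 x| ≤ ε) →
      (∀ x, |m x - m0 x| ≤ ε) → Pencil γ U := by
  have hb : 1 - Real.exp (-(2 * (K + 1))) < 1 := by
    have := Real.exp_pos (-(2 * (K + 1)))
    linarith
  -- the smallest modulus
  obtain ⟨a, ha, ha0, hosc⟩ : ∃ a : ℝ, 0 ≤ a ∧ (a = 0 → 3 / 7 < δ) ∧ ∀ μ : ℝ, 0 ≤ μ → 0 ≤ K →
      η ≤ 3 * K * μ → a ≤ μ := by
    by_cases h : 3 / 7 < δ
    · exact ⟨0, le_rfl, fun _ => h, fun μ h0 _ _ => h0⟩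
    · have h' : 0 < η := hη.resolve_left h
      by_cases hK : 0 < K
      · refine ⟨η / (3 * K), by positivity, fun h2 => ?_, fun μ _ _ h2 => ?_⟩
        · have : 0 < η / (3 * K) := by positivity
          linarith
        · rw [div_le_iff₀ (by positivity)]
          linarith
      · refine ⟨1, zero_le_one, fun h2 => absurd h2 one_ne_zero, fun μ _ h3 h2 => ?_⟩
        have hK0 : K = 0 := le_antisymm (not_lt.1 hK) h3
        rw [hK0] at h2
        linarith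
  obtain ⟨ε, hε, F⟩ := unif_bg (K := K) (δ := δ) ha hb (fun μ hμ => by
    rcases (ha.trans hμ.1).eq_or_lt with h | h
    · have : a = 0 := le_antisymm (hμ.1.trans h.symm.le) ha
      rw [← h]
      exact H0 (ha0 this)
    · exact H1 μ h (hμ.2.trans_lt hb))
  refine ⟨ε, hε, fun γ0 U0 κ0 σ0 lam0 r0 m0 h0 hN0 hP0 hK0 hosc0 γ U κ σ lam r m h1 h2 h3 h4 h5
    h6 => ?_⟩
  obtain ⟨μ, μ0, μ1, M, c, -, -, hr0, hm0⟩ := exists_bgid h0 hN0 hP0
  have hK' : ∀ x, |r0J μ (x + c)| ≤ K := fun x => by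
    rw [← hr0]
    exact hK0 x
  obtain ⟨x, y, hxy⟩ := hosc0
  rw [hr0, hr0] at hxy
  have hKn : 0 ≤ K := (abs_nonneg _).trans (hK0 0)
  refine F μ ⟨hosc μ μ0 hKn (mod_osc μ0 μ1 hK' hxy), (mod_bd μ0 μ1 hK').2⟩ c γ U κ σ lam r m h1 h2
    h3 h4 (fun x => ?_) fun x => ?_
  · rw [← hr0]
    exact h5 x
  · rw [← hm0]
    exact h6 x

/-- the quarter period of the modulus zero -/
lemma KK_at_zero : KK 0 = Real.pi / 2 := by
  unfold KK ath rad
  simp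

/-- the background with the modulus zero is the circle -/
theorem bgNear_zero {K δ : ℝ} (hδ : 3 / 7 < δ) : BgNear K δ 0 := by
  obtain ⟨ε, hε, H⟩ := Pool.Agent.MP_ae5b4e_an_NC.near_circle_K (K := K) hδ
  refine ⟨ε, hε, fun γ U κ σ lam r m h hN hB hR hr hm => H γ U κ σ lam r m h hN hB hR
    (fun x => ?_) fun x => ?_⟩
  · have h1 := hr x
    unfold r0J at h1
    rw [KK_at_zero] at h1
    have e : (4 * (Real.pi / 2)) ^ 2 * (1 + 0 - 3 * 0 * sn 0 (4 * (Real.pi / 2) * x) ^ 2) =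
      4 * Real.pi ^ 2 := by ring
    rwa [e] at h1
  · have h1 := hm x
    unfold m0J at h1
    have e : -(3 * (4 * KK 0) ^ 3 * 0 * (sn 0 (4 * KK 0 * x) * cn 0 (4 * KK 0 * x) *
      dn 0 (4 * KK 0 * x))) = 0 := by ring
    rwa [e, sub_zero] at h1

/-- **Theorem** (uniform version): every solution with the a priori bound `K` and the reach `δ` that
is sufficiently near SOME pencil with the bound `K` is a pencil; for `δ ≤ 3 / 7` the pencil has to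
have a coefficient `r` of oscillation at least `η > 0`. -/
theorem near_pencil_unif {K δ η : ℝ} (hδ : 0 < δ) (hη : 3 / 7 < δ ∨ 0 < η) :
    ∃ ε : ℝ, 0 < ε ∧
    ∀ (γ0 : ConvexCurve) (U0 : ℝ → ℝ → ℝ) (κ0 σ0 lam0 r0 m0 : ℝ → ℝ), Pool.Agent.MP_ae5b4e_an_RIG.Sol γ0 U0 κ0 →
      Normal γ0 κ0 σ0 lam0 r0 m0 → Pencil γ0 U0 → (∀ x, |r0 x| ≤ K) →
      (∃ x y, η ≤ |r0 x - r0 y|) →
    ∀ (γ : ConvexCurve) (U : ℝ → ℝ → ℝ) (κ σ lam r m : ℝ → ℝ), Pool.Agent.MP_ae5b4e_an_RIG.Sol γ U κ →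
      Normal γ κ σ lam r m → Bnd K r m → Reach γ U σ δ → (∀ x, |r x - r0 x| ≤ ε) →
      (∀ x, |m x - m0 x| ≤ ε) → Pencil γ U :=
  near_pencil_unif_of hη (fun _ h0 h1 => bgNear_pos hδ h0 h1) fun h => bgNear_zero h

end Pool.Agent.MP_ae5b4e_an_LOC
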