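import Mathlib
import Pool.Agent.Lib.MP_ae5b4e_an_LOC.Unif
import Pool.Agent.Lib.MP_ae5b4e_an_LOC.NeA2
import Pool.Agent.Lib.MP_ae5b4e_an_LOC.NeC3
import Pool.Agent.Lib.MP_ae5b4e_an_LOC.NeD
import Pool.Agent.Lib.MP_ae5b4e_an_LOC.NeF
import Pool.Agent.Lib.MP_ae5b4e_an_LOC.NeG
import Pool.Agent.Lib.MP_ae5b4e_an_LOC.NeQ

/-!
# MP_ae5b4e_an, project LOC: solutions whose curve is near a conic at one point are pencils
-/

noncomputable section

namespace Pool.Agent.MP_ae5b4e_an_LOC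

open Real Set Filter Topology Matrix
open scoped ContDiff
open Pool.Agent.MP_ae5b4e_an_hopf
open Pool.Agent.MP_ae5b4e_an_RG
open Pool.Agent.MP_ae5b4e_an_RIG (Bnd Reach Normal lift rU)
open Pool.Agent.MP_ae5b4e_an_MET (conic qform coef EF QH)

/-- the field of a normalized conic with the closing property is the field of a pencil -/
theorem bg_of_closP {Q : ℝ → Fin 3 → ℝ} {s m : ℝ → ℝ} (h : NLim Q s m)
    (hm : ∀ x, m x = deriv s x / 2) (hC : Curve 1 Q → ClosP Q) :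
    ∃ μ, 0 ≤ μ ∧ μ < 1 ∧ ∃ c, (∀ x, s x = r0J μ (x + c)) ∧ ∀ x, m x = m0J μ (x + c) := by
  obtain ⟨hcur, M, σ, lam, κ, hM, hl, hN, ha, hκp, hκi, -, -⟩ := conic_normal h hm
  obtain ⟨b₁, c₁, b₂, c₂, hb₁, hb₂, hk⟩ :=
    factors_of_core ⟨ha, hκp, hκi, NeG.core_of_closP hcur hM hl hN (hC hcur)⟩
  obtain ⟨q, hq, h1, h2, h3, h4⟩ := NeG.forms hN hb₁ hb₂ hk
  have hcur' : Curve 1 (lift circ1 σ lam) := by
    rw [show lift circ1 σ lam = fun x => M *ᵥ Q x from funext hl]
    exact Pool.Agent.MP_ae5b4e_an_NC.curve_mv M hcur hM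
  obtain ⟨μ, hμ0, hμ1, -, c, -, hr, hm'⟩ :=
    bgid_core hcur' hN.wr hN.ode circ_nondeg hq h1 h2 h3 h4
  exact ⟨μ, hμ0, hμ1, c, hr, hm'⟩

/-- **Theorem.** For all bounds `K`, `δ`, `η` there are `N` and `ε` such that every solution with
these bounds whose curve has, at one point, contact of order `N` up to `ε` with a conic, is a
pencil of conics. -/
theorem near_conic {K δ η : ℝ} (hδ : 0 < δ) (hη : 0 < η) :
    ∃ (N : ℕ) (ε : ℝ), 0 < ε ∧ ∀ (γ : ConvexCurve) (U : ℝ → ℝ → ℝ) (κ σ lam r m : ℝ → ℝ),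
      Pool.Agent.MP_ae5b4e_an_RIG.Sol γ U κ → Normal γ κ σ lam r m → Bnd K r m →
      Reach γ U σ δ → (∃ x₀, ∀ j ≤ N, |iteratedDeriv j (fun x => m x - deriv r x / 2) x₀| ≤ ε) →
      (3 / 7 < δ ∨ ∃ x y, η ≤ |r x - r y|) → Pencil γ U := by
  by_contra hcon
  push Not at hcon
  have hseq : ∀ k : ℕ, ∃ (γ : ConvexCurve) (U : ℝ → ℝ → ℝ) (κ σ lam r m : ℝ → ℝ),
      Pool.Agent.MP_ae5b4e_an_RIG.Sol γ U κ ∧ Normal γ κ σ lam r m ∧ Bnd K r m ∧
      Reach γ U σ δ ∧ (∀ j ≤ k, |iteratedDeriv j (fun x => m x - deriv r x / 2) 0| ≤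
        1 / ((k : ℝ) + 1)) ∧ (3 / 7 < δ ∨ ∃ x y, η ≤ |r x - r y|) ∧ ¬ Pencil γ U := by
    intro k
    obtain ⟨γ, U, κ, σ, lam, r, m, hS, hN, hB, hR, ⟨x₀, hx⟩, hA, hP⟩ :=
      hcon k (1 / ((k:ℝ) + 1)) (by positivity)
    refine ⟨γ, U, κ, _, _, _, _, hS, Normal_shift hN x₀, Bnd.shift hB x₀, Reach_shift hR x₀,
      fun j hj => ?_, ?_, hP⟩
    · have h1 : (fun x => m (x + x₀) - deriv (fun x => r (x + x₀)) x / 2) =
          fun x => (fun x => m x - deriv r x / 2) (x + x₀) := by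
        funext x
        simp only [deriv_comp_add_const]
      have h2 : iteratedDeriv j (fun x => (fun x => m x - deriv r x / 2) (x + x₀)) 0 =
          iteratedDeriv j (fun x => m x - deriv r x / 2) x₀ := by
        have h3 := congrFun (iteratedDeriv_comp_add_const j (fun x => m x - deriv r x / 2) x₀) 0
        rw [zero_add] at h3
        exact h3
      rw [h1, h2]
      exact hx j hj
    · rcases hA with h | ⟨x, y, h⟩
      · exact Or.inl h
      · refine Or.inr ⟨x - x₀, y - x₀, ?_⟩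
        simpa using h
  choose γ U κ σ lam r m hS hN hB hR hΘ hA hP using hseq
  have hK : 0 ≤ K := (abs_nonneg _).trans ((hB 0).r0 0)
  have hnsk : ∀ k, NSK K δ (lift (γ k) (σ k) (lam k)) (rU (κ k) (σ k) (U k)) (r k) (m k) :=
    fun k => nsk_of_sol (hS k) (hN k) (hB k) (hR k)
  obtain ⟨φ, P', Q, s, m0, hφ, hP', -, hQ, hm0, u0, u1, -, ur, um, -, -⟩ :=
    exists_limit hK hδ hnsk (by
      intro j
      rw [tendsto_zero_iff_abs_tendsto_zero]
      refine squeeze_zero' (Eventually.of_forall fun k => abs_nonneg _) ?_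
        tendsto_one_div_add_atTop_nhds_zero_nat
      filter_upwards [eventually_ge_atTop j] with k hk
      have := hΘ k j hk
      rwa [iteratedDeriv_eq_iterate] at this)
  obtain ⟨μ, hμ0, hμ1, c, hs, hs'⟩ := bg_of_closP hQ hm0 fun hcur =>
    closP_of_lim hδ (fun k => (hP' k).sys) (fun k => (hP' k).step) hcur u0 u1
  -- the background is admissible
  have hnear : BgNear K δ μ := by
    by_cases h37 : 3 / 7 < δ
    · rcases hμ0.eq_or_lt with h0 | h0
      · rw [← h0]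
        exact bgNear_zero h37
      · exact bgNear_pos hδ h0 hμ1
    · refine bgNear_pos hδ (lt_of_le_of_ne hμ0 fun h0 => ?_) hμ1
      have hsc : ∀ x y, s x = s y := by
        intro x y
        rw [hs, hs, ← h0]
        simp [r0J]
      rw [Metric.tendstoUniformly_iff] at ur
      obtain ⟨k, hk⟩ := (ur (η / 4) (by positivity)).exists
      rcases hA (φ k) with h1 | ⟨x, y, h1⟩
      · exact h37 h1
      · have h2 := hk x
        have h3 := hk y
        rw [Real.dist_eq, abs_lt] at h2 h3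
        have h4 := hsc x y
        have h5 : |r (φ k) x - r (φ k) y| < η := by
          rw [abs_lt]
          constructor <;> linarith
        exact absurd h1 (not_le.2 h5)
  obtain ⟨ε, hε, H⟩ := hnear
  rw [Metric.tendstoUniformly_iff] at ur um
  obtain ⟨k, hk1, hk2⟩ := ((ur ε hε).and (um ε hε)).exists
  refine hP (φ k) (H _ _ _ _ _ _ _ (hS (φ k)) (Normal_shift (hN (φ k)) (-c))
    (Bnd.shift (hB (φ k)) (-c)) (Reach_shift (hR (φ k)) (-c)) (fun x => ?_) fun x => ?_)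
  · have h1 := (hk1 (x + -c)).le
    rw [Real.dist_eq, abs_sub_comm, hs, neg_add_cancel_right] at h1
    exact h1
  · have h1 := (hk2 (x + -c)).le
    rw [Real.dist_eq, abs_sub_comm, ← hm0, hs', neg_add_cancel_right] at h1
    exact h1

end Pool.Agent.MP_ae5b4e_an_LOC
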