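import Mathlib
import Pool.Agent.Lib.MP_ae5b4e_an_LOC.NeFin

/-!
# MP_ae5b4e_an, project LOC: solutions whose curve is near a conic along one arc are pencils
-/

noncomputable section

namespace Pool.Agent.MP_ae5b4e_an_LOC

open Real Set Filter Topology Matrix
open scoped ContDiff
open Pool.Agent.MP_ae5b4e_an_hopf
open Pool.Agent.MP_ae5b4e_an_RG
open Pool.Agent.MP_ae5b4e_an_RIG (Bnd Reach Normal lift rU)

namespace NeArc

/-- derivatives of the deviation -/
lemma dev {r m : ℝ → ℝ} (hr : ContDiff ℝ ∞ r) (hm : ContDiff ℝ ∞ m) (j : ℕ) (x : ℝ) :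
    deriv^[j] (fun x => m x - deriv r x / 2) x = deriv^[j] m x - deriv^[j + 1] r x / 2 := by
  have hs : ∀ (f : ℝ → ℝ), ContDiff ℝ ∞ f → ∀ j : ℕ, ContDiff ℝ ∞ (deriv^[j] f) := by
    intro f hf j
    induction j with
    | zero => exact hf
    | succ j ih =>
      rw [Function.iterate_succ_apply']
      exact (contDiff_infty_iff_deriv.1 ih).2
  induction j generalizing x with
  | zero => rfl
  | succ j ih =>
    have h1 : deriv^[j] (fun x => m x - deriv r x / 2) =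
        fun x => deriv^[j] m x - deriv^[j + 1] r x / 2 := funext ih
    rw [Function.iterate_succ_apply', h1, Function.iterate_succ_apply' deriv j m,
      Function.iterate_succ_apply' deriv (j + 1) r]
    exact ((((contDiff_infty_iff_deriv.1 (hs m hm j)).1 x).hasDerivAt).sub
      ((((contDiff_infty_iff_deriv.1 (hs r hr (j + 1))).1 x).hasDerivAt).div_const 2)).deriv

/-- a sequence of normalized solutions with small deviation along an arc has a subsequence whose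
deviations have small derivatives -/
theorem arc_jets {K δ η : ℝ} (hK : 0 ≤ K) (hδ : 0 < δ) (hη : 0 < η) {P : ℕ → ℝ → Fin 3 → ℝ}
    {U : ℕ → ℝ → ℝ → ℝ} {r m : ℕ → ℝ → ℝ} (h : ∀ k, NSK K δ (P k) (U k) (r k) (m k))
    (hm : ∀ k : ℕ, ∀ x, |x| < η → |m k x - deriv (r k) x / 2| ≤ 1 / ((k:ℝ) + 1)) :
    ∃ φ : ℕ → ℕ, StrictMono φ ∧ ∀ j : ℕ,
      Tendsto (fun k => deriv^[j] (fun x => m (φ k) x - deriv (r (φ k)) x / 2) 0) atTop
        (𝓝 0) := by
  have hF := fun k => (h k).frame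
  choose M hM hN e0 e1 e2 using hF
  obtain ⟨φ, hφ, Q, s, m0, hQ, ur, um, uP⟩ := ne_limit hK hδ hN e0 e1 e2
  refine ⟨φ, hφ, fun j => ?_⟩
  -- the limit vanishes on the arc
  have hz : ∀ x, |x| < η → m0 x - deriv s x / 2 = 0 := by
    intro x hx
    have h1 := ((um 0).tendsto_at x).sub (((ur 1).tendsto_at x).div_const 2)
    refine tendsto_nhds_unique h1 ?_
    rw [tendsto_zero_iff_abs_tendsto_zero]
    refine squeeze_zero (fun k => abs_nonneg _) (fun k => hm (φ k) x hx) ?_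
    exact tendsto_one_div_add_atTop_nhds_zero_nat.comp hφ.tendsto_atTop
  have hz0 : ∀ j : ℕ, deriv^[j] (fun x => m0 x - deriv s x / 2) 0 = 0 := by
    intro j
    have h1 : (fun x => m0 x - deriv s x / 2) =ᶠ[𝓝 0] fun _ => (0:ℝ) := by
      filter_upwards [Metric.ball_mem_nhds (0:ℝ) hη] with x hx
      rw [Metric.mem_ball, Real.dist_eq, sub_zero] at hx
      exact hz x hx
    rw [← iteratedDeriv_eq_iterate, h1.iteratedDeriv_eq]
    simp
  have h1 := ((um j).tendsto_at 0).sub (((ur (j + 1)).tendsto_at 0).div_const 2)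
  rw [← dev hQ.sr hQ.sm, hz0] at h1
  refine h1.congr fun k => ?_
  rw [dev (h (φ k)).sr (h (φ k)).sm]

end NeArc

/-- **Theorem.** For all bounds `K`, `δ`, `η` there is `ε` such that every solution with these
bounds whose curve is `ε`-close to a conic along one arc of length `η`, is a pencil of conics. -/
theorem near_conic_arc {K δ η : ℝ} (hδ : 0 < δ) (hη : 0 < η) :
    ∃ ε > 0, ∀ (γ : ConvexCurve) (U : ℝ → ℝ → ℝ) (κ σ lam r m : ℝ → ℝ),
      Pool.Agent.MP_ae5b4e_an_RIG.Sol γ U κ → Normal γ κ σ lam r m → Bnd K r m →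
      Reach γ U σ δ → (∃ x₀, ∀ x, |x - x₀| < η → |m x - deriv r x / 2| ≤ ε) →
      (3 / 7 < δ ∨ ∃ x y, η ≤ |r x - r y|) → Pencil γ U := by
  obtain ⟨N, ε, hε, H⟩ := near_conic (K := K) hδ hη
  by_contra hcon
  push Not at hcon
  have hseq : ∀ k : ℕ, ∃ (γ : ConvexCurve) (U : ℝ → ℝ → ℝ) (κ σ lam r m : ℝ → ℝ),
      Pool.Agent.MP_ae5b4e_an_RIG.Sol γ U κ ∧ Normal γ κ σ lam r m ∧ Bnd K r m ∧
      Reach γ U σ δ ∧ (∀ x, |x| < η → |m x - deriv r x / 2| ≤ 1 / ((k : ℝ) + 1)) ∧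
      (3 / 7 < δ ∨ ∃ x y, η ≤ |r x - r y|) ∧ ¬ Pencil γ U := by
    intro k
    obtain ⟨γ, U, κ, σ, lam, r, m, hS, hN, hB, hR, ⟨x₀, hx⟩, hA, hP⟩ :=
      hcon (1 / ((k:ℝ) + 1)) (by positivity)
    refine ⟨γ, U, κ, _, _, _, _, hS, Normal_shift hN x₀, Bnd.shift hB x₀, Reach_shift hR x₀,
      fun x hxη => ?_, ?_, hP⟩
    · have h1 := hx (x + x₀) (by rwa [add_sub_cancel_right])
      simpa only [deriv_comp_add_const] using h1
    · rcases hA with h | ⟨x, y, h⟩
      · exact Or.inl h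
      · refine Or.inr ⟨x - x₀, y - x₀, ?_⟩
        simpa using h
  choose γ U κ σ lam r m hS hN hB hR hΘ hA hP using hseq
  have hK : 0 ≤ K := (abs_nonneg _).trans ((hB 0).r0 0)
  have hnsk : ∀ k, NSK K δ (lift (γ k) (σ k) (lam k)) (rU (κ k) (σ k) (U k)) (r k) (m k) :=
    fun k => nsk_of_sol (hS k) (hN k) (hB k) (hR k)
  obtain ⟨φ, hφ, hj⟩ := NeArc.arc_jets hK hδ hη hnsk hΘ
  have hev : ∀ᶠ k in atTop, ∀ j ∈ Finset.range (N + 1),
      |deriv^[j] (fun x => m (φ k) x - deriv (r (φ k)) x / 2) 0| ≤ ε := by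
    rw [Filter.eventually_all_finset]
    intro j _
    have h1 := (hj j).abs
    rw [abs_zero] at h1
    filter_upwards [h1.eventually_lt_const hε] with k hk using hk.le
  obtain ⟨k, hk⟩ := hev.exists
  refine hP (φ k) (H _ _ _ _ _ _ _ (hS (φ k)) (hN (φ k)) (hB (φ k)) (hR (φ k))
    ⟨0, fun j hjN => ?_⟩ (hA (φ k)))
  rw [iteratedDeriv_eq_iterate]
  exact hk j (Finset.mem_range.2 (by omega))

end Pool.Agent.MP_ae5b4e_an_LOC
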