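import Mathlib
import Pool.Agent.Lib.MP_ae5b4e_an_LOC.NeArc

/-!
# MP_ae5b4e_an, project LOC: solutions near a pencil have curves near a conic

Check: `near_pencil` (module FinL) is a consequence of `near_conic_arc`.
-/

noncomputable section

namespace Pool.Agent.MP_ae5b4e_an_LOC

open Real Set Filter Topology
open scoped ContDiff
open Pool.Agent.MP_ae5b4e_an_hopf
open Pool.Agent.MP_ae5b4e_an_RG
open Pool.Agent.MP_ae5b4e_an_RIG (Bnd Reach Normal lift)

/-- interpolation -/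
private lemma interp_chk {f : ℝ → ℝ} (hf : ContDiff ℝ ∞ f) {ε B h : ℝ} (hh : 0 < h)
    (h0 : ∀ x, |f x| ≤ ε) (h2 : ∀ x, |deriv (deriv f) x| ≤ B) (x : ℝ) :
    |deriv f x| ≤ 2 * ε / h + B * h := by
  have hd : Differentiable ℝ f := hf.differentiable (by simp)
  have hf1 : ContDiff ℝ ∞ (deriv f) := (contDiff_infty_iff_deriv.1 hf).2
  have hd1 : Differentiable ℝ (deriv f) := hf1.differentiable (by simp)
  obtain ⟨ξ, hξ, he⟩ := exists_deriv_eq_slope f (show x < x + h by linarith)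
    hd.continuous.continuousOn hd.differentiableOn
  have e1 : |deriv f ξ| ≤ 2 * ε / h := by
    rw [he, add_sub_cancel_left, abs_div, abs_of_pos hh]
    refine div_le_div_of_nonneg_right ?_ hh.le
    have := abs_sub (f (x + h)) (f x)
    linarith [h0 (x + h), h0 x]
  have e2 : |deriv f x - deriv f ξ| ≤ B * h := by
    have h3 := Convex.norm_image_sub_le_of_norm_deriv_le (f := deriv f) (C := B) (s := univ)
      (fun y _ => hd1 y) (fun y _ => by rw [Real.norm_eq_abs]; exact h2 y) convex_univ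
      (mem_univ ξ) (mem_univ x)
    rw [Real.norm_eq_abs, Real.norm_eq_abs] at h3
    refine h3.trans ?_
    have hB : 0 ≤ B := (abs_nonneg _).trans (h2 0)
    refine mul_le_mul_of_nonneg_left ?_ hB
    rw [abs_sub_comm, abs_of_pos (by linarith [hξ.1])]
    linarith [hξ.2]
  have e3 := abs_add_le (deriv f x - deriv f ξ) (deriv f ξ)
  rw [sub_add_cancel] at e3
  linarith

/-- `near_pencil` from `near_conic_arc` -/
theorem near_pencil_of_arc {γ0 : ConvexCurve} {U0 : ℝ → ℝ → ℝ} {κ0 σ0 lam0 r0 m0 : ℝ → ℝ}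
    (h0 : Pool.Agent.MP_ae5b4e_an_RIG.Sol γ0 U0 κ0) (hN0 : Normal γ0 κ0 σ0 lam0 r0 m0)
    (hP0 : Pencil γ0 U0) {K δ : ℝ} (hδ : 0 < δ) (hc : (∀ x, r0 x = r0 0) → 3 / 7 < δ) :
    ∃ ε > 0, ∀ (γ : ConvexCurve) (U : ℝ → ℝ → ℝ) (κ σ lam r m : ℝ → ℝ),
      Pool.Agent.MP_ae5b4e_an_RIG.Sol γ U κ → Normal γ κ σ lam r m → Bnd K r m →
      Reach γ U σ δ → (∀ x, |r x - r0 x| ≤ ε) → (∀ x, |m x - m0 x| ≤ ε) → Pencil γ U := by
  obtain ⟨μ, hμ0, hμ1, M, c, -, -, hr0, hm0⟩ := exists_bgid h0 hN0 hP0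
  have hd0 : ∀ x, HasDerivAt r0 (2 * m0 x) x := by
    intro x
    have h1 := (r0J_hasDerivAt hμ0 hμ1 (x + c)).comp_add_const x c
    rw [← hm0] at h1
    rwa [show (fun x => r0J μ (x + c)) = r0 from (funext hr0).symm] at h1
  obtain ⟨K0, hK0, hb⟩ := bnd_J hμ0 hμ1
  have hr0f : r0 = fun x => r0J μ (x + c) := funext hr0
  have hdd0 : ∀ x, |deriv (deriv r0) x| ≤ K0 := by
    intro x
    have h1 := (Bnd.shift hb c).r2 x
    rwa [← hr0f] at h1
  obtain ⟨η, hη, hη'⟩ : ∃ η > 0, 3 / 7 < δ ∨ ∃ x y, 2 * η ≤ |r0 x - r0 y| := by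
    by_cases hcon : ∀ x, r0 x = r0 0
    · exact ⟨1, one_pos, Or.inl (hc hcon)⟩
    · push Not at hcon
      obtain ⟨x, hx⟩ := hcon
      refine ⟨|r0 x - r0 0| / 2, half_pos (abs_pos.2 (sub_ne_zero.2 hx)), Or.inr ⟨x, 0, ?_⟩⟩
      linarith
  obtain ⟨ε1, hε1, H⟩ := near_conic_arc (K := K) hδ hη
  obtain ⟨B, hB, hBK⟩ : ∃ B : ℝ, 0 < B ∧ K + K0 ≤ B :=
    ⟨max (K + K0) 1, lt_max_of_lt_right one_pos, le_max_left _ _⟩
  obtain ⟨t, ht, htB⟩ : ∃ t : ℝ, 0 < t ∧ B * t = ε1 / 4 := ⟨ε1 / (4 * B), by positivity, by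
    field_simp⟩
  obtain ⟨ε, hε, hε2, hεη, hεt⟩ : ∃ ε : ℝ, 0 < ε ∧ ε ≤ ε1 / 2 ∧ 2 * ε ≤ η ∧
      2 * ε / t ≤ ε1 / 4 := by
    refine ⟨min (ε1 / 2) (min (η / 2) (ε1 * t / 8)), by positivity, min_le_left _ _, ?_, ?_⟩
    · have := (min_le_right (ε1 / 2) (min (η / 2) (ε1 * t / 8))).trans (min_le_left _ _)
      linarith
    · have := (min_le_right (ε1 / 2) (min (η / 2) (ε1 * t / 8))).trans (min_le_right _ _)
      rw [div_le_iff₀ ht]
      linarith
  refine ⟨ε, hε, fun γ U κ σ lam r m hS hN hBd hR hr hm => ?_⟩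
  have hsd : ContDiff ℝ ∞ (fun x => r x - r0 x) := hN.smooth_r.sub hN0.smooth_r
  have hder : ∀ x, deriv (fun x => r x - r0 x) x = deriv r x - 2 * m0 x := fun x =>
    (((hN.smooth_r.differentiable (by simp) x).hasDerivAt).sub (hd0 x)).deriv
  have hder2 : ∀ x, |deriv (deriv (fun x => r x - r0 x)) x| ≤ B := by
    intro x
    have hr1 : ContDiff ℝ ∞ (deriv r) := (contDiff_infty_iff_deriv.1 hN.smooth_r).2
    have hr01 : ContDiff ℝ ∞ (deriv r0) := (contDiff_infty_iff_deriv.1 hN0.smooth_r).2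
    have h1 : deriv (fun x => r x - r0 x) = fun x => deriv r x - deriv r0 x := by
      funext x
      rw [hder, (hd0 x).deriv]
    have h5 : HasDerivAt (fun x => deriv r x - deriv r0 x)
        (deriv (deriv r) x - deriv (deriv r0) x) x :=
      ((hr1.differentiable (by simp) x).hasDerivAt).sub
        ((hr01.differentiable (by simp) x).hasDerivAt)
    rw [h1, h5.deriv]
    have h2 := abs_sub (deriv (deriv r) x) (deriv (deriv r0) x)
    linarith [hBd.r2 x, hdd0 x]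
  refine H γ U κ σ lam r m hS hN hBd hR ⟨0, fun x _ => ?_⟩ ?_
  · have h1 := interp_chk hsd ht hr hder2 x
    rw [hder] at h1
    have h2 := hm x
    have h3 : m x - deriv r x / 2 = (m x - m0 x) - (deriv r x - 2 * m0 x) / 2 := by ring
    have h4 := abs_sub (m x - m0 x) ((deriv r x - 2 * m0 x) / 2)
    rw [← h3, abs_div, abs_of_pos (by norm_num : (0:ℝ) < 2)] at h4
    linarith
  · rcases hη' with h | ⟨x, y, h⟩
    · exact Or.inl h
    · refine Or.inr ⟨x, y, ?_⟩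
      have h1 := hr x
      have h2 := hr y
      have h3 : r0 x - r0 y = (r x - r y) - (r x - r0 x) + (r y - r0 y) := by ring
      have h4 := abs_add_le ((r x - r y) - (r x - r0 x)) (r y - r0 y)
      have h5 := abs_sub (r x - r y) (r x - r0 x)
      rw [← h3] at h4
      linarith

end Pool.Agent.MP_ae5b4e_an_LOC
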