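import Mathlib
import Pool.Agent.Lib.MP_ae5b4e_an_RIG.GEx
import Pool.Agent.Lib.MP_ae5b4e_an_RIG.GGeo
import Pool.Agent.Lib.MP_ae5b4e_an_MET.LeafEnd

/-!
# MP_ae5b4e_an, project LOC, curves near a conic: the cubic form

A normalized curve lies on a conic if and only if `m = r' / 2`.
-/

noncomputable section

namespace Pool.Agent.MP_ae5b4e_an_LOC

open Real Set Filter Topology
open scoped ContDiff
open Pool.Agent.MP_ae5b4e_an_hopf
open Pool.Agent.MP_ae5b4e_an_RG
open Pool.Agent.MP_ae5b4e_an_RIG (Sol Normal lift)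
open Pool.Agent.MP_ae5b4e_an_MET (qform qform_apply coef coef_apply QH)

namespace NeIff

/-- twice the polar form -/
def BQ (q : Fin 6 → ℝ) (v w : Fin 3 → ℝ) : ℝ :=
  2 * q 0 * (v 0 * w 0) + q 1 * (v 0 * w 1 + v 1 * w 0) + 2 * q 2 * (v 1 * w 1) +
    q 3 * (v 0 * w 2 + v 2 * w 0) + q 4 * (v 1 * w 2 + v 2 * w 1) + 2 * q 5 * (v 2 * w 2)

lemma BQ_self (q : Fin 6 → ℝ) (v : Fin 3 → ℝ) : BQ q v v = 2 * QH q (v 0) (v 1) (v 2) := by
  unfold BQ QH
  ring

lemma BQ_symm (q : Fin 6 → ℝ) (v w : Fin 3 → ℝ) : BQ q v w = BQ q w v := by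
  unfold BQ
  ring

lemma BQ_ode (q : Fin 6 → ℝ) (u a b : Fin 3 → ℝ) (r m : ℝ) :
    BQ q u (-r • a - m • b) = -(r * BQ q u a) - m * BQ q u b := by
  unfold BQ
  simp only [Pi.sub_apply, Pi.smul_apply, smul_eq_mul]
  ring

lemma hd_BQ (q : Fin 6 → ℝ) {f g : ℝ → Fin 3 → ℝ} {f' g' : Fin 3 → ℝ} {t : ℝ}
    (hf : HasDerivAt f f' t) (hg : HasDerivAt g g' t) :
    HasDerivAt (fun s => BQ q (f s) (g s)) (BQ q f' (g t) + BQ q (f t) g') t := by
  rw [hasDerivAt_pi] at hf hg
  unfold BQ
  have m (i j : Fin 3) := (hf i).mul (hg j)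
  have e := ((((((m 0 0).const_mul (2 * q 0)).add (((m 0 1).add (m 1 0)).const_mul (q 1))).add
    ((m 1 1).const_mul (2 * q 2))).add (((m 0 2).add (m 2 0)).const_mul (q 3))).add
    (((m 1 2).add (m 2 1)).const_mul (q 4))).add ((m 2 2).const_mul (2 * q 5))
  refine e.congr_deriv ?_
  ring

lemma cram (a b c v : Fin 3 → ℝ) :
    det3 a b c • v = det3 v b c • a + det3 a v c • b + det3 a b v • c := by
  funext i
  fin_cases i <;> simp only [det3, Pi.add_apply, Pi.smul_apply, smul_eq_mul, Fin.zero_eta,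
    Fin.mk_one, Fin.reduceFinMk] <;> ring

lemma BQ_comb (q : Fin 6 → ℝ) (a b c : Fin 3 → ℝ) (α β γ : ℝ) :
    BQ q (α • a + β • b + γ • c) (α • a + β • b + γ • c) =
      α ^ 2 * BQ q a a + β ^ 2 * BQ q b b + γ ^ 2 * BQ q c c +
        2 * (α * β) * BQ q a b + 2 * (α * γ) * BQ q a c + 2 * (β * γ) * BQ q b c := by
  unfold BQ
  simp only [Pi.add_apply, Pi.smul_apply, smul_eq_mul]
  ring

/-- the linear functionals of the frame -/
def fl (a c : Fin 3 → ℝ) : (Fin 3 → ℝ) →ₗ[ℝ] ℝ where
  toFun v := det3 a v c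
  map_add' v w := by
    unfold det3
    simp only [Pi.add_apply]
    ring
  map_smul' s v := by
    unfold det3
    simp only [Pi.smul_apply, smul_eq_mul, RingHom.id_apply]
    ring

lemma fl_apply (a c v : Fin 3 → ℝ) : fl a c v = det3 a v c := rfl

end NeIff

open NeIff

/-- A normalized curve lies on a conic if and only if `m = r' / 2`. -/
theorem conic_iff {P : ℝ → Fin 3 → ℝ} {r m : ℝ → ℝ} (hs : ContDiff ℝ ∞ P) (hr : ContDiff ℝ ∞ r)
    (hW : ∀ x, det3 (P x) (deriv P x) (deriv (deriv P) x) = 1)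
    (hode : ∀ x, deriv (deriv (deriv P)) x = -(r x) • deriv P x - m x • P x) :
    (∀ x, m x = deriv r x / 2) ↔
      ∃ C : QuadraticForm ℝ (Fin 3 → ℝ), C ≠ 0 ∧ ∀ x, C (P x) = 0 := by
  have hs1 : ContDiff ℝ ∞ (deriv P) := (contDiff_infty_iff_deriv.1 hs).2
  have hs2 : ContDiff ℝ ∞ (deriv (deriv P)) := (contDiff_infty_iff_deriv.1 hs1).2
  have d0 : ∀ x, HasDerivAt P (deriv P x) x := fun x =>
    ((contDiff_infty_iff_deriv.1 hs).1 x).hasDerivAt
  have d1 : ∀ x, HasDerivAt (deriv P) (deriv (deriv P) x) x := fun x =>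
    ((contDiff_infty_iff_deriv.1 hs1).1 x).hasDerivAt
  have d2 : ∀ x, HasDerivAt (deriv (deriv P)) (-(r x) • deriv P x - m x • P x) x := fun x => by
    rw [← hode x]
    exact ((contDiff_infty_iff_deriv.1 hs2).1 x).hasDerivAt
  have dr : ∀ x, HasDerivAt r (deriv r x) x := fun x =>
    ((contDiff_infty_iff_deriv.1 hr).1 x).hasDerivAt
  constructor
  · intro hm
    -- the invariant form
    set C : QuadraticForm ℝ (Fin 3 → ℝ) :=
      QuadraticMap.linMulLin (fl (P 0) (deriv (deriv P) 0)) (fl (P 0) (deriv (deriv P) 0)) +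
      (2:ℝ) • QuadraticMap.linMulLin (fl (deriv P 0) (deriv (deriv P) 0)) (fl (deriv P 0) (P 0)) +
      (r 0) • QuadraticMap.linMulLin (fl (deriv P 0) (P 0)) (fl (deriv P 0) (P 0)) with hC
    have hCv : ∀ v, C v = det3 (P 0) v (deriv (deriv P) 0) ^ 2 -
        2 * det3 v (deriv P 0) (deriv (deriv P) 0) * det3 (P 0) (deriv P 0) v +
        r 0 * det3 (P 0) (deriv P 0) v ^ 2 := by
      intro v
      rw [hC]
      simp only [QuadraticMap.add_apply, QuadraticMap.smul_apply, QuadraticMap.linMulLin_apply,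
        fl_apply, smul_eq_mul]
      unfold det3
      ring
    have hconst : ∀ v x, det3 (P x) v (deriv (deriv P) x) ^ 2 -
        2 * det3 v (deriv P x) (deriv (deriv P) x) * det3 (P x) (deriv P x) v +
        r x * det3 (P x) (deriv P x) v ^ 2 = C v := by
      intro v x
      set F : ℝ → ℝ := fun x => det3 (P x) v (deriv (deriv P) x) ^ 2 -
          2 * det3 v (deriv P x) (deriv (deriv P) x) * det3 (P x) (deriv P x) v +
          r x * det3 (P x) (deriv P x) v ^ 2 with hF
      have hd : ∀ x, HasDerivAt F 0 x := by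
        intro x
        have cv := hasDerivAt_const x v
        have b1 := hasDerivAt_det3 (d0 x) cv (d2 x)
        have b2 := hasDerivAt_det3 cv (d1 x) (d2 x)
        have b3 := hasDerivAt_det3 (d0 x) (d1 x) cv
        refine (((b1.pow 2).sub ((b2.const_mul 2).mul b3)).add
          ((dr x).mul (b3.pow 2))).congr_deriv ?_
        rw [hm x]
        unfold det3
        simp only [Pi.sub_apply, Pi.smul_apply, smul_eq_mul, Pi.zero_apply, Pi.pow_apply,
          Pi.mul_apply]
        ring
      have h1 : F x = F 0 := is_const_of_deriv_eq_zero (fun x => (hd x).differentiableAt)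
        (fun x => (hd x).deriv) x 0
      rw [hCv]
      exact h1
    refine ⟨C, fun h0 => ?_, fun x => ?_⟩
    · have h1 := hCv (deriv P 0)
      rw [h0] at h1
      have h2 := hW 0
      rw [h2] at h1
      have h3 : det3 (deriv P 0) (deriv P 0) (deriv (deriv P) 0) = 0 := by
        unfold det3
        ring
      have h4 : det3 (P 0) (deriv P 0) (deriv P 0) = 0 := by
        unfold det3
        ring
      rw [h3, h4] at h1
      norm_num at h1
    · rw [← hconst (P x) x]
      unfold det3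
      ring
  · rintro ⟨C, hC0, hC⟩
    set q := coef C with hq
    have e1 : ∀ x, BQ q (P x) (P x) = 0 := fun x => by
      rw [BQ_self, ← coef_apply, hC, mul_zero]
    have e2 : ∀ x, BQ q (P x) (deriv P x) = 0 := fun x => by
      have h := hd_BQ q (d0 x) (d0 x)
      rw [show (fun s => BQ q (P s) (P s)) = fun _ => 0 from funext e1] at h
      have h1 := h.unique (hasDerivAt_const x 0)
      rw [BQ_symm q (deriv P x)] at h1
      linarith
    have e3 : ∀ x, BQ q (deriv P x) (deriv P x) + BQ q (P x) (deriv (deriv P) x) = 0 := fun x => by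
      have h := hd_BQ q (d0 x) (d1 x)
      rw [show (fun s => BQ q (P s) (deriv P s)) = fun _ => 0 from funext e2] at h
      exact h.unique (hasDerivAt_const x 0)
    have e4 : ∀ x, BQ q (deriv P x) (deriv (deriv P) x) = 0 := fun x => by
      have h := (hd_BQ q (d1 x) (d1 x)).add (hd_BQ q (d0 x) (d2 x))
      have h0 : (fun s => BQ q (deriv P s) (deriv P s)) + (fun s => BQ q (P s)
          (deriv (deriv P) s)) = fun _ => 0 := funext e3
      rw [h0] at h
      have h1 := h.unique (hasDerivAt_const x 0)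
      rw [BQ_ode, e2, e1, BQ_symm q (deriv (deriv P) x)] at h1
      linarith
    have e5 : ∀ x, BQ q (deriv (deriv P) x) (deriv (deriv P) x) =
        r x * BQ q (deriv P x) (deriv P x) := fun x => by
      have h := hd_BQ q (d1 x) (d2 x)
      rw [show (fun s => BQ q (deriv P s) (deriv (deriv P) s)) = fun _ => 0 from funext e4] at h
      have h1 := h.unique (hasDerivAt_const x 0)
      rw [BQ_ode, BQ_symm q (deriv P x) (P x), e2] at h1
      linarith
    have hd6 : ∀ x, HasDerivAt (fun s => BQ q (deriv P s) (deriv P s)) 0 x := fun x => by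
      refine (hd_BQ q (d1 x) (d1 x)).congr_deriv ?_
      rw [BQ_symm q (deriv (deriv P) x), e4]
      ring
    have e6 : ∀ x, BQ q (deriv P x) (deriv P x) = BQ q (deriv P 0) (deriv P 0) := fun x =>
      is_const_of_deriv_eq_zero (fun x => (hd6 x).differentiableAt) (fun x => (hd6 x).deriv) x 0
    have e7 : ∀ x, (2 * m x - deriv r x) * BQ q (deriv P 0) (deriv P 0) = 0 := fun x => by
      have h := hd_BQ q (d2 x) (d2 x)
      have h0 : (fun s => BQ q (deriv (deriv P) s) (deriv (deriv P) s)) =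
          fun s => r s * BQ q (deriv P 0) (deriv P 0) := by
        funext s
        rw [e5, e6]
      rw [h0] at h
      have h1 := h.unique ((dr x).mul_const (BQ q (deriv P 0) (deriv P 0)))
      rw [BQ_symm q (-(r x) • deriv P x - m x • P x), BQ_ode,
        BQ_symm q (deriv (deriv P) x) (deriv P x), e4, BQ_symm q (deriv (deriv P) x) (P x)] at h1
      have h2 := e3 x
      rw [e6] at h2
      linear_combination h1 + 2 * m x * h2
    by_cases h8 : BQ q (deriv P 0) (deriv P 0) = 0
    · exfalso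
      apply hC0
      ext v
      have h9 := cram (P 0) (deriv P 0) (deriv (deriv P) 0) v
      rw [hW 0, one_smul] at h9
      have h10 : BQ q v v = 0 := by
        rw [h9, BQ_comb, e1, h8, e5, h8, e2, e4]
        have h11 := e3 0
        rw [h8, zero_add] at h11
        rw [h11]
        ring
      rw [BQ_self, ← coef_apply] at h10
      simpa using h10
    · intro x
      rcases mul_eq_zero.1 (e7 x) with h | h
      · linarith
      · exact absurd h h8

/-- In the normal form the curve is a conic if and only if `m = r' / 2`. -/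
theorem normal_conic_iff {γ : ConvexCurve} {U : ℝ → ℝ → ℝ} {κ σ lam r m : ℝ → ℝ} (h : Sol γ U κ)
    (hN : Normal γ κ σ lam r m) : (∀ x, m x = deriv r x / 2) ↔
      ∃ C : QuadraticForm ℝ (Fin 3 → ℝ), C ≠ 0 ∧ ∀ t, C (γ.Γ t) = 0 := by
  rw [conic_iff (hN.lsys h).curve.smooth hN.smooth_r hN.wr hN.ode]
  have e : ∀ (C : QuadraticForm ℝ (Fin 3 → ℝ)) x, C (lift γ σ lam x) =
      lam x * lam x * C (γ.Γ (σ x)) := fun C x => by
    unfold lift
    rw [QuadraticMap.map_smul, smul_eq_mul]
  constructor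
  · rintro ⟨C, hC0, hC⟩
    refine ⟨C, hC0, fun t => ?_⟩
    obtain ⟨x, rfl⟩ : ∃ x, σ x = t := by
      have hc : Continuous σ := hN.smooth_σ.continuous
      have hz : ∀ n : ℤ, σ (0 + n) = σ 0 + n * γ.T := fun n => by
        have h1 : Function.Periodic (fun x => σ x - x * γ.T) 1 := fun x => by
          show σ (x + 1) - (x + 1) * γ.T = σ x - x * γ.T
          rw [hN.per_σ]
          ring
        have h2 := h1.int_mul n 0
        rw [mul_one] at h2
        have h3 : σ (0 + n) - (0 + n) * γ.T = σ 0 - 0 * γ.T := h2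
        linarith
      have hT := γ.T_pos
      obtain ⟨n, hn⟩ := exists_int_gt (|t - σ 0| / γ.T)
      rw [div_lt_iff₀ hT] at hn
      have hle := abs_le.1 (le_refl |t - σ 0|)
      have h1 : t ∈ Icc (σ (0 + (-n : ℤ))) (σ (0 + n)) := by
        rw [hz, hz]
        push_cast
        constructor <;> linarith
      have hn0 : (0:ℝ) ≤ n := by
        by_contra hneg
        push Not at hneg
        have := abs_nonneg (t - σ 0)
        nlinarith
      obtain ⟨x, -, hx⟩ := intermediate_value_Icc (f := σ) (a := 0 + ((-n : ℤ) : ℝ)) (b := 0 + n)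
        (by push_cast; linarith) hc.continuousOn h1
      exact ⟨x, hx⟩
    have h1 := hC x
    rw [e] at h1
    have h2 := (hN.pos_lam x).ne'
    rcases mul_eq_zero.1 h1 with h3 | h3
    · exact absurd (mul_self_eq_zero.1 h3) h2
    · exact h3
  · rintro ⟨C, hC0, hC⟩
    exact ⟨C, hC0, fun x => by rw [e, hC, mul_zero]⟩

end Pool.Agent.MP_ae5b4e_an_LOC
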