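import Mathlib
import Pool.Agent.Lib.MP_ae5b4e_an_LOC.NeFin
import Pool.Agent.Lib.MP_ae5b4e_an_LOC.NeArc
import Pool.Agent.Lib.MP_ae5b4e_an_LOC.NeIff

/-!
# MP_ae5b4e_an, project LOC: solutions near a conic or near a pencil
-/

noncomputable section

namespace Pool.Agent.MP_ae5b4e_an_LOC

open Real Set Filter Topology
open scoped ContDiff
open Pool.Agent.MP_ae5b4e_an_hopf
open Pool.Agent.MP_ae5b4e_an_RG
open Pool.Agent.MP_ae5b4e_an_RIG (Bnd Reach Normal)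

/-- the neighbourhood of the pencils; the oscillation is that of the solution -/
theorem near_pencil_osc {K δ η : ℝ} (hδ : 0 < δ) (hη : 0 < η) :
    ∃ ε : ℝ, 0 < ε ∧
    ∀ (γ₀ : ConvexCurve) (U₀ : ℝ → ℝ → ℝ) (κ₀ σ₀ lam₀ r₀ m₀ : ℝ → ℝ),
      Pool.Agent.MP_ae5b4e_an_RIG.Sol γ₀ U₀ κ₀ → Normal γ₀ κ₀ σ₀ lam₀ r₀ m₀ → Pencil γ₀ U₀ →
    ∀ (γ : ConvexCurve) (U : ℝ → ℝ → ℝ) (κ σ lam r m : ℝ → ℝ),
      Pool.Agent.MP_ae5b4e_an_RIG.Sol γ U κ → Normal γ κ σ lam r m → Bnd K r m →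
      Reach γ U σ δ → (3 / 7 < δ ∨ ∃ x y, η ≤ |r x - r y|) → (∀ x, |r x - r₀ x| ≤ ε) →
      (∀ x, |m x - m₀ x| ≤ ε) → Pencil γ U := by
  have hmono : ∀ {r m : ℝ → ℝ}, Bnd K r m → Bnd (K + 1) r m := fun h =>
    ⟨fun x => (h.r0 x).trans (by linarith), fun x => (h.r1 x).trans (by linarith),
      fun x => (h.r2 x).trans (by linarith), fun x => (h.r3 x).trans (by linarith),
      fun x => (h.m0 x).trans (by linarith), fun x => (h.m1 x).trans (by linarith),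
      fun x => (h.m2 x).trans (by linarith)⟩
  by_cases h37 : 3 / 7 < δ
  · obtain ⟨ε, hε, H⟩ := near_pencil_unif (K := K + 1) (η := 0) hδ (Or.inl h37)
    refine ⟨min ε 1, lt_min hε one_pos, ?_⟩
    intro γ₀ U₀ κ₀ σ₀ lam₀ r₀ m₀ h₀ hN₀ hP₀ γ U κ σ lam r m h hN hB hR _ hr hm
    refine H γ₀ U₀ κ₀ σ₀ lam₀ r₀ m₀ h₀ hN₀ hP₀ (fun x => ?_) ⟨0, 0, abs_nonneg _⟩ γ U κ σ lam r m
      h hN (hmono hB) hR (fun x => (hr x).trans (min_le_left _ _))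
      fun x => (hm x).trans (min_le_left _ _)
    have h1 := abs_le.1 ((hr x).trans (min_le_right _ _))
    have h2 := abs_le.1 (hB.r0 x)
    rw [abs_le]
    constructor <;> linarith
  · obtain ⟨ε, hε, H⟩ := near_pencil_unif (K := K + 1) (η := η / 2) hδ (Or.inr (half_pos hη))
    refine ⟨min ε (min 1 (η / 4)), lt_min hε (lt_min one_pos (by positivity)), ?_⟩
    intro γ₀ U₀ κ₀ σ₀ lam₀ r₀ m₀ h₀ hN₀ hP₀ γ U κ σ lam r m h hN hB hR hosc hr hm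
    obtain ⟨x, y, hxy⟩ := hosc.resolve_left h37
    have hr1 : ∀ x, |r x - r₀ x| ≤ 1 := fun x =>
      (hr x).trans ((min_le_right _ _).trans (min_le_left _ _))
    have hr2 : ∀ x, |r x - r₀ x| ≤ η / 4 := fun x =>
      (hr x).trans ((min_le_right _ _).trans (min_le_right _ _))
    refine H γ₀ U₀ κ₀ σ₀ lam₀ r₀ m₀ h₀ hN₀ hP₀ (fun x => ?_) ⟨x, y, ?_⟩ γ U κ σ lam r m
      h hN (hmono hB) hR (fun x => (hr x).trans (min_le_left _ _))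
      fun x => (hm x).trans (min_le_left _ _)
    · have h1 := abs_le.1 (hr1 x)
      have h2 := abs_le.1 (hB.r0 x)
      rw [abs_le]
      constructor <;> linarith
    · have h1 := abs_le.1 (hr2 x)
      have h2 := abs_le.1 (hr2 y)
      rcases le_abs.1 hxy with h3 | h3
      · exact le_abs.2 (Or.inl (by linarith))
      · exact le_abs.2 (Or.inr (by linarith))

/-- **Theorem.** Every solution whose curve is near a conic at one point or along one arc, or which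
is near a pencil, is a pencil. -/
theorem near_conic_or {K δ η : ℝ} (hδ : 0 < δ) (hη : 0 < η) :
    ∃ (N : ℕ) (ε : ℝ), 0 < ε ∧ ∀ (γ : ConvexCurve) (U : ℝ → ℝ → ℝ) (κ σ lam r m : ℝ → ℝ),
      Pool.Agent.MP_ae5b4e_an_RIG.Sol γ U κ → Normal γ κ σ lam r m → Bnd K r m →
      Reach γ U σ δ → (3 / 7 < δ ∨ ∃ x y, η ≤ |r x - r y|) →
      ((∃ x₀, ∀ j ≤ N, |iteratedDeriv j (fun x => m x - deriv r x / 2) x₀| ≤ ε) ∨
        (∃ x₀, ∀ x, |x - x₀| < η → |m x - deriv r x / 2| ≤ ε) ∨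
        ∃ (γ₀ : ConvexCurve) (U₀ : ℝ → ℝ → ℝ) (κ₀ σ₀ lam₀ r₀ m₀ : ℝ → ℝ),
          Pool.Agent.MP_ae5b4e_an_RIG.Sol γ₀ U₀ κ₀ ∧ Normal γ₀ κ₀ σ₀ lam₀ r₀ m₀ ∧
          Pencil γ₀ U₀ ∧ (∀ x, |r x - r₀ x| ≤ ε) ∧ ∀ x, |m x - m₀ x| ≤ ε) → Pencil γ U := by
  obtain ⟨N, ε₁, h1, H1⟩ := near_conic (K := K) hδ hη
  obtain ⟨ε₂, h2, H2⟩ := near_pencil_osc (K := K) hδ hη
  obtain ⟨ε₃, h3, H3⟩ := near_conic_arc (K := K) hδ hη
  have l1 : min (min ε₁ ε₂) ε₃ ≤ ε₁ := (min_le_left _ _).trans (min_le_left _ _)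
  have l2 : min (min ε₁ ε₂) ε₃ ≤ ε₂ := (min_le_left _ _).trans (min_le_right _ _)
  have l3 : min (min ε₁ ε₂) ε₃ ≤ ε₃ := min_le_right _ _
  refine ⟨N, min (min ε₁ ε₂) ε₃, lt_min (lt_min h1 h2) h3, ?_⟩
  rintro γ U κ σ lam r m h hN hB hR hosc (⟨x₀, hx⟩ | ⟨x₀, hx⟩ | ⟨γ₀, U₀, κ₀, σ₀, lam₀, r₀, m₀, h₀,
    hN₀, hP₀, hr, hm⟩)
  · exact H1 γ U κ σ lam r m h hN hB hR ⟨x₀, fun j hj => (hx j hj).trans l1⟩ hosc
  · exact H3 γ U κ σ lam r m h hN hB hR ⟨x₀, fun x h => (hx x h).trans l3⟩ hosc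
  · exact H2 γ₀ U₀ κ₀ σ₀ lam₀ r₀ m₀ h₀ hN₀ hP₀ γ U κ σ lam r m h hN hB hR hosc
      (fun x => (hr x).trans l2) fun x => (hm x).trans l2

end Pool.Agent.MP_ae5b4e_an_LOC
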