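import Pool.Agent.Lib.MP_ae5b4e_an_LOC.LDef
import Pool.Agent.Lib.MP_ae5b4e_an_LOC.PgC

/-!
# LOC, linear theory: LT-14, polynomial growth of the functions `u i`, from `RRel`
-/

set_option autoImplicit false

namespace Pool.Agent.MP_ae5b4e_an_LOC

open Set Metric Complex ComplexConjugate Filter Topology

theorem RRel.growth {B : Bg} {u : Fin 3 → ℂ → ℂ} {rq : ℝ} (h : RRel B u rq) :
    ∃ (A : ℕ) (C r' : ℝ), 0 < r' ∧ ∀ i, ∀ q : ℂ, q ≠ 0 → ‖q‖ < r' → ‖q ^ A * u i q‖ ≤ C := by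
  obtain ⟨hrq, han, w5, hw5, H⟩ := h
  refine pg_core B hrq hw5 (fun i q hq hq' => (han i q
    ⟨mem_ball_zero_iff.2 hq', hq⟩).continuousAt) ?_
  intro om z d hz hzd hd hom
  have h1 := H om z d hz hzd hd hom
  have e : ∀ ζ : ℂ, (B.pgV u om (ζ - om / 2) + B.pgV u om (ζ + om / 2)) / (ζ - z) =
      (ζ - z)⁻¹ • (B.V u om (ζ - om / 2) + B.V u om (ζ + om / 2)) := by
    intro ζ
    rw [smul_eq_mul, div_eq_inv_mul]
    rfl
  simp only [e]
  exact h1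

end Pool.Agent.MP_ae5b4e_an_LOC
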