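import Pool.Agent.Lib.MP_ae5b4e_an_LOC.ScJ

/-!
The complexified conic P = (sn, cn, dn)(4K x), the quadratic forms R_j and the quartic kernel
elements (A_j, C_j) along it: derivatives, periodicity, reality, limits at the base points.
-/

set_option autoImplicit false

namespace Pool.Agent.MP_ae5b4e_an_LOC

open Complex Set Filter Topology ComplexConjugate

noncomputable section

variable {m : ℝ}

def XJ (m : ℝ) (x : ℂ) : ℂ := Sn m (sg m * x)
def YJ (m : ℝ) (x : ℂ) : ℂ := Cn m (sg m * x)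
def ZJ (m : ℝ) (x : ℂ) : ℂ := Dn m (sg m * x)

/-- the four quadratic forms -/
def KR (m : ℝ) : Fin 4 → ℂ → ℂ :=
  ![fun x => XJ m x ^ 2, fun x => XJ m x * YJ m x, fun x => XJ m x * ZJ m x,
    fun x => YJ m x * ZJ m x]

/-- C_j = -1/2 X^2 R_j -/
def KC (m : ℝ) (j : Fin 4) (x : ℂ) : ℂ := -(1 / 2) * (XJ m x ^ 2 * KR m j x)

/-- the primitives A_j -/
def KA (m : ℝ) : Fin 4 → ℂ → ℂ :=
  ![fun x => (sg m : ℂ) ^ 2 * (2 / (3 * m ^ 2) * ZJ m x ^ 6 - (2 / m - 1) / (2 * m) * ZJ m x ^ 4),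
    fun x => (sg m : ℂ) ^ 2 * (XJ m x * YJ m x * (-(2 / (3 * m)) * ZJ m x ^ 4 +
      (2 - m) / (6 * m) * ZJ m x ^ 2 + (1 - m) / (3 * m))),
    fun x => (sg m : ℂ) ^ 2 * (XJ m x * ZJ m x * (-(2 / 3 * m) * XJ m x ^ 4 +
      (4 + 3 * m) / 6 * XJ m x ^ 2 - 1 / 2)),
    fun x => (sg m : ℂ) ^ 2 * (YJ m x * ZJ m x * (-(2 / 3 * m) * YJ m x ^ 4 -
      (4 * (1 - m) - 3 * m) / 6 * YJ m x ^ 2 + (1 - m) / 2))]

/-- coefficient of t^1 in F_j (P + t P'), F_j = X^2 R_j -/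
def N1 (m : ℝ) (x : ℂ) : Fin 4 → ℂ :=
  let X := XJ m x; let Y := YJ m x; let Z := ZJ m x
  let X' := (sg m : ℂ) * (Y * Z); let Y' := -((sg m : ℂ) * (X * Z))
  let Z' := -((sg m : ℂ) * m * (X * Y))
  ![4 * X ^ 3 * X', 3 * X ^ 2 * X' * Y + X ^ 3 * Y', 3 * X ^ 2 * X' * Z + X ^ 3 * Z',
    2 * X * X' * Y * Z + X ^ 2 * Y' * Z + X ^ 2 * Y * Z']

/-- coefficient of t^3 in F_j (P + t P'), F_j = X^2 R_j -/
def N3 (m : ℝ) (x : ℂ) : Fin 4 → ℂ :=
  let X := XJ m x; let Y := YJ m x; let Z := ZJ m x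
  let X' := (sg m : ℂ) * (Y * Z); let Y' := -((sg m : ℂ) * (X * Z))
  let Z' := -((sg m : ℂ) * m * (X * Y))
  ![4 * X * X' ^ 3, X' ^ 3 * Y + 3 * X * X' ^ 2 * Y', X' ^ 3 * Z + 3 * X * X' ^ 2 * Z',
    X' ^ 2 * (Y' * Z + Y * Z') + 2 * X * X' * Y' * Z']

section

variable (h0 : 0 < m) (h1 : m < 1)

include h0 h1

lemma JD_ne {x : ℂ} (hx : |x.im| < hJ m) : JD m (sg m * x) ≠ 0 := by
  apply JD_ne_zero_of_im h0 h1
  have hs := sg_pos h0 h1
  have : ((sg m : ℂ) * x).im = sg m * x.im := by simp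
  rw [this, abs_mul, abs_of_pos hs, ← sg_hJ h0 h1]
  exact mul_lt_mul_of_pos_left hx hs

lemma lin_der (x : ℂ) : HasDerivAt (fun z : ℂ => (sg m : ℂ) * z) (sg m) x := by
  simpa using (hasDerivAt_id x).const_mul (sg m : ℂ)

lemma XJ_der {x : ℂ} (hx : |x.im| < hJ m) :
    HasDerivAt (XJ m) ((sg m : ℂ) * (YJ m x * ZJ m x)) x := by
  have h := (Sn_hasDerivAt h0 h1 (JD_ne h0 h1 hx)).comp x (lin_der h0 h1 x)
  refine h.congr_deriv ?_
  simp only [YJ, ZJ]; ring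

lemma YJ_der {x : ℂ} (hx : |x.im| < hJ m) :
    HasDerivAt (YJ m) (-((sg m : ℂ) * (XJ m x * ZJ m x))) x := by
  have h := (Cn_hasDerivAt h0 h1 (JD_ne h0 h1 hx)).comp x (lin_der h0 h1 x)
  refine h.congr_deriv ?_
  simp only [XJ, ZJ]; ring

lemma ZJ_der {x : ℂ} (hx : |x.im| < hJ m) :
    HasDerivAt (ZJ m) (-((sg m : ℂ) * m * (XJ m x * YJ m x))) x := by
  have h := (Dn_hasDerivAt h0 h1 (JD_ne h0 h1 hx)).comp x (lin_der h0 h1 x)
  refine h.congr_deriv ?_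
  simp only [XJ, YJ]; ring

lemma XY_rel {x : ℂ} (hx : |x.im| < hJ m) : XJ m x ^ 2 + YJ m x ^ 2 = 1 :=
  Sn_sq_add h0 h1 (JD_ne h0 h1 hx)

lemma XZ_rel {x : ℂ} (hx : |x.im| < hJ m) : ZJ m x ^ 2 + (m : ℂ) * XJ m x ^ 2 = 1 :=
  Dn_sq_add h0 h1 (JD_ne h0 h1 hx)

/-- A_j' = (sigma^2 g n1 - n3)/2 -/
theorem KA_der {x : ℂ} (hx : |x.im| < hJ m) (j : Fin 4) :
    HasDerivAt (KA m j) (((sg m : ℂ) ^ 2 * ZJ m x ^ 2 * N1 m x j - N3 m x j) / 2) x := by
  have hX := XJ_der h0 h1 hx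
  have hY := YJ_der h0 h1 hx
  have hZ := ZJ_der h0 h1 hx
  have e1 := XY_rel h0 h1 hx
  have e2 := XZ_rel h0 h1 hx
  have hm : (m : ℂ) ≠ 0 := by exact_mod_cast h0.ne'
  fin_cases j
  · have h := ((((hZ.pow 6).const_mul (2 / (3 * (m:ℂ) ^ 2))).sub
      ((hZ.pow 4).const_mul ((2 / (m:ℂ) - 1) / (2 * m)))).const_mul ((sg m : ℂ) ^ 2))
    refine h.congr_deriv ?_
    simp only [N1, N3, Fin.zero_eta, Matrix.cons_val_zero]
    generalize XJ m x = X at *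
    generalize YJ m x = Y at *
    generalize ZJ m x = Z at *
    generalize (sg m : ℂ) = s at *
    generalize (m : ℂ) = M at *
    field_simp
    push_cast
    grind
  · have h := (((hX.mul hY).mul ((((hZ.pow 4).const_mul (-(2 / (3 * (m:ℂ))))).add
      ((hZ.pow 2).const_mul ((2 - (m:ℂ)) / (6 * m)))).add_const ((1 - (m:ℂ)) / (3 * m)))).const_mul
        ((sg m : ℂ) ^ 2))
    refine h.congr_deriv ?_
    simp only [N1, N3, Fin.mk_one, Matrix.cons_val_one, Matrix.cons_val_zero, Pi.add_apply,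
      Pi.mul_apply, Pi.pow_apply]
    clear h hX hY hZ
    generalize XJ m x = X at *
    generalize YJ m x = Y at *
    generalize ZJ m x = Z at *
    generalize (sg m : ℂ) = s at *
    generalize (m : ℂ) = M at *
    field_simp
    push_cast
    grind
  · have h := (((hX.mul hZ).mul ((((hX.pow 4).const_mul (-(2 / 3 * (m:ℂ)))).add
      ((hX.pow 2).const_mul ((4 + 3 * (m:ℂ)) / 6))).sub_const (1 / 2 : ℂ))).const_mul
        ((sg m : ℂ) ^ 2))
    refine h.congr_deriv ?_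
    have e3 : ∀ a b c d : ℂ, (![a, b, c, d] : Fin 4 → ℂ) ⟨2, by decide⟩ = c := fun _ _ _ _ => rfl
    simp only [N1, N3, e3, Pi.add_apply, Pi.mul_apply, Pi.pow_apply]
    clear h hX hY hZ
    generalize XJ m x = X at *
    generalize YJ m x = Y at *
    generalize ZJ m x = Z at *
    generalize (sg m : ℂ) = s at *
    generalize (m : ℂ) = M at *
    field_simp
    push_cast
    grind
  · have h := (((hY.mul hZ).mul ((((hY.pow 4).const_mul (-(2 / 3 * (m:ℂ)))).sub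
      ((hY.pow 2).const_mul ((4 * (1 - (m:ℂ)) - 3 * m) / 6))).add_const ((1 - (m:ℂ)) / 2))).const_mul
        ((sg m : ℂ) ^ 2))
    refine h.congr_deriv ?_
    have e3 : ∀ a b c d : ℂ, (![a, b, c, d] : Fin 4 → ℂ) ⟨3, by decide⟩ = d := fun _ _ _ _ => rfl
    simp only [N1, N3, e3, Pi.sub_apply, Pi.mul_apply, Pi.pow_apply]
    clear h hX hY hZ
    generalize XJ m x = X at *
    generalize YJ m x = Y at *
    generalize ZJ m x = Z at *
    generalize (sg m : ℂ) = s at *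
    generalize (m : ℂ) = M at *
    field_simp
    push_cast
    grind

end

end

end Pool.Agent.MP_ae5b4e_an_LOC
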