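import Mathlib
import Pool.Agent.Lib.MP_ae5b4e_an_LOC.Clo

/-!
# MP_ae5b4e_an, project LOC: from the neighbourhood theorem to connected families

`NearStmt` is the neighbourhood theorem `near_pencil`.  With it a connected family of solutions with
locally bounded normal coefficients and a locally positive reach, in which no circle occurs (or the
reach at the circles is above `3 / 7`), consists of pencils if one member is a pencil.
-/

noncomputable section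

namespace Pool.Agent.MP_ae5b4e_an_LOC

open Real Set Filter Topology
open scoped ContDiff Matrix
open Pool.Agent.MP_ae5b4e_an_hopf
open Pool.Agent.MP_ae5b4e_an_RG
open Pool.Agent.MP_ae5b4e_an_RIG

/-- the neighbourhood theorem, as a statement -/
def NearStmt : Prop :=
  ∀ {γ0 : ConvexCurve} {U0 : ℝ → ℝ → ℝ} {κ0 σ0 lam0 r0 m0 : ℝ → ℝ}, Sol γ0 U0 κ0 →
    Normal γ0 κ0 σ0 lam0 r0 m0 → Pencil γ0 U0 → ∀ {K δ : ℝ}, 0 < δ →
    ((∀ x, r0 x = r0 0) → 3 / 7 < δ) → ∃ ε : ℝ, 0 < ε ∧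
      ∀ (γ : ConvexCurve) (U : ℝ → ℝ → ℝ) (κ σ lam r m : ℝ → ℝ), Sol γ U κ →
        Normal γ κ σ lam r m → Bnd K r m → Reach γ U σ δ → (∀ x, |r x - r0 x| ≤ ε) →
        (∀ x, |m x - m0 x| ≤ ε) → Pencil γ U

/-- a continuous family of solutions: the normal coefficients depend continuously on the member in
the sup norm, and they, their derivatives and the reach are locally bounded; the reach is above
`3 / 7` near the circles -/
structure Family {X : Type*} [TopologicalSpace X] (γ : X → ConvexCurve) (U : X → ℝ → ℝ → ℝ)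
    (κ σ lam r m : X → ℝ → ℝ) : Prop where
  sol : ∀ a, Sol (γ a) (U a) (κ a)
  normal : ∀ a, Normal (γ a) (κ a) (σ a) (lam a) (r a) (m a)
  cont : ∀ a, ∀ ε > 0, ∀ᶠ b in 𝓝 a, (∀ x, |r b x - r a x| ≤ ε) ∧ ∀ x, |m b x - m a x| ≤ ε
  bnd : ∀ a, ∃ K : ℝ, ∀ᶠ b in 𝓝 a, Bnd K (r b) (m b)
  reach : ∀ a, ∃ δ : ℝ, 0 < δ ∧ ((∀ x, r a x = r a 0) → 3 / 7 < δ) ∧
    ∀ᶠ b in 𝓝 a, Reach (γ b) (U b) (σ b) δ

/-- **Theorem** (connected families): pencils are joined only to pencils. -/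
theorem family_pencil (H : NearStmt) {X : Type*} [TopologicalSpace X] [PreconnectedSpace X]
    {γ : X → ConvexCurve} {U : X → ℝ → ℝ → ℝ} {κ σ lam r m : X → ℝ → ℝ}
    (h : Family γ U κ σ lam r m) {a : X} (ha : Pencil (γ a) (U a)) (b : X) :
    Pencil (γ b) (U b) := by
  refine pencil_connected h.sol h.normal h.cont (fun a ha => ?_) ha b
  obtain ⟨K, hK⟩ := h.bnd a
  obtain ⟨δ, hδ, hδc, hR⟩ := h.reach a
  obtain ⟨ε, hε, F⟩ := H (h.sol a) (h.normal a) ha hδ hδc (K := K)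
  filter_upwards [hK, hR, h.cont a ε hε] with b h1 h2 h3
  exact F _ _ _ _ _ _ _ (h.sol b) (h.normal b) h1 h2 h3.1 h3.2

/-- **Theorem** (paths): a path of solutions that starts at a pencil consists of pencils. -/
theorem path_pencil (H : NearStmt) {γ : ℝ → ConvexCurve} {U : ℝ → ℝ → ℝ → ℝ}
    {κ σ lam r m : ℝ → ℝ → ℝ} {K δ : ℝ} (hδ : 0 < δ)
    (hS : ∀ s ∈ Icc (0:ℝ) 1, Sol (γ s) (U s) (κ s))
    (hN : ∀ s ∈ Icc (0:ℝ) 1, Normal (γ s) (κ s) (σ s) (lam s) (r s) (m s))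
    (hc : ∀ s ∈ Icc (0:ℝ) 1, ∀ ε > 0, ∃ η > 0, ∀ s' ∈ Icc (0:ℝ) 1, |s' - s| < η →
      (∀ x, |r s' x - r s x| ≤ ε) ∧ ∀ x, |m s' x - m s x| ≤ ε)
    (hK : ∀ s ∈ Icc (0:ℝ) 1, Bnd K (r s) (m s))
    (hR : ∀ s ∈ Icc (0:ℝ) 1, Reach (γ s) (U s) (σ s) δ)
    (hcirc : δ ≤ 3 / 7 → ∀ s ∈ Icc (0:ℝ) 1, ∃ x, r s x ≠ r s 0)
    (h0 : Pencil (γ 0) (U 0)) : ∀ s ∈ Icc (0:ℝ) 1, Pencil (γ s) (U s) := by
  intro s hs
  have hF : Family (X := Icc (0:ℝ) 1) (fun a => γ a) (fun a => U a) (fun a => κ a)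
      (fun a => σ a) (fun a => lam a) (fun a => r a) (fun a => m a) := by
    refine ⟨fun a => hS a a.2, fun a => hN a a.2, fun a ε hε => ?_,
      fun a => ⟨K, Eventually.of_forall fun b => hK b b.2⟩,
      fun a => ⟨δ, hδ, fun h1 => ?_, Eventually.of_forall fun b => hR b b.2⟩⟩
    · obtain ⟨η, hη, F⟩ := hc a a.2 ε hε
      filter_upwards [Metric.ball_mem_nhds a hη] with b hb
      refine F b b.2 ?_
      rw [← Real.dist_eq]
      exact hb
    · by_contra h2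
      obtain ⟨x, hx⟩ := hcirc (not_lt.1 h2) a a.2
      exact hx (h1 x)
  exact family_pencil H hF (a := ⟨0, by simp⟩) h0 ⟨s, hs⟩

end Pool.Agent.MP_ae5b4e_an_LOC
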