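import Mathlib
import Pool.Agent.Lib.MP_ae5b4e_an_LOC.Path
import Pool.Agent.Lib.MP_ae5b4e_an_LOC.Unif

/-!
# MP_ae5b4e_an, project LOC: connected families of solutions

A connected family of solutions which contains a pencil consists of pencils.
-/

set_option autoImplicit false

noncomputable section

namespace Pool.Agent.MP_ae5b4e_an_LOC

open Set Filter Topology
open scoped ContDiff
open Pool.Agent.MP_ae5b4e_an_hopf
open Pool.Agent.MP_ae5b4e_an_RG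
open Pool.Agent.MP_ae5b4e_an_RIG (Bnd Reach Normal lift)

theorem nearStmt : NearStmt := fun h0 hN0 hP0 _ _ hδ hc => near_pencil h0 hN0 hP0 hδ hc

/-- **Theorem** (connected families): pencils are joined only to pencils. -/
theorem connected_family {X : Type*} [TopologicalSpace X] [PreconnectedSpace X]
    {γ : X → ConvexCurve} {U : X → ℝ → ℝ → ℝ} {κ σ lam r m : X → ℝ → ℝ}
    (h : Family γ U κ σ lam r m) {a : X} (ha : Pencil (γ a) (U a)) (b : X) :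
    Pencil (γ b) (U b) := family_pencil nearStmt h ha b

/-- **Theorem** (paths): a path of solutions that starts at a pencil consists of pencils. -/
theorem path_of_pencil {γ : ℝ → ConvexCurve} {U : ℝ → ℝ → ℝ → ℝ}
    {κ σ lam r m : ℝ → ℝ → ℝ} {K δ : ℝ} (hδ : 0 < δ)
    (hS : ∀ s ∈ Icc (0:ℝ) 1, Pool.Agent.MP_ae5b4e_an_RIG.Sol (γ s) (U s) (κ s))
    (hN : ∀ s ∈ Icc (0:ℝ) 1, Normal (γ s) (κ s) (σ s) (lam s) (r s) (m s))
    (hc : ∀ s ∈ Icc (0:ℝ) 1, ∀ ε > 0, ∃ η > 0, ∀ s' ∈ Icc (0:ℝ) 1, |s' - s| < η →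
      (∀ x, |r s' x - r s x| ≤ ε) ∧ ∀ x, |m s' x - m s x| ≤ ε)
    (hK : ∀ s ∈ Icc (0:ℝ) 1, Bnd K (r s) (m s))
    (hR : ∀ s ∈ Icc (0:ℝ) 1, Reach (γ s) (U s) (σ s) δ)
    (hcirc : δ ≤ 3 / 7 → ∀ s ∈ Icc (0:ℝ) 1, ∃ x, r s x ≠ r s 0)
    (h0 : Pencil (γ 0) (U 0)) : ∀ s ∈ Icc (0:ℝ) 1, Pencil (γ s) (U s) :=
  path_pencil nearStmt hδ hS hN hc hK hR hcirc h0

end Pool.Agent.MP_ae5b4e_an_LOC
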