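import Mathlib

/-!
# LOC, linear theory: general lemmas for the polynomial growth (POR_LOC_MASTER, LT-14)

* `exists_root` : solution of `f w = q` for `f w = a w ^ 2 + O (w ^ 4)`;
* `interp` : a quadratic polynomial which is small at three separated points has small coefficients;
* `growth` : a function with `m q ≤ C max m (1.3 |q| .. 10 |q|)` grows at most polynomially;
* `cauchy_le` : bound by the Cauchy formula.
-/

set_option autoImplicit false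

namespace Pool.Agent.MP_ae5b4e_an_LOC

open Set Metric Complex Filter Topology

/-- Solution of `f w = a w0 ^ 2` near `w0` if `f w = a w ^ 2 + O (w ^ 4)`. -/
theorem exists_root {f : ℂ → ℂ} {R a M η : ℝ} (ha : 0 < a) (hM : 0 ≤ M) (hη : 0 < η)
    (hη1 : η ≤ 1 / 2) (hf : DifferentiableOn ℂ f (ball 0 R))
    (hfa : ∀ w ∈ ball (0:ℂ) R, ‖f w - a * w ^ 2‖ ≤ M * ‖w‖ ^ 4) {w0 : ℂ} (hw0 : w0 ≠ 0)
    (hR : 2 * ‖w0‖ < R) (hs : 14 * M * ‖w0‖ ^ 2 ≤ a * η) :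
    ∃ w : ℂ, ‖w - w0‖ ≤ η * ‖w0‖ ∧ f w = a * w0 ^ 2 := by
  have h0 : 0 < ‖w0‖ := norm_pos_iff.2 hw0
  have hr : 0 < η * ‖w0‖ := mul_pos hη h0
  have hsub : closedBall w0 (η * ‖w0‖) ⊆ ball 0 R := by
    intro w hw
    rw [mem_closedBall, dist_eq_norm] at hw
    rw [mem_ball_zero_iff]
    have h1 : ‖w‖ ≤ ‖w - w0‖ + ‖w0‖ := by
      have := norm_add_le (w - w0) w0
      simpa using this
    nlinarith
  have hdc : DiffContOnCl ℂ f (ball w0 (η * ‖w0‖)) := by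
    apply DifferentiableOn.diffContOnCl
    rw [closure_ball w0 hr.ne']
    exact hf.mono hsub
  have hw0R : w0 ∈ ball (0:ℂ) R := hsub (mem_closedBall_self hr.le)
  have hsph : ∀ z ∈ sphere w0 (η * ‖w0‖), a * η * ‖w0‖ ^ 2 ≤ ‖f z - f w0‖ := by
    intro z hz
    have hzb : z ∈ ball (0:ℂ) R := hsub (sphere_subset_closedBall hz)
    rw [mem_sphere, dist_eq_norm] at hz
    have h1 : ‖z‖ ≤ ‖z - w0‖ + ‖w0‖ := by
      have := norm_add_le (z - w0) w0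
      simpa using this
    have h1' : ‖z‖ ≤ 3 / 2 * ‖w0‖ := by nlinarith
    have h2 : 3 / 2 * ‖w0‖ ≤ ‖z + w0‖ := by
      have h3 : ‖2 * w0‖ ≤ ‖z + w0‖ + ‖z - w0‖ := by
        have := norm_sub_le (z + w0) (z - w0)
        have e : z + w0 - (z - w0) = 2 * w0 := by ring
        rwa [e] at this
      rw [norm_mul] at h3
      have h4 : ‖(2:ℂ)‖ = 2 := by norm_num
      rw [h4] at h3
      nlinarith
    have h3 : 3 / 2 * a * η * ‖w0‖ ^ 2 ≤ ‖a * z ^ 2 - a * w0 ^ 2‖ := by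
      have e : (a:ℂ) * z ^ 2 - a * w0 ^ 2 = a * ((z - w0) * (z + w0)) := by ring
      rw [e, norm_mul, norm_mul, Complex.norm_of_nonneg ha.le, hz]
      have := mul_le_mul_of_nonneg_left h2 hr.le
      nlinarith
    have h4 := hfa z hzb
    have h5 := hfa w0 hw0R
    have h6 : ‖z‖ ^ 4 ≤ 6 * ‖w0‖ ^ 4 := by
      have := pow_le_pow_left₀ (norm_nonneg z) h1' 4
      have h7 : 0 ≤ ‖w0‖ ^ 4 := by positivity
      nlinarith
    have h8 : ‖a * z ^ 2 - a * w0 ^ 2‖ ≤ ‖f z - f w0‖ + ‖f z - a * z ^ 2‖ +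
        ‖f w0 - a * w0 ^ 2‖ := by
      have e : (a:ℂ) * z ^ 2 - a * w0 ^ 2 = (f z - f w0) - (f z - a * z ^ 2) +
          (f w0 - a * w0 ^ 2) := by ring
      rw [e]
      exact (norm_add_le _ _).trans (add_le_add (norm_sub_le _ _) le_rfl)
    have h9 : M * ‖z‖ ^ 4 ≤ M * (6 * ‖w0‖ ^ 4) := mul_le_mul_of_nonneg_left h6 hM
    have h10 : 14 * M * ‖w0‖ ^ 2 * ‖w0‖ ^ 2 ≤ a * η * ‖w0‖ ^ 2 :=
      mul_le_mul_of_nonneg_right hs (by positivity)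
    nlinarith
  have hpos : 0 < a * η * ‖w0‖ ^ 2 := by positivity
  have hfreq : ∃ᶠ z in 𝓝 w0, f z ≠ f w0 := by
    intro hev
    have hev' : f =ᶠ[𝓝 w0] fun _ => f w0 := by
      filter_upwards [hev] with z hz
      simpa using hz
    have han : AnalyticOnNhd ℂ f (ball 0 R) := hf.analyticOnNhd isOpen_ball
    have heq := han.eqOn_of_preconnected_of_eventuallyEq analyticOnNhd_const
      (convex_ball (0:ℂ) R).isPreconnected hw0R hev'
    obtain ⟨z, hz⟩ : (sphere w0 (η * ‖w0‖)).Nonempty := NormedSpace.sphere_nonempty.2 hr.le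
    have h1 := hsph z hz
    have h2 : f z = f w0 := heq (hsub (sphere_subset_closedBall hz))
    rw [h2, sub_self, norm_zero] at h1
    linarith
  have himg := hdc.ball_subset_image_closedBall hr hsph hfreq
  have hq : (a:ℂ) * w0 ^ 2 ∈ ball (f w0) (a * η * ‖w0‖ ^ 2 / 2) := by
    rw [mem_ball, dist_eq_norm, norm_sub_rev]
    refine (hfa w0 hw0R).trans_lt ?_
    have h10 : 14 * M * ‖w0‖ ^ 2 * ‖w0‖ ^ 2 ≤ a * η * ‖w0‖ ^ 2 :=
      mul_le_mul_of_nonneg_right hs (by positivity)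
    nlinarith
  obtain ⟨w, hw, hwq⟩ := himg hq
  rw [mem_closedBall, dist_eq_norm] at hw
  exact ⟨w, hw, hwq⟩

/-- A quadratic polynomial which is small at three separated points has small coefficients. -/
theorem interp {a b c x1 x2 x3 : ℂ} {D : ℝ} (h1 : ‖x1‖ ≤ 9) (h2 : ‖x2‖ ≤ 9)
    (h12 : 1 / 2 ≤ ‖x1 - x2‖) (h13 : 1 / 2 ≤ ‖x1 - x3‖) (h23 : 1 / 2 ≤ ‖x2 - x3‖)
    (p1 : ‖a + b * x1 + c * x1 ^ 2‖ ≤ D) (p2 : ‖a + b * x2 + c * x2 ^ 2‖ ≤ D)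
    (p3 : ‖a + b * x3 + c * x3 ^ 2‖ ≤ D) :
    ‖a‖ ≤ 5000 * D ∧ ‖b‖ ≤ 300 * D ∧ ‖c‖ ≤ 16 * D := by
  have hD : 0 ≤ D := (norm_nonneg _).trans p1
  set P1 := a + b * x1 + c * x1 ^ 2 with hP1
  set P2 := a + b * x2 + c * x2 ^ 2 with hP2
  set P3 := a + b * x3 + c * x3 ^ 2 with hP3
  have e12 : x1 - x2 ≠ 0 := norm_pos_iff.1 (lt_of_lt_of_le (by norm_num) h12)
  have e13 : x1 - x3 ≠ 0 := norm_pos_iff.1 (lt_of_lt_of_le (by norm_num) h13)
  have e23 : x2 - x3 ≠ 0 := norm_pos_iff.1 (lt_of_lt_of_le (by norm_num) h23)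
  have hdiv : ∀ {u v : ℂ} {E : ℝ}, ‖u‖ ≤ E → 1 / 2 ≤ ‖v‖ → ‖u / v‖ ≤ 2 * E := by
    intro u v E hu hv
    rw [norm_div, div_le_iff₀ (by linarith)]
    have : 0 ≤ E := (norm_nonneg u).trans hu
    nlinarith
  have d1 : ‖(P1 - P2) / (x1 - x2)‖ ≤ 2 * (2 * D) :=
    hdiv ((norm_sub_le _ _).trans (by linarith)) h12
  have d2 : ‖(P2 - P3) / (x2 - x3)‖ ≤ 2 * (2 * D) :=
    hdiv ((norm_sub_le _ _).trans (by linarith)) h23
  have hc : c = ((P1 - P2) / (x1 - x2) - (P2 - P3) / (x2 - x3)) / (x1 - x3) := by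
    rw [hP1, hP2, hP3]
    field_simp
    ring
  have hcn : ‖c‖ ≤ 16 * D := by
    rw [hc]
    refine (hdiv (E := 8 * D) ((norm_sub_le _ _).trans (by linarith)) h13).trans (by linarith)
  have hb : b = (P1 - P2) / (x1 - x2) - c * (x1 + x2) := by
    rw [hP1, hP2]
    field_simp
    ring
  have hbn : ‖b‖ ≤ 300 * D := by
    rw [hb]
    refine (norm_sub_le _ _).trans ?_
    rw [norm_mul]
    have h5 : ‖x1 + x2‖ ≤ 18 := (norm_add_le _ _).trans (by linarith)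
    have h6 : ‖c‖ * ‖x1 + x2‖ ≤ 16 * D * 18 :=
      mul_le_mul hcn h5 (norm_nonneg _) (by positivity)
    linarith
  have ha : a = P1 - b * x1 - c * x1 ^ 2 := by
    rw [hP1]
    ring
  refine ⟨?_, hbn, hcn⟩
  rw [ha]
  have h7 : ‖b * x1‖ ≤ 300 * D * 9 := by
    rw [norm_mul]
    exact mul_le_mul hbn h1 (norm_nonneg _) (by positivity)
  have h8 : ‖c * x1 ^ 2‖ ≤ 16 * D * 81 := by
    rw [norm_mul, norm_pow]
    have : ‖x1‖ ^ 2 ≤ 81 := by nlinarith [norm_nonneg x1]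
    exact mul_le_mul hcn this (by positivity) (by positivity)
  have h9 := norm_sub_le (P1 - b * x1) (c * x1 ^ 2)
  have h10 := norm_sub_le P1 (b * x1)
  linarith

/-- Polynomial growth from a recursive bound. -/
theorem growth {m : ℂ → ℝ} {q0 C B0 : ℝ} (hq0 : 0 < q0) (hB0 : 0 ≤ B0)
    (hB : ∀ q : ℂ, q0 ≤ ‖q‖ → ‖q‖ ≤ 10 * q0 → m q ≤ B0)
    (step : ∀ q : ℂ, 0 < ‖q‖ → ‖q‖ < q0 → ∀ S : ℝ,
      (∀ q' : ℂ, 1.3 * ‖q‖ ≤ ‖q'‖ → ‖q'‖ ≤ 10 * ‖q‖ → m q' ≤ S) → m q ≤ C * S) :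
    ∃ (A : ℕ) (C' : ℝ), 0 < C' ∧ ∀ q : ℂ, 0 < ‖q‖ → ‖q‖ ≤ q0 → m q * ‖q‖ ^ A ≤ C' := by
  obtain ⟨A, hA⟩ : ∃ A : ℕ, C ≤ (1.3:ℝ) ^ A := by
    obtain ⟨A, hA⟩ := pow_unbounded_of_one_lt C (by norm_num : (1:ℝ) < 1.3)
    exact ⟨A, hA.le⟩
  have key : ∀ n : ℕ, ∀ q : ℂ, q0 ≤ 1.3 ^ n * ‖q‖ → ‖q‖ ≤ 10 * q0 →
      m q ≤ ((1.3:ℝ) ^ A) ^ n * B0 := by
    intro n
    induction n with
    | zero =>
      intro q h1 h2
      have := hB q (by simpa using h1) h2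
      simpa using this
    | succ n ih =>
      intro q h1 h2
      by_cases hq : q0 ≤ ‖q‖
      · refine (hB q hq h2).trans ?_
        have : (1:ℝ) ≤ ((1.3:ℝ) ^ A) ^ (n + 1) :=
          one_le_pow₀ (one_le_pow₀ (by norm_num))
        nlinarith
      push Not at hq
      have hqpos : 0 < ‖q‖ := by
        by_contra hcon
        have : ‖q‖ = 0 := le_antisymm (not_lt.1 hcon) (norm_nonneg q)
        rw [this, mul_zero] at h1
        linarith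
      have h3 := step q hqpos hq (((1.3:ℝ) ^ A) ^ n * B0) (by
        intro q' h4 h5
        refine ih q' ?_ (by linarith)
        have h6 : (1.3:ℝ) ^ n * (1.3 * ‖q‖) ≤ 1.3 ^ n * ‖q'‖ :=
          mul_le_mul_of_nonneg_left h4 (by positivity)
        have h7 : (1.3:ℝ) ^ (n + 1) * ‖q‖ = 1.3 ^ n * (1.3 * ‖q‖) := by ring
        linarith)
      refine h3.trans ?_
      have h8 : 0 ≤ ((1.3:ℝ) ^ A) ^ n * B0 := by positivity
      calc C * (((1.3:ℝ) ^ A) ^ n * B0) ≤ (1.3:ℝ) ^ A * (((1.3:ℝ) ^ A) ^ n * B0) :=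
            mul_le_mul_of_nonneg_right hA h8
        _ = ((1.3:ℝ) ^ A) ^ (n + 1) * B0 := by ring
  refine ⟨A, (1.3 * q0) ^ A * B0 + 1, by positivity, ?_⟩
  intro q hq hqq
  have hex : ∃ n : ℕ, q0 ≤ 1.3 ^ n * ‖q‖ := by
    obtain ⟨n, hn⟩ := pow_unbounded_of_one_lt (q0 / ‖q‖) (by norm_num : (1:ℝ) < 1.3)
    refine ⟨n, ?_⟩
    rw [div_lt_iff₀ hq] at hn
    exact hn.le
  classical
  have hfind := Nat.find_spec hex
  set n := Nat.find hex with hn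
  have h1 := key n q hfind (by linarith)
  have h2 : (1.3:ℝ) ^ n * ‖q‖ ≤ 1.3 * q0 := by
    rcases Nat.eq_zero_or_pos n with h0 | h0
    · rw [h0, pow_zero, one_mul]
      linarith
    · have h3 : ¬ q0 ≤ 1.3 ^ (n - 1) * ‖q‖ := Nat.find_min hex (by omega)
      push Not at h3
      have h4 : (1.3:ℝ) ^ n = 1.3 * 1.3 ^ (n - 1) := by
        rw [← pow_succ']
        congr 1
        omega
      rw [h4]
      nlinarith
  have h3 : m q * ‖q‖ ^ A ≤ ((1.3:ℝ) ^ A) ^ n * B0 * ‖q‖ ^ A :=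
    mul_le_mul_of_nonneg_right h1 (by positivity)
  have h4 : ((1.3:ℝ) ^ A) ^ n * B0 * ‖q‖ ^ A = (1.3 ^ n * ‖q‖) ^ A * B0 := by
    rw [mul_pow, ← pow_mul, ← pow_mul, mul_comm A n]
    ring
  have h5 : ((1.3:ℝ) ^ n * ‖q‖) ^ A ≤ (1.3 * q0) ^ A := pow_le_pow_left₀ (by positivity) h2 A
  have h6 := mul_le_mul_of_nonneg_right h5 hB0
  linarith

/-- Bound by the Cauchy formula. -/
theorem cauchy_le {g : ℂ → ℂ} {z : ℂ} {d S : ℝ} (hd : 0 < d) (hz : ‖z‖ ≤ 2 / 5 * d)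
    (hg : ∀ w ∈ sphere (0:ℂ) d, ‖g w‖ ≤ S)
    (h : g z = (2 * Real.pi * I)⁻¹ * ∮ w in C(0, d), g w / (w - z)) : ‖g z‖ ≤ 2 * S := by
  have hS : 0 ≤ S := by
    obtain ⟨w, hw⟩ : (sphere (0:ℂ) d).Nonempty := NormedSpace.sphere_nonempty.2 hd.le
    exact (norm_nonneg _).trans (hg w hw)
  have h1 : ∀ w ∈ sphere (0:ℂ) d, ‖g w / (w - z)‖ ≤ S / (3 / 5 * d) := by
    intro w hw
    have hwn : ‖w‖ = d := by simpa using hw
    have h2 : 3 / 5 * d ≤ ‖w - z‖ := by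
      have := norm_sub_norm_le w z
      rw [hwn] at this
      linarith
    rw [norm_div]
    exact div_le_div₀ hS (hg w hw) (by positivity) h2
  have h2 := circleIntegral.norm_two_pi_i_inv_smul_integral_le_of_norm_le_const hd.le h1
  rw [smul_eq_mul, ← h] at h2
  refine h2.trans ?_
  have : d * (S / (3 / 5 * d)) = 5 / 3 * S := by
    field_simp
  rw [this]
  linarith

end Pool.Agent.MP_ae5b4e_an_LOC
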