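import Pool.Agent.Lib.MP_ae5b4e_an_LOC.LT0
import Pool.Agent.Lib.MP_ae5b4e_an_LOC.Napp
import Pool.Agent.Lib.MP_ae5b4e_an_LOC.PgA

/-!
# LOC, linear theory: polynomial growth of the functions `u i` (POR_LOC_MASTER, LT-14), core

For `c = 3/10, 1/3, 5/14` let `om` solve `N(om, c om) = q`.  Cauchy's formula for
`V(om, z - om/2) + V(om, z + om/2)` at `z = - (1/2 - c) om` bounds `V(om, c om)` by the values
of the `u i` at points `q'` with `1.3 |q| ≤ |q'| ≤ 10 |q|`; interpolation gives the same bound for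
the three values `u i q`.
-/

set_option autoImplicit false

namespace Pool.Agent.MP_ae5b4e_an_LOC

open Set Metric Complex ComplexConjugate Filter Topology

/-- the weight function of LT-14 -/
noncomputable def pgm (u : Fin 3 → ℂ → ℂ) (q : ℂ) : ℝ :=
  ‖u 2 q‖ + ‖q‖ * ‖u 1 q‖ + ‖q‖ ^ 2 * ‖u 0 q‖

theorem pgm_nonneg (u : Fin 3 → ℂ → ℂ) (q : ℂ) : 0 ≤ pgm u q := by
  unfold pgm
  positivity

/-- the explicit form of `V` -/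
noncomputable def Bg.pgV (B : Bg) (u : Fin 3 → ℂ → ℂ) (om z : ℂ) : ℂ :=
  om ^ 4 * u 0 (B.N om z) + om ^ 2 * B.Lam om * u 1 (B.N om z) + B.Lam om ^ 2 * u 2 (B.N om z)

theorem pgV_le (B : Bg) (u : Fin 3 → ℂ → ℂ) {om z : ℂ} {κ Lm S : ℝ} (hκ : 0 ≤ κ)
    (hom : ‖om‖ ^ 2 ≤ κ * ‖B.N om z‖) (hL : ‖B.Lam om‖ ≤ Lm) (hS : pgm u (B.N om z) ≤ S) :
    ‖B.pgV u om z‖ ≤ (κ ^ 2 + κ * Lm + Lm ^ 2) * S := by
  set q := B.N om z with hq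
  have hLm : 0 ≤ Lm := (norm_nonneg _).trans hL
  have hm : ‖u 2 q‖ + ‖q‖ * ‖u 1 q‖ + ‖q‖ ^ 2 * ‖u 0 q‖ ≤ S := hS
  have h0 : 0 ≤ ‖u 0 q‖ := norm_nonneg _
  have h1 : 0 ≤ ‖u 1 q‖ := norm_nonneg _
  have h2 : 0 ≤ ‖u 2 q‖ := norm_nonneg _
  have hqn : 0 ≤ ‖q‖ := norm_nonneg _
  have e0 : ‖om ^ 4 * u 0 q‖ ≤ κ ^ 2 * (‖q‖ ^ 2 * ‖u 0 q‖) := by
    rw [norm_mul, norm_pow]
    have h3 : ‖om‖ ^ 4 ≤ (κ * ‖q‖) ^ 2 := by
      have := pow_le_pow_left₀ (by positivity) hom 2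
      calc ‖om‖ ^ 4 = (‖om‖ ^ 2) ^ 2 := by ring
        _ ≤ _ := this
    calc ‖om‖ ^ 4 * ‖u 0 q‖ ≤ (κ * ‖q‖) ^ 2 * ‖u 0 q‖ := mul_le_mul_of_nonneg_right h3 h0
      _ = _ := by ring
  have e1 : ‖om ^ 2 * B.Lam om * u 1 q‖ ≤ κ * Lm * (‖q‖ * ‖u 1 q‖) := by
    rw [norm_mul, norm_mul, norm_pow]
    have h3 : ‖om‖ ^ 2 * ‖B.Lam om‖ ≤ κ * ‖q‖ * Lm :=
      mul_le_mul hom hL (norm_nonneg _) (by positivity)
    calc ‖om‖ ^ 2 * ‖B.Lam om‖ * ‖u 1 q‖ ≤ κ * ‖q‖ * Lm * ‖u 1 q‖ :=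
          mul_le_mul_of_nonneg_right h3 h1
      _ = _ := by ring
  have e2 : ‖B.Lam om ^ 2 * u 2 q‖ ≤ Lm ^ 2 * ‖u 2 q‖ := by
    rw [norm_mul, norm_pow]
    exact mul_le_mul_of_nonneg_right (pow_le_pow_left₀ (norm_nonneg _) hL 2) h2
  have h3 : ‖B.pgV u om z‖ ≤ κ ^ 2 * (‖q‖ ^ 2 * ‖u 0 q‖) + κ * Lm * (‖q‖ * ‖u 1 q‖) +
      Lm ^ 2 * ‖u 2 q‖ := by
    unfold Bg.pgV
    rw [← hq]
    exact (norm_add_le _ _).trans (add_le_add ((norm_add_le _ _).trans (add_le_add e0 e1)) e2)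
  have a0 : 0 ≤ ‖q‖ ^ 2 * ‖u 0 q‖ := by positivity
  have a1 : 0 ≤ ‖q‖ * ‖u 1 q‖ := by positivity
  have k0 : 0 ≤ κ ^ 2 := by positivity
  have k1 : 0 ≤ κ * Lm := by positivity
  have k2 : 0 ≤ Lm ^ 2 := by positivity
  have s0 : ‖q‖ ^ 2 * ‖u 0 q‖ ≤ S := by linarith
  have s1 : ‖q‖ * ‖u 1 q‖ ≤ S := by linarith
  have s2 : ‖u 2 q‖ ≤ S := by linarith
  have t0 := mul_le_mul_of_nonneg_left s0 k0
  have t1 := mul_le_mul_of_nonneg_left s1 k1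
  have t2 := mul_le_mul_of_nonneg_left s2 k2
  linarith

theorem Bg.N_diff (B : Bg) {c : ℝ} (hc1 : 0 ≤ c) (hc2 : c ≤ 1) :
    DifferentiableOn ℂ (fun om => B.N om (c * om)) (ball 0 B.r) := by
  have hK := B.one_le_K
  have hr := B.r_pos
  have hrr := B.K_r_le
  have hmem : ∀ (d : ℝ), 0 ≤ d → d ≤ 1 → ∀ om ∈ ball (0:ℂ) B.r, (d:ℂ) * om ∈ ball (0:ℂ) B.rho := by
    intro d hd0 hd1 om hom
    rw [mem_ball_zero_iff] at hom ⊢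
    rw [norm_mul, Complex.norm_of_nonneg hd0]
    have h1 : d * ‖om‖ ≤ 1 * ‖om‖ := mul_le_mul_of_nonneg_right hd1 (norm_nonneg _)
    nlinarith
  have hs : ∀ (d : ℝ), 0 ≤ d → d ≤ 1 →
      DifferentiableOn ℂ (fun om => B.s om ((d:ℂ) * om)) (ball 0 B.r) := by
    intro d hd0 hd1 om hom
    have h1 : AnalyticAt ℂ (fun p : ℂ × ℂ => B.s p.1 p.2) (om, (d:ℂ) * om) :=
      B.s_an (om, (d:ℂ) * om) ⟨hom, hmem d hd0 hd1 om hom⟩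
    have h2 : DifferentiableAt ℂ (fun om : ℂ => (om, (d:ℂ) * om)) om := by fun_prop
    exact (h1.differentiableAt.comp om h2).differentiableWithinAt
  have h1 := hs c hc1 hc2
  have h2 := hs (1 / 2) (by norm_num) (by norm_num)
  refine ((h2.pow 2).sub (h1.pow 2)).congr ?_
  intro om hom
  have h3 := B.ep_eq om hom
  unfold Bg.N
  rw [h3]
  have e : om / 2 = ((1 / 2 : ℝ) : ℂ) * om := by
    push_cast
    ring
  rw [e]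
  rfl

theorem pg_c1 {c : ℝ} (h1 : 3 / 10 ≤ c) (h2 : c ≤ 5 / 14) :
    6 / 49 ≤ 1 / 4 - c ^ 2 ∧ 1 / 4 - c ^ 2 ≤ 4 / 25 := by
  constructor <;> nlinarith

theorem pg_c2 {c : ℝ} (h1 : 3 / 10 ≤ c) (h2 : c ≤ 5 / 14) :
    21 / 160 ≤ (1 - c) ^ 2 - 1 / 4 ∧
      131 / 100 * (1 / 4 - c ^ 2) ≤ 399 / 400 * ((1 - c) ^ 2 - 1 / 4) ∧
      401 / 400 * ((1 - c) ^ 2 - 1 / 4) ≤ 9 * (1 / 4 - c ^ 2) := by
  refine ⟨?_, ?_, ?_⟩ <;> nlinarith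

theorem pg_sq {x w : ℝ} (hw : 0 ≤ w) (h3 : x ≤ 1001 / 1000 * w) (h4 : 999 / 1000 * w ≤ x) :
    x ^ 2 ≤ 401 / 400 * w ^ 2 ∧ 399 / 400 * w ^ 2 ≤ x ^ 2 := by
  constructor <;> nlinarith

theorem pg_ann {n D q k al lo hi X W : ℝ} (hk : 0 < k) (hal : 0 ≤ al) (hW : 0 ≤ W)
    (hq : q = k * al * W) (h1 : lo * X ≤ D) (h2 : D ≤ hi * X) (hx1 : X ≤ 401 / 400 * W)
    (hx2 : 399 / 400 * W ≤ X) (hlo0 : 0 ≤ lo) (hhi0 : 0 ≤ hi)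
    (hlo : 131 / 100 * al ≤ 399 / 400 * lo) (hhi : 401 / 400 * hi ≤ 9 * al)
    (hup : n ≤ k * D + k * al / 1000 * W) (hdn : k * D - k * al / 1000 * W ≤ n) :
    1.3 * q ≤ n ∧ n ≤ 10 * q := by
  have hkW : 0 ≤ k * W := by positivity
  have e5 : 0 ≤ al * (k * W) := by positivity
  have e1 : k * (lo * (399 / 400 * W)) ≤ k * D :=
    mul_le_mul_of_nonneg_left ((mul_le_mul_of_nonneg_left hx2 hlo0).trans h1) hk.le
  have e2 : k * D ≤ k * (hi * (401 / 400 * W)) :=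
    mul_le_mul_of_nonneg_left (h2.trans (mul_le_mul_of_nonneg_left hx1 hhi0)) hk.le
  have e3 := mul_le_mul_of_nonneg_right hlo hkW
  have e4 := mul_le_mul_of_nonneg_right hhi hkW
  have f1 : k * (lo * (399 / 400 * W)) = 399 / 400 * lo * (k * W) := by ring
  have f2 : k * (hi * (401 / 400 * W)) = 401 / 400 * hi * (k * W) := by ring
  have f3 : k * al / 1000 * W = 1 / 1000 * (al * (k * W)) := by ring
  have f4 : k * al * W = al * (k * W) := by ring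
  rw [hq, f4]
  rw [f1] at e1
  rw [f2] at e2
  rw [f3] at hup hdn
  have g3 : 131 / 100 * al * (k * W) = 131 / 100 * (al * (k * W)) := by ring
  have g4 : 9 * al * (k * W) = 9 * (al * (k * W)) := by ring
  rw [g3] at e3
  rw [g4] at e4
  constructor
  · norm_num
    linarith
  · linarith

theorem pg_err {C x y w a : ℝ} (hC : 0 < C) (hx : 0 ≤ x) (hy : 0 ≤ y) (hyx : y ≤ x)
    (hxw : x ^ 2 ≤ 401 / 400 * w ^ 2) (h : 10 ^ 6 * C * w ^ 2 ≤ a) :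
    C * (x + y) ^ 4 ≤ a / 1000 * w ^ 2 := by
  have h6 : (x + y) ^ 4 ≤ (2 * x) ^ 4 := pow_le_pow_left₀ (by positivity) (by linarith) 4
  have h8 : x ^ 2 * x ^ 2 ≤ (401 / 400 * w ^ 2) * (401 / 400 * w ^ 2) :=
    mul_le_mul hxw hxw (by positivity) (by positivity)
  have h0 : 0 ≤ w ^ 2 * w ^ 2 := by positivity
  have h9 : (x + y) ^ 4 ≤ 17 * (w ^ 2 * w ^ 2) := by
    have e : (2 * x) ^ 4 = 16 * (x ^ 2 * x ^ 2) := by ring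
    rw [e] at h6
    linarith
  have h10 : 10 ^ 6 * C * w ^ 2 * w ^ 2 ≤ a * w ^ 2 :=
    mul_le_mul_of_nonneg_right h (by positivity)
  have h11 : C * (x + y) ^ 4 ≤ C * (17 * (w ^ 2 * w ^ 2)) := mul_le_mul_of_nonneg_left h9 hC.le
  have h12 : 0 ≤ C * (w ^ 2 * w ^ 2) := by positivity
  have e1 : 10 ^ 6 * C * w ^ 2 * w ^ 2 = 10 ^ 6 * (C * (w ^ 2 * w ^ 2)) := by ring
  have e2 : C * (17 * (w ^ 2 * w ^ 2)) = 17 * (C * (w ^ 2 * w ^ 2)) := by ring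
  rw [e1] at h10
  rw [e2] at h11
  linarith

theorem pg_kap {x w al k q : ℝ} (hk : 0 < k) (hal : 6 / 49 ≤ al) (hw : 0 ≤ w)
    (hxw : x ≤ 401 / 400 * w) (hq : q = k * al * w) : x ≤ 9 / k * q := by
  have e : 9 / k * q = 9 * al * w := by
    rw [hq]
    field_simp
  rw [e]
  nlinarith

/-- the values of `V` at a point `w` with `|om ^ 2 / 4 - w ^ 2|` between `lo |om| ^ 2` and
`hi |om| ^ 2` -/
theorem pg_pt (B : Bg) {u : Fin 3 → ℂ → ℂ} {C al S Lm : ℝ} {om w0 q w : ℂ} (hC : 0 < C)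
    (hN : ∀ om z : ℂ, ‖om‖ < B.r → ‖z‖ < B.rho →
      ‖B.N om z - B.kap ^ 2 * (om ^ 2 / 4 - z ^ 2)‖ ≤ C * (‖om‖ + ‖z‖) ^ 4)
    (hal : 6 / 49 ≤ al) (hqw : ‖q‖ = B.kap ^ 2 * al * ‖w0‖ ^ 2) (hom : ‖om‖ < B.r)
    (hsq1 : ‖om‖ ^ 2 ≤ 401 / 400 * ‖w0‖ ^ 2) (hsq2 : 399 / 400 * ‖w0‖ ^ 2 ≤ ‖om‖ ^ 2)
    (hsm : 10 ^ 6 * C * ‖w0‖ ^ 2 ≤ B.kap ^ 2 * al) (hL : ‖B.Lam om‖ ≤ Lm)
    (hS : ∀ q' : ℂ, 1.3 * ‖q‖ ≤ ‖q'‖ → ‖q'‖ ≤ 10 * ‖q‖ → pgm u q' ≤ S)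
    {lo hi : ℝ} (hw : ‖w‖ ≤ ‖om‖) (hlo0 : 0 ≤ lo) (hhi0 : 0 ≤ hi)
    (hlo : 131 / 100 * al ≤ 399 / 400 * lo) (hhi : 401 / 400 * hi ≤ 9 * al)
    (h1 : lo * ‖om‖ ^ 2 ≤ ‖om ^ 2 / 4 - w ^ 2‖) (h2 : ‖om ^ 2 / 4 - w ^ 2‖ ≤ hi * ‖om‖ ^ 2) :
    ‖B.pgV u om w‖ ≤ ((9 / B.kap ^ 2) ^ 2 + 9 / B.kap ^ 2 * Lm + Lm ^ 2) * S := by
  have hk := B.kap_pos
  have hk2 : 0 < B.kap ^ 2 := by positivity
  have hr4 : B.r ≤ B.rho := by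
    have h3 := B.K_r_le
    have h4 := B.one_le_K
    have h5 := B.r_pos
    nlinarith
  have h3 := hN om w hom ((hw.trans_lt hom).trans_le hr4)
  have h4 : ‖(B.kap:ℂ) ^ 2 * (om ^ 2 / 4 - w ^ 2)‖ = B.kap ^ 2 * ‖om ^ 2 / 4 - w ^ 2‖ := by
    rw [norm_mul, norm_pow, Complex.norm_of_nonneg hk.le]
  have h5 := pg_err hC (norm_nonneg om) (norm_nonneg w) hw hsq1 hsm
  have hup : ‖B.N om w‖ ≤ B.kap ^ 2 * ‖om ^ 2 / 4 - w ^ 2‖ + B.kap ^ 2 * al / 1000 * ‖w0‖ ^ 2 := by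
    have := norm_add_le (B.N om w - (B.kap:ℂ) ^ 2 * (om ^ 2 / 4 - w ^ 2))
      ((B.kap:ℂ) ^ 2 * (om ^ 2 / 4 - w ^ 2))
    rw [sub_add_cancel, h4] at this
    linarith
  have hdn : B.kap ^ 2 * ‖om ^ 2 / 4 - w ^ 2‖ - B.kap ^ 2 * al / 1000 * ‖w0‖ ^ 2 ≤
      ‖B.N om w‖ := by
    have := norm_sub_norm_le ((B.kap:ℂ) ^ 2 * (om ^ 2 / 4 - w ^ 2)) (B.N om w)
    rw [norm_sub_rev, h4] at this
    linarith
  obtain ⟨hA, hB⟩ := pg_ann hk2 (by linarith) (sq_nonneg ‖w0‖) hqw h1 h2 hsq1 hsq2 hlo0 hhi0 hlo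
    hhi hup hdn
  refine pgV_le B u (by positivity) ?_ hL (hS _ hA hB)
  have e1 := pg_kap hk2 hal (sq_nonneg ‖w0‖) hsq1 hqw
  refine e1.trans (mul_le_mul_of_nonneg_left ?_ (by positivity))
  have := norm_nonneg q
  norm_num at hA
  linarith

/-- the circle -/
theorem pg_circ {om ζ : ℂ} {σ : ℝ} (hσ : σ = 1 ∨ σ = -1) (hζ : ‖ζ‖ = ‖om‖ / 2) :
    ‖ζ + σ * (om / 2)‖ ≤ ‖om‖ ∧ 1 / 4 * ‖om‖ ^ 2 ≤ ‖om ^ 2 / 4 - (ζ + σ * (om / 2)) ^ 2‖ ∧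
      ‖om ^ 2 / 4 - (ζ + σ * (om / 2)) ^ 2‖ ≤ 3 / 4 * ‖om‖ ^ 2 := by
  have hσ1 : |σ| = 1 := by
    rcases hσ with rfl | rfl <;> norm_num
  have hσ2 : (σ:ℂ) ^ 2 = 1 := by
    rcases hσ with rfl | rfl <;> norm_num
  have e0 : ‖(σ:ℂ) * om‖ = ‖om‖ := by
    rw [norm_mul, Complex.norm_real, Real.norm_eq_abs, hσ1, one_mul]
  have e1 : om ^ 2 / 4 - (ζ + σ * (om / 2)) ^ 2 = -(ζ * (ζ + σ * om)) := by
    linear_combination (-(om ^ 2) / 4) * hσ2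
  have hn := norm_nonneg om
  have e2 : ‖ζ + σ * om‖ ≤ 3 / 2 * ‖om‖ := by
    refine (norm_add_le _ _).trans ?_
    rw [e0, hζ]
    linarith
  have e3 : 1 / 2 * ‖om‖ ≤ ‖ζ + σ * om‖ := by
    have := norm_sub_norm_le ((σ:ℂ) * om) (-ζ)
    rw [e0, norm_neg, hζ] at this
    have e4 : (σ:ℂ) * om - -ζ = ζ + σ * om := by ring
    rw [e4] at this
    linarith
  have e5 : ‖om ^ 2 / 4 - (ζ + σ * (om / 2)) ^ 2‖ = ‖om‖ / 2 * ‖ζ + σ * om‖ := by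
    rw [e1, norm_neg, norm_mul, hζ]
  refine ⟨?_, ?_, ?_⟩
  · refine (norm_add_le _ _).trans ?_
    have : ‖(σ:ℂ) * (om / 2)‖ = ‖om‖ / 2 := by
      rw [norm_mul, Complex.norm_real, Real.norm_eq_abs, hσ1, one_mul, norm_div]
      norm_num
    rw [this, hζ]
    linarith
  · rw [e5]
    have := mul_le_mul_of_nonneg_left e3 (by positivity : 0 ≤ ‖om‖ / 2)
    calc 1 / 4 * ‖om‖ ^ 2 = ‖om‖ / 2 * (1 / 2 * ‖om‖) := by ring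
      _ ≤ _ := this
  · rw [e5]
    have := mul_le_mul_of_nonneg_left e2 (by positivity : 0 ≤ ‖om‖ / 2)
    calc ‖om‖ / 2 * ‖ζ + σ * om‖ ≤ ‖om‖ / 2 * (3 / 2 * ‖om‖) := this
      _ = _ := by ring

theorem pg_real {c : ℝ} (hc : 0 ≤ c) (om : ℂ) : ‖-(c:ℂ) * om‖ = c * ‖om‖ := by
  rw [norm_mul, norm_neg, Complex.norm_of_nonneg hc]

theorem pg_near {f : ℂ → ℂ} {a C : ℝ} {w : ℂ} {c : ℝ} (hC : 0 < C) (hc0 : 0 ≤ c) (hc : c ≤ 1 / 2)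
    (h : ‖f w - a * w ^ 2‖ ≤ C * (‖w‖ + c * ‖w‖) ^ 4) : ‖f w - a * w ^ 2‖ ≤ 6 * C * ‖w‖ ^ 4 := by
  refine h.trans ?_
  have hw := norm_nonneg w
  have h2 : ‖w‖ + c * ‖w‖ ≤ 3 / 2 * ‖w‖ := by nlinarith
  have h3 : (‖w‖ + c * ‖w‖) ^ 4 ≤ (3 / 2 * ‖w‖) ^ 4 :=
    pow_le_pow_left₀ (by positivity) h2 4
  have h4 : 0 ≤ ‖w‖ ^ 4 := by positivity
  have h5 : (3 / 2 * ‖w‖) ^ 4 ≤ 6 * ‖w‖ ^ 4 := by nlinarith
  calc C * (‖w‖ + c * ‖w‖) ^ 4 ≤ C * (6 * ‖w‖ ^ 4) :=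
        mul_le_mul_of_nonneg_left (h3.trans h5) hC.le
    _ = _ := by ring

/-- The bound of LT-14 for one value of `t`, `c = (1 - t) / (2 (1 + t))`. -/
theorem pg_claim (B : Bg) {c : ℝ} (hc1 : 3 / 10 ≤ c) (hc2 : c ≤ 5 / 14) {u : Fin 3 → ℂ → ℂ}
    {w5 δ : ℝ} (hw5 : 0 < w5) (hδ : 0 < δ)
    (hRR : ∀ (om z : ℂ) (d : ℝ), 0 < ‖z‖ → ‖z‖ < d → d < ‖om‖ → ‖om‖ < w5 →
      B.pgV u om (z - om / 2) + B.pgV u om (z + om / 2) = (2 * Real.pi * I)⁻¹ *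
        ∮ ζ in C(0, d), (B.pgV u om (ζ - om / 2) + B.pgV u om (ζ + om / 2)) / (ζ - z))
    {Lm : ℝ} (hLam : ∀ om : ℂ, ‖om‖ < δ → ‖B.Lam om‖ ≤ Lm) :
    ∃ q1 > 0, ∀ q : ℂ, q ≠ 0 → ‖q‖ < q1 → ∀ S : ℝ,
      (∀ q' : ℂ, 1.3 * ‖q‖ ≤ ‖q'‖ → ‖q'‖ ≤ 10 * ‖q‖ → pgm u q' ≤ S) →
      ∃ om : ℂ, ‖om‖ < δ ∧
        ‖om ^ 2 - q / (B.kap ^ 2 * (1 / 4 - c ^ 2) : ℝ)‖ ≤
          1 / 400 * ‖q / (B.kap ^ 2 * (1 / 4 - c ^ 2) : ℝ)‖ ∧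
        ‖om ^ 4 * u 0 q + om ^ 2 * B.Lam om * u 1 q + B.Lam om ^ 2 * u 2 q‖ ≤
          5 * ((9 / B.kap ^ 2) ^ 2 + 9 / B.kap ^ 2 * Lm + Lm ^ 2) * S := by
  obtain ⟨C, hC, hN⟩ := B.napp
  have hk := B.kap_pos
  have hr := B.r_pos
  have hrr' : B.r ≤ B.rho := by
    have h3 := B.K_r_le
    have h4 := B.one_le_K
    nlinarith
  have hc0 : 0 ≤ c := by linarith
  have hc3 : c ≤ 1 / 2 := by linarith
  obtain ⟨hal1, hal2⟩ := pg_c1 hc1 hc2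
  obtain ⟨hb1, hb2, hb3⟩ := pg_c2 hc1 hc2
  set al : ℝ := 1 / 4 - c ^ 2 with hal
  have halp : 0 < al := by linarith
  set a : ℝ := B.kap ^ 2 * al with ha
  have hap : 0 < a := by positivity
  set R : ℝ := min B.r (min w5 δ) with hR
  have hRp : 0 < R := lt_min hr (lt_min hw5 hδ)
  set x1 : ℝ := min (R / 3) (Real.sqrt (a / (10 ^ 6 * C))) with hx1
  have hx1p : 0 < x1 := lt_min (by positivity) (Real.sqrt_pos.2 (by positivity))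
  refine ⟨a * x1 ^ 2, by positivity, ?_⟩
  intro q hq hqs S hS
  -- w0
  obtain ⟨w0, hw0⟩ : ∃ w0 : ℂ, w0 ^ 2 = q / (a : ℂ) := by
    obtain ⟨w0, hw0⟩ := IsAlgClosed.exists_pow_nat_eq (q / (a : ℂ)) (n := 2) (by norm_num)
    exact ⟨w0, hw0⟩
  have haC : (a : ℂ) ≠ 0 := by exact_mod_cast hap.ne'
  have hw0ne : w0 ≠ 0 := by
    rintro rfl
    rw [zero_pow (by norm_num)] at hw0
    exact (div_ne_zero hq haC) hw0.symm
  have hQ : ‖q / (a : ℂ)‖ = ‖w0‖ ^ 2 := by rw [← hw0, norm_pow]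
  have hqw : ‖q‖ = a * ‖w0‖ ^ 2 := by
    rw [← hQ, norm_div, Complex.norm_of_nonneg hap.le]
    field_simp
  have hw0p : 0 < ‖w0‖ := norm_pos_iff.2 hw0ne
  have hw0x : ‖w0‖ < x1 := by
    rw [hqw] at hqs
    have h1 : ‖w0‖ ^ 2 < x1 ^ 2 := lt_of_mul_lt_mul_left hqs hap.le
    exact lt_of_pow_lt_pow_left₀ 2 hx1p.le h1
  have hw0R : 3 * ‖w0‖ < R := by
    have := hw0x.trans_le (min_le_left _ _)
    linarith
  have hw0C : 10 ^ 6 * C * ‖w0‖ ^ 2 ≤ a := by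
    have h1 : ‖w0‖ ≤ Real.sqrt (a / (10 ^ 6 * C)) := hw0x.le.trans (min_le_right _ _)
    have h2 : ‖w0‖ ^ 2 ≤ a / (10 ^ 6 * C) := by
      have := pow_le_pow_left₀ hw0p.le h1 2
      rwa [Real.sq_sqrt (by positivity)] at this
    rw [le_div_iff₀ (by positivity)] at h2
    linarith
  -- the root
  have hfd : DifferentiableOn ℂ (fun om => B.N om (c * om)) (ball 0 R) :=
    (B.N_diff hc0 (by linarith)).mono (ball_subset_ball (min_le_left _ _))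
  have hfa : ∀ w ∈ ball (0:ℂ) R, ‖B.N w (c * w) - a * w ^ 2‖ ≤ 6 * C * ‖w‖ ^ 4 := by
    intro w hw
    rw [mem_ball_zero_iff] at hw
    have hwr : ‖w‖ < B.r := hw.trans_le (min_le_left _ _)
    have hcw : ‖(c:ℂ) * w‖ = c * ‖w‖ := by
      rw [norm_mul, Complex.norm_of_nonneg hc0]
    have h1 := hN w (c * w) hwr (by
      rw [hcw]
      have : c * ‖w‖ ≤ 1 * ‖w‖ := mul_le_mul_of_nonneg_right (by linarith) (norm_nonneg w)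
      linarith)
    have e : (B.kap:ℂ) ^ 2 * (w ^ 2 / 4 - ((c:ℂ) * w) ^ 2) = a * w ^ 2 := by
      rw [ha, hal]
      push_cast
      ring
    rw [e, hcw] at h1
    exact pg_near (f := fun w => B.N w (c * w)) hC hc0 hc3 h1
  have hsm : 14 * (6 * C) * ‖w0‖ ^ 2 ≤ a * (1 / 1000) := by
    have h0 : 0 ≤ C * ‖w0‖ ^ 2 := by positivity
    have e1 : 14 * (6 * C) * ‖w0‖ ^ 2 = 84 * (C * ‖w0‖ ^ 2) := by ring
    have e2 : 10 ^ 6 * C * ‖w0‖ ^ 2 = 10 ^ 6 * (C * ‖w0‖ ^ 2) := by ring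
    rw [e1]
    rw [e2] at hw0C
    linarith
  obtain ⟨om, hom1, hom2⟩ := exists_root (f := fun om => B.N om (c * om)) (η := 1 / 1000) hap
    (by positivity : (0:ℝ) ≤ 6 * C) (by norm_num) (by norm_num) hfd hfa hw0ne (by linarith) hsm
  have hNq : B.N om (c * om) = q := by
    have : B.N om (c * om) = a * w0 ^ 2 := hom2
    rw [this, hw0]
    field_simp
  -- size of om
  have hom3 : ‖om‖ ≤ 1001 / 1000 * ‖w0‖ := by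
    have := norm_add_le (om - w0) w0
    rw [sub_add_cancel] at this
    linarith
  have hom4 : 999 / 1000 * ‖w0‖ ≤ ‖om‖ := by
    have := norm_sub_norm_le w0 om
    rw [norm_sub_rev] at this
    linarith
  have homp : 0 < ‖om‖ := by
    have : 0 < 999 / 1000 * ‖w0‖ := by positivity
    linarith
  have homR : ‖om‖ < R := by linarith
  have homr : ‖om‖ < B.r := homR.trans_le (min_le_left _ _)
  have homw : ‖om‖ < w5 := homR.trans_le ((min_le_right _ _).trans (min_le_left _ _))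
  have homd : ‖om‖ < δ := homR.trans_le ((min_le_right _ _).trans (min_le_right _ _))
  obtain ⟨hsq1, hsq2⟩ := pg_sq hw0p.le hom3 hom4
  have hL := hLam om homd
  -- the point z - om / 2
  have e1c : -(((1 - c : ℝ)) : ℂ) * om = -(1 - (c:ℂ)) * om := by push_cast; ring
  have hz1 : ‖B.pgV u om (-(1 - c) * om)‖ ≤
      ((9 / B.kap ^ 2) ^ 2 + 9 / B.kap ^ 2 * Lm + Lm ^ 2) * S := by
    have e1 : ‖om ^ 2 / 4 - (-(1 - (c:ℂ)) * om) ^ 2‖ = ((1 - c) ^ 2 - 1 / 4) * ‖om‖ ^ 2 := by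
      have e2 : om ^ 2 / 4 - (-(1 - (c:ℂ)) * om) ^ 2 =
          -((((1 - c) ^ 2 - 1 / 4 : ℝ)) : ℂ) * om ^ 2 := by
        push_cast
        ring
      rw [e2, pg_real (by linarith), norm_pow]
    have e3 : ‖-(1 - (c:ℂ)) * om‖ ≤ ‖om‖ := by
      rw [← e1c, pg_real (by linarith)]
      have : (1 - c) * ‖om‖ ≤ 1 * ‖om‖ := mul_le_mul_of_nonneg_right (by linarith) homp.le
      linarith
    exact pg_pt B hC hN hal1 hqw homr hsq1 hsq2 hw0C hL hS e3 (by linarith) (by linarith) hb2 hb3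
      e1.ge e1.le
  -- the points of the circle
  have hci : ∀ ζ ∈ sphere (0:ℂ) (‖om‖ / 2), ∀ σ : ℝ, (σ = 1 ∨ σ = -1) →
      ‖B.pgV u om (ζ + σ * (om / 2))‖ ≤
        ((9 / B.kap ^ 2) ^ 2 + 9 / B.kap ^ 2 * Lm + Lm ^ 2) * S := by
    intro ζ hζ σ hσ
    have hζn : ‖ζ‖ = ‖om‖ / 2 := by simpa using hζ
    obtain ⟨c1, c2, c3⟩ := pg_circ hσ hζn
    exact pg_pt B hC hN hal1 hqw homr hsq1 hsq2 hw0C hL hS c1 (by norm_num) (by norm_num)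
      (by linarith) (by linarith) c2 c3
  -- the Cauchy formula
  set S' := ((9 / B.kap ^ 2) ^ 2 + 9 / B.kap ^ 2 * Lm + Lm ^ 2) * S with hS'
  have e4 : -(((1 / 2 - c : ℝ)) : ℂ) * om = -((1:ℂ) / 2 - c) * om := by push_cast; ring
  have hzn : ‖-((1:ℂ) / 2 - c) * om‖ = (1 / 2 - c) * ‖om‖ := by
    rw [← e4, pg_real (by linarith)]
  have hz2 : (1 / 2 - c) * ‖om‖ ≤ 1 / 5 * ‖om‖ :=
    mul_le_mul_of_nonneg_right (by linarith) homp.le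
  have hz3 : 0 < (1 / 2 - c) * ‖om‖ := mul_pos (by linarith) homp
  have hcau := cauchy_le (g := fun ζ => B.pgV u om (ζ - om / 2) + B.pgV u om (ζ + om / 2))
    (z := -((1:ℂ) / 2 - c) * om) (d := ‖om‖ / 2) (S := 2 * S') (by positivity)
    (by rw [hzn]; linarith) (by
      intro ζ hζ
      have h1 := hci ζ hζ 1 (Or.inl rfl)
      have h2 := hci ζ hζ (-1) (Or.inr rfl)
      have e1 : ζ + ((1:ℝ):ℂ) * (om / 2) = ζ + om / 2 := by push_cast; ring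
      have e2 : ζ + ((-1:ℝ):ℂ) * (om / 2) = ζ - om / 2 := by push_cast; ring
      rw [e1] at h1
      rw [e2] at h2
      refine (norm_add_le _ _).trans ?_
      linarith)
    (hRR om _ (‖om‖ / 2) (by rw [hzn]; exact hz3) (by rw [hzn]; linarith) (by linarith) homw)
  have e1 : -((1:ℂ) / 2 - c) * om - om / 2 = -(1 - (c:ℂ)) * om := by ring
  have e2 : -((1:ℂ) / 2 - c) * om + om / 2 = c * om := by ring
  simp only [e1, e2] at hcau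
  have hfin : ‖B.pgV u om (c * om)‖ ≤ 5 * S' := by
    have := norm_sub_le (B.pgV u om (-(1 - (c:ℂ)) * om) + B.pgV u om (c * om))
      (B.pgV u om (-(1 - (c:ℂ)) * om))
    rw [add_sub_cancel_left] at this
    linarith
  refine ⟨om, homd, ?_, ?_⟩
  · rw [hQ, ← hw0]
    have e3 : om ^ 2 - w0 ^ 2 = (om - w0) * (om + w0) := by ring
    rw [e3, norm_mul]
    have e4 : ‖om + w0‖ ≤ 2001 / 1000 * ‖w0‖ := by
      refine (norm_add_le _ _).trans ?_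
      linarith
    have e5 := mul_le_mul hom1 e4 (norm_nonneg _) (by positivity)
    have e6 : 0 ≤ ‖w0‖ ^ 2 := by positivity
    have e7 : 1 / 1000 * ‖w0‖ * (2001 / 1000 * ‖w0‖) = 2001 / 1000000 * ‖w0‖ ^ 2 := by ring
    rw [e7] at e5
    linarith
  · have e3 : B.pgV u om (c * om) = om ^ 4 * u 0 q + om ^ 2 * B.Lam om * u 1 q +
        B.Lam om ^ 2 * u 2 q := by
      unfold Bg.pgV
      rw [hNq]
    rw [← e3]
    refine hfin.trans (le_of_eq ?_)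
    rw [hS']
    ring

end Pool.Agent.MP_ae5b4e_an_LOC
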