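import Pool.Agent.Lib.MP_ae5b4e_an_LOC.KerL
import Pool.Agent.Lib.MP_ae5b4e_an_LOC.ORB

/-!
The real Poncelet relation for a background `B : Bg` (structure `RPon`) and the telescoping law.
-/

set_option autoImplicit false

namespace Pool.Agent.MP_ae5b4e_an_LOC

open Complex Set Filter Topology ComplexConjugate

noncomputable section

variable {m : ℝ}

/-- the real conic -/
def Pr (m : ℝ) (x : ℝ) : Fin 3 → ℝ := ![sn m (sg m * x), cn m (sg m * x), dn m (sg m * x)]

/-- its derivative in x -/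
def Pr1 (m : ℝ) (x : ℝ) : Fin 3 → ℝ :=
  ![sg m * (cn m (sg m * x) * dn m (sg m * x)), -(sg m * (sn m (sg m * x) * dn m (sg m * x))),
    -(sg m * m * (sn m (sg m * x) * cn m (sg m * x)))]

/-- the two tangent vectors up to the leaf -/
def Vp (m v : ℝ) (x : ℝ) : Fin 3 → ℝ := fun i => Pr m x i + Pr1 m x i / v
def Vm (m v : ℝ) (x : ℝ) : Fin 3 → ℝ := fun i => Pr m x i - Pr1 m x i / v

/-- the real Poncelet relation for the background `B` -/
structure RPon (m : ℝ) (B : Bg) where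
  h_eq : B.h = hJ m
  F : ℝ → ℝ → ℝ
  v : ℝ → ℝ → ℝ
  cc : ℝ → ℝ
  L : ℝ → ℝ
  v_pos : ∀ om : ℝ, 0 < om → om < B.r → ∀ x, 0 < v om x
  v_per : ∀ om : ℝ, 0 < om → om < B.r → ∀ x, v om (x + 1) = v om x
  F_ph : ∀ om : ℝ, 0 < om → om < B.r → ∀ x : ℝ, B.ph om (F om x) = B.ph om x + om
  v_ph : ∀ om : ℝ, 0 < om → om < B.r → ∀ x : ℝ, v om x * (deriv (B.ph om) x).re = cc om
  cc_ne : ∀ om : ℝ, 0 < om → om < B.r → cc om ≠ 0
  v_sq : ∀ om : ℝ, 0 < om → om < B.r → ∀ x : ℝ,
    v om x ^ 2 + sg m ^ 2 * dn m (sg m * x) ^ 2 = L om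
  Lam_eq : ∀ om : ℝ, 0 < om → om < B.r → B.Lam om = ((L om * om ^ 2 : ℝ) : ℂ)
  par : ∀ om : ℝ, 0 < om → om < B.r → ∀ x : ℝ, ∃ k : ℝ, k ≠ 0 ∧
    Vp m (v om x) x = fun i => k * Vm m (v om (F om x)) (F om x) i

section

variable (h0 : 0 < m) (h1 : m < 1)

include h0 h1

lemma Pr_per (x : ℝ) : Pr m (x + 1) = Pr m x ∧ Pr1 m (x + 1) = Pr1 m x := by
  have e : sg m * (x + 1) = sg m * x + 2 * KK m + 2 * KK m := by unfold sg; ring
  have a1 : sn m (sg m * (x + 1)) = sn m (sg m * x) := by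
    rw [e, sn_add h0.le h1, sn_add h0.le h1, neg_neg]
  have a2 : cn m (sg m * (x + 1)) = cn m (sg m * x) := by
    rw [e, cn_add h0.le h1, cn_add h0.le h1, neg_neg]
  have a3 : dn m (sg m * (x + 1)) = dn m (sg m * x) := by
    rw [e, dn_add h0.le h1, dn_add h0.le h1]
  simp only [Pr, Pr1, a1, a2, a3, and_self]

lemma Pr_per_nat (x : ℝ) (p : ℕ) : Pr m (x + p) = Pr m x ∧ Pr1 m (x + p) = Pr1 m x := by
  induction p with
  | zero => simp
  | succ p ih =>
      have := Pr_per h0 h1 (x + p)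
      push_cast
      rw [← add_assoc, this.1, this.2]
      exact ih

/-- telescoping -/
theorem RPon.law {B : Bg} (R : RPon m B) {p q : ℕ} (hp : 1 ≤ p) (hq : 1 ≤ q)
    (hpq : (p : ℝ) < B.r * q) (Ψ : (Fin 3 → ℝ) → ℝ)
    (hΨ : ∀ (w : Fin 3 → ℝ) (k : ℝ), k ≠ 0 → Ψ (fun i => k * w i) = Ψ w) (t : ℝ) :
    ∑ j ∈ Finset.range q,
      (Ψ (Vp m (R.v ((p:ℝ) / q) ((R.F ((p:ℝ) / q))^[j] t)) ((R.F ((p:ℝ) / q))^[j] t)) -
        Ψ (Vm m (R.v ((p:ℝ) / q) ((R.F ((p:ℝ) / q))^[j] t)) ((R.F ((p:ℝ) / q))^[j] t))) = 0 := by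
  have hqR : (0:ℝ) < q := by exact_mod_cast hq
  have hpR : (0:ℝ) < p := by exact_mod_cast hp
  set om : ℝ := (p:ℝ) / q with hom
  have hom0 : 0 < om := div_pos hpR hqR
  have homr : om < B.r := by rw [hom, div_lt_iff₀ hqR]; exact hpq
  have homa : |om| < B.r := by rwa [abs_of_pos hom0]
  set y : ℕ → ℝ := fun j => (R.F om)^[j] t with hy
  have hys : ∀ j, y (j + 1) = R.F om (y j) := fun j => by
    simp only [hy, Function.iterate_succ_apply']
  have hstep : ∀ j, Ψ (Vp m (R.v om (y j)) (y j)) = Ψ (Vm m (R.v om (y (j + 1))) (y (j + 1))) := by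
    intro j
    obtain ⟨k, hk, e⟩ := R.par om hom0 homr (y j)
    rw [e, hΨ _ k hk, hys]
  have hsum : ∑ j ∈ Finset.range q, (Ψ (Vp m (R.v om (y j)) (y j)) -
      Ψ (Vm m (R.v om (y j)) (y j))) = Ψ (Vm m (R.v om (y q)) (y q)) -
        Ψ (Vm m (R.v om (y 0)) (y 0)) := by
    rw [← Finset.sum_range_sub (fun j => Ψ (Vm m (R.v om (y j)) (y j)))]
    exact Finset.sum_congr rfl fun j _ => by rw [hstep]
  -- the polygon closes
  have hph : ∀ j : ℕ, (B.ph om (y j)).re = (B.ph om t).re + j * om := by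
    intro j
    induction j with
    | zero => simp [hy]
    | succ j ih =>
        rw [hys, R.F_ph om hom0 homr, add_re, ofReal_re, ih]
        push_cast; ring
  have hmono : StrictMono fun x : ℝ => (B.ph om x).re := by
    apply strictMono_of_deriv_pos
    intro x
    rw [(B.ph_real_hasDerivAt homa x).deriv]
    exact B.deriv_ph_re_pos homa x
  have hper1 : ∀ x : ℝ, (B.ph om ((x + 1 : ℝ) : ℂ)).re = (B.ph om x).re + 1 := by
    intro x
    have hn : ‖(om : ℂ)‖ < B.r := by rwa [norm_real]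
    have hd := B.real_dom hn x
    have hd2 : |((x : ℂ) + 1 / 2).im| < B.h - B.K * ‖(om : ℂ)‖ := by
      have : ((x : ℂ) + 1 / 2).im = (x : ℂ).im := by simp
      rw [this]; exact hd
    have e : ((x + 1 : ℝ) : ℂ) = ((x : ℂ) + 1 / 2) + 1 / 2 := by push_cast; ring
    rw [e, B.ph_half om _ hn hd2, B.ph_half om _ hn hd]
    have : B.ph om x + 1 / 2 + 1 / 2 = B.ph om x + 1 := by ring
    rw [this, add_re, one_re]
  have hpern : ∀ (n : ℕ) (x : ℝ), (B.ph om ((x + n : ℝ) : ℂ)).re = (B.ph om x).re + n := by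
    intro n
    induction n with
    | zero => intro x; simp
    | succ n ih =>
        intro x
        have := hper1 (x + n)
        push_cast at this ⊢
        rw [← add_assoc, this]
        have h2 := ih x
        push_cast at h2
        rw [h2]; ring
  have hclose : y q = t + p := by
    apply hmono.injective
    simp only
    rw [hpern, hph q, hom]
    field_simp
  have hvp : ∀ n : ℕ, R.v om (t + n) = R.v om t := by
    intro n
    induction n with
    | zero => simp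
    | succ n ih =>
        push_cast
        rw [← add_assoc, R.v_per om hom0 homr, ih]
  have hVm : Vm m (R.v om (y q)) (y q) = Vm m (R.v om (y 0)) (y 0) := by
    have hy0 : y 0 = t := by simp [hy]
    rw [hclose, hy0, hvp]
    funext i
    simp only [Vm, (Pr_per_nat h0 h1 t p).1, (Pr_per_nat h0 h1 t p).2]
  rw [hsum, hVm, sub_self]

omit h0 h1 in
lemma ofReal_inv_pos {v : ℝ} (hv : 0 < v) : (v : ℂ) ≠ 0 := by exact_mod_cast hv.ne'

/-- values on the real axis -/
lemma XJ_real (x : ℝ) : XJ m x = sn m (sg m * x) := by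
  unfold XJ; rw [← ofReal_mul, Sn_ofReal h0 h1]
lemma YJ_real (x : ℝ) : YJ m x = cn m (sg m * x) := by
  unfold YJ; rw [← ofReal_mul, Cn_ofReal h0 h1]
lemma ZJ_real (x : ℝ) : ZJ m x = dn m (sg m * x) := by
  unfold ZJ; rw [← ofReal_mul, Dn_ofReal h0 h1]

end

end

end Pool.Agent.MP_ae5b4e_an_LOC
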