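import Pool.Agent.Lib.MP_ae5b4e_an_LOC.Asm
import Pool.Agent.Lib.MP_ae5b4e_an_LOC.PJ
import Pool.Agent.Lib.MP_ae5b4e_an_LOC.Pon3

/-!
# LOC: the real leaves of the background

For real `om` the small parameter of the background is `epsW m om`, the real map with the rotation
number `om` is `GW m om`.
-/

set_option autoImplicit false

noncomputable section

namespace Pool.Agent.MP_ae5b4e_an_LOC

open Complex Set Filter Topology Metric ComplexConjugate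
open Pool.Agent.MP_ae5b4e_an_AZ (prim)

variable {m : ℝ}

lemma gJ_zero (h0 : 0 < m) (h1 : m < 1) : gJ m 0 = 1 := by
  have := gJ_real h0 h1 0
  rw [mul_zero, dn_zero h0.le h1] at this
  simpa using this

lemma sq2_real (h0 : 0 < m) (h1 : m < 1) {ε : ℝ} (hε : ε ∈ Ico (0:ℝ) 1) (t : ℝ) :
    sq2 (1 - m) (ε : ℂ) (t : ℂ) = (((gE m ε t)⁻¹ : ℝ) : ℂ) := by
  obtain ⟨a, -, b⟩ := gE_arg h0.le h1 hε t
  unfold sq2 gE
  have e : ((1 - (ε:ℂ) + (t:ℂ) ^ 2) * (1 - ((1 - m : ℝ) : ℂ) * (ε:ℂ) +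
      ((1 - m : ℝ) : ℂ) * (t:ℂ) ^ 2)) =
      (((1 - ε + t ^ 2) * (1 - (1 - m) * ε + (1 - m) * t ^ 2) : ℝ) : ℂ) := by
    push_cast
    rfl
  have e2 : ((1 / 2) : ℂ) = (((1 / 2) : ℝ) : ℂ) := by push_cast; rfl
  rw [e, e2, ← Complex.ofReal_cpow (mul_pos a b).le, inv_inv, Real.sqrt_eq_rpow]

section block

variable {h0 : 0 < m} {h1 : m < 1} {T : TD (GDJ m h0 h1)}
  (L : LB (GDJ m h0 h1) T (sg m) (1 - m)) {om : ℝ}

include L

lemma om_mem (ho : 0 < om) (hr : om < L.r) : (om : ℂ) ∈ ball (0 : ℂ) L.r := by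
  rw [mem_ball_zero_iff, Complex.norm_real, Real.norm_of_nonneg ho.le]
  exact hr

lemma eta_re (ho : 0 < om) (hr : om < L.r) : (((L.eta om).re : ℝ) : ℂ) = L.eta om := by
  rw [← Complex.conj_eq_iff_re]
  have := L.eta_conj om (om_mem L ho hr)
  rw [conj_ofReal] at this
  exact this.symm

lemma eta_pos (ho : 0 < om) (hr : om < L.r) : 0 < (L.eta om).re := by
  have h2 := L.eta_close om (om_mem L ho hr)
  have h3 := (Complex.abs_re_le_norm _).trans h2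
  have e : (L.eta (om : ℂ) - (sg m : ℂ) / 2 * (om : ℂ)).re = (L.eta om).re - sg m / 2 * om := by
    have : ((sg m : ℂ) / 2 * (om : ℂ)) = ((sg m / 2 * om : ℝ) : ℂ) := by push_cast; rfl
    rw [this, sub_re, ofReal_re]
  rw [e, Complex.norm_real, Real.norm_of_nonneg ho.le, abs_le] at h3
  have hs := mul_pos (sg_pos h0 h1) ho
  linarith [h3.1]

lemma eta_sq_le (ho : 0 < om) (hr : om < L.r) : (L.eta om).re ^ 2 ≤ 1 / 2 := by
  have hm := om_mem L ho hr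
  have h2 := L.eta_lt om hm
  have hK := T.one_le_K0
  have h3 := T.small (L.eta om) 0 h2 (by
    rw [zero_im, abs_zero, sub_pos]
    exact (mul_lt_mul_of_pos_left h2 (by linarith)).trans_le T.K0_r0)
  have e : (GDJ m h0 h1).g 0 = 1 := gJ_zero h0 h1
  rw [e, mul_one, ← eta_re L ho hr, ← ofReal_pow, Complex.norm_real,
    Real.norm_of_nonneg (sq_nonneg _)] at h3
  exact h3

lemma eta_mem (ho : 0 < om) (hr : om < L.r) : (L.eta om).re ^ 2 ∈ Ioo (0:ℝ) 1 :=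
  ⟨pow_pos (eta_pos L ho hr) 2, (eta_sq_le L ho hr).trans_lt (by norm_num)⟩

/-- the rotation number of the small parameter -/
theorem wE_eta (ho : 0 < om) (hr : om < L.r) : wE m ((L.eta om).re ^ 2) = om := by
  have hm := om_mem L ho hr
  have hb : (om : ℂ) / 2 ∈ ball (0 : ℂ) L.rho := by
    rw [mem_ball_zero_iff, norm_div, Complex.norm_real, Real.norm_of_nonneg ho.le]
    have := L.r_le
    norm_num
    linarith
  have hJ := L.J_s om hm (om / 2) hb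
  rw [L.eta_half om hm] at hJ
  set a := (L.eta om).re with ha
  have hea : L.eta om = (a : ℂ) := (eta_re L ho hr).symm
  have ha0 : 0 < a := eta_pos L ho hr
  have hε := eta_mem L ho hr
  rw [← ha] at hε
  have hε' : a ^ 2 ∈ Ico (0:ℝ) 1 := ⟨hε.1.le, hε.2⟩
  have hk : ∀ t : ℝ, kJ (sg m) (1 - m) (cE (GDJ m h0 h1)) ((0 : ℂ) + t * ((a : ℂ) - 0),
      (a : ℂ) ^ 2) = (((sg m * PhR m (a ^ 2) 1)⁻¹ * gE m (a ^ 2) (t * a) : ℝ) : ℂ) := by
    intro t
    unfold kJ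
    have e : ((a : ℂ) ^ 2) = ((a ^ 2 : ℝ) : ℂ) := by push_cast; rfl
    have e2 : ((0 : ℂ) + t * ((a : ℂ) - 0)) = ((t * a : ℝ) : ℂ) := by push_cast; ring
    show ((sg m : ℂ) * cE (GDJ m h0 h1) ((a : ℂ) ^ 2) * sq2 (1 - m) ((a : ℂ) ^ 2) _)⁻¹ = _
    rw [e, e2, cE_real h0 h1 hε', sq2_real h0 h1 hε']
    push_cast
    rw [mul_inv, inv_inv]
  have hp : prim 0 (kJ (sg m) (1 - m) (cE (GDJ m h0 h1))) (L.eta om, L.eta om ^ 2) =
      (((sg m * PhR m (a ^ 2) 1)⁻¹ * ∫ t in (0:ℝ)..a, gE m (a ^ 2) t : ℝ) : ℂ) := by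
    rw [hea]
    unfold prim
    show ((a : ℂ) - 0) * (∫ s in (0 : ℝ)..1, kJ (sg m) (1 - m) (cE (GDJ m h0 h1))
      ((0 : ℂ) + s * ((a : ℂ) - 0), (a : ℂ) ^ 2)) = _
    simp_rw [hk]
    rw [intervalIntegral.integral_ofReal, sub_zero, ← ofReal_mul,
      intervalIntegral.integral_const_mul]
    congr 1
    have k := intervalIntegral.mul_integral_comp_mul_right (a := 0) (b := 1)
      (f := gE m (a ^ 2)) (c := a)
    rw [zero_mul, one_mul] at k
    rw [← k]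
    ring
  rw [hp] at hJ
  have hJ' : (sg m * PhR m (a ^ 2) 1)⁻¹ * ∫ t in (0:ℝ)..a, gE m (a ^ 2) t = om / 2 := by
    have e : ((om : ℂ) / 2) = ((om / 2 : ℝ) : ℂ) := by push_cast; rfl
    rw [e] at hJ
    exact_mod_cast hJ
  rw [wE_eq h0.le h1 hε, Real.sqrt_sq ha0.le]
  have e3 : 2 / (4 * KK m * PhR m (a ^ 2) 1) * ∫ t in (0:ℝ)..a, gE m (a ^ 2) t =
      2 * ((sg m * PhR m (a ^ 2) 1)⁻¹ * ∫ t in (0:ℝ)..a, gE m (a ^ 2) t) := by
    unfold sg
    rw [div_eq_mul_inv]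
    ring
  rw [e3, hJ']
  ring

theorem epsW_eta (ho : 0 < om) (hr : om < L.r) : epsW m om = (L.eta om).re ^ 2 := by
  have := epsW_wE h0.le h1 (eta_mem L ho hr)
  rwa [wE_eta L ho hr] at this

lemma eta_sq (ho : 0 < om) (hr : om < L.r) : L.eta om ^ 2 = ((epsW m om : ℝ) : ℂ) := by
  rw [epsW_eta L ho hr, ofReal_pow, eta_re L ho hr]

end block

/-- the real facts about a background whose time map is that of the pencil -/
structure RealJ (m : ℝ) (B : Bg) : Prop where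
  m_pos : 0 < m
  m_lt : m < 1
  h_eq : B.h = hJ m
  eps_mem : ∀ om : ℝ, 0 < om → om < B.r → epsW m om ∈ Ioo (0:ℝ) 1
  wE_eps : ∀ om : ℝ, 0 < om → om < B.r → wE m (epsW m om) = om
  ph_eq : ∀ om : ℝ, 0 < om → om < B.r → ∀ x : ℝ,
    B.ph om x = ((PhR m (epsW m om) x / PhR m (epsW m om) 1 : ℝ) : ℂ)
  ph_der : ∀ om : ℝ, 0 < om → om < B.r → ∀ x : ℝ,
    HasDerivAt (B.ph om) ((RR m (epsW m om) x / PhR m (epsW m om) 1 : ℝ) : ℂ) x
  Lam_eq : ∀ om : ℝ, 0 < om → om < B.r →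
    B.Lam om / (om : ℂ) ^ 2 = ((sg m ^ 2 / epsW m om : ℝ) : ℂ)

theorem realJ_of {h0 : 0 < m} {h1 : m < 1} {T : TD (GDJ m h0 h1)}
    (L : LB (GDJ m h0 h1) T (sg m) (1 - m)) {B : Bg} (hh : B.h = (GDJ m h0 h1).h)
    (hr : B.r ≤ L.r) (hph : B.ph = fun om x => phE (GDJ m h0 h1) (L.eta om ^ 2) x)
    (hL : B.Lam = asmLam (sg m) L.eta) : RealJ m B where
  m_pos := h0
  m_lt := h1
  h_eq := hh
  eps_mem om ho hr' := by
    rw [epsW_eta L ho (hr'.trans_le hr)]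
    exact eta_mem L ho (hr'.trans_le hr)
  wE_eps om ho hr' := by
    rw [epsW_eta L ho (hr'.trans_le hr)]
    exact wE_eta L ho (hr'.trans_le hr)
  ph_eq om ho hr' x := by
    have hε := eta_mem L ho (hr'.trans_le hr)
    rw [← epsW_eta L ho (hr'.trans_le hr)] at hε
    rw [hph]
    show phE (GDJ m h0 h1) (L.eta om ^ 2) x = _
    rw [eta_sq L ho (hr'.trans_le hr)]
    exact phE_real h0 h1 ⟨hε.1.le, hε.2⟩ x
  ph_der om ho hr' x := by
    have hm := om_mem L ho (hr'.trans_le hr)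
    have hε := eta_mem L ho (hr'.trans_le hr)
    rw [← epsW_eta L ho (hr'.trans_le hr)] at hε
    have hK := T.one_le_K0
    have h2 := L.eta_lt om hm
    have k := T.ph_deriv (L.eta om) x h2 (by
      rw [ofReal_im, abs_zero, sub_pos]
      exact (mul_lt_mul_of_pos_left h2 (by linarith)).trans_le T.K0_r0)
    rw [hph]
    show HasDerivAt (phE (GDJ m h0 h1) (L.eta om ^ 2)) _ _
    rw [eta_sq L ho (hr'.trans_le hr)] at k ⊢
    rw [rt_RR h0 h1 ⟨hε.1.le, hε.2⟩, cE_real h0 h1 ⟨hε.1.le, hε.2⟩, ← ofReal_div] at k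
    exact k
  Lam_eq om ho hr' := by
    have hne : (om : ℂ) ≠ 0 := by exact_mod_cast ho.ne'
    rw [hL, asmLam_eq L.eta_zero hne, eta_sq L ho (hr'.trans_le hr)]
    push_cast
    rfl

/-- the background of the modulus `m` -/
theorem exists_BgJ (h0 : 0 < m) (h1 : m < 1) : ∃ B : Bg, RealJ m B := by
  obtain ⟨T⟩ := exists_TD (GDJ m h0 h1)
  obtain ⟨L⟩ := exists_LBJ m h0 h1 T
  obtain ⟨B, hh, -, hr, -, -, hph, hL, -⟩ := exists_Bg (sg_pos h0 h1) L
  exact ⟨B, realJ_of L hh hr hph hL⟩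

end Pool.Agent.MP_ae5b4e_an_LOC
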