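import Mathlib
import Pool.Agent.Lib.MP_ae5b4e_an_LOC.LT0

/-!
# LOC: the relation at a base point (definitions for LT-13, 14, 15)
-/

noncomputable section

namespace Pool.Agent.MP_ae5b4e_an_LOC

open Set Metric Complex

/-- `om ^ 4 u0 + om ^ 2 Lam u1 + Lam ^ 2 u2` at `N (om, z)` -/
def Bg.VV (B : Bg) (u : Fin 3 → ℂ → ℂ) (om z : ℂ) : ℂ := B.F u om (B.N om z)

/-- the sum over the two points next to the base point -/
def Bg.RR (B : Bg) (u : Fin 3 → ℂ → ℂ) (om z : ℂ) : ℂ :=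
  B.VV u om (z - om / 2) + B.VV u om (z + om / 2)

/-- the functions `u i` are analytic on the punctured disc and `RR` is regular at `z = 0` (Cauchy
formula of LT-13) -/
structure Bg.Rel (B : Bg) (u : Fin 3 → ℂ → ℂ) (rq : ℝ) : Prop where
  rq_pos : 0 < rq
  an : ∀ i, AnalyticOnNhd ℂ (u i) (ball 0 rq \ {0})
  rr : ∃ w5 > 0, ∀ om : ℂ, 0 < ‖om‖ → ‖om‖ < w5 → ∀ d1 : ℝ, 0 < d1 → d1 < ‖om‖ → ∀ z : ℂ,
    0 < ‖z‖ → ‖z‖ < d1 →
    B.RR u om z = (2 * Real.pi * I)⁻¹ • ∮ ζ in C(0, d1), (ζ - z)⁻¹ • B.RR u om ζ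

end Pool.Agent.MP_ae5b4e_an_LOC
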