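import Pool.Agent.Lib.MP_ae5b4e_an_LOC.KerD

/-!
# LOC [SHR]: the radius `r` of the interface `Bg` can be made smaller

The collar of the perturbed foliation may be thin: only the laws with `p / q < w` are available.
-/

set_option autoImplicit false

namespace Pool.Agent.MP_ae5b4e_an_LOC

open Set Metric Complex ComplexConjugate

/-- the same background with a smaller radius for `om` -/
def Bg.shrink (B : Bg) (r' : ℝ) (h0 : 0 < r') (h1 : r' ≤ B.r) : Bg :=
  { B with
    r := r'
    r_pos := h0
    K_r_le := by
      have h2 := B.K_r_le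
      have h3 := B.one_le_K
      nlinarith
    ph_an := fun om x hom hx => B.ph_an om x (hom.trans_le h1) hx
    ph_half := fun om x hom hx => B.ph_half om x (hom.trans_le h1) hx
    ph_even := fun om x hom hx => B.ph_even om x (hom.trans_le h1) hx
    ph_conj := fun om x hom hx => B.ph_conj om x (hom.trans_le h1) hx
    ph_close := fun om x hom hx => B.ph_close om x (hom.trans_le h1) hx
    ph_der := fun om x hom hx => B.ph_der om x (hom.trans_le h1) hx
    near := fun x0 d hx1 hx2 hd1 hd2 hd3 => by
      obtain ⟨psi, h2, h3, h4⟩ := B.near x0 d hx1 hx2 hd1 hd2 hd3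
      exact ⟨psi, h2, h3, fun om hom x hx hr hi => h4 om hom x hx (hr.trans_le h1) hi⟩
    Lam_an := B.Lam_an.mono (ball_subset_ball h1)
    Lam_even := fun om hom => B.Lam_even om (ball_subset_ball h1 hom)
    Lam_conj := fun om hom => B.Lam_conj om (ball_subset_ball h1 hom)
    Lam_ne := fun om hom => B.Lam_ne om (ball_subset_ball h1 hom)
    s_an := B.s_an.mono (prod_mono (ball_subset_ball h1) le_rfl)
    s_odd := fun om hom => B.s_odd om (ball_subset_ball h1 hom)
    s_even := fun om hom => B.s_even om (ball_subset_ball h1 hom)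
    s_conj := fun om hom => B.s_conj om (ball_subset_ball h1 hom)
    s_inj := fun om hom => B.s_inj om (ball_subset_ball h1 hom)
    s_close := fun om hom => B.s_close om (ball_subset_ball h1 hom)
    ep_eq := fun om hom => B.ep_eq om (ball_subset_ball h1 hom)
    bt_an := B.bt_an.mono (ball_subset_ball h1)
    bt_even := fun om hom => B.bt_even om (ball_subset_ball h1 hom)
    bt_le := fun om hom => B.bt_le om (ball_subset_ball h1 hom)
    link := fun n om x hom => B.link n om x (hom.trans_le h1) }

theorem Sol.shrink {B : Bg} {t : ℝ} {f : Fin 3 → ℂ → ℂ} (hf : Sol B t f) (r' : ℝ) (h0 : 0 < r')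
    (h1 : r' ≤ B.r) : Sol (B.shrink r' h0 h1) t f where
  an := hf.an
  per := hf.per
  real := hf.real
  law m p hm hp h := by
    have h2 : (p : ℝ) < B.r * |(m : ℝ)| := by
      have h3 : (p : ℝ) < r' * |(m : ℝ)| := h
      exact h3.trans_le (mul_le_mul_of_nonneg_right h1 (abs_nonneg _))
    exact hf.law m p hm hp h2

/-- the kernel data for the smaller radius -/
def KerD.shrink {B : Bg} (D : KerD B) (r' : ℝ) (h0 : 0 < r') (h1 : r' ≤ B.r) :
    KerD (B.shrink r' h0 h1) :=
  { D with
    solA := fun j => (D.solA j).shrink r' h0 h1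
    solR0 := fun j => (D.solR0 j).shrink r' h0 h1
    solR1 := fun j => (D.solR1 j).shrink r' h0 h1 }

end Pool.Agent.MP_ae5b4e_an_LOC
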