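import Pool.Agent.Lib.MP_ae5b4e_an_LOC.LTS
import Pool.Agent.Lib.MP_ae5b4e_an_LOC.Inv

/-!
# LOC, LT-19 [SOLV]: the solutions form a real vector space
-/

set_option autoImplicit false

namespace Pool.Agent.MP_ae5b4e_an_LOC

open Set Metric Complex ComplexConjugate Filter Topology

theorem Bg.strip_pos (B : Bg) {om : ℂ} (hom : ‖om‖ < B.r) : 0 < B.h - B.K * ‖om‖ := by
  have h1 := B.K_r_le
  have h2 := B.rho_le_h
  have h3 := B.one_le_K
  have h4 := B.rho_pos
  have h5 : B.K * ‖om‖ ≤ B.K * B.r := mul_le_mul_of_nonneg_left hom.le (by linarith)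
  nlinarith

theorem Bg.deriv_an (B : Bg) (om x : ℂ) (hom : ‖om‖ < B.r) (hx : |x.im| < B.h - B.K * ‖om‖) :
    AnalyticAt ℂ (B.ph om) x := by
  have h1 := B.ph_an om x hom hx
  have h2 : AnalyticAt ℂ (fun z : ℂ => ((om, z) : ℂ × ℂ)) x := by fun_prop
  exact h1.comp_of_eq h2 rfl

theorem Bg.cm_cont (B : Bg) {t : ℝ} (ht : 0 < t) {f : Fin 3 → ℂ → ℂ}
    (hf : ∀ i, AnalyticOnNhd ℂ (f i) (Sp t)) (m : ℤ) {om : ℂ} (hom : ‖om‖ < B.r) :
    Continuous fun x : ℝ => B.F f om x * exp (-(2 * Real.pi * I * m * B.ph om x)) *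
      deriv (B.ph om) x := by
  have hs := B.strip_pos hom
  rw [continuous_iff_continuousAt]
  intro x
  have hc : ContinuousAt (fun x : ℝ => (x : ℂ)) x := continuous_ofReal.continuousAt
  have hx : ((x : ℂ)).im = 0 := ofReal_im x
  have hx1 : |((x : ℂ)).im| < B.h - B.K * ‖om‖ := by rw [hx, abs_zero]; exact hs
  have hx2 : (x : ℂ) ∈ Sp t := by rw [mem_Sp, hx, abs_zero]; exact ht
  have h1 := B.deriv_an om x hom hx1
  have h2 : ContinuousAt (fun x : ℝ => B.ph om x) x := h1.continuousAt.comp_of_eq hc rfl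
  have h3 : ContinuousAt (fun x : ℝ => deriv (B.ph om) x) x :=
    h1.deriv.continuousAt.comp_of_eq hc rfl
  have h4 : ∀ i, ContinuousAt (fun x : ℝ => f i x) x := fun i =>
    (hf i x hx2).continuousAt.comp_of_eq hc rfl
  unfold Bg.F
  exact ((((continuousAt_const.mul (h4 0)).add (continuousAt_const.mul (h4 1))).add
    (continuousAt_const.mul (h4 2))).mul ((continuousAt_const.mul h2).neg.cexp)).mul h3

theorem Bg.cm_add (B : Bg) {t : ℝ} (ht : 0 < t) {f g : Fin 3 → ℂ → ℂ}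
    (hf : ∀ i, AnalyticOnNhd ℂ (f i) (Sp t)) (hg : ∀ i, AnalyticOnNhd ℂ (g i) (Sp t))
    (a : ℂ) (m : ℤ) {om : ℂ} (hom : ‖om‖ < B.r) :
    B.cm (fun i x => f i x + a * g i x) m om = B.cm f m om + a * B.cm g m om := by
  unfold Bg.cm
  rw [← intervalIntegral.integral_const_mul, ← intervalIntegral.integral_add
    ((B.cm_cont ht hf m hom).intervalIntegrable _ _)
    (((B.cm_cont ht hg m hom).intervalIntegrable _ _).const_mul a)]
  apply intervalIntegral.integral_congr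
  intro x _
  simp only [Bg.F]
  ring

theorem norm_pm (B : Bg) {m : ℤ} {p : ℕ} (hm : m ≠ 0) (h : (p : ℝ) < B.r * |(m : ℝ)|) :
    ‖(p : ℂ) / ((|m| : ℤ) : ℂ)‖ < B.r := by
  have h1 : 0 < |(m : ℝ)| := abs_pos.2 (by exact_mod_cast hm)
  have h2 : ‖((|m| : ℤ) : ℂ)‖ = |(m : ℝ)| := by
    rw [Complex.norm_intCast]
    push_cast
    rw [abs_abs]
  rw [norm_div, Complex.norm_natCast, h2, div_lt_iff₀ h1]
  exact h

theorem Sol.add_smul {B : Bg} {t : ℝ} (ht : 0 < t) {f g : Fin 3 → ℂ → ℂ} (hf : Sol B t f)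
    (hg : Sol B t g) (a : ℝ) : Sol B t (fun i x => f i x + a * g i x) where
  an i := (hf.an i).add (analyticOnNhd_const.mul (hg.an i))
  per i x hx := by
    show f i (x + 1) + a * g i (x + 1) = _
    rw [hf.per i x hx, hg.per i x hx]
  real i x hx := by
    show f i (conj x) + a * g i (conj x) = _
    rw [hf.real i x hx, hg.real i x hx, map_add, map_mul, conj_ofReal]
  law m p hm hp h := by
    rw [B.cm_add ht hf.an hg.an a m (norm_pm B hm h), hf.law m p hm hp h, hg.law m p hm hp h]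
    simp

theorem Sol.add_sum {B : Bg} {t : ℝ} (ht : 0 < t) {f : Fin 3 → ℂ → ℂ} (hf : Sol B t f)
    {ι : Type} (s : Finset ι) (a : ι → ℝ) (g : ι → Fin 3 → ℂ → ℂ) (hg : ∀ j, Sol B t (g j)) :
    Sol B t (fun i x => f i x + ∑ j ∈ s, a j * g j i x) := by
  classical
  induction s using Finset.induction_on with
  | empty => simpa using hf
  | insert j s hj ih =>
    have h1 := ih.add_smul ht (hg j) (a j)
    convert h1 using 3
    rw [Finset.sum_insert hj]
    ring

theorem Sol.mono {B : Bg} {t t' : ℝ} (h : t' ≤ t) {f : Fin 3 → ℂ → ℂ} (hf : Sol B t f) :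
    Sol B t' f where
  an i := (hf.an i).mono (Sp_mono h)
  per i x hx := hf.per i x (Sp_mono h hx)
  real i x hx := hf.real i x (Sp_mono h hx)
  law := hf.law

end Pool.Agent.MP_ae5b4e_an_LOC
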