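import Mathlib

set_option autoImplicit false

/-!
# MP_ae5b4e_an, LOC: shifts in the coordinate `φ` and Fourier integrals

`shift_int`: the substitution `φ ↦ φ + ω` in a Fourier integral.
`shift_law`: a primitive of `c (W (y x) - W x) φ'` has vanishing Fourier coefficients at all
`m ≠ 0` with `m ω` an integer.
-/

namespace Pool.Agent.MP_ae5b4e_an_LOC

open Complex Real MeasureTheory

private lemma shiftLaw_exp (m : ℤ) (t : ℝ) :
    exp (-(2 * π * I * m * ((t + 1 : ℝ) : ℂ))) = exp (-(2 * π * I * m * (t : ℂ))) := by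
  have h1 : -(2 * π * I * m * ((t + 1 : ℝ) : ℂ)) =
      -(2 * π * I * m * (t : ℂ)) + ((-m : ℤ) : ℂ) * (2 * π * I) := by
    push_cast
    ring
  rw [h1, Complex.exp_add, Complex.exp_int_mul_two_pi_mul_I, mul_one]

private lemma shiftLaw_inv (φ φ' : ℝ → ℝ) (hφ : ∀ x, HasDerivAt φ (φ' x) x)
    (hpos : ∀ x, 0 < φ' x) (hper : ∀ x, φ (x + 1) = φ x + 1) :
    ∃ ψ : ℝ → ℝ, Continuous ψ ∧ (∀ u, φ (ψ u) = u) ∧ (∀ x, ψ (φ x) = x) ∧
      ∀ u, ψ (u + 1) = ψ u + 1 := by
  have hmono : StrictMono φ := by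
    refine strictMono_of_deriv_pos (fun x => ?_)
    rw [(hφ x).deriv]
    exact hpos x
  have hcont : Continuous φ := continuous_iff_continuousAt.2 (fun x => (hφ x).continuousAt)
  have hn : ∀ n : ℕ, φ n = φ 0 + n := by
    intro n
    induction n with
    | zero => simp
    | succ n ih =>
      push_cast
      rw [hper, ih]
      ring
  have hn' : ∀ n : ℕ, φ (-n) = φ 0 - n := by
    intro n
    induction n with
    | zero => simp
    | succ n ih =>
      have h1 := hper (-((n : ℝ) + 1))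
      have h2 : -((n : ℝ) + 1) + 1 = -n := by ring
      rw [h2, ih] at h1
      push_cast
      linarith
  have hsurj : Function.Surjective φ := by
    intro t
    obtain ⟨n, hn1⟩ := exists_nat_ge (|t - φ 0|)
    have h1 : φ (-n) ≤ t := by
      rw [hn']
      linarith [neg_abs_le (t - φ 0)]
    have h2 : t ≤ φ n := by
      rw [hn]
      linarith [le_abs_self (t - φ 0)]
    have h3 : (-(n : ℝ)) ≤ n := by
      have : (0 : ℝ) ≤ n := Nat.cast_nonneg n
      linarith
    obtain ⟨x, -, hx⟩ := intermediate_value_Icc h3 hcont.continuousOn ⟨h1, h2⟩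
    exact ⟨x, hx⟩
  obtain ⟨e, he⟩ : ∃ e : ℝ ≃o ℝ, ∀ x, e x = φ x :=
    ⟨StrictMono.orderIsoOfSurjective φ hmono hsurj, fun x => rfl⟩
  have h1 : ∀ u, φ (e.symm u) = u := fun u => by rw [← he, e.apply_symm_apply]
  refine ⟨e.symm, e.symm.continuous, h1, fun x => by rw [← he, e.symm_apply_apply], fun u => ?_⟩
  apply hmono.injective
  rw [h1, hper, h1]

/-- Substitution `φ ↦ φ + ω` in a Fourier integral in the coordinate `φ`. -/
lemma shift_int (φ φ' : ℝ → ℝ) (hφ : ∀ x, HasDerivAt φ (φ' x) x) (hc : Continuous φ')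
    (hpos : ∀ x, 0 < φ' x) (hper : ∀ x, φ (x + 1) = φ x + 1) (y : ℝ → ℝ) (ω : ℝ)
    (hy : ∀ x, φ (y x) = φ x + ω) (W : ℝ → ℂ) (hW : Continuous W)
    (hWp : ∀ x, W (x + 1) = W x) (m : ℤ) :
    ∫ x in (0 : ℝ)..1, W (y x) * exp (-(2 * π * I * m * φ x)) * φ' x =
      exp (2 * π * I * m * ω) *
        ∫ x in (0 : ℝ)..1, W x * exp (-(2 * π * I * m * φ x)) * φ' x := by
  obtain ⟨ψ, hψc, hφψ, hψφ, hψ1⟩ := shiftLaw_inv φ φ' hφ hpos hper
  have hyψ : ∀ x, y x = ψ (φ x + ω) := fun x => by rw [← hy, hψφ]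
  have hg1 : Continuous (fun u : ℝ => W (ψ (u + ω)) * exp (-(2 * π * I * m * (u : ℂ)))) := by
    fun_prop
  have hg2 : Continuous (fun u : ℝ => W (ψ u) * exp (-(2 * π * I * m * (u : ℂ)))) := by
    fun_prop
  have hs : ∀ g : ℝ → ℂ, Continuous g →
      ∫ x in (0 : ℝ)..1, g (φ x) * φ' x = ∫ u in (φ 0)..(φ 0 + 1), g u := by
    intro g hg
    have h1 := intervalIntegral.integral_deriv_smul_comp (a := 0) (b := 1) (f := φ) (f' := φ')
      (g := g) (fun x _ => hφ x) hc.continuousOn hg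
    have h2 : φ 1 = φ 0 + 1 := by
      have := hper 0
      rwa [zero_add] at this
    rw [h2] at h1
    rw [← h1]
    refine intervalIntegral.integral_congr (fun x _ => ?_)
    change g (φ x) * (φ' x : ℂ) = φ' x • g (φ x)
    rw [Complex.real_smul, mul_comm]
  have h1 := hs _ hg1
  have h2 := hs _ hg2
  have e1 : ∀ x, W (ψ (φ x + ω)) = W (y x) := fun x => by rw [hyψ]
  have e2 : ∀ x, W (ψ (φ x)) = W x := fun x => by rw [hψφ]
  simp only [e1] at h1
  simp only [e2] at h2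
  rw [h1, h2]
  have h3 : ∀ u : ℝ, W (ψ (u + ω)) * exp (-(2 * π * I * m * (u : ℂ))) =
      exp (2 * π * I * m * ω) *
        (W (ψ (u + ω)) * exp (-(2 * π * I * m * ((u + ω : ℝ) : ℂ)))) := by
    intro u
    have h4 : -(2 * π * I * m * (u : ℂ)) =
        2 * π * I * m * ω + -(2 * π * I * m * ((u + ω : ℝ) : ℂ)) := by
      push_cast
      ring
    rw [h4, Complex.exp_add]
    ring
  simp only [h3]
  rw [intervalIntegral.integral_const_mul]
  congr 1
  have h5 := intervalIntegral.integral_comp_add_right (a := φ 0) (b := φ 0 + 1)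
    (fun u : ℝ => W (ψ u) * exp (-(2 * π * I * m * (u : ℂ)))) ω
  rw [h5]
  have hp : Function.Periodic (fun u : ℝ => W (ψ u) * exp (-(2 * π * I * m * (u : ℂ)))) 1 := by
    intro u
    change W (ψ (u + 1)) * exp (-(2 * π * I * m * ((u + 1 : ℝ) : ℂ))) = _
    rw [shiftLaw_exp, hψ1, hWp]
  have h6 := hp.intervalIntegral_add_eq (φ 0 + ω) (φ 0)
  have h7 : φ 0 + 1 + ω = φ 0 + ω + 1 := by ring
  rw [h7]
  exact h6

/-- A primitive of `c (W (y x) - W x) φ'` has vanishing Fourier coefficients at the `m ≠ 0` with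
`m ω` an integer. -/
theorem shift_law (φ φ' : ℝ → ℝ) (hφ : ∀ x, HasDerivAt φ (φ' x) x) (hc : Continuous φ')
    (hpos : ∀ x, 0 < φ' x) (hper : ∀ x, φ (x + 1) = φ x + 1) (y : ℝ → ℝ) (ω : ℝ)
    (hy : ∀ x, φ (y x) = φ x + ω) (F F' : ℝ → ℂ) (hF : ∀ x, HasDerivAt F (F' x) x)
    (hFc : Continuous F') (hFp : ∀ x, F (x + 1) = F x) (W : ℝ → ℂ) (hW : Continuous W)
    (hWp : ∀ x, W (x + 1) = W x) (c : ℂ) (hFW : ∀ x, F' x = c * (W (y x) - W x) * φ' x)
    (m : ℤ) (hm : m ≠ 0) (hmω : ∃ k : ℤ, (m : ℝ) * ω = k) :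
    ∫ x in (0 : ℝ)..1, F x * exp (-(2 * π * I * m * φ x)) * φ' x = 0 := by
  have hcφ : Continuous φ := continuous_iff_continuousAt.2 (fun x => (hφ x).continuousAt)
  have hcF : Continuous F := continuous_iff_continuousAt.2 (fun x => (hF x).continuousAt)
  have hE : ∀ x : ℝ, HasDerivAt (fun x : ℝ => exp (-(2 * π * I * m * (φ x : ℂ))))
      (exp (-(2 * π * I * m * (φ x : ℂ))) * (-(2 * π * I * m * (φ' x : ℂ)))) x := by
    intro x
    have h1 : HasDerivAt (fun x : ℝ => (φ x : ℂ)) (φ' x : ℂ) x := (hφ x).ofReal_comp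
    exact ((h1.const_mul (2 * π * I * m)).neg).cexp
  have hG : ∀ x : ℝ, HasDerivAt (fun x : ℝ => F x * exp (-(2 * π * I * m * (φ x : ℂ))))
      (F' x * exp (-(2 * π * I * m * (φ x : ℂ))) -
        2 * π * I * m * (F x * exp (-(2 * π * I * m * (φ x : ℂ))) * φ' x)) x := by
    intro x
    refine ((hF x).mul (hE x)).congr_deriv ?_
    ring
  have hi1 : IntervalIntegrable (fun x : ℝ => F' x * exp (-(2 * π * I * m * (φ x : ℂ))))
      volume 0 1 := by
    apply Continuous.intervalIntegrable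
    fun_prop
  have hi2 : IntervalIntegrable (fun x : ℝ => 2 * π * I * m *
      (F x * exp (-(2 * π * I * m * (φ x : ℂ))) * φ' x)) volume 0 1 := by
    apply Continuous.intervalIntegrable
    fun_prop
  have h1 := intervalIntegral.integral_eq_sub_of_hasDerivAt (fun x _ => hG x) (hi1.sub hi2)
  have h2 : F 1 = F 0 := by
    have := hFp 0
    rwa [zero_add] at this
  have h3 : φ 1 = φ 0 + 1 := by
    have := hper 0
    rwa [zero_add] at this
  rw [h2, h3, shiftLaw_exp, sub_self, intervalIntegral.integral_sub hi1 hi2,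
    intervalIntegral.integral_const_mul, sub_eq_zero] at h1
  -- the integral of `F' E`
  have hyc : Continuous y := by
    obtain ⟨ψ, hψc, -, hψφ, -⟩ := shiftLaw_inv φ φ' hφ hpos hper
    have h4 : y = fun x => ψ (φ x + ω) := funext (fun x => by rw [← hy, hψφ])
    rw [h4]
    fun_prop
  have hi3 : IntervalIntegrable (fun x : ℝ => W (y x) *
      exp (-(2 * π * I * m * (φ x : ℂ))) * φ' x) volume 0 1 := by
    apply Continuous.intervalIntegrable
    fun_prop
  have hi4 : IntervalIntegrable (fun x : ℝ => W x *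
      exp (-(2 * π * I * m * (φ x : ℂ))) * φ' x) volume 0 1 := by
    apply Continuous.intervalIntegrable
    fun_prop
  have h5 : ∀ x : ℝ, F' x * exp (-(2 * π * I * m * (φ x : ℂ))) =
      c * (W (y x) * exp (-(2 * π * I * m * (φ x : ℂ))) * φ' x -
        W x * exp (-(2 * π * I * m * (φ x : ℂ))) * φ' x) := by
    intro x
    rw [hFW]
    ring
  have h6 : ∫ x in (0 : ℝ)..1, F' x * exp (-(2 * π * I * m * (φ x : ℂ))) = 0 := by
    simp only [h5]
    rw [intervalIntegral.integral_const_mul, intervalIntegral.integral_sub hi3 hi4,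
      shift_int φ φ' hφ hc hpos hper y ω hy W hW hWp m]
    obtain ⟨k, hk⟩ := hmω
    have h7 : exp (2 * π * I * m * ω) = 1 := by
      have h8 : 2 * π * I * m * (ω : ℂ) = (k : ℂ) * (2 * π * I) := by
        have h9 : (m : ℂ) * (ω : ℂ) = k := by exact_mod_cast congrArg (fun t : ℝ => (t : ℂ)) hk
        rw [← h9]
        ring
      rw [h8, Complex.exp_int_mul_two_pi_mul_I]
    rw [h7, one_mul, sub_self, mul_zero]
  rw [h6] at h1
  have h10 : (2 * π * I * m : ℂ) ≠ 0 := by
    have hm' : (m : ℂ) ≠ 0 := by exact_mod_cast hm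
    have hπ : (π : ℂ) ≠ 0 := by exact_mod_cast Real.pi_ne_zero
    exact mul_ne_zero (mul_ne_zero (mul_ne_zero two_ne_zero hπ) I_ne_zero) hm'
  exact (mul_eq_zero.1 h1.symm).resolve_left h10

end Pool.Agent.MP_ae5b4e_an_LOC
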